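import Mathlib

/-! MP_313bb4, piece P7, the algebra: an absolutely integrally closed domain with finitely many
    but more than one maximal ideals; elements cutting out two maximal ideals via the Jacobson
    radical; the prime `q`; a primitive `q`-th root of unity; elements `c_i`. -/

set_option autoImplicit false

namespace Pool.Agent.AIC

open Finset Polynomial

/-- first-order form of membership in the Jacobson radical -/
def Jm {R : Type} [CommRing R] (w : R) : Prop := ∀ r : R, ∃ s : R, (1 + r * w) * s = 1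

section A1

variable {R : Type} [CommRing R]

theorem Jm_iff (w : R) : Jm w ↔ ∀ M : Ideal R, M.IsMaximal → w ∈ M := by
  have h1 : Jm w ↔ w ∈ Ideal.jacobson (⊥ : Ideal R) := by
    rw [Ideal.mem_jacobson_bot]
    constructor
    · intro h y
      obtain ⟨s, hs⟩ := h y
      have h2 : w * y + 1 = 1 + y * w := by ring
      rw [h2]
      exact IsUnit.of_mul_eq_one s hs
    · intro h r
      obtain ⟨s, hs⟩ := (h r).exists_right_inv
      exact ⟨s, by linear_combination hs⟩
  rw [h1, Ideal.jacobson, Ideal.mem_sInf]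
  constructor
  · intro h M hM
    exact h ⟨bot_le, hM⟩
  · intro h M hM
    exact h M hM.2

/-- comaximal elements in distinct maximal ideals -/
theorem exists_comax (S : Finset (MaximalSpectrum R)) :
    ∀ T : Finset (MaximalSpectrum R), Disjoint S T →
    ∃ u : MaximalSpectrum R → R, (∀ m ∈ S, u m ∈ m.asIdeal) ∧
      (∀ m ∈ S, ∀ m' ∈ S, m ≠ m' → IsCoprime (u m) (u m')) ∧
      (∀ m ∈ S, ∀ m' ∈ T, u m - 1 ∈ m'.asIdeal) := by
  classical
  induction S using Finset.induction_on with
  | empty =>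
    intro T _
    exact ⟨fun _ => 0, by simp, by simp, by simp⟩
  | insert a S ha ih =>
    intro T hT
    rw [Finset.disjoint_insert_left] at hT
    obtain ⟨u, hu1, hu2, hu3⟩ := ih (insert a T) (by
      rw [Finset.disjoint_insert_right]
      exact ⟨ha, hT.2⟩)
    -- the ideal
    have hcop : IsCoprime a.asIdeal
        (Ideal.span {∏ m ∈ S, u m} * ∏ m ∈ T, m.asIdeal) := by
      refine IsCoprime.mul_right ?_ ?_
      · rw [Ideal.isCoprime_iff_exists]
        have h1 : ∏ m ∈ S, u m - 1 ∈ a.asIdeal := by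
          rw [← Ideal.Quotient.mk_eq_mk_iff_sub_mem, map_prod, map_one]
          refine Finset.prod_eq_one fun m hm => ?_
          rw [← map_one (Ideal.Quotient.mk a.asIdeal), Ideal.Quotient.mk_eq_mk_iff_sub_mem]
          exact hu3 m hm a (Finset.mem_insert_self _ _)
        refine ⟨1 - ∏ m ∈ S, u m, ?_, ∏ m ∈ S, u m, Ideal.mem_span_singleton_self _, by ring⟩
        have h2 : 1 - ∏ m ∈ S, u m = -(∏ m ∈ S, u m - 1) := by ring
        rw [h2]
        exact neg_mem h1
      · refine IsCoprime.prod_right fun m hm => ?_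
        rw [Ideal.isCoprime_iff_sup_eq]
        refine Ideal.IsMaximal.coprime_of_ne a.isMaximal m.isMaximal fun h => ?_
        have : a = m := MaximalSpectrum.ext h
        exact hT.1 (this ▸ hm)
    obtain ⟨x, hx, y, hy, hxy⟩ := Ideal.isCoprime_iff_exists.mp hcop
    have hy1 : y ∈ Ideal.span {∏ m ∈ S, u m} :=
      (Ideal.mul_le_right (I := ∏ m ∈ T, m.asIdeal) (J := Ideal.span {∏ m ∈ S, u m}))
        (by rw [mul_comm]; exact hy)
    have hy2 : ∀ m ∈ T, y ∈ m.asIdeal := by
      intro m hm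
      have h3 : y ∈ ∏ m ∈ T, m.asIdeal :=
        (Ideal.mul_le_left (I := ∏ m ∈ T, m.asIdeal) (J := Ideal.span {∏ m ∈ S, u m}))
          (by rw [mul_comm]; exact hy)
      have h6 : (∏ m ∈ T, m.asIdeal) ≤ T.inf (fun m => m.asIdeal) := Ideal.prod_le_inf
      have h7 : T.inf (fun m => m.asIdeal) ≤ m.asIdeal := Finset.inf_le hm
      exact h7 (h6 h3)
    have hxu : ∀ m ∈ S, IsCoprime x (u m) := by
      intro m hm
      obtain ⟨z, hz⟩ := Ideal.mem_span_singleton'.mp hy1
      have h4 : u m ∣ ∏ m ∈ S, u m := Finset.dvd_prod_of_mem u hm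
      obtain ⟨w, hw⟩ := h4
      refine ⟨1, z * w, ?_⟩
      linear_combination hxy + hz - z * hw
    refine ⟨fun m => if m = a then x else u m, ?_, ?_, ?_⟩
    · intro m hm
      by_cases hma : m = a
      · simp only [hma, if_true]
        exact hx
      · simp only [hma, if_false]
        exact hu1 m ((Finset.mem_insert.mp hm).resolve_left hma)
    · intro m hm m' hm' hne
      by_cases hma : m = a
      · have hma' : m' ≠ a := fun h => hne (hma.trans h.symm)
        simp only [hma, if_true, hma', if_false]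
        exact hxu m' ((Finset.mem_insert.mp hm').resolve_left hma')
      · by_cases hma' : m' = a
        · simp only [hma, if_false, hma', if_true]
          exact (hxu m ((Finset.mem_insert.mp hm).resolve_left hma)).symm
        · simp only [hma, hma', if_false]
          exact hu2 m ((Finset.mem_insert.mp hm).resolve_left hma) m'
            ((Finset.mem_insert.mp hm').resolve_left hma') hne
    · intro m hm m' hm'
      by_cases hma : m = a
      · simp only [hma, if_true]
        have h5 : x - 1 = -y := by rw [← hxy]; ring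
        rw [h5]
        exact neg_mem (hy2 m' hm')
      · simp only [hma, if_false]
        exact hu3 m ((Finset.mem_insert.mp hm).resolve_left hma) m'
          (Finset.mem_insert_of_mem hm')

/-- a ring in which divisibility does not shatter has finitely many maximal ideals -/
theorem finite_maximal
    (h : ∃ n : ℕ, ¬ ∃ (u : Fin n → R) (b : Finset (Fin n) → R),
      ∀ (i : Fin n) (J : Finset (Fin n)), (u i ∣ b J ↔ i ∈ J)) :
    Finite (MaximalSpectrum R) := by
  classical
  by_contra hinf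
  rw [not_finite_iff_infinite] at hinf
  obtain ⟨n, hn⟩ := h
  apply hn
  have e : Fin n ↪ MaximalSpectrum R :=
    (Fin.valEmbedding).trans (Infinite.natEmbedding (MaximalSpectrum R))
  obtain ⟨u, hu1, hu2, -⟩ := exists_comax (Finset.univ.map e) ∅ (Finset.disjoint_empty_right _)
  have hcop : ∀ i j : Fin n, i ≠ j → IsCoprime (u (e i)) (u (e j)) := by
    intro i j hij
    exact hu2 _ (Finset.mem_map_of_mem e (Finset.mem_univ i)) _
      (Finset.mem_map_of_mem e (Finset.mem_univ j)) (fun h => hij (e.injective h))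
  refine ⟨fun i => u (e i), fun J => ∏ j ∈ J, u (e j), fun i J => ⟨fun hd => ?_, fun hi => ?_⟩⟩
  · by_contra hi
    have h1 : IsCoprime (u (e i)) (∏ j ∈ J, u (e j)) :=
      IsCoprime.prod_right fun j hj => hcop i j (fun h => hi (h ▸ hj))
    have h2 : IsUnit (u (e i)) := h1.isUnit_of_dvd' dvd_rfl hd
    exact (e i).isMaximal.ne_top (Ideal.eq_top_of_isUnit_mem _
      (hu1 _ (Finset.mem_map_of_mem e (Finset.mem_univ i))) h2)
  · exact Finset.dvd_prod_of_mem (fun j => u (e j)) hi

end A1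

section A2

variable {R : Type} [CommRing R]

/-- an element outside `m` and inside all other maximal ideals -/
theorem exists_e [Finite (MaximalSpectrum R)] (m : Ideal R) (hm : m.IsMaximal) :
    ∃ e : R, ∀ z : R, Jm (e * z) ↔ z ∈ m := by
  classical
  have := Fintype.ofFinite (MaximalSpectrum R)
  have hcop : IsCoprime m (∏ M ∈ (Finset.univ : Finset (MaximalSpectrum R)).erase ⟨m, hm⟩,
      M.asIdeal) := by
    refine IsCoprime.prod_right fun M hM => ?_
    rw [Ideal.isCoprime_iff_sup_eq]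
    refine Ideal.IsMaximal.coprime_of_ne hm M.isMaximal fun h => ?_
    exact (Finset.mem_erase.mp hM).1 (MaximalSpectrum.ext h.symm)
  obtain ⟨x, hx, y, hy, hxy⟩ := Ideal.isCoprime_iff_exists.mp hcop
  have hy2 : ∀ M : Ideal R, M.IsMaximal → M ≠ m → y ∈ M := by
    intro M hM hne
    have h1 : (⟨M, hM⟩ : MaximalSpectrum R) ∈
        (Finset.univ : Finset (MaximalSpectrum R)).erase ⟨m, hm⟩ := by
      refine Finset.mem_erase.mpr ⟨fun h => hne ?_, Finset.mem_univ _⟩
      exact congrArg MaximalSpectrum.asIdeal h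
    have h6 := Ideal.prod_le_inf
      (s := (Finset.univ : Finset (MaximalSpectrum R)).erase ⟨m, hm⟩)
      (f := fun M : MaximalSpectrum R => M.asIdeal)
    have h7 := Finset.inf_le (f := fun M : MaximalSpectrum R => M.asIdeal) h1
    exact h7 (h6 hy)
  have hym : y ∉ m := fun h => hm.ne_top ((Ideal.eq_top_iff_one _).mpr (hxy ▸ add_mem hx h))
  refine ⟨y, fun z => ?_⟩
  rw [Jm_iff]
  constructor
  · intro h
    exact (hm.isPrime.mem_or_mem (h m hm)).resolve_left hym
  · intro h M hM
    by_cases hne : M = m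
    · rw [hne]
      exact Ideal.mul_mem_left _ _ h
    · exact Ideal.mul_mem_right _ _ (hy2 M hM hne)

theorem exists_two [Nontrivial R] (h : ¬ IsLocalRing R) :
    ∃ m₁ m₂ : Ideal R, m₁.IsMaximal ∧ m₂.IsMaximal ∧ m₁ ≠ m₂ := by
  by_contra hcon
  push Not at hcon
  apply h
  obtain ⟨m, hm⟩ := Ideal.exists_maximal R
  exact IsLocalRing.of_unique_max_ideal ⟨m, hm, fun m' hm' => hcon m' m hm' hm⟩

/-- one of the primes 2, 3, 5 is outside both maximal ideals -/
theorem exists_q (m₁ m₂ : Ideal R) (h1 : m₁.IsMaximal) (h2 : m₂.IsMaximal) :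
    ∃ q : ℕ, q.Prime ∧ (q : R) ∉ m₁ ∧ (q : R) ∉ m₂ := by
  have key : ∀ m : Ideal R, m.IsMaximal →
      ¬ ((2 : R) ∈ m ∧ (3 : R) ∈ m) ∧ ¬ ((2 : R) ∈ m ∧ (5 : R) ∈ m) ∧
      ¬ ((3 : R) ∈ m ∧ (5 : R) ∈ m) := by
    intro m hm
    have hne := hm.ne_top
    refine ⟨fun h => hne ?_, fun h => hne ?_, fun h => hne ?_⟩
    · rw [Ideal.eq_top_iff_one]
      have := sub_mem h.2 h.1
      norm_num at this
      exact this
    · rw [Ideal.eq_top_iff_one]
      have := sub_mem h.2 (Ideal.mul_mem_left m 2 h.1)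
      norm_num at this
      exact this
    · rw [Ideal.eq_top_iff_one]
      have := sub_mem (Ideal.mul_mem_left m 2 h.1) h.2
      norm_num at this
      exact this
  have k1 := key m₁ h1
  have k2 := key m₂ h2
  by_cases a2 : (2 : R) ∈ m₁ ∨ (2 : R) ∈ m₂
  · by_cases a3 : (3 : R) ∈ m₁ ∨ (3 : R) ∈ m₂
    · refine ⟨5, by norm_num, ?_, ?_⟩
      · intro h5
        rw [Nat.cast_ofNat] at h5
        tauto
      · intro h5
        rw [Nat.cast_ofNat] at h5
        tauto
    · push Not at a3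
      exact ⟨3, by norm_num, by rw [Nat.cast_ofNat]; exact a3.1, by rw [Nat.cast_ofNat]; exact a3.2⟩
  · push Not at a2
    exact ⟨2, by norm_num, by rw [Nat.cast_ofNat]; exact a2.1, by rw [Nat.cast_ofNat]; exact a2.2⟩

end A2

section A3

variable {R : Type} [CommRing R]

/-- the residue fields of an absolutely integrally closed ring are algebraically closed -/
theorem residue_algClosed
    (hR : ∀ f : R[X], f.Monic → 0 < f.natDegree → ∃ r, f.IsRoot r)
    (m : Ideal R) [hm : m.IsMaximal] :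
    letI := Ideal.Quotient.field m
    IsAlgClosed (R ⧸ m) := by
  let _ := Ideal.Quotient.field m
  refine IsAlgClosed.of_exists_root _ fun p hp hirr => ?_
  have hlift : p ∈ Polynomial.lifts (Ideal.Quotient.mk m) := by
    obtain ⟨g, hg⟩ := Polynomial.map_surjective (Ideal.Quotient.mk m)
      Ideal.Quotient.mk_surjective p
    exact ⟨g, hg⟩
  obtain ⟨g, hg, hdeg, hmon⟩ := Polynomial.lifts_and_natDegree_eq_and_monic hlift hp
  obtain ⟨r, hr⟩ := hR g hmon (by
    rw [hdeg]
    exact hirr.natDegree_pos)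
  refine ⟨Ideal.Quotient.mk m r, ?_⟩
  rw [← hg, Polynomial.eval_map, Polynomial.eval₂_hom, hr, map_zero]

/-- in an algebraically closed field, for every finite set `S` there is a nonzero `x` such that
`x ^ q` is not a `q`-th power of an element of `S` -/
theorem exists_avoid {K : Type} [Field K] [IsAlgClosed K] (q : ℕ) (hq : 0 < q) (S : Finset K) :
    ∃ x : K, x ≠ 0 ∧ ∀ s ∈ S, x ^ q ≠ s ^ q := by
  classical
  obtain ⟨z, hz⟩ := Infinite.exists_notMem_finset (insert (0 : K) (S.image (fun s => s ^ q)))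
  obtain ⟨x, hx⟩ := IsAlgClosed.exists_pow_nat_eq z hq
  refine ⟨x, ?_, ?_⟩
  · rintro rfl
    apply hz
    rw [zero_pow hq.ne'] at hx
    rw [← hx]
    exact Finset.mem_insert_self _ _
  · intro s hs h
    apply hz
    rw [← hx, h]
    exact Finset.mem_insert_of_mem (Finset.mem_image_of_mem (fun s => s ^ q) hs)

theorem exists_c
    (hR : ∀ f : R[X], f.Monic → 0 < f.natDegree → ∃ r, f.IsRoot r)
    (m₁ m₂ : Ideal R) [m₁.IsMaximal] [m₂.IsMaximal] (h12 : m₁ ≠ m₂) (q : ℕ) (hq : 0 < q)
    (n : ℕ) :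
    ∃ c : Fin n → R, (∀ i, c i ∉ m₁) ∧ (∀ i, c i ∉ m₂) ∧
      (∀ i j, i ≠ j → c i ^ q - c j ^ q ∉ m₁) ∧ (∀ i j, i ≠ j → c i ^ q - c j ^ q ∉ m₂) := by
  classical
  let f1 := Ideal.Quotient.field m₁
  let f2 := Ideal.Quotient.field m₂
  have ac1 : IsAlgClosed (R ⧸ m₁) := residue_algClosed hR m₁
  have ac2 : IsAlgClosed (R ⧸ m₂) := residue_algClosed hR m₂
  have hcop : IsCoprime m₁ m₂ := by
    rw [Ideal.isCoprime_iff_sup_eq]
    exact Ideal.IsMaximal.coprime_of_ne inferInstance inferInstance h12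
  obtain ⟨a, ha, b, hb, hab⟩ := Ideal.isCoprime_iff_exists.mp hcop
  -- simultaneous lifting
  have lift : ∀ x y : R, ∃ c : R, c - x ∈ m₁ ∧ c - y ∈ m₂ := by
    intro x y
    refine ⟨x * b + y * a, ?_, ?_⟩
    · have h1 : x * b + y * a - x = (y - x) * a := by linear_combination x * hab
      rw [h1]
      exact Ideal.mul_mem_left _ _ ha
    · have h1 : x * b + y * a - y = (x - y) * b := by linear_combination y * hab
      rw [h1]
      exact Ideal.mul_mem_left _ _ hb
  -- one step
  have step : ∀ S : Finset R, ∃ c : R, c ∉ m₁ ∧ c ∉ m₂ ∧ ∀ s ∈ S, c ^ q - s ^ q ∉ m₁ ∧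
      c ^ q - s ^ q ∉ m₂ := by
    intro S
    obtain ⟨x, hx0, hx⟩ := exists_avoid (K := R ⧸ m₁) q hq (S.image (Ideal.Quotient.mk m₁))
    obtain ⟨y, hy0, hy⟩ := exists_avoid (K := R ⧸ m₂) q hq (S.image (Ideal.Quotient.mk m₂))
    obtain ⟨x', rfl⟩ := Ideal.Quotient.mk_surjective x
    obtain ⟨y', rfl⟩ := Ideal.Quotient.mk_surjective y
    obtain ⟨c, hc1, hc2⟩ := lift x' y'
    have e1 : Ideal.Quotient.mk m₁ c = Ideal.Quotient.mk m₁ x' :=
      (Ideal.Quotient.mk_eq_mk_iff_sub_mem _ _).mpr hc1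
    have e2 : Ideal.Quotient.mk m₂ c = Ideal.Quotient.mk m₂ y' :=
      (Ideal.Quotient.mk_eq_mk_iff_sub_mem _ _).mpr hc2
    refine ⟨c, ?_, ?_, ?_⟩
    · intro h
      apply hx0
      rw [← e1]
      exact Ideal.Quotient.eq_zero_iff_mem.mpr h
    · intro h
      apply hy0
      rw [← e2]
      exact Ideal.Quotient.eq_zero_iff_mem.mpr h
    · intro s hs
      constructor
      · intro h
        have h2 := (Ideal.Quotient.mk_eq_mk_iff_sub_mem _ _).mpr h
        rw [map_pow, map_pow, e1] at h2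
        exact hx _ (Finset.mem_image_of_mem _ hs) h2
      · intro h
        have h2 := (Ideal.Quotient.mk_eq_mk_iff_sub_mem _ _).mpr h
        rw [map_pow, map_pow, e2] at h2
        exact hy _ (Finset.mem_image_of_mem _ hs) h2
  -- induction
  induction n with
  | zero => exact ⟨fun i => i.elim0, fun i => i.elim0, fun i => i.elim0, fun i => i.elim0,
      fun i => i.elim0⟩
  | succ n ih =>
    obtain ⟨c, hc1, hc2, hc3, hc4⟩ := ih
    obtain ⟨d, hd1, hd2, hd3⟩ := step (Finset.univ.image c)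
    have hd : ∀ i, d ^ q - c i ^ q ∉ m₁ ∧ d ^ q - c i ^ q ∉ m₂ := fun i =>
      hd3 (c i) (Finset.mem_image_of_mem _ (Finset.mem_univ i))
    refine ⟨Fin.cons d c, ?_, ?_, ?_, ?_⟩
    · intro i
      refine Fin.cases ?_ (fun i => ?_) i
      · simpa using hd1
      · simpa using hc1 i
    · intro i
      refine Fin.cases ?_ (fun i => ?_) i
      · simpa using hd2
      · simpa using hc2 i
    · intro i j
      refine Fin.cases ?_ (fun i => ?_) i
      · refine Fin.cases ?_ (fun j => ?_) j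
        · intro h
          exact absurd rfl h
        · intro _
          simpa using (hd j).1
      · refine Fin.cases ?_ (fun j => ?_) j
        · intro _ h
          apply (hd i).1
          have h2 : d ^ q - c i ^ q = -(c i ^ q - d ^ q) := by ring
          rw [h2]
          exact neg_mem (by simpa using h)
        · intro hne
          simpa using hc3 i j (fun h => hne (by rw [h]))
    · intro i j
      refine Fin.cases ?_ (fun i => ?_) i
      · refine Fin.cases ?_ (fun j => ?_) j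
        · intro h
          exact absurd rfl h
        · intro _
          simpa using (hd j).2
      · refine Fin.cases ?_ (fun j => ?_) j
        · intro _ h
          apply (hd i).2
          have h2 : d ^ q - c i ^ q = -(c i ^ q - d ^ q) := by ring
          rw [h2]
          exact neg_mem (by simpa using h)
        · intro hne
          simpa using hc4 i j (fun h => hne (by rw [h]))

theorem exists_zeta
    (hR : ∀ f : R[X], f.Monic → 0 < f.natDegree → ∃ r, f.IsRoot r) [Nontrivial R]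
    (q : ℕ) (hq : 2 ≤ q) : ∃ ζ : R, ∑ j ∈ range q, ζ ^ j = 0 := by
  obtain ⟨r, hr⟩ := hR (∑ j ∈ range q, X ^ j) (Polynomial.monic_geom_sum_X (by omega)) (by
    have h1 : (∑ j ∈ range q, (X : R[X]) ^ j).coeff 1 ≠ 0 := by
      rw [Polynomial.finsetSum_coeff]
      simp only [Polynomial.coeff_X_pow]
      rw [Finset.sum_ite_eq, if_pos (Finset.mem_range.mpr (by omega))]
      exact one_ne_zero
    exact lt_of_lt_of_le Nat.zero_lt_one (Polynomial.le_natDegree_of_ne_zero h1))
  refine ⟨r, ?_⟩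
  have : (∑ j ∈ range q, (X : R[X]) ^ j).eval r = 0 := hr
  rw [Polynomial.eval_finsetSum] at this
  simpa using this

end A3

section A5

variable {R : Type} [CommRing R] [IsDomain R]

theorem splits_prod
    (hR : ∀ f : R[X], f.Monic → 0 < f.natDegree → ∃ r, f.IsRoot r) :
    ∀ (n : ℕ) (f : R[X]), f.Monic → f.natDegree = n →
      ∃ s : Multiset R, f = (s.map (fun r => X - C r)).prod := by
  intro n
  induction n with
  | zero =>
    intro f hf hn
    refine ⟨0, ?_⟩
    simpa using hf.natDegree_eq_zero.mp hn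
  | succ n ih =>
    intro f hf hn
    obtain ⟨r, hr⟩ := hR f hf (by omega)
    obtain ⟨g, hg⟩ := Polynomial.dvd_iff_isRoot.mpr hr
    have hgm : g.Monic := (Polynomial.monic_X_sub_C r).of_mul_monic_left (hg ▸ hf)
    have hgd : g.natDegree = n := by
      have h1 := congrArg Polynomial.natDegree hg
      rw [(Polynomial.monic_X_sub_C r).natDegree_mul hgm, Polynomial.natDegree_X_sub_C, hn] at h1
      omega
    obtain ⟨s, hs⟩ := ih g hgm hgd
    refine ⟨r ::ₘ s, ?_⟩
    rw [Multiset.map_cons, Multiset.prod_cons, ← hs, ← hg]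

/-- a local absolutely integrally closed domain is Henselian -/
theorem henselian_of_local
    (hR : ∀ f : R[X], f.Monic → 0 < f.natDegree → ∃ r, f.IsRoot r)
    (hloc : IsLocalRing R) : HenselianLocalRing R where
  is_henselian := by
    intro f hf a₀ h0 _
    obtain ⟨s, hs⟩ := splits_prod hR f.natDegree f hf rfl
    have h1 : f.eval a₀ = (s.map (fun r => a₀ - r)).prod := by
      conv_lhs => rw [hs]
      rw [Polynomial.eval_multiset_prod, Multiset.map_map]
      congr 1
      refine Multiset.map_congr rfl fun r _ => ?_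
      simp
    rw [h1] at h0
    have hp : (IsLocalRing.maximalIdeal R).IsPrime := inferInstance
    obtain ⟨t, ht, ht2⟩ := hp.multiset_prod_mem_iff_exists_mem _ |>.mp h0
    obtain ⟨r, hr, rfl⟩ := Multiset.mem_map.mp ht
    refine ⟨r, ?_, ?_⟩
    · rw [hs, Polynomial.IsRoot.def, Polynomial.eval_multiset_prod, Multiset.map_map]
      refine Multiset.prod_eq_zero ?_
      rw [Multiset.mem_map]
      exact ⟨r, hr, by simp⟩
    · have h2 : r - a₀ = -(a₀ - r) := by ring
      rw [h2]
      exact neg_mem ht2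

end A5

section A6

variable {R : Type} [CommRing R] [IsDomain R]

omit [IsDomain R] in
/-- a root of `1 + X + ... + X^(q-1)` is, modulo an ideal not containing `q`, a primitive
`q`-th root of unity -/
theorem zeta_pow_sub_one_notMem (q : ℕ) (hq : q.Prime) (ζ : R) (hζ : ∑ j ∈ range q, ζ ^ j = 0)
    (m : Ideal R) (hqm : (q : R) ∉ m) (j : ℕ) (hj0 : 0 < j) (hjq : j < q) :
    ζ ^ j - 1 ∉ m := by
  intro h
  have hz : (Ideal.Quotient.mk m ζ) ^ j = 1 := by
    rw [← map_pow, ← map_one (Ideal.Quotient.mk m)]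
    exact (Ideal.Quotient.mk_eq_mk_iff_sub_mem _ _).mpr h
  have hsum : ∑ j ∈ range q, (Ideal.Quotient.mk m ζ) ^ j = 0 := by
    have := congrArg (Ideal.Quotient.mk m) hζ
    simpa using this
  have hzq : (Ideal.Quotient.mk m ζ) ^ q = 1 := by
    have := mul_geom_sum (Ideal.Quotient.mk m ζ) q
    rw [hsum, mul_zero] at this
    exact (sub_eq_zero.mp this.symm)
  have hone : (Ideal.Quotient.mk m ζ) = 1 := by
    have h1 : orderOf (Ideal.Quotient.mk m ζ) ∣ j := orderOf_dvd_of_pow_eq_one hz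
    have h2 : orderOf (Ideal.Quotient.mk m ζ) ∣ q := orderOf_dvd_of_pow_eq_one hzq
    rcases (Nat.dvd_prime hq).mp h2 with h3 | h3
    · exact orderOf_eq_one_iff.mp h3
    · exfalso
      rw [h3] at h1
      exact absurd (Nat.le_of_dvd hj0 h1) (by omega)
  rw [hone] at hsum
  apply hqm
  rw [← Ideal.Quotient.eq_zero_iff_mem, map_natCast]
  simpa using hsum

/-- the conclusion of Claim P for all sign vectors -/
def ClaimP (R : Type) [CommRing R] : Prop :=
  ∀ (n : ℕ) (q : ℕ), q.Prime → 0 < n →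
    ∀ (m₁ m₂ : Ideal R), m₁.IsMaximal → m₂.IsMaximal → m₁ ≠ m₂ →
    (q : R) ∉ m₁ → (q : R) ∉ m₂ → ∀ ζ : R, ∑ j ∈ range q, ζ ^ j = 0 →
    ∀ c : Fin n → R, (∀ i, c i ∉ m₁) → (∀ i, c i ∉ m₂) →
    (∀ i j, i ≠ j → c i ^ q - c j ^ q ∉ m₁) → (∀ i j, i ≠ j → c i ^ q - c j ^ q ∉ m₂) →
    ∀ ε : Fin n → ZMod q,
    ∃ (x : R) (y : Fin n → R), x ∈ m₁ ∧ x ∈ m₂ ∧ (∀ i, y i ^ q = x + c i ^ q) ∧
      (∀ i, y i - c i ∈ m₁) ∧ (∀ i, y i - ζ ^ (ε i).val * c i ∈ m₂)

/-- the end of the proof -/
theorem local_of_claimP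
    (hR : ∀ f : R[X], f.Monic → 0 < f.natDegree → ∃ r, f.IsRoot r)
    (hP : ClaimP R)
    (hdiv : ∃ n : ℕ, ¬ ∃ (u : Fin n → R) (b : Finset (Fin n) → R),
      ∀ (i : Fin n) (J : Finset (Fin n)), (u i ∣ b J ↔ i ∈ J))
    (hpow : ∀ q : ℕ, ∃ n : ℕ, ¬ ∃ (c : Fin n → R) (e₁ e₂ : R) (x : Finset (Fin n) → R),
      ∀ (i : Fin n) (J : Finset (Fin n)),
        ((∃ y : R, y ^ q = x J + c i ^ q ∧ Jm (e₁ * (y - c i)) ∧ Jm (e₂ * (y - c i))) ↔ i ∈ J)) :
    IsLocalRing R := by
  classical
  by_contra hloc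
  have hfin := finite_maximal hdiv
  obtain ⟨m₁, m₂, h1, h2, h12⟩ := exists_two hloc
  obtain ⟨e₁, he₁⟩ := exists_e m₁ h1
  obtain ⟨e₂, he₂⟩ := exists_e m₂ h2
  obtain ⟨q, hq, hq1, hq2⟩ := exists_q m₁ m₂ h1 h2
  obtain ⟨ζ, hζ⟩ := exists_zeta hR q hq.two_le
  obtain ⟨n, hn⟩ := hpow q
  apply hn
  rcases Nat.eq_zero_or_pos n with rfl | hn0
  · exact ⟨fun i => i.elim0, 0, 0, fun _ => 0, fun i => i.elim0⟩
  obtain ⟨c, hc1, hc2, hd1, hd2⟩ := exists_c hR m₁ m₂ h12 q hq.pos n
  have hall : ∀ J : Finset (Fin n), ∃ (x : R) (y : Fin n → R), x ∈ m₁ ∧ x ∈ m₂ ∧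
      (∀ i, y i ^ q = x + c i ^ q) ∧ (∀ i, y i - c i ∈ m₁) ∧
      (∀ i, y i - ζ ^ (if i ∈ J then (0 : ZMod q) else 1).val * c i ∈ m₂) := fun J =>
    hP n q hq hn0 m₁ m₂ h1 h2 h12 hq1 hq2 ζ hζ c hc1 hc2 hd1 hd2
      (fun i => if i ∈ J then (0 : ZMod q) else 1)
  choose x y _ _ hy hy1 hy2 using hall
  refine ⟨c, e₁, e₂, x, fun i J => ⟨?_, ?_⟩⟩
  · rintro ⟨w, hw, hw1, hw2⟩
    rw [he₁] at hw1
    rw [he₂] at hw2
    by_contra hi
    have h3 := hy2 J i
    rw [if_neg hi] at h3
    have hone : (1 : ZMod q).val = 1 := by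
      have : Fact (1 < q) := ⟨hq.one_lt⟩
      exact ZMod.val_one q
    rw [hone, pow_one] at h3
    -- ζ is a primitive q-th root of unity
    have hq0 : (q : R) ∉ (⊥ : Ideal R) := fun h => hq1 ((bot_le : (⊥ : Ideal R) ≤ m₁) h)
    have hprim : IsPrimitiveRoot ζ q := by
      rw [IsPrimitiveRoot.iff hq.pos]
      constructor
      · have := mul_geom_sum ζ q
        rw [hζ, mul_zero] at this
        exact (sub_eq_zero.mp this.symm)
      · intro l hl0 hlq hl
        apply zeta_pow_sub_one_notMem q hq ζ hζ ⊥ hq0 l hl0 hlq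
        rw [hl, sub_self]
        exact zero_mem _
    have hprod : ∏ μ ∈ nthRootsFinset q (1 : R), (w - μ * y J i) = 0 := by
      rw [← hprim.pow_sub_pow_eq_prod_sub_mul w (y J i) hq.pos, hw, hy J i, sub_self]
    obtain ⟨μ, hμ, hμ2⟩ := Finset.prod_eq_zero_iff.mp hprod
    have hμq : μ ^ q = 1 := by
      rwa [mem_nthRootsFinset hq.pos] at hμ
    have : NeZero q := ⟨hq.ne_zero⟩
    obtain ⟨j, hj, rfl⟩ := hprim.eq_pow_of_pow_eq_one hμq
    have hw3 : w = ζ ^ j * y J i := sub_eq_zero.mp hμ2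
    rcases Nat.eq_zero_or_pos j with rfl | hj0
    · rw [pow_zero, one_mul] at hw3
      -- w = y J i
      have h4 : (ζ ^ 1 - 1) * c i ∈ m₂ := by
        have h5 := sub_mem hw2 h3
        rw [hw3] at h5
        have h6 : (ζ ^ 1 - 1) * c i = y J i - c i - (y J i - ζ * c i) := by ring
        rw [h6]
        exact h5
      rcases h2.isPrime.mem_or_mem h4 with h5 | h5
      · exact zeta_pow_sub_one_notMem q hq ζ hζ m₂ hq2 1 one_pos hq.one_lt h5
      · exact hc2 i h5
    · have h4 : (ζ ^ j - 1) * c i ∈ m₁ := by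
        have h5 := hy1 J i
        have h6 : (ζ ^ j - 1) * c i = (w - c i) - ζ ^ j * (y J i - c i) := by
          rw [hw3]; ring
        rw [h6]
        exact sub_mem hw1 (Ideal.mul_mem_left _ _ h5)
      rcases h1.isPrime.mem_or_mem h4 with h5 | h5
      · exact zeta_pow_sub_one_notMem q hq ζ hζ m₁ hq1 j hj0 hj h5
      · exact hc1 i h5
  · intro hi
    have h3 := hy2 J i
    rw [if_pos hi, ZMod.val_zero, pow_zero, one_mul] at h3
    exact ⟨y J i, hy J i, (he₁ _).mpr (hy1 J i), (he₂ _).mpr h3⟩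

end A6

end Pool.Agent.AIC
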