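import Pool.Agent.AIC.Alg83

/-! MP_313bb4, second stage (Theorem H), the algebra around Claim H: infinite residue fields,
    the element `u`, and the end of the proof. -/

set_option autoImplicit false

namespace Pool.Agent.AIC

open Finset Polynomial

section general

variable {R : Type} [CommRing R]

/-- in an infinite field, for every finite set `S` there is a nonzero `x` such that
`x ^ q` is not a `q`-th power of an element of `S` -/
theorem exists_avoid_inf {K : Type} [Field K] [Infinite K] (q : ℕ) (hq : 0 < q) (S : Finset K) :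
    ∃ x : K, x ≠ 0 ∧ ∀ s ∈ S, x ^ q ≠ s ^ q := by
  classical
  obtain ⟨x, hx⟩ := Infinite.exists_notMem_finset
    (insert (0 : K) (S.biUnion fun s => (X ^ q - C (s ^ q) : K[X]).roots.toFinset))
  rw [Finset.mem_insert, not_or] at hx
  refine ⟨x, hx.1, fun s hs h => hx.2 ?_⟩
  refine Finset.mem_biUnion.mpr ⟨s, hs, ?_⟩
  rw [Multiset.mem_toFinset, Polynomial.mem_roots (Polynomial.X_pow_sub_C_ne_zero hq _)]
  simp [h]

theorem exists_c_inf
    (m₁ m₂ : Ideal R) [m₁.IsMaximal] [m₂.IsMaximal] (h12 : m₁ ≠ m₂)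
    (hi1 : Infinite (R ⧸ m₁)) (hi2 : Infinite (R ⧸ m₂)) (q : ℕ) (hq : 0 < q)
    (n : ℕ) :
    ∃ c : Fin n → R, (∀ i, c i ∉ m₁) ∧ (∀ i, c i ∉ m₂) ∧
      (∀ i j, i ≠ j → c i ^ q - c j ^ q ∉ m₁) ∧ (∀ i j, i ≠ j → c i ^ q - c j ^ q ∉ m₂) := by
  classical
  let f1 := Ideal.Quotient.field m₁
  let f2 := Ideal.Quotient.field m₂
  have hcop : IsCoprime m₁ m₂ := by
    rw [Ideal.isCoprime_iff_sup_eq]
    exact Ideal.IsMaximal.coprime_of_ne inferInstance inferInstance h12
  obtain ⟨a, ha, b, hb, hab⟩ := Ideal.isCoprime_iff_exists.mp hcop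
  -- simultaneous lifting
  have lift : ∀ x y : R, ∃ c : R, c - x ∈ m₁ ∧ c - y ∈ m₂ := by
    intro x y
    refine ⟨x * b + y * a, ?_, ?_⟩
    · have h1 : x * b + y * a - x = (y - x) * a := by linear_combination x * hab
      rw [h1]
      exact Ideal.mul_mem_left _ _ ha
    · have h1 : x * b + y * a - y = (x - y) * b := by linear_combination y * hab
      rw [h1]
      exact Ideal.mul_mem_left _ _ hb
  -- one step
  have step : ∀ S : Finset R, ∃ c : R, c ∉ m₁ ∧ c ∉ m₂ ∧ ∀ s ∈ S, c ^ q - s ^ q ∉ m₁ ∧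
      c ^ q - s ^ q ∉ m₂ := by
    intro S
    obtain ⟨x, hx0, hx⟩ := exists_avoid_inf (K := R ⧸ m₁) q hq (S.image (Ideal.Quotient.mk m₁))
    obtain ⟨y, hy0, hy⟩ := exists_avoid_inf (K := R ⧸ m₂) q hq (S.image (Ideal.Quotient.mk m₂))
    obtain ⟨x', rfl⟩ := Ideal.Quotient.mk_surjective x
    obtain ⟨y', rfl⟩ := Ideal.Quotient.mk_surjective y
    obtain ⟨c, hc1, hc2⟩ := lift x' y'
    have e1 : Ideal.Quotient.mk m₁ c = Ideal.Quotient.mk m₁ x' :=
      (Ideal.Quotient.mk_eq_mk_iff_sub_mem _ _).mpr hc1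
    have e2 : Ideal.Quotient.mk m₂ c = Ideal.Quotient.mk m₂ y' :=
      (Ideal.Quotient.mk_eq_mk_iff_sub_mem _ _).mpr hc2
    refine ⟨c, ?_, ?_, ?_⟩
    · intro h
      apply hx0
      rw [← e1]
      exact Ideal.Quotient.eq_zero_iff_mem.mpr h
    · intro h
      apply hy0
      rw [← e2]
      exact Ideal.Quotient.eq_zero_iff_mem.mpr h
    · intro s hs
      constructor
      · intro h
        have h2 := (Ideal.Quotient.mk_eq_mk_iff_sub_mem _ _).mpr h
        rw [map_pow, map_pow, e1] at h2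
        exact hx _ (Finset.mem_image_of_mem _ hs) h2
      · intro h
        have h2 := (Ideal.Quotient.mk_eq_mk_iff_sub_mem _ _).mpr h
        rw [map_pow, map_pow, e2] at h2
        exact hy _ (Finset.mem_image_of_mem _ hs) h2
  -- induction
  induction n with
  | zero => exact ⟨fun i => i.elim0, fun i => i.elim0, fun i => i.elim0, fun i => i.elim0,
      fun i => i.elim0⟩
  | succ n ih =>
    obtain ⟨c, hc1, hc2, hc3, hc4⟩ := ih
    obtain ⟨d, hd1, hd2, hd3⟩ := step (Finset.univ.image c)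
    have hd : ∀ i, d ^ q - c i ^ q ∉ m₁ ∧ d ^ q - c i ^ q ∉ m₂ := fun i =>
      hd3 (c i) (Finset.mem_image_of_mem _ (Finset.mem_univ i))
    refine ⟨Fin.cons d c, ?_, ?_, ?_, ?_⟩
    · intro i
      refine Fin.cases ?_ (fun i => ?_) i
      · simpa using hd1
      · simpa using hc1 i
    · intro i
      refine Fin.cases ?_ (fun i => ?_) i
      · simpa using hd2
      · simpa using hc2 i
    · intro i j
      refine Fin.cases ?_ (fun i => ?_) i
      · refine Fin.cases ?_ (fun j => ?_) j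
        · intro h
          exact absurd rfl h
        · intro _
          simpa using (hd j).1
      · refine Fin.cases ?_ (fun j => ?_) j
        · intro _ h
          apply (hd i).1
          have h2 : d ^ q - c i ^ q = -(c i ^ q - d ^ q) := by ring
          rw [h2]
          exact neg_mem (by simpa using h)
        · intro hne
          simpa using hc3 i j (fun h => hne (by rw [h]))
    · intro i j
      refine Fin.cases ?_ (fun i => ?_) i
      · refine Fin.cases ?_ (fun j => ?_) j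
        · intro h
          exact absurd rfl h
        · intro _
          simpa using (hd j).2
      · refine Fin.cases ?_ (fun j => ?_) j
        · intro _ h
          apply (hd i).2
          have h2 : d ^ q - c i ^ q = -(c i ^ q - d ^ q) := by ring
          rw [h2]
          exact neg_mem (by simpa using h)
        · intro hne
          simpa using hc4 i j (fun h => hne (by rw [h]))

/-- any number of elements pairwise distinct modulo `m` -/
theorem exists_b_inf (m : Ideal R) (hi : Infinite (R ⧸ m)) (k : ℕ) :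
    ∃ b : Fin k → R, ∀ i j, i ≠ j → b i - b j ∉ m := by
  have e : Fin k ↪ (R ⧸ m) := (Fin.valEmbedding).trans (Infinite.natEmbedding (R ⧸ m))
  choose b hb using fun i => Ideal.Quotient.mk_surjective (I := m) (e i)
  refine ⟨b, fun i j hij h => hij (e.injective ?_)⟩
  rw [← hb i, ← hb j]
  exact (Ideal.Quotient.mk_eq_mk_iff_sub_mem _ _).mpr h

/-- an element of `m` in no other maximal ideal -/
theorem exists_u [Finite (MaximalSpectrum R)] (m : Ideal R) (hm : m.IsMaximal) :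
    ∃ u : R, u ∈ m ∧ ∀ M : Ideal R, M.IsMaximal → u ∈ M → M = m := by
  classical
  have := Fintype.ofFinite (MaximalSpectrum R)
  have hcop : IsCoprime m (∏ M ∈ (Finset.univ : Finset (MaximalSpectrum R)).erase ⟨m, hm⟩,
      M.asIdeal) := by
    refine IsCoprime.prod_right fun M hM => ?_
    rw [Ideal.isCoprime_iff_sup_eq]
    refine Ideal.IsMaximal.coprime_of_ne hm M.isMaximal fun h => ?_
    exact (Finset.mem_erase.mp hM).1 (MaximalSpectrum.ext h.symm)
  obtain ⟨x, hx, y, hy, hxy⟩ := Ideal.isCoprime_iff_exists.mp hcop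
  refine ⟨x, hx, fun M hM hxM => ?_⟩
  by_contra hne
  have h1 : (⟨M, hM⟩ : MaximalSpectrum R) ∈
      (Finset.univ : Finset (MaximalSpectrum R)).erase ⟨m, hm⟩ := by
    refine Finset.mem_erase.mpr ⟨fun h => hne ?_, Finset.mem_univ _⟩
    exact congrArg MaximalSpectrum.asIdeal h
  have h6 := Ideal.prod_le_inf
    (s := (Finset.univ : Finset (MaximalSpectrum R)).erase ⟨m, hm⟩)
    (f := fun M : MaximalSpectrum R => M.asIdeal)
  have h7 := Finset.inf_le (f := fun M : MaximalSpectrum R => M.asIdeal) h1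
  exact hM.ne_top ((Ideal.eq_top_iff_one _).mpr (hxy ▸ add_mem hxM (h7 (h6 hy))))

end general

section patterns

variable {R : Type} [CommRing R] [IsDomain R]

/-- the end of the proof: patterns contradict NIP -/
theorem false_of_patterns
    (m₁ m₂ : Ideal R) (h1 : m₁.IsMaximal) (h2 : m₂.IsMaximal)
    (e₁ e₂ : R) (he₁ : ∀ z : R, Jm (e₁ * z) ↔ z ∈ m₁) (he₂ : ∀ z : R, Jm (e₂ * z) ↔ z ∈ m₂)
    (q : ℕ) (hq : q.Prime) (hq1 : (q : R) ∉ m₁) (hq2 : (q : R) ∉ m₂)
    (ζ : R) (hζ : ∑ j ∈ range q, ζ ^ j = 0)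
    (hP : ∀ n : ℕ, 2 ≤ n → ∃ c : Fin n → R, (∀ i, c i ∉ m₁) ∧ (∀ i, c i ∉ m₂) ∧
      ∀ ε : Fin n → ZMod q, ∃ (x : R) (y : Fin n → R), (∀ i, y i ^ q = x + c i ^ q) ∧
      (∀ i, y i - c i ∈ m₁) ∧ (∀ i, y i - ζ ^ (ε i).val * c i ∈ m₂))
    (hpow : ∃ n : ℕ, ¬ ∃ (c : Fin n → R) (e₁ e₂ : R) (x : Finset (Fin n) → R),
      ∀ (i : Fin n) (J : Finset (Fin n)),
        ((∃ y : R, y ^ q = x J + c i ^ q ∧ Jm (e₁ * (y - c i)) ∧ Jm (e₂ * (y - c i))) ↔ i ∈ J)) :
    False := by
  classical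
  obtain ⟨n, hn⟩ := hpow
  apply hn
  obtain ⟨c, hc1, hc2, hall⟩ := hP (n + 2) (by omega)
  have hall' : ∀ J : Finset (Fin n), ∃ (x : R) (y : Fin (n + 2) → R),
      (∀ i, y i ^ q = x + c i ^ q) ∧ (∀ i, y i - c i ∈ m₁) ∧
      (∀ i : Fin (n + 2), y i - ζ ^ (if ∃ j ∈ J, Fin.castAdd 2 j = i then
        (0 : ZMod q) else 1).val * c i ∈ m₂) := fun J =>
    hall (fun i => if ∃ j ∈ J, Fin.castAdd 2 j = i then (0 : ZMod q) else 1)
  choose x y hy hy1 hy2 using hall'
  have hmem : ∀ (i : Fin n) (J : Finset (Fin n)),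
      (∃ j ∈ J, Fin.castAdd 2 j = Fin.castAdd 2 i) ↔ i ∈ J := by
    intro i J
    constructor
    · rintro ⟨j, hj, hji⟩
      rw [Fin.castAdd_inj] at hji
      exact hji ▸ hj
    · intro hi
      exact ⟨i, hi, rfl⟩
  refine ⟨fun i => c (Fin.castAdd 2 i), e₁, e₂, x, fun i J => ⟨?_, ?_⟩⟩
  · rintro ⟨w, hw, hw1, hw2⟩
    rw [he₁] at hw1
    rw [he₂] at hw2
    by_contra hi
    have h3 := hy2 J (Fin.castAdd 2 i)
    rw [if_neg (fun h => hi ((hmem i J).mp h))] at h3
    have hone : (1 : ZMod q).val = 1 := by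
      have : Fact (1 < q) := ⟨hq.one_lt⟩
      exact ZMod.val_one q
    rw [hone, pow_one] at h3
    have hq0 : (q : R) ∉ (⊥ : Ideal R) := fun h => hq1 ((bot_le : (⊥ : Ideal R) ≤ m₁) h)
    have hprim : IsPrimitiveRoot ζ q := by
      rw [IsPrimitiveRoot.iff hq.pos]
      constructor
      · have := mul_geom_sum ζ q
        rw [hζ, mul_zero] at this
        exact (sub_eq_zero.mp this.symm)
      · intro l hl0 hlq hl
        apply zeta_pow_sub_one_notMem q hq ζ hζ ⊥ hq0 l hl0 hlq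
        rw [hl, sub_self]
        exact zero_mem _
    have hprod : ∏ μ ∈ nthRootsFinset q (1 : R), (w - μ * y J (Fin.castAdd 2 i)) = 0 := by
      rw [← hprim.pow_sub_pow_eq_prod_sub_mul w (y J (Fin.castAdd 2 i)) hq.pos, hw,
        hy J (Fin.castAdd 2 i), sub_self]
    obtain ⟨μ, hμ, hμ2⟩ := Finset.prod_eq_zero_iff.mp hprod
    have hμq : μ ^ q = 1 := by
      rwa [mem_nthRootsFinset hq.pos] at hμ
    have : NeZero q := ⟨hq.ne_zero⟩
    obtain ⟨j, hj, rfl⟩ := hprim.eq_pow_of_pow_eq_one hμq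
    have hw3 : w = ζ ^ j * y J (Fin.castAdd 2 i) := sub_eq_zero.mp hμ2
    rcases Nat.eq_zero_or_pos j with rfl | hj0
    · rw [pow_zero, one_mul] at hw3
      have h4 : (ζ ^ 1 - 1) * c (Fin.castAdd 2 i) ∈ m₂ := by
        have h5 := sub_mem hw2 h3
        rw [hw3] at h5
        have h6 : (ζ ^ 1 - 1) * c (Fin.castAdd 2 i) = y J (Fin.castAdd 2 i) - c (Fin.castAdd 2 i)
          - (y J (Fin.castAdd 2 i) - ζ * c (Fin.castAdd 2 i)) := by ring
        rw [h6]
        exact h5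
      rcases h2.isPrime.mem_or_mem h4 with h5 | h5
      · exact zeta_pow_sub_one_notMem q hq ζ hζ m₂ hq2 1 one_pos hq.one_lt h5
      · exact hc2 _ h5
    · have h4 : (ζ ^ j - 1) * c (Fin.castAdd 2 i) ∈ m₁ := by
        have h5 := hy1 J (Fin.castAdd 2 i)
        have h6 : (ζ ^ j - 1) * c (Fin.castAdd 2 i) = (w - c (Fin.castAdd 2 i))
            - ζ ^ j * (y J (Fin.castAdd 2 i) - c (Fin.castAdd 2 i)) := by
          rw [hw3]; ring
        rw [h6]
        exact sub_mem hw1 (Ideal.mul_mem_left _ _ h5)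
      rcases h1.isPrime.mem_or_mem h4 with h5 | h5
      · exact zeta_pow_sub_one_notMem q hq ζ hζ m₁ hq1 j hj0 hj h5
      · exact hc1 _ h5
  · intro hi
    have h3 := hy2 J (Fin.castAdd 2 i)
    rw [if_pos ((hmem i J).mpr hi), ZMod.val_zero, pow_zero, one_mul] at h3
    exact ⟨y J (Fin.castAdd 2 i), hy J _, (he₁ _).mpr (hy1 J _), (he₂ _).mpr h3⟩

/-- Claim H: the patterns exist if the localization at the first maximal ideal is henselian -/
def ClaimH (R : Type) [CommRing R] [IsDomain R] : Prop :=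
  ∀ (q : ℕ) [Fact q.Prime] (n : ℕ), 2 ≤ n →
    ∀ (m₁ m₂ : Ideal R) [m₁.IsMaximal] [m₂.IsMaximal], m₁ ≠ m₂ →
    HenselianLocalRing (Localization.AtPrime m₁) →
    (∃ u ∈ m₁, ∀ M : Ideal R, M.IsMaximal → u ∈ M → M = m₁) →
    Infinite (R ⧸ m₁) →
    (q : R) ∉ m₁ → (q : R) ∉ m₂ → ∀ ζ : R, ∑ j ∈ range q, ζ ^ j = 0 →
    ∀ c : Fin n → R, (∀ i, c i ∉ m₁) → (∀ i, c i ∉ m₂) →
    (∀ i j, i ≠ j → c i ^ q - c j ^ q ∉ m₁) → (∀ i j, i ≠ j → c i ^ q - c j ^ q ∉ m₂) →
    ∀ ε : Fin n → ZMod q,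
    ∃ (x : R) (y : Fin n → R), (∀ i, y i ^ q = x + c i ^ q) ∧
      (∀ i, y i - c i ∈ m₁) ∧ (∀ i, y i - ζ ^ (ε i).val * c i ∈ m₂)

theorem local_of_claimH (hC : ClaimH R)
    (hdiv : ∃ n : ℕ, ¬ ∃ (u : Fin n → R) (b : Finset (Fin n) → R),
      ∀ (i : Fin n) (J : Finset (Fin n)), (u i ∣ b J ↔ i ∈ J))
    (hpow : ∀ q : ℕ, ∃ n : ℕ, ¬ ∃ (c : Fin n → R) (e₁ e₂ : R) (x : Finset (Fin n) → R),
      ∀ (i : Fin n) (J : Finset (Fin n)),
        ((∃ y : R, y ^ q = x J + c i ^ q ∧ Jm (e₁ * (y - c i)) ∧ Jm (e₂ * (y - c i))) ↔ i ∈ J))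
    (m₁ : Ideal R) [h1 : m₁.IsMaximal] (hm₁ : HenselianLocalRing (Localization.AtPrime m₁))
    (hN : ∀ (N : Ideal R) [N.IsMaximal], N ≠ m₁ →
      Infinite (R ⧸ m₁) ∧ Infinite (R ⧸ N) ∧
      ∃ q : ℕ, q.Prime ∧ (q : R) ∉ m₁ ∧ (q : R) ∉ N ∧ ∃ ζ : R, ∑ j ∈ range q, ζ ^ j = 0) :
    IsLocalRing R := by
  have hfin := finite_maximal hdiv
  by_contra hloc
  have hex : ∃ m₂ : Ideal R, m₂.IsMaximal ∧ m₂ ≠ m₁ := by
    by_contra hcon
    push Not at hcon
    exact hloc (IsLocalRing.of_unique_max_ideal ⟨m₁, h1, fun m' hm' => hcon m' hm'⟩)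
  obtain ⟨m₂, h2, h21⟩ := hex
  have h12 : m₁ ≠ m₂ := fun h => h21 h.symm
  obtain ⟨hi1, hi2, q, hq, hq1, hq2, ζ, hζ⟩ := hN m₂ h21
  obtain ⟨e₁, he₁⟩ := exists_e m₁ h1
  obtain ⟨e₂, he₂⟩ := exists_e m₂ h2
  have : Fact q.Prime := ⟨hq⟩
  refine false_of_patterns m₁ m₂ h1 h2 e₁ e₂ he₁ he₂ q hq hq1 hq2 ζ hζ ?_ (hpow q)
  intro n hn
  obtain ⟨c, hc1, hc2, hc3, hc4⟩ := exists_c_inf m₁ m₂ h12 hi1 hi2 q hq.pos n
  exact ⟨c, hc1, hc2, hC q n hn m₁ m₂ h12 hm₁ (exists_u m₁ h1) hi1 hq1 hq2 ζ hζ c hc1 hc2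
    hc3 hc4⟩

/-- a local ring whose localization at a maximal ideal is henselian is henselian -/
theorem henselian_of_localization {R : Type} [CommRing R] (hloc : IsLocalRing R)
    (M : Ideal R) [hM : M.IsMaximal] (h : HenselianLocalRing (Localization.AtPrime M)) :
    HenselianLocalRing R where
  is_henselian := by
    have hMm : M = IsLocalRing.maximalIdeal R := IsLocalRing.eq_maximalIdeal hM
    have hunits : ∀ x : R, x ∈ M.primeCompl → IsUnit x := by
      intro x hx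
      by_contra hcon
      exact hx (hMm ▸ (IsLocalRing.mem_maximalIdeal x).mpr hcon)
    have e := IsLocalization.atUnits R M.primeCompl (S := Localization.AtPrime M) hunits
    intro f hf a₀ h0 h1
    have h2 := h.is_henselian (f.map (algebraMap R (Localization.AtPrime M))) (hf.map _)
      (algebraMap R _ a₀) (by
        rw [Polynomial.eval_map_algebraMap, Polynomial.aeval_algebraMap_apply_eq_algebraMap_eval,
          IsLocalization.AtPrime.to_map_mem_maximal_iff (Localization.AtPrime M) M, hMm]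
        exact h0) (by
        rw [Polynomial.derivative_map, Polynomial.eval_map_algebraMap,
          Polynomial.aeval_algebraMap_apply_eq_algebraMap_eval]
        exact h1.map _)
    obtain ⟨a, ha, ha2⟩ := h2
    obtain ⟨b, rfl⟩ := e.surjective a
    have hb : e b = algebraMap R (Localization.AtPrime M) b := by
      have := e.commutes b
      simpa using this
    rw [hb] at ha ha2
    refine ⟨b, ?_, ?_⟩
    · rw [Polynomial.IsRoot.def, Polynomial.eval_map_algebraMap,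
        Polynomial.aeval_algebraMap_apply_eq_algebraMap_eval] at ha
      have h3 : e (f.eval b) = e 0 := by
        have := e.commutes (f.eval b)
        rw [map_zero]
        rw [← ha]
        simpa using this
      exact e.injective h3
    · rw [← map_sub, IsLocalization.AtPrime.to_map_mem_maximal_iff (Localization.AtPrime M) M,
        hMm] at ha2
      exact ha2

end patterns

end Pool.Agent.AIC
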