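import Mathlib

set_option autoImplicit false

namespace Pool.Agent.AIC

open IsLocalRing

theorem common_den {R : Type*} [CommRing R] (m₁ m₂ : Ideal R) (a₁ b₁ a₂ b₂ : R)
    (h₁ : b₁ ∉ m₁) (h₂ : b₂ ∉ m₂) (h : a₁ * b₂ = a₂ * b₁) :
    ∃ a b, b ∉ m₁ ∧ b ∉ m₂ ∧ a * b₁ = a₁ * b ∧ a * b₂ = a₂ * b := by
  by_cases h12 : b₁ ∈ m₂
  · by_cases h21 : b₂ ∈ m₁
    · refine ⟨a₁ + a₂, b₁ + b₂, fun hc => h₁ ?_, fun hc => h₂ ?_, ?_, ?_⟩
      · have := m₁.sub_mem hc h21
        rwa [add_sub_cancel_right] at this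
      · have := m₂.sub_mem hc h12
        rwa [add_sub_cancel_left] at this
      · linear_combination -h
      · linear_combination h
    · exact ⟨a₂, b₂, h21, h₂, by linear_combination -h, rfl⟩
  · exact ⟨a₁, b₁, h₁, h12, rfl, h⟩

/-- the embedding of a localization in the fraction field. -/
theorem loc_to_frac {R : Type*} [CommRing R] [IsDomain R] (m : Ideal R) [m.IsPrime] :
    ∃ φ : Localization.AtPrime m →+* FractionRing R,
      (∀ r, φ (algebraMap R _ r) = algebraMap R (FractionRing R) r) ∧ Function.Injective φ := by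
  have hle : m.primeCompl ≤ nonZeroDivisors R := m.primeCompl_le_nonZeroDivisors
  have hu : ∀ s : m.primeCompl, IsUnit (algebraMap R (FractionRing R) s) := by
    intro s
    have : (s : R) ≠ 0 := nonZeroDivisors.ne_zero (hle s.2)
    exact isUnit_iff_ne_zero.2 (by simpa using this)
  set φ : Localization.AtPrime m →+* FractionRing R := IsLocalization.lift (M := m.primeCompl) hu
    with hφ
  have hφa : ∀ x : R, φ (algebraMap R _ x) = algebraMap R (FractionRing R) x := fun x =>
    IsLocalization.lift_eq hu x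
  refine ⟨φ, hφa, ?_⟩
  rw [injective_iff_map_eq_zero]
  intro x hx
  obtain ⟨a, s, rfl⟩ := IsLocalization.exists_mk'_eq m.primeCompl x
  have h1 : IsLocalization.mk' (Localization.AtPrime m) a s *
      algebraMap R (Localization.AtPrime m) s = algebraMap R (Localization.AtPrime m) a :=
    IsLocalization.mk'_spec _ a s
  have h2 : φ (algebraMap R (Localization.AtPrime m) a) = 0 := by
    rw [← h1, map_mul, hx, zero_mul]
  rw [hφa] at h2
  have h3 : a = 0 := by simpa using h2
  rw [h3, IsLocalization.mk'_zero]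

/-- elements of two localizations with the same image in the fraction field have a common
denominator. -/
theorem common_denominator {R K : Type*} [CommRing R] [IsDomain R] [Field K] [Algebra R K]
    [IsFractionRing R K] (m₁ m₂ : Ideal R) [m₁.IsPrime] [m₂.IsPrime]
    (φ₁ : Localization.AtPrime m₁ →+* K) (φ₂ : Localization.AtPrime m₂ →+* K)
    (h₁ : ∀ r, φ₁ (algebraMap R _ r) = algebraMap R K r)
    (h₂ : ∀ r, φ₂ (algebraMap R _ r) = algebraMap R K r)
    (x₁ : Localization.AtPrime m₁) (x₂ : Localization.AtPrime m₂) (h : φ₁ x₁ = φ₂ x₂) :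
    ∃ a b : R, b ∉ m₁ ∧ b ∉ m₂ ∧
      algebraMap R (Localization.AtPrime m₁) a = x₁ * algebraMap R _ b ∧
      algebraMap R (Localization.AtPrime m₂) a = x₂ * algebraMap R _ b := by
  obtain ⟨a₁, s₁, rfl⟩ := IsLocalization.exists_mk'_eq m₁.primeCompl x₁
  obtain ⟨a₂, s₂, rfl⟩ := IsLocalization.exists_mk'_eq m₂.primeCompl x₂
  have e₁ : IsLocalization.mk' (Localization.AtPrime m₁) a₁ s₁ *
      algebraMap R (Localization.AtPrime m₁) s₁ = algebraMap R (Localization.AtPrime m₁) a₁ :=
    IsLocalization.mk'_spec _ a₁ s₁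
  have e₂ : IsLocalization.mk' (Localization.AtPrime m₂) a₂ s₂ *
      algebraMap R (Localization.AtPrime m₂) s₂ = algebraMap R (Localization.AtPrime m₂) a₂ :=
    IsLocalization.mk'_spec _ a₂ s₂
  have hcross : a₁ * (s₂ : R) = a₂ * s₁ := by
    apply IsFractionRing.injective R K
    rw [map_mul, map_mul, ← h₁, ← h₂ (s₂ : R), ← h₂ a₂, ← h₁ (s₁ : R), ← e₁, ← e₂, map_mul,
      map_mul, h]
    ring
  obtain ⟨a, b, hb1, hb2, k1, k2⟩ := common_den m₁ m₂ a₁ s₁ a₂ s₂ s₁.2 s₂.2 hcross
  refine ⟨a, b, hb1, hb2, ?_, ?_⟩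
  · have hu : IsUnit (algebraMap R (Localization.AtPrime m₁) s₁) :=
      IsLocalization.map_units _ s₁
    apply hu.mul_right_cancel
    rw [← map_mul, k1, map_mul, ← e₁]
    ring
  · have hu : IsUnit (algebraMap R (Localization.AtPrime m₂) s₂) :=
      IsLocalization.map_units _ s₂
    apply hu.mul_right_cancel
    rw [← map_mul, k2, map_mul, ← e₂]
    ring

end Pool.Agent.AIC
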