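import Mathlib

set_option autoImplicit false
set_option linter.unusedSectionVars false

namespace Pool.Agent.AIC

open Finset Polynomial

/-! Monomials with exponents in `(ZMod q)^ι`, the norm matrix and its determinant. -/

section Basic

variable {ι : Type} [Fintype ι] [DecidableEq ι] {q : ℕ} [NeZero q]
variable {A : Type} [CommRing A]

/-- `y^s` with representatives of the exponents. -/
def mono (y : ι → A) (s : ι → ZMod q) : A := ∏ i, y i ^ (s i).val

/-- the product of `a_i` over the carries of `s + r`. -/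
def carry (a : ι → A) (s r : ι → ZMod q) : A := ∏ i, a i ^ (((s i).val + (r i).val) / q)

/-- matrix of multiplication by `∑ u_s Y^s` in the algebra `Y_i^q = a_i`. -/
def nmat (a : ι → A) (u : (ι → ZMod q) → A) : Matrix (ι → ZMod q) (ι → ZMod q) A :=
  fun s t => u (t - s) * carry a s (t - s)

/-- evaluation of the family `u` at `y`. -/
def ev (y : ι → A) (u : (ι → ZMod q) → A) : A := ∑ s, u s * mono y s

/-- twisted point. -/
def tw (ζ : A) (δ : ι → ZMod q) (y : ι → A) : ι → A := fun i => ζ ^ (δ i).val * y i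

theorem mono_zero (y : ι → A) : mono y (0 : ι → ZMod q) = 1 := by
  simp [mono]

theorem mono_mul (y z : ι → A) (s : ι → ZMod q) :
    mono (fun i => y i * z i) s = mono y s * mono z s := by
  simp [mono, mul_pow, Finset.prod_mul_distrib]

theorem mono_add (y a : ι → A) (h : ∀ i, y i ^ q = a i) (s r : ι → ZMod q) :
    mono y (s + r) * carry a s r = mono y s * mono y r := by
  unfold mono carry
  rw [← Finset.prod_mul_distrib, ← Finset.prod_mul_distrib]
  refine Finset.prod_congr rfl fun i _ => ?_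
  rw [Pi.add_apply, ZMod.val_add, ← h i, ← pow_mul, ← pow_add, ← pow_add]
  congr 1
  exact Nat.mod_add_div _ _

theorem mono_map {B : Type} [CommRing B] (f : A →+* B) (y : ι → A) (s : ι → ZMod q) :
    f (mono y s) = mono (fun i => f (y i)) s := by
  simp [mono]

theorem carry_map {B : Type} [CommRing B] (f : A →+* B) (a : ι → A) (s r : ι → ZMod q) :
    f (carry a s r) = carry (fun i => f (a i)) s r := by
  simp [carry]

theorem nmat_map {B : Type} [CommRing B] (f : A →+* B) (a : ι → A) (u : (ι → ZMod q) → A) :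
    f.mapMatrix (nmat a u) = nmat (fun i => f (a i)) (fun s => f (u s)) := by
  ext s t
  simp [nmat, carry_map]

theorem det_nmat_map {B : Type} [CommRing B] (f : A →+* B) (a : ι → A)
    (u : (ι → ZMod q) → A) :
    f (nmat a u).det = (nmat (fun i => f (a i)) (fun s => f (u s))).det := by
  rw [RingHom.map_det, nmat_map]

theorem carry_zero_right (a : ι → A) (s : ι → ZMod q) : carry a s 0 = 1 := by
  unfold carry
  refine Finset.prod_eq_one fun i _ => ?_
  have : ((s i).val + ((0 : ι → ZMod q) i).val) / q = 0 := by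
    rw [Pi.zero_apply, ZMod.val_zero, add_zero]
    exact Nat.div_eq_of_lt (ZMod.val_lt _)
  rw [this, pow_zero]

end Basic

section DI

variable {ι : Type} [Fintype ι] [DecidableEq ι] {q : ℕ} [Fact q.Prime]
variable {A : Type} [CommRing A]

theorem zeta_pow (ζ : A) (hζ : ∑ j ∈ range q, ζ ^ j = 0) : ζ ^ q = 1 := by
  have := mul_geom_sum ζ q
  rw [hζ, mul_zero] at this
  exact (sub_eq_zero.mp this.symm)

theorem sum_zmod (ζ : A) (hζ : ∑ j ∈ range q, ζ ^ j = 0) :
    ∑ j : ZMod q, ζ ^ j.val = 0 := by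
  have hq : NeZero q := ⟨(Fact.out : q.Prime).ne_zero⟩
  rw [← hζ]
  refine Finset.sum_bij (fun j _ => j.val) (fun j _ => by
    simpa using ZMod.val_lt j) (fun a _ b _ h => ZMod.val_injective q h) (fun b hb => ?_)
    (fun _ _ => rfl)
  refine ⟨(b : ZMod q), Finset.mem_univ _, ?_⟩
  exact ZMod.val_cast_of_lt (by simpa using hb)

theorem zeta_mul (ζ : A) (hζ : ∑ j ∈ range q, ζ ^ j = 0) (a b : ZMod q) :
    (ζ ^ a.val) ^ b.val = ζ ^ (a * b).val := by
  rw [ZMod.val_mul, ← pow_mul]
  conv_lhs => rw [← Nat.mod_add_div (a.val * b.val) q]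
  rw [pow_add, pow_mul, zeta_pow ζ hζ, one_pow, mul_one]

theorem orth (ζ : A) (hζ : ∑ j ∈ range q, ζ ^ j = 0) (m : ZMod q) :
    ∑ j : ZMod q, (ζ ^ j.val) ^ m.val = if m = 0 then (q : A) else 0 := by
  have hq : NeZero q := ⟨(Fact.out : q.Prime).ne_zero⟩
  split_ifs with h
  · subst h
    simp [ZMod.card]
  · simp_rw [zeta_mul ζ hζ]
    rw [← sum_zmod ζ hζ]
    exact Equiv.sum_comp (Equiv.mulRight₀ m h) (fun j : ZMod q => ζ ^ j.val)

theorem orth_pi (ζ : A) (hζ : ∑ j ∈ range q, ζ ^ j = 0) (s : ι → ZMod q) :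
    ∑ δ : ι → ZMod q, mono (fun i => ζ ^ (δ i).val) s
      = if s = 0 then (q : A) ^ (Fintype.card ι) else 0 := by
  unfold mono
  have : ∑ δ : ι → ZMod q, ∏ i, (ζ ^ (δ i).val) ^ (s i).val
      = ∏ i, ∑ j : ZMod q, (ζ ^ j.val) ^ (s i).val := by
    rw [Finset.prod_univ_sum]
    simp
  rw [this]
  simp_rw [orth ζ hζ]
  split_ifs with h
  · subst h
    simp
  · obtain ⟨i, hi⟩ := Function.ne_iff.mp h
    exact Finset.prod_eq_zero (Finset.mem_univ i) (if_neg hi)

theorem mono_zeta_add (ζ : A) (hζ : ∑ j ∈ range q, ζ ^ j = 0) (δ s t : ι → ZMod q) :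
    mono (fun i => ζ ^ (δ i).val) (s + t)
      = mono (fun i => ζ ^ (δ i).val) s * mono (fun i => ζ ^ (δ i).val) t := by
  have h := mono_add (q := q) (fun i => ζ ^ (δ i).val) (fun _ => (1 : A))
    (fun i => by rw [← pow_mul, mul_comm, pow_mul, zeta_pow ζ hζ, one_pow]) s t
  rw [← h]
  simp [carry]

theorem tw_pow (ζ : A) (hζ : ∑ j ∈ range q, ζ ^ j = 0) (δ : ι → ZMod q) (y : ι → A) (i : ι) :
    tw ζ δ y i ^ q = y i ^ q := by
  unfold tw
  rw [mul_pow, ← pow_mul, mul_comm _ q, pow_mul, zeta_pow ζ hζ, one_pow, one_mul]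

theorem tw_mono (ζ : A) (δ : ι → ZMod q) (y : ι → A) (s : ι → ZMod q) :
    mono (tw ζ δ y) s = mono (fun i => ζ ^ (δ i).val) s * mono y s := by
  rw [← mono_mul]; rfl

/-- the determinant identity. -/
theorem det_nmat [IsDomain A] (ζ : A) (hζ : ∑ j ∈ range q, ζ ^ j = 0) (hq : (q : A) ≠ 0)
    (y : ι → A) (hy : ∀ i, y i ≠ 0) (u : (ι → ZMod q) → A) :
    (nmat (fun i => y i ^ q) u).det = ∏ δ : ι → ZMod q, ev (tw ζ δ y) u := by
  classical
  set V : Matrix (ι → ZMod q) (ι → ZMod q) A := fun t δ => mono (tw ζ δ y) t with hV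
  set W : Matrix (ι → ZMod q) (ι → ZMod q) A :=
    fun δ t => mono (fun i => ζ ^ (δ i).val) (-t) with hW
  have h1 : nmat (fun i => y i ^ q) u * V = V * Matrix.diagonal (fun δ => ev (tw ζ δ y) u) := by
    ext s δ
    rw [Matrix.mul_diagonal, Matrix.mul_apply]
    rw [← Equiv.sum_comp (Equiv.addLeft s)
      (fun t => nmat (fun i => y i ^ q) u s t * V t δ)]
    simp only [Equiv.coe_addLeft, hV, nmat, add_sub_cancel_left]
    unfold ev
    rw [Finset.mul_sum]
    refine Finset.sum_congr rfl fun r _ => ?_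
    have := mono_add (q := q) (tw ζ δ y) (fun i => y i ^ q) (fun i => tw_pow ζ hζ δ y i) s r
    calc u r * carry (fun i => y i ^ q) s r * mono (tw ζ δ y) (s + r)
        = u r * (mono (tw ζ δ y) (s + r) * carry (fun i => y i ^ q) s r) := by ring
      _ = mono (tw ζ δ y) s * (u r * mono (tw ζ δ y) r) := by rw [this]; ring
  have h2 : V * W = Matrix.diagonal (fun s => (q : A) ^ (Fintype.card ι) * mono y s) := by
    ext s t
    rw [Matrix.mul_apply, Matrix.diagonal_apply]
    simp only [hV, hW, tw_mono]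
    have : ∀ δ : ι → ZMod q,
        mono (fun i => ζ ^ (δ i).val) s * mono y s * mono (fun i => ζ ^ (δ i).val) (-t)
          = mono (fun i => ζ ^ (δ i).val) (s + -t) * mono y s := by
      intro δ
      rw [mono_zeta_add ζ hζ]; ring
    simp_rw [this]
    rw [← Finset.sum_mul, orth_pi ζ hζ]
    by_cases hst : s = t
    · subst hst; simp
    · have : s + -t ≠ 0 := by
        intro h
        exact hst (add_neg_eq_zero.mp h)
      simp [hst, this]
  have h3 : V.det ≠ 0 := by
    intro h0
    have h4 : (V * W).det = 0 := by rw [Matrix.det_mul, h0, zero_mul]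
    rw [h2, Matrix.det_diagonal, Finset.prod_eq_zero_iff] at h4
    obtain ⟨s, _, hs⟩ := h4
    rcases mul_eq_zero.mp hs with h | h
    · exact hq (eq_zero_of_pow_eq_zero h)
    · unfold mono at h
      rw [Finset.prod_eq_zero_iff] at h
      obtain ⟨i, _, hi⟩ := h
      exact hy i (eq_zero_of_pow_eq_zero hi)
  have h5 := congrArg Matrix.det h1
  rw [Matrix.det_mul, Matrix.det_mul, Matrix.det_diagonal, mul_comm] at h5
  exact mul_left_cancel₀ h3 h5

end DI

end Pool.Agent.AIC
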