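import Mathlib
import Pool.Agent.AIC.Norm

set_option autoImplicit false
set_option linter.unusedSectionVars false

namespace Pool.Agent.AIC

open Finset Polynomial

/-! Degree bounds for the determinant of the norm matrix over `B[X]`, `a_i = X + b_i`. -/

section Degree

variable {ι : Type} [Fintype ι] [DecidableEq ι] {q : ℕ} [Fact q.Prime]

/-- weight of an exponent vector -/
def wt (s : ι → ZMod q) : ℕ := ∑ i, (s i).val

theorem wt_zero : wt (0 : ι → ZMod q) = 0 := by
  simp [wt]

theorem wt_carry (s r : ι → ZMod q) :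
    wt (s + r) + q * ∑ i, ((s i).val + (r i).val) / q = wt s + wt r := by
  have hq : NeZero q := ⟨(Fact.out : q.Prime).ne_zero⟩
  unfold wt
  rw [Finset.mul_sum, ← Finset.sum_add_distrib, ← Finset.sum_add_distrib]
  refine Finset.sum_congr rfl fun i _ => ?_
  rw [Pi.add_apply, ZMod.val_add]
  exact Nat.mod_add_div _ _

theorem natDegree_carry_le {B : Type} [CommRing B] (b : ι → B) (s r : ι → ZMod q) :
    (carry (fun i => (X + C (b i) : B[X])) s r).natDegree
      ≤ ∑ i, ((s i).val + (r i).val) / q := by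
  unfold carry
  refine (Polynomial.natDegree_prod_le _ _).trans (Finset.sum_le_sum fun i _ => ?_)
  refine Polynomial.natDegree_pow_le.trans ?_
  have h : (X + C (b i) : B[X]).natDegree ≤ 1 := by compute_degree
  calc _ ≤ ((s i).val + (r i).val) / q * 1 := Nat.mul_le_mul_left _ h
    _ = _ := mul_one _

theorem entry_le {B : Type} [CommRing B] (b : ι → B) (u : (ι → ZMod q) → B[X])
    (s t : ι → ZMod q) :
    q * (nmat (fun i => (X + C (b i) : B[X])) u s t).natDegree + wt t
      ≤ q * (u (t - s)).natDegree + wt (t - s) + wt s := by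
  have h1 : (nmat (fun i => (X + C (b i) : B[X])) u s t).natDegree
      ≤ (u (t - s)).natDegree + ∑ i, ((s i).val + ((t - s) i).val) / q := by
    unfold nmat
    exact (Polynomial.natDegree_mul_le).trans
      (Nat.add_le_add_left (natDegree_carry_le b s (t - s)) _)
  have h2 := wt_carry s (t - s)
  rw [add_sub_cancel] at h2
  have h3 := Nat.mul_le_mul_left q h1
  rw [Nat.mul_add] at h3
  omega

theorem card_exp : Fintype.card (ι → ZMod q) = q ^ Fintype.card ι := by
  rw [Fintype.card_fun, ZMod.card]

theorem natDegree_det_le {B : Type} [CommRing B] (b : ι → B) (u : (ι → ZMod q) → B[X]) (w : ℕ)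
    (hu : ∀ s, u s ≠ 0 → q * (u s).natDegree + wt s ≤ w) :
    q * (nmat (fun i => X + C (b i)) u).det.natDegree ≤ w * q ^ Fintype.card ι := by
  have hq0 : 0 < q := (Fact.out : q.Prime).pos
  rw [mul_comm q, ← Nat.le_div_iff_mul_le hq0, Matrix.det_apply]
  refine Polynomial.natDegree_sum_le_of_forall_le _ _ fun σ _ => ?_
  rw [Nat.le_div_iff_mul_le hq0, mul_comm _ q]
  by_cases h0 : ∏ i, nmat (fun i => (X + C (b i) : B[X])) u (σ i) i = 0
  · rw [h0, smul_zero, natDegree_zero, mul_zero]
    exact Nat.zero_le _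
  have h1 : ∀ i, u (i - σ i) ≠ 0 := by
    intro i hi
    refine h0 (Finset.prod_eq_zero (Finset.mem_univ i) ?_)
    unfold nmat
    rw [hi, zero_mul]
  have h2 : ((Equiv.Perm.sign σ) • ∏ i, nmat (fun i => (X + C (b i) : B[X])) u (σ i) i).natDegree
      ≤ ∑ i, (nmat (fun i => (X + C (b i) : B[X])) u (σ i) i).natDegree := by
    refine le_trans ?_ (Polynomial.natDegree_prod_le _ _)
    rcases Int.units_eq_one_or (Equiv.Perm.sign σ) with h | h
    · rw [h, one_smul]
    · rw [h, Units.neg_smul, one_smul, natDegree_neg]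
  have h3 : ∑ i, (q * (nmat (fun i => (X + C (b i) : B[X])) u (σ i) i).natDegree + wt i)
      ≤ ∑ i, (w + wt (σ i)) := by
    refine Finset.sum_le_sum fun i _ => ?_
    have := entry_le b u (σ i) i
    have h4 := hu _ (h1 i)
    omega
  rw [Finset.sum_add_distrib, Finset.sum_add_distrib, Equiv.sum_comp σ wt,
    ← Finset.mul_sum, Finset.sum_const, Finset.card_univ, card_exp] at h3
  have h5 := Nat.le_of_add_le_add_right h3
  rw [smul_eq_mul, mul_comm] at h5
  exact (Nat.mul_le_mul_left q h2).trans (by rw [mul_comm w]; rw [mul_comm] at h5; exact h5)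

theorem monic_det {B : Type} [CommRing B] [Nontrivial B] (b : ι → B) (d : ℕ) (hd : 0 < d)
    (p : (ι → ZMod q) → B[X])
    (hp : ∀ s, p s ≠ 0 → q * (p s).natDegree + wt s < q * d) :
    (nmat (fun i => X + C (b i)) (fun s => (if s = 0 then X ^ d else 0) + p s)).det.Monic ∧
    (nmat (fun i => X + C (b i)) (fun s => (if s = 0 then X ^ d else 0) + p s)).det.natDegree
      = d * q ^ Fintype.card ι := by
  classical
  have hq0 : 0 < q := (Fact.out : q.Prime).pos
  set u : (ι → ZMod q) → B[X] := fun s => (if s = 0 then X ^ d else 0) + p s with hu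
  have hp0 : (p 0).degree < d := by
    by_cases h : p 0 = 0
    · rw [h, degree_zero]; exact WithBot.bot_lt_coe d
    · have := hp 0 h
      rw [wt_zero, add_zero] at this
      rw [Polynomial.degree_eq_natDegree h]
      exact_mod_cast Nat.lt_of_mul_lt_mul_left this
  have hdiag : ∀ s, nmat (fun i => (X + C (b i) : B[X])) u s s = X ^ d + p 0 := by
    intro s
    unfold nmat
    rw [sub_self, carry_zero_right, mul_one, hu]
    simp
  have hm1 : (X ^ d + p 0).Monic := monic_X_pow_add hp0
  have hn1 : (X ^ d + p 0).natDegree = d := by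
    have h1 : (X ^ d + p 0).degree = (d : WithBot ℕ) := by
      have h2 : (p 0).degree < (X ^ d : B[X]).degree := by rw [degree_X_pow]; exact hp0
      rw [degree_add_eq_left_of_degree_lt h2, degree_X_pow]
    exact natDegree_eq_of_degree_eq_some h1
  set D : B[X] := ∏ s : ι → ZMod q, nmat (fun i => (X + C (b i) : B[X])) u s s with hD
  have hDm : D.Monic := by
    rw [hD]
    exact monic_prod_of_monic _ _ fun s _ => by rw [hdiag s]; exact hm1
  have hDn : D.natDegree = d * q ^ Fintype.card ι := by
    rw [hD, natDegree_prod_of_monic _ _ (fun s _ => by rw [hdiag s]; exact hm1)]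
    simp_rw [hdiag, hn1]
    rw [Finset.sum_const, Finset.card_univ, card_exp, smul_eq_mul, mul_comm]
  set E : B[X] := ∑ σ ∈ (Finset.univ : Finset (Equiv.Perm (ι → ZMod q))).erase 1,
    (Equiv.Perm.sign σ) • ∏ i, nmat (fun i => (X + C (b i) : B[X])) u (σ i) i with hE
  have hdet : (nmat (fun i => (X + C (b i) : B[X])) u).det = D + E := by
    rw [Matrix.det_apply, ← Finset.add_sum_erase _ _ (Finset.mem_univ (1 : Equiv.Perm (ι → ZMod q)))]
    rw [hD, hE]
    simp
  have hEd : E.degree < D.degree := by
    rw [hE]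
    have hDd : D.degree = ((d * q ^ Fintype.card ι : ℕ) : WithBot ℕ) := by
      rw [degree_eq_natDegree hDm.ne_zero, hDn]
    rw [hDd]
    refine (Polynomial.degree_sum_le _ _).trans_lt ?_
    rw [Finset.sup_lt_iff (WithBot.bot_lt_coe _)]
    intro σ hσ
    have hσ1 : σ ≠ 1 := Finset.ne_of_mem_erase hσ
    by_cases h0 : ∏ i, nmat (fun i => (X + C (b i) : B[X])) u (σ i) i = 0
    · rw [h0, smul_zero, degree_zero]
      exact WithBot.bot_lt_coe _
    have h1 : ∀ i, u (i - σ i) ≠ 0 := by
      intro i hi
      refine h0 (Finset.prod_eq_zero (Finset.mem_univ i) ?_)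
      unfold nmat
      rw [hi, zero_mul]
    have h2 : ((Equiv.Perm.sign σ) • ∏ i, nmat (fun i => (X + C (b i) : B[X])) u (σ i) i).natDegree
        ≤ ∑ i, (nmat (fun i => (X + C (b i) : B[X])) u (σ i) i).natDegree := by
      refine le_trans ?_ (Polynomial.natDegree_prod_le _ _)
      rcases Int.units_eq_one_or (Equiv.Perm.sign σ) with h | h
      · rw [h, one_smul]
      · rw [h, Units.neg_smul, one_smul, natDegree_neg]
    have hle : ∀ i, q * (u (i - σ i)).natDegree + wt (i - σ i) ≤ q * d := by
      intro i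
      by_cases hi : i - σ i = 0
      · rw [hi, wt_zero, add_zero]
        have : u 0 = X ^ d + p 0 := by rw [hu]; simp
        rw [this, hn1]
      · have h3 : u (i - σ i) = p (i - σ i) := by rw [hu]; simp [hi]
        have h4 := h1 i
        rw [h3] at h4 ⊢
        exact (hp _ h4).le
    obtain ⟨i₀, hi₀⟩ : ∃ i, σ i ≠ i := by
      by_contra hcon
      push Not at hcon
      exact hσ1 (Equiv.ext hcon)
    have hlt : q * (u (i₀ - σ i₀)).natDegree + wt (i₀ - σ i₀) < q * d := by
      have hi : i₀ - σ i₀ ≠ 0 := fun h => hi₀ (sub_eq_zero.mp h).symm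
      have h3 : u (i₀ - σ i₀) = p (i₀ - σ i₀) := by rw [hu]; simp [hi]
      have h4 := h1 i₀
      rw [h3] at h4 ⊢
      exact hp _ h4
    have h3 : ∑ i, (q * (nmat (fun i => (X + C (b i) : B[X])) u (σ i) i).natDegree + wt i)
        < ∑ i, (q * d + wt (σ i)) := by
      refine Finset.sum_lt_sum (fun i _ => ?_) ⟨i₀, Finset.mem_univ _, ?_⟩
      · have := entry_le b u (σ i) i
        have h4 := hle i
        omega
      · have := entry_le b u (σ i₀) i₀
        omega
    rw [Finset.sum_add_distrib, Finset.sum_add_distrib, Equiv.sum_comp σ wt,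
      ← Finset.mul_sum, Finset.sum_const, Finset.card_univ, card_exp] at h3
    have h5 := Nat.lt_of_add_lt_add_right h3
    rw [smul_eq_mul, mul_left_comm] at h5
    have h6 := Nat.lt_of_mul_lt_mul_left h5
    have h7 : ((Equiv.Perm.sign σ) •
        ∏ i, nmat (fun i => (X + C (b i) : B[X])) u (σ i) i).natDegree
          < d * q ^ Fintype.card ι := by
      rw [mul_comm d]
      exact lt_of_le_of_lt h2 h6
    exact (degree_le_natDegree).trans_lt (by exact_mod_cast h7)
  rw [hdet]
  refine ⟨hDm.add_of_left hEd, ?_⟩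
  rw [natDegree_add_eq_left_of_degree_lt hEd, hDn]

end Degree

end Pool.Agent.AIC
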