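import Mathlib
import Pool.Agent.AIC.Norm

set_option autoImplicit false
set_option linter.unusedSectionVars false

namespace Pool.Agent.AIC

open Finset

section Root

variable {κ : Type} [Field κ]

/-- `q`-th root of `X + c^q` in `κ⟦X⟧`. -/
theorem exists_root (q : ℕ) (hq0 : 0 < q) (hq : (q : κ) ≠ 0) (c : κ) (hc : c ≠ 0) :
    ∃ η : PowerSeries κ, η ^ q = PowerSeries.X + PowerSeries.C (c ^ q) ∧
      PowerSeries.constantCoeff η = c := by
  classical
  have hH : HenselianRing (PowerSeries κ) (Ideal.span {(PowerSeries.X : PowerSeries κ)}) :=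
    inferInstance
  have hmem : ∀ f : PowerSeries κ, f ∈ Ideal.span {(PowerSeries.X : PowerSeries κ)} ↔
      PowerSeries.constantCoeff f = 0 := fun f => by
    rw [Ideal.mem_span_singleton, PowerSeries.X_dvd_iff]
  set F : Polynomial (PowerSeries κ) :=
    Polynomial.X ^ q - Polynomial.C (PowerSeries.X + PowerSeries.C (c ^ q)) with hF
  have hmonic : F.Monic := Polynomial.monic_X_pow_sub_C _ hq0.ne'
  obtain ⟨η, h1, h2⟩ := hH.is_henselian F hmonic (PowerSeries.C c) (by
      rw [hmem]
      simp [hF]) (by
      have h : Polynomial.eval (PowerSeries.C c) (Polynomial.derivative F)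
          = PowerSeries.C ((q : κ) * c ^ (q - 1)) := by
        rw [hF, Polynomial.derivative_sub, Polynomial.derivative_C, sub_zero,
          Polynomial.derivative_X_pow]
        simp
      rw [h]
      have hu : IsUnit (PowerSeries.C ((q : κ) * c ^ (q - 1)) : PowerSeries κ) :=
        (IsUnit.mk0 _ (mul_ne_zero hq (pow_ne_zero _ hc))).map PowerSeries.C
      exact hu.map _)
  refine ⟨η, ?_, ?_⟩
  · have := h1
    simp only [hF, Polynomial.IsRoot.def, Polynomial.eval_sub, Polynomial.eval_pow,
      Polynomial.eval_X, Polynomial.eval_C] at this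
    exact sub_eq_zero.mp this
  · rw [hmem] at h2
    simpa [sub_eq_zero] using h2

end Root

section Expand

variable {κ : Type} [Field κ] {q : ℕ} [Fact q.Prime]

/-- independence of the powers of `X` over `κ⟦X^q⟧`. -/
theorem expand_indep (hq0 : q ≠ 0) (lam : κ) (hlam : lam ≠ 0)
    (A : ZMod q → PowerSeries κ)
    (h : ∑ e : ZMod q, PowerSeries.expand q hq0 (A e) *
      (PowerSeries.C lam * PowerSeries.X) ^ e.val = 0) :
    ∀ e, A e = 0 := by
  have hq : NeZero q := ⟨hq0⟩
  intro e
  ext m
  have h1 := congrArg (PowerSeries.coeff (q * m + e.val)) h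
  rw [map_sum, Finset.sum_eq_single e] at h1
  · rw [mul_pow, ← map_pow, mul_left_comm, PowerSeries.coeff_C_mul, PowerSeries.coeff_mul_X_pow,
      PowerSeries.coeff_expand_mul, map_zero] at h1
    simpa using (mul_eq_zero.mp h1).resolve_left (pow_ne_zero _ hlam)
  · intro e' _ he'
    rw [mul_pow, ← map_pow, mul_left_comm, PowerSeries.coeff_C_mul,
      PowerSeries.coeff_mul_X_pow']
    split_ifs with hle
    · rw [PowerSeries.coeff_expand_of_not_dvd, mul_zero]
      intro hd
      apply he'
      apply ZMod.val_injective q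
      have h3 : (q * m + e.val - e'.val) % q = 0 := Nat.mod_eq_zero_of_dvd hd
      have h4 : (q * m + e.val - e'.val + e'.val) % q = e'.val % q := by
        rw [Nat.add_mod, h3, zero_add, Nat.mod_mod]
      rw [Nat.sub_add_cancel hle, Nat.mul_add_mod, Nat.mod_eq_of_lt (ZMod.val_lt e),
        Nat.mod_eq_of_lt (ZMod.val_lt e')] at h4
      exact h4.symm
    · rw [mul_zero]
  · intro h; exact absurd (Finset.mem_univ _) h

end Expand

end Pool.Agent.AIC
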