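import Mathlib
import Pool.Agent.AIC.Norm
import Pool.Agent.AIC.Series
import Pool.Agent.AIC.Degree

set_option autoImplicit false
set_option linter.unusedSectionVars false

namespace Pool.Agent.AIC

open Finset Polynomial

section Aux

variable {R : Type} [CommRing R]

/-- every monic polynomial splits into linear factors. -/
theorem splits_of_root [IsDomain R]
    (hR : ∀ f : R[X], f.Monic → 0 < f.natDegree → ∃ r, f.IsRoot r) :
    ∀ (n : ℕ) (f : R[X]), f.Monic → f.natDegree = n →
      ∃ rs : Multiset R, f = (rs.map (fun r => X - C r)).prod ∧ Multiset.card rs = n := by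
  intro n
  induction n with
  | zero =>
    intro f hf h0
    refine ⟨0, ?_, rfl⟩
    rw [Polynomial.eq_one_of_monic_natDegree_zero hf h0]; simp
  | succ n ih =>
    intro f hf hn
    obtain ⟨r, hr⟩ := hR f hf (by omega)
    obtain ⟨g, hg⟩ := Polynomial.dvd_iff_isRoot.mpr hr
    have hgm : g.Monic := by
      rw [hg] at hf
      exact (monic_X_sub_C r).of_mul_monic_left hf
    have hgn : g.natDegree = n := by
      have := congrArg natDegree hg
      rw [(monic_X_sub_C r).natDegree_mul hgm, natDegree_X_sub_C] at this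
      omega
    obtain ⟨rs, h1, h2⟩ := ih g hgm hgn
    refine ⟨r ::ₘ rs, ?_, by simp [h2]⟩
    rw [Multiset.map_cons, Multiset.prod_cons, ← h1, hg]

theorem crt (m₁ m₂ : Ideal R) (h : IsCoprime m₁ m₂) (a : R ⧸ m₁) (b : R ⧸ m₂) :
    ∃ r : R, Ideal.Quotient.mk m₁ r = a ∧ Ideal.Quotient.mk m₂ r = b := by
  obtain ⟨a0, rfl⟩ := Ideal.Quotient.mk_surjective a
  obtain ⟨b0, rfl⟩ := Ideal.Quotient.mk_surjective b
  obtain ⟨u, hu, v, hv, huv⟩ := Ideal.isCoprime_iff_exists.mp h
  refine ⟨a0 * v + b0 * u, ?_, ?_⟩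
  · rw [Ideal.Quotient.eq]
    have : a0 * v + b0 * u - a0 = (b0 - a0) * u := by
      linear_combination a0 * huv
    rw [this]
    exact m₁.mul_mem_left _ hu
  · rw [Ideal.Quotient.eq]
    have : a0 * v + b0 * u - b0 = (a0 - b0) * v := by
      linear_combination b0 * huv
    rw [this]
    exact m₂.mul_mem_left _ hv

theorem lift2 (m₁ m₂ : Ideal R) (h : IsCoprime m₁ m₂) (f₁ : (R ⧸ m₁)[X]) (f₂ : (R ⧸ m₂)[X])
    (D : ℕ) (h₁ : f₁.natDegree ≤ D) (h₂ : f₂.natDegree ≤ D) :
    ∃ P : R[X], P.natDegree ≤ D ∧ P.map (Ideal.Quotient.mk m₁) = f₁ ∧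
      P.map (Ideal.Quotient.mk m₂) = f₂ := by
  choose r hr1 hr2 using fun j => crt m₁ m₂ h (f₁.coeff j) (f₂.coeff j)
  refine ⟨∑ j ∈ range (D + 1), C (r j) * X ^ j, ?_, ?_, ?_⟩
  · refine natDegree_sum_le_of_forall_le _ _ fun j hj => ?_
    refine (natDegree_C_mul_X_pow_le _ _).trans ?_
    have := Finset.mem_range.mp hj
    omega
  · rw [Polynomial.map_sum]
    simp only [Polynomial.map_mul, map_C, Polynomial.map_pow, map_X, hr1]
    exact (f₁.as_sum_range_C_mul_X_pow' (by omega)).symm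
  · rw [Polynomial.map_sum]
    simp only [Polynomial.map_mul, map_C, Polynomial.map_pow, map_X, hr2]
    exact (f₂.as_sum_range_C_mul_X_pow' (by omega)).symm

theorem isAlgClosed_quotient
    (hR : ∀ f : R[X], f.Monic → 0 < f.natDegree → ∃ r, f.IsRoot r) (m : Ideal R)
    [hm : m.IsMaximal] :
    @IsAlgClosed (R ⧸ m) (Ideal.Quotient.field m) := by
  let _ := Ideal.Quotient.field m
  refine IsAlgClosed.of_exists_root _ fun p hp hirr => ?_
  have hl : p ∈ Polynomial.lifts (Ideal.Quotient.mk m) := by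
    rw [Polynomial.mem_lifts]
    exact Polynomial.map_surjective _ Ideal.Quotient.mk_surjective p
  obtain ⟨P, hP1, hP2, hP3⟩ := Polynomial.lifts_and_natDegree_eq_and_monic hl hp
  obtain ⟨r, hr⟩ := hR P hP3 (by
    rw [hP2]; exact hirr.natDegree_pos)
  refine ⟨Ideal.Quotient.mk m r, ?_⟩
  rw [← hP1, Polynomial.eval_map, Polynomial.eval₂_at_apply, hr.eq_zero, map_zero]

end Aux

section Roots

variable {κ : Type} [Field κ] {q : ℕ} [Fact q.Prime]

theorem zeta_root (ζ : κ) (hζ : ∑ j ∈ range q, ζ ^ j = 0) (hq : (q : κ) ≠ 0) (x c : κ)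
    (hc : c ≠ 0) (h : x ^ q = c ^ q) : ∃ a : ZMod q, x = ζ ^ a.val * c := by
  have hne : NeZero q := ⟨(Fact.out : q.Prime).ne_zero⟩
  have h1 : ζ ^ q = 1 := zeta_pow ζ hζ
  have h2 : ζ ≠ 1 := by
    rintro rfl
    simp at hζ
    exact hq hζ
  have hprim : IsPrimitiveRoot ζ q := by
    rw [IsPrimitiveRoot.iff_orderOf]
    exact orderOf_eq_prime h1 h2
  have h3 : (x / c) ^ q = 1 := by
    rw [div_pow, h, div_self (pow_ne_zero _ hc)]
  obtain ⟨i, hi, hi2⟩ := hprim.eq_pow_of_pow_eq_one h3
  refine ⟨(i : ZMod q), ?_⟩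
  rw [ZMod.val_cast_of_lt hi, hi2]
  field_simp

end Roots


section Main

variable {ι : Type} [Fintype ι] [DecidableEq ι] {q : ℕ} [Fact q.Prime]

/-- abbreviation: the family of `X^d + p`. -/
noncomputable def fam {B : Type} [CommRing B] (d : ℕ) (p : (ι → ZMod q) → B[X]) :
    (ι → ZMod q) → B[X] :=
  fun s => (if s = 0 then X ^ d else 0) + p s

theorem fam_map {B B' : Type} [CommRing B] [CommRing B'] (f : B →+* B') (d : ℕ)
    (p : (ι → ZMod q) → B[X]) (s : ι → ZMod q) :
    (fam d p s).map f = fam d (fun s => (p s).map f) s := by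
  unfold fam
  split_ifs with h <;> simp

/-- the counting statement over one residue field. -/
theorem count_zero_ge {κ : Type} [Field κ] [DecidableEq κ] (ζ : κ) (hζ : ∑ j ∈ range q, ζ ^ j = 0)
    (hq : (q : κ) ≠ 0) (c : ι → κ) (hc : ∀ i, c i ≠ 0)
    (η : ι → PowerSeries κ) (hη : ∀ i, η i ^ q = PowerSeries.X + PowerSeries.C (c i ^ q))
    (hη0 : ∀ i, PowerSeries.constantCoeff (η i) = c i) (k : ℕ)
    (u : (ι → ZMod q) → κ[X])
    (hu : PowerSeries.X ^ k ∣ ev η (fun s => ((u s : κ[X]) : PowerSeries κ)))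
    (rs : Multiset κ)
    (hrs : (nmat (fun i => X + C (c i ^ q)) u).det = (rs.map (fun r => X - C r)).prod) :
    k ≤ rs.count 0 := by
  have h1 : ((nmat (fun i => X + C (c i ^ q)) u).det : PowerSeries κ)
      = ∏ δ : ι → ZMod q, ev (tw (PowerSeries.C ζ) δ η)
          (fun s => ((u s : κ[X]) : PowerSeries κ)) := by
    rw [← det_nmat (PowerSeries.C ζ) (by
        have := congrArg (PowerSeries.C (R := κ)) hζ
        simpa [map_sum, map_pow] using this) (by
        intro h
        apply hq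
        have := congrArg PowerSeries.constantCoeff h
        simpa using this) η (by
        intro i h
        have := hη0 i
        rw [h, map_zero] at this
        exact hc i this.symm)]
    have := det_nmat_map (Polynomial.coeToPowerSeries.ringHom (R := κ))
      (fun i => X + C (c i ^ q)) u
    simp only [Polynomial.coeToPowerSeries.ringHom_apply] at this
    rw [this]
    congr 2
    ext i
    rw [hη i]
    simp
  have h2 : PowerSeries.X ^ k ∣ ((nmat (fun i => X + C (c i ^ q)) u).det : PowerSeries κ) := by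
    rw [h1]
    have h0 : tw (PowerSeries.C ζ) (0 : ι → ZMod q) η = η := by
      ext i; simp [tw]
    refine dvd_trans ?_ (Finset.dvd_prod_of_mem _ (Finset.mem_univ (0 : ι → ZMod q)))
    rw [h0]; exact hu
  have h3 : X ^ k ∣ (nmat (fun i => X + C (c i ^ q)) u).det := by
    rw [Polynomial.X_pow_dvd_iff]
    intro m hm
    have := PowerSeries.X_pow_dvd_iff.mp h2 m hm
    simpa using this
  rw [hrs] at h3
  have hne : (rs.map (fun r => X - C r)).prod ≠ 0 :=
    (monic_multiset_prod_of_monic _ _ fun r _ => monic_X_sub_C r).ne_zero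
  have h4 : k ≤ rootMultiplicity 0 ((rs.map (fun r => X - C r)).prod) := by
    rw [le_rootMultiplicity_iff hne]
    simpa using h3
  rwa [← Polynomial.count_roots, Polynomial.roots_multiset_prod_X_sub_C] at h4


theorem ev_map {A B : Type} [CommRing A] [CommRing B] (f : A →+* B) (y : ι → A)
    (u : (ι → ZMod q) → A) : f (ev y u) = ev (fun i => f (y i)) (fun s => f (u s)) := by
  simp [ev, mono_map]

theorem pow_map_root {A B : Type} [CommRing A] [CommRing B] (f : A →+* B) (x y : A) (n : ℕ)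
    (h : x ^ n = y) : f x ^ n = f y := by
  rw [← map_pow, h]

/-- reduction of a zero modulo a maximal ideal. -/
theorem reduce_zero {R κ : Type} [CommRing R] [Field κ] (f : R →+* κ) (ζ : R)
    (hζ : ∑ j ∈ range q, (f ζ) ^ j = 0) (hq : (q : κ) ≠ 0) (c' : ι → κ) (hc' : ∀ i, c' i ≠ 0)
    (r : R) (hr : f r = 0) (y : ι → R) (hy : ∀ i, f (y i) ^ q = c' i ^ q)
    (u : (ι → ZMod q) → R[X]) (hz : ev y (fun s => (u s).eval r) = 0)
    (hF : ∀ δ : ι → ZMod q, δ ≠ 0 →
        ev (tw (f ζ) δ c') (fun s => ((u s).map f).eval 0) ≠ 0) :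
    ∀ i, f (y i) = c' i := by
  choose a ha using fun i => zeta_root (f ζ) hζ hq (f (y i)) (c' i) (hc' i) (hy i)
  have h1 : ev (tw (f ζ) a c') (fun s => ((u s).map f).eval 0) = 0 := by
    have h2 := congrArg f hz
    rw [ev_map, map_zero] at h2
    refine Eq.trans ?_ h2
    unfold ev
    refine Finset.sum_congr rfl fun s _ => ?_
    have e1 : ((u s).map f).eval 0 = f ((u s).eval r) := by
      rw [← hr, Polynomial.eval_map, Polynomial.eval₂_at_apply]
    have e2 : tw (f ζ) a c' = fun i => f (y i) := by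
      ext i
      rw [ha i]
      rfl
    rw [e2]
    simp only [e1]
  have h3 : a = 0 := by
    by_contra hne
    exact hF a hne h1
  intro i
  rw [ha i, h3]
  simp

end Main

end Pool.Agent.AIC
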