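import Mathlib
import Pool.Agent.AIC.Norm
import Pool.Agent.AIC.Degree
import Pool.Agent.AIC.PointsAux

/-! Stage 6: families with leading coefficient `D`, jets with denominator `D`. -/

set_option autoImplicit false
set_option linter.unusedSectionVars false

namespace Pool.Agent.AIC

open Finset Polynomial

section DefsD

variable {ι : Type} [Fintype ι] [DecidableEq ι] {q : ℕ} [Fact q.Prime]

/-- the family `D * X ^ d` at `0` plus `P`. -/
noncomputable def famD {R : Type} [CommRing R] (D : R) (d : ℕ) (P : (ι → ZMod q) → R[X]) :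
    (ι → ZMod q) → R[X] :=
  fun s => (if s = 0 then C D * X ^ d else 0) + P s

theorem famD_map {R S : Type} [CommRing R] [CommRing S] (f : R →+* S) (D : R) (d : ℕ)
    (P : (ι → ZMod q) → R[X]) (s : ι → ZMod q) :
    (famD D d P s).map f = famD (f D) d (fun s => (P s).map f) s := by
  unfold famD
  rw [Polynomial.map_add]
  by_cases hs : s = 0
  · simp [hs]
  · simp [hs]

/-- jets with denominator `D`: the first `k` coefficients of the value at `η` and the values at the
twisted points can be prescribed up to the factor `D`. -/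
def JetsD {A : Type} [CommRing A] (ζ : A) (c : ι → A) (η : ι → PowerSeries A) (d k : ℕ)
    (D : A) : Prop :=
  ∀ (g : ℕ → A) (w : (ι → ZMod q) → A), ∃ p : (ι → ZMod q) → A[X],
    (∀ s, p s ≠ 0 → q * (p s).natDegree + wt s < q * d) ∧
    (∀ j, j < k → PowerSeries.coeff j
      (ev η (fun s => ((p s : A[X]) : PowerSeries A))) = D * g j) ∧
    (∀ δ : ι → ZMod q, δ ≠ 0 → ev (tw ζ δ c) (fun s => (p s).eval 0) = D * w δ)

theorem JetsD.of_dvd {A : Type} [CommRing A] {ζ : A} {c : ι → A} {η : ι → PowerSeries A}
    {d k : ℕ} {D D' : A} (h : JetsD (q := q) ζ c η d k D) (hD : D ∣ D') :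
    JetsD (q := q) ζ c η d k D' := by
  obtain ⟨e, rfl⟩ := hD
  intro g w
  obtain ⟨p, h1, h2, h3⟩ := h (fun j => e * g j) (fun δ => e * w δ)
  exact ⟨p, h1, fun j hj => by rw [h2 j hj]; ring, fun δ hδ => by rw [h3 δ hδ]; ring⟩

theorem JetsD.mono {A : Type} [CommRing A] {ζ : A} {c : ι → A} {η : ι → PowerSeries A}
    {d k k' : ℕ} {D : A} (h : JetsD (q := q) ζ c η d k D) (hk : k' ≤ k) :
    JetsD (q := q) ζ c η d k' D := by
  intro g w
  obtain ⟨p, h1, h2, h3⟩ := h g w
  exact ⟨p, h1, fun j hj => h2 j (hj.trans_le hk), h3⟩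

/-- jets with denominators go down to quotients. -/
theorem JetsD.map {A B : Type} [CommRing A] [CommRing B] (f : A →+* B)
    (hf : Function.Surjective f) {ζ : A} {c : ι → A} {η : ι → PowerSeries A}
    {d k : ℕ} {D : A} (h : JetsD (q := q) ζ c η d k D) :
    JetsD (q := q) (f ζ) (fun i => f (c i)) (fun i => PowerSeries.map f (η i)) d k (f D) := by
  intro g w
  choose g' hg' using fun j => hf (g j)
  choose w' hw' using fun δ => hf (w δ)
  obtain ⟨p, h1, h2, h3⟩ := h g' w'
  refine ⟨fun s => (p s).map f, fun s hs => ?_, fun j hj => ?_, fun δ hδ => ?_⟩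
  · have h4 : p s ≠ 0 := by
      intro h0
      apply hs
      simp [h0]
    have h5 := h1 s h4
    have h6 : ((p s).map f).natDegree ≤ (p s).natDegree := natDegree_map_le
    have h7 := Nat.mul_le_mul_left q h6
    show q * ((p s).map f).natDegree + wt s < q * d
    omega
  · have h4 := congrArg f (h2 j hj)
    rw [map_mul, hg', ← PowerSeries.coeff_map, ev_map] at h4
    rw [← h4]
    congr 2
    funext s
    rw [← Polynomial.polynomial_map_coe]
  · have h4 := congrArg f (h3 δ hδ)
    rw [map_mul, hw', ev_map] at h4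
    rw [← h4]
    congr 1
    · funext i
      simp [tw]
    · funext s
      rw [Polynomial.eval_map, ← Polynomial.eval₂_at_apply, map_zero]

end DefsD

end Pool.Agent.AIC
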