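import Mathlib
import Pool.Agent.AIC.Norm
import Pool.Agent.AIC.Series

set_option autoImplicit false
set_option linter.unusedSectionVars false

namespace Pool.Agent.AIC

open Finset Polynomial

section Indep34

variable {ι : Type} [Fintype ι] [DecidableEq ι] {q : ℕ} [Fact q.Prime]
variable {κ : Type} [Field κ]

/-- the embedding `p(x) ↦ p(t - b)` of polynomials into power series in `t`. -/
noncomputable def shift34 (b : κ) : κ[X] →+* PowerSeries κ :=
  (Polynomial.coeToPowerSeries.ringHom (R := κ)).comp (Polynomial.compRingHom (X - C b))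

theorem shift34_apply (b : κ) (p : κ[X]) : shift34 b p = ((p.comp (X - C b) : κ[X]) : PowerSeries κ) := rfl

theorem shift34_injective (b : κ) (p : κ[X]) (h : shift34 b p = 0) : p = 0 := by
  rw [shift34_apply] at h
  have h1 : p.comp (X - C b) = 0 := by
    apply Polynomial.coe_injective κ
    rw [h, Polynomial.coe_zero]
  have h2 : (p.comp (X - C b)).comp (X + C b) = p := by
    rw [Polynomial.comp_assoc]
    simp
  rw [← h2, h1, Polynomial.zero_comp]

theorem expand_eq_zero34 (hq0 : q ≠ 0) (f : PowerSeries κ) (h : PowerSeries.expand q hq0 f = 0) : f = 0 := by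
  ext m
  have h1 := congrArg (PowerSeries.coeff (q * m)) h
  rw [PowerSeries.coeff_expand_mul] at h1
  simpa using h1

theorem sum_split34 {M : Type} [AddCommMonoid M] (j : ι) (F : (ι → ZMod q) → M) :
    ∑ s, F s = ∑ e : ZMod q, ∑ s' : ({i // i ≠ j} → ZMod q), F ((Equiv.funSplitAt j (ZMod q)).symm (e, s')) := by
  rw [← Fintype.sum_prod_type']
  exact (Equiv.sum_comp (Equiv.funSplitAt j (ZMod q)).symm F).symm

theorem split_same34 (j : ι) (e : ZMod q) (s' : {i // i ≠ j} → ZMod q) :
    ((Equiv.funSplitAt j (ZMod q)).symm (e, s')) j = e := by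
  simp [Equiv.funSplitAt]

theorem split_ne34 (j : ι) (e : ZMod q) (s' : {i // i ≠ j} → ZMod q) (i : ι) (hi : i ≠ j) :
    ((Equiv.funSplitAt j (ZMod q)).symm (e, s')) i = s' ⟨i, hi⟩ := by
  simp [Equiv.funSplitAt, hi]

theorem update_split34 (j : ι) (e e' : ZMod q) (s' : {i // i ≠ j} → ZMod q) :
    Function.update ((Equiv.funSplitAt j (ZMod q)).symm (e, s')) j e' =
      (Equiv.funSplitAt j (ZMod q)).symm (e', s') := by
  funext i
  by_cases hi : i = j
  · subst hi
    rw [Function.update_self, split_same34]
  · rw [Function.update_of_ne hi, split_ne34 j e s' i hi, split_ne34 j e' s' i hi]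

theorem det_ne_zero_aux34 [IsAlgClosed κ] (ζ : κ) (hζ : ∑ j ∈ range q, ζ ^ j = 0)
    (hq : (q : κ) ≠ 0) (b : ι → κ) (hb : Function.Injective b) (T : Finset ι) :
    ∀ u : (ι → ZMod q) → κ[X], u ≠ 0 → (∀ s, u s ≠ 0 → ∀ i, i ∉ T → s i = 0) →
      (nmat (fun i => X + C (b i)) u).det ≠ 0 := by
  classical
  have hq0 : q ≠ 0 := (Fact.out : q.Prime).ne_zero
  have hqz : NeZero q := ⟨hq0⟩
  have hζq := zeta_pow ζ hζ
  have hζ0 : ζ ≠ 0 := by
    rintro rfl
    rw [zero_pow hq0] at hζq
    exact zero_ne_one hζq
  induction T using Finset.induction_on with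
  | empty =>
    intro u hu hs
    have h0 : ∀ s, s ≠ 0 → u s = 0 := by
      intro s hs0
      by_contra h
      exact hs0 (funext fun i => hs s h i (Finset.notMem_empty i))
    have hu0 : u 0 ≠ 0 := by
      intro h
      apply hu
      funext s
      by_cases hs0 : s = 0
      · rw [hs0, h]; rfl
      · rw [h0 s hs0]; rfl
    have hd : nmat (fun i => (X : κ[X]) + C (b i)) u = Matrix.diagonal (fun _ => u 0) := by
      ext1 s t
      rw [Matrix.diagonal_apply]
      unfold nmat
      split_ifs with hst
      · subst hst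
        rw [sub_self, carry_zero_right, mul_one]
      · rw [h0 (t - s) (sub_ne_zero.mpr (Ne.symm hst)), zero_mul]
    rw [hd, Matrix.det_diagonal, Finset.prod_const]
    exact pow_ne_zero _ hu0
  | insert j T' hj ih =>
    intro u hu hs hdet
    -- roots
    have hroot : ∀ i, ∃ θ : PowerSeries κ, i ≠ j → (θ ^ q = PowerSeries.X + PowerSeries.C (b i - b j) ∧ θ ≠ 0) := by
      intro i
      by_cases hij : i = j
      · exact ⟨0, fun h => absurd hij h⟩
      · have hne : b i - b j ≠ 0 := sub_ne_zero.mpr fun h => hij (hb h)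
        obtain ⟨c, hc⟩ := IsAlgClosed.exists_pow_nat_eq (b i - b j) (Nat.pos_of_ne_zero hq0)
        have hc0 : c ≠ 0 := by
          rintro rfl
          rw [zero_pow hq0] at hc
          exact hne hc.symm
        obtain ⟨θ, h1, h2⟩ := exists_root q (Nat.pos_of_ne_zero hq0) hq c hc0
        refine ⟨θ, fun _ => ⟨by rw [h1, hc], ?_⟩⟩
        rintro rfl
        rw [map_zero] at h2
        exact hc0 h2.symm
    choose θ hθ using hroot
    set g : κ[X] →+* PowerSeries κ := shift34 (b j) with hg
    set f : κ[X] →+* PowerSeries κ := ((PowerSeries.expand q hq0 : PowerSeries κ →ₐ[κ] PowerSeries κ) :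
      PowerSeries κ →+* PowerSeries κ).comp g with hf
    have hfa : ∀ p, f p = PowerSeries.expand q hq0 (g p) := fun p => rfl
    have hfinj : ∀ p, f p = 0 → p = 0 := by
      intro p hp
      rw [hfa] at hp
      exact shift34_injective (b j) p (expand_eq_zero34 hq0 _ hp)
    have hgX : ∀ i, g (X + C (b i)) = PowerSeries.X + PowerSeries.C (b i - b j) := by
      intro i
      rw [hg, shift34_apply]
      have : ((X + C (b i) : κ[X]).comp (X - C (b j))) = X + C (b i - b j) := by
        simp
        ring
      rw [this]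
      simp
    set y : ι → PowerSeries κ := fun i => if i = j then PowerSeries.X else PowerSeries.expand q hq0 (θ i) with hy
    have hyj : y j = PowerSeries.X := by rw [hy]; simp
    have hyi : ∀ i, i ≠ j → y i = PowerSeries.expand q hq0 (θ i) := by
      intro i hi; rw [hy]; simp [hi]
    have hy0 : ∀ i, y i ≠ 0 := by
      intro i
      by_cases hi : i = j
      · rw [hi, hyj]; exact PowerSeries.X_ne_zero
      · rw [hyi i hi]
        intro h
        exact (hθ i hi).2 (expand_eq_zero34 hq0 _ h)
    have hyq : (fun i => f (X + C (b i))) = fun i => y i ^ q := by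
      funext i
      rw [hfa, hgX]
      by_cases hi : i = j
      · rw [hi, hyj, sub_self, map_zero, add_zero, PowerSeries.expand_X]
      · rw [hyi i hi, ← (hθ i hi).1, map_pow]
    have hζC : ∑ k ∈ range q, (PowerSeries.C ζ : PowerSeries κ) ^ k = 0 := by
      have := congrArg (PowerSeries.C (R := κ)) hζ
      rw [map_sum, map_zero] at this
      rw [← this]
      exact Finset.sum_congr rfl fun k _ => (map_pow _ _ _).symm
    have hqC : ((q : ℕ) : PowerSeries κ) ≠ 0 := by
      have h1 : ((q : ℕ) : PowerSeries κ) = PowerSeries.C (q : κ) := (map_natCast _ q).symm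
      rw [h1]
      intro h
      apply hq
      have := congrArg PowerSeries.constantCoeff h
      simpa using this
    have hDI : ∀ v : (ι → ZMod q) → κ[X], f (nmat (fun i => X + C (b i)) v).det =
        ∏ δ : ι → ZMod q, ev (tw (PowerSeries.C ζ) δ y) (fun s => f (v s)) := by
      intro v
      rw [det_nmat_map, hyq]
      exact det_nmat _ hζC hqC y hy0 _
    -- monomials
    set Mo : (ι → ZMod q) → ({i // i ≠ j} → ZMod q) → PowerSeries κ := fun δ s' =>
      ∏ i : {i // i ≠ j}, ((PowerSeries.C ζ) ^ (δ i).val * θ i) ^ (s' i).val with hMo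
    have hmono : ∀ (δ : ι → ZMod q) (e : ZMod q) (s' : {i // i ≠ j} → ZMod q),
        mono (tw (PowerSeries.C ζ) δ y) ((Equiv.funSplitAt j (ZMod q)).symm (e, s')) =
          PowerSeries.expand q hq0 (Mo δ s') * (PowerSeries.C (ζ ^ (δ j).val) * PowerSeries.X) ^ e.val := by
      intro δ e s'
      unfold mono
      rw [← Finset.mul_prod_erase Finset.univ _ (Finset.mem_univ j), split_same34, mul_comm]
      congr 1
      · rw [hMo]
        simp only [map_prod]
        rw [Finset.prod_subtype (Finset.univ.erase j) (p := fun i => i ≠ j)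
          (by intro x; simp) (fun i => (tw (PowerSeries.C ζ) δ y i) ^
            (((Equiv.funSplitAt j (ZMod q)).symm (e, s')) i).val)]
        refine Finset.prod_congr rfl fun i _ => ?_
        rw [split_ne34 j e s' i i.2]
        unfold tw
        rw [hyi i i.2, map_pow, map_mul, map_pow, PowerSeries.expand_C]
      · unfold tw
        rw [hyj, map_pow]
    have hprod := hDI u
    rw [hdet, map_zero] at hprod
    obtain ⟨δ, _, hδ⟩ := Finset.prod_eq_zero_iff.mp hprod.symm
    set A : ZMod q → PowerSeries κ := fun e =>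
      ∑ s' : ({i // i ≠ j} → ZMod q), g (u ((Equiv.funSplitAt j (ZMod q)).symm (e, s'))) * Mo δ s' with hA
    have hlam : ζ ^ (δ j).val ≠ 0 := pow_ne_zero _ hζ0
    have hAz : ∀ e, A e = 0 := by
      apply expand_indep hq0 _ hlam
      rw [← hδ]
      unfold ev
      rw [sum_split34 j]
      refine Finset.sum_congr rfl fun e _ => ?_
      rw [hA]
      simp only [map_sum, map_mul]
      rw [Finset.sum_mul]
      refine Finset.sum_congr rfl fun s' _ => ?_
      rw [hmono, hfa]
      ring
    obtain ⟨s0, hs0⟩ := Function.ne_iff.mp hu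
    have hs0' : u s0 ≠ 0 := hs0
    set u' : (ι → ZMod q) → κ[X] := fun s => if s j = 0 then u (Function.update s j (s0 j)) else 0 with hu'
    have hu'0 : u' ≠ 0 := by
      intro h
      have h1 := congrFun h (Function.update s0 j 0)
      rw [hu'] at h1
      simp only [Function.update_self, if_true, Function.update_idem, Function.update_eq_self,
        Pi.zero_apply] at h1
      exact hs0' h1
    have hu's : ∀ s, u' s ≠ 0 → ∀ i, i ∉ T' → s i = 0 := by
      intro s h i hi
      rw [hu'] at h
      simp only at h
      split_ifs at h with h1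
      · by_cases hij : i = j
        · rw [hij]; exact h1
        · have h2 := hs _ h i (by
            intro hc
            rcases Finset.mem_insert.mp hc with h3 | h3
            · exact hij h3
            · exact hi h3)
          rwa [Function.update_of_ne hij] at h2
      · exact absurd rfl h
    have hne := ih u' hu'0 hu's
    apply hne
    apply hfinj
    rw [hDI u']
    refine Finset.prod_eq_zero (Finset.mem_univ δ) ?_
    unfold ev
    rw [sum_split34 j, Finset.sum_eq_single (0 : ZMod q)]
    · have h1 : ∀ s' : ({i // i ≠ j} → ZMod q),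
          f (u' ((Equiv.funSplitAt j (ZMod q)).symm (0, s'))) *
            mono (tw (PowerSeries.C ζ) δ y) ((Equiv.funSplitAt j (ZMod q)).symm (0, s')) =
          PowerSeries.expand q hq0 (g (u ((Equiv.funSplitAt j (ZMod q)).symm (s0 j, s'))) * Mo δ s') := by
        intro s'
        rw [hmono, ZMod.val_zero, pow_zero, mul_one, map_mul, hfa, hu']
        simp only [split_same34, if_true, update_split34]
      rw [Finset.sum_congr rfl fun s' _ => h1 s', ← map_sum]
      have h2 : ∑ s' : ({i // i ≠ j} → ZMod q),
          g (u ((Equiv.funSplitAt j (ZMod q)).symm (s0 j, s'))) * Mo δ s' = 0 := hAz (s0 j)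
      rw [h2, map_zero]
    · intro e _ he
      refine Finset.sum_eq_zero fun s' _ => ?_
      rw [hu']
      simp only [split_same34, if_neg he, map_zero, zero_mul]
    · intro h
      exact absurd (Finset.mem_univ _) h

/-- P4: the norm of a nonzero element is nonzero. -/
theorem det_ne_zero [IsAlgClosed κ] (ζ : κ) (hζ : ∑ j ∈ range q, ζ ^ j = 0)
    (hq : (q : κ) ≠ 0) (b : ι → κ) (hb : Function.Injective b) (u : (ι → ZMod q) → κ[X]) (hu : u ≠ 0) :
    (nmat (fun i => X + C (b i)) u).det ≠ 0 :=
  det_ne_zero_aux34 ζ hζ hq b hb Finset.univ u hu (fun _ _ i hi => absurd (Finset.mem_univ i) hi)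

end Indep34

end Pool.Agent.AIC
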