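import Mathlib
import Pool.Agent.AIC.Norm
import Pool.Agent.AIC.Series
import Pool.Agent.AIC.Degree
import Pool.Agent.AIC.Indep

set_option autoImplicit false
set_option linter.unusedSectionVars false

namespace Pool.Agent.AIC

open Finset Polynomial

section Exist34

variable {ι : Type} [Fintype ι] [DecidableEq ι] {q : ℕ} [Fact q.Prime]
variable {κ : Type} [Field κ]

/-- complementary exponent vector: `q - 1 - s_i`. -/
def co34 (s : ι → ZMod q) : ι → ZMod q := fun i => -1 - s i

theorem val_co34 (s : ι → ZMod q) (i : ι) : (co34 s i).val + (s i).val = q - 1 := by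
  have hq : NeZero q := ⟨(Fact.out : q.Prime).ne_zero⟩
  have h1 : ((s i).val : ZMod q) = s i := ZMod.natCast_zmod_val (s i)
  have hs := ZMod.val_lt (s i)
  have h2 : co34 s i = ((q - 1 - (s i).val : ℕ) : ZMod q) := by
    unfold co34
    rw [Nat.cast_sub (by omega), h1, Nat.cast_sub (by omega)]
    simp
  rw [h2, ZMod.val_cast_of_lt (by omega)]
  omega

theorem co_co34 (s : ι → ZMod q) : co34 (co34 s) = s := by
  funext i
  unfold co34
  ring

theorem wt_co34 (s : ι → ZMod q) : wt (co34 s) + wt s = Fintype.card ι * (q - 1) := by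
  unfold wt
  rw [← Finset.sum_add_distrib, Finset.sum_congr rfl fun i _ => val_co34 s i]
  simp

/-- `y^(q-1-s) * y^s = y^(q-1)` -/
theorem mono_co34 {A : Type} [CommRing A] (y : ι → A) (s : ι → ZMod q) :
    mono y (co34 s) * mono y s = ∏ i, y i ^ (q - 1) := by
  unfold mono
  rw [← Finset.prod_mul_distrib]
  refine Finset.prod_congr rfl fun i _ => ?_
  rw [← pow_add, val_co34]

/-- Fourier inversion. -/
theorem fourier34 {A : Type} [CommRing A] (ζ : A) (hζ : ∑ j ∈ range q, ζ ^ j = 0)
    (G : (ι → ZMod q) → A) (δ : ι → ZMod q) :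
    ∑ s : ι → ZMod q, mono (fun i => ζ ^ (δ i).val) (-s) *
      (∑ ε : ι → ZMod q, mono (fun i => ζ ^ (ε i).val) s * G ε) = (q : A) ^ (Fintype.card ι) * G δ := by
  classical
  have hsym : ∀ (a b : ι → ZMod q), mono (fun i => ζ ^ (a i).val) b = mono (fun i => ζ ^ (b i).val) a := by
    intro a b
    unfold mono
    refine Finset.prod_congr rfl fun i _ => ?_
    rw [← pow_mul, ← pow_mul, mul_comm]
  have hneg : ∀ (a b : ι → ZMod q), mono (fun i => ζ ^ (a i).val) (-b) = mono (fun i => ζ ^ (b i).val) (-a) := by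
    intro a b
    unfold mono
    refine Finset.prod_congr rfl fun i _ => ?_
    rw [zeta_mul ζ hζ, zeta_mul ζ hζ]
    congr 2
    simp [mul_comm]
  have h1 : ∀ s : ι → ZMod q, mono (fun i => ζ ^ (δ i).val) (-s) *
      (∑ ε : ι → ZMod q, mono (fun i => ζ ^ (ε i).val) s * G ε) =
      ∑ ε : ι → ZMod q, mono (fun i => ζ ^ (s i).val) (ε - δ) * G ε := by
    intro s
    rw [Finset.mul_sum]
    refine Finset.sum_congr rfl fun ε _ => ?_
    rw [← mul_assoc, hneg δ s, hsym ε s, mul_comm (mono (fun i => ζ ^ (s i).val) (-δ)),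
      ← mono_zeta_add ζ hζ, sub_eq_add_neg]
  rw [Finset.sum_congr rfl fun s _ => h1 s, Finset.sum_comm]
  have h2 : ∀ ε : ι → ZMod q, ∑ s : ι → ZMod q, mono (fun i => ζ ^ (s i).val) (ε - δ) * G ε =
      (if ε = δ then (q : A) ^ (Fintype.card ι) * G δ else 0) := by
    intro ε
    rw [← Finset.sum_mul, orth_pi ζ hζ]
    by_cases h : ε = δ
    · subst h; simp
    · rw [if_neg (sub_ne_zero.mpr h), if_neg h, zero_mul]
  rw [Finset.sum_congr rfl fun ε _ => h2 ε]
  simp

/-- transform of `G` at `s`. -/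
noncomputable def hat34 (ζ : κ) (G : (ι → ZMod q) → κ[X]) (s : ι → ZMod q) : κ[X] :=
  ∑ ε : ι → ZMod q, C (mono (fun i => ζ ^ (ε i).val) s) * G ε

theorem hat_inv34 (ζ : κ) (hζ : ∑ j ∈ range q, ζ ^ j = 0) (G : (ι → ZMod q) → κ[X])
    (δ : ι → ZMod q) :
    ∑ s : ι → ZMod q, C (mono (fun i => ζ ^ (δ i).val) (-s)) * hat34 ζ G s =
      C ((q : κ) ^ (Fintype.card ι)) * G δ := by
  have hζC : ∑ k ∈ range q, (C ζ : κ[X]) ^ k = 0 := by
    have := congrArg (C : κ → κ[X]) hζ
    rw [map_sum, map_zero] at this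
    rw [← this]
    exact Finset.sum_congr rfl fun k _ => (map_pow _ _ _).symm
  have h := fourier34 (C ζ : κ[X]) hζC G δ
  have h1 : ∀ (a b : ι → ZMod q), mono (fun i => (C ζ : κ[X]) ^ (a i).val) b =
      C (mono (fun i => ζ ^ (a i).val) b) := by
    intro a b
    rw [mono_map (C : κ →+* κ[X])]
    simp
  simp only [h1] at h
  unfold hat34
  rw [h]
  simp

/-- the determinant of a non-zero family does not vanish, over any field. -/
theorem det_ne_zero_field (ζ : κ) (hζ : ∑ j ∈ range q, ζ ^ j = 0)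
    (hq : (q : κ) ≠ 0) (b : ι → κ) (hb : Function.Injective b) (u : (ι → ZMod q) → κ[X]) (hu : u ≠ 0) :
    (nmat (fun i => X + C (b i)) u).det ≠ 0 := by
  have hinjf : Function.Injective (algebraMap κ (AlgebraicClosure κ)) :=
    (algebraMap κ (AlgebraicClosure κ)).injective
  intro h
  have h1 := det_nmat_map (Polynomial.mapRingHom (algebraMap κ (AlgebraicClosure κ)))
    (fun i => (X : κ[X]) + C (b i)) u
  rw [h, map_zero] at h1
  have h2 : (fun i => (Polynomial.mapRingHom (algebraMap κ (AlgebraicClosure κ))) ((X : κ[X]) + C (b i))) =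
      fun i => (X : (AlgebraicClosure κ)[X]) + C (algebraMap κ (AlgebraicClosure κ) (b i)) := by
    funext i
    simp
  rw [h2] at h1
  refine det_ne_zero (algebraMap κ (AlgebraicClosure κ) ζ) ?_ ?_
    (fun i => algebraMap κ (AlgebraicClosure κ) (b i)) (hinjf.comp hb) _ ?_ h1.symm
  · have := congrArg (algebraMap κ (AlgebraicClosure κ)) hζ
    rw [map_sum, map_zero] at this
    rw [← this]
    exact Finset.sum_congr rfl fun k _ => (map_pow _ _ _).symm
  · intro h3
    apply hq
    apply hinjf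
    rw [map_natCast, map_zero, h3]
  · intro h3
    apply hu
    funext s
    have h4 := congrFun h3 s
    simp only [Polynomial.coe_mapRingHom, Pi.zero_apply] at h4
    exact (Polynomial.map_eq_zero_iff hinjf).mp h4

/-- the duality statement: the orthogonal family vanishes. -/
theorem dual34 (hι : 0 < Fintype.card ι) (ζ : κ)
    (hζ : ∑ j ∈ range q, ζ ^ j = 0)
    (hq : (q : κ) ≠ 0) (c : ι → κ) (hc : ∀ i, c i ≠ 0) (hinj : Function.Injective (fun i => c i ^ q))
    (η : ι → PowerSeries κ) (hη : ∀ i, η i ^ q = PowerSeries.X + PowerSeries.C (c i ^ q))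
    (hη0 : ∀ i, PowerSeries.constantCoeff (η i) = c i)
    (N : ℕ) (hN1 : Fintype.card ι * q ^ Fintype.card ι ≤ N)
    (hN2 : N < Fintype.card ι * q ^ Fintype.card ι + Fintype.card ι * q ^ (Fintype.card ι - 1))
    (G : (ι → ZMod q) → κ[X])
    (hG : ∀ δ, (G δ).natDegree ≤ N)
    (hG1 : ∀ δ, δ ≠ 0 → (X : κ[X]) ^ N ∣ G δ)
    (horth : ∀ (s : ι → ZMod q) (a : ℕ), a < 2 * Fintype.card ι - wt s / q →
      PowerSeries.coeff (N - a) (mono η s * (hat34 ζ G s : PowerSeries κ)) = 0) :
    ∀ δ, G δ = 0 := by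
  classical
  have hqp : q.Prime := Fact.out
  have hqz : NeZero q := ⟨hqp.ne_zero⟩
  set n := Fintype.card ι with hn
  set Q := q ^ n with hQ
  have hQ2 : 2 ≤ Q := by
    calc 2 ≤ q := hqp.two_le
      _ = q ^ 1 := (pow_one q).symm
      _ ≤ q ^ n := Nat.pow_le_pow_right hqp.pos hι
  -- units
  have hηu : ∀ i, IsUnit (η i) := by
    intro i
    rw [PowerSeries.isUnit_iff_constantCoeff, hη0]
    exact (hc i).isUnit
  have hη_ne : ∀ i, η i ≠ 0 := fun i => (hηu i).ne_zero
  have hmu : ∀ s : ι → ZMod q, IsUnit (mono η s) := by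
    intro s
    unfold mono
    exact (Finset.prod_induction _ (fun x => IsUnit x) (fun _ _ ha hb => ha.mul hb) isUnit_one
      (fun i _ => (hηu i).pow _))
  set Hs : (ι → ZMod q) → κ[X] := fun s =>
    PowerSeries.trunc (N + 1) (mono η s * (hat34 ζ G s : PowerSeries κ)) with hHs
  have hHdvd : ∀ s, (PowerSeries.X : PowerSeries κ) ^ (N + 1) ∣
      mono η s * (hat34 ζ G s : PowerSeries κ) - (Hs s : PowerSeries κ) := by
    intro s
    rw [PowerSeries.X_pow_dvd_iff]
    intro m hm
    rw [map_sub, Polynomial.coeff_coe, hHs]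
    simp only
    rw [PowerSeries.coeff_trunc, if_pos hm, sub_self]
  have hHdeg : ∀ s, Hs s ≠ 0 → (Hs s).natDegree + (2 * n - wt s / q) ≤ N := by
    intro s hs
    have h1 : (Hs s).coeff (Hs s).natDegree ≠ 0 := by
      rw [Polynomial.coeff_natDegree]
      exact Polynomial.leadingCoeff_ne_zero.mpr hs
    by_contra hcon
    push Not at hcon
    apply h1
    have h2 : (Hs s).coeff (Hs s).natDegree = if (Hs s).natDegree < N + 1 then
        PowerSeries.coeff (Hs s).natDegree (mono η s * (hat34 ζ G s : PowerSeries κ)) else 0 := by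
      conv_lhs => rw [hHs]
      simp only
      rw [PowerSeries.coeff_trunc]
    rw [h2]
    split_ifs with h3
    · have h4 := horth s (N - (Hs s).natDegree) (by omega)
      rwa [show N - (N - (Hs s).natDegree) = (Hs s).natDegree by omega] at h4
    · rfl
  set U : (ι → ZMod q) → κ[X] := fun t => Hs (co34 t) with hU
  have h2nQ : 2 * n ≤ N := by
    refine le_trans ?_ hN1
    rw [mul_comm 2 n]; exact Nat.mul_le_mul_left n hQ2
  have hUw : ∀ t, U t ≠ 0 → q * (U t).natDegree + wt t ≤ q * (N - 2 * n) + n * (q - 1) := by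
    intro t ht
    have h1 := hHdeg (co34 t) ht
    have h2 : wt (co34 t) + wt t = n * (q - 1) := wt_co34 t
    set D := (Hs (co34 t)).natDegree with hD
    set W := wt (co34 t) with hW
    have h4 : q * (W / q) ≤ W := Nat.mul_div_le W q
    have h5 : W / q ≤ 2 * n := by
      have h6 : W ≤ n * (q - 1) := by omega
      have h7 : W ≤ q * (2 * n) := by
        calc W ≤ n * (q - 1) := h6
          _ ≤ n * q := Nat.mul_le_mul_left n (Nat.sub_le q 1)
          _ ≤ q * (2 * n) := by nlinarith
      exact Nat.div_le_of_le_mul h7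
    have h8 : D ≤ N - 2 * n + W / q := by omega
    calc q * D + wt t ≤ q * (N - 2 * n + W / q) + wt t := by
          exact Nat.add_le_add_right (Nat.mul_le_mul_left q h8) _
      _ = q * (N - 2 * n) + q * (W / q) + wt t := by ring
      _ ≤ q * (N - 2 * n) + (W + wt t) := by omega
      _ = q * (N - 2 * n) + n * (q - 1) := by rw [h2]
  have hdeg := natDegree_det_le (fun i => c i ^ q) U _ hUw
  set Dt := (nmat (fun i => (X : κ[X]) + C (c i ^ q)) U).det with hDt
  -- conjugates
  have hζC : ∑ k ∈ range q, (PowerSeries.C ζ : PowerSeries κ) ^ k = 0 := by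
    have := congrArg (PowerSeries.C (R := κ)) hζ
    rw [map_sum, map_zero] at this
    rw [← this]
    exact Finset.sum_congr rfl fun k _ => (map_pow _ _ _).symm
  have hqC : ((q : ℕ) : PowerSeries κ) ≠ 0 := by
    have h1 : ((q : ℕ) : PowerSeries κ) = PowerSeries.C (q : κ) := (map_natCast _ q).symm
    rw [h1]
    intro h
    apply hq
    have := congrArg PowerSeries.constantCoeff h
    simpa using this
  have hDI : (Dt : PowerSeries κ) = ∏ δ : ι → ZMod q, ev (tw (PowerSeries.C ζ) δ η)
      (fun s => (U s : PowerSeries κ)) := by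
    rw [← det_nmat _ hζC hqC η hη_ne]
    have h1 := det_nmat_map (Polynomial.coeToPowerSeries.ringHom (R := κ))
      (fun i => (X : κ[X]) + C (c i ^ q)) U
    simp only [Polynomial.coeToPowerSeries.ringHom_apply] at h1
    rw [hDt, h1]
    congr 2
    funext i
    rw [hη]
    simp
  have hmapmono : ∀ (a b : ι → ZMod q), mono (fun i => (PowerSeries.C ζ : PowerSeries κ) ^ (a i).val) b =
      PowerSeries.C (mono (fun i => ζ ^ (a i).val) b) := by
    intro a b
    rw [mono_map (PowerSeries.C (R := κ))]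
    simp
  have hdvd : ∀ δ : ι → ZMod q, δ ≠ 0 → (PowerSeries.X : PowerSeries κ) ^ N ∣
      ev (tw (PowerSeries.C ζ) δ η) (fun s => (U s : PowerSeries κ)) := by
    intro δ hδ
    unfold ev
    have hre : ∑ t : ι → ZMod q, (U t : PowerSeries κ) * mono (tw (PowerSeries.C ζ) δ η) t =
        ∑ s : ι → ZMod q, (Hs s : PowerSeries κ) * mono (tw (PowerSeries.C ζ) δ η) (co34 s) := by
      refine Fintype.sum_bijective co34 (Function.Involutive.bijective co_co34) _ _ fun t => ?_
      rw [co_co34]
    rw [hre]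
    have hterm : ∀ s : ι → ZMod q, (PowerSeries.X : PowerSeries κ) ^ N ∣
        (mono η s * (hat34 ζ G s : PowerSeries κ)) * mono (tw (PowerSeries.C ζ) δ η) (co34 s) -
        (Hs s : PowerSeries κ) * mono (tw (PowerSeries.C ζ) δ η) (co34 s) := by
      intro s
      rw [← sub_mul]
      exact Dvd.dvd.mul_right ((pow_dvd_pow _ (Nat.le_succ _)).trans (hHdvd s)) _
    have hsum : (PowerSeries.X : PowerSeries κ) ^ N ∣
        ∑ s : ι → ZMod q, (mono η s * (hat34 ζ G s : PowerSeries κ)) *
          mono (tw (PowerSeries.C ζ) δ η) (co34 s) := by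
      have h1 : ∀ s : ι → ZMod q, (mono η s * (hat34 ζ G s : PowerSeries κ)) *
          mono (tw (PowerSeries.C ζ) δ η) (co34 s) =
          ((∏ i, η i ^ (q - 1)) * PowerSeries.C (mono (fun i => ζ ^ (δ i).val) (fun _ => (-1 : ZMod q)))) *
            (PowerSeries.C (mono (fun i => ζ ^ (δ i).val) (-s)) * (hat34 ζ G s : PowerSeries κ)) := by
        intro s
        rw [tw_mono, ← mono_co34 η s]
        have h2 : co34 s = (fun _ => (-1 : ZMod q)) + (-s) := by
          funext i
          simp [co34, sub_eq_add_neg]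
        have h3 : mono (fun i => (PowerSeries.C ζ : PowerSeries κ) ^ (δ i).val) (co34 s) =
            PowerSeries.C (mono (fun i => ζ ^ (δ i).val) (fun _ => (-1 : ZMod q))) *
            PowerSeries.C (mono (fun i => ζ ^ (δ i).val) (-s)) := by
          rw [h2, mono_zeta_add _ hζC, hmapmono, hmapmono]
        rw [h3]
        ring
      rw [Finset.sum_congr rfl fun s _ => h1 s, ← Finset.mul_sum]
      refine Dvd.dvd.mul_left ?_ _
      have h4 := congrArg (fun p : κ[X] => (p : PowerSeries κ)) (hat_inv34 ζ hζ G δ)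
      have h5 : ((∑ s : ι → ZMod q, C (mono (fun i => ζ ^ (δ i).val) (-s)) * hat34 ζ G s : κ[X]) :
          PowerSeries κ) = ∑ s : ι → ZMod q,
          PowerSeries.C (mono (fun i => ζ ^ (δ i).val) (-s)) * (hat34 ζ G s : PowerSeries κ) := by
        rw [← Polynomial.coeToPowerSeries.ringHom_apply, map_sum]
        refine Finset.sum_congr rfl fun s _ => ?_
        rw [map_mul]
        simp
      beta_reduce at h4
      rw [h5] at h4
      rw [h4]
      obtain ⟨w, hw⟩ := hG1 δ hδ
      refine ⟨((C ((q : κ) ^ n) * w : κ[X]) : PowerSeries κ), ?_⟩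
      rw [hw]
      push_cast
      ring
    have h6 : ∑ s : ι → ZMod q, (Hs s : PowerSeries κ) * mono (tw (PowerSeries.C ζ) δ η) (co34 s) =
        ∑ s : ι → ZMod q, (mono η s * (hat34 ζ G s : PowerSeries κ)) *
          mono (tw (PowerSeries.C ζ) δ η) (co34 s) -
        ∑ s : ι → ZMod q, ((mono η s * (hat34 ζ G s : PowerSeries κ)) * mono (tw (PowerSeries.C ζ) δ η) (co34 s) -
        (Hs s : PowerSeries κ) * mono (tw (PowerSeries.C ζ) δ η) (co34 s)) := by
      rw [← Finset.sum_sub_distrib]
      refine Finset.sum_congr rfl fun s _ => ?_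
      ring
    rw [h6]
    exact dvd_sub hsum (Finset.dvd_sum fun s _ => hterm s)
  have hDdvd : (PowerSeries.X : PowerSeries κ) ^ (N * (Q - 1)) ∣ (Dt : PowerSeries κ) := by
    rw [hDI, ← Finset.mul_prod_erase Finset.univ _ (Finset.mem_univ (0 : ι → ZMod q))]
    refine Dvd.dvd.mul_left ?_ _
    have h1 : ((PowerSeries.X : PowerSeries κ) ^ N) ^ (Q - 1) =
        ∏ _δ ∈ (Finset.univ.erase (0 : ι → ZMod q)), (PowerSeries.X : PowerSeries κ) ^ N := by
      rw [Finset.prod_const, Finset.card_erase_of_mem (Finset.mem_univ _), Finset.card_univ]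
      simp [ZMod.card, hQ, hn]
    rw [pow_mul, h1]
    exact Finset.prod_dvd_prod_of_dvd _ _ fun δ hδ => hdvd δ (Finset.ne_of_mem_erase hδ)
  have hD0 : Dt = 0 := by
    by_contra hne
    have h1 : (Dt).coeff Dt.natDegree ≠ 0 := by
      rw [Polynomial.coeff_natDegree]
      exact Polynomial.leadingCoeff_ne_zero.mpr hne
    apply h1
    have h2 : Dt.natDegree < N * (Q - 1) := by
      by_contra hcon
      push Not at hcon
      have h3 : q * (N * (Q - 1)) ≤ (q * (N - 2 * n) + n * (q - 1)) * Q :=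
        (Nat.mul_le_mul_left q hcon).trans hdeg
      have hQP : Q = q * q ^ (n - 1) := by
        rw [hQ, ← pow_succ']
        congr 1
        omega
      obtain ⟨P, hP⟩ : ∃ P, P = q ^ (n - 1) := ⟨_, rfl⟩
      rw [← hP] at hQP hN2
      obtain ⟨N', hN'⟩ : ∃ N', N = N' + 2 * n := ⟨N - 2 * n, by omega⟩
      obtain ⟨Q', hQ'⟩ : ∃ Q', Q = Q' + 1 := ⟨Q - 1, by omega⟩
      obtain ⟨q', hq'⟩ : ∃ q', q = q' + 1 := ⟨q - 1, by have := hqp.pos; omega⟩
      have e1 : N - 2 * n = N' := by omega
      have e2 : Q - 1 = Q' := by omega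
      have e3 : q - 1 = q' := by omega
      rw [e1, e2, e3, hN'] at h3
      have h4 : q * (N' + 2 * n + 1) ≤ q * (n * Q + n * P) := Nat.mul_le_mul_left q (by omega)
      have h5 : q * ((N' + 2 * n) * Q') + q * (N' + 2 * n) = q * ((N' + 2 * n) * Q) := by
        rw [hQ']; ring
      have h6 : q * ((N' + 2 * n) * Q) = (q * N') * Q + 2 * (q * n * Q) := by ring
      have h7 : (q * N' + n * q') * Q = (q * N') * Q + n * q' * Q := by ring
      have h8 : n * q' * Q + n * Q = q * n * Q := by rw [hq']; ring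
      have h9 : q * (n * Q + n * P) = q * n * Q + n * Q := by
        rw [mul_add]
        congr 1
        · ring
        · rw [hQP]; ring
      have h10 : q * (N' + 2 * n + 1) = q * (N' + 2 * n) + q := by ring
      have hqpos := hqp.pos
      omega
    have h3 := PowerSeries.X_pow_dvd_iff.mp hDdvd _ h2
    rwa [Polynomial.coeff_coe] at h3
  have hU0 : U = 0 := by
    by_contra hne
    exact det_ne_zero_field ζ hζ hq (fun i => c i ^ q) hinj U hne hD0
  have hhat : ∀ s, hat34 ζ G s = 0 := by
    intro s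
    have h1 : Hs s = 0 := by
      have := congrFun hU0 (co34 s)
      rw [hU] at this
      simp only [co_co34, Pi.zero_apply] at this
      exact this
    have h2 := hHdvd s
    rw [h1, Polynomial.coe_zero, sub_zero, IsUnit.dvd_mul_left (hmu s)] at h2
    ext m
    rw [Polynomial.coeff_zero]
    by_cases hm : m < N + 1
    · have h3 := PowerSeries.X_pow_dvd_iff.mp h2 m hm
      rwa [Polynomial.coeff_coe] at h3
    · refine Polynomial.coeff_eq_zero_of_natDegree_lt (lt_of_le_of_lt ?_ (Nat.lt_of_succ_le (not_lt.mp hm)))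
      unfold hat34
      refine Polynomial.natDegree_sum_le_of_forall_le _ _ fun ε _ => ?_
      exact (Polynomial.natDegree_C_mul_le _ _).trans (hG ε)
  intro δ
  have h1 := hat_inv34 ζ hζ G δ
  rw [Finset.sum_eq_zero (fun s _ => by rw [hhat s, mul_zero])] at h1
  have h2 : (C ((q : κ) ^ (Fintype.card ι)) : κ[X]) ≠ 0 := by
    rw [Ne, Polynomial.C_eq_zero]
    exact pow_ne_zero _ hq
  exact (mul_eq_zero.mp h1.symm).resolve_left h2

/-- The test vectors. -/
noncomputable def vec34 (ζ : κ) (c : ι → κ) (η : ι → PowerSeries κ) (k : ℕ)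
    (x : Σ s : ι → ZMod q, Fin (2 * Fintype.card ι - wt s / q)) :
    Fin k ⊕ {δ : ι → ZMod q // δ ≠ 0} → κ :=
  Sum.elim (fun m => PowerSeries.coeff (m : ℕ) (PowerSeries.X ^ (x.2 : ℕ) * mono η x.1))
    (fun δ => (0 : κ) ^ (x.2 : ℕ) * mono (tw ζ δ.1 c) x.1)

theorem span_top34 (hι : 0 < Fintype.card ι) (ζ : κ)
    (hζ : ∑ j ∈ range q, ζ ^ j = 0)
    (hq : (q : κ) ≠ 0) (c : ι → κ) (hc : ∀ i, c i ≠ 0) (hinj : Function.Injective (fun i => c i ^ q))
    (η : ι → PowerSeries κ) (hη : ∀ i, η i ^ q = PowerSeries.X + PowerSeries.C (c i ^ q))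
    (hη0 : ∀ i, PowerSeries.constantCoeff (η i) = c i)
    (N : ℕ) (hN1 : Fintype.card ι * q ^ Fintype.card ι ≤ N)
    (hN2 : N < Fintype.card ι * q ^ Fintype.card ι + Fintype.card ι * q ^ (Fintype.card ι - 1))
    (h2N : 2 * Fintype.card ι ≤ N) :
    Submodule.span κ (Set.range (vec34 (q := q) ζ c η (N + 1))) = ⊤ := by
  classical
  have hqp : q.Prime := Fact.out
  have hqz : NeZero q := ⟨hqp.ne_zero⟩
  by_contra hne
  obtain ⟨f, hf0, hf⟩ := Submodule.exists_le_ker_of_lt_top _ (lt_top_iff_ne_top.mpr hne)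
  obtain ⟨lam, hlam⟩ : ∃ lam : Fin (N + 1) ⊕ {δ : ι → ZMod q // δ ≠ 0} → κ,
      lam = fun r => f (Pi.single r 1) := ⟨_, rfl⟩
  have hfw : ∀ w : Fin (N + 1) ⊕ {δ : ι → ZMod q // δ ≠ 0} → κ, f w = ∑ r, w r * lam r := by
    intro w
    conv_lhs => rw [← Finset.univ_sum_single w]
    rw [map_sum, hlam]
    refine Finset.sum_congr rfl fun r _ => ?_
    have h1 : (Pi.single r (w r) : Fin (N + 1) ⊕ {δ : ι → ZMod q // δ ≠ 0} → κ) =
        w r • Pi.single r 1 := by
      rw [← Pi.single_smul]
      simp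
    rw [h1, map_smul, smul_eq_mul]
  obtain ⟨G, hG⟩ : ∃ G : (ι → ZMod q) → κ[X], G = fun δ =>
    if h : δ = 0 then ∑ m : Fin (N + 1), C (lam (Sum.inl m)) * X ^ (N - (m : ℕ))
    else C (lam (Sum.inr ⟨δ, h⟩)) * X ^ N := ⟨_, rfl⟩
  have hG0 : G 0 = ∑ m : Fin (N + 1), C (lam (Sum.inl m)) * X ^ (N - (m : ℕ)) := by
    rw [hG]
    simp only [dite_true]
  have hG1 : ∀ (δ : ι → ZMod q) (h : δ ≠ 0), G δ = C (lam (Sum.inr ⟨δ, h⟩)) * X ^ N := by
    intro δ h
    rw [hG]
    simp only [dif_neg h]
  have hz : ∀ δ, G δ = 0 := by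
    refine dual34 hι ζ hζ hq c hc hinj η hη hη0 N hN1 hN2 G ?_ ?_ ?_
    · intro δ
      by_cases h : δ = 0
      · rw [h, hG0]
        refine Polynomial.natDegree_sum_le_of_forall_le _ _ fun m _ => ?_
        exact (Polynomial.natDegree_C_mul_X_pow_le _ _).trans (Nat.sub_le _ _)
      · rw [hG1 δ h]
        exact Polynomial.natDegree_C_mul_X_pow_le _ _
    · intro δ hδ
      rw [hG1 δ hδ]
      exact Dvd.intro_left _ rfl
    · intro s a ha
      have haN : a ≤ N := by
        have : a < 2 * Fintype.card ι := lt_of_lt_of_le ha (Nat.sub_le _ _)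
        omega
      have hmem : vec34 ζ c η (N + 1) ⟨s, ⟨a, ha⟩⟩ ∈ LinearMap.ker f :=
        hf (Submodule.subset_span ⟨_, rfl⟩)
      rw [LinearMap.mem_ker, hfw, Fintype.sum_sum_type] at hmem
      rw [← hmem]
      have hhat : hat34 ζ G s = G 0 + ∑ δ : {δ : ι → ZMod q // δ ≠ 0},
          C (mono (fun i => ζ ^ (δ.1 i).val) s) * (C (lam (Sum.inr δ)) * X ^ N) := by
        unfold hat34
        rw [← Finset.add_sum_erase Finset.univ _ (Finset.mem_univ (0 : ι → ZMod q))]
        congr 1
        · simp [mono]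
        · rw [Finset.sum_subtype (Finset.univ.erase (0 : ι → ZMod q)) (p := fun δ => δ ≠ 0)
            (by intro x; simp)]
          refine Finset.sum_congr rfl fun δ _ => ?_
          rw [hG1 δ.1 δ.2]
      have hhatc : (hat34 ζ G s : PowerSeries κ) =
          ∑ m : Fin (N + 1), PowerSeries.C (lam (Sum.inl m)) * PowerSeries.X ^ (N - (m : ℕ)) +
          ∑ δ : {δ : ι → ZMod q // δ ≠ 0},
          PowerSeries.C (mono (fun i => ζ ^ (δ.1 i).val) s * lam (Sum.inr δ)) * PowerSeries.X ^ N := by
        rw [hhat, hG0, ← Polynomial.coeToPowerSeries.ringHom_apply, map_add, map_sum, map_sum]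
        congr 1
        · refine Finset.sum_congr rfl fun m _ => ?_
          simp
        · refine Finset.sum_congr rfl fun m _ => ?_
          simp only [map_mul, Polynomial.coeToPowerSeries.ringHom_apply, Polynomial.coe_C,
            Polynomial.coe_pow, Polynomial.coe_X, mul_assoc]
      rw [hhatc, mul_add, Finset.mul_sum, Finset.mul_sum, map_add, map_sum, map_sum]
      congr 1
      · refine Finset.sum_congr rfl fun m _ => ?_
        have hm : (m : ℕ) ≤ N := Nat.lt_succ_iff.mp m.2
        unfold vec34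
        simp only [Sum.elim_inl]
        rw [mul_left_comm, PowerSeries.coeff_C_mul, mul_comm (lam (Sum.inl m)),
          PowerSeries.coeff_mul_X_pow', PowerSeries.coeff_X_pow_mul']
        congr 1
        by_cases h : a ≤ (m : ℕ)
        · rw [if_pos (by omega), if_pos h]
          congr 2
          omega
        · rw [if_neg (by omega), if_neg h]
      · refine Finset.sum_congr rfl fun δ _ => ?_
        unfold vec34
        simp only [Sum.elim_inr]
        rw [mul_left_comm, PowerSeries.coeff_C_mul, PowerSeries.coeff_mul_X_pow', tw_mono]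
        by_cases h : a = 0
        · subst h
          rw [if_pos (by omega)]
          simp only [Nat.sub_zero, Nat.sub_self, pow_zero, PowerSeries.coeff_zero_eq_constantCoeff]
          have h3 : PowerSeries.constantCoeff (mono η s) = mono c s := by
            rw [mono_map (PowerSeries.constantCoeff (R := κ))]
            simp only [hη0]
          rw [h3]
          ring
        · rw [if_neg (by omega), zero_pow h]
          simp
  have hlam0 : ∀ r, lam r = 0 := by
    intro r
    rcases r with m | δ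
    · have h1 := congrArg (fun p : κ[X] => p.coeff (N - (m : ℕ))) ((hG0).symm.trans (hz 0))
      simp only [Polynomial.finsetSum_coeff, Polynomial.coeff_C_mul, Polynomial.coeff_X_pow,
        Polynomial.coeff_zero] at h1
      rw [Finset.sum_eq_single m] at h1
      · simpa using h1
      · intro b _ hb
        rw [if_neg, mul_zero]
        intro h
        apply hb
        ext
        have := m.2
        have := b.2
        omega
      · intro h
        exact absurd (Finset.mem_univ m) h
    · have h1 := congrArg (fun p : κ[X] => p.coeff N) ((hG1 δ.1 δ.2).symm.trans (hz δ.1))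
      simpa using h1
  apply hf0
  ext r
  have : f (Pi.single r 1) = lam r := by rw [hlam]
  simp only [LinearMap.comp_apply, LinearMap.single_apply, LinearMap.zero_apply]
  rw [this, hlam0]

/-- jets: the values of the first `k` coefficients at `η` and of the constant terms at the twisted
points can be prescribed. -/
theorem jets_surj (hι : 0 < Fintype.card ι) (ζ : κ) (hζ : ∑ j ∈ range q, ζ ^ j = 0)
    (hq : (q : κ) ≠ 0) (c : ι → κ) (hc : ∀ i, c i ≠ 0) (hinj : Function.Injective (fun i => c i ^ q))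
    (η : ι → PowerSeries κ) (hη : ∀ i, η i ^ q = PowerSeries.X + PowerSeries.C (c i ^ q))
    (hη0 : ∀ i, PowerSeries.constantCoeff (η i) = c i)
    (k : ℕ) (hk : k ≤ Fintype.card ι * q ^ Fintype.card ι + Fintype.card ι * q ^ (Fintype.card ι - 1))
    (g : ℕ → κ) (w : (ι → ZMod q) → κ) :
    ∃ p : (ι → ZMod q) → κ[X],
      (∀ s, p s ≠ 0 → q * (p s).natDegree + wt s < q * (2 * Fintype.card ι)) ∧
      (∀ j, j < k → PowerSeries.coeff j (ev η (fun s => ((p s : κ[X]) : PowerSeries κ))) = g j) ∧
      (∀ δ : ι → ZMod q, δ ≠ 0 → ev (tw ζ δ c) (fun s => (p s).eval 0) = w δ) := by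
  classical
  have hqp : q.Prime := Fact.out
  have hqz : NeZero q := ⟨hqp.ne_zero⟩
  have hP : 0 < Fintype.card ι * q ^ (Fintype.card ι - 1) := Nat.mul_pos hι (pow_pos hqp.pos _)
  obtain ⟨N, hN⟩ : ∃ N, N + 1 = Fintype.card ι * q ^ Fintype.card ι +
      Fintype.card ι * q ^ (Fintype.card ι - 1) :=
    ⟨Fintype.card ι * q ^ Fintype.card ι + Fintype.card ι * q ^ (Fintype.card ι - 1) - 1, by omega⟩
  have hN1 : Fintype.card ι * q ^ Fintype.card ι ≤ N := by omega
  have h2N : 2 * Fintype.card ι ≤ N := by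
    have hQ2 : 2 ≤ q ^ Fintype.card ι := by
      calc 2 ≤ q := hqp.two_le
        _ = q ^ 1 := (pow_one q).symm
        _ ≤ q ^ Fintype.card ι := Nat.pow_le_pow_right hqp.pos hι
    refine le_trans ?_ hN1
    rw [mul_comm 2]
    exact Nat.mul_le_mul_left _ hQ2
  have htop := span_top34 hι ζ hζ hq c hc hinj η hη hη0 N hN1 (by omega) h2N
  have hmem : (Sum.elim (fun m : Fin (N + 1) => g m)
      (fun δ => w δ.1) : Fin (N + 1) ⊕ {δ : ι → ZMod q // δ ≠ 0} → κ) ∈
      Submodule.span κ (Set.range (vec34 (q := q) ζ c η (N + 1))) := by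
    rw [htop]
    exact Submodule.mem_top
  rw [Submodule.mem_span_range_iff_exists_fun] at hmem
  obtain ⟨a, ha⟩ := hmem
  have hl : ∀ m : Fin (N + 1), ∑ x, a x * PowerSeries.coeff (m : ℕ)
      (PowerSeries.X ^ (x.2 : ℕ) * mono η x.1) = g m := by
    intro m
    have := congrFun ha (Sum.inl m)
    rw [Finset.sum_apply] at this
    simpa [vec34] using this
  have hr : ∀ δ : {δ : ι → ZMod q // δ ≠ 0}, ∑ x, a x * ((0 : κ) ^ (x.2 : ℕ) * mono (tw ζ δ.1 c) x.1) = w δ.1 := by
    intro δ
    have := congrFun ha (Sum.inr δ)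
    rw [Finset.sum_apply] at this
    simpa only [vec34, Sum.elim_inr, Pi.smul_apply, smul_eq_mul] using this
  refine ⟨fun s => ∑ j : Fin (2 * Fintype.card ι - wt s / q), C (a ⟨s, j⟩) * X ^ (j : ℕ), ?_, ?_, ?_⟩
  · intro s hs
    beta_reduce at hs ⊢
    have hpos : 0 < 2 * Fintype.card ι - wt s / q := by
      rcases Nat.eq_zero_or_pos (2 * Fintype.card ι - wt s / q) with h | h
      · exfalso
        apply hs
        refine Finset.sum_eq_zero fun j _ => ?_
        exact absurd j.2 (by omega)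
      · exact h
    have hd : (∑ j : Fin (2 * Fintype.card ι - wt s / q), C (a ⟨s, j⟩) * X ^ (j : ℕ) : κ[X]).natDegree ≤
        2 * Fintype.card ι - wt s / q - 1 := by
      refine Polynomial.natDegree_sum_le_of_forall_le _ _ fun j _ => ?_
      refine (Polynomial.natDegree_C_mul_X_pow_le _ _).trans ?_
      have := j.2
      omega
    have h1 : wt s / q + 1 + (2 * Fintype.card ι - wt s / q - 1) = 2 * Fintype.card ι := by omega
    have h2 : wt s < q * (wt s / q + 1) := by
      have := Nat.div_add_mod (wt s) q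
      have h3 := Nat.mod_lt (wt s) hqp.pos
      rw [mul_add, mul_one]
      omega
    calc q * (∑ j : Fin (2 * Fintype.card ι - wt s / q), C (a ⟨s, j⟩) * X ^ (j : ℕ) : κ[X]).natDegree + wt s
        < q * (2 * Fintype.card ι - wt s / q - 1) + q * (wt s / q + 1) :=
          add_lt_add_of_le_of_lt (Nat.mul_le_mul_left q hd) h2
      _ = q * (wt s / q + 1 + (2 * Fintype.card ι - wt s / q - 1)) := by ring
      _ = q * (2 * Fintype.card ι) := by rw [h1]
  · intro m hm
    have h1 : ev η (fun s => ((∑ j : Fin (2 * Fintype.card ι - wt s / q),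
        C (a ⟨s, j⟩) * X ^ (j : ℕ) : κ[X]) : PowerSeries κ)) =
        ∑ x : Σ s : ι → ZMod q, Fin (2 * Fintype.card ι - wt s / q), PowerSeries.C (a x) *
          (PowerSeries.X ^ (x.2 : ℕ) * mono η x.1) := by
      unfold ev
      rw [Fintype.sum_sigma]
      refine Finset.sum_congr rfl fun s _ => ?_
      beta_reduce
      rw [← Polynomial.coeToPowerSeries.ringHom_apply, map_sum, Finset.sum_mul]
      refine Finset.sum_congr rfl fun j _ => ?_
      simp only [map_mul, map_pow, Polynomial.coeToPowerSeries.ringHom_apply, Polynomial.coe_C,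
        Polynomial.coe_X, mul_assoc]
    rw [h1, map_sum]
    have h2 := hl ⟨m, by omega⟩
    simp only [PowerSeries.coeff_C_mul]
    simp only at h2
    rw [h2]
  · intro δ hδ
    rw [← hr ⟨δ, hδ⟩]
    unfold ev
    rw [Fintype.sum_sigma]
    refine Finset.sum_congr rfl fun s _ => ?_
    beta_reduce
    rw [Polynomial.eval_finsetSum, Finset.sum_mul]
    refine Finset.sum_congr rfl fun j _ => ?_
    simp only [Polynomial.eval_mul, Polynomial.eval_C, Polynomial.eval_pow, Polynomial.eval_X, mul_assoc]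

theorem exists_F (hι : 0 < Fintype.card ι) (ζ : κ) (hζ : ∑ j ∈ range q, ζ ^ j = 0)
    (hq : (q : κ) ≠ 0) (c : ι → κ) (hc : ∀ i, c i ≠ 0) (hinj : Function.Injective (fun i => c i ^ q))
    (η : ι → PowerSeries κ) (hη : ∀ i, η i ^ q = PowerSeries.X + PowerSeries.C (c i ^ q))
    (hη0 : ∀ i, PowerSeries.constantCoeff (η i) = c i) :
    ∃ p : (ι → ZMod q) → κ[X],
      (∀ s, p s ≠ 0 → q * (p s).natDegree + wt s < q * (2 * Fintype.card ι)) ∧
      (PowerSeries.X ^ (Fintype.card ι * q ^ Fintype.card ι + 1) ∣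
        ev η (fun s => (((if s = 0 then X ^ (2 * Fintype.card ι) else 0) + p s : κ[X]) : PowerSeries κ))) ∧
      (∀ δ : ι → ZMod q, δ ≠ 0 →
        ev (tw ζ δ c) (fun s => ((if s = 0 then X ^ (2 * Fintype.card ι) else 0) + p s : κ[X]).eval 0) ≠ 0) := by
  classical
  have hqp : q.Prime := Fact.out
  have hP : 0 < Fintype.card ι * q ^ (Fintype.card ι - 1) := Nat.mul_pos hι (pow_pos hqp.pos _)
  obtain ⟨p, hp1, hp2, hp3⟩ := jets_surj hι ζ hζ hq c hc hinj η hη hη0
    (Fintype.card ι * q ^ Fintype.card ι + 1) (by omega)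
    (fun m => - PowerSeries.coeff m ((PowerSeries.X : PowerSeries κ) ^ (2 * Fintype.card ι)))
    (fun _ => 1)
  refine ⟨p, hp1, ?_, ?_⟩
  · rw [PowerSeries.X_pow_dvd_iff]
    intro m hm
    have h1 : ev η (fun s => (((if s = 0 then X ^ (2 * Fintype.card ι) else 0) + p s : κ[X]) :
        PowerSeries κ)) = (PowerSeries.X : PowerSeries κ) ^ (2 * Fintype.card ι) +
        ev η (fun s => ((p s : κ[X]) : PowerSeries κ)) := by
      unfold ev
      simp only [Polynomial.coe_add, add_mul, Finset.sum_add_distrib]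
      congr 1
      rw [Finset.sum_eq_single 0]
      · simp [mono_zero]
      · intro b _ hb
        simp [hb]
      · intro h
        exact absurd (Finset.mem_univ _) h
    rw [h1, map_add, hp2 m hm]
    ring
  · intro δ hδ
    have h1 : ev (tw ζ δ c) (fun s => ((if s = 0 then X ^ (2 * Fintype.card ι) else 0) + p s :
        κ[X]).eval 0) = 1 := by
      rw [← hp3 δ hδ]
      unfold ev
      simp only [Polynomial.eval_add, add_mul, Finset.sum_add_distrib]
      rw [Finset.sum_eq_zero, zero_add]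
      intro s _
      by_cases h : s = 0
      · rw [if_pos h, Polynomial.eval_pow, Polynomial.eval_X, zero_pow (by omega), zero_mul]
      · rw [if_neg h, Polynomial.eval_zero, zero_mul]
    rw [h1]
    exact one_ne_zero

end Exist34

end Pool.Agent.AIC
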