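import Mathlib

/-!
# Hensel's lemma in a localisation of an integrally closed domain

`hensel_zero` is Hensel's lemma for polynomials that need not be monic. `henselian_roots` and
`henselian_root_near` are the two statements that theorem H needs.
-/

set_option autoImplicit false

namespace Pool.Agent.AIC

open Finset Polynomial IsLocalRing

/-- Hensel's lemma without the hypothesis that the polynomial is monic. -/
theorem hensel_zero {A : Type*} [CommRing A] [HenselianLocalRing A] (G : A[X])
    (h0 : G.eval 0 ∈ maximalIdeal A) (h1 : IsUnit (G.derivative.eval 0)) :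
    ∃ t ∈ maximalIdeal A, G.eval t = 0 := by
  classical
  set g0 : A := G.coeff 0 with hg0
  set g1 : A := G.coeff 1 with hg1
  have h0' : g0 ∈ maximalIdeal A := by rwa [← coeff_zero_eq_eval_zero] at h0
  have h1' : IsUnit g1 := by
    have : G.derivative.eval 0 = g1 := by
      rw [← coeff_zero_eq_eval_zero, coeff_derivative]; simp [hg1]
    rwa [this] at h1
  set D : A[X] := G.divX with hD
  have hGD : G = X * D + C g0 := by rw [hD, hg0, mul_comm, divX_mul_X_add]
  have hD0 : D.coeff 0 = g1 := by rw [hD, coeff_divX]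
  set P : A[X] := 1 + X * D.comp (C g0 * X) with hP
  have hP0 : P.coeff 0 = 1 := by simp [hP]
  have hPev : ∀ z : A, P.eval z = 1 + z * D.eval (g0 * z) := by
    intro z; simp [hP, eval_comp]
  have hP1 : P.coeff 1 = g1 := by
    have : P.coeff 1 = (D.comp (C g0 * X)).coeff 0 := by
      rw [hP, coeff_add, show (1 : ℕ) = 0 + 1 from rfl, coeff_X_mul, coeff_one]; simp
    rw [this, coeff_zero_eq_eval_zero, eval_comp]
    simp [← coeff_zero_eq_eval_zero, hD0]
  have hg1ne : g1 ≠ 0 := h1'.ne_zero
  obtain ⟨M, hM⟩ : ∃ M, P.natDegree = M + 1 := by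
    have : 1 ≤ P.natDegree := le_natDegree_of_ne_zero (by rw [hP1]; exact hg1ne)
    exact ⟨P.natDegree - 1, by omega⟩
  set Q : A[X] := P.reverse with hQ
  have hQm : Q.Monic := by
    rw [Monic, hQ, reverse_leadingCoeff, trailingCoeff_eq_coeff_zero (by rw [hP0]; exact one_ne_zero),
      hP0]
  -- reduction of Q
  have hPmap : P.map (residue A) = 1 + C (residue A g1) * X := by
    have hz : residue A g0 = 0 := (residue_eq_zero_iff g0).2 h0'
    rw [hP, Polynomial.map_add, Polynomial.map_one, Polynomial.map_mul, map_X, Polynomial.map_comp]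
    simp only [Polynomial.map_mul, map_C, map_X, hz, map_zero, zero_mul]
    rw [comp_zero, mul_comm, ← coeff_zero_eq_eval_zero, coeff_map, hD0]
  have hQmap : Q.map (residue A) = X ^ M * (X + C (residue A g1)) := by
    rw [hQ, reverse, ← reflect_map, hPmap, hM, reflect_add]
    have e1 : reflect (M + 1) (1 : (ResidueField A)[X]) = X ^ (M + 1) := by
      simp
    have e2 : reflect (M + 1) (C (residue A g1) * X) = C (residue A g1) * X ^ M := by
      have := reflect_C_mul_X_pow (M + 1) 1 (c := residue A g1)
      rw [pow_one] at this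
      rw [this, revAt_le (by omega)]
      simp
    rw [e1, e2]; ring
  -- the approximate root
  obtain ⟨v, hv⟩ := h1'
  have hQ0 : Q.eval (-g1) ∈ maximalIdeal A := by
    rw [← residue_eq_zero_iff, ← eval_map_apply, hQmap]
    simp
  have hQ1 : IsUnit (Q.derivative.eval (-g1)) := by
    rw [← residue_ne_zero_iff_isUnit, ← eval_map_apply, ← derivative_map, hQmap, derivative_mul]
    have hne : residue A g1 ≠ 0 := (residue_ne_zero_iff_isUnit g1).2 (by rw [← hv]; exact v.isUnit)
    simp [hne]
  obtain ⟨y, hy, hyg⟩ := HenselianLocalRing.is_henselian Q hQm (-g1) hQ0 hQ1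
  have hyu : IsUnit y := by
    rw [← residue_ne_zero_iff_isUnit]
    have : residue A y = residue A (-g1) := by
      rw [← sub_eq_zero, ← map_sub]; exact (residue_eq_zero_iff _).2 hyg
    rw [this, residue_ne_zero_iff_isUnit]
    exact (by rw [← hv]; exact v.isUnit : IsUnit g1).neg
  obtain ⟨w, hw⟩ := hyu
  refine ⟨g0 * (↑w⁻¹ : A), Ideal.mul_mem_right _ _ h0', ?_⟩
  have hPw : P.eval (↑w⁻¹ : A) = 0 := by
    let _ : Invertible (↑w⁻¹ : A) := ⟨↑w, by simp, by simp⟩
    have := eval₂_reverse_mul_pow (RingHom.id A) (↑w⁻¹ : A) P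
    have hinv : (⅟(↑w⁻¹ : A)) = y := by rw [← hw]; rfl
    rw [hinv] at this
    have hy' : eval₂ (RingHom.id A) y P.reverse = 0 := hy
    rw [hy', zero_mul] at this
    exact this.symm
  rw [hPev] at hPw
  rw [hGD]
  simp only [eval_add, eval_mul, eval_X, eval_C]
  linear_combination g0 * hPw

/-- Elements of `R_m` that are integral over the integrally closed domain `R` lie in `R`. -/
theorem exists_of_isRoot {R : Type*} [CommRing R] [IsDomain R] [IsIntegrallyClosed R] (m : Ideal R)
    [m.IsMaximal] (Φ : R[X]) (hΦ : Φ.Monic) (z : Localization.AtPrime m)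
    (hz : eval₂ (algebraMap R (Localization.AtPrime m)) z Φ = 0) :
    ∃ r : R, algebraMap R (Localization.AtPrime m) r = z ∧ Φ.IsRoot r := by
  have hle : m.primeCompl ≤ nonZeroDivisors R := m.primeCompl_le_nonZeroDivisors
  have hinj : Function.Injective (algebraMap R (Localization.AtPrime m)) :=
    IsLocalization.injective _ hle
  have hu : ∀ s : m.primeCompl, IsUnit (algebraMap R (FractionRing R) s) := by
    intro s
    have : (s : R) ≠ 0 := nonZeroDivisors.ne_zero (hle s.2)
    exact isUnit_iff_ne_zero.2 (by simpa using this)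
  set φ : Localization.AtPrime m →+* FractionRing R := IsLocalization.lift (M := m.primeCompl) hu
    with hφ
  have hφa : ∀ x : R, φ (algebraMap R _ x) = algebraMap R (FractionRing R) x := fun x =>
    IsLocalization.lift_eq hu x
  have hφinj : Function.Injective φ := by
    rw [injective_iff_map_eq_zero]
    intro x hx
    obtain ⟨a, s, rfl⟩ := IsLocalization.exists_mk'_eq m.primeCompl x
    have h1 : IsLocalization.mk' (Localization.AtPrime m) a s *
        algebraMap R (Localization.AtPrime m) s = algebraMap R (Localization.AtPrime m) a :=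
      IsLocalization.mk'_spec _ a s
    have h2 : φ (algebraMap R (Localization.AtPrime m) a) = 0 := by
      rw [← h1, map_mul, hx, zero_mul]
    rw [hφa] at h2
    have h3 : a = 0 := by simpa using h2
    rw [h3, IsLocalization.mk'_zero]
  have hint : IsIntegral R (φ z) := by
    refine ⟨Φ, hΦ, ?_⟩
    have : (algebraMap R (FractionRing R)) = φ.comp (algebraMap R (Localization.AtPrime m)) := by
      ext x; simp [hφa]
    rw [this, ← hom_eval₂, hz, map_zero]
  obtain ⟨r, hr⟩ := (IsIntegrallyClosed.isIntegral_iff (R := R) (K := FractionRing R)).1 hint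
  have hr' : algebraMap R (Localization.AtPrime m) r = z := by
    apply hφinj; rw [hφa]; exact hr
  refine ⟨r, hr', ?_⟩
  apply hinj
  rw [← hr'] at hz
  rw [map_zero, ← hz, eval₂_at_apply]

/-- H3. -/
theorem henselian_roots {R : Type*} [CommRing R] [IsDomain R] [IsIntegrallyClosed R] (m : Ideal R)
    [m.IsMaximal] (hH : HenselianLocalRing (Localization.AtPrime m)) (u : R) (hu : u ∈ m)
    (hu0 : u ≠ 0) (k : ℕ) (b : Fin k → R) (hb : ∀ i j, i ≠ j → b i - b j ∉ m) (Φ H E : R[X])
    (hΦ : Φ.Monic) (h : Φ = (∏ j, (X - C (b j * u))) * H + C (u ^ (2 * k)) * E)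
    (hH0 : H.eval 0 ∉ m) :
    ∃ r : Fin k → R, Function.Injective r ∧ (∀ j, r j ∈ m) ∧ ∀ j, Φ.IsRoot (r j) := by
  classical
  set S := Localization.AtPrime m with hS
  set α : R →+* S := algebraMap R S with hα
  have hmem : ∀ x : R, α x ∈ maximalIdeal S ↔ x ∈ m := fun x =>
    IsLocalization.AtPrime.to_map_mem_maximal_iff S m x
  have hunit : ∀ x : R, x ∉ m → IsUnit (α x) := fun x hx => by
    have := (hmem x).not.2 hx
    simpa [mem_maximalIdeal, mem_nonunits_iff] using this
  have hinj : Function.Injective α := IsLocalization.injective _ m.primeCompl_le_nonZeroDivisors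
  -- the root near b_j u
  have key : ∀ j : Fin k, ∃ t ∈ maximalIdeal S,
      eval₂ α (α (b j * u) + α u ^ k * t) Φ = 0 := by
    intro j
    -- the polynomial in T
    set x : S[X] := C (α (b j * u)) + C (α u ^ k) * X with hx
    set A : S[X] := (∏ l ∈ univ.erase j, (C (α (b j - b l)) + C (α u ^ (k - 1)) * X)) *
      (H.map α).comp x with hA
    set G : S[X] := X * A + C (α u) * (E.map α).comp x with hG
    have hkpos : 0 < k := Fin.pos j
    have hG0 : G.eval 0 ∈ maximalIdeal S := by
      have : G.eval 0 = α u * ((E.map α).comp x).eval 0 := by simp [hG]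
      rw [this]
      exact Ideal.mul_mem_right _ _ ((hmem u).2 hu)
    have hHu : IsUnit ((H.map α).eval (α (b j * u))) := by
      rw [eval_map, eval₂_at_apply]
      apply hunit
      intro hcon
      apply hH0
      have hd : (b j * u - 0) ∣ H.eval (b j * u) - H.eval 0 := sub_dvd_eval_sub _ _ _
      have : H.eval (b j * u) - H.eval 0 ∈ m :=
        Ideal.mem_of_dvd _ hd (by rw [sub_zero]; exact Ideal.mul_mem_left _ _ hu)
      have h2 := Ideal.sub_mem _ hcon this
      simpa using h2
    have hA0 : IsUnit (A.eval 0) := by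
      rw [hA, eval_mul, eval_prod]
      refine IsUnit.mul ?_ ?_
      · rw [IsUnit.prod_iff]
        intro l hl
        have hne : l ≠ j := ne_of_mem_erase hl
        simp only [eval_add, eval_C, eval_mul, eval_X, mul_zero, add_zero]
        exact hunit _ (hb j l (Ne.symm hne))
      · rw [eval_comp]
        have : x.eval 0 = α (b j * u) := by simp [hx]
        rw [this]
        exact hHu
    have hG1 : IsUnit (G.derivative.eval 0) := by
      have : G.derivative.eval 0 = A.eval 0 + α u * ((E.map α).comp x).derivative.eval 0 := by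
        simp [hG, derivative_mul]
      rw [this]
      rw [← residue_ne_zero_iff_isUnit, map_add, map_mul,
        (residue_eq_zero_iff (α u)).2 ((hmem u).2 hu), zero_mul, add_zero,
        residue_ne_zero_iff_isUnit]
      exact hA0
    obtain ⟨t, ht, hGt⟩ := hensel_zero G hG0 hG1
    refine ⟨t, ht, ?_⟩
    have hxt : x.eval t = α (b j * u) + α u ^ k * t := by simp [hx]
    have hprod : ∏ l, (α (b j * u) + α u ^ k * t - α (b l * u)) =
        α u ^ (2 * k - 1) * t * ∏ l ∈ univ.erase j, (α (b j - b l) + α u ^ (k - 1) * t) := by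
      rw [← mul_prod_erase univ _ (mem_univ j)]
      have h1 : ∀ l, (α (b j * u) + α u ^ k * t - α (b l * u)) =
          α u * (α (b j - b l) + α u ^ (k - 1) * t) := by
        intro l
        have : α u ^ k = α u * α u ^ (k - 1) := by
          rw [← pow_succ']; congr 1; omega
        rw [this, map_mul, map_mul, map_sub]; ring
      rw [prod_congr rfl (fun l _ => h1 l), prod_mul_distrib, prod_const, card_erase_of_mem
        (mem_univ j), card_univ, Fintype.card_fin]
      have h2 : α (b j * u) + α u ^ k * t - α (b j * u) = α u ^ k * t := by ring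
      rw [h2]
      have h3 : 2 * k - 1 = k + (k - 1) := by omega
      rw [h3, pow_add]; ring
    have hval : eval₂ α (α (b j * u) + α u ^ k * t) Φ = α u ^ (2 * k - 1) * G.eval t := by
      rw [h]
      simp only [eval₂_add, eval₂_mul, eval₂_finsetProd, eval₂_sub, eval₂_X, eval₂_C]
      rw [hprod]
      have hGe : G.eval t = t * ((∏ l ∈ univ.erase j, (α (b j - b l) + α u ^ (k - 1) * t)) *
          eval₂ α (α (b j * u) + α u ^ k * t) H) +
          α u * eval₂ α (α (b j * u) + α u ^ k * t) E := by
        rw [hG]
        simp only [eval_add, eval_mul, eval_X, eval_C, eval_comp, hxt, hA, eval_prod, eval_map]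
      rw [hGe, map_pow]
      have h4 : α u ^ (2 * k) = α u ^ (2 * k - 1) * α u := by
        rw [← pow_succ]; congr 1; omega
      rw [h4]; ring
    rw [hval, hGt, mul_zero]
  choose t ht htr using key
  have hr : ∀ j, ∃ r : R, α r = α (b j * u) + α u ^ k * t j ∧ Φ.IsRoot r := fun j =>
    exists_of_isRoot m Φ hΦ _ (htr j)
  choose r hr1 hr2 using hr
  refine ⟨r, ?_, ?_, hr2⟩
  · intro i j hij
    by_contra hne
    have hk2 : 2 ≤ k := by
      have hi := i.2
      have hj := j.2
      have : (i : ℕ) ≠ (j : ℕ) := fun h => hne (Fin.ext h)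
      omega
    have e : α (b i * u) + α u ^ k * t i = α (b j * u) + α u ^ k * t j := by
      rw [← hr1 i, ← hr1 j, hij]
    have hk1 : α u ^ k = α u * α u ^ (k - 1) := by
      rw [← pow_succ']; congr 1; omega
    have hu0' : α u ≠ 0 := fun h => hu0 (hinj (by rw [h, map_zero]))
    have e2 : α (b i - b j) = α u ^ (k - 1) * (t j - t i) := by
      apply mul_left_cancel₀ hu0'
      rw [hk1, map_mul, map_mul] at e
      rw [map_sub]
      linear_combination e
    apply hb i j hne
    rw [← hmem, e2]
    have : α u ^ (k - 1) = α u * α u ^ (k - 2) := by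
      rw [← pow_succ']; congr 1; omega
    rw [this, mul_assoc]
    exact Ideal.mul_mem_right _ _ ((hmem u).2 hu)
  · intro j
    rw [← hmem, hr1]
    refine Ideal.add_mem _ ?_ (Ideal.mul_mem_left _ _ (ht j))
    rw [hmem]
    exact Ideal.mul_mem_left _ _ hu

/-- H3b. -/
theorem henselian_root_near {R : Type*} [CommRing R] [IsDomain R] [IsIntegrallyClosed R]
    (m : Ideal R) [m.IsMaximal] (hH : HenselianLocalRing (Localization.AtPrime m)) (q : ℕ)
    (hq0 : 0 < q) (hq : (q : R) ∉ m) (c x : R) (hc : c ∉ m) (hx : x ∈ m) :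
    ∃ y : R, y ^ q = x + c ^ q ∧ y - c ∈ m := by
  set S := Localization.AtPrime m with hS
  set α : R →+* S := algebraMap R S with hα
  have hmem : ∀ x : R, α x ∈ maximalIdeal S ↔ x ∈ m := fun x =>
    IsLocalization.AtPrime.to_map_mem_maximal_iff S m x
  have hunit : ∀ x : R, x ∉ m → IsUnit (α x) := fun x hx => by
    have := (hmem x).not.2 hx
    simpa [mem_maximalIdeal, mem_nonunits_iff] using this
  set f : R[X] := X ^ q - C (x + c ^ q) with hf
  have hfm : f.Monic := monic_X_pow_sub_C _ hq0.ne'
  obtain ⟨a, ha, hac⟩ := HenselianLocalRing.is_henselian (f.map α) (hfm.map α) (α c)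
    (by
      rw [eval_map, eval₂_at_apply, hmem]
      have : f.eval c = -x := by simp [hf]
      rw [this]
      exact m.neg_mem hx)
    (by
      rw [derivative_map, eval_map, eval₂_at_apply]
      apply hunit
      have : f.derivative.eval c = q * c ^ (q - 1) := by
        rw [hf, derivative_sub, derivative_C, sub_zero, derivative_X_pow]
        simp
      rw [this]
      intro hcon
      rcases Ideal.IsPrime.mem_or_mem inferInstance hcon with h1 | h1
      · exact hq h1
      · exact hc (Ideal.IsPrime.mem_of_pow_mem inferInstance _ h1))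
  obtain ⟨y, hy1, hy2⟩ := exists_of_isRoot m f hfm a (by
    have : (f.map α).eval a = 0 := ha
    rwa [eval_map] at this)
  refine ⟨y, ?_, ?_⟩
  · have : f.eval y = 0 := hy2
    simp only [hf, eval_sub, eval_pow, eval_X, eval_C] at this
    exact sub_eq_zero.1 this
  · rw [← hmem, map_sub]
    have : α y = a := hy1
    rw [this]
    exact hac

end Pool.Agent.AIC
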