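import Mathlib
import Pool.Agent.AIC.Norm

set_option autoImplicit false
set_option linter.unusedSectionVars false

namespace Pool.Agent.AIC

open Finset Polynomial

variable {ι : Type} [Fintype ι] [DecidableEq ι] {q : ℕ} [Fact q.Prime]

/-- the determinant identity for units, over any commutative ring. -/
theorem det_nmat_unit {A : Type} [CommRing A] (ζ : A) (hζ : ∑ j ∈ range q, ζ ^ j = 0)
    (hq : IsUnit (q : A)) (y : ι → A) (hy : ∀ i, IsUnit (y i)) (u : (ι → ZMod q) → A) :
    (nmat (fun i => y i ^ q) u).det = ∏ δ : ι → ZMod q, ev (tw ζ δ y) u := by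
  classical
  set V : Matrix (ι → ZMod q) (ι → ZMod q) A := fun t δ => mono (tw ζ δ y) t with hV
  set W : Matrix (ι → ZMod q) (ι → ZMod q) A :=
    fun δ t => mono (fun i => ζ ^ (δ i).val) (-t) with hW
  have h1 : nmat (fun i => y i ^ q) u * V = V * Matrix.diagonal (fun δ => ev (tw ζ δ y) u) := by
    ext s δ
    rw [Matrix.mul_diagonal, Matrix.mul_apply]
    rw [← Equiv.sum_comp (Equiv.addLeft s)
      (fun t => nmat (fun i => y i ^ q) u s t * V t δ)]
    simp only [Equiv.coe_addLeft, hV, nmat, add_sub_cancel_left]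
    unfold ev
    rw [Finset.mul_sum]
    refine Finset.sum_congr rfl fun r _ => ?_
    have := mono_add (q := q) (tw ζ δ y) (fun i => y i ^ q) (fun i => tw_pow ζ hζ δ y i) s r
    calc u r * carry (fun i => y i ^ q) s r * mono (tw ζ δ y) (s + r)
        = u r * (mono (tw ζ δ y) (s + r) * carry (fun i => y i ^ q) s r) := by ring
      _ = mono (tw ζ δ y) s * (u r * mono (tw ζ δ y) r) := by rw [this]; ring
  have h2 : V * W = Matrix.diagonal (fun s => (q : A) ^ (Fintype.card ι) * mono y s) := by
    ext s t
    rw [Matrix.mul_apply, Matrix.diagonal_apply]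
    simp only [hV, hW, tw_mono]
    have : ∀ δ : ι → ZMod q,
        mono (fun i => ζ ^ (δ i).val) s * mono y s * mono (fun i => ζ ^ (δ i).val) (-t)
          = mono (fun i => ζ ^ (δ i).val) (s + -t) * mono y s := by
      intro δ
      rw [mono_zeta_add ζ hζ]; ring
    simp_rw [this]
    rw [← Finset.sum_mul, orth_pi ζ hζ]
    by_cases hst : s = t
    · subst hst; simp
    · have : s + -t ≠ 0 := by
        intro h
        exact hst (add_neg_eq_zero.mp h)
      simp [hst, this]
  have h3 : IsUnit V.det := by
    have h4 : IsUnit (V * W).det := by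
      rw [h2, Matrix.det_diagonal]
      refine (IsUnit.prod_univ_iff).mpr fun s => (hq.pow _).mul ?_
      unfold mono
      exact (IsUnit.prod_univ_iff).mpr fun i => (hy i).pow _
    rw [Matrix.det_mul] at h4
    exact isUnit_of_mul_isUnit_left h4
  have h5 := congrArg Matrix.det h1
  rw [Matrix.det_mul, Matrix.det_mul, Matrix.det_diagonal, mul_comm] at h5
  exact h3.mul_left_cancel h5

end Pool.Agent.AIC
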