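import Mathlib
import Pool.Agent.AIC.Norm
import Pool.Agent.AIC.NormUnit
import Pool.Agent.AIC.Series
import Pool.Agent.AIC.Degree
import Pool.Agent.AIC.PointsAux
import Pool.Agent.AIC.Exist

set_option autoImplicit false
set_option linter.unusedSectionVars false

namespace Pool.Agent.AIC

open Finset Polynomial

/-! The polynomial `F` over a local ring, zeros at given nilpotent points (H2). -/

section Roots82

variable {S : Type} [CommRing S]

/-- existence and uniqueness of `q`-th roots near a unit. -/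
theorem near_root (q : ℕ) (hq : IsUnit (q : S)) (c x : S) (hc : IsUnit c)
    (hx : IsNilpotent x) : ∃! y, IsNilpotent (c - y) ∧ y ^ q = x + c ^ q := by
  have h := Polynomial.existsUnique_nilpotent_sub_and_aeval_eq_zero (R := S) (S := S)
    (P := X ^ q - C (x + c ^ q)) (x := c) (by
      have h1 : aeval c (X ^ q - C (x + c ^ q) : S[X]) = -x := by
        simp
      rw [h1]
      exact hx.neg) (by
      have h1 : aeval c (derivative (X ^ q - C (x + c ^ q) : S[X])) = (q : S) * c ^ (q - 1) := by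
        rw [derivative_sub, derivative_C, sub_zero, derivative_X_pow]
        simp
      rw [h1]
      exact hq.mul (hc.pow _))
  obtain ⟨y, ⟨h1, h2⟩, h3⟩ := h
  refine ⟨y, ⟨h1, ?_⟩, fun z hz => h3 z ⟨hz.1, ?_⟩⟩
  · have h4 : y ^ q - (x + c ^ q) = 0 := by simpa [sub_eq_zero] using h2
    exact sub_eq_zero.mp h4
  · have h4 : aeval z (X ^ q - C (x + c ^ q) : S[X]) = z ^ q - (x + c ^ q) := by
      simp
    rw [h4, hz.2, sub_self]

theorem near_unit (c y : S) (hc : IsUnit c) (h : IsNilpotent (c - y)) : IsUnit y := by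
  have h1 : y = c - (c - y) := by ring
  rw [h1, sub_eq_add_neg]
  exact IsNilpotent.isUnit_add_left_of_commute h.neg hc (Commute.all _ _)

/-- a zero of `x * ∏ (x - t_j)` with nilpotent `t_j` is nilpotent. -/
theorem nilpotent_of_prod {k : ℕ} (x : S) (t : Fin k → S) (ht : ∀ j, IsNilpotent (t j))
    (h : x * ∏ j, (x - t j) = 0) : IsNilpotent x := by
  rw [nilpotent_iff_mem_prime]
  intro J hJ
  have h1 : x * ∏ j, (x - t j) ∈ J := by rw [h]; exact J.zero_mem
  rcases hJ.mem_or_mem h1 with h2 | h2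
  · exact h2
  · obtain ⟨j, _, hj⟩ := (hJ.prod_mem_iff).mp h2
    have h3 : t j ∈ J := nilpotent_iff_mem_prime.mp (ht j) J hJ
    have h4 := J.add_mem hj h3
    rwa [sub_add_cancel] at h4

end Roots82

section Adm82

variable {ι : Type} [Fintype ι] [DecidableEq ι] {q : ℕ} [Fact q.Prime]
variable {A : Type} [CommRing A]

/-- the module of degree bounded families. -/
noncomputable def admR (A : Type) [CommRing A] (d : ℕ) : Submodule A ((ι → ZMod q) → A[X]) :=
  Submodule.pi Set.univ fun s => Polynomial.degreeLT A (d - wt s / q)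

theorem admR_wt (d : ℕ) (p : (ι → ZMod q) → A[X]) (hp : p ∈ admR (ι := ι) (q := q) A d)
    (s : ι → ZMod q) (hs : p s ≠ 0) : q * (p s).natDegree + wt s < q * d := by
  have hq0 : 0 < q := (Fact.out : q.Prime).pos
  have h1 := (Submodule.mem_pi.mp hp) s (Set.mem_univ s)
  rw [Polynomial.mem_degreeLT, Polynomial.degree_eq_natDegree hs] at h1
  have h2 : (p s).natDegree < d - wt s / q := by exact_mod_cast h1
  have h3 : (p s).natDegree + wt s / q + 1 ≤ d := by omega
  have h4 := Nat.mul_le_mul_left q h3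
  have h5 := Nat.lt_mul_div_succ (wt s) hq0
  have h6 : q * ((p s).natDegree + wt s / q + 1)
    = q * (p s).natDegree + q * (wt s / q + 1) := by ring
  omega

theorem admR_of_wt (d : ℕ) (p : (ι → ZMod q) → A[X])
    (h : ∀ s, p s ≠ 0 → q * (p s).natDegree + wt s < q * d) :
    p ∈ admR (ι := ι) (q := q) A d := by
  have hq0 : 0 < q := (Fact.out : q.Prime).pos
  refine Submodule.mem_pi.mpr fun s _ => ?_
  rw [Polynomial.mem_degreeLT]
  by_cases hs : p s = 0
  · rw [hs, degree_zero]
    exact WithBot.bot_lt_coe _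
  · rw [Polynomial.degree_eq_natDegree hs]
    have h1 : (p s).natDegree < d - wt s / q := by
      have h2 := Nat.div_mul_le_self (wt s) q
      have h0 := h s hs
      by_contra hcon
      push Not at hcon
      have h3 : d ≤ (p s).natDegree + wt s / q := by omega
      have h4 := Nat.mul_le_mul_left q h3
      have h5 : q * ((p s).natDegree + wt s / q)
        = q * (p s).natDegree + wt s / q * q := by ring
      omega
    exact_mod_cast h1

/-- the linear map of conditions over `A`. -/
noncomputable def condT {T : Type} [CommRing T] [Algebra A T] (ψ : A[X] →ₐ[A] T)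
    (θ : ι → T) (ζ : A) (c : ι → A) :
    ((ι → ZMod q) → A[X]) →ₗ[A] (T × ({δ : ι → ZMod q // δ ≠ 0} → A)) where
  toFun p := (ev θ (fun s => ψ (p s)), fun δ => ev (tw ζ δ.1 c) (fun s => (p s).eval 0))
  map_add' p p' := by
    refine Prod.ext ?_ ?_
    · show ev θ (fun s => ψ ((p + p') s)) = ev θ (fun s => ψ (p s)) + ev θ (fun s => ψ (p' s))
      unfold ev
      rw [← Finset.sum_add_distrib]
      refine Finset.sum_congr rfl fun s _ => ?_
      dsimp only
      rw [Pi.add_apply, map_add, add_mul]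
    · funext δ
      show ev (tw ζ δ.1 c) (fun s => ((p + p') s).eval 0)
        = ev (tw ζ δ.1 c) (fun s => (p s).eval 0) + ev (tw ζ δ.1 c) (fun s => (p' s).eval 0)
      unfold ev
      rw [← Finset.sum_add_distrib]
      refine Finset.sum_congr rfl fun s _ => ?_
      dsimp only
      rw [Pi.add_apply, eval_add, add_mul]
  map_smul' r p := by
    refine Prod.ext ?_ ?_
    · show ev θ (fun s => ψ ((r • p) s)) = r • ev θ (fun s => ψ (p s))
      unfold ev
      rw [Finset.smul_sum]
      refine Finset.sum_congr rfl fun s _ => ?_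
      dsimp only
      rw [Pi.smul_apply, map_smul, smul_mul_assoc]
    · funext δ
      show ev (tw ζ δ.1 c) (fun s => ((r • p) s).eval 0)
        = r • ev (tw ζ δ.1 c) (fun s => (p s).eval 0)
      unfold ev
      rw [Finset.smul_sum]
      refine Finset.sum_congr rfl fun s _ => ?_
      dsimp only
      rw [Pi.smul_apply, eval_smul, smul_mul_assoc]

theorem prod_mem_smul {T : Type} [AddCommGroup T] [Module A T] (I : Ideal A)
    {Δ : Type} [Fintype Δ] [DecidableEq Δ]
    (t : T) (w : Δ → A) (ht : t ∈ I • (⊤ : Submodule A T)) (hw : ∀ δ, w δ ∈ I) :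
    ((t, w) : T × (Δ → A)) ∈ I • (⊤ : Submodule A (T × (Δ → A))) := by
  have h1 : ((t, w) : T × (Δ → A)) = LinearMap.inl A T (Δ → A) t
      + ∑ δ, w δ • LinearMap.inr A T (Δ → A) (Pi.single δ 1) := by
    refine Prod.ext ?_ ?_
    · simp [Prod.fst_sum]
    · funext ε
      simp [Prod.snd_sum, Finset.sum_apply, Pi.single_apply]
  rw [h1]
  refine Submodule.add_mem _ ?_ (Submodule.sum_mem _ fun δ _ => ?_)
  · have h2 : LinearMap.inl A T (Δ → A) t ∈ Submodule.map (LinearMap.inl A T (Δ → A))
        (I • (⊤ : Submodule A T)) := Submodule.mem_map_of_mem ht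
    rw [Submodule.map_smul''] at h2
    exact Submodule.smul_mono le_rfl le_top h2
  · exact Submodule.smul_mem_smul (hw δ) Submodule.mem_top

end Adm82

section Main82

variable {ι : Type} [Fintype ι] [DecidableEq ι] {q : ℕ} [Fact q.Prime]
variable {A : Type} [CommRing A] [IsLocalRing A]

/-- kernel of the reduction. -/
theorem ker_mem (k : ℕ) (W : A[X]) (hW : W.map (IsLocalRing.residue A) = X ^ k) (g : A[X])
    (hg : ∀ j, j < k + 1 → (g.map (IsLocalRing.residue A)).coeff j = 0) :
    Ideal.Quotient.mkₐ A (Ideal.span {X * W}) g ∈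
      (IsLocalRing.maximalIdeal A) • (⊤ : Submodule A (A[X] ⧸ Ideal.span {X * W})) := by
  obtain ⟨h', hh'⟩ := Polynomial.X_pow_dvd_iff.mpr hg
  obtain ⟨h, rfl⟩ := Polynomial.map_surjective _ (IsLocalRing.residue_surjective (R := A)) h'
  set g' := g - X * W * h with hg'
  have h1 : Ideal.Quotient.mkₐ A (Ideal.span {X * W}) g
      = Ideal.Quotient.mkₐ A (Ideal.span {X * W}) g' := by
    rw [hg', map_sub, eq_comm, sub_eq_self]
    exact Ideal.Quotient.eq_zero_iff_mem.mpr
      (Ideal.mul_mem_right _ _ (Ideal.mem_span_singleton_self _))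
  have h2 : g'.map (IsLocalRing.residue A) = 0 := by
    rw [hg', Polynomial.map_sub, Polynomial.map_mul, Polynomial.map_mul, hW, Polynomial.map_X,
      hh', pow_succ']
    ring
  have h3 : ∀ a, g'.coeff a ∈ IsLocalRing.maximalIdeal A := by
    intro a
    have := congrArg (fun f => Polynomial.coeff f a) h2
    simp only [Polynomial.coeff_map, Polynomial.coeff_zero] at this
    exact (IsLocalRing.residue_eq_zero_iff _).mp this
  rw [h1, g'.as_sum_support_C_mul_X_pow, map_sum]
  refine Submodule.sum_mem _ fun a _ => ?_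
  rw [← Polynomial.smul_eq_C_mul, map_smul]
  exact Submodule.smul_mem_smul (h3 a) Submodule.mem_top

theorem cond_surj (ζ : A) (hq : IsUnit (q : A)) (c : ι → A) (hc : ∀ i, IsUnit (c i))
    (k : ℕ) (W : A[X]) (hWm : W.Monic) (hW : W.map (IsLocalRing.residue A) = X ^ k)
    (θ : ι → A[X] ⧸ Ideal.span {X * W})
    (hθ : ∀ i, IsNilpotent (Ideal.Quotient.mk (Ideal.span {X * W}) (C (c i)) - θ i))
    (hθq : ∀ i, θ i ^ q = Ideal.Quotient.mk (Ideal.span {X * W}) X
      + Ideal.Quotient.mk (Ideal.span {X * W}) (C (c i)) ^ q)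
    (η : ι → PowerSeries (IsLocalRing.ResidueField A))
    (hη : ∀ i, η i ^ q = PowerSeries.X + PowerSeries.C (IsLocalRing.residue A (c i) ^ q))
    (hη0 : ∀ i, PowerSeries.constantCoeff (η i) = IsLocalRing.residue A (c i))
    (d : ℕ)
    (hJ : ∀ (g : ℕ → IsLocalRing.ResidueField A)
      (w : (ι → ZMod q) → IsLocalRing.ResidueField A),
      ∃ p : (ι → ZMod q) → (IsLocalRing.ResidueField A)[X],
        (∀ s, p s ≠ 0 → q * (p s).natDegree + wt s < q * d) ∧
        (∀ j, j < k + 1 → PowerSeries.coeff j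
          (ev η (fun s => ((p s : (IsLocalRing.ResidueField A)[X]) :
            PowerSeries (IsLocalRing.ResidueField A)))) = g j) ∧
        (∀ δ : ι → ZMod q, δ ≠ 0 →
          ev (tw (IsLocalRing.residue A ζ) δ (fun i => IsLocalRing.residue A (c i)))
            (fun s => (p s).eval 0) = w δ)) :
    Submodule.map (condT (Ideal.Quotient.mkₐ A (Ideal.span {X * W})) θ ζ c)
      (admR (ι := ι) (q := q) A d) = ⊤ := by
  classical
  set π := IsLocalRing.residue A with hπ
  have hqp : q.Prime := Fact.out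
  have hfin : Module.Finite A (A[X] ⧸ Ideal.span {X * W}) :=
    Polynomial.Monic.finite_quotient (monic_X.mul hWm)
  -- the reduction map
  set Q := PowerSeries (IsLocalRing.ResidueField A) ⧸
    Ideal.span {(PowerSeries.X : PowerSeries (IsLocalRing.ResidueField A)) ^ (k + 1)} with hQ
  set mQ : PowerSeries (IsLocalRing.ResidueField A) →+* Q := Ideal.Quotient.mk _ with hmQ
  set ψ : A[X] →+* Q := (mQ.comp
    (Polynomial.coeToPowerSeries.ringHom (R := IsLocalRing.ResidueField A))).comp
      (Polynomial.mapRingHom π) with hψ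
  have hψa : ∀ f : A[X], ψ f = mQ ((f.map π : (IsLocalRing.ResidueField A)[X]) :
      PowerSeries (IsLocalRing.ResidueField A)) := fun f => rfl
  have hmQ0 : ∀ f, mQ f = 0 ↔ ∀ j, j < k + 1 → PowerSeries.coeff j f = 0 := by
    intro f
    rw [hmQ, Ideal.Quotient.eq_zero_iff_mem, Ideal.mem_span_singleton, PowerSeries.X_pow_dvd_iff]
  have hψ0 : ∀ a ∈ Ideal.span {X * W}, ψ a = 0 := by
    intro a ha
    obtain ⟨b, rfl⟩ := Ideal.mem_span_singleton.mp ha
    rw [map_mul]
    have h1 : ψ (X * W) = 0 := by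
      rw [hψa, Polynomial.map_mul, Polynomial.map_X, hW, ← pow_succ', Polynomial.coe_pow,
        Polynomial.coe_X, hmQ0]
      exact PowerSeries.X_pow_dvd_iff.mp dvd_rfl
    rw [h1, zero_mul]
  set ρ : (A[X] ⧸ Ideal.span {X * W}) →+* Q := Ideal.Quotient.lift _ ψ hψ0 with hρ
  have hρa : ∀ f : A[X], ρ (Ideal.Quotient.mk (Ideal.span {X * W}) f) = ψ f := fun f => rfl
  have hρk : ∀ t, ρ t = 0 →
      t ∈ (IsLocalRing.maximalIdeal A) • (⊤ : Submodule A (A[X] ⧸ Ideal.span {X * W})) := by
    intro t ht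
    obtain ⟨g, rfl⟩ := Ideal.Quotient.mk_surjective t
    rw [hρa, hψa, hmQ0] at ht
    refine ker_mem k W hW g fun j hj => ?_
    have := ht j hj
    rwa [Polynomial.coeff_coe] at this
  have hXn : IsNilpotent (mQ PowerSeries.X) := by
    refine ⟨k + 1, ?_⟩
    rw [← map_pow, hmQ0]
    exact PowerSeries.X_pow_dvd_iff.mp dvd_rfl
  have hρθ : ∀ i, ρ (θ i) = mQ (η i) := by
    intro i
    have hu := near_root q (S := Q) (by
        have := (hq.map π).map (mQ.comp PowerSeries.C)
        simpa using this) (mQ (PowerSeries.C (π (c i)))) (mQ PowerSeries.X)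
        (((hc i).map π).map (mQ.comp PowerSeries.C)) hXn
    refine hu.unique ⟨?_, ?_⟩ ⟨?_, ?_⟩
    · have h1 := (hθ i).map ρ
      rw [map_sub, hρa, hψa, Polynomial.map_C, Polynomial.coe_C] at h1
      exact h1
    · rw [← map_pow, hθq i, map_add, map_pow, hρa, hρa, hψa, hψa, Polynomial.map_C,
        Polynomial.coe_C, Polynomial.map_X, Polynomial.coe_X]
    · have h1 : PowerSeries.X ∣ PowerSeries.C (π (c i)) - η i := by
        rw [PowerSeries.X_dvd_iff, map_sub, hη0 i]
        simp [hπ]
      obtain ⟨b, hb⟩ := h1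
      rw [← map_sub, hb, map_mul]
      exact (Commute.all _ _).isNilpotent_mul_right hXn
    · rw [← map_pow, hη i, map_add, map_pow PowerSeries.C, map_pow mQ]
  -- Nakayama
  refine top_unique ?_
  refine Submodule.le_of_le_smul_of_le_jacobson_bot (I := IsLocalRing.maximalIdeal A)
    (Module.finite_def.mp inferInstance) (IsLocalRing.maximalIdeal_le_jacobson _) ?_
  rintro ⟨t, w⟩ -
  obtain ⟨f, rfl⟩ := Ideal.Quotient.mk_surjective t
  obtain ⟨pb, hpb1, hpb2, hpb3⟩ := hJ (fun j => (f.map π).coeff j)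
    (fun δ => if h : δ ≠ 0 then π (w ⟨δ, h⟩) else 0)
  have hlift : ∀ s : ι → ZMod q, ∃ P : A[X], P.map π = pb s ∧ P.degree = (pb s).degree := by
    intro s
    refine Polynomial.exists_degree_eq_of_mem_lifts ?_
    rw [Polynomial.mem_lifts]
    exact Polynomial.map_surjective _ IsLocalRing.residue_surjective _
  choose p hp1 hp2 using hlift
  have hpm : p ∈ admR (ι := ι) (q := q) A d := by
    refine admR_of_wt d p fun s hs => ?_
    have h1 : pb s ≠ 0 := by
      intro h
      have := hp2 s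
      rw [h, degree_zero, degree_eq_bot] at this
      exact hs this
    rw [Polynomial.natDegree_eq_of_degree_eq (hp2 s)]
    exact hpb1 s h1
  have hdiff : condT (Ideal.Quotient.mkₐ A (Ideal.span {X * W})) θ ζ c p
      - (Ideal.Quotient.mk (Ideal.span {X * W}) f, w) ∈
      (IsLocalRing.maximalIdeal A) • (⊤ : Submodule A ((A[X] ⧸ Ideal.span {X * W}) ×
        ({δ : ι → ZMod q // δ ≠ 0} → A))) := by
    refine prod_mem_smul _ _ _ (hρk _ ?_) fun δ => ?_
    · show ρ (ev θ (fun s => Ideal.Quotient.mk (Ideal.span {X * W}) (p s))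
        - Ideal.Quotient.mk (Ideal.span {X * W}) f) = 0
      rw [map_sub, ev_map, hρa]
      simp only [hρa, hρθ, hψa, hp1]
      rw [← ev_map mQ η (fun s => ((pb s : (IsLocalRing.ResidueField A)[X]) :
            PowerSeries (IsLocalRing.ResidueField A))), ← map_sub, hmQ0]
      intro j hj
      rw [map_sub, hpb2 j hj, Polynomial.coeff_coe, sub_self]
    · show ev (tw ζ δ.1 c) (fun s => (p s).eval 0) - w δ ∈ IsLocalRing.maximalIdeal A
      rw [← IsLocalRing.residue_eq_zero_iff, map_sub, ev_map]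
      have h1 := hpb3 δ.1 δ.2
      rw [dif_pos δ.2] at h1
      have h2 : (fun i => π (tw ζ δ.1 c i)) = tw (π ζ) δ.1 (fun i => π (c i)) := by
        funext i
        simp [tw]
      have h3 : (fun s => π ((p s).eval 0)) = fun s => (pb s).eval 0 := by
        funext s
        rw [← hp1 s, Polynomial.eval_map, ← Polynomial.eval₂_at_apply, map_zero]
      rw [← hπ, h2, h3, h1, sub_self]
  have h1 : ((Ideal.Quotient.mk (Ideal.span {X * W}) f, w) :
      (A[X] ⧸ Ideal.span {X * W}) × ({δ : ι → ZMod q // δ ≠ 0} → A))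
      = condT (Ideal.Quotient.mkₐ A (Ideal.span {X * W})) θ ζ c p
        - (condT (Ideal.Quotient.mkₐ A (Ideal.span {X * W})) θ ζ c p
      - (Ideal.Quotient.mk (Ideal.span {X * W}) f, w)) := by
    rw [sub_sub_cancel]
  rw [h1]
  exact Submodule.sub_mem _ (Submodule.mem_sup_left (Submodule.mem_map_of_mem hpm))
    (Submodule.mem_sup_right hdiff)

/-- the local statement, from the jets statement over the residue field. -/
theorem local_F_of (ζ : A) (hζ : ∑ j ∈ range q, ζ ^ j = 0)
    (hq : IsUnit (q : A)) (c : ι → A) (hc : ∀ i, IsUnit (c i))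
    (k : ℕ) (pt : Fin k → A) (hpt : ∀ j, IsNilpotent (pt j)) (d : ℕ) (hd : 0 < d)
    (η : ι → PowerSeries (IsLocalRing.ResidueField A))
    (hη : ∀ i, η i ^ q = PowerSeries.X + PowerSeries.C (IsLocalRing.residue A (c i) ^ q))
    (hη0 : ∀ i, PowerSeries.constantCoeff (η i) = IsLocalRing.residue A (c i))
    (hJ : ∀ (g : ℕ → IsLocalRing.ResidueField A)
      (w : (ι → ZMod q) → IsLocalRing.ResidueField A),
      ∃ p : (ι → ZMod q) → (IsLocalRing.ResidueField A)[X],
        (∀ s, p s ≠ 0 → q * (p s).natDegree + wt s < q * d) ∧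
        (∀ j, j < k + 1 → PowerSeries.coeff j
          (ev η (fun s => ((p s : (IsLocalRing.ResidueField A)[X]) :
            PowerSeries (IsLocalRing.ResidueField A)))) = g j) ∧
        (∀ δ : ι → ZMod q, δ ≠ 0 →
          ev (tw (IsLocalRing.residue A ζ) δ (fun i => IsLocalRing.residue A (c i)))
            (fun s => (p s).eval 0) = w δ)) :
    ∃ p : (ι → ZMod q) → A[X],
      (∀ s, p s ≠ 0 → q * (p s).natDegree + wt s < q * d) ∧
      (∃ H : A[X], (nmat (fun i => X + C (c i ^ q))
          (fun s => (if s = 0 then X ^ d else 0) + p s)).det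
          = (∏ j, (X - C (pt j))) * H ∧ IsUnit (H.eval 0)) ∧
      (∀ δ : ι → ZMod q, δ ≠ 0 →
        IsUnit (ev (tw ζ δ c) (fun s => ((if s = 0 then X ^ d else 0) + p s : A[X]).eval 0))) := by
  classical
  set W : A[X] := ∏ j, (X - C (pt j)) with hWdef
  have hWm : W.Monic := monic_prod_of_monic _ _ fun j _ => monic_X_sub_C _
  have hW : W.map (IsLocalRing.residue A) = X ^ k := by
    rw [hWdef, Polynomial.map_prod]
    have h1 : ∀ j, (X - C (pt j)).map (IsLocalRing.residue A) = X := by
      intro j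
      have h2 : IsLocalRing.residue A (pt j) = 0 := by
        rw [IsLocalRing.residue_eq_zero_iff, IsLocalRing.mem_maximalIdeal, mem_nonunits_iff]
        intro h3
        exact not_isUnit_zero (M₀ := A) (by
          obtain ⟨m, hm⟩ := hpt j
          rw [← hm]
          exact h3.pow m)
      rw [Polynomial.map_sub, Polynomial.map_X, Polynomial.map_C, h2, C_0, sub_zero]
    simp_rw [h1]
    rw [Finset.prod_const, Finset.card_univ, Fintype.card_fin]
  set I : Ideal A[X] := Ideal.span {X * W} with hI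
  set mk : A[X] →+* (A[X] ⧸ I) := Ideal.Quotient.mk I with hmk
  have hXW : mk (X * W) = 0 :=
    Ideal.Quotient.eq_zero_iff_mem.mpr (Ideal.mem_span_singleton_self _)
  have hxn : IsNilpotent (mk X) := by
    refine nilpotent_of_prod (mk X) (fun j => mk (C (pt j))) (fun j => ?_) ?_
    · exact (hpt j).map (mk.comp C)
    · rw [← hXW, map_mul, hWdef, map_prod]
      simp only [map_sub]
  have hqT : IsUnit ((q : ℕ) : A[X] ⧸ I) := by
    have := hq.map (mk.comp C)
    simpa using this
  have hcT : ∀ i, IsUnit (mk (C (c i))) := fun i => (hc i).map (mk.comp C)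
  choose θ hθ hθu using fun i => near_root q hqT (mk (C (c i))) (mk X) (hcT i) hxn
  have htop := cond_surj ζ hq c hc k W hWm hW θ (fun i => (hθ i).1) (fun i => (hθ i).2)
    η hη hη0 d hJ
  have htop' : Submodule.map (condT (Ideal.Quotient.mkₐ A I) θ ζ c)
      (admR (ι := ι) (q := q) A d) = ⊤ := htop
  have hmem : ((mk W - mk X ^ d, fun _ => 1) :
      (A[X] ⧸ I) × ({δ : ι → ZMod q // δ ≠ 0} → A)) ∈
      Submodule.map (condT (Ideal.Quotient.mkₐ A I) θ ζ c) (admR (ι := ι) (q := q) A d) := by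
    rw [htop']; exact Submodule.mem_top
  obtain ⟨p, hp, hpt'⟩ := Submodule.mem_map.mp hmem
  have hp1 : ev θ (fun s => mk (p s)) = mk W - mk X ^ d := congrArg Prod.fst hpt'
  have hp2 : ∀ δ : ι → ZMod q, δ ≠ 0 → ev (tw ζ δ c) (fun s => (p s).eval 0) = 1 :=
    fun δ hδ => congrFun (congrArg Prod.snd hpt') ⟨δ, hδ⟩
  set F : (ι → ZMod q) → A[X] := fun s => (if s = 0 then X ^ d else 0) + p s with hF
  have hF2 : ∀ δ : ι → ZMod q, δ ≠ 0 → ev (tw ζ δ c) (fun s => (F s).eval 0) = 1 := by
    intro δ hδ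
    rw [← hp2 δ hδ]
    congr 1
    funext s
    rw [hF]
    dsimp only
    rw [Polynomial.eval_add]
    have h4 : (if s = 0 then X ^ d else 0 : A[X]).eval 0 = 0 := by
      split_ifs
      · rw [Polynomial.eval_pow, Polynomial.eval_X, zero_pow (by omega)]
      · rw [Polynomial.eval_zero]
    rw [h4, zero_add]
  have hF1 : ev θ (fun s => mk (F s)) = mk W := by
    have h1 : ev θ (fun s => mk (F s)) = mk X ^ d + ev θ (fun s => mk (p s)) := by
      unfold ev
      have h4 : ∀ s : ι → ZMod q, mk (F s) * mono θ s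
            = (if s = 0 then mk X ^ d else 0) + mk (p s) * mono θ s := by
        intro s
        rw [hF]
        dsimp only
        rw [map_add, add_mul]
        congr 1
        by_cases hs : s = 0
        · rw [if_pos hs, if_pos hs, hs, mono_zero, mul_one, map_pow]
        · rw [if_neg hs, if_neg hs, map_zero, zero_mul]
      simp_rw [h4]
      rw [Finset.sum_add_distrib]
      congr 1
      simp
    rw [h1, hp1]
    ring
  -- the determinant
  have hζT : ∑ j ∈ range q, (mk (C ζ)) ^ j = 0 := by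
    have := congrArg (mk.comp C) hζ
    rw [map_sum, map_zero] at this
    rw [← this]
    exact Finset.sum_congr rfl fun j _ => (map_pow (mk.comp C) ζ j).symm
  have hθun : ∀ i, IsUnit (θ i) := fun i => near_unit _ _ (hcT i) (hθ i).1
  set D : A[X] := (nmat (fun i => X + C (c i ^ q)) F).det with hD
  have hDm : mk D = mk W * ∏ δ ∈ (Finset.univ : Finset (ι → ZMod q)).erase 0,
      ev (tw (mk (C ζ)) δ θ) (fun s => mk (F s)) := by
    have h1 : mk D = ∏ δ : ι → ZMod q, ev (tw (mk (C ζ)) δ θ) (fun s => mk (F s)) := by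
      rw [← det_nmat_unit (mk (C ζ)) hζT hqT θ hθun, hD, det_nmat_map]
      congr 2
      funext i
      rw [(hθ i).2, map_add, C_pow, map_pow]
    rw [h1, ← Finset.mul_prod_erase _ _ (Finset.mem_univ (0 : ι → ZMod q))]
    have h2 : tw (mk (C ζ)) (0 : ι → ZMod q) θ = θ := by
      funext i
      simp [tw]
    rw [h2, hF1]
  -- evaluation at zero
  have he0 : ∀ a ∈ I, Polynomial.evalRingHom (0 : A) a = 0 := by
    intro a ha
    obtain ⟨b, rfl⟩ := Ideal.mem_span_singleton.mp ha
    simp
  set ev0 : (A[X] ⧸ I) →+* A := Ideal.Quotient.lift I (Polynomial.evalRingHom 0) he0 with hev0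
  have hev0a : ∀ f : A[X], ev0 (mk f) = f.eval 0 := fun f => rfl
  have hev0θ : ∀ i, ev0 (θ i) = c i := by
    intro i
    refine (near_root q hq (c i) 0 (hc i) IsNilpotent.zero).unique ⟨?_, ?_⟩ ⟨?_, ?_⟩
    · have h1 := (hθ i).1.map ev0
      rw [map_sub, hev0a, eval_C] at h1
      exact h1
    · rw [← map_pow, (hθ i).2, map_add, map_pow, hev0a, hev0a, eval_X, eval_C]
    · rw [sub_self]; exact IsNilpotent.zero
    · rw [zero_add]
  have hprod1 : ev0 (∏ δ ∈ (Finset.univ : Finset (ι → ZMod q)).erase 0,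
      ev (tw (mk (C ζ)) δ θ) (fun s => mk (F s))) = 1 := by
    rw [map_prod]
    refine Finset.prod_eq_one fun δ hδ => ?_
    rw [ev_map, ← hF2 δ (Finset.ne_of_mem_erase hδ)]
    congr 1
    funext i
    unfold tw
    rw [map_mul, map_pow, hev0a, eval_C, hev0θ]
  obtain ⟨h₀, hh₀⟩ := Ideal.Quotient.mk_surjective (∏ δ ∈ (Finset.univ : Finset (ι → ZMod q)).erase 0,
      ev (tw (mk (C ζ)) δ θ) (fun s => mk (F s)))
  have hh₀1 : h₀.eval 0 = 1 := by
    rw [← hev0a, ← hprod1, ← hh₀]
  have hdvd : X * W ∣ D - W * h₀ := by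
    rw [← Ideal.mem_span_singleton, ← hI, ← Ideal.Quotient.eq_zero_iff_mem, ← hmk, map_sub,
      map_mul, hDm, hmk, hh₀, sub_self]
  obtain ⟨h₁, hh₁⟩ := hdvd
  refine ⟨p, fun s hs => admR_wt d p hp s hs, ⟨h₀ + X * h₁, ?_, ?_⟩, ?_⟩
  · have h5 : D = W * h₀ + (D - W * h₀) := by ring
    have h6 : D = W * (h₀ + X * h₁) := by
      rw [h5, hh₁]
      ring
    exact h6
  · rw [eval_add, eval_mul, eval_X, zero_mul, add_zero, hh₀1]
    exact isUnit_one
  · intro δ hδ
    have := hF2 δ hδ
    rw [hF] at this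
    rw [this]
    exact isUnit_one

theorem local_F {A : Type} [CommRing A] [IsLocalRing A] (hι : 0 < Fintype.card ι) (ζ : A)
    (hζ : ∑ j ∈ range q, ζ ^ j = 0)
    (hq : IsUnit (q : A)) (c : ι → A) (hc : ∀ i, IsUnit (c i))
    (hd : ∀ i j, i ≠ j → IsUnit (c i ^ q - c j ^ q))
    (k : ℕ) (hk : k + 1 ≤ Fintype.card ι * q ^ Fintype.card ι
      + Fintype.card ι * q ^ (Fintype.card ι - 1))
    (pt : Fin k → A) (hpt : ∀ j, IsNilpotent (pt j)) :
    ∃ p : (ι → ZMod q) → A[X],
      (∀ s, p s ≠ 0 → q * (p s).natDegree + wt s < q * (2 * Fintype.card ι)) ∧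
      (∃ H : A[X], (nmat (fun i => X + C (c i ^ q))
          (fun s => (if s = 0 then X ^ (2 * Fintype.card ι) else 0) + p s)).det
          = (∏ j, (X - C (pt j))) * H ∧ IsUnit (H.eval 0)) ∧
      (∀ δ : ι → ZMod q, δ ≠ 0 →
        IsUnit (ev (tw ζ δ c)
          (fun s => ((if s = 0 then X ^ (2 * Fintype.card ι) else 0) + p s : A[X]).eval 0))) := by
  classical
  set π := IsLocalRing.residue A with hπ
  have hqπ : (q : IsLocalRing.ResidueField A) ≠ 0 := by
    have h1 := hq.map π
    rw [map_natCast] at h1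
    exact h1.ne_zero
  have hcπ : ∀ i, π (c i) ≠ 0 := fun i => ((hc i).map π).ne_zero
  have hζπ : ∑ j ∈ range q, (π ζ) ^ j = 0 := by
    have := congrArg π hζ
    rw [map_sum, map_zero] at this
    rw [← this]
    exact Finset.sum_congr rfl fun j _ => (map_pow π ζ j).symm
  have hinj : Function.Injective (fun i => π (c i) ^ q) := by
    intro i j h
    by_contra hne
    have h1 := ((hd i j hne).map π).ne_zero
    apply h1
    rw [map_sub, map_pow, map_pow]
    exact sub_eq_zero.mpr h
  choose η hη hη0 using fun i => exists_root q (Fact.out : q.Prime).pos hqπ (π (c i)) (hcπ i)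
  exact local_F_of ζ hζ hq c hc k pt hpt (2 * Fintype.card ι) (by omega) η hη hη0
    (fun g w => jets_surj hι (π ζ) hζπ hqπ (fun i => π (c i)) hcπ hinj η hη hη0 (k + 1) hk g w)

end Main82

end Pool.Agent.AIC
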