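import Mathlib
import Pool.Agent.AIC.PointsAux
import Pool.Agent.AIC.NormUnit
import Pool.Agent.AIC.Exist
import Pool.Agent.AIC.Hensel76
import Pool.Agent.AIC.LocalF

set_option autoImplicit false
set_option linter.unusedSectionVars false

namespace Pool.Agent.AIC

open Finset Polynomial

variable {ι : Type} [Fintype ι] [DecidableEq ι] {q : ℕ} [Fact q.Prime]

/-- `R/(v)` is local when `v` lies in exactly one maximal ideal. -/
theorem isLocalRing_quot {R : Type} [CommRing R] (m : Ideal R) [hm : m.IsMaximal] (v : R)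
    (hv : v ∈ m) (h : ∀ M : Ideal R, M.IsMaximal → v ∈ M → M = m) :
    IsLocalRing (R ⧸ Ideal.span {v}) := by
  have hle : Ideal.span {v} ≤ m := by
    rw [Ideal.span_le]; simpa using hv
  have hcomap : ∀ I : Ideal (R ⧸ Ideal.span {v}), I.IsMaximal →
      I.comap (Ideal.Quotient.mk (Ideal.span {v})) = m := by
    intro I hI
    have hmax : (I.comap (Ideal.Quotient.mk (Ideal.span {v}))).IsMaximal :=
      Ideal.comap_isMaximal_of_surjective _ Ideal.Quotient.mk_surjective
    apply h _ hmax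
    rw [Ideal.mem_comap]
    have : (Ideal.Quotient.mk (Ideal.span {v})) v = 0 :=
      Ideal.Quotient.eq_zero_iff_mem.mpr (Ideal.mem_span_singleton_self v)
    rw [this]
    exact I.zero_mem
  have hmap : (m.map (Ideal.Quotient.mk (Ideal.span {v}))).IsMaximal := by
    have := Ideal.map_eq_top_or_isMaximal_of_surjective (Ideal.Quotient.mk (Ideal.span {v}))
      Ideal.Quotient.mk_surjective hm
    rcases this with h1 | h1
    · exfalso
      have h2 := congrArg (Ideal.comap (Ideal.Quotient.mk (Ideal.span {v}))) h1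
      rw [Ideal.comap_map_of_surjective _ Ideal.Quotient.mk_surjective, Ideal.comap_top] at h2
      have h3 : Ideal.comap (Ideal.Quotient.mk (Ideal.span {v})) ⊥ = Ideal.span {v} := by
        rw [← RingHom.ker_eq_comap_bot, Ideal.mk_ker]
      rw [h3, sup_eq_left.mpr hle] at h2
      exact hm.ne_top h2
    · exact h1
  refine IsLocalRing.of_unique_max_ideal ⟨_, hmap, fun I hI => ?_⟩
  have h1 := hcomap I hI
  rw [← h1, Ideal.map_comap_of_surjective _ Ideal.Quotient.mk_surjective]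

/-- elements outside `m` become units of `R/(v)`. -/
theorem isUnit_quot {R : Type} [CommRing R] (m : Ideal R) [_hm : m.IsMaximal] (v : R)
    (h : ∀ M : Ideal R, M.IsMaximal → v ∈ M → M = m) (x : R) (hx : x ∉ m) :
    IsUnit (Ideal.Quotient.mk (Ideal.span {v}) x) := by
  have htop : Ideal.span {x} ⊔ Ideal.span {v} = ⊤ := by
    by_contra hne
    obtain ⟨M, hM, hle⟩ := Ideal.exists_le_maximal _ hne
    have hxM : x ∈ M := hle (Ideal.mem_sup_left (Ideal.mem_span_singleton_self x))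
    have hvM : v ∈ M := hle (Ideal.mem_sup_right (Ideal.mem_span_singleton_self v))
    rw [h M hM hvM] at hxM
    exact hx hxM
  have h1 : (1 : R) ∈ Ideal.span {x} ⊔ Ideal.span {v} := by rw [htop]; trivial
  obtain ⟨a, ha, b, hb, hab⟩ := Submodule.mem_sup.mp h1
  obtain ⟨a', rfl⟩ := Ideal.mem_span_singleton'.mp ha
  refine IsUnit.of_mul_eq_one_right (Ideal.Quotient.mk (Ideal.span {v}) a') ?_
  rw [← map_mul, ← map_one (Ideal.Quotient.mk (Ideal.span {v})), Ideal.Quotient.eq]
  have : a' * x - 1 = -b := by rw [← hab]; ring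
  rw [this]
  exact (Ideal.span {v}).neg_mem hb


/-- divisibility of the norm by `X^k`. -/
theorem X_pow_dvd_det {κ : Type} [Field κ] (ζ : κ) (hζ : ∑ j ∈ range q, ζ ^ j = 0)
    (hq : (q : κ) ≠ 0) (c : ι → κ) (hc : ∀ i, c i ≠ 0)
    (η : ι → PowerSeries κ) (hη : ∀ i, η i ^ q = PowerSeries.X + PowerSeries.C (c i ^ q))
    (hη0 : ∀ i, PowerSeries.constantCoeff (η i) = c i) (k : ℕ)
    (u : (ι → ZMod q) → κ[X])
    (hu : PowerSeries.X ^ k ∣ ev η (fun s => ((u s : κ[X]) : PowerSeries κ))) :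
    X ^ k ∣ (nmat (fun i => X + C (c i ^ q)) u).det := by
  have h1 : ((nmat (fun i => X + C (c i ^ q)) u).det : PowerSeries κ)
      = ∏ δ : ι → ZMod q, ev (tw (PowerSeries.C ζ) δ η)
          (fun s => ((u s : κ[X]) : PowerSeries κ)) := by
    rw [← det_nmat (PowerSeries.C ζ) (by
        have := congrArg (PowerSeries.C (R := κ)) hζ
        simpa [map_sum, map_pow] using this) (by
        intro h
        apply hq
        have := congrArg PowerSeries.constantCoeff h
        simpa using this) η (by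
        intro i h
        have := hη0 i
        rw [h, map_zero] at this
        exact hc i this.symm)]
    have := det_nmat_map (Polynomial.coeToPowerSeries.ringHom (R := κ))
      (fun i => X + C (c i ^ q)) u
    simp only [Polynomial.coeToPowerSeries.ringHom_apply] at this
    rw [this]
    congr 2
    ext i
    rw [hη i]
    simp
  have h2 : PowerSeries.X ^ k ∣ ((nmat (fun i => X + C (c i ^ q)) u).det : PowerSeries κ) := by
    rw [h1]
    have h0 : tw (PowerSeries.C ζ) (0 : ι → ZMod q) η = η := by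
      ext i; simp [tw]
    refine dvd_trans ?_ (Finset.dvd_prod_of_mem _ (Finset.mem_univ (0 : ι → ZMod q)))
    rw [h0]; exact hu
  rw [Polynomial.X_pow_dvd_iff]
  intro m hm
  have := PowerSeries.X_pow_dvd_iff.mp h2 m hm
  simpa using this

/-- the counting step: `k` distinct roots of `Φ` in `R`, and `X^k ∣ Φ` modulo `m`, `deg Φ < 2k`. -/
theorem exists_root_mem {R κ : Type} [CommRing R] [IsDomain R] [Field κ] (g : R →+* κ)
    (Φ : R[X]) (hΦ : Φ.Monic) (k : ℕ) (hk : Φ.natDegree < 2 * k) (r : Fin k → R)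
    (hr : Function.Injective r) (hroot : ∀ j, Φ.IsRoot (r j)) (hX : X ^ k ∣ Φ.map g) :
    ∃ j, g (r j) = 0 := by
  classical
  by_contra hno
  push Not at hno
  have h1 : (∏ j, (X - C (r j))) ∣ Φ := by
    have h2 : (Multiset.map (fun a => X - C a) (Finset.univ.val.map r)).prod ∣ Φ := by
      rw [Multiset.prod_X_sub_C_dvd_iff_le_roots hΦ.ne_zero]
      rw [Multiset.le_iff_subset (Multiset.Nodup.map hr Finset.univ.nodup)]
      intro a ha
      obtain ⟨j, _, rfl⟩ := Multiset.mem_map.mp ha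
      exact (mem_roots hΦ.ne_zero).mpr (hroot j)
    rw [Multiset.map_map] at h2
    exact h2
  obtain ⟨Ψ, hΨ⟩ := h1
  have hm : (∏ j, (X - C (r j))).Monic := monic_prod_of_monic _ _ fun j _ => monic_X_sub_C _
  have hΨm : Ψ.Monic := by
    rw [hΨ] at hΦ
    exact hm.of_mul_monic_left hΦ
  have hdeg : (∏ j, (X - C (r j))).natDegree = k := by
    rw [natDegree_prod_of_monic _ _ fun j _ => monic_X_sub_C _]
    simp
  have hΨd : Ψ.natDegree < k := by
    have := congrArg natDegree hΨ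
    rw [hm.natDegree_mul hΨm, hdeg] at this
    omega
  have h3 : X ^ k ∣ Ψ.map g := by
    have h4 : IsCoprime (X ^ k : κ[X]) (∏ j, (X - C (g (r j)))) := by
      apply IsCoprime.pow_left
      apply IsCoprime.prod_right
      intro j _
      have h := isCoprime_X_sub_C_of_isUnit_sub (a := (0 : κ)) (b := g (r j)) (by
        rw [zero_sub]
        exact (IsUnit.mk0 _ (hno j)).neg)
      rw [C_0, sub_zero] at h
      exact h
    rw [hΨ, Polynomial.map_mul, Polynomial.map_prod] at hX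
    simp only [Polynomial.map_sub, map_X, map_C] at hX
    exact h4.dvd_of_dvd_mul_left hX
  have h5 : (Ψ.map g) ≠ 0 := (hΨm.map g).ne_zero
  have h6 := natDegree_le_of_dvd h3 h5
  rw [natDegree_X_pow, hΨm.natDegree_map] at h6
  omega

/-- patterns at `m₁` (henselian localization) and `m₂`. -/
theorem claimH {R : Type} [CommRing R] [IsDomain R] [IsIntegrallyClosed R]
    (m₁ m₂ : Ideal R) [hm1 : m₁.IsMaximal] [hm2 : m₂.IsMaximal] (h12 : m₁ ≠ m₂)
    (hH : HenselianLocalRing (Localization.AtPrime m₁))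
    (hu : ∃ u ∈ m₁, ∀ M : Ideal R, M.IsMaximal → u ∈ M → M = m₁)
    (hinf : Infinite (R ⧸ m₁))
    (hq1 : (q : R) ∉ m₁) (hq2 : (q : R) ∉ m₂) (ζ : R) (hζ : ∑ j ∈ range q, ζ ^ j = 0)
    (hι : 2 ≤ Fintype.card ι)
    (c : ι → R) (hc1 : ∀ i, c i ∉ m₁) (hc2 : ∀ i, c i ∉ m₂)
    (hd1 : ∀ i j, i ≠ j → c i ^ q - c j ^ q ∉ m₁) (hd2 : ∀ i j, i ≠ j → c i ^ q - c j ^ q ∉ m₂)
    (ε : ι → ZMod q) :
    ∃ (x : R) (y : ι → R), x ∈ m₁ ∧ x ∈ m₂ ∧ (∀ i, y i ^ q = x + c i ^ q) ∧
      (∀ i, y i - c i ∈ m₁) ∧ (∀ i, y i - ζ ^ (ε i).val * c i ∈ m₂) := by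
  classical
  obtain ⟨u, hu1, huM⟩ := hu
  have hqpos : 0 < q := (Fact.out : q.Prime).pos
  have hq2le : 2 ≤ q := (Fact.out : q.Prime).two_le
  let _ := Ideal.Quotient.field m₁
  let _ := Ideal.Quotient.field m₂
  set g₁ : R →+* R ⧸ m₁ := Ideal.Quotient.mk m₁ with hg₁
  set g₂ : R →+* R ⧸ m₂ := Ideal.Quotient.mk m₂ with hg₂
  have hz1 : ∀ x, g₁ x = 0 ↔ x ∈ m₁ := fun x => Ideal.Quotient.eq_zero_iff_mem
  have hz2 : ∀ x, g₂ x = 0 ↔ x ∈ m₂ := fun x => Ideal.Quotient.eq_zero_iff_mem
  have hζ1 : ∑ j ∈ range q, (g₁ ζ) ^ j = 0 := by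
    have := congrArg g₁ hζ
    simpa [map_sum, map_pow] using this
  have hζ2 : ∑ j ∈ range q, (g₂ ζ) ^ j = 0 := by
    have := congrArg g₂ hζ
    simpa [map_sum, map_pow] using this
  have hq1' : ((q : ℕ) : R ⧸ m₁) ≠ 0 := by
    intro h
    exact hq1 ((hz1 _).mp (by rw [map_natCast]; exact h))
  have hq2' : ((q : ℕ) : R ⧸ m₂) ≠ 0 := by
    intro h
    exact hq2 ((hz2 _).mp (by rw [map_natCast]; exact h))
  have hum2 : u ∉ m₂ := fun h => h12 (huM m₂ hm2 h).symm
  have hu0 : u ≠ 0 := fun h => hum2 (by rw [h]; exact m₂.zero_mem)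
  set n := Fintype.card ι with hn
  set d := 2 * n with hd
  set k := n * q ^ n + 1 with hk
  -- points at `m₁`
  obtain ⟨b, hb⟩ : ∃ b : Fin k → R, ∀ i j, i ≠ j → b i - b j ∉ m₁ := by
    obtain ⟨f⟩ : Nonempty (Fin k ↪ R ⧸ m₁) :=
      ⟨(Fin.valEmbedding).trans (Infinite.natEmbedding _)⟩
    choose b hb using fun j => Ideal.Quotient.mk_surjective (f j)
    refine ⟨b, fun i j hij h => hij (f.injective ?_)⟩
    rw [← hb i, ← hb j]
    exact Ideal.Quotient.eq.mpr h
  -- the local ring `A = R/(u^(2k))`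
  set v := u ^ (2 * k) with hv
  have hvm : v ∈ m₁ := Ideal.pow_mem_of_mem _ hu1 _ (by omega)
  have hvM : ∀ M : Ideal R, M.IsMaximal → v ∈ M → M = m₁ := fun M hM h =>
    huM M hM (hM.isPrime.mem_of_pow_mem _ h)
  have hvm2 : v ∉ m₂ := fun h => h12 (hvM m₂ hm2 h).symm
  set A := R ⧸ Ideal.span {v} with hA
  have hAloc : IsLocalRing A := isLocalRing_quot m₁ v hvm hvM
  set gA : R →+* A := Ideal.Quotient.mk (Ideal.span {v}) with hgA
  have hAunit : ∀ x, x ∉ m₁ → IsUnit (gA x) := isUnit_quot m₁ v hvM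
  have hζA : ∑ j ∈ range q, (gA ζ) ^ j = 0 := by
    have := congrArg gA hζ
    simpa [map_sum, map_pow] using this
  have hvA : gA v = 0 := Ideal.Quotient.eq_zero_iff_mem.mpr (Ideal.mem_span_singleton_self v)
  have hnq : 2 ≤ n * q ^ (n - 1) := by
    calc 2 = 2 * 1 := rfl
      _ ≤ n * q ^ (n - 1) := Nat.mul_le_mul hι (Nat.one_le_pow _ _ hqpos)
  have hkle : k + 1 ≤ Fintype.card ι * q ^ Fintype.card ι
      + Fintype.card ι * q ^ (Fintype.card ι - 1) := by
    rw [← hn, hk, add_assoc]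
    exact Nat.add_le_add_left hnq _
  obtain ⟨pA, hpAw, ⟨HA, hHA, hHA0⟩, hpAn⟩ := local_F (A := A) (q := q) (ι := ι) (by omega) (gA ζ)
    hζA (by
      have := hAunit _ hq1
      rwa [map_natCast] at this) (fun i => gA (c i)) (fun i => hAunit _ (hc1 i))
    (fun i j hij => by
      have := hAunit _ (hd1 i j hij)
      rwa [map_sub, map_pow, map_pow] at this) k hkle (fun j => gA (b j * u))
    (fun j => ⟨2 * k, by
      rw [← map_pow, mul_pow, map_mul, hvA, mul_zero]⟩)
  -- the function at `m₂`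
  set c₁ : ι → R ⧸ m₁ := fun i => g₁ (c i) with hc₁
  set c₂ : ι → R ⧸ m₂ := fun i => g₂ (ζ ^ (ε i).val * c i) with hc₂
  have hc₁0 : ∀ i, c₁ i ≠ 0 := fun i h => hc1 i ((hz1 _).mp h)
  have hζ20 : g₂ ζ ≠ 0 := by
    intro h
    have := zeta_pow (g₂ ζ) hζ2
    rw [h, zero_pow hqpos.ne'] at this
    exact zero_ne_one this
  have hc₂0 : ∀ i, c₂ i ≠ 0 := by
    intro i h
    simp only [hc₂, map_mul, map_pow] at h
    rcases mul_eq_zero.mp h with h | h
    · exact hζ20 (eq_zero_of_pow_eq_zero h)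
    · exact hc2 i ((hz2 _).mp h)
  have hc₂q : ∀ i, c₂ i ^ q = g₂ (c i) ^ q := by
    intro i
    simp only [hc₂, map_mul, map_pow]
    rw [mul_pow, ← pow_mul, mul_comm _ q, pow_mul, zeta_pow _ hζ2, one_pow, one_mul]
  have hinj2 : Function.Injective (fun i => c₂ i ^ q) := by
    intro i j h
    by_contra hne
    apply hd2 i j hne
    rw [← hz2, map_sub, map_pow, map_pow]
    simp only [hc₂q] at h
    exact sub_eq_zero.mpr h
  choose η₂ hη₂ hη₂0 using fun i => exists_root q hqpos hq2' (c₂ i) (hc₂0 i)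
  obtain ⟨p₂, hp₂w, hp₂d, hp₂n⟩ :=
    exists_F (by omega) (g₂ ζ) hζ2 hq2' c₂ hc₂0 hinj2 η₂ hη₂ hη₂0
  -- lift
  have hcop : IsCoprime (Ideal.span {v}) m₂ := by
    rw [Ideal.isCoprime_iff_sup_eq]
    by_contra hne
    obtain ⟨M, hM, hle⟩ := Ideal.exists_le_maximal _ hne
    have h1 : v ∈ M := hle (Ideal.mem_sup_left (Ideal.mem_span_singleton_self v))
    have h2 : m₂ = M := hm2.eq_of_le hM.ne_top (le_sup_right.trans hle)
    exact hvm2 (h2 ▸ h1)
  have hlift : ∀ s : ι → ZMod q, ∃ P : R[X], (P ≠ 0 → q * P.natDegree + wt s < q * d) ∧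
      P.map gA = pA s ∧ P.map g₂ = p₂ s := by
    intro s
    by_cases h0 : pA s = 0 ∧ p₂ s = 0
    · refine ⟨0, fun h => absurd rfl h, ?_, ?_⟩
      · rw [h0.1, Polynomial.map_zero]
      · rw [h0.2, Polynomial.map_zero]
    · obtain ⟨P, hP1, hP2, hP3⟩ := lift2 (Ideal.span {v}) m₂ hcop (pA s) (p₂ s)
        (max (pA s).natDegree (p₂ s).natDegree) (le_max_left _ _) (le_max_right _ _)
      refine ⟨P, fun _ => ?_, hP2, hP3⟩
      have hb : q * max (pA s).natDegree (p₂ s).natDegree + wt s < q * d := by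
        rcases le_total (pA s).natDegree (p₂ s).natDegree with hle | hle
        · rw [max_eq_right hle]
          by_cases h2 : p₂ s = 0
          · have h1 : pA s ≠ 0 := fun h => h0 ⟨h, h2⟩
            have := hpAw s h1
            rw [h2, natDegree_zero] at hle ⊢
            have h3 : (pA s).natDegree = 0 := by omega
            rw [h3] at this
            exact this
          · exact hp₂w s h2
        · rw [max_eq_left hle]
          by_cases h1 : pA s = 0
          · have h2 : p₂ s ≠ 0 := fun h => h0 ⟨h1, h⟩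
            have := hp₂w s h2
            rw [h1, natDegree_zero] at hle ⊢
            have h3 : (p₂ s).natDegree = 0 := by omega
            rw [h3] at this
            exact this
          · exact hpAw s h1
      have : q * P.natDegree ≤ q * max (pA s).natDegree (p₂ s).natDegree :=
        Nat.mul_le_mul_left _ hP1
      omega
  choose P hPw hP1 hP2 using hlift
  have huA : ∀ s, (fam d P s).map gA = fam d pA s := by
    intro s
    rw [fam_map]
    simp only [fam, hP1]
  have hu2 : ∀ s, (fam d P s).map g₂ = fam d p₂ s := by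
    intro s
    rw [fam_map]
    simp only [fam, hP2]
  obtain ⟨hΦm, hΦn⟩ := monic_det (fun i => c i ^ q) d (by omega) P hPw
  set Φ : R[X] := (nmat (fun i => X + C (c i ^ q))
    (fun s => (if s = 0 then X ^ d else 0) + P s)).det with hΦ
  have hΦfam : Φ = (nmat (fun i => X + C (c i ^ q)) (fam d P)).det := rfl
  -- mod `v`
  have hmapA : Φ.map gA = (∏ j, (X - C (gA (b j * u)))) * HA := by
    rw [← hHA, hΦfam]
    have h1 := det_nmat_map (Polynomial.mapRingHom gA) (fun i => X + C (c i ^ q)) (fam d P)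
    simp only [Polynomial.coe_mapRingHom] at h1
    rw [h1]
    congr 2
    · ext1 i
      simp
    · ext1 s
      exact huA s
  obtain ⟨H, hHmap⟩ := Polynomial.map_surjective gA Ideal.Quotient.mk_surjective HA
  have hdecomp : ∃ E : R[X], Φ = (∏ j, (X - C (b j * u))) * H + C (u ^ (2 * k)) * E := by
    have h1 : C v ∣ Φ - (∏ j, (X - C (b j * u))) * H := by
      rw [C_dvd_iff_dvd_coeff]
      intro i
      have h2 : (Φ - (∏ j, (X - C (b j * u))) * H).map gA = 0 := by
        rw [Polynomial.map_sub, hmapA, Polynomial.map_mul, Polynomial.map_prod, hHmap]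
        simp
      have h3 := congrArg (fun f => coeff f i) h2
      simp only [coeff_map, coeff_zero] at h3
      exact Ideal.mem_span_singleton.mp (Ideal.Quotient.eq_zero_iff_mem.mp h3)
    obtain ⟨E, hE⟩ := h1
    exact ⟨E, by rw [← hv, ← hE]; ring⟩
  obtain ⟨E, hE⟩ := hdecomp
  have hle : Ideal.span {v} ≤ m₁ := by
    rw [Ideal.span_le]; simpa using hvm
  set φ : A →+* R ⧸ m₁ := Ideal.Quotient.factor hle with hφ
  have hφg : ∀ x, φ (gA x) = g₁ x := fun x => Ideal.Quotient.factor_mk hle x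
  have hH0 : H.eval 0 ∉ m₁ := by
    intro h
    have h1 : HA.eval 0 = gA (H.eval 0) := by
      rw [← hHmap, Polynomial.eval_map, ← map_zero gA, Polynomial.eval₂_at_apply]
    have h2 : IsUnit (φ (HA.eval 0)) := hHA0.map φ
    rw [h1, hφg, (hz1 _).mpr h] at h2
    exact not_isUnit_zero h2
  obtain ⟨r, hrinj, hrm, hrroot⟩ :=
    henselian_roots m₁ hH u hu1 hu0 k b hb Φ H E hΦm hE hH0
  -- mod `m₂`
  have hmap2 : Φ.map g₂ = (nmat (fun i => X + C (c₂ i ^ q)) (fam d p₂)).det := by
    rw [hΦfam]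
    have h1 := det_nmat_map (Polynomial.mapRingHom g₂) (fun i => X + C (c i ^ q)) (fam d P)
    simp only [Polynomial.coe_mapRingHom] at h1
    rw [h1]
    congr 2
    · ext1 i
      rw [hc₂q i]
      simp
    · ext1 s
      exact hu2 s
  have hXk : X ^ k ∣ Φ.map g₂ := by
    rw [hmap2]
    exact X_pow_dvd_det (g₂ ζ) hζ2 hq2' c₂ hc₂0 η₂ hη₂ hη₂0 k (fam d p₂) hp₂d
  obtain ⟨j, hj⟩ := exists_root_mem g₂ Φ hΦm k (by
    rw [hΦn, ← hn, hk, hd]
    have : 2 * n * q ^ n = n * q ^ n + n * q ^ n := by ring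
    rw [this]
    omega) r hrinj hrroot hXk
  set x := r j with hx
  have hx1 : x ∈ m₁ := hrm j
  have hx2 : x ∈ m₂ := (hz2 _).mp hj
  -- the coordinates `y`
  choose y hy hyc using fun i => henselian_root_near m₁ hH q hqpos hq1 (c i) x (hc1 i) hx1
  have hy0 : ∀ i, y i ≠ 0 := by
    intro i h
    have := hyc i
    rw [h, zero_sub] at this
    exact hc1 i (m₁.neg_mem_iff.mp this)
  have hqR : ((q : ℕ) : R) ≠ 0 := by
    intro h; exact hq1 (by rw [h]; exact m₁.zero_mem)
  have hprod : ∏ δ : ι → ZMod q, ev (tw ζ δ y) (fun s => (fam d P s).eval x) = 0 := by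
    rw [← det_nmat ζ hζ hqR y hy0]
    have h1 := det_nmat_map (Polynomial.evalRingHom x) (fun i => X + C (c i ^ q)) (fam d P)
    simp only [Polynomial.coe_evalRingHom] at h1
    have h2 : (nmat (fun i => X + C (c i ^ q)) (fam d P)).det.eval x = 0 := hrroot j
    rw [← h2, h1]
    congr 2
    ext i
    rw [hy i]
    simp
  obtain ⟨δ, _, hδ⟩ := Finset.prod_eq_zero_iff.mp hprod
  have hδ0 : δ = 0 := by
    by_contra hne
    have h1 := (hpAn δ hne).map φ
    rw [ev_map] at h1
    have h2 := congrArg g₁ hδ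
    rw [ev_map, map_zero] at h2
    apply not_isUnit_zero (M₀ := R ⧸ m₁)
    rw [← h2]
    have e1 : (fun i => g₁ (tw ζ δ y i)) = (fun i => φ (tw (gA ζ) δ (fun i => gA (c i)) i)) := by
      ext i
      simp only [tw, map_mul, map_pow, hφg]
      congr 1
      exact Ideal.Quotient.eq.mpr (hyc i)
    have e2 : (fun s => g₁ ((fam d P s).eval x))
        = (fun s => φ (((if s = 0 then X ^ (2 * Fintype.card ι) else 0) + pA s : A[X]).eval 0)) := by
      ext s
      have h3 : (fam d pA s).eval 0 = gA ((fam d P s).eval 0) := by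
        rw [← huA s, Polynomial.eval_map, ← map_zero gA, Polynomial.eval₂_at_apply]
      have h4 : g₁ ((fam d P s).eval x) = g₁ ((fam d P s).eval 0) := by
        have h5 : g₁ x = g₁ 0 := by rw [(hz1 x).mpr hx1, map_zero]
        rw [← Polynomial.eval₂_at_apply, ← Polynomial.eval₂_at_apply, h5]
      rw [h4, ← hφg, ← h3]
      rfl
    rw [e1, e2]
    exact h1
  subst hδ0
  have htw0 : tw ζ (0 : ι → ZMod q) y = y := by
    ext i; simp [tw]
  rw [htw0] at hδ
  refine ⟨x, y, hx1, hx2, hy, hyc, ?_⟩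
  have h := reduce_zero g₂ ζ hζ2 hq2' c₂ hc₂0 x hj y (fun i => by
    rw [pow_map_root g₂ _ _ q (hy i), map_add, hj, zero_add, map_pow, hc₂q i]) (fam d P) hδ
    (fun δ' hδ' => by
      have := hp₂n δ' hδ'
      simp only [hu2]
      exact this)
  intro i
  rw [← hz2, map_sub, h i]
  simp [hc₂]

end Pool.Agent.AIC
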