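import Mathlib
import Pool.Agent.AIC.Hensel76

set_option autoImplicit false

namespace Pool.Agent.AIC

open Finset Polynomial IsLocalRing

/-- `k` distinct roots in a henselian local domain, non monic form. -/
theorem henselian_roots_local {S : Type*} [CommRing S] [IsDomain S] [HenselianLocalRing S]
    (u : S) (hu : u ∈ maximalIdeal S) (hu0 : u ≠ 0) (k : ℕ) (b : Fin k → S)
    (hb : ∀ i j, i ≠ j → IsUnit (b i - b j)) (Φ H E : S[X])
    (h : Φ = (∏ j, (X - C (b j * u))) * H + C (u ^ (2 * k)) * E)
    (hH0 : IsUnit (H.eval 0)) :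
    ∃ r : Fin k → S, Function.Injective r ∧ (∀ j, r j ∈ maximalIdeal S) ∧
      ∀ j, Φ.IsRoot (r j) := by
  classical
  -- the root near b_j u
  have key : ∀ j : Fin k, ∃ t ∈ maximalIdeal S, Φ.eval (b j * u + u ^ k * t) = 0 := by
    intro j
    set x : S[X] := C (b j * u) + C (u ^ k) * X with hx
    set A : S[X] := (∏ l ∈ univ.erase j, (C (b j - b l) + C (u ^ (k - 1)) * X)) *
      H.comp x with hA
    set G : S[X] := X * A + C u * E.comp x with hG
    have hkpos : 0 < k := Fin.pos j
    have hG0 : G.eval 0 ∈ maximalIdeal S := by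
      have : G.eval 0 = u * (E.comp x).eval 0 := by simp [hG]
      rw [this]
      exact Ideal.mul_mem_right _ _ hu
    have hHu : IsUnit (H.eval (b j * u)) := by
      have hd : (b j * u - 0) ∣ H.eval (b j * u) - H.eval 0 := sub_dvd_eval_sub _ _ _
      have h1 : H.eval (b j * u) - H.eval 0 ∈ maximalIdeal S :=
        Ideal.mem_of_dvd _ hd (by rw [sub_zero]; exact Ideal.mul_mem_left _ _ hu)
      rw [← residue_ne_zero_iff_isUnit] at hH0 ⊢
      intro hcon
      apply hH0
      have h2 := (residue_eq_zero_iff _).2 h1
      rw [map_sub, hcon, zero_sub, neg_eq_zero] at h2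
      exact h2
    have hA0 : IsUnit (A.eval 0) := by
      rw [hA, eval_mul, eval_prod]
      refine IsUnit.mul ?_ ?_
      · rw [IsUnit.prod_iff]
        intro l hl
        have hne : l ≠ j := ne_of_mem_erase hl
        simp only [eval_add, eval_C, eval_mul, eval_X, mul_zero, add_zero]
        exact hb j l (Ne.symm hne)
      · rw [eval_comp]
        have : x.eval 0 = b j * u := by simp [hx]
        rw [this]
        exact hHu
    have hG1 : IsUnit (G.derivative.eval 0) := by
      have : G.derivative.eval 0 = A.eval 0 + u * (E.comp x).derivative.eval 0 := by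
        simp [hG, derivative_mul]
      rw [this]
      rw [← residue_ne_zero_iff_isUnit, map_add, map_mul,
        (residue_eq_zero_iff u).2 hu, zero_mul, add_zero,
        residue_ne_zero_iff_isUnit]
      exact hA0
    obtain ⟨t, ht, hGt⟩ := hensel_zero G hG0 hG1
    refine ⟨t, ht, ?_⟩
    have hxt : x.eval t = b j * u + u ^ k * t := by simp [hx]
    have hprod : ∏ l, (b j * u + u ^ k * t - b l * u) =
        u ^ (2 * k - 1) * t * ∏ l ∈ univ.erase j, ((b j - b l) + u ^ (k - 1) * t) := by
      rw [← mul_prod_erase univ _ (mem_univ j)]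
      have h1 : ∀ l, (b j * u + u ^ k * t - b l * u) =
          u * ((b j - b l) + u ^ (k - 1) * t) := by
        intro l
        have : u ^ k = u * u ^ (k - 1) := by
          rw [← pow_succ']; congr 1; omega
        rw [this]; ring
      rw [prod_congr rfl (fun l _ => h1 l), prod_mul_distrib, prod_const, card_erase_of_mem
        (mem_univ j), card_univ, Fintype.card_fin]
      have h2 : b j * u + u ^ k * t - b j * u = u ^ k * t := by ring
      rw [h2]
      have h3 : 2 * k - 1 = k + (k - 1) := by omega
      rw [h3, pow_add]; ring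
    have hval : Φ.eval (b j * u + u ^ k * t) = u ^ (2 * k - 1) * G.eval t := by
      rw [h]
      simp only [eval_add, eval_mul, eval_prod, eval_sub, eval_X, eval_C]
      rw [hprod]
      have hGe : G.eval t = t * ((∏ l ∈ univ.erase j, ((b j - b l) + u ^ (k - 1) * t)) *
          H.eval (b j * u + u ^ k * t)) +
          u * E.eval (b j * u + u ^ k * t) := by
        rw [hG]
        simp only [eval_add, eval_mul, eval_X, eval_C, eval_comp, hxt, hA, eval_prod]
      rw [hGe]
      have h4 : u ^ (2 * k) = u ^ (2 * k - 1) * u := by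
        rw [← pow_succ]; congr 1; omega
      rw [h4]; ring
    rw [hval, hGt, mul_zero]
  choose t ht htr using key
  refine ⟨fun j => b j * u + u ^ k * t j, ?_, ?_, htr⟩
  · intro i j hij
    by_contra hne
    have hk2 : 2 ≤ k := by
      have hi := i.2
      have hj := j.2
      have : (i : ℕ) ≠ (j : ℕ) := fun h => hne (Fin.ext h)
      omega
    have e : b i * u + u ^ k * t i = b j * u + u ^ k * t j := hij
    have hk1 : u ^ k = u * u ^ (k - 1) := by
      rw [← pow_succ']; congr 1; omega
    have e2 : b i - b j = u ^ (k - 1) * (t j - t i) := by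
      apply mul_left_cancel₀ hu0
      rw [hk1] at e
      linear_combination e
    have h5 : b i - b j ∈ maximalIdeal S := by
      rw [e2]
      have : u ^ (k - 1) = u * u ^ (k - 2) := by
        rw [← pow_succ']; congr 1; omega
      rw [this, mul_assoc]
      exact Ideal.mul_mem_right _ _ hu
    exact (mem_maximalIdeal _).mp h5 (hb i j hne)
  · intro j
    exact Ideal.add_mem _ (Ideal.mul_mem_left _ _ hu) (Ideal.mul_mem_left _ _ (ht j))

/-- `q`-th roots near a unit in a henselian local ring. -/
theorem henselian_root_near_local {S : Type*} [CommRing S] [HenselianLocalRing S] (q : ℕ)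
    (hq0 : 0 < q) (hq : IsUnit (q : S)) (c x : S) (hc : IsUnit c) (hx : x ∈ maximalIdeal S) :
    ∃ y : S, y ^ q = x + c ^ q ∧ y - c ∈ maximalIdeal S := by
  set f : S[X] := X ^ q - C (x + c ^ q) with hf
  have hfm : f.Monic := monic_X_pow_sub_C _ hq0.ne'
  obtain ⟨y, hy, hyc⟩ := HenselianLocalRing.is_henselian f hfm c
    (by
      have : f.eval c = -x := by simp [hf]
      rw [this]
      exact (maximalIdeal S).neg_mem hx)
    (by
      have : f.derivative.eval c = q * c ^ (q - 1) := by
        rw [hf, derivative_sub, derivative_C, sub_zero, derivative_X_pow]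
        simp
      rw [this]
      exact hq.mul (hc.pow _))
  refine ⟨y, ?_, hyc⟩
  have h1 : f.eval y = 0 := hy
  simp only [hf, eval_sub, eval_pow, eval_X, eval_C] at h1
  exact sub_eq_zero.1 h1

end Pool.Agent.AIC
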