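import Mathlib
import Pool.Agent.AIC.Hensel76
import Pool.Agent.AIC.HenselLoc82
import Pool.Agent.AIC.CommonDen82

/-! Three lemmas without normality of `R`. -/

set_option autoImplicit false

namespace Pool.Agent.AIC

open Finset Polynomial IsLocalRing

/-- copy of `henselian_roots` (Hensel76.lean): the roots live in the localization. -/
theorem henselian_roots_loc {R : Type} [CommRing R] [IsDomain R] (m : Ideal R)
    [m.IsMaximal] (hH : HenselianLocalRing (Localization.AtPrime m)) (u : R) (hu : u ∈ m)
    (hu0 : u ≠ 0) (k : ℕ) (b : Fin k → R) (hb : ∀ i j, i ≠ j → b i - b j ∉ m) (Φ H E : R[X])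
    (h : Φ = (∏ j, (X - C (b j * u))) * H + C (u ^ (2 * k)) * E)
    (hH0 : H.eval 0 ∉ m) :
    ∃ r : Fin k → Localization.AtPrime m, Function.Injective r ∧
      (∀ j, r j ∈ maximalIdeal (Localization.AtPrime m)) ∧
      ∀ j, (Φ.map (algebraMap R (Localization.AtPrime m))).IsRoot (r j) := by
  set α : R →+* Localization.AtPrime m := algebraMap R (Localization.AtPrime m) with hα
  have hmem : ∀ x : R, α x ∈ maximalIdeal (Localization.AtPrime m) ↔ x ∈ m := fun x =>
    IsLocalization.AtPrime.to_map_mem_maximal_iff (Localization.AtPrime m) m x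
  have hunit : ∀ x : R, x ∉ m → IsUnit (α x) := fun x hx => by
    have := (hmem x).not.2 hx
    simpa [mem_maximalIdeal, mem_nonunits_iff] using this
  have hinj : Function.Injective α := IsLocalization.injective _ m.primeCompl_le_nonZeroDivisors
  have hdom : IsDomain (Localization.AtPrime m) :=
    IsLocalization.isDomain_localization m.primeCompl_le_nonZeroDivisors
  refine henselian_roots_local (α u) ((hmem u).2 hu)
    (fun h0 => hu0 (hinj (by rw [h0, map_zero]))) k (fun j => α (b j))
    (fun i j hij => ?_) (Φ.map α) (H.map α) (E.map α) ?_ ?_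
  · rw [← map_sub]
    exact hunit _ (hb i j hij)
  · rw [h]
    simp only [Polynomial.map_add, Polynomial.map_mul, Polynomial.map_prod, Polynomial.map_sub,
      Polynomial.map_X, Polynomial.map_C, map_mul, map_pow, Polynomial.map_pow]
  · have h1 : (H.map α).eval 0 = α (H.eval 0) := by
      rw [← map_zero α, eval_map, eval₂_at_apply]
    rw [h1]
    exact hunit _ hH0

/-- copy of `henselian_root_near` with `x`, `y` in the localization. -/
theorem henselian_near_loc {R : Type} [CommRing R] [IsDomain R]
    (m : Ideal R) [m.IsMaximal] (hH : HenselianLocalRing (Localization.AtPrime m)) (q : ℕ)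
    (hq0 : 0 < q) (hq : (q : R) ∉ m) (c : R) (hc : c ∉ m)
    (x : Localization.AtPrime m) (hx : x ∈ maximalIdeal (Localization.AtPrime m)) :
    ∃ y : Localization.AtPrime m, y ^ q = x + algebraMap R (Localization.AtPrime m) c ^ q ∧
      y - algebraMap R (Localization.AtPrime m) c ∈ maximalIdeal (Localization.AtPrime m) := by
  have hmem : ∀ x : R, algebraMap R (Localization.AtPrime m) x ∈
      maximalIdeal (Localization.AtPrime m) ↔ x ∈ m := fun x =>
    IsLocalization.AtPrime.to_map_mem_maximal_iff (Localization.AtPrime m) m x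
  have hunit : ∀ x : R, x ∉ m → IsUnit (algebraMap R (Localization.AtPrime m) x) := fun x hx => by
    have := (hmem x).not.2 hx
    simpa [mem_maximalIdeal, mem_nonunits_iff] using this
  refine henselian_root_near_local q hq0 ?_ _ x (hunit c hc) hx
  have := hunit _ hq
  rwa [map_natCast] at this

/-- an element of `K` that lies in `R_{m₁}` and in `R_{m₂}` has a denominator outside `m₁`
and `m₂`. -/
theorem common_denom {R : Type} [CommRing R] [IsDomain R] (m₁ m₂ : Ideal R) [m₁.IsMaximal]
    [m₂.IsMaximal] (φ₁ : Localization.AtPrime m₁ →+* FractionRing R)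
    (φ₂ : Localization.AtPrime m₂ →+* FractionRing R)
    (h₁ : ∀ a : R, φ₁ (algebraMap R _ a) = algebraMap R (FractionRing R) a)
    (h₂ : ∀ a : R, φ₂ (algebraMap R _ a) = algebraMap R (FractionRing R) a)
    (x₁ : Localization.AtPrime m₁) (x₂ : Localization.AtPrime m₂) (h : φ₁ x₁ = φ₂ x₂) :
    ∃ a d : R, d ∉ m₁ ∧ d ∉ m₂ ∧ algebraMap R _ d * x₁ = algebraMap R (Localization.AtPrime m₁) a ∧
      algebraMap R _ d * x₂ = algebraMap R (Localization.AtPrime m₂) a := by
  obtain ⟨a, b, hb1, hb2, k1, k2⟩ := common_denominator m₁ m₂ φ₁ φ₂ h₁ h₂ x₁ x₂ h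
  exact ⟨a, b, hb1, hb2, by rw [k1, mul_comm], by rw [k2, mul_comm]⟩

end Pool.Agent.AIC
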