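import Mathlib
import Pool.Agent.AIC.Points2
import Pool.Agent.AIC.Star82

/-!
# The two kinds of sides

`side_hens` : the local data at a maximal ideal with henselian localization.
`side_norm` : the local data at a maximal ideal with integrally closed localization.
-/

set_option autoImplicit false
set_option linter.unusedSectionVars false

namespace Pool.Agent.AIC

open Finset Polynomial IsLocalRing

variable {ι : Type} [Fintype ι] [DecidableEq ι] {q : ℕ} [Fact q.Prime]

/-- Interface of the second side (local data and choice of a root). `c` is the twisted point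
`ζ ^ ε i * c i` at `m₂`. -/
def SecSide {R : Type} [CommRing R] [IsDomain R] (q : ℕ) [Fact q.Prime]
    (m : Ideal R) [m.IsMaximal] (ζ : R) (c : ι → R) : Prop :=
  ∃ (I : Ideal R) (p : (ι → ZMod q) → (R ⧸ I)[X]), I ≤ m ∧
    (∀ M : Ideal R, M.IsMaximal → I ≤ M → M = m) ∧
    (∀ s, p s ≠ 0 → q * (p s).natDegree + wt s < q * (2 * Fintype.card ι)) ∧
    ∀ P : (ι → ZMod q) → R[X], (∀ s, (P s).map (Ideal.Quotient.mk I) = p s) →
      (∀ δ : ι → ZMod q, δ ≠ 0 →
        ev (tw ζ δ c) (fun s => (fam (2 * Fintype.card ι) P s).eval 0) ∉ m) ∧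
      ∀ Φ : R[X], Φ = (nmat (fun i => X + C (c i ^ q)) (fam (2 * Fintype.card ι) P)).det →
        Φ.Monic → Φ.natDegree < 2 * (Fintype.card ι * q ^ Fintype.card ι + 1) →
        ∀ φ : Localization.AtPrime m →+* FractionRing R,
        (∀ a : R, φ (algebraMap R _ a) = algebraMap R (FractionRing R) a) →
        ∀ r : Fin (Fintype.card ι * q ^ Fintype.card ι + 1) → FractionRing R,
        Function.Injective r → (∀ j, (Φ.map (algebraMap R (FractionRing R))).IsRoot (r j)) →
        ∃ j, ∃ x ∈ maximalIdeal (Localization.AtPrime m), φ x = r j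

/-- Interface of the second side (the coordinates). -/
def SecNear {R : Type} [CommRing R] [IsDomain R] (q : ℕ) (m : Ideal R) [m.IsMaximal] : Prop :=
  ∀ φ : Localization.AtPrime m →+* FractionRing R,
    (∀ a : R, φ (algebraMap R _ a) = algebraMap R (FractionRing R) a) →
    ∀ c : R, c ∉ m → ∀ x ∈ maximalIdeal (Localization.AtPrime m), ∀ z : FractionRing R,
      z ^ q = φ x + algebraMap R (FractionRing R) c ^ q →
      ∃ y : Localization.AtPrime m, φ y = z

/-- the local data at a maximal ideal with henselian localization: `k` distinct zeros near `0` in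
the localization, and no twisted zero at `0`. Normality of `R` is not needed. -/
theorem side_hens {R : Type} [CommRing R] [IsDomain R]
    (m : Ideal R) [hm : m.IsMaximal]
    (hH : HenselianLocalRing (Localization.AtPrime m))
    (hu : ∃ u ∈ m, ∀ M : Ideal R, M.IsMaximal → u ∈ M → M = m) (hm0 : ∃ M : Ideal R, M.IsMaximal ∧ M ≠ m)
    (hinf : Infinite (R ⧸ m))
    (hq1 : (q : R) ∉ m) (ζ : R) (hζ : ∑ j ∈ range q, ζ ^ j = 0)
    (hι : 2 ≤ Fintype.card ι)
    (c : ι → R) (hc1 : ∀ i, c i ∉ m) (hd1 : ∀ i j, i ≠ j → c i ^ q - c j ^ q ∉ m) :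
    ∃ (I : Ideal R) (p : (ι → ZMod q) → (R ⧸ I)[X]), I ≤ m ∧
      (∀ M : Ideal R, M.IsMaximal → I ≤ M → M = m) ∧
      (∀ s, p s ≠ 0 → q * (p s).natDegree + wt s < q * (2 * Fintype.card ι)) ∧
      ∀ P : (ι → ZMod q) → R[X], (∀ s, (P s).map (Ideal.Quotient.mk I) = p s) →
        (∀ δ : ι → ZMod q, δ ≠ 0 →
          ev (tw ζ δ c) (fun s => (fam (2 * Fintype.card ι) P s).eval 0) ∉ m) ∧
        (∃ r : Fin (Fintype.card ι * q ^ Fintype.card ι + 1) → Localization.AtPrime m,
          Function.Injective r ∧ (∀ j, r j ∈ maximalIdeal (Localization.AtPrime m)) ∧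
          ∀ j, ((nmat (fun i => X + C (c i ^ q)) (fam (2 * Fintype.card ι) P)).det.map
            (algebraMap R (Localization.AtPrime m))).IsRoot (r j)) := by
  classical
  obtain ⟨u, hu1, huM⟩ := hu
  have hqpos : 0 < q := (Fact.out : q.Prime).pos
  let _ := Ideal.Quotient.field m
  set g : R →+* R ⧸ m := Ideal.Quotient.mk m with hg
  have hz : ∀ x, g x = 0 ↔ x ∈ m := fun x => Ideal.Quotient.eq_zero_iff_mem
  have hu0 : u ≠ 0 := by
    rintro rfl
    obtain ⟨M, hM, hMm⟩ := hm0
    exact hMm (huM M hM M.zero_mem)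
  set n := Fintype.card ι with hn
  set d := 2 * n with hd
  set k := n * q ^ n + 1 with hk
  obtain ⟨b, hb⟩ : ∃ b : Fin k → R, ∀ i j, i ≠ j → b i - b j ∉ m := by
    obtain ⟨f⟩ : Nonempty (Fin k ↪ R ⧸ m) :=
      ⟨(Fin.valEmbedding).trans (Infinite.natEmbedding _)⟩
    choose b hb using fun j => Ideal.Quotient.mk_surjective (f j)
    refine ⟨b, fun i j hij h => hij (f.injective ?_)⟩
    rw [← hb i, ← hb j]
    exact Ideal.Quotient.eq.mpr h
  set v := u ^ (2 * k) with hv
  have hvm : v ∈ m := Ideal.pow_mem_of_mem _ hu1 _ (by omega)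
  have hvM : ∀ M : Ideal R, M.IsMaximal → v ∈ M → M = m := fun M hM h =>
    huM M hM (hM.isPrime.mem_of_pow_mem _ h)
  set A := R ⧸ Ideal.span {v} with hA
  have hAloc : IsLocalRing A := isLocalRing_quot m v hvm hvM
  set gA : R →+* A := Ideal.Quotient.mk (Ideal.span {v}) with hgA
  have hAunit : ∀ x, x ∉ m → IsUnit (gA x) := isUnit_quot m v hvM
  have hζA : ∑ j ∈ range q, (gA ζ) ^ j = 0 := by
    have := congrArg gA hζ
    simpa [map_sum, map_pow] using this
  have hvA : gA v = 0 := Ideal.Quotient.eq_zero_iff_mem.mpr (Ideal.mem_span_singleton_self v)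
  have hnq : 2 ≤ n * q ^ (n - 1) := by
    calc 2 = 2 * 1 := rfl
      _ ≤ n * q ^ (n - 1) := Nat.mul_le_mul hι (Nat.one_le_pow _ _ hqpos)
  have hkle : k + 1 ≤ Fintype.card ι * q ^ Fintype.card ι
      + Fintype.card ι * q ^ (Fintype.card ι - 1) := by
    rw [← hn, hk, add_assoc]
    exact Nat.add_le_add_left hnq _
  obtain ⟨pA, hpAw, ⟨HA, hHA, hHA0⟩, hpAn⟩ := local_F (A := A) (q := q) (ι := ι) (by omega) (gA ζ)
    hζA (by
      have := hAunit _ hq1
      rwa [map_natCast] at this) (fun i => gA (c i)) (fun i => hAunit _ (hc1 i))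
    (fun i j hij => by
      have := hAunit _ (hd1 i j hij)
      rwa [map_sub, map_pow, map_pow] at this) k hkle (fun j => gA (b j * u))
    (fun j => ⟨2 * k, by
      rw [← map_pow, mul_pow, map_mul, hvA, mul_zero]⟩)
  have hle : Ideal.span {v} ≤ m := by
    rw [Ideal.span_le]; simpa using hvm
  refine ⟨Ideal.span {v}, pA, hle, fun M hM hvle => hvM M hM (hvle (Ideal.mem_span_singleton_self v)),
    hpAw, fun P hP1 => ?_⟩
  set φ : A →+* R ⧸ m := Ideal.Quotient.factor hle with hφ
  have hφg : ∀ x, φ (gA x) = g x := fun x => Ideal.Quotient.factor_mk hle x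
  have hP1' : ∀ s, (P s).map gA = pA s := hP1
  have huA : ∀ s, (fam d P s).map gA = fam d pA s := by
    intro s
    rw [fam_map]
    simp only [fam, hP1']
  constructor
  · intro δ hδ hmem
    have h1 := (hpAn δ hδ).map φ
    apply not_isUnit_zero (M₀ := R ⧸ m)
    rw [← (hz _).mpr hmem, ← hφg, ev_map]
    have e2 : (fun s => gA ((fam d P s).eval 0)) = (fun s =>
        ((if s = 0 then X ^ (2 * Fintype.card ι) else 0) + pA s : A[X]).eval 0) := by
      ext s
      have h3 : (fam d pA s).eval 0 = gA ((fam d P s).eval 0) := by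
        rw [← huA s, Polynomial.eval_map, ← map_zero gA, Polynomial.eval₂_at_apply]
      rw [← h3]
      rfl
    have e1 : (fun i => gA (tw ζ δ c i)) = tw (gA ζ) δ (fun i => gA (c i)) := by
      ext i
      simp only [tw, map_mul, map_pow]
    rw [e1, e2]
    exact h1
  · set Φ : R[X] := (nmat (fun i => X + C (c i ^ q)) (fam d P)).det with hΦfam
    have hmapA : Φ.map gA = (∏ j, (X - C (gA (b j * u)))) * HA := by
      rw [← hHA, hΦfam]
      have h1 := det_nmat_map (Polynomial.mapRingHom gA) (fun i => X + C (c i ^ q)) (fam d P)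
      simp only [Polynomial.coe_mapRingHom] at h1
      rw [h1]
      congr 2
      · ext1 i
        simp
      · ext1 s
        exact huA s
    obtain ⟨H, hHmap⟩ := Polynomial.map_surjective gA Ideal.Quotient.mk_surjective HA
    have hdecomp : ∃ E : R[X], Φ = (∏ j, (X - C (b j * u))) * H + C (u ^ (2 * k)) * E := by
      have h1 : C v ∣ Φ - (∏ j, (X - C (b j * u))) * H := by
        rw [C_dvd_iff_dvd_coeff]
        intro i
        have h2 : (Φ - (∏ j, (X - C (b j * u))) * H).map gA = 0 := by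
          rw [Polynomial.map_sub, hmapA, Polynomial.map_mul, Polynomial.map_prod, hHmap]
          simp
        have h3 := congrArg (fun f => coeff f i) h2
        simp only [coeff_map, coeff_zero] at h3
        exact Ideal.mem_span_singleton.mp (Ideal.Quotient.eq_zero_iff_mem.mp h3)
      obtain ⟨E, hE⟩ := h1
      exact ⟨E, by rw [← hv, ← hE]; ring⟩
    obtain ⟨E, hE⟩ := hdecomp
    have hH0 : H.eval 0 ∉ m := by
      intro h
      have h1 : HA.eval 0 = gA (H.eval 0) := by
        rw [← hHmap, Polynomial.eval_map, ← map_zero gA, Polynomial.eval₂_at_apply]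
      have h2 : IsUnit (φ (HA.eval 0)) := hHA0.map φ
      rw [h1, hφg, (hz _).mpr h] at h2
      exact not_isUnit_zero h2
    exact henselian_roots_loc m hH u hu1 hu0 k b hb Φ H E hE hH0

/-- the local data at a maximal ideal, used when the localization is integrally closed. -/
theorem side_norm {R : Type} [CommRing R] [IsDomain R]
    (m : Ideal R) [hm : m.IsMaximal]
    (hq2 : (q : R) ∉ m) (ζ : R) (hζ : ∑ j ∈ range q, ζ ^ j = 0)
    (hι : 2 ≤ Fintype.card ι)
    (c : ι → R) (hc2 : ∀ i, c i ∉ m) (hd2 : ∀ i j, i ≠ j → c i ^ q - c j ^ q ∉ m) :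
    ∃ (I : Ideal R) (p : (ι → ZMod q) → (R ⧸ I)[X]), I ≤ m ∧
      (∀ M : Ideal R, M.IsMaximal → I ≤ M → M = m) ∧
      (∀ s, p s ≠ 0 → q * (p s).natDegree + wt s < q * (2 * Fintype.card ι)) ∧
      ∀ P : (ι → ZMod q) → R[X], (∀ s, (P s).map (Ideal.Quotient.mk I) = p s) →
        (∀ δ : ι → ZMod q, δ ≠ 0 →
          ev (tw ζ δ c) (fun s => (fam (2 * Fintype.card ι) P s).eval 0) ∉ m) ∧
        X ^ (Fintype.card ι * q ^ Fintype.card ι + 1) ∣
          (nmat (fun i => X + C (c i ^ q)) (fam (2 * Fintype.card ι) P)).det.map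
            (Ideal.Quotient.mk m) := by
  classical
  have hqpos : 0 < q := (Fact.out : q.Prime).pos
  let _ := Ideal.Quotient.field m
  set g₂ : R →+* R ⧸ m := Ideal.Quotient.mk m with hg₂
  have hz2 : ∀ x, g₂ x = 0 ↔ x ∈ m := fun x => Ideal.Quotient.eq_zero_iff_mem
  have hζ2 : ∑ j ∈ range q, (g₂ ζ) ^ j = 0 := by
    have := congrArg g₂ hζ
    simpa [map_sum, map_pow] using this
  have hq2' : ((q : ℕ) : R ⧸ m) ≠ 0 := by
    intro h
    exact hq2 ((hz2 _).mp (by rw [map_natCast]; exact h))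
  have hc₂0 : ∀ i, g₂ (c i) ≠ 0 := fun i h => hc2 i ((hz2 _).mp h)
  have hinj2 : Function.Injective (fun i => g₂ (c i) ^ q) := by
    intro i j h
    by_contra hne
    apply hd2 i j hne
    rw [← hz2, map_sub, map_pow, map_pow]
    exact sub_eq_zero.mpr h
  choose η₂ hη₂ hη₂0 using fun i => exists_root q hqpos hq2' (g₂ (c i)) (hc₂0 i)
  obtain ⟨p₂, hp₂w, hp₂d, hp₂n⟩ :=
    exists_F (by omega) (g₂ ζ) hζ2 hq2' (fun i => g₂ (c i)) hc₂0 hinj2 η₂ hη₂ hη₂0
  refine ⟨m, p₂, le_refl _, fun M hM hle => (hm.eq_of_le hM.ne_top hle).symm, hp₂w,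
    fun P hP2 => ?_⟩
  have hP2' : ∀ s, (P s).map g₂ = p₂ s := hP2
  have hu2 : ∀ s, (fam (2 * Fintype.card ι) P s).map g₂ = fam (2 * Fintype.card ι) p₂ s := by
    intro s
    rw [fam_map]
    simp only [fam, hP2']
  constructor
  · intro δ hδ hmem
    apply hp₂n δ hδ
    have h1 := (hz2 _).mpr hmem
    rw [ev_map] at h1
    have e2 : (fun s => g₂ ((fam (2 * Fintype.card ι) P s).eval 0)) = (fun s =>
        ((if s = 0 then X ^ (2 * Fintype.card ι) else 0) + p₂ s : (R ⧸ m)[X]).eval 0) := by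
      ext s
      have h3 : (fam (2 * Fintype.card ι) p₂ s).eval 0
          = g₂ ((fam (2 * Fintype.card ι) P s).eval 0) := by
        rw [← hu2 s, Polynomial.eval_map, ← map_zero g₂, Polynomial.eval₂_at_apply]
      rw [← h3]
      rfl
    have e1 : (fun i => g₂ (tw ζ δ c i)) = tw (g₂ ζ) δ (fun i => g₂ (c i)) := by
      ext i
      simp only [tw, map_mul, map_pow]
    rw [e1, e2] at h1
    exact h1
  · have hmap2 : (nmat (fun i => X + C (c i ^ q)) (fam (2 * Fintype.card ι) P)).det.map g₂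
        = (nmat (fun i => X + C (g₂ (c i) ^ q)) (fam (2 * Fintype.card ι) p₂)).det := by
      have h1 := det_nmat_map (Polynomial.mapRingHom g₂) (fun i => X + C (c i ^ q))
        (fam (2 * Fintype.card ι) P)
      simp only [Polynomial.coe_mapRingHom] at h1
      rw [h1]
      congr 2
      · ext1 i
        simp
      · ext1 s
        exact hu2 s
    rw [hmap2]
    exact X_pow_dvd_det (g₂ ζ) hζ2 hq2' (fun i => g₂ (c i)) hc₂0 η₂ hη₂ hη₂0 _ (fam _ p₂) hp₂d

end Pool.Agent.AIC
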