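import Mathlib
import Pool.Agent.AIC.DefsD83
import Pool.Agent.AIC.Side76

/-! Stage 6: the interface of the second side with leading coefficient `D`. -/

set_option autoImplicit false
set_option linter.unusedSectionVars false

namespace Pool.Agent.AIC

open Finset Polynomial IsLocalRing

variable {ι : Type} [Fintype ι] [DecidableEq ι] {q : ℕ} [Fact q.Prime]

/-- the twisted values do not vanish at points of the localization near `(x, c)` -/
def NoTwist {R : Type} [CommRing R] [IsDomain R] (q : ℕ) [Fact q.Prime]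
    (m : Ideal R) [m.IsMaximal] (ζ : R) (c : ι → R) (D : R) (P : (ι → ZMod q) → R[X])
    (x : Localization.AtPrime m) : Prop :=
  ∀ y : ι → Localization.AtPrime m,
    (∀ i, y i ^ q = x + algebraMap R (Localization.AtPrime m) (c i) ^ q) →
    (∀ i, y i - algebraMap R (Localization.AtPrime m) (c i) ∈
      maximalIdeal (Localization.AtPrime m)) →
    ∀ δ : ι → ZMod q, δ ≠ 0 →
      ev (tw (algebraMap R (Localization.AtPrime m) ζ) δ y)
        (fun s => ((famD D (2 * Fintype.card ι) P s).map
          (algebraMap R (Localization.AtPrime m))).eval x) ≠ 0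

/-- Interface of a side: local data, and choice of a root among `k` distinct roots in `K`. -/
def SecSideD {R : Type} [CommRing R] [IsDomain R] (q : ℕ) [Fact q.Prime]
    (m : Ideal R) [m.IsMaximal] (ζ : R) (c : ι → R) (D : R) : Prop :=
  ∃ (I : Ideal R) (p : (ι → ZMod q) → (R ⧸ I)[X]), I ≤ m ∧
    (∀ M : Ideal R, M.IsMaximal → I ≤ M → M = m) ∧
    (∀ s, p s ≠ 0 → q * (p s).natDegree + wt s < q * (2 * Fintype.card ι)) ∧
    ∀ P : (ι → ZMod q) → R[X], (∀ s, (P s).map (Ideal.Quotient.mk I) = p s) →
      ∀ Φ : R[X], Φ = (nmat (fun i => X + C (c i ^ q)) (famD D (2 * Fintype.card ι) P)).det →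
        Φ.natDegree < 2 * (Fintype.card ι * q ^ Fintype.card ι + 1) →
        ∀ φ : Localization.AtPrime m →+* FractionRing R,
        (∀ a : R, φ (algebraMap R _ a) = algebraMap R (FractionRing R) a) →
        ∀ r : Fin (Fintype.card ι * q ^ Fintype.card ι + 1) → FractionRing R,
        Function.Injective r → (∀ j, (Φ.map (algebraMap R (FractionRing R))).IsRoot (r j)) →
        ∃ j, ∃ x ∈ maximalIdeal (Localization.AtPrime m), φ x = r j ∧
          NoTwist q m ζ c D P x

/-- Interface of the first side: `k` distinct roots in the localization. -/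
def FirstSideD {R : Type} [CommRing R] [IsDomain R] (q : ℕ) [Fact q.Prime]
    (m : Ideal R) [m.IsMaximal] (ζ : R) (c : ι → R) (D : R) : Prop :=
  ∃ (I : Ideal R) (p : (ι → ZMod q) → (R ⧸ I)[X]), I ≤ m ∧
    (∀ M : Ideal R, M.IsMaximal → I ≤ M → M = m) ∧
    (∀ s, p s ≠ 0 → q * (p s).natDegree + wt s < q * (2 * Fintype.card ι)) ∧
    ∀ P : (ι → ZMod q) → R[X], (∀ s, (P s).map (Ideal.Quotient.mk I) = p s) →
      ∃ r : Fin (Fintype.card ι * q ^ Fintype.card ι + 1) → Localization.AtPrime m,
        Function.Injective r ∧ (∀ j, r j ∈ maximalIdeal (Localization.AtPrime m)) ∧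
        (∀ j, ((nmat (fun i => X + C (c i ^ q)) (famD D (2 * Fintype.card ι) P)).det.map
          (algebraMap R (Localization.AtPrime m))).IsRoot (r j)) ∧
        ∀ j, NoTwist q m ζ c D P (r j)

end Pool.Agent.AIC
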