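import Mathlib
import Pool.Agent.AIC.DefsE83
import Pool.Agent.AIC.CommonDen82
import Pool.Agent.AIC.Star82

/-!
# Assembly of the claim with the interfaces `FirstSideD`, `SecSideD`
-/

set_option autoImplicit false
set_option linter.unusedSectionVars false

namespace Pool.Agent.AIC

open Finset Polynomial IsLocalRing

variable {ι : Type} [Fintype ι] [DecidableEq ι] {q : ℕ} [Fact q.Prime]

theorem zeta_neg {A : Type} [CommRing A] (ζ : A) (hζ : ∑ j ∈ range q, ζ ^ j = 0) (a : ZMod q) :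
    ζ ^ a.val * ζ ^ (-a).val = 1 := by
  have hq : NeZero q := ⟨(Fact.out : q.Prime).ne_zero⟩
  rw [← pow_add]
  have h1 : q ∣ a.val + (-a).val := by
    rw [← ZMod.natCast_eq_zero_iff]
    rw [Nat.cast_add, ZMod.natCast_zmod_val, ZMod.natCast_zmod_val, add_neg_cancel]
  obtain ⟨e, he⟩ := h1
  rw [he, pow_mul, zeta_pow ζ hζ, one_pow]

/-- the family `famD` satisfies the weak weight condition. -/
theorem famD_weight {B : Type} [CommRing B] (D : B) (d : ℕ) (P : (ι → ZMod q) → B[X])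
    (hP : ∀ s, P s ≠ 0 → q * (P s).natDegree + wt s < q * d) (s : ι → ZMod q)
    (hs : famD D d P s ≠ 0) : q * (famD D d P s).natDegree + wt s ≤ q * d := by
  by_cases h0 : s = 0
  · subst h0
    rw [wt_zero, add_zero]
    refine Nat.mul_le_mul_left q ?_
    unfold famD
    rw [if_pos rfl]
    refine (natDegree_add_le _ _).trans (max_le (natDegree_C_mul_X_pow_le D d) ?_)
    by_cases hp : P 0 = 0
    · rw [hp, natDegree_zero]; exact Nat.zero_le _
    · have h1 := hP 0 hp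
      rw [wt_zero, add_zero] at h1
      exact (Nat.lt_of_mul_lt_mul_left h1).le
  · have h1 : famD D d P s = P s := by
      unfold famD
      rw [if_neg h0, zero_add]
    rw [h1] at hs ⊢
    exact (hP s hs).le

/-- degree bound for the determinant. -/
theorem natDegree_det_famD {B : Type} [CommRing B] (b : ι → B) (D : B) (d : ℕ)
    (P : (ι → ZMod q) → B[X])
    (hP : ∀ s, P s ≠ 0 → q * (P s).natDegree + wt s < q * d) :
    (nmat (fun i => X + C (b i)) (famD D d P)).det.natDegree ≤ d * q ^ Fintype.card ι := by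
  have h1 := natDegree_det_le b (famD D d P) (q * d) (famD_weight D d P hP)
  rw [mul_assoc] at h1
  exact Nat.le_of_mul_le_mul_left h1 (Fact.out : q.Prime).pos

/-- at a point without twisted zeros, a zero is near the base point. -/
theorem near_of_noTwist {R : Type} [CommRing R] [IsDomain R] (m : Ideal R) [hm : m.IsMaximal]
    (hq : (q : R) ∉ m) (ζ : R) (hζ : ∑ j ∈ range q, ζ ^ j = 0)
    (c : ι → R) (hc : ∀ i, c i ∉ m) (D : R) (P : (ι → ZMod q) → R[X])
    (x : Localization.AtPrime m) (hx : x ∈ maximalIdeal (Localization.AtPrime m))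
    (hNT : NoTwist q m ζ c D P x) (y : ι → Localization.AtPrime m)
    (hy : ∀ i, y i ^ q = x + algebraMap R (Localization.AtPrime m) (c i) ^ q)
    (hev : ev y (fun s => ((famD D (2 * Fintype.card ι) P s).map
          (algebraMap R (Localization.AtPrime m))).eval x) = 0) (i : ι) :
    y i - algebraMap R (Localization.AtPrime m) (c i) ∈
      maximalIdeal (Localization.AtPrime m) := by
  set α : R →+* Localization.AtPrime m := algebraMap R (Localization.AtPrime m) with hα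
  set ρ := residue (Localization.AtPrime m) with hρ
  have hmem : ∀ x : R, α x ∈ maximalIdeal (Localization.AtPrime m) ↔ x ∈ m := fun x =>
    IsLocalization.AtPrime.to_map_mem_maximal_iff (Localization.AtPrime m) m x
  have hnz : ∀ x : R, x ∉ m → ρ (α x) ≠ 0 := fun x hx h =>
    hx ((hmem _).1 ((residue_eq_zero_iff _).1 h))
  have hρx : ρ x = 0 := (residue_eq_zero_iff _).2 hx
  have hζ1 : ∑ j ∈ range q, (α ζ) ^ j = 0 := by
    have := congrArg α hζ
    simpa [map_sum, map_pow] using this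
  have hζ2 : ∑ j ∈ range q, (ρ (α ζ)) ^ j = 0 := by
    have := congrArg (fun z => ρ (α z)) hζ
    simpa [map_sum, map_pow] using this
  have hq2 : (q : ResidueField (Localization.AtPrime m)) ≠ 0 := by
    have := hnz _ hq
    rwa [map_natCast, map_natCast] at this
  have hyq : ∀ i, ρ (y i) ^ q = ρ (α (c i)) ^ q := by
    intro i
    rw [← map_pow, hy i, map_add, hρx, zero_add, map_pow]
  choose a ha using fun i => zeta_root (ρ (α ζ)) hζ2 hq2 (ρ (y i)) (ρ (α (c i)))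
    (hnz _ (hc i)) (hyq i)
  have ha0 : a = 0 := by
    by_contra hne
    refine hNT (tw (α ζ) (-a) y) (fun i => ?_) (fun i => ?_) a hne ?_
    · rw [tw_pow (α ζ) hζ1, hy i]
    · rw [← residue_eq_zero_iff, map_sub, sub_eq_zero]
      change ρ ((α ζ) ^ ((-a) i).val * y i) = ρ (α (c i))
      have h1 := zeta_neg (ρ (α ζ)) hζ2 (a i)
      rw [map_mul, map_pow, ha i, ← mul_assoc, Pi.neg_apply, mul_comm (ρ (α ζ) ^ (-a i).val), h1,
        one_mul]
    · have h1 : tw (α ζ) a (tw (α ζ) (-a) y) = y := by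
        ext i
        change (α ζ) ^ (a i).val * ((α ζ) ^ ((-a) i).val * y i) = y i
        rw [← mul_assoc, Pi.neg_apply, zeta_neg (α ζ) hζ1, one_mul]
      rw [h1]
      exact hev
  rw [← residue_eq_zero_iff, map_sub, sub_eq_zero]
  change ρ (y i) = ρ (α (c i))
  rw [ha i, ha0]
  simp

/-- the lift of two families of polynomials with the weight bound. -/
theorem lift_weight {R : Type} [CommRing R] (I₁ I₂ : Ideal R) (hcop : IsCoprime I₁ I₂) (w : ℕ)
    (p₁ : (ι → ZMod q) → (R ⧸ I₁)[X]) (p₂ : (ι → ZMod q) → (R ⧸ I₂)[X])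
    (h₁ : ∀ s, p₁ s ≠ 0 → q * (p₁ s).natDegree + wt s < w)
    (h₂ : ∀ s, p₂ s ≠ 0 → q * (p₂ s).natDegree + wt s < w) (s : ι → ZMod q) :
    ∃ P : R[X], (P ≠ 0 → q * P.natDegree + wt s < w) ∧
      P.map (Ideal.Quotient.mk I₁) = p₁ s ∧ P.map (Ideal.Quotient.mk I₂) = p₂ s := by
  by_cases h0 : p₁ s = 0 ∧ p₂ s = 0
  · refine ⟨0, fun h => absurd rfl h, ?_, ?_⟩
    · rw [h0.1, Polynomial.map_zero]
    · rw [h0.2, Polynomial.map_zero]
  · obtain ⟨P, hP1, hP2, hP3⟩ := lift2 I₁ I₂ hcop (p₁ s) (p₂ s)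
      (max (p₁ s).natDegree (p₂ s).natDegree) (le_max_left _ _) (le_max_right _ _)
    refine ⟨P, fun _ => ?_, hP2, hP3⟩
    have hb : q * max (p₁ s).natDegree (p₂ s).natDegree + wt s < w := by
      rcases le_total (p₁ s).natDegree (p₂ s).natDegree with hle | hle
      · rw [max_eq_right hle]
        by_cases h2 : p₂ s = 0
        · have h1 : p₁ s ≠ 0 := fun h => h0 ⟨h, h2⟩
          have := h₁ s h1
          rw [h2, natDegree_zero] at hle ⊢
          have h3 : (p₁ s).natDegree = 0 := by omega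
          rw [h3] at this
          exact this
        · exact h₂ s h2
      · rw [max_eq_left hle]
        by_cases h1 : p₁ s = 0
        · have h2 : p₂ s ≠ 0 := fun h => h0 ⟨h1, h⟩
          have := h₂ s h2
          rw [h1, natDegree_zero] at hle ⊢
          have h3 : (p₂ s).natDegree = 0 := by omega
          rw [h3] at this
          exact this
        · exact h₁ s h1
    have : q * P.natDegree ≤ q * max (p₁ s).natDegree (p₂ s).natDegree :=
      Nat.mul_le_mul_left _ hP1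
    omega

/-- the last step: common denominators. -/
theorem pattern_of_points {R : Type} [CommRing R] [IsDomain R]
    (m₁ m₂ : Ideal R) [hm1 : m₁.IsMaximal] [hm2 : m₂.IsMaximal]
    (c c' : ι → R)
    (φ₁ : Localization.AtPrime m₁ →+* FractionRing R)
    (φ₂ : Localization.AtPrime m₂ →+* FractionRing R)
    (hφ₁ : ∀ a : R, φ₁ (algebraMap R _ a) = algebraMap R (FractionRing R) a)
    (hφ₂ : ∀ a : R, φ₂ (algebraMap R _ a) = algebraMap R (FractionRing R) a)
    (x₁ : Localization.AtPrime m₁) (x₂ : Localization.AtPrime m₂)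
    (hx₁ : x₁ ∈ maximalIdeal (Localization.AtPrime m₁))
    (hx₂ : x₂ ∈ maximalIdeal (Localization.AtPrime m₂)) (hx : φ₁ x₁ = φ₂ x₂)
    (y₁ : ι → Localization.AtPrime m₁) (y₂ : ι → Localization.AtPrime m₂)
    (hy : ∀ i, φ₁ (y₁ i) = φ₂ (y₂ i))
    (hy₁ : ∀ i, y₁ i ^ q = x₁ + algebraMap R (Localization.AtPrime m₁) (c i) ^ q)
    (hy₁c : ∀ i, y₁ i - algebraMap R (Localization.AtPrime m₁) (c i) ∈
      maximalIdeal (Localization.AtPrime m₁))
    (hy₂c : ∀ i, y₂ i - algebraMap R (Localization.AtPrime m₂) (c' i) ∈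
      maximalIdeal (Localization.AtPrime m₂)) :
    ∃ (a b : R) (s t : ι → R), a ∈ m₁ ∧ a ∈ m₂ ∧ b ∉ m₁ ∧ b ∉ m₂ ∧
      (∀ i, t i ∉ m₁) ∧ (∀ i, t i ∉ m₂) ∧
      (∀ i, s i ^ q * b = (a + c i ^ q * b) * t i ^ q) ∧
      (∀ i, s i - c i * t i ∈ m₁) ∧ (∀ i, s i - c' i * t i ∈ m₂) := by
  set α₁ : R →+* Localization.AtPrime m₁ := algebraMap R (Localization.AtPrime m₁) with hα₁
  set α₂ : R →+* Localization.AtPrime m₂ := algebraMap R (Localization.AtPrime m₂) with hα₂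
  have hmem₁ : ∀ x : R, α₁ x ∈ maximalIdeal (Localization.AtPrime m₁) ↔ x ∈ m₁ := fun x =>
    IsLocalization.AtPrime.to_map_mem_maximal_iff (Localization.AtPrime m₁) m₁ x
  have hmem₂ : ∀ x : R, α₂ x ∈ maximalIdeal (Localization.AtPrime m₂) ↔ x ∈ m₂ := fun x =>
    IsLocalization.AtPrime.to_map_mem_maximal_iff (Localization.AtPrime m₂) m₂ x
  have hα₁inj : Function.Injective α₁ :=
    IsLocalization.injective _ m₁.primeCompl_le_nonZeroDivisors
  obtain ⟨a, b, hb1, hb2, hab1, hab2⟩ := common_denom m₁ m₂ φ₁ φ₂ hφ₁ hφ₂ x₁ x₂ hx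
  choose s t ht1 ht2 hst1 hst2 using fun i =>
    common_denom m₁ m₂ φ₁ φ₂ hφ₁ hφ₂ (y₁ i) (y₂ i) (hy i)
  refine ⟨a, b, s, t, ?_, ?_, hb1, hb2, ht1, ht2, ?_, ?_, ?_⟩
  · rw [← hmem₁]
    change algebraMap R (Localization.AtPrime m₁) a ∈ _
    rw [← hab1]
    exact Ideal.mul_mem_left _ _ hx₁
  · rw [← hmem₂]
    change algebraMap R (Localization.AtPrime m₂) a ∈ _
    rw [← hab2]
    exact Ideal.mul_mem_left _ _ hx₂
  · intro i
    apply hα₁inj
    have h1 : α₁ (s i) = α₁ (t i) * y₁ i := (hst1 i).symm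
    have h2 : α₁ a = α₁ b * x₁ := hab1.symm
    rw [map_mul, map_mul, map_add, map_mul, map_pow, map_pow, map_pow, h1, h2, mul_pow, hy₁ i]
    ring
  · intro i
    rw [← hmem₁]
    have h1 : α₁ (s i) = α₁ (t i) * y₁ i := (hst1 i).symm
    have h2 : α₁ (s i - c i * t i) = α₁ (t i) * (y₁ i - α₁ (c i)) := by
      rw [map_sub, map_mul, h1]; ring
    rw [h2]
    exact Ideal.mul_mem_left _ _ (hy₁c i)
  · intro i
    rw [← hmem₂]
    have h1 : α₂ (s i) = α₂ (t i) * y₂ i := (hst2 i).symm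
    have h2 : α₂ (s i - c' i * t i) = α₂ (t i) * (y₂ i - α₂ (c' i)) := by
      rw [map_sub, map_mul, h1]; ring
    rw [h2]
    exact Ideal.mul_mem_left _ _ (hy₂c i)

theorem coprime_of_sides {R : Type} [CommRing R] (m₁ m₂ : Ideal R) (h12 : m₁ ≠ m₂)
    (I₁ I₂ : Ideal R) (h1 : ∀ M : Ideal R, M.IsMaximal → I₁ ≤ M → M = m₁)
    (h2 : ∀ M : Ideal R, M.IsMaximal → I₂ ≤ M → M = m₂) : IsCoprime I₁ I₂ := by
  rw [Ideal.isCoprime_iff_sup_eq]
  by_contra hne
  obtain ⟨M, hM, hle⟩ := Ideal.exists_le_maximal _ hne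
  exact h12 ((h1 M hM (le_sup_left.trans hle)).symm.trans (h2 M hM (le_sup_right.trans hle)))

theorem zeta_not_mem {R : Type} [CommRing R] (m : Ideal R) [hm : m.IsMaximal] (ζ : R)
    (hζ : ∑ j ∈ range q, ζ ^ j = 0) : ζ ∉ m := by
  intro h
  have h1 : ζ ^ q = 1 := zeta_pow ζ hζ
  have h2 : ζ ^ q ∈ m := Ideal.pow_mem_of_mem _ h _ (Fact.out : q.Prime).pos
  rw [h1] at h2
  exact hm.ne_top ((Ideal.eq_top_iff_one _).2 h2)

/-- **assembly** of the pattern from a first side at `m₁` (henselian localization) and a second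
side at `m₂`. -/
theorem assembleD {R : Type} [CommRing R] [IsDomain R]
    (m₁ m₂ : Ideal R) [hm1 : m₁.IsMaximal] [hm2 : m₂.IsMaximal] (h12 : m₁ ≠ m₂)
    (hH : HenselianLocalRing (Localization.AtPrime m₁))
    (hq1 : (q : R) ∉ m₁) (hq2 : (q : R) ∉ m₂) (ζ : R) (hζ : ∑ j ∈ range q, ζ ^ j = 0)
    (c : ι → R) (hc1 : ∀ i, c i ∉ m₁) (hc2 : ∀ i, c i ∉ m₂)
    (ε : ι → ZMod q) (D : R)
    (h1 : FirstSideD q m₁ ζ c D)
    (h2 : SecSideD q m₂ ζ (fun i => ζ ^ (ε i).val * c i) D) (hN : SecNear q m₂) :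
    ∃ (a b : R) (s t : ι → R), a ∈ m₁ ∧ a ∈ m₂ ∧ b ∉ m₁ ∧ b ∉ m₂ ∧
      (∀ i, t i ∉ m₁) ∧ (∀ i, t i ∉ m₂) ∧
      (∀ i, s i ^ q * b = (a + c i ^ q * b) * t i ^ q) ∧
      (∀ i, s i - c i * t i ∈ m₁) ∧ (∀ i, s i - ζ ^ (ε i).val * c i * t i ∈ m₂) := by
  classical
  have hqpos : 0 < q := (Fact.out : q.Prime).pos
  obtain ⟨I₁, p₁, hI1m, hI1M, hp1w, H1⟩ := h1
  obtain ⟨I₂, p₂, hI2m, hI2M, hp2w, H2⟩ := h2
  have hcop : IsCoprime I₁ I₂ := coprime_of_sides m₁ m₂ h12 I₁ I₂ hI1M hI2M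
  choose P hPw hP1 hP2 using lift_weight I₁ I₂ hcop (q * (2 * Fintype.card ι)) p₁ p₂ hp1w hp2w
  obtain ⟨r, hrinj, hrm, hrroot, hNT1⟩ := H1 P hP1
  have H2' := H2 P hP2
  set Φ : R[X] := (nmat (fun i => X + C (c i ^ q)) (famD D (2 * Fintype.card ι) P)).det with hΦ
  have hcq : ∀ i, (ζ ^ (ε i).val * c i) ^ q = c i ^ q := fun i => tw_pow ζ hζ ε c i
  have hΦn' : Φ.natDegree < 2 * (Fintype.card ι * q ^ Fintype.card ι + 1) := by
    have h1 : Φ.natDegree ≤ 2 * Fintype.card ι * q ^ Fintype.card ι :=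
      natDegree_det_famD (fun i => c i ^ q) D (2 * Fintype.card ι) P hPw
    have h2 : 2 * Fintype.card ι * q ^ Fintype.card ι
        = 2 * (Fintype.card ι * q ^ Fintype.card ι) := by ring
    omega
  obtain ⟨φ₁, hφ₁, hφ₁inj⟩ := loc_to_frac m₁
  obtain ⟨φ₂, hφ₂, hφ₂inj⟩ := loc_to_frac m₂
  have hφ₁c : φ₁.comp (algebraMap R (Localization.AtPrime m₁)) = algebraMap R (FractionRing R) :=
    RingHom.ext hφ₁
  have hφ₂c : φ₂.comp (algebraMap R (Localization.AtPrime m₂)) = algebraMap R (FractionRing R) :=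
    RingHom.ext hφ₂
  obtain ⟨j, x₂, hx₂, hjx, hNT2⟩ := H2' Φ (by
      rw [hΦ]
      congr 2
      ext1 i
      rw [hcq i]) hΦn' φ₂ hφ₂ (fun j => φ₁ (r j)) (hφ₁inj.comp hrinj) (fun j => by
      have h1 : eval₂ (algebraMap R (Localization.AtPrime m₁)) (r j) Φ = 0 := by
        have := hrroot j
        rwa [IsRoot.def, eval_map] at this
      have h2 := congrArg φ₁ h1
      rw [hom_eval₂, hφ₁c, map_zero] at h2
      rw [IsRoot.def, eval_map]
      exact h2)
  set x₁ := r j with hx₁def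
  have hx₁ : x₁ ∈ maximalIdeal (Localization.AtPrime m₁) := hrm j
  have hNT1j : NoTwist q m₁ ζ c D P x₁ := hNT1 j
  set α₁ : R →+* Localization.AtPrime m₁ := algebraMap R (Localization.AtPrime m₁) with hα₁
  set α₂ : R →+* Localization.AtPrime m₂ := algebraMap R (Localization.AtPrime m₂) with hα₂
  have hmem₁ : ∀ x : R, α₁ x ∈ maximalIdeal (Localization.AtPrime m₁) ↔ x ∈ m₁ := fun x =>
    IsLocalization.AtPrime.to_map_mem_maximal_iff (Localization.AtPrime m₁) m₁ x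
  have hα₁inj : Function.Injective α₁ :=
    IsLocalization.injective _ m₁.primeCompl_le_nonZeroDivisors
  have hdom₁ : IsDomain (Localization.AtPrime m₁) := hφ₁inj.isDomain φ₁
  -- the coordinates at `m₁`
  choose y₁ hy₁ hy₁c using fun i => henselian_near_loc m₁ hH q hqpos hq1 (c i) (hc1 i) x₁ hx₁
  have hy₁0 : ∀ i, y₁ i ≠ 0 := by
    intro i h
    have h1 := hy₁c i
    rw [h, zero_sub] at h1
    exact hc1 i ((hmem₁ _).1 (neg_mem_iff.1 h1))
  have hqS : ((q : ℕ) : Localization.AtPrime m₁) ≠ 0 := by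
    intro h
    apply hq1
    have : α₁ (q : R) = α₁ 0 := by rw [map_natCast, h, map_zero]
    rw [hα₁inj this]
    exact m₁.zero_mem
  have hζS : ∑ j ∈ range q, (α₁ ζ) ^ j = 0 := by
    have := congrArg α₁ hζ
    simpa [map_sum, map_pow] using this
  have hprod : ∏ δ : ι → ZMod q, ev (tw (α₁ ζ) δ y₁)
      (fun s => ((famD D (2 * Fintype.card ι) P s).map α₁).eval x₁) = 0 := by
    rw [← det_nmat (α₁ ζ) hζS hqS y₁ hy₁0]
    have h1 := det_nmat_map (Polynomial.eval₂RingHom α₁ x₁) (fun i => X + C (c i ^ q))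
      (famD D (2 * Fintype.card ι) P)
    simp only [Polynomial.coe_eval₂RingHom] at h1
    have h2 : eval₂ α₁ x₁ (nmat (fun i => X + C (c i ^ q))
        (famD D (2 * Fintype.card ι) P)).det = 0 := by
      have := hrroot j
      rwa [IsRoot.def, eval_map] at this
    rw [← h2, h1]
    congr 2
    · ext i
      rw [hy₁ i, eval₂_add, eval₂_X, eval₂_C, map_pow]
    · ext s
      rw [eval_map]
  obtain ⟨δ, _, hδ⟩ := Finset.prod_eq_zero_iff.mp hprod
  have hδ0 : δ = 0 := by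
    by_contra hne
    exact hNT1j y₁ hy₁ hy₁c δ hne hδ
  subst hδ0
  have htw0 : tw (α₁ ζ) (0 : ι → ZMod q) y₁ = y₁ := by
    ext i; simp [tw]
  rw [htw0] at hδ
  -- the coordinates at `m₂`
  have hyK : ∀ i, (φ₁ (y₁ i)) ^ q = φ₂ x₂ + algebraMap R (FractionRing R) (c i) ^ q := by
    intro i
    rw [← map_pow, hy₁ i, map_add, map_pow, hφ₁, hjx]
  choose y₂ hy₂ using fun i => hN φ₂ hφ₂ (c i) (hc2 i) x₂ hx₂ (φ₁ (y₁ i)) (hyK i)
  have hy₂q : ∀ i, y₂ i ^ q = x₂ + α₂ (c i) ^ q := by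
    intro i
    apply hφ₂inj
    rw [map_pow, hy₂ i, hyK i, map_add, map_pow, hφ₂]
  have hδ2 : ev y₂ (fun s => ((famD D (2 * Fintype.card ι) P s).map α₂).eval x₂) = 0 := by
    apply hφ₂inj
    rw [ev_map, map_zero]
    have h1 := congrArg φ₁ hδ
    rw [ev_map, map_zero] at h1
    refine Eq.trans ?_ h1
    have e1 : (fun i => φ₂ (y₂ i)) = (fun i => φ₁ (y₁ i)) := funext hy₂
    have e2 : (fun s => φ₂ (((famD D (2 * Fintype.card ι) P s).map α₂).eval x₂))
        = (fun s => φ₁ (((famD D (2 * Fintype.card ι) P s).map α₁).eval x₁)) := by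
      ext s
      rw [eval_map, eval_map, hom_eval₂, hom_eval₂, hφ₁c, hφ₂c, hjx]
    rw [e1, e2]
  have hc2' : ∀ i, ζ ^ (ε i).val * c i ∉ m₂ := by
    intro i h
    rcases hm2.isPrime.mem_or_mem h with h | h
    · exact zeta_not_mem m₂ ζ hζ (hm2.isPrime.mem_of_pow_mem _ h)
    · exact hc2 i h
  have hfin := near_of_noTwist m₂ hq2 ζ hζ (fun i => ζ ^ (ε i).val * c i) hc2' D P x₂ hx₂ hNT2 y₂
    (fun i => by
      rw [hy₂q i, ← map_pow, ← map_pow, hcq i]) hδ2
  exact pattern_of_points m₁ m₂ c (fun i => ζ ^ (ε i).val * c i) φ₁ φ₂ hφ₁ hφ₂ x₁ x₂ hx₁ hx₂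
    hjx.symm y₁ y₂ (fun i => (hy₂ i).symm) hy₁ hy₁c hfin

end Pool.Agent.AIC
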