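import Pool.Agent.AIC.Exist

/-! The ideal of denominators of the jets matrix. -/

set_option autoImplicit false
set_option linter.unusedSectionVars false

namespace Pool.Agent.AIC

open Finset Polynomial

section Denom34

variable {ι : Type} [Fintype ι] [DecidableEq ι] {q : ℕ} [Fact q.Prime]
variable {A : Type} [CommRing A]

/-- the jets matrix over any commutative ring: rows are the first `k` coefficients and the twisted
values at `0`, columns are the monomials `X^a y^s`. -/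
noncomputable def jmat34 (ζ : A) (c : ι → A) (η : ι → PowerSeries A) (k : ℕ) :
    Matrix (Fin k ⊕ {δ : ι → ZMod q // δ ≠ 0})
      (Σ s : ι → ZMod q, Fin (2 * Fintype.card ι - wt s / q)) A :=
  fun r x => Sum.elim
    (fun m : Fin k => PowerSeries.coeff (m : ℕ) (PowerSeries.X ^ (x.2 : ℕ) * mono η x.1))
    (fun δ : {δ : ι → ZMod q // δ ≠ 0} => (0 : A) ^ (x.2 : ℕ) * mono (tw ζ δ.1 c) x.1) r

/-- elements `D` such that `D` times the identity factors through the jets matrix. -/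
noncomputable def denI34 (ζ : A) (c : ι → A) (η : ι → PowerSeries A) (k : ℕ) : Ideal A where
  carrier := {D | ∃ G : (Σ s : ι → ZMod q, Fin (2 * Fintype.card ι - wt s / q)) →
    (Fin k ⊕ {δ : ι → ZMod q // δ ≠ 0}) → A, ∀ r' r, ∑ x, jmat34 ζ c η k r' x * G x r =
      if r' = r then D else 0}
  add_mem' := by
    rintro a b ⟨G, hG⟩ ⟨G', hG'⟩
    refine ⟨fun x r => G x r + G' x r, fun r' r => ?_⟩
    simp only [mul_add, Finset.sum_add_distrib, hG, hG']
    split_ifs <;> simp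
  zero_mem' := ⟨fun _ _ => 0, fun r' r => by simp⟩
  smul_mem' := by
    rintro a b ⟨G, hG⟩
    refine ⟨fun x r => a * G x r, fun r' r => ?_⟩
    have h1 : ∑ x, jmat34 ζ c η k r' x * (a * G x r) = a * ∑ x, jmat34 ζ c η k r' x * G x r := by
      rw [Finset.mul_sum]
      exact Finset.sum_congr rfl fun x _ => by ring
    rw [h1, hG]
    split_ifs <;> simp

theorem jmat_map34 {B : Type} [CommRing B] (φ : A →+* B) (ζ : A) (c : ι → A)
    (η : ι → PowerSeries A) (k : ℕ) (r : Fin k ⊕ {δ : ι → ZMod q // δ ≠ 0})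
    (x : Σ s : ι → ZMod q, Fin (2 * Fintype.card ι - wt s / q)) :
    φ (jmat34 ζ c η k r x) =
      jmat34 (φ ζ) (fun i => φ (c i)) (fun i => PowerSeries.map φ (η i)) k r x := by
  rcases r with m | δ
  · unfold jmat34
    simp only [Sum.elim_inl]
    rw [← PowerSeries.coeff_map, map_mul, map_pow, PowerSeries.map_X, mono_map]
  · unfold jmat34
    simp only [Sum.elim_inr]
    rw [map_mul, map_pow, map_zero, mono_map]
    congr 2
    funext i
    simp only [tw, map_mul, map_pow]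

/-- at a prime where the `c_i^q` are distinct the ideal of denominators is not contained. -/
theorem denI_not_le34 (hι : 2 ≤ Fintype.card ι) (ζ : A) (hζ : ∑ j ∈ range q, ζ ^ j = 0)
    (c : ι → A) (η : ι → PowerSeries A)
    (hη : ∀ i, η i ^ q = PowerSeries.X + PowerSeries.C (c i ^ q))
    (hη0 : ∀ i, PowerSeries.constantCoeff (η i) = c i) (P : Ideal A) [hP : P.IsPrime]
    (hq : (q : A) ∉ P) (hc : ∀ i, c i ∉ P) (hd : ∀ i j, i ≠ j → c i ^ q - c j ^ q ∉ P) :
    ∃ D ∈ denI34 (q := q) ζ c η (Fintype.card ι * q ^ Fintype.card ι + 1 + 1), D ∉ P := by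
  classical
  have hqp : q.Prime := Fact.out
  obtain ⟨φ, hφ⟩ : ∃ φ : A →+* FractionRing (A ⧸ P),
      φ = (algebraMap (A ⧸ P) (FractionRing (A ⧸ P))).comp (Ideal.Quotient.mk P) := ⟨_, rfl⟩
  have hφ0 : ∀ x : A, φ x = 0 ↔ x ∈ P := by
    intro x
    rw [hφ, RingHom.comp_apply, map_eq_zero_iff _ (IsFractionRing.injective (A ⧸ P) _),
      Ideal.Quotient.eq_zero_iff_mem]
  obtain ⟨k, hk⟩ : ∃ k, k = Fintype.card ι * q ^ Fintype.card ι + 1 := ⟨_, rfl⟩
  rw [← hk]
  have hnP : 2 ≤ Fintype.card ι * q ^ (Fintype.card ι - 1) := by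
    calc 2 = 2 * 1 := rfl
      _ ≤ _ := Nat.mul_le_mul hι (Nat.one_le_pow _ _ hqp.pos)
  have hQ2 : 2 ≤ q ^ Fintype.card ι := by
    calc 2 ≤ q := hqp.two_le
      _ = q ^ 1 := (pow_one q).symm
      _ ≤ q ^ Fintype.card ι := Nat.pow_le_pow_right hqp.pos (by omega)
  have h2k : 2 * Fintype.card ι ≤ k := by
    rw [hk, mul_comm 2]
    exact (Nat.mul_le_mul_left _ hQ2).trans (Nat.le_succ _)
  have htop := span_top34 (κ := FractionRing (A ⧸ P)) (q := q) (by omega) (φ ζ)
    (by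
      have := congrArg φ hζ
      simpa [map_sum, map_pow] using this)
    (by
      intro h
      apply hq
      rw [← hφ0, map_natCast]
      exact h)
    (fun i => φ (c i)) (fun i h => hc i ((hφ0 _).1 h))
    (by
      intro i j h
      by_contra hne
      apply hd i j hne
      rw [← hφ0, map_sub, map_pow, map_pow]
      exact sub_eq_zero.mpr h)
    (fun i => PowerSeries.map φ (η i))
    (fun i => by rw [← map_pow, hη, map_add, PowerSeries.map_X, PowerSeries.map_C, map_pow])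
    (fun i => by rw [← PowerSeries.coeff_zero_eq_constantCoeff_apply, PowerSeries.coeff_map,
      PowerSeries.coeff_zero_eq_constantCoeff_apply, hη0])
    k (by omega) (by omega) h2k
  have hcol : ∀ r : Fin (k + 1) ⊕ {δ : ι → ZMod q // δ ≠ 0},
      ∃ a : (Σ s : ι → ZMod q, Fin (2 * Fintype.card ι - wt s / q)) → FractionRing (A ⧸ P),
        ∀ r', ∑ x, φ (jmat34 ζ c η (k + 1) r' x) * a x = if r' = r then 1 else 0 := by
    intro r
    have hmem : (Pi.single r 1 : Fin (k + 1) ⊕ {δ : ι → ZMod q // δ ≠ 0} → FractionRing (A ⧸ P)) ∈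
        Submodule.span (FractionRing (A ⧸ P)) (Set.range (vec34 (q := q) (φ ζ)
          (fun i => φ (c i)) (fun i => PowerSeries.map φ (η i)) (k + 1))) := by
      rw [htop]
      exact Submodule.mem_top
    rw [Submodule.mem_span_range_iff_exists_fun] at hmem
    obtain ⟨a, ha⟩ := hmem
    refine ⟨a, fun r' => ?_⟩
    have h1 := congrFun ha r'
    rw [Finset.sum_apply, Pi.single_apply] at h1
    rw [← h1]
    refine Finset.sum_congr rfl fun x _ => ?_
    rw [jmat_map34, Pi.smul_apply, smul_eq_mul, mul_comm]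
    rfl
  choose a ha using hcol
  obtain ⟨b, hb⟩ := IsLocalization.exist_integer_multiples_of_finset (nonZeroDivisors (A ⧸ P))
    ((Finset.univ : Finset ((Fin (k + 1) ⊕ {δ : ι → ZMod q // δ ≠ 0}) ×
      (Σ s : ι → ZMod q, Fin (2 * Fintype.card ι - wt s / q)))).image fun z => a z.1 z.2)
  obtain ⟨b0, hb0⟩ := Ideal.Quotient.mk_surjective (b : A ⧸ P)
  have hb0' : φ b0 ≠ 0 := by
    rw [hφ, RingHom.comp_apply, hb0]
    exact (map_ne_zero_iff _ (IsFractionRing.injective (A ⧸ P) _)).2 (nonZeroDivisors.coe_ne_zero b)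
  have hg : ∀ (r : Fin (k + 1) ⊕ {δ : ι → ZMod q // δ ≠ 0})
      (x : Σ s : ι → ZMod q, Fin (2 * Fintype.card ι - wt s / q)), ∃ g : A,
      φ g = φ b0 * a r x := by
    intro r x
    obtain ⟨t, ht⟩ := hb (a r x) (Finset.mem_image_of_mem (fun z => a z.1 z.2)
      (Finset.mem_univ (r, x)))
    obtain ⟨g, hg⟩ := Ideal.Quotient.mk_surjective t
    refine ⟨g, ?_⟩
    rw [hφ, RingHom.comp_apply, RingHom.comp_apply, hg, hb0, ht, Algebra.smul_def]
  choose g hg using hg
  obtain ⟨Y, hY⟩ : ∃ Y : Matrix (Fin (k + 1) ⊕ {δ : ι → ZMod q // δ ≠ 0})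
      (Fin (k + 1) ⊕ {δ : ι → ZMod q // δ ≠ 0}) A,
      Y = fun r' r => ∑ x, jmat34 ζ c η (k + 1) r' x * g r x := ⟨_, rfl⟩
  have hJG : φ.mapMatrix Y = φ b0 • (1 : Matrix (Fin (k + 1) ⊕ {δ : ι → ZMod q // δ ≠ 0})
      (Fin (k + 1) ⊕ {δ : ι → ZMod q // δ ≠ 0}) (FractionRing (A ⧸ P))) := by
    ext r' r
    rw [RingHom.mapMatrix_apply, Matrix.map_apply, hY, map_sum, Matrix.smul_apply,
      Matrix.one_apply, smul_eq_mul, ← ha r r', Finset.mul_sum]
    refine Finset.sum_congr rfl fun x _ => ?_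
    rw [map_mul, hg]
    ring
  have hdet : φ Y.det ≠ 0 := by
    rw [RingHom.map_det, hJG, Matrix.det_smul, Matrix.det_one, mul_one]
    exact pow_ne_zero _ hb0'
  refine ⟨Y.det, ⟨fun x r => ∑ z, g z x * Y.adjugate z r, fun r' r => ?_⟩,
    fun h => hdet ((hφ0 _).2 h)⟩
  have h2 := congrFun (congrFun (Matrix.mul_adjugate Y) r') r
  rw [Matrix.mul_apply, Matrix.smul_apply, Matrix.one_apply, smul_eq_mul, mul_ite, mul_one,
    mul_zero] at h2
  rw [← h2]
  have h3 : ∀ x, jmat34 ζ c η (k + 1) r' x * ∑ z, g z x * Y.adjugate z r =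
      ∑ z, (jmat34 ζ c η (k + 1) r' x * g z x) * Y.adjugate z r := by
    intro x
    rw [Finset.mul_sum]
    exact Finset.sum_congr rfl fun z _ => by ring
  rw [Finset.sum_congr rfl fun x _ => h3 x, Finset.sum_comm]
  refine Finset.sum_congr rfl fun z _ => ?_
  rw [← Finset.sum_mul, hY]

/-- a power of `u` is a denominator. -/
theorem pow_mem_denI34 (hι : 2 ≤ Fintype.card ι) (ζ : A) (hζ : ∑ j ∈ range q, ζ ^ j = 0)
    (c : ι → A) (η : ι → PowerSeries A)
    (hη : ∀ i, η i ^ q = PowerSeries.X + PowerSeries.C (c i ^ q))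
    (hη0 : ∀ i, PowerSeries.constantCoeff (η i) = c i)
    (hq : IsUnit (q : A)) (hc : ∀ i, IsUnit (c i)) (u : A)
    (hd : ∀ i j, i ≠ j → ∃ h : ℕ, c i ^ q - c j ^ q ∣ u ^ h) :
    ∃ e : ℕ, u ^ e ∈ denI34 (q := q) ζ c η (Fintype.card ι * q ^ Fintype.card ι + 1 + 1) := by
  have h1 : u ∈ (denI34 (q := q) ζ c η (Fintype.card ι * q ^ Fintype.card ι + 1 + 1)).radical := by
    rw [Ideal.radical_eq_sInf, Submodule.mem_sInf]
    rintro P ⟨hle, hP⟩
    by_contra hu
    obtain ⟨D, hD, hDP⟩ := denI_not_le34 hι ζ hζ c η hη hη0 P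
      (fun h => hP.ne_top (Ideal.eq_top_of_isUnit_mem _ h hq))
      (fun i h => hP.ne_top (Ideal.eq_top_of_isUnit_mem _ h (hc i)))
      (fun i j hij h => by
        obtain ⟨m, hm⟩ := hd i j hij
        exact hu (hP.mem_of_pow_mem _ (Ideal.mem_of_dvd _ hm h)))
    exact hDP (hle hD)
  exact h1

end Denom34

end Pool.Agent.AIC
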