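import Mathlib
import Pool.Agent.AIC.Norm
import Pool.Agent.AIC.Degree
import Pool.Agent.AIC.PointsAux
import Pool.Agent.AIC.DefsD83
import Pool.Agent.AIC.Denom34

/-! Jets with denominators over any commutative ring. -/

set_option autoImplicit false
set_option linter.unusedSectionVars false

namespace Pool.Agent.AIC

open Finset Polynomial

section JetsDenom34

variable {ι : Type} [Fintype ι] [DecidableEq ι] {q : ℕ} [Fact q.Prime]
variable {A : Type} [CommRing A]

/-- a denominator of the jets matrix gives jets with denominator. -/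
theorem jetsD_of_mem34 (ζ : A) (c : ι → A) (η : ι → PowerSeries A) (k : ℕ) (D : A)
    (hD : D ∈ denI34 (q := q) ζ c η k) :
    JetsD (q := q) ζ c η (2 * Fintype.card ι) k D := by
  classical
  have hqp : q.Prime := Fact.out
  obtain ⟨G, hG⟩ := hD
  intro g w
  obtain ⟨v, hv⟩ : ∃ v : Fin k ⊕ {δ : ι → ZMod q // δ ≠ 0} → A,
      v = Sum.elim (fun m : Fin k => g m) (fun δ => w δ.1) := ⟨_, rfl⟩
  obtain ⟨a, ha⟩ : ∃ a : (Σ s : ι → ZMod q, Fin (2 * Fintype.card ι - wt s / q)) → A,
      a = fun x => ∑ r, G x r * v r := ⟨_, rfl⟩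
  have hsum : ∀ r', ∑ x, a x * jmat34 ζ c η k r' x = D * v r' := by
    intro r'
    have h1 : ∀ x, a x * jmat34 ζ c η k r' x = ∑ r, (jmat34 ζ c η k r' x * G x r) * v r := by
      intro x
      rw [ha, Finset.sum_mul]
      exact Finset.sum_congr rfl fun r _ => by ring
    rw [Finset.sum_congr rfl fun x _ => h1 x, Finset.sum_comm]
    have h2 : ∀ r, ∑ x, (jmat34 ζ c η k r' x * G x r) * v r = (if r' = r then D else 0) * v r := by
      intro r
      rw [← Finset.sum_mul, hG]
    rw [Finset.sum_congr rfl fun r _ => h2 r, Finset.sum_eq_single r']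
    · rw [if_pos rfl]
    · intro b _ hb
      rw [if_neg (Ne.symm hb), zero_mul]
    · intro h
      exact absurd (Finset.mem_univ _) h
  have hl : ∀ m : Fin k, ∑ x, a x * PowerSeries.coeff (m : ℕ)
      (PowerSeries.X ^ (x.2 : ℕ) * mono η x.1) = D * g m := by
    intro m
    have := hsum (Sum.inl m)
    rw [hv] at this
    exact this
  have hr : ∀ δ : {δ : ι → ZMod q // δ ≠ 0},
      ∑ x, a x * ((0 : A) ^ (x.2 : ℕ) * mono (tw ζ δ.1 c) x.1) = D * w δ.1 := by
    intro δ
    have := hsum (Sum.inr δ)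
    rw [hv] at this
    exact this
  refine ⟨fun s => ∑ j : Fin (2 * Fintype.card ι - wt s / q), C (a ⟨s, j⟩) * X ^ (j : ℕ), ?_, ?_, ?_⟩
  · intro s hs
    beta_reduce at hs ⊢
    have hpos : 0 < 2 * Fintype.card ι - wt s / q := by
      rcases Nat.eq_zero_or_pos (2 * Fintype.card ι - wt s / q) with h | h
      · exfalso
        apply hs
        refine Finset.sum_eq_zero fun j _ => ?_
        exact absurd j.2 (by omega)
      · exact h
    have hd : (∑ j : Fin (2 * Fintype.card ι - wt s / q), C (a ⟨s, j⟩) * X ^ (j : ℕ) : A[X]).natDegree ≤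
        2 * Fintype.card ι - wt s / q - 1 := by
      refine Polynomial.natDegree_sum_le_of_forall_le _ _ fun j _ => ?_
      refine (Polynomial.natDegree_C_mul_X_pow_le _ _).trans ?_
      have := j.2
      omega
    have h1 : wt s / q + 1 + (2 * Fintype.card ι - wt s / q - 1) = 2 * Fintype.card ι := by omega
    have h2 : wt s < q * (wt s / q + 1) := by
      have := Nat.div_add_mod (wt s) q
      have h3 := Nat.mod_lt (wt s) hqp.pos
      rw [mul_add, mul_one]
      omega
    calc q * (∑ j : Fin (2 * Fintype.card ι - wt s / q), C (a ⟨s, j⟩) * X ^ (j : ℕ) : A[X]).natDegree + wt s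
        < q * (2 * Fintype.card ι - wt s / q - 1) + q * (wt s / q + 1) :=
          add_lt_add_of_le_of_lt (Nat.mul_le_mul_left q hd) h2
      _ = q * (wt s / q + 1 + (2 * Fintype.card ι - wt s / q - 1)) := by ring
      _ = q * (2 * Fintype.card ι) := by rw [h1]
  · intro m hm
    have h1 : ev η (fun s => ((∑ j : Fin (2 * Fintype.card ι - wt s / q),
        C (a ⟨s, j⟩) * X ^ (j : ℕ) : A[X]) : PowerSeries A)) =
        ∑ x : Σ s : ι → ZMod q, Fin (2 * Fintype.card ι - wt s / q), PowerSeries.C (a x) *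
          (PowerSeries.X ^ (x.2 : ℕ) * mono η x.1) := by
      unfold ev
      rw [Fintype.sum_sigma]
      refine Finset.sum_congr rfl fun s _ => ?_
      beta_reduce
      rw [← Polynomial.coeToPowerSeries.ringHom_apply, map_sum, Finset.sum_mul]
      refine Finset.sum_congr rfl fun j _ => ?_
      simp only [map_mul, map_pow, Polynomial.coeToPowerSeries.ringHom_apply, Polynomial.coe_C,
        Polynomial.coe_X, mul_assoc]
    rw [h1, map_sum]
    have h2 := hl ⟨m, hm⟩
    simp only [PowerSeries.coeff_C_mul]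
    simp only at h2
    rw [h2]
  · intro δ hδ
    rw [← hr ⟨δ, hδ⟩]
    unfold ev
    rw [Fintype.sum_sigma]
    refine Finset.sum_congr rfl fun s _ => ?_
    beta_reduce
    rw [Polynomial.eval_finsetSum, Finset.sum_mul]
    refine Finset.sum_congr rfl fun j _ => ?_
    simp only [Polynomial.eval_mul, Polynomial.eval_C, Polynomial.eval_pow, Polynomial.eval_X, mul_assoc]

/-- `q`-th root of `X + c^q` in `A⟦X⟧` for `q` and `c` units. -/
theorem exists_root_unit34 (hq : IsUnit (q : A)) (c : A) (hc : IsUnit c) :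
    ∃ η : PowerSeries A, η ^ q = PowerSeries.X + PowerSeries.C (c ^ q) ∧
      PowerSeries.constantCoeff η = c := by
  classical
  have hq0 : q ≠ 0 := (Fact.out : q.Prime).ne_zero
  have hH : HenselianRing (PowerSeries A) (Ideal.span {(PowerSeries.X : PowerSeries A)}) :=
    inferInstance
  have hmem : ∀ f : PowerSeries A, f ∈ Ideal.span {(PowerSeries.X : PowerSeries A)} ↔
      PowerSeries.constantCoeff f = 0 := fun f => by
    rw [Ideal.mem_span_singleton, PowerSeries.X_dvd_iff]
  set F : Polynomial (PowerSeries A) :=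
    Polynomial.X ^ q - Polynomial.C (PowerSeries.X + PowerSeries.C (c ^ q)) with hF
  have hmonic : F.Monic := Polynomial.monic_X_pow_sub_C _ hq0
  obtain ⟨η, h1, h2⟩ := hH.is_henselian F hmonic (PowerSeries.C c) (by
      rw [hmem]
      simp [hF]) (by
      have h : Polynomial.eval (PowerSeries.C c) (Polynomial.derivative F)
          = PowerSeries.C ((q : A) * c ^ (q - 1)) := by
        rw [hF, Polynomial.derivative_sub, Polynomial.derivative_C, sub_zero,
          Polynomial.derivative_X_pow]
        simp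
      rw [h]
      have hu : IsUnit (PowerSeries.C ((q : A) * c ^ (q - 1)) : PowerSeries A) :=
        (hq.mul (hc.pow _)).map PowerSeries.C
      exact hu.map _)
  refine ⟨η, ?_, ?_⟩
  · have := h1
    simp only [hF, Polynomial.IsRoot.def, Polynomial.eval_sub, Polynomial.eval_pow,
      Polynomial.eval_X, Polynomial.eval_C] at this
    exact sub_eq_zero.mp this
  · rw [hmem] at h2
    simpa [sub_eq_zero] using h2

/-- jets with a power of `u` as denominator. -/
theorem jetsD_pow34 (hι : 2 ≤ Fintype.card ι) (ζ : A) (hζ : ∑ j ∈ range q, ζ ^ j = 0)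
    (c : ι → A) (hq : IsUnit (q : A)) (hc : ∀ i, IsUnit (c i)) (u : A)
    (hd : ∀ i j, i ≠ j → ∃ h : ℕ, c i ^ q - c j ^ q ∣ u ^ h) :
    ∃ (η : ι → PowerSeries A) (e : ℕ),
      (∀ i, η i ^ q = PowerSeries.X + PowerSeries.C (c i ^ q)) ∧
      (∀ i, PowerSeries.constantCoeff (η i) = c i) ∧
      JetsD (q := q) ζ c η (2 * Fintype.card ι)
        (Fintype.card ι * q ^ Fintype.card ι + 1 + 1) (u ^ e) := by
  choose η hη hη0 using fun i => exists_root_unit34 (q := q) hq (c i) (hc i)
  obtain ⟨e, he⟩ := pow_mem_denI34 hι ζ hζ c η hη hη0 hq hc u hd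
  exact ⟨η, e, hη, hη0, jetsD_of_mem34 ζ c η _ _ he⟩

end JetsDenom34

end Pool.Agent.AIC
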