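import Mathlib
import Pool.Agent.AIC.DefsD83
import Pool.Agent.AIC.JetsDenom34

/-! Stage 6, row (5): the choice of the points `c i = 1 + w ^ (i + 1)`. -/

set_option autoImplicit false
set_option linter.unusedSectionVars false

namespace Pool.Agent.AIC

open Finset

/-- `1 + w * x` is a unit for `w` in every maximal ideal. -/
theorem isUnit_one_add_mul94 {L : Type} [CommRing L] (w : L)
    (hw : ∀ M : Ideal L, M.IsMaximal → w ∈ M) (x : L) : IsUnit (1 + w * x) := by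
  by_contra h
  obtain ⟨M, hM, hm⟩ := exists_max_ideal_of_mem_nonunits h
  have h1 : w * x ∈ M := M.mul_mem_right x (hw M hM)
  have h2 : (1 : L) ∈ M := by
    have := M.sub_mem hm h1
    simpa using this
  exact hM.ne_top ((Ideal.eq_top_iff_one M).2 h2)

/-- a unit plus a multiple of `w` is a unit for `w` in every maximal ideal. -/
theorem isUnit_add_mul94 {L : Type} [CommRing L] (w : L)
    (hw : ∀ M : Ideal L, M.IsMaximal → w ∈ M) (a x : L) (ha : IsUnit a) :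
    IsUnit (a + w * x) := by
  by_contra h
  obtain ⟨M, hM, hm⟩ := exists_max_ideal_of_mem_nonunits h
  have h1 : w * x ∈ M := M.mul_mem_right x (hw M hM)
  have h2 : a ∈ M := by
    have := M.sub_mem hm h1
    simpa using this
  exact hM.ne_top (Ideal.eq_top_of_isUnit_mem M h2 ha)

/-- the `q`-th powers of two elements congruent to `1` modulo `w` have the same difference as the
elements up to a unit. -/
theorem pow_sub_pow_unit94 {L : Type} [CommRing L] (w : L)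
    (hw : ∀ M : Ideal L, M.IsMaximal → w ∈ M) (q : ℕ) (hq : IsUnit (q : L)) (x y : L) :
    ∃ v : L, IsUnit v ∧
      (1 + w * x) ^ q - (1 + w * y) ^ q = w * (x - y) * v := by
  refine ⟨∑ i ∈ range q, (1 + w * x) ^ i * (1 + w * y) ^ (q - 1 - i), ?_, ?_⟩
  · by_contra h
    obtain ⟨M, hM, hm⟩ := exists_max_ideal_of_mem_nonunits h
    have hwM : Ideal.Quotient.mk M w = 0 := Ideal.Quotient.eq_zero_iff_mem.2 (hw M hM)
    have h1 := Ideal.Quotient.eq_zero_iff_mem.2 hm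
    rw [map_sum] at h1
    have h2 : ∑ i ∈ range q, Ideal.Quotient.mk M ((1 + w * x) ^ i * (1 + w * y) ^ (q - 1 - i))
        = Ideal.Quotient.mk M (q : L) := by
      have h3 : ∀ i ∈ range q,
          Ideal.Quotient.mk M ((1 + w * x) ^ i * (1 + w * y) ^ (q - 1 - i)) = 1 := by
        intro i _
        rw [map_mul, map_pow, map_pow, map_add, map_add, map_mul, map_mul, hwM, map_one]
        simp
      rw [sum_congr rfl h3]
      simp
    rw [h2] at h1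
    exact hM.ne_top (Ideal.eq_top_of_isUnit_mem M (Ideal.Quotient.eq_zero_iff_mem.1 h1) hq)
  · rw [← Commute.mul_geom_sum₂ (Commute.all _ _)]
    ring

/-- **the choice of the points**: for `w` in every maximal ideal and `q` a unit the points
`1 + w ^ (i + 1)` are units and the differences of their `q`-th powers divide powers of `w`. -/
theorem exists_cD94 {L : Type} [CommRing L] (w : L)
    (hw : ∀ M : Ideal L, M.IsMaximal → w ∈ M) (q : ℕ) (hq : IsUnit (q : L)) (n : ℕ) :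
    ∃ c : Fin n → L, (∀ i, IsUnit (c i)) ∧ (∀ i, w ∣ c i - 1) ∧
      ∀ i j, i ≠ j → ∃ h : ℕ, c i ^ q - c j ^ q ∣ w ^ h := by
  refine ⟨fun i => 1 + w * w ^ (i : ℕ), fun i => isUnit_one_add_mul94 w hw _, fun i => ?_, ?_⟩
  · exact ⟨w ^ (i : ℕ), by ring⟩
  · -- the case `i < j`
    have key : ∀ i j : Fin n, i < j → ∃ h : ℕ,
        (1 + w * w ^ (i : ℕ)) ^ q - (1 + w * w ^ (j : ℕ)) ^ q ∣ w ^ h := by
      intro i j hij
      obtain ⟨v, hv, hvv⟩ := pow_sub_pow_unit94 w hw q hq (w ^ (i : ℕ)) (w ^ (j : ℕ))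
      obtain ⟨k, hk⟩ : ∃ k, (j : ℕ) = (i : ℕ) + (k + 1) := ⟨(j : ℕ) - i - 1, by
        have : (i : ℕ) < j := hij
        omega⟩
      have h1 : IsUnit (1 + w * (-(w ^ k))) := isUnit_one_add_mul94 w hw _
      obtain ⟨v', hv'⟩ := hv.exists_right_inv
      obtain ⟨u', hu'⟩ := h1.exists_right_inv
      refine ⟨(i : ℕ) + 1, v' * u', ?_⟩
      rw [hvv, hk]
      calc w ^ ((i : ℕ) + 1)
          = w ^ ((i : ℕ) + 1) * ((1 + w * (-(w ^ k))) * u') * (v * v') := by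
            rw [hu', hv']; ring
        _ = w * (w ^ (i : ℕ) - w ^ ((i : ℕ) + (k + 1))) * v * (v' * u') := by ring
    intro i j hij
    rcases lt_or_gt_of_ne hij with h | h
    · exact key i j h
    · obtain ⟨k, hk⟩ := key j i h
      refine ⟨k, ?_⟩
      have : (1 + w * w ^ (i : ℕ)) ^ q - (1 + w * w ^ (j : ℕ)) ^ q
          = -((1 + w * w ^ (j : ℕ)) ^ q - (1 + w * w ^ (i : ℕ)) ^ q) := by ring
      show (1 + w * w ^ (i : ℕ)) ^ q - (1 + w * w ^ (j : ℕ)) ^ q ∣ w ^ k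
      rw [this]
      exact (neg_dvd).2 hk

/-- **row (5)**: points `c` and a common denominator `w ^ e` for the jets at `c` and at the
points `ζ ^ ε * c`. -/
theorem choice_jetsD94 {L : Type} [CommRing L] (w : L)
    (hw : ∀ M : Ideal L, M.IsMaximal → w ∈ M) {q : ℕ} [Fact q.Prime] (hq : IsUnit (q : L))
    (ζ : L) (hζ : ∑ j ∈ range q, ζ ^ j = 0) (n : ℕ) (hn : 2 ≤ n) :
    ∃ c : Fin n → L, (∀ i, IsUnit (c i)) ∧ (∀ i, w ∣ c i - 1) ∧
      (∀ i j, i ≠ j → ∃ h : ℕ, c i ^ q - c j ^ q ∣ w ^ h) ∧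
      ∀ ε : Fin n → ZMod q, ∃ (η₁ η₂ : Fin n → PowerSeries L) (e : ℕ),
        ((∀ i, η₁ i ^ q = PowerSeries.X + PowerSeries.C (c i ^ q)) ∧
          (∀ i, PowerSeries.constantCoeff (η₁ i) = c i) ∧
          JetsD (q := q) ζ c η₁ (2 * n) (n * q ^ n + 1 + 1) (w ^ e)) ∧
        ((∀ i, η₂ i ^ q = PowerSeries.X + PowerSeries.C ((ζ ^ (ε i).val * c i) ^ q)) ∧
          (∀ i, PowerSeries.constantCoeff (η₂ i) = ζ ^ (ε i).val * c i) ∧
          JetsD (q := q) ζ (fun i => ζ ^ (ε i).val * c i) η₂ (2 * n) (n * q ^ n + 1 + 1)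
            (w ^ e)) := by
  obtain ⟨c, hc, hcw, hd⟩ := exists_cD94 w hw q hq n
  refine ⟨c, hc, hcw, hd, fun ε => ?_⟩
  have hcard : Fintype.card (Fin n) = n := Fintype.card_fin n
  have hι : 2 ≤ Fintype.card (Fin n) := by rw [hcard]; exact hn
  have hζq : ∀ k : ℕ, (ζ ^ k) ^ q = 1 := fun k => by
    rw [← pow_mul, mul_comm, pow_mul, zeta_pow ζ hζ, one_pow]
  have hζu : IsUnit ζ := IsUnit.of_pow_eq_one (zeta_pow ζ hζ) (Fact.out : q.Prime).ne_zero
  have hcq : ∀ i, (ζ ^ (ε i).val * c i) ^ q = c i ^ q := fun i => by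
    rw [mul_pow, hζq, one_mul]
  obtain ⟨η₁, e₁, h1, h2, h3⟩ := jetsD_pow34 (q := q) hι ζ hζ c hq hc w hd
  obtain ⟨η₂, e₂, h4, h5, h6⟩ := jetsD_pow34 (q := q) hι ζ hζ (fun i => ζ ^ (ε i).val * c i) hq
    (fun i => (hζu.pow _).mul (hc i)) w (fun i j hij => by
      obtain ⟨h, hh⟩ := hd i j hij
      refine ⟨h, ?_⟩
      show (ζ ^ (ε i).val * c i) ^ q - (ζ ^ (ε j).val * c j) ^ q ∣ w ^ h
      rw [hcq i, hcq j]
      exact hh)
  rw [hcard] at h3 h6
  exact ⟨η₁, η₂, e₁ + e₂, ⟨h1, h2, h3.of_dvd (pow_dvd_pow w (Nat.le_add_right _ _))⟩,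
    ⟨h4, h5, h6.of_dvd (pow_dvd_pow w (Nat.le_add_left _ _))⟩⟩

/-- the decomposition of the denominator at two maximal ideals. -/
theorem pow_mul_pow_notMem94 {L : Type} [CommRing L] (w₁ w₂ : L) (m₁ m₂ : Ideal L)
    (hm₁ : m₁.IsPrime) (hm₂ : m₂.IsPrime) (h1 : w₁ ∉ m₂) (h2 : w₂ ∉ m₁) (e : ℕ) :
    (w₁ * w₂) ^ e = w₁ ^ e * w₂ ^ e ∧ (w₁ * w₂) ^ e = w₂ ^ e * w₁ ^ e ∧
      w₂ ^ e ∉ m₁ ∧ w₁ ^ e ∉ m₂ :=
  ⟨mul_pow _ _ _, by rw [mul_pow, mul_comm], fun h => h2 (hm₁.mem_of_pow_mem _ h),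
    fun h => h1 (hm₂.mem_of_pow_mem _ h)⟩

end Pool.Agent.AIC
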