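import Pool.Agent.AIC.Pipeline46

/-! MP_313bb4, stage 8: dense subrings of fields with a henselian subring. -/

set_option autoImplicit false

namespace Pool.Agent.AIC

open Finset Polynomial IsLocalRing

/-- `K` is the fraction field of a normal henselian local subring `A`, not a field, such that
`L` is dense in `K` for the topology given by the ideals `a A`. -/
def HasDense (L K : Type) [CommRing L] [Field K] [Algebra L K] : Prop :=
  ∃ A : Subring K, HenselianLocalRing A ∧ IsIntegrallyClosed A ∧ IsFractionRing A K ∧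
    (¬ IsField A) ∧
    ∀ (x : K) (a : A), a ≠ 0 → ∃ (r : L) (b : A), x = algebraMap L K r + (a : K) * (b : K)

theorem HasDense.tower {L L' K : Type} [CommRing L] [CommRing L'] [Field K] [Algebra L K]
    [Algebra L L'] [Algebra L' K] [IsScalarTower L L' K] (h : HasDense L K) : HasDense L' K := by
  obtain ⟨A, h1, h2, h3, h4, h5⟩ := h
  refine ⟨A, h1, h2, h3, h4, fun x a ha => ?_⟩
  obtain ⟨r, b, hb⟩ := h5 x a ha
  exact ⟨algebraMap L L' r, b, by rw [hb, IsScalarTower.algebraMap_apply L L' K]⟩

theorem HasDense.map {L K L' K' : Type} [CommRing L] [Field K] [Algebra L K] [CommRing L']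
    [Field K'] [Algebra L' K'] (e : K ≃+* K')
    (he : ∀ r : L, ∃ r' : L', e (algebraMap L K r) = algebraMap L' K' r') (h : HasDense L K) :
    HasDense L' K' := by
  obtain ⟨A, h1, h2, h3, h4, h5⟩ := h
  let f : A ≃+* A.map (e : K →+* K') := e.subringMap
  have hf : ∀ a : A, ((f a : A.map (e : K →+* K')) : K') = e (a : K) := fun a => rfl
  have hf' : ∀ b : A.map (e : K →+* K'), e ((f.symm b : A) : K) = (b : K') := fun b => by
    rw [← hf, RingEquiv.apply_symm_apply]
  refine ⟨A.map (e : K →+* K'), henselian_of_ringEquiv f h1, IsIntegrallyClosed.of_equiv f,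
    ?_, ?_, ?_⟩
  · refine IsFractionRing.of_field _ _ fun z => ?_
    obtain ⟨x, y, hy, hxy⟩ := IsFractionRing.div_surjective (A := A) (e.symm z)
    refine ⟨f x, f y, ?_⟩
    have h6 : z = e (e.symm z) := (e.apply_symm_apply z).symm
    rw [h6, ← hxy, map_div₀]
    rfl
  · intro hF
    exact h4 (f.toMulEquiv.isField hF)
  · intro x a ha
    have ha' : f.symm a ≠ 0 := by
      intro h0
      apply ha
      rw [← f.apply_symm_apply a, h0, map_zero]
    obtain ⟨r, b, hb⟩ := h5 (e.symm x) (f.symm a) ha'
    obtain ⟨r', hr'⟩ := he r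
    refine ⟨r', f b, ?_⟩
    rw [← hr', hf, ← hf' a, ← map_mul, ← map_add, ← hb, e.apply_symm_apply]

/-- the set version of `HasDense` -/
def DenseSet {K : Type} [Field K] (S : Set K) : Prop :=
  ∃ A : Subring K, HenselianLocalRing A ∧ IsIntegrallyClosed A ∧ IsFractionRing A K ∧
    (¬ IsField A) ∧
    ∀ (x : K) (a : A), a ≠ 0 → ∃ r ∈ S, ∃ b : A, x = r + (a : K) * (b : K)

theorem DenseSet.mono {K : Type} [Field K] {S S' : Set K} (hS : S ⊆ S') (h : DenseSet S) :
    DenseSet S' := by
  obtain ⟨A, h1, h2, h3, h4, h5⟩ := h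
  refine ⟨A, h1, h2, h3, h4, fun x a ha => ?_⟩
  obtain ⟨r, hr, b, hb⟩ := h5 x a ha
  exact ⟨r, hS hr, b, hb⟩

theorem HasDense.denseSet {L K : Type} [CommRing L] [Field K] [Algebra L K] {S : Set K}
    (hS : ∀ r : L, algebraMap L K r ∈ S) (h : HasDense L K) : DenseSet S := by
  obtain ⟨A, h1, h2, h3, h4, h5⟩ := h
  refine ⟨A, h1, h2, h3, h4, fun x a ha => ?_⟩
  obtain ⟨r, b, hb⟩ := h5 x a ha
  exact ⟨_, hS r, b, hb⟩

theorem DenseSet.hasDense {L K : Type} [CommRing L] [Field K] [Algebra L K] {S : Set K}
    (hS : ∀ x ∈ S, ∃ r : L, x = algebraMap L K r) (h : DenseSet S) : HasDense L K := by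
  obtain ⟨A, h1, h2, h3, h4, h5⟩ := h
  refine ⟨A, h1, h2, h3, h4, fun x a ha => ?_⟩
  obtain ⟨r, hr, b, hb⟩ := h5 x a ha
  obtain ⟨r', hr'⟩ := hS r hr
  exact ⟨r', b, by rw [hb, hr']⟩

theorem DenseSet.map {K K' : Type} [Field K] [Field K'] {S : Set K} (e : K ≃+* K')
    (h : DenseSet S) : DenseSet (e '' S) := by
  obtain ⟨A, h1, h2, h3, h4, h5⟩ := h
  let f : A ≃+* A.map (e : K →+* K') := e.subringMap
  have hf : ∀ a : A, ((f a : A.map (e : K →+* K')) : K') = e (a : K) := fun a => rfl
  have hf' : ∀ b : A.map (e : K →+* K'), e ((f.symm b : A) : K) = (b : K') := fun b => by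
    rw [← hf, RingEquiv.apply_symm_apply]
  refine ⟨A.map (e : K →+* K'), henselian_of_ringEquiv f h1, IsIntegrallyClosed.of_equiv f,
    ?_, ?_, ?_⟩
  · refine IsFractionRing.of_field _ _ fun z => ?_
    obtain ⟨x, y, hy, hxy⟩ := IsFractionRing.div_surjective (A := A) (e.symm z)
    refine ⟨f x, f y, ?_⟩
    have h6 : z = e (e.symm z) := (e.apply_symm_apply z).symm
    rw [h6, ← hxy, map_div₀]
    rfl
  · intro hF
    exact h4 (f.toMulEquiv.isField hF)
  · intro x a ha
    have ha' : f.symm a ≠ 0 := by
      intro h0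
      apply ha
      rw [← f.apply_symm_apply a, h0, map_zero]
    obtain ⟨r, hr, b, hb⟩ := h5 (e.symm x) (f.symm a) ha'
    refine ⟨e r, ⟨r, hr, rfl⟩, f b, ?_⟩
    rw [hf, ← hf' a, ← map_mul, ← map_add, ← hb, e.apply_symm_apply]

/-- the localization at the complement of `P ∪ Q` as a subset of the fraction field -/
def LocSet {R : Type} [CommRing R] (P Q : Ideal R) (K : Type) [Field K] [Algebra R K] : Set K :=
  {x | ∃ t s : R, s ∉ P ∧ s ∉ Q ∧ x * algebraMap R K s = algebraMap R K t}

section locset

/-- the fraction field of a localization is a fraction field of the ring -/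
theorem isFractionRing_loc46 {R L : Type} [CommRing R] [IsDomain R] [CommRing L] [IsDomain L]
    [Algebra R L] (M : Submonoid R) [IsLocalization M L] (hM : M ≤ nonZeroDivisors R) :
    IsFractionRing R (FractionRing L) := by
  have hinjL : Function.Injective (algebraMap R L) := IsLocalization.injective L hM
  have hinj : Function.Injective (algebraMap R (FractionRing L)) := by
    rw [IsScalarTower.algebraMap_eq R L (FractionRing L)]
    exact (IsFractionRing.injective L (FractionRing L)).comp hinjL
  have : FaithfulSMul R (FractionRing L) :=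
    (faithfulSMul_iff_algebraMap_injective _ _).mpr hinj
  refine IsFractionRing.of_field _ _ fun z => ?_
  obtain ⟨x, y, hy, rfl⟩ := IsFractionRing.div_surjective (A := L) z
  obtain ⟨a, s, rfl⟩ := IsLocalization.exists_mk'_eq M x
  obtain ⟨b, t, rfl⟩ := IsLocalization.exists_mk'_eq M y
  have h1 := congrArg (algebraMap L (FractionRing L)) (IsLocalization.mk'_spec L a s)
  have h2 := congrArg (algebraMap L (FractionRing L)) (IsLocalization.mk'_spec L b t)
  rw [map_mul, ← IsScalarTower.algebraMap_apply R L (FractionRing L),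
    ← IsScalarTower.algebraMap_apply R L (FractionRing L)] at h1 h2
  have hne : ∀ s : M, algebraMap R (FractionRing L) (s : R) ≠ 0 := by
    intro s h
    have h3 : (s : R) = 0 := hinj (by rw [h, map_zero])
    exact nonZeroDivisors.ne_zero (hM s.2) h3
  have hs := hne s
  have ht := hne t
  have hb : algebraMap L (FractionRing L) (IsLocalization.mk' L b t) ≠ 0 := by
    intro h
    apply nonZeroDivisors.ne_zero hy
    exact IsFractionRing.injective L (FractionRing L) (by rw [h, map_zero])
  refine ⟨a * t, b * s, ?_⟩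
  rw [map_mul, map_mul, ← h1, ← h2]
  rw [div_eq_div_iff hb (mul_ne_zero (mul_ne_zero hb ht) hs)]
  ring

/-- transfer from the set form to a localization and its fraction field -/
theorem hasDense_of_locSet' {R K L : Type} [CommRing R] [IsDomain R] [Field K] [Algebra R K]
    [IsFractionRing R K] (P Q : Ideal R) [hP : P.IsPrime] [hQ : Q.IsPrime] [CommRing L]
    [IsDomain L] [Algebra R L] [IsLocalization (Scomp P Q) L] (h : DenseSet (LocSet P Q K)) :
    HasDense L (FractionRing L) := by
  have := isFractionRing_loc46 (L := L) (Scomp P Q) (Scomp_le P Q)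
  let e : K ≃ₐ[R] FractionRing L := IsLocalization.algEquiv (nonZeroDivisors R) K (FractionRing L)
  have hd : DenseSet (e '' LocSet P Q K) := h.map e.toRingEquiv
  refine hd.hasDense ?_
  rintro _ ⟨x, ⟨t, s, hsP, hsQ, hx⟩, rfl⟩
  refine ⟨IsLocalization.mk' L t (⟨s, hsP, hsQ⟩ : Scomp P Q), ?_⟩
  have hinj : Function.Injective (algebraMap R (FractionRing L)) :=
    IsFractionRing.injective R (FractionRing L)
  have hs : algebraMap R (FractionRing L) s ≠ 0 := by
    intro h
    have h3 : s = 0 := hinj (by rw [h, map_zero])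
    exact hsP (h3 ▸ P.zero_mem)
  apply mul_right_cancel₀ hs
  have h1 := congrArg (algebraMap L (FractionRing L))
    (IsLocalization.mk'_spec L t (⟨s, hsP, hsQ⟩ : Scomp P Q))
  rw [map_mul, ← IsScalarTower.algebraMap_apply R L (FractionRing L),
    ← IsScalarTower.algebraMap_apply R L (FractionRing L)] at h1
  have h2 := congrArg e hx
  rw [map_mul, e.commutes, e.commutes] at h2
  rw [h2, h1]

attribute [local instance] isDomain_L

theorem hasDense_of_locSet {R K : Type} [CommRing R] [IsDomain R] [Field K] [Algebra R K]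
    [IsFractionRing R K] (P Q : Ideal R) [hP : P.IsPrime] [hQ : Q.IsPrime]
    (h : DenseSet (LocSet P Q K)) :
    HasDense (Localization (Scomp P Q)) (FractionRing (Localization (Scomp P Q))) :=
  hasDense_of_locSet' P Q h

end locset

end Pool.Agent.AIC
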