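import Mathlib
import Pool.Agent.AIC.Hensel76

set_option autoImplicit false

namespace Pool.Agent.AIC

open Finset Polynomial IsLocalRing

/-- the Newton form of Hensel's lemma. -/
theorem hensel_newton {S : Type*} [CommRing S] [HenselianLocalRing S] (f : S[X]) (a c : S)
    (hc : c ∈ maximalIdeal S) (h : f.eval a = (f.derivative.eval a) ^ 2 * c) :
    ∃ s : S, f.eval (a + f.derivative.eval a * c * s) = 0 := by
  set d := f.derivative.eval a with hd
  obtain ⟨K, hK⟩ := binomExpansion (f.map (C : S →+* S[X])) (C a) (C d * X)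
  have e1 : (f.map (C : S →+* S[X])).eval (C a) = C (f.eval a) := by
    rw [eval_map, eval₂_at_apply]
  have e2 : (f.map (C : S →+* S[X])).derivative.eval (C a) = C d := by
    rw [derivative_map, eval_map, eval₂_at_apply]
  rw [e1, e2] at hK
  have e3 : ∀ T : S, f.eval (a + d * T) = d ^ 2 * (c + T + K.eval T * T ^ 2) := by
    intro T
    have h1 := congrArg (Polynomial.eval T) hK
    have h2 : ((f.map (C : S →+* S[X])).eval (C a + C d * X)).eval T = f.eval (a + d * T) := by
      rw [eval_map, ← coe_evalRingHom T, hom_eval₂]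
      have h3 : (evalRingHom T).comp (C : S →+* S[X]) = RingHom.id S := by
        ext x; simp
      rw [h3]
      simp [eval₂_id]
    rw [h2] at h1
    rw [h1]
    simp only [eval_add, eval_mul, eval_C, eval_X, eval_pow]
    rw [h]
    ring
  set G : S[X] := C c + X + K * X ^ 2 with hG
  have hG0 : G.eval 0 ∈ maximalIdeal S := by
    have : G.eval 0 = c := by simp [hG]
    rw [this]; exact hc
  have hG1 : IsUnit (G.derivative.eval 0) := by
    have : G.derivative.eval 0 = 1 := by
      simp [hG]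
    rw [this]; exact isUnit_one
  obtain ⟨T, hT, hGT⟩ := hensel_zero G hG0 hG1
  have hGT' : c + T + K.eval T * T ^ 2 = 0 := by
    have : G.eval T = c + T + K.eval T * T ^ 2 := by simp [hG]
    rw [← this]; exact hGT
  have hu : IsUnit (1 + K.eval T * T) := by
    rw [← residue_ne_zero_iff_isUnit, map_add, map_mul, (residue_eq_zero_iff T).2 hT]
    simp
  obtain ⟨w, hw⟩ := hu
  refine ⟨-(↑w⁻¹ : S), ?_⟩
  have h5 : T = c * -(↑w⁻¹ : S) := by
    have h6 : T * ↑w = -c := by rw [hw]; linear_combination hGT'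
    calc T = T * ↑w * ↑w⁻¹ := by rw [mul_assoc, Units.mul_inv, mul_one]
      _ = c * -(↑w⁻¹ : S) := by rw [h6]; ring
  have h7 : a + d * c * -(↑w⁻¹ : S) = a + d * T := by rw [mul_assoc, ← h5]
  rw [h7, e3, hGT', mul_zero]

/-- products of `power times unit`. -/
theorem prod_pow_unit {S : Type*} [CommRing S] (v : S) {α : Type*} [DecidableEq α] (B : ℕ)
    (s : Finset α) (f : α → S)
    (h : ∀ i ∈ s, ∃ e ≤ B, ∃ η : S, IsUnit η ∧ f i = v ^ e * η) :
    ∃ e ≤ s.card * B, ∃ η : S, IsUnit η ∧ ∏ i ∈ s, f i = v ^ e * η := by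
  induction s using Finset.induction_on with
  | empty => exact ⟨0, Nat.zero_le _, 1, isUnit_one, by simp⟩
  | insert a s ha ih =>
    obtain ⟨e, he, η, hη, hp⟩ := ih fun i hi => h i (mem_insert_of_mem hi)
    obtain ⟨e', he', η', hη', hp'⟩ := h a (mem_insert_self a s)
    refine ⟨e' + e, ?_, η' * η, hη'.mul hη, ?_⟩
    · rw [card_insert_of_notMem ha, Nat.succ_mul]
      omega
    · rw [prod_insert ha, hp, hp', pow_add]; ring

/-- `k` distinct roots near `v ^ (E + j)`. -/
theorem henselian_roots_pow {S : Type*} [CommRing S] [IsDomain S] [HenselianLocalRing S]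
    (v : S) (hv : v ∈ maximalIdeal S) (hv0 : v ≠ 0) (k E h M : ℕ) (hEh : h < E)
    (w : S) (hw : IsUnit w) (Φ H E₀ : S[X])
    (hΦ : Φ = (∏ j : Fin k, (X - C (v ^ (E + (j : ℕ))))) * H + C (v ^ M) * E₀)
    (hH0 : H.eval 0 = v ^ h * w) (hM : 2 * (k * (E + k) + h) + E + k + 1 ≤ M) :
    ∃ r : Fin k → S, Function.Injective r ∧
      (∀ j, ∃ s, r j = v ^ (E + (j : ℕ)) + v ^ (E + k) * s) ∧ ∀ j, Φ.IsRoot (r j) := by
  classical
  have hunit1 : ∀ (η : S) (n : ℕ) (z : S), IsUnit η → 0 < n → IsUnit (η + v ^ n * z) := by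
    intro η n z hη hn
    rw [← residue_ne_zero_iff_isUnit, map_add, map_mul, map_pow, (residue_eq_zero_iff v).2 hv,
      zero_pow hn.ne', zero_mul, add_zero]
    exact (residue_ne_zero_iff_isUnit _).2 hη
  have hdiff : ∀ i j : Fin k, i ≠ j → ∃ e ≤ E + k, ∃ η : S, IsUnit η ∧
      v ^ (E + (i : ℕ)) - v ^ (E + (j : ℕ)) = v ^ e * η := by
    intro i j hij
    have hi := i.2
    have hj := j.2
    rcases lt_or_gt_of_ne (fun h => hij (Fin.ext h) : (i : ℕ) ≠ j) with hlt | hlt
    · refine ⟨E + i, by omega, 1 + v ^ ((j : ℕ) - i) * (-1),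
        hunit1 1 _ _ isUnit_one (by omega), ?_⟩
      have e1 : E + (j : ℕ) = E + i + (j - i) := by omega
      rw [e1, pow_add v (E + (i : ℕ))]; ring
    · refine ⟨E + j, by omega, -1 + v ^ ((i : ℕ) - j) * 1,
        hunit1 (-1) _ _ isUnit_one.neg (by omega), ?_⟩
      have e1 : E + (i : ℕ) = E + j + (i - j) := by omega
      rw [e1, pow_add v (E + (j : ℕ))]; ring
  obtain ⟨H₁, hH₁⟩ : ∃ H₁ : S[X], H = C (v ^ h * w) + X * H₁ := by
    refine ⟨H.divX, ?_⟩
    have h1 := H.divX_mul_X_add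
    rw [coeff_zero_eq_eval_zero, hH0] at h1
    calc H = H.divX * X + C (v ^ h * w) := h1.symm
      _ = C (v ^ h * w) + X * H.divX := by ring
  have key : ∀ j : Fin k, ∃ s, Φ.eval (v ^ (E + (j : ℕ)) + v ^ (E + k) * s) = 0 := by
    intro j
    set p := v ^ (E + (j : ℕ)) with hp
    obtain ⟨e, he, η, hη, hprod⟩ := prod_pow_unit v (E + k) (univ.erase j)
      (fun l => v ^ (E + (j : ℕ)) - v ^ (E + (l : ℕ)))
      (fun l hl => hdiff j l (Ne.symm (ne_of_mem_erase hl)))
    have he' : e ≤ k * (E + k) := by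
      refine he.trans (Nat.mul_le_mul_right _ ?_)
      rw [card_erase_of_mem (mem_univ j), card_univ, Fintype.card_fin]
      omega
    have hHp : H.eval p = v ^ h * (w + v ^ (E + j - h) * H₁.eval p) := by
      rw [hH₁]
      simp only [eval_add, eval_mul, eval_X, eval_C]
      generalize H₁.eval p = z
      have e1 : E + (j : ℕ) = h + (E + j - h) := by omega
      rw [hp, e1, pow_add, Nat.add_sub_cancel_left]; ring
    have hW0 : (∏ l : Fin k, (X - C (v ^ (E + (l : ℕ))))).eval p = 0 := by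
      rw [eval_prod]
      exact prod_eq_zero (mem_univ j) (by simp [hp])
    have hW1 : (∏ l : Fin k, (X - C (v ^ (E + (l : ℕ))))).derivative.eval p = v ^ e * η := by
      rw [derivative_prod_finset, eval_finsetSum, Finset.sum_eq_single j]
      · rw [← hprod, eval_mul, eval_prod, derivative_sub, derivative_X, derivative_C, sub_zero,
          eval_one, mul_one]
        simp only [eval_sub, eval_X, eval_C, hp]
      · intro l _ hl
        rw [eval_mul, eval_prod]
        rw [prod_eq_zero (mem_erase.mpr ⟨Ne.symm hl, mem_univ j⟩) (by simp [hp]), zero_mul]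
      · intro hcon; exact absurd (mem_univ _) hcon
    have hΦ0 : Φ.eval p = v ^ M * E₀.eval p := by
      rw [hΦ, eval_add, eval_mul, hW0, zero_mul, zero_add, eval_mul, eval_C]
    have hΦ1 : Φ.derivative.eval p = v ^ (e + h) *
        (η * (w + v ^ (E + j - h) * H₁.eval p) + v ^ (M - (e + h)) * E₀.derivative.eval p) := by
      rw [hΦ, derivative_add, derivative_mul, derivative_mul, derivative_C, eval_add, eval_add,
        eval_mul, eval_mul, hW0, hW1, zero_mul, add_zero, zero_mul, zero_add, eval_mul, eval_C,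
        hHp]
      have e1 : M = (e + h) + (M - (e + h)) := by omega
      conv_lhs => rw [e1]
      rw [pow_add v (e + h), pow_add v e h]; ring
    set θ := η * (w + v ^ (E + j - h) * H₁.eval p) + v ^ (M - (e + h)) * E₀.derivative.eval p
      with hθ
    have hθu : IsUnit θ := by
      rw [hθ]
      exact hunit1 _ _ _ (hη.mul (hunit1 w _ _ hw (by omega))) (by omega)
    obtain ⟨θ', hθ'⟩ := hθu
    set c : S := v ^ (M - 2 * (e + h)) * ((↑θ'⁻¹ : S) ^ 2 * E₀.eval p) with hc
    have hcm : c ∈ maximalIdeal S := by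
      rw [hc]
      exact Ideal.mul_mem_right _ _ (Ideal.pow_mem_of_mem _ hv _ (by omega))
    have hcond : Φ.eval p = (Φ.derivative.eval p) ^ 2 * c := by
      rw [hΦ0, hΦ1, hc, ← hθ']
      have e1 : M = 2 * (e + h) + (M - 2 * (e + h)) := by omega
      have e2 : (↑θ' : S) * ↑θ'⁻¹ = 1 := Units.mul_inv θ'
      calc v ^ M * E₀.eval p = v ^ (2 * (e + h)) * v ^ (M - 2 * (e + h)) * E₀.eval p := by
            rw [← pow_add, ← e1]
        _ = (v ^ (e + h)) ^ 2 * ((↑θ' : S) * ↑θ'⁻¹) ^ 2 * v ^ (M - 2 * (e + h)) * E₀.eval p := by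
            rw [e2, ← pow_mul, mul_comm (e + h) 2]; ring
        _ = _ := by ring
    obtain ⟨s, hs⟩ := hensel_newton Φ p c hcm hcond
    refine ⟨v ^ (M - (e + h) - (E + k)) * (θ * ((↑θ'⁻¹ : S) ^ 2 * E₀.eval p) * s), ?_⟩
    rw [← hs]
    congr 2
    rw [hΦ1, hc]
    have e1 : v ^ (E + k) * v ^ (M - (e + h) - (E + k)) = v ^ (e + h) * v ^ (M - 2 * (e + h)) := by
      rw [← pow_add, ← pow_add]; congr 1; omega
    calc v ^ (E + k) * (v ^ (M - (e + h) - (E + k)) * (θ * ((↑θ'⁻¹ : S) ^ 2 * E₀.eval p) * s))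
        = v ^ (E + k) * v ^ (M - (e + h) - (E + k)) * (θ * ((↑θ'⁻¹ : S) ^ 2 * E₀.eval p) * s) := by
          ring
      _ = _ := by rw [e1]; ring
  choose s hs using key
  refine ⟨fun j => v ^ (E + (j : ℕ)) + v ^ (E + k) * s j, ?_, fun j => ⟨s j, rfl⟩, hs⟩
  have hlt : ∀ i j : Fin k, (i : ℕ) < j →
      v ^ (E + (i : ℕ)) + v ^ (E + k) * s i ≠ v ^ (E + (j : ℕ)) + v ^ (E + k) * s j := by
    intro i j hij hcon
    have hj := j.2
    have e1 : E + (j : ℕ) = E + i + (j - i) := by omega
    have e2 : E + k = E + i + (k - i) := by omega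
    have e3 : v ^ (E + (i : ℕ)) * (1 + v ^ 1 * (v ^ (k - (i : ℕ) - 1) * (s i - s j)
        - v ^ ((j : ℕ) - i - 1))) = 0 := by
      have e4 : v ^ (k - (i : ℕ)) = v * v ^ (k - (i : ℕ) - 1) := by
        rw [← pow_succ']; congr 1; omega
      have e5 : v ^ ((j : ℕ) - i) = v * v ^ ((j : ℕ) - i - 1) := by
        rw [← pow_succ']; congr 1; omega
      rw [e1, e2, pow_add v (E + (i : ℕ)) (k - i), pow_add v (E + (i : ℕ)) (j - i), e4, e5] at hcon
      linear_combination hcon
    rcases mul_eq_zero.mp e3 with h1 | h1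
    · exact hv0 (eq_zero_of_pow_eq_zero h1)
    · exact (hunit1 1 1 _ isUnit_one one_pos).ne_zero h1
  intro i j hij
  by_contra hne
  rcases lt_or_gt_of_ne (fun h => hne (Fin.ext h) : (i : ℕ) ≠ j) with h1 | h1
  · exact hlt i j h1 hij
  · exact hlt j i h1 hij.symm

/-- the version over `R` with the roots in the localization. -/
theorem henselian_roots_pow_loc {R : Type*} [CommRing R] [IsDomain R] (m : Ideal R)
    [m.IsMaximal] (hH : HenselianLocalRing (Localization.AtPrime m))
    (v : R) (hv : v ∈ m) (hv0 : v ≠ 0) (k E h M : ℕ) (hEh : h < E)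
    (w : R) (hw : w ∉ m) (Φ H E₀ : R[X])
    (hΦ : Φ = (∏ j : Fin k, (X - C (v ^ (E + (j : ℕ))))) * H + C (v ^ M) * E₀)
    (hH0 : H.eval 0 = v ^ h * w) (hM : 2 * (k * (E + k) + h) + E + k + 1 ≤ M) :
    ∃ r : Fin k → Localization.AtPrime m, Function.Injective r ∧
      (∀ j, ∃ s, r j = algebraMap R _ v ^ (E + (j : ℕ)) + algebraMap R _ v ^ (E + k) * s) ∧
      ∀ j, (Φ.map (algebraMap R (Localization.AtPrime m))).IsRoot (r j) := by
  classical
  set α : R →+* Localization.AtPrime m := algebraMap R (Localization.AtPrime m) with hα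
  have hmem : ∀ x : R, α x ∈ maximalIdeal (Localization.AtPrime m) ↔ x ∈ m := fun x =>
    IsLocalization.AtPrime.to_map_mem_maximal_iff (Localization.AtPrime m) m x
  have hunit : ∀ x : R, x ∉ m → IsUnit (α x) := fun x hx => by
    have := (hmem x).not.2 hx
    simpa [mem_maximalIdeal, mem_nonunits_iff] using this
  have hinj : Function.Injective α := IsLocalization.injective _ m.primeCompl_le_nonZeroDivisors
  have hdom : IsDomain (Localization.AtPrime m) :=
    IsLocalization.isDomain_localization m.primeCompl_le_nonZeroDivisors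
  refine henselian_roots_pow (α v) ((hmem v).2 hv)
    (fun h0 => hv0 (hinj (by rw [h0, map_zero]))) k E h M hEh (α w) (hunit w hw)
    (Φ.map α) (H.map α) (E₀.map α) ?_ ?_ hM
  · rw [hΦ]
    simp only [Polynomial.map_add, Polynomial.map_mul, Polynomial.map_prod, Polynomial.map_sub,
      Polynomial.map_X, Polynomial.map_C, map_pow, Polynomial.map_pow]
  · rw [← map_pow, ← map_mul, ← hH0, ← map_zero α, eval_map, eval₂_at_apply]

end Pool.Agent.AIC
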