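import Mathlib
import Pool.Agent.AIC.LocalF
import Pool.Agent.AIC.DefsD83

/-! Stage 6, row 2: the polynomial with prescribed zeros, with leading coefficient `D`, over any
commutative ring in which `t` is nilpotent and `D * t` divides the zeros. -/

set_option autoImplicit false
set_option linter.unusedSectionVars false

namespace Pool.Agent.AIC

open Finset Polynomial

section LocalFD83

variable {ι : Type} [Fintype ι] [DecidableEq ι] {q : ℕ} [Fact q.Prime]
variable {B : Type} [CommRing B]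

theorem span_smul_le83 {M : Type} [AddCommGroup M] [Module B M] (D t : B) :
    Ideal.span {D * t} • (⊤ : Submodule B M) ≤
      Ideal.span {t} • Submodule.map (LinearMap.lsmul B M D) ⊤ := by
  rw [Submodule.smul_le]
  intro r hr n _
  obtain ⟨a, rfl⟩ := Ideal.mem_span_singleton'.mp hr
  have h1 : (a * (D * t)) • n = t • (D • (a • n)) := by
    rw [smul_smul, smul_smul]
    congr 1
    ring
  rw [h1]
  exact Submodule.smul_mem_smul (Ideal.mem_span_singleton_self t) ⟨a • n, trivial, rfl⟩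

/-- kernel of the reduction modulo an ideal. -/
theorem ker_mem83 (I : Ideal B) (k : ℕ) (W : B[X])
    (hW : W.map (Ideal.Quotient.mk I) = X ^ k) (g : B[X])
    (hg : ∀ j, j < k + 1 → (g.map (Ideal.Quotient.mk I)).coeff j = 0) :
    Ideal.Quotient.mkₐ B (Ideal.span {X * W}) g ∈
      I • (⊤ : Submodule B (B[X] ⧸ Ideal.span {X * W})) := by
  obtain ⟨h', hh'⟩ := Polynomial.X_pow_dvd_iff.mpr hg
  obtain ⟨h, rfl⟩ := Polynomial.map_surjective _ (Ideal.Quotient.mk_surjective (I := I)) h'
  set g' := g - X * W * h with hg'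
  have h1 : Ideal.Quotient.mkₐ B (Ideal.span {X * W}) g
      = Ideal.Quotient.mkₐ B (Ideal.span {X * W}) g' := by
    rw [hg', map_sub, eq_comm, sub_eq_self]
    exact Ideal.Quotient.eq_zero_iff_mem.mpr
      (Ideal.mul_mem_right _ _ (Ideal.mem_span_singleton_self _))
  have h2 : g'.map (Ideal.Quotient.mk I) = 0 := by
    rw [hg', Polynomial.map_sub, Polynomial.map_mul, Polynomial.map_mul, hW, Polynomial.map_X,
      hh', pow_succ']
    ring
  have h3 : ∀ a, g'.coeff a ∈ I := by
    intro a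
    have := congrArg (fun f => Polynomial.coeff f a) h2
    simp only [Polynomial.coeff_map, Polynomial.coeff_zero] at this
    exact Ideal.Quotient.eq_zero_iff_mem.mp this
  rw [h1, g'.as_sum_support_C_mul_X_pow, map_sum]
  refine Submodule.sum_mem _ fun a _ => ?_
  rw [← Polynomial.smul_eq_C_mul, map_smul]
  exact Submodule.smul_mem_smul (h3 a) Submodule.mem_top

theorem cond_surjD (ζ : B) (hq : IsUnit (q : B)) (c : ι → B) (hc : ∀ i, IsUnit (c i))
    (k : ℕ) (D t : B) (ht : IsNilpotent t) (W : B[X]) (hWm : W.Monic)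
    (hW : W.map (Ideal.Quotient.mk (Ideal.span {D * t})) = X ^ k)
    (θ : ι → B[X] ⧸ Ideal.span {X * W})
    (hθ : ∀ i, IsNilpotent (Ideal.Quotient.mk (Ideal.span {X * W}) (C (c i)) - θ i))
    (hθq : ∀ i, θ i ^ q = Ideal.Quotient.mk (Ideal.span {X * W}) X
      + Ideal.Quotient.mk (Ideal.span {X * W}) (C (c i)) ^ q)
    (η : ι → PowerSeries B)
    (hη : ∀ i, η i ^ q = PowerSeries.X + PowerSeries.C (c i ^ q))
    (hη0 : ∀ i, PowerSeries.constantCoeff (η i) = c i)
    (d : ℕ) (hJ : JetsD (q := q) ζ c η d (k + 1) D) :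
    Submodule.map (LinearMap.lsmul B
        ((B[X] ⧸ Ideal.span {X * W}) × ({δ : ι → ZMod q // δ ≠ 0} → B)) D) ⊤ ≤
      Submodule.map (condT (Ideal.Quotient.mkₐ B (Ideal.span {X * W})) θ ζ c)
        (admR (ι := ι) (q := q) B d) := by
  classical
  set I : Ideal B := Ideal.span {D * t} with hI
  set π : B →+* B ⧸ I := Ideal.Quotient.mk I with hπ
  have hqp : q.Prime := Fact.out
  have hfin : Module.Finite B (B[X] ⧸ Ideal.span {X * W}) :=
    Polynomial.Monic.finite_quotient (monic_X.mul hWm)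
  -- the reduction map
  set Q := PowerSeries (B ⧸ I) ⧸
    Ideal.span {(PowerSeries.X : PowerSeries (B ⧸ I)) ^ (k + 1)} with hQ
  set mQ : PowerSeries (B ⧸ I) →+* Q := Ideal.Quotient.mk _ with hmQ
  set ψ : B[X] →+* Q := (mQ.comp
    (Polynomial.coeToPowerSeries.ringHom (R := B ⧸ I))).comp
      (Polynomial.mapRingHom π) with hψ
  have hψa : ∀ f : B[X], ψ f = mQ ((f.map π : (B ⧸ I)[X]) :
      PowerSeries (B ⧸ I)) := fun f => rfl
  have hmQ0 : ∀ f, mQ f = 0 ↔ ∀ j, j < k + 1 → PowerSeries.coeff j f = 0 := by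
    intro f
    rw [hmQ, Ideal.Quotient.eq_zero_iff_mem, Ideal.mem_span_singleton, PowerSeries.X_pow_dvd_iff]
  have hψ0 : ∀ a ∈ Ideal.span {X * W}, ψ a = 0 := by
    intro a ha
    obtain ⟨b, rfl⟩ := Ideal.mem_span_singleton.mp ha
    rw [map_mul]
    have h1 : ψ (X * W) = 0 := by
      rw [hψa, Polynomial.map_mul, Polynomial.map_X, hW, ← pow_succ', Polynomial.coe_pow,
        Polynomial.coe_X, hmQ0]
      exact PowerSeries.X_pow_dvd_iff.mp dvd_rfl
    rw [h1, zero_mul]
  set ρ : (B[X] ⧸ Ideal.span {X * W}) →+* Q := Ideal.Quotient.lift _ ψ hψ0 with hρ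
  have hρa : ∀ f : B[X], ρ (Ideal.Quotient.mk (Ideal.span {X * W}) f) = ψ f := fun f => rfl
  have hρk : ∀ t, ρ t = 0 →
      t ∈ I • (⊤ : Submodule B (B[X] ⧸ Ideal.span {X * W})) := by
    intro t ht
    obtain ⟨g, rfl⟩ := Ideal.Quotient.mk_surjective t
    rw [hρa, hψa, hmQ0] at ht
    refine ker_mem83 I k W hW g fun j hj => ?_
    have := ht j hj
    rwa [Polynomial.coeff_coe] at this
  have hXn : IsNilpotent (mQ PowerSeries.X) := by
    refine ⟨k + 1, ?_⟩
    rw [← map_pow, hmQ0]
    exact PowerSeries.X_pow_dvd_iff.mp dvd_rfl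
  have hρθ : ∀ i, ρ (θ i) = mQ (PowerSeries.map π (η i)) := by
    intro i
    have hu := near_root q (S := Q) (by
        have := (hq.map π).map (mQ.comp PowerSeries.C)
        simpa using this) (mQ (PowerSeries.C (π (c i)))) (mQ PowerSeries.X)
        (((hc i).map π).map (mQ.comp PowerSeries.C)) hXn
    refine hu.unique ⟨?_, ?_⟩ ⟨?_, ?_⟩
    · have h1 := (hθ i).map ρ
      rw [map_sub, hρa, hψa, Polynomial.map_C, Polynomial.coe_C] at h1
      exact h1
    · rw [← map_pow, hθq i, map_add, map_pow, hρa, hρa, hψa, hψa, Polynomial.map_C,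
        Polynomial.coe_C, Polynomial.map_X, Polynomial.coe_X]
    · have h1 : PowerSeries.X ∣ PowerSeries.C (π (c i)) - PowerSeries.map π (η i) := by
        have h2 : PowerSeries.constantCoeff (PowerSeries.map π (η i)) = π (c i) := by
          rw [← hη0 i, ← PowerSeries.coeff_zero_eq_constantCoeff_apply, PowerSeries.coeff_map,
            PowerSeries.coeff_zero_eq_constantCoeff_apply]
        rw [PowerSeries.X_dvd_iff, map_sub, h2]
        simp
      obtain ⟨b, hb⟩ := h1
      rw [← map_sub, hb, map_mul]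
      exact (Commute.all _ _).isNilpotent_mul_right hXn
    · rw [← map_pow, ← map_pow, hη i, map_add, PowerSeries.map_X, PowerSeries.map_C,
        map_pow π, map_pow PowerSeries.C, map_add, map_pow mQ]
  -- Nakayama
  refine Submodule.le_of_le_smul_of_le_jacobson_bot (I := Ideal.span {t})
    ((Module.finite_def.mp inferInstance).map _) ?_ ?_
  · rw [Ideal.span_singleton_le_iff_mem]
    rw [Ideal.jacobson_bot]
    exact nilradical_le_jacobson B ht
  rintro x ⟨⟨y, w⟩, -, rfl⟩
  obtain ⟨f, rfl⟩ := Ideal.Quotient.mk_surjective y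
  obtain ⟨p, hp1, hp2, hp3⟩ := hJ (fun j => f.coeff j)
    (fun δ => if h : δ ≠ 0 then w ⟨δ, h⟩ else 0)
  have hpm : p ∈ admR (ι := ι) (q := q) B d := admR_of_wt d p hp1
  have hdiff : condT (Ideal.Quotient.mkₐ B (Ideal.span {X * W})) θ ζ c p
      - D • (Ideal.Quotient.mk (Ideal.span {X * W}) f, w) ∈
      I • (⊤ : Submodule B ((B[X] ⧸ Ideal.span {X * W}) ×
        ({δ : ι → ZMod q // δ ≠ 0} → B))) := by
    refine prod_mem_smul _ _ _ (hρk _ ?_) fun δ => ?_
    · show ρ (ev θ (fun s => Ideal.Quotient.mk (Ideal.span {X * W}) (p s))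
        - D • Ideal.Quotient.mk (Ideal.span {X * W}) f) = 0
      have hDf : D • Ideal.Quotient.mk (Ideal.span {X * W}) f =
          Ideal.Quotient.mk (Ideal.span {X * W}) (C D * f) := by
        rw [← Polynomial.smul_eq_C_mul]
        exact (map_smul (Ideal.Quotient.mkₐ B (Ideal.span {X * W})) D f).symm
      rw [hDf, map_sub, ev_map, hρa]
      simp only [hρa, hρθ, hψa]
      have h4 : ev (fun i => mQ (PowerSeries.map π (η i)))
          (fun s => mQ (((p s).map π : (B ⧸ I)[X]) : PowerSeries (B ⧸ I)))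
          = mQ (PowerSeries.map π (ev η (fun s => ((p s : B[X]) : PowerSeries B)))) := by
        rw [ev_map (PowerSeries.map π), ev_map mQ]
        congr 1
        funext s
        rw [Polynomial.polynomial_map_coe]
      rw [h4, ← map_sub, hmQ0]
      intro j hj
      rw [map_sub, PowerSeries.coeff_map, hp2 j hj, Polynomial.coeff_coe, Polynomial.coeff_map,
        Polynomial.coeff_C_mul, sub_self]
    · show ev (tw ζ δ.1 c) (fun s => (p s).eval 0) - D * w δ ∈ I
      rw [hp3 δ.1 δ.2, dif_pos δ.2, sub_self]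
      exact I.zero_mem
  have h1 : (LinearMap.lsmul B ((B[X] ⧸ Ideal.span {X * W}) ×
        ({δ : ι → ZMod q // δ ≠ 0} → B)) D) (Ideal.Quotient.mk (Ideal.span {X * W}) f, w)
      = condT (Ideal.Quotient.mkₐ B (Ideal.span {X * W})) θ ζ c p
        - (condT (Ideal.Quotient.mkₐ B (Ideal.span {X * W})) θ ζ c p
      - D • (Ideal.Quotient.mk (Ideal.span {X * W}) f, w)) := by
    rw [sub_sub_cancel]
    rfl
  rw [h1]
  exact Submodule.sub_mem _ (Submodule.mem_sup_left (Submodule.mem_map_of_mem hpm))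
    (Submodule.mem_sup_right (span_smul_le83 D t hdiff))

/-- the local statement with leading coefficient `D`, over any commutative ring. -/
theorem local_FD (ζ : B) (hζ : ∑ j ∈ range q, ζ ^ j = 0)
    (hq : IsUnit (q : B)) (c : ι → B) (hc : ∀ i, IsUnit (c i))
    (k : ℕ) (D t : B) (ht : IsNilpotent t) (pt : Fin k → B) (hpt : ∀ j, D * t ∣ pt j)
    (d : ℕ) (hd : 0 < d) (η : ι → PowerSeries B)
    (hη : ∀ i, η i ^ q = PowerSeries.X + PowerSeries.C (c i ^ q))
    (hη0 : ∀ i, PowerSeries.constantCoeff (η i) = c i)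
    (hJ : JetsD (q := q) ζ c η d (k + 1) D) :
    ∃ p : (ι → ZMod q) → B[X],
      (∀ s, p s ≠ 0 → q * (p s).natDegree + wt s < q * d) ∧
      (∃ H : B[X], (nmat (fun i => X + C (c i ^ q)) (famD D d p)).det
          = (∏ j, (X - C (pt j))) * H ∧ H.eval 0 = D ^ (q ^ Fintype.card ι)) ∧
      (∀ δ : ι → ZMod q, δ ≠ 0 → ev (tw ζ δ c) (fun s => (famD D d p s).eval 0) = D) := by
  classical
  have hqz : NeZero q := ⟨(Fact.out : q.Prime).ne_zero⟩
  set W : B[X] := ∏ j, (X - C (pt j)) with hWdef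
  have hWm : W.Monic := monic_prod_of_monic _ _ fun j _ => monic_X_sub_C _
  have hW : W.map (Ideal.Quotient.mk (Ideal.span {D * t})) = X ^ k := by
    rw [hWdef, Polynomial.map_prod]
    have h1 : ∀ j, (X - C (pt j)).map (Ideal.Quotient.mk (Ideal.span {D * t})) = X := by
      intro j
      have h2 : Ideal.Quotient.mk (Ideal.span {D * t}) (pt j) = 0 := by
        rw [Ideal.Quotient.eq_zero_iff_mem, Ideal.mem_span_singleton]
        exact hpt j
      rw [Polynomial.map_sub, Polynomial.map_X, Polynomial.map_C, h2, C_0, sub_zero]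
    simp_rw [h1]
    rw [Finset.prod_const, Finset.card_univ, Fintype.card_fin]
  have hptn : ∀ j, IsNilpotent (pt j) := by
    intro j
    obtain ⟨z, hz⟩ := hpt j
    rw [hz, mul_assoc, mul_comm]
    rw [mul_assoc]
    exact (Commute.all _ _).isNilpotent_mul_right ht
  set I : Ideal B[X] := Ideal.span {X * W} with hI
  set mk : B[X] →+* (B[X] ⧸ I) := Ideal.Quotient.mk I with hmk
  have hXW : mk (X * W) = 0 :=
    Ideal.Quotient.eq_zero_iff_mem.mpr (Ideal.mem_span_singleton_self _)
  have hxn : IsNilpotent (mk X) := by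
    refine nilpotent_of_prod (mk X) (fun j => mk (C (pt j))) (fun j => ?_) ?_
    · exact (hptn j).map (mk.comp C)
    · rw [← hXW, map_mul, hWdef, map_prod]
      simp only [map_sub]
  have hqT : IsUnit ((q : ℕ) : B[X] ⧸ I) := by
    have := hq.map (mk.comp C)
    simpa using this
  have hcT : ∀ i, IsUnit (mk (C (c i))) := fun i => (hc i).map (mk.comp C)
  choose θ hθ hθu using fun i => near_root q hqT (mk (C (c i))) (mk X) (hcT i) hxn
  have htop := cond_surjD ζ hq c hc k D t ht W hWm hW θ (fun i => (hθ i).1) (fun i => (hθ i).2)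
    η hη hη0 d hJ
  have hmem : D • ((mk W - mk X ^ d, fun _ => 1) :
      (B[X] ⧸ I) × ({δ : ι → ZMod q // δ ≠ 0} → B)) ∈
      Submodule.map (condT (Ideal.Quotient.mkₐ B I) θ ζ c) (admR (ι := ι) (q := q) B d) :=
    htop ⟨_, trivial, rfl⟩
  obtain ⟨p, hp, hpt'⟩ := Submodule.mem_map.mp hmem
  have hp1 : ev θ (fun s => mk (p s)) = mk (C D) * (mk W - mk X ^ d) := by
    have h1 : ev θ (fun s => mk (p s)) = D • (mk W - mk X ^ d) := congrArg Prod.fst hpt'
    rw [h1]
    have h2 : mk W - mk X ^ d = mk (W - X ^ d) := by rw [map_sub, map_pow]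
    rw [h2, ← map_mul, ← Polynomial.smul_eq_C_mul]
    exact (map_smul (Ideal.Quotient.mkₐ B I) D (W - X ^ d)).symm
  have hp2 : ∀ δ : ι → ZMod q, δ ≠ 0 → ev (tw ζ δ c) (fun s => (p s).eval 0) = D := by
    intro δ hδ
    have h1 : ev (tw ζ δ c) (fun s => (p s).eval 0) = D * 1 :=
      congrFun (congrArg Prod.snd hpt') ⟨δ, hδ⟩
    rw [h1, mul_one]
  set F : (ι → ZMod q) → B[X] := famD D d p with hF
  have hF2 : ∀ δ : ι → ZMod q, δ ≠ 0 → ev (tw ζ δ c) (fun s => (F s).eval 0) = D := by
    intro δ hδ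
    rw [← hp2 δ hδ]
    congr 1
    funext s
    rw [hF]
    unfold famD
    rw [Polynomial.eval_add]
    have h4 : (if s = 0 then C D * X ^ d else 0 : B[X]).eval 0 = 0 := by
      split_ifs
      · rw [Polynomial.eval_mul, Polynomial.eval_pow, Polynomial.eval_X, zero_pow (by omega),
          mul_zero]
      · rw [Polynomial.eval_zero]
    rw [h4, zero_add]
  have hF1 : ev θ (fun s => mk (F s)) = mk (C D) * mk W := by
    have h1 : ev θ (fun s => mk (F s)) = mk (C D) * mk X ^ d + ev θ (fun s => mk (p s)) := by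
      unfold ev
      have h4 : ∀ s : ι → ZMod q, mk (F s) * mono θ s
            = (if s = 0 then mk (C D) * mk X ^ d else 0) + mk (p s) * mono θ s := by
        intro s
        rw [hF]
        unfold famD
        rw [map_add, add_mul]
        congr 1
        by_cases hs : s = 0
        · rw [if_pos hs, if_pos hs, hs, mono_zero, mul_one, map_mul, map_pow]
        · rw [if_neg hs, if_neg hs, map_zero, zero_mul]
      simp_rw [h4]
      rw [Finset.sum_add_distrib]
      congr 1
      simp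
    rw [h1, hp1]
    ring
  -- the determinant
  have hζT : ∑ j ∈ range q, (mk (C ζ)) ^ j = 0 := by
    have := congrArg (mk.comp C) hζ
    rw [map_sum, map_zero] at this
    rw [← this]
    exact Finset.sum_congr rfl fun j _ => (map_pow (mk.comp C) ζ j).symm
  have hθun : ∀ i, IsUnit (θ i) := fun i => near_unit _ _ (hcT i) (hθ i).1
  set Dt : B[X] := (nmat (fun i => X + C (c i ^ q)) F).det with hDt
  have hDm : mk Dt = mk (C D) * mk W * ∏ δ ∈ (Finset.univ : Finset (ι → ZMod q)).erase 0,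
      ev (tw (mk (C ζ)) δ θ) (fun s => mk (F s)) := by
    have h1 : mk Dt = ∏ δ : ι → ZMod q, ev (tw (mk (C ζ)) δ θ) (fun s => mk (F s)) := by
      rw [← det_nmat_unit (mk (C ζ)) hζT hqT θ hθun, hDt, det_nmat_map]
      congr 2
      funext i
      rw [(hθ i).2, map_add, C_pow, map_pow]
    rw [h1, ← Finset.mul_prod_erase _ _ (Finset.mem_univ (0 : ι → ZMod q))]
    have h2 : tw (mk (C ζ)) (0 : ι → ZMod q) θ = θ := by
      funext i
      simp [tw]
    rw [h2, hF1]
  -- evaluation at zero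
  have he0 : ∀ a ∈ I, Polynomial.evalRingHom (0 : B) a = 0 := by
    intro a ha
    obtain ⟨b, rfl⟩ := Ideal.mem_span_singleton.mp ha
    simp
  set ev0 : (B[X] ⧸ I) →+* B := Ideal.Quotient.lift I (Polynomial.evalRingHom 0) he0 with hev0
  have hev0a : ∀ f : B[X], ev0 (mk f) = f.eval 0 := fun f => rfl
  have hev0θ : ∀ i, ev0 (θ i) = c i := by
    intro i
    refine (near_root q hq (c i) 0 (hc i) IsNilpotent.zero).unique ⟨?_, ?_⟩ ⟨?_, ?_⟩
    · have h1 := (hθ i).1.map ev0
      rw [map_sub, hev0a, eval_C] at h1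
      exact h1
    · rw [← map_pow, (hθ i).2, map_add, map_pow, hev0a, hev0a, eval_X, eval_C]
    · rw [sub_self]; exact IsNilpotent.zero
    · rw [zero_add]
  have hprod1 : ev0 (∏ δ ∈ (Finset.univ : Finset (ι → ZMod q)).erase 0,
      ev (tw (mk (C ζ)) δ θ) (fun s => mk (F s))) = D ^ (q ^ Fintype.card ι - 1) := by
    rw [map_prod]
    have h1 : ∀ δ ∈ (Finset.univ : Finset (ι → ZMod q)).erase 0,
        ev0 (ev (tw (mk (C ζ)) δ θ) (fun s => mk (F s))) = D := by
      intro δ hδ
      rw [ev_map]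
      refine Eq.trans ?_ (hF2 δ (Finset.ne_of_mem_erase hδ))
      congr 1
      funext i
      unfold tw
      rw [map_mul, map_pow, hev0a, eval_C, hev0θ]
    rw [Finset.prod_congr rfl h1, Finset.prod_const, Finset.card_erase_of_mem (Finset.mem_univ _),
      Finset.card_univ]
    congr 2
    simp [ZMod.card]
  obtain ⟨h₀, hh₀⟩ := Ideal.Quotient.mk_surjective
    (∏ δ ∈ (Finset.univ : Finset (ι → ZMod q)).erase 0,
      ev (tw (mk (C ζ)) δ θ) (fun s => mk (F s)))
  have hh₀1 : h₀.eval 0 = D ^ (q ^ Fintype.card ι - 1) := by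
    rw [← hev0a, ← hprod1, ← hh₀]
  have hdvd : X * W ∣ Dt - C D * W * h₀ := by
    rw [← Ideal.mem_span_singleton, ← hI, ← Ideal.Quotient.eq_zero_iff_mem, ← hmk, map_sub,
      map_mul, map_mul, hDm, hmk, hh₀, sub_self]
  obtain ⟨h₁, hh₁⟩ := hdvd
  refine ⟨p, fun s hs => admR_wt d p hp s hs, ⟨C D * h₀ + X * h₁, ?_, ?_⟩, hF2⟩
  · have h5 : Dt = C D * W * h₀ + (Dt - C D * W * h₀) := by ring
    have h6 : Dt = W * (C D * h₀ + X * h₁) := by
      rw [h5, hh₁]
      ring
    exact h6
  · rw [eval_add, eval_mul, eval_mul, eval_X, zero_mul, add_zero, eval_C, hh₀1, ← pow_succ']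
    congr 1
    have : 0 < q ^ Fintype.card ι := pow_pos (Fact.out : q.Prime).pos _
    omega

end LocalFD83

end Pool.Agent.AIC
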