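import Mathlib
import Pool.Agent.AIC.Points2
import Pool.Agent.AIC.Star82
import Pool.Agent.AIC.Side76

/-! The second side: integrally closed and henselian localizations. -/

set_option autoImplicit false
set_option linter.unusedSectionVars false

namespace Pool.Agent.AIC

open Finset Polynomial IsLocalRing

section Loc82

variable {R : Type} [CommRing R] [IsDomain R] (m : Ideal R) [hm : m.IsMaximal]

theorem phi_injective (φ : Localization.AtPrime m →+* FractionRing R)
    (hφ : ∀ a : R, φ (algebraMap R _ a) = algebraMap R (FractionRing R) a) :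
    Function.Injective φ := by
  rw [injective_iff_map_eq_zero]
  intro x hx
  obtain ⟨a, s, rfl⟩ := IsLocalization.exists_mk'_eq m.primeCompl x
  have h1 : IsLocalization.mk' (Localization.AtPrime m) a s *
      algebraMap R (Localization.AtPrime m) s = algebraMap R (Localization.AtPrime m) a :=
    IsLocalization.mk'_spec _ a s
  have h2 : φ (algebraMap R (Localization.AtPrime m) a) = 0 := by
    rw [← h1, map_mul, hx, zero_mul]
  rw [hφ] at h2
  have h3 : a = 0 := by simpa using h2
  rw [h3, IsLocalization.mk'_zero]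

/-- roots of monic polynomials lie in the localization when it is integrally closed. -/
theorem exists_of_root_norm (hn : IsIntegrallyClosed (Localization.AtPrime m))
    (φ : Localization.AtPrime m →+* FractionRing R)
    (hφ : ∀ a : R, φ (algebraMap R _ a) = algebraMap R (FractionRing R) a)
    (f : (Localization.AtPrime m)[X]) (hf : f.Monic) (z : FractionRing R)
    (hz : f.eval₂ φ z = 0) : ∃ y, φ y = z := by
  let _ : Algebra (Localization.AtPrime m) (FractionRing R) := φ.toAlgebra
  have hdom : IsDomain (Localization.AtPrime m) :=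
    IsLocalization.isDomain_localization m.primeCompl_le_nonZeroDivisors
  have htow : IsScalarTower R (Localization.AtPrime m) (FractionRing R) :=
    IsScalarTower.of_algebraMap_eq fun a => (hφ a).symm
  have hfr : IsFractionRing (Localization.AtPrime m) (FractionRing R) :=
    IsFractionRing.isFractionRing_of_isDomain_of_isLocalization m.primeCompl
      (Localization.AtPrime m) (FractionRing R)
  have hint : IsIntegral (Localization.AtPrime m) z := ⟨f, hf, hz⟩
  obtain ⟨y, hy⟩ := (IsIntegrallyClosed.isIntegral_iff (R := Localization.AtPrime m)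
    (K := FractionRing R)).1 hint
  exact ⟨y, hy⟩

/-- two families of `k` distinct roots of a nonzero polynomial of degree `< 2k` meet. -/
theorem common_root {K : Type} [Field K] (Φ : K[X]) (hΦ : Φ ≠ 0) (k : ℕ)
    (hk : Φ.natDegree < 2 * k) (r r' : Fin k → K) (hr : Function.Injective r)
    (hr' : Function.Injective r') (h : ∀ j, Φ.IsRoot (r j)) (h' : ∀ j, Φ.IsRoot (r' j)) :
    ∃ i j, r i = r' j := by
  classical
  by_contra hno
  push Not at hno
  have hdisj : Disjoint (Finset.univ.image r) (Finset.univ.image r') := by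
    rw [Finset.disjoint_left]
    intro a ha ha'
    obtain ⟨i, _, rfl⟩ := Finset.mem_image.mp ha
    obtain ⟨j, _, hj⟩ := Finset.mem_image.mp ha'
    exact hno i j hj.symm
  have hsub : (Finset.univ.image r) ∪ (Finset.univ.image r') ⊆ Φ.roots.toFinset := by
    intro a ha
    rw [Multiset.mem_toFinset, mem_roots hΦ]
    rcases Finset.mem_union.mp ha with ha | ha
    · obtain ⟨i, _, rfl⟩ := Finset.mem_image.mp ha
      exact h i
    · obtain ⟨i, _, rfl⟩ := Finset.mem_image.mp ha
      exact h' i
  have h1 := Finset.card_le_card hsub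
  rw [Finset.card_union_of_disjoint hdisj, Finset.card_image_of_injective _ hr,
    Finset.card_image_of_injective _ hr', Finset.card_univ, Fintype.card_fin] at h1
  have h2 := (Multiset.toFinset_card_le Φ.roots).trans (card_roots' Φ)
  omega

end Loc82

section Sec82

variable {R : Type} [CommRing R] [IsDomain R] (m : Ideal R) [hm : m.IsMaximal]
variable {ι : Type} [Fintype ι] [DecidableEq ι] {q : ℕ} [Fact q.Prime]

theorem secNear_norm (hn : IsIntegrallyClosed (Localization.AtPrime m)) : SecNear q m := by
  intro φ hφ c _ x _ z hz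
  refine exists_of_root_norm m hn φ hφ
    (X ^ q - C (x + algebraMap R (Localization.AtPrime m) c ^ q))
    (monic_X_pow_sub_C _ (Fact.out : q.Prime).ne_zero) z ?_
  rw [eval₂_sub, eval₂_X_pow, eval₂_C, hz, map_add, map_pow, hφ, sub_self]

theorem secNear_hens (hH : HenselianLocalRing (Localization.AtPrime m)) (hq : (q : R) ∉ m)
    (ζ : R) (hζ : ∑ j ∈ range q, ζ ^ j = 0) : SecNear q m := by
  intro φ hφ c hc x hx z hz
  have hinj := phi_injective m φ hφ
  obtain ⟨y, hy, hyc⟩ := henselian_near_loc m hH q (Fact.out : q.Prime).pos hq c hc x hx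
  have hinjR : Function.Injective (algebraMap R (FractionRing R)) :=
    IsFractionRing.injective R (FractionRing R)
  have hqK : ((q : ℕ) : FractionRing R) ≠ 0 := by
    intro h
    apply hq
    have h1 : algebraMap R (FractionRing R) (q : R) = 0 := by rw [map_natCast]; exact h
    have h2 : (q : R) = 0 := hinjR (by rw [h1, map_zero])
    rw [h2]
    exact m.zero_mem
  have hζK : ∑ j ∈ range q, (algebraMap R (FractionRing R) ζ) ^ j = 0 := by
    have := congrArg (algebraMap R (FractionRing R)) hζ
    rw [map_sum, map_zero] at this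
    rw [← this]
    exact Finset.sum_congr rfl fun j _ => (map_pow (algebraMap R (FractionRing R)) ζ j).symm
  have hy0 : φ y ≠ 0 := by
    intro h
    have h1 : y = 0 := hinj (by rw [h, map_zero])
    rw [h1, zero_sub, neg_mem_iff, IsLocalization.AtPrime.to_map_mem_maximal_iff
      (Localization.AtPrime m) m c] at hyc
    exact hc hyc
  obtain ⟨a, ha⟩ := zeta_root (algebraMap R (FractionRing R) ζ) hζK hqK z (φ y) hy0 (by
    have h1 := congrArg φ hy
    rw [map_pow φ, map_add, map_pow φ, hφ] at h1
    rw [hz, h1])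
  exact ⟨algebraMap R _ ζ ^ a.val * y, by rw [map_mul, map_pow, hφ, ← ha]⟩

theorem secSide_norm (hn : IsIntegrallyClosed (Localization.AtPrime m))
    (hq2 : (q : R) ∉ m) (ζ : R) (hζ : ∑ j ∈ range q, ζ ^ j = 0)
    (hι : 2 ≤ Fintype.card ι)
    (c : ι → R) (hc2 : ∀ i, c i ∉ m) (hd2 : ∀ i j, i ≠ j → c i ^ q - c j ^ q ∉ m) :
    SecSide q m ζ c := by
  classical
  obtain ⟨I, p, hI, hIM, hw, hP⟩ := side_norm m hq2 ζ hζ hι c hc2 hd2
  refine ⟨I, p, hI, hIM, hw, fun P hPp => ⟨(hP P hPp).1, ?_⟩⟩
  intro Φ hΦ hΦm hΦd φ hφ r hr hroot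
  have hX := (hP P hPp).2
  rw [← hΦ] at hX
  have hinj := phi_injective m φ hφ
  have hdom : IsDomain (Localization.AtPrime m) :=
    IsLocalization.isDomain_localization m.primeCompl_le_nonZeroDivisors
  set α : R →+* Localization.AtPrime m := algebraMap R (Localization.AtPrime m) with hα
  have hcomp : φ.comp α = algebraMap R (FractionRing R) := RingHom.ext hφ
  have hev : ∀ z : FractionRing R, (Φ.map α).eval₂ φ z
      = (Φ.map (algebraMap R (FractionRing R))).eval z := by
    intro z
    rw [eval₂_map, hcomp, eval_map]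
  choose s hs using fun j => exists_of_root_norm m hn φ hφ (Φ.map α) (hΦm.map α) (r j)
    (by rw [hev]; exact hroot j)
  have hsroot : ∀ j, (Φ.map α).IsRoot (s j) := by
    intro j
    apply hinj
    rw [map_zero, ← eval₂_at_apply, hs, hev]
    exact hroot j
  have hsinj : Function.Injective s := by
    intro i j hij
    apply hr
    rw [← hs, ← hs, hij]
  -- reduction
  have hmem : ∀ x : R, α x ∈ maximalIdeal (Localization.AtPrime m) ↔ x ∈ m := fun x =>
    IsLocalization.AtPrime.to_map_mem_maximal_iff (Localization.AtPrime m) m x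
  set g := residue (Localization.AtPrime m) with hg
  have hker : ∀ a ∈ m, (g.comp α) a = 0 := fun a ha => (residue_eq_zero_iff _).2 ((hmem a).2 ha)
  have hX' : X ^ (Fintype.card ι * q ^ Fintype.card ι + 1) ∣ (Φ.map α).map g := by
    have h1 : (Φ.map α).map g = (Φ.map (Ideal.Quotient.mk m)).map
        (Ideal.Quotient.lift m (g.comp α) hker) := by
      rw [Polynomial.map_map, Polynomial.map_map]
      rfl
    rw [h1]
    have h2 := (Polynomial.map_dvd (Ideal.Quotient.lift m (g.comp α) hker) hX)
    rwa [Polynomial.map_pow, Polynomial.map_X] at h2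
  obtain ⟨j, hj⟩ := exists_root_mem g (Φ.map α) (hΦm.map α) _ (by
    rw [hΦm.natDegree_map]; exact hΦd) s hsinj hsroot hX'
  exact ⟨j, s j, (residue_eq_zero_iff _).1 hj, hs j⟩

theorem secSide_hens (hH : HenselianLocalRing (Localization.AtPrime m))
    (hu : ∃ u ∈ m, ∀ M : Ideal R, M.IsMaximal → u ∈ M → M = m)
    (hm0 : ∃ M : Ideal R, M.IsMaximal ∧ M ≠ m)
    (hinf : Infinite (R ⧸ m))
    (hq1 : (q : R) ∉ m) (ζ : R) (hζ : ∑ j ∈ range q, ζ ^ j = 0)
    (hι : 2 ≤ Fintype.card ι)
    (c : ι → R) (hc1 : ∀ i, c i ∉ m) (hd1 : ∀ i j, i ≠ j → c i ^ q - c j ^ q ∉ m) :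
    SecSide q m ζ c := by
  classical
  obtain ⟨I, p, hI, hIM, hw, hP⟩ := side_hens m hH hu hm0 hinf hq1 ζ hζ hι c hc1 hd1
  refine ⟨I, p, hI, hIM, hw, fun P hPp => ⟨(hP P hPp).1, ?_⟩⟩
  intro Φ hΦ hΦm hΦd φ hφ r hr hroot
  obtain ⟨s, hsinj, hsm, hsroot⟩ := (hP P hPp).2
  rw [← hΦ] at hsroot
  have hinj := phi_injective m φ hφ
  set α : R →+* Localization.AtPrime m := algebraMap R (Localization.AtPrime m) with hα
  have hcomp : φ.comp α = algebraMap R (FractionRing R) := RingHom.ext hφ
  have hev : ∀ z : FractionRing R, (Φ.map α).eval₂ φ z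
      = (Φ.map (algebraMap R (FractionRing R))).eval z := by
    intro z
    rw [eval₂_map, hcomp, eval_map]
  obtain ⟨i, j, hij⟩ := common_root (Φ.map (algebraMap R (FractionRing R)))
    (hΦm.map _).ne_zero _ (by rw [hΦm.natDegree_map]; exact hΦd) r (fun j => φ (s j)) hr
    (hinj.comp hsinj) hroot (fun j => by
      have h1 : (Φ.map (algebraMap R (FractionRing R))).eval (φ (s j)) = 0 := by
        rw [← hev, eval₂_at_apply, hsroot j, map_zero]
      exact h1)
  exact ⟨i, s j, hsm j, hij.symm⟩

end Sec82

end Pool.Agent.AIC
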