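import Mathlib
import Pool.Agent.AIC.DefsE83
import Pool.Agent.AIC.LocalFD83
import Pool.Agent.AIC.HenselPow82
import Pool.Agent.AIC.Points2
import Pool.Agent.AIC.Sec82

/-!
# Stage 6, row 3: the sides with leading coefficient `D`

`side_decD` : the decomposition of the determinant modulo `w ^ M`;
`noTwist_of_dvd` : no twisted value vanishes at the multiples of `w ^ E` in the localization;
`firstSideD_hens`, `secSideD_hens` : the two sides for a henselian localization.
-/

set_option autoImplicit false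
set_option linter.unusedSectionVars false

namespace Pool.Agent.AIC

open Finset Polynomial IsLocalRing

variable {ι : Type} [Fintype ι] [DecidableEq ι] {q : ℕ} [Fact q.Prime]

/-- in a local ring a `q`-th root `y` of `r + c ^ q` close to the unit `c` satisfies
`y - c ∈ (r)`. -/
theorem dvd_sub_of_pow {S : Type*} [CommRing S] [IsLocalRing S] (q : ℕ) (hq : IsUnit (q : S))
    (c y r : S) (hc : IsUnit c) (hy : y ^ q = r + c ^ q) (hyc : y - c ∈ maximalIdeal S) :
    r ∣ y - c := by
  have h1 := (Commute.all y c).geom_sum₂_mul q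
  rw [hy, add_sub_cancel_right] at h1
  have h2 : IsUnit (∑ i ∈ range q, y ^ i * c ^ (q - 1 - i)) := by
    rw [← residue_ne_zero_iff_isUnit, map_sum]
    have h3 : residue S y = residue S c := by
      rw [← sub_eq_zero, ← map_sub]
      exact (residue_eq_zero_iff _).2 hyc
    have h4 : ∀ i ∈ range q, residue S (y ^ i * c ^ (q - 1 - i)) = residue S c ^ (q - 1) := by
      intro i hi
      rw [map_mul, map_pow, map_pow, h3, ← pow_add]
      congr 1
      have := Finset.mem_range.1 hi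
      omega
    rw [Finset.sum_congr rfl h4, Finset.sum_const, card_range, nsmul_eq_mul]
    refine mul_ne_zero ?_ (pow_ne_zero _ ((residue_ne_zero_iff_isUnit c).2 hc))
    rw [← map_natCast (residue S)]
    exact (residue_ne_zero_iff_isUnit _).2 hq
  obtain ⟨θ, hθ⟩ := h2
  rw [← hθ] at h1
  refine ⟨↑θ⁻¹, ?_⟩
  rw [← h1]
  calc y - c = (↑θ * ↑θ⁻¹ : S) * (y - c) := by rw [Units.mul_inv, one_mul]
    _ = _ := by ring

/-- **the decomposition** : there is local data modulo `w ^ M` such that for every lift the twisted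
values at `0` are `D` and the determinant is `∏ (X - w ^ (E + j)) * H`, `H (0) = D ^ (q ^ n)`, all
modulo `w ^ M`. -/
theorem side_decD {L : Type} [CommRing L] [IsDomain L] (m : Ideal L) [hm : m.IsMaximal]
    (w : L) (hwM : ∀ M : Ideal L, M.IsMaximal → w ∈ M → M = m)
    (D s₀ : L) (h : ℕ) (hD : D = w ^ h * s₀) (hs₀ : s₀ ∉ m)
    (hq : (q : L) ∉ m) (ζ : L) (hζ : ∑ j ∈ range q, ζ ^ j = 0)
    (c : ι → L) (hc : ∀ i, c i ∉ m)
    (d : ℕ) (hd : 0 < d) (k : ℕ) (η : ι → PowerSeries L)
    (hη : ∀ i, η i ^ q = PowerSeries.X + PowerSeries.C (c i ^ q))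
    (hη0 : ∀ i, PowerSeries.constantCoeff (η i) = c i)
    (hJ : JetsD (q := q) ζ c η d (k + 1) D) (E M : ℕ) (hE : h < E) :
    ∃ p : (ι → ZMod q) → (L ⧸ Ideal.span {w ^ M})[X],
      (∀ s, p s ≠ 0 → q * (p s).natDegree + wt s < q * d) ∧
      ∀ P : (ι → ZMod q) → L[X],
        (∀ s, (P s).map (Ideal.Quotient.mk (Ideal.span {w ^ M})) = p s) →
        (∀ δ : ι → ZMod q, δ ≠ 0 → ∃ z,
          ev (tw ζ δ c) (fun s => (famD D d P s).eval 0) = D + w ^ M * z) ∧
        ∃ H E₀ : L[X], (nmat (fun i => X + C (c i ^ q)) (famD D d P)).det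
            = (∏ j : Fin k, (X - C (w ^ (E + (j : ℕ))))) * H + C (w ^ M) * E₀ ∧
          ∃ z, H.eval 0 = D ^ (q ^ Fintype.card ι) + w ^ M * z := by
  classical
  have hvM : ∀ M' : Ideal L, M'.IsMaximal → w ^ M ∈ M' → M' = m := fun M' hM' h' =>
    hwM M' hM' (hM'.isPrime.mem_of_pow_mem _ h')
  set f : L →+* (L ⧸ Ideal.span {w ^ M}) := Ideal.Quotient.mk (Ideal.span {w ^ M}) with hf
  have hunit : ∀ x, x ∉ m → IsUnit (f x) := isUnit_quot m (w ^ M) hvM
  have hζB : ∑ j ∈ range q, (f ζ) ^ j = 0 := by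
    have := congrArg f hζ
    simpa [map_sum, map_pow] using this
  have hw : f w ^ M = 0 := by
    rw [← map_pow]
    exact Ideal.Quotient.eq_zero_iff_mem.mpr (Ideal.mem_span_singleton_self _)
  obtain ⟨v, hv⟩ := (hunit s₀ hs₀).exists_right_inv
  have hηB : ∀ i, PowerSeries.map f (η i) ^ q
      = PowerSeries.X + PowerSeries.C (f (c i) ^ q) := by
    intro i
    rw [← map_pow, hη i, map_add, PowerSeries.map_X, PowerSeries.map_C, map_pow f]
  have hη0B : ∀ i, PowerSeries.constantCoeff (PowerSeries.map f (η i)) = f (c i) := by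
    intro i
    rw [← hη0 i, ← PowerSeries.coeff_zero_eq_constantCoeff_apply, PowerSeries.coeff_map,
      PowerSeries.coeff_zero_eq_constantCoeff_apply]
  obtain ⟨p, hpw, ⟨HB, hdet, hHB⟩, hval⟩ := local_FD (q := q) (ι := ι) (f ζ) hζB
    (by have := hunit _ hq; rwa [map_natCast] at this) (fun i => f (c i))
    (fun i => hunit _ (hc i)) k (f D) (f w) ⟨M, hw⟩ (fun j => f (w ^ (E + (j : ℕ))))
    (fun j => ⟨f w ^ (E + (j : ℕ) - h - 1) * v, by
      have h1 : E + (j : ℕ) = h + 1 + (E + (j : ℕ) - h - 1) := by omega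
      conv_lhs => rw [h1]
      rw [hD, map_mul, map_pow f, map_pow f, pow_add (f w) (h + 1), pow_succ]
      calc f w ^ h * f w * f w ^ (E + (j : ℕ) - h - 1)
          = f w ^ h * f w * f w ^ (E + (j : ℕ) - h - 1) * (f s₀ * v) := by rw [hv, mul_one]
        _ = _ := by ring⟩) d hd (fun i => PowerSeries.map f (η i)) hηB hη0B
    (hJ.map f Ideal.Quotient.mk_surjective)
  have hfz : ∀ x y : L, f x = f y → ∃ z, x = y + w ^ M * z := by
    intro x y hxy
    have h1 : x - y ∈ Ideal.span {w ^ M} := Ideal.Quotient.eq.1 hxy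
    obtain ⟨z, hz⟩ := Ideal.mem_span_singleton.1 h1
    exact ⟨z, by linear_combination hz⟩
  refine ⟨p, hpw, fun P hP => ?_⟩
  have hfam : ∀ s, (famD D d P s).map f = famD (f D) d p s := by
    intro s
    rw [famD_map]
    have h1 : (fun s => (P s).map f) = p := funext hP
    rw [h1]
  constructor
  · intro δ hδ
    apply hfz
    have e1 : (fun i => f (tw ζ δ c i)) = tw (f ζ) δ (fun i => f (c i)) := by
      funext i
      simp only [tw, map_mul, map_pow]
    have e2 : (fun s => f ((famD D d P s).eval 0)) = fun s => (famD (f D) d p s).eval 0 := by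
      funext s
      rw [← hfam s, Polynomial.eval_map, ← map_zero f, Polynomial.eval₂_at_apply]
    rw [ev_map, e1, e2, hval δ hδ]
  · set Φ : L[X] := (nmat (fun i => X + C (c i ^ q)) (famD D d P)).det with hΦ
    have hmap : Φ.map f = (∏ j : Fin k, (X - C (f (w ^ (E + (j : ℕ)))))) * HB := by
      rw [← hdet, hΦ]
      have h1 := det_nmat_map (Polynomial.mapRingHom f) (fun i => X + C (c i ^ q)) (famD D d P)
      simp only [Polynomial.coe_mapRingHom] at h1
      rw [h1]
      congr 2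
      · ext1 i
        simp
      · ext1 s
        exact hfam s
    obtain ⟨H, hHmap⟩ := Polynomial.map_surjective f Ideal.Quotient.mk_surjective HB
    obtain ⟨E₀, hE₀⟩ : ∃ E₀ : L[X],
        Φ = (∏ j : Fin k, (X - C (w ^ (E + (j : ℕ))))) * H + C (w ^ M) * E₀ := by
      have h1 : C (w ^ M) ∣ Φ - (∏ j : Fin k, (X - C (w ^ (E + (j : ℕ))))) * H := by
        rw [C_dvd_iff_dvd_coeff]
        intro i
        have h2 : (Φ - (∏ j : Fin k, (X - C (w ^ (E + (j : ℕ))))) * H).map f = 0 := by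
          rw [Polynomial.map_sub, hmap, Polynomial.map_mul, Polynomial.map_prod, hHmap]
          simp
        have h3 := congrArg (fun f => coeff f i) h2
        simp only [coeff_map, coeff_zero] at h3
        exact Ideal.mem_span_singleton.mp (Ideal.Quotient.eq_zero_iff_mem.mp h3)
      obtain ⟨E₁, hE₁⟩ := h1
      exact ⟨E₁, by rw [← hE₁]; ring⟩
    refine ⟨H, E₀, hE₀, ?_⟩
    apply hfz
    rw [map_pow, ← hHB, ← hHmap, Polynomial.eval_map, ← map_zero f, Polynomial.eval₂_at_apply]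

/-- no twisted value vanishes at a multiple of `w ^ E` in the localization. -/
theorem noTwist_of_dvd {R : Type} [CommRing R] [IsDomain R] (m : Ideal R) [hm : m.IsMaximal]
    (w : R) (hw : w ∈ m) (hw0 : w ≠ 0) (D s₀ : R) (h : ℕ) (hD : D = w ^ h * s₀) (hs₀ : s₀ ∉ m)
    (hq : (q : R) ∉ m) (ζ : R) (c : ι → R) (hc : ∀ i, c i ∉ m) (E M : ℕ) (hE : h < E)
    (hEM : E ≤ M) (P : (ι → ZMod q) → R[X])
    (hval : ∀ δ : ι → ZMod q, δ ≠ 0 → ∃ z,
      ev (tw ζ δ c) (fun s => (famD D (2 * Fintype.card ι) P s).eval 0) = D + w ^ M * z)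
    (x : Localization.AtPrime m) (hx : algebraMap R (Localization.AtPrime m) w ^ E ∣ x) :
    NoTwist q m ζ c D P x := by
  classical
  set α : R →+* Localization.AtPrime m := algebraMap R (Localization.AtPrime m) with hα
  have hmem : ∀ x : R, α x ∈ maximalIdeal (Localization.AtPrime m) ↔ x ∈ m := fun x =>
    IsLocalization.AtPrime.to_map_mem_maximal_iff (Localization.AtPrime m) m x
  have hunit : ∀ x : R, x ∉ m → IsUnit (α x) := fun x hx => by
    have := (hmem x).not.2 hx
    simpa [mem_maximalIdeal, mem_nonunits_iff] using this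
  have hinj : Function.Injective α := IsLocalization.injective _ m.primeCompl_le_nonZeroDivisors
  have hdom : IsDomain (Localization.AtPrime m) :=
    IsLocalization.isDomain_localization m.primeCompl_le_nonZeroDivisors
  intro y hy hyc δ hδ
  obtain ⟨z', hz'⟩ := hval δ hδ
  set d := 2 * Fintype.card ι with hd
  set G : Localization.AtPrime m →+* (Localization.AtPrime m ⧸ Ideal.span {(α w) ^ E}) :=
    Ideal.Quotient.mk _ with hG
  have hG0 : ∀ x, (α w) ^ E ∣ x → G x = 0 := fun x hx =>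
    Ideal.Quotient.eq_zero_iff_mem.2 (Ideal.mem_span_singleton.2 hx)
  have hGy : ∀ i, G (y i) = G (α (c i)) := by
    intro i
    have h1 : x ∣ y i - α (c i) := dvd_sub_of_pow q
      (by have := hunit _ hq; rwa [map_natCast] at this) (α (c i)) (y i) x (hunit _ (hc i))
      (hy i) (hyc i)
    have h2 := hG0 _ (hx.trans h1)
    rw [map_sub] at h2
    exact sub_eq_zero.1 h2
  have hGv : G (ev (tw (α ζ) δ y) (fun s => ((famD D d P s).map α).eval x)) = G (α D) := by
    have h1 : G (α (ev (tw ζ δ c) (fun s => (famD D d P s).eval 0))) = G (α D) := by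
      rw [hz', map_add, map_add, map_mul α, map_pow α]
      rw [hG0 _ ((pow_dvd_pow _ hEM).trans (Dvd.intro _ rfl)), add_zero]
    have e1 : (fun i => G (tw (α ζ) δ y i)) = fun i => G (α (tw ζ δ c i)) := by
      funext i
      simp only [tw, map_mul, map_pow, hGy]
    have e2 : (fun s => G (((famD D d P s).map α).eval x))
        = fun s => G (α ((famD D d P s).eval 0)) := by
      funext s
      rw [eval_map, hom_eval₂, hG0 _ hx, ← map_zero (G.comp α), eval₂_at_apply]
      rfl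
    rw [← h1, ev_map, ev_map, ev_map, e1, e2]
  obtain ⟨κ, hκ⟩ : ∃ κ, ev (tw (α ζ) δ y) (fun s => ((famD D d P s).map α).eval x)
      = α D + (α w) ^ E * κ := by
    have h1 := Ideal.Quotient.eq.1 hGv
    obtain ⟨κ, hκ⟩ := Ideal.mem_span_singleton.1 h1
    exact ⟨κ, by linear_combination hκ⟩
  intro hcon
  rw [hκ, hD, map_mul, map_pow] at hcon
  have h2 : E = h + (E - h) := by omega
  rw [h2, pow_add] at hcon
  have h3 : (α w) ^ h * (α s₀ + (α w) ^ (E - h) * κ) = 0 := by linear_combination hcon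
  rcases mul_eq_zero.1 h3 with h4 | h4
  · exact hw0 (hinj (by rw [eq_zero_of_pow_eq_zero h4, map_zero]))
  · have h5 : IsUnit (α s₀ + α w ^ (E - h) * κ) := by
      rw [← residue_ne_zero_iff_isUnit, map_add, map_mul, map_pow,
        (residue_eq_zero_iff (α w)).2 ((hmem w).2 hw), zero_pow (by omega), zero_mul, add_zero]
      exact (residue_ne_zero_iff_isUnit _).2 (hunit s₀ hs₀)
    exact h5.ne_zero h4

/-- the roots in a henselian localization. -/
theorem sideD_roots {R : Type} [CommRing R] [IsDomain R] (m : Ideal R) [hm : m.IsMaximal]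
    (hH : HenselianLocalRing (Localization.AtPrime m))
    (w : R) (hw : w ∈ m) (hw0 : w ≠ 0)
    (D s₀ : R) (h : ℕ) (hD : D = w ^ h * s₀) (hs₀ : s₀ ∉ m) (N k E M : ℕ) (hE : h * N < E)
    (hM : 2 * (k * (E + k) + h * N) + E + k + 1 ≤ M) (Φ H E₀ : R[X])
    (hΦ : Φ = (∏ j : Fin k, (X - C (w ^ (E + (j : ℕ))))) * H + C (w ^ M) * E₀)
    (z : R) (hH0 : H.eval 0 = D ^ N + w ^ M * z) :
    Φ ≠ 0 ∧ ∃ r : Fin k → Localization.AtPrime m, Function.Injective r ∧
      (∀ j, r j ∈ maximalIdeal (Localization.AtPrime m)) ∧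
      (∀ j, (Φ.map (algebraMap R (Localization.AtPrime m))).IsRoot (r j)) ∧
      ∀ j, algebraMap R (Localization.AtPrime m) w ^ E ∣ r j := by
  classical
  set S := Localization.AtPrime m with hS
  set α : R →+* S := algebraMap R S with hα
  have hmem : ∀ x : R, α x ∈ maximalIdeal S ↔ x ∈ m := fun x =>
    IsLocalization.AtPrime.to_map_mem_maximal_iff S m x
  have hunit : ∀ x : R, x ∉ m → IsUnit (α x) := fun x hx => by
    have := (hmem x).not.2 hx
    simpa [mem_maximalIdeal, mem_nonunits_iff] using this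
  have hinj : Function.Injective α := IsLocalization.injective _ m.primeCompl_le_nonZeroDivisors
  have hdom : IsDomain S :=
    IsLocalization.isDomain_localization m.primeCompl_le_nonZeroDivisors
  have hunit1 : ∀ (η : S) (n : ℕ) (z : S), IsUnit η → 0 < n → IsUnit (η + α w ^ n * z) := by
    intro η n z hη hn
    rw [← residue_ne_zero_iff_isUnit, map_add, map_mul, map_pow,
      (residue_eq_zero_iff (α w)).2 ((hmem w).2 hw), zero_pow hn.ne', zero_mul, add_zero]
    exact (residue_ne_zero_iff_isUnit _).2 hη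
  have hMh : h * N < M := by omega
  have hH0' : H.eval 0 = w ^ (h * N) * (s₀ ^ N + w ^ (M - h * N) * z) := by
    have h2 : M = h * N + (M - h * N) := by omega
    rw [hH0, hD]
    conv_lhs => rw [h2]
    rw [pow_add w (h * N), mul_pow, ← pow_mul]; ring
  have hs₀' : s₀ ^ N + w ^ (M - h * N) * z ∉ m := by
    intro h1
    have h2 : w ^ (M - h * N) * z ∈ m :=
      m.mul_mem_right _ (Ideal.pow_mem_of_mem _ hw _ (by omega))
    exact hs₀ (hm.isPrime.mem_of_pow_mem _ ((Ideal.add_mem_iff_left _ h2).1 h1))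
  have hW : (∏ j : Fin k, (X - C (w ^ (E + (j : ℕ)))) : R[X]).Monic :=
    monic_prod_of_monic _ _ fun j _ => monic_X_sub_C _
  refine ⟨?_, ?_⟩
  · intro h0
    rw [h0] at hΦ
    set f : R →+* (R ⧸ Ideal.span {w ^ M}) := Ideal.Quotient.mk (Ideal.span {w ^ M}) with hf
    have hfw : f (w ^ M) = 0 :=
      Ideal.Quotient.eq_zero_iff_mem.mpr (Ideal.mem_span_singleton_self _)
    have h1 := congrArg (Polynomial.map f) hΦ
    rw [Polynomial.map_zero, Polynomial.map_add, Polynomial.map_mul, Polynomial.map_mul,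
      Polynomial.map_C, hfw, C_0, zero_mul, add_zero] at h1
    have h2 : H.map f = 0 := ((hW.map f).mul_right_eq_zero_iff).1 h1.symm
    have h3 : f (H.eval 0) = 0 := by
      rw [← Polynomial.eval₂_at_apply, map_zero, ← Polynomial.eval_map, h2, eval_zero]
    obtain ⟨z', hz'⟩ := Ideal.mem_span_singleton.1 (Ideal.Quotient.eq_zero_iff_mem.1 h3)
    rw [hH0'] at hz'
    have h4 : M = h * N + (M - h * N) := by omega
    rw [h4, pow_add w (h * N), mul_assoc] at hz'
    have h5 := mul_left_cancel₀ (pow_ne_zero _ hw0) hz'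
    rw [show h * N + (M - h * N) - h * N = M - h * N by omega] at h5
    apply hs₀'
    rw [h5]
    exact m.mul_mem_right _ (Ideal.pow_mem_of_mem _ hw _ (by omega))
  have hΦS : Φ.map α = (∏ j : Fin k, (X - C ((α w) ^ (E + (j : ℕ))))) * H.map α
      + C ((α w) ^ M) * E₀.map α := by
    rw [hΦ]
    simp only [Polynomial.map_add, Polynomial.map_mul, Polynomial.map_prod, Polynomial.map_sub,
      Polynomial.map_X, Polynomial.map_C, map_pow, Polynomial.map_pow]
  have hHS0 : (H.map α).eval 0 = (α w) ^ (h * N) * α (s₀ ^ N + w ^ (M - h * N) * z) := by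
    have h1 : (H.map α).eval 0 = α (H.eval 0) := by
      rw [← map_zero α, eval_map, eval₂_at_apply]
    rw [h1, hH0', map_mul, map_pow]
  obtain ⟨r, hrinj, hrs, hrroot⟩ := henselian_roots_pow (α w) ((hmem w).2 hw)
    (fun h0 => hw0 (hinj (by rw [h0, map_zero]))) k E (h * N) M hE _
    (hunit _ hs₀') (Φ.map α) (H.map α) (E₀.map α) hΦS hHS0 hM
  have hrE : ∀ j, (α w) ^ E ∣ r j := by
    intro j
    obtain ⟨s, hs⟩ := hrs j
    rw [hs, pow_add, pow_add]
    exact dvd_add (Dvd.intro _ rfl) (Dvd.intro ((α w) ^ k * s) (by ring))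
  have hEpos : 0 < E := by omega
  have hrm : ∀ j, r j ∈ maximalIdeal S := by
    intro j
    exact Ideal.mem_of_dvd _ (hrE j) (Ideal.pow_mem_of_mem _ ((hmem w).2 hw) _ hEpos)
  exact ⟨r, hrinj, hrm, hrroot, hrE⟩

/-- local data at a maximal ideal with henselian localization, leading coefficient `D`. -/
theorem sideD_hens_aux {R : Type} [CommRing R] [IsDomain R] (m : Ideal R) [hm : m.IsMaximal]
    (hH : HenselianLocalRing (Localization.AtPrime m))
    (w : R) (hw : w ∈ m) (hw0 : w ≠ 0) (hwM : ∀ M : Ideal R, M.IsMaximal → w ∈ M → M = m)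
    (D s₀ : R) (h : ℕ) (hD : D = w ^ h * s₀) (hs₀ : s₀ ∉ m)
    (hq : (q : R) ∉ m) (ζ : R) (hζ : ∑ j ∈ range q, ζ ^ j = 0)
    (hι : 0 < Fintype.card ι) (c : ι → R) (hc : ∀ i, c i ∉ m) (η : ι → PowerSeries R)
    (hη : ∀ i, η i ^ q = PowerSeries.X + PowerSeries.C (c i ^ q))
    (hη0 : ∀ i, PowerSeries.constantCoeff (η i) = c i)
    (hJ : JetsD (q := q) ζ c η (2 * Fintype.card ι)
      (Fintype.card ι * q ^ Fintype.card ι + 1 + 1) D) :
    ∃ (I : Ideal R) (p : (ι → ZMod q) → (R ⧸ I)[X]), I ≤ m ∧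
      (∀ M : Ideal R, M.IsMaximal → I ≤ M → M = m) ∧
      (∀ s, p s ≠ 0 → q * (p s).natDegree + wt s < q * (2 * Fintype.card ι)) ∧
      ∀ P : (ι → ZMod q) → R[X], (∀ s, (P s).map (Ideal.Quotient.mk I) = p s) →
        (nmat (fun i => X + C (c i ^ q)) (famD D (2 * Fintype.card ι) P)).det ≠ 0 ∧
        ∃ r : Fin (Fintype.card ι * q ^ Fintype.card ι + 1) → Localization.AtPrime m,
          Function.Injective r ∧ (∀ j, r j ∈ maximalIdeal (Localization.AtPrime m)) ∧
          (∀ j, ((nmat (fun i => X + C (c i ^ q)) (famD D (2 * Fintype.card ι) P)).det.map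
            (algebraMap R (Localization.AtPrime m))).IsRoot (r j)) ∧
          ∀ j, NoTwist q m ζ c D P (r j) := by
  set N := q ^ Fintype.card ι with hN
  have hNpos : 0 < N := pow_pos (Fact.out : q.Prime).pos _
  set k := Fintype.card ι * N + 1 with hk
  set E := h * N + 1 with hE
  set M := 2 * (k * (E + k) + h * N) + E + k + 1 with hM
  have hhE : h < E := by
    have := Nat.le_mul_of_pos_right h hNpos
    omega
  obtain ⟨p, hpw, hP⟩ := side_decD m w hwM D s₀ h hD hs₀ hq ζ hζ c hc (2 * Fintype.card ι)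
    (by omega) k η hη hη0 hJ E M hhE
  refine ⟨Ideal.span {w ^ M}, p, ?_, ?_, hpw, fun P hPp => ?_⟩
  · rw [Ideal.span_singleton_le_iff_mem]
    exact Ideal.pow_mem_of_mem _ hw _ (by omega)
  · intro M' hM' hle
    exact hwM M' hM' (hM'.isPrime.mem_of_pow_mem _ (hle (Ideal.mem_span_singleton_self _)))
  · obtain ⟨hval, H, E₀, hΦ, z, hz⟩ := hP P hPp
    obtain ⟨hne, r, hr1, hr2, hr3, hr4⟩ := sideD_roots m hH w hw hw0 D s₀ h hD hs₀ N k E M
      (by omega) (by omega) _ H E₀ hΦ z hz
    exact ⟨hne, r, hr1, hr2, hr3, fun j => noTwist_of_dvd m w hw hw0 D s₀ h hD hs₀ hq ζ c hc E M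
      hhE (by omega) P hval (r j) (hr4 j)⟩

/-- **the first side**. -/
theorem firstSideD_hens {R : Type} [CommRing R] [IsDomain R] (m : Ideal R) [hm : m.IsMaximal]
    (hH : HenselianLocalRing (Localization.AtPrime m))
    (w : R) (hw : w ∈ m) (hw0 : w ≠ 0) (hwM : ∀ M : Ideal R, M.IsMaximal → w ∈ M → M = m)
    (D s₀ : R) (h : ℕ) (hD : D = w ^ h * s₀) (hs₀ : s₀ ∉ m)
    (hq : (q : R) ∉ m) (ζ : R) (hζ : ∑ j ∈ range q, ζ ^ j = 0)
    (hι : 0 < Fintype.card ι) (c : ι → R) (hc : ∀ i, c i ∉ m) (η : ι → PowerSeries R)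
    (hη : ∀ i, η i ^ q = PowerSeries.X + PowerSeries.C (c i ^ q))
    (hη0 : ∀ i, PowerSeries.constantCoeff (η i) = c i)
    (hJ : JetsD (q := q) ζ c η (2 * Fintype.card ι)
      (Fintype.card ι * q ^ Fintype.card ι + 1 + 1) D) :
    FirstSideD q m ζ c D := by
  obtain ⟨I, p, h1, h2, h3, h4⟩ := sideD_hens_aux m hH w hw hw0 hwM D s₀ h hD hs₀ hq ζ hζ hι c hc
    η hη hη0 hJ
  exact ⟨I, p, h1, h2, h3, fun P hP => (h4 P hP).2⟩

/-- **the second side** for a henselian localization. -/
theorem secSideD_hens {R : Type} [CommRing R] [IsDomain R] (m : Ideal R) [hm : m.IsMaximal]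
    (hH : HenselianLocalRing (Localization.AtPrime m))
    (w : R) (hw : w ∈ m) (hw0 : w ≠ 0) (hwM : ∀ M : Ideal R, M.IsMaximal → w ∈ M → M = m)
    (D s₀ : R) (h : ℕ) (hD : D = w ^ h * s₀) (hs₀ : s₀ ∉ m)
    (hq : (q : R) ∉ m) (ζ : R) (hζ : ∑ j ∈ range q, ζ ^ j = 0)
    (hι : 0 < Fintype.card ι) (c : ι → R) (hc : ∀ i, c i ∉ m) (η : ι → PowerSeries R)
    (hη : ∀ i, η i ^ q = PowerSeries.X + PowerSeries.C (c i ^ q))
    (hη0 : ∀ i, PowerSeries.constantCoeff (η i) = c i)
    (hJ : JetsD (q := q) ζ c η (2 * Fintype.card ι)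
      (Fintype.card ι * q ^ Fintype.card ι + 1 + 1) D) :
    SecSideD q m ζ c D := by
  obtain ⟨I, p, h1, h2, h3, h4⟩ := sideD_hens_aux m hH w hw hw0 hwM D s₀ h hD hs₀ hq ζ hζ hι c hc
    η hη hη0 hJ
  refine ⟨I, p, h1, h2, h3, fun P hP Φ hΦ hdeg φ hφ r hr hroot => ?_⟩
  obtain ⟨hne, r', hr'inj, hr'm, hr'root, hr'tw⟩ := h4 P hP
  rw [← hΦ] at hne hr'root
  have hinj := phi_injective m φ hφ
  set α : R →+* Localization.AtPrime m := algebraMap R (Localization.AtPrime m) with hα
  have hcomp : φ.comp α = algebraMap R (FractionRing R) := RingHom.ext hφ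
  have hinjR : Function.Injective (algebraMap R (FractionRing R)) :=
    IsFractionRing.injective R (FractionRing R)
  have hΦK : Φ.map (algebraMap R (FractionRing R)) ≠ 0 := by
    rwa [Ne, Polynomial.map_eq_zero_iff hinjR]
  obtain ⟨i, j, hij⟩ := common_root (Φ.map (algebraMap R (FractionRing R))) hΦK
    (Fintype.card ι * q ^ Fintype.card ι + 1)
    (by rw [Polynomial.natDegree_map_eq_of_injective hinjR]; exact hdeg) r (fun j => φ (r' j)) hr
    (fun a b hab => hr'inj (hinj hab)) hroot (fun j => by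
      have h5 := hr'root j
      rw [IsRoot.def] at h5 ⊢
      rw [← hcomp, ← Polynomial.map_map, eval_map, eval₂_at_apply, h5, map_zero])
  exact ⟨i, r' j, hr'm j, hij.symm, hr'tw j⟩

end Pool.Agent.AIC
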