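import Mathlib
import Pool.Agent.AIC.Norm
import Pool.Agent.AIC.PointsAux
import Pool.Agent.AIC.Side76

/-!
# Unibranch local domains

`near_root_mem34` is the basic lemma: in a local ring `A` with a local integral extension `S`, an
element of the maximal ideal of `S` which is a simple root of a polynomial over `A` near `0` lies
in `A`.
-/

set_option autoImplicit false
set_option linter.unusedSectionVars false

namespace Pool.Agent.AIC

open Finset Polynomial IsLocalRing

section Near34

variable {A S : Type} [CommRing A] [IsLocalRing A] [CommRing S] [IsLocalRing S]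
  [Algebra A S] [Algebra.IsIntegral A S]

theorem isUnit_map_iff34 (a : A) : IsUnit (algebraMap A S a) ↔ IsUnit a := by
  refine ⟨fun h => ?_, fun h => h.map _⟩
  by_contra hn
  -- `a` lies in the maximal ideal, which is the contraction of the maximal ideal of `S`
  have h1 : a ∈ (maximalIdeal S).comap (algebraMap A S) := by
    have h2 : ((maximalIdeal S).comap (algebraMap A S)).IsMaximal :=
      Ideal.isMaximal_comap_of_isIntegral_of_isMaximal (maximalIdeal S)
    rw [IsLocalRing.eq_maximalIdeal h2]
    exact hn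
  exact h1 h

theorem mem_max_iff34 (a : A) : algebraMap A S a ∈ maximalIdeal S ↔ a ∈ maximalIdeal A := by
  rw [mem_maximalIdeal, mem_maximalIdeal, mem_nonunits_iff, mem_nonunits_iff, isUnit_map_iff34]

theorem near_root_mem34 (f : A[X]) (h0 : f.eval 0 ∈ maximalIdeal A)
    (h1 : IsUnit (f.derivative.eval 0)) (t : S) (ht : t ∈ maximalIdeal S)
    (hf : aeval t f = 0) : ∃ a ∈ maximalIdeal A, algebraMap A S a = t := by
  classical
  set B := Algebra.adjoin A {t} with hB
  have hfin : Module.Finite A B :=
    Algebra.finite_adjoin_simple_of_isIntegral (Algebra.IsIntegral.isIntegral t)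
  have hintB : Algebra.IsIntegral B S := Algebra.IsIntegral.tower_top A
  have hloc : IsLocalHom (algebraMap B S) := by
    have hinj : Function.Injective (algebraMap B S) := Subtype.val_injective
    exact RingHom.IsIntegral.isLocalHom (algebraMap_isIntegral_iff.mpr hintB) hinj
  obtain ⟨tB, htB⟩ : ∃ tB : B, (tB : S) = t := ⟨⟨t, Algebra.self_mem_adjoin_singleton A t⟩, rfl⟩
  have hval : ∀ p : A[X], ((aeval tB p : B) : S) = aeval t p := by
    intro p
    have := Polynomial.aeval_algHom_apply B.val tB p
    rw [← htB]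
    exact this.symm
  -- expansion of `f`
  obtain ⟨v, hv⟩ : ∃ v : B, v = algebraMap A B (f.coeff 1) + tB * aeval tB (f.divX.divX) := ⟨_, rfl⟩
  have hexp : algebraMap A B (f.coeff 0) + tB * v = 0 := by
    have e1 : f = C (f.coeff 0) + X * (C (f.coeff 1) + X * f.divX.divX) := by
      have h2 : f.divX = X * f.divX.divX + C (f.coeff 1) := by
        have := (X_mul_divX_add f.divX).symm
        rwa [coeff_divX] at this
      have h3 := (X_mul_divX_add f).symm
      conv_lhs => rw [h3, h2]
      ring
    have e2 : aeval tB f = 0 := by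
      apply Subtype.val_injective
      rw [hval, hf]
      rfl
    rw [e1] at e2
    simp only [map_add, map_mul, aeval_X, aeval_C] at e2
    rw [hv]
    exact e2
  have hf1 : IsUnit (f.coeff 1) := by
    have : f.derivative.eval 0 = f.coeff 1 := by
      rw [← coeff_zero_eq_eval_zero, coeff_derivative]; simp
    rwa [this] at h1
  have hvu : IsUnit v := by
    apply isUnit_of_map_unit (algebraMap B S)
    have e3 : algebraMap B S v = algebraMap A S (f.coeff 1) + t * aeval t (f.divX.divX) := by
      rw [hv, map_add, map_mul]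
      congr 1
      congr 1
      exact hval _
    rw [e3]
    by_contra hn
    have h4 : algebraMap A S (f.coeff 1) + t * aeval t (f.divX.divX) ∈ maximalIdeal S := hn
    have h5 : algebraMap A S (f.coeff 1) ∈ maximalIdeal S := by
      have := Ideal.sub_mem _ h4 (Ideal.mul_mem_right (aeval t (f.divX.divX)) _ ht)
      simpa using this
    exact h5 (hf1.map _)
  obtain ⟨w, hw⟩ := hvu
  have ht2 : ∀ z : B, tB * z = f.coeff 0 • (-(↑w⁻¹ : B) * z) := by
    intro z
    have h6 : tB * v = - algebraMap A B (f.coeff 0) := eq_neg_of_add_eq_zero_right hexp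
    have h7 : tB = - algebraMap A B (f.coeff 0) * (↑w⁻¹ : B) := by
      rw [← h6, ← hw, mul_assoc, Units.mul_inv, mul_one]
    rw [Algebra.smul_def]
    conv_lhs => rw [h7]
    ring
  have h00 : f.coeff 0 ∈ maximalIdeal A := by rwa [coeff_zero_eq_eval_zero]
  have hN : (⊤ : Submodule A B) ≤ LinearMap.range (Algebra.linearMap A B) := by
    refine Submodule.le_of_le_smul_of_le_jacobson_bot (I := maximalIdeal A) hfin.fg_top ?_ ?_
    · rw [IsLocalRing.jacobson_eq_maximalIdeal ⊥ bot_ne_top]
    · intro b _
      obtain ⟨p, hp⟩ : ∃ p : A[X], aeval tB p = b := by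
        have h8 : (b : S) ∈ (aeval t : A[X] →ₐ[A] S).range := by
          rw [← Algebra.adjoin_singleton_eq_range_aeval]
          exact b.2
        obtain ⟨p, hp⟩ := h8
        refine ⟨p, ?_⟩
        apply Subtype.val_injective
        rw [hval]
        exact hp
      have h9 : b = algebraMap A B (p.coeff 0) + tB * aeval tB p.divX := by
        rw [← hp]
        conv_lhs => rw [← X_mul_divX_add p]
        simp only [map_add, map_mul, aeval_X, aeval_C]
        ring
      rw [h9]
      refine Submodule.add_mem_sup ⟨p.coeff 0, rfl⟩ ?_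
      rw [ht2]
      exact Submodule.smul_mem_smul h00 trivial
  obtain ⟨a, ha⟩ := hN (show tB ∈ ⊤ from trivial)
  have ha' : algebraMap A S a = t := by
    rw [← htB, ← ha]
    rfl
  refine ⟨a, ?_, ha'⟩
  rw [← mem_max_iff34 (S := S), ha']
  exact ht

/-- a simple root near `a` lies in `A`. -/
theorem near_root_mem34' (f : A[X]) (a : A) (h0 : f.eval a ∈ maximalIdeal A)
    (h1 : IsUnit (f.derivative.eval a)) (t : S) (ht : t - algebraMap A S a ∈ maximalIdeal S)
    (hf : aeval t f = 0) : ∃ a' : A, a' - a ∈ maximalIdeal A ∧ algebraMap A S a' = t := by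
  obtain ⟨z, hz1, hz2⟩ := near_root_mem34 (f.comp (X + C a)) (by simpa [eval_comp] using h0)
    (by simpa [derivative_comp, eval_comp] using h1) (t - algebraMap A S a) ht (by
      rw [aeval_comp]
      simp [hf])
  refine ⟨z + a, by simpa using hz1, ?_⟩
  rw [map_add, hz2]
  ring

end Near34

section Psi34

variable {A : Type} [CommRing A]

/-- the polynomial in `T` obtained from `X = b_j u + u^k T`. -/
noncomputable def psi34 (u : A) (k : ℕ) (b : Fin k → A) (H E : A[X]) (j : Fin k) : A[X] :=
  X * ((∏ l ∈ univ.erase j, (C (b j - b l) + C (u ^ (k - 1)) * X)) *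
    H.comp (C (b j * u) + C (u ^ k) * X)) + C u * E.comp (C (b j * u) + C (u ^ k) * X)

theorem aeval_psi34 {S : Type} [CommRing S] [Algebra A S] (u : A) (k : ℕ) (b : Fin k → A)
    (Φ H E : A[X]) (h : Φ = (∏ j, (X - C (b j * u))) * H + C (u ^ (2 * k)) * E) (j : Fin k)
    (t : S) :
    aeval (algebraMap A S (b j * u) + algebraMap A S u ^ k * t) Φ =
      algebraMap A S u ^ (2 * k - 1) * aeval t (psi34 u k b H E j) := by
  classical
  have hkpos : 0 < k := Fin.pos j
  obtain ⟨α, hα⟩ : ∃ α : A →+* S, α = algebraMap A S := ⟨_, rfl⟩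
  have hprod : ∏ l, (α (b j * u) + α u ^ k * t - α (b l * u)) =
      α u ^ (2 * k - 1) * t * ∏ l ∈ univ.erase j, (α (b j - b l) + α u ^ (k - 1) * t) := by
    rw [← mul_prod_erase univ _ (mem_univ j)]
    have h1 : ∀ l, (α (b j * u) + α u ^ k * t - α (b l * u)) =
        α u * (α (b j - b l) + α u ^ (k - 1) * t) := by
      intro l
      have : α u ^ k = α u * α u ^ (k - 1) := by
        rw [← pow_succ']; congr 1; omega
      rw [this, map_mul, map_mul, map_sub]; ring
    rw [prod_congr rfl (fun l _ => h1 l), prod_mul_distrib, prod_const, card_erase_of_mem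
      (mem_univ j), card_univ, Fintype.card_fin]
    have h2 : α (b j * u) + α u ^ k * t - α (b j * u) = α u ^ k * t := by ring
    rw [h2]
    have h3 : 2 * k - 1 = k + (k - 1) := by omega
    rw [h3, pow_add]; ring
  rw [← hα]
  have hx : aeval t (C (b j * u) + C (u ^ k) * X : A[X]) = α (b j * u) + α u ^ k * t := by
    rw [hα]; simp
  have hL : aeval (α (b j * u) + α u ^ k * t) Φ =
      (∏ l, (α (b j * u) + α u ^ k * t - α (b l * u))) * aeval (α (b j * u) + α u ^ k * t) H +
      α u ^ (2 * k) * aeval (α (b j * u) + α u ^ k * t) E := by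
    rw [h, hα]
    simp only [map_add, map_mul, map_prod, map_sub, aeval_X, aeval_C, map_pow]
  have hR : aeval t (psi34 u k b H E j) =
      t * ((∏ l ∈ univ.erase j, (α (b j - b l) + α u ^ (k - 1) * t)) *
        aeval (α (b j * u) + α u ^ k * t) H) + α u * aeval (α (b j * u) + α u ^ k * t) E := by
    unfold psi34
    generalize hxx : (C (b j * u) + C (u ^ k) * X : A[X]) = x at hx ⊢
    rw [map_add, map_mul, map_mul, map_mul, aeval_comp, aeval_comp, hx, map_prod]
    simp only [map_add, map_mul, aeval_X, aeval_C, map_pow, hα]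
  rw [hL, hR, hprod]
  have h4 : α u ^ (2 * k) = α u ^ (2 * k - 1) * α u := by
    rw [← pow_succ]; congr 1; omega
  rw [h4]; ring

theorem psi_zero34 (u : A) (k : ℕ) (b : Fin k → A) (H E : A[X]) (j : Fin k) :
    (psi34 u k b H E j).eval 0 = u * E.eval (b j * u) := by
  unfold psi34
  simp [eval_comp]

theorem psi_deriv34 (u : A) (k : ℕ) (b : Fin k → A) (H E : A[X]) (j : Fin k) :
    ∃ z : A, (psi34 u k b H E j).derivative.eval 0 =
      (∏ l ∈ univ.erase j, (b j - b l)) * H.eval (b j * u) + u * z := by
  refine ⟨(E.comp (C (b j * u) + C (u ^ k) * X)).derivative.eval 0, ?_⟩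
  unfold psi34
  generalize hd : derivative (E.comp (C (b j * u) + C (u ^ k) * X)) = d
  rw [derivative_add, derivative_mul, derivative_X, derivative_C_mul, hd]
  simp [eval_comp, eval_prod]

end Psi34

section Unibranch34

variable {A K : Type} [CommRing A] [IsDomain A] [IsLocalRing A] [Field K] [Algebra A K]
  [FaithfulSMul A K]

theorem inj_closure34 : Function.Injective (algebraMap A (integralClosure A K)) := by
  intro x y hxy
  apply FaithfulSMul.algebraMap_injective A K
  exact congrArg Subtype.val hxy

/-- a unibranch local domain with algebraically closed fraction field is Henselian. -/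
theorem henselian_of_unibranch34 [IsAlgClosed K] (hS : IsLocalRing (integralClosure A K)) :
    HenselianLocalRing A where
  is_henselian := by
    intro f hf a₀ h0 h1
    have hsplit : (f.map (algebraMap A K)).Splits := IsAlgClosed.splits _
    have hm : (f.map (algebraMap A K)).Monic := hf.map _
    by_contra hcon
    push Not at hcon
    have hall : ∀ z ∈ (f.map (algebraMap A K)).roots.map (fun r => algebraMap A K a₀ - r),
        ∃ s : integralClosure A K, (s : K) = z ∧ IsUnit s := by
      intro z hz
      rw [Multiset.mem_map] at hz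
      obtain ⟨r, hr, rfl⟩ := hz
      have hr0 : aeval r f = 0 := by
        have := (Polynomial.mem_roots'.mp hr).2
        rwa [IsRoot.def, eval_map_algebraMap] at this
      have hint : IsIntegral A r := ⟨f, hf, by rwa [← aeval_def]⟩
      refine ⟨algebraMap A (integralClosure A K) a₀ - ⟨r, hint⟩, rfl, ?_⟩
      by_contra hn
      have hn' : algebraMap A (integralClosure A K) a₀ - ⟨r, hint⟩ ∈
          maximalIdeal (integralClosure A K) := hn
      have hr1 : aeval (⟨r, hint⟩ : integralClosure A K) f = 0 := by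
        apply Subtype.val_injective
        have := Polynomial.aeval_algHom_apply (integralClosure A K).val ⟨r, hint⟩ f
        exact this.symm.trans hr0
      obtain ⟨a', h1', h2'⟩ := near_root_mem34' (S := integralClosure A K) f a₀ h0 h1 ⟨r, hint⟩
        (by
          have := Ideal.neg_mem_iff _ |>.mpr hn'
          rwa [neg_sub] at this) hr1
      refine hcon a' ?_ h1'
      apply inj_closure34 (A := A) (K := K)
      rw [map_zero, ← hr1, ← h2', aeval_algebraMap_apply]
      simp
    have hprod : ∃ s : integralClosure A K, (s : K) = algebraMap A K (f.eval a₀) ∧ IsUnit s := by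
      have e : algebraMap A K (f.eval a₀) =
          ((f.map (algebraMap A K)).roots.map (fun r => algebraMap A K a₀ - r)).prod := by
        rw [← hsplit.eval_eq_prod_roots_of_monic hm, eval_map_algebraMap, aeval_algebraMap_apply]
        simp
      rw [e]
      exact Multiset.prod_induction (fun z => ∃ s : integralClosure A K, (s : K) = z ∧ IsUnit s) _
        (by
          rintro a b ⟨s, rfl, hs⟩ ⟨t, rfl, ht⟩
          exact ⟨s * t, rfl, hs.mul ht⟩)
        ⟨1, rfl, isUnit_one⟩ hall
    obtain ⟨s, hs1, hs2⟩ := hprod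
    have hs3 : s = algebraMap A (integralClosure A K) (f.eval a₀) := Subtype.val_injective hs1
    rw [hs3, isUnit_map_iff34] at hs2
    exact h0 hs2

/-- roots of `Φ = ∏ (X - b_j u) H + u^(2k) E` near `0` lie in the unibranch ring. -/
theorem root_mem_unibranch34 (hS : IsLocalRing (integralClosure A K)) (u : A)
    (hu : u ∈ maximalIdeal A) (hu0 : u ≠ 0) (k : ℕ) (hk : 0 < k) (b : Fin k → A)
    (hb : ∀ i j, i ≠ j → IsUnit (b i - b j)) (Φ H E : A[X])
    (h : Φ = (∏ j, (X - C (b j * u))) * H + C (u ^ (2 * k)) * E)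
    (hH0 : IsUnit (H.eval 0)) (s : integralClosure A K)
    (hs : s ∈ maximalIdeal (integralClosure A K)) (hr : aeval s Φ = 0) :
    ∃ a ∈ maximalIdeal A, algebraMap A (integralClosure A K) a = s := by
  classical
  obtain ⟨α, hα⟩ : ∃ α : A →+* integralClosure A K, α = algebraMap A (integralClosure A K) := ⟨_, rfl⟩
  have hαinj : Function.Injective α := by rw [hα]; exact inj_closure34
  have hmem : ∀ x : A, α x ∈ maximalIdeal (integralClosure A K) ↔ x ∈ maximalIdeal A := by
    intro x; rw [hα]; exact mem_max_iff34 x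
  have hunit : ∀ x : A, IsUnit (α x) ↔ IsUnit x := by
    intro x; rw [hα]; exact isUnit_map_iff34 x
  have hu0' : α u ≠ 0 := fun h0 => hu0 (hαinj (by rw [h0, map_zero]))
  have hun : α u ∈ maximalIdeal (integralClosure A K) := (hmem u).2 hu
  -- `H(s)` is a unit
  have hHs : IsUnit (aeval s H) := by
    by_contra hn
    have hn' : aeval s H ∈ maximalIdeal (integralClosure A K) := hn
    have e : aeval s H = α (H.eval 0) + s * aeval s H.divX := by
      conv_lhs => rw [← X_mul_divX_add H]
      rw [map_add, map_mul, aeval_X, aeval_C, ← hα, coeff_zero_eq_eval_zero]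
      ring
    have h1 : α (H.eval 0) ∈ maximalIdeal (integralClosure A K) := by
      have := Ideal.sub_mem _ hn' (Ideal.mul_mem_right (aeval s H.divX) _ hs)
      rwa [e, add_sub_cancel_right] at this
    exact h1 ((hunit _).2 hH0)
  obtain ⟨v, hv⟩ := hHs
  obtain ⟨w, hw⟩ : ∃ w : integralClosure A K, w = aeval s E * (↑v⁻¹ : integralClosure A K) := ⟨_, rfl⟩
  have hΦs : (∏ j, (s - α (b j * u))) * aeval s H + α u ^ (2 * k) * aeval s E = 0 := by
    rw [← hr, h, hα]
    simp only [map_add, map_mul, map_prod, map_sub, aeval_X, aeval_C, map_pow]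
  have hprod : ∏ j, (s - α (b j * u)) = - (α u ^ (2 * k) * w) := by
    have h2 : (∏ j, (s - α (b j * u))) * aeval s H * (↑v⁻¹ : integralClosure A K) =
        ∏ j, (s - α (b j * u)) := by
      rw [← hv, mul_assoc, Units.mul_inv, mul_one]
    rw [← h2, hw]
    linear_combination (↑v⁻¹ : integralClosure A K) * hΦs
  -- `ρ = s / u`
  have huK : ((α u : integralClosure A K) : K) ≠ 0 := by
    intro h0
    exact hu0' (Subtype.val_injective h0)
  obtain ⟨ρ, hρ⟩ : ∃ ρ : K, ρ = (s : K) / ((α u : integralClosure A K) : K) := ⟨_, rfl⟩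
  have hρs : ρ * ((α u : integralClosure A K) : K) = (s : K) := by
    rw [hρ]; exact div_mul_cancel₀ _ huK
  have hρprod : ∏ j, (ρ - ((α (b j) : integralClosure A K) : K)) =
      - (((α u : integralClosure A K) : K) ^ k * (w : K)) := by
    have h3 := congrArg (fun z : integralClosure A K => (z : K)) hprod
    have h4 : ((∏ j, (s - α (b j * u)) : integralClosure A K) : K) =
        (∏ j, (ρ - ((α (b j) : integralClosure A K) : K))) * ((α u : integralClosure A K) : K) ^ k := by
      have h5 : ((α u : integralClosure A K) : K) ^ k =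
          ∏ _j : Fin k, ((α u : integralClosure A K) : K) := by
        rw [Finset.prod_const, Finset.card_univ, Fintype.card_fin]
      rw [h5, ← Finset.prod_mul_distrib]
      have h6 := map_prod (algebraMap (integralClosure A K) K) (fun j => s - α (b j * u)) univ
      refine Eq.trans h6 (Finset.prod_congr rfl fun j _ => ?_)
      have h7 : algebraMap (integralClosure A K) K (s - α (b j * u)) =
          (s : K) - ((α (b j * u) : integralClosure A K) : K) := rfl
      rw [h7, ← hρs, map_mul]
      have h8 : ((α (b j) * α u : integralClosure A K) : K) =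
          ((α (b j) : integralClosure A K) : K) * ((α u : integralClosure A K) : K) := rfl
      rw [h8]
      ring
    beta_reduce at h3
    rw [h4] at h3
    have h9 : ((-(α u ^ (2 * k) * w) : integralClosure A K) : K) =
        -(((α u : integralClosure A K) : K) ^ (2 * k) * (w : K)) := rfl
    rw [h9] at h3
    apply mul_right_cancel₀ (pow_ne_zero k huK)
    rw [h3, two_mul, pow_add]
    ring
  have hρint : IsIntegral A ρ := by
    have h10 : IsIntegral (integralClosure A K) ρ := by
      refine ⟨(∏ j, (X - C (α (b j)))) + C (α u ^ k * w), ?_, ?_⟩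
      · refine Monic.add_of_left (monic_prod_of_monic _ _ fun j _ => monic_X_sub_C _) ?_
        refine lt_of_le_of_lt degree_C_le ?_
        rw [degree_prod_of_monic _ _ fun j _ => monic_X_sub_C _]
        simp only [degree_X_sub_C, Finset.sum_const, Finset.card_univ, Fintype.card_fin]
        simpa using hk
      · rw [eval₂_add, eval₂_finsetProd]
        simp only [eval₂_sub, eval₂_X, eval₂_C]
        have h11 : ∏ j, (ρ - (algebraMap (integralClosure A K) K) (α (b j))) =
            - (((α u : integralClosure A K) : K) ^ k * (w : K)) := hρprod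
        rw [h11]
        have h12 : (algebraMap (integralClosure A K) K) (α u ^ k * w) =
            ((α u : integralClosure A K) : K) ^ k * (w : K) := rfl
        rw [h12]
        ring
    exact isIntegral_trans ρ h10
  obtain ⟨ρ', hρ'⟩ : ∃ ρ' : integralClosure A K, (ρ' : K) = ρ := ⟨⟨ρ, hρint⟩, rfl⟩
  have hsρ : s = ρ' * α u := by
    apply Subtype.val_injective
    have : ((ρ' * α u : integralClosure A K) : K) = (ρ' : K) * ((α u : integralClosure A K) : K) := rfl
    rw [this, hρ', hρs]
  have hprod' : ∏ j, (ρ' - α (b j)) = - (α u ^ k * w) := by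
    apply Subtype.val_injective
    have h6 := map_prod (algebraMap (integralClosure A K) K) (fun j => ρ' - α (b j)) univ
    have h13 : ((-(α u ^ k * w) : integralClosure A K) : K) =
        -(((α u : integralClosure A K) : K) ^ k * (w : K)) := rfl
    rw [h13, ← hρprod, ← hρ']
    exact h6
  -- the index `i`
  have hin : ∏ j, (ρ' - α (b j)) ∈ maximalIdeal (integralClosure A K) := by
    rw [hprod']
    refine neg_mem (Ideal.mul_mem_right _ _ ?_)
    obtain ⟨k', rfl⟩ : ∃ k', k = k' + 1 := ⟨k - 1, by omega⟩
    rw [pow_succ]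
    exact Ideal.mul_mem_left _ _ hun
  obtain ⟨i, _, hi⟩ := (Ideal.IsPrime.prod_mem_iff (hp := inferInstance)).mp hin
  have hVu : IsUnit (∏ l ∈ univ.erase i, (ρ' - α (b l))) := by
    rw [IsUnit.prod_iff]
    intro l hl
    by_contra hn
    have hn' : ρ' - α (b l) ∈ maximalIdeal (integralClosure A K) := hn
    have h14 : α (b i - b l) ∈ maximalIdeal (integralClosure A K) := by
      have := Ideal.sub_mem _ hn' hi
      rwa [show ρ' - α (b l) - (ρ' - α (b i)) = α (b i - b l) by rw [map_sub]; ring] at this
    exact h14 ((hunit _).2 (hb i l (Ne.symm (ne_of_mem_erase hl))))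
  obtain ⟨V, hV⟩ := hVu
  obtain ⟨z, hz⟩ : ∃ z : integralClosure A K, z = - w * (↑V⁻¹ : integralClosure A K) := ⟨_, rfl⟩
  have hρz : ρ' - α (b i) = α u ^ k * z := by
    have h15 : (ρ' - α (b i)) * (V : integralClosure A K) = - (α u ^ k * w) := by
      rw [hV, mul_prod_erase univ (fun l => ρ' - α (b l)) (mem_univ i), hprod']
    have h16 : ρ' - α (b i) = (ρ' - α (b i)) * (V : integralClosure A K) *
        (↑V⁻¹ : integralClosure A K) := by
      rw [mul_assoc, Units.mul_inv, mul_one]
    rw [h16, h15, hz]
    ring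
  have hst : s = α (b i * u) + α u ^ k * (α u * z) := by
    rw [hsρ, map_mul]
    linear_combination α u * hρz
  have hψ : aeval (α u * z) (psi34 u k b H E i) = 0 := by
    have h17 := aeval_psi34 (S := integralClosure A K) u k b Φ H E h i (α u * z)
    rw [← hα, ← hst, hr] at h17
    exact (mul_eq_zero.mp h17.symm).resolve_left (pow_ne_zero _ hu0')
  obtain ⟨a, ha1, ha2⟩ := near_root_mem34 (S := integralClosure A K) (psi34 u k b H E i)
    (by
      rw [psi_zero34]
      exact Ideal.mul_mem_right _ _ hu)
    (by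
      obtain ⟨y, hy⟩ := psi_deriv34 u k b H E i
      rw [hy]
      by_contra hn
      have hn' : (∏ l ∈ univ.erase i, (b i - b l)) * H.eval (b i * u) + u * y ∈ maximalIdeal A := hn
      have h18 : (∏ l ∈ univ.erase i, (b i - b l)) * H.eval (b i * u) ∈ maximalIdeal A := by
        have := Ideal.sub_mem _ hn' (Ideal.mul_mem_right y _ hu)
        rwa [add_sub_cancel_right] at this
      rcases Ideal.IsPrime.mem_or_mem inferInstance h18 with h19 | h19
      · obtain ⟨l, hl, hl2⟩ := (Ideal.IsPrime.prod_mem_iff (hp := inferInstance)).mp h19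
        exact hl2 (hb i l (Ne.symm (ne_of_mem_erase hl)))
      · have hd : (b i * u - 0) ∣ H.eval (b i * u) - H.eval 0 := sub_dvd_eval_sub _ _ _
        have h20 : H.eval (b i * u) - H.eval 0 ∈ maximalIdeal A :=
          Ideal.mem_of_dvd _ hd (by rw [sub_zero]; exact Ideal.mul_mem_left _ _ hu)
        have h21 : H.eval 0 ∈ maximalIdeal A := by
          have := Ideal.sub_mem _ h19 h20
          rwa [sub_sub_cancel] at this
        exact h21 hH0)
    (α u * z) (Ideal.mul_mem_right _ _ hun) hψ
  refine ⟨b i * u + u ^ k * a, ?_, ?_⟩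
  · exact Ideal.add_mem _ (Ideal.mul_mem_left _ _ hu) (Ideal.mul_mem_left _ _ ha1)
  · rw [hst, map_add, map_mul _ (u ^ k) a, map_pow, ha2, ← hα]

/-- counting: one of `k` distinct roots lies in the maximal ideal of the integral closure. -/
theorem exists_root_near34 (hS : IsLocalRing (integralClosure A K)) (k : ℕ) (Φ : A[X])
    (hm : Φ.Monic) (hd : Φ.natDegree < 2 * k) (hX : X ^ k ∣ Φ.map (residue A)) (r : Fin k → K)
    (hr : Function.Injective r) (hroot : ∀ j, aeval (r j) Φ = 0) :
    ∃ j, ∃ s : integralClosure A K, (s : K) = r j ∧ s ∈ maximalIdeal (integralClosure A K) ∧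
      aeval s Φ = 0 := by
  have hint : ∀ j, IsIntegral A (r j) := fun j => ⟨Φ, hm, by rw [← aeval_def]; exact hroot j⟩
  have hval : ∀ (s : integralClosure A K) (f : A[X]),
      ((aeval s f : integralClosure A K) : K) = aeval (s : K) f := by
    intro s f
    exact (Polynomial.aeval_algHom_apply (integralClosure A K).val s f).symm
  have hs0 : ∀ j, aeval (⟨r j, hint j⟩ : integralClosure A K) Φ = 0 := by
    intro j
    apply Subtype.val_injective
    rw [hval]
    exact hroot j
  obtain ⟨j, hj⟩ := exists_root_mem (residue (integralClosure A K))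
    (Φ.map (algebraMap A (integralClosure A K))) (hm.map _) k
    (by rwa [hm.natDegree_map]) (fun j => ⟨r j, hint j⟩)
    (fun i j hij => hr (congrArg Subtype.val hij))
    (fun j => by
      rw [IsRoot.def, eval_map_algebraMap]
      exact hs0 j)
    (by
      obtain ⟨G, hG⟩ := hX
      -- the map of residue fields
      have hloc : IsLocalHom (algebraMap A (integralClosure A K)) :=
        ⟨fun a ha => (isUnit_map_iff34 a).1 ha⟩
      have e : (residue (integralClosure A K)).comp (algebraMap A (integralClosure A K)) =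
          (ResidueField.map (algebraMap A (integralClosure A K))).comp (residue A) := by
        ext x
        rfl
      refine ⟨G.map (ResidueField.map (algebraMap A (integralClosure A K))), ?_⟩
      rw [Polynomial.map_map, e, ← Polynomial.map_map, hG]
      simp)
  refine ⟨j, ⟨r j, hint j⟩, rfl, ?_, hs0 j⟩
  exact (residue_eq_zero_iff _).1 hj

/-- `q`-th roots lie in the unibranch ring. -/
theorem near_mem_unibranch34 (hS : IsLocalRing (integralClosure A K)) (q : ℕ) [Fact q.Prime]
    (ζ : A) (hζ : ∑ j ∈ range q, ζ ^ j = 0) (hq : IsUnit (q : A)) (c x : A) (hc : IsUnit c)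
    (hx : x ∈ maximalIdeal A) (z : K) (hz : z ^ q = algebraMap A K (x + c ^ q)) :
    ∃ y : A, algebraMap A K y = z := by
  have hq0 : 0 < q := (Fact.out : q.Prime).pos
  have hint : IsIntegral A z := by
    refine ⟨X ^ q - C (x + c ^ q), monic_X_pow_sub_C _ hq0.ne', ?_⟩
    rw [eval₂_sub, eval₂_pow, eval₂_X, eval₂_C, hz, sub_self]
  obtain ⟨s, hs⟩ : ∃ s : integralClosure A K, (s : K) = z := ⟨⟨z, hint⟩, rfl⟩
  have hsq : s ^ q = algebraMap A (integralClosure A K) (x + c ^ q) := by
    apply Subtype.val_injective
    have e1 : ((s ^ q : integralClosure A K) : K) = (s : K) ^ q := rfl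
    rw [e1, hs, hz]
    rfl
  obtain ⟨α, hα⟩ : ∃ α : A →+* integralClosure A K, α = algebraMap A (integralClosure A K) := ⟨_, rfl⟩
  have hαmem : ∀ x : A, x ∈ maximalIdeal A → residue (integralClosure A K) (α x) = 0 := by
    intro x hx
    rw [residue_eq_zero_iff, hα, mem_max_iff34]
    exact hx
  have hαunit : ∀ x : A, IsUnit x → residue (integralClosure A K) (α x) ≠ 0 := by
    intro x hx
    rw [residue_ne_zero_iff_isUnit]
    exact hx.map α
  obtain ⟨a, ha⟩ := zeta_root (q := q) (residue (integralClosure A K) (α ζ))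
    (by
      have := congrArg (fun y => residue (integralClosure A K) (α y)) hζ
      simpa [map_sum, map_pow] using this)
    (by
      have := hαunit _ hq
      simpa using this)
    (residue (integralClosure A K) s) (residue (integralClosure A K) (α c)) (hαunit _ hc)
    (by
      rw [← map_pow, hsq, ← hα, map_add, map_add, hαmem x hx, zero_add, map_pow, map_pow])
  obtain ⟨y, _, hy⟩ := near_root_mem34' (S := integralClosure A K) (X ^ q - C (x + c ^ q))
    (ζ ^ a.val * c)
    (by
      have h1 : (ζ ^ a.val * c) ^ q = c ^ q := by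
        rw [mul_pow, ← pow_mul, mul_comm _ q, pow_mul, zeta_pow ζ hζ, one_pow, one_mul]
      rw [eval_sub, eval_pow, eval_X, eval_C, h1]
      have : c ^ q - (x + c ^ q) = -x := by ring
      rw [this]
      exact neg_mem hx)
    (by
      rw [derivative_sub, derivative_C, sub_zero, derivative_X_pow]
      simp only [eval_mul, eval_pow, eval_X, eval_C]
      refine hq.mul (IsUnit.pow _ (IsUnit.mul (IsUnit.pow _ ?_) hc))
      exact IsUnit.of_pow_eq_one (zeta_pow ζ hζ) hq0.ne')
    s
    (by
      rw [← residue_eq_zero_iff, map_sub, ha, ← hα]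
      simp only [map_mul, map_pow, sub_self])
    (by
      rw [map_sub, map_pow, aeval_X, aeval_C, hsq, sub_self])
  refine ⟨y, ?_⟩
  rw [← hs, ← hy]
  rfl

/-- two families of `k` distinct roots of a polynomial of degree `< 2k` meet. -/
theorem common_root34 (k : ℕ) (Φ : K[X]) (hΦ : Φ ≠ 0) (hd : Φ.natDegree < 2 * k)
    (r r' : Fin k → K) (hr : Function.Injective r) (hr' : Function.Injective r')
    (h : ∀ j, Φ.IsRoot (r j)) (h' : ∀ j, Φ.IsRoot (r' j)) : ∃ i j, r i = r' j := by
  classical
  by_contra hno
  push Not at hno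
  have hinj : Function.Injective (Sum.elim r r') := Function.Injective.sumElim hr hr' hno
  have h1 : Fintype.card (Fin k ⊕ Fin k) ≤ Φ.roots.toFinset.card := by
    rw [← Finset.card_univ, ← Finset.card_image_of_injective _ hinj]
    apply Finset.card_le_card
    intro x hx
    rw [Finset.mem_image] at hx
    obtain ⟨y, _, rfl⟩ := hx
    rw [Multiset.mem_toFinset, mem_roots hΦ]
    rcases y with y | y
    · exact h y
    · exact h' y
  have h2 : Φ.roots.toFinset.card ≤ Φ.natDegree :=
    (Multiset.toFinset_card_le _).trans (card_roots' _)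
  simp only [Fintype.card_sum, Fintype.card_fin] at h1
  omega

end Unibranch34

section Sides34

variable {ι : Type} [Fintype ι] [DecidableEq ι] {q : ℕ} [Fact q.Prime]

/-- the local data at a maximal ideal: decomposition of the norm (proof as in `side_hens`). -/
theorem side_dec34 {R : Type} [CommRing R] [IsDomain R]
    (m : Ideal R) [hm : m.IsMaximal]
    (hu : ∃ u ∈ m, ∀ M : Ideal R, M.IsMaximal → u ∈ M → M = m) (hm0 : ∃ M : Ideal R, M.IsMaximal ∧ M ≠ m)
    (hinf : Infinite (R ⧸ m))
    (hq1 : (q : R) ∉ m) (ζ : R) (hζ : ∑ j ∈ range q, ζ ^ j = 0)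
    (hι : 2 ≤ Fintype.card ι)
    (c : ι → R) (hc1 : ∀ i, c i ∉ m) (hd1 : ∀ i j, i ≠ j → c i ^ q - c j ^ q ∉ m) :
    ∃ (I : Ideal R) (p : (ι → ZMod q) → (R ⧸ I)[X]) (u : R)
      (b : Fin (Fintype.card ι * q ^ Fintype.card ι + 1) → R), I ≤ m ∧
      (∀ M : Ideal R, M.IsMaximal → I ≤ M → M = m) ∧
      (∀ s, p s ≠ 0 → q * (p s).natDegree + wt s < q * (2 * Fintype.card ι)) ∧
      u ∈ m ∧ u ≠ 0 ∧ (∀ i j, i ≠ j → b i - b j ∉ m) ∧
      ∀ P : (ι → ZMod q) → R[X], (∀ s, (P s).map (Ideal.Quotient.mk I) = p s) →
        (∀ δ : ι → ZMod q, δ ≠ 0 →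
          ev (tw ζ δ c) (fun s => (fam (2 * Fintype.card ι) P s).eval 0) ∉ m) ∧
        ∃ H E : R[X], (nmat (fun i => X + C (c i ^ q)) (fam (2 * Fintype.card ι) P)).det =
          (∏ j, (X - C (b j * u))) * H +
            C (u ^ (2 * (Fintype.card ι * q ^ Fintype.card ι + 1))) * E ∧ H.eval 0 ∉ m := by
  classical
  obtain ⟨u, hu1, huM⟩ := hu
  have hqpos : 0 < q := (Fact.out : q.Prime).pos
  let _ := Ideal.Quotient.field m
  set g : R →+* R ⧸ m := Ideal.Quotient.mk m with hg
  have hz : ∀ x, g x = 0 ↔ x ∈ m := fun x => Ideal.Quotient.eq_zero_iff_mem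
  have hu0 : u ≠ 0 := by
    rintro rfl
    obtain ⟨M, hM, hMm⟩ := hm0
    exact hMm (huM M hM M.zero_mem)
  set n := Fintype.card ι with hn
  set d := 2 * n with hd
  set k := n * q ^ n + 1 with hk
  obtain ⟨b, hb⟩ : ∃ b : Fin k → R, ∀ i j, i ≠ j → b i - b j ∉ m := by
    obtain ⟨f⟩ : Nonempty (Fin k ↪ R ⧸ m) :=
      ⟨(Fin.valEmbedding).trans (Infinite.natEmbedding _)⟩
    choose b hb using fun j => Ideal.Quotient.mk_surjective (f j)
    refine ⟨b, fun i j hij h => hij (f.injective ?_)⟩
    rw [← hb i, ← hb j]
    exact Ideal.Quotient.eq.mpr h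
  set v := u ^ (2 * k) with hv
  have hvm : v ∈ m := Ideal.pow_mem_of_mem _ hu1 _ (by omega)
  have hvM : ∀ M : Ideal R, M.IsMaximal → v ∈ M → M = m := fun M hM h =>
    huM M hM (hM.isPrime.mem_of_pow_mem _ h)
  set A := R ⧸ Ideal.span {v} with hA
  have hAloc : IsLocalRing A := isLocalRing_quot m v hvm hvM
  set gA : R →+* A := Ideal.Quotient.mk (Ideal.span {v}) with hgA
  have hAunit : ∀ x, x ∉ m → IsUnit (gA x) := isUnit_quot m v hvM
  have hζA : ∑ j ∈ range q, (gA ζ) ^ j = 0 := by
    have := congrArg gA hζ
    simpa [map_sum, map_pow] using this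
  have hvA : gA v = 0 := Ideal.Quotient.eq_zero_iff_mem.mpr (Ideal.mem_span_singleton_self v)
  have hnq : 2 ≤ n * q ^ (n - 1) := by
    calc 2 = 2 * 1 := rfl
      _ ≤ n * q ^ (n - 1) := Nat.mul_le_mul hι (Nat.one_le_pow _ _ hqpos)
  have hkle : k + 1 ≤ Fintype.card ι * q ^ Fintype.card ι
      + Fintype.card ι * q ^ (Fintype.card ι - 1) := by
    rw [← hn, hk, add_assoc]
    exact Nat.add_le_add_left hnq _
  obtain ⟨pA, hpAw, ⟨HA, hHA, hHA0⟩, hpAn⟩ := local_F (A := A) (q := q) (ι := ι) (by omega) (gA ζ)
    hζA (by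
      have := hAunit _ hq1
      rwa [map_natCast] at this) (fun i => gA (c i)) (fun i => hAunit _ (hc1 i))
    (fun i j hij => by
      have := hAunit _ (hd1 i j hij)
      rwa [map_sub, map_pow, map_pow] at this) k hkle (fun j => gA (b j * u))
    (fun j => ⟨2 * k, by
      rw [← map_pow, mul_pow, map_mul, hvA, mul_zero]⟩)
  have hle : Ideal.span {v} ≤ m := by
    rw [Ideal.span_le]; simpa using hvm
  refine ⟨Ideal.span {v}, pA, u, b, hle,
    fun M hM hvle => hvM M hM (hvle (Ideal.mem_span_singleton_self v)), hpAw, hu1, hu0, hb,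
    fun P hP1 => ?_⟩
  set φ : A →+* R ⧸ m := Ideal.Quotient.factor hle with hφ
  have hφg : ∀ x, φ (gA x) = g x := fun x => Ideal.Quotient.factor_mk hle x
  have hP1' : ∀ s, (P s).map gA = pA s := hP1
  have huA : ∀ s, (fam d P s).map gA = fam d pA s := by
    intro s
    rw [fam_map]
    simp only [fam, hP1']
  constructor
  · intro δ hδ hmem
    have h1 := (hpAn δ hδ).map φ
    apply not_isUnit_zero (M₀ := R ⧸ m)
    rw [← (hz _).mpr hmem, ← hφg, ev_map]
    have e2 : (fun s => gA ((fam d P s).eval 0)) = (fun s =>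
        ((if s = 0 then X ^ (2 * Fintype.card ι) else 0) + pA s : A[X]).eval 0) := by
      ext s
      have h3 : (fam d pA s).eval 0 = gA ((fam d P s).eval 0) := by
        rw [← huA s, Polynomial.eval_map, ← map_zero gA, Polynomial.eval₂_at_apply]
      rw [← h3]
      rfl
    have e1 : (fun i => gA (tw ζ δ c i)) = tw (gA ζ) δ (fun i => gA (c i)) := by
      ext i
      simp only [tw, map_mul, map_pow]
    rw [e1, e2]
    exact h1
  · set Φ : R[X] := (nmat (fun i => X + C (c i ^ q)) (fam d P)).det with hΦfam
    have hmapA : Φ.map gA = (∏ j, (X - C (gA (b j * u)))) * HA := by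
      rw [← hHA, hΦfam]
      have h1 := det_nmat_map (Polynomial.mapRingHom gA) (fun i => X + C (c i ^ q)) (fam d P)
      simp only [Polynomial.coe_mapRingHom] at h1
      rw [h1]
      congr 2
      · ext1 i
        simp
      · ext1 s
        exact huA s
    obtain ⟨H, hHmap⟩ := Polynomial.map_surjective gA Ideal.Quotient.mk_surjective HA
    have hdecomp : ∃ E : R[X], Φ = (∏ j, (X - C (b j * u))) * H + C (u ^ (2 * k)) * E := by
      have h1 : C v ∣ Φ - (∏ j, (X - C (b j * u))) * H := by
        rw [C_dvd_iff_dvd_coeff]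
        intro i
        have h2 : (Φ - (∏ j, (X - C (b j * u))) * H).map gA = 0 := by
          rw [Polynomial.map_sub, hmapA, Polynomial.map_mul, Polynomial.map_prod, hHmap]
          simp
        have h3 := congrArg (fun f => coeff f i) h2
        simp only [coeff_map, coeff_zero] at h3
        exact Ideal.mem_span_singleton.mp (Ideal.Quotient.eq_zero_iff_mem.mp h3)
      obtain ⟨E, hE⟩ := h1
      exact ⟨E, by rw [← hv, ← hE]; ring⟩
    obtain ⟨E, hE⟩ := hdecomp
    have hH0 : H.eval 0 ∉ m := by
      intro h
      have h1 : HA.eval 0 = gA (H.eval 0) := by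
        rw [← hHmap, Polynomial.eval_map, ← map_zero gA, Polynomial.eval₂_at_apply]
      have h2 : IsUnit (φ (HA.eval 0)) := hHA0.map φ
      rw [h1, hφg, (hz _).mpr h] at h2
      exact not_isUnit_zero h2
    exact ⟨H, E, hE, hH0⟩

/-- the unibranch condition does not depend on the fraction field. -/
theorem closure_local34 {A K L : Type} [CommRing A] [IsDomain A] [Field K] [Algebra A K]
    [IsFractionRing A K] [Field L] [Algebra A L] [IsFractionRing A L]
    (hU : IsLocalRing (integralClosure A L)) : IsLocalRing (integralClosure A K) := by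
  have e : L ≃ₐ[A] K := (FractionRing.algEquiv A L).symm.trans (FractionRing.algEquiv A K)
  exact e.mapIntegralClosure.toRingEquiv.isLocalRing

theorem phi_eq34 {R : Type} [CommRing R] [IsDomain R] (m : Ideal R) [m.IsMaximal]
    (φ : Localization.AtPrime m →+* FractionRing R)
    (hφ : ∀ a : R, φ (algebraMap R _ a) = algebraMap R (FractionRing R) a) :
    φ = algebraMap (Localization.AtPrime m) (FractionRing R) := by
  apply IsLocalization.ringHom_ext m.primeCompl
  ext a
  rw [RingHom.comp_apply, RingHom.comp_apply, hφ]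
  exact IsScalarTower.algebraMap_apply R (Localization.AtPrime m) (FractionRing R) a

theorem secNear_unibranch34 {R : Type} [CommRing R] [IsDomain R] (m : Ideal R) [m.IsMaximal]
    (hU : IsLocalRing (integralClosure (Localization.AtPrime m) (FractionRing R)))
    (hq : (q : R) ∉ m) (ζ : R) (hζ : ∑ j ∈ range q, ζ ^ j = 0) : SecNear q m := by
  intro φ hφ c hc x hx z hz
  have hφe := phi_eq34 m φ hφ
  have hunit : ∀ y : R, y ∉ m → IsUnit (algebraMap R (Localization.AtPrime m) y) := fun y hy => by
    have := (IsLocalization.AtPrime.to_map_mem_maximal_iff (Localization.AtPrime m) m y).not.2 hy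
    simpa [mem_maximalIdeal, mem_nonunits_iff] using this
  obtain ⟨y, hy⟩ := near_mem_unibranch34 (A := Localization.AtPrime m) (K := FractionRing R) hU q
    (algebraMap R _ ζ)
    (by
      have := congrArg (algebraMap R (Localization.AtPrime m)) hζ
      simpa [map_sum, map_pow] using this)
    (by
      have := hunit _ hq
      rwa [map_natCast] at this)
    (algebraMap R _ c) x (hunit c hc) hx z
    (by
      rw [hz, hφe, map_add, map_pow, ← IsScalarTower.algebraMap_apply])
  exact ⟨y, by rw [hφe, hy]⟩

theorem secSide_unibranch34 {R : Type} [CommRing R] [IsDomain R] (m : Ideal R) [m.IsMaximal]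
    (hU : IsLocalRing (integralClosure (Localization.AtPrime m) (FractionRing R)))
    (hu : ∃ u ∈ m, ∀ M : Ideal R, M.IsMaximal → u ∈ M → M = m)
    (hm0 : ∃ M : Ideal R, M.IsMaximal ∧ M ≠ m)
    (hinf : Infinite (R ⧸ m))
    (hq1 : (q : R) ∉ m) (ζ : R) (hζ : ∑ j ∈ range q, ζ ^ j = 0)
    (hι : 2 ≤ Fintype.card ι)
    (c : ι → R) (hc1 : ∀ i, c i ∉ m) (hd1 : ∀ i j, i ≠ j → c i ^ q - c j ^ q ∉ m) :
    SecSide q m ζ c := by
  obtain ⟨I, p, u, b, hIm, hIM, hw, hum, hu0, hb, hP⟩ :=
    side_dec34 m hu hm0 hinf hq1 ζ hζ hι c hc1 hd1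
  refine ⟨I, p, hIm, hIM, hw, fun P hPI => ⟨(hP P hPI).1, ?_⟩⟩
  intro Φ hΦ hmonic hdeg φ hφ r hr hroot
  have hφe := phi_eq34 m φ hφ
  obtain ⟨H, E, hE, hH0⟩ := (hP P hPI).2
  rw [← hΦ] at hE
  have hmem : ∀ x : R, algebraMap R (Localization.AtPrime m) x ∈
      maximalIdeal (Localization.AtPrime m) ↔ x ∈ m := fun x =>
    IsLocalization.AtPrime.to_map_mem_maximal_iff (Localization.AtPrime m) m x
  have hunit : ∀ y : R, y ∉ m → IsUnit (algebraMap R (Localization.AtPrime m) y) := fun y hy => by
    have := (hmem y).not.2 hy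
    simpa [mem_maximalIdeal, mem_nonunits_iff] using this
  have hinj : Function.Injective (algebraMap R (Localization.AtPrime m)) :=
    IsLocalization.injective _ m.primeCompl_le_nonZeroDivisors
  have hdec : Φ.map (algebraMap R (Localization.AtPrime m)) =
      (∏ j, (X - C (algebraMap R (Localization.AtPrime m) (b j) *
        algebraMap R (Localization.AtPrime m) u))) * H.map (algebraMap R (Localization.AtPrime m)) +
      C (algebraMap R (Localization.AtPrime m) u ^
        (2 * (Fintype.card ι * q ^ Fintype.card ι + 1))) *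
        E.map (algebraMap R (Localization.AtPrime m)) := by
    rw [hE]
    simp only [Polynomial.map_add, Polynomial.map_mul, Polynomial.map_prod, Polynomial.map_sub,
      Polynomial.map_pow, map_X, map_C, map_mul, map_pow]
  obtain ⟨j, s, hsj, hsn, hs0⟩ := exists_root_near34 (A := Localization.AtPrime m)
    (K := FractionRing R) hU (Fintype.card ι * q ^ Fintype.card ι + 1)
    (Φ.map (algebraMap R (Localization.AtPrime m))) (hmonic.map _)
    (by rwa [hmonic.natDegree_map])
    (by
      rw [hdec]
      have hz : residue (Localization.AtPrime m) (algebraMap R (Localization.AtPrime m) u) = 0 :=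
        (residue_eq_zero_iff _).2 ((hmem u).2 hum)
      rw [Polynomial.map_add, Polynomial.map_mul, Polynomial.map_mul, Polynomial.map_prod]
      simp only [Polynomial.map_sub, Polynomial.map_mul, Polynomial.map_pow, map_X, map_C, map_mul,
        map_pow, hz, mul_zero, sub_zero, map_zero, Finset.prod_const, Finset.card_univ,
        Fintype.card_fin]
      rw [zero_pow (by omega), zero_mul, add_zero]
      exact Dvd.intro _ rfl)
    r hr
    (fun j => by
      have := hroot j
      rw [IsRoot.def, eval_map_algebraMap] at this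
      rw [aeval_map_algebraMap]
      exact this)
  obtain ⟨x, hx, hxs⟩ := root_mem_unibranch34 (A := Localization.AtPrime m)
    (K := FractionRing R) hU (algebraMap R _ u) ((hmem u).2 hum)
    (fun h => hu0 (hinj (by rw [h, map_zero]))) _ (Nat.succ_pos _)
    (fun j => algebraMap R (Localization.AtPrime m) (b j))
    (fun i j hij => by
      rw [← map_sub]
      exact hunit _ (hb i j hij))
    (Φ.map (algebraMap R (Localization.AtPrime m))) (H.map (algebraMap R (Localization.AtPrime m)))
    (E.map (algebraMap R (Localization.AtPrime m))) hdec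
    (by
      rw [← map_zero (algebraMap R (Localization.AtPrime m)), eval_map, eval₂_at_apply]
      exact hunit _ hH0)
    s hsn hs0
  refine ⟨j, x, hx, ?_⟩
  rw [hφe, ← hsj, ← hxs]
  rfl

end Sides34

end Pool.Agent.AIC
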