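import Mathlib
import Pool.Agent.AIC.Star34
import Pool.Agent.AIC.HenselPow82
import Pool.Agent.AIC.DefsE83
import Pool.Agent.AIC.SideD82

/-! Stage 6, row 7: the unibranch side without a hypothesis on the residue field. -/

set_option autoImplicit false
set_option linter.unusedSectionVars false

namespace Pool.Agent.AIC

open Finset Polynomial IsLocalRing

section Closure83

variable {A K : Type} [CommRing A] [Field K] [Algebra A K]

/-- an element of `K` that is integral over the integral closure lies in it. -/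
theorem mem_of_integral83 (s : K) (h : IsIntegral (integralClosure A K) s) :
    ∃ t : integralClosure A K, (t : K) = s := by
  have h1 : IsIntegral A s := isIntegral_trans s h
  exact ⟨⟨s, h1⟩, rfl⟩

/-- Seidenberg's lemma. -/
theorem seidenberg83 [IsLocalRing (integralClosure A K)] (s : K) :
    ∀ (n : ℕ) (f : (integralClosure A K)[X]), f.natDegree ≤ n →
      f.map (residue (integralClosure A K)) ≠ 0 → aeval s f = 0 →
      (∃ t : integralClosure A K, (t : K) = s) ∨
        (s ≠ 0 ∧ ∃ t ∈ maximalIdeal (integralClosure A K), (t : K) = s⁻¹) := by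
  intro n
  induction n with
  | zero =>
    intro f hn hf hs
    exfalso
    obtain ⟨a, rfl⟩ : ∃ a, f = C a := ⟨_, eq_C_of_natDegree_le_zero hn⟩
    rw [aeval_C] at hs
    have h1 : a = 0 := Subtype.val_injective hs
    apply hf
    rw [h1, C_0, Polynomial.map_zero]
  | succ n ih =>
    intro f hn hf hs
    by_cases hd : f.natDegree ≤ n
    · exact ih f hd hf hs
    have hdeg : f.natDegree = n + 1 := by omega
    obtain ⟨a, ha⟩ : ∃ a, a = f.leadingCoeff := ⟨_, rfl⟩
    obtain ⟨b, hb⟩ := mem_of_integral83 (A := A) (f.leadingCoeff • s)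
      (isIntegral_leadingCoeff_smul f s hs)
    have hb' : (b : K) = (a : K) * s := by
      rw [hb, ← ha]
      rfl
    by_cases hu : IsUnit a
    · left
      obtain ⟨a', ha'⟩ := hu
      refine ⟨b * (↑a'⁻¹ : integralClosure A K), ?_⟩
      have e1 : ((b * (↑a'⁻¹ : integralClosure A K) : integralClosure A K) : K) =
          (b : K) * ((↑a'⁻¹ : integralClosure A K) : K) := rfl
      have e2 : (a : K) * ((↑a'⁻¹ : integralClosure A K) : K) = 1 := by
        have : a * (↑a'⁻¹ : integralClosure A K) = 1 := by rw [← ha', Units.mul_inv]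
        exact congrArg Subtype.val this
      rw [e1, hb', mul_right_comm, e2, one_mul]
    · have ham : a ∈ maximalIdeal (integralClosure A K) := hu
      obtain ⟨f', hf'⟩ : ∃ f' : (integralClosure A K)[X],
          f' = f - C a * X ^ (n + 1) + C b * X ^ n := ⟨_, rfl⟩
      have hco : f.coeff (n + 1) = a := by rw [ha, leadingCoeff, hdeg]
      have hnd : f'.natDegree ≤ n := by
        rw [natDegree_le_iff_coeff_eq_zero]
        intro i hi
        rw [hf', coeff_add, coeff_sub, coeff_C_mul_X_pow, coeff_C_mul_X_pow]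
        by_cases hi1 : i = n + 1
        · subst hi1
          simp [hco]
        · rw [if_neg hi1, if_neg (by omega), coeff_eq_zero_of_natDegree_lt (by omega)]
          simp
      have hs' : aeval s f' = 0 := by
        rw [hf', map_add, map_sub, hs, map_mul, map_mul, aeval_C, aeval_C, map_pow, map_pow,
          aeval_X]
        have e3 : (algebraMap (integralClosure A K) K) b =
            (algebraMap (integralClosure A K) K) a * s := hb'
        rw [e3, pow_succ]
        ring
      by_cases hz : f'.map (residue (integralClosure A K)) = 0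
      · right
        have hbu : IsUnit b := by
          rw [← residue_ne_zero_iff_isUnit]
          intro hb0
          apply hf
          have e4 : f = f' + C a * X ^ (n + 1) - C b * X ^ n := by rw [hf']; ring
          rw [e4, Polynomial.map_sub, Polynomial.map_add, hz, Polynomial.map_mul,
            Polynomial.map_mul, map_C, map_C, hb0, (residue_eq_zero_iff a).2 ham]
          simp
        obtain ⟨b', hbb⟩ := hbu
        have hb0 : (b : K) ≠ 0 := by
          intro h0
          have h1 : b = 0 := Subtype.val_injective h0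
          rw [← hbb] at h1
          exact b'.ne_zero h1
        have hs0 : s ≠ 0 := by
          rintro rfl
          apply hb0
          rw [hb', mul_zero]
        refine ⟨hs0, a * (↑b'⁻¹ : integralClosure A K), Ideal.mul_mem_right _ _ ham, ?_⟩
        have e5 : (b : K) * ((↑b'⁻¹ : integralClosure A K) : K) = 1 := by
          have : b * (↑b'⁻¹ : integralClosure A K) = 1 := by rw [← hbb, Units.mul_inv]
          exact congrArg Subtype.val this
        have e6 : ((a * (↑b'⁻¹ : integralClosure A K) : integralClosure A K) : K) =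
          (a : K) * ((↑b'⁻¹ : integralClosure A K) : K) := rfl
        rw [e6]
        apply eq_inv_of_mul_eq_one_left
        calc (a : K) * ((↑b'⁻¹ : integralClosure A K) : K) * s
            = ((a : K) * s) * ((↑b'⁻¹ : integralClosure A K) : K) := by ring
          _ = 1 := by rw [← hb', e5]
      · exact ih f' hnd hz hs'

theorem prod_dvd_of_roots83 {S : Type} [CommRing S] [IsDomain S] {k : ℕ} (f : S[X]) (hf : f ≠ 0)
    (σ : Fin k → S) (hσ : Function.Injective σ) (h : ∀ j, f.IsRoot (σ j)) :
    (∏ j, (X - C (σ j))) ∣ f := by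
  have h1 : ((Finset.univ.val.map σ).map fun a => X - C a).prod = ∏ j, (X - C (σ j)) := by
    rw [Multiset.map_map]
    rfl
  rw [← h1, Multiset.prod_X_sub_C_dvd_iff_le_roots hf]
  rw [Multiset.le_iff_subset ((Multiset.nodup_map_iff_of_injective hσ).mpr Finset.univ.nodup)]
  intro a ha
  obtain ⟨j, _, rfl⟩ := Multiset.mem_map.mp ha
  exact (mem_roots hf).mpr (h j)

/-- one of `k'` distinct roots is integral. -/
theorem exists_integral_root83 [IsLocalRing (integralClosure A K)] (k k' : ℕ) (hk : 0 < k')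
    (Ψ : (integralClosure A K)[X]) (hd : Ψ.natDegree < k + k') (hu : IsUnit (Ψ.coeff k))
    (s : Fin k' → K) (hs : Function.Injective s) (hroot : ∀ j, aeval (s j) Ψ = 0) :
    ∃ j, ∃ t : integralClosure A K, (t : K) = s j := by
  by_contra hcon
  push Not at hcon
  have hres : residue (integralClosure A K) (Ψ.coeff k) ≠ 0 :=
    (residue_ne_zero_iff_isUnit _).2 hu
  have hΨr : Ψ.map (residue (integralClosure A K)) ≠ 0 := by
    intro h0
    apply hres
    rw [← coeff_map, h0, coeff_zero]
  have hσ : ∀ j, s j ≠ 0 ∧ ∃ t ∈ maximalIdeal (integralClosure A K), (t : K) = (s j)⁻¹ := by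
    intro j
    rcases seidenberg83 (s j) _ Ψ le_rfl hΨr (hroot j) with ⟨t, ht⟩ | h
    · exact absurd ht (hcon j t)
    · exact h
  have hs0 : ∀ j, s j ≠ 0 := fun j => (hσ j).1
  choose σ hσm hσe using fun j => (hσ j).2
  obtain ⟨R, hR⟩ : ∃ R, R = reflect (k + k' - 1) Ψ := ⟨_, rfl⟩
  have hRc : ∀ i, i ≤ k + k' - 1 → R.coeff i = Ψ.coeff (k + k' - 1 - i) := by
    intro i hi
    rw [hR, coeff_reflect, revAt_le hi]
  have hR0 : R ≠ 0 := by
    intro h0
    have h1 := hRc (k' - 1) (by omega)
    rw [h0, coeff_zero, show k + k' - 1 - (k' - 1) = k by omega] at h1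
    rw [← h1] at hu
    exact not_isUnit_zero hu
  have hσinj : Function.Injective σ := by
    intro i j hij
    apply hs
    apply inv_injective
    rw [← hσe, ← hσe, hij]
  have hRroot : ∀ j, R.IsRoot (σ j) := by
    intro j
    let _ : Invertible (s j) := invertibleOfNonzero (hs0 j)
    have h1 := (eval₂_reflect_eq_zero_iff (algebraMap (integralClosure A K) K) (s j)
      (k + k' - 1) Ψ (by omega)).mpr (hroot j)
    rw [invOf_eq_inv, ← hR, ← hσe] at h1
    have h2 : eval₂ (algebraMap (integralClosure A K) K) (algebraMap (integralClosure A K) K (σ j)) R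
        = 0 := h1
    rw [eval₂_at_apply] at h2
    exact Subtype.val_injective h2
  obtain ⟨G, hG⟩ := prod_dvd_of_roots83 R hR0 σ hσinj hRroot
  have h3 : X ^ k' ∣ R.map (residue (integralClosure A K)) := by
    refine ⟨G.map (residue (integralClosure A K)), ?_⟩
    rw [hG, Polynomial.map_mul, Polynomial.map_prod]
    simp only [Polynomial.map_sub, map_X, map_C, (residue_eq_zero_iff _).2 (hσm _), C_0, sub_zero,
      Finset.prod_const, Finset.card_univ, Fintype.card_fin]
  have h4 := X_pow_dvd_iff.mp h3 (k' - 1) (by omega)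
  rw [coeff_map, hRc (k' - 1) (by omega), show k + k' - 1 - (k' - 1) = k by omega] at h4
  exact hres h4

/-- scales. -/
theorem scale83 [IsLocalRing (integralClosure A K)] (w : integralClosure A K)
    (hw : w ∈ maximalIdeal (integralClosure A K)) (hw0 : w ≠ 0) (L : ℕ) :
    ∀ (k : ℕ), 0 < k → ∀ (M : ℕ), L + k ^ 2 ≤ M → ∀ s : integralClosure A K,
      (∃ z, ∏ i ∈ range k, (s - w ^ i) = w ^ M * z) →
      ∃ i < k, ∃ z, s = w ^ i + w ^ L * z := by
  have hwK : (w : K) ≠ 0 := fun h => hw0 (Subtype.val_injective h)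
  intro k hk
  induction k, hk using Nat.le_induction with
  | base =>
    intro M hM s hs
    obtain ⟨z, hz⟩ := hs
    refine ⟨0, by omega, w ^ (M - L) * z, ?_⟩
    rw [← mul_assoc, ← pow_add, show L + (M - L) = M by omega, ← hz]
    simp
  | succ k hk ih =>
    intro M hM s hs
    obtain ⟨z, hz⟩ := hs
    rw [Finset.prod_range_succ', pow_zero] at hz
    by_cases h1 : s - 1 ∈ maximalIdeal (integralClosure A K)
    · have hu : IsUnit (∏ i ∈ range k, (s - w ^ (i + 1))) := by
        rw [IsUnit.prod_iff]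
        intro i _
        by_contra hn
        have hn' : s - w ^ (i + 1) ∈ maximalIdeal (integralClosure A K) := hn
        have h2 : w ^ (i + 1) ∈ maximalIdeal (integralClosure A K) := by
          rw [pow_succ]
          exact Ideal.mul_mem_left _ _ hw
        have h3 : (1 : integralClosure A K) ∈ maximalIdeal (integralClosure A K) := by
          have h4 : (1 : integralClosure A K) = (s - w ^ (i + 1)) + w ^ (i + 1) - (s - 1) := by ring
          rw [h4]
          exact Ideal.sub_mem _ (Ideal.add_mem _ hn' h2) h1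
        exact (Ideal.ne_top_iff_one _).mp (Ideal.IsPrime.ne_top inferInstance) h3
      obtain ⟨u, hu⟩ := hu
      refine ⟨0, by omega, w ^ (M - L) * z * (↑u⁻¹ : integralClosure A K), ?_⟩
      have h5 : s - 1 = w ^ M * z * (↑u⁻¹ : integralClosure A K) := by
        rw [← hz, ← hu, mul_comm (↑u : integralClosure A K), mul_assoc, Units.mul_inv, mul_one]
      have h6 : w ^ L * (w ^ (M - L) * z * (↑u⁻¹ : integralClosure A K))
          = w ^ M * z * (↑u⁻¹ : integralClosure A K) := by
        rw [← mul_assoc, ← mul_assoc, ← pow_add, show L + (M - L) = M by omega]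
      rw [h6, ← h5, pow_zero]
      ring
    · have h1u : IsUnit (s - 1) := by
        by_contra hn
        exact h1 hn
      obtain ⟨u, hu⟩ := h1u
      have h2 : ∏ i ∈ range k, (s - w ^ (i + 1)) = w ^ M * (z * (↑u⁻¹ : integralClosure A K)) := by
        rw [← mul_assoc, ← hz, ← hu, mul_assoc, Units.mul_inv, mul_one]
      obtain ⟨z', hz'⟩ : ∃ z', z' = z * (↑u⁻¹ : integralClosure A K) := ⟨_, rfl⟩
      rw [← hz'] at h2
      have hMk : k ≤ M := by nlinarith
      -- `s / w` is integral
      have hprodK : ∏ i ∈ range k, ((s : K) / (w : K) - (w : K) ^ i) =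
          (w : K) ^ (M - k) * (z' : K) := by
        have h3 : ∏ i ∈ range k, ((s : K) - (w : K) ^ (i + 1)) = (w : K) ^ M * (z' : K) := by
          have := congrArg (algebraMap (integralClosure A K) K) h2
          rw [map_prod, map_mul, map_pow] at this
          simp only [map_sub, map_pow] at this
          exact this
        have h4 : ∏ i ∈ range k, ((s : K) - (w : K) ^ (i + 1)) =
            (w : K) ^ k * ∏ i ∈ range k, ((s : K) / (w : K) - (w : K) ^ i) := by
          have h5 : (w : K) ^ k = ∏ _i ∈ range k, (w : K) := by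
            rw [Finset.prod_const, Finset.card_range]
          rw [h5, ← Finset.prod_mul_distrib]
          refine Finset.prod_congr rfl fun i _ => ?_
          rw [mul_sub, mul_div_cancel₀ _ hwK, pow_succ']
        have h6 : (w : K) ^ k ≠ 0 := pow_ne_zero _ hwK
        apply mul_left_cancel₀ h6
        rw [← h4, h3, ← mul_assoc, ← pow_add, show k + (M - k) = M by omega]
      obtain ⟨s', hs'⟩ : ∃ t : integralClosure A K, (t : K) = (s : K) / (w : K) := by
        refine mem_of_integral83 _ ⟨(∏ i ∈ range k, (X - C (w ^ i))) - C (w ^ (M - k) * z'),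
          ?_, ?_⟩
        · refine Monic.sub_of_left (monic_prod_of_monic _ _ fun j _ => monic_X_sub_C _) ?_
          refine lt_of_le_of_lt degree_C_le ?_
          rw [degree_prod_of_monic _ _ fun j _ => monic_X_sub_C _]
          simp only [degree_X_sub_C, Finset.sum_const, Finset.card_range]
          have : 0 < k := hk
          simpa using this
        · rw [eval₂_sub, eval₂_finsetProd]
          simp only [eval₂_sub, eval₂_X, eval₂_C]
          have h7 : ∏ i ∈ range k, ((s : K) / (w : K) -
              (algebraMap (integralClosure A K) K) (w ^ i)) = (w : K) ^ (M - k) * (z' : K) := by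
            rw [← hprodK]
            refine Finset.prod_congr rfl fun i _ => ?_
            rw [map_pow]
            rfl
          rw [h7, map_mul, map_pow]
          exact sub_self _
      have hss : s = w * s' := by
        apply Subtype.val_injective
        have : ((w * s' : integralClosure A K) : K) = (w : K) * (s' : K) := rfl
        rw [this, hs', mul_div_cancel₀ _ hwK]
      have hprod' : ∏ i ∈ range k, (s' - w ^ i) = w ^ (M - k) * z' := by
        have hw' : w ^ k ≠ 0 := pow_ne_zero _ hw0
        apply mul_left_cancel₀ hw'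
        rw [← mul_assoc, ← pow_add, show k + (M - k) = M by omega, ← h2]
        have h5 : w ^ k = ∏ _i ∈ range k, w := by
          rw [Finset.prod_const, Finset.card_range]
        rw [h5, ← Finset.prod_mul_distrib]
        refine Finset.prod_congr rfl fun i _ => ?_
        rw [hss, pow_succ']
        ring
      obtain ⟨i, hi, z'', hz''⟩ := ih (M - k) (by
        have : (k + 1) ^ 2 = k ^ 2 + 2 * k + 1 := by ring
        omega) s' ⟨z', hprod'⟩
      refine ⟨i + 1, by omega, w * z'', ?_⟩
      rw [hss, hz'', pow_succ']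
      ring

end Closure83

section Newton83

variable {A K : Type} [CommRing A] [IsDomain A] [IsLocalRing A] [Field K] [Algebra A K]
  [FaithfulSMul A K]

/-- Newton form: a root of `f` in the integral closure near `a` lies in `A`. -/
theorem uni_newton83 [IsLocalRing (integralClosure A K)] (f : A[X]) (a c : A)
    (hc : c ∈ maximalIdeal A) (h : f.eval a = (f.derivative.eval a) ^ 2 * c)
    (hne : f.derivative.eval a ≠ 0) (t : integralClosure A K)
    (ht : t ∈ maximalIdeal (integralClosure A K))
    (hroot : aeval (algebraMap A (integralClosure A K) a +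
      algebraMap A (integralClosure A K) (f.derivative.eval a) * t) f = 0) :
    ∃ a' ∈ maximalIdeal A, algebraMap A (integralClosure A K) a' = t := by
  obtain ⟨d, hd⟩ : ∃ d, d = f.derivative.eval a := ⟨_, rfl⟩
  rw [← hd] at h hne hroot
  obtain ⟨Kp, hK⟩ := binomExpansion (f.map (C : A →+* A[X])) (C a) (C d * X)
  have e1 : (f.map (C : A →+* A[X])).eval (C a) = C (f.eval a) := by
    rw [eval_map, eval₂_at_apply]
  have e2 : (f.map (C : A →+* A[X])).derivative.eval (C a) = C d := by
    rw [derivative_map, eval_map, eval₂_at_apply, hd]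
  have e3 : (f.map (C : A →+* A[X])).eval (C a + C d * X) = f.comp (C a + C d * X) := by
    rw [eval_map]
    rfl
  rw [e1, e2, e3] at hK
  obtain ⟨G, hG⟩ : ∃ G : A[X], G = C c + X + Kp * X ^ 2 := ⟨_, rfl⟩
  have hK' : f.comp (C a + C d * X) = C (d ^ 2) * G := by
    rw [hK, h, hG]
    simp only [C_mul, C_pow]
    ring
  have hα : aeval t (f.comp (C a + C d * X)) = 0 := by
    rw [aeval_comp]
    have : aeval t (C a + C d * X : A[X]) = algebraMap A (integralClosure A K) a +
        algebraMap A (integralClosure A K) d * t := by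
      rw [map_add, map_mul, aeval_C, aeval_C, aeval_X]
    rw [this]
    exact hroot
  rw [hK', map_mul, aeval_C] at hα
  have hd0 : algebraMap A (integralClosure A K) (d ^ 2) ≠ 0 := by
    intro h0
    apply pow_ne_zero 2 hne
    apply inj_closure34 (A := A) (K := K)
    rw [h0, map_zero]
  have hGt : aeval t G = 0 := (mul_eq_zero.mp hα).resolve_left hd0
  refine near_root_mem34 (S := integralClosure A K) G ?_ ?_ t ht hGt
  · have : G.eval 0 = c := by simp [hG]
    rw [this]
    exact hc
  · have : G.derivative.eval 0 = 1 := by simp [hG]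
    rw [this]
    exact isUnit_one

/-- derivative and value of `∏ (X - v ^ j) * H + v ^ M * E` at `v ^ i`. -/
theorem newton_data83 {S : Type} [CommRing S] [IsLocalRing S]
    (v : S) (hv : v ∈ maximalIdeal S) (k M : ℕ) (Ψ H E₀ : S[X])
    (hΨ : Ψ = (∏ j ∈ range k, (X - C (v ^ j))) * H + C (v ^ M) * E₀) (i : ℕ) (hi : i < k)
    (hH : IsUnit (H.eval (v ^ i))) (hM : 2 * (k * k) + 1 ≤ M) :
    ∃ e ≤ k * k, ∃ θ, IsUnit θ ∧ Ψ.derivative.eval (v ^ i) = v ^ e * θ ∧
      ∃ c ∈ maximalIdeal S, Ψ.eval (v ^ i) = (Ψ.derivative.eval (v ^ i)) ^ 2 * c := by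
  classical
  have hunit1 : ∀ (η : S) (n : ℕ) (z : S), IsUnit η → 0 < n → IsUnit (η + v ^ n * z) := by
    intro η n z hη hn
    rw [← residue_ne_zero_iff_isUnit, map_add, map_mul, map_pow, (residue_eq_zero_iff v).2 hv,
      zero_pow hn.ne', zero_mul, add_zero]
    exact (residue_ne_zero_iff_isUnit _).2 hη
  have hdiff : ∀ j ∈ (range k).erase i, ∃ e ≤ k, ∃ η : S, IsUnit η ∧
      v ^ i - v ^ j = v ^ e * η := by
    intro j hj
    have hji : j ≠ i := ne_of_mem_erase hj
    have hjk : j < k := Finset.mem_range.mp (mem_of_mem_erase hj)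
    rcases lt_or_gt_of_ne hji with hlt | hlt
    · refine ⟨j, by omega, -1 + v ^ (i - j) * 1,
        hunit1 (-1) _ _ isUnit_one.neg (by omega), ?_⟩
      have e1 : v ^ i = v ^ j * v ^ (i - j) := by rw [← pow_add]; congr 1; omega
      rw [e1]; ring
    · refine ⟨i, by omega, 1 + v ^ (j - i) * (-1),
        hunit1 1 _ _ isUnit_one (by omega), ?_⟩
      have e1 : v ^ j = v ^ i * v ^ (j - i) := by rw [← pow_add]; congr 1; omega
      rw [e1]; ring
  obtain ⟨e, he, η, hη, hprod⟩ := prod_pow_unit v k ((range k).erase i)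
      (fun l => v ^ i - v ^ l) hdiff
  have hik : i ∈ range k := Finset.mem_range.mpr hi
  have he' : e ≤ k * k := by
    refine he.trans (Nat.mul_le_mul_right _ ?_)
    rw [card_erase_of_mem hik, Finset.card_range]
    omega
  have hW0 : (∏ j ∈ range k, (X - C (v ^ j))).eval (v ^ i) = 0 := by
    rw [eval_prod]
    exact prod_eq_zero hik (by simp)
  have hW1 : (∏ j ∈ range k, (X - C (v ^ j))).derivative.eval (v ^ i) = v ^ e * η := by
    rw [derivative_prod_finset, eval_finsetSum, Finset.sum_eq_single i]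
    · rw [← hprod, eval_mul, eval_prod, derivative_sub, derivative_X, derivative_C, sub_zero,
        eval_one, mul_one]
      simp only [eval_sub, eval_X, eval_C]
    · intro l _ hl
      rw [eval_mul, eval_prod]
      rw [prod_eq_zero (mem_erase.mpr ⟨Ne.symm hl, hik⟩) (by simp), zero_mul]
    · intro hcon; exact absurd hik hcon
  have hΨ0 : Ψ.eval (v ^ i) = v ^ M * E₀.eval (v ^ i) := by
    rw [hΨ, eval_add, eval_mul, hW0, zero_mul, zero_add, eval_mul, eval_C]
  obtain ⟨θ, hθ⟩ : ∃ θ, θ = η * H.eval (v ^ i) + v ^ (M - e) * E₀.derivative.eval (v ^ i) :=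
    ⟨_, rfl⟩
  have hΨ1 : Ψ.derivative.eval (v ^ i) = v ^ e * θ := by
    rw [hΨ, derivative_add, derivative_mul, derivative_mul, derivative_C, eval_add, eval_add,
      eval_mul, eval_mul, hW0, hW1, zero_mul, add_zero, zero_mul, zero_add, eval_mul, eval_C, hθ]
    have e1 : v ^ M = v ^ e * v ^ (M - e) := by rw [← pow_add]; congr 1; omega
    rw [e1]; ring
  have hθu : IsUnit θ := by
    rw [hθ]
    exact hunit1 _ _ _ (hη.mul hH) (by omega)
  refine ⟨e, he', θ, hθu, hΨ1, ?_⟩
  obtain ⟨θ', hθ'⟩ := hθu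
  refine ⟨v ^ (M - 2 * e) * ((↑θ'⁻¹ : S) ^ 2 * E₀.eval (v ^ i)), ?_, ?_⟩
  · exact Ideal.mul_mem_right _ _ (Ideal.pow_mem_of_mem _ hv _ (by omega))
  · rw [hΨ0, hΨ1, ← hθ']
    have e1 : v ^ M = v ^ (2 * e) * v ^ (M - 2 * e) := by rw [← pow_add]; congr 1; omega
    have e2 : (↑θ' : S) * ↑θ'⁻¹ = 1 := Units.mul_inv θ'
    calc v ^ M * E₀.eval (v ^ i) = v ^ (2 * e) * v ^ (M - 2 * e) * E₀.eval (v ^ i) := by
          rw [← e1]
      _ = (v ^ e) ^ 2 * ((↑θ' : S) * ↑θ'⁻¹) ^ 2 * v ^ (M - 2 * e) * E₀.eval (v ^ i) := by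
          rw [e2, ← pow_mul, mul_comm e 2]; ring
      _ = _ := by ring

/-- among `k'` distinct roots in `K` of `Φ`, `natDegree Φ < k + k'`, one lies in `v ^ E * A`. -/
theorem uni_roots83 (hS : IsLocalRing (integralClosure A K)) (v : A)
    (hv : v ∈ maximalIdeal A) (hv0 : v ≠ 0) (k k' E h M : ℕ) (hk : 0 < k) (hk' : 0 < k')
    (hEh : h < E)
    (w : A) (hw : IsUnit w) (Φ H E₀ : A[X])
    (hΦ : Φ = (∏ j : Fin k, (X - C (v ^ (E + (j : ℕ))))) * H + C (v ^ M) * E₀)
    (hH0 : H.eval 0 = v ^ h * w) (hM : E * k + h + (2 * (k * k) + 1) ≤ M)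
    (hdeg : Φ.natDegree < k + k') (r : Fin k' → K) (hr : Function.Injective r)
    (hroot : ∀ j, aeval (r j) Φ = 0) :
    ∃ j, ∃ z : A, algebraMap A K (v ^ E * z) = r j := by
  classical
  obtain ⟨α, hα⟩ : ∃ α : A →+* integralClosure A K, α = algebraMap A (integralClosure A K) :=
    ⟨_, rfl⟩
  have hαinj : Function.Injective α := by rw [hα]; exact inj_closure34
  have hmem : ∀ x : A, α x ∈ maximalIdeal (integralClosure A K) ↔ x ∈ maximalIdeal A := by
    intro x; rw [hα]; exact mem_max_iff34 x
  have hunit : ∀ x : A, IsUnit (α x) ↔ IsUnit x := by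
    intro x; rw [hα]; exact isUnit_map_iff34 x
  have hvm : α v ∈ maximalIdeal (integralClosure A K) := (hmem v).2 hv
  have hαv0 : α v ≠ 0 := fun h0 => hv0 (hαinj (by rw [h0, map_zero]))
  have hvK : algebraMap A K v ≠ 0 := by
    intro h0
    apply hv0
    apply FaithfulSMul.algebraMap_injective A K
    rw [h0, map_zero]
  obtain ⟨H₁, hH₁⟩ : ∃ H₁ : A[X], H = C (v ^ h * w) + X * H₁ := by
    refine ⟨H.divX, ?_⟩
    have h1 := H.divX_mul_X_add
    rw [coeff_zero_eq_eval_zero, hH0] at h1
    calc H = H.divX * X + C (v ^ h * w) := h1.symm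
      _ = C (v ^ h * w) + X * H.divX := by ring
  obtain ⟨x, hx⟩ : ∃ x : A[X], x = C (v ^ E) * X := ⟨_, rfl⟩
  obtain ⟨U, hU⟩ : ∃ U : A[X], U = C w + C (v ^ (E - h)) * (X * H₁.comp x) := ⟨_, rfl⟩
  obtain ⟨M', hM'⟩ : ∃ M', M' = M - (E * k + h) := ⟨_, rfl⟩
  obtain ⟨Ψ, hΨ⟩ : ∃ Ψ : A[X], Ψ = (∏ j ∈ range k, (X - C (v ^ j))) * U +
      C (v ^ M') * E₀.comp x := ⟨_, rfl⟩
  have hcomp : Φ.comp x = C (v ^ (E * k + h)) * Ψ := by
    have h1 : (∏ j : Fin k, (X - C (v ^ (E + (j : ℕ)))) : A[X]).comp x =
        C (v ^ (E * k)) * ∏ j ∈ range k, (X - C (v ^ j)) := by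
      rw [Polynomial.prod_comp]
      have h2 : ∀ j : Fin k, (X - C (v ^ (E + (j : ℕ))) : A[X]).comp x =
          C (v ^ E) * (X - C (v ^ (j : ℕ))) := by
        intro j
        rw [sub_comp, X_comp, C_comp, hx, pow_add, C_mul]
        ring
      rw [Finset.prod_congr rfl fun j _ => h2 j, Finset.prod_mul_distrib, Finset.prod_const,
        Finset.card_univ, Fintype.card_fin, ← C_pow, ← pow_mul]
      congr 1
      exact Fin.prod_univ_eq_prod_range (fun j => (X - C (v ^ j) : A[X])) k
    have h3 : H.comp x = C (v ^ h) * U := by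
      rw [hH₁, add_comp, mul_comp, X_comp, C_comp, hU]
      have e1 : v ^ E = v ^ h * v ^ (E - h) := by rw [← pow_add]; congr 1; omega
      have e2 : (C (v ^ E) : A[X]) = C (v ^ h) * C (v ^ (E - h)) := by rw [← C_mul, ← e1]
      generalize H₁.comp x = g
      rw [hx, e2, C_mul]
      ring
    rw [hΦ, add_comp, mul_comp, h1, h3, mul_comp, C_comp, hΨ]
    have e3 : v ^ M = v ^ (E * k + h) * v ^ M' := by
      rw [← pow_add, hM']; congr 1; omega
    rw [e3, pow_add v (E * k) h]
    simp only [C_mul]
    ring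
  have hv0' : v ^ (E * k + h) ≠ 0 := pow_ne_zero _ hv0
  -- degree of `Ψ`
  have hΨdeg : Ψ.natDegree < k + k' := by
    have h1 : (Φ.comp x).natDegree ≤ Φ.natDegree := by
      refine natDegree_comp_le.trans ?_
      have h2 : x.natDegree ≤ 1 := by
        rw [hx]; exact (natDegree_C_mul_le _ _).trans natDegree_X_le
      calc Φ.natDegree * x.natDegree ≤ Φ.natDegree * 1 := Nat.mul_le_mul_left _ h2
        _ = Φ.natDegree := mul_one _
    rw [hcomp, natDegree_C_mul hv0'] at h1
    omega
  -- residue of `Ψ`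
  have hΨk : IsUnit (Ψ.coeff k) := by
    rw [← residue_ne_zero_iff_isUnit, ← coeff_map]
    have h1 : Ψ.map (residue A) = (∏ j ∈ range k, (X - C (residue A v ^ j))) *
        C (residue A w) := by
      have hz : ∀ n : ℕ, n ≠ 0 → (C (v ^ n) : A[X]).map (residue A) = 0 := by
        intro n hn
        rw [map_C, map_pow, (residue_eq_zero_iff v).2 hv, zero_pow hn, C_0]
      rw [hΨ, hU]
      simp only [Polynomial.map_add, Polynomial.map_mul, hz (E - h) (by omega),
        hz M' (by omega), zero_mul, add_zero]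
      rw [map_C, Polynomial.map_prod]
      congr 1
      refine Finset.prod_congr rfl fun j _ => ?_
      rw [Polynomial.map_sub, map_X, map_C, map_pow]
    have hmon : (∏ j ∈ range k, (X - C (residue A v ^ j))).Monic :=
      monic_prod_of_monic _ _ fun j _ => monic_X_sub_C _
    have hnd : (∏ j ∈ range k, (X - C (residue A v ^ j))).natDegree = k := by
      rw [natDegree_prod_of_monic _ _ fun j _ => monic_X_sub_C _]
      simp only [natDegree_X_sub_C, Finset.sum_const, Finset.card_range, smul_eq_mul, mul_one]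
    rw [h1, coeff_mul_C]
    have h2 : (∏ j ∈ range k, (X - C (residue A v ^ j))).coeff k = 1 := by
      have h3 := hmon
      rw [Monic, leadingCoeff, hnd] at h3
      exact h3
    rw [h2, one_mul]
    exact (residue_ne_zero_iff_isUnit _).2 hw
  -- the roots `r j / v ^ E`
  have hvE : algebraMap A K (v ^ E) ≠ 0 := by
    rw [map_pow]
    exact pow_ne_zero _ hvK
  obtain ⟨s, hs⟩ : ∃ s : Fin k' → K, s = fun j => r j / algebraMap A K (v ^ E) := ⟨_, rfl⟩
  have hsr : ∀ j, algebraMap A K (v ^ E) * s j = r j := by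
    intro j
    rw [hs]
    exact mul_div_cancel₀ _ hvE
  have hsinj : Function.Injective s := by
    intro i j hij
    apply hr
    rw [← hsr, ← hsr, hij]
  have hsroot : ∀ j, aeval (s j) Ψ = 0 := by
    intro j
    have h1 : aeval (s j) (Φ.comp x) = 0 := by
      rw [aeval_comp]
      have h2 : aeval (s j) x = r j := by
        rw [hx, map_mul, aeval_C, aeval_X, hsr]
      rw [h2]
      exact hroot j
    rw [hcomp, map_mul, aeval_C] at h1
    refine (mul_eq_zero.mp h1).resolve_left ?_
    rw [map_pow]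
    exact pow_ne_zero _ hvK
  obtain ⟨j, t, htj⟩ := exists_integral_root83 (A := A) (K := K) k k' hk'
    (Ψ.map (algebraMap A (integralClosure A K)))
    (lt_of_le_of_lt natDegree_map_le hΨdeg)
    (by
      rw [coeff_map]
      exact hΨk.map _) s hsinj
    (fun j => by
      rw [aeval_map_algebraMap]
      exact hsroot j)
  have hΨt : aeval t Ψ = 0 := by
    apply Subtype.val_injective
    have h1 := (Polynomial.aeval_algHom_apply (integralClosure A K).val t Ψ)
    have h2 : (((aeval t Ψ : integralClosure A K)) : K) = aeval (t : K) Ψ := h1.symm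
    rw [h2, htj, hsroot j]
    rfl
  -- the unit factor
  have hUt : ∀ y : integralClosure A K, IsUnit (aeval y U) := by
    intro y
    rw [← residue_ne_zero_iff_isUnit, hU, map_add, map_mul, aeval_C, aeval_C, map_add, map_mul]
    have h1 : residue (integralClosure A K) (algebraMap A (integralClosure A K) (v ^ (E - h)))
        = 0 := by
      rw [residue_eq_zero_iff, ← hα, map_pow]
      exact Ideal.pow_mem_of_mem _ hvm _ (by omega)
    rw [h1, zero_mul, add_zero, residue_ne_zero_iff_isUnit, ← hα]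
    exact (hunit w).2 hw
  obtain ⟨Ut, hUt'⟩ := hUt t
  have hprod : ∏ i ∈ range k, (t - α v ^ i) = α v ^ M' *
      (- aeval t (E₀.comp x) * (↑Ut⁻¹ : integralClosure A K)) := by
    have h1 : (∏ i ∈ range k, (t - α v ^ i)) * (↑Ut : integralClosure A K) +
        α v ^ M' * aeval t (E₀.comp x) = 0 := by
      rw [hUt', ← hΨt, hΨ, map_add, map_mul, map_mul, map_prod, aeval_C, ← hα, map_pow α]
      congr 2
      refine Finset.prod_congr rfl fun i _ => ?_
      rw [map_sub, aeval_X, aeval_C, ← hα, map_pow]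
    have h2 : (∏ i ∈ range k, (t - α v ^ i)) =
        (∏ i ∈ range k, (t - α v ^ i)) * (↑Ut : integralClosure A K) *
          (↑Ut⁻¹ : integralClosure A K) := by
      rw [mul_assoc, Units.mul_inv, mul_one]
    rw [h2]
    linear_combination (↑Ut⁻¹ : integralClosure A K) * h1
  obtain ⟨i, hi, z, hz⟩ := scale83 (A := A) (K := K) (α v) hvm hαv0 (k * k + 1) k hk M'
    (by
      rw [hM', pow_two]
      omega) t ⟨_, hprod⟩
  -- Newton
  have hUi : IsUnit (U.eval (v ^ i)) := by
    rw [← hunit]
    have h1 := hUt (α (v ^ i))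
    rw [hα, aeval_algebraMap_apply, ← hα] at h1
    have h2 : aeval (v ^ i) U = U.eval (v ^ i) := by simp
    rwa [h2] at h1
  obtain ⟨e, he, θ, hθu, hd, c, hc, hval⟩ := newton_data83 v hv k M' Ψ U (E₀.comp x) hΨ i hi hUi
    (by rw [hM']; omega)
  obtain ⟨θ', hθ'⟩ := hθu
  obtain ⟨t', ht'⟩ : ∃ t' : integralClosure A K, t' = α v ^ (k * k + 1 - e) *
      (α (↑θ'⁻¹ : A) * z) := ⟨_, rfl⟩
  have htt : t = algebraMap A (integralClosure A K) (v ^ i) +
      algebraMap A (integralClosure A K) (Ψ.derivative.eval (v ^ i)) * t' := by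
    rw [← hα, hd, hz, ht', map_mul, map_pow, map_pow, ← hθ']
    congr 1
    have e1 : α (↑θ' : A) * α (↑θ'⁻¹ : A) = 1 := by rw [← map_mul, Units.mul_inv, map_one]
    have e2 : α v ^ (k * k + 1) = α v ^ e * α v ^ (k * k + 1 - e) := by
      rw [← pow_add]; congr 1; omega
    calc α v ^ (k * k + 1) * z = α v ^ e * α v ^ (k * k + 1 - e) * z := by rw [e2]
      _ = α v ^ e * α v ^ (k * k + 1 - e) * (α (↑θ' : A) * α (↑θ'⁻¹ : A)) * z := by
        rw [e1, mul_one]
      _ = _ := by ring
  have hdne : Ψ.derivative.eval (v ^ i) ≠ 0 := by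
    rw [hd, ← hθ']
    exact mul_ne_zero (pow_ne_zero _ hv0) θ'.ne_zero
  obtain ⟨a', -, ha'⟩ := uni_newton83 (A := A) (K := K) Ψ (v ^ i) c hc hval hdne t'
    (by
      rw [ht']
      exact Ideal.mul_mem_right _ _ (Ideal.pow_mem_of_mem _ hvm _ (by omega)))
    (by rw [← htt]; exact hΨt)
  refine ⟨j, v ^ i + Ψ.derivative.eval (v ^ i) * a', ?_⟩
  have hta : t = algebraMap A (integralClosure A K) (v ^ i + Ψ.derivative.eval (v ^ i) * a') := by
    rw [map_add, map_mul, ha']
    exact htt
  rw [map_mul, ← hsr j, ← htj, hta]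
  rfl

end Newton83

section Side83

variable {ι : Type} [Fintype ι] [DecidableEq ι] {q : ℕ} [Fact q.Prime]

/-- Interface of a side: local data, and choice of a root among `k'` distinct roots in `K`,
`natDegree Φ < k + k'`. -/
def SecSideG {R : Type} [CommRing R] [IsDomain R] (q : ℕ) [Fact q.Prime]
    (m : Ideal R) [m.IsMaximal] (ζ : R) (c : ι → R) (D : R) : Prop :=
  ∃ (I : Ideal R) (p : (ι → ZMod q) → (R ⧸ I)[X]), I ≤ m ∧
    (∀ M : Ideal R, M.IsMaximal → I ≤ M → M = m) ∧
    (∀ s, p s ≠ 0 → q * (p s).natDegree + wt s < q * (2 * Fintype.card ι)) ∧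
    ∀ P : (ι → ZMod q) → R[X], (∀ s, (P s).map (Ideal.Quotient.mk I) = p s) →
      ∀ Φ : R[X], Φ = (nmat (fun i => X + C (c i ^ q)) (famD D (2 * Fintype.card ι) P)).det →
        ∀ k' : ℕ, 0 < k' →
        Φ.natDegree < (Fintype.card ι * q ^ Fintype.card ι + 1) + k' →
        ∀ φ : Localization.AtPrime m →+* FractionRing R,
        (∀ a : R, φ (algebraMap R _ a) = algebraMap R (FractionRing R) a) →
        ∀ r : Fin k' → FractionRing R,
        Function.Injective r → (∀ j, (Φ.map (algebraMap R (FractionRing R))).IsRoot (r j)) →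
        ∃ j, ∃ x ∈ maximalIdeal (Localization.AtPrime m), φ x = r j ∧
          NoTwist q m ζ c D P x

theorem SecSideG.toD {R : Type} [CommRing R] [IsDomain R] {m : Ideal R} [m.IsMaximal] {ζ : R}
    {c : ι → R} {D : R} (h : SecSideG q m ζ c D) : SecSideD q m ζ c D := by
  obtain ⟨I, p, h1, h2, h3, h4⟩ := h
  exact ⟨I, p, h1, h2, h3, fun P hP Φ hΦ hd φ hφ r hr hroot =>
    h4 P hP Φ hΦ _ (Nat.succ_pos _) (by omega) φ hφ r hr hroot⟩

/-- **the unibranch side**, no hypothesis on the residue field. -/
theorem secSideG_uni {R : Type} [CommRing R] [IsDomain R] (m : Ideal R) [hm : m.IsMaximal]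
    (hU : IsLocalRing (integralClosure (Localization.AtPrime m) (FractionRing R)))
    (w : R) (hw : w ∈ m) (hw0 : w ≠ 0) (hwM : ∀ M : Ideal R, M.IsMaximal → w ∈ M → M = m)
    (D s₀ : R) (h : ℕ) (hD : D = w ^ h * s₀) (hs₀ : s₀ ∉ m)
    (hq : (q : R) ∉ m) (ζ : R) (hζ : ∑ j ∈ range q, ζ ^ j = 0)
    (hι : 0 < Fintype.card ι) (c : ι → R) (hc : ∀ i, c i ∉ m) (η : ι → PowerSeries R)
    (hη : ∀ i, η i ^ q = PowerSeries.X + PowerSeries.C (c i ^ q))
    (hη0 : ∀ i, PowerSeries.constantCoeff (η i) = c i)
    (hJ : JetsD (q := q) ζ c η (2 * Fintype.card ι)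
      (Fintype.card ι * q ^ Fintype.card ι + 1 + 1) D) :
    SecSideG q m ζ c D := by
  classical
  obtain ⟨N, hN⟩ : ∃ N, N = q ^ Fintype.card ι := ⟨_, rfl⟩
  have hNpos : 0 < N := by rw [hN]; exact pow_pos (Fact.out : q.Prime).pos _
  obtain ⟨k, hk⟩ : ∃ k, k = Fintype.card ι * q ^ Fintype.card ι + 1 := ⟨_, rfl⟩
  obtain ⟨E, hE⟩ : ∃ E, E = h * N + 1 := ⟨_, rfl⟩
  obtain ⟨M, hM⟩ : ∃ M, M = E * k + h * N + (2 * (k * k) + 1) := ⟨_, rfl⟩
  have hhE : h < E := by
    have := Nat.le_mul_of_pos_right h hNpos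
    omega
  have hkpos : 0 < k := by omega
  have hEM : E ≤ M := by
    have := Nat.le_mul_of_pos_right E hkpos
    omega
  obtain ⟨p, hpw, hP⟩ := side_decD m w hwM D s₀ h hD hs₀ hq ζ hζ c hc (2 * Fintype.card ι)
    (by omega) k η hη hη0 (by rw [hk]; exact hJ) E M hhE
  refine ⟨Ideal.span {w ^ M}, p, ?_, ?_, hpw, fun P hPp => ?_⟩
  · rw [Ideal.span_singleton_le_iff_mem]
    exact Ideal.pow_mem_of_mem _ hw _ (by omega)
  · intro M' hM' hle
    exact hwM M' hM' (hM'.isPrime.mem_of_pow_mem _ (hle (Ideal.mem_span_singleton_self _)))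
  obtain ⟨hval, H, E₀, hΦ, z, hz⟩ := hP P hPp
  intro Φ hΦe k' hk' hdeg φ hφ r hr hroot
  rw [← hΦe] at hΦ
  have hφe := phi_eq34 m φ hφ
  have hmem : ∀ x : R, algebraMap R (Localization.AtPrime m) x ∈
      maximalIdeal (Localization.AtPrime m) ↔ x ∈ m := fun x =>
    IsLocalization.AtPrime.to_map_mem_maximal_iff (Localization.AtPrime m) m x
  have hunit : ∀ y : R, y ∉ m → IsUnit (algebraMap R (Localization.AtPrime m) y) := fun y hy => by
    have := (hmem y).not.2 hy
    simpa [mem_maximalIdeal, mem_nonunits_iff] using this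
  have hinj : Function.Injective (algebraMap R (Localization.AtPrime m)) :=
    IsLocalization.injective _ m.primeCompl_le_nonZeroDivisors
  have hdom : IsDomain (Localization.AtPrime m) :=
    IsLocalization.isDomain_localization m.primeCompl_le_nonZeroDivisors
  have hfs : FaithfulSMul (Localization.AtPrime m) (FractionRing R) := by
    rw [faithfulSMul_iff_algebraMap_injective, ← hφe]
    exact phi_injective m φ hφ
  have hH0' : H.eval 0 = w ^ (h * N) * (s₀ ^ N + w ^ (M - h * N) * z) := by
    have h2 : M = h * N + (M - h * N) := by omega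
    rw [hz, hD, ← hN]
    conv_lhs => rw [h2]
    rw [pow_add w (h * N), mul_pow, ← pow_mul]; ring
  have hs₀' : s₀ ^ N + w ^ (M - h * N) * z ∉ m := by
    intro h1
    have h2 : w ^ (M - h * N) * z ∈ m :=
      m.mul_mem_right _ (Ideal.pow_mem_of_mem _ hw _ (by omega))
    exact hs₀ (hm.isPrime.mem_of_pow_mem _ ((Ideal.add_mem_iff_left _ h2).1 h1))
  obtain ⟨j, y, hy⟩ := uni_roots83 (A := Localization.AtPrime m) (K := FractionRing R) hU
    (algebraMap R _ w) ((hmem w).2 hw) (fun h0 => hw0 (hinj (by rw [h0, map_zero])))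
    k k' E (h * N) M hkpos hk' (by omega) _ (hunit _ hs₀')
    (Φ.map (algebraMap R (Localization.AtPrime m))) (H.map (algebraMap R (Localization.AtPrime m)))
    (E₀.map (algebraMap R (Localization.AtPrime m)))
    (by
      rw [hΦ]
      simp only [Polynomial.map_add, Polynomial.map_mul, Polynomial.map_prod, Polynomial.map_sub,
        Polynomial.map_X, Polynomial.map_C, map_pow, Polynomial.map_pow])
    (by
      have h1 : (H.map (algebraMap R (Localization.AtPrime m))).eval 0 =
          algebraMap R (Localization.AtPrime m) (H.eval 0) := by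
        rw [← map_zero (algebraMap R (Localization.AtPrime m)), eval_map, eval₂_at_apply]
      rw [h1, hH0', map_mul, map_pow])
    (by rw [hM])
    (by
      rw [Polynomial.natDegree_map_eq_of_injective hinj, hk]
      exact hdeg)
    r hr
    (fun j => by
      have := hroot j
      rw [IsRoot.def, eval_map_algebraMap] at this
      rw [aeval_map_algebraMap]
      exact this)
  refine ⟨j, algebraMap R _ w ^ E * y, ?_, ?_, ?_⟩
  · exact Ideal.mul_mem_right _ _ (Ideal.pow_mem_of_mem _ ((hmem w).2 hw) _ (by omega))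
  · rw [hφe]
    exact hy
  · exact noTwist_of_dvd m w hw hw0 D s₀ h hD hs₀ hq ζ c hc E M hhE hEM P hval _ ⟨y, rfl⟩

end Side83

end Pool.Agent.AIC
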