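import Mathlib
import Pool.Agent.AIC.SideUniD83

/-!
# Stage 8: a root which is good for both sides

`good_both` : the counting lemma; `SecSideG.exists_common` : of `2 * a` distinct roots,
`a = n * q ^ n`, one is good at both maximal ideals.
-/

set_option autoImplicit false
set_option linter.unusedSectionVars false

namespace Pool.Agent.AIC

open Finset Polynomial IsLocalRing

variable {ι : Type} [Fintype ι] [DecidableEq ι] {q : ℕ} [Fact q.Prime]

/-- counting: of `2 * a` indices at most `a - 1` are bad for each side, so one is good for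
both. -/
theorem good_both (a : ℕ) (G₁ G₂ : Fin (2 * a) → Prop)
    (h₁ : ∀ f : Fin a → Fin (2 * a), Function.Injective f → ∃ i, G₁ (f i))
    (h₂ : ∀ f : Fin a → Fin (2 * a), Function.Injective f → ∃ i, G₂ (f i)) :
    ∃ j, G₁ j ∧ G₂ j := by
  classical
  have key : ∀ G : Fin (2 * a) → Prop,
      (∀ f : Fin a → Fin (2 * a), Function.Injective f → ∃ i, G (f i)) →
      (Finset.univ.filter fun j => ¬ G j).card < a := by
    intro G hG
    by_contra hcon
    obtain ⟨B, hB, hBc⟩ := Finset.exists_subset_card_eq (not_lt.1 hcon)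
    obtain ⟨i, hi⟩ := hG (fun i => (B.orderEmbOfFin hBc i))
      (fun x y hxy => (B.orderEmbOfFin hBc).injective hxy)
    exact (Finset.mem_filter.1 (hB (B.orderEmbOfFin_mem hBc i))).2 hi
  by_contra hno
  push Not at hno
  have h3 : (Finset.univ : Finset (Fin (2 * a))) ⊆
      (Finset.univ.filter fun j => ¬ G₁ j) ∪ (Finset.univ.filter fun j => ¬ G₂ j) := by
    intro j _
    by_cases hj : G₁ j
    · exact Finset.mem_union_right _ (Finset.mem_filter.2 ⟨Finset.mem_univ _, hno j hj⟩)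
    · exact Finset.mem_union_left _ (Finset.mem_filter.2 ⟨Finset.mem_univ _, hj⟩)
  have h4 := (Finset.card_le_card h3).trans (Finset.card_union_le _ _)
  rw [Finset.card_univ, Fintype.card_fin] at h4
  have h5 := key G₁ h₁
  have h6 := key G₂ h₂
  omega

/-- **a common good root** : `2 * a` distinct roots, `a = n * q ^ n`, and the two sides. -/
theorem SecSideG.exists_common {R : Type} [CommRing R] [IsDomain R] {m₁ m₂ : Ideal R}
    [m₁.IsMaximal] [m₂.IsMaximal] {ζ : R} {c₁ c₂ : ι → R} {D : R}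
    (hι : 0 < Fintype.card ι)
    (S₁ : SecSideG q m₁ ζ c₁ D) (S₂ : SecSideG q m₂ ζ c₂ D)
    (hcc : ∀ i, c₁ i ^ q = c₂ i ^ q) :
    ∃ (I₁ I₂ : Ideal R) (p₁ : (ι → ZMod q) → (R ⧸ I₁)[X]) (p₂ : (ι → ZMod q) → (R ⧸ I₂)[X]),
      I₁ ≤ m₁ ∧ I₂ ≤ m₂ ∧
      (∀ M : Ideal R, M.IsMaximal → I₁ ≤ M → M = m₁) ∧
      (∀ M : Ideal R, M.IsMaximal → I₂ ≤ M → M = m₂) ∧
      (∀ s, p₁ s ≠ 0 → q * (p₁ s).natDegree + wt s < q * (2 * Fintype.card ι)) ∧
      (∀ s, p₂ s ≠ 0 → q * (p₂ s).natDegree + wt s < q * (2 * Fintype.card ι)) ∧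
      ∀ P : (ι → ZMod q) → R[X], (∀ s, (P s).map (Ideal.Quotient.mk I₁) = p₁ s) →
        (∀ s, (P s).map (Ideal.Quotient.mk I₂) = p₂ s) →
        ∀ Φ : R[X], Φ = (nmat (fun i => X + C (c₁ i ^ q)) (famD D (2 * Fintype.card ι) P)).det →
          Φ.natDegree ≤ 2 * (Fintype.card ι * q ^ Fintype.card ι) →
          ∀ (φ₁ : Localization.AtPrime m₁ →+* FractionRing R)
            (φ₂ : Localization.AtPrime m₂ →+* FractionRing R),
            (∀ x : R, φ₁ (algebraMap R _ x) = algebraMap R (FractionRing R) x) →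
            (∀ x : R, φ₂ (algebraMap R _ x) = algebraMap R (FractionRing R) x) →
            ∀ r : Fin (2 * (Fintype.card ι * q ^ Fintype.card ι)) → FractionRing R,
              Function.Injective r →
              (∀ j, (Φ.map (algebraMap R (FractionRing R))).IsRoot (r j)) →
              ∃ j, (∃ x ∈ maximalIdeal (Localization.AtPrime m₁), φ₁ x = r j ∧
                  NoTwist q m₁ ζ c₁ D P x) ∧
                (∃ x ∈ maximalIdeal (Localization.AtPrime m₂), φ₂ x = r j ∧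
                  NoTwist q m₂ ζ c₂ D P x) := by
  obtain ⟨I₁, p₁, hle₁, hI₁, hw₁, h₁⟩ := S₁
  obtain ⟨I₂, p₂, hle₂, hI₂, hw₂, h₂⟩ := S₂
  have ha : 0 < Fintype.card ι * q ^ Fintype.card ι :=
    Nat.mul_pos hι (pow_pos (Fact.out : q.Prime).pos _)
  refine ⟨I₁, I₂, p₁, p₂, hle₁, hle₂, hI₁, hI₂, hw₁, hw₂,
    fun P hP₁ hP₂ Φ hΦ hdeg φ₁ φ₂ hφ₁ hφ₂ r hr hroot =>
    good_both _ _ _ (fun f hf => ?_) (fun f hf => ?_)⟩
  · obtain ⟨j, x, hx, hxr, hN⟩ := h₁ P hP₁ Φ hΦ _ ha (by omega) φ₁ hφ₁ (fun i => r (f i))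
      (hr.comp hf) (fun i => hroot (f i))
    exact ⟨j, x, hx, hxr, hN⟩
  · obtain ⟨j, x, hx, hxr, hN⟩ := h₂ P hP₂ Φ (by
        rw [hΦ]
        congr 2
        funext i
        rw [hcc i]) _ ha (by omega) φ₂ hφ₂ (fun i => r (f i))
      (hr.comp hf) (fun i => hroot (f i))
    exact ⟨j, x, hx, hxr, hN⟩

end Pool.Agent.AIC
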