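import Mathlib
import Pool.Agent.AIC.Hensel76
import Pool.Agent.AIC.Exist
import Pool.Agent.AIC.PointsAux

/-!
# The outer place

For a henselian local domain `O`, which is not a field, and units or non-units `c i ≠ 0` there is a
family `p` such that for all families close to `p` the norm polynomial has as many distinct roots in
`O` as its degree, and all `r + c i ^ q` are `q`-th powers in `O` at these roots.
-/

set_option autoImplicit false
set_option linter.unusedSectionVars false

namespace Pool.Agent.AIC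

open Finset Polynomial IsLocalRing

section Newton

variable {O : Type} [CommRing O] [HenselianLocalRing O]

/-- the lemma of Newton and Hensel. -/
theorem newton95 (g : O[X]) (a b : O) (hb : b ∈ maximalIdeal O)
    (h : g.eval a = (g.derivative.eval a) ^ 2 * b) :
    ∃ x : O, g.eval (a + g.derivative.eval a * (b * x)) = 0 := by
  classical
  set δ := g.derivative.eval a with hδ
  obtain ⟨K, hK⟩ := Polynomial.binomExpansion (g.map C) (C a : O[X]) (C δ * X)
  have e1 : (g.map C).eval (C a + C δ * X : O[X]) = g.comp (C a + C δ * X) := by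
    rw [eval_map]; rfl
  have e2 : (g.map C).eval (C a : O[X]) = C (g.eval a) := by
    rw [eval_map, eval₂_at_apply]
  have e3 : (g.map C).derivative.eval (C a : O[X]) = C δ := by
    rw [derivative_map, eval_map, eval₂_at_apply, hδ]
  rw [e1, e2, e3, h] at hK
  set G : O[X] := C b + X + K * X ^ 2 with hG
  have hcomp : g.comp (C a + C δ * X) = C (δ ^ 2) * G := by
    rw [hK, hG, C_mul, C_pow]; ring
  have hG0 : G.eval 0 ∈ maximalIdeal O := by
    have : G.eval 0 = b := by simp [hG]
    rw [this]; exact hb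
  have hG1 : IsUnit (G.derivative.eval 0) := by
    have : G.derivative.eval 0 = 1 := by simp [hG, derivative_mul, derivative_pow]
    rw [this]; exact isUnit_one
  obtain ⟨t, ht, hGt⟩ := hensel_zero G hG0 hG1
  have h1 : b + t * (1 + K.eval t * t) = 0 := by
    have : G.eval t = b + t * (1 + K.eval t * t) := by
      rw [hG]; simp only [eval_add, eval_C, eval_X, eval_mul, eval_pow]; ring
    rw [← this]; exact hGt
  have hu : IsUnit (1 + K.eval t * t) := by
    have h2 : K.eval t * t ∈ maximalIdeal O := Ideal.mul_mem_left _ _ ht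
    by_contra hne
    have h3 : (1 + K.eval t * t) ∈ maximalIdeal O := hne
    have h4 : (1 : O) ∈ maximalIdeal O := by
      have := (maximalIdeal O).sub_mem h3 h2
      rwa [add_sub_cancel_right] at this
    exact (Ideal.ne_top_iff_one _).1 (maximalIdeal.isMaximal O).ne_top h4
  obtain ⟨v, hv⟩ := hu
  refine ⟨-(↑v⁻¹ : O), ?_⟩
  have h5 : b * -(↑v⁻¹ : O) = t := by
    have h6 : b = -(t * (v : O)) := by rw [hv]; linear_combination h1
    rw [h6]
    have : (v : O) * ↑v⁻¹ = 1 := v.mul_inv
    linear_combination t * this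
  rw [h5]
  have h7 := congrArg (eval t) hcomp
  rw [eval_comp, eval_mul, hGt, mul_zero] at h7
  simpa using h7

end Newton

section Split

variable {O : Type} [CommRing O] [IsDomain O] [HenselianLocalRing O]

theorem derivative_prod_eval95 {J : Type} [Fintype J] [DecidableEq J] (lam : J → O) (j : J) :
    (∏ i, (X - C (lam i))).derivative.eval (lam j) = ∏ i ∈ univ.erase j, (lam j - lam i) := by
  rw [← mul_prod_erase univ (fun i => X - C (lam i)) (mem_univ j), derivative_mul]
  simp [eval_prod]

/-- polynomials close to a product of distinct linear factors are such products. -/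
theorem split_near95 (u0 : O) (hu0 : u0 ∈ maximalIdeal O) (hu00 : u0 ≠ 0)
    {J : Type} [Fintype J] [DecidableEq J] (lam : J → O) (hlam : Function.Injective lam)
    (ρ : O) (hρ : ρ ≠ 0) :
    ∃ e : O, e ≠ 0 ∧ ∀ g : O[X], (∃ E : O[X], g = (∏ j, (X - C (lam j))) + C e * E) →
      ∃ mu : J → O, Function.Injective mu ∧ (∀ j, g.IsRoot (mu j)) ∧ ∀ j, ρ ∣ mu j - lam j := by
  classical
  set f : O[X] := ∏ j, (X - C (lam j)) with hf
  set dl : J → O := fun j => ∏ i ∈ univ.erase j, (lam j - lam i) with hdl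
  have hdl0 : ∀ j, dl j ≠ 0 := by
    intro j
    rw [hdl]
    refine prod_ne_zero_iff.2 fun i hi => ?_
    intro h
    exact ne_of_mem_erase hi (hlam (sub_eq_zero.1 h)).symm
  set Δ : O := ∏ j, dl j with hΔ
  have hΔ0 : Δ ≠ 0 := prod_ne_zero_iff.2 fun j _ => hdl0 j
  refine ⟨ρ * u0 * Δ ^ 2, mul_ne_zero (mul_ne_zero hρ hu00) (pow_ne_zero _ hΔ0), ?_⟩
  rintro g ⟨E, hE⟩
  have key : ∀ j, ∃ x : O, g.IsRoot (lam j + dl j * (ρ * u0) * x) := by
    intro j
    obtain ⟨k, hk⟩ : dl j ∣ Δ := dvd_prod_of_mem _ (mem_univ j)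
    have hg : g.eval (lam j) = ρ * u0 * Δ ^ 2 * E.eval (lam j) := by
      rw [hE, eval_add, eval_mul, eval_C]
      have : f.eval (lam j) = 0 := by
        rw [hf, eval_prod]
        exact prod_eq_zero (mem_univ j) (by simp)
      rw [this, zero_add]
    set w : O := 1 + ρ * u0 * dl j * k ^ 2 * E.derivative.eval (lam j) with hw
    have hg' : g.derivative.eval (lam j) = dl j * w := by
      rw [hE, derivative_add, eval_add, derivative_mul, derivative_C, zero_mul, zero_add,
        eval_mul, eval_C, hf, derivative_prod_eval95]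
      rw [hw, hk]
      change dl j + _ = _
      ring
    have hwu : IsUnit w := by
      have h2 : ρ * u0 * dl j * k ^ 2 * E.derivative.eval (lam j) ∈ maximalIdeal O := by
        have : ρ * u0 * dl j * k ^ 2 * E.derivative.eval (lam j)
            = u0 * (ρ * dl j * k ^ 2 * E.derivative.eval (lam j)) := by ring
        rw [this]
        exact Ideal.mul_mem_right _ _ hu0
      by_contra hne
      have h3 : w ∈ maximalIdeal O := hne
      have h4 : (1 : O) ∈ maximalIdeal O := by
        have := (maximalIdeal O).sub_mem h3 h2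
        rwa [hw, add_sub_cancel_right] at this
      exact (Ideal.ne_top_iff_one _).1 (maximalIdeal.isMaximal O).ne_top h4
    obtain ⟨v, hv⟩ := hwu
    set b : O := ρ * u0 * (k ^ 2 * E.eval (lam j) * (↑v⁻¹ : O) ^ 2) with hb
    have hbm : b ∈ maximalIdeal O := by
      have : b = u0 * (ρ * (k ^ 2 * E.eval (lam j) * (↑v⁻¹ : O) ^ 2)) := by rw [hb]; ring
      rw [this]
      exact Ideal.mul_mem_right _ _ hu0
    obtain ⟨x, hx⟩ := newton95 g (lam j) b hbm (by
      rw [hg, hg', hb, hk, ← hv]
      have h1 : (v : O) * ↑v⁻¹ = 1 := v.mul_inv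
      have h2 : (v : O) ^ 2 * (↑v⁻¹ : O) ^ 2 = 1 := by rw [← mul_pow, h1, one_pow]
      linear_combination (-(ρ * u0 * (dl j * k) ^ 2 * E.eval (lam j))) * h2)
    refine ⟨w * (k ^ 2 * E.eval (lam j) * (↑v⁻¹ : O) ^ 2) * x, ?_⟩
    rw [IsRoot.def, ← hx]
    congr 1
    rw [hg', hb]
    ring
  choose x hx using key
  refine ⟨fun j => lam j + dl j * (ρ * u0) * x j, ?_, hx, fun j => ?_⟩
  · intro i j hij
    by_contra hne
    have e : lam i + dl i * (ρ * u0) * x i = lam j + dl j * (ρ * u0) * x j := hij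
    obtain ⟨a, ha⟩ : (lam i - lam j) ∣ dl i :=
      dvd_prod_of_mem (fun l => lam i - lam l) (mem_erase.2 ⟨Ne.symm hne, mem_univ j⟩)
    obtain ⟨b, hb⟩ : (lam j - lam i) ∣ dl j :=
      dvd_prod_of_mem (fun l => lam j - lam l) (mem_erase.2 ⟨hne, mem_univ i⟩)
    have h1 : (lam i - lam j) * (1 + u0 * (ρ * (a * x i + b * x j))) = 0 := by
      have h2 : dl i * (ρ * u0) * x i = (lam i - lam j) * a * (ρ * u0) * x i := by rw [ha]
      have h3 : dl j * (ρ * u0) * x j = (lam j - lam i) * b * (ρ * u0) * x j := by rw [hb]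
      linear_combination e - h2 + h3
    rcases mul_eq_zero.1 h1 with h | h
    · exact hne (hlam (sub_eq_zero.1 h))
    · have h4 : (1 : O) ∈ maximalIdeal O := by
        have : (1 : O) = -(u0 * (ρ * (a * x i + b * x j))) := by linear_combination h
        rw [this]
        exact (maximalIdeal O).neg_mem (Ideal.mul_mem_right _ _ hu0)
      exact (Ideal.ne_top_iff_one _).1 (maximalIdeal.isMaximal O).ne_top h4
  · exact ⟨dl j * u0 * x j, by ring⟩

/-- a monic polynomial with as many distinct roots as its degree. -/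
theorem eq_prod_of_roots95 {B : Type} [CommRing B] [IsDomain B] {J : Type} [Fintype J]
    [DecidableEq J] (g : B[X]) (hg : g.Monic) (hn : g.natDegree = Fintype.card J) (mu : J → B)
    (hmu : Function.Injective mu) (hr : ∀ j, g.IsRoot (mu j)) : g = ∏ j, (X - C (mu j)) := by
  classical
  have hdvd : (∏ j, (X - C (mu j))) ∣ g := by
    have h1 : (∏ j, (X - C (mu j))) = ((univ.image mu).val.map fun a => X - C a).prod := by
      rw [← Finset.prod_eq_multiset_prod, Finset.prod_image fun i _ j _ h => hmu h]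
    rw [h1, Multiset.prod_X_sub_C_dvd_iff_le_roots hg.ne_zero]
    rw [Multiset.le_iff_subset (Finset.nodup _)]
    intro a ha
    have ha' : a ∈ univ.image mu := ha
    obtain ⟨j, _, rfl⟩ := Finset.mem_image.1 ha'
    exact (mem_roots hg.ne_zero).2 (hr j)
  have hm : (∏ j, (X - C (mu j)) : B[X]).Monic := monic_prod_of_monic _ _ fun j _ => monic_X_sub_C _
  refine eq_of_monic_of_dvd_of_natDegree_le hm hg hdvd ?_
  rw [hn, natDegree_prod_of_monic _ _ fun j _ => monic_X_sub_C _]
  simp

end Split

section Place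

variable {ι : Type} [Fintype ι] [DecidableEq ι] {q : ℕ} [Fact q.Prime]

/-- constants with prescribed values at the twisted points. -/
theorem fourier_at95 {A : Type} [CommRing A] (ζ : A) (hζ : ∑ j ∈ range q, ζ ^ j = 0) (c : ι → A)
    (γ : (ι → ZMod q) → A) (δ : ι → ZMod q) :
    ev (tw ζ δ c) (fun s : ι → ZMod q => mono c (co34 s) *
        ∑ ε : ι → ZMod q, mono (fun i => ζ ^ (ε i).val) (-s) * γ ε)
      = (∏ i, c i ^ (q - 1)) * ((q : A) ^ Fintype.card ι * γ δ) := by
  classical
  unfold ev
  have h1 : ∀ s : ι → ZMod q, (mono c (co34 s) *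
        ∑ ε : ι → ZMod q, mono (fun i => ζ ^ (ε i).val) (-s) * γ ε) * mono (tw ζ δ c) s
      = (∏ i, c i ^ (q - 1)) * (mono (fun i => ζ ^ (δ i).val) s *
        ∑ ε : ι → ZMod q, mono (fun i => ζ ^ (ε i).val) (-s) * γ ε) := by
    intro s
    rw [tw_mono, ← mono_co34 c s]
    ring
  rw [Finset.sum_congr rfl fun s _ => h1 s, ← Finset.mul_sum]
  congr 1
  rw [← fourier34 ζ hζ γ δ, ← Equiv.sum_comp (Equiv.neg (ι → ZMod q))]
  refine Finset.sum_congr rfl fun s _ => ?_
  simp only [Equiv.neg_apply, neg_neg]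

/-- the norm polynomials of congruent families are congruent. -/
theorem det_congr95 {B : Type} [CommRing B] (e : B) (a a' : ι → B[X])
    (u u' : (ι → ZMod q) → B[X]) (ha : ∀ i, ∃ E : B[X], a i = a' i + C e * E)
    (hu : ∀ s, ∃ E : B[X], u s = u' s + C e * E) :
    ∃ E : B[X], (nmat a u).det = (nmat a' u').det + C e * E := by
  classical
  set f : B[X] →+* B[X] ⧸ Ideal.span {(C e : B[X])} := Ideal.Quotient.mk _ with hf
  have hf0 : ∀ E : B[X], f (C e * E) = 0 := fun E =>
    Ideal.Quotient.eq_zero_iff_mem.2 (Ideal.mul_mem_right _ _ (Ideal.mem_span_singleton_self _))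
  have h1 : f (nmat a u).det = f (nmat a' u').det := by
    rw [det_nmat_map, det_nmat_map]
    congr 2
    · funext i
      obtain ⟨E, hE⟩ := ha i
      rw [hE, map_add, hf0, add_zero]
    · funext s
      obtain ⟨E, hE⟩ := hu s
      rw [hE, map_add, hf0, add_zero]
  have h2 : C e ∣ (nmat a u).det - (nmat a' u').det := by
    rw [← Ideal.mem_span_singleton, ← Ideal.Quotient.eq_zero_iff_mem]
    change f _ = 0
    rw [map_sub, h1, sub_self]
  obtain ⟨E, hE⟩ := h2
  exact ⟨E, by rw [← hE]; ring⟩

theorem nmat_scale95 {B : Type} [CommRing B] (a : ι → B) (k : B) (u : (ι → ZMod q) → B) :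
    (nmat a (fun s => k * u s)).det = k ^ Fintype.card (ι → ZMod q) * (nmat a u).det := by
  classical
  have h1 : nmat a (fun s => k * u s) = k • nmat a u := by
    ext s t
    simp [nmat, mul_assoc]
  rw [h1, Matrix.det_smul]

theorem wt_lt95 (hι : 0 < Fintype.card ι) (s : ι → ZMod q) :
    wt s < q * (2 * Fintype.card ι) := by
  have hq0 : 0 < q := (Fact.out : q.Prime).pos
  have hne : NeZero q := ⟨hq0.ne'⟩
  have h1 : wt s ≤ ∑ _i : ι, q := Finset.sum_le_sum fun i _ => (ZMod.val_lt (s i)).le
  rw [Finset.sum_const, Finset.card_univ, smul_eq_mul] at h1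
  have h2 : 0 < Fintype.card ι * q := Nat.mul_pos hι hq0
  have h3 : q * (2 * Fintype.card ι) = Fintype.card ι * q + Fintype.card ι * q := by ring
  omega

variable {O : Type} [CommRing O] [IsDomain O] [HenselianLocalRing O]

/-- all families close to `p` have totally split norm polynomials with rational coordinates. -/
theorem place95 (u0 : O) (hu0 : u0 ∈ maximalIdeal O) (hu00 : u0 ≠ 0) (hq : (q : O) ≠ 0)
    (ζ : O) (hζ : ∑ j ∈ range q, ζ ^ j = 0) (hι : 0 < Fintype.card ι) (c : ι → O)
    (hc : ∀ i, c i ≠ 0) :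
    ∃ (p : (ι → ZMod q) → O[X]) (e : O), e ≠ 0 ∧
      (∀ s, p s ≠ 0 → q * (p s).natDegree + wt s < q * (2 * Fintype.card ι)) ∧
      ∀ P : (ι → ZMod q) → O[X], (∀ s, ∃ E : O[X], P s = p s + C e * E) →
        ∃ r : (ι → ZMod q) × Fin (2 * Fintype.card ι) → O, Function.Injective r ∧
          (∀ j, (nmat (fun i => X + C (c i ^ q)) (fam (2 * Fintype.card ι) P)).det.IsRoot (r j)) ∧
          ∀ j i, ∃ y : O, y ^ q = r j + c i ^ q := by
  classical
  have hqpos : 0 < q := (Fact.out : q.Prime).pos
  have hnz : NeZero q := ⟨hqpos.ne'⟩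
  set n := Fintype.card ι with hn
  set d := 2 * n with hd
  have hdpos : 0 < d := by omega
  have hunu : ¬ IsUnit u0 := hu0
  have hpowinj : ∀ a b : ℕ, u0 ^ a = u0 ^ b → a = b := fun a b h =>
    (pow_inj_of_not_isUnit hunu hu00).1 h
  -- the polynomial `h`
  set α : Fin d → O := fun l => u0 ^ ((l : ℕ) + 1) with hα
  have hαinj : Function.Injective α := by
    intro a b hab
    have := hpowinj _ _ hab
    exact Fin.ext (by omega)
  set h : O[X] := ∏ l, (X - C (α l)) with hh
  have hhm : h.Monic := monic_prod_of_monic _ _ fun l _ => monic_X_sub_C _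
  have hhn : h.natDegree = d := by
    rw [hh, natDegree_prod_of_monic _ _ fun l _ => monic_X_sub_C _]
    simp
  obtain ⟨e1, he1, H1⟩ := split_near95 u0 hu0 hu00 α hαinj 1 one_ne_zero
  -- the values at the twisted points
  set idx : (ι → ZMod q) → ℕ := fun δ => (Fintype.equivFin (ι → ZMod q) δ : ℕ) with hidx
  have hidxinj : Function.Injective idx := by
    intro a b hab
    exact (Fintype.equivFin (ι → ZMod q)).injective (Fin.ext hab)
  set γ' : (ι → ZMod q) → O := fun δ => e1 * u0 ^ (idx δ) with hγ'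
  set κ : O := (∏ i, c i ^ (q - 1)) * (q : O) ^ n with hκ
  have hκ0 : κ ≠ 0 := mul_ne_zero (prod_ne_zero_iff.2 fun i _ => pow_ne_zero _ (hc i))
    (pow_ne_zero _ hq)
  set G : (ι → ZMod q) → O := fun s => mono c (co34 s) *
    ∑ ε : ι → ZMod q, mono (fun i => ζ ^ (ε i).val) (-s) * γ' ε with hG
  set γ : (ι → ZMod q) → O := fun δ => κ * γ' δ with hγ
  have hGev : ∀ δ : ι → ZMod q, ev (tw ζ δ c) G = γ δ := by
    intro δ
    have := fourier_at95 ζ hζ c γ' δ
    rw [hG, this, hγ, hκ, ← hn]
    ring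
  have hγinj : Function.Injective γ := by
    intro a b hab
    have h1 : e1 * u0 ^ idx a = e1 * u0 ^ idx b := mul_left_cancel₀ hκ0 hab
    exact hidxinj (hpowinj _ _ (mul_left_cancel₀ he1 h1))
  -- the roots of `h + γ δ`
  have hL : ∀ δ : ι → ZMod q, ∃ mu : Fin d → O, Function.Injective mu ∧
      (∀ j, (h + C (γ δ)).IsRoot (mu j)) ∧ ∀ j, (1 : O) ∣ mu j - α j := by
    intro δ
    refine H1 _ ⟨C (κ * u0 ^ idx δ), ?_⟩
    rw [← hh, ← C_mul]
    congr 2
    rw [hγ, hγ']
    ring
  choose lam hlaminj hlamroot _ using hL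
  have hlamprod : ∀ δ, h + C (γ δ) = ∏ l, (X - C (lam δ l)) := by
    intro δ
    refine eq_prod_of_roots95 _ (hhm.add_of_left ?_) ?_ _ (hlaminj δ) (hlamroot δ)
    · rw [degree_eq_natDegree hhm.ne_zero, hhn]
      exact degree_C_le.trans_lt (by exact_mod_cast hdpos)
    · rw [natDegree_add_C, hhn, Fintype.card_fin]
  set Lam : (ι → ZMod q) × Fin d → O := fun j => lam j.1 j.2 with hLam
  have hLaminj : Function.Injective Lam := by
    rintro ⟨δ, l⟩ ⟨δ', l'⟩ hab
    have hab' : lam δ l = lam δ' l' := hab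
    have h1 : h.eval (lam δ l) = - γ δ := by
      have := hlamroot δ l
      rw [IsRoot.def, eval_add, eval_C] at this
      linear_combination this
    have h2 : h.eval (lam δ' l') = - γ δ' := by
      have := hlamroot δ' l'
      rw [IsRoot.def, eval_add, eval_C] at this
      linear_combination this
    have h3 : γ δ = γ δ' := by
      rw [hab', h2] at h1
      exact (neg_injective h1).symm
    have h4 : δ = δ' := hγinj h3
    subst h4
    have h5 : l = l' := hlaminj δ hab'
    rw [h5]
  obtain ⟨e2, he2, H2⟩ := split_near95 u0 hu0 hu00 Lam hLaminj 1 one_ne_zero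
  set v : O := ∏ i, ((q : O) * c i ^ (q - 1)) ^ 2 with hv
  have hv0 : v ≠ 0 := prod_ne_zero_iff.2 fun i _ =>
    pow_ne_zero _ (mul_ne_zero hq (pow_ne_zero _ (hc i)))
  set u : O := e2 * (u0 * v) with hu
  have hu_ne : u ≠ 0 := mul_ne_zero he2 (mul_ne_zero hu00 hv0)
  set fG : (ι → ZMod q) → O[X] := fun s => (if s = 0 then h else 0) + C (G s) with hfG
  set Ψ : O[X] := (nmat (fun i => C u * X + C (c i ^ q)) fG).det with hΨ
  have hΨ0 : (nmat (fun i => (C (c i ^ q) : O[X])) fG).det = ∏ j, (X - C (Lam j)) := by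
    have hζC : ∑ k ∈ range q, (C ζ : O[X]) ^ k = 0 := by
      have := congrArg (C : O → O[X]) hζ
      rw [map_sum, map_zero] at this
      rw [← this]
      exact Finset.sum_congr rfl fun k _ => (map_pow _ _ _).symm
    have hqC : ((q : ℕ) : O[X]) ≠ 0 := by
      intro h0
      apply hq
      have : C ((q : ℕ) : O) = (0 : O[X]) := by rw [map_natCast, h0]
      exact C_eq_zero.1 this
    have h1 := det_nmat (C ζ : O[X]) hζC hqC (fun i => C (c i)) (fun i => C_ne_zero.2 (hc i)) fG
    have h2 : (fun i => (C (c i) : O[X]) ^ q) = fun i => C (c i ^ q) := by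
      funext i; rw [C_pow]
    rw [h2] at h1
    rw [h1, Fintype.prod_prod_type]
    refine Finset.prod_congr rfl fun δ _ => ?_
    rw [← hlamprod δ]
    have h3 : tw (C ζ : O[X]) δ (fun i => C (c i)) = fun i => C (tw ζ δ c i) := by
      funext i; simp [tw]
    rw [h3]
    have h4 : ev (fun i => (C (tw ζ δ c i) : O[X])) (fun s => C (G s)) = C (γ δ) := by
      rw [← hGev δ, ev_map]
    rw [← h4, hfG]
    unfold ev
    simp only [add_mul, Finset.sum_add_distrib]
    congr 1
    rw [Finset.sum_eq_single 0]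
    · simp [mono_zero]
    · intro b _ hb
      simp [hb]
    · intro h5
      exact absurd (Finset.mem_univ _) h5
  obtain ⟨tau, htauinj, htauroot, _⟩ := H2 Ψ (by
    obtain ⟨E, hE⟩ := det_congr95 u (fun i => C u * X + C (c i ^ q)) (fun i => C (c i ^ q))
      fG fG (fun i => ⟨X, by ring⟩) (fun s => ⟨0, by ring⟩)
    refine ⟨C (u0 * v) * E, ?_⟩
    rw [hΨ, hE, hΨ0, hu, C_mul]
    ring)
  -- the family
  set p : (ι → ZMod q) → O[X] := fun s =>
    (if s = 0 then (∏ l, (X - C (u * α l))) - X ^ d else 0) + C (u ^ d * G s) with hp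
  have hm1 : (∏ l, (X - C (u * α l)) : O[X]).Monic :=
    monic_prod_of_monic _ _ fun l _ => monic_X_sub_C _
  have hm1n : (∏ l, (X - C (u * α l)) : O[X]).natDegree = d := by
    rw [natDegree_prod_of_monic _ _ fun l _ => monic_X_sub_C _]
    simp only [natDegree_X_sub_C, Finset.sum_const, Finset.card_univ, Fintype.card_fin, smul_eq_mul,
      mul_one]
  have hpw : ∀ s, p s ≠ 0 → q * (p s).natDegree + wt s < q * (2 * n) := by
    intro s hs
    by_cases h0 : s = 0
    · subst h0
      rw [wt_zero, add_zero]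
      refine Nat.mul_lt_mul_of_pos_left ?_ hqpos
      rw [← hd]
      have h1 : (p 0).degree < d := by
        rw [hp]
        simp only [if_true]
        refine (degree_add_le _ _).trans_lt (max_lt ?_ ?_)
        · have h2 : ((∏ l, (X - C (u * α l)) : O[X]) - X ^ d).degree
              < (∏ l, (X - C (u * α l)) : O[X]).degree := by
            refine degree_sub_lt ?_ hm1.ne_zero ?_
            · rw [degree_eq_natDegree hm1.ne_zero, hm1n, degree_X_pow]
            · rw [hm1.leadingCoeff, leadingCoeff_X_pow]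
          rwa [degree_eq_natDegree hm1.ne_zero, hm1n] at h2
        · exact degree_C_le.trans_lt (by exact_mod_cast hdpos)
      rw [degree_eq_natDegree hs] at h1
      exact_mod_cast h1
    · have h1 : p s = C (u ^ d * G s) := by
        rw [hp]; simp [h0]
      rw [h1, natDegree_C, mul_zero, zero_add, hn]
      exact wt_lt95 hι s
  have hfam : ∀ s, fam d p s = (if s = 0 then (∏ l, (X - C (u * α l))) else 0)
      + C (u ^ d * G s) := by
    intro s
    unfold fam
    rw [hp]
    by_cases h0 : s = 0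
    · simp only [h0, if_true]; ring
    · simp only [h0, if_false]; ring
  set Φ0 : O[X] := (nmat (fun i => X + C (c i ^ q)) (fam d p)).det with hΦ0
  have hcomp : Φ0.comp (C u * X) = C (u ^ d) ^ Fintype.card (ι → ZMod q) * Ψ := by
    have h1 := det_nmat_map (Polynomial.compRingHom (C u * X)) (fun i => X + C (c i ^ q))
      (fam d p)
    have h2 : Φ0.comp (C u * X) = Polynomial.compRingHom (C u * X) Φ0 := rfl
    rw [h2, hΦ0, h1, hΨ, ← nmat_scale95]
    congr 2
    · funext i
      simp
    · funext s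
      rw [hfam s]
      simp only [Polynomial.coe_compRingHom_apply, add_comp, C_comp, hfG]
      rw [mul_add]
      congr 1
      · by_cases h0 : s = 0
        · simp only [h0, if_true]
          rw [hh, Polynomial.prod_comp]
          have h3 : ∀ l, (X - C (u * α l) : O[X]).comp (C u * X) = C u * (X - C (α l)) := by
            intro l
            simp [mul_sub]
          rw [Finset.prod_congr rfl fun l _ => h3 l, Finset.prod_mul_distrib, Finset.prod_const,
            Finset.card_univ, Fintype.card_fin, C_pow]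
        · simp only [h0, if_false, zero_comp, mul_zero]
      · rw [C_mul]
  obtain ⟨hΦm, hΦn⟩ := monic_det (fun i => c i ^ q) d hdpos p hpw
  have hΦ0prod : Φ0 = ∏ j, (X - C (u * tau j)) := by
    refine eq_prod_of_roots95 _ hΦm ?_ _ ?_ ?_
    · refine hΦn.trans ?_
      rw [Fintype.card_prod, card_exp, Fintype.card_fin, mul_comm]
    · intro a b hab
      exact htauinj (mul_left_cancel₀ hu_ne hab)
    · intro j
      have h1 := congrArg (eval (tau j)) hcomp
      rw [eval_comp, eval_mul, eval_C, eval_X, eval_mul, (htauroot j).eq_zero, mul_zero] at h1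
      exact h1
  obtain ⟨e, he, H3⟩ := split_near95 u0 hu0 hu00 (fun j => u * tau j)
    (fun a b hab => htauinj (mul_left_cancel₀ hu_ne hab)) u hu_ne
  refine ⟨p, e, he, hpw, fun P hP => ?_⟩
  obtain ⟨r, hrinj, hrroot, hrdvd⟩ := H3
    (nmat (fun i => X + C (c i ^ q)) (fam d P)).det (by
      rw [← hΦ0prod, hΦ0]
      refine det_congr95 e _ _ _ _ (fun i => ⟨0, by ring⟩) (fun s => ?_)
      obtain ⟨E, hE⟩ := hP s
      refine ⟨E, ?_⟩
      unfold fam
      rw [hE]
      ring)
  refine ⟨r, hrinj, hrroot, fun j i => ?_⟩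
  obtain ⟨x, hx⟩ : u ∣ r j := by
    have h1 : u ∣ u * tau j := dvd_mul_right _ _
    have h2 := dvd_add (hrdvd j) h1
    rwa [sub_add_cancel] at h2
  obtain ⟨w, hw⟩ : ((q : O) * c i ^ (q - 1)) ^ 2 ∣ v :=
    dvd_prod_of_mem (fun i => ((q : O) * c i ^ (q - 1)) ^ 2) (mem_univ i)
  have hder : (X ^ q - C (r j + c i ^ q) : O[X]).derivative.eval (c i)
      = (q : O) * c i ^ (q - 1) := by
    rw [derivative_sub, derivative_C, sub_zero, derivative_X_pow]
    simp
  obtain ⟨z, hz⟩ := newton95 (X ^ q - C (r j + c i ^ q)) (c i) (-(u0 * (e2 * w * x)))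
    ((maximalIdeal O).neg_mem (Ideal.mul_mem_right _ _ hu0)) (by
      rw [hder]
      simp only [eval_sub, eval_pow, eval_X, eval_C]
      rw [hx, hu, hw]
      ring)
  have hz' := hz
  rw [eval_sub, eval_pow, eval_X, eval_C] at hz'
  exact ⟨_, sub_eq_zero.1 hz'⟩

end Place

end Pool.Agent.AIC
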