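import Mathlib
import Pool.Agent.AIC.Place95
import Pool.Agent.AIC.DefsD83

/-!
# The third place

`vside`: for a henselian local domain `A` with fraction field `K` and `D ≠ 0` in `K` there is a
family `G` over `K` such that all families close to `G` have norm polynomials (with leading
coefficient a power of `D`) with `2 * n * q ^ n` distinct roots in `K`, at which all coordinates
are rational.
-/

set_option autoImplicit false
set_option linter.unusedSectionVars false

namespace Pool.Agent.AIC

open Finset Polynomial IsLocalRing

variable {ι : Type} [Fintype ι] [DecidableEq ι]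

/-- the side of the henselian place outside of the ring. -/
theorem vside {A K : Type} [CommRing A] [IsDomain A] [HenselianLocalRing A] [Field K]
    [Algebra A K] [IsFractionRing A K] (hA : ¬ IsField A) (q : ℕ) [Fact q.Prime]
    (hq : (q : A) ≠ 0) (ζ : A) (hζ : ∑ j ∈ range q, ζ ^ j = 0) (hι : 0 < Fintype.card ι)
    (c : ι → A) (hc : ∀ i, c i ≠ 0) (D : K) (hD : D ≠ 0) :
    ∃ (G : (ι → ZMod q) → K[X]) (a : A), a ≠ 0 ∧
      (∀ s, G s ≠ 0 → q * (G s).natDegree + wt s < q * (2 * Fintype.card ι)) ∧
      ∀ P : (ι → ZMod q) → K[X],
        (∀ s j, ∃ b : A, (P s).coeff j - (G s).coeff j = algebraMap A K (a * b)) →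
        ∃ r : Fin (2 * (Fintype.card ι * q ^ Fintype.card ι)) → K, Function.Injective r ∧
          (∀ j, ((nmat (fun i => X + C (algebraMap A K (c i) ^ q))
            (famD D (2 * Fintype.card ι) P)).det).IsRoot (r j)) ∧
          ∀ j i, ∃ y : K, y ^ q = r j + algebraMap A K (c i) ^ q := by
  classical
  set n := Fintype.card ι with hn
  -- a nonzero element of the maximal ideal
  have hm : maximalIdeal A ≠ ⊥ := fun h => hA (IsLocalRing.isField_iff_maximalIdeal_eq.2 h)
  obtain ⟨u0, hu0, hu00⟩ := Submodule.exists_mem_ne_zero_of_ne_bot hm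
  obtain ⟨p, e, he, hpw, hp⟩ := place95 u0 hu0 hu00 hq ζ hζ hι c hc
  rw [← hn] at hpw hp
  have hinj : Function.Injective (algebraMap A K) := IsFractionRing.injective A K
  obtain ⟨x, y, hy, hxy⟩ := IsFractionRing.div_surjective (A := A) D
  have hy0 : algebraMap A K y ≠ 0 := by
    rw [Ne, map_eq_zero_iff _ hinj]
    exact nonZeroDivisors.ne_zero hy
  have hx0 : x ≠ 0 := by
    rintro rfl
    rw [map_zero, zero_div] at hxy
    exact hD hxy.symm
  have hDx : algebraMap A K x = D * algebraMap A K y := by
    rw [← hxy, div_mul_cancel₀ _ hy0]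
  refine ⟨fun s => C D * (p s).map (algebraMap A K), e * x, mul_ne_zero he hx0, ?_, ?_⟩
  · intro s hs
    have h1 : p s ≠ 0 := by
      rintro h0
      apply hs
      simp only [h0, Polynomial.map_zero, mul_zero]
    have h2 := hpw s h1
    have h3 : (C D * (p s).map (algebraMap A K)).natDegree ≤ (p s).natDegree :=
      (natDegree_C_mul_le _ _).trans natDegree_map_le
    have h4 := Nat.mul_le_mul_left q h3
    show q * (C D * (p s).map (algebraMap A K)).natDegree + wt s < q * (2 * n)
    omega
  · intro P hP
    choose b hb using hP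
    set N : (ι → ZMod q) → ℕ := fun s =>
      (P s - C D * (p s).map (algebraMap A K)).natDegree + 1 with hN
    set E : (ι → ZMod q) → A[X] := fun s => ∑ j ∈ range (N s), C (y * b s j) * X ^ j with hE
    set P' : (ι → ZMod q) → A[X] := fun s => p s + C e * E s with hP'
    have hPP : ∀ s, P s = C D * (P' s).map (algebraMap A K) := by
      intro s
      have h1 : P s - C D * (p s).map (algebraMap A K)
          = C D * ((C e * E s).map (algebraMap A K)) := by
        conv_lhs => rw [as_sum_range_C_mul_X_pow (P s - C D * (p s).map (algebraMap A K))]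
        rw [hE, Polynomial.map_mul, Polynomial.map_sum, Finset.mul_sum, Finset.mul_sum]
        refine Finset.sum_congr rfl fun j _ => ?_
        rw [coeff_sub, hb s j, Polynomial.map_mul, Polynomial.map_pow, map_X, map_C, map_C,
          ← mul_assoc, ← mul_assoc, ← C_mul, ← C_mul]
        congr 2
        rw [map_mul, map_mul, map_mul, hDx]
        ring
      have h2 : P s = C D * (p s).map (algebraMap A K)
          + (P s - C D * (p s).map (algebraMap A K)) := by ring
      rw [h2, h1, hP', Polynomial.map_add, mul_add]
    obtain ⟨r, hr1, hr2, hr3⟩ := hp P' fun s => ⟨E s, rfl⟩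
    clear_value P'
    have hcard : Fintype.card (Fin (2 * (n * q ^ n)))
        = Fintype.card ((ι → ZMod q) × Fin (2 * n)) := by
      have hnz : NeZero q := ⟨(Fact.out : q.Prime).pos.ne'⟩
      rw [Fintype.card_prod, Fintype.card_fin, Fintype.card_fin, Fintype.card_fun, ZMod.card, hn]
      ring
    set φ : Fin (2 * (n * q ^ n)) ≃ (ι → ZMod q) × Fin (2 * n) :=
      Fintype.equivOfCardEq hcard with hφ
    have hdet : (nmat (fun i => X + C (algebraMap A K (c i) ^ q)) (famD D (2 * n) P)).det
        = C D ^ Fintype.card (ι → ZMod q) *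
          ((nmat (fun i => X + C (c i ^ q)) (fam (2 * n) P')).det).map (algebraMap A K) := by
      have h1 : ((nmat (fun i => X + C (c i ^ q)) (fam (2 * n) P')).det).map (algebraMap A K)
          = (nmat (fun i => X + C (algebraMap A K (c i) ^ q))
              (fun s => (fam (2 * n) P' s).map (algebraMap A K))).det := by
        have h2 := det_nmat_map (mapRingHom (algebraMap A K)) (fun i => X + C (c i ^ q))
          (fam (2 * n) P')
        rw [coe_mapRingHom] at h2
        rw [h2]
        congr 2
        funext i
        rw [Polynomial.map_add, map_X, map_C, map_pow]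
      rw [h1, ← nmat_scale95]
      congr 2
      funext s
      unfold famD fam
      rw [hPP s, Polynomial.map_add, mul_add]
      congr 1
      by_cases hs : s = 0
      · rw [if_pos hs, if_pos hs, Polynomial.map_pow, map_X]
      · rw [if_neg hs, if_neg hs, Polynomial.map_zero, mul_zero]
    refine ⟨fun j => algebraMap A K (r (φ j)), ?_, ?_, ?_⟩
    · intro j k hjk
      exact φ.injective (hr1 (hinj hjk))
    · intro j
      have h1 := hr2 (φ j)
      rw [IsRoot, hdet, eval_mul, eval_map, eval₂_at_apply, IsRoot.def.1 h1, map_zero, mul_zero]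
    · intro j i
      obtain ⟨z, hz⟩ := hr3 (φ j) i
      refine ⟨algebraMap A K z, ?_⟩
      rw [← map_pow, hz, map_add, map_pow]

end Pool.Agent.AIC
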