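import Mathlib
import Pool.Agent.AIC.AssembleD76
import Pool.Agent.AIC.SecK82
import Pool.Agent.AIC.ChoiceD94
import Pool.Agent.AIC.VSide95
import Pool.Agent.AIC.Dense46

/-!
# Stage 8, row (T3): assembly of the claim from two second sides and a valuation side

`K = Frac R` carries a henselian local ring `A` (not a field, `Frac A = K`), and `R` is dense for
the topology of `A`. The roots of the norm polynomial come from `A`, the two sides of `R` only
choose a common good root.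
-/

set_option autoImplicit false
set_option linter.unusedSectionVars false

namespace Pool.Agent.AIC

open Finset Polynomial IsLocalRing

variable {ι : Type} [Fintype ι] [DecidableEq ι] {q : ℕ} [Fact q.Prime]

/-- the side at the henselian ring `A`: approximate solutions `G` such that every family close to
`G` has as many roots in `K` as possible, with all the `q`-th roots (the conclusion of `vside`). -/
def VSide {ι : Type} [Fintype ι] [DecidableEq ι] (q : ℕ) [Fact q.Prime] (A K : Type) [CommRing A]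
    [Field K] [Algebra A K] (c : ι → K) (D : K) : Prop :=
  ∃ (G : (ι → ZMod q) → K[X]) (a : A), a ≠ 0 ∧
    (∀ s, G s ≠ 0 → q * (G s).natDegree + wt s < q * (2 * Fintype.card ι)) ∧
    ∀ P : (ι → ZMod q) → K[X],
      (∀ s j, ∃ b : A, (P s).coeff j - (G s).coeff j = algebraMap A K (a * b)) →
      ∃ r : Fin (2 * (Fintype.card ι * q ^ Fintype.card ι)) → K, Function.Injective r ∧
        (∀ j, ((nmat (fun i => X + C (c i ^ q)) (famD D (2 * Fintype.card ι) P)).det).IsRoot (r j)) ∧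
        ∀ j i, ∃ y : K, y ^ q = r j + c i ^ q

/-- density of `L` in `K` for the topology of `A`. -/
def DenseA (L A K : Type) [CommRing L] [CommRing A] [Field K] [Algebra L K] [Algebra A K] :
    Prop :=
  ∀ (x : K) (a : A), a ≠ 0 → ∃ (r : L) (b : A), x = algebraMap L K r + algebraMap A K (a * b)

/-- approximation with a congruence. -/
theorem DenseA.congr {L A K : Type} [CommRing L] [IsDomain L] [CommRing A] [IsDomain A] [Field K]
    [Algebra L K] [IsFractionRing L K] [Algebra A K] [IsFractionRing A K] (h : DenseA L A K)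
    (I : Ideal L) (hI : I ≠ ⊥) (x₀ : L) (γ : K) (a : A) (ha : a ≠ 0) :
    ∃ r : L, r - x₀ ∈ I ∧ ∃ b : A, algebraMap L K r - γ = algebraMap A K (a * b) := by
  obtain ⟨e, heI, he0⟩ := Submodule.exists_mem_ne_zero_of_ne_bot hI
  have he : algebraMap L K e ≠ 0 := by
    rwa [Ne, IsFractionRing.to_map_eq_zero_iff]
  obtain ⟨u, v, hv, huv⟩ := IsFractionRing.div_surjective (A := A) (algebraMap L K e)
  have hv0 : v ≠ 0 := nonZeroDivisors.ne_zero hv
  have hv1 : algebraMap A K v ≠ 0 := by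
    rwa [Ne, IsFractionRing.to_map_eq_zero_iff]
  obtain ⟨r, b, hr⟩ := h ((γ - algebraMap L K x₀) / algebraMap L K e) (a * v) (mul_ne_zero ha hv0)
  refine ⟨x₀ + e * r, ?_, -(u * b), ?_⟩
  · rw [add_sub_cancel_left]
    exact I.mul_mem_right _ heI
  · rw [div_eq_iff he] at hr
    rw [map_add, map_mul]
    have h1 : algebraMap L K e * algebraMap A K v = algebraMap A K u := by
      rw [← huv]; field_simp
    have h2 : γ = algebraMap L K x₀ + (algebraMap L K r + algebraMap A K (a * v * b)) *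
        algebraMap L K e := by
      rw [← hr]; ring
    rw [h2, map_mul, map_mul, map_mul, map_neg, map_mul, ← h1]
    ring

/-- the pattern from a common root without twisted zeros and coordinates near `c` at `m₁`. -/
theorem assemble_core {R : Type} [CommRing R] [IsDomain R]
    (m₁ m₂ : Ideal R) [hm1 : m₁.IsMaximal] [hm2 : m₂.IsMaximal]
    (hq1 : (q : R) ∉ m₁) (hq2 : (q : R) ∉ m₂) (ζ : R) (hζ : ∑ j ∈ range q, ζ ^ j = 0)
    (c : ι → R) (hc1 : ∀ i, c i ∉ m₁) (hc2 : ∀ i, c i ∉ m₂)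
    (ε : ι → ZMod q) (D : R) (P : (ι → ZMod q) → R[X])
    (hN : SecNear q m₂)
    (φ₁ : Localization.AtPrime m₁ →+* FractionRing R)
    (φ₂ : Localization.AtPrime m₂ →+* FractionRing R)
    (hφ₁ : ∀ a : R, φ₁ (algebraMap R _ a) = algebraMap R (FractionRing R) a)
    (hφ₂ : ∀ a : R, φ₂ (algebraMap R _ a) = algebraMap R (FractionRing R) a)
    (hφ₁inj : Function.Injective φ₁) (hφ₂inj : Function.Injective φ₂)
    (x₁ : Localization.AtPrime m₁) (x₂ : Localization.AtPrime m₂)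
    (hx₁ : x₁ ∈ maximalIdeal (Localization.AtPrime m₁))
    (hx₂ : x₂ ∈ maximalIdeal (Localization.AtPrime m₂)) (hjx : φ₂ x₂ = φ₁ x₁)
    (hroot : ((nmat (fun i => X + C (c i ^ q)) (famD D (2 * Fintype.card ι) P)).det.map
      (algebraMap R (Localization.AtPrime m₁))).IsRoot x₁)
    (hNT1 : NoTwist q m₁ ζ c D P x₁)
    (hNT2 : NoTwist q m₂ ζ (fun i => ζ ^ (ε i).val * c i) D P x₂)
    (y₁ : ι → Localization.AtPrime m₁)
    (hy₁ : ∀ i, y₁ i ^ q = x₁ + algebraMap R (Localization.AtPrime m₁) (c i) ^ q)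
    (hy₁c : ∀ i, y₁ i - algebraMap R (Localization.AtPrime m₁) (c i) ∈
      maximalIdeal (Localization.AtPrime m₁)) :
    ∃ (a b : R) (s t : ι → R), a ∈ m₁ ∧ a ∈ m₂ ∧ b ∉ m₁ ∧ b ∉ m₂ ∧
      (∀ i, t i ∉ m₁) ∧ (∀ i, t i ∉ m₂) ∧
      (∀ i, s i ^ q * b = (a + c i ^ q * b) * t i ^ q) ∧
      (∀ i, s i - c i * t i ∈ m₁) ∧ (∀ i, s i - ζ ^ (ε i).val * c i * t i ∈ m₂) := by
  classical
  have hcq : ∀ i, (ζ ^ (ε i).val * c i) ^ q = c i ^ q := fun i => tw_pow ζ hζ ε c i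
  have hφ₁c : φ₁.comp (algebraMap R (Localization.AtPrime m₁)) = algebraMap R (FractionRing R) :=
    RingHom.ext hφ₁
  have hφ₂c : φ₂.comp (algebraMap R (Localization.AtPrime m₂)) = algebraMap R (FractionRing R) :=
    RingHom.ext hφ₂
  set α₁ : R →+* Localization.AtPrime m₁ := algebraMap R (Localization.AtPrime m₁) with hα₁
  set α₂ : R →+* Localization.AtPrime m₂ := algebraMap R (Localization.AtPrime m₂) with hα₂
  have hmem₁ : ∀ x : R, α₁ x ∈ maximalIdeal (Localization.AtPrime m₁) ↔ x ∈ m₁ := fun x =>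
    IsLocalization.AtPrime.to_map_mem_maximal_iff (Localization.AtPrime m₁) m₁ x
  have hα₁inj : Function.Injective α₁ :=
    IsLocalization.injective _ m₁.primeCompl_le_nonZeroDivisors
  have hdom₁ : IsDomain (Localization.AtPrime m₁) := hφ₁inj.isDomain φ₁
  have hy₁0 : ∀ i, y₁ i ≠ 0 := by
    intro i h
    have h1 := hy₁c i
    rw [h, zero_sub] at h1
    exact hc1 i ((hmem₁ _).1 (neg_mem_iff.1 h1))
  have hqS : ((q : ℕ) : Localization.AtPrime m₁) ≠ 0 := by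
    intro h
    apply hq1
    have : α₁ (q : R) = α₁ 0 := by rw [map_natCast, h, map_zero]
    rw [hα₁inj this]
    exact m₁.zero_mem
  have hζS : ∑ j ∈ range q, (α₁ ζ) ^ j = 0 := by
    have := congrArg α₁ hζ
    simpa [map_sum, map_pow] using this
  have hprod : ∏ δ : ι → ZMod q, ev (tw (α₁ ζ) δ y₁)
      (fun s => ((famD D (2 * Fintype.card ι) P s).map α₁).eval x₁) = 0 := by
    rw [← det_nmat (α₁ ζ) hζS hqS y₁ hy₁0]
    have h1 := det_nmat_map (Polynomial.eval₂RingHom α₁ x₁) (fun i => X + C (c i ^ q))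
      (famD D (2 * Fintype.card ι) P)
    simp only [Polynomial.coe_eval₂RingHom] at h1
    have h2 : eval₂ α₁ x₁ (nmat (fun i => X + C (c i ^ q))
        (famD D (2 * Fintype.card ι) P)).det = 0 := by
      rwa [IsRoot.def, eval_map] at hroot
    rw [← h2, h1]
    congr 2
    · ext i
      rw [hy₁ i, eval₂_add, eval₂_X, eval₂_C, map_pow]
    · ext s
      rw [eval_map]
  obtain ⟨δ, _, hδ⟩ := Finset.prod_eq_zero_iff.mp hprod
  have hδ0 : δ = 0 := by
    by_contra hne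
    exact hNT1 y₁ hy₁ hy₁c δ hne hδ
  subst hδ0
  have htw0 : tw (α₁ ζ) (0 : ι → ZMod q) y₁ = y₁ := by
    ext i; simp [tw]
  rw [htw0] at hδ
  -- the coordinates at `m₂`
  have hyK : ∀ i, (φ₁ (y₁ i)) ^ q = φ₂ x₂ + algebraMap R (FractionRing R) (c i) ^ q := by
    intro i
    rw [← map_pow, hy₁ i, map_add, map_pow, hφ₁, hjx]
  choose y₂ hy₂ using fun i => hN φ₂ hφ₂ (c i) (hc2 i) x₂ hx₂ (φ₁ (y₁ i)) (hyK i)
  have hy₂q : ∀ i, y₂ i ^ q = x₂ + α₂ (c i) ^ q := by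
    intro i
    apply hφ₂inj
    rw [map_pow, hy₂ i, hyK i, map_add, map_pow, hφ₂]
  have hδ2 : ev y₂ (fun s => ((famD D (2 * Fintype.card ι) P s).map α₂).eval x₂) = 0 := by
    apply hφ₂inj
    rw [ev_map, map_zero]
    have h1 := congrArg φ₁ hδ
    rw [ev_map, map_zero] at h1
    refine Eq.trans ?_ h1
    have e1 : (fun i => φ₂ (y₂ i)) = (fun i => φ₁ (y₁ i)) := funext hy₂
    have e2 : (fun s => φ₂ (((famD D (2 * Fintype.card ι) P s).map α₂).eval x₂))
        = (fun s => φ₁ (((famD D (2 * Fintype.card ι) P s).map α₁).eval x₁)) := by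
      ext s
      rw [eval_map, eval_map, hom_eval₂, hom_eval₂, hφ₁c, hφ₂c, hjx]
    rw [e1, e2]
  have hc2' : ∀ i, ζ ^ (ε i).val * c i ∉ m₂ := by
    intro i h
    rcases hm2.isPrime.mem_or_mem h with h | h
    · exact zeta_not_mem m₂ ζ hζ (hm2.isPrime.mem_of_pow_mem _ h)
    · exact hc2 i h
  have hfin := near_of_noTwist m₂ hq2 ζ hζ (fun i => ζ ^ (ε i).val * c i) hc2' D P x₂ hx₂ hNT2 y₂
    (fun i => by
      rw [hy₂q i, ← map_pow, ← map_pow, hcq i]) hδ2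
  exact pattern_of_points m₁ m₂ c (fun i => ζ ^ (ε i).val * c i) φ₁ φ₂ hφ₁ hφ₂ x₁ x₂ hx₁ hx₂
    hjx.symm y₁ y₂ (fun i => (hy₂ i).symm) hy₁ hy₁c hfin

/-- a `q`-th root can be moved near the base point. -/
theorem exists_near76 {R : Type} [CommRing R] [IsDomain R] (m : Ideal R) [hm : m.IsMaximal]
    (hq : (q : R) ∉ m) (ζ : R) (hζ : ∑ j ∈ range q, ζ ^ j = 0)
    (c : R) (hc : c ∉ m) (x : Localization.AtPrime m)
    (hx : x ∈ maximalIdeal (Localization.AtPrime m)) (y : Localization.AtPrime m)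
    (hy : y ^ q = x + algebraMap R (Localization.AtPrime m) c ^ q) :
    ∃ y' : Localization.AtPrime m, y' ^ q = x + algebraMap R (Localization.AtPrime m) c ^ q ∧
      y' - algebraMap R (Localization.AtPrime m) c ∈ maximalIdeal (Localization.AtPrime m) := by
  set α : R →+* Localization.AtPrime m := algebraMap R (Localization.AtPrime m) with hα
  set ρ := residue (Localization.AtPrime m) with hρ
  have hmem : ∀ x : R, α x ∈ maximalIdeal (Localization.AtPrime m) ↔ x ∈ m := fun x =>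
    IsLocalization.AtPrime.to_map_mem_maximal_iff (Localization.AtPrime m) m x
  have hnz : ∀ x : R, x ∉ m → ρ (α x) ≠ 0 := fun x hx h =>
    hx ((hmem _).1 ((residue_eq_zero_iff _).1 h))
  have hρx : ρ x = 0 := (residue_eq_zero_iff _).2 hx
  have hζ1 : ∑ j ∈ range q, (α ζ) ^ j = 0 := by
    have := congrArg α hζ
    simpa [map_sum, map_pow] using this
  have hζ2 : ∑ j ∈ range q, (ρ (α ζ)) ^ j = 0 := by
    have := congrArg (fun z => ρ (α z)) hζ
    simpa [map_sum, map_pow] using this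
  have hq2 : (q : ResidueField (Localization.AtPrime m)) ≠ 0 := by
    have := hnz _ hq
    rwa [map_natCast, map_natCast] at this
  have hyq : ρ y ^ q = ρ (α c) ^ q := by
    rw [← map_pow, hy, map_add, hρx, zero_add, map_pow]
  obtain ⟨a, ha⟩ := zeta_root (ρ (α ζ)) hζ2 hq2 (ρ y) (ρ (α c)) (hnz _ hc) hyq
  refine ⟨(α ζ) ^ (-a).val * y, ?_, ?_⟩
  · rw [mul_pow, ← pow_mul, mul_comm (-a).val q, pow_mul, zeta_pow (α ζ) hζ1, one_pow, one_mul, hy]
  · rw [← residue_eq_zero_iff, map_sub, sub_eq_zero]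
    change ρ ((α ζ) ^ (-a).val * y) = ρ (α c)
    have h1 := zeta_neg (ρ (α ζ)) hζ2 a
    rw [map_mul, map_pow, ha, ← mul_assoc, mul_comm (ρ (α ζ) ^ (-a).val), h1, one_mul]

/-- the lift of two weighted families to a family close to a given one. -/
theorem lift_dense {R A : Type} [CommRing R] [IsDomain R] [CommRing A] [IsDomain A]
    {K : Type} [Field K] [Algebra R K] [IsFractionRing R K] [Algebra A K] [IsFractionRing A K]
    (I₁ I₂ : Ideal R) (hI1 : I₁ ≠ ⊥) (hI2 : I₂ ≠ ⊥) (hcop : IsCoprime I₁ I₂) (d : ℕ)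
    (p₁ : (ι → ZMod q) → (R ⧸ I₁)[X]) (p₂ : (ι → ZMod q) → (R ⧸ I₂)[X])
    (h₁ : ∀ s, p₁ s ≠ 0 → q * (p₁ s).natDegree + wt s < q * d)
    (h₂ : ∀ s, p₂ s ≠ 0 → q * (p₂ s).natDegree + wt s < q * d)
    (hdense : DenseA R A K) (G : (ι → ZMod q) → K[X]) (a : A) (ha : a ≠ 0)
    (hGw : ∀ s, G s ≠ 0 → q * (G s).natDegree + wt s < q * d) (s : ι → ZMod q) :
    ∃ P : R[X], (P ≠ 0 → q * P.natDegree + wt s < q * d) ∧
      P.map (Ideal.Quotient.mk I₁) = p₁ s ∧ P.map (Ideal.Quotient.mk I₂) = p₂ s ∧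
      ∀ j, ∃ b : A, algebraMap R K (P.coeff j) - (G s).coeff j = algebraMap A K (a * b) := by
  classical
  obtain ⟨P₀, hP₀w, hP₀1, hP₀2⟩ := lift_weight I₁ I₂ hcop (q * d) p₁ p₂ h₁ h₂ s
  have hI : I₁ * I₂ ≠ ⊥ := mul_ne_zero hI1 hI2
  have hle1 : I₁ * I₂ ≤ I₁ := Ideal.mul_le_left
  have hle2 : I₁ * I₂ ≤ I₂ := Ideal.mul_le_right
  have hcoef : ∀ j : ℕ, ∃ r : R,
      r - P₀.coeff j ∈ I₁ * I₂ ∧
      (∃ b : A, algebraMap R K r - (G s).coeff j = algebraMap A K (a * b)) ∧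
      (r ≠ 0 → q * j + wt s < q * d) := by
    intro j
    by_cases hj : q * j + wt s < q * d
    · obtain ⟨r, hr1, hr2⟩ := hdense.congr (I₁ * I₂) hI (P₀.coeff j) ((G s).coeff j) a ha
      exact ⟨r, hr1, hr2, fun _ => hj⟩
    · refine ⟨0, ?_, ⟨0, ?_⟩, fun h => absurd rfl h⟩
      · have h1 : P₀.coeff j = 0 := by
          by_contra hne
          have h2 : P₀ ≠ 0 := by
            rintro h0
            rw [h0, coeff_zero] at hne
            exact hne rfl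
          have h3 := hP₀w h2
          have h4 : j ≤ P₀.natDegree := le_natDegree_of_ne_zero hne
          have h5 := Nat.mul_le_mul_left q h4
          omega
        rw [h1, sub_zero]
        exact (I₁ * I₂).zero_mem
      · have h1 : (G s).coeff j = 0 := by
          by_contra hne
          have h2 : G s ≠ 0 := by
            rintro h0
            rw [h0, coeff_zero] at hne
            exact hne rfl
          have h3 := hGw s h2
          have h4 : j ≤ (G s).natDegree := le_natDegree_of_ne_zero hne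
          have h5 := Nat.mul_le_mul_left q h4
          omega
        rw [h1, map_zero, sub_zero, mul_zero, map_zero]
  choose cf hcf1 hcf2 hcf3 using hcoef
  have hPc : ∀ j, (∑ j ∈ range d, monomial j (cf j)).coeff j = cf j := by
    intro j
    simp only [finsetSum_coeff, coeff_monomial]
    rw [Finset.sum_ite_eq' (range d) j (fun j => cf j)]
    split_ifs with h
    · rfl
    · by_contra hne
      have h1 := hcf3 j (fun h0 => hne h0.symm)
      have h2 : d ≤ j := by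
        simpa using h
      have h3 := Nat.mul_le_mul_left q h2
      omega
  obtain ⟨P, hP⟩ : ∃ P : R[X], P = ∑ j ∈ range d, monomial j (cf j) := ⟨_, rfl⟩
  rw [← hP] at hPc
  refine ⟨P, fun hs => ?_, ?_, ?_, fun j => ?_⟩
  · refine hcf3 _ ?_
    rw [← hPc]
    exact leadingCoeff_ne_zero.2 hs
  · rw [← hP₀1]
    ext j
    rw [coeff_map, coeff_map, Ideal.Quotient.eq, hPc]
    exact hle1 (hcf1 j)
  · rw [← hP₀2]
    ext j
    rw [coeff_map, coeff_map, Ideal.Quotient.eq, hPc]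
    exact hle2 (hcf1 j)
  · rw [hPc]
    exact hcf2 j

/-- **assembly**, abstract form. -/
theorem assembleT {R A : Type} [CommRing R] [IsDomain R] [CommRing A] [IsDomain A]
    [Algebra A (FractionRing R)] [IsFractionRing A (FractionRing R)]
    (m₁ m₂ : Ideal R) [hm1 : m₁.IsMaximal] [hm2 : m₂.IsMaximal] (h12 : m₁ ≠ m₂)
    (hq1 : (q : R) ∉ m₁) (hq2 : (q : R) ∉ m₂) (ζ : R) (hζ : ∑ j ∈ range q, ζ ^ j = 0)
    (hι : 0 < Fintype.card ι)
    (c : ι → R) (hc1 : ∀ i, c i ∉ m₁) (hc2 : ∀ i, c i ∉ m₂)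
    (ε : ι → ZMod q) (D : R)
    (hS1 : SecSideG q m₁ ζ c D) (hN1 : SecNear q m₁)
    (hS2 : SecSideG q m₂ ζ (fun i => ζ ^ (ε i).val * c i) D) (hN2 : SecNear q m₂)
    (hdense : DenseA R A (FractionRing R))
    (hV : VSide q A (FractionRing R) (fun i => algebraMap R (FractionRing R) (c i))
      (algebraMap R (FractionRing R) D)) :
    ∃ (a b : R) (s t : ι → R), a ∈ m₁ ∧ a ∈ m₂ ∧ b ∉ m₁ ∧ b ∉ m₂ ∧
      (∀ i, t i ∉ m₁) ∧ (∀ i, t i ∉ m₂) ∧
      (∀ i, s i ^ q * b = (a + c i ^ q * b) * t i ^ q) ∧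
      (∀ i, s i - c i * t i ∈ m₁) ∧ (∀ i, s i - ζ ^ (ε i).val * c i * t i ∈ m₂) := by
  classical
  have hcq : ∀ i, (ζ ^ (ε i).val * c i) ^ q = c i ^ q := fun i => tw_pow ζ hζ ε c i
  obtain ⟨I₁, I₂, p₁, p₂, hI1m, hI2m, hI1M, hI2M, hp1w, hp2w, H⟩ :=
    SecSideG.exists_common hι hS1 hS2 (fun i => (hcq i).symm)
  have hcop : IsCoprime I₁ I₂ := coprime_of_sides m₁ m₂ h12 I₁ I₂ hI1M hI2M
  obtain ⟨G, a, ha, hGw, hG⟩ := hV
  -- the ideals of the congruences
  have hI1 : I₁ ≠ ⊥ := fun h => h12 (hI1M m₂ hm2 (h ▸ bot_le)).symm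
  have hI2 : I₂ ≠ ⊥ := fun h => h12 (hI2M m₁ hm1 (h ▸ bot_le))
  choose P hPw hP1 hP2 hPG using lift_dense I₁ I₂ hI1 hI2 hcop (2 * Fintype.card ι) p₁ p₂ hp1w hp2w
    hdense G a ha hGw
  set Φ : R[X] := (nmat (fun i => X + C (c i ^ q)) (famD D (2 * Fintype.card ι) P)).det with hΦ
  have hΦn' : Φ.natDegree ≤ 2 * (Fintype.card ι * q ^ Fintype.card ι) := by
    have h1 : Φ.natDegree ≤ 2 * Fintype.card ι * q ^ Fintype.card ι :=
      natDegree_det_famD (fun i => c i ^ q) D (2 * Fintype.card ι) P hPw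
    have h2 : 2 * Fintype.card ι * q ^ Fintype.card ι
        = 2 * (Fintype.card ι * q ^ Fintype.card ι) := by ring
    omega
  obtain ⟨φ₁, hφ₁, hφ₁inj⟩ := loc_to_frac m₁
  obtain ⟨φ₂, hφ₂, hφ₂inj⟩ := loc_to_frac m₂
  have hφ₁c : φ₁.comp (algebraMap R (Localization.AtPrime m₁)) = algebraMap R (FractionRing R) :=
    RingHom.ext hφ₁
  -- the roots in `K`
  obtain ⟨r, hrinj, hrroot, hry⟩ := hG (fun s => (P s).map (algebraMap R (FractionRing R)))
    (fun s j => by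
      obtain ⟨b, hb⟩ := hPG s j
      refine ⟨b, ?_⟩
      rw [coeff_map, hb])
  have hΦK : Φ.map (algebraMap R (FractionRing R))
      = (nmat (fun i => X + C (algebraMap R (FractionRing R) (c i) ^ q))
        (famD (algebraMap R (FractionRing R) D) (2 * Fintype.card ι)
          (fun s => (P s).map (algebraMap R (FractionRing R))))).det := by
    have h1 := det_nmat_map (Polynomial.mapRingHom (algebraMap R (FractionRing R)))
      (fun i => X + C (c i ^ q)) (famD D (2 * Fintype.card ι) P)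
    simp only [Polynomial.coe_mapRingHom] at h1
    rw [hΦ, h1]
    congr 2
    · ext1 i
      rw [Polynomial.map_add, Polynomial.map_X, Polynomial.map_C, map_pow]
    · ext1 s
      rw [famD_map]
  obtain ⟨j, ⟨x₁, hx₁, hx₁r, hNT1⟩, ⟨x₂, hx₂, hx₂r, hNT2⟩⟩ :=
    H P hP1 hP2 Φ hΦ hΦn' φ₁ φ₂ hφ₁ hφ₂ r hrinj
      (fun j => by
        rw [hΦK]
        exact hrroot _)
  have hjx : φ₂ x₂ = φ₁ x₁ := by rw [hx₁r, hx₂r]
  -- the coordinates at `m₁`
  have hcoord : ∀ i, ∃ y : Localization.AtPrime m₁,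
      y ^ q = x₁ + algebraMap R (Localization.AtPrime m₁) (c i) ^ q ∧
      y - algebraMap R (Localization.AtPrime m₁) (c i) ∈
        maximalIdeal (Localization.AtPrime m₁) := by
    intro i
    obtain ⟨z, hz⟩ := hry j i
    obtain ⟨y, hy⟩ := hN1 φ₁ hφ₁ (c i) (hc1 i) x₁ hx₁ z (by
      rw [hz, hx₁r])
    refine exists_near76 m₁ hq1 ζ hζ (c i) (hc1 i) x₁ hx₁ y ?_
    apply hφ₁inj
    rw [map_pow, hy, hz, map_add, map_pow, hφ₁, hx₁r]
  choose y₁ hy₁ hy₁c using hcoord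
  refine assemble_core m₁ m₂ hq1 hq2 ζ hζ c hc1 hc2 ε D P hN2 φ₁ φ₂ hφ₁ hφ₂ hφ₁inj hφ₂inj
    x₁ x₂ hx₁ hx₂ hjx ?_ hNT1 hNT2 y₁ hy₁ hy₁c
  rw [IsRoot.def, eval_map]
  apply hφ₁inj
  rw [hom_eval₂, hφ₁c, map_zero, hx₁r]
  have h1 := hrroot j
  rw [← hΦK, IsRoot.def, eval_map] at h1
  exact h1

/-- the choice of the points with explicit formula. -/
theorem exists_cT76 {L : Type} [CommRing L] (w : L)
    (hw : ∀ M : Ideal L, M.IsMaximal → w ∈ M) (q : ℕ) (hq : IsUnit (q : L)) (n : ℕ)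
    (c : Fin n → L) (hc : ∀ i : Fin n, c i = 1 + w * w ^ (i : ℕ)) :
    (∀ i, IsUnit (c i)) ∧ ∀ i j, i ≠ j → ∃ h : ℕ, c i ^ q - c j ^ q ∣ w ^ h := by
  refine ⟨fun i => by rw [hc]; exact isUnit_one_add_mul94 w hw _, ?_⟩
  have key : ∀ i j : Fin n, i < j → ∃ h : ℕ,
      (1 + w * w ^ (i : ℕ)) ^ q - (1 + w * w ^ (j : ℕ)) ^ q ∣ w ^ h := by
    intro i j hij
    obtain ⟨v, hv, hvv⟩ := pow_sub_pow_unit94 w hw q hq (w ^ (i : ℕ)) (w ^ (j : ℕ))
    obtain ⟨k, hk⟩ : ∃ k, (j : ℕ) = (i : ℕ) + (k + 1) := ⟨(j : ℕ) - i - 1, by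
      have : (i : ℕ) < j := hij
      omega⟩
    have h1 : IsUnit (1 + w * (-(w ^ k))) := isUnit_one_add_mul94 w hw _
    obtain ⟨v', hv'⟩ := hv.exists_right_inv
    obtain ⟨u', hu'⟩ := h1.exists_right_inv
    refine ⟨(i : ℕ) + 1, v' * u', ?_⟩
    rw [hvv, hk]
    calc w ^ ((i : ℕ) + 1)
        = w ^ ((i : ℕ) + 1) * ((1 + w * (-(w ^ k))) * u') * (v * v') := by
          rw [hu', hv']; ring
      _ = w * (w ^ (i : ℕ) - w ^ ((i : ℕ) + (k + 1))) * v * (v' * u') := by ring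
  intro i j hij
  rw [hc i, hc j]
  rcases lt_or_gt_of_ne hij with h | h
  · exact key i j h
  · obtain ⟨k, hk⟩ := key j i h
    refine ⟨k, ?_⟩
    have : (1 + w * w ^ (i : ℕ)) ^ q - (1 + w * w ^ (j : ℕ)) ^ q
        = -((1 + w * w ^ (j : ℕ)) ^ q - (1 + w * w ^ (i : ℕ)) ^ q) := by ring
    rw [this]
    exact (neg_dvd).2 hk

/-- the jets at explicit points. -/
theorem choice_jetsT76 {L : Type} [CommRing L] (w : L)
    (hw : ∀ M : Ideal L, M.IsMaximal → w ∈ M) {q : ℕ} [Fact q.Prime] (hq : IsUnit (q : L))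
    (ζ : L) (hζ : ∑ j ∈ range q, ζ ^ j = 0) (n : ℕ) (hn : 2 ≤ n)
    (c : Fin n → L) (hc : ∀ i : Fin n, c i = 1 + w * w ^ (i : ℕ)) :
    (∀ i, IsUnit (c i)) ∧
      ∀ ε : Fin n → ZMod q, ∃ (η₁ η₂ : Fin n → PowerSeries L) (e : ℕ),
        ((∀ i, η₁ i ^ q = PowerSeries.X + PowerSeries.C (c i ^ q)) ∧
          (∀ i, PowerSeries.constantCoeff (η₁ i) = c i) ∧
          JetsD (q := q) ζ c η₁ (2 * n) (n * q ^ n + 1 + 1) (w ^ e)) ∧
        ((∀ i, η₂ i ^ q = PowerSeries.X + PowerSeries.C ((ζ ^ (ε i).val * c i) ^ q)) ∧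
          (∀ i, PowerSeries.constantCoeff (η₂ i) = ζ ^ (ε i).val * c i) ∧
          JetsD (q := q) ζ (fun i => ζ ^ (ε i).val * c i) η₂ (2 * n) (n * q ^ n + 1 + 1)
            (w ^ e)) := by
  obtain ⟨hcu, hd⟩ := exists_cT76 w hw q hq n c hc
  refine ⟨hcu, fun ε => ?_⟩
  have hcard : Fintype.card (Fin n) = n := Fintype.card_fin n
  have hι : 2 ≤ Fintype.card (Fin n) := by rw [hcard]; exact hn
  have hζq : ∀ k : ℕ, (ζ ^ k) ^ q = 1 := fun k => by
    rw [← pow_mul, mul_comm, pow_mul, zeta_pow ζ hζ, one_pow]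
  have hζu : IsUnit ζ := IsUnit.of_pow_eq_one (zeta_pow ζ hζ) (Fact.out : q.Prime).ne_zero
  have hcq : ∀ i, (ζ ^ (ε i).val * c i) ^ q = c i ^ q := fun i => by
    rw [mul_pow, hζq, one_mul]
  obtain ⟨η₁, e₁, h1, h2, h3⟩ := jetsD_pow34 (q := q) hι ζ hζ c hq hcu w hd
  obtain ⟨η₂, e₂, h4, h5, h6⟩ := jetsD_pow34 (q := q) hι ζ hζ (fun i => ζ ^ (ε i).val * c i) hq
    (fun i => (hζu.pow _).mul (hcu i)) w (fun i j hij => by
      obtain ⟨h, hh⟩ := hd i j hij
      refine ⟨h, ?_⟩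
      show (ζ ^ (ε i).val * c i) ^ q - (ζ ^ (ε j).val * c j) ^ q ∣ w ^ h
      rw [hcq i, hcq j]
      exact hh)
  rw [hcard] at h3 h6
  exact ⟨η₁, η₂, e₁ + e₂, ⟨h1, h2, h3.of_dvd (pow_dvd_pow w (Nat.le_add_right _ _))⟩,
    ⟨h4, h5, h6.of_dvd (pow_dvd_pow w (Nat.le_add_left _ _))⟩⟩

/-- elements of `m₁` only which lie in `A`. -/
theorem DenseA.exists_mem76 {L A K : Type} [CommRing L] [IsDomain L] [CommRing A] [IsDomain A]
    [Field K] [Algebra L K] [IsFractionRing L K] [Algebra A K] [IsFractionRing A K]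
    (h : DenseA L A K) (m₁ m₂ : Ideal L) (I : Ideal L) (hI : I ≠ ⊥) (h1 : I ≤ m₁) (h2 : I ≤ m₂)
    (u : L) (hu1 : u ∈ m₁) (hu2 : u ∉ m₂) :
    ∃ w : L, w ∈ m₁ ∧ w ∉ m₂ ∧ ∃ b : A, algebraMap L K w = algebraMap A K b := by
  obtain ⟨w, hw, b, hb⟩ := h.congr I hI u 0 1 one_ne_zero
  refine ⟨w, ?_, fun hw2 => hu2 ?_, b, ?_⟩
  · have := m₁.add_mem (h1 hw) hu1
    rwa [sub_add_cancel] at this
  · have := m₂.sub_mem hw2 (h2 hw)
    rwa [sub_sub_cancel] at this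
  · rw [sub_zero, one_mul] at hb
    exact hb

/-- **the patterns**: both localizations unibranch, and `L` dense in its fraction field for the
topology of a normal henselian local ring with the same fraction field. -/
theorem claimT {L A : Type} [CommRing L] [IsDomain L] [CommRing A] [IsDomain A]
    [HenselianLocalRing A] [IsIntegrallyClosed A] [Algebra A (FractionRing L)]
    [IsFractionRing A (FractionRing L)] (hA : ¬ IsField A)
    (hdense : DenseA L A (FractionRing L)) (q : ℕ) [Fact q.Prime] (n : ℕ) (hn : 2 ≤ n)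
    (m₁ m₂ : Ideal L) [h1 : m₁.IsMaximal] [h2 : m₂.IsMaximal] (h12 : m₁ ≠ m₂)
    (hall : ∀ M : Ideal L, M.IsMaximal → M = m₁ ∨ M = m₂)
    (hU1 : IsLocalRing (integralClosure (Localization.AtPrime m₁) (FractionRing L)))
    (hU2 : IsLocalRing (integralClosure (Localization.AtPrime m₂) (FractionRing L)))
    (hq1 : (q : L) ∉ m₁) (hq2 : (q : L) ∉ m₂) (ζ : L) (hζ : ∑ j ∈ range q, ζ ^ j = 0) :
    ∃ c : Fin n → L, (∀ i, c i ∉ m₁) ∧ (∀ i, c i ∉ m₂) ∧
      ∀ ε : Fin n → ZMod q,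
      ∃ (a b : L) (s t : Fin n → L), a ∈ m₁ ∧ a ∈ m₂ ∧ b ∉ m₁ ∧ b ∉ m₂ ∧
        (∀ i, t i ∉ m₁) ∧ (∀ i, t i ∉ m₂) ∧
        (∀ i, s i ^ q * b = (a + c i ^ q * b) * t i ^ q) ∧
        (∀ i, s i - c i * t i ∈ m₁) ∧ (∀ i, s i - ζ ^ (ε i).val * c i * t i ∈ m₂) := by
  classical
  have hKinj : Function.Injective (algebraMap L (FractionRing L)) :=
    IsFractionRing.injective L (FractionRing L)
  have hAinj : Function.Injective (algebraMap A (FractionRing L)) :=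
    IsFractionRing.injective A (FractionRing L)
  -- elements in exactly one of the two maximal ideals
  have hle12 : ¬ m₁ ≤ m₂ := fun h => h12 (h1.eq_of_le h2.ne_top h)
  have hle21 : ¬ m₂ ≤ m₁ := fun h => h12 (h2.eq_of_le h1.ne_top h).symm
  obtain ⟨v₁, hv1, hv12⟩ := Set.not_subset.1 hle12
  obtain ⟨v₂, hv2, hv21⟩ := Set.not_subset.1 hle21
  have hm1 : m₁ ≠ ⊥ := fun h => by
    rw [h] at hle12; exact hle12 bot_le
  have hm2 : m₂ ≠ ⊥ := fun h => by
    rw [h] at hle21; exact hle21 bot_le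
  have hI : m₁ * m₂ ≠ ⊥ := mul_ne_zero hm1 hm2
  have hIle1 : m₁ * m₂ ≤ m₁ := Ideal.mul_le_left
  have hIle2 : m₁ * m₂ ≤ m₂ := Ideal.mul_le_right
  obtain ⟨u₁, hu11, hu12, b₁, hb₁⟩ := hdense.exists_mem76 m₁ m₂ _ hI hIle1 hIle2 v₁ hv1 hv12
  obtain ⟨u₂, hu22, hu21, b₂, hb₂⟩ := hdense.exists_mem76 m₂ m₁ _ hI hIle2 hIle1 v₂ hv2 hv21
  have hu1M : ∀ M : Ideal L, M.IsMaximal → u₁ ∈ M → M = m₁ := by
    intro M hM hu
    rcases hall M hM with h | h
    · exact h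
    · exact absurd (h ▸ hu) hu12
  have hu2M : ∀ M : Ideal L, M.IsMaximal → u₂ ∈ M → M = m₂ := by
    intro M hM hu
    rcases hall M hM with h | h
    · exact absurd (h ▸ hu) hu21
    · exact h
  have hu10 : u₁ ≠ 0 := fun h => hu12 (h ▸ m₂.zero_mem)
  have hu20 : u₂ ≠ 0 := fun h => hu21 (h ▸ m₁.zero_mem)
  have hw : ∀ M : Ideal L, M.IsMaximal → u₁ * u₂ ∈ M := by
    intro M hM
    rcases hall M hM with rfl | rfl
    · exact Ideal.mul_mem_right _ _ hu11
    · exact Ideal.mul_mem_left _ _ hu22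
  have hunit : ∀ x : L, x ∉ m₁ → x ∉ m₂ → IsUnit x := by
    intro x hx1 hx2
    by_contra hn
    obtain ⟨M, hM, hxM⟩ := exists_max_ideal_of_mem_nonunits hn
    rcases hall M hM with rfl | rfl
    · exact hx1 hxM
    · exact hx2 hxM
  have hqu : IsUnit (q : L) := hunit _ hq1 hq2
  obtain ⟨c, hcdef⟩ : ∃ c : Fin n → L, ∀ i : Fin n, c i = 1 + (u₁ * u₂) * (u₁ * u₂) ^ (i : ℕ) :=
    ⟨_, fun i => rfl⟩
  obtain ⟨hc, hJ⟩ := choice_jetsT76 (u₁ * u₂) hw (q := q) hqu ζ hζ n hn c hcdef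
  have hc1 : ∀ i, c i ∉ m₁ := fun i h => h1.ne_top (Ideal.eq_top_of_isUnit_mem _ h (hc i))
  have hc2 : ∀ i, c i ∉ m₂ := fun i h => h2.ne_top (Ideal.eq_top_of_isUnit_mem _ h (hc i))
  refine ⟨c, hc1, hc2, fun ε => ?_⟩
  obtain ⟨η₁, η₂, e, ⟨hη1, hη10, hJ1⟩, hη2, hη20, hJ2⟩ := hJ ε
  have hD1 : (u₁ * u₂) ^ e = u₁ ^ e * u₂ ^ e := mul_pow _ _ _
  have hD2 : (u₁ * u₂) ^ e = u₂ ^ e * u₁ ^ e := by rw [mul_pow, mul_comm]
  have hs1 : u₂ ^ e ∉ m₁ := fun h => hu21 (h1.isPrime.mem_of_pow_mem _ h)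
  have hs2 : u₁ ^ e ∉ m₂ := fun h => hu12 (h2.isPrime.mem_of_pow_mem _ h)
  have hcard : Fintype.card (Fin n) = n := Fintype.card_fin n
  have hpos : 0 < Fintype.card (Fin n) := by rw [hcard]; omega
  have hζ2 : ζ ∉ m₂ := zeta_not_mem (q := q) m₂ ζ hζ
  have hc2' : ∀ i, ζ ^ (ε i).val * c i ∉ m₂ := by
    intro i h
    rcases h2.isPrime.mem_or_mem h with h | h
    · exact hζ2 (h2.isPrime.mem_of_pow_mem _ h)
    · exact hc2 i h
  have hS1 : SecSideG q m₁ ζ c ((u₁ * u₂) ^ e) :=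
    secSideG_uni m₁ hU1 u₁ hu11 hu10 hu1M _ _ e hD1 hs1 hq1 ζ hζ hpos c hc1 η₁ hη1 hη10
      (by rw [hcard]; exact hJ1)
  have hS2 : SecSideG q m₂ ζ (fun i => ζ ^ (ε i).val * c i) ((u₁ * u₂) ^ e) :=
    secSideG_uni m₂ hU2 u₂ hu22 hu20 hu2M _ _ e hD2 hs2 hq2 ζ hζ hpos _ hc2' η₂ hη2 hη20
      (by rw [hcard]; exact hJ2)
  have hN1 : SecNear q m₁ := secNear_unibranch34 m₁ hU1 hq1 ζ hζ
  have hN2 : SecNear q m₂ := secNear_unibranch34 m₂ hU2 hq2 ζ hζ
  -- the root of unity in `A`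
  obtain ⟨ζA, hζA⟩ : ∃ z : A, algebraMap A (FractionRing L) z = algebraMap L (FractionRing L) ζ := by
    rw [← IsIntegrallyClosed.isIntegral_iff]
    refine IsIntegral.of_pow (Fact.out : q.Prime).pos ?_
    rw [← map_pow, zeta_pow ζ hζ, map_one]
    exact isIntegral_one
  have hζA0 : ∑ j ∈ range q, ζA ^ j = 0 := by
    apply hAinj
    rw [map_sum, map_zero]
    simp only [map_pow, hζA]
    have := congrArg (algebraMap L (FractionRing L)) hζ
    rw [map_sum, map_zero] at this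
    simpa only [map_pow] using this
  have hqA : (q : A) ≠ 0 := by
    intro h
    have h3 := congrArg (algebraMap A (FractionRing L)) h
    rw [map_natCast, map_zero] at h3
    have h4 : (q : L) = 0 := by
      apply hKinj
      rw [map_natCast, map_zero, h3]
    exact hq1 (h4 ▸ m₁.zero_mem)
  -- the points in `A`
  have hcA : ∀ i : Fin n, algebraMap A (FractionRing L) (1 + (b₁ * b₂) * (b₁ * b₂) ^ (i : ℕ))
      = algebraMap L (FractionRing L) (c i) := by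
    intro i
    rw [hcdef]
    simp only [map_add, map_mul, map_pow, map_one, hb₁, hb₂]
  have hcA0 : ∀ i : Fin n, (1 + (b₁ * b₂) * (b₁ * b₂) ^ (i : ℕ)) ≠ 0 := by
    intro i h
    have h3 := hcA i
    rw [h, map_zero] at h3
    have h4 : c i = 0 := by
      apply hKinj
      rw [← h3, map_zero]
    exact hc1 i (h4 ▸ m₁.zero_mem)
  have hD0 : algebraMap L (FractionRing L) ((u₁ * u₂) ^ e) ≠ 0 := by
    rw [Ne, IsFractionRing.to_map_eq_zero_iff]
    exact pow_ne_zero _ (mul_ne_zero hu10 hu20)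
  have hV : VSide q A (FractionRing L) (fun i => algebraMap L (FractionRing L) (c i))
      (algebraMap L (FractionRing L) ((u₁ * u₂) ^ e)) := by
    have h3 := vside (K := FractionRing L) hA q hqA ζA hζA0 hpos
      (fun i : Fin n => 1 + (b₁ * b₂) * (b₁ * b₂) ^ (i : ℕ)) hcA0 _ hD0
    simp only [hcA] at h3
    exact h3
  exact assembleT m₁ m₂ h12 hq1 hq2 ζ hζ hpos c hc1 hc2 ε _ hS1 hN1 hS2 hN2 hdense hV

/-- **the patterns**, in the form of `HasDense` and `PatLoc`. -/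
theorem patLoc_of_dense76 {L : Type} [CommRing L] [IsDomain L]
    (hdense : HasDense L (FractionRing L)) (q : ℕ) [Fact q.Prime] (n : ℕ) (hn : 2 ≤ n)
    (m₁ m₂ : Ideal L) [h1 : m₁.IsMaximal] [h2 : m₂.IsMaximal] (h12 : m₁ ≠ m₂)
    (hall : ∀ M : Ideal L, M.IsMaximal → M = m₁ ∨ M = m₂)
    (hU1 : IsLocalRing (integralClosure (Localization.AtPrime m₁) (FractionRing L)))
    (hU2 : IsLocalRing (integralClosure (Localization.AtPrime m₂) (FractionRing L)))
    (hq1 : (q : L) ∉ m₁) (hq2 : (q : L) ∉ m₂) (ζ : L) (hζ : ∑ j ∈ range q, ζ ^ j = 0) :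
    PatLoc m₁ m₂ q ζ n := by
  obtain ⟨A, hA1, hA2, hA3, hA4, hA5⟩ := hdense
  obtain ⟨c, hc1, hc2, hc⟩ := claimT (A := A) hA4 (fun x a ha => by
    obtain ⟨r, b, hr⟩ := hA5 x a ha
    exact ⟨r, b, hr⟩) q n hn m₁ m₂ h12 hall hU1 hU2 hq1 hq2 ζ hζ
  refine ⟨c, hc1, hc2, fun ε => ?_⟩
  obtain ⟨a, b, s, t, -, -, hb1, -, ht1, ht2, h3, h4, h5⟩ := hc ε
  exact ⟨a, b, s, t, hb1, ht1, ht2, h3, h4, h5⟩

end Pool.Agent.AIC
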