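import Mathlib

/-!
# Finitely many branches in dimension one

If no `n` elements form an independent family for divisibility in a one-dimensional domain `A`,
then the integral closure of `A` in its fraction field has fewer than `n` maximal ideals (`n ≥ 2`).
-/

set_option autoImplicit false

namespace Pool.Agent.AIC

open Finset

/-- no `n`-element independent family for divisibility. -/
def BSn (n : ℕ) (A : Type) [CommRing A] : Prop :=
  ¬ ∃ (u z : Fin n → A), (∀ i j, i ≠ j → u i ∣ z j) ∧ ∀ j, ¬ u j ∣ z j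

theorem bs_of_div {R : Type} [CommRing R]
    (hdiv : ∃ n : ℕ, ¬ ∃ (u : Fin n → R) (b : Finset (Fin n) → R),
      ∀ (i : Fin n) (J : Finset (Fin n)), (u i ∣ b J ↔ i ∈ J)) : ∃ n, BSn n R := by
  obtain ⟨n, hn⟩ := hdiv
  refine ⟨n, fun ⟨u, z, h1, h2⟩ => hn ⟨u, fun J => ∑ j ∈ univ \ J, z j, fun i J => ?_⟩⟩
  constructor
  · intro h
    by_contra hi
    have hmem : i ∈ univ \ J := by simp [hi]
    dsimp only at h
    rw [← Finset.add_sum_erase _ _ hmem] at h
    have h3 : u i ∣ ∑ j ∈ (univ \ J).erase i, z j :=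
      Finset.dvd_sum fun j hj => h1 i j (Ne.symm (Finset.ne_of_mem_erase hj))
    exact h2 i ((dvd_add_left h3).1 h)
  · intro hi
    refine Finset.dvd_sum fun j hj => h1 i j ?_
    rintro rfl
    simp [hi] at hj

theorem BSn.mono {n : ℕ} {A : Type} [CommRing A] (h : BSn n A) {m : ℕ} (hm : n ≤ m) :
    BSn m A := by
  rintro ⟨u, z, h1, h2⟩
  refine h ⟨fun i => u (Fin.castLE hm i), fun i => z (Fin.castLE hm i), fun i j hij => ?_,
    fun j => h2 _⟩
  exact h1 _ _ fun h => hij (Fin.castLE_injective hm h)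

theorem bs_loc {R A : Type} [CommRing R] [IsDomain R] [CommRing A] [Algebra R A] (P : Ideal R)
    [P.IsPrime] [IsLocalization.AtPrime A P] {n : ℕ} (h : BSn n R) : BSn n A := by
  classical
  rintro ⟨u, z, h1, h2⟩
  choose u' s hu using fun i => IsLocalization.exists_mk'_eq P.primeCompl (u i)
  choose z' t hz using fun i => IsLocalization.exists_mk'_eq P.primeCompl (z i)
  have hunit : ∀ s : P.primeCompl, IsUnit (algebraMap R A s) := fun s =>
    IsLocalization.map_units A s
  have hus : ∀ i, u i * algebraMap R A (s i) = algebraMap R A (u' i) := fun i => by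
    rw [← hu i]; exact IsLocalization.mk'_spec A _ _
  have hzt : ∀ i, z i * algebraMap R A (t i) = algebraMap R A (z' i) := fun i => by
    rw [← hz i]; exact IsLocalization.mk'_spec A _ _
  have hiff : ∀ i j, u i ∣ z j ↔ algebraMap R A (u' i) ∣ algebraMap R A (z' j) := by
    intro i j
    rw [← hus, ← hzt, (hunit (s i)).mul_right_dvd, (hunit (t j)).dvd_mul_right]
  have hdv : ∀ i j, i ≠ j → ∃ w : P.primeCompl, u' i ∣ w * z' j := by
    intro i j hij
    obtain ⟨c, hc⟩ := (hiff i j).1 (h1 i j hij)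
    obtain ⟨c', w, rfl⟩ := IsLocalization.exists_mk'_eq P.primeCompl c
    have h3 : algebraMap R A (w * z' j) = algebraMap R A (u' i * c') := by
      rw [map_mul, map_mul, hc, ← IsLocalization.mk'_spec A c' w]; ring
    obtain ⟨v, hv⟩ := (IsLocalization.eq_iff_exists P.primeCompl A).1 h3
    refine ⟨v * w, v * c', ?_⟩
    push_cast
    linear_combination hv
  choose w hw using hdv
  set W : R := ∏ i, ∏ j, (if hij : i ≠ j then (w i j hij : R) else 1) with hW
  have hWP : W ∉ P := by
    rw [hW]
    intro hcon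
    obtain ⟨i, _, hi⟩ := (Ideal.IsPrime.prod_mem_iff).1 hcon
    obtain ⟨j, _, hj⟩ := (Ideal.IsPrime.prod_mem_iff).1 hi
    split_ifs at hj with hij
    · exact (w i j hij).2 hj
    · exact (Ideal.ne_top_iff_one P).1 (Ideal.IsPrime.ne_top inferInstance) hj
  refine h ⟨u', fun j => W * z' j, fun i j hij => ?_, fun j hj => ?_⟩
  · refine (hw i j hij).trans (mul_dvd_mul_right ?_ _)
    have h3 : (w i j hij : R) = (if hij : i ≠ j then (w i j hij : R) else 1) := by
      rw [dif_pos hij]
    rw [h3, hW]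
    exact (Finset.dvd_prod_of_mem (fun j => (if hij : i ≠ j then (w i j hij : R) else 1))
      (mem_univ j)).trans (Finset.dvd_prod_of_mem
        (fun i => ∏ j, (if hij : i ≠ j then (w i j hij : R) else 1)) (mem_univ i))
  · apply h2 j
    rw [hiff]
    have h3 := map_dvd (algebraMap R A) hj
    rw [map_mul] at h3
    exact ((hunit ⟨W, hWP⟩).dvd_mul_left).1 h3

/-- the counting step. -/
theorem card_lt {A K : Type} [CommRing A] [IsDomain A] [Field K] [Algebra A K]
    [IsFractionRing A K] [Ring.DimensionLEOne A] {n : ℕ} (hn : 2 ≤ n) (hBS : BSn n A)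
    (T : Subalgebra A K) [hfin : Module.Finite A T] (M : Fin n → Ideal T)
    (hM : ∀ i, (M i).IsMaximal) (hinj : Function.Injective M) : False := by
  classical
  have hAK : Function.Injective (algebraMap A K) := IsFractionRing.injective A K
  have hdimT : Ring.DimensionLEOne T := Ring.DimensionLEOne.of_isIntegral (R := A) T
  -- a nonzero `α` with `α T ⊆ A`
  obtain ⟨α, hα0, hα⟩ : ∃ α : A, α ≠ 0 ∧ ∀ t : T, ∃ a : A,
      algebraMap A K a = algebraMap A K α * (t : K) := by
    have hfg : (Subalgebra.toSubmodule T).FG := Module.Finite.iff_fg.1 hfin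
    obtain ⟨α, hα, h⟩ := FractionalIdeal.isFractional_of_fg (S := nonZeroDivisors A) hfg
    refine ⟨α, nonZeroDivisors.ne_zero hα, fun t => ?_⟩
    obtain ⟨a, ha⟩ := h t t.2
    exact ⟨a, by rw [ha, Algebra.smul_def]⟩
  set a : T := algebraMap A T α with ha
  have haK : (a : K) = algebraMap A K α := rfl
  have ha0 : a ≠ 0 := by
    intro h
    have h1 : (a : K) = 0 := by rw [h]; rfl
    rw [haK] at h1
    exact hα0 (hAK (by rw [h1, map_zero]))
  have hMne : ∀ j, M j ≠ ⊥ := by
    intro j hj
    obtain ⟨i, hij⟩ : ∃ i : Fin n, i ≠ j := by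
      have : Nontrivial (Fin n) := Fin.nontrivial_iff_two_le.2 hn
      exact exists_ne j
    have h1 : M j = M i := (hM j).eq_of_le (hM i).ne_top (by rw [hj]; exact bot_le)
    exact hij (hinj h1.symm)
  -- elements `w v ∈ α M_j`
  have hkey : ∀ i j, i ≠ j → ∃ w v : T, w ∉ M j ∧ v ∉ M i ∧ w * v ∈ Ideal.span {a} * M j := by
    intro i j hij
    by_contra hno
    push Not at hno
    have hpi : (M i).IsPrime := (hM i).isPrime
    have hpj : (M j).IsPrime := (hM j).isPrime
    have hdis : Disjoint ((Ideal.span {a} * M j : Ideal T) : Set T)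
        (((M j).primeCompl ⊔ (M i).primeCompl : Submonoid T) : Set T) := by
      rw [Set.disjoint_left]
      intro x hx hx2
      obtain ⟨w, hw, v, hv, rfl⟩ := Submonoid.mem_sup.1 hx2
      exact hno w v hw hv hx
    obtain ⟨p, hp, hle, hpd⟩ := Ideal.exists_le_prime_disjoint _ _ hdis
    have hpMj : p ≤ M j := by
      intro x hx
      by_contra hxM
      exact Set.disjoint_left.1 hpd hx
        (SetLike.le_def.1 (le_sup_left : (M j).primeCompl ≤ _) hxM)
    have hpMi : p ≤ M i := by
      intro x hx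
      by_contra hxM
      exact Set.disjoint_left.1 hpd hx
        (SetLike.le_def.1 (le_sup_right : (M i).primeCompl ≤ _) hxM)
    have hp0 : p ≠ ⊥ := by
      intro h0
      obtain ⟨x, hx, hx0⟩ := Submodule.exists_mem_ne_zero_of_ne_bot (hMne j)
      have h1 : a * x ∈ p := hle (Ideal.mul_mem_mul (Ideal.mem_span_singleton_self a) hx)
      rw [h0] at h1
      exact mul_ne_zero ha0 hx0 ((Submodule.mem_bot _).1 h1)
    have hpm : p.IsMaximal := hp.isMaximal hp0
    have e1 := hpm.eq_of_le (hM j).ne_top hpMj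
    have e2 := hpm.eq_of_le (hM i).ne_top hpMi
    exact hij (hinj (e2.symm.trans e1))
  -- the elements `x_j`
  have hx : ∀ j, ∃ x w : T, w ∉ M j ∧ w * x ∈ Ideal.span {a} * M j ∧ ∀ i, i ≠ j → x ∉ M i := by
    intro j
    have hpj : (M j).IsPrime := (hM j).isPrime
    have hw' : ∀ i, ∃ w v : T, w ∉ M j ∧ (i ≠ j → v ∉ M i ∧ w * v ∈ Ideal.span {a} * M j) := by
      intro i
      by_cases hij : i = j
      · exact ⟨1, 1, fun h => hpj.ne_top ((Ideal.eq_top_iff_one _).2 h), fun h => absurd hij h⟩
      · obtain ⟨w, v, h1, h2, h3⟩ := hkey i j hij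
        exact ⟨w, v, h1, fun _ => ⟨h2, h3⟩⟩
    choose w v hw hv using hw'
    set I : Ideal T := Submodule.comap (LinearMap.mulLeft T (∏ i, w i)) (Ideal.span {a} * M j)
      with hI
    have hmemI : ∀ x, x ∈ I ↔ (∏ i, w i) * x ∈ Ideal.span {a} * M j := fun x => Iff.rfl
    have hprod : (∏ i, w i) ∉ M j := by
      intro hcon
      obtain ⟨i, _, hi⟩ := (Ideal.IsPrime.prod_mem_iff).1 hcon
      exact hw i hi
    have hnot : ¬ ((I : Set T) ⊆ ⋃ i ∈ ((univ.erase j : Finset (Fin n)) : Set (Fin n)), M i) := by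
      rw [Ideal.subset_union_prime j j (fun i _ _ _ => (hM i).isPrime)]
      rintro ⟨i, hi, hle⟩
      have hij : i ≠ j := ne_of_mem_erase hi
      apply (hv i hij).1
      apply hle
      rw [hmemI, ← mul_prod_erase _ _ (mem_univ i)]
      have h1 : w i * (∏ l ∈ univ.erase i, w l) * v i = (∏ l ∈ univ.erase i, w l) * (w i * v i) := by
        ring
      rw [h1]
      exact Ideal.mul_mem_left _ _ (hv i hij).2
    obtain ⟨x, hxI, hxn⟩ := Set.not_subset.1 hnot
    refine ⟨x, ∏ i, w i, hprod, (hmemI x).1 hxI, fun i hij hxi => hxn ?_⟩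
    rw [Set.mem_iUnion₂]
    exact ⟨i, mem_coe.2 (mem_erase.2 ⟨hij, mem_univ i⟩), hxi⟩
  choose x w hwM hwx hxM using hx
  have hx0 : ∀ j, (x j : K) ≠ 0 := by
    intro j h
    obtain ⟨i, hij⟩ : ∃ i : Fin n, i ≠ j := by
      have : Nontrivial (Fin n) := Fin.nontrivial_iff_two_le.2 hn
      exact exists_ne j
    apply hxM j i hij
    have h1 : x j = 0 := Subtype.ext h
    rw [h1]
    exact (M i).zero_mem
  -- the family
  choose u hu using fun j => hα (x j)
  choose z hz using fun j => hα (a * ∏ i ∈ univ.erase j, x i)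
  refine hBS ⟨u, z, fun i j hij => ?_, fun j hdiv => ?_⟩
  · obtain ⟨c, hc⟩ := hα (∏ l ∈ (univ.erase j).erase i, x l)
    refine ⟨c, hAK ?_⟩
    rw [map_mul, hu, hz, hc, ← mul_prod_erase (univ.erase j) _ (mem_erase.2 ⟨hij, mem_univ i⟩)]
    push_cast
    rw [haK]
    ring
  · obtain ⟨c, hc⟩ := hdiv
    have h1 := congrArg (algebraMap A K) hc
    rw [map_mul, hu, hz] at h1
    have h2 : a * ∏ i ∈ univ.erase j, x i = x j * algebraMap A T c := by
      apply Subtype.ext
      have hαK : algebraMap A K α ≠ 0 := fun h => hα0 (hAK (by rw [h, map_zero]))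
      apply mul_left_cancel₀ hαK
      push_cast
      push_cast at h1
      rw [h1]; ring
    obtain ⟨m, hm, hme⟩ := Ideal.mem_span_singleton_mul.1 (hwx j)
    have h3 : w j * ∏ i ∈ univ.erase j, x i = m * algebraMap A T c := by
      apply mul_left_cancel₀ ha0
      calc a * (w j * ∏ i ∈ univ.erase j, x i) = w j * (a * ∏ i ∈ univ.erase j, x i) := by ring
        _ = (w j * x j) * algebraMap A T c := by rw [h2]; ring
        _ = _ := by rw [← hme]; ring
    have h4 : w j * ∏ i ∈ univ.erase j, x i ∈ M j := by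
      rw [h3]; exact Ideal.mul_mem_right _ _ hm
    have hpj : (M j).IsPrime := (hM j).isPrime
    rcases hpj.mem_or_mem h4 with h5 | h5
    · exact hwM j h5
    · obtain ⟨i, hi, hi2⟩ := (Ideal.IsPrime.prod_mem_iff).1 h5
      exact hxM i j (Ne.symm (ne_of_mem_erase hi)) hi2

/-- finitely many branches. -/
theorem finite_branches {A K : Type} [CommRing A] [IsDomain A] [Field K] [Algebra A K]
    [IsFractionRing A K] [Ring.DimensionLEOne A] (hBS : ∃ n, BSn n A) :
    {N : Ideal (integralClosure A K) | N.IsMaximal}.Finite := by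
  classical
  by_contra hinf
  obtain ⟨n₀, hn₀⟩ := hBS
  have hBSn : BSn (n₀ + 2) A := hn₀.mono (by omega)
  have hinf' : Set.Infinite {N : Ideal (integralClosure A K) | N.IsMaximal} := hinf
  let f := hinf'.natEmbedding
  set N : Fin (n₀ + 2) → Ideal (integralClosure A K) := fun i => (f (i : ℕ)).1 with hN
  have hNm : ∀ i, (N i).IsMaximal := fun i => (f (i : ℕ)).2
  have hNinj : Function.Injective N := by
    intro i j hij
    have : f (i : ℕ) = f (j : ℕ) := Subtype.ext hij
    exact Fin.ext (f.injective this)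
  have hsep : ∀ i j, ∃ e : integralClosure A K, i ≠ j → e ∈ N i ∧ e ∉ N j := by
    intro i j
    by_cases hij : i = j
    · exact ⟨0, fun h => absurd hij h⟩
    · have h1 : ¬ N i ≤ N j := fun h =>
        hij (hNinj ((hNm i).eq_of_le (hNm j).ne_top h))
      obtain ⟨e, he, he'⟩ := SetLike.not_le_iff_exists.1 h1
      exact ⟨e, fun _ => ⟨he, he'⟩⟩
  choose e he using hsep
  set s : Set K := Set.range fun ij : Fin (n₀ + 2) × Fin (n₀ + 2) => (e ij.1 ij.2 : K) with hs
  set T : Subalgebra A K := Algebra.adjoin A s with hT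
  have hsint : ∀ x ∈ s, IsIntegral A x := by
    rintro _ ⟨ij, rfl⟩
    exact (e ij.1 ij.2).2
  have hle : T ≤ integralClosure A K := Algebra.adjoin_le hsint
  have hfin : Module.Finite A T := Module.Finite.iff_fg.2
    (fg_adjoin_of_finite (Set.finite_range _) hsint)
  set g : T →+* integralClosure A K := (Subalgebra.inclusion hle).toRingHom with hg
  have hgi : g.IsIntegral := by
    have h1 : (g.comp (algebraMap A T)).IsIntegral := by
      have h2 : g.comp (algebraMap A T) = algebraMap A (integralClosure A K) := by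
        ext y; rfl
      rw [h2]
      exact algebraMap_isIntegral_iff.2 inferInstance
    exact RingHom.IsIntegral.tower_top _ _ h1
  refine card_lt (by omega) hBSn T (fun i => (N i).comap g) (fun i => ?_) fun i j hij => ?_
  · have := hNm i
    exact Ideal.isMaximal_comap_of_isIntegral_of_isMaximal' g hgi (N i)
  · by_contra hne
    have hmem : (e i j : K) ∈ T := Algebra.subset_adjoin ⟨(i, j), rfl⟩
    have h1 : (⟨(e i j : K), hmem⟩ : T) ∈ (N i).comap g := (he i j hne).1
    have hij' : (N i).comap g = (N j).comap g := hij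
    rw [hij'] at h1
    exact (he i j hne).2 h1

end Pool.Agent.AIC
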