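import Mathlib
import Pool.Agent.AIC.FB82

/-!
# Theorem V: the ball of the asymptotic order

`A` is a subring of the field `K`, `β` an element of `A` with `K = A[1/β]`. `ball95`: the elements
`x` such that for every `N ≥ 1` some power of `β x ^ N` is in `A`. It is a completely integrally
closed subring, closed under divisorial closures of finite sets.
-/

set_option autoImplicit false

namespace Pool.Agent.AIC

open Finset

section mono

variable {K : Type} [Field K] (A : Subring K) {β : K}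

theorem exists_pow95 (hβA : β ∈ A) (hβ : ∀ x : K, ∃ k : ℕ, β ^ k * x ∈ A) (S : Finset K) :
    ∃ c : ℕ, ∀ y ∈ S, β ^ c * y ∈ A := by
  classical
  induction S using Finset.induction_on with
  | empty => exact ⟨0, by simp⟩
  | insert a s ha ih =>
    obtain ⟨c, hc⟩ := ih
    obtain ⟨k, hk⟩ := hβ a
    refine ⟨c + k, fun y hy => ?_⟩
    rcases Finset.mem_insert.1 hy with rfl | hy
    · rw [pow_add, mul_assoc]
      exact A.mul_mem (A.pow_mem hβA _) hk
    · rw [pow_add, mul_comm (β ^ c), mul_assoc]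
      exact A.mul_mem (A.pow_mem hβA _) (hc y hy)

theorem exists_common95 {ι : Type} (s : Finset ι) (x : ι → K) (N : ℕ)
    (hx : ∀ i, ∃ m, 1 ≤ m ∧ (β * x i ^ N) ^ m ∈ A) :
    ∃ m, 1 ≤ m ∧ ∀ i ∈ s, (β * x i ^ N) ^ m ∈ A := by
  classical
  induction s using Finset.induction_on with
  | empty => exact ⟨1, le_rfl, by simp⟩
  | insert a s ha ih =>
    obtain ⟨m, hm, hs⟩ := ih
    obtain ⟨k, hk, hka⟩ := hx a
    refine ⟨m * k, Nat.one_le_iff_ne_zero.2 (Nat.mul_ne_zero (by omega) (by omega)),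
      fun i hi => ?_⟩
    rcases Finset.mem_insert.1 hi with rfl | hi
    · rw [mul_comm m k, pow_mul]
      exact A.pow_mem hka _
    · rw [pow_mul]
      exact A.pow_mem (hs i hi) _

/-- the monomial lemma -/
theorem mono95 (hβA : β ∈ A) (hβ : ∀ x : K, ∃ k : ℕ, β ^ k * x ∈ A) {ι : Type} [Fintype ι]
    (x : ι → K) (hx : ∀ i, ∀ N, 1 ≤ N → ∃ m, 1 ≤ m ∧ (β * x i ^ N) ^ m ∈ A) (N : ℕ) (hN : 1 ≤ N) :
    ∃ M₀ : ℕ, ∀ M, M₀ ≤ M → ∀ e : ι → ℕ, ∑ i, e i ≤ N * M → β ^ M * ∏ i, x i ^ e i ∈ A := by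
  classical
  obtain ⟨m, hm, hmA⟩ := exists_common95 A univ x (2 * N) (fun i => hx i (2 * N) (by omega))
  obtain ⟨c, hc⟩ := exists_pow95 A hβA hβ
    (((univ : Finset ι) ×ˢ range (2 * N * m)).image (fun p => x p.1 ^ p.2))
  refine ⟨2 * (Fintype.card ι * c), fun M hM e he => ?_⟩
  have hpos : 0 < 2 * N * m := by positivity
  have h1 : ∀ i, β ^ (m * (e i / (2 * N * m)) + c) * x i ^ e i ∈ A := by
    intro i
    have h2 : β ^ c * x i ^ (e i % (2 * N * m)) ∈ A := by
      refine hc _ (Finset.mem_image.2 ⟨(i, e i % (2 * N * m)), ?_, rfl⟩)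
      exact Finset.mem_product.2 ⟨mem_univ _, Finset.mem_range.2 (Nat.mod_lt _ hpos)⟩
    have h3 : ((β * x i ^ (2 * N)) ^ m) ^ (e i / (2 * N * m)) ∈ A :=
      A.pow_mem (hmA i (mem_univ _)) _
    have h4 := A.mul_mem h3 h2
    convert h4 using 1
    have h5 : x i ^ e i = (x i ^ (2 * N * m)) ^ (e i / (2 * N * m)) *
        x i ^ (e i % (2 * N * m)) := by
      rw [← pow_mul, ← pow_add, Nat.div_add_mod]
    rw [h5]
    ring
  have h6 : ∏ i, (β ^ (m * (e i / (2 * N * m)) + c) * x i ^ e i) ∈ A :=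
    A.prod_mem fun i _ => h1 i
  rw [Finset.prod_mul_distrib, Finset.prod_pow_eq_pow_sum] at h6
  have h7 : ∑ i, (m * (e i / (2 * N * m)) + c) ≤ M := by
    rw [Finset.sum_add_distrib, Finset.sum_const, Finset.card_univ, smul_eq_mul]
    have h8 : 2 * N * ∑ i, m * (e i / (2 * N * m)) ≤ N * M := by
      refine le_trans ?_ he
      rw [Finset.mul_sum]
      refine Finset.sum_le_sum fun i _ => ?_
      rw [← mul_assoc]
      exact Nat.mul_div_le _ _
    have h9 : 2 * ∑ i, m * (e i / (2 * N * m)) ≤ M := by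
      have h10 : N * (2 * ∑ i, m * (e i / (2 * N * m))) ≤ N * M := by
        calc N * (2 * ∑ i, m * (e i / (2 * N * m))) = 2 * N * ∑ i, m * (e i / (2 * N * m)) := by
              ring
          _ ≤ N * M := h8
      exact Nat.le_of_mul_le_mul_left h10 (by omega)
    omega
  obtain ⟨d, hd⟩ := Nat.exists_eq_add_of_le h7
  rw [hd, pow_add, mul_comm (β ^ _) (β ^ d), mul_assoc]
  exact A.mul_mem (A.pow_mem hβA _) h6

end mono

section ball

variable {K : Type} [Field K] (A : Subring K) (β : K)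

/-- the ball of the asymptotic order of `β` -/
def ball95 (hβA : β ∈ A) (hβ : ∀ x : K, ∃ k : ℕ, β ^ k * x ∈ A) : Subring K where
  carrier := {x | ∀ N, 1 ≤ N → ∃ m, 1 ≤ m ∧ (β * x ^ N) ^ m ∈ A}
  mul_mem' := by
    intro x y hx hy N hN
    obtain ⟨M₀, hM⟩ := mono95 A hβA hβ (fun i : Fin 2 => if i = 0 then x else y)
      (fun i => by
        by_cases hi : i = 0
        · simp only [if_pos hi]; exact hx
        · simp only [if_neg hi]; exact hy) (2 * N) (by omega)
    refine ⟨M₀ + 1, by omega, ?_⟩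
    have h := hM (M₀ + 1) (by omega) (fun _ => N * (M₀ + 1)) (by
      simp only [Fin.sum_univ_two]; exact le_of_eq (by ring))
    rw [Fin.prod_univ_two] at h
    simp only [if_true] at h
    rw [if_neg (by decide)] at h
    convert h using 1
    ring
  one_mem' := fun N _ => ⟨1, le_rfl, by simpa using hβA⟩
  add_mem' := by
    intro x y hx hy N hN
    obtain ⟨M₀, hM⟩ := mono95 A hβA hβ (fun i : Fin 2 => if i = 0 then x else y)
      (fun i => by
        by_cases hi : i = 0
        · simp only [if_pos hi]; exact hx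
        · simp only [if_neg hi]; exact hy) N hN
    refine ⟨M₀ + 1, by omega, ?_⟩
    have h1 : (β * (x + y) ^ N) ^ (M₀ + 1) = ∑ i ∈ range (N * (M₀ + 1) + 1),
        (β ^ (M₀ + 1) * (x ^ i * y ^ (N * (M₀ + 1) - i))) *
          (((N * (M₀ + 1)).choose i : ℕ) : K) := by
      rw [mul_pow, ← pow_mul, add_pow, Finset.mul_sum]
      refine Finset.sum_congr rfl fun i _ => ?_
      ring
    rw [h1]
    refine A.sum_mem fun i hi => A.mul_mem ?_ (natCast_mem A _)
    have h2 := hM (M₀ + 1) (by omega)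
      (fun j : Fin 2 => if j = 0 then i else N * (M₀ + 1) - i) (by
        rw [Fin.sum_univ_two]
        show (if (0 : Fin 2) = 0 then i else N * (M₀ + 1) - i) +
          (if (1 : Fin 2) = 0 then i else N * (M₀ + 1) - i) ≤ _
        rw [if_pos rfl, if_neg (by decide)]
        have := Finset.mem_range.1 hi
        omega)
    rw [Fin.prod_univ_two] at h2
    simp only [if_true] at h2
    rw [if_neg (by decide), if_neg (by decide)] at h2
    exact h2
  zero_mem' := fun N hN => ⟨1, le_rfl, by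
    rw [zero_pow (by omega), mul_zero, pow_one]; exact A.zero_mem⟩
  neg_mem' := by
    intro x hx N hN
    obtain ⟨m, hm, h⟩ := hx N hN
    refine ⟨m, hm, ?_⟩
    have h1 : (β * (-x) ^ N) ^ m = ((-1) ^ N) ^ m * (β * x ^ N) ^ m := by
      rw [neg_pow]; ring
    rw [h1]
    exact A.mul_mem (A.pow_mem (A.pow_mem (A.neg_mem A.one_mem) _) _) h

variable {A β} (hβA : β ∈ A) (hβ : ∀ x : K, ∃ k : ℕ, β ^ k * x ∈ A)

theorem mem_ball95 {x : K} : x ∈ ball95 A β hβA hβ ↔
    ∀ N, 1 ≤ N → ∃ m, 1 ≤ m ∧ (β * x ^ N) ^ m ∈ A := Iff.rfl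

theorem le_ball95 : A ≤ ball95 A β hβA hβ := fun x hx N _ =>
  ⟨1, le_rfl, by rw [pow_one]; exact A.mul_mem hβA (A.pow_mem hx _)⟩

/-- the ball is completely integrally closed -/
theorem ball_cic95 (x d : K) (hd : d ≠ 0) (h : ∀ m : ℕ, d * x ^ m ∈ ball95 A β hβA hβ) :
    x ∈ ball95 A β hβA hβ := by
  intro N hN
  obtain ⟨k, hk⟩ := hβ d⁻¹
  obtain ⟨m, hm, h1⟩ := h (N * (k + 1)) 1 le_rfl
  refine ⟨(k + 1) * m, Nat.one_le_iff_ne_zero.2 (Nat.mul_ne_zero (by omega) (by omega)), ?_⟩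
  have h2 := A.mul_mem (A.pow_mem hk m) h1
  convert h2 using 1
  have h3 : β ^ k * d⁻¹ * (β * (d * x ^ (N * (k + 1))) ^ 1) = (β * x ^ N) ^ (k + 1) := by
    field_simp
    ring
  rw [← mul_pow, h3, ← pow_mul]

/-- the inverse of a nonunit `w` of `A` is not in the ball of `β = w (1 - w)` -/
theorem inv_notMem_ball95 (w w' : K) (hw : w ∈ A) (h1 : w + w' = 1)
    (hβw : β = w * w') (hinv : w⁻¹ ∉ A) : w⁻¹ ∉ ball95 A β hβA hβ := by
  intro hcon
  obtain ⟨m, hm, h2⟩ := hcon 2 (by omega)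
  have hw0 : w ≠ 0 := by
    rintro rfl
    exact hinv (by rw [inv_zero]; exact A.zero_mem)
  apply hinv
  have h3 : β * w⁻¹ ^ 2 = w' * w⁻¹ := by
    rw [hβw]; field_simp
  rw [h3] at h2
  let W : A := ⟨w, hw⟩
  obtain ⟨c, hc⟩ : W ∣ 1 - (1 - W) ^ m := by
    have h4 := sub_dvd_pow_sub_pow (1 : A) (1 - W) m
    rwa [sub_sub_cancel, one_pow] at h4
  have hc' : 1 - w' ^ m = w * c := by
    have h5 := congrArg (Subtype.val) hc
    have h6 : w' = 1 - w := by linear_combination h1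
    rw [h6]
    exact h5
  obtain ⟨k, rfl⟩ : ∃ k, m = k + 1 := ⟨m - 1, by omega⟩
  have h7 : w⁻¹ = c + (w' * w⁻¹) ^ (k + 1) * w ^ k := by
    have h8 : (w' * w⁻¹) ^ (k + 1) * w ^ k = w' ^ (k + 1) * w⁻¹ := by
      rw [mul_pow, inv_pow]
      field_simp
      try ring
    rw [h8]
    have h9 : w' ^ (k + 1) = 1 - w * c := by linear_combination -hc'
    rw [h9]
    field_simp
    ring
  rw [h7]
  exact A.add_mem c.2 (A.mul_mem h2 (A.pow_mem hw _))

/-- the ball is closed under divisorial closures of finite sets -/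
theorem ball_tclosed95 (F : Finset K) (hF : ∀ x ∈ F, x ∈ ball95 A β hβA hβ) (z : K)
    (hz : ∀ u : K, (∀ x ∈ F, u * x ∈ A) → u * z ∈ A) : z ∈ ball95 A β hβA hβ := by
  classical
  intro N hN
  obtain ⟨M₀, hM⟩ := mono95 A hβA hβ (fun i : F => (i : K)) (fun i => hF i i.2) N hN
  refine ⟨M₀ + 1, by omega, ?_⟩
  have key : ∀ j : ℕ, ∀ e : F → ℕ, ∑ i, e i + j ≤ N * (M₀ + 1) →
      (β ^ (M₀ + 1) * ∏ i : F, (i : K) ^ e i) * z ^ j ∈ A := by
    intro j
    induction j with
    | zero =>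
      intro e he
      rw [pow_zero, mul_one]
      exact hM _ (by omega) e (by omega)
    | succ j ih =>
      intro e he
      rw [pow_succ z j, ← mul_assoc]
      apply hz
      intro x hx
      have h1 := ih (fun i => e i + if i = ⟨x, hx⟩ then 1 else 0) (by
        rw [Finset.sum_add_distrib, Finset.sum_ite_eq' univ (⟨x, hx⟩ : F) (fun _ => 1)]
        simp only [mem_univ, if_true]
        omega)
      convert h1 using 1
      have h2 : ∏ i : F, (i : K) ^ (e i + if i = ⟨x, hx⟩ then 1 else 0) =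
          (∏ i : F, (i : K) ^ e i) * x := by
        simp_rw [pow_add]
        rw [Finset.prod_mul_distrib]
        congr 1
        rw [Finset.prod_eq_single (⟨x, hx⟩ : F)]
        · simp
        · intro i _ hi
          simp [hi]
        · intro h; exact absurd (mem_univ _) h
      rw [h2]
      ring
  have h3 := key (N * (M₀ + 1)) (fun _ => 0) (by simp)
  convert h3 using 1
  simp only [pow_zero, Finset.prod_const_one, mul_one]
  ring

end ball

/-- Baldwin-Saxl in the fraction field -/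
theorem bs_field95 {K : Type} [Field K] (B : Subring K) (n : ℕ) (hBS : BSn n B)
    (hfrac : ∀ x : K, ∃ s ∈ B, s ≠ 0 ∧ s * x ∈ B) (w : Fin n → K) :
    ∃ i, ∀ u ∈ B, (∀ j, j ≠ i → u * w j ∈ B) → u * w i ∈ B := by
  classical
  by_contra hcon
  push Not at hcon
  choose u hu huj hui using hcon
  have hw0 : ∀ i, w i ≠ 0 := by
    intro i h
    apply hui i
    rw [h, mul_zero]
    exact B.zero_mem
  choose s hs hs0 hsw using fun i => hfrac (w i)⁻¹
  have hc0 : ∏ i, s i ≠ 0 := Finset.prod_ne_zero_iff.2 fun i _ => hs0 i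
  have hcB : ∏ i, s i ∈ B := B.prod_mem fun i _ => hs i
  have hcw : ∀ i, (∏ i, s i) * (w i)⁻¹ ∈ B := by
    intro i
    rw [← Finset.mul_prod_erase univ s (mem_univ i), mul_comm (s i), mul_assoc]
    exact B.mul_mem (B.prod_mem fun j _ => hs j) (hsw i)
  have hiff : ∀ i j, ((⟨_, hcw i⟩ : B) ∣ (⟨_, B.mul_mem hcB (hu j)⟩ : B)) ↔ u j * w i ∈ B := by
    intro i j
    constructor
    · rintro ⟨c, hc⟩
      have h1 : (∏ i, s i) * u j = (∏ i, s i) * (w i)⁻¹ * (c : K) := congrArg Subtype.val hc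
      have h2 : u j * w i = (c : K) := by
        have h3 : (∏ i, s i) * (u j * w i) = (∏ i, s i) * (c : K) := by
          rw [← mul_assoc, h1]
          field_simp [hw0 i]
        exact mul_left_cancel₀ hc0 h3
      rw [h2]
      exact c.2
    · intro h
      refine ⟨⟨_, h⟩, Subtype.ext ?_⟩
      show (∏ i, s i) * u j = (∏ i, s i) * (w i)⁻¹ * (u j * w i)
      field_simp [hw0 i]
  refine hBS ⟨fun i => ⟨_, hcw i⟩, fun j => ⟨_, B.mul_mem hcB (hu j)⟩, fun i j hij => ?_,
    fun j hj => ?_⟩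
  · exact (hiff i j).2 (huj j i hij)
  · exact hui j ((hiff j j).1 hj)

end Pool.Agent.AIC
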