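import Mathlib
import Pool.Agent.AIC.Star34

/-!
# Coarsenings of Henselian valuation rings, and dominated unibranch local domains (row E4)
-/

set_option autoImplicit false
set_option linter.unusedSectionVars false

namespace Pool.Agent.AIC

open Polynomial IsLocalRing

section Coarse38

variable {K : Type} [Field K]

theorem nonunit_of_le38 {O O' : ValuationSubring K} (h : O ≤ O') {x : K}
    (hx : O'.valuation x < 1) : O.valuation x < 1 := by
  have := ValuationSubring.nonunits_le_nonunits.2 h
  exact ValuationSubring.mem_nonunits_iff _ |>.1 (this ((ValuationSubring.mem_nonunits_iff _).2 hx))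

/-- Hensel's lemma at `0` in a coarsening of a Henselian valuation ring. -/
theorem coarse_zero38 {O O' : ValuationSubring K} (h : O ≤ O') (hO : HenselianLocalRing O)
    (F : O'[X]) (h0 : F.coeff 0 ∈ maximalIdeal O') (h1 : IsUnit (F.coeff 1)) :
    ∃ x ∈ maximalIdeal O', F.eval x = 0 := by
  classical
  obtain ⟨e, he⟩ := h1
  set t : O' := F.coeff 0 * ↑e⁻¹ with ht
  have htm : t ∈ maximalIdeal O' := Ideal.mul_mem_right _ _ h0
  have hte : t * F.coeff 1 = F.coeff 0 := by
    rw [ht, ← he, mul_assoc, Units.inv_mul, mul_one]
  set H : O'[X] := F.divX.divX with hH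
  have hF : F = C (F.coeff 0) + X * (C (F.coeff 1) + X * H) := by
    have e1 := F.divX_mul_X_add
    have e2 := F.divX.divX_mul_X_add
    rw [coeff_divX] at e2
    conv_lhs => rw [← e1, ← e2]
    rw [hH]
    ring
  set c : O' := t * ↑e⁻¹ with hc
  have hcm : c ∈ maximalIdeal O' := Ideal.mul_mem_right _ _ htm
  set E : O'[X] := C c * H.comp (C t * X) with hE
  have hEc : ∀ k, E.coeff k ∈ maximalIdeal O' := by
    intro k
    rw [hE, coeff_C_mul]
    exact Ideal.mul_mem_right _ _ hcm
  -- lift `E` to `O`
  have hlift : E.map (algebraMap O' K) ∈ lifts (algebraMap O K) := by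
    rw [lifts_iff_coeff_lifts]
    intro k
    rw [coeff_map]
    have h2 : O.valuation (algebraMap O' K (E.coeff k)) < 1 :=
      nonunit_of_le38 h ((O'.valuation_lt_one_iff _).1 (hEc k))
    exact ⟨⟨_, O.mem_of_valuation_le_one _ h2.le⟩, rfl⟩
  obtain ⟨q, hq⟩ := (mem_lifts _).1 hlift
  have hqe : ∀ y : O, ((q.eval y : O) : K) =
      (E.map (algebraMap O' K)).eval (y : K) := by
    intro y
    rw [← hq, eval_map_algebraMap]
    exact (aeval_algebraMap_apply K y q).symm
  have hm : ∀ y : O, ∀ y' : O', (y : K) = (y' : K) → ((q.eval y : O) : K) = (E.eval y' : O') := by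
    intro y y' hy
    rw [hqe, hy, eval_map_algebraMap]
    exact aeval_algebraMap_apply K y' E
  have hm' : ∀ y : O, ∀ y' : O', (y : K) = (y' : K) →
      ((q.derivative.eval y : O) : K) = (E.derivative.eval y' : O') := by
    intro y y' hy
    have h2 : (q.derivative).map (algebraMap O K) = E.derivative.map (algebraMap O' K) := by
      rw [← derivative_map, ← derivative_map, hq]
    have h3 : ((q.derivative.eval y : O) : K) =
        (q.derivative.map (algebraMap O K)).eval (y : K) := by
      rw [eval_map_algebraMap]
      exact (aeval_algebraMap_apply K y _).symm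
    rw [h3, h2, hy, eval_map_algebraMap]
    exact aeval_algebraMap_apply K y' _
  have hmem : ∀ y : O, ∀ y' : O', (y : K) = (y' : K) → y' ∈ maximalIdeal O' →
      y ∈ maximalIdeal O := by
    intro y y' hy h2
    rw [O.valuation_lt_one_iff, hy]
    exact nonunit_of_le38 h ((O'.valuation_lt_one_iff _).1 h2)
  have q0 : q.eval (-1) ∈ maximalIdeal O := by
    refine hmem _ (E.eval (-1)) (hm (-1) (-1) (by simp)) ?_
    rw [hE, eval_mul, eval_C]
    exact Ideal.mul_mem_right _ _ hcm
  have q1 : q.derivative.eval (-1) ∈ maximalIdeal O := by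
    refine hmem _ (E.derivative.eval (-1)) (hm' (-1) (-1) (by simp)) ?_
    rw [hE, derivative_C_mul, eval_mul, eval_C]
    exact Ideal.mul_mem_right _ _ hcm
  -- the polynomial near `-1`
  set G : O[X] := X + (X - 1) ^ 2 * q.comp (X - 1) with hG
  have G0 : G.eval 0 ∈ maximalIdeal O := by
    rw [hG]
    simp only [eval_add, eval_X, eval_mul, eval_pow, eval_sub, eval_one, eval_comp, zero_add,
      zero_sub]
    exact Ideal.mul_mem_left _ _ q0
  have G1 : IsUnit (G.derivative.eval 0) := by
    have e1 : G.derivative.eval 0 = 1 + (-2 * q.eval (-1) + q.derivative.eval (-1)) := by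
      rw [hG]
      simp only [derivative_add, derivative_X, derivative_mul, derivative_pow, derivative_sub,
        derivative_one, derivative_comp, eval_add, eval_one, eval_mul, eval_pow, eval_sub, eval_X,
        eval_comp, sub_zero, zero_sub, eval_C]
      norm_num
    rw [e1]
    have h2 : -2 * q.eval (-1) + q.derivative.eval (-1) ∈ maximalIdeal O :=
      Ideal.add_mem _ (Ideal.mul_mem_left _ _ q0) q1
    by_contra hn
    have h3 : 1 + (-2 * q.eval (-1) + q.derivative.eval (-1)) ∈ maximalIdeal O := hn
    have h4 : (1 : O) ∈ maximalIdeal O := by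
      have := Ideal.sub_mem _ h3 h2
      rwa [add_sub_cancel_right] at this
    exact (Ideal.ne_top_iff_one _).1 (maximalIdeal.isMaximal O).ne_top h4
  obtain ⟨z, hz, hGz⟩ := hensel_zero G G0 G1
  set y : O := z - 1 with hy
  set y' : O' := ⟨(y : K), h y.2⟩ with hy'
  refine ⟨t * y', Ideal.mul_mem_right _ _ htm, ?_⟩
  have e3 : 1 + y + y ^ 2 * q.eval y = 0 := by
    rw [hG] at hGz
    simp only [eval_add, eval_X, eval_mul, eval_pow, eval_sub, eval_one, eval_comp] at hGz
    rw [← hGz, hy]
    ring
  have e4 : 1 + y' + y' ^ 2 * E.eval y' = 0 := by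
    apply Subtype.val_injective
    have := congrArg (fun w : O => (w : K)) e3
    push_cast at this ⊢
    rw [← hm y y' rfl]
    exact this
  have e5 : E.eval y' = c * H.eval (t * y') := by
    rw [hE]
    simp [eval_comp]
  rw [e5] at e4
  have e6 : F.eval (t * y') = F.coeff 0 * (1 + y' + y' ^ 2 * (c * H.eval (t * y'))) := by
    conv_lhs => rw [hF]
    simp only [eval_add, eval_C, eval_mul, eval_X]
    have e7 : F.coeff 0 * c = t ^ 2 := by
      rw [← hte, hc, ← he]
      have : t * (e : O') * (t * ↑e⁻¹) = t ^ 2 * ((e : O') * ↑e⁻¹) := by ring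
      rw [this, Units.mul_inv, mul_one]
    have e8 : F.coeff 0 * (1 + y' + y' ^ 2 * (c * H.eval (t * y'))) =
        F.coeff 0 + F.coeff 0 * y' + y' ^ 2 * (F.coeff 0 * c) * H.eval (t * y') := by ring
    rw [e8, e7]
    have e9 : F.coeff 0 * y' = t * F.coeff 1 * y' := by rw [hte]
    rw [e9]
    ring
  rw [e6, e4, mul_zero]

/-- a coarsening of a Henselian valuation ring is Henselian. -/
theorem henselian_coarse38 {O O' : ValuationSubring K} (h : O ≤ O')
    (hO : HenselianLocalRing O) : HenselianLocalRing O' where
  is_henselian := by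
    intro f _ a h0 h1
    obtain ⟨x, hx1, hx2⟩ := coarse_zero38 h hO (f.comp (X + C a))
      (by simpa [coeff_zero_eq_eval_zero, eval_comp] using h0)
      (by
        have e : (f.comp (X + C a)).coeff 1 = f.derivative.eval a := by
          have e1 : (f.comp (X + C a)).derivative.coeff 0 = (f.comp (X + C a)).coeff 1 := by
            rw [coeff_derivative]
            simp
          rw [← e1, coeff_zero_eq_eval_zero]
          simp [derivative_comp, eval_comp]
        rw [e]
        exact h1)
    refine ⟨x + a, ?_, ?_⟩
    · rw [IsRoot.def]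
      simpa [eval_comp] using hx2
    · simpa using hx1

/-- the set of all `x` with `a x ^ n ∈ O` for all `n`, as a valuation ring -/
def bnd38 (O : ValuationSubring K) (a : K) (ha : a ∈ O) : ValuationSubring K :=
  O.ofLE
    { carrier := {x | ∀ n : ℕ, O.valuation (a * x ^ n) ≤ 1}
      mul_mem' := by
        intro x y hx hy n
        have key : ∀ u w : K, (∀ n : ℕ, O.valuation (a * w ^ n) ≤ 1) →
            O.valuation u ≤ O.valuation w → ∀ n : ℕ, O.valuation (a * (u * w) ^ n) ≤ 1 := by
          intro u w hw huw n
          refine le_trans ?_ (hw (2 * n))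
          rw [map_mul, map_mul, map_pow, map_pow, map_mul, pow_mul, sq]
          gcongr
        rcases le_total (O.valuation x) (O.valuation y) with h | h
        · exact key x y hy h n
        · rw [mul_comm x y]
          exact key y x hx h n
      one_mem' := by
        intro n
        rw [one_pow, mul_one]
        exact (O.valuation_le_one_iff a).2 ha
      add_mem' := by
        intro x y hx hy n
        rw [map_mul, map_pow]
        rcases le_max_iff.1 (O.valuation.map_add x y) with h | h
        · refine le_trans ?_ (hx n)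
          rw [map_mul, map_pow]
          gcongr
        · refine le_trans ?_ (hy n)
          rw [map_mul, map_pow]
          gcongr
      zero_mem' := by
        intro n
        refine le_trans ?_ ((O.valuation_le_one_iff a).2 ha)
        rw [map_mul, map_pow, map_zero]
        rcases Nat.eq_zero_or_pos n with rfl | hn
        · simp
        · rw [zero_pow hn.ne', mul_zero]
          exact zero_le
      neg_mem' := by
        intro x hx n
        rw [map_mul, map_pow, Valuation.map_neg, ← map_pow, ← map_mul]
        exact hx n }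
    (by
      intro x hx n
      rw [O.valuation_le_one_iff]
      exact O.mul_mem _ _ ha (pow_mem hx n))

theorem mem_bnd38 (O : ValuationSubring K) (a : K) (ha : a ∈ O) (x : K) :
    x ∈ bnd38 O a ha ↔ ∀ n : ℕ, a * x ^ n ∈ O := by
  constructor
  · intro h n
    exact (O.valuation_le_one_iff _).1 (h n)
  · intro h n
    exact (O.valuation_le_one_iff _).2 (h n)

/-- a subring `L` of `K` with `a L ⊆ O`, `a ≠ 0`, is contained in a proper coarsening of `O`. -/
theorem exists_coarse38 (O : ValuationSubring K) (hO : O ≠ ⊤) (hH : HenselianLocalRing O)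
    (L : Subring K) (a : K) (ha : a ≠ 0) (hL : ∀ x ∈ L, a * x ∈ O) :
    ∃ O' : ValuationSubring K, O' ≠ ⊤ ∧ HenselianLocalRing O' ∧ O ≤ O' ∧ ∀ x ∈ L, x ∈ O' := by
  have ha' : a ∈ O := by simpa using hL 1 L.one_mem
  have hle : O ≤ bnd38 O a ha' := by
    intro x hx
    rw [mem_bnd38]
    intro n
    exact O.mul_mem _ _ ha' (pow_mem hx n)
  refine ⟨bnd38 O a ha', ?_, henselian_coarse38 hle hH, hle, ?_⟩
  · intro htop
    apply hO
    apply ValuationSubring.ext
    intro x
    refine ⟨fun _ => ValuationSubring.mem_top x, fun _ => ?_⟩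
    have h1 : a⁻¹ * x ∈ bnd38 O a ha' := by
      rw [htop]
      exact ValuationSubring.mem_top _
    have h2 := (mem_bnd38 O a ha' _).1 h1 1
    rwa [pow_one, mul_inv_cancel_left₀ ha] at h2
  · intro x hx
    rw [mem_bnd38]
    intro n
    exact hL _ (L.pow_mem hx n)

end Coarse38

section Dom38

variable {A K : Type} [CommRing A] [IsDomain A] [IsLocalRing A] [Field K] [Algebra A K]

theorem integral_mem38 (O : ValuationSubring K) (hA : ∀ a : A, algebraMap A K a ∈ O) {x : K}
    (hx : IsIntegral A x) : x ∈ O := by
  have hx' : IsIntegral O x := by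
    obtain ⟨p, hp, h0⟩ := hx
    have hcomp : (algebraMap O K).comp ((algebraMap A K).codRestrict O hA) = algebraMap A K := by
      ext a
      rfl
    refine ⟨p.map ((algebraMap A K).codRestrict O hA), hp.map _, ?_⟩
    rw [eval₂_map, hcomp]
    exact h0
  obtain ⟨y, hy⟩ := (IsIntegrallyClosed.isIntegral_iff (R := O) (K := K)).1 hx'
  rw [← hy]
  exact y.2

/-- (E4) A unibranch local domain dominated by a Henselian valuation ring of the field is
Henselian. -/
theorem henselian_of_dominated38 [FaithfulSMul A K] (hS : IsLocalRing (integralClosure A K))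
    (O : ValuationSubring K) (hO : HenselianLocalRing O) (hA : ∀ a : A, algebraMap A K a ∈ O)
    (hdom : ∀ a ∈ maximalIdeal A, O.valuation (algebraMap A K a) < 1) :
    HenselianLocalRing A where
  is_henselian := by
    intro f hf a h0 h1
    set g : A →+* O := (algebraMap A K).codRestrict O hA with hg
    have hgK : ∀ a : A, ((g a : O) : K) = algebraMap A K a := fun a => rfl
    obtain ⟨r, hr1, hr2⟩ := hO.is_henselian (f.map g) (hf.map g) (g a)
      (by
        rw [eval_map_apply, O.valuation_lt_one_iff]
        exact hdom _ h0)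
      (by
        rw [derivative_map, eval_map_apply]
        exact h1.map g)
    have hr3 : aeval (r : K) f = 0 := by
      rw [IsRoot.def, eval_map] at hr1
      have h2 := congrArg (algebraMap O K) hr1
      rw [map_zero, hom_eval₂] at h2
      rw [aeval_def]
      exact h2
    have hint : IsIntegral A (r : K) := ⟨f, hf, by rwa [← aeval_def]⟩
    have hr4 : (⟨(r : K), hint⟩ : integralClosure A K) -
        algebraMap A (integralClosure A K) a ∈ maximalIdeal (integralClosure A K) := by
      by_contra hn
      have hu : IsUnit ((⟨(r : K), hint⟩ : integralClosure A K) -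
          algebraMap A (integralClosure A K) a) := by
        by_contra h3
        exact hn h3
      obtain ⟨s, hs⟩ := hu.exists_right_inv
      have hsO : (s : K) ∈ O := integral_mem38 O hA s.2
      have h4 : (r - g a) * (⟨(s : K), hsO⟩ : O) = 1 := by
        apply Subtype.val_injective
        have := congrArg (fun w : integralClosure A K => (w : K)) hs
        exact this
      exact hr2 (IsUnit.of_mul_eq_one _ h4)
    have hr5 : aeval (⟨(r : K), hint⟩ : integralClosure A K) f = 0 := by
      apply Subtype.val_injective
      have := Polynomial.aeval_algHom_apply (integralClosure A K).val ⟨(r : K), hint⟩ f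
      exact this.symm.trans hr3
    obtain ⟨a', h1', h2'⟩ := near_root_mem34' (S := integralClosure A K) f a h0 h1
      ⟨(r : K), hint⟩ hr4 hr5
    refine ⟨a', ?_, h1'⟩
    rw [IsRoot.def]
    apply inj_closure34 (A := A) (K := K)
    rw [map_zero, ← hr5, ← h2', aeval_algebraMap_apply]
    simp

end Dom38

section Loc38

variable {T K : Type} [CommRing T] [IsDomain T] [Field K] [Algebra T K] [IsFractionRing T K]

/-- the centre of a valuation ring containing `T` -/
def center38 (O : ValuationSubring K) (hT : ∀ x : T, algebraMap T K x ∈ O) : Ideal T :=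
  (maximalIdeal O).comap ((algebraMap T K).codRestrict O hT)

instance (O : ValuationSubring K) (hT : ∀ x : T, algebraMap T K x ∈ O) :
    (center38 O hT).IsPrime := Ideal.comap_isPrime _ _

theorem mem_center38 (O : ValuationSubring K) (hT : ∀ x : T, algebraMap T K x ∈ O) (x : T) :
    x ∈ center38 O hT ↔ O.valuation (algebraMap T K x) < 1 := by
  unfold center38
  rw [Ideal.mem_comap, O.valuation_lt_one_iff]
  rfl

theorem center_ne_bot38 (O : ValuationSubring K) (hO : O ≠ ⊤)
    (hT : ∀ x : T, algebraMap T K x ∈ O) : center38 O hT ≠ ⊥ := by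
  intro hbot
  apply hO
  apply ValuationSubring.ext
  intro x
  refine ⟨fun _ => ValuationSubring.mem_top x, fun _ => ?_⟩
  obtain ⟨u, w, hw, rfl⟩ := IsFractionRing.div_surjective (A := T) x
  have hw0 : w ≠ 0 := nonZeroDivisors.ne_zero hw
  have h1 : w ∉ center38 O hT := by
    rw [hbot]
    exact hw0
  rw [mem_center38, not_lt] at h1
  have h2 : O.valuation (algebraMap T K w) ≤ 1 := (O.valuation_le_one_iff _).2 (hT w)
  have h3 : O.valuation (algebraMap T K w) = 1 := le_antisymm h2 h1
  rw [← O.valuation_le_one_iff, map_div₀, h3, div_one]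
  exact (O.valuation_le_one_iff _).2 (hT u)

/-- (E4), for the localisation at the centre -/
theorem henselian_center38 (O : ValuationSubring K) (hO : HenselianLocalRing O)
    (hT : ∀ x : T, algebraMap T K x ∈ O) (A : Type) [CommRing A] [IsDomain A] [Algebra T A]
    [Algebra A K] [IsScalarTower T A K] (p : Ideal T) [p.IsPrime] [IsLocalization.AtPrime A p]
    [FaithfulSMul A K] (hp : p = center38 O hT) (hS : IsLocalRing (integralClosure A K)) :
    HenselianLocalRing A := by
  have hloc : IsLocalRing A := IsLocalization.AtPrime.isLocalRing A p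
  have hval : ∀ s : T, s ∉ p → O.valuation (algebraMap T K s) = 1 := by
    intro s hs
    rw [hp, mem_center38, not_lt] at hs
    exact le_antisymm ((O.valuation_le_one_iff _).2 (hT s)) hs
  have hform : ∀ a : A, ∃ (t : T) (s : T), s ∉ p ∧ a * algebraMap T A s = algebraMap T A t ∧
      O.valuation (algebraMap A K a) = O.valuation (algebraMap T K t) := by
    intro a
    obtain ⟨⟨t, s⟩, hts⟩ := IsLocalization.surj p.primeCompl a
    refine ⟨t, s, s.2, hts, ?_⟩
    have h1 := congrArg (algebraMap A K) hts
    rw [map_mul, ← IsScalarTower.algebraMap_apply, ← IsScalarTower.algebraMap_apply] at h1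
    rw [← h1, map_mul, hval s s.2, mul_one]
  refine henselian_of_dominated38 hS O hO ?_ ?_
  · intro a
    obtain ⟨t, s, _, _, h1⟩ := hform a
    rw [← O.valuation_le_one_iff, h1]
    exact (O.valuation_le_one_iff _).2 (hT t)
  · intro a ha
    obtain ⟨t, s, hs, hts, h1⟩ := hform a
    rw [h1, ← mem_center38 O hT, ← hp]
    by_contra ht
    have h2 : IsUnit (algebraMap T A t) := IsLocalization.map_units A (⟨t, ht⟩ : p.primeCompl)
    rw [← hts] at h2
    exact ha (isUnit_of_mul_isUnit_left h2)

/-- prime avoidance: if the elements outside `P ∪ Q` are units of `O`, the centre lies in `P` or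
in `Q` -/
theorem center_le_or38 (O : ValuationSubring K) (hT : ∀ x : T, algebraMap T K x ∈ O)
    (P Q : Ideal T) (h : ∀ x : T, x ∉ P → x ∉ Q → (algebraMap T K x)⁻¹ ∈ O) :
    center38 O hT ≤ P ∨ center38 O hT ≤ Q := by
  have h1 : (center38 O hT : Set T) ⊆ P ∪ Q := by
    intro x hx
    by_contra hn
    rw [Set.mem_union, not_or] at hn
    have h2 := (O.valuation_le_one_iff _).2 (h x hn.1 hn.2)
    have h3 := (mem_center38 O hT x).1 hx
    rw [map_inv₀] at h2
    have h4 : O.valuation (algebraMap T K x) ≠ 0 := by
      rw [Valuation.ne_zero_iff]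
      intro h5
      have h6 : x = 0 := (IsFractionRing.injective T K) (by rw [h5, map_zero])
      exact hn.1 (h6 ▸ P.zero_mem)
    have h7 : 1 ≤ O.valuation (algebraMap T K x) := by
      by_contra h8
      rw [not_le] at h8
      have h9 : 0 < O.valuation (algebraMap T K x) := lt_of_le_of_ne zero_le h4.symm
      exact absurd h2 (not_le.2 ((one_lt_inv₀ h9).2 h8))
    exact absurd h3 (not_lt.2 h7)
  exact (Ideal.subset_union).1 h1

end Loc38

end Pool.Agent.AIC
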