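import Pool.Agent.AIC.TheoremPF46

/-! MP_313bb4: isolating several primes of the closure; transfer between fraction fields. -/

set_option autoImplicit false

namespace Pool.Agent.AIC

open Finset Polynomial IsLocalRing

section isolate

/-- a finite extension which separates finitely many ideals of the closure -/
theorem exists_isolating_set {R F : Type} [CommRing R] [IsDomain R] [Field F] [Algebra R F]
    (S : Set (Ideal (integralClosure R F))) (hS : S.Finite) (E₀ : Set F) (hE₀ : E₀.Finite)
    (hint : ∀ x ∈ E₀, IsIntegral R x) :
    ∃ T : Subalgebra R F, Module.Finite R T ∧ E₀ ⊆ T ∧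
      ∀ (Q' : Ideal T) (N N' : Ideal (integralClosure T F)), Over Q' N → Over Q' N' →
        N.comap (closureMap R T F) ∈ S → N'.comap (closureMap R T F) ∈ S → N = N' := by
  classical
  have hsep : ∀ p : Ideal (integralClosure R F) × Ideal (integralClosure R F),
      ∃ e : integralClosure R F, p.1 ≠ p.2 → ¬ (e ∈ p.1 ↔ e ∈ p.2) := by
    intro p
    by_cases h : p.1 = p.2
    · exact ⟨0, fun h' => absurd h h'⟩
    · have h1 : ∃ e, ¬ (e ∈ p.1 ↔ e ∈ p.2) := by
        by_contra hcon
        push Not at hcon
        exact h (Ideal.ext hcon)
      obtain ⟨e, he⟩ := h1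
      exact ⟨e, fun _ => he⟩
  choose e he using hsep
  set E : Set F := E₀ ∪ ((fun p => (e p : F)) '' (S ×ˢ S)) with hE
  have hEfin : E.Finite := hE₀.union ((hS.prod hS).image _)
  have hEint : ∀ x ∈ E, IsIntegral R x := by
    intro x hx
    rcases hx with hx | ⟨N, -, rfl⟩
    · exact hint x hx
    · exact (e N).2
  set T := Algebra.adjoin R E with hT
  have hTfin : Module.Finite R T := Algebra.finite_adjoin_of_finite_of_isIntegral hEfin hEint
  haveI hTint : Algebra.IsIntegral R T := inferInstance
  refine ⟨T, hTfin, fun x hx => Algebra.subset_adjoin (Or.inl hx), ?_⟩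
  intro Q' N N' hN hN' hNS hNS'
  apply comap_injective (R := R)
  by_contra hne
  set A := N.comap (closureMap R T F) with hA
  set B := N'.comap (closureMap R T F) with hB
  apply he (A, B) hne
  have hzT : (e (A, B) : F) ∈ T := Algebra.subset_adjoin (Or.inr ⟨(A, B), ⟨hNS, hNS'⟩, rfl⟩)
  have h1 : ∀ M : Ideal (integralClosure T F), Over Q' M →
      (e (A, B) ∈ M.comap (closureMap R T F) ↔ (⟨(e (A, B) : F), hzT⟩ : T) ∈ Q') := by
    intro M hM
    rw [← hM.2, Ideal.mem_comap]
    exact Iff.rfl
  rw [h1 N hN, h1 N' hN']

/-- from a unique prime of the closure to a local integral closure in the fraction field -/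
theorem local_fraction_of_unique {T F : Type} [CommRing T] [IsDomain T] [Field F] [Algebra T F]
    [FaithfulSMul T F] (Q : Ideal T) [hQ : Q.IsPrime]
    (hu : ∀ N N' : Ideal (integralClosure T F), Over Q N → Over Q N' → N = N') :
    IsLocalRing (integralClosure (Localization.AtPrime Q) (FractionRing T)) := by
  obtain ⟨alg, htow, hinjA⟩ := exists_algebra_loc (T := T) (F := F) Q
  have hloc : IsLocalRing (integralClosure (Localization.AtPrime Q) F) :=
    local_of_unique Q (Localization.AtPrime Q) hu
  letI algE : Algebra (FractionRing T) F := (IsFractionRing.lift (K := FractionRing T)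
    (FaithfulSMul.algebraMap_injective T F)).toAlgebra
  have hE : ∀ t : T, algebraMap (FractionRing T) F (algebraMap T (FractionRing T) t) =
      algebraMap T F t := fun t => IsFractionRing.lift_algebraMap _ t
  haveI : IsScalarTower (Localization.AtPrime Q) (FractionRing T) F := by
    refine IsScalarTower.of_algebraMap_eq' ?_
    apply IsLocalization.ringHom_ext Q.primeCompl
    ext t
    change algebraMap (Localization.AtPrime Q) F (algebraMap T (Localization.AtPrime Q) t) =
      algebraMap (FractionRing T) F (algebraMap (Localization.AtPrime Q) (FractionRing T)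
        (algebraMap T (Localization.AtPrime Q) t))
    rw [← IsScalarTower.algebraMap_apply T (Localization.AtPrime Q) F,
      ← IsScalarTower.algebraMap_apply T (Localization.AtPrime Q) (FractionRing T), hE]
  exact local_closure_sub (E := FractionRing T) hloc

/-- the finiteness of the set of primes over `Q` does not depend on the fraction field -/
theorem over_finite_equiv {R K K' : Type} [CommRing R] [Field K] [Algebra R K] [Field K']
    [Algebra R K'] (e : K ≃ₐ[R] K') (Q : Ideal R)
    (h : {N : Ideal (integralClosure R K) | Over Q N}.Finite) :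
    {N : Ideal (integralClosure R K') | Over Q N}.Finite := by
  let f : integralClosure R K ≃ₐ[R] integralClosure R K' := e.mapIntegralClosure
  refine Set.Finite.subset (h.image fun N => N.comap (f.symm : integralClosure R K' →+* _)) ?_
  intro N hN
  haveI := hN.1
  refine ⟨N.comap (f : integralClosure R K →+* _), ⟨Ideal.comap_isPrime _ _, fun t => ?_⟩, ?_⟩
  · rw [Ideal.mem_comap, ← hN.2 t]
    have h1 : (f : integralClosure R K →+* integralClosure R K')
        (algebraMap R (integralClosure R K) t) = algebraMap R (integralClosure R K') t :=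
      f.commutes t
    rw [h1]
  · ext x
    rw [Ideal.mem_comap, Ideal.mem_comap]
    have h1 : (f : integralClosure R K →+* integralClosure R K')
        ((f.symm : integralClosure R K' →+* integralClosure R K) x) = x := f.apply_symm_apply x
    rw [h1]

/-- a prime of an integral extension over a given prime -/
theorem exists_prime_over {R T : Type} [CommRing R] [CommRing T] [IsDomain T] [Algebra R T]
    [Algebra.IsIntegral R T] (hinj : Function.Injective (algebraMap R T)) (P : Ideal R)
    [hP : P.IsPrime] : ∃ P' : Ideal T, P'.IsPrime ∧ ∀ r : R, algebraMap R T r ∈ P' ↔ r ∈ P := by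
  obtain ⟨P', -, hP'p, hP'c⟩ := Ideal.exists_ideal_over_prime_of_isIntegral
    (S := T) P (⊥ : Ideal T) (by
      intro x hx
      rw [Ideal.mem_comap, Ideal.mem_bot] at hx
      have : x = 0 := hinj (by rw [hx, map_zero])
      rw [this]
      exact P.zero_mem)
  exact ⟨P', hP'p, fun r => by rw [← Ideal.mem_comap, hP'c]⟩

end isolate

end Pool.Agent.AIC
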