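import Pool.Agent.AIC.TheoremK34

/-! MP_313bb4, stage 5: NIP domains whose integral closure in an algebraic closure of the fraction
field is semilocal are Henselian local rings. -/

set_option autoImplicit false

namespace Pool.Agent.AIC

open Finset Polynomial IsLocalRing

/-- If the elements of `T` separate the maximal ideals of the integral closure of `R` in `W`, then
the integral closures in `W` of the localizations of `T` at maximal ideals are local. -/
theorem isLocalRing_of_sep_plus34 {R W : Type} [CommRing R] [IsDomain R] [Field W] [Algebra R W]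
    [FaithfulSMul R W] (T : Subalgebra R W) (hT : T ≤ integralClosure R W)
    (hsep : ∀ n n' : Ideal (integralClosure R W), n.IsMaximal → n'.IsMaximal → n ≠ n' →
      ∃ e : T, Subalgebra.inclusion hT e ∈ n ∧ Subalgebra.inclusion hT e ∉ n')
    (M : Ideal T) [hM : M.IsMaximal]
    (A : Type) [CommRing A] [IsDomain A] [Algebra T A] [IsLocalization.AtPrime A M]
    [Algebra A W] [IsScalarTower T A W] :
    IsLocalRing (integralClosure A W) := by
  have hAl : IsLocalRing A := IsLocalization.AtPrime.isLocalRing A M
  have hint : ∀ s : integralClosure R W, IsIntegral A (s : W) := by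
    intro s
    have h0 : IsIntegral R (s : W) := s.2
    have h1 : IsIntegral T (s : W) := h0.tower_top
    exact h1.tower_top
  let ι : integralClosure R W →+* integralClosure A W :=
    { toFun := fun s => ⟨(s : W), hint s⟩
      map_one' := rfl
      map_mul' := fun a b => rfl
      map_zero' := rfl
      map_add' := fun a b => rfl }
  have hιt : ∀ t : T, ι (Subalgebra.inclusion hT t) =
      algebraMap A (integralClosure A W) (algebraMap T A t) := by
    intro t
    apply Subtype.ext
    change algebraMap T W t = algebraMap A W (algebraMap T A t)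
    rw [IsScalarTower.algebraMap_apply T A W]
  -- contraction to `T`
  have hcM : ∀ P : Ideal (integralClosure A W), P.IsMaximal → ∀ t : T,
      (Subalgebra.inclusion hT t ∈ P.comap ι ↔ t ∈ M) := by
    intro P hP t
    have hmax : (P.comap (algebraMap A (integralClosure A W))).IsMaximal :=
      Ideal.isMaximal_comap_of_isIntegral_of_isMaximal P
    have hP' := IsLocalRing.eq_maximalIdeal hmax
    rw [Ideal.mem_comap, hιt, ← Ideal.mem_comap, hP']
    exact IsLocalization.AtPrime.to_map_mem_maximal_iff A M t
  have hmax : ∀ P : Ideal (integralClosure A W), P.IsMaximal → (P.comap ι).IsMaximal := by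
    intro P hP
    have hPp : (P.comap ι).IsPrime := Ideal.comap_isPrime ι P
    refine Ideal.isMaximal_of_isIntegral_of_isMaximal_comap'
      (Subalgebra.inclusion hT).toRingHom ?_ (P.comap ι) ?_
    · have h1 : (algebraMap R (integralClosure R W)).IsIntegral := fun s =>
        integralClosure.isIntegral s
      exact RingHom.IsIntegral.tower_top (algebraMap R T) (Subalgebra.inclusion hT).toRingHom h1
    · have : (P.comap ι).comap (Subalgebra.inclusion hT).toRingHom = M := by
        ext t
        exact hcM P hP t
      rw [this]
      exact hM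
  have huniq : ∀ P Q : Ideal (integralClosure A W), P.IsMaximal → Q.IsMaximal → P = Q := by
    intro P Q hP hQ
    have hPQ : P.comap ι = Q.comap ι := by
      by_contra hne
      obtain ⟨e, he1, he2⟩ := hsep _ _ (hmax P hP) (hmax Q hQ) hne
      exact he2 ((hcM Q hQ e).2 ((hcM P hP e).1 he1))
    refine hP.eq_of_le hQ.ne_top fun b hb => ?_
    obtain ⟨s, hs⟩ := IsIntegral.exists_multiple_integral_of_isLocalization M.primeCompl
      (Rₘ := A) (b : W) b.2
    have hk' : IsIntegral R (s • (b : W)) := by
      have hTint : Algebra.IsIntegral R T := ⟨fun t => by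
        have h0 : IsIntegral R (algebraMap T W t) := hT t.2
        rwa [isIntegral_algebraMap_iff (FaithfulSMul.algebraMap_injective T W)] at h0⟩
      exact isIntegral_trans (R := R) (A := T) _ hs
    have hι : ι ⟨s • (b : W), hk'⟩ = ι (Subalgebra.inclusion hT s) * b := by
      apply Subtype.ext
      change s • (b : W) = algebraMap T W s * (b : W)
      exact Algebra.smul_def (R := T) (s : T) (b : W)
    have h1 : (⟨s • (b : W), hk'⟩ : integralClosure R W) ∈ P.comap ι := by
      rw [Ideal.mem_comap, hι]
      exact P.mul_mem_left _ hb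
    rw [hPQ, Ideal.mem_comap, hι] at h1
    rcases hQ.isPrime.mem_or_mem h1 with h2 | h2
    · exact absurd ((hcM Q hQ s).1 h2) s.2
    · exact h2
  have hnt : Nontrivial (integralClosure A W) := inferInstance
  obtain ⟨P, hP⟩ := Ideal.exists_maximal (integralClosure A W)
  exact IsLocalRing.of_unique_max_ideal ⟨P, hP, fun Q hQ => huniq Q P hQ hP⟩

open FirstOrder FirstOrder.Ring in
/-- a module-finite subalgebra of an extension field of the fraction field of an NIP domain is NIP -/
theorem nip_subalgebra_plus34 {R K W : Type} [CommRing R] [IsDomain R] [Field K] [Algebra R K]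
    [IsFractionRing R K] [Field W] [Algebra R W] [Algebra K W] [IsScalarTower R K W]
    [CompatibleRing R] (T : Subalgebra R W) [Module.Finite R T]
    [CompatibleRing T] (hR : NIPRing R) : NIPRing T := by
  classical
  have hinj := IsFractionRing.injective R K
  obtain ⟨n, g, hg⟩ := Module.Finite.exists_fin (R := R) (M := T)
  -- the `K`-span
  let V : Submodule K W := Submodule.span K (Set.range fun d : Fin n => ((g d : T) : W))
  have hVf : Module.Finite K V := Module.Finite.span_of_finite K (Set.finite_range _)
  have hTV : ∀ x : T, (x : W) ∈ V := by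
    intro x
    have hx : x ∈ Submodule.span R (Set.range g) := by
      rw [hg]
      exact Submodule.mem_top
    obtain ⟨a, ha⟩ := (Submodule.mem_span_range_iff_exists_fun R).mp hx
    have hc : ((∑ i, a i • g i : T) : W) = ∑ i, a i • ((g i : T) : W) := by
      simp
    rw [← ha, hc]
    refine Submodule.sum_mem _ fun i _ => ?_
    rw [← algebraMap_smul K (a i) ((g i : T) : W)]
    exact Submodule.smul_mem _ _ (Submodule.subset_span ⟨i, rfl⟩)
  let b := Module.finBasis K V
  -- coordinates
  let co : T → Fin (Module.finrank K V) → K := fun x j => b.repr ⟨(x : W), hTV x⟩ j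
  have co_add : ∀ x y j, co (x + y) j = co x j + co y j := by
    intro x y j
    have : (⟨((x + y : T) : W), hTV (x + y)⟩ : V) = ⟨(x : W), hTV x⟩ + ⟨(y : W), hTV y⟩ := rfl
    show b.repr ⟨((x + y : T) : W), hTV (x + y)⟩ j = _
    rw [this, map_add]
    rfl
  have co_smul : ∀ (r : R) x j, co (r • x) j = algebraMap R K r * co x j := by
    intro r x j
    have : (⟨((r • x : T) : W), hTV (r • x)⟩ : V) = (algebraMap R K r) • ⟨(x : W), hTV x⟩ := by
      apply Subtype.ext
      show r • (x : W) = (algebraMap R K r) • (x : W)
      rw [algebraMap_smul]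
    show b.repr ⟨((r • x : T) : W), hTV (r • x)⟩ j = _
    rw [this, map_smul]
    rfl
  have co_sum : ∀ (a : Fin n → R) j, co (∑ i, a i • g i) j = ∑ i, algebraMap R K (a i) * co (g i) j := by
    intro a j
    let f : T →+ K :=
      { toFun := fun x => co x j
        map_zero' := by
          have h0 := co_smul 0 0 j
          rw [zero_smul, map_zero, zero_mul] at h0
          exact h0
        map_add' := fun x y => co_add x y j }
    have h1 := map_sum f (fun i => a i • g i) Finset.univ
    refine h1.trans (Finset.sum_congr rfl fun i _ => ?_)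
    exact co_smul (a i) (g i) j
  have co_inj : ∀ x y : T, (∀ j, co x j = co y j) → x = y := by
    intro x y hxy
    have h1 : b.repr ⟨(x : W), hTV x⟩ = b.repr ⟨(y : W), hTV y⟩ := Finsupp.ext hxy
    have h2 := b.repr.injective h1
    exact Subtype.ext (congrArg (fun z : V => (z : W)) h2)
  obtain ⟨h, hh⟩ := IsLocalization.exist_integer_multiples_of_finset (nonZeroDivisors R)
    ((Finset.univ : Finset (Fin n × Fin (Module.finrank K V))).image fun d => co (g d.1) d.2)
  have hh0 : (h : R) ≠ 0 := nonZeroDivisors.coe_ne_zero h
  have hint : ∀ (x : T) j, ∃ r : R, algebraMap R K r = algebraMap R K (h : R) * co x j := by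
    intro x j
    have hx : x ∈ Submodule.span R (Set.range g) := by
      rw [hg]
      exact Submodule.mem_top
    obtain ⟨a, ha⟩ := (Submodule.mem_span_range_iff_exists_fun R).mp hx
    have h1 : ∀ d : Fin n, ∃ r : R, algebraMap R K r = (h : R) • co (g d) j := by
      intro d
      obtain ⟨r, hr⟩ := hh _ (Finset.mem_image_of_mem _ (Finset.mem_univ (d, j)))
      exact ⟨r, hr⟩
    choose r hr using h1
    refine ⟨∑ d, a d * r d, ?_⟩
    rw [← ha, co_sum, map_sum, Finset.mul_sum]
    refine Finset.sum_congr rfl fun d _ => ?_
    rw [map_mul, hr d, Algebra.smul_def]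
    ring
  choose s hs using hint
  let l : T →ₗ[R] (Fin (Module.finrank K V) → R) :=
    { toFun := fun x j => s x j
      map_add' := by
        intro x y
        funext j
        apply hinj
        show algebraMap R K (s (x + y) j) = algebraMap R K (s x j + s y j)
        rw [hs, map_add, hs, hs, co_add, mul_add]
      map_smul' := by
        intro r x
        funext j
        apply hinj
        show algebraMap R K (s (r • x) j) = algebraMap R K (r * s x j)
        rw [hs, map_mul, hs, co_smul]
        ring }
  refine nip_of_linear l (fun x y hxy => ?_) hR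
  refine co_inj x y fun j => ?_
  have h1 : s x j = s y j := congrFun hxy j
  have h2 := congrArg (algebraMap R K) h1
  rw [hs, hs] at h2
  have h3 : algebraMap R K (h : R) ≠ 0 := by
    rw [Ne, map_eq_zero_iff _ hinj]
    exact hh0
  exact mul_left_cancel₀ h3 h2

/-- Theorem R+: an NIP domain with infinite residue fields at its maximal ideals whose integral
closure in an algebraically closed extension `W` of its fraction field is semilocal is a Henselian
local ring. -/
theorem theoremPlus {R K W : Type} [CommRing R] [IsDomain R] [FirstOrder.Ring.CompatibleRing R]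
    [Field K] [Algebra R K] [IsFractionRing R K] [Field W] [Algebra R W] [Algebra K W]
    [IsScalarTower R K W] [IsAlgClosed W]
    (hN : NIPRing R)
    (hfin : {n : Ideal (integralClosure R W) | n.IsMaximal}.Finite)
    (hinf : ∀ M : Ideal R, M.IsMaximal → Infinite (R ⧸ M)) : HenselianLocalRing R := by
  classical
  have hRW : Function.Injective (algebraMap R W) := by
    rw [IsScalarTower.algebraMap_eq R K W]
    exact (algebraMap K W).injective.comp (IsFractionRing.injective R K)
  have hfs : FaithfulSMul R W := (faithfulSMul_iff_algebraMap_injective R W).2 hRW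
  obtain ⟨z2, hz2i, hz2⟩ := exists_zeta34 (R := R) (K := W) 2 (by norm_num)
  obtain ⟨z3, hz3i, hz3⟩ := exists_zeta34 (R := R) (K := W) 3 (by norm_num)
  obtain ⟨z5, hz5i, hz5⟩ := exists_zeta34 (R := R) (K := W) 5 (by norm_num)
  -- separating elements
  have hsep : ∀ q : {n : Ideal (integralClosure R W) // n.IsMaximal} ×
      {n : Ideal (integralClosure R W) // n.IsMaximal},
      ∃ e : integralClosure R W, q.1 ≠ q.2 → e ∈ q.1.1 ∧ e ∉ q.2.1 := by
    rintro ⟨⟨n, hn⟩, ⟨n', hn'⟩⟩
    by_cases h : n = n'
    · exact ⟨0, fun h' => absurd (Subtype.ext h) h'⟩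
    · have hle : ¬ n ≤ n' := fun hle => h (hn.eq_of_le hn'.ne_top hle)
      obtain ⟨e, he, he'⟩ := SetLike.not_le_iff_exists.1 hle
      exact ⟨e, fun _ => ⟨he, he'⟩⟩
  choose e he using hsep
  have hfin' : Finite {n : Ideal (integralClosure R W) // n.IsMaximal} := hfin.to_subtype
  obtain ⟨G, hGdef⟩ : ∃ G : Set W, G = ({z2, z3, z5} : Set W) ∪ Set.range fun q => (e q : W) :=
    ⟨_, rfl⟩
  have hG : G.Finite := by
    rw [hGdef]
    exact (Set.toFinite _).union (Set.finite_range _)
  have hGi : ∀ x ∈ G, IsIntegral R x := by
    intro x hx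
    rw [hGdef] at hx
    rcases hx with hx | ⟨q, rfl⟩
    · rcases hx with rfl | rfl | rfl
      · exact hz2i
      · exact hz3i
      · exact hz5i
    · exact (e q).2
  have hTle : Algebra.adjoin R G ≤ integralClosure R W := Algebra.adjoin_le hGi
  have hTfin : Module.Finite R (Algebra.adjoin R G) :=
    ⟨(Submodule.fg_top _).2 (fg_adjoin_of_finite hG hGi)⟩
  have hz2G : z2 ∈ Algebra.adjoin R G := Algebra.subset_adjoin (by rw [hGdef]; simp)
  have hz3G : z3 ∈ Algebra.adjoin R G := Algebra.subset_adjoin (by rw [hGdef]; simp)
  have hz5G : z5 ∈ Algebra.adjoin R G := Algebra.subset_adjoin (by rw [hGdef]; simp)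
  have heG : ∀ q, (e q : W) ∈ Algebra.adjoin R G := fun q =>
    Algebra.subset_adjoin (by rw [hGdef]; exact Or.inr ⟨q, rfl⟩)
  obtain ⟨T, hTdef⟩ : ∃ T : Subalgebra R W, T = Algebra.adjoin R G := ⟨_, rfl⟩
  rw [← hTdef] at hTle hTfin hz2G hz3G hz5G heG
  have hTsep : ∀ n n' : Ideal (integralClosure R W), n.IsMaximal → n'.IsMaximal → n ≠ n' →
      ∃ e : T, Subalgebra.inclusion hTle e ∈ n ∧ Subalgebra.inclusion hTle e ∉ n' := by
    intro n n' hn hn' hne
    have h := he (⟨n, hn⟩, ⟨n', hn'⟩) (fun h => hne (congrArg Subtype.val h))
    exact ⟨⟨(e (⟨n, hn⟩, ⟨n', hn'⟩) : W), heG _⟩, h.1, h.2⟩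
  let _ : FirstOrder.Ring.CompatibleRing T := FirstOrder.Ring.compatibleRingOfRing T
  have hNT : NIPRing T := nip_subalgebra_plus34 (K := K) T hN
  have hTint : Algebra.IsIntegral R T := Algebra.IsIntegral.of_finite R T
  have hζ : ∀ q : ℕ, (q = 2 ∨ q = 3 ∨ q = 5) → ∃ ζ : T, ∑ j ∈ range q, ζ ^ j = 0 := by
    have aux : ∀ (q : ℕ) (z : W) (hz : z ∈ T), ∑ j ∈ range q, z ^ j = 0 →
        ∃ ζ : T, ∑ j ∈ range q, ζ ^ j = 0 := by
      intro q z hz h
      refine ⟨⟨z, hz⟩, ?_⟩
      apply Subtype.val_injective
      rw [AddSubmonoidClass.coe_finsetSum]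
      exact h
    rintro q (rfl | rfl | rfl)
    · exact aux 2 z2 hz2G hz2
    · exact aux 3 z3 hz3G hz3
    · exact aux 5 z5 hz5G hz5
  have hhens : ∀ (M : Ideal T) [M.IsMaximal], HenselianLocalRing (Localization.AtPrime M) := by
    intro M hM
    have key : ∀ (A : Type) [CommRing A] [IsDomain A] [Algebra T A] [IsLocalization.AtPrime A M],
        HenselianLocalRing A := by
      intro A _ _ _ _
      have h1 : IsLocalRing A := IsLocalization.AtPrime.isLocalRing A M
      have hu : ∀ s : M.primeCompl, IsUnit (algebraMap T W s) := by
        intro s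
        rw [isUnit_iff_ne_zero]
        intro h0
        have h2 : (s : T) = 0 := FaithfulSMul.algebraMap_injective T W (by rw [h0, map_zero])
        exact s.2 (by rw [h2]; exact M.zero_mem)
      let φ : A →+* W := IsLocalization.lift (M := M.primeCompl) hu
      have hφ : ∀ t : T, φ (algebraMap T A t) = algebraMap T W t := fun t =>
        IsLocalization.lift_eq hu t
      let _ : Algebra A W := φ.toAlgebra
      have hst : IsScalarTower T A W := IsScalarTower.of_algebraMap_eq fun t => (hφ t).symm
      have hinjA : Function.Injective (algebraMap A W) := by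
        rw [injective_iff_map_eq_zero]
        intro x hx
        obtain ⟨a, s, rfl⟩ := IsLocalization.exists_mk'_eq M.primeCompl x
        have h3 : IsLocalization.mk' A a s * algebraMap T A s = algebraMap T A a :=
          IsLocalization.mk'_spec A a s
        have h4 : algebraMap T W a = 0 := by
          rw [← hφ, ← h3, map_mul]
          have h5 : φ (IsLocalization.mk' A a s) = 0 := hx
          rw [h5, zero_mul]
        have h6 : a = 0 := FaithfulSMul.algebraMap_injective T W (by rw [h4, map_zero])
        rw [h6, IsLocalization.mk'_zero]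
      have hfA : FaithfulSMul A W := (faithfulSMul_iff_algebraMap_injective A W).2 hinjA
      exact henselian_of_unibranch34 (K := W) (isLocalRing_of_sep_plus34 T hTle hTsep M A)
    exact key _
  have hTinf : ∀ N : Ideal T, N.IsMaximal → Infinite (T ⧸ N) := by
    intro N hNmax
    have h1 : (N.comap (algebraMap R T)).IsMaximal :=
      Ideal.isMaximal_comap_of_isIntegral_of_isMaximal N
    have h2 := hinf _ h1
    exact Infinite.of_injective (Ideal.quotientMap N (algebraMap R T) le_rfl)
      Ideal.quotientMap_injective
  obtain ⟨M₀, hM₀⟩ := Ideal.exists_maximal T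
  have hTh : HenselianLocalRing T := by
    refine theoremHstar T hNT M₀ (hhens M₀) ?_
    intro N hNmax _
    obtain ⟨q, hq, hq1, hq2⟩ := exists_q34 M₀ N hM₀ hNmax
    refine ⟨Or.inr (hhens N), hTinf _ hM₀, hTinf _ hNmax, q, ?_, hq1, hq2, hζ q hq⟩
    rcases hq with rfl | rfl | rfl <;> norm_num
  -- the integral closure is local
  have hTl : IsLocalRing T := inferInstance
  have hAt : IsLocalization.AtPrime T (maximalIdeal T) := by
    refine IsLocalization.self ?_
    intro x hx
    by_contra hn
    exact hx hn
  have hU2 : IsLocalRing (integralClosure T W) :=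
    isLocalRing_of_sep_plus34 T hTle hTsep (maximalIdeal T) T
  have hU3 : IsLocalRing (integralClosure R W) := by
    let j : integralClosure R W →+* integralClosure T W :=
      { toFun := fun s => ⟨(s : W), by
          have h0 : IsIntegral R (s : W) := s.2
          exact h0.tower_top⟩
        map_one' := rfl
        map_mul' := fun _ _ => rfl
        map_zero' := rfl
        map_add' := fun _ _ => rfl }
    have hj : Function.Bijective j := by
      constructor
      · intro x y hxy
        exact Subtype.ext (congrArg (fun z : integralClosure T W => (z : W)) hxy)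
      · intro y
        have h0 : IsIntegral T (y : W) := y.2
        exact ⟨⟨(y : W), isIntegral_trans (R := R) (A := T) _ h0⟩, Subtype.ext rfl⟩
    exact (RingEquiv.ofBijective j hj).symm.isLocalRing
  have hRl : IsLocalRing R := by
    have hinj : Function.Injective (algebraMap R (integralClosure R W)) := by
      intro x y hxy
      apply hRW
      exact congrArg (fun z : integralClosure R W => (z : W)) hxy
    have h1 : IsLocalHom (algebraMap R (integralClosure R W)) :=
      RingHom.IsIntegral.isLocalHom (algebraMap_isIntegral_iff.mpr inferInstance) hinj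
    exact RingHom.domain_isLocalRing (algebraMap R (integralClosure R W))
  exact henselian_of_unibranch34 (K := W) hU3

end Pool.Agent.AIC
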