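import Mathlib
import Pool.Agent.AIC.Isolate46
import Pool.Agent.AIC.TheoremPlus34

/-!
# Lemmas for Theorem F

`hens_of_unique82` : one prime over `P` in the absolute integral closure gives a henselian
localization; `hens_of_pairs82` : it is enough that any two primes over `P` of a finite extension
are comparable; `exists_order82` : a finite extension of the fraction field is the fraction field
of a finite extension.
-/

set_option autoImplicit false
set_option linter.style.haveILetI false

namespace Pool.Agent.AIC

open Finset Polynomial IsLocalRing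

/-- primes of an integral extension over the same prime are incomparable. -/
theorem eq_of_le_over82 {R T : Type} [CommRing R] [CommRing T] [Algebra R T]
    [Algebra.IsIntegral R T] (P : Ideal R) (M₁ M₂ : Ideal T) [M₁.IsPrime]
    (h₁ : ∀ a, algebraMap R T a ∈ M₁ ↔ a ∈ P) (h₂ : ∀ a, algebraMap R T a ∈ M₂ ↔ a ∈ P)
    (hle : M₁ ≤ M₂) : M₁ = M₂ := by
  by_contra hne
  have hlt := Ideal.IsIntegral.comap_lt_comap (R := R) (lt_of_le_of_ne hle hne)
  exact hlt.ne (by
    ext a
    rw [Ideal.mem_comap, Ideal.mem_comap, h₁, h₂])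

theorem comap_eq_of_over82 {R T : Type} [CommRing R] [CommRing T] [Algebra R T]
    (P : Ideal R) (M : Ideal T) (h : ∀ a, algebraMap R T a ∈ M ↔ a ∈ P) :
    M.comap (algebraMap R T) = P := by
  ext a
  rw [Ideal.mem_comap, h]

/-- one prime over `P` in the absolute integral closure gives a henselian localization. -/
theorem hens_of_unique82 {T W : Type} [CommRing T] [IsDomain T] [Field W] [IsAlgClosed W]
    [Algebra T W] [FaithfulSMul T W] (P : Ideal T) [P.IsPrime]
    (hu : ∀ N N' : Ideal (integralClosure T W), Over P N → Over P N' → N = N') :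
    HenselianLocalRing (Localization.AtPrime P) := by
  obtain ⟨alg, htow, hinjA⟩ := exists_algebra_loc (T := T) (F := W) P
  haveI : FaithfulSMul (Localization.AtPrime P) W :=
    (faithfulSMul_iff_algebraMap_injective _ _).mpr hinjA
  haveI : IsDomain (Localization.AtPrime P) :=
    IsLocalization.isDomain_localization P.primeCompl_le_nonZeroDivisors
  have hloc : IsLocalRing (integralClosure (Localization.AtPrime P) W) :=
    local_of_unique P (Localization.AtPrime P) hu
  exact henselian_of_unibranch34 hloc

/-- it is enough that any two primes over `P` of a finite extension are comparable. -/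
theorem hens_of_pairs82 {T W : Type} [CommRing T] [IsDomain T] [Field W] [IsAlgClosed W]
    [Algebra T W] [FaithfulSMul T W] (P : Ideal T) [P.IsPrime]
    (hpairs : ∀ T' : Subalgebra T W, Module.Finite T T' → ∀ M₁ M₂ : Ideal T', M₁.IsPrime →
      M₂.IsPrime → (∀ a, algebraMap T T' a ∈ M₁ ↔ a ∈ P) → (∀ a, algebraMap T T' a ∈ M₂ ↔ a ∈ P) →
      M₁ ≤ M₂ ∨ M₂ ≤ M₁) :
    HenselianLocalRing (Localization.AtPrime P) := by
  refine hens_of_unique82 (W := W) P fun N N' hN1 hN2 => ?_
  by_contra hne
  have hnle : ¬ N ≤ N' := fun hle => hne (over_eq_of_le P N N' hN1 hN2 hle)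
  obtain ⟨z, hz, hz'⟩ := SetLike.not_le_iff_exists.1 hnle
  have hzint : ∀ x ∈ ({(z : W)} : Set W), IsIntegral T x := by
    intro x hx
    rw [Set.mem_singleton_iff.1 hx]
    exact z.2
  obtain ⟨T', hT'⟩ : ∃ T' : Subalgebra T W, T' = Algebra.adjoin T {(z : W)} := ⟨_, rfl⟩
  have hfin : Module.Finite T T' := by
    rw [hT']
    exact Module.Finite.iff_fg.2 (fg_adjoin_of_finite (Set.finite_singleton _) hzint)
  have hle : T' ≤ integralClosure T W := by
    rw [hT']
    exact Algebra.adjoin_le hzint
  have hzT : (z : W) ∈ T' := by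
    rw [hT']
    exact Algebra.subset_adjoin (Set.mem_singleton _)
  set g : T' →+* integralClosure T W := (Subalgebra.inclusion hle).toRingHom with hg
  haveI := hN1.1
  haveI := hN2.1
  haveI h1p : (N.comap g).IsPrime := Ideal.comap_isPrime g N
  haveI h2p : (N'.comap g).IsPrime := Ideal.comap_isPrime g N'
  have h1 : ∀ a, algebraMap T T' a ∈ N.comap g ↔ a ∈ P := fun a => hN1.2 a
  have h2 : ∀ a, algebraMap T T' a ∈ N'.comap g ↔ a ∈ P := fun a => hN2.2 a
  have hz1 : (⟨(z : W), hzT⟩ : T') ∈ N.comap g := hz
  have hz2 : (⟨(z : W), hzT⟩ : T') ∉ N'.comap g := hz'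
  rcases hpairs T' hfin (N.comap g) (N'.comap g) h1p h2p h1 h2 with h3 | h3
  · exact hz2 (h3 hz1)
  · have h4 := eq_of_le_over82 P _ _ h2 h1 h3
    rw [h4] at hz2
    exact hz2 hz1

/-- a finite extension of the fraction field is the fraction field of a finite extension. -/
theorem exists_order82 {R K F : Type} [CommRing R] [IsDomain R] [Field K] [Algebra R K]
    [IsFractionRing R K] [Field F] [Algebra K F] [Algebra R F] [IsScalarTower R K F]
    [FiniteDimensional K F] :
    ∃ T : Subalgebra R F, Module.Finite R T ∧ IsFractionRing T F := by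
  classical
  have hinj : Function.Injective (algebraMap R F) := by
    rw [IsScalarTower.algebraMap_eq R K F]
    exact (algebraMap K F).injective.comp (IsFractionRing.injective R K)
  let b := Module.finBasis K F
  have halg : ∀ i, IsAlgebraic R (b i) := fun i => by
    have h1 : IsAlgebraic K (b i) := Algebra.IsAlgebraic.isAlgebraic _
    exact (IsFractionRing.isAlgebraic_iff R K F).2 h1
  choose r hr hint using fun i => (halg i).exists_integral_multiple
  set s : Set F := Set.range fun i => r i • b i with hs
  have hsint : ∀ x ∈ s, IsIntegral R x := by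
    rintro _ ⟨i, rfl⟩
    exact hint i
  obtain ⟨T, hT⟩ : ∃ T : Subalgebra R F, T = Algebra.adjoin R s := ⟨_, rfl⟩
  have hfin : Module.Finite R T := by
    rw [hT]
    exact Module.Finite.iff_fg.2 (fg_adjoin_of_finite (Set.finite_range _) hsint)
  have hbT : ∀ i, r i • b i ∈ T := fun i => by
    rw [hT]
    exact Algebra.subset_adjoin ⟨i, rfl⟩
  -- every element has a nonzero multiple in `T`
  have key : ∀ x : F, ∃ a : R, a ≠ 0 ∧ a • x ∈ T := by
    intro x
    have hx := b.mem_span x
    induction hx using Submodule.span_induction with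
    | mem x hx =>
      obtain ⟨i, rfl⟩ := hx
      exact ⟨r i, hr i, hbT i⟩
    | zero => exact ⟨1, one_ne_zero, by rw [smul_zero]; exact T.zero_mem⟩
    | add x y _ _ hx hy =>
      obtain ⟨a, ha, hax⟩ := hx
      obtain ⟨c, hc, hcy⟩ := hy
      refine ⟨a * c, mul_ne_zero ha hc, ?_⟩
      rw [smul_add]
      refine T.add_mem ?_ ?_
      · rw [mul_comm, mul_smul]
        exact T.smul_mem hax _
      · rw [mul_smul]
        exact T.smul_mem hcy _
    | smul k x _ hx =>
      obtain ⟨a, ha, hax⟩ := hx
      obtain ⟨u, v, hv, rfl⟩ := IsFractionRing.div_surjective (A := R) k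
      refine ⟨v * a, mul_ne_zero (nonZeroDivisors.ne_zero hv) ha, ?_⟩
      have hv0 : algebraMap R K v ≠ 0 := by
        intro h
        exact nonZeroDivisors.ne_zero hv (IsFractionRing.injective R K (by rw [h, map_zero]))
      have h1 : (v * a) • ((algebraMap R K u / algebraMap R K v) • x) = u • (a • x) := by
        rw [← algebraMap_smul K (v * a), ← algebraMap_smul K u, ← algebraMap_smul K a, smul_smul,
          smul_smul, map_mul]
        congr 1
        field_simp
      rw [h1]
      exact T.smul_mem hax _
  refine ⟨T, hfin, ?_⟩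
  haveI : FaithfulSMul T F :=
    (faithfulSMul_iff_algebraMap_injective _ _).mpr Subtype.val_injective
  refine IsFractionRing.of_field _ _ fun z => ?_
  obtain ⟨a, ha, haz⟩ := key z
  refine ⟨⟨a • z, haz⟩, algebraMap R T a, ?_⟩
  have h1 : algebraMap T F (algebraMap R T a) = algebraMap R F a := rfl
  have h2 : algebraMap T F ⟨a • z, haz⟩ = algebraMap R F a * z := Algebra.smul_def a z
  have h3 : algebraMap R F a ≠ 0 := fun h => ha (hinj (by rw [h, map_zero]))
  rw [h1, h2, mul_div_cancel_left₀ _ h3]

end Pool.Agent.AIC
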