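import Pool.Agent.AIC.InterpLin83

/-! MP_313bb4: module-finite subalgebras of field extensions of the fraction field of an NIP
domain are NIP. -/

set_option autoImplicit false

namespace Pool.Agent.AIC

open Set FirstOrder FirstOrder.Language FirstOrder.Ring

/-- a module-finite `R`-subalgebra of a field has an injective linear map to a finite power
of `R` -/
theorem exists_linear_embedding {R K W : Type} [CommRing R] [IsDomain R] [Field K] [Algebra R K]
    [IsFractionRing R K] [Field W] [Algebra K W] [Algebra R W] [IsScalarTower R K W]
    (T : Subalgebra R W) [Module.Finite R T] :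
    ∃ (N : Type) (_ : Finite N) (l : T →ₗ[R] (N → R)), Function.Injective l := by
  classical
  have hinj := IsFractionRing.injective R K
  obtain ⟨n, g, hg⟩ := Module.Finite.exists_fin (R := R) (M := T)
  -- the K-span of T
  let V : Submodule K W := Submodule.span K (Set.range fun d : Fin n => ((g d : T) : W))
  have hVfin : Module.Finite K V := Module.Finite.span_of_finite K (Set.finite_range _)
  have hTV : ∀ x : T, (x : W) ∈ V := by
    intro x
    have hx : x ∈ Submodule.span R (Set.range g) := by
      rw [hg]
      exact Submodule.mem_top
    obtain ⟨a, ha⟩ := (Submodule.mem_span_range_iff_exists_fun R).mp hx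
    have hc : (x : W) = ∑ i, a i • ((g i : T) : W) := by
      rw [← ha]
      simp
    rw [hc]
    refine Submodule.sum_mem _ fun i _ => ?_
    rw [← algebraMap_smul K (a i)]
    exact Submodule.smul_mem _ _ (Submodule.subset_span ⟨i, rfl⟩)
  let b := Module.finBasis K V
  let N := Fin (Module.finrank K V)
  -- the coordinates as an R-linear map
  let c : T →ₗ[R] (N → K) :=
    { toFun := fun x j => b.repr ⟨(x : W), hTV x⟩ j
      map_add' := by
        intro x y
        funext j
        have : (⟨((x + y : T) : W), hTV (x + y)⟩ : V) = ⟨(x : W), hTV x⟩ + ⟨(y : W), hTV y⟩ := rfl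
        rw [this, map_add]
        rfl
      map_smul' := by
        intro r x
        funext j
        have : (⟨((r • x : T) : W), hTV (r • x)⟩ : V) = (algebraMap R K r) • ⟨(x : W), hTV x⟩ := by
          apply Subtype.ext
          show ((r • x : T) : W) = (algebraMap R K r) • (x : W)
          rw [algebraMap_smul]
          rfl
        rw [this, map_smul]
        show (algebraMap R K r) • (b.repr ⟨(x : W), hTV x⟩ j) = r • (b.repr ⟨(x : W), hTV x⟩ j)
        rw [algebraMap_smul] }
  have hc : Function.Injective c := by
    intro x y hxy
    have h1 : b.repr ⟨(x : W), hTV x⟩ = b.repr ⟨(y : W), hTV y⟩ := by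
      ext j
      exact congrFun hxy j
    exact Subtype.ext (congrArg (fun z : V => (z : W)) (b.repr.injective h1))
  obtain ⟨h, hh⟩ := IsLocalization.exist_integer_multiples_of_finset (nonZeroDivisors R)
    (Finset.univ.image fun p : Fin n × N => c (g p.1) p.2)
  have hh0 : (h : R) ≠ 0 := nonZeroDivisors.coe_ne_zero h
  have hint : ∀ (x : T) (j : N), ∃ r : R, algebraMap R K r = (h : R) • c x j := by
    intro x j
    have hx : x ∈ Submodule.span R (Set.range g) := by
      rw [hg]
      exact Submodule.mem_top
    obtain ⟨a, ha⟩ := (Submodule.mem_span_range_iff_exists_fun R).mp hx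
    have h1 : ∀ d : Fin n, ∃ r : R, algebraMap R K r = (h : R) • c (g d) j := by
      intro d
      obtain ⟨r, hr⟩ := hh _ (Finset.mem_image_of_mem _ (Finset.mem_univ (d, j)))
      exact ⟨r, hr⟩
    choose r hr using h1
    refine ⟨∑ d, a d * r d, ?_⟩
    rw [← ha, map_sum, map_sum, Finset.sum_apply, Finset.smul_sum]
    refine Finset.sum_congr rfl fun d _ => ?_
    rw [map_mul, hr d, map_smul, Pi.smul_apply, Algebra.smul_def, Algebra.smul_def,
      Algebra.smul_def]
    ring
  choose s hs using hint
  let l : T →ₗ[R] (N → R) :=
    { toFun := fun x j => s x j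
      map_add' := by
        intro x y
        funext j
        apply hinj
        show algebraMap R K (s (x + y) j) = algebraMap R K (s x j + s y j)
        rw [hs, map_add, map_add, hs, hs, ← smul_add]
        rfl
      map_smul' := by
        intro r x
        funext j
        apply hinj
        show algebraMap R K (s (r • x) j) = algebraMap R K (r * s x j)
        rw [hs, map_mul, hs, map_smul, Pi.smul_apply, smul_comm, ← Algebra.smul_def] }
  refine ⟨N, inferInstance, l, fun x y hxy => hc ?_⟩
  funext j
  have h1 : s x j = s y j := congrFun hxy j
  have h2 := congrArg (algebraMap R K) h1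
  rw [hs, hs, Algebra.smul_def, Algebra.smul_def] at h2
  have h3 : algebraMap R K (h : R) ≠ 0 := by
    rw [Ne, map_eq_zero_iff _ hinj]
    exact hh0
  exact mul_left_cancel₀ h3 h2

/-- a module-finite subalgebra of a field extension of the fraction field of an NIP domain is
NIP -/
theorem nip_subalgebra_plus {R K W : Type} [CommRing R] [IsDomain R] [Field K] [Algebra R K]
    [IsFractionRing R K] [Field W] [Algebra K W] [Algebra R W] [IsScalarTower R K W]
    [CompatibleRing R] (T : Subalgebra R W) [Module.Finite R T] [CompatibleRing T]
    (hR : NIPRing R) : NIPRing T := by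
  obtain ⟨N, hN, l, hl⟩ := exists_linear_embedding (K := K) T
  exact nip_of_linear l hl hR

end Pool.Agent.AIC
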