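import Pool.Agent.AIC.GalFin46
import Pool.Agent.AIC.NipPlus83

/-! MP_313bb4: Theorem P for primes with finitely many branches, without roots of unity. -/

set_option autoImplicit false

namespace Pool.Agent.AIC

open Finset Polynomial IsLocalRing

section ext

/-- a finite extension with a prime over which there is only one prime of the closure -/
theorem exists_isolating {R F : Type} [CommRing R] [IsDomain R] [Field F] [Algebra R F]
    [FaithfulSMul R F] (Q : Ideal R) [hQ : Q.IsPrime]
    (hfin : {N : Ideal (integralClosure R F) | Over Q N}.Finite) (ζ : F) (hζ : IsIntegral R ζ) :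
    ∃ T : Subalgebra R F, Module.Finite R T ∧ ζ ∈ T ∧ ∃ Q' : Ideal T, Q'.IsPrime ∧
      (∀ r : R, algebraMap R T r ∈ Q' ↔ r ∈ Q) ∧
      ∀ N N' : Ideal (integralClosure T F), Over Q' N → Over Q' N' → N = N' := by
  classical
  have hinjB : Function.Injective (algebraMap R (integralClosure R F)) := by
    intro x y hxy
    apply FaithfulSMul.algebraMap_injective R F
    exact congrArg Subtype.val hxy
  -- a prime over `Q`
  obtain ⟨N₁, -, hN₁p, hN₁c⟩ := Ideal.exists_ideal_over_prime_of_isIntegral
    (S := integralClosure R F) Q (⊥ : Ideal (integralClosure R F)) (by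
      intro x hx
      rw [Ideal.mem_comap, Ideal.mem_bot] at hx
      have : x = 0 := hinjB (by rw [hx, map_zero])
      rw [this]
      exact Q.zero_mem)
  have hN₁ : Over Q N₁ := by
    refine ⟨hN₁p, fun t => ?_⟩
    rw [← Ideal.mem_comap, hN₁c]
  -- separating elements
  have hsep : ∀ N : Ideal (integralClosure R F), ∃ e : integralClosure R F,
      Over Q N → N ≠ N₁ → e ∈ N₁ ∧ e ∉ N := by
    intro N
    by_cases h : Over Q N ∧ N ≠ N₁
    · have h1 : ¬ N₁ ≤ N := fun hle => h.2 (over_eq_of_le Q N₁ N hN₁ h.1 hle).symm
      obtain ⟨e, he1, he2⟩ := SetLike.not_le_iff_exists.mp h1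
      exact ⟨e, fun _ _ => ⟨he1, he2⟩⟩
    · exact ⟨0, fun h1 h2 => absurd ⟨h1, h2⟩ h⟩
  choose e he using hsep
  set E : Set F := insert ζ ((fun N => (e N : F)) '' {N : Ideal (integralClosure R F) | Over Q N})
    with hE
  have hEfin : E.Finite := (hfin.image _).insert ζ
  have hEint : ∀ x ∈ E, IsIntegral R x := by
    intro x hx
    rcases hx with rfl | ⟨N, -, rfl⟩
    · exact hζ
    · exact (e N).2
  set T := Algebra.adjoin R E with hT
  have hTfin : Module.Finite R T := Algebra.finite_adjoin_of_finite_of_isIntegral hEfin hEint
  have hTint : Algebra.IsIntegral R T := inferInstance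
  have hTi : ∀ t : T, IsIntegral R (t : F) := by
    intro t
    exact (Algebra.IsIntegral.isIntegral (R := R) t).map (IsScalarTower.toAlgHom R T F)
  let incl : T →+* integralClosure R F :=
    { toFun := fun t => ⟨(t : F), hTi t⟩
      map_one' := rfl
      map_mul' := fun _ _ => rfl
      map_zero' := rfl
      map_add' := fun _ _ => rfl }
  refine ⟨T, hTfin, Algebra.subset_adjoin (Set.mem_insert ζ _), N₁.comap incl,
    Ideal.comap_isPrime incl N₁, ?_, ?_⟩
  · intro r
    rw [Ideal.mem_comap, ← hN₁.2 r]
    exact Iff.rfl
  · have key : ∀ N : Ideal (integralClosure T F), Over (N₁.comap incl) N →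
        N.comap (closureMap R T F) = N₁ := by
      intro N hN
      have h1 : Over Q (N.comap (closureMap R T F)) := by
        refine over_comap Q (N₁.comap incl) (fun r => ?_) N hN
        rw [Ideal.mem_comap, ← hN₁.2 r]
        exact Iff.rfl
      by_contra hne
      obtain ⟨h2, h3⟩ := he _ h1 hne
      set z := e (N.comap (closureMap R T F)) with hz
      have hzT : (z : F) ∈ T := Algebra.subset_adjoin (Set.mem_insert_of_mem ζ ⟨_, h1, rfl⟩)
      have h4 : (⟨(z : F), hzT⟩ : T) ∈ N₁.comap incl := by
        rw [Ideal.mem_comap]
        exact h2
      rw [← hN.2] at h4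
      apply h3
      rw [Ideal.mem_comap]
      exact h4
    intro N N' hN hN'
    apply comap_injective (R := R)
    rw [key N hN, key N' hN']

/-- a local integral closure in a field restricts to subfields -/
theorem local_closure_sub {A E F : Type} [CommRing A] [Field E] [Field F] [Algebra A E]
    [Algebra A F] [Algebra E F] [IsScalarTower A E F]
    (h : IsLocalRing (integralClosure A F)) : IsLocalRing (integralClosure A E) := by
  let g : integralClosure A E →+* integralClosure A F :=
    { toFun := fun x => ⟨algebraMap E F (x : E), by
        have h0 : IsIntegral A (x : E) := x.2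
        exact h0.map (IsScalarTower.toAlgHom A E F)⟩
      map_one' := by
        apply Subtype.ext
        exact map_one _
      map_mul' := fun x y => by
        apply Subtype.ext
        exact map_mul _ _ _
      map_zero' := by
        apply Subtype.ext
        exact map_zero _
      map_add' := fun x y => by
        apply Subtype.ext
        exact map_add _ _ _ }
  have hginj : Function.Injective g := by
    intro x y hxy
    apply Subtype.ext
    apply (algebraMap E F).injective
    exact congrArg Subtype.val hxy
  have hgint : g.IsIntegral := by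
    have h1 : (algebraMap A (integralClosure A F)).IsIntegral := fun s =>
      integralClosure.isIntegral s
    have h2 : g.comp (algebraMap A (integralClosure A E)) = algebraMap A (integralClosure A F) := by
      ext a
      exact (IsScalarTower.algebraMap_apply A E F a).symm
    rw [← h2] at h1
    exact RingHom.IsIntegral.tower_top (algebraMap A (integralClosure A E)) g h1
  haveI : IsLocalHom g := RingHom.IsIntegral.isLocalHom hgint hginj
  exact RingHom.domain_isLocalRing g

/-- the good finite extension -/
theorem exists_ext_good {R : Type} [CommRing R] [IsDomain R] (P Q : Ideal R) [hP : P.IsPrime]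
    [hQ : Q.IsPrime] (F : Type) [Field F] [Algebra (FractionRing R) F] [Algebra R F]
    [IsScalarTower R (FractionRing R) F] [FiniteDimensional (FractionRing R) F]
    [IsGalois (FractionRing R) F] (W : Type) [Field W] [IsAlgClosed W] [Algebra F W] [Algebra R W]
    [IsScalarTower R F W]
    (huP : ∀ N N' : Ideal (integralClosure R W), Over P N → Over P N' → N = N')
    (hfin : {N : Ideal (integralClosure R (FractionRing R)) | Over Q N}.Finite)
    (ζ : F) (hζ : IsIntegral R ζ) :
    ∃ T : Subalgebra R F, Module.Finite R T ∧ ζ ∈ T ∧
      ∃ (P' Q' : Ideal T) (_ : P'.IsPrime) (_ : Q'.IsPrime),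
        (∀ r : R, algebraMap R T r ∈ P' ↔ r ∈ P) ∧ (∀ r : R, algebraMap R T r ∈ Q' ↔ r ∈ Q) ∧
        HenselianLocalRing (Localization.AtPrime P') ∧
        IsLocalRing (integralClosure (Localization.AtPrime Q') (FractionRing T)) := by
  have hinjF : Function.Injective (algebraMap R F) := by
    rw [IsScalarTower.algebraMap_eq R (FractionRing R) F]
    exact (algebraMap (FractionRing R) F).injective.comp (IsFractionRing.injective R _)
  haveI : FaithfulSMul R F := (faithfulSMul_iff_algebraMap_injective R F).mpr hinjF
  obtain ⟨T, hTfin, hζT, Q', hQ'p, hQ'Q, hQ'u⟩ := exists_isolating (F := F) Q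
    (finite_over_galois R (FractionRing R) F Q hfin) ζ hζ
  haveI := hQ'p
  haveI hTint : Algebra.IsIntegral R T := inferInstance
  have hinjRT : Function.Injective (algebraMap R T) := by
    intro x y hxy
    exact hinjF (congrArg Subtype.val hxy)
  -- a prime over `P`
  obtain ⟨P', -, hP'p, hP'c⟩ := Ideal.exists_ideal_over_prime_of_isIntegral
    (S := T) P (⊥ : Ideal T) (by
      intro x hx
      rw [Ideal.mem_comap, Ideal.mem_bot] at hx
      have : x = 0 := hinjRT (by rw [hx, map_zero])
      rw [this]
      exact P.zero_mem)
  haveI := hP'p
  have hP'P : ∀ r : R, algebraMap R T r ∈ P' ↔ r ∈ P := fun r => by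
    rw [← Ideal.mem_comap, hP'c]
  refine ⟨T, hTfin, hζT, P', Q', hP'p, hQ'p, hP'P, hQ'Q, ?_, ?_⟩
  · -- the henselian side
    haveI : IsScalarTower R T W := by
      refine IsScalarTower.of_algebraMap_eq fun x => ?_
      rw [IsScalarTower.algebraMap_apply R F W]
      rfl
    haveI : FaithfulSMul T W := by
      rw [faithfulSMul_iff_algebraMap_injective]
      intro x y hxy
      apply Subtype.ext
      exact (algebraMap F W).injective hxy
    obtain ⟨alg, htow, hinjA⟩ := exists_algebra_loc (T := T) (F := W) P'
    haveI : FaithfulSMul (Localization.AtPrime P') W :=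
      (faithfulSMul_iff_algebraMap_injective _ _).mpr hinjA
    haveI : IsDomain (Localization.AtPrime P') :=
      IsLocalization.isDomain_localization P'.primeCompl_le_nonZeroDivisors
    have hu : ∀ N N' : Ideal (integralClosure T W), Over P' N → Over P' N' → N = N' := by
      intro N N' hN hN'
      apply comap_injective (R := R)
      exact huP _ _ (over_comap P P' hP'P N hN) (over_comap P P' hP'P N' hN')
    have hloc : IsLocalRing (integralClosure (Localization.AtPrime P') W) :=
      local_of_unique P' (Localization.AtPrime P') hu
    exact henselian_of_unibranch34 hloc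
  · -- the other side
    haveI : FaithfulSMul T F := by
      rw [faithfulSMul_iff_algebraMap_injective]
      exact Subtype.val_injective
    obtain ⟨alg, htow, hinjA⟩ := exists_algebra_loc (T := T) (F := F) Q'
    have hloc : IsLocalRing (integralClosure (Localization.AtPrime Q') F) :=
      local_of_unique Q' (Localization.AtPrime Q') hQ'u
    letI algE : Algebra (FractionRing T) F := (IsFractionRing.lift (K := FractionRing T)
      (FaithfulSMul.algebraMap_injective T F)).toAlgebra
    have hE : ∀ t : T, algebraMap (FractionRing T) F (algebraMap T (FractionRing T) t) =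
        algebraMap T F t := fun t => IsFractionRing.lift_algebraMap _ t
    haveI : IsScalarTower (Localization.AtPrime Q') (FractionRing T) F := by
      refine IsScalarTower.of_algebraMap_eq' ?_
      apply IsLocalization.ringHom_ext Q'.primeCompl
      ext t
      change algebraMap (Localization.AtPrime Q') F (algebraMap T (Localization.AtPrime Q') t) =
        algebraMap (FractionRing T) F (algebraMap (Localization.AtPrime Q') (FractionRing T)
          (algebraMap T (Localization.AtPrime Q') t))
      rw [← IsScalarTower.algebraMap_apply T (Localization.AtPrime Q') F,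
        ← IsScalarTower.algebraMap_apply T (Localization.AtPrime Q') (FractionRing T), hE]
    exact local_closure_sub (E := FractionRing T) hloc

end ext

end Pool.Agent.AIC
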