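import Pool.Agent.AIC.Alg83

/-! MP_313bb4, piece P7, the two ring-language formulas. -/

set_option autoImplicit false

namespace Pool.Agent.AIC

open FirstOrder FirstOrder.Language FirstOrder.Ring

/-- powers of a term -/
def tpow {β : Type} (t : Language.ring.Term β) : ℕ → Language.ring.Term β
  | 0 => 1
  | n + 1 => tpow t n * t

theorem realize_tpow {R : Type} [CommRing R] [CompatibleRing R] {β : Type}
    (t : Language.ring.Term β) (v : β → R) (n : ℕ) :
    (tpow t n).realize v = t.realize v ^ n := by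
  induction n with
  | zero => simp [tpow]
  | succ n ih => simp [tpow, ih, pow_succ]

/-- `x` divides `y` -/
noncomputable def divF : Language.ring.Formula (Fin 1 ⊕ Fin 1) :=
  BoundedFormula.ex
    (((Term.var (Sum.inl (Sum.inl 0)) : Language.ring.Term ((Fin 1 ⊕ Fin 1) ⊕ Fin 1)) *
      Term.var (Sum.inr 0)).bdEqual (Term.var (Sum.inl (Sum.inr 0))))

theorem realize_divF {R : Type} [CommRing R] [CompatibleRing R] (a b : Fin 1 → R) :
    divF.Realize (Sum.elim a b) ↔ a 0 ∣ b 0 := by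
  unfold divF Formula.Realize
  rw [BoundedFormula.realize_ex]
  constructor
  · rintro ⟨z, hz⟩
    rw [BoundedFormula.realize_bdEqual] at hz
    simp [Fin.snoc] at hz
    exact ⟨z, hz.symm⟩
  · rintro ⟨z, hz⟩
    refine ⟨z, ?_⟩
    rw [BoundedFormula.realize_bdEqual]
    simp [Fin.snoc, hz]

/-- the variables -/
abbrev V3 : Type := (Fin 3 ⊕ Fin 1) ⊕ Fin 3

/-- `(1 + r * (e * (y - c))) * s = 1` with `y, r, s` the bound variables `0, 1, 2` -/
noncomputable def jacB (e : Fin 3) : Language.ring.BoundedFormula (Fin 3 ⊕ Fin 1) 3 :=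
  ((1 + (Term.var (Sum.inr 1) : Language.ring.Term V3) *
    (Term.var (Sum.inl (Sum.inl e)) *
      (Term.var (Sum.inr 0) + -(Term.var (Sum.inl (Sum.inl 0)))))) *
    Term.var (Sum.inr 2)).bdEqual 1

/-- the main formula -/
noncomputable def powF (q : ℕ) : Language.ring.Formula (Fin 3 ⊕ Fin 1) :=
  BoundedFormula.ex
    (((tpow (Term.var (Sum.inr 0)) q :
        Language.ring.Term ((Fin 3 ⊕ Fin 1) ⊕ Fin 1)).bdEqual
      (Term.var (Sum.inl (Sum.inr 0)) + tpow (Term.var (Sum.inl (Sum.inl 0))) q)) ⊓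
      ((BoundedFormula.all (BoundedFormula.ex (jacB 1))) ⊓
        (BoundedFormula.all (BoundedFormula.ex (jacB 2)))))

theorem realize_jacB {R : Type} [CommRing R] [CompatibleRing R] (a : Fin 3 → R) (b : Fin 1 → R)
    (e : Fin 3) (y : R) (xs : Fin 0 → R) :
    (BoundedFormula.all (BoundedFormula.ex (jacB e))).Realize (Sum.elim a b)
      (Fin.snoc (α := fun _ => R) xs y) ↔ Jm (a e * (y - a 0)) := by
  rw [BoundedFormula.realize_all]
  unfold Jm
  refine forall_congr' fun r => ?_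
  rw [BoundedFormula.realize_ex]
  refine exists_congr fun s => ?_
  unfold jacB
  rw [BoundedFormula.realize_bdEqual]
  simp [Fin.snoc, sub_eq_add_neg]

theorem realize_powF {R : Type} [CommRing R] [CompatibleRing R] (q : ℕ) (a : Fin 3 → R)
    (b : Fin 1 → R) :
    (powF q).Realize (Sum.elim a b) ↔
      ∃ y : R, y ^ q = b 0 + a 0 ^ q ∧ Jm (a 1 * (y - a 0)) ∧ Jm (a 2 * (y - a 0)) := by
  unfold powF Formula.Realize
  rw [BoundedFormula.realize_ex]
  refine exists_congr fun y => ?_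
  rw [BoundedFormula.realize_inf, BoundedFormula.realize_inf, realize_jacB, realize_jacB,
    BoundedFormula.realize_bdEqual]
  simp [realize_tpow, Fin.snoc]

section nip

variable {R : Type} [CommRing R] [CompatibleRing R]

theorem nip_div
    (h : ∀ (k m : ℕ) (φ : FirstOrder.Language.ring.Formula (Fin k ⊕ Fin m)),
      ∃ n : ℕ, ¬ ∃ (a : Fin n → Fin k → R) (b : Finset (Fin n) → Fin m → R),
        ∀ (i : Fin n) (J : Finset (Fin n)), (φ.Realize (Sum.elim (a i) (b J)) ↔ i ∈ J)) :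
    ∃ n : ℕ, ¬ ∃ (u : Fin n → R) (b : Finset (Fin n) → R),
      ∀ (i : Fin n) (J : Finset (Fin n)), (u i ∣ b J ↔ i ∈ J) := by
  obtain ⟨n, hn⟩ := h 1 1 divF
  refine ⟨n, ?_⟩
  rintro ⟨u, b, hub⟩
  apply hn
  refine ⟨fun i _ => u i, fun J _ => b J, fun i J => ?_⟩
  rw [realize_divF]
  exact hub i J

theorem nip_pow
    (h : ∀ (k m : ℕ) (φ : FirstOrder.Language.ring.Formula (Fin k ⊕ Fin m)),
      ∃ n : ℕ, ¬ ∃ (a : Fin n → Fin k → R) (b : Finset (Fin n) → Fin m → R),
        ∀ (i : Fin n) (J : Finset (Fin n)), (φ.Realize (Sum.elim (a i) (b J)) ↔ i ∈ J))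
    (q : ℕ) :
    ∃ n : ℕ, ¬ ∃ (c : Fin n → R) (e₁ e₂ : R) (x : Finset (Fin n) → R),
      ∀ (i : Fin n) (J : Finset (Fin n)),
        ((∃ y : R, y ^ q = x J + c i ^ q ∧ Jm (e₁ * (y - c i)) ∧ Jm (e₂ * (y - c i))) ↔
          i ∈ J) := by
  obtain ⟨n, hn⟩ := h 3 1 (powF q)
  refine ⟨n, ?_⟩
  rintro ⟨c, e₁, e₂, x, hx⟩
  apply hn
  refine ⟨fun i => ![c i, e₁, e₂], fun J _ => x J, fun i J => ?_⟩
  rw [realize_powF]
  simpa using hx i J

end nip

end Pool.Agent.AIC
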