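import Pool.Agent.AIC.AlgH83
import Pool.Agent.AIC.Form83

/-! MP_313bb4, third stage (Theorem H*, no normality): the formula with fractions and the end
    of the proof. -/

set_option autoImplicit false

namespace Pool.Agent.AIC

open Finset Polynomial

section formula

open FirstOrder FirstOrder.Language FirstOrder.Ring

/-- variables: `c, e₁, e₂ ; a, b` and the bound variables `s, t, r, w` -/
abbrev V5 : Type := (Fin 3 ⊕ Fin 2) ⊕ Fin 4

/-- `(1 + r * (e * (s - c * t))) * w = 1` -/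
noncomputable def jacD (e : Fin 3) : Language.ring.BoundedFormula (Fin 3 ⊕ Fin 2) 4 :=
  ((1 + (Term.var (Sum.inr 2) : Language.ring.Term V5) *
    (Term.var (Sum.inl (Sum.inl e)) *
      (Term.var (Sum.inr 0) +
        -(Term.var (Sum.inl (Sum.inl 0)) * Term.var (Sum.inr 1))))) *
    Term.var (Sum.inr 3)).bdEqual 1

/-- `(1 + r * (e * t)) * w = 1` -/
noncomputable def jacT (e : Fin 3) : Language.ring.BoundedFormula (Fin 3 ⊕ Fin 2) 4 :=
  ((1 + (Term.var (Sum.inr 2) : Language.ring.Term V5) *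
    (Term.var (Sum.inl (Sum.inl e)) * Term.var (Sum.inr 1))) *
    Term.var (Sum.inr 3)).bdEqual 1

/-- the equation `s ^ q * b = (a + c ^ q * b) * t ^ q` -/
noncomputable def eqS (q : ℕ) : Language.ring.BoundedFormula (Fin 3 ⊕ Fin 2) 2 :=
  ((tpow (Term.var (Sum.inr 0)) q * Term.var (Sum.inl (Sum.inr 1)) :
      Language.ring.Term ((Fin 3 ⊕ Fin 2) ⊕ Fin 2)).bdEqual
    ((Term.var (Sum.inl (Sum.inr 0)) +
      tpow (Term.var (Sum.inl (Sum.inl 0))) q * Term.var (Sum.inl (Sum.inr 1))) *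
      tpow (Term.var (Sum.inr 1)) q))

/-- the formula -/
noncomputable def starF (q : ℕ) : Language.ring.Formula (Fin 3 ⊕ Fin 2) :=
  BoundedFormula.ex (BoundedFormula.ex
    ((BoundedFormula.all (BoundedFormula.ex (jacT 1))).not ⊓
      ((BoundedFormula.all (BoundedFormula.ex (jacT 2))).not ⊓
        (eqS q ⊓
          ((BoundedFormula.all (BoundedFormula.ex (jacD 1))) ⊓
            (BoundedFormula.all (BoundedFormula.ex (jacD 2))))))))

variable {R : Type} [CommRing R] [CompatibleRing R]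

theorem realize_jacD (a : Fin 3 → R) (b : Fin 2 → R)
    (e : Fin 3) (s t : R) (xs : Fin 0 → R) :
    (BoundedFormula.all (BoundedFormula.ex (jacD e))).Realize (Sum.elim a b)
      (Fin.snoc (α := fun _ => R) (Fin.snoc (α := fun _ => R) xs s) t) ↔
      Jm (a e * (s - a 0 * t)) := by
  rw [BoundedFormula.realize_all]
  unfold Jm
  refine forall_congr' fun r => ?_
  rw [BoundedFormula.realize_ex]
  refine exists_congr fun w => ?_
  unfold jacD
  rw [BoundedFormula.realize_bdEqual]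
  simp [Fin.snoc, sub_eq_add_neg]

theorem realize_jacT (a : Fin 3 → R) (b : Fin 2 → R)
    (e : Fin 3) (s t : R) (xs : Fin 0 → R) :
    (BoundedFormula.all (BoundedFormula.ex (jacT e))).Realize (Sum.elim a b)
      (Fin.snoc (α := fun _ => R) (Fin.snoc (α := fun _ => R) xs s) t) ↔
      Jm (a e * t) := by
  rw [BoundedFormula.realize_all]
  unfold Jm
  refine forall_congr' fun r => ?_
  rw [BoundedFormula.realize_ex]
  refine exists_congr fun w => ?_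
  unfold jacT
  rw [BoundedFormula.realize_bdEqual]
  simp [Fin.snoc]

theorem realize_eqS (q : ℕ) (a : Fin 3 → R) (b : Fin 2 → R) (s t : R) (xs : Fin 0 → R) :
    (eqS q).Realize (Sum.elim a b)
      (Fin.snoc (α := fun _ => R) (Fin.snoc (α := fun _ => R) xs s) t) ↔
      s ^ q * b 1 = (b 0 + a 0 ^ q * b 1) * t ^ q := by
  unfold eqS
  rw [BoundedFormula.realize_bdEqual]
  simp [realize_tpow, Fin.snoc]

theorem realize_starF (q : ℕ) (a : Fin 3 → R) (b : Fin 2 → R) :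
    (starF q).Realize (Sum.elim a b) ↔
      ∃ s t : R, ¬ Jm (a 1 * t) ∧ ¬ Jm (a 2 * t) ∧ s ^ q * b 1 = (b 0 + a 0 ^ q * b 1) * t ^ q ∧
        Jm (a 1 * (s - a 0 * t)) ∧ Jm (a 2 * (s - a 0 * t)) := by
  unfold starF Formula.Realize
  rw [BoundedFormula.realize_ex]
  refine exists_congr fun s => ?_
  rw [BoundedFormula.realize_ex]
  refine exists_congr fun t => ?_
  rw [BoundedFormula.realize_inf, BoundedFormula.realize_inf, BoundedFormula.realize_inf,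
    BoundedFormula.realize_inf, BoundedFormula.realize_not, BoundedFormula.realize_not,
    realize_jacT, realize_jacT, realize_jacD, realize_jacD, realize_eqS]

theorem nip_star
    (h : ∀ (k m : ℕ) (φ : FirstOrder.Language.ring.Formula (Fin k ⊕ Fin m)),
      ∃ n : ℕ, ¬ ∃ (a : Fin n → Fin k → R) (b : Finset (Fin n) → Fin m → R),
        ∀ (i : Fin n) (J : Finset (Fin n)), (φ.Realize (Sum.elim (a i) (b J)) ↔ i ∈ J))
    (q : ℕ) :
    ∃ n : ℕ, ¬ ∃ (c : Fin n → R) (e₁ e₂ : R) (a b : Finset (Fin n) → R),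
      ∀ (i : Fin n) (J : Finset (Fin n)),
        ((∃ s t : R, ¬ Jm (e₁ * t) ∧ ¬ Jm (e₂ * t) ∧
          s ^ q * b J = (a J + c i ^ q * b J) * t ^ q ∧
          Jm (e₁ * (s - c i * t)) ∧ Jm (e₂ * (s - c i * t))) ↔ i ∈ J) := by
  obtain ⟨n, hn⟩ := h 3 2 (starF q)
  refine ⟨n, ?_⟩
  rintro ⟨c, e₁, e₂, a, b, hx⟩
  apply hn
  refine ⟨fun i => ![c i, e₁, e₂], fun J => ![a J, b J], fun i J => ?_⟩
  rw [realize_starF]
  simpa using hx i J

end formula

section patterns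

variable {R : Type} [CommRing R] [IsDomain R]

/-- the end of the proof: patterns contradict NIP -/
theorem false_of_patterns_star
    (m₁ m₂ : Ideal R) (h1 : m₁.IsMaximal) (h2 : m₂.IsMaximal)
    (e₁ e₂ : R) (he₁ : ∀ z : R, Jm (e₁ * z) ↔ z ∈ m₁) (he₂ : ∀ z : R, Jm (e₂ * z) ↔ z ∈ m₂)
    (q : ℕ) (hq : q.Prime) (hq1 : (q : R) ∉ m₁) (hq2 : (q : R) ∉ m₂)
    (ζ : R) (hζ : ∑ j ∈ range q, ζ ^ j = 0)
    (hP : ∀ n : ℕ, 2 ≤ n → ∃ c : Fin n → R, (∀ i, c i ∉ m₁) ∧ (∀ i, c i ∉ m₂) ∧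
      ∀ ε : Fin n → ZMod q, ∃ (a b : R) (s t : Fin n → R), b ∉ m₁ ∧
      (∀ i, t i ∉ m₁) ∧ (∀ i, t i ∉ m₂) ∧
      (∀ i, s i ^ q * b = (a + c i ^ q * b) * t i ^ q) ∧
      (∀ i, s i - c i * t i ∈ m₁) ∧ (∀ i, s i - ζ ^ (ε i).val * c i * t i ∈ m₂))
    (hpow : ∃ n : ℕ, ¬ ∃ (c : Fin n → R) (e₁ e₂ : R) (a b : Finset (Fin n) → R),
      ∀ (i : Fin n) (J : Finset (Fin n)),
        ((∃ s t : R, ¬ Jm (e₁ * t) ∧ ¬ Jm (e₂ * t) ∧
          s ^ q * b J = (a J + c i ^ q * b J) * t ^ q ∧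
          Jm (e₁ * (s - c i * t)) ∧ Jm (e₂ * (s - c i * t))) ↔ i ∈ J)) :
    False := by
  classical
  obtain ⟨n, hn⟩ := hpow
  apply hn
  obtain ⟨c, hc1, hc2, hall⟩ := hP (n + 2) (by omega)
  have hall' : ∀ J : Finset (Fin n), ∃ (a b : R) (s t : Fin (n + 2) → R), b ∉ m₁ ∧
      (∀ i, t i ∉ m₁) ∧ (∀ i, t i ∉ m₂) ∧
      (∀ i, s i ^ q * b = (a + c i ^ q * b) * t i ^ q) ∧
      (∀ i, s i - c i * t i ∈ m₁) ∧
      (∀ i : Fin (n + 2), s i - ζ ^ (if ∃ j ∈ J, Fin.castAdd 2 j = i then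
        (0 : ZMod q) else 1).val * c i * t i ∈ m₂) := fun J =>
    hall (fun i => if ∃ j ∈ J, Fin.castAdd 2 j = i then (0 : ZMod q) else 1)
  choose a b s t hb ht1 ht2 hst hs1 hs2 using hall'
  have hmem : ∀ (i : Fin n) (J : Finset (Fin n)),
      (∃ j ∈ J, Fin.castAdd 2 j = Fin.castAdd 2 i) ↔ i ∈ J := by
    intro i J
    constructor
    · rintro ⟨j, hj, hji⟩
      rw [Fin.castAdd_inj] at hji
      exact hji ▸ hj
    · intro hi
      exact ⟨i, hi, rfl⟩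
  refine ⟨fun i => c (Fin.castAdd 2 i), e₁, e₂, a, b, fun i J => ⟨?_, ?_⟩⟩
  · rintro ⟨v, w, hw1, hw2, hvw, hv1, hv2⟩
    rw [he₁] at hw1 hv1
    rw [he₂] at hw2 hv2
    by_contra hi
    have h3 := hs2 J (Fin.castAdd 2 i)
    rw [if_neg (fun h => hi ((hmem i J).mp h))] at h3
    have hone : (1 : ZMod q).val = 1 := by
      have : Fact (1 < q) := ⟨hq.one_lt⟩
      exact ZMod.val_one q
    rw [hone, pow_one] at h3
    have h4 := hs1 J (Fin.castAdd 2 i)
    have hT1 := ht1 J (Fin.castAdd 2 i)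
    have hT2 := ht2 J (Fin.castAdd 2 i)
    have hST := hst J (Fin.castAdd 2 i)
    have hbJ := hb J
    have hC1 := hc1 (Fin.castAdd 2 i)
    have hC2 := hc2 (Fin.castAdd 2 i)
    set C := c (Fin.castAdd 2 i) with hC
    set S := s J (Fin.castAdd 2 i) with hS
    set T := t J (Fin.castAdd 2 i) with hT
    have hb0 : b J ≠ 0 := fun h => hbJ (h ▸ zero_mem _)
    have hpw : (v * T) ^ q = (S * w) ^ q := by
      apply mul_right_cancel₀ hb0
      rw [mul_pow, mul_pow]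
      calc v ^ q * T ^ q * b J = v ^ q * b J * T ^ q := by ring
        _ = (a J + C ^ q * b J) * w ^ q * T ^ q := by rw [hvw]
        _ = (a J + C ^ q * b J) * T ^ q * w ^ q := by ring
        _ = S ^ q * b J * w ^ q := by rw [hST]
        _ = S ^ q * w ^ q * b J := by ring
    have hq0 : (q : R) ∉ (⊥ : Ideal R) := fun h => hq1 ((bot_le : (⊥ : Ideal R) ≤ m₁) h)
    have hprim : IsPrimitiveRoot ζ q := by
      rw [IsPrimitiveRoot.iff hq.pos]
      constructor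
      · have := mul_geom_sum ζ q
        rw [hζ, mul_zero] at this
        exact (sub_eq_zero.mp this.symm)
      · intro l hl0 hlq hl
        apply zeta_pow_sub_one_notMem q hq ζ hζ ⊥ hq0 l hl0 hlq
        rw [hl, sub_self]
        exact zero_mem _
    have hprod : ∏ μ ∈ nthRootsFinset q (1 : R), (v * T - μ * (S * w)) = 0 := by
      rw [← hprim.pow_sub_pow_eq_prod_sub_mul (v * T) (S * w) hq.pos, hpw, sub_self]
    obtain ⟨μ, hμ, hμ2⟩ := Finset.prod_eq_zero_iff.mp hprod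
    have hμq : μ ^ q = 1 := by
      rwa [mem_nthRootsFinset hq.pos] at hμ
    have : NeZero q := ⟨hq.ne_zero⟩
    obtain ⟨j, hj, rfl⟩ := hprim.eq_pow_of_pow_eq_one hμq
    have hw3 : v * T = ζ ^ j * (S * w) := sub_eq_zero.mp hμ2
    rcases Nat.eq_zero_or_pos j with rfl | hj0
    · rw [pow_zero, one_mul] at hw3
      have h5 : (ζ ^ 1 - 1) * C * w * T ∈ m₂ := by
        have h6 : (ζ ^ 1 - 1) * C * w * T = (v - C * w) * T - (S - ζ * C * T) * w := by
          linear_combination (-1 : R) * hw3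
        rw [h6]
        exact sub_mem (Ideal.mul_mem_right _ _ hv2) (Ideal.mul_mem_right _ _ h3)
      rcases h2.isPrime.mem_or_mem h5 with h6 | h6
      · rcases h2.isPrime.mem_or_mem h6 with h7 | h7
        · rcases h2.isPrime.mem_or_mem h7 with h8 | h8
          · exact zeta_pow_sub_one_notMem q hq ζ hζ m₂ hq2 1 one_pos hq.one_lt h8
          · exact hC2 h8
        · exact hw2 h7
      · exact hT2 h6
    · have h5 : (ζ ^ j - 1) * C * w * T ∈ m₁ := by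
        have h6 : (ζ ^ j - 1) * C * w * T = (v - C * w) * T - ζ ^ j * ((S - C * T) * w) := by
          linear_combination (-1 : R) * hw3
        rw [h6]
        exact sub_mem (Ideal.mul_mem_right _ _ hv1)
          (Ideal.mul_mem_left _ _ (Ideal.mul_mem_right _ _ h4))
      rcases h1.isPrime.mem_or_mem h5 with h6 | h6
      · rcases h1.isPrime.mem_or_mem h6 with h7 | h7
        · rcases h1.isPrime.mem_or_mem h7 with h8 | h8
          · exact zeta_pow_sub_one_notMem q hq ζ hζ m₁ hq1 j hj0 hj h8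
          · exact hC1 h8
        · exact hw1 h7
      · exact hT1 h6
  · intro hi
    have h3 := hs2 J (Fin.castAdd 2 i)
    rw [if_pos ((hmem i J).mpr hi), ZMod.val_zero, pow_zero, one_mul] at h3
    exact ⟨s J (Fin.castAdd 2 i), t J (Fin.castAdd 2 i),
      fun h => ht1 J _ ((he₁ _).mp h), fun h => ht2 J _ ((he₂ _).mp h), hst J _,
      (he₁ _).mpr (hs1 J _), (he₂ _).mpr h3⟩

/-- Claim H*: the patterns exist if the localization at the first maximal ideal is henselian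
and the localization at the second one is integrally closed or henselian -/
def ClaimHstar (R : Type) [CommRing R] [IsDomain R] : Prop :=
  ∀ (q : ℕ) [Fact q.Prime] (n : ℕ), 2 ≤ n →
    ∀ (m₁ m₂ : Ideal R) [m₁.IsMaximal] [m₂.IsMaximal], m₁ ≠ m₂ →
    HenselianLocalRing (Localization.AtPrime m₁) →
    (IsIntegrallyClosed (Localization.AtPrime m₂) ∨
      HenselianLocalRing (Localization.AtPrime m₂)) →
    (∃ u ∈ m₁, ∀ M : Ideal R, M.IsMaximal → u ∈ M → M = m₁) →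
    (∃ u ∈ m₂, ∀ M : Ideal R, M.IsMaximal → u ∈ M → M = m₂) →
    Infinite (R ⧸ m₁) → Infinite (R ⧸ m₂) →
    (q : R) ∉ m₁ → (q : R) ∉ m₂ → ∀ ζ : R, ∑ j ∈ range q, ζ ^ j = 0 →
    ∀ c : Fin n → R, (∀ i, c i ∉ m₁) → (∀ i, c i ∉ m₂) →
    (∀ i j, i ≠ j → c i ^ q - c j ^ q ∉ m₁) → (∀ i j, i ≠ j → c i ^ q - c j ^ q ∉ m₂) →
    ∀ ε : Fin n → ZMod q,
    ∃ (a b : R) (s t : Fin n → R), a ∈ m₁ ∧ a ∈ m₂ ∧ b ∉ m₁ ∧ b ∉ m₂ ∧
      (∀ i, t i ∉ m₁) ∧ (∀ i, t i ∉ m₂) ∧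
      (∀ i, s i ^ q * b = (a + c i ^ q * b) * t i ^ q) ∧
      (∀ i, s i - c i * t i ∈ m₁) ∧ (∀ i, s i - ζ ^ (ε i).val * c i * t i ∈ m₂)

theorem local_of_claimHstar (hC : ClaimHstar R)
    (hdiv : ∃ n : ℕ, ¬ ∃ (u : Fin n → R) (b : Finset (Fin n) → R),
      ∀ (i : Fin n) (J : Finset (Fin n)), (u i ∣ b J ↔ i ∈ J))
    (hpow : ∀ q : ℕ, ∃ n : ℕ, ¬ ∃ (c : Fin n → R) (e₁ e₂ : R) (a b : Finset (Fin n) → R),
      ∀ (i : Fin n) (J : Finset (Fin n)),
        ((∃ s t : R, ¬ Jm (e₁ * t) ∧ ¬ Jm (e₂ * t) ∧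
          s ^ q * b J = (a J + c i ^ q * b J) * t ^ q ∧
          Jm (e₁ * (s - c i * t)) ∧ Jm (e₂ * (s - c i * t))) ↔ i ∈ J))
    (m₁ : Ideal R) [h1 : m₁.IsMaximal] (hm₁ : HenselianLocalRing (Localization.AtPrime m₁))
    (hN : ∀ (N : Ideal R) [N.IsMaximal], N ≠ m₁ →
      (IsIntegrallyClosed (Localization.AtPrime N) ∨
        HenselianLocalRing (Localization.AtPrime N)) ∧
      Infinite (R ⧸ m₁) ∧ Infinite (R ⧸ N) ∧
      ∃ q : ℕ, q.Prime ∧ (q : R) ∉ m₁ ∧ (q : R) ∉ N ∧ ∃ ζ : R, ∑ j ∈ range q, ζ ^ j = 0) :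
    IsLocalRing R := by
  have hfin := finite_maximal hdiv
  by_contra hloc
  have hex : ∃ m₂ : Ideal R, m₂.IsMaximal ∧ m₂ ≠ m₁ := by
    by_contra hcon
    push Not at hcon
    exact hloc (IsLocalRing.of_unique_max_ideal ⟨m₁, h1, fun m' hm' => hcon m' hm'⟩)
  obtain ⟨m₂, h2, h21⟩ := hex
  have h12 : m₁ ≠ m₂ := fun h => h21 h.symm
  obtain ⟨hall, hi1, hi2, q, hq, hq1, hq2, ζ, hζ⟩ := hN m₂ h21
  obtain ⟨e₁, he₁⟩ := exists_e m₁ h1
  obtain ⟨e₂, he₂⟩ := exists_e m₂ h2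
  have : Fact q.Prime := ⟨hq⟩
  refine false_of_patterns_star m₁ m₂ h1 h2 e₁ e₂ he₁ he₂ q hq hq1 hq2 ζ hζ ?_ (hpow q)
  intro n hn
  obtain ⟨c, hc1, hc2, hc3, hc4⟩ := exists_c_inf m₁ m₂ h12 hi1 hi2 q hq.pos n
  refine ⟨c, hc1, hc2, fun ε => ?_⟩
  obtain ⟨a, b, s, t, -, -, hb, -, ht1, ht2, hst, hs1, hs2⟩ := hC q n hn m₁ m₂ h12 hm₁
    hall (exists_u m₁ h1) (exists_u m₂ h2) hi1 hi2 hq1 hq2 ζ hζ c hc1 hc2 hc3 hc4 ε
  exact ⟨a, b, s, t, hb, ht1, ht2, hst, hs1, hs2⟩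

end patterns

end Pool.Agent.AIC
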