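import Pool.Agent.AIC.Star76
import Pool.Agent.AIC.Sec82
import Pool.Agent.AIC.Star83

/-! MP_313bb4, third stage: Theorem H*. -/

set_option autoImplicit false

namespace Pool.Agent.AIC

open Finset Polynomial

theorem claimHstar (R : Type) [CommRing R] [IsDomain R] : ClaimHstar R := by
  intro q _ n hn m₁ m₂ h1 h2 h12 hH hor hu1 hu2 hi1 hi2 hq1 hq2 ζ hζ c hc1 hc2 hd1 hd2 ε
  have hζq : ∀ k : ℕ, (ζ ^ k) ^ q = 1 := fun k => by
    rw [← pow_mul, mul_comm, pow_mul, zeta_pow ζ hζ, one_pow]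
  have hc2' : ∀ i, ζ ^ (ε i).val * c i ∉ m₂ := by
    intro i h
    rcases h2.isPrime.mem_or_mem h with h3 | h3
    · apply h2.ne_top
      rw [Ideal.eq_top_iff_one, ← hζq (ε i).val]
      exact Ideal.pow_mem_of_mem _ h3 q (Fact.out : q.Prime).pos
    · exact hc2 i h3
  have hd2' : ∀ i j, i ≠ j → (ζ ^ (ε i).val * c i) ^ q - (ζ ^ (ε j).val * c j) ^ q ∉ m₂ := by
    intro i j hij
    rw [mul_pow, mul_pow, hζq, hζq, one_mul, one_mul]
    exact hd2 i j hij
  have hcard : 2 ≤ Fintype.card (Fin n) := by simpa using hn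
  have hS : SecSide q m₂ ζ (fun i => ζ ^ (ε i).val * c i) := by
    rcases hor with hor | hor
    · exact secSide_norm m₂ hor hq2 ζ hζ hcard _ hc2' hd2'
    · exact secSide_hens m₂ hor hu2 ⟨m₁, h1, h12⟩ hi2 hq2 ζ hζ hcard _ hc2' hd2'
  have hN : SecNear q m₂ := by
    rcases hor with hor | hor
    · exact secNear_norm m₂ hor
    · exact secNear_hens m₂ hor hq2 ζ hζ
  exact star_assembly m₁ m₂ h12 hH hu1 hi1 hq1 hq2 ζ hζ hcard c hc1 hc2 hd1 ε hS hN

/-- Theorem H*: an NIP domain with a maximal ideal `M` such that `R_M` is henselian and all other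
localizations at maximal ideals are integrally closed or henselian is a henselian local ring
(under conditions on the residue fields, void if the ring is local). -/
theorem theoremHstar :
    ∀ (R : Type) [CommRing R] [IsDomain R] [FirstOrder.Ring.CompatibleRing R],
      (∀ (k m : ℕ) (φ : FirstOrder.Language.ring.Formula (Fin k ⊕ Fin m)),
        ∃ n : ℕ, ¬ ∃ (a : Fin n → Fin k → R) (b : Finset (Fin n) → Fin m → R),
          ∀ (i : Fin n) (J : Finset (Fin n)),
            (φ.Realize (Sum.elim (a i) (b J)) ↔ i ∈ J)) →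
      ∀ (M : Ideal R) [M.IsMaximal], HenselianLocalRing (Localization.AtPrime M) →
      (∀ (N : Ideal R) [N.IsMaximal], N ≠ M →
        (IsIntegrallyClosed (Localization.AtPrime N) ∨
          HenselianLocalRing (Localization.AtPrime N)) ∧
        Infinite (R ⧸ M) ∧ Infinite (R ⧸ N) ∧
        ∃ q : ℕ, q.Prime ∧ (q : R) ∉ M ∧ (q : R) ∉ N ∧
          ∃ ζ : R, ∑ j ∈ Finset.range q, ζ ^ j = 0) →
      HenselianLocalRing R := by
  intro R _ _ _ hN M hM hh hcond
  refine henselian_of_localization ?_ M hh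
  exact local_of_claimHstar (claimHstar R) (nip_div hN) (nip_star hN) M hh hcond

end Pool.Agent.AIC
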