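import Pool.Agent.AIC.Primes46
import Pool.Agent.AIC.Star34
import Pool.Agent.AIC.TheoremHstar83

/-! MP_313bb4, fourth stage (Theorem P): the localization at the complement of two prime ideals. -/

set_option autoImplicit false

namespace Pool.Agent.AIC

open Finset Polynomial IsLocalRing

section equiv

/-- a ring isomorphic to a henselian local ring is one -/
theorem henselian_of_ringEquiv {A B : Type} [CommRing A] [CommRing B] (e : A ≃+* B)
    (h : HenselianLocalRing A) : HenselianLocalRing B := by
  have hB : IsLocalRing B := e.isLocalRing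
  refine { toIsLocalRing := hB, is_henselian := ?_ }
  intro f hf b₀ h0 h1
  have hev : ∀ (g : B[X]) (b : B), (g.map (e.symm : B →+* A)).eval (e.symm b) = e.symm (g.eval b) := by
    intro g b
    rw [Polynomial.eval_map]
    exact Polynomial.eval₂_at_apply (e.symm : B →+* A) b
  obtain ⟨a, ha, ha2⟩ := h.is_henselian (f.map (e.symm : B →+* A)) (hf.map _) (e.symm b₀)
    (by
      rw [hev, mem_maximalIdeal, mem_nonunits_iff, MulEquiv.isUnit_map e.symm]
      exact h0)
    (by
      rw [Polynomial.derivative_map, hev, MulEquiv.isUnit_map e.symm]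
      exact h1)
  refine ⟨e a, ?_, ?_⟩
  · have h3 := hev f (e a)
    rw [RingEquiv.symm_apply_apply, ha] at h3
    have h4 : e.symm (f.eval (e a)) = e.symm 0 := by rw [← h3, map_zero]
    exact e.symm.injective h4
  · have h3 : e a - b₀ = e (a - e.symm b₀) := by rw [map_sub, RingEquiv.apply_symm_apply]
    rw [h3, mem_maximalIdeal, mem_nonunits_iff, MulEquiv.isUnit_map e]
    exact ha2

/-- the integral closure does not see a ring isomorphism of the base -/
theorem closure_local_comp {A B K : Type} [CommRing A] [CommRing B] [Field K] [Algebra B K]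
    [Algebra A K] (e : A ≃+* B) (he : ∀ a, algebraMap A K a = algebraMap B K (e a))
    (h : IsLocalRing (integralClosure A K)) : IsLocalRing (integralClosure B K) := by
  have hcomp : (algebraMap B K).comp (e : A →+* B) = algebraMap A K := by
    ext a
    exact (he a).symm
  have hiff : ∀ x : K, IsIntegral A x ↔ IsIntegral B x := by
    intro x
    constructor
    · rintro ⟨f, hf, hx⟩
      refine ⟨f.map (e : A →+* B), hf.map _, ?_⟩
      rw [Polynomial.eval₂_map, hcomp]
      exact hx
    · rintro ⟨f, hf, hx⟩
      refine ⟨f.map (e.symm : B →+* A), hf.map _, ?_⟩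
      rw [Polynomial.eval₂_map]
      have h2 : (algebraMap A K).comp (e.symm : B →+* A) = algebraMap B K := by
        ext b
        change algebraMap A K (e.symm b) = algebraMap B K b
        rw [he, RingEquiv.apply_symm_apply]
      rw [h2]
      exact hx
  let E : integralClosure A K ≃+* integralClosure B K :=
    { toFun := fun x => ⟨x.1, (hiff x.1).mp x.2⟩
      invFun := fun x => ⟨x.1, (hiff x.1).mpr x.2⟩
      left_inv := fun x => rfl
      right_inv := fun x => rfl
      map_mul' := fun x y => rfl
      map_add' := fun x y => rfl }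
  exact E.isLocalRing

end equiv

section loc

variable {R : Type} [CommRing R] [IsDomain R]

/-- the complement of two primes -/
abbrev Scomp (P Q : Ideal R) [P.IsPrime] [Q.IsPrime] : Submonoid R := P.primeCompl ⊓ Q.primeCompl

variable (P Q : Ideal R) [hP : P.IsPrime] [hQ : Q.IsPrime]

theorem Scomp_le : Scomp P Q ≤ nonZeroDivisors R :=
  inf_le_left.trans P.primeCompl_le_nonZeroDivisors

theorem Scomp_disj_left : Disjoint (Scomp P Q : Set R) (P : Set R) :=
  Set.disjoint_left.mpr fun _ hx hxP => hx.1 hxP

theorem Scomp_disj_right : Disjoint (Scomp P Q : Set R) (Q : Set R) :=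
  Set.disjoint_left.mpr fun _ hx hxQ => hx.2 hxQ

theorem isDomain_L : IsDomain (Localization (Scomp P Q)) :=
  IsLocalization.isDomain_localization (Scomp_le P Q)

theorem mem_map_left (x : R) :
    algebraMap R (Localization (Scomp P Q)) x ∈ P.map (algebraMap R (Localization (Scomp P Q))) ↔
      x ∈ P := by
  have h := IsLocalization.under_map_of_isPrime_disjoint (Scomp P Q)
    (Localization (Scomp P Q)) hP (Scomp_disj_left P Q)
  have h2 := congrArg (fun I : Ideal R => x ∈ I) h
  exact iff_of_eq h2

theorem mem_map_right (x : R) :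
    algebraMap R (Localization (Scomp P Q)) x ∈ Q.map (algebraMap R (Localization (Scomp P Q))) ↔
      x ∈ Q := by
  have h := IsLocalization.under_map_of_isPrime_disjoint (Scomp P Q)
    (Localization (Scomp P Q)) hQ (Scomp_disj_right P Q)
  have h2 := congrArg (fun I : Ideal R => x ∈ I) h
  exact iff_of_eq h2

theorem prime_map_left : (P.map (algebraMap R (Localization (Scomp P Q)))).IsPrime :=
  IsLocalization.isPrime_of_isPrime_disjoint (Scomp P Q) _ P hP (Scomp_disj_left P Q)

theorem prime_map_right : (Q.map (algebraMap R (Localization (Scomp P Q)))).IsPrime :=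
  IsLocalization.isPrime_of_isPrime_disjoint (Scomp P Q) _ Q hQ (Scomp_disj_right P Q)

/-- every proper ideal of the localization lies in one of the two primes -/
theorem le_or_le (M : Ideal (Localization (Scomp P Q))) (hM : M ≠ ⊤) :
    M ≤ P.map (algebraMap R (Localization (Scomp P Q))) ∨
      M ≤ Q.map (algebraMap R (Localization (Scomp P Q))) := by
  have h1 : Disjoint (Scomp P Q : Set R) (M.under R) :=
    (IsLocalization.disjoint_under_iff (Scomp P Q) _ M).mpr hM
  have h2 : ((M.under R : Ideal R) : Set R) ⊆ P ∪ Q := by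
    intro x hx
    by_contra hcon
    rw [Set.mem_union, not_or] at hcon
    exact Set.disjoint_left.mp h1 (show x ∈ (Scomp P Q : Set R) from ⟨hcon.1, hcon.2⟩) hx
  rw [Ideal.subset_union] at h2
  have h3 : (M.under R).map (algebraMap R (Localization (Scomp P Q))) = M :=
    IsLocalization.map_under (Scomp P Q) _ M
  rcases h2 with h2 | h2
  · left
    rw [← h3]
    exact Ideal.map_mono h2
  · right
    rw [← h3]
    exact Ideal.map_mono h2

theorem max_left (hPQ : ¬ P ≤ Q) : (P.map (algebraMap R (Localization (Scomp P Q)))).IsMaximal := by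
  have hp := prime_map_left P Q
  obtain ⟨M, hM, hle⟩ := Ideal.exists_le_maximal _ hp.ne_top
  rcases le_or_le P Q M hM.ne_top with h | h
  · rwa [le_antisymm hle h]
  · exfalso
    apply hPQ
    intro x hx
    rw [← mem_map_right P Q]
    exact h (hle (Ideal.mem_map_of_mem _ hx))

theorem max_right (hQP : ¬ Q ≤ P) :
    (Q.map (algebraMap R (Localization (Scomp P Q)))).IsMaximal := by
  have hp := prime_map_right P Q
  obtain ⟨M, hM, hle⟩ := Ideal.exists_le_maximal _ hp.ne_top
  rcases le_or_le P Q M hM.ne_top with h | h
  · exfalso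
    apply hQP
    intro x hx
    rw [← mem_map_left P Q]
    exact h (hle (Ideal.mem_map_of_mem _ hx))
  · rwa [le_antisymm hle h]

theorem ne_left_right (hPQ : ¬ P ≤ Q) : P.map (algebraMap R (Localization (Scomp P Q))) ≠
    Q.map (algebraMap R (Localization (Scomp P Q))) := by
  intro h
  apply hPQ
  intro x hx
  rw [← mem_map_right P Q, ← h]
  exact Ideal.mem_map_of_mem _ hx

theorem u_left (hPQ : ¬ P ≤ Q) :
    ∃ u ∈ P.map (algebraMap R (Localization (Scomp P Q))),
      ∀ M : Ideal (Localization (Scomp P Q)), M.IsMaximal → u ∈ M →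
        M = P.map (algebraMap R (Localization (Scomp P Q))) := by
  obtain ⟨x, hx, hxQ⟩ := SetLike.not_le_iff_exists.mp hPQ
  refine ⟨algebraMap R _ x, Ideal.mem_map_of_mem _ hx, fun M hM hxM => ?_⟩
  rcases le_or_le P Q M hM.ne_top with h | h
  · exact hM.eq_of_le (prime_map_left P Q).ne_top h
  · exact absurd ((mem_map_right P Q x).mp (h hxM)) hxQ

theorem u_right (hQP : ¬ Q ≤ P) :
    ∃ u ∈ Q.map (algebraMap R (Localization (Scomp P Q))),
      ∀ M : Ideal (Localization (Scomp P Q)), M.IsMaximal → u ∈ M →
        M = Q.map (algebraMap R (Localization (Scomp P Q))) := by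
  obtain ⟨x, hx, hxP⟩ := SetLike.not_le_iff_exists.mp hQP
  refine ⟨algebraMap R _ x, Ideal.mem_map_of_mem _ hx, fun M hM hxM => ?_⟩
  rcases le_or_le P Q M hM.ne_top with h | h
  · exact absurd ((mem_map_left P Q x).mp (h hxM)) hxP
  · exact hM.eq_of_le (prime_map_right P Q).ne_top h

theorem inf_left (hi : Infinite (R ⧸ P)) :
    Infinite (Localization (Scomp P Q) ⧸ P.map (algebraMap R (Localization (Scomp P Q)))) := by
  have hinj : Function.Injective (Ideal.quotientMap (P.map (algebraMap R (Localization (Scomp P Q))))
      (algebraMap R (Localization (Scomp P Q))) (Ideal.le_comap_map : P ≤ _)) := by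
    apply Ideal.quotientMap_injective'
    intro x hx
    exact (mem_map_left P Q x).mp hx
  exact Infinite.of_injective _ hinj

theorem inf_right (hi : Infinite (R ⧸ Q)) :
    Infinite (Localization (Scomp P Q) ⧸ Q.map (algebraMap R (Localization (Scomp P Q)))) := by
  have hinj : Function.Injective (Ideal.quotientMap (Q.map (algebraMap R (Localization (Scomp P Q))))
      (algebraMap R (Localization (Scomp P Q))) (Ideal.le_comap_map : Q ≤ _)) := by
    apply Ideal.quotientMap_injective'
    intro x hx
    exact (mem_map_right P Q x).mp hx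
  exact Infinite.of_injective _ hinj

end loc

end Pool.Agent.AIC
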