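import Pool.Agent.AIC.HenselPlus32
import Pool.Agent.AIC.Star34
import Pool.Agent.AIC.Branch46
import Pool.Agent.AIC.PrimesLoc46
import Pool.Agent.AIC.SideUniD83

/-! MP_313bb4, stage 9, row (E5): fields with a finite extension that carries a nontrivial
henselian valuation ring. -/

set_option autoImplicit false
set_option linter.style.haveILetI false

namespace Pool.Agent.AIC

open Polynomial IsLocalRing

/-- some finite extension of `k` carries a nontrivial henselian valuation ring. -/
def HType (k : Type) [Field k] : Prop :=
  ∃ (L : Type) (_ : Field L) (_ : Algebra k L) (_ : FiniteDimensional k L) (O : ValuationSubring L),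
    O ≠ ⊤ ∧ HenselianLocalRing O

/-- in a valuation ring a nonzero polynomial is a constant times a polynomial with a coefficient
equal to `1`. -/
theorem exists_primitive94 {A : Type*} [CommRing A] [IsDomain A] [ValuationRing A] (f : A[X])
    (hf : f ≠ 0) : ∃ (a : A) (g : A[X]) (j : ℕ), a ≠ 0 ∧ f = C a * g ∧ g.coeff j = 1 := by
  classical
  have key : ∀ s : Finset ℕ, s.Nonempty → ∃ j ∈ s, ∀ i ∈ s, f.coeff j ∣ f.coeff i := by
    intro s hs
    induction hs using Finset.Nonempty.cons_induction with
    | singleton a => exact ⟨a, by simp, fun i hi => by rw [Finset.mem_singleton.1 hi]⟩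
    | cons a s ha hs ih =>
      obtain ⟨j, hj, hjs⟩ := ih
      rcases ValuationRing.dvd_total (f.coeff j) (f.coeff a) with h | h
      · refine ⟨j, Finset.mem_cons_of_mem hj, fun i hi => ?_⟩
        rcases Finset.mem_cons.1 hi with rfl | hi
        · exact h
        · exact hjs i hi
      · refine ⟨a, Finset.mem_cons_self a s, fun i hi => ?_⟩
        rcases Finset.mem_cons.1 hi with rfl | hi
        · exact dvd_rfl
        · exact h.trans (hjs i hi)
  obtain ⟨j, hj, hjs⟩ := key f.support (support_nonempty.2 hf)
  have hj0 : f.coeff j ≠ 0 := mem_support_iff.1 hj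
  have hdvd : ∀ i, f.coeff j ∣ f.coeff i := by
    intro i
    by_cases hi : f.coeff i = 0
    · rw [hi]
      exact dvd_zero _
    · exact hjs i (mem_support_iff.2 hi)
  obtain ⟨g, hg⟩ := (C_dvd_iff_dvd_coeff _ _).2 hdvd
  refine ⟨f.coeff j, g, j, hj0, hg, ?_⟩
  have h1 : f.coeff j = f.coeff j * g.coeff j := by
    conv_lhs => rw [hg]
    rw [coeff_C_mul]
  exact (mul_left_cancel₀ hj0 (by rw [mul_one]; exact h1)).symm

/-- the closure of a henselian local ring in a field is local. -/
theorem closure_local94 {A F : Type} [CommRing A] [HenselianLocalRing A] [Field F] [Algebra A F] :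
    IsLocalRing (integralClosure A F) := by
  haveI : IsScalarTower A F (AlgebraicClosure F) := inferInstance
  exact local_closure_sub (E := F) (F := AlgebraicClosure F)
    (closure_local_of_henselian (A := A) (W := AlgebraicClosure F))

theorem closure_valuation94 {A L F : Type} [CommRing A] [IsDomain A] [ValuationRing A]
    [HenselianLocalRing A] [Field L] [Algebra A L] [IsFractionRing A L] [Field F] [Algebra L F]
    [Algebra A F] [IsScalarTower A L F] [Algebra.IsAlgebraic L F] (x : F) :
    x ∈ integralClosure A F ∨ x⁻¹ ∈ integralClosure A F := by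
  haveI hloc : IsLocalRing (integralClosure A F) := closure_local94
  have hAF : Function.Injective (algebraMap A F) := by
    rw [IsScalarTower.algebraMap_eq A L F]
    exact (algebraMap L F).injective.comp (IsFractionRing.injective A L)
  obtain ⟨f, hf, hfx⟩ : IsAlgebraic A x :=
    (IsFractionRing.isAlgebraic_iff A L F).2 (Algebra.IsAlgebraic.isAlgebraic x)
  obtain ⟨a, g, j, ha, hfg, hgj⟩ := exists_primitive94 f hf
  have hgx : aeval x g = 0 := by
    rw [hfg, map_mul, aeval_C] at hfx
    rcases mul_eq_zero.1 hfx with h | h
    · exact absurd (hAF (h.trans (map_zero _).symm)) ha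
    · exact h
  have h1 := seidenberg83 (A := A) (K := F) x _ (g.map (algebraMap A (integralClosure A F)))
    le_rfl (by
      intro h0
      have h2 := congrArg (fun p => p.coeff j) h0
      simp only [coeff_map, hgj, map_one, coeff_zero] at h2
      exact one_ne_zero h2) (by
      rw [aeval_map_algebraMap]
      exact hgx)
  rcases h1 with ⟨t, ht⟩ | ⟨-, t, -, ht⟩
  · left
    rw [← ht]
    exact t.2
  · right
    rw [← ht]
    exact t.2

/-- the closure of a henselian local ring in a field is henselian. -/
theorem closure_henselian94 {A F : Type} [CommRing A] [HenselianLocalRing A] [Field F]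
    [Algebra A F] : HenselianLocalRing (integralClosure A F) := by
  haveI hloc : IsLocalRing (integralClosure A F) := closure_local94
  haveI : IsScalarTower A (integralClosure A F) (AlgebraicClosure F) := by
    refine IsScalarTower.of_algebraMap_eq fun a => ?_
    exact IsScalarTower.algebraMap_apply A F (AlgebraicClosure F) a
  haveI : FaithfulSMul (integralClosure A F) (AlgebraicClosure F) := by
    rw [faithfulSMul_iff_algebraMap_injective]
    exact (algebraMap F (AlgebraicClosure F)).injective.comp Subtype.val_injective
  have h1 : IsLocalRing (integralClosure A (AlgebraicClosure F)) :=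
    closure_local_of_henselian (A := A) (W := AlgebraicClosure F)
  have h2 : IsLocalRing (integralClosure (integralClosure A F) (AlgebraicClosure F)) := by
    have h3 : ∀ x : AlgebraicClosure F, IsIntegral A x ↔ IsIntegral (integralClosure A F) x :=
      fun x => ⟨fun h => h.tower_top, fun h => isIntegral_trans x h⟩
    let e : integralClosure A (AlgebraicClosure F) ≃+*
        integralClosure (integralClosure A F) (AlgebraicClosure F) :=
      { toFun := fun x => ⟨x, (h3 x).1 x.2⟩
        invFun := fun x => ⟨x, (h3 x).2 x.2⟩
        left_inv := fun x => rfl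
        right_inv := fun x => rfl
        map_mul' := fun x y => rfl
        map_add' := fun x y => rfl }
    exact e.isLocalRing
  exact henselian_of_unibranch34 (K := AlgebraicClosure F) h2

/-- a henselian valuation ring of `L` extends to a henselian valuation ring of an algebraic
extension `F`. -/
theorem exists_valuation_ext94 {L F : Type} [Field L] [Field F] [Algebra L F]
    [Algebra.IsAlgebraic L F] (O : ValuationSubring L) (hO : O ≠ ⊤) (hH : HenselianLocalRing O) :
    ∃ O' : ValuationSubring F, O' ≠ ⊤ ∧ HenselianLocalRing O' ∧
      ∀ x : L, algebraMap L F x ∈ O' ↔ x ∈ O := by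
  letI alg : Algebra O F := ((algebraMap L F).comp (algebraMap O L)).toAlgebra
  haveI : IsScalarTower O L F := IsScalarTower.of_algebraMap_eq fun _ => rfl
  let O' : ValuationSubring F :=
    { (integralClosure O F).toSubring with
      mem_or_inv_mem' := fun x => closure_valuation94 (A := O) (L := L) x }
  have hmem : ∀ x : F, x ∈ O' ↔ IsIntegral O x := fun x => Iff.rfl
  have hL : ∀ x : L, algebraMap L F x ∈ O' ↔ x ∈ O := by
    intro x
    rw [hmem]
    constructor
    · intro h
      have h1 : IsIntegral O x := (isIntegral_algebraMap_iff (algebraMap L F).injective).1 h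
      obtain ⟨y, hy⟩ := IsIntegrallyClosed.isIntegral_iff.1 h1
      rw [← hy]
      exact y.2
    · intro h
      exact (isIntegral_algebraMap (R := O) (x := (⟨x, h⟩ : O)))
  refine ⟨O', ?_, ?_, hL⟩
  · intro htop
    apply hO
    ext x
    constructor
    · intro _
      exact ValuationSubring.mem_top x
    · intro _
      rw [← hL x, htop]
      exact ValuationSubring.mem_top _
  · have h1 : HenselianLocalRing (integralClosure O F) := closure_henselian94 (A := O)
    let e : integralClosure O F ≃+* O' :=
      { toFun := fun x => ⟨x, x.2⟩
        invFun := fun x => ⟨x, x.2⟩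
        left_inv := fun x => rfl
        right_inv := fun x => rfl
        map_mul' := fun x y => rfl
        map_add' := fun x y => rfl }
    exact henselian_of_ringEquiv e h1

/-- a field onto which the tensor product maps is a common finite extension. -/
theorem compositum_aux94 (k L k' F : Type) [Field k] [Field L] [Algebra k L]
    [FiniteDimensional k L] [Field k'] [Algebra k k'] [FiniteDimensional k k'] [fF : Field F]
    (s : TensorProduct k L k' →+* F) (hs : Function.Surjective s) :
    ∃ (F : Type) (_ : Field F) (_ : Algebra L F) (_ : Algebra k' F),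
      FiniteDimensional L F ∧ FiniteDimensional k' F ∧
      ∀ x : k, algebraMap L F (algebraMap k L x) = algebraMap k' F (algebraMap k k' x) := by
  let iL : L →+* F := s.comp
    (Algebra.TensorProduct.includeLeft (R := k) (S := k) (A := L) (B := k')).toRingHom
  let ik : k' →+* F := s.comp
    (Algebra.TensorProduct.includeRight (R := k) (A := L) (B := k')).toRingHom
  have hk : ∀ x : k, iL (algebraMap k L x) = ik (algebraMap k k' x) := by
    intro x
    change s ((Algebra.TensorProduct.includeLeft (R := k) (S := k) (A := L)
      (B := k')) (algebraMap k L x)) = s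
      ((Algebra.TensorProduct.includeRight (R := k) (A := L) (B := k')) (algebraMap k k' x))
    rw [AlgHom.commutes, AlgHom.commutes]
  letI aL : Algebra L F := iL.toAlgebra
  letI ak : Algebra k' F := ik.toAlgebra
  letI a0 : Algebra k F := (iL.comp (algebraMap k L)).toAlgebra
  haveI t1 : IsScalarTower k L F := IsScalarTower.of_algebraMap_eq fun _ => rfl
  haveI t2 : IsScalarTower k k' F := IsScalarTower.of_algebraMap_eq fun x => hk x
  haveI fin : Module.Finite k F := by
    have h0 : Module.Finite k (TensorProduct k L k') := inferInstance
    let g : TensorProduct k L k' →ₗ[k] F :=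
      { toFun := s
        map_add' := fun x y => map_add _ x y
        map_smul' := fun r x => by
          rw [RingHom.id_apply, Algebra.smul_def, Algebra.smul_def, map_mul]
          rfl }
    exact Module.Finite.of_surjective g hs
  refine ⟨F, fF, aL, ak, ?_, ?_, hk⟩
  · exact Module.Finite.of_restrictScalars_finite k L F
  · exact Module.Finite.of_restrictScalars_finite k k' F

/-- two finite extensions of a field have a common finite extension. -/
theorem exists_compositum94 (k L k' : Type) [Field k] [Field L] [Algebra k L]
    [FiniteDimensional k L] [Field k'] [Algebra k k'] [FiniteDimensional k k'] :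
    ∃ (F : Type) (_ : Field F) (_ : Algebra L F) (_ : Algebra k' F),
      FiniteDimensional L F ∧ FiniteDimensional k' F ∧
      ∀ x : k, algebraMap L F (algebraMap k L x) = algebraMap k' F (algebraMap k k' x) := by
  obtain ⟨M, hM⟩ := Ideal.exists_maximal (TensorProduct k L k')
  exact compositum_aux94 k L k' (TensorProduct k L k' ⧸ M) (fF := Ideal.Quotient.field M)
    (Ideal.Quotient.mk M) Ideal.Quotient.mk_surjective

/-- **(E5)** H-type passes to finite extensions. -/
theorem HType.finite_ext94 {k : Type} [Field k] (h : HType k) (k' : Type) [Field k'] [Algebra k k']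
    [FiniteDimensional k k'] : HType k' := by
  obtain ⟨L, fL, aL, fdL, O, hO, hH⟩ := h
  obtain ⟨F, fF, aLF, akF, h1, h2, -⟩ := exists_compositum94 k L k'
  haveI : Algebra.IsAlgebraic L F := Algebra.IsAlgebraic.of_finite L F
  obtain ⟨O', hO', hH', -⟩ := exists_valuation_ext94 (F := F) O hO hH
  exact ⟨F, fF, akF, h2, O', hO', hH'⟩

/-- a field of H-type has a finite extension inside a given algebraically closed field such that
every larger finite extension inside carries a nontrivial henselian valuation ring. -/
theorem HType.exists_intermediate94 {k W : Type} [Field k] [Field W] [IsAlgClosed W] [Algebra k W]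
    (h : HType k) : ∃ E : IntermediateField k W, FiniteDimensional k E ∧
      ∀ E' : IntermediateField k W, E ≤ E' → FiniteDimensional k E' →
        ∃ O : ValuationSubring E', O ≠ ⊤ ∧ HenselianLocalRing O := by
  obtain ⟨L, fL, aL, fdL, O, hO, hH⟩ := h
  haveI : Algebra.IsAlgebraic k L := Algebra.IsAlgebraic.of_finite k L
  let j : L →ₐ[k] W := IsAlgClosed.lift
  refine ⟨j.fieldRange, ?_, fun E' hE hfd => ?_⟩
  · exact LinearEquiv.finiteDimensional (AlgEquiv.ofInjectiveField j).toLinearEquiv
  · have hmem : ∀ x : L, j x ∈ E' := fun x => hE ⟨x, rfl⟩
    let g : L →ₐ[k] E' := j.codRestrict E'.toSubalgebra hmem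
    letI ag : Algebra L E' := g.toRingHom.toAlgebra
    haveI : IsScalarTower k L E' := IsScalarTower.of_algebraMap_eq fun x => (g.commutes x).symm
    haveI : Module.Finite L E' := Module.Finite.of_restrictScalars_finite k L E'
    haveI : Algebra.IsAlgebraic L E' := Algebra.IsAlgebraic.of_finite L E'
    obtain ⟨O', hO', hH', -⟩ := exists_valuation_ext94 (F := E') O hO hH
    exact ⟨O', hO', hH'⟩

end Pool.Agent.AIC
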