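import Pool.Agent.AIC.Dense46
import Pool.Agent.AIC.Isolate46
import Pool.Agent.AIC.HType94

/-! MP_313bb4, stage 8: Theorem P over a general fraction field; the reduction for Theorem T. -/

set_option autoImplicit false

namespace Pool.Agent.AIC

open Finset Polynomial IsLocalRing

/-- Theorem P over a general fraction field. -/
theorem theoremPK46 {R K : Type} [CommRing R] [IsDomain R] [FirstOrder.Ring.CompatibleRing R]
    [Field K] [Algebra R K] [IsFractionRing R K] (hN : NIPRing R) (P Q : Ideal R)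
    [hP : P.IsPrime] [hQ : Q.IsPrime] (hH : HenselianLocalRing (Localization.AtPrime P))
    (hfin : {N : Ideal (integralClosure R K) | Over Q N}.Finite) : P ≤ Q ∨ Q ≤ P :=
  theoremPF hN P Q hH (over_finite_equiv
    (IsLocalization.algEquiv (nonZeroDivisors R) K (FractionRing R)) Q hfin)

/-- density passes to finite extensions -/
theorem DenseSet.ext46 {K F : Type} [Field K] [Field F] [Algebra K F] [FiniteDimensional K F]
    {S : Set K} {S' : Set F} (h : DenseSet S) {ι : Type} [Fintype ι] (θ : ι → F)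
    (hspan : ∀ x : F, ∃ a : ι → K, x = ∑ i, algebraMap K F (a i) * θ i)
    (hS' : ∀ r : ι → K, (∀ i, r i ∈ S) → ∑ i, algebraMap K F (r i) * θ i ∈ S') :
    DenseSet S' := by
  classical
  obtain ⟨A, h1, h2, h3, h4, h5⟩ := h
  letI alg : Algebra A F := ((algebraMap K F).comp (algebraMap A K)).toAlgebra
  haveI tow : IsScalarTower A K F := IsScalarTower.of_algebraMap_eq fun _ => rfl
  have hAF : ∀ a : A, algebraMap A F a = algebraMap K F (a : K) := fun _ => rfl
  haveI : IsFractionRing (integralClosure A F) F :=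
    integralClosure.isFractionRing_of_finite_extension K F
  haveI : IsIntegrallyClosed (integralClosure A F) :=
    integralClosure.isIntegrallyClosedOfFiniteExtension K
  have hinj : Function.Injective (algebraMap A F) := by
    rw [IsScalarTower.algebraMap_eq A K F]
    exact (algebraMap K F).injective.comp (IsFractionRing.injective A K)
  have hinjC : Function.Injective (algebraMap A (integralClosure A F)) := by
    intro x y hxy
    exact hinj (congrArg Subtype.val hxy)
  refine ⟨(integralClosure A F).toSubring, closure_henselian94 (A := A) (F := F),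
    inferInstanceAs (IsIntegrallyClosed (integralClosure A F)),
    inferInstanceAs (IsFractionRing (integralClosure A F) F), ?_, ?_⟩
  · intro hF
    have hF' : IsField (integralClosure A F) := hF
    exact h4 (isField_of_isIntegral_of_isField hinjC hF')
  · intro x a ha
    have ha0 : (a : F) ≠ 0 := fun h0 => ha (Subtype.ext h0)
    -- a common denominator
    have hden : ∀ i, ∃ s : A, s ≠ 0 ∧ IsIntegral A (algebraMap A F s * (θ i / (a : F))) := by
      intro i
      have hz : IsAlgebraic A (θ i / (a : F)) := (IsFractionRing.isAlgebraic_iff A K F).2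
        (Algebra.IsAlgebraic.isAlgebraic (R := K) (θ i / (a : F)))
      obtain ⟨s, hs, hi⟩ := hz.exists_integral_multiple
      exact ⟨s, hs, by rw [← Algebra.smul_def]; exact hi⟩
    choose s hs hint using hden
    set w : A := ∏ i, s i with hw
    have hw0 : w ≠ 0 := Finset.prod_ne_zero_iff.mpr fun i _ => hs i
    have hwi : ∀ i, IsIntegral A (algebraMap A F w * (θ i / (a : F))) := by
      intro i
      have h6 : algebraMap A F w * (θ i / (a : F)) =
          algebraMap A F (∏ j ∈ univ.erase i, s j) * (algebraMap A F (s i) * (θ i / (a : F))) := by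
        rw [hw, ← mul_prod_erase univ s (mem_univ i), map_mul]
        ring
      rw [h6]
      exact isIntegral_algebraMap.mul (hint i)
    obtain ⟨c, hc⟩ := hspan x
    have h7 : ∀ i, ∃ r ∈ S, ∃ b : A, c i = r + (w : K) * (b : K) := fun i => h5 (c i) w hw0
    choose r hr b hb using h7
    have hbint : IsIntegral A (∑ i, algebraMap A F (b i) *
        (algebraMap A F w * (θ i / (a : F)))) :=
      IsIntegral.sum _ fun i _ => isIntegral_algebraMap.mul (hwi i)
    refine ⟨_, hS' r hr, ⟨_, hbint⟩, ?_⟩
    change x = ∑ i, algebraMap K F (r i) * θ i +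
      (a : F) * ∑ i, algebraMap A F (b i) * (algebraMap A F w * (θ i / (a : F)))
    rw [hc, Finset.mul_sum, ← Finset.sum_add_distrib]
    refine Finset.sum_congr rfl fun i _ => ?_
    rw [hb i, map_add, map_mul, hAF, hAF]
    field_simp

section locset

variable {R K T F : Type} [CommRing R] [IsDomain R] [Field K] [Algebra R K] [IsFractionRing R K]
  [CommRing T] [IsDomain T] [Field F] [Algebra T F] [Algebra R T] [Algebra K F] [Algebra R F]
  [IsScalarTower R K F] [IsScalarTower R T F]

theorem locSet_mul {P Q : Ideal T} (hP : P.IsPrime) (hQ : Q.IsPrime) {x y : F}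
    (hx : x ∈ LocSet P Q F) (hy : y ∈ LocSet P Q F) : x * y ∈ LocSet P Q F := by
  obtain ⟨t, s, h1, h2, h3⟩ := hx
  obtain ⟨t', s', h1', h2', h3'⟩ := hy
  refine ⟨t * t', s * s', fun h => ?_, fun h => ?_, ?_⟩
  · exact (hP.mem_or_mem h).elim h1 h1'
  · exact (hQ.mem_or_mem h).elim h2 h2'
  · rw [map_mul, map_mul, ← h3, ← h3']; ring

theorem locSet_add {P Q : Ideal T} (hP : P.IsPrime) (hQ : Q.IsPrime) {x y : F}
    (hx : x ∈ LocSet P Q F) (hy : y ∈ LocSet P Q F) : x + y ∈ LocSet P Q F := by
  obtain ⟨t, s, h1, h2, h3⟩ := hx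
  obtain ⟨t', s', h1', h2', h3'⟩ := hy
  refine ⟨t * s' + t' * s, s * s', fun h => ?_, fun h => ?_, ?_⟩
  · exact (hP.mem_or_mem h).elim h1 h1'
  · exact (hQ.mem_or_mem h).elim h2 h2'
  · rw [map_mul, map_add, map_mul, map_mul, ← h3, ← h3']; ring

theorem locSet_algebraMap {P Q : Ideal T} (hP : P.IsPrime) (hQ : Q.IsPrime) (t : T) :
    algebraMap T F t ∈ LocSet P Q F :=
  ⟨t, 1, fun h => hP.ne_top ((Ideal.eq_top_iff_one _).mpr h),
    fun h => hQ.ne_top ((Ideal.eq_top_iff_one _).mpr h), by rw [map_one, mul_one]⟩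

theorem locSet_sum {P Q : Ideal T} (hP : P.IsPrime) (hQ : Q.IsPrime) {ι : Type}
    (s : Finset ι) (f : ι → F) (hf : ∀ i ∈ s, f i ∈ LocSet P Q F) :
    ∑ i ∈ s, f i ∈ LocSet P Q F := by
  refine Finset.sum_induction f (fun x => x ∈ LocSet P Q F)
    (fun x y hx hy => locSet_add hP hQ hx hy) ?_ hf
  have := locSet_algebraMap (F := F) hP hQ (0 : T)
  rwa [map_zero] at this

theorem locSet_map {P Q : Ideal R} {P' Q' : Ideal T}
    (hPP : ∀ r : R, algebraMap R T r ∈ P' ↔ r ∈ P) (hQQ : ∀ r : R, algebraMap R T r ∈ Q' ↔ r ∈ Q)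
    {x : K} (hx : x ∈ LocSet P Q K) : algebraMap K F x ∈ LocSet P' Q' F := by
  obtain ⟨t, s, h1, h2, h3⟩ := hx
  refine ⟨algebraMap R T t, algebraMap R T s, fun h => h1 ((hPP s).mp h),
    fun h => h2 ((hQQ s).mp h), ?_⟩
  rw [← IsScalarTower.algebraMap_apply R T F, ← IsScalarTower.algebraMap_apply R T F,
    IsScalarTower.algebraMap_apply R K F, IsScalarTower.algebraMap_apply R K F, ← map_mul, h3]

/-- an extension which contains a basis has the large fraction field -/
theorem isFractionRing_of_basis (R : Type) {K T F : Type} [CommRing R] [IsDomain R] [Field K]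
    [Algebra R K] [IsFractionRing R K] [CommRing T] [IsDomain T] [Field F] [Algebra T F]
    [Algebra R T] [Algebra K F] [Algebra R F] [IsScalarTower R K F] [IsScalarTower R T F]
    {ι : Type} [Fintype ι] (hinj : Function.Injective (algebraMap T F))
    (θ : ι → F) (hθ : ∀ i, ∃ t : T, algebraMap T F t = θ i)
    (hspan : ∀ x : F, ∃ a : ι → K, x = ∑ i, algebraMap K F (a i) * θ i) :
    IsFractionRing T F := by
  classical
  haveI : FaithfulSMul T F := (faithfulSMul_iff_algebraMap_injective _ _).mpr hinj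
  refine IsFractionRing.of_field _ _ fun z => ?_
  obtain ⟨a, ha⟩ := hspan z
  choose t ht using hθ
  obtain ⟨d, hd⟩ := IsLocalization.exist_integer_multiples_of_finite (nonZeroDivisors R) a
  have hd' : ∀ i, ∃ x : R, algebraMap R K x = algebraMap R K (d : R) * a i := by
    intro i
    obtain ⟨x, hx⟩ := hd i
    exact ⟨x, by rw [← Algebra.smul_def]; exact hx⟩
  choose b hb using hd'
  have hd0 : algebraMap R K (d : R) ≠ 0 := by
    intro h
    exact nonZeroDivisors.ne_zero d.2 (IsFractionRing.injective R K (by rw [h, map_zero]))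
  have hdF : algebraMap T F (algebraMap R T (d : R)) ≠ 0 := by
    rw [← IsScalarTower.algebraMap_apply R T F, IsScalarTower.algebraMap_apply R K F]
    exact (_root_.map_ne_zero (algebraMap K F)).mpr hd0
  refine ⟨∑ i, algebraMap R T (b i) * t i, algebraMap R T (d : R), ?_⟩
  rw [eq_div_iff hdF, map_sum, ha, Finset.sum_mul]
  refine Finset.sum_congr rfl fun i _ => ?_
  rw [map_mul, ht, ← IsScalarTower.algebraMap_apply R T F, ← IsScalarTower.algebraMap_apply R T F,
    IsScalarTower.algebraMap_apply R K F, IsScalarTower.algebraMap_apply R K F, hb, map_mul]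
  ring

/-- density passes to the localization of a finite extension which contains a basis -/
theorem dense_locSet_ext [FiniteDimensional K F] {P Q : Ideal R} {P' Q' : Ideal T}
    (hP' : P'.IsPrime) (hQ' : Q'.IsPrime)
    (hPP : ∀ r : R, algebraMap R T r ∈ P' ↔ r ∈ P) (hQQ : ∀ r : R, algebraMap R T r ∈ Q' ↔ r ∈ Q)
    {ι : Type} [Fintype ι] (θ : ι → F) (hθ : ∀ i, ∃ t : T, algebraMap T F t = θ i)
    (hspan : ∀ x : F, ∃ a : ι → K, x = ∑ i, algebraMap K F (a i) * θ i)
    (h : DenseSet (LocSet P Q K)) : DenseSet (LocSet P' Q' F) := by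
  refine h.ext46 θ hspan fun r hr => locSet_sum hP' hQ' _ _ fun i _ => ?_
  obtain ⟨t, ht⟩ := hθ i
  rw [← ht]
  exact locSet_mul hP' hQ' (locSet_map hPP hQQ (hr i)) (locSet_algebraMap hP' hQ' t)

end locset

/-- integral elements which span a finite extension -/
theorem exists_integral_span (R K F : Type) [CommRing R] [IsDomain R] [Field K] [Algebra R K]
    [IsFractionRing R K] [Field F] [Algebra K F] [Algebra R F] [IsScalarTower R K F]
    [FiniteDimensional K F] : ∃ (s : Finset F) (θ : s → F), (∀ i, IsIntegral R (θ i)) ∧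
      ∀ x : F, ∃ a : s → K, x = ∑ i, algebraMap K F (a i) * θ i := by
  obtain ⟨s, b, hb⟩ := FiniteDimensional.exists_is_basis_integral R K F
  refine ⟨s, b, hb, fun x => ⟨fun i => b.repr x i, ?_⟩⟩
  conv_lhs => rw [← b.sum_repr x]
  exact Finset.sum_congr rfl fun i _ => Algebra.smul_def _ _

/-- one step of the reduction, through a finite Galois extension with a root of unity -/
theorem theoremT_step
    (core : ∀ (T : Type) [CommRing T] [IsDomain T] [FirstOrder.Ring.CompatibleRing T],
      NIPRing T → ∀ (P Q : Ideal T) [P.IsPrime] [Q.IsPrime],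
      IsLocalRing (integralClosure (Localization.AtPrime P) (FractionRing T)) →
      IsLocalRing (integralClosure (Localization.AtPrime Q) (FractionRing T)) →
      ∀ (q : ℕ), q.Prime → (q : T) ∉ P → (q : T) ∉ Q →
      ∀ ζ : T, ∑ j ∈ Finset.range q, ζ ^ j = 0 →
      DenseSet (LocSet P Q (FractionRing T)) → P ≤ Q ∨ Q ≤ P)
    {R K F : Type} [CommRing R] [IsDomain R] [FirstOrder.Ring.CompatibleRing R]
    [Field K] [Algebra R K] [IsFractionRing R K] (hN : NIPRing R) (P Q : Ideal R)
    [hP : P.IsPrime] [hQ : Q.IsPrime] [Field F] [Algebra K F] [Algebra R F]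
    [IsScalarTower R K F] [FiniteDimensional K F] [IsGalois K F]
    (q : ℕ) (hq : q.Prime) (hqP : (q : R) ∉ P) (hqQ : (q : R) ∉ Q)
    (ζ : F) (hζi : IsIntegral R ζ) (hζs : ∑ j ∈ range q, ζ ^ j = 0)
    (hfinP : {N : Ideal (integralClosure R K) | Over P N}.Finite)
    (hfinQ : {N : Ideal (integralClosure R K) | Over Q N}.Finite)
    (hD : DenseSet (LocSet P Q K)) : P ≤ Q ∨ Q ≤ P := by
  classical
  have hinjK : Function.Injective (algebraMap R K) := IsFractionRing.injective R _
  have hinjF : Function.Injective (algebraMap R F) := by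
    rw [IsScalarTower.algebraMap_eq R K F]
    exact (algebraMap K F).injective.comp hinjK
  haveI : FaithfulSMul R F := (faithfulSMul_iff_algebraMap_injective R F).mpr hinjF
  obtain ⟨s, θ, hθi, hθs⟩ := exists_integral_span R K F
  obtain ⟨T, hTfin, hE, hiso⟩ := exists_isolating_set (R := R) (F := F)
    ({N | Over P N} ∪ {N | Over Q N})
    ((finite_over_galois R K F P hfinP).union (finite_over_galois R K F Q hfinQ))
    (insert ζ (Set.range θ)) ((Set.finite_range θ).insert ζ) (by
      intro x hx
      rcases hx with hx | ⟨i, hi⟩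
      · rw [hx]; exact hζi
      · rw [← hi]; exact hθi i)
  have hζT : ζ ∈ T := hE (Set.mem_insert ζ _)
  have hθT : ∀ i, ∃ t : T, algebraMap T F t = θ i := fun i =>
    ⟨⟨θ i, hE (Set.mem_insert_of_mem _ ⟨i, rfl⟩)⟩, rfl⟩
  haveI hTint : Algebra.IsIntegral R T := inferInstance
  have hinjRT : Function.Injective (algebraMap R T) := by
    intro x y hxy
    exact hinjF (congrArg Subtype.val hxy)
  have hinjTF : Function.Injective (algebraMap T F) := Subtype.val_injective
  haveI : FaithfulSMul T F := (faithfulSMul_iff_algebraMap_injective _ _).mpr hinjTF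
  obtain ⟨P', hP'p, hP'P⟩ := exists_prime_over hinjRT P
  obtain ⟨Q', hQ'p, hQ'Q⟩ := exists_prime_over hinjRT Q
  haveI := hP'p
  haveI := hQ'p
  letI : FirstOrder.Ring.CompatibleRing T := FirstOrder.Ring.compatibleRingOfRing T
  have hNT : NIPRing T := nip_subalgebra_plus (K := K) T hN
  have hUP : IsLocalRing (integralClosure (Localization.AtPrime P') (FractionRing T)) :=
    local_fraction_of_unique (F := F) P' fun N N' hN hN' => hiso P' N N' hN hN'
      (Or.inl (over_comap P P' hP'P N hN)) (Or.inl (over_comap P P' hP'P N' hN'))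
  have hUQ : IsLocalRing (integralClosure (Localization.AtPrime Q') (FractionRing T)) :=
    local_fraction_of_unique (F := F) Q' fun N N' hN hN' => hiso Q' N N' hN hN'
      (Or.inr (over_comap Q Q' hQ'Q N hN)) (Or.inr (over_comap Q Q' hQ'Q N' hN'))
  haveI hfrac : IsFractionRing T F := isFractionRing_of_basis R hinjTF θ hθT hθs
  have hdF : DenseSet (LocSet P' Q' F) := dense_locSet_ext hP'p hQ'p hP'P hQ'Q θ hθT hθs hD
  let e : F ≃ₐ[T] FractionRing T := IsLocalization.algEquiv (nonZeroDivisors T) F (FractionRing T)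
  have hdT : DenseSet (LocSet P' Q' (FractionRing T)) := by
    refine (hdF.map e.toRingEquiv).mono ?_
    rintro _ ⟨x, ⟨t, s, h1, h2, h3⟩, rfl⟩
    refine ⟨t, s, h1, h2, ?_⟩
    change e x * _ = _
    rw [← e.commutes, ← e.commutes, ← map_mul, h3]
  have hres := core T hNT P' Q' hUP hUQ q hq (fun h => hqP ((hP'P _).mp (by rwa [map_natCast])))
      (fun h => hqQ ((hQ'Q _).mp (by rwa [map_natCast]))) ⟨ζ, hζT⟩ (by
        apply Subtype.ext
        have h1 : ((∑ j ∈ range q, (⟨ζ, hζT⟩ : T) ^ j : T) : F) = ∑ j ∈ range q, ζ ^ j := by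
          simp
        rw [h1, hζs]
        rfl) hdT
  rcases hres with h | h
  · left
    intro x hx
    exact (hQ'Q x).mp (h ((hP'P x).mpr hx))
  · right
    intro x hx
    exact (hP'P x).mp (h ((hQ'Q x).mpr hx))

/-- **reduction for Theorem T**: from unibranch primes in domains with a root of unity to
primes with finitely many branches -/
theorem theoremT_of_core
    (core : ∀ (T : Type) [CommRing T] [IsDomain T] [FirstOrder.Ring.CompatibleRing T],
      NIPRing T → ∀ (P Q : Ideal T) [P.IsPrime] [Q.IsPrime],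
      IsLocalRing (integralClosure (Localization.AtPrime P) (FractionRing T)) →
      IsLocalRing (integralClosure (Localization.AtPrime Q) (FractionRing T)) →
      ∀ (q : ℕ), q.Prime → (q : T) ∉ P → (q : T) ∉ Q →
      ∀ ζ : T, ∑ j ∈ Finset.range q, ζ ^ j = 0 →
      DenseSet (LocSet P Q (FractionRing T)) → P ≤ Q ∨ Q ≤ P)
    {R K : Type} [CommRing R] [IsDomain R] [FirstOrder.Ring.CompatibleRing R]
    [Field K] [Algebra R K] [IsFractionRing R K] (hN : NIPRing R) (P Q : Ideal R)
    [hP : P.IsPrime] [hQ : Q.IsPrime]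
    (hfinP : {N : Ideal (integralClosure R K) | Over P N}.Finite)
    (hfinQ : {N : Ideal (integralClosure R K) | Over Q N}.Finite)
    (hD : DenseSet (LocSet P Q K)) : P ≤ Q ∨ Q ≤ P := by
  obtain ⟨q, hq, hqP, hqQ⟩ := exists_q_prime P Q hP hQ
  have hinjK : Function.Injective (algebraMap R K) := IsFractionRing.injective R _
  have hqR : (q : R) ≠ 0 := fun h => hqP (h ▸ P.zero_mem)
  haveI : NeZero q := ⟨hq.ne_zero⟩
  haveI : NeZero ((q : ℕ) : K) := ⟨fun h => hqR (hinjK (by rw [map_natCast, h, map_zero]))⟩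
  haveI : IsGalois K (CyclotomicField q K) :=
    IsCyclotomicExtension.isGalois {q} K (CyclotomicField q K)
  haveI : FiniteDimensional K (CyclotomicField q K) :=
    IsCyclotomicExtension.finiteDimensional {q} K (CyclotomicField q K)
  obtain ⟨ζ, hζp⟩ : ∃ ζ : CyclotomicField q K, IsPrimitiveRoot ζ q :=
    (CyclotomicField.isCyclotomicExtension q K).exists_isPrimitiveRoot
      (Set.mem_singleton q) hq.ne_zero
  have hζs : ∑ j ∈ range q, ζ ^ j = 0 := hζp.geom_sum_eq_zero hq.one_lt
  have hζi : IsIntegral R ζ := by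
    refine ⟨X ^ q - C 1, monic_X_pow_sub_C 1 hq.ne_zero, ?_⟩
    rw [eval₂_sub, eval₂_X_pow, eval₂_C, map_one, hζp.pow_eq_one, sub_self]
  exact theoremT_step core (F := CyclotomicField q K) hN P Q q hq hqP hqQ ζ hζi hζs hfinP hfinQ hD

/-- the patterns for two unibranch maximal ideals of a dense ring -/
def ClaimTL : Prop :=
  ∀ (L : Type) [CommRing L] [IsDomain L] (q : ℕ) [Fact q.Prime] (n : ℕ), 2 ≤ n →
    ∀ (m₁ m₂ : Ideal L) [m₁.IsMaximal] [m₂.IsMaximal], m₁ ≠ m₂ →
    (∀ M : Ideal L, M.IsMaximal → M = m₁ ∨ M = m₂) →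
    IsLocalRing (integralClosure (Localization.AtPrime m₁) (FractionRing L)) →
    IsLocalRing (integralClosure (Localization.AtPrime m₂) (FractionRing L)) →
    (∃ u ∈ m₁, ∀ M : Ideal L, M.IsMaximal → u ∈ M → M = m₁) →
    (∃ u ∈ m₂, ∀ M : Ideal L, M.IsMaximal → u ∈ M → M = m₂) →
    (q : L) ∉ m₁ → (q : L) ∉ m₂ → ∀ ζ : L, ∑ j ∈ range q, ζ ^ j = 0 →
    HasDense L (FractionRing L) → PatLoc m₁ m₂ q ζ n

/-- the core of Theorem T -/
theorem theoremT_core (hcl : ClaimTL) (R : Type) [CommRing R] [IsDomain R]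
    [FirstOrder.Ring.CompatibleRing R] (hN : NIPRing R) (P Q : Ideal R) [hP : P.IsPrime]
    [hQ : Q.IsPrime]
    (hUP : IsLocalRing (integralClosure (Localization.AtPrime P) (FractionRing R)))
    (hUQ : IsLocalRing (integralClosure (Localization.AtPrime Q) (FractionRing R)))
    (q : ℕ) (hq : q.Prime) (hqP : (q : R) ∉ P) (hqQ : (q : R) ∉ Q)
    (ζ : R) (hζ : ∑ j ∈ Finset.range q, ζ ^ j = 0)
    (hD : DenseSet (LocSet P Q (FractionRing R))) : P ≤ Q ∨ Q ≤ P := by
  refine comparable_of_patLoc hN P Q q hq hqP hqQ ζ hζ fun hPQ hQP n hn => ?_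
  have hL := isDomain_L P Q
  have hm1 := max_left P Q hPQ
  have hm2 := max_right P Q hQP
  have hfact : Fact q.Prime := ⟨hq⟩
  have hall : ∀ M : Ideal (Localization (Scomp P Q)), M.IsMaximal →
      M = P.map (algebraMap R (Localization (Scomp P Q))) ∨
      M = Q.map (algebraMap R (Localization (Scomp P Q))) := by
    intro M hM
    rcases le_or_le P Q M hM.ne_top with h | h
    · exact Or.inl (hM.eq_of_le hm1.ne_top h)
    · exact Or.inr (hM.eq_of_le hm2.ne_top h)
  exact hcl (Localization (Scomp P Q)) q n hn _ _ (ne_left_right P Q hPQ) hall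
    (unibranch_at P Q _ P (under_left P Q) hUP) (unibranch_at P Q _ Q (under_right P Q) hUQ)
    (u_left P Q hPQ) (u_right P Q hQP)
    (fun h => hqP ((mem_map_left P Q _).mp (by rwa [map_natCast])))
    (fun h => hqQ ((mem_map_right P Q _).mp (by rwa [map_natCast])))
    (algebraMap R (Localization (Scomp P Q)) ζ) (by
      have := congrArg (algebraMap R (Localization (Scomp P Q))) hζ
      simpa [map_sum, map_pow] using this) (hasDense_of_locSet P Q hD)

/-- **Theorem T** (pair form, from the claim): if the localization of an NIP domain at the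
complement of `P ∪ Q` is dense in the fraction field for the topology of a henselian subring, and
the closure has finitely many primes over `P` and over `Q`, then `P` and `Q` are comparable. -/
theorem theoremT46 (hcl : ClaimTL) {R K : Type} [CommRing R] [IsDomain R]
    [FirstOrder.Ring.CompatibleRing R]
    [Field K] [Algebra R K] [IsFractionRing R K] (hN : NIPRing R) (P Q : Ideal R)
    [hP : P.IsPrime] [hQ : Q.IsPrime]
    (hfinP : {N : Ideal (integralClosure R K) | Over P N}.Finite)
    (hfinQ : {N : Ideal (integralClosure R K) | Over Q N}.Finite)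
    (hD : DenseSet (LocSet P Q K)) : P ≤ Q ∨ Q ≤ P :=
  theoremT_of_core (fun T _ _ _ hT P Q _ _ h1 h2 q hq h3 h4 ζ hζ h5 =>
    theoremT_core hcl T hT P Q h1 h2 q hq h3 h4 ζ hζ h5) hN P Q hfinP hfinQ hD

end Pool.Agent.AIC
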