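import Mathlib
import Pool.Agent.AIC.Coarse38
import Pool.Agent.AIC.TheoremT46
import Pool.Agent.AIC.EndLemmas82

/-!
# Stage 10: the bounded half

A henselian valuation ring `O` of the fraction field which contains the localization at the
complement of `P ∪ Q`: its centre lies in `P` or in `Q`, gives a henselian localization in a finite
extension, and Theorem P applies.
-/

set_option autoImplicit false
set_option linter.style.haveILetI false

namespace Pool.Agent.AIC

open Finset Polynomial IsLocalRing FirstOrder FirstOrder.Ring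

theorem integral_mem82 {A K : Type} [CommRing A] [Field K] [Algebra A K] (O : ValuationSubring K)
    (hA : ∀ a : A, algebraMap A K a ∈ O) {x : K} (hx : IsIntegral A x) : x ∈ O := by
  have hx' : IsIntegral O x := by
    obtain ⟨p, hp, h0⟩ := hx
    have hcomp : (algebraMap O K).comp ((algebraMap A K).codRestrict O hA) = algebraMap A K := by
      ext a
      rfl
    refine ⟨p.map ((algebraMap A K).codRestrict O hA), hp.map _, ?_⟩
    rw [eval₂_map, hcomp]
    exact h0
  obtain ⟨y, hy⟩ := (IsIntegrallyClosed.isIntegral_iff (R := O) (K := K)).1 hx'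
  rw [← hy]
  exact y.2

/-- the centre lies in `P`. -/
theorem bounded_aux82 {R K : Type} [CommRing R] [IsDomain R] [Field K] [Algebra R K]
    [IsFractionRing R K] [CompatibleRing R] (hN : NIPRing R) (P Q : Ideal R)
    [hQp : Q.IsPrime] (hQP : ¬ Q ≤ P)
    (hno : ∀ q : Ideal R, q.IsPrime → q ≤ P → q ≤ Q → q = ⊥)
    (hfin : ∀ p : Ideal R, p.IsPrime → (p ≤ P ∨ p ≤ Q) →
      {N : Ideal (integralClosure R K) | Over p N}.Finite)
    (O : ValuationSubring K) (hO : O ≠ ⊤) (hOh : HenselianLocalRing O)
    (hR : ∀ x : R, algebraMap R K x ∈ O) (hle : center38 O hR ≤ P) : False := by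
  have hp0 := center_ne_bot38 O hO hR
  have hpQ : ¬ center38 O hR ≤ Q := fun h => hp0 (hno _ inferInstance hle h)
  obtain ⟨T, hTfin, -, hiso⟩ := exists_isolating_set (R := R) (F := K)
    {N : Ideal (integralClosure R K) | Over (center38 O hR) N} (hfin _ inferInstance (Or.inl hle))
    ∅ Set.finite_empty (fun x hx => absurd hx (Set.notMem_empty x))
  letI : CompatibleRing T := compatibleRingOfRing _
  have hNT : NIPRing T := nip_subalgebra T hN
  haveI hTint : Algebra.IsIntegral R T := inferInstance
  have hT : ∀ x : T, algebraMap T K x ∈ O := by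
    intro x
    refine integral_mem82 O hR ?_
    have h1 : IsIntegral R x := Algebra.IsIntegral.isIntegral x
    exact h1.map (IsScalarTower.toAlgHom R T K)
  haveI : IsFractionRing T K := by
    haveI : FaithfulSMul T K :=
      (faithfulSMul_iff_algebraMap_injective _ _).mpr Subtype.val_injective
    refine IsFractionRing.of_field _ _ fun z => ?_
    obtain ⟨a, b, hb, rfl⟩ := IsFractionRing.div_surjective (A := R) z
    exact ⟨algebraMap R T a, algebraMap R T b, rfl⟩
  have hinj : Function.Injective (algebraMap R T) := by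
    intro x y hxy
    exact IsFractionRing.injective R K (congrArg Subtype.val hxy)
  have hp1 : ∀ r : R, algebraMap R T r ∈ center38 O hT ↔ r ∈ center38 O hR := by
    intro r
    rw [mem_center38, mem_center38]
    exact Iff.rfl
  -- the henselian prime
  have hu : ∀ N N' : Ideal (integralClosure T K), Over (center38 O hT) N →
      Over (center38 O hT) N' → N = N' := fun N N' h1 h2 =>
    hiso _ N N' h1 h2 (over_comap _ _ hp1 N h1) (over_comap _ _ hp1 N' h2)
  haveI : FaithfulSMul T K :=
    (faithfulSMul_iff_algebraMap_injective _ _).mpr Subtype.val_injective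
  have hH : HenselianLocalRing (Localization.AtPrime (center38 O hT)) := by
    obtain ⟨alg, htow, hinjA⟩ := exists_algebra_loc (T := T) (F := K) (center38 O hT)
    haveI : FaithfulSMul (Localization.AtPrime (center38 O hT)) K :=
      (faithfulSMul_iff_algebraMap_injective _ _).mpr hinjA
    haveI : IsDomain (Localization.AtPrime (center38 O hT)) :=
      IsLocalization.isDomain_localization (center38 O hT).primeCompl_le_nonZeroDivisors
    exact henselian_center38 O hOh hT (Localization.AtPrime (center38 O hT)) (center38 O hT) rfl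
      (local_of_unique (center38 O hT) (Localization.AtPrime (center38 O hT)) hu)
  -- the other prime
  obtain ⟨Q₁, hQ₁p, hQ₁⟩ := exists_prime_over (R := R) (T := T) hinj Q
  have hfin₁ : {N : Ideal (integralClosure T K) | Over Q₁ N}.Finite := by
    refine Set.Finite.of_finite_image (f := fun N => N.comap (closureMap R T K))
      ((hfin Q hQp (Or.inr le_rfl)).subset ?_) ?_
    · rintro _ ⟨N, hN, rfl⟩
      exact over_comap Q Q₁ hQ₁ N hN
    · intro N _ N' _ h
      exact comap_injective (R := R) N N' h
  have hcP := comap_eq_of_over82 _ _ hp1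
  have hcQ := comap_eq_of_over82 Q Q₁ hQ₁
  rcases theoremPK46 (K := K) hNT (center38 O hT) Q₁ hH hfin₁ with h3 | h3
  · apply hpQ
    rw [← hcP, ← hcQ]
    exact Ideal.comap_mono h3
  · apply hQP
    refine le_trans ?_ hle
    rw [← hcP, ← hcQ]
    exact Ideal.comap_mono h3

/-- **the bounded half**. -/
theorem bounded_half82 {R K : Type} [CommRing R] [IsDomain R] [Field K] [Algebra R K]
    [IsFractionRing R K] [CompatibleRing R] (hN : NIPRing R) (P Q : Ideal R) [P.IsPrime]
    [Q.IsPrime] (hPQ : ¬ P ≤ Q) (hQP : ¬ Q ≤ P)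
    (hno : ∀ q : Ideal R, q.IsPrime → q ≤ P → q ≤ Q → q = ⊥)
    (hfin : ∀ p : Ideal R, p.IsPrime → (p ≤ P ∨ p ≤ Q) →
      {N : Ideal (integralClosure R K) | Over p N}.Finite)
    (O : ValuationSubring K) (hO : O ≠ ⊤) (hOh : HenselianLocalRing O)
    (hL : ∀ t s : R, s ∉ P → s ∉ Q → algebraMap R K t / algebraMap R K s ∈ O) : False := by
  have h1P : (1 : R) ∉ P := fun h => (inferInstance : P.IsPrime).ne_top
    ((Ideal.eq_top_iff_one _).2 h)
  have h1Q : (1 : R) ∉ Q := fun h => (inferInstance : Q.IsPrime).ne_top
    ((Ideal.eq_top_iff_one _).2 h)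
  have hR : ∀ x : R, algebraMap R K x ∈ O := by
    intro x
    have h1 := hL x 1 h1P h1Q
    rwa [map_one, div_one] at h1
  rcases center_le_or38 O hR P Q (fun x hxP hxQ => by
      have h1 := hL 1 x hxP hxQ
      rwa [map_one, one_div] at h1) with h | h
  · exact bounded_aux82 hN P Q hQP hno hfin O hO hOh hR h
  · exact bounded_aux82 hN Q P hPQ (fun q hq h1 h2 => hno q hq h2 h1)
      (fun p hp hle => hfin p hp hle.symm) O hO hOh hR h

end Pool.Agent.AIC
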