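import Pool.Agent.AIC.Branch46
import Pool.Agent.AIC.AlgH83

/-!
# MP_313bb4, stage 10: the end of Theorem F

If in every finite extension domain of `R` any two primes over `P` are comparable, then the
localization at `P` is henselian.
-/

set_option autoImplicit false

namespace Pool.Agent.AIC

open Polynomial IsLocalRing

/-- comparability of the primes over `P` in all finite extension domains gives a henselian
localization. -/
theorem henselian_of_comparable32_aux {R W : Type} [CommRing R] [IsDomain R] [Field W]
    [IsAlgClosed W] [Algebra R W] (hinjW : Function.Injective (algebraMap R W)) (P : Ideal R)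
    [hP : P.IsPrime]
    (h : ∀ (T : Type) [CommRing T] [IsDomain T] [Algebra R T] [Module.Finite R T],
      Function.Injective (algebraMap R T) → ∀ P₁ P₂ : Ideal T, P₁.IsPrime → P₂.IsPrime →
      P₁.comap (algebraMap R T) = P → P₂.comap (algebraMap R T) = P → P₁ ≤ P₂ ∨ P₂ ≤ P₁) :
    HenselianLocalRing (Localization.AtPrime P) := by
  haveI : FaithfulSMul R W := (faithfulSMul_iff_algebraMap_injective _ _).mpr hinjW
  have hle : ∀ N N' : Ideal (integralClosure R W), Over P N → Over P N' → N ≤ N' := by
    intro N N' hN hN' z hz
    set T : Subalgebra R W := Algebra.adjoin R {(z : W)} with hT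
    have hzint : IsIntegral R (z : W) := z.2
    haveI hfin : Module.Finite R T :=
      ⟨(Submodule.fg_top _).2 hzint.fg_adjoin_singleton⟩
    have hTle : T ≤ integralClosure R W := by
      rw [hT, Algebra.adjoin_le_iff]
      intro x hx
      rw [Set.mem_singleton_iff] at hx
      rw [hx]
      exact hzint
    have hinjT : Function.Injective (algebraMap R T) := by
      intro a b hab
      apply hinjW
      exact congrArg (fun t : T => (t : W)) hab
    let ι : T →+* integralClosure R W := (Subalgebra.inclusion hTle).toRingHom
    haveI := hN.1
    haveI := hN'.1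
    have hι : ∀ r : R, ι (algebraMap R T r) = algebraMap R (integralClosure R W) r := fun r => rfl
    have e1 : (N.comap ι).comap (algebraMap R T) = P := by
      ext r
      rw [Ideal.mem_comap, Ideal.mem_comap, hι]
      exact hN.2 r
    have e2 : (N'.comap ι).comap (algebraMap R T) = P := by
      ext r
      rw [Ideal.mem_comap, Ideal.mem_comap, hι]
      exact hN'.2 r
    haveI p1 : (N.comap ι).IsPrime := Ideal.comap_isPrime ι N
    haveI p2 : (N'.comap ι).IsPrime := Ideal.comap_isPrime ι N'
    have hzT : (z : W) ∈ T := Algebra.subset_adjoin rfl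
    have hz1 : (⟨(z : W), hzT⟩ : T) ∈ N.comap ι := by
      rw [Ideal.mem_comap]
      exact hz
    have heq : N.comap ι = N'.comap ι := by
      rcases h T hinjT _ _ p1 p2 e1 e2 with hc | hc
      · by_contra hne
        have hlt := Ideal.IsIntegral.comap_lt_comap (R := R) (lt_of_le_of_ne hc hne)
        rw [e1, e2] at hlt
        exact lt_irrefl _ hlt
      · by_contra hne
        have hlt := Ideal.IsIntegral.comap_lt_comap (R := R) (lt_of_le_of_ne hc (Ne.symm hne))
        rw [e1, e2] at hlt
        exact lt_irrefl _ hlt
    rw [heq, Ideal.mem_comap] at hz1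
    exact hz1
  obtain ⟨alg, htow, hinjA⟩ := exists_algebra_loc (T := R) (F := W) P
  haveI : FaithfulSMul (Localization.AtPrime P) W :=
    (faithfulSMul_iff_algebraMap_injective _ _).mpr hinjA
  haveI : IsDomain (Localization.AtPrime P) :=
    IsLocalization.isDomain_localization P.primeCompl_le_nonZeroDivisors
  have hloc : IsLocalRing (integralClosure (Localization.AtPrime P) W) :=
    local_of_unique P (Localization.AtPrime P)
      (fun N N' hN hN' => le_antisymm (hle N N' hN hN') (hle N' N hN' hN))
  exact henselian_of_unibranch34 hloc

/-- comparability of the primes over `P` in all finite extension domains gives a henselian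
localization. -/
theorem henselian_of_comparable32 {R : Type} [CommRing R] [IsDomain R] (P : Ideal R)
    [hP : P.IsPrime]
    (h : ∀ (T : Type) [CommRing T] [IsDomain T] [Algebra R T] [Module.Finite R T],
      Function.Injective (algebraMap R T) → ∀ P₁ P₂ : Ideal T, P₁.IsPrime → P₂.IsPrime →
      P₁.comap (algebraMap R T) = P → P₂.comap (algebraMap R T) = P → P₁ ≤ P₂ ∨ P₂ ≤ P₁) :
    HenselianLocalRing (Localization.AtPrime P) := by
  have hinjW : Function.Injective (algebraMap R (AlgebraicClosure (FractionRing R))) := by
    rw [IsScalarTower.algebraMap_eq R (FractionRing R) (AlgebraicClosure (FractionRing R))]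
    exact (algebraMap (FractionRing R) _).injective.comp (IsFractionRing.injective R _)
  exact henselian_of_comparable32_aux hinjW P h

/-- a ring whose maximal ideals are comparable and have henselian localizations is a henselian
local ring. -/
theorem henselian_of_all32 {R : Type} [CommRing R] [IsDomain R]
    (hcomp : ∀ P Q : Ideal R, P.IsPrime → Q.IsPrime → P ≤ Q ∨ Q ≤ P)
    (hh : ∀ (P : Ideal R) [P.IsPrime], HenselianLocalRing (Localization.AtPrime P)) :
    HenselianLocalRing R := by
  obtain ⟨M, hM⟩ := Ideal.exists_maximal R
  have hloc : IsLocalRing R := by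
    refine IsLocalRing.of_unique_max_ideal ⟨M, hM, fun M' hM' => ?_⟩
    rcases hcomp M M' hM.isPrime hM'.isPrime with h | h
    · exact (hM.eq_of_le hM'.ne_top h).symm
    · exact hM'.eq_of_le hM.ne_top h
  haveI := hM.isPrime
  exact henselian_of_localization hloc M (hh M)

end Pool.Agent.AIC
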