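import Mathlib
import Pool.Agent.AIC.EndF32
import Pool.Agent.AIC.EndLemmas82

/-!
# Central primes

A prime `q` of `R` is central if in every finite extension domain all primes over `q` are
comparable with all primes. Unions of central primes are central, and central primes of `R ⧸ q`,
`q` central, give central primes of `R`. The localization at a central prime is henselian.
-/

set_option autoImplicit false
set_option linter.style.haveILetI false

namespace Pool.Agent.AIC

open Polynomial IsLocalRing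

/-- in every finite extension domain the primes over `q` are comparable with all primes. -/
def Central95 (R : Type) [CommRing R] (q : Ideal R) : Prop :=
  ∀ (S : Type) [CommRing S] [IsDomain S] [Algebra R S] [Module.Finite R S],
    Function.Injective (algebraMap R S) → ∀ N M : Ideal S, N.IsPrime → M.IsPrime →
    N.comap (algebraMap R S) = q → N ≤ M ∨ M ≤ N

theorem Central95.comparable {R : Type} [CommRing R] [IsDomain R] {q : Ideal R}
    (h : Central95 R q) (hq : q.IsPrime) (M : Ideal R) (hM : M.IsPrime) : q ≤ M ∨ M ≤ q :=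
  h R (fun _ _ h => h) q M hq hM (by ext a; rfl)

theorem central_bot95 {R : Type} [CommRing R] [IsDomain R] : Central95 R ⊥ := by
  intro S _ _ _ _ hinj N M hN hM hc
  left
  have h0 : N = ⊥ := by
    by_contra hne
    have h1 := Ideal.IsIntegral.comap_lt_comap (R := R) (bot_lt_iff_ne_bot.2 hne)
    rw [hc] at h1
    exact not_lt_bot h1
  rw [h0]
  exact bot_le

theorem eq_of_comap_le95 {R S : Type} [CommRing R] [CommRing S] [Algebra R S]
    [Algebra.IsIntegral R S] {N M : Ideal S} [N.IsPrime] (hle : N ≤ M)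
    (h : M.comap (algebraMap R S) ≤ N.comap (algebraMap R S)) : N = M := by
  by_contra hne
  exact absurd (Ideal.IsIntegral.comap_lt_comap (R := R) (lt_of_le_of_ne hle hne)) (not_lt_of_ge h)

/-- unions of chains of primes. -/
theorem sSup_prime95 {R : Type} [CommRing R] (C : Set (Ideal R)) (hne : C.Nonempty)
    (hp : ∀ q ∈ C, q.IsPrime) (hdir : ∀ q ∈ C, ∀ q' ∈ C, q ≤ q' ∨ q' ≤ q) :
    (sSup C).IsPrime ∧ ∀ x : R, x ∈ sSup C ↔ ∃ q ∈ C, x ∈ q := by
  have hd : DirectedOn (· ≤ ·) C := by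
    intro a ha b hb
    rcases hdir a ha b hb with h | h
    · exact ⟨b, hb, h, le_rfl⟩
    · exact ⟨a, ha, le_rfl, h⟩
  have hmem : ∀ x : R, x ∈ sSup C ↔ ∃ q ∈ C, x ∈ q := fun x =>
    Submodule.mem_sSup_of_directed hne hd
  refine ⟨⟨fun htop => ?_, fun {x y} hxy => ?_⟩, hmem⟩
  · have h1 : (1 : R) ∈ sSup C := by rw [htop]; trivial
    obtain ⟨q, hq, h2⟩ := (hmem 1).1 h1
    exact (hp q hq).ne_top ((Ideal.eq_top_iff_one _).2 h2)
  · obtain ⟨q, hq, h2⟩ := (hmem _).1 hxy
    rcases (hp q hq).mem_or_mem h2 with h3 | h3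
    · exact Or.inl ((hmem _).2 ⟨q, hq, h3⟩)
    · exact Or.inr ((hmem _).2 ⟨q, hq, h3⟩)

/-- unions of central primes are central. -/
theorem central_sSup95 {R : Type} [CommRing R] [IsDomain R] (C : Set (Ideal R))
    (hne : C.Nonempty) (hp : ∀ q ∈ C, q.IsPrime) (hc : ∀ q ∈ C, Central95 R q) :
    (sSup C).IsPrime ∧ Central95 R (sSup C) := by
  classical
  have hchain : ∀ q ∈ C, ∀ q' ∈ C, q ≤ q' ∨ q' ≤ q := fun q hq q' hq' =>
    (hc q hq).comparable (hp q hq) q' (hp q' hq')
  obtain ⟨hprime, hmem⟩ := sSup_prime95 C hne hp hchain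
  refine ⟨hprime, ?_⟩
  intro S _ _ _ _ hinj N M hN hM hcN
  by_contra hcon
  push Not at hcon
  obtain ⟨hNM, hMN⟩ := hcon
  have hex : ∀ q : C, ∃ N' : Ideal S, N'.IsPrime ∧ N'.comap (algebraMap R S) = q.1 := by
    intro q
    haveI := hp q.1 q.2
    obtain ⟨N', h1, h2⟩ := exists_prime_over (R := R) (T := S) hinj q.1
    exact ⟨N', h1, comap_eq_of_over82 _ _ h2⟩
  choose F hFp hFc using hex
  have hFN : ∀ q, F q ≤ N := by
    intro q
    rcases hc q.1 q.2 S hinj (F q) N (hFp q) hN (hFc q) with h | h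
    · exact h
    · have h1 : (F q).comap (algebraMap R S) ≤ N.comap (algebraMap R S) := by
        rw [hFc, hcN]
        exact le_sSup q.2
      exact (eq_of_comap_le95 h h1).symm.le
  have hFM : ∀ q, F q ≤ M := by
    intro q
    rcases hc q.1 q.2 S hinj (F q) M (hFp q) hM (hFc q) with h | h
    · exact h
    · exact absurd (h.trans (hFN q)) hMN
  obtain ⟨q₀, hq₀⟩ := hne
  obtain ⟨hUp, hUmem⟩ := sSup_prime95 (Set.range F) ⟨_, ⟨⟨q₀, hq₀⟩, rfl⟩⟩
    (by rintro _ ⟨q, rfl⟩; exact hFp q) (by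
      rintro _ ⟨q, rfl⟩ _ ⟨q', rfl⟩
      exact hc q.1 q.2 S hinj (F q) (F q') (hFp q) (hFp q') (hFc q))
  have hUN : sSup (Set.range F) ≤ N := sSup_le (by rintro _ ⟨q, rfl⟩; exact hFN q)
  have hUM : sSup (Set.range F) ≤ M := sSup_le (by rintro _ ⟨q, rfl⟩; exact hFM q)
  have hUc : N.comap (algebraMap R S) ≤ (sSup (Set.range F)).comap (algebraMap R S) := by
    intro x hx
    rw [hcN] at hx
    obtain ⟨q, hq, hxq⟩ := (hmem x).1 hx
    rw [Ideal.mem_comap]
    refine (hUmem _).2 ⟨F ⟨q, hq⟩, ⟨⟨q, hq⟩, rfl⟩, ?_⟩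
    rw [← Ideal.mem_comap, hFc]
    exact hxq
  apply hNM
  rw [← eq_of_comap_le95 hUN hUc]
  exact hUM

section quotient

variable {R S : Type} [CommRing R] [CommRing S] [Algebra R S]

/-- the primes of `S ⧸ N` over a prime of `R ⧸ q`. -/
theorem comap_quotient95 (q : Ideal R) (N : Ideal S) (hle : q ≤ N.comap (algebraMap R S))
    (M : Ideal S) (hNM : N ≤ M) (M' : Ideal (R ⧸ q))
    (hM : M.comap (algebraMap R S) = M'.comap (Ideal.Quotient.mk q)) :
    letI := Ideal.Quotient.algebraQuotientOfLEComap hle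
    (M.map (Ideal.Quotient.mk N)).comap (algebraMap (R ⧸ q) (S ⧸ N)) = M' := by
  letI := Ideal.Quotient.algebraQuotientOfLEComap hle
  apply Ideal.comap_injective_of_surjective (Ideal.Quotient.mk q) Ideal.Quotient.mk_surjective
  rw [← hM]
  have hc : (M.map (Ideal.Quotient.mk N)).comap (Ideal.Quotient.mk N) = M :=
    Ideal.comap_map_mk hNM
  conv_rhs => rw [← hc]
  ext a
  rfl

theorem map_prime95 (N M : Ideal S) (hNM : N ≤ M) (hM : M.IsPrime) :
    (M.map (Ideal.Quotient.mk N)).IsPrime :=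
  Ideal.map_isPrime_of_surjective Ideal.Quotient.mk_surjective (by rw [Ideal.mk_ker]; exact hNM)

theorem le_of_map_le95 (N M M' : Ideal S) (hNM : N ≤ M) (hNM' : N ≤ M')
    (h : M.map (Ideal.Quotient.mk N) ≤ M'.map (Ideal.Quotient.mk N)) : M ≤ M' := by
  have h1 := Ideal.comap_mono (f := Ideal.Quotient.mk N) h
  rwa [Ideal.comap_map_mk hNM, Ideal.comap_map_mk hNM'] at h1

theorem injective_quotient95 (q : Ideal R) (N : Ideal S)
    (h : N.comap (algebraMap R S) = q) :
    letI := Ideal.Quotient.algebraQuotientOfLEComap h.symm.le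
    Function.Injective (algebraMap (R ⧸ q) (S ⧸ N)) := by
  letI := Ideal.Quotient.algebraQuotientOfLEComap h.symm.le
  rw [injective_iff_map_eq_zero]
  intro x hx
  obtain ⟨a, rfl⟩ := Ideal.Quotient.mk_surjective x
  have h1 : Ideal.Quotient.mk N (algebraMap R S a) = 0 := hx
  rw [Ideal.Quotient.eq_zero_iff_mem, ← Ideal.mem_comap, h] at h1
  exact Ideal.Quotient.eq_zero_iff_mem.2 h1

theorem finite_quotient95 [Module.Finite R S] (q : Ideal R) (N : Ideal S)
    (hle : q ≤ N.comap (algebraMap R S)) :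
    letI := Ideal.Quotient.algebraQuotientOfLEComap hle
    Module.Finite (R ⧸ q) (S ⧸ N) := by
  letI := Ideal.Quotient.algebraQuotientOfLEComap hle
  haveI : IsScalarTower R (R ⧸ q) (S ⧸ N) := IsScalarTower.of_algebraMap_eq fun a => rfl
  exact Module.Finite.of_restrictScalars_finite R (R ⧸ q) (S ⧸ N)

end quotient

/-- central primes of the quotient by a central prime. -/
theorem central_of_quotient95 {R : Type} [CommRing R] [IsDomain R] (q : Ideal R) [hqp : q.IsPrime]
    (hq : Central95 R q) (q₁ : Ideal (R ⧸ q)) (h : Central95 (R ⧸ q) q₁) :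
    Central95 R (q₁.comap (Ideal.Quotient.mk q)) := by
  intro S _ _ _ _ hinj N₁ M hN₁ hM hc
  obtain ⟨N, hNp, hN⟩ := exists_prime_over (R := R) (T := S) hinj q
  have hNc := comap_eq_of_over82 _ _ hN
  have hqq : q ≤ q₁.comap (Ideal.Quotient.mk q) := by
    intro x hx
    rw [Ideal.mem_comap, Ideal.Quotient.eq_zero_iff_mem.2 hx]
    exact q₁.zero_mem
  have hNN₁ : N ≤ N₁ := by
    rcases hq S hinj N N₁ hNp hN₁ hNc with h1 | h1
    · exact h1
    · refine (eq_of_comap_le95 (R := R) h1 ?_).symm.le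
      rw [hNc, hc]
      exact hqq
  rcases hq S hinj N M hNp hM hNc with h1 | h1
  · letI := Ideal.Quotient.algebraQuotientOfLEComap hNc.symm.le
    haveI := finite_quotient95 q N hNc.symm.le
    rcases h (S ⧸ N) (injective_quotient95 q N hNc) (N₁.map (Ideal.Quotient.mk N))
      (M.map (Ideal.Quotient.mk N)) (map_prime95 N N₁ hNN₁ hN₁) (map_prime95 N M h1 hM)
      (comap_quotient95 q N hNc.symm.le N₁ hNN₁ q₁ hc) with h2 | h2
    · exact Or.inl (le_of_map_le95 N N₁ M hNN₁ h1 h2)
    · exact Or.inr (le_of_map_le95 N M N₁ h1 hNN₁ h2)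
  · exact Or.inr (h1.trans hNN₁)

/-- the localization at a central prime is henselian. -/
theorem central_henselian95 {R : Type} [CommRing R] [IsDomain R] (P : Ideal R) [hP : P.IsPrime]
    (h : Central95 R P) : HenselianLocalRing (Localization.AtPrime P) :=
  henselian_of_comparable32 P fun T _ _ _ _ hinj P₁ P₂ h₁ h₂ hc₁ _ => h T hinj P₁ P₂ h₁ h₂ hc₁

end Pool.Agent.AIC
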