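import Mathlib

/-!
# The absolute integral closure of a Henselian local ring is local

Proved from the simple-root definition of a Henselian local ring: if `f` is monic over `A` with
roots `ρ i`, and `b` of them are nonzero modulo one maximal ideal of the integral closure, then
exactly `b` of them are nonzero modulo every maximal ideal, and the polynomial whose roots are the
products of `b` of the `ρ i` has a simple nonzero root modulo the maximal ideal of `A`.
-/

set_option autoImplicit false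

namespace Pool.Agent.AIC

open Polynomial Finset

/-- Symmetric polynomials in the roots of a monic polynomial over `A` take values in `A`. -/
theorem sym_mem32 {A W : Type*} [CommRing A] [CommRing W] [Algebra A W] {N : ℕ} (ρ : Fin N → W)
    (f : A[X]) (hf : f.map (algebraMap A W) = ∏ i, (X - C (ρ i)))
    (p : MvPolynomial (Fin N) A) (hp : p.IsSymmetric) :
    ∃ a : A, algebraMap A W a = MvPolynomial.aeval ρ p := by
  obtain ⟨P, hP⟩ := MvPolynomial.esymmAlgHom_surjective (σ := Fin N) A (n := N) (by simp) ⟨p, hp⟩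
  have h1 : p = MvPolynomial.aeval (fun i : Fin N => MvPolynomial.esymm (Fin N) A (i + 1)) P := by
    rw [← MvPolynomial.esymmAlgHom_apply, hP]
  let c : Fin N → A := fun i => (-1) ^ ((i : ℕ) + 1) * f.coeff (N - ((i : ℕ) + 1))
  have hc : ∀ i : Fin N, MvPolynomial.aeval ρ (MvPolynomial.esymm (Fin N) A (i + 1)) =
      algebraMap A W (c i) := by
    intro i
    rw [MvPolynomial.aeval_esymm_eq_multiset_esymm]
    have hcard : Multiset.card (univ.val.map ρ) = N := by simp
    have h2 := Multiset.prod_X_sub_C_coeff (univ.val.map ρ) (k := N - ((i : ℕ) + 1)) (by simp)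
    rw [hcard] at h2
    have h3 : N - (N - ((i : ℕ) + 1)) = (i : ℕ) + 1 := by have := i.2; omega
    rw [h3] at h2
    have h4 : (Multiset.map (fun t => X - C t) (univ.val.map ρ)).prod =
        f.map (algebraMap A W) := by
      rw [hf, Multiset.map_map]
      rfl
    rw [h4, coeff_map] at h2
    show _ = algebraMap A W ((-1) ^ ((i : ℕ) + 1) * f.coeff (N - ((i : ℕ) + 1)))
    rw [map_mul, h2, map_pow, map_neg, map_one, ← mul_assoc, ← mul_pow]
    simp
  refine ⟨MvPolynomial.aeval c P, ?_⟩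
  rw [h1, MvPolynomial.comp_aeval_apply, ← MvPolynomial.aeval_algebraMap_apply]
  congr 1
  congr 1
  funext i
  rw [hc]
  rfl

/-- The polynomial whose roots are the products of `b` of the roots `ρ i`. -/
theorem exists_prod_poly32 {A W : Type*} [CommRing A] [CommRing W] [Algebra A W] [Nontrivial W]
    {N : ℕ} (ρ : Fin N → W) (f : A[X]) (hf : f.map (algebraMap A W) = ∏ i, (X - C (ρ i)))
    (b : ℕ) :
    ∃ F : A[X], F.Monic ∧ F.map (algebraMap A W) =
      ∏ J ∈ powersetCard b (univ : Finset (Fin N)), (X - C (∏ j ∈ J, ρ j)) := by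
  classical
  let G : (MvPolynomial (Fin N) A)[X] :=
    ∏ J ∈ powersetCard b (univ : Finset (Fin N)), (X - C (∏ j ∈ J, MvPolynomial.X j))
  have hsym : ∀ k, (G.coeff k).IsSymmetric := by
    intro k σ
    have h1 : G.map (MvPolynomial.rename σ : MvPolynomial (Fin N) A →ₐ[A] _).toRingHom = G := by
      show (∏ J ∈ powersetCard b (univ : Finset (Fin N)),
        (X - C (∏ j ∈ J, (MvPolynomial.X j : MvPolynomial (Fin N) A)))).map _ = _
      rw [Polynomial.map_prod]
      refine Finset.prod_bij (fun J _ => J.map σ.toEmbedding) ?_ ?_ ?_ ?_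
      · intro J hJ
        rw [mem_powersetCard] at hJ ⊢
        exact ⟨subset_univ _, by rw [card_map, hJ.2]⟩
      · intro J _ J' _ h
        exact Finset.map_injective _ h
      · intro J hJ
        rw [mem_powersetCard] at hJ
        refine ⟨J.map σ.symm.toEmbedding, ?_, ?_⟩
        · rw [mem_powersetCard]
          exact ⟨subset_univ _, by rw [card_map, hJ.2]⟩
        · ext x
          simp
      · intro J _
        rw [Polynomial.map_sub, Polynomial.map_X, Polynomial.map_C, Finset.prod_map]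
        congr 2
        simp [map_prod]
    have h2 := congrArg (fun g => g.coeff k) h1
    simp only [coeff_map] at h2
    exact h2
  have hmap : G.map (MvPolynomial.aeval ρ : MvPolynomial (Fin N) A →ₐ[A] W).toRingHom =
      ∏ J ∈ powersetCard b (univ : Finset (Fin N)), (X - C (∏ j ∈ J, ρ j)) := by
    show (∏ J ∈ powersetCard b (univ : Finset (Fin N)),
        (X - C (∏ j ∈ J, (MvPolynomial.X j : MvPolynomial (Fin N) A)))).map _ = _
    rw [Polynomial.map_prod]
    refine Finset.prod_congr rfl fun J _ => ?_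
    rw [Polynomial.map_sub, Polynomial.map_X, Polynomial.map_C]
    congr 2
    simp [map_prod]
  have hmonic : (∏ J ∈ powersetCard b (univ : Finset (Fin N)), (X - C (∏ j ∈ J, ρ j))).Monic :=
    monic_prod_of_monic _ _ fun J _ => monic_X_sub_C _
  have hlift : (∏ J ∈ powersetCard b (univ : Finset (Fin N)), (X - C (∏ j ∈ J, ρ j))) ∈
      lifts (algebraMap A W) := by
    rw [lifts_iff_coeff_lifts]
    intro k
    obtain ⟨a, ha⟩ := sym_mem32 ρ f hf (G.coeff k) (hsym k)
    refine ⟨a, ?_⟩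
    rw [ha, ← hmap, coeff_map]
    rfl
  obtain ⟨F, hF1, -, hF2⟩ := lifts_and_natDegree_eq_and_monic hlift hmonic
  exact ⟨F, hF2, hF1⟩

/-- A monic polynomial over an algebraically closed field is a product over `Fin N`. -/
theorem exists_roots_fin32 {A W : Type*} [CommRing A] [Field W] [IsAlgClosed W] [Algebra A W]
    (f : A[X]) (hf : f.Monic) :
    ∃ (N : ℕ) (ρ : Fin N → W), f.map (algebraMap A W) = ∏ i, (X - C (ρ i)) := by
  have hm : (f.map (algebraMap A W)).Monic := hf.map _
  have hs : (f.map (algebraMap A W)).Splits := IsAlgClosed.splits _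
  have h1 := hs.eq_prod_roots_of_monic hm
  refine ⟨(f.map (algebraMap A W)).roots.toList.length,
    fun i => (f.map (algebraMap A W)).roots.toList[i], ?_⟩
  have h2 := Fin.prod_univ_fun_getElem (f.map (algebraMap A W)).roots.toList (fun t => X - C t)
  refine h1.trans (Eq.trans ?_ h2.symm)
  rw [← Multiset.prod_coe, ← Multiset.map_coe, Multiset.coe_toList]

/-- The number of roots outside a maximal ideal is determined by the coefficients. -/
theorem coeff_count32 {k : Type*} [Field k] {N : ℕ} (ρ : Fin N → k) (B : Finset (Fin N))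
    (hB : ∀ i, i ∈ B ↔ ρ i ≠ 0) :
    (∏ i, (X - C (ρ i))) = X ^ (N - B.card) * ∏ i ∈ B, (X - C (ρ i)) := by
  classical
  rw [← Finset.prod_compl_mul_prod B]
  congr 1
  rw [Finset.prod_congr rfl (g := fun _ => (X : k[X])), Finset.prod_const, card_compl,
    Fintype.card_fin]
  intro i hi
  have : ρ i = 0 := by
    by_contra h
    exact (mem_compl.1 hi) ((hB i).2 h)
  rw [this, C_0, sub_zero]

theorem closure_local_of_henselian {A W : Type*} [CommRing A] [HenselianLocalRing A] [Field W]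
    [IsAlgClosed W] [Algebra A W] : IsLocalRing (integralClosure A W) := by
  classical
  set S := integralClosure A W with hS
  have hcomap : ∀ n : Ideal S, n.IsMaximal → n.comap (algebraMap A S) =
      IsLocalRing.maximalIdeal A := by
    intro n hn
    have : (n.comap (algebraMap A S)).IsMaximal := Ideal.isMaximal_comap_of_isIntegral_of_isMaximal n
    exact IsLocalRing.eq_maximalIdeal this
  have hmem : ∀ (n : Ideal S), n.IsMaximal → ∀ a : A, algebraMap A S a ∈ n ↔
      a ∈ IsLocalRing.maximalIdeal A := by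
    intro n hn a
    rw [← hcomap n hn, Ideal.mem_comap]
  suffices h : ∀ n n' : Ideal S, n.IsMaximal → n'.IsMaximal → n ≤ n' by
    obtain ⟨n, hn⟩ := Ideal.exists_maximal S
    refine IsLocalRing.of_unique_max_ideal ⟨n, hn, fun n' hn' => ?_⟩
    exact le_antisymm (h n' n hn' hn) (h n n' hn hn')
  intro n n' hn hn' z hz
  by_contra hz'
  obtain ⟨f, hf, hfz⟩ : IsIntegral A (z : W) := z.2
  obtain ⟨N, ρ, hρ⟩ := exists_roots_fin32 (W := W) f hf
  have hroot : ∀ w : W, aeval w f = ∏ i, (w - ρ i) := by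
    intro w
    rw [aeval_def, eval₂_eq_eval_map, hρ, eval_prod]
    simp
  have hρint : ∀ i, IsIntegral A (ρ i) := by
    intro i
    refine ⟨f, hf, ?_⟩
    rw [← aeval_def, hroot]
    exact prod_eq_zero (mem_univ i) (sub_self _)
  let r : Fin N → S := fun i => ⟨ρ i, hρint i⟩
  have hinjS : Function.Injective (algebraMap S W) := Subtype.val_injective
  have hfS : f.map (algebraMap A S) = ∏ i, (X - C (r i)) := by
    apply map_injective (algebraMap S W) hinjS
    rw [Polynomial.map_map, ← IsScalarTower.algebraMap_eq, hρ, Polynomial.map_prod]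
    refine prod_congr rfl fun i _ => ?_
    rw [Polynomial.map_sub, Polynomial.map_X, Polynomial.map_C]
    rfl
  obtain ⟨j0, hj0⟩ : ∃ j0, z = r j0 := by
    have h1 : ∏ i, ((z : W) - ρ i) = 0 := by rw [← hroot]; exact hfz
    obtain ⟨j0, -, hj0⟩ := prod_eq_zero_iff.1 h1
    exact ⟨j0, Subtype.ext (sub_eq_zero.1 hj0)⟩
  -- the set of roots outside a maximal ideal
  let B : Ideal S → Finset (Fin N) := fun 𝔫 => univ.filter fun i => r i ∉ 𝔫
  have hBmem : ∀ 𝔫 i, i ∈ B 𝔫 ↔ r i ∉ 𝔫 := fun 𝔫 i => by simp [B]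
  have hquot : ∀ 𝔫 : Ideal S, 𝔫.IsMaximal →
      f.map ((Ideal.Quotient.mk 𝔫).comp (algebraMap A S)) =
        X ^ (N - (B 𝔫).card) * ∏ i ∈ B 𝔫, (X - C (Ideal.Quotient.mk 𝔫 (r i))) := by
    intro 𝔫 h𝔫
    let _ := Ideal.Quotient.field 𝔫
    rw [← Polynomial.map_map, hfS, Polynomial.map_prod]
    have h1 : ∀ i, (X - C (r i)).map (Ideal.Quotient.mk 𝔫) = X - C (Ideal.Quotient.mk 𝔫 (r i)) := by
      intro i
      rw [Polynomial.map_sub, Polynomial.map_X, Polynomial.map_C]
    simp only [h1]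
    refine coeff_count32 (fun i => Ideal.Quotient.mk 𝔫 (r i)) (B 𝔫) fun i => ?_
    rw [hBmem, Ne, Ideal.Quotient.eq_zero_iff_mem]
  have hBle : ∀ 𝔫, (B 𝔫).card ≤ N := fun 𝔫 => by
    simpa using card_le_univ (B 𝔫)
  have hzero : ∀ 𝔫 : Ideal S, 𝔫.IsMaximal → ∀ a : A,
      (Ideal.Quotient.mk 𝔫).comp (algebraMap A S) a = 0 ↔ a ∈ IsLocalRing.maximalIdeal A := by
    intro 𝔫 h𝔫 a
    rw [RingHom.comp_apply, Ideal.Quotient.eq_zero_iff_mem, hmem 𝔫 h𝔫]
  have hlow : ∀ 𝔫 : Ideal S, 𝔫.IsMaximal → ∀ k < N - (B 𝔫).card,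
      f.coeff k ∈ IsLocalRing.maximalIdeal A := by
    intro 𝔫 h𝔫 k hk
    rw [← hzero 𝔫 h𝔫, ← coeff_map, hquot 𝔫 h𝔫, coeff_X_pow_mul', if_neg (by omega)]
  have hlead : ∀ 𝔫 : Ideal S, 𝔫.IsMaximal →
      (Ideal.Quotient.mk 𝔫).comp (algebraMap A S) (f.coeff (N - (B 𝔫).card)) =
        (-1) ^ (B 𝔫).card * ∏ i ∈ B 𝔫, Ideal.Quotient.mk 𝔫 (r i) := by
    intro 𝔫 h𝔫
    rw [← coeff_map, hquot 𝔫 h𝔫, coeff_X_pow_mul', if_pos le_rfl, Nat.sub_self,
      coeff_zero_eq_eval_zero, eval_prod]
    simp only [eval_sub, eval_X, eval_C, zero_sub]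
    rw [prod_congr rfl fun x _ => neg_eq_neg_one_mul (Ideal.Quotient.mk 𝔫 (r x)),
      prod_mul_distrib, prod_const]
  have hprodne : ∀ 𝔫 : Ideal S, 𝔫.IsMaximal → ∏ i ∈ B 𝔫, Ideal.Quotient.mk 𝔫 (r i) ≠ 0 := by
    intro 𝔫 h𝔫
    let _ := Ideal.Quotient.field 𝔫
    refine prod_ne_zero_iff.2 fun i hi => ?_
    rw [Ne, Ideal.Quotient.eq_zero_iff_mem]
    exact (hBmem 𝔫 i).1 hi
  have hleadne : ∀ 𝔫 : Ideal S, 𝔫.IsMaximal →
      f.coeff (N - (B 𝔫).card) ∉ IsLocalRing.maximalIdeal A := by
    intro 𝔫 h𝔫 h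
    rw [← hzero 𝔫 h𝔫, hlead 𝔫 h𝔫] at h
    let _ := Ideal.Quotient.field 𝔫
    rcases mul_eq_zero.1 h with h | h
    · exact pow_ne_zero _ (neg_ne_zero.2 one_ne_zero) h
    · exact hprodne 𝔫 h𝔫 h
  have hcard : ∀ 𝔫 𝔫' : Ideal S, 𝔫.IsMaximal → 𝔫'.IsMaximal → (B 𝔫).card = (B 𝔫').card := by
    intro 𝔫 𝔫' h h'
    by_contra hne
    rcases Nat.lt_or_gt_of_ne hne with h1 | h1
    · exact hleadne 𝔫' h' (hlow 𝔫 h _ (by have := hBle 𝔫; have := hBle 𝔫'; omega))
    · exact hleadne 𝔫 h (hlow 𝔫' h' _ (by have := hBle 𝔫; have := hBle 𝔫'; omega))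
  set b := (B n).card with hb
  obtain ⟨F, hFm, hF⟩ := exists_prod_poly32 ρ f hρ b
  have hFS : F.map (algebraMap A S) =
      ∏ J ∈ powersetCard b (univ : Finset (Fin N)), (X - C (∏ j ∈ J, r j)) := by
    apply map_injective (algebraMap S W) hinjS
    rw [Polynomial.map_map, ← IsScalarTower.algebraMap_eq, hF, Polynomial.map_prod]
    refine prod_congr rfl fun J _ => ?_
    rw [Polynomial.map_sub, Polynomial.map_X, Polynomial.map_C]
    congr 2
    rw [map_prod]
    rfl
  have hFn : F.map ((Ideal.Quotient.mk n).comp (algebraMap A S)) =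
      (X - C (∏ i ∈ B n, Ideal.Quotient.mk n (r i))) *
        X ^ ((powersetCard b (univ : Finset (Fin N))).erase (B n)).card := by
    rw [← Polynomial.map_map, hFS, Polynomial.map_prod]
    have h1 : ∀ J : Finset (Fin N), (X - C (∏ j ∈ J, r j)).map (Ideal.Quotient.mk n) =
        X - C (∏ j ∈ J, Ideal.Quotient.mk n (r j)) := by
      intro J
      rw [Polynomial.map_sub, Polynomial.map_X, Polynomial.map_C, map_prod]
    simp only [h1]
    have h2 : B n ∈ powersetCard b (univ : Finset (Fin N)) := by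
      rw [mem_powersetCard]
      exact ⟨subset_univ _, rfl⟩
    rw [← mul_prod_erase _ _ h2]
    congr 1
    rw [prod_congr rfl (g := fun _ => (X : (S ⧸ n)[X])), prod_const]
    intro J hJ
    rw [mem_erase, mem_powersetCard] at hJ
    obtain ⟨hJne, -, hJc⟩ := hJ
    have h3 : ∃ j ∈ J, j ∉ B n := by
      by_contra hcon
      push Not at hcon
      exact hJne (eq_of_subset_of_card_le (fun j hj => hcon j hj) (by rw [hJc]))
    obtain ⟨j, hj, hjB⟩ := h3
    have h4 : Ideal.Quotient.mk n (r j) = 0 := by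
      rw [Ideal.Quotient.eq_zero_iff_mem]
      by_contra h
      exact hjB ((hBmem n j).2 h)
    rw [prod_eq_zero hj h4, C_0, sub_zero]
  let _ := Ideal.Quotient.field n
  let a₀ : A := (-1) ^ b * f.coeff (N - b)
  have ha₀ : (Ideal.Quotient.mk n).comp (algebraMap A S) a₀ =
      ∏ i ∈ B n, Ideal.Quotient.mk n (r i) := by
    show (Ideal.Quotient.mk n).comp (algebraMap A S) ((-1) ^ b * f.coeff (N - b)) = _
    rw [map_mul, hlead n hn, map_pow, map_neg, map_one, ← mul_assoc, ← mul_pow]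
    simp
  have heval : ∀ g : A[X], (Ideal.Quotient.mk n).comp (algebraMap A S) (g.eval a₀) =
      (g.map ((Ideal.Quotient.mk n).comp (algebraMap A S))).eval
        (∏ i ∈ B n, Ideal.Quotient.mk n (r i)) := by
    intro g
    rw [← ha₀, eval_map, eval₂_at_apply]
  have hF0 : F.eval a₀ ∈ IsLocalRing.maximalIdeal A := by
    rw [← hzero n hn, heval, hFn, eval_mul, eval_sub, eval_X, eval_C, sub_self, zero_mul]
  have hF1 : IsUnit (F.derivative.eval a₀) := by
    by_contra h
    have h1 : F.derivative.eval a₀ ∈ IsLocalRing.maximalIdeal A := h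
    rw [← hzero n hn, heval, ← derivative_map, hFn, derivative_mul] at h1
    simp only [derivative_sub, derivative_X, derivative_C, sub_zero, one_mul, eval_add, eval_mul,
      eval_sub, eval_X, eval_C, sub_self, zero_mul, add_zero, eval_pow] at h1
    exact pow_ne_zero _ (hprodne n hn) h1
  obtain ⟨a, ha, haa⟩ := HenselianLocalRing.is_henselian F hFm a₀ hF0 hF1
  have ha₀m : a₀ ∉ IsLocalRing.maximalIdeal A := by
    intro h
    rw [← hzero n hn, ha₀] at h
    exact hprodne n hn h
  have ham : a ∉ IsLocalRing.maximalIdeal A := by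
    intro h
    apply ha₀m
    have := Ideal.sub_mem _ h haa
    simpa using this
  have hJ : ∃ J ∈ powersetCard b (univ : Finset (Fin N)), algebraMap A S a = ∏ j ∈ J, r j := by
    have h1 : (F.map (algebraMap A W)).eval (algebraMap A W a) = 0 := by
      rw [eval_map, eval₂_at_apply, ha.eq_zero, map_zero]
    rw [hF, eval_prod] at h1
    obtain ⟨J, hJ, hJ0⟩ := prod_eq_zero_iff.1 h1
    refine ⟨J, hJ, hinjS ?_⟩
    rw [eval_sub, eval_X, eval_C, sub_eq_zero] at hJ0
    rw [← IsScalarTower.algebraMap_apply, hJ0, map_prod]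
    rfl
  obtain ⟨J, hJ, haJ⟩ := hJ
  have hJc := (mem_powersetCard.1 hJ).2
  have hBJ : ∀ 𝔫 : Ideal S, 𝔫.IsMaximal → J = B 𝔫 := by
    intro 𝔫 h𝔫
    refine eq_of_subset_of_card_le (fun j hj => ?_) ?_
    · rw [hBmem]
      intro h
      apply ham
      rw [← hmem 𝔫 h𝔫, haJ]
      exact Ideal.prod_mem _ hj h
    · rw [hJc, hcard 𝔫 n h𝔫 hn]
  have h1 : j0 ∈ B n' := by
    rw [hBmem, ← hj0]
    exact hz'
  rw [← hBJ n' hn', hBJ n hn, hBmem, ← hj0] at h1
  exact h1 hz

end Pool.Agent.AIC
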