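import Mathlib

/-! MP_313bb4, stage 4, piece K3: a finite extension with unibranch localizations. -/

set_option autoImplicit false

namespace Pool.Agent.AIC

open nonZeroDivisors

/-- A subalgebra of the fraction field has the same fraction field. -/
theorem isFractionRing_subalgebra {R K : Type} [CommRing R] [IsDomain R] [Field K] [Algebra R K]
    [IsFractionRing R K] (T : Subalgebra R K) : IsFractionRing T K := by
  refine IsFractionRing.of_field T K fun z => ?_
  obtain ⟨x, y, hy, hxy⟩ := IsFractionRing.div_surjective (A := R) z
  exact ⟨algebraMap R T x, algebraMap R T y, hxy.symm⟩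

/-- The fraction field of a localization of `T` is a fraction field of `T`. -/
theorem isFractionRing_loc {T : Type} [CommRing T] [IsDomain T] (M : Ideal T) [M.IsPrime]
    (A : Type) [CommRing A] [IsDomain A] [Algebra T A] [IsLocalization.AtPrime A M] :
    IsFractionRing T (FractionRing A) := by
  have hinj : Function.Injective (algebraMap T A) :=
    IsLocalization.injective A M.primeCompl_le_nonZeroDivisors
  haveI : FaithfulSMul T (FractionRing A) := by
    rw [faithfulSMul_iff_algebraMap_injective, IsScalarTower.algebraMap_eq T A (FractionRing A)]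
    exact (IsFractionRing.injective A (FractionRing A)).comp hinj
  refine IsFractionRing.of_field T (FractionRing A) fun z => ?_
  obtain ⟨x, y, hy, hxy⟩ := IsFractionRing.div_surjective (A := A) z
  obtain ⟨⟨t, s⟩, hts⟩ := IsLocalization.surj M.primeCompl x
  obtain ⟨⟨t', s'⟩, hts'⟩ := IsLocalization.surj M.primeCompl y
  have hs : algebraMap T (FractionRing A) s ≠ 0 := by
    rw [Ne, FaithfulSMul.algebraMap_eq_zero_iff]
    exact fun h => s.2 (h ▸ M.zero_mem)
  have hs' : algebraMap T (FractionRing A) s' ≠ 0 := by
    rw [Ne, FaithfulSMul.algebraMap_eq_zero_iff]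
    exact fun h => s'.2 (h ▸ M.zero_mem)
  have h1 : algebraMap A (FractionRing A) x * algebraMap T (FractionRing A) s =
      algebraMap T (FractionRing A) t := by
    rw [IsScalarTower.algebraMap_apply T A (FractionRing A),
      IsScalarTower.algebraMap_apply T A (FractionRing A), ← map_mul, hts]
  have h2 : algebraMap A (FractionRing A) y * algebraMap T (FractionRing A) s' =
      algebraMap T (FractionRing A) t' := by
    rw [IsScalarTower.algebraMap_apply T A (FractionRing A),
      IsScalarTower.algebraMap_apply T A (FractionRing A), ← map_mul, hts']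
  have hy0 : algebraMap A (FractionRing A) y ≠ 0 := by
    rw [Ne, FaithfulSMul.algebraMap_eq_zero_iff]
    exact nonZeroDivisors.ne_zero hy
  refine ⟨t * s', t' * s, ?_⟩
  rw [map_mul, map_mul, ← h1, ← h2, ← hxy]
  field_simp

/-- If the elements of `T` separate the maximal ideals of the integral closure, then the
localizations of `T` at maximal ideals are unibranch. -/
theorem isLocalRing_of_sep {R K : Type} [CommRing R] [IsDomain R] [Field K] [Algebra R K]
    [IsFractionRing R K] (T : Subalgebra R K) (hT : T ≤ integralClosure R K)
    (hsep : ∀ n n' : Ideal (integralClosure R K), n.IsMaximal → n'.IsMaximal → n ≠ n' →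
      ∃ e : T, Subalgebra.inclusion hT e ∈ n ∧ Subalgebra.inclusion hT e ∉ n')
    (M : Ideal T) [hM : M.IsMaximal]
    (A : Type) [CommRing A] [IsDomain A] [Algebra T A] [IsLocalization.AtPrime A M] :
    IsLocalRing (integralClosure A (FractionRing A)) := by
  haveI hTK : IsFractionRing T K := isFractionRing_subalgebra T
  haveI hTA : IsFractionRing T (FractionRing A) := isFractionRing_loc M A
  haveI : IsLocalRing A := IsLocalization.AtPrime.isLocalRing A M
  let φ : K ≃ₐ[T] FractionRing A := IsLocalization.algEquiv T⁰ K (FractionRing A)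
  -- elements of `S` go to elements of `B`
  have hint : ∀ s : integralClosure R K, IsIntegral A (φ (s : K)) := by
    intro s
    have h1 : IsIntegral T (s : K) := by
      have h0 : IsIntegral R (s : K) := s.2
      exact h0.tower_top
    have h2 : IsIntegral T (φ (s : K)) := h1.map φ
    exact h2.tower_top
  let ι : integralClosure R K →+* integralClosure A (FractionRing A) :=
    { toFun := fun s => ⟨φ (s : K), hint s⟩
      map_one' := by ext; simp
      map_mul' := fun a b => by ext; simp
      map_zero' := by ext; simp
      map_add' := fun a b => by ext; simp }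
  have hιt : ∀ t : T, ι (Subalgebra.inclusion hT t) =
      algebraMap A (integralClosure A (FractionRing A)) (algebraMap T A t) := by
    intro t
    apply Subtype.ext
    change φ (algebraMap T K t) = algebraMap A (FractionRing A) (algebraMap T A t)
    rw [AlgEquiv.commutes, IsScalarTower.algebraMap_apply T A (FractionRing A)]
  -- contraction to `T`
  have hcM : ∀ P : Ideal (integralClosure A (FractionRing A)), P.IsMaximal → ∀ t : T,
      (Subalgebra.inclusion hT t ∈ P.comap ι ↔ t ∈ M) := by
    intro P hP t
    haveI := hP
    haveI : (P.comap (algebraMap A (integralClosure A (FractionRing A)))).IsMaximal :=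
      Ideal.isMaximal_comap_of_isIntegral_of_isMaximal P
    have hP' := IsLocalRing.eq_maximalIdeal this
    rw [Ideal.mem_comap, hιt, ← Ideal.mem_comap, hP']
    exact IsLocalization.AtPrime.to_map_mem_maximal_iff A M t
  have hmax : ∀ P : Ideal (integralClosure A (FractionRing A)), P.IsMaximal →
      (P.comap ι).IsMaximal := by
    intro P hP
    haveI := hP
    haveI : (P.comap ι).IsPrime := Ideal.comap_isPrime ι P
    refine Ideal.isMaximal_of_isIntegral_of_isMaximal_comap'
      (Subalgebra.inclusion hT).toRingHom ?_ (P.comap ι) ?_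
    · have h1 : (algebraMap R (integralClosure R K)).IsIntegral := fun s =>
        integralClosure.isIntegral s
      exact RingHom.IsIntegral.tower_top (algebraMap R T) (Subalgebra.inclusion hT).toRingHom h1
    · have : (P.comap ι).comap (Subalgebra.inclusion hT).toRingHom = M := by
        ext t
        exact hcM P hP t
      rw [this]
      exact hM
  have huniq : ∀ P Q : Ideal (integralClosure A (FractionRing A)), P.IsMaximal → Q.IsMaximal →
      P = Q := by
    intro P Q hP hQ
    have hPQ : P.comap ι = Q.comap ι := by
      by_contra hne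
      obtain ⟨e, he1, he2⟩ := hsep _ _ (hmax P hP) (hmax Q hQ) hne
      exact he2 ((hcM Q hQ e).2 ((hcM P hP e).1 he1))
    refine hP.eq_of_le hQ.ne_top fun b hb => ?_
    obtain ⟨s, hs⟩ := IsIntegral.exists_multiple_integral_of_isLocalization M.primeCompl
      (Rₘ := A) (b : FractionRing A) b.2
    -- the element of the integral closure of `R`
    have hk : IsIntegral T (φ.symm (s • (b : FractionRing A))) := hs.map φ.symm
    have hk' : IsIntegral R (φ.symm (s • (b : FractionRing A))) := by
      haveI : Algebra.IsIntegral R T := ⟨fun t => by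
        have h0 : IsIntegral R (algebraMap T K t) := hT t.2
        rwa [isIntegral_algebraMap_iff (FaithfulSMul.algebraMap_injective T K)] at h0⟩
      exact isIntegral_trans (R := R) (A := T) _ hk
    have hι : ι ⟨φ.symm (s • (b : FractionRing A)), hk'⟩ =
        ι (Subalgebra.inclusion hT s) * b := by
      rw [hιt]
      apply Subtype.ext
      change φ (φ.symm (s • (b : FractionRing A))) =
        algebraMap A (FractionRing A) (algebraMap T A s) * (b : FractionRing A)
      rw [AlgEquiv.apply_symm_apply, ← IsScalarTower.algebraMap_apply T A (FractionRing A)]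
      exact Algebra.smul_def (R := T) (s : T) (b : FractionRing A)
    have h1 : (⟨φ.symm (s • (b : FractionRing A)), hk'⟩ : integralClosure R K) ∈ P.comap ι := by
      rw [Ideal.mem_comap, hι]
      exact P.mul_mem_left _ hb
    rw [hPQ, Ideal.mem_comap, hι] at h1
    rcases hQ.isPrime.mem_or_mem h1 with h2 | h2
    · exact absurd ((hcM Q hQ s).1 h2) s.2
    · exact h2
  haveI : Nontrivial (integralClosure A (FractionRing A)) := inferInstance
  obtain ⟨P, hP⟩ := Ideal.exists_maximal (integralClosure A (FractionRing A))
  exact IsLocalRing.of_unique_max_ideal ⟨P, hP, fun Q hQ => huniq Q P hQ hP⟩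

/-- The fraction field of a localization of `T` is algebraically closed if `K` is. -/
theorem isAlgClosed_loc {R K : Type} [CommRing R] [IsDomain R] [Field K] [Algebra R K]
    [IsFractionRing R K] [IsAlgClosed K] (T : Subalgebra R K) (M : Ideal T) [M.IsPrime]
    (A : Type) [CommRing A] [IsDomain A] [Algebra T A] [IsLocalization.AtPrime A M] :
    IsAlgClosed (FractionRing A) := by
  haveI hTK : IsFractionRing T K := isFractionRing_subalgebra T
  haveI hTA : IsFractionRing T (FractionRing A) := isFractionRing_loc M A
  let φ : K ≃ₐ[T] FractionRing A := IsLocalization.algEquiv T⁰ K (FractionRing A)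
  exact IsAlgClosed.of_ringEquiv K (FractionRing A) φ.toRingEquiv

/-- Piece K3. -/
theorem exists_unibranch {R K : Type} [CommRing R] [IsDomain R] [Field K] [Algebra R K]
    [IsFractionRing R K] (hfin : {n : Ideal (integralClosure R K) | n.IsMaximal}.Finite)
    (F : Finset K) (hF : ∀ x ∈ F, IsIntegral R x) :
    ∃ T : Subalgebra R K, Module.Finite R T ∧ (∀ x ∈ F, x ∈ T) ∧ T ≤ integralClosure R K ∧
      ∀ (M : Ideal T) [M.IsMaximal] (A : Type) [CommRing A] [IsDomain A] [Algebra T A]
        [IsLocalization.AtPrime A M], IsLocalRing (integralClosure A (FractionRing A)) := by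
  classical
  -- separating elements
  have hsep : ∀ q : {n : Ideal (integralClosure R K) // n.IsMaximal} ×
      {n : Ideal (integralClosure R K) // n.IsMaximal},
      ∃ e : integralClosure R K, q.1 ≠ q.2 → e ∈ q.1.1 ∧ e ∉ q.2.1 := by
    rintro ⟨⟨n, hn⟩, ⟨n', hn'⟩⟩
    by_cases h : n = n'
    · exact ⟨0, fun h' => absurd (Subtype.ext h) h'⟩
    · have hle : ¬ n ≤ n' := fun hle => h (hn.eq_of_le hn'.ne_top hle)
      obtain ⟨e, he, he'⟩ := SetLike.not_le_iff_exists.1 hle
      exact ⟨e, fun _ => ⟨he, he'⟩⟩
  choose e he using hsep
  haveI : Finite {n : Ideal (integralClosure R K) // n.IsMaximal} := hfin.to_subtype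
  let G : Set K := (F : Set K) ∪ Set.range fun q => (e q : K)
  have hG : G.Finite := F.finite_toSet.union (Set.finite_range _)
  have hGi : ∀ x ∈ G, IsIntegral R x := by
    rintro x (hx | ⟨q, rfl⟩)
    · exact hF x hx
    · exact (e q).2
  have hT : Algebra.adjoin R G ≤ integralClosure R K := Algebra.adjoin_le hGi
  refine ⟨Algebra.adjoin R G, ?_, fun x hx => Algebra.subset_adjoin (Or.inl hx), hT, ?_⟩
  · exact ⟨(Submodule.fg_top _).2 (fg_adjoin_of_finite hG hGi)⟩
  · intro M hM A _ _ _ _
    refine isLocalRing_of_sep (Algebra.adjoin R G) hT ?_ M A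
    intro n n' hn hn' hne
    have h := he (⟨n, hn⟩, ⟨n', hn'⟩) (fun h => hne (congrArg Subtype.val h))
    refine ⟨⟨(e (⟨n, hn⟩, ⟨n', hn'⟩) : K), Algebra.subset_adjoin (Or.inr ⟨_, rfl⟩)⟩, ?_, ?_⟩
    · exact h.1
    · exact h.2

end Pool.Agent.AIC
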