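import Pool.Agent.AIC.Unique46
import Pool.Agent.AIC.K3h94

/-! MP_313bb4: finitely many primes over a prime, in a finite Galois extension of the fraction
field. -/

set_option autoImplicit false

namespace Pool.Agent.AIC

open Finset Polynomial IsLocalRing

section Basics

variable {T F : Type} [CommRing T] [Field F] [Algebra T F]

/-- incomparability -/
theorem over_eq_of_le (Q : Ideal T) (N N' : Ideal (integralClosure T F)) (hN : Over Q N)
    (hN' : Over Q N') (hle : N ≤ N') : N = N' := by
  haveI := hN.1
  by_contra hne
  have hlt : N < N' := lt_of_le_of_ne hle hne
  have h3 := Ideal.IsIntegral.comap_lt_comap (R := T) hlt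
  have h4 : N.comap (algebraMap T (integralClosure T F)) = Q := by
    ext t
    exact hN.2 t
  have h5 : N'.comap (algebraMap T (integralClosure T F)) = Q := by
    ext t
    exact hN'.2 t
  rw [h4, h5] at h3
  exact lt_irrefl _ h3

end Basics

section Gal

open scoped Pointwise in
/-- finitely many primes over one prime of a normal ring -/
theorem finite_over_normal (S K F : Type) [CommRing S] [IsDomain S] [IsIntegrallyClosed S]
    [Field K] [Algebra S K] [IsFractionRing S K] [Field F] [Algebra K F] [Algebra S F]
    [IsScalarTower S K F] [FiniteDimensional K F] [IsGalois K F] (q : Ideal S) :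
    {N : Ideal (integralClosure S F) | Over q N}.Finite := by
  haveI : IsFractionRing (integralClosure S F) F :=
    integralClosure.isFractionRing_of_finite_extension K F
  letI act := IsIntegralClosure.MulSemiringAction S K F (integralClosure S F)
  haveI inv : Algebra.IsInvariant S (integralClosure S F) Gal(F/K) :=
    Algebra.isInvariant_of_isGalois S K F (integralClosure S F)
  haveI : SMulCommClass Gal(F/K) S (integralClosure S F) := by
    refine ⟨fun g a b => ?_⟩
    change galRestrict S K F (integralClosure S F) g (a • b) =
      a • galRestrict S K F (integralClosure S F) g b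
    exact map_smul _ _ _
  by_cases hne : ∃ N₀ : Ideal (integralClosure S F), Over q N₀
  · obtain ⟨N₀, hN₀⟩ := hne
    refine (Set.finite_range (fun g : Gal(F/K) => g • N₀)).subset ?_
    intro N hN
    haveI := hN₀.1
    haveI : N.IsPrime := hN.1
    have hu : N₀.under S = N.under S := by
      ext t
      rw [Ideal.under_def, Ideal.under_def, Ideal.mem_comap, Ideal.mem_comap]
      exact (hN₀.2 t).trans (hN.2 t).symm
    obtain ⟨g, hg⟩ := Algebra.IsInvariant.exists_smul_of_under_eq S (integralClosure S F)
      Gal(F/K) N₀ N hu
    exact ⟨g, hg.symm⟩
  · push Not at hne
    have : {N : Ideal (integralClosure S F) | Over q N} = ∅ := by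
      ext N
      simp [hne N]
    rw [this]
    exact Set.finite_empty

end Gal

section Main

/-- finitely many primes of the closure in `F` over `Q` if this is so in `K` -/
theorem finite_over_galois (R K F : Type) [CommRing R] [IsDomain R] [Field K] [Algebra R K]
    [IsFractionRing R K] [Field F] [Algebra K F] [Algebra R F] [IsScalarTower R K F]
    [FiniteDimensional K F] [IsGalois K F] (Q : Ideal R)
    (hfin : {N : Ideal (integralClosure R K) | Over Q N}.Finite) :
    {N : Ideal (integralClosure R F) | Over Q N}.Finite := by
  haveI : IsFractionRing (integralClosure R K) K := isFractionRing_subalgebra (integralClosure R K)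
  haveI : IsIntegrallyClosed (integralClosure R K) :=
    integralClosure.isIntegrallyClosedOfFiniteExtension K
  haveI : IsScalarTower R (integralClosure R K) F := by
    refine IsScalarTower.of_algebraMap_eq fun x => ?_
    change algebraMap R F x = algebraMap K F (algebraMap R K x)
    exact IsScalarTower.algebraMap_apply R K F x
  haveI : Algebra.IsIntegral R (integralClosure R K) := inferInstance
  have hbij := closureMap_bijective (R := R) (T := integralClosure R K) (F := F)
  have hU : (⋃ q ∈ {N : Ideal (integralClosure R K) | Over Q N},
      {N : Ideal (integralClosure (integralClosure R K) F) | Over q N}).Finite :=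
    hfin.biUnion fun q _ => finite_over_normal (integralClosure R K) K F q
  refine (hU.image (fun N => N.comap (closureMap R (integralClosure R K) F))).subset ?_
  intro N hN
  let e := RingEquiv.ofBijective (closureMap R (integralClosure R K) F) hbij
  have he : ∀ x, e x = closureMap R (integralClosure R K) F x := fun x => rfl
  refine ⟨N.comap (e.symm : integralClosure (integralClosure R K) F →+* integralClosure R F),
    ?_, ?_⟩
  · rw [Set.mem_iUnion₂]
    haveI := hN.1
    set N' := N.comap (e.symm : integralClosure (integralClosure R K) F →+* integralClosure R F)
      with hN'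
    haveI hp : N'.IsPrime := Ideal.comap_isPrime _ _
    refine ⟨N'.comap (algebraMap (integralClosure R K)
      (integralClosure (integralClosure R K) F)), ?_, ?_⟩
    · refine ⟨Ideal.comap_isPrime _ _, fun r => ?_⟩
      rw [Ideal.mem_comap, hN', Ideal.mem_comap]
      have h1 : (e.symm : integralClosure (integralClosure R K) F →+* integralClosure R F)
          (algebraMap (integralClosure R K) (integralClosure (integralClosure R K) F)
            (algebraMap R (integralClosure R K) r)) =
          algebraMap R (integralClosure R F) r := by
        change e.symm _ = _
        rw [RingEquiv.symm_apply_eq, he, closureMap_algebraMap]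
      rw [h1]
      exact hN.2 r
    · exact ⟨hp, fun t => Iff.rfl⟩
  · ext x
    change e.symm (closureMap R (integralClosure R K) F x) ∈ N ↔ x ∈ N
    rw [← he, RingEquiv.symm_apply_apply]

end Main

end Pool.Agent.AIC
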