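import Mathlib
import Pool.Agent.AIC.GalFin46

/-!
# Finite branching goes up to every finite extension of the fraction field
-/

set_option autoImplicit false
set_option linter.style.haveILetI false

namespace Pool.Agent.AIC

open Polynomial

/-- the inclusion of integral closures for a tower of fields. -/
noncomputable def closIncl82 (R E F : Type) [CommRing R] [Field E] [Field F] [Algebra R E]
    [Algebra R F] [Algebra E F] [IsScalarTower R E F] :
    integralClosure R E →+* integralClosure R F where
  toFun := fun s => ⟨algebraMap E F (s : E), by
    have h0 : IsIntegral R (s : E) := s.2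
    exact h0.map (IsScalarTower.toAlgHom R E F)⟩
  map_one' := Subtype.ext (map_one _)
  map_mul' := fun _ _ => Subtype.ext (map_mul _ _ _)
  map_zero' := Subtype.ext (map_zero _)
  map_add' := fun _ _ => Subtype.ext (map_add _ _ _)

section tower

variable {R E F : Type} [CommRing R] [Field E] [Field F] [Algebra R E] [Algebra R F]
  [Algebra E F] [IsScalarTower R E F]

theorem closIncl_coe82 (x : integralClosure R E) :
    ((closIncl82 R E F x : integralClosure R F) : F) = algebraMap E F (x : E) := rfl

theorem closIncl_algebraMap82 (t : R) :
    closIncl82 R E F (algebraMap R (integralClosure R E) t)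
      = algebraMap R (integralClosure R F) t := by
  apply Subtype.ext
  exact (IsScalarTower.algebraMap_apply R E F t).symm

/-- finite branching goes down. -/
theorem over_finite_down82 (Q : Ideal R)
    (h : {N : Ideal (integralClosure R F) | Over Q N}.Finite) :
    {N : Ideal (integralClosure R E) | Over Q N}.Finite := by
  refine Set.Finite.subset (h.image fun N => N.comap (closIncl82 R E F)) ?_
  intro N hN
  letI alg : Algebra (integralClosure R E) (integralClosure R F) := (closIncl82 R E F).toAlgebra
  haveI : IsScalarTower R (integralClosure R E) (integralClosure R F) :=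
    IsScalarTower.of_algebraMap_eq fun t => (closIncl_algebraMap82 t).symm
  haveI : Algebra.IsIntegral (integralClosure R E) (integralClosure R F) :=
    Algebra.IsIntegral.tower_top (R := R)
  haveI := hN.1
  have hinj : Function.Injective (algebraMap (integralClosure R E) (integralClosure R F)) := by
    intro x y hxy
    apply Subtype.ext
    apply (algebraMap E F).injective
    exact congrArg Subtype.val hxy
  obtain ⟨N', -, hN'p, hN'c⟩ := Ideal.exists_ideal_over_prime_of_isIntegral
    (S := integralClosure R F) N (⊥ : Ideal (integralClosure R F)) (by
      intro x hx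
      rw [Ideal.mem_comap, Ideal.mem_bot] at hx
      have : x = 0 := hinj (by rw [hx, map_zero])
      rw [this]
      exact N.zero_mem)
  refine ⟨N', ⟨hN'p, fun t => ?_⟩, hN'c⟩
  rw [← hN.2 t, ← hN'c, Ideal.mem_comap]
  rw [← closIncl_algebraMap82 (E := E)]
  rfl

/-- finite branching goes up in purely inseparable extensions. -/
theorem over_finite_insep82 [IsPurelyInseparable E F] (Q : Ideal R)
    (h : {N : Ideal (integralClosure R E) | Over Q N}.Finite) :
    {N : Ideal (integralClosure R F) | Over Q N}.Finite := by
  refine Set.Finite.of_finite_image (f := fun N => N.comap (closIncl82 R E F)) (h.subset ?_) ?_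
  · rintro _ ⟨N, hN, rfl⟩
    haveI := hN.1
    refine ⟨Ideal.comap_isPrime _ _, fun t => ?_⟩
    rw [Ideal.mem_comap, closIncl_algebraMap82]
    exact hN.2 t
  · have key : ∀ N N' : Ideal (integralClosure R F), N.IsPrime → N'.IsPrime →
        N.comap (closIncl82 R E F) = N'.comap (closIncl82 R E F) → N ≤ N' := by
      intro N N' hN hN' hc x hx
      obtain ⟨n, y, hy⟩ := IsPurelyInseparable.pow_mem (F := E) (ringExpChar E) (x : F)
      have hyint : IsIntegral R y := by
        rw [← isIntegral_algebraMap_iff (algebraMap E F).injective, hy]
        have hx0 : IsIntegral R (x : F) := x.2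
        exact hx0.pow _
      have e1 : closIncl82 R E F ⟨y, hyint⟩ = x ^ ringExpChar E ^ n := Subtype.ext hy
      have hpos : 0 < ringExpChar E ^ n := by
        haveI := ringExpChar.expChar E
        exact pow_pos (expChar_pos E (ringExpChar E)) n
      have h1 : (⟨y, hyint⟩ : integralClosure R E) ∈ N.comap (closIncl82 R E F) := by
        rw [Ideal.mem_comap, e1]
        exact Ideal.pow_mem_of_mem _ hx _ hpos
      rw [hc, Ideal.mem_comap, e1] at h1
      exact hN'.mem_of_pow_mem _ h1
    intro N hN N' hN' hc
    exact le_antisymm (key N N' hN.1 hN'.1 hc) (key N' N hN'.1 hN.1 hc.symm)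

end tower

/-- finite branching goes up in finite separable extensions. -/
theorem finite_over_sep82 {R K E : Type} [CommRing R] [IsDomain R] [Field K] [Algebra R K]
    [IsFractionRing R K] [Field E] [Algebra K E] [Algebra R E] [IsScalarTower R K E]
    [FiniteDimensional K E] [Algebra.IsSeparable K E] (Q : Ideal R)
    (hfin : {N : Ideal (integralClosure R K) | Over Q N}.Finite) :
    {N : Ideal (integralClosure R E) | Over Q N}.Finite := by
  let φ : E →ₐ[K] SeparableClosure K := IsSepClosed.lift
  letI a1 : Algebra E (SeparableClosure K) := φ.toRingHom.toAlgebra
  haveI t1 : IsScalarTower K E (SeparableClosure K) :=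
    IsScalarTower.of_algebraMap_eq fun x => (φ.commutes x).symm
  haveI : FiniteDimensional K (IntermediateField.normalClosure K E (SeparableClosure K)) :=
    inferInstance
  haveI : IsGalois K (IntermediateField.normalClosure K E (SeparableClosure K)) := inferInstance
  letI a2 : Algebra R (IntermediateField.normalClosure K E (SeparableClosure K)) :=
    ((algebraMap K (IntermediateField.normalClosure K E (SeparableClosure K))).comp
      (algebraMap R K)).toAlgebra
  haveI t2 : IsScalarTower R K (IntermediateField.normalClosure K E (SeparableClosure K)) :=
    IsScalarTower.of_algebraMap_eq fun x => rfl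
  haveI t3 : IsScalarTower R E (IntermediateField.normalClosure K E (SeparableClosure K)) :=
    IsScalarTower.of_algebraMap_eq fun x => by
      rw [IsScalarTower.algebraMap_apply R K E, ← IsScalarTower.algebraMap_apply K E]
      rfl
  exact over_finite_down82 (F := IntermediateField.normalClosure K E (SeparableClosure K)) Q
    (finite_over_galois R K (IntermediateField.normalClosure K E (SeparableClosure K)) Q hfin)

/-- finite branching goes up to every finite extension of the fraction field. -/
theorem finite_over_ext82 {R K L : Type} [CommRing R] [IsDomain R] [Field K] [Algebra R K]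
    [IsFractionRing R K] [Field L] [Algebra K L] [Algebra R L] [IsScalarTower R K L]
    [FiniteDimensional K L] (Q : Ideal R)
    (hfin : {N : Ideal (integralClosure R K) | Over Q N}.Finite) :
    {N : Ideal (integralClosure R L) | Over Q N}.Finite := by
  have h2 : {N : Ideal (integralClosure R (separableClosure K L)) | Over Q N}.Finite :=
    finite_over_sep82 (K := K) Q hfin
  haveI : IsScalarTower R (separableClosure K L) L :=
    IsScalarTower.of_algebraMap_eq fun x => rfl
  exact over_finite_insep82 (E := separableClosure K L) Q h2

end Pool.Agent.AIC
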