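import Mathlib
import Pool.Agent.AIC.FinExt82
import Pool.Agent.AIC.EndLemmas82

/-!
# Finite branching of quotients

If the localization of `R` at `q` is henselian, then the integral closure of `R ⧸ q` in its
fraction field is the image of the integral closure of `R` in the localization, and finite
branching passes from `R` to `R ⧸ q`.
-/

set_option autoImplicit false
set_option linter.style.haveILetI false

namespace Pool.Agent.AIC

open Polynomial IsLocalRing

/-- integral elements of the residue field of a henselian localization lift to integral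
elements. -/
theorem lift_integral95 {R A k : Type} [CommRing R] [CommRing A] [Algebra R A] [Field k]
    (q : Ideal R) [q.IsPrime] [IsLocalization.AtPrime A q] [HenselianLocalRing A]
    (π : A →+* k) (hπ : Function.Surjective π) (hm : ∀ a : A, π a = 0 ↔ a ∈ maximalIdeal A)
    (z' : k) (hz' : (π.comp (algebraMap R A)).IsIntegralElem z') :
    ∃ z : A, IsIntegral R z ∧ π z = z' := by
  classical
  -- a monic polynomial of degree at least two with a simple root at `z'`
  obtain ⟨w, hw⟩ := hπ z'
  have hunit : ∀ a : A, π a ≠ 0 → IsUnit a := by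
    intro a ha
    by_contra hne
    exact ha ((hm a).2 hne)
  obtain ⟨f, hf, hf0, hf1⟩ : ∃ f : R[X], f.Monic ∧ eval₂ (π.comp (algebraMap R A)) z' f = 0 ∧
      eval₂ (π.comp (algebraMap R A)) z' (derivative f) ≠ 0 := by
    obtain ⟨p, hp, hp0⟩ := hz'
    set g : R[X] := p * X ^ 2 with hg
    have hgm : g.Monic := hp.mul (monic_X_pow 2)
    have hg0 : eval₂ (π.comp (algebraMap R A)) z' g = 0 := by
      rw [hg, eval₂_mul, hp0, zero_mul]
    by_cases hd : eval₂ (π.comp (algebraMap R A)) z' (derivative g) = 0
    · obtain ⟨a, s, hs⟩ := IsLocalization.exists_mk'_eq q.primeCompl w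
      have hsw : algebraMap R A s * w = algebraMap R A a := by
        rw [← hs, mul_comm]
        exact IsLocalization.mk'_spec A a s
      have hs0 : π (algebraMap R A s) ≠ 0 := by
        intro h0
        have h1 := (hm _).1 h0
        exact h1 (IsLocalization.map_units A s)
      refine ⟨g + (C (s : R) * X - C a), ?_, ?_, ?_⟩
      · nontriviality R
        refine hgm.add_of_left ?_
        have h2 : (C (s : R) * X - C a).degree ≤ 1 := by
          refine (degree_sub_le _ _).trans (max_le (degree_C_mul_X_le _) ?_)
          exact degree_C_le.trans (by norm_num)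
        have h3 : (2 : WithBot ℕ) ≤ g.degree := by
          rw [hg, (monic_X_pow 2).degree_mul, degree_X_pow]
          have h4 : (0 : WithBot ℕ) ≤ p.degree := zero_le_degree_iff.2 hp.ne_zero
          calc (2 : WithBot ℕ) = 0 + ((2 : ℕ) : WithBot ℕ) := by norm_num
            _ ≤ _ := by gcongr
        refine lt_of_le_of_lt h2 (lt_of_lt_of_le ?_ h3)
        norm_num
      · rw [eval₂_add, hg0, eval₂_sub, eval₂_mul, eval₂_C, eval₂_X, eval₂_C, zero_add,
          RingHom.comp_apply, RingHom.comp_apply, ← hw, ← map_mul, hsw, sub_self]
      · rw [derivative_add, eval₂_add, hd, zero_add, derivative_sub, derivative_C_mul,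
          derivative_X, derivative_C, mul_one, sub_zero, eval₂_C]
        exact hs0
    · exact ⟨g, hgm, hg0, hd⟩
  have he : ∀ p : R[X], π ((p.map (algebraMap R A)).eval w) =
      eval₂ (π.comp (algebraMap R A)) z' p := by
    intro p
    rw [eval_map, hom_eval₂, hw]
  obtain ⟨z, hz, hzw⟩ := HenselianLocalRing.is_henselian (f.map (algebraMap R A)) (hf.map _) w
    (by rw [← hm, he, hf0]) (by
      refine hunit _ ?_
      rw [derivative_map, he]
      exact hf1)
  refine ⟨z, ⟨f, hf, ?_⟩, ?_⟩
  · rw [← eval_map]
    exact hz
  · have h1 := (hm _).2 hzw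
    rw [map_sub, sub_eq_zero, hw] at h1
    exact h1

/-- finite branching passes to the quotient by a prime with henselian localization. -/
theorem fb_quotient95 {R K k : Type} [CommRing R] [IsDomain R] [Field K] [Algebra R K]
    [IsFractionRing R K] (q : Ideal R) [hq : q.IsPrime]
    (hH : HenselianLocalRing (Localization.AtPrime q)) [Field k] [Algebra (R ⧸ q) k]
    [IsFractionRing (R ⧸ q) k] (P' : Ideal (R ⧸ q))
    (hfin : {N : Ideal (integralClosure R K) | Over (P'.comap (Ideal.Quotient.mk q)) N}.Finite) :
    {N : Ideal (integralClosure (R ⧸ q) k) | Over P' N}.Finite := by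
  classical
  haveI : FaithfulSMul R K := (faithfulSMul_iff_algebraMap_injective _ _).mpr
    (IsFractionRing.injective R K)
  obtain ⟨alg, htow, hinjA⟩ := exists_algebra_loc (T := R) (F := K) q
  -- the residue map
  set g : R →+* k := (algebraMap (R ⧸ q) k).comp (Ideal.Quotient.mk q) with hg
  have hg0 : ∀ a : R, g a = 0 ↔ a ∈ q := by
    intro a
    rw [hg, RingHom.comp_apply, map_eq_zero_iff _ (IsFractionRing.injective (R ⧸ q) k),
      Ideal.Quotient.eq_zero_iff_mem]
  have hgu : ∀ y : q.primeCompl, IsUnit (g y) := by
    intro y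
    rw [isUnit_iff_ne_zero, Ne, hg0]
    exact y.2
  set π : Localization.AtPrime q →+* k := IsLocalization.lift hgu with hπdef
  have hπa : ∀ a : R, π (algebraMap R _ a) = g a := fun a => IsLocalization.lift_eq hgu a
  have hπs : Function.Surjective π := by
    intro x
    obtain ⟨a, b, hb, hx⟩ := IsFractionRing.div_surjective (A := R ⧸ q) x
    obtain ⟨a, rfl⟩ := Ideal.Quotient.mk_surjective a
    obtain ⟨b, rfl⟩ := Ideal.Quotient.mk_surjective b
    have hbq : b ∉ q := by
      intro h
      rw [Ideal.Quotient.eq_zero_iff_mem.2 h] at hb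
      exact nonZeroDivisors.ne_zero hb rfl
    refine ⟨IsLocalization.mk' (Localization.AtPrime q) a (⟨b, hbq⟩ : q.primeCompl), ?_⟩
    rw [hπdef, IsLocalization.lift_mk'_spec, ← hx]
    have hb0 : g b ≠ 0 := fun h => hbq ((hg0 b).1 h)
    change g a = g b * (g a / g b)
    rw [mul_div_cancel₀ _ hb0]
  have hm : ∀ a, π a = 0 ↔ a ∈ maximalIdeal (Localization.AtPrime q) := by
    haveI : (RingHom.ker π).IsMaximal := RingHom.ker_isMaximal_of_surjective π hπs
    have h1 : RingHom.ker π = maximalIdeal (Localization.AtPrime q) :=
      IsLocalRing.eq_maximalIdeal inferInstance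
    intro a
    rw [← h1, RingHom.mem_ker]
  -- the integral closure of `R` in the localization
  have hσi : ∀ x : integralClosure R (Localization.AtPrime q),
      π (x : Localization.AtPrime q) ∈ integralClosure (R ⧸ q) k := by
    intro x
    obtain ⟨f, hf, hf0⟩ := x.2
    refine ⟨f.map (Ideal.Quotient.mk q), hf.map _, ?_⟩
    have hcomp : (algebraMap (R ⧸ q) k).comp (Ideal.Quotient.mk q)
        = π.comp (algebraMap R (Localization.AtPrime q)) := by
      ext a
      exact (hπa a).symm
    rw [eval₂_map, hcomp, ← hom_eval₂]
    have h1 : eval₂ (algebraMap R (Localization.AtPrime q)) (x : Localization.AtPrime q) f = 0 :=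
      hf0
    rw [h1, map_zero]
  let σ : integralClosure R (Localization.AtPrime q) →+* integralClosure (R ⧸ q) k :=
    { toFun := fun x => ⟨π x, hσi x⟩
      map_one' := Subtype.ext (map_one π)
      map_mul' := fun x y => Subtype.ext (map_mul π _ _)
      map_zero' := Subtype.ext (map_zero π)
      map_add' := fun x y => Subtype.ext (map_add π _ _) }
  have hσs : Function.Surjective σ := by
    intro x
    have hx : (π.comp (algebraMap R (Localization.AtPrime q))).IsIntegralElem (x : k) := by
      obtain ⟨f, hf, hf0⟩ := x.2
      obtain ⟨f', hf', -, hfm⟩ := lifts_and_degree_eq_and_monic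
        ((Polynomial.mem_lifts f).2 (map_surjective _ Ideal.Quotient.mk_surjective f)) hf
      refine ⟨f', hfm, ?_⟩
      have hcomp : π.comp (algebraMap R (Localization.AtPrime q))
          = (algebraMap (R ⧸ q) k).comp (Ideal.Quotient.mk q) := by
        ext a
        exact hπa a
      rw [hcomp, ← eval₂_map, hf']
      exact hf0
    obtain ⟨z, hz, hzx⟩ := lift_integral95 q π hπs hm (x : k) hx
    exact ⟨⟨z, hz⟩, Subtype.ext hzx⟩
  have hσa : ∀ a : R, σ (algebraMap R _ a)
      = algebraMap (R ⧸ q) (integralClosure (R ⧸ q) k) (Ideal.Quotient.mk q a) := by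
    intro a
    apply Subtype.ext
    exact hπa a
  -- the embedding into the integral closure in `K`
  let j : integralClosure R (Localization.AtPrime q) →+* integralClosure R K :=
    { toFun := fun x => ⟨algebraMap (Localization.AtPrime q) K x, by
        have h0 : IsIntegral R (x : Localization.AtPrime q) := x.2
        exact h0.map (IsScalarTower.toAlgHom R (Localization.AtPrime q) K)⟩
      map_one' := Subtype.ext (map_one _)
      map_mul' := fun x y => Subtype.ext (map_mul _ _ _)
      map_zero' := Subtype.ext (map_zero _)
      map_add' := fun x y => Subtype.ext (map_add _ _ _) }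
  have hja : ∀ a : R, j (algebraMap R _ a) = algebraMap R (integralClosure R K) a := by
    intro a
    apply Subtype.ext
    exact (IsScalarTower.algebraMap_apply R (Localization.AtPrime q) K a).symm
  letI algj : Algebra (integralClosure R (Localization.AtPrime q)) (integralClosure R K) :=
    j.toAlgebra
  haveI : IsScalarTower R (integralClosure R (Localization.AtPrime q)) (integralClosure R K) :=
    IsScalarTower.of_algebraMap_eq fun t => (hja t).symm
  haveI : Algebra.IsIntegral (integralClosure R (Localization.AtPrime q)) (integralClosure R K) :=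
    Algebra.IsIntegral.tower_top (R := R)
  have hjinj : Function.Injective
      (algebraMap (integralClosure R (Localization.AtPrime q)) (integralClosure R K)) := by
    intro x y hxy
    apply Subtype.ext
    apply hinjA
    exact congrArg Subtype.val hxy
  have hex : ∀ N' : Ideal (integralClosure (R ⧸ q) k), N'.IsPrime →
      ∃ N : Ideal (integralClosure R K), N.IsPrime ∧ N.comap j = N'.comap σ := by
    intro N' hN'
    haveI : (N'.comap σ).IsPrime := Ideal.comap_isPrime σ N'
    obtain ⟨N, h1, h2⟩ := exists_prime_over (R := integralClosure R (Localization.AtPrime q))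
      (T := integralClosure R K) hjinj (N'.comap σ)
    refine ⟨N, h1, ?_⟩
    ext x
    exact h2 x
  choose! F hFp hFc using hex
  refine Set.Finite.of_finite_image (f := F) (hfin.subset ?_) ?_
  · rintro _ ⟨N', hN', rfl⟩
    refine ⟨hFp N' hN'.1, fun t => ?_⟩
    rw [← hja, ← Ideal.mem_comap, hFc N' hN'.1, Ideal.mem_comap, hσa, hN'.2, Ideal.mem_comap]
  · intro N₁ h₁ N₂ h₂ hFF
    have h3 : N₁.comap σ = N₂.comap σ := by
      rw [← hFc N₁ h₁.1, ← hFc N₂ h₂.1, hFF]
    exact Ideal.comap_injective_of_surjective σ hσs h3

end Pool.Agent.AIC
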