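import Mathlib

/-! MP_313bb4, piece K2: a ring interpreted in an NIP ring is NIP. -/

set_option autoImplicit false

namespace Pool.Agent.AIC

open Set FirstOrder FirstOrder.Language FirstOrder.Ring

/-- the NIP hypothesis of the frozen statement -/
def NIPRing (R : Type) [CommRing R] [CompatibleRing R] : Prop :=
  ∀ (k m : ℕ) (φ : Language.ring.Formula (Fin k ⊕ Fin m)),
    ∃ n : ℕ, ¬ ∃ (a : Fin n → Fin k → R) (b : Finset (Fin n) → Fin m → R),
      ∀ (i : Fin n) (J : Finset (Fin n)), (φ.Realize (Sum.elim (a i) (b J)) ↔ i ∈ J)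

/-- interpretation of the ring `T` in the ring `R` by tuples -/
structure Interp (R T D : Type) [CommRing R] [CompatibleRing R] [CommRing T] : Type where
  pi : (D → R) → T
  surj : Function.Surjective pi
  heq : (univ : Set R).Definable Language.ring
    {v : Fin 2 × D → R | pi (fun d => v (0, d)) = pi (fun d => v (1, d))}
  hadd : (univ : Set R).Definable Language.ring
    {v : Fin 3 × D → R | pi (fun d => v (0, d)) + pi (fun d => v (1, d)) = pi (fun d => v (2, d))}
  hmul : (univ : Set R).Definable Language.ring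
    {v : Fin 3 × D → R | pi (fun d => v (0, d)) * pi (fun d => v (1, d)) = pi (fun d => v (2, d))}

lemma realize_func_add {T β : Type} [CommRing T] [CompatibleRing T]
    (ts : Fin 2 → Language.ring.Term β) (v : β → T) :
    (Term.func ringFunc.add ts : Language.ring.Term β).realize v =
      (ts 0).realize v + (ts 1).realize v := CompatibleRing.funMap_add _

lemma realize_func_mul {T β : Type} [CommRing T] [CompatibleRing T]
    (ts : Fin 2 → Language.ring.Term β) (v : β → T) :
    (Term.func ringFunc.mul ts : Language.ring.Term β).realize v =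
      (ts 0).realize v * (ts 1).realize v := CompatibleRing.funMap_mul _

lemma realize_func_neg {T β : Type} [CommRing T] [CompatibleRing T]
    (ts : Fin 1 → Language.ring.Term β) (v : β → T) :
    (Term.func ringFunc.neg ts : Language.ring.Term β).realize v =
      -(ts 0).realize v := CompatibleRing.funMap_neg _

lemma realize_func_zero {T β : Type} [CommRing T] [CompatibleRing T]
    (ts : Fin 0 → Language.ring.Term β) (v : β → T) :
    (Term.func ringFunc.zero ts : Language.ring.Term β).realize v = 0 :=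
  CompatibleRing.funMap_zero _

lemma realize_func_one {T β : Type} [CommRing T] [CompatibleRing T]
    (ts : Fin 0 → Language.ring.Term β) (v : β → T) :
    (Term.func ringFunc.one ts : Language.ring.Term β).realize v = 1 :=
  CompatibleRing.funMap_one _

namespace Interp

variable {R T D : Type} [CommRing R] [CompatibleRing R] [CommRing T]
  [Finite D] (I : Interp R T D)

/-- functions of `T` whose graph is definable in `R` -/
def TDef {β : Type} (f : (β → T) → T) : Prop :=
  (univ : Set R).Definable Language.ring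
    {v : (β ⊕ Unit) × D → R | f (fun b => I.pi (fun d => v (Sum.inl b, d))) =
      I.pi (fun d => v (Sum.inr (), d))}

lemma TDef.const {β : Type} [Finite β] (z : T) : I.TDef (fun _ : β → T => z) := by
  obtain ⟨w, hw⟩ := I.surj z
  have hF : (univ : Set R).DefinableMap Language.ring
      (fun (v : (β ⊕ Unit) × D → R) (p : Fin 2 × D) =>
        if p.1 = 0 then w p.2 else v (Sum.inr (), p.2)) := by
    rintro ⟨j, d⟩
    by_cases hj : j = 0
    · simp only [hj, if_true]
      exact Language.definableFun_const Language.ring _ (mem_univ _)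
    · simp only [hj, if_false]
      exact DefinableFun.proj _
  have h := I.heq.preimage_map hF
  unfold TDef
  convert h using 1
  ext v
  simp [hw]

omit [Finite D] in
lemma TDef.var {β : Type} (b : β) : I.TDef (fun x : β → T => x b) := by
  have h := I.heq.preimage_comp (fun p : Fin 2 × D =>
    ((if p.1 = 0 then Sum.inl b else Sum.inr (), p.2) : (β ⊕ Unit) × D))
  unfold TDef
  convert h using 1
  ext v
  simp

lemma TDef.binary {β : Type} [Finite β] {f g : (β → T) → T} (hf : I.TDef f) (hg : I.TDef g)
    {op : T → T → T}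
    (hop : (univ : Set R).Definable Language.ring
    {v : Fin 3 × D → R | op (I.pi (fun d => v (0, d))) (I.pi (fun d => v (1, d))) =
      I.pi (fun d => v (2, d))}) : I.TDef (fun x => op (f x) (g x)) := by
  have h1 := hf.preimage_comp (fun p : (β ⊕ Unit) × D =>
    (Sum.elim (fun b => Sum.inl (Sum.inl b, p.2)) (fun _ => Sum.inr (0, p.2)) p.1 :
      ((β ⊕ Unit) × D) ⊕ (Fin 2 × D)))
  have h2 := hg.preimage_comp (fun p : (β ⊕ Unit) × D =>
    (Sum.elim (fun b => Sum.inl (Sum.inl b, p.2)) (fun _ => Sum.inr (1, p.2)) p.1 :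
      ((β ⊕ Unit) × D) ⊕ (Fin 2 × D)))
  have h3 := hop.preimage_comp (fun p : Fin 3 × D =>
    (if p.1 = 0 then Sum.inr (0, p.2) else if p.1 = 1 then Sum.inr (1, p.2) else
      Sum.inl (Sum.inr (), p.2) : ((β ⊕ Unit) × D) ⊕ (Fin 2 × D)))
  have h4 := Definable.exists_of_finite ((h1.inter h2).inter h3)
  unfold TDef
  convert h4 using 1
  ext v
  constructor
  · intro h
    obtain ⟨w0, hw0⟩ := I.surj (f fun b => I.pi fun d => v (Sum.inl b, d))
    obtain ⟨w1, hw1⟩ := I.surj (g fun b => I.pi fun d => v (Sum.inl b, d))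
    refine ⟨fun p => if p.1 = 0 then w0 p.2 else w1 p.2, ⟨⟨?_, ?_⟩, ?_⟩⟩
    · simp [hw0]
    · simp [hw1]
    · have h' : op (f fun b => I.pi fun d => v (Sum.inl b, d))
        (g fun b => I.pi fun d => v (Sum.inl b, d)) = I.pi (fun d => v (Sum.inr (), d)) := h
      simpa [hw0, hw1] using h'
  · rintro ⟨u, ⟨⟨hu1, hu2⟩, hu3⟩⟩
    simp at hu1 hu2 hu3
    show op (f fun b => I.pi fun d => v (Sum.inl b, d))
      (g fun b => I.pi fun d => v (Sum.inl b, d)) = I.pi (fun d => v (Sum.inr (), d))
    rw [hu1, hu2]
    exact hu3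

lemma hneg : (univ : Set R).Definable Language.ring
    {v : Fin 3 × D → R | (fun a _ => -a : T → T → T) (I.pi (fun d => v (0, d)))
      (I.pi (fun d => v (1, d))) = I.pi (fun d => v (2, d))} := by
  have h1 := (TDef.const I (β := Fin 3) (0 : T)).preimage_comp
    (fun p : (Fin 3 ⊕ Unit) × D =>
      (Sum.elim (fun b => Sum.inl (b, p.2)) (fun _ => Sum.inr p.2) p.1 :
        (Fin 3 × D) ⊕ D))
  have h2 := I.hadd.preimage_comp (fun p : Fin 3 × D =>
    (if p.1 = 0 then Sum.inl (0, p.2) else if p.1 = 1 then Sum.inl (2, p.2) else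
      Sum.inr p.2 : (Fin 3 × D) ⊕ D))
  have h4 := Definable.exists_of_finite (h1.inter h2)
  convert h4 using 1
  ext v
  constructor
  · intro h
    obtain ⟨w0, hw0⟩ := I.surj (0 : T)
    have h' : -(I.pi (fun d => v (0, d))) = I.pi (fun d => v (2, d)) := h
    refine ⟨w0, ⟨?_, ?_⟩⟩
    · simp [hw0]
    · have h'' : I.pi (fun d => v (0, d)) + I.pi (fun d => v (2, d)) = 0 := by
        rw [← h']; exact add_neg_cancel _
      simpa [hw0] using h''
  · rintro ⟨u, ⟨hu1, hu2⟩⟩
    simp at hu1 hu2
    rw [← hu1] at hu2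
    exact (eq_neg_of_add_eq_zero_right hu2).symm

variable [CompatibleRing T]

lemma term_def {β : Type} [Finite β] (t : Language.ring.Term β) :
    I.TDef (fun x : β → T => t.realize x) := by
  induction t with
  | var b => exact TDef.var I b
  | @func l f ts ih =>
    cases f with
    | add =>
      have h := TDef.binary I (ih 0) (ih 1) (op := fun a b => a + b) I.hadd
      simpa only [realize_func_add] using h
    | mul =>
      have h := TDef.binary I (ih 0) (ih 1) (op := fun a b => a * b) I.hmul
      simpa only [realize_func_mul] using h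
    | neg =>
      have h := TDef.binary I (ih 0) (ih 0) (op := fun a _ => -a) I.hneg
      simpa only [realize_func_neg] using h
    | zero => simpa only [realize_func_zero] using TDef.const I (β := β) (0 : T)
    | one => simpa only [realize_func_one] using TDef.const I (β := β) (1 : T)

/-- predicates of `T` definable in `R` -/
def PDef {β : Type} (P : (β → T) → Prop) : Prop :=
  (univ : Set R).Definable Language.ring
    {v : β × D → R | P (fun b => I.pi (fun d => v (b, d)))}

omit [CompatibleRing T] in
lemma PDef.eq {β : Type} [Finite β] {f g : (β → T) → T} (hf : I.TDef f) (hg : I.TDef g) :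
    I.PDef (fun x => f x = g x) := by
  have h1 := hf.preimage_comp (fun p : (β ⊕ Unit) × D =>
    (Sum.elim (fun b => Sum.inl (b, p.2)) (fun _ => Sum.inr p.2) p.1 : (β × D) ⊕ D))
  have h2 := hg.preimage_comp (fun p : (β ⊕ Unit) × D =>
    (Sum.elim (fun b => Sum.inl (b, p.2)) (fun _ => Sum.inr p.2) p.1 : (β × D) ⊕ D))
  have h4 := Definable.exists_of_finite (h1.inter h2)
  unfold PDef
  convert h4 using 1
  ext v
  constructor
  · intro h
    obtain ⟨w0, hw0⟩ := I.surj (f fun b => I.pi fun d => v (b, d))
    have h' : (f fun b => I.pi fun d => v (b, d)) = (g fun b => I.pi fun d => v (b, d)) := h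
    refine ⟨w0, ⟨?_, ?_⟩⟩
    · simp [hw0]
    · simp [hw0, ← h']
  · rintro ⟨u, ⟨hu1, hu2⟩⟩
    simp at hu1 hu2
    show (f fun b => I.pi fun d => v (b, d)) = (g fun b => I.pi fun d => v (b, d))
    rw [hu1, hu2]

omit [CompatibleRing T] in
lemma PDef.forall_last {α : Type} [Finite α] {n : ℕ} {P : (α ⊕ Fin (n + 1) → T) → Prop}
    (hP : I.PDef P) :
    I.PDef (fun x : α ⊕ Fin n → T => ∀ y : T, P (Sum.elim (fun a => x (Sum.inl a))
      (Fin.snoc (α := fun _ => T) (fun i => x (Sum.inr i)) y))) := by
  have h1 := hP.preimage_comp (fun p : (α ⊕ Fin (n + 1)) × D =>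
    (Sum.elim (fun a => Sum.inl (Sum.inl a, p.2))
      (fun i => Fin.lastCases (motive := fun _ => ((α ⊕ Fin n) × D) ⊕ D)
        (Sum.inr p.2) (fun j => Sum.inl (Sum.inr j, p.2)) i) p.1 :
      ((α ⊕ Fin n) × D) ⊕ D))
  have h4 := Definable.forall_of_finite h1
  unfold PDef
  convert h4 using 1
  ext v
  have key : ∀ u : D → R, (fun b : α ⊕ Fin (n + 1) => I.pi fun d =>
      (Sum.elim v u ∘ fun p : (α ⊕ Fin (n + 1)) × D =>
        (Sum.elim (fun a => Sum.inl (Sum.inl a, p.2))
        (fun i => Fin.lastCases (motive := fun _ => ((α ⊕ Fin n) × D) ⊕ D)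
        (Sum.inr p.2) (fun j => Sum.inl (Sum.inr j, p.2)) i) p.1 :
        ((α ⊕ Fin n) × D) ⊕ D)) (b, d)) =
      Sum.elim (fun a => I.pi fun d => v (Sum.inl a, d))
        (Fin.snoc (α := fun _ => T) (fun i => I.pi fun d => v (Sum.inr i, d)) (I.pi u)) := by
    intro u
    funext b
    rcases b with a | i
    · simp
    · refine Fin.lastCases ?_ (fun j => ?_) i
      · simp
      · simp
  constructor
  · intro h u
    have h' := h (I.pi u)
    show P _
    rw [key u]
    exact h'
  · intro h y
    obtain ⟨u, rfl⟩ := I.surj y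
    have h' := h u
    have h'' : P _ := h'
    rw [key u] at h''
    exact h''

lemma formula_def {α : Type} [Finite α] {n : ℕ} (ψ : Language.ring.BoundedFormula α n) :
    I.PDef (fun x : α ⊕ Fin n → T => ψ.Realize (fun a => x (Sum.inl a))
      (fun i => x (Sum.inr i))) := by
  induction ψ with
  | falsum =>
    unfold PDef
    convert (definable_empty : (univ : Set R).Definable Language.ring _) using 1
    exact Set.eq_empty_of_forall_notMem fun v hv => hv
  | equal t₁ t₂ =>
    have h := PDef.eq I (I.term_def t₁) (I.term_def t₂)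
    convert h using 1
    funext x
    show (t₁.realize (Sum.elim (fun a => x (Sum.inl a)) (fun i => x (Sum.inr i))) =
      t₂.realize (Sum.elim (fun a => x (Sum.inl a)) (fun i => x (Sum.inr i)))) = _
    have hx : Sum.elim (fun a => x (Sum.inl a)) (fun i => x (Sum.inr i)) = x := by
      funext b
      rcases b with b | b <;> rfl
    rw [hx]
  | rel R ts => exact (R : Empty).elim
  | imp φ₁ φ₂ ih₁ ih₂ =>
    unfold PDef at ih₁ ih₂ ⊢
    have h := ih₁.compl.union ih₂
    convert h using 1
    ext v
    exact imp_iff_not_or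
  | all φ ih =>
    exact PDef.forall_last I ih

end Interp

/-- a ring interpreted in an NIP ring is NIP -/
theorem nip_transfer {R T D : Type} [CommRing R] [CompatibleRing R] [CommRing T]
    [CompatibleRing T] [Finite D] (I : Interp R T D) (hR : NIPRing R) : NIPRing T := by
  classical
  intro k m φ
  have h1 := I.formula_def (α := Fin k ⊕ Fin m) (n := 0) φ
  unfold Interp.PDef at h1
  -- variables: first and second group
  have h2 := h1.preimage_comp (fun p : ((Fin k ⊕ Fin m) ⊕ Fin 0) × D =>
    (Sum.elim (Sum.elim (fun i => Sum.inl (i, p.2)) (fun i => Sum.inr (i, p.2)))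
      (fun i => i.elim0) p.1 : (Fin k × D) ⊕ (Fin m × D)))
  obtain ⟨A0, -, h3⟩ := definable_iff_finitely_definable.mp h2
  obtain ⟨ψ, hψ⟩ := definable_iff_exists_formula_sum.mp h3
  have := Fintype.ofFinite D
  -- enumeration of the variables
  obtain ⟨k', ⟨ek⟩⟩ := Finite.exists_equiv_fin (↑(A0 : Set R) ⊕ (Fin k × D))
  obtain ⟨m', ⟨em⟩⟩ := Finite.exists_equiv_fin (Fin m × D)
  let g : ↑(A0 : Set R) ⊕ ((Fin k × D) ⊕ (Fin m × D)) → Fin k' ⊕ Fin m' :=
    Sum.elim (fun a => Sum.inl (ek (Sum.inl a)))
      (Sum.elim (fun p => Sum.inl (ek (Sum.inr p))) (fun p => Sum.inr (em p)))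
  obtain ⟨n, hn⟩ := hR k' m' (ψ.relabel g)
  refine ⟨n, ?_⟩
  rintro ⟨a, b, hab⟩
  apply hn
  choose s hs using I.surj
  refine ⟨fun i x => Sum.elim (fun r : ↑(A0 : Set R) => (r : R))
    (fun p : Fin k × D => s (a i p.1) p.2) (ek.symm x),
    fun J x => s (b J (em.symm x).1) (em.symm x).2, fun i J => ?_⟩
  rw [← hab i J, Formula.realize_relabel]
  have hg : (Sum.elim (fun x => Sum.elim (fun r : ↑(A0 : Set R) => (r : R))
      (fun p : Fin k × D => s (a i p.1) p.2) (ek.symm x))
      (fun x => s (b J (em.symm x).1) (em.symm x).2)) ∘ g =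
      Sum.elim (fun r : ↑(A0 : Set R) => (r : R))
        (Sum.elim (fun p : Fin k × D => s (a i p.1) p.2)
          (fun p : Fin m × D => s (b J p.1) p.2)) := by
    funext x
    rcases x with x | x | x <;> simp [g]
  rw [hg]
  have h4 : (Sum.elim (fun p : Fin k × D => s (a i p.1) p.2)
      (fun p : Fin m × D => s (b J p.1) p.2)) ∈ {v | ψ.Realize (Sum.elim (fun r :
        ↑(A0 : Set R) => (r : R)) v)} ↔ φ.Realize (Sum.elim (a i) (b J)) := by
    rw [← hψ]
    show BoundedFormula.Realize φ _ _ ↔ BoundedFormula.Realize φ _ _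
    have e1 : (fun c : Fin k ⊕ Fin m => I.pi fun d => (Sum.elim
        (fun p : Fin k × D => s (a i p.1) p.2) (fun p : Fin m × D => s (b J p.1) p.2) ∘
        fun p : ((Fin k ⊕ Fin m) ⊕ Fin 0) × D =>
        (Sum.elim (Sum.elim (fun i => Sum.inl (i, p.2)) (fun i => Sum.inr (i, p.2)))
        (fun i => i.elim0) p.1 : (Fin k × D) ⊕ (Fin m × D))) (Sum.inl c, d)) =
        Sum.elim (a i) (b J) := by
      funext c
      rcases c with c | c
      · simp [hs]
      · simp [hs]
    refine iff_of_eq ?_
    congr 1
    exact Subsingleton.elim _ _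
  exact h4

end Pool.Agent.AIC
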