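import Pool.Agent.AIC.TheoremP46

/-! MP_313bb4: unique primes of integral closures over a prime, and local integral closures of
localizations. -/

set_option autoImplicit false

namespace Pool.Agent.AIC

open Finset Polynomial IsLocalRing

section Uniq

variable {T F : Type} [CommRing T] [Field F] [Algebra T F]

/-- `N` is a prime of the integral closure of `T` in `F` lying over `Q` -/
def Over (Q : Ideal T) (N : Ideal (integralClosure T F)) : Prop :=
  N.IsPrime ∧ ∀ t : T, algebraMap T (integralClosure T F) t ∈ N ↔ t ∈ Q

/-- the inclusion of integral closures -/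
noncomputable def closureMap (T A F : Type) [CommRing T] [CommRing A] [Field F] [Algebra T F]
    [Algebra T A] [Algebra A F] [IsScalarTower T A F] :
    integralClosure T F →+* integralClosure A F where
  toFun := fun s => ⟨(s : F), by
    have h0 : IsIntegral T (s : F) := s.2
    exact h0.tower_top⟩
  map_one' := rfl
  map_mul' := fun _ _ => rfl
  map_zero' := rfl
  map_add' := fun _ _ => rfl

theorem closureMap_coe (A : Type) [CommRing A] [Algebra T A] [Algebra A F] [IsScalarTower T A F]
    (x : integralClosure T F) : ((closureMap T A F x : integralClosure A F) : F) = (x : F) := rfl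

theorem closureMap_algebraMap (A : Type) [CommRing A] [Algebra T A] [Algebra A F]
    [IsScalarTower T A F] (t : T) :
    closureMap T A F (algebraMap T (integralClosure T F) t) =
      algebraMap A (integralClosure A F) (algebraMap T A t) := by
  apply Subtype.ext
  change algebraMap T F t = algebraMap A F (algebraMap T A t)
  rw [IsScalarTower.algebraMap_apply T A F]

/-- clearing denominators of an element integral over the localization -/
theorem exists_mul_mem (Q : Ideal T) [Q.IsPrime] (A : Type) [CommRing A] [Algebra T A]
    [IsLocalization.AtPrime A Q] [Algebra A F] [IsScalarTower T A F] (b : integralClosure A F) :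
    ∃ s : T, s ∉ Q ∧ ∃ x : integralClosure T F, closureMap T A F x =
      algebraMap A (integralClosure A F) (algebraMap T A s) * b := by
  obtain ⟨s, hs⟩ := IsIntegral.exists_multiple_integral_of_isLocalization Q.primeCompl
    (Rₘ := A) (b : F) b.2
  refine ⟨s, s.2, ⟨s • (b : F), hs⟩, ?_⟩
  apply Subtype.ext
  change (s • (b : F)) = algebraMap A F (algebraMap T A s) * (b : F)
  rw [← IsScalarTower.algebraMap_apply T A F]
  exact Algebra.smul_def (R := T) (s : T) (b : F)

/-- U1: one prime over `Q` gives a local integral closure of the localization -/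
theorem local_of_unique (Q : Ideal T) [Q.IsPrime] (A : Type) [CommRing A] [Algebra T A]
    [IsLocalization.AtPrime A Q] [Algebra A F] [IsScalarTower T A F]
    (huniq : ∀ N N' : Ideal (integralClosure T F), Over Q N → Over Q N' → N = N') :
    IsLocalRing (integralClosure A F) := by
  haveI : IsLocalRing A := IsLocalization.AtPrime.isLocalRing A Q
  have hcM : ∀ M : Ideal (integralClosure A F), M.IsMaximal → ∀ t : T,
      (algebraMap A (integralClosure A F) (algebraMap T A t) ∈ M ↔ t ∈ Q) := by
    intro M hM t
    haveI := hM
    haveI h1 : (M.comap (algebraMap A (integralClosure A F))).IsMaximal :=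
      Ideal.isMaximal_comap_of_isIntegral_of_isMaximal M
    have h2 := IsLocalRing.eq_maximalIdeal h1
    rw [← Ideal.mem_comap, h2]
    exact IsLocalization.AtPrime.to_map_mem_maximal_iff A Q t
  have hover : ∀ M : Ideal (integralClosure A F), M.IsMaximal →
      Over Q (M.comap (closureMap T A F)) := by
    intro M hM
    haveI := hM
    refine ⟨Ideal.comap_isPrime (closureMap T A F) M, fun t => ?_⟩
    rw [Ideal.mem_comap, closureMap_algebraMap]
    exact hcM M hM t
  have huniq' : ∀ M M' : Ideal (integralClosure A F), M.IsMaximal → M'.IsMaximal → M = M' := by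
    intro M M' hM hM'
    have h1 := huniq _ _ (hover M hM) (hover M' hM')
    refine hM.eq_of_le hM'.ne_top fun b hb => ?_
    obtain ⟨s, hs, x, hx⟩ := exists_mul_mem (F := F) Q A b
    have h2 : x ∈ M.comap (closureMap T A F) := by
      rw [Ideal.mem_comap, hx]
      exact M.mul_mem_left _ hb
    rw [h1, Ideal.mem_comap, hx] at h2
    rcases hM'.isPrime.mem_or_mem h2 with h3 | h3
    · exact absurd ((hcM M' hM' s).mp h3) hs
    · exact h3
  obtain ⟨M, hM⟩ := Ideal.exists_maximal (integralClosure A F)
  exact IsLocalRing.of_unique_max_ideal ⟨M, hM, fun M' hM' => huniq' M' M hM' hM⟩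

/-- U2: a local integral closure of the localization gives one prime over `Q` -/
theorem unique_of_local (Q : Ideal T) [Q.IsPrime] (A : Type) [CommRing A] [Algebra T A]
    [IsLocalization.AtPrime A Q] [Algebra A F] [IsScalarTower T A F]
    (hinj : Function.Injective (algebraMap T F))
    (hloc : IsLocalRing (integralClosure A F)) (N N' : Ideal (integralClosure T F))
    (hN : Over Q N) (hN' : Over Q N') : N = N' := by
  haveI : IsLocalRing A := IsLocalization.AtPrime.isLocalRing A Q
  set C := integralClosure A F with hC
  have h1 : ((maximalIdeal C).comap (algebraMap A C)).IsMaximal :=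
    Ideal.isMaximal_comap_of_isIntegral_of_isMaximal (maximalIdeal C)
  have h2 := IsLocalRing.eq_maximalIdeal h1
  have hc : ∀ t : T, algebraMap A C (algebraMap T A t) ∈ maximalIdeal C ↔ t ∈ Q := by
    intro t
    rw [← Ideal.mem_comap, h2]
    exact IsLocalization.AtPrime.to_map_mem_maximal_iff A Q t
  set N₀ : Ideal (integralClosure T F) := (maximalIdeal C).comap (closureMap T A F) with hN₀
  have key : ∀ N : Ideal (integralClosure T F), Over Q N → N = N₀ := by
    intro N hN
    haveI := hN.1
    have hle : N ≤ N₀ := by
      intro x hx
      rw [hN₀, Ideal.mem_comap, mem_maximalIdeal, mem_nonunits_iff]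
      intro hunit
      obtain ⟨y, hy⟩ := hunit.exists_right_inv
      obtain ⟨s, hs, z, hz⟩ := exists_mul_mem (F := F) Q A y
      apply hs
      rw [← hN.2]
      have h3 : algebraMap T (integralClosure T F) s = x * z := by
        apply Subtype.ext
        have h4 := congrArg (fun w : C => (w : F)) hz
        have h5 := congrArg (fun w : C => (w : F)) hy
        change (z : F) = algebraMap A F (algebraMap T A s) * (y : F) at h4
        change (x : F) * (y : F) = 1 at h5
        change algebraMap T F s = (x : F) * (z : F)
        rw [h4, ← IsScalarTower.algebraMap_apply T A F]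
        calc algebraMap T F s = algebraMap T F s * 1 := (mul_one _).symm
          _ = algebraMap T F s * ((x : F) * (y : F)) := by rw [h5]
          _ = (x : F) * (algebraMap T F s * (y : F)) := by ring
      rw [h3]
      exact N.mul_mem_right _ hx
    by_contra hne
    have hlt : N < N₀ := lt_of_le_of_ne hle hne
    have h3 := Ideal.IsIntegral.comap_lt_comap (R := T) hlt
    have h4 : N.comap (algebraMap T (integralClosure T F)) = Q := by
      ext t
      exact hN.2 t
    have h5 : N₀.comap (algebraMap T (integralClosure T F)) = Q := by
      ext t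
      rw [Ideal.mem_comap, hN₀, Ideal.mem_comap, closureMap_algebraMap]
      exact hc t
    rw [h4, h5] at h3
    exact lt_irrefl _ h3
  rw [key N hN, key N' hN']

/-- an algebra structure on `F` over the localization -/
theorem exists_algebra_loc [IsDomain T] [FaithfulSMul T F] (Q : Ideal T) [Q.IsPrime] :
    ∃ alg : Algebra (Localization.AtPrime Q) F, IsScalarTower T (Localization.AtPrime Q) F ∧
      Function.Injective (algebraMap (Localization.AtPrime Q) F) := by
  have hinjT : Function.Injective (algebraMap T F) := FaithfulSMul.algebraMap_injective T F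
  have hu : ∀ s : Q.primeCompl, IsUnit (algebraMap T F s) := by
    intro s
    rw [isUnit_iff_ne_zero]
    intro h
    have h1 : (s : T) = 0 := hinjT (by rw [h, map_zero])
    exact s.2 (h1 ▸ Q.zero_mem)
  let φ : Localization.AtPrime Q →+* F := IsLocalization.lift (M := Q.primeCompl) hu
  letI alg : Algebra (Localization.AtPrime Q) F := φ.toAlgebra
  have hφ : ∀ x : T, φ (algebraMap T (Localization.AtPrime Q) x) = algebraMap T F x := fun x =>
    IsLocalization.lift_eq hu x
  refine ⟨alg, IsScalarTower.of_algebraMap_eq fun x => (hφ x).symm, ?_⟩
  change Function.Injective φ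
  rw [injective_iff_map_eq_zero]
  intro x hx
  obtain ⟨a, s, rfl⟩ := IsLocalization.exists_mk'_eq Q.primeCompl x
  have h1 : IsLocalization.mk' (Localization.AtPrime Q) a s *
      algebraMap T (Localization.AtPrime Q) s = algebraMap T (Localization.AtPrime Q) a :=
    IsLocalization.mk'_spec _ a s
  have h2 : φ (algebraMap T (Localization.AtPrime Q) a) = 0 := by
    rw [← h1, map_mul, hx, zero_mul]
  rw [hφ] at h2
  have h3 : a = 0 := hinjT (by rw [h2, map_zero])
  rw [h3, IsLocalization.mk'_zero]

end Uniq

section Tower

variable {R T F : Type} [CommRing R] [CommRing T] [Field F] [Algebra R T] [Algebra R F]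
  [Algebra T F] [IsScalarTower R T F]

theorem closureMap_bijective [Algebra.IsIntegral R T] :
    Function.Bijective (closureMap R T F) := by
  constructor
  · intro x y hxy
    apply Subtype.ext
    exact congrArg (fun w : integralClosure T F => (w : F)) hxy
  · intro y
    have h1 : IsIntegral R (y : F) := by
      have h0 : IsIntegral T (y : F) := y.2
      exact isIntegral_trans (R := R) (A := T) _ h0
    exact ⟨⟨(y : F), h1⟩, Subtype.ext rfl⟩

/-- primes of the closure of `T` over `Q'` restrict to primes of the closure of `R` over `Q` -/
theorem over_comap (Q : Ideal R) (Q' : Ideal T) (hQQ : ∀ r : R, algebraMap R T r ∈ Q' ↔ r ∈ Q)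
    (N : Ideal (integralClosure T F)) (hN : Over Q' N) : Over Q (N.comap (closureMap R T F)) := by
  haveI := hN.1
  refine ⟨Ideal.comap_isPrime (closureMap R T F) N, fun r => ?_⟩
  rw [Ideal.mem_comap, closureMap_algebraMap, hN.2, hQQ]

theorem comap_injective [Algebra.IsIntegral R T] (N N' : Ideal (integralClosure T F))
    (h : N.comap (closureMap R T F) = N'.comap (closureMap R T F)) : N = N' :=
  Ideal.comap_injective_of_surjective (closureMap R T F)
    (closureMap_bijective (R := R) (T := T) (F := F)).2 h

end Tower

end Pool.Agent.AIC
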