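import Mathlib
import Pool.Agent.AIC.Unique46
import Pool.Agent.AIC.Interp83

/-!
# Stage 11: the definitions for Theorem M in pair form

`PType k` : for `q = 2, 3, 5` all finite extensions of `k` have finitely many `q`-th power classes;
`PairM` : the pair form of Theorem M.
-/

set_option autoImplicit false
set_option linter.style.haveILetI false

namespace Pool.Agent.AIC

open Finset Polynomial IsLocalRing FirstOrder FirstOrder.Ring

/-- all finite extensions of `k` have finitely many `q`-th power classes, `q = 2, 3, 5`. -/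
def PType (k : Type) [Field k] : Prop :=
  ∀ (L : Type) [Field L] [Algebra k L] [FiniteDimensional k L], ∀ q : ℕ, (q = 2 ∨ q = 3 ∨ q = 5) →
    ∃ S : Set L, S.Finite ∧ ∀ x : L, ∃ s ∈ S, ∃ y : L, x = s * y ^ q

theorem PType.ext82 {k : Type} [Field k] (h : PType k) (k' : Type) [Field k'] [Algebra k k']
    [FiniteDimensional k k'] : PType k' := by
  intro L _ _ _ q hq
  letI : Algebra k L := ((algebraMap k' L).comp (algebraMap k k')).toAlgebra
  haveI : IsScalarTower k k' L := IsScalarTower.of_algebraMap_eq fun x => rfl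
  haveI : FiniteDimensional k L := Module.Finite.trans k' L
  exact h L q hq

/-- the pair form of Theorem M. -/
def PairM : Prop :=
  ∀ {T K : Type} [CommRing T] [IsDomain T] [Field K] [Algebra T K] [IsFractionRing T K]
    [CompatibleRing T], NIPRing T → PType K → ∀ (P Q : Ideal T) [P.IsPrime] [Q.IsPrime],
    Infinite (T ⧸ P) → Infinite (T ⧸ Q) →
    {N : Ideal (integralClosure T K) | Over P N}.Finite →
    {N : Ideal (integralClosure T K) | Over Q N}.Finite → P ≤ Q ∨ Q ≤ P

/-- the pair form of Theorem M without residue hypothesis. -/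
def PairM' : Prop :=
  ∀ {T K : Type} [CommRing T] [IsDomain T] [Field K] [Algebra T K] [IsFractionRing T K]
    [CompatibleRing T], NIPRing T → PType K → ∀ (P Q : Ideal T) [P.IsPrime] [Q.IsPrime],
    {N : Ideal (integralClosure T K) | Over P N}.Finite →
    {N : Ideal (integralClosure T K) | Over Q N}.Finite → P ≤ Q ∨ Q ≤ P

/-- the pair form of Theorem M; the residue hypothesis is void when `b` holds. -/
def PairMb (b : Prop) : Prop :=
  ∀ {T K : Type} [CommRing T] [IsDomain T] [Field K] [Algebra T K] [IsFractionRing T K]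
    [CompatibleRing T], NIPRing T → PType K → ∀ (P Q : Ideal T) [P.IsPrime] [Q.IsPrime],
    (b ∨ Infinite (T ⧸ P)) → (b ∨ Infinite (T ⧸ Q)) →
    {N : Ideal (integralClosure T K) | Over P N}.Finite →
    {N : Ideal (integralClosure T K) | Over Q N}.Finite → P ≤ Q ∨ Q ≤ P

theorem PairM.toB82 (h : PairM) : PairMb False := by
  intro T K _ _ _ _ _ _ hN hPT P Q _ _ hP hQ hfP hfQ
  exact h hN hPT P Q (hP.resolve_left id) (hQ.resolve_left id) hfP hfQ

theorem PairM'.toB82 (h : PairM') : PairMb True := by
  intro T K _ _ _ _ _ _ hN hPT P Q _ _ _ _ hfP hfQ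
  exact h hN hPT P Q hfP hfQ

end Pool.Agent.AIC
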