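import Mathlib
import Pool.Agent.AIC.DefsG82

/-!
# Theorem M: the general class of fields

`QType k` : over every finite extension `L` of `k` there are three different primes `q` such that
some finite extension of `L` contains a root of `1 + X + ... + X ^ (q - 1)` and has finitely many
`q`-th power classes.
-/

set_option autoImplicit false
set_option linter.style.haveILetI false

namespace Pool.Agent.AIC

open Finset Polynomial IsLocalRing FirstOrder FirstOrder.Ring

/-- some finite extension of `L` contains a `q`-th root of unity and has finitely many `q`-th power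
classes. -/
def QGood (L : Type) [Field L] (q : ℕ) : Prop :=
  q.Prime ∧ ∃ (F : Type) (_ : Field F) (_ : Algebra L F) (_ : FiniteDimensional L F),
    (∃ ζ : F, ∑ j ∈ range q, ζ ^ j = 0) ∧
    ∃ S : Set F, S.Finite ∧ ∀ x : F, ∃ s ∈ S, ∃ y : F, x = s * y ^ q

/-- every finite extension of `k` has three good primes. -/
def QType (k : Type) [Field k] : Prop :=
  ∀ (L : Type) [Field L] [Algebra k L] [FiniteDimensional k L],
    ∃ q : Fin 3 → ℕ, Function.Injective q ∧ ∀ i, QGood L (q i)

theorem QType.ext82 {k : Type} [Field k] (h : QType k) (k' : Type) [Field k'] [Algebra k k']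
    [FiniteDimensional k k'] : QType k' := by
  intro L _ _ _
  letI : Algebra k L := ((algebraMap k' L).comp (algebraMap k k')).toAlgebra
  haveI : IsScalarTower k k' L := IsScalarTower.of_algebraMap_eq fun x => rfl
  haveI : FiniteDimensional k L := Module.Finite.trans k' L
  exact h L

/-- in every field some finite extension contains a root of `1 + X + ... + X ^ (q - 1)`. -/
theorem exists_root_ext82 (L : Type) [Field L] (q : ℕ) (hq : q.Prime) :
    ∃ (F : Type) (_ : Field F) (_ : Algebra L F) (_ : FiniteDimensional L F),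
      ∃ ζ : F, ∑ j ∈ range q, ζ ^ j = 0 := by
  haveI : Fact q.Prime := ⟨hq⟩
  have hdeg : (cyclotomic q L).degree ≠ 0 := by
    rw [degree_cyclotomic, Nat.totient_prime hq]
    have := hq.two_le
    exact_mod_cast (by omega : q - 1 ≠ 0)
  have hsp : ((cyclotomic q L).map (algebraMap L (cyclotomic q L).SplittingField)).Splits :=
    SplittingField.splits _
  obtain ⟨ζ, hζ⟩ := hsp.exists_eval_eq_zero (by rwa [degree_map])
  refine ⟨(cyclotomic q L).SplittingField, inferInstance, inferInstance,
    IsSplittingField.finiteDimensional _ (cyclotomic q L), ζ, ?_⟩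
  rw [map_cyclotomic, cyclotomic_prime (cyclotomic q L).SplittingField q] at hζ
  have h1 : eval ζ (∑ i ∈ range q, (X : (cyclotomic q L).SplittingField[X]) ^ i)
      = ∑ i ∈ range q, ζ ^ i := by
    rw [eval_finsetSum]
    simp
  rw [← h1]
  exact hζ

/-- power type implies the general type. -/
theorem PType.qType82 {k : Type} [Field k] (h : PType k) : QType k := by
  intro L _ _ _
  refine ⟨![2, 3, 5], by decide, fun i => ?_⟩
  have hi : (![2, 3, 5] : Fin 3 → ℕ) i = 2 ∨ (![2, 3, 5] : Fin 3 → ℕ) i = 3 ∨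
      (![2, 3, 5] : Fin 3 → ℕ) i = 5 := by
    fin_cases i <;> simp
  have hp : ((![2, 3, 5] : Fin 3 → ℕ) i).Prime := by
    rcases hi with h1 | h1 | h1 <;> rw [h1] <;> norm_num
  obtain ⟨F, _, _, _, hζ⟩ := exists_root_ext82 L _ hp
  refine ⟨hp, F, inferInstance, inferInstance, inferInstance, hζ, ?_⟩
  exact h.ext82 L F _ hi

/-- the pair form of Theorem M for fields of the general type; the residue hypothesis is void when
`b` holds. -/
def PairQb (b : Prop) : Prop :=
  ∀ {T K : Type} [CommRing T] [IsDomain T] [Field K] [Algebra T K] [IsFractionRing T K]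
    [CompatibleRing T], NIPRing T → QType K → ∀ (P Q : Ideal T) [P.IsPrime] [Q.IsPrime],
    (b ∨ Infinite (T ⧸ P)) → (b ∨ Infinite (T ⧸ Q)) →
    {N : Ideal (integralClosure T K) | Over P N}.Finite →
    {N : Ideal (integralClosure T K) | Over Q N}.Finite → P ≤ Q ∨ Q ≤ P

/-- the local form of Theorem M; the residue hypothesis is void when `b` holds. -/
def LocMb (b : Prop) : Prop :=
  ∀ {R K : Type} [CommRing R] [IsDomain R] [Field K] [Algebra R K] [IsFractionRing R K]
    [CompatibleRing R] (_ : NIPRing R)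
    (q : ℕ) (_ : q.Prime) (_ : IsUnit (q : R)) (ζ : R) (_ : ∑ j ∈ range q, ζ ^ j = 0)
    (_ : ∃ T : Finset K, ∀ u : R, (∀ m : Ideal R, m.IsMaximal → u - 1 ∈ m) →
      ∃ g ∈ T, ∃ y : K, algebraMap R K u = g * y ^ q)
    (_ : Finite (MaximalSpectrum (integralClosure R K)))
    (_ : b ∨ ∀ m : Ideal R, m.IsMaximal → Infinite (R ⧸ m)), IsLocalRing R

/-- a prime ideal contains at most one prime number. -/
theorem prime_unique82 {R : Type} [CommRing R] (P : Ideal R) (hP : P.IsPrime) (p q : ℕ)
    (hp : p.Prime) (hq : q.Prime) (hpP : (p : R) ∈ P) (hqP : (q : R) ∈ P) : p = q := by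
  by_contra hne
  have hc : IsCoprime (p : ℤ) (q : ℤ) := Nat.isCoprime_iff_coprime.2 ((Nat.coprime_primes hp hq).2 hne)
  obtain ⟨a, b, hab⟩ := hc
  apply hP.ne_top
  rw [Ideal.eq_top_iff_one]
  have h1 : ((a * p + b * q : ℤ) : R) = 1 := by rw [hab]; simp
  rw [← h1]
  push_cast
  exact P.add_mem (P.mul_mem_left _ hpP) (P.mul_mem_left _ hqP)

/-- of three different primes one is outside two given prime ideals. -/
theorem exists_good_prime82 {R : Type} [CommRing R] (P Q : Ideal R) (hP : P.IsPrime)
    (hQ : Q.IsPrime) (q : Fin 3 → ℕ) (hinj : Function.Injective q) (hq : ∀ i, (q i).Prime) :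
    ∃ i, (q i : R) ∉ P ∧ (q i : R) ∉ Q := by
  by_contra hcon
  push Not at hcon
  have key : ∀ I : Ideal R, I.IsPrime → ∀ i j, (q i : R) ∈ I → (q j : R) ∈ I → i = j :=
    fun I hI i j hi hj => hinj (prime_unique82 I hI _ _ (hq i) (hq j) hi hj)
  have kP := key P hP
  have kQ := key Q hQ
  by_cases h0 : (q 0 : R) ∈ P
  · have h1 : (q 1 : R) ∉ P := fun h => absurd (kP _ _ h0 h) (by decide)
    have h2 : (q 2 : R) ∉ P := fun h => absurd (kP _ _ h0 h) (by decide)
    exact absurd (kQ _ _ (hcon 1 h1) (hcon 2 h2)) (by decide)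
  · by_cases h1 : (q 1 : R) ∈ P
    · have h2 : (q 2 : R) ∉ P := fun h => absurd (kP _ _ h1 h) (by decide)
      exact absurd (kQ _ _ (hcon 0 h0) (hcon 2 h2)) (by decide)
    · exact absurd (kQ _ _ (hcon 0 h0) (hcon 1 h1)) (by decide)

end Pool.Agent.AIC
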