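import Mathlib
import Pool.Agent.AIC.DefsQ82
import Pool.Agent.AIC.FinExt82
import Pool.Agent.AIC.EndLemmas82
import Pool.Agent.AIC.EndF32

/-!
# Theorem M, global form, from the pair form

`R` an NIP domain with infinite residue fields at the maximal ideals, fraction field of power type,
finitely many primes of the integral closure of `R` over every maximal ideal (for example `R`
integrally closed): `R` is a henselian local ring.
-/

set_option autoImplicit false
set_option linter.style.haveILetI false

namespace Pool.Agent.AIC

open Polynomial IsLocalRing FirstOrder FirstOrder.Ring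

open scoped TensorProduct

/-- the fraction field of a finite extension domain is a finite extension of the fraction
field. -/
theorem finiteDim_fraction82 {A B : Type} [CommRing A] [IsDomain A] [CommRing B] [IsDomain B]
    [Algebra A B] [Module.Finite A B] (hAB : Function.Injective (algebraMap A B)) :
    ∃ _ : Algebra (FractionRing A) (FractionRing B),
      IsScalarTower A (FractionRing A) (FractionRing B) ∧
      FiniteDimensional (FractionRing A) (FractionRing B) := by
  have hinj : Function.Injective (algebraMap A (FractionRing B)) := by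
    rw [IsScalarTower.algebraMap_eq A B (FractionRing B)]
    exact (IsFractionRing.injective B (FractionRing B)).comp hAB
  let g : FractionRing A →+* FractionRing B := IsFractionRing.lift hinj
  letI ag : Algebra (FractionRing A) (FractionRing B) := g.toAlgebra
  haveI t1 : IsScalarTower A (FractionRing A) (FractionRing B) :=
    IsScalarTower.of_algebraMap_eq fun x => (IsFractionRing.lift_algebraMap hinj x).symm
  refine ⟨ag, t1, ?_⟩
  let φ : TensorProduct A (FractionRing A) B →ₐ[FractionRing A] FractionRing B :=
    Algebra.TensorProduct.lift (Algebra.ofId (FractionRing A) (FractionRing B))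
      (IsScalarTower.toAlgHom A B (FractionRing B)) (fun _ _ => Commute.all _ _)
  refine Module.Finite.of_surjective φ.toLinearMap fun x => ?_
  obtain ⟨b, b', hb', hx⟩ := IsFractionRing.div_surjective (A := B) x
  obtain ⟨a, ha, c, hc⟩ := (Algebra.IsIntegral.isIntegral (R := A) b').isAlgebraic.exists_nonzero_dvd
    hb'
  refine ⟨(algebraMap A (FractionRing A) a)⁻¹ ⊗ₜ[A] (b * c), ?_⟩
  have h1 : φ ((algebraMap A (FractionRing A) a)⁻¹ ⊗ₜ[A] (b * c)) =
      (algebraMap A (FractionRing B) a)⁻¹ * algebraMap B (FractionRing B) (b * c) := by
    rw [Algebra.TensorProduct.lift_tmul, IsScalarTower.coe_toAlgHom', Algebra.ofId_apply,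
      map_inv₀, ← IsScalarTower.algebraMap_apply]
  have h2 : algebraMap A (FractionRing B) a =
      algebraMap B (FractionRing B) b' * algebraMap B (FractionRing B) c := by
    rw [IsScalarTower.algebraMap_apply A B (FractionRing B), hc, map_mul]
  have h3 : algebraMap A (FractionRing B) a ≠ 0 := by
    intro h0
    exact ha (hinj (h0.trans (map_zero _).symm))
  have h4 : algebraMap B (FractionRing B) b' ≠ 0 := by
    intro h0
    apply h3
    rw [h2, h0, zero_mul]
  have h5 : algebraMap B (FractionRing B) c ≠ 0 := by
    intro h0
    apply h3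
    rw [h2, h0, mul_zero]
  rw [AlgHom.toLinearMap_apply, h1, h2, ← hx, map_mul]
  field_simp

/-- finite branching in a finite extension. -/
theorem over_finite_tower82 {R T F : Type} [CommRing R] [CommRing T] [Field F] [Algebra R T]
    [Algebra T F] [Algebra R F] [IsScalarTower R T F] [Algebra.IsIntegral R T] (P : Ideal R)
    (P' : Ideal T) (hP' : ∀ r : R, algebraMap R T r ∈ P' ↔ r ∈ P)
    (h : {N : Ideal (integralClosure R F) | Over P N}.Finite) :
    {N : Ideal (integralClosure T F) | Over P' N}.Finite := by
  refine Set.Finite.of_finite_image (f := fun N => N.comap (closureMap R T F)) (h.subset ?_) ?_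
  · rintro _ ⟨N, hN, rfl⟩
    exact over_comap P P' hP' N hN
  · intro N _ N' _ hc
    exact comap_injective (R := R) N N' hc

/-- the step for one prime. -/
theorem mHens82 {b : Prop} (hM : PairQb b) {R : Type} [CommRing R] [IsDomain R] [CompatibleRing R]
    (hN : NIPRing R) (hPT : QType (FractionRing R)) (P : Ideal R) [hP : P.IsPrime]
    (hinf : b ∨ Infinite (R ⧸ P))
    (hfin : {N : Ideal (integralClosure R (FractionRing R)) | Over P N}.Finite) :
    HenselianLocalRing (Localization.AtPrime P) := by
  have hinjW : Function.Injective (algebraMap R (AlgebraicClosure (FractionRing R))) := by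
    rw [IsScalarTower.algebraMap_eq R (FractionRing R) (AlgebraicClosure (FractionRing R))]
    exact (algebraMap (FractionRing R) _).injective.comp (IsFractionRing.injective R _)
  haveI : FaithfulSMul R (AlgebraicClosure (FractionRing R)) :=
    (faithfulSMul_iff_algebraMap_injective _ _).mpr hinjW
  refine hens_of_pairs82 (W := AlgebraicClosure (FractionRing R)) P ?_
  intro T hTfin M₁ M₂ hM₁ hM₂ h₁ h₂
  letI : CompatibleRing T := compatibleRingOfRing _
  have hNT : NIPRing T := nip_subalgebra_plus34 (K := FractionRing R) T hN
  have hinj : Function.Injective (algebraMap R T) := by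
    intro x y hxy
    exact hinjW (congrArg Subtype.val hxy)
  obtain ⟨alg, tow, hfd⟩ := finiteDim_fraction82 hinj
  haveI : Algebra.IsIntegral R T := Algebra.IsIntegral.of_finite R T
  have hfinL : {N : Ideal (integralClosure R (FractionRing T)) | Over P N}.Finite :=
    finite_over_ext82 (K := FractionRing R) P hfin
  have hc₁ := comap_eq_of_over82 P M₁ h₁
  have hc₂ := comap_eq_of_over82 P M₂ h₂
  have hi : ∀ J : Ideal T, J.comap (algebraMap R T) = P → b ∨ Infinite (T ⧸ J) := by
    intro J hJ
    refine hinf.imp id fun hinf => ?_
    haveI : Infinite (R ⧸ J.comap (algebraMap R T)) := by rw [hJ]; exact hinf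
    exact Infinite.of_injective _ (Ideal.algebraMap_quotient_injective (R := R) (I := J))
  exact hM (K := FractionRing T) hNT (hPT.ext82 (FractionRing T)) M₁ M₂ (hi M₁ hc₁) (hi M₂ hc₂)
    (over_finite_tower82 P M₁ h₁ hfinL) (over_finite_tower82 P M₂ h₂ hfinL)

/-- **Theorem M, global form**. -/
theorem mPlus82 {b : Prop} (hM : PairQb b) {R : Type} [CommRing R] [IsDomain R] [CompatibleRing R]
    (hN : NIPRing R) (hPT : QType (FractionRing R))
    (hinf : ∀ m : Ideal R, m.IsMaximal → b ∨ Infinite (R ⧸ m))
    (hfin : ∀ m : Ideal R, m.IsMaximal →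
      {N : Ideal (integralClosure R (FractionRing R)) | Over m N}.Finite) :
    HenselianLocalRing R := by
  obtain ⟨M, hMm⟩ := Ideal.exists_maximal R
  haveI := hMm.isPrime
  have hloc : IsLocalRing R := by
    refine IsLocalRing.of_unique_max_ideal ⟨M, hMm, fun M' hM' => ?_⟩
    haveI := hM'.isPrime
    rcases hM (K := FractionRing R) hN hPT M M' (hinf M hMm) (hinf M' hM') (hfin M hMm)
      (hfin M' hM') with h | h
    · exact (hMm.eq_of_le hM'.ne_top h).symm
    · exact hM'.eq_of_le hMm.ne_top h
  exact henselian_of_localization hloc M (mHens82 hM hN hPT M (hinf M hMm) (hfin M hMm))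

/-- an integrally closed domain has one prime of the closure over every prime. -/
theorem over_finite_normal82 {R K : Type} [CommRing R] [IsDomain R] [Field K] [Algebra R K]
    [IsFractionRing R K] [IsIntegrallyClosed R] (Q : Ideal R) :
    {N : Ideal (integralClosure R K) | Over Q N}.Finite := by
  refine Set.Subsingleton.finite ?_
  intro N hN N' hN'
  have hsurj : Function.Surjective (algebraMap R (integralClosure R K)) := by
    intro x
    obtain ⟨y, hy⟩ := (IsIntegrallyClosed.isIntegral_iff (R := R) (K := K)).1 x.2
    exact ⟨y, Subtype.ext hy⟩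
  ext x
  obtain ⟨y, rfl⟩ := hsurj x
  exact (hN.2 y).trans (hN'.2 y).symm

/-- **Theorem M for integrally closed domains**. -/
theorem mNormal82 {b : Prop} (hM : PairQb b) {R : Type} [CommRing R] [IsDomain R] [CompatibleRing R]
    [IsIntegrallyClosed R] (hN : NIPRing R) (hPT : QType (FractionRing R))
    (hinf : ∀ m : Ideal R, m.IsMaximal → b ∨ Infinite (R ⧸ m)) : HenselianLocalRing R :=
  mPlus82 hM hN hPT hinf fun m _ => over_finite_normal82 m

end Pool.Agent.AIC
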