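import Mathlib
import Pool.Agent.AIC.HType94

/-!
# Stage 9: definitions for Theorem F

`HtLE h P` : the height of the prime `P` is at most `h`;
`HBelow P` : all residue fields of primes strictly below `P` are of henselian type.
-/

set_option autoImplicit false

namespace Pool.Agent.AIC

/-- the prime `P` has height at most `h`. -/
def HtLE {R : Type} [CommRing R] : ℕ → Ideal R → Prop
  | 0, P => ∀ q : Ideal R, q.IsPrime → ¬ q < P
  | h + 1, P => ∀ q : Ideal R, q.IsPrime → q < P → HtLE h q

/-- the field `k` is generated, as a field, by the image of `f`. -/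
def GenField {R k : Type} [CommRing R] [Field k] (f : R →+* k) : Prop :=
  ∀ x : k, ∃ a b : R, f b ≠ 0 ∧ x * f b = f a

/-- all residue fields of primes strictly below `P` are of henselian type. -/
def HBelow {R : Type} [CommRing R] (P : Ideal R) : Prop :=
  ∀ (k : Type) [Field k] (f : R →+* k), GenField f → RingHom.ker f < P → HType k

theorem comap_lt_surj82 {R S : Type} [CommRing R] [CommRing S] (f : R →+* S)
    (hf : Function.Surjective f) {I J : Ideal S} (h : I < J) : I.comap f < J.comap f :=
  lt_of_le_of_ne (Ideal.comap_mono h.le)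
    fun h' => h.ne (Ideal.comap_injective_of_surjective f hf h')

theorem HtLE.succ {R : Type} [CommRing R] {h : ℕ} {P : Ideal R} (hP : HtLE h P) :
    HtLE (h + 1) P := by
  induction h generalizing P with
  | zero => exact fun q hq hlt => absurd hlt (hP q hq)
  | succ h ih => exact fun q hq hlt => ih (hP q hq hlt)

theorem HtLE.of_lt {R : Type} [CommRing R] {h : ℕ} {P : Ideal R} (hP : HtLE (h + 1) P)
    {q : Ideal R} (hq : q.IsPrime) (hlt : q < P) : HtLE h q := hP q hq hlt

/-- heights drop in the quotient by a nonzero prime. -/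
theorem HtLE.quot {R : Type} [CommRing R] [IsDomain R] (𝔮 : Ideal R)
    (h𝔮0 : 𝔮 ≠ ⊥) {h : ℕ} (P' : Ideal (R ⧸ 𝔮))
    (hP : HtLE (h + 1) (P'.comap (Ideal.Quotient.mk 𝔮))) : HtLE h P' := by
  have hsurj : Function.Surjective (Ideal.Quotient.mk 𝔮) := Ideal.Quotient.mk_surjective
  have hlt' : ∀ I J : Ideal (R ⧸ 𝔮), I < J →
      I.comap (Ideal.Quotient.mk 𝔮) < J.comap (Ideal.Quotient.mk 𝔮) := by
    intro I J hIJ
    exact comap_lt_surj82 _ hsurj hIJ
  induction h generalizing P' with
  | zero =>
    intro r' hr' hlt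
    have hp : (r'.comap (Ideal.Quotient.mk 𝔮)).IsPrime := Ideal.comap_isPrime _ r'
    refine hP _ hp (hlt' _ _ hlt) ⊥ Ideal.isPrime_bot ?_
    refine lt_of_lt_of_le (bot_lt_iff_ne_bot.2 h𝔮0) ?_
    intro x hx
    rw [Ideal.mem_comap, Ideal.Quotient.eq_zero_iff_mem.2 hx]
    exact r'.zero_mem
  | succ h ih =>
    intro r' hr' hlt
    have hp : (r'.comap (Ideal.Quotient.mk 𝔮)).IsPrime := Ideal.comap_isPrime _ r'
    exact ih r' (hP _ hp (hlt' _ _ hlt))

/-- heights do not increase in integral extensions. -/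
theorem HtLE.of_integral {R T : Type} [CommRing R] [CommRing T] [Algebra R T]
    [Algebra.IsIntegral R T] {h : ℕ} (P' : Ideal T) [hP' : P'.IsPrime]
    (hP : HtLE h (P'.comap (algebraMap R T))) : HtLE h P' := by
  induction h generalizing P' with
  | zero =>
    intro r hr hlt
    exact hP _ (Ideal.comap_isPrime _ r) (Ideal.IsIntegral.comap_lt_comap hlt)
  | succ h ih =>
    intro r hr hlt
    exact ih r (hP _ (Ideal.comap_isPrime _ r) (Ideal.IsIntegral.comap_lt_comap hlt))

/-- the residue field condition in quotients. -/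
theorem HBelow.quot {R : Type} [CommRing R] (𝔮 : Ideal R) (P' : Ideal (R ⧸ 𝔮))
    (hP : HBelow (P'.comap (Ideal.Quotient.mk 𝔮))) : HBelow P' := by
  intro k _ f hf hlt
  refine hP k (f.comp (Ideal.Quotient.mk 𝔮)) (fun x => ?_) ?_
  · obtain ⟨a, b, hb, hx⟩ := hf x
    obtain ⟨a, rfl⟩ := Ideal.Quotient.mk_surjective a
    obtain ⟨b, rfl⟩ := Ideal.Quotient.mk_surjective b
    exact ⟨a, b, hb, hx⟩
  · exact comap_lt_surj82 _ Ideal.Quotient.mk_surjective hlt

theorem HBelow.mono {R : Type} [CommRing R] {P Q : Ideal R} (hP : HBelow P) (h : Q ≤ P) :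
    HBelow Q := fun k _ f hf hlt => hP k f hf (hlt.trans_le h)

/-- the fraction field of the ring is of henselian type if there is a nonzero prime. -/
theorem HBelow.fractionRing {R K : Type} [CommRing R] [IsDomain R] [Field K] [Algebra R K]
    [IsFractionRing R K] {P : Ideal R} (hP : HBelow P) (hP0 : P ≠ ⊥) : HType K := by
  refine hP K (algebraMap R K) (fun x => ?_) ?_
  · obtain ⟨a, b, hb, rfl⟩ := IsFractionRing.div_surjective (A := R) x
    have hb0 : algebraMap R K b ≠ 0 := by
      intro h
      have h1 : b = 0 := IsFractionRing.injective R K (by rw [h, map_zero])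
      exact nonZeroDivisors.ne_zero hb h1
    exact ⟨a, b, hb0, div_mul_cancel₀ _ hb0⟩
  · rw [(RingHom.injective_iff_ker_eq_bot _).1 (IsFractionRing.injective R K)]
    exact bot_lt_iff_ne_bot.2 hP0

end Pool.Agent.AIC
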