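import Mathlib
import Pool.Agent.AIC.FB82

/-!
# Finitely many branches over a prime

`card_lt2` : the counting step of `FB82.lean` without the dimension hypothesis;
`finite_branches2` : if no two primes over `P` of a finite extension contain a common nonzero prime
then only finitely many primes of the integral closure lie over `P`.
-/

set_option autoImplicit false

namespace Pool.Agent.AIC

open Finset

/-- the counting step, for nonzero primes of a finite extension no two of which contain a common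
nonzero prime. -/
theorem card_lt2 {A K : Type} [CommRing A] [IsDomain A] [Field K] [Algebra A K]
    [IsFractionRing A K] {n : ℕ} (hn : 2 ≤ n) (hBS : BSn n A)
    (T : Subalgebra A K) [hfin : Module.Finite A T] (M : Fin n → Ideal T)
    (hM : ∀ i, (M i).IsPrime) (hMne : ∀ i, M i ≠ ⊥)
    (hno : ∀ i j, i ≠ j → ∀ p : Ideal T, p.IsPrime → p ≤ M i → p ≤ M j → p = ⊥) : False := by
  classical
  have hAK : Function.Injective (algebraMap A K) := IsFractionRing.injective A K
  -- a nonzero `α` with `α T ⊆ A`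
  obtain ⟨α, hα0, hα⟩ : ∃ α : A, α ≠ 0 ∧ ∀ t : T, ∃ a : A,
      algebraMap A K a = algebraMap A K α * (t : K) := by
    have hfg : (Subalgebra.toSubmodule T).FG := Module.Finite.iff_fg.1 hfin
    obtain ⟨α, hα, h⟩ := FractionalIdeal.isFractional_of_fg (S := nonZeroDivisors A) hfg
    refine ⟨α, nonZeroDivisors.ne_zero hα, fun t => ?_⟩
    obtain ⟨a, ha⟩ := h t t.2
    exact ⟨a, by rw [ha, Algebra.smul_def]⟩
  set a : T := algebraMap A T α with ha
  have haK : (a : K) = algebraMap A K α := rfl
  have ha0 : a ≠ 0 := by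
    intro h
    have h1 : (a : K) = 0 := by rw [h]; rfl
    rw [haK] at h1
    exact hα0 (hAK (by rw [h1, map_zero]))
  -- elements `w v ∈ α M_j`
  have hkey : ∀ i j, i ≠ j → ∃ w v : T, w ∉ M j ∧ v ∉ M i ∧ w * v ∈ Ideal.span {a} * M j := by
    intro i j hij
    by_contra hcon
    push Not at hcon
    have hpi : (M i).IsPrime := hM i
    have hpj : (M j).IsPrime := hM j
    have hdis : Disjoint ((Ideal.span {a} * M j : Ideal T) : Set T)
        (((M j).primeCompl ⊔ (M i).primeCompl : Submonoid T) : Set T) := by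
      rw [Set.disjoint_left]
      intro x hx hx2
      obtain ⟨w, hw, v, hv, rfl⟩ := Submonoid.mem_sup.1 hx2
      exact hcon w v hw hv hx
    obtain ⟨p, hp, hle, hpd⟩ := Ideal.exists_le_prime_disjoint _ _ hdis
    have hpMj : p ≤ M j := by
      intro x hx
      by_contra hxM
      exact Set.disjoint_left.1 hpd hx
        (SetLike.le_def.1 (le_sup_left : (M j).primeCompl ≤ _) hxM)
    have hpMi : p ≤ M i := by
      intro x hx
      by_contra hxM
      exact Set.disjoint_left.1 hpd hx
        (SetLike.le_def.1 (le_sup_right : (M i).primeCompl ≤ _) hxM)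
    have hp0 : p ≠ ⊥ := by
      intro h0
      obtain ⟨x, hx, hx0⟩ := Submodule.exists_mem_ne_zero_of_ne_bot (hMne j)
      have h1 : a * x ∈ p := hle (Ideal.mul_mem_mul (Ideal.mem_span_singleton_self a) hx)
      rw [h0] at h1
      exact mul_ne_zero ha0 hx0 ((Submodule.mem_bot _).1 h1)
    exact hp0 (hno i j hij p hp hpMi hpMj)
  -- the elements `x_j`
  have hx : ∀ j, ∃ x w : T, w ∉ M j ∧ w * x ∈ Ideal.span {a} * M j ∧ ∀ i, i ≠ j → x ∉ M i := by
    intro j
    have hpj : (M j).IsPrime := hM j
    have hw' : ∀ i, ∃ w v : T, w ∉ M j ∧ (i ≠ j → v ∉ M i ∧ w * v ∈ Ideal.span {a} * M j) := by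
      intro i
      by_cases hij : i = j
      · exact ⟨1, 1, fun h => hpj.ne_top ((Ideal.eq_top_iff_one _).2 h), fun h => absurd hij h⟩
      · obtain ⟨w, v, h1, h2, h3⟩ := hkey i j hij
        exact ⟨w, v, h1, fun _ => ⟨h2, h3⟩⟩
    choose w v hw hv using hw'
    set I : Ideal T := Submodule.comap (LinearMap.mulLeft T (∏ i, w i)) (Ideal.span {a} * M j)
      with hI
    have hmemI : ∀ x, x ∈ I ↔ (∏ i, w i) * x ∈ Ideal.span {a} * M j := fun x => Iff.rfl
    have hprod : (∏ i, w i) ∉ M j := by
      intro hcon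
      obtain ⟨i, _, hi⟩ := (Ideal.IsPrime.prod_mem_iff).1 hcon
      exact hw i hi
    have hnot : ¬ ((I : Set T) ⊆ ⋃ i ∈ ((univ.erase j : Finset (Fin n)) : Set (Fin n)), M i) := by
      rw [Ideal.subset_union_prime j j (fun i _ _ _ => hM i)]
      rintro ⟨i, hi, hle⟩
      have hij : i ≠ j := ne_of_mem_erase hi
      apply (hv i hij).1
      apply hle
      rw [hmemI, ← mul_prod_erase _ _ (mem_univ i)]
      have h1 : w i * (∏ l ∈ univ.erase i, w l) * v i = (∏ l ∈ univ.erase i, w l) * (w i * v i) := by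
        ring
      rw [h1]
      exact Ideal.mul_mem_left _ _ (hv i hij).2
    obtain ⟨x, hxI, hxn⟩ := Set.not_subset.1 hnot
    refine ⟨x, ∏ i, w i, hprod, (hmemI x).1 hxI, fun i hij hxi => hxn ?_⟩
    rw [Set.mem_iUnion₂]
    exact ⟨i, mem_coe.2 (mem_erase.2 ⟨hij, mem_univ i⟩), hxi⟩
  choose x w hwM hwx hxM using hx
  have hx0 : ∀ j, (x j : K) ≠ 0 := by
    intro j h
    obtain ⟨i, hij⟩ : ∃ i : Fin n, i ≠ j := by
      have : Nontrivial (Fin n) := Fin.nontrivial_iff_two_le.2 hn
      exact exists_ne j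
    apply hxM j i hij
    have h1 : x j = 0 := Subtype.ext h
    rw [h1]
    exact (M i).zero_mem
  -- the family
  choose u hu using fun j => hα (x j)
  choose z hz using fun j => hα (a * ∏ i ∈ univ.erase j, x i)
  refine hBS ⟨u, z, fun i j hij => ?_, fun j hdiv => ?_⟩
  · obtain ⟨c, hc⟩ := hα (∏ l ∈ (univ.erase j).erase i, x l)
    refine ⟨c, hAK ?_⟩
    rw [map_mul, hu, hz, hc, ← mul_prod_erase (univ.erase j) _ (mem_erase.2 ⟨hij, mem_univ i⟩)]
    push_cast
    rw [haK]
    ring
  · obtain ⟨c, hc⟩ := hdiv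
    have h1 := congrArg (algebraMap A K) hc
    rw [map_mul, hu, hz] at h1
    have h2 : a * ∏ i ∈ univ.erase j, x i = x j * algebraMap A T c := by
      apply Subtype.ext
      have hαK : algebraMap A K α ≠ 0 := fun h => hα0 (hAK (by rw [h, map_zero]))
      apply mul_left_cancel₀ hαK
      push_cast
      push_cast at h1
      rw [h1]; ring
    obtain ⟨m, hm, hme⟩ := Ideal.mem_span_singleton_mul.1 (hwx j)
    have h3 : w j * ∏ i ∈ univ.erase j, x i = m * algebraMap A T c := by
      apply mul_left_cancel₀ ha0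
      calc a * (w j * ∏ i ∈ univ.erase j, x i) = w j * (a * ∏ i ∈ univ.erase j, x i) := by ring
        _ = (w j * x j) * algebraMap A T c := by rw [h2]; ring
        _ = _ := by rw [← hme]; ring
    have h4 : w j * ∏ i ∈ univ.erase j, x i ∈ M j := by
      rw [h3]; exact Ideal.mul_mem_right _ _ hm
    have hpj : (M j).IsPrime := hM j
    rcases hpj.mem_or_mem h4 with h5 | h5
    · exact hwM j h5
    · obtain ⟨i, hi, hi2⟩ := (Ideal.IsPrime.prod_mem_iff).1 h5
      exact hxM i j (Ne.symm (ne_of_mem_erase hi)) hi2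

/-- **finitely many primes of the integral closure over `P`**. -/
theorem finite_branches2 {A K : Type} [CommRing A] [IsDomain A] [Field K] [Algebra A K]
    [IsFractionRing A K] (hBS : ∃ n, BSn n A) (P : Ideal A)
    (hno : ∀ T : Subalgebra A K, Module.Finite A T → ∀ M₁ M₂ : Ideal T, M₁.IsPrime → M₂.IsPrime →
      M₁ ≠ M₂ → (∀ a, algebraMap A T a ∈ M₁ ↔ a ∈ P) → (∀ a, algebraMap A T a ∈ M₂ ↔ a ∈ P) →
      ∀ p : Ideal T, p.IsPrime → p ≤ M₁ → p ≤ M₂ → p = ⊥) :
    {N : Ideal (integralClosure A K) | N.IsPrime ∧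
      ∀ a, algebraMap A (integralClosure A K) a ∈ N ↔ a ∈ P}.Finite := by
  classical
  by_cases hP0 : P = ⊥
  · refine (Set.finite_singleton (⊥ : Ideal (integralClosure A K))).subset ?_
    rintro N ⟨hN, hNP⟩
    have h1 : N.comap (algebraMap A (integralClosure A K)) = ⊥ := by
      ext a
      rw [Ideal.mem_comap, hNP, hP0]
    have h2 : (algebraMap A (integralClosure A K)).IsIntegral :=
      algebraMap_isIntegral_iff.2 inferInstance
    exact Ideal.eq_bot_of_comap_eq_bot h1
  by_contra hinf
  obtain ⟨n₀, hn₀⟩ := hBS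
  have hBSn : BSn (n₀ + 2) A := hn₀.mono (by omega)
  have hinf' : Set.Infinite {N : Ideal (integralClosure A K) | N.IsPrime ∧
      ∀ a, algebraMap A (integralClosure A K) a ∈ N ↔ a ∈ P} := hinf
  let f := hinf'.natEmbedding
  set N : Fin (n₀ + 2) → Ideal (integralClosure A K) := fun i => (f (i : ℕ)).1 with hN
  have hNp : ∀ i, (N i).IsPrime := fun i => (f (i : ℕ)).2.1
  have hNP : ∀ i a, algebraMap A (integralClosure A K) a ∈ N i ↔ a ∈ P :=
    fun i => (f (i : ℕ)).2.2
  have hNinj : Function.Injective N := by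
    intro i j hij
    have : f (i : ℕ) = f (j : ℕ) := Subtype.ext hij
    exact Fin.ext (f.injective this)
  have hsep : ∀ i j, ∃ e : integralClosure A K, i ≠ j → e ∈ N i ∧ e ∉ N j := by
    intro i j
    by_cases hij : i = j
    · exact ⟨0, fun h => absurd hij h⟩
    · have h1 : ¬ N i ≤ N j := by
        intro h
        have hlt : N i < N j := lt_of_le_of_ne h fun h' => hij (hNinj h')
        have hprime := hNp i
        have h2 := Ideal.IsIntegral.comap_lt_comap (R := A) hlt
        exact h2.ne (by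
          ext a
          rw [Ideal.mem_comap, Ideal.mem_comap, hNP, hNP])
      obtain ⟨e, he, he'⟩ := SetLike.not_le_iff_exists.1 h1
      exact ⟨e, fun _ => ⟨he, he'⟩⟩
  choose e he using hsep
  set s : Set K := Set.range fun ij : Fin (n₀ + 2) × Fin (n₀ + 2) => (e ij.1 ij.2 : K) with hs
  set T : Subalgebra A K := Algebra.adjoin A s with hT
  have hsint : ∀ x ∈ s, IsIntegral A x := by
    rintro _ ⟨ij, rfl⟩
    exact (e ij.1 ij.2).2
  have hle : T ≤ integralClosure A K := Algebra.adjoin_le hsint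
  have hfin : Module.Finite A T := Module.Finite.iff_fg.2
    (fg_adjoin_of_finite (Set.finite_range _) hsint)
  set g : T →+* integralClosure A K := (Subalgebra.inclusion hle).toRingHom with hg
  have hga : ∀ a, g (algebraMap A T a) = algebraMap A (integralClosure A K) a := fun a => rfl
  have hne : ∀ i j, i ≠ j → (N i).comap g ≠ (N j).comap g := by
    intro i j hij hcon
    have hmem : (e i j : K) ∈ T := Algebra.subset_adjoin ⟨(i, j), rfl⟩
    have h1 : (⟨(e i j : K), hmem⟩ : T) ∈ (N i).comap g := (he i j hij).1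
    rw [hcon] at h1
    exact (he i j hij).2 h1
  have hover : ∀ i a, algebraMap A T a ∈ (N i).comap g ↔ a ∈ P := by
    intro i a
    rw [Ideal.mem_comap, hga, hNP]
  obtain ⟨b, hb, hb0⟩ := Submodule.exists_mem_ne_zero_of_ne_bot hP0
  refine card_lt2 (by omega) hBSn T (fun i => (N i).comap g) (fun i => ?_) (fun i h0 => ?_)
    fun i j hij p hp h1 h2 => ?_
  · have := hNp i
    exact Ideal.comap_isPrime g (N i)
  · have h1 : algebraMap A T b ∈ (N i).comap g := (hover i b).2 hb
    have h2 : (N i).comap g = ⊥ := h0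
    rw [h2, Submodule.mem_bot] at h1
    have h3 : algebraMap A K b = 0 := congrArg (Subtype.val : T → K) h1
    exact hb0 ((IsFractionRing.injective A K) (by rw [h3, map_zero]))
  · have hpi := hNp i
    have hpj := hNp j
    exact hno T hfin _ _ (Ideal.comap_isPrime g (N i)) (Ideal.comap_isPrime g (N j))
      (hne i j hij) (hover i) (hover j) p hp h1 h2

end Pool.Agent.AIC
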