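import Pool.Agent.AIC.HtRow94
import Pool.Agent.AIC.DefsF82

/-! MP_313bb4, stage 9: heights and residue fields in the form of the induction. -/

set_option autoImplicit false
set_option linter.style.haveILetI false

namespace Pool.Agent.AIC

open Polynomial IsLocalRing

/-- the field `k` is the fraction field of the image. -/
theorem hType_iff_gen94 {R k : Type} [CommRing R] [Field k] (f : R →+* k) (hf : GenField f)
    (q : Ideal R) [q.IsPrime] (hq : RingHom.ker f = q) :
    HType k ↔ HType (FractionRing (R ⧸ q)) := by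
  have hle : ∀ a ∈ q, f a = 0 := fun a ha => by
    rw [← RingHom.mem_ker, hq]
    exact ha
  let g : R ⧸ q →+* k := Ideal.Quotient.lift q f hle
  have hg : ∀ a : R, g (Ideal.Quotient.mk q a) = f a := fun a => Ideal.Quotient.lift_mk _ _ _
  have hinj : Function.Injective g := by
    rw [injective_iff_map_eq_zero]
    intro x hx
    obtain ⟨a, rfl⟩ := Ideal.Quotient.mk_surjective x
    rw [hg, ← RingHom.mem_ker, hq] at hx
    exact Ideal.Quotient.eq_zero_iff_mem.2 hx
  letI alg : Algebra (R ⧸ q) k := g.toAlgebra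
  haveI : FaithfulSMul (R ⧸ q) k := by
    rw [faithfulSMul_iff_algebraMap_injective]
    exact hinj
  haveI : IsFractionRing (R ⧸ q) k := by
    refine IsFractionRing.of_field _ _ fun z => ?_
    obtain ⟨a, b, hb, hab⟩ := hf z
    refine ⟨Ideal.Quotient.mk q a, Ideal.Quotient.mk q b, ?_⟩
    change z = g (Ideal.Quotient.mk q a) / g (Ideal.Quotient.mk q b)
    rw [hg, hg, eq_div_iff hb, hab]
  let e : FractionRing (R ⧸ q) ≃ₐ[R ⧸ q] k := FractionRing.algEquiv (R ⧸ q) k
  exact ⟨fun h => h.of_ringEquiv94 e.symm.toRingEquiv, fun h => h.of_ringEquiv94 e.toRingEquiv⟩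

theorem gen_residue94 {R : Type} [CommRing R] (q : Ideal R) [q.IsPrime] :
    GenField ((algebraMap (R ⧸ q) (FractionRing (R ⧸ q))).comp (Ideal.Quotient.mk q)) := by
  intro x
  obtain ⟨a, b, hb, hx⟩ := IsFractionRing.div_surjective (A := R ⧸ q) x
  obtain ⟨a, rfl⟩ := Ideal.Quotient.mk_surjective a
  obtain ⟨b, rfl⟩ := Ideal.Quotient.mk_surjective b
  have hb0 : algebraMap (R ⧸ q) (FractionRing (R ⧸ q)) (Ideal.Quotient.mk q b) ≠ 0 := by
    intro h0
    have h1 := (IsFractionRing.injective (R ⧸ q) (FractionRing (R ⧸ q))) (h0.trans (map_zero _).symm)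
    exact nonZeroDivisors.ne_zero hb h1
  refine ⟨a, b, hb0, ?_⟩
  change x * algebraMap (R ⧸ q) (FractionRing (R ⧸ q)) (Ideal.Quotient.mk q b) =
    algebraMap (R ⧸ q) (FractionRing (R ⧸ q)) (Ideal.Quotient.mk q a)
  rw [← hx, div_mul_cancel₀ _ hb0]

theorem ker_residue94 {R : Type} [CommRing R] (q : Ideal R) [q.IsPrime] :
    RingHom.ker ((algebraMap (R ⧸ q) (FractionRing (R ⧸ q))).comp (Ideal.Quotient.mk q)) = q := by
  ext a
  rw [RingHom.mem_ker, RingHom.comp_apply]
  constructor
  · intro h
    have h1 := (IsFractionRing.injective (R ⧸ q) (FractionRing (R ⧸ q))) (h.trans (map_zero _).symm)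
    exact Ideal.Quotient.eq_zero_iff_mem.1 h1
  · intro h
    rw [Ideal.Quotient.eq_zero_iff_mem.2 h, map_zero]

/-- **(b)**: the condition in terms of the fraction fields of the quotients. -/
theorem hBelow_iff94 {R : Type} [CommRing R] (P : Ideal R) :
    HBelow P ↔ ∀ (q : Ideal R) [q.IsPrime], q < P → HType (FractionRing (R ⧸ q)) := by
  constructor
  · intro h q hq hlt
    exact h _ _ (gen_residue94 q) (by rw [ker_residue94]; exact hlt)
  · intro h k fk f hf hlt
    haveI : (RingHom.ker f).IsPrime := RingHom.ker_isPrime f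
    exact (hType_iff_gen94 f hf (RingHom.ker f) rfl).2 (h _ hlt)

theorem HBelow.of_residue94 {R : Type} [CommRing R] (P : Ideal R)
    (h : ∀ (q : Ideal R) [q.IsPrime], q < P → HType (FractionRing (R ⧸ q))) : HBelow P :=
  (hBelow_iff94 P).2 h

/-- **(a)**: the condition goes up in finite extensions. -/
theorem HBelow.ext94 {R T : Type} [CommRing R] [CommRing T] [Algebra R T] [Module.Finite R T]
    (P' : Ideal T) [P'.IsPrime] (h : HBelow (P'.comap (algebraMap R T))) : HBelow P' := by
  rw [hBelow_iff94] at h ⊢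
  exact HType.below94 P' h

/-- the condition goes to quotients. -/
theorem HBelow.quotient94 {R : Type} [CommRing R] (q : Ideal R) (P' : Ideal (R ⧸ q)) [P'.IsPrime]
    (h : HBelow (P'.comap (Ideal.Quotient.mk q))) : HBelow P' := by
  rw [hBelow_iff94] at h ⊢
  exact HType.below_quotient94 q P' h

/-- **(c)**: the height of Mathlib. -/
theorem htLE_of_height94 {R : Type} [CommRing R] (h : ℕ) :
    ∀ (P : Ideal R), P.IsPrime → P.height ≤ (h : ℕ∞) → HtLE h P := by
  induction h with
  | zero =>
    intro P hP hh q hq hlt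
    haveI := hP
    have h2 := (Ideal.height_le_iff (n := 0)).1 hh _ hq hlt
    exact absurd h2 (by simp)
  | succ h ih =>
    intro P hP hh q hq hlt
    haveI := hP
    refine ih q hq ?_
    have h2 := (Ideal.height_le_iff (n := h + 1)).1 hh _ hq hlt
    rw [← ENat.lt_add_one_iff (ENat.natCast_ne_top h)]
    exact_mod_cast h2

/-- the converse of **(c)**. -/
theorem height_of_htLE94 {R : Type} [CommRing R] (h : ℕ) :
    ∀ (P : Ideal R), P.IsPrime → HtLE h P → P.height ≤ (h : ℕ∞) := by
  induction h with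
  | zero =>
    intro P hP hh
    haveI := hP
    rw [Ideal.height_le_iff (n := 0)]
    intro q hq hlt
    exact absurd hlt (hh q hq)
  | succ h ih =>
    intro P hP hh
    haveI := hP
    rw [Ideal.height_le_iff (n := h + 1)]
    intro q hq hlt
    calc q.height ≤ (h : ℕ∞) := ih q hq (hh q hq hlt)
      _ < ((h + 1 : ℕ) : ℕ∞) := by exact_mod_cast Nat.lt_succ_self h

end Pool.Agent.AIC
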