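import Mathlib

/-!
# Externally definable sets in NIP structures

`ED L X`: the set `X` is the trace of a definable set with parameters in an ultrapower. In an NIP
structure the externally definable sets are closed under projections (Shelah). The proof goes
through honest definitions: an externally definable set is covered from inside, on finite sets,
by one definable family.
-/

set_option autoImplicit false

namespace Pool.Agent.AIC

open Set FirstOrder FirstOrder.Language Filter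

variable (L : Language) {M : Type} [L.Structure M]

/-- every relation definable with parameters has finite dimension -/
def DNIP (M : Type) [L.Structure M] : Prop :=
  ∀ (α β : Type) [Finite α] [Finite β] (Φ : Set (α ⊕ β → M)), (univ : Set M).Definable L Φ →
    ∃ n : ℕ, ¬ ∃ (a : Fin n → α → M) (b : Finset (Fin n) → β → M),
      ∀ (i : Fin n) (J : Finset (Fin n)), Sum.elim (a i) (b J) ∈ Φ ↔ i ∈ J

/-- externally definable sets -/
def ED {α : Type} (X : Set (α → M)) : Prop :=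
  ∃ (β : Type) (_ : Finite β) (Φ : Set (α ⊕ β → M)) (_ : (univ : Set M).Definable L Φ)
    (𝒰 : Ultrafilter (β → M)), ∀ x, x ∈ X ↔ ∀ᶠ b in (𝒰 : Filter (β → M)), Sum.elim x b ∈ Φ

variable {L}

theorem ED.compl {α : Type} {X : Set (α → M)} (h : ED L X) : ED L Xᶜ := by
  obtain ⟨β, hβ, Φ, hΦ, 𝒰, hX⟩ := h
  refine ⟨β, hβ, Φᶜ, hΦ.compl, 𝒰, fun x => ?_⟩
  rw [mem_compl_iff, hX, ← Ultrafilter.eventually_not]
  rfl

theorem ED.of_definable {α : Type} {X : Set (α → M)} (h : (univ : Set M).Definable L X) :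
    ED L X := by
  refine ⟨Empty, inferInstance, {w | w ∘ Sum.inl ∈ X}, h.preimage_comp Sum.inl,
    pure (fun e => e.elim), fun x => ?_⟩
  simp

/-- an ultrafilter on `β ⊕ γ → M` with given images on `β → M` and `γ → M` -/
theorem exists_joint_ultra {β γ : Type} (𝒰 : Ultrafilter (β → M)) (𝒱 : Ultrafilter (γ → M)) :
    ∃ 𝒲 : Ultrafilter (β ⊕ γ → M),
      (∀ S : Set (β → M), (∀ᶠ w in (𝒲 : Filter (β ⊕ γ → M)), w ∘ Sum.inl ∈ S) ↔
        ∀ᶠ b in (𝒰 : Filter (β → M)), b ∈ S) ∧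
      (∀ S : Set (γ → M), (∀ᶠ w in (𝒲 : Filter (β ⊕ γ → M)), w ∘ Sum.inr ∈ S) ↔
        ∀ᶠ b in (𝒱 : Filter (γ → M)), b ∈ S) := by
  let f : (β → M) × (γ → M) → (β ⊕ γ → M) := fun p => Sum.elim p.1 p.2
  let 𝒲 : Ultrafilter (β ⊕ γ → M) :=
    Ultrafilter.of (Filter.map f ((𝒰 : Filter (β → M)) ×ˢ (𝒱 : Filter (γ → M))))
  have hle : (𝒲 : Filter (β ⊕ γ → M)) ≤
      Filter.map f ((𝒰 : Filter (β → M)) ×ˢ (𝒱 : Filter (γ → M))) := Ultrafilter.of_le _
  have h1 : ∀ S : Set (β → M), (∀ᶠ b in (𝒰 : Filter (β → M)), b ∈ S) →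
      ∀ᶠ w in (𝒲 : Filter (β ⊕ γ → M)), w ∘ Sum.inl ∈ S := by
    intro S hS
    refine Filter.Eventually.filter_mono hle ?_
    rw [Filter.eventually_map]
    exact (Filter.tendsto_fst.eventually hS)
  have h2 : ∀ S : Set (γ → M), (∀ᶠ b in (𝒱 : Filter (γ → M)), b ∈ S) →
      ∀ᶠ w in (𝒲 : Filter (β ⊕ γ → M)), w ∘ Sum.inr ∈ S := by
    intro S hS
    refine Filter.Eventually.filter_mono hle ?_
    rw [Filter.eventually_map]
    exact (Filter.tendsto_snd.eventually hS)
  refine ⟨𝒲, fun S => ⟨fun h => ?_, h1 S⟩, fun S => ⟨fun h => ?_, h2 S⟩⟩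
  · by_contra hcon
    rw [← Ultrafilter.eventually_not] at hcon
    obtain ⟨w, hw1, hw2⟩ := ((h1 Sᶜ hcon).and h).exists
    exact hw1 hw2
  · by_contra hcon
    rw [← Ultrafilter.eventually_not] at hcon
    obtain ⟨w, hw1, hw2⟩ := ((h2 Sᶜ hcon).and h).exists
    exact hw1 hw2

theorem ED.inter {α : Type} {X Y : Set (α → M)} (hX : ED L X) (hY : ED L Y) : ED L (X ∩ Y) := by
  obtain ⟨β, hβ, Φ, hΦ, 𝒰, hX⟩ := hX
  obtain ⟨γ, hγ, Ψ, hΨ, 𝒱, hY⟩ := hY
  obtain ⟨𝒲, h1, h2⟩ := exists_joint_ultra 𝒰 𝒱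
  refine ⟨β ⊕ γ, inferInstance, {w | w ∘ (Sum.map id Sum.inl : α ⊕ β → α ⊕ (β ⊕ γ)) ∈ Φ} ∩
    {w | w ∘ (Sum.map id Sum.inr : α ⊕ γ → α ⊕ (β ⊕ γ)) ∈ Ψ},
    (hΦ.preimage_comp _).inter (hΨ.preimage_comp _), 𝒲, fun x => ?_⟩
  have e1 : ∀ w : β ⊕ γ → M, Sum.elim x w ∘ (Sum.map id Sum.inl : α ⊕ β → α ⊕ (β ⊕ γ)) =
      Sum.elim x (w ∘ Sum.inl) := by
    intro w; funext s; rcases s with s | s <;> rfl
  have e2 : ∀ w : β ⊕ γ → M, Sum.elim x w ∘ (Sum.map id Sum.inr : α ⊕ γ → α ⊕ (β ⊕ γ)) =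
      Sum.elim x (w ∘ Sum.inr) := by
    intro w; funext s; rcases s with s | s <;> rfl
  show x ∈ X ∧ x ∈ Y ↔ ∀ᶠ w in (𝒲 : Filter (β ⊕ γ → M)),
    Sum.elim x w ∘ (Sum.map id Sum.inl : α ⊕ β → α ⊕ (β ⊕ γ)) ∈ Φ ∧
    Sum.elim x w ∘ (Sum.map id Sum.inr : α ⊕ γ → α ⊕ (β ⊕ γ)) ∈ Ψ
  simp only [e1, e2, Filter.eventually_and]
  exact and_congr ((hX x).trans (h1 {b | Sum.elim x b ∈ Φ}).symm)
    ((hY x).trans (h2 {b | Sum.elim x b ∈ Ψ}).symm)

theorem ED.union {α : Type} {X Y : Set (α → M)} (hX : ED L X) (hY : ED L Y) : ED L (X ∪ Y) := by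
  have h := (hX.compl.inter hY.compl).compl
  rwa [← compl_union, compl_compl] at h

theorem ED.preimage_comp {α α' : Type} (f : α → α') {X : Set (α → M)} (h : ED L X) :
    ED L ((fun g : α' → M => g ∘ f) ⁻¹' X) := by
  obtain ⟨β, hβ, Φ, hΦ, 𝒰, hX⟩ := h
  refine ⟨β, hβ, (fun g : α' ⊕ β → M => g ∘ (Sum.map f id : α ⊕ β → α' ⊕ β)) ⁻¹' Φ,
    hΦ.preimage_comp _, 𝒰, fun x => ?_⟩
  rw [mem_preimage, hX]
  refine Filter.eventually_congr (Filter.Eventually.of_forall fun b => ?_)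
  have : Sum.elim x b ∘ (Sum.map f id : α ⊕ β → α' ⊕ β) = Sum.elim (x ∘ f) b := by
    funext s; rcases s with s | s <;> rfl
  rw [mem_preimage, this]

/-- Definable parameters for the inside approximation. -/
def HGood {α : Type} (X : Set (α → M)) (β : Type) (Θ : Set (α ⊕ β → M)) : Set (β → M) :=
  {d | ∀ x, Sum.elim x d ∈ Θ → x ∈ X}

variable (L)

/-- `Z` is covered from inside `X`, on finite sets, by one definable family. -/
def HCov {α : Type} (X Z : Set (α → M)) : Prop :=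
  ∃ (β : Type) (_ : Finite β) (Θ : Set (α ⊕ β → M)) (_ : (univ : Set M).Definable L Θ),
    ∀ F : Set (α → M), F.Finite → F ⊆ Z → ∃ d ∈ HGood X β Θ, ∀ x ∈ F, Sum.elim x d ∈ Θ

variable {L}

theorem HCov.mono {α : Type} {X Z Z' : Set (α → M)} (h : HCov L X Z) (hZ : Z' ⊆ Z) :
    HCov L X Z' := by
  obtain ⟨β, hβ, Θ, hΘ, H⟩ := h
  exact ⟨β, hβ, Θ, hΘ, fun F hF hFZ => H F hF (hFZ.trans hZ)⟩

theorem HCov.empty {α : Type} (X : Set (α → M)) : HCov L X ∅ := by
  refine ⟨Empty, inferInstance, ∅, definable_empty, fun F _ hFZ => ?_⟩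
  refine ⟨fun e => e.elim, fun x hx => hx.elim, fun x hx => (hFZ hx).elim⟩

theorem HCov.union {α : Type} {X Z Z' : Set (α → M)} (h : HCov L X Z) (h' : HCov L X Z') :
    HCov L X (Z ∪ Z') := by
  obtain ⟨β, hβ, Θ, hΘ, H⟩ := h
  obtain ⟨γ, hγ, Θ', hΘ', H'⟩ := h'
  refine ⟨β ⊕ γ, inferInstance, {w | w ∘ (Sum.map id Sum.inl : α ⊕ β → α ⊕ (β ⊕ γ)) ∈ Θ} ∪
    {w | w ∘ (Sum.map id Sum.inr : α ⊕ γ → α ⊕ (β ⊕ γ)) ∈ Θ'},
    (hΘ.preimage_comp _).union (hΘ'.preimage_comp _), fun F hF hFZ => ?_⟩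
  obtain ⟨d, hd, hdF⟩ := H (F ∩ Z) (hF.subset inter_subset_left) inter_subset_right
  obtain ⟨d', hd', hdF'⟩ := H' (F ∩ Z') (hF.subset inter_subset_left) inter_subset_right
  have e1 : ∀ x : α → M, Sum.elim x (Sum.elim d d') ∘
      (Sum.map id Sum.inl : α ⊕ β → α ⊕ (β ⊕ γ)) = Sum.elim x d := by
    intro w; funext s; rcases s with s | s <;> rfl
  have e2 : ∀ x : α → M, Sum.elim x (Sum.elim d d') ∘
      (Sum.map id Sum.inr : α ⊕ γ → α ⊕ (β ⊕ γ)) = Sum.elim x d' := by
    intro w; funext s; rcases s with s | s <;> rfl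
  refine ⟨Sum.elim d d', ?_, ?_⟩
  · rintro x (hx | hx)
    · rw [mem_ofPred_eq, e1] at hx
      exact hd x hx
    · rw [mem_ofPred_eq, e2] at hx
      exact hd' x hx
  · intro x hx
    rcases hFZ hx with h1 | h1
    · left
      rw [mem_ofPred_eq, e1]
      exact hdF x ⟨hx, h1⟩
    · right
      rw [mem_ofPred_eq, e2]
      exact hdF' x ⟨hx, h1⟩

/-- compactness -/
theorem HCov.of_ultra {α : Type} {X : Set (α → M)}
    (h : ∀ p : Ultrafilter (α → M), X ∈ p → ∃ Z ∈ p, HCov L X Z) : HCov L X X := by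
  by_contra hcon
  let 𝔉 : Filter (α → M) :=
    { sets := {S | HCov L X (X ∩ Sᶜ)}
      univ_sets := by
        show HCov L X (X ∩ univᶜ)
        rw [compl_univ, inter_empty]
        exact HCov.empty X
      sets_of_superset := fun {S S'} hS hSS' =>
        HCov.mono hS (inter_subset_inter_right _ (compl_subset_compl.2 hSS'))
      inter_sets := fun {S S'} hS hS' => by
        show HCov L X (X ∩ (S ∩ S')ᶜ)
        rw [compl_inter, inter_union_distrib_left]
        exact HCov.union hS hS' }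
  have hmem : ∀ S, S ∈ 𝔉 ↔ HCov L X (X ∩ Sᶜ) := fun S => Iff.rfl
  have hne : 𝔉.NeBot := by
    rw [Filter.neBot_iff]
    intro h0
    have h1 : (∅ : Set (α → M)) ∈ 𝔉 := by rw [h0]; exact Filter.mem_bot
    rw [hmem, compl_empty, inter_univ] at h1
    exact hcon h1
  have hle : ((Ultrafilter.of 𝔉 : Ultrafilter (α → M)) : Filter (α → M)) ≤ 𝔉 :=
    Ultrafilter.of_le 𝔉
  have hX : X ∈ Ultrafilter.of 𝔉 := by
    apply hle
    rw [hmem, inter_compl_self]
    exact HCov.empty X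
  obtain ⟨Z, hZp, hZ⟩ := h _ hX
  have hZc : Zᶜ ∈ Ultrafilter.of 𝔉 := by
    apply hle
    rw [hmem, compl_compl]
    exact hZ.mono inter_subset_right
  exact (Ultrafilter.compl_mem_iff_notMem.1 hZc) hZp

/-- appending a tuple at the end -/
def snocT {α : Type} {n : ℕ} (y : Fin n × α → M) (x : α → M) : Fin (n + 1) × α → M :=
  fun q => Fin.lastCases (motive := fun _ => M) (x q.2) (fun j => y (j, q.2)) q.1

theorem snocT_last {α : Type} {n : ℕ} (y : Fin n × α → M) (x : α → M) (a : α) :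
    snocT y x (Fin.last n, a) = x a := by
  simp [snocT]

theorem snocT_castSucc {α : Type} {n : ℕ} (y : Fin n × α → M) (x : α → M) (j : Fin n) (a : α) :
    snocT y x (j.castSucc, a) = y (j, a) := by
  simp [snocT]

/-- the index map of `snocT` -/
def snocIdx {α : Type} (n : ℕ) : Fin (n + 1) × α → α ⊕ (Fin n × α) :=
  fun q => Fin.lastCases (motive := fun _ => α ⊕ (Fin n × α)) (Sum.inl q.2)
    (fun j => Sum.inr (j, q.2)) q.1

theorem snocT_eq {α : Type} {n : ℕ} (y : Fin n × α → M) (x : α → M) :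
    snocT y x = Sum.elim x y ∘ snocIdx n := by
  funext q
  obtain ⟨j, a⟩ := q
  refine Fin.lastCases ?_ (fun j => ?_) j
  · simp [snocT, snocIdx]
  · simp [snocT, snocIdx]

/-- the iterated ultrafilter, the last variable outermost -/
def Gen {α : Type} (p : Ultrafilter (α → M)) : (n : ℕ) → Set (Fin n × α → M) → Prop
  | 0, S => (fun q => q.1.elim0) ∈ S
  | n + 1, S => ∀ᶠ x in (p : Filter (α → M)), Gen p n {y | snocT y x ∈ S}

theorem Gen.inter {α : Type} (p : Ultrafilter (α → M)) : ∀ (n : ℕ) (S S' : Set (Fin n × α → M)),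
    Gen p n S → Gen p n S' → Gen p n (S ∩ S')
  | 0, S, S', h, h' => ⟨h, h'⟩
  | n + 1, S, S', h, h' => by
    have h1 : ∀ᶠ x in (p : Filter (α → M)), Gen p n {y | snocT y x ∈ S} := h
    have h2 : ∀ᶠ x in (p : Filter (α → M)), Gen p n {y | snocT y x ∈ S'} := h'
    exact (h1.and h2).mono fun x hx => Gen.inter p n _ _ hx.1 hx.2

theorem Gen.univ {α : Type} (p : Ultrafilter (α → M)) : ∀ (n : ℕ), Gen p n Set.univ
  | 0 => mem_univ _
  | n + 1 => Filter.Eventually.of_forall fun x => by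
    have h : {y | snocT y x ∈ (Set.univ : Set (Fin (n + 1) × α → M))} = Set.univ := by
      ext y; simp
    show Gen p n {y | snocT y x ∈ (Set.univ : Set (Fin (n + 1) × α → M))}
    rw [h]
    exact Gen.univ p n

theorem Gen.nonempty {α : Type} (p : Ultrafilter (α → M)) : ∀ (n : ℕ) (S : Set (Fin n × α → M)),
    Gen p n S → S.Nonempty
  | 0, S, h => ⟨_, h⟩
  | n + 1, S, h => by
    have h1 : ∀ᶠ x in (p : Filter (α → M)), Gen p n {y | snocT y x ∈ S} := h
    obtain ⟨x, hx⟩ := h1.exists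
    obtain ⟨y, hy⟩ := Gen.nonempty p n _ hx
    exact ⟨_, hy⟩

theorem Gen.compl {α : Type} (p : Ultrafilter (α → M)) : ∀ (n : ℕ) (S : Set (Fin n × α → M)),
    ¬ Gen p n S → Gen p n Sᶜ
  | 0, S, h => h
  | n + 1, S, h => by
    have h1 : ¬ ∀ᶠ x in (p : Filter (α → M)), Gen p n {y | snocT y x ∈ S} := h
    rw [← Ultrafilter.eventually_not] at h1
    exact h1.mono fun x hx => Gen.compl p n _ hx

theorem Gen.biInter {α : Type} (p : Ultrafilter (α → M)) (n : ℕ) {ι : Type} (s : Finset ι)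
    (S : ι → Set (Fin n × α → M)) (h : ∀ i ∈ s, Gen p n (S i)) : Gen p n (⋂ i ∈ s, S i) := by
  classical
  induction s using Finset.induction_on with
  | empty => simpa using Gen.univ p n
  | insert a s ha ih =>
    rw [Finset.set_biInter_insert]
    exact Gen.inter p n _ _ (h a (Finset.mem_insert_self _ _))
      (ih fun i hi => h i (Finset.mem_insert_of_mem hi))

/-- alternating sequences -/
theorem comp_aux {α : Type} [Finite α] {X : Set (α → M)} (p : Ultrafilter (α → M)) (hX : X ∈ p)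
    (hnot : ∀ Z ∈ p, ¬ HCov L X Z) : ∀ (n : ℕ) (ε : Fin n → Prop) (S : Set (Fin n × α → M)),
    (univ : Set M).Definable L S → Gen p n S →
      ∃ y ∈ S, ∀ j, (fun a => y (j, a)) ∈ X ↔ ε j := by
  intro n
  induction n with
  | zero =>
    intro ε S _ hg
    exact ⟨_, hg, fun j => j.elim0⟩
  | succ n ih =>
    intro ε S hS hg
    let ε' : Fin n → Prop := fun j => ε j.castSucc
    let 𝒟 : Set (Fin n × α → M) := {y | ∀ j, (fun a => y (j, a)) ∈ X ↔ ε' j}
    -- the ultrafilter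
    obtain ⟨δ, hδ⟩ := Ultrafilter.exists_ultrafilter_of_finite_inter_nonempty
      {S' : Set (Fin n × α → M) | ∃ σ : Set (Fin n × α → M), (univ : Set M).Definable L σ ∧
        Gen p n σ ∧ S' = σ ∩ 𝒟} (by
        intro T
        classical
        have key : ∀ T : Finset (Set (Fin n × α → M)),
            (↑T : Set (Set (Fin n × α → M))) ⊆ {S' | ∃ σ : Set (Fin n × α → M),
              (univ : Set M).Definable L σ ∧ Gen p n σ ∧ S' = σ ∩ 𝒟} →
            ∃ σ : Set (Fin n × α → M), (univ : Set M).Definable L σ ∧ Gen p n σ ∧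
              σ ∩ 𝒟 ⊆ ⋂₀ (↑T : Set (Set (Fin n × α → M))) := by
          intro T
          induction T using Finset.induction_on with
          | empty =>
            intro _
            exact ⟨Set.univ, definable_univ, Gen.univ p n, by simp⟩
          | insert a s ha ihs =>
            intro hT
            rw [Finset.coe_insert, insert_subset_iff] at hT
            obtain ⟨σ, h1, h2, h3⟩ := ihs hT.2
            obtain ⟨σ', h1', h2', h3'⟩ := hT.1
            refine ⟨σ ∩ σ', h1.inter h1', Gen.inter p n _ _ h2 h2', ?_⟩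
            rw [Finset.coe_insert, sInter_insert]
            refine subset_inter ?_ ?_
            · rw [h3']
              exact fun y hy => ⟨hy.1.2, hy.2⟩
            · exact fun y hy => h3 ⟨hy.1.1, hy.2⟩
        intro hT
        obtain ⟨σ, h1, h2, h3⟩ := key T hT
        obtain ⟨y, hy, hyε⟩ := ih ε' σ h1 h2
        exact ⟨y, h3 ⟨hy, hyε⟩⟩)
    have hδD : 𝒟 ∈ δ := hδ ⟨Set.univ, definable_univ, Gen.univ p n, by rw [univ_inter]⟩
    have hδσ : ∀ σ : Set (Fin n × α → M), (univ : Set M).Definable L σ → Gen p n σ → σ ∈ δ := by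
      intro σ h1 h2
      exact Filter.mem_of_superset (hδ ⟨σ, h1, h2, rfl⟩) inter_subset_left
    let Θ : Set (α ⊕ (Fin n × α) → M) := {w | w ∘ snocIdx n ∈ S}
    have hΘ : (univ : Set M).Definable L Θ := hS.preimage_comp _
    let T : Set (α → M) := {x | ∀ᶠ y in (δ : Filter (Fin n × α → M)), snocT y x ∈ S}
    have hT : T ∈ p := by
      have h1 : ∀ᶠ x in (p : Filter (α → M)), Gen p n {y | snocT y x ∈ S} := hg
      refine Filter.mem_of_superset h1 fun x hx => ?_
      refine hδσ _ ?_ hx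
      have h2 : (univ : Set M).DefinableMap L (fun (y : Fin n × α → M) (q : Fin (n + 1) × α) =>
          snocT y x q) := by
        rintro ⟨j, a⟩
        refine Fin.lastCases ?_ (fun j => ?_) j
        · simp only [snocT_last]
          exact Language.definableFun_const L _ (mem_univ _)
        · simp only [snocT_castSucc]
          exact DefinableFun.proj _
      exact hS.preimage_map h2
    by_cases hε : ε (Fin.last n)
    · obtain ⟨x, hxT, hxX⟩ : (T ∩ X).Nonempty := Ultrafilter.nonempty_of_mem (inter_mem hT hX)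
      have h1 : ∀ᶠ y in (δ : Filter (Fin n × α → M)), snocT y x ∈ S := hxT
      obtain ⟨y, hyS, hyD⟩ := (h1.and hδD).exists
      refine ⟨snocT y x, hyS, fun j => ?_⟩
      refine Fin.lastCases ?_ (fun j => ?_) j
      · simp only [snocT_last]
        exact ⟨fun _ => hε, fun _ => hxX⟩
      · simp only [snocT_castSucc]
        exact hyD j
    · by_contra hcon
      push Not at hcon
      refine hnot T hT ⟨Fin n × α, inferInstance, Θ, hΘ, fun F hF hFT => ?_⟩
      have h1 : ∀ᶠ y in (δ : Filter (Fin n × α → M)), ∀ x ∈ F, snocT y x ∈ S := by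
        rw [Filter.eventually_all_finite hF]
        exact fun x hx => hFT hx
      obtain ⟨y, hyF, hyD⟩ := (h1.and hδD).exists
      refine ⟨y, fun x hx => ?_, fun x hx => ?_⟩
      · have hxS : snocT y x ∈ S := by rw [snocT_eq]; exact hx
        by_contra hxX
        obtain ⟨j, hj⟩ := hcon _ hxS
        revert hj
        refine Fin.lastCases ?_ (fun j => ?_) j
        · simp only [snocT_last]
          intro hj
          rcases hj with ⟨h1, -⟩ | ⟨-, h2⟩
          · exact hxX h1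
          · exact hε h2
        · simp only [snocT_castSucc]
          intro hj
          have := hyD j
          rcases hj with ⟨h1, h2⟩ | ⟨h1, h2⟩
          · exact h2 (this.1 h1)
          · exact h1 (this.2 h2)
      · show Sum.elim x y ∘ snocIdx n ∈ S
        rw [← snocT_eq]
        exact hyF x hx

/-- Honest definitions. -/
theorem honest {α : Type} [Finite α] (hM : DNIP L M) {X : Set (α → M)} (h : ED L X) :
    HCov L X X := by
  classical
  refine HCov.of_ultra fun p hXp => ?_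
  by_contra hcon
  push Not at hcon
  obtain ⟨β, hβ, Φ, hΦ, 𝒰, hX⟩ := h
  obtain ⟨n, hn⟩ := hM α β Φ hΦ
  let ρ : Finset (Fin n) → Set (Fin n × α → M) := fun J =>
    {y | ∃ b : β → M, ∀ j, Sum.elim (fun a => y (j, a)) b ∈ Φ ↔ j ∈ J}
  have hρ : ∀ J, (univ : Set M).Definable L (ρ J) := by
    intro J
    have h1 : ∀ j : Fin n, (univ : Set M).Definable L
        {w : (Fin n × α) ⊕ β → M | w ∘ (Sum.map (fun a => (j, a)) id :
          α ⊕ β → (Fin n × α) ⊕ β) ∈ Φ ↔ j ∈ J} := by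
      intro j
      by_cases hj : j ∈ J
      · have h2 := hΦ.preimage_comp (Sum.map (fun a => (j, a)) id : α ⊕ β → (Fin n × α) ⊕ β)
        convert h2 using 1
        ext w
        simp [hj]
      · have h2 := (hΦ.preimage_comp
          (Sum.map (fun a => (j, a)) id : α ⊕ β → (Fin n × α) ⊕ β)).compl
        convert h2 using 1
        ext w
        simp [hj]
    have h2 := Definable.exists_of_finite (definable_iInter_of_finite h1)
    convert h2 using 1
    ext y
    show (∃ b : β → M, ∀ j, Sum.elim (fun a => y (j, a)) b ∈ Φ ↔ j ∈ J) ↔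
      ∃ b : β → M, Sum.elim y b ∈ ⋂ j : Fin n, {w : (Fin n × α) ⊕ β → M |
        w ∘ (Sum.map (fun a => (j, a)) id : α ⊕ β → (Fin n × α) ⊕ β) ∈ Φ ↔ j ∈ J}
    refine exists_congr fun b => ?_
    rw [mem_iInter]
    refine forall_congr' fun j => ?_
    have : Sum.elim y b ∘ (Sum.map (fun a => (j, a)) id : α ⊕ β → (Fin n × α) ⊕ β) =
        Sum.elim (fun a => y (j, a)) b := by
      funext s; rcases s with s | s <;> rfl
    rw [mem_ofPred_eq, this]
  have hgen : ∀ J : Finset (Fin n), Gen p n (ρ J) := by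
    intro J
    by_contra hg
    obtain ⟨y, hy, hyJ⟩ := comp_aux p hXp hcon n (fun j => j ∈ J) (ρ J)ᶜ (hρ J).compl
      (Gen.compl p n _ hg)
    apply hy
    have h1 : ∀ᶠ b in (𝒰 : Filter (β → M)), ∀ j, Sum.elim (fun a => y (j, a)) b ∈ Φ ↔ j ∈ J := by
      rw [Filter.eventually_all]
      intro j
      by_cases hj : j ∈ J
      · have h2 := (hX _).1 ((hyJ j).2 hj)
        exact h2.mono fun b hb => ⟨fun _ => hj, fun _ => hb⟩
      · have h2 : ¬ ∀ᶠ b in (𝒰 : Filter (β → M)), Sum.elim (fun a => y (j, a)) b ∈ Φ := by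
          rw [← hX]
          exact fun h => hj ((hyJ j).1 h)
        rw [← Ultrafilter.eventually_not] at h2
        exact h2.mono fun b hb => ⟨fun h => (hb h).elim, fun h => (hj h).elim⟩
    exact h1.exists
  have hall := Gen.biInter p n Finset.univ ρ fun J _ => hgen J
  obtain ⟨y, hy⟩ := Gen.nonempty p n _ hall
  have hy' : ∀ J : Finset (Fin n), ∃ b : β → M, ∀ j,
      Sum.elim (fun a => y (j, a)) b ∈ Φ ↔ j ∈ J := by
    intro J
    exact mem_iInter₂.1 hy J (Finset.mem_univ J)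
  choose b hb using hy'
  exact hn ⟨fun j a => y (j, a), b, fun i J => hb J i⟩

/-- Externally definable sets are closed under projections. -/
theorem ED.exists {α γ : Type} [Finite α] [Finite γ] (hM : DNIP L M) {X : Set (α ⊕ γ → M)}
    (h : ED L X) : ED L {x : α → M | ∃ y : γ → M, Sum.elim x y ∈ X} := by
  classical
  obtain ⟨β, hβ, Θ, hΘ, H⟩ := honest hM h
  let Θ' : Set (α ⊕ β → M) := {w | ∃ y : γ → M, Sum.elim (Sum.elim (w ∘ Sum.inl) y)
    (w ∘ Sum.inr) ∈ Θ}
  have hΘ' : (univ : Set M).Definable L Θ' := by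
    have h1 := hΘ.preimage_comp (Sum.elim (Sum.elim (fun a => Sum.inl (Sum.inl a))
      (fun c => Sum.inr c)) (fun b => Sum.inl (Sum.inr b)) : (α ⊕ γ) ⊕ β → (α ⊕ β) ⊕ γ)
    have h2 := Definable.exists_of_finite h1
    convert h2 using 1
    ext w
    refine exists_congr fun y => ?_
    have : Sum.elim w y ∘ (Sum.elim (Sum.elim (fun a => Sum.inl (Sum.inl a))
        (fun c => Sum.inr c)) (fun b => Sum.inl (Sum.inr b)) : (α ⊕ γ) ⊕ β → (α ⊕ β) ⊕ γ) =
        Sum.elim (Sum.elim (w ∘ Sum.inl) y) (w ∘ Sum.inr) := by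
      funext s; rcases s with (s | s) | s <;> rfl
    rw [mem_preimage, this]
  let π : Set (α → M) := {x | ∃ y : γ → M, Sum.elim x y ∈ X}
  have hgood : ∀ d ∈ HGood X β Θ, ∀ x, Sum.elim x d ∈ Θ' → x ∈ π := by
    rintro d hd x ⟨y, hy⟩
    exact ⟨y, hd _ hy⟩
  obtain ⟨δ, hδ⟩ := Ultrafilter.exists_ultrafilter_of_finite_inter_nonempty
    (insert (HGood X β Θ) (Set.range fun x : π => {d : β → M | Sum.elim (x : α → M) d ∈ Θ'})) (by
      intro T hT
      -- a finite subset of `π` which is enough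
      have key : ∀ T : Finset (Set (β → M)), (↑T : Set (Set (β → M))) ⊆ insert (HGood X β Θ)
          (Set.range fun x : π => {d : β → M | Sum.elim (x : α → M) d ∈ Θ'}) →
          ∃ F : Set (α → M), F.Finite ∧ F ⊆ π ∧ ∀ d ∈ HGood X β Θ,
            (∀ x ∈ F, Sum.elim x d ∈ Θ') → d ∈ ⋂₀ (↑T : Set (Set (β → M))) := by
        intro T
        induction T using Finset.induction_on with
        | empty =>
          intro _
          exact ⟨∅, Set.finite_empty, empty_subset _, by simp⟩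
        | insert a s ha ihs =>
          intro hT
          rw [Finset.coe_insert, insert_subset_iff] at hT
          obtain ⟨F, hF, hFπ, hFd⟩ := ihs hT.2
          rcases hT.1 with h1 | ⟨x, hx⟩
          · refine ⟨F, hF, hFπ, fun d hd hdF => ?_⟩
            rw [Finset.coe_insert, sInter_insert]
            exact ⟨h1 ▸ hd, hFd d hd hdF⟩
          · refine ⟨insert (x : α → M) F, hF.insert _, insert_subset x.2 hFπ,
              fun d hd hdF => ?_⟩
            rw [Finset.coe_insert, sInter_insert]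
            refine ⟨?_, hFd d hd fun z hz => hdF z (mem_insert_of_mem _ hz)⟩
            rw [← hx]
            exact hdF _ (mem_insert _ _)
      obtain ⟨F, hF, hFπ, hFd⟩ := key T hT
      have hch : ∀ x : π, ∃ y : γ → M, Sum.elim (x : α → M) y ∈ X := fun x => x.2
      choose g hg using hch
      let F' : Set (α ⊕ γ → M) := (fun x : π => Sum.elim (x : α → M) (g x)) ''
        {x : π | (x : α → M) ∈ F}
      have hF' : F'.Finite := by
        refine Set.Finite.image _ ?_
        exact hF.preimage (Subtype.val_injective.injOn)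
      obtain ⟨d, hd, hdF⟩ := H F' hF' (by
        rintro _ ⟨x, -, rfl⟩
        exact hg x)
      refine ⟨d, hFd d hd fun x hx => ?_⟩
      refine ⟨g ⟨x, hFπ hx⟩, ?_⟩
      exact hdF _ ⟨⟨x, hFπ hx⟩, hx, rfl⟩)
  refine ⟨β, hβ, Θ', hΘ', δ, fun x => ⟨fun hx => ?_, fun hx => ?_⟩⟩
  · exact hδ (mem_insert_of_mem _ ⟨⟨x, hx⟩, rfl⟩)
  · have h1 : HGood X β Θ ∈ δ := hδ (mem_insert _ _)
    obtain ⟨d, hd1, hd2⟩ := (hx.and h1).exists
    exact hgood d hd2 x hd1

theorem ED.forall {α γ : Type} [Finite α] [Finite γ] (hM : DNIP L M) {X : Set (α ⊕ γ → M)}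
    (h : ED L X) : ED L {x : α → M | ∀ y : γ → M, Sum.elim x y ∈ X} := by
  have h1 := (ED.exists hM h.compl).compl
  convert h1 using 1
  ext x
  simp

/-- An externally definable relation does not shatter arbitrarily large finite sets. -/
theorem ED.nip {α γ : Type} [Finite α] [Finite γ] (hM : DNIP L M) {X : Set (α ⊕ γ → M)}
    (h : ED L X) : ∃ n : ℕ, ¬ ∃ (a : Fin n → α → M) (b : Finset (Fin n) → γ → M),
      ∀ (i : Fin n) (J : Finset (Fin n)), Sum.elim (a i) (b J) ∈ X ↔ i ∈ J := by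
  classical
  obtain ⟨β, hβ, Φ, hΦ, 𝒰, hX⟩ := h
  obtain ⟨n, hn⟩ := hM α (γ ⊕ β) _ (hΦ.preimage_comp (Sum.elim (Sum.elim Sum.inl
    (fun c => Sum.inr (Sum.inl c))) (fun b => Sum.inr (Sum.inr b)) :
      (α ⊕ γ) ⊕ β → α ⊕ (γ ⊕ β)))
  refine ⟨n, ?_⟩
  rintro ⟨a, b, hab⟩
  have h1 : ∀ᶠ d in (𝒰 : Filter (β → M)), ∀ (i : Fin n) (J : Finset (Fin n)),
      Sum.elim (Sum.elim (a i) (b J)) d ∈ Φ ↔ i ∈ J := by
    rw [Filter.eventually_all]
    intro i
    rw [Filter.eventually_all]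
    intro J
    by_cases hj : i ∈ J
    · have h2 := (hX _).1 ((hab i J).2 hj)
      exact h2.mono fun b hb => ⟨fun _ => hj, fun _ => hb⟩
    · have h2 : ¬ ∀ᶠ d in (𝒰 : Filter (β → M)), Sum.elim (Sum.elim (a i) (b J)) d ∈ Φ := by
        rw [← hX]
        exact fun h => hj ((hab i J).1 h)
      rw [← Ultrafilter.eventually_not] at h2
      exact h2.mono fun b hb => ⟨fun h => (hb h).elim, fun h => (hj h).elim⟩
  obtain ⟨d, hd⟩ := h1.exists
  refine hn ⟨a, fun J => Sum.elim (b J) d, fun i J => ?_⟩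
  rw [← hd i J, mem_preimage]
  have : Sum.elim (a i) (Sum.elim (b J) d) ∘ (Sum.elim (Sum.elim Sum.inl
      (fun c => Sum.inr (Sum.inl c))) (fun b => Sum.inr (Sum.inr b)) :
      (α ⊕ γ) ⊕ β → α ⊕ (γ ⊕ β)) = Sum.elim (Sum.elim (a i) (b J)) d := by
    funext s; rcases s with (s | s) | s <;> rfl
  rw [this]

end Pool.Agent.AIC
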