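import Pool.Agent.AIC.Interp83

/-! MP_313bb4, piece K2: finite extensions of NIP domains are NIP. -/

set_option autoImplicit false

namespace Pool.Agent.AIC

open Set FirstOrder FirstOrder.Language FirstOrder.Ring

section definable

variable {R : Type} [CommRing R] [CompatibleRing R] {α : Type}

lemma defFun_add {f g : (α → R) → R} (hf : (univ : Set R).DefinableFun Language.ring f)
    (hg : (univ : Set R).DefinableFun Language.ring g) :
    (univ : Set R).DefinableFun Language.ring (fun v => f v + g v) := by
  have hm : (univ : Set R).DefinableMap Language.ring (fun v => ![f v, g v]) := by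
    intro i
    fin_cases i
    · exact hf
    · exact hg
  have h := DefinableFun.comp hm
    (DefinableFun.of_empty (A := univ) (DefinableFun.fun_symbol (M := R) addFunc))
  simpa [CompatibleRing.funMap_add] using h

lemma defFun_mul {f g : (α → R) → R} (hf : (univ : Set R).DefinableFun Language.ring f)
    (hg : (univ : Set R).DefinableFun Language.ring g) :
    (univ : Set R).DefinableFun Language.ring (fun v => f v * g v) := by
  have hm : (univ : Set R).DefinableMap Language.ring (fun v => ![f v, g v]) := by
    intro i
    fin_cases i
    · exact hf
    · exact hg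
  have h := DefinableFun.comp hm
    (DefinableFun.of_empty (A := univ) (DefinableFun.fun_symbol (M := R) mulFunc))
  simpa [CompatibleRing.funMap_mul] using h

lemma defFun_const (r : R) : (univ : Set R).DefinableFun Language.ring (fun _ : α → R => r) :=
  Language.definableFun_const Language.ring _ (mem_univ _)

lemma defFun_proj (i : α) : (univ : Set R).DefinableFun Language.ring (fun v : α → R => v i) :=
  DefinableFun.proj _

lemma defFun_sum {ι : Type} (s : Finset ι) {f : ι → (α → R) → R}
    (hf : ∀ i, (univ : Set R).DefinableFun Language.ring (f i)) :
    (univ : Set R).DefinableFun Language.ring (fun v => ∑ i ∈ s, f i v) := by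
  classical
  induction s using Finset.induction_on with
  | empty => simpa using defFun_const (α := α) (0 : R)
  | insert a s ha ih =>
    simp only [Finset.sum_insert ha]
    exact defFun_add (hf a) ih

end definable

/-- a module-finite algebra with an injective linear map to a finite power of the base ring is
interpreted in it -/
noncomputable def Interp.ofLinear {R T : Type} [CommRing R] [CompatibleRing R] [CommRing T]
    [Algebra R T] {D N : Type} [Fintype D] [Finite N] (g : D → T)
    (hg : ∀ x : T, ∃ a : D → R, ∑ d, a d • g d = x) (l : T →ₗ[R] (N → R))
    (hl : Function.Injective l) : Interp R T D where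
  pi a := ∑ d, a d • g d
  surj := hg
  heq := by
    have h : ∀ j : N, (univ : Set R).Definable Language.ring
        {v : Fin 2 × D → R | ∑ d, v (0, d) * l (g d) j = ∑ d, v (1, d) * l (g d) j} := fun j =>
      (defFun_sum _ fun d => defFun_mul (defFun_proj _) (defFun_const _)).ofPred_eq
        (defFun_sum _ fun d => defFun_mul (defFun_proj _) (defFun_const _))
    have h2 := definable_iInter_of_finite h
    convert h2 using 1
    ext v
    rw [mem_iInter]
    constructor
    · intro hv j
      have hv' := congrFun (congrArg l hv) j
      simpa [map_sum, Finset.sum_apply] using hv'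
    · intro hv
      apply hl
      funext j
      have hv' := hv j
      simpa [map_sum, Finset.sum_apply] using hv'
  hadd := by
    have h : ∀ j : N, (univ : Set R).Definable Language.ring
        {v : Fin 3 × D → R | ∑ d, v (0, d) * l (g d) j + ∑ d, v (1, d) * l (g d) j =
          ∑ d, v (2, d) * l (g d) j} := fun j =>
      (defFun_add (defFun_sum _ fun d => defFun_mul (defFun_proj _) (defFun_const _))
        (defFun_sum _ fun d => defFun_mul (defFun_proj _) (defFun_const _))).ofPred_eq
        (defFun_sum _ fun d => defFun_mul (defFun_proj _) (defFun_const _))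
    have h2 := definable_iInter_of_finite h
    convert h2 using 1
    ext v
    rw [mem_iInter]
    constructor
    · intro hv j
      have hv' := congrFun (congrArg l hv) j
      simpa [map_sum, Finset.sum_apply] using hv'
    · intro hv
      apply hl
      funext j
      have hv' := hv j
      simpa [map_sum, Finset.sum_apply] using hv'
  hmul := by
    have h : ∀ j : N, (univ : Set R).Definable Language.ring
        {v : Fin 3 × D → R | ∑ d, ∑ e, (v (0, d) * v (1, e)) * l (g d * g e) j =
          ∑ d, v (2, d) * l (g d) j} := fun j =>
      (defFun_sum _ fun d => defFun_sum _ fun e => defFun_mul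
        (defFun_mul (defFun_proj _) (defFun_proj _)) (defFun_const _)).ofPred_eq
        (defFun_sum _ fun d => defFun_mul (defFun_proj _) (defFun_const _))
    have h2 := definable_iInter_of_finite h
    convert h2 using 1
    ext v
    rw [mem_iInter]
    have key : (∑ d, v (0, d) • g d) * (∑ e, v (1, e) • g e) =
        ∑ d, ∑ e, (v (0, d) * v (1, e)) • (g d * g e) := by
      rw [Finset.sum_mul_sum]
      refine Finset.sum_congr rfl fun d _ => Finset.sum_congr rfl fun e _ => ?_
      rw [smul_mul_smul_comm]
    constructor
    · intro hv j
      have hv1 : (∑ d, v (0, d) • g d) * (∑ e, v (1, e) • g e) = ∑ d, v (2, d) • g d := hv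
      rw [key] at hv1
      have hv' := congrFun (congrArg l hv1) j
      simpa [map_sum, Finset.sum_apply] using hv'
    · intro hv
      show (∑ d, v (0, d) • g d) * (∑ e, v (1, e) • g e) = ∑ d, v (2, d) • g d
      rw [key]
      apply hl
      funext j
      have hv' := hv j
      simpa [map_sum, Finset.sum_apply] using hv'

/-- a module-finite algebra with an injective linear map to a finite power of an NIP ring is
NIP -/
theorem nip_of_linear {R T : Type} [CommRing R] [CompatibleRing R] [CommRing T]
    [CompatibleRing T] [Algebra R T] [Module.Finite R T] {N : Type} [Finite N]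
    (l : T →ₗ[R] (N → R)) (hl : Function.Injective l) (hR : NIPRing R) : NIPRing T := by
  obtain ⟨n, g, hg⟩ := Module.Finite.exists_fin (R := R) (M := T)
  refine nip_transfer (Interp.ofLinear (D := Fin n) g (fun x => ?_) l hl) hR
  have hx : x ∈ Submodule.span R (Set.range g) := by
    rw [hg]
    exact Submodule.mem_top
  exact (Submodule.mem_span_range_iff_exists_fun R).mp hx

/-- a module-finite subalgebra of the fraction field of an NIP domain is NIP -/
theorem nip_subalgebra {R K : Type} [CommRing R] [IsDomain R] [Field K] [Algebra R K]
    [IsFractionRing R K] [CompatibleRing R] (T : Subalgebra R K) [Module.Finite R T]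
    [CompatibleRing T] (hR : NIPRing R) : NIPRing T := by
  classical
  have hinj := IsFractionRing.injective R K
  obtain ⟨n, g, hg⟩ := Module.Finite.exists_fin (R := R) (M := T)
  obtain ⟨h, hh⟩ := IsLocalization.exist_integer_multiples_of_finset (nonZeroDivisors R)
    (Finset.univ.image fun d : Fin n => ((g d : T) : K))
  have hh0 : (h : R) ≠ 0 := nonZeroDivisors.coe_ne_zero h
  have hint : ∀ x : T, ∃ r : R, algebraMap R K r = (h : R) • (x : K) := by
    intro x
    have hx : x ∈ Submodule.span R (Set.range g) := by
      rw [hg]
      exact Submodule.mem_top
    obtain ⟨a, ha⟩ := (Submodule.mem_span_range_iff_exists_fun R).mp hx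
    have h1 : ∀ d : Fin n, ∃ r : R, algebraMap R K r = (h : R) • ((g d : T) : K) := by
      intro d
      obtain ⟨r, hr⟩ := hh _ (Finset.mem_image_of_mem _ (Finset.mem_univ d))
      exact ⟨r, hr⟩
    choose r hr using h1
    refine ⟨∑ d, a d * r d, ?_⟩
    have hc : ((∑ i, a i • g i : T) : K) = ∑ i, a i • ((g i : T) : K) := by
      simp
    rw [← ha, map_sum, hc, Finset.smul_sum]
    refine Finset.sum_congr rfl fun d _ => ?_
    rw [map_mul, hr d, Algebra.smul_def, Algebra.smul_def, Algebra.smul_def]
    ring
  choose s hs using hint
  let l : T →ₗ[R] (Unit → R) :=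
    { toFun := fun x _ => s x
      map_add' := by
        intro x y
        funext _
        apply hinj
        show algebraMap R K (s (x + y)) = algebraMap R K (s x + s y)
        rw [hs, map_add, hs, hs, ← smul_add]
        rfl
      map_smul' := by
        intro r x
        funext _
        apply hinj
        show algebraMap R K (s (r • x)) = algebraMap R K (r * s x)
        rw [hs, map_mul, hs, SetLike.val_smul, smul_comm, ← Algebra.smul_def] }
  refine nip_of_linear l (fun x y hxy => ?_) hR
  have h1 : s x = s y := congrFun hxy ()
  have h2 := congrArg (algebraMap R K) h1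
  rw [hs, hs, Algebra.smul_def, Algebra.smul_def] at h2
  have h3 : algebraMap R K (h : R) ≠ 0 := by
    rw [Ne, map_eq_zero_iff _ hinj]
    exact hh0
  exact Subtype.ext (mul_left_cancel₀ h3 h2)

end Pool.Agent.AIC
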