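import Mathlib
import Pool.Agent.AIC.Interp83
import Pool.Agent.AIC.InterpLin83
import Pool.Agent.AIC.Ext32

/-! MP_313bb4, stage 9, (E1) second half: a ring interpreted in an NIP ring by externally definable
relations is NIP; quotients by prime ideals and localizations at prime ideals of NIP rings. -/

set_option autoImplicit false

namespace Pool.Agent.AIC

open Set FirstOrder FirstOrder.Language FirstOrder.Ring Filter

section dnip

variable {R : Type} [CommRing R] [CompatibleRing R]

/-- the parameter step -/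
theorem dnip_of_nip (hR : NIPRing R) : DNIP Language.ring R := by
  classical
  intro α β _ _ Φ hΦ
  obtain ⟨A0, -, h3⟩ := definable_iff_finitely_definable.mp hΦ
  obtain ⟨ψ, hψ⟩ := definable_iff_exists_formula_sum.mp h3
  obtain ⟨k', ⟨ek⟩⟩ := Finite.exists_equiv_fin (↑(A0 : Set R) ⊕ α)
  obtain ⟨m', ⟨em⟩⟩ := Finite.exists_equiv_fin β
  let g : ↑(A0 : Set R) ⊕ (α ⊕ β) → Fin k' ⊕ Fin m' :=
    Sum.elim (fun a => Sum.inl (ek (Sum.inl a)))
      (Sum.elim (fun p => Sum.inl (ek (Sum.inr p))) (fun p => Sum.inr (em p)))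
  obtain ⟨n, hn⟩ := hR k' m' (ψ.relabel g)
  refine ⟨n, ?_⟩
  rintro ⟨a, b, hab⟩
  apply hn
  refine ⟨fun i x => Sum.elim (fun r : ↑(A0 : Set R) => (r : R)) (a i) (ek.symm x),
    fun J x => b J (em.symm x), fun i J => ?_⟩
  rw [← hab i J, Formula.realize_relabel]
  have hg : (Sum.elim (fun x => Sum.elim (fun r : ↑(A0 : Set R) => (r : R)) (a i) (ek.symm x))
      (fun x => b J (em.symm x))) ∘ g =
      Sum.elim (fun r : ↑(A0 : Set R) => (r : R)) (Sum.elim (a i) (b J)) := by
    funext x
    rcases x with x | x | x <;> simp [g]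
  rw [hg, hψ]
  exact Iff.rfl

end dnip

section edmap

variable {L : Language} {M : Type} [L.Structure M]

theorem ED.preimage_map {α γ : Type} [Finite α] [Finite γ] {F : (γ → M) → (α → M)}
    (hF : (univ : Set M).DefinableMap L F) {X : Set (α → M)} (h : ED L X) :
    ED L {v : γ → M | F v ∈ X} := by
  obtain ⟨β, hβ, Φ, hΦ, 𝒰, hX⟩ := h
  have hG : (univ : Set M).DefinableMap L (fun (u : γ ⊕ β → M) (p : α ⊕ β) =>
      Sum.elim (F (u ∘ Sum.inl)) (u ∘ Sum.inr) p) := by
    rintro (a | b)
    · have h1 : (univ : Set M).DefinableMap L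
          (fun (u : γ ⊕ β → M) (c : γ) => u (Sum.inl c)) := fun c => DefinableFun.proj _
      exact DefinableFun.comp h1 (hF a)
    · exact DefinableFun.proj _
  refine ⟨β, hβ, _, hΦ.preimage_map hG, 𝒰, fun x => ?_⟩
  show F x ∈ X ↔ _
  rw [hX]
  exact Filter.eventually_congr (Filter.Eventually.of_forall fun b => Iff.rfl)

theorem ed_empty {α : Type} : ED L (∅ : Set (α → M)) := ED.of_definable definable_empty

end edmap

/-- interpretation of the ring `T` in the ring `R` by tuples and externally definable relations -/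
structure InterpED (R T D : Type) [CommRing R] [CompatibleRing R] [CommRing T] : Type where
  pi : (D → R) → T
  surj : Function.Surjective pi
  heq : ED Language.ring
    {v : Fin 2 × D → R | pi (fun d => v (0, d)) = pi (fun d => v (1, d))}
  hadd : ED Language.ring
    {v : Fin 3 × D → R | pi (fun d => v (0, d)) + pi (fun d => v (1, d)) = pi (fun d => v (2, d))}
  hmul : ED Language.ring
    {v : Fin 3 × D → R | pi (fun d => v (0, d)) * pi (fun d => v (1, d)) = pi (fun d => v (2, d))}

namespace InterpED

variable {R T D : Type} [CommRing R] [CompatibleRing R] [CommRing T]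
  [Finite D] (I : InterpED R T D)

/-- functions of `T` whose graph is externally definable in `R` -/
def TDef {β : Type} (f : (β → T) → T) : Prop :=
  ED Language.ring
    {v : (β ⊕ Unit) × D → R | f (fun b => I.pi (fun d => v (Sum.inl b, d))) =
      I.pi (fun d => v (Sum.inr (), d))}

lemma TDef.const {β : Type} [Finite β] (z : T) : I.TDef (fun _ : β → T => z) := by
  obtain ⟨w, hw⟩ := I.surj z
  have hF : (univ : Set R).DefinableMap Language.ring
      (fun (v : (β ⊕ Unit) × D → R) (p : Fin 2 × D) =>
        if p.1 = 0 then w p.2 else v (Sum.inr (), p.2)) := by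
    rintro ⟨j, d⟩
    by_cases hj : j = 0
    · simp only [hj, if_true]
      exact Language.definableFun_const Language.ring _ (mem_univ _)
    · simp only [hj, if_false]
      exact DefinableFun.proj _
  have h := I.heq.preimage_map hF
  unfold TDef
  convert h using 1
  ext v
  simp [hw]

omit [Finite D] in
lemma TDef.var {β : Type} (b : β) : I.TDef (fun x : β → T => x b) := by
  have h := I.heq.preimage_comp (fun p : Fin 2 × D =>
    ((if p.1 = 0 then Sum.inl b else Sum.inr (), p.2) : (β ⊕ Unit) × D))
  unfold TDef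
  convert h using 1
  ext v
  simp

lemma TDef.binary (hM : DNIP Language.ring R) {β : Type} [Finite β] {f g : (β → T) → T}
    (hf : I.TDef f) (hg : I.TDef g) {op : T → T → T}
    (hop : ED Language.ring
    {v : Fin 3 × D → R | op (I.pi (fun d => v (0, d))) (I.pi (fun d => v (1, d))) =
      I.pi (fun d => v (2, d))}) : I.TDef (fun x => op (f x) (g x)) := by
  have h1 := hf.preimage_comp (fun p : (β ⊕ Unit) × D =>
    (Sum.elim (fun b => Sum.inl (Sum.inl b, p.2)) (fun _ => Sum.inr (0, p.2)) p.1 :
      ((β ⊕ Unit) × D) ⊕ (Fin 2 × D)))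
  have h2 := hg.preimage_comp (fun p : (β ⊕ Unit) × D =>
    (Sum.elim (fun b => Sum.inl (Sum.inl b, p.2)) (fun _ => Sum.inr (1, p.2)) p.1 :
      ((β ⊕ Unit) × D) ⊕ (Fin 2 × D)))
  have h3 := hop.preimage_comp (fun p : Fin 3 × D =>
    (if p.1 = 0 then Sum.inr (0, p.2) else if p.1 = 1 then Sum.inr (1, p.2) else
      Sum.inl (Sum.inr (), p.2) : ((β ⊕ Unit) × D) ⊕ (Fin 2 × D)))
  have h4 := ED.exists hM ((h1.inter h2).inter h3)
  unfold TDef
  convert h4 using 1
  ext v
  constructor
  · intro h
    obtain ⟨w0, hw0⟩ := I.surj (f fun b => I.pi fun d => v (Sum.inl b, d))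
    obtain ⟨w1, hw1⟩ := I.surj (g fun b => I.pi fun d => v (Sum.inl b, d))
    refine ⟨fun p => if p.1 = 0 then w0 p.2 else w1 p.2, ⟨⟨?_, ?_⟩, ?_⟩⟩
    · simp [hw0]
    · simp [hw1]
    · have h' : op (f fun b => I.pi fun d => v (Sum.inl b, d))
        (g fun b => I.pi fun d => v (Sum.inl b, d)) = I.pi (fun d => v (Sum.inr (), d)) := h
      simpa [hw0, hw1] using h'
  · rintro ⟨u, ⟨⟨hu1, hu2⟩, hu3⟩⟩
    simp at hu1 hu2 hu3
    show op (f fun b => I.pi fun d => v (Sum.inl b, d))
      (g fun b => I.pi fun d => v (Sum.inl b, d)) = I.pi (fun d => v (Sum.inr (), d))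
    rw [hu1, hu2]
    exact hu3

lemma hneg (hM : DNIP Language.ring R) : ED Language.ring
    {v : Fin 3 × D → R | (fun a _ => -a : T → T → T) (I.pi (fun d => v (0, d)))
      (I.pi (fun d => v (1, d))) = I.pi (fun d => v (2, d))} := by
  have h1 := (TDef.const I (β := Fin 3) (0 : T)).preimage_comp
    (fun p : (Fin 3 ⊕ Unit) × D =>
      (Sum.elim (fun b => Sum.inl (b, p.2)) (fun _ => Sum.inr p.2) p.1 :
        (Fin 3 × D) ⊕ D))
  have h2 := I.hadd.preimage_comp (fun p : Fin 3 × D =>
    (if p.1 = 0 then Sum.inl (0, p.2) else if p.1 = 1 then Sum.inl (2, p.2) else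
      Sum.inr p.2 : (Fin 3 × D) ⊕ D))
  have h4 := ED.exists hM (h1.inter h2)
  convert h4 using 1
  ext v
  constructor
  · intro h
    obtain ⟨w0, hw0⟩ := I.surj (0 : T)
    have h' : -(I.pi (fun d => v (0, d))) = I.pi (fun d => v (2, d)) := h
    refine ⟨w0, ⟨?_, ?_⟩⟩
    · simp [hw0]
    · have h'' : I.pi (fun d => v (0, d)) + I.pi (fun d => v (2, d)) = 0 := by
        rw [← h']; exact add_neg_cancel _
      simpa [hw0] using h''
  · rintro ⟨u, ⟨hu1, hu2⟩⟩
    simp at hu1 hu2
    rw [← hu1] at hu2
    exact (eq_neg_of_add_eq_zero_right hu2).symm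

variable [CompatibleRing T]

lemma term_def (hM : DNIP Language.ring R) {β : Type} [Finite β] (t : Language.ring.Term β) :
    I.TDef (fun x : β → T => t.realize x) := by
  induction t with
  | var b => exact TDef.var I b
  | @func l f ts ih =>
    cases f with
    | add =>
      have h := TDef.binary I hM (ih 0) (ih 1) (op := fun a b => a + b) I.hadd
      simpa only [realize_func_add] using h
    | mul =>
      have h := TDef.binary I hM (ih 0) (ih 1) (op := fun a b => a * b) I.hmul
      simpa only [realize_func_mul] using h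
    | neg =>
      have h := TDef.binary I hM (ih 0) (ih 0) (op := fun a _ => -a) (I.hneg hM)
      simpa only [realize_func_neg] using h
    | zero => simpa only [realize_func_zero] using TDef.const I (β := β) (0 : T)
    | one => simpa only [realize_func_one] using TDef.const I (β := β) (1 : T)

/-- predicates of `T` externally definable in `R` -/
def PDef {β : Type} (P : (β → T) → Prop) : Prop :=
  ED Language.ring {v : β × D → R | P (fun b => I.pi (fun d => v (b, d)))}

omit [CompatibleRing T] in
lemma PDef.eq (hM : DNIP Language.ring R) {β : Type} [Finite β] {f g : (β → T) → T}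
    (hf : I.TDef f) (hg : I.TDef g) :
    I.PDef (fun x => f x = g x) := by
  have h1 := hf.preimage_comp (fun p : (β ⊕ Unit) × D =>
    (Sum.elim (fun b => Sum.inl (b, p.2)) (fun _ => Sum.inr p.2) p.1 : (β × D) ⊕ D))
  have h2 := hg.preimage_comp (fun p : (β ⊕ Unit) × D =>
    (Sum.elim (fun b => Sum.inl (b, p.2)) (fun _ => Sum.inr p.2) p.1 : (β × D) ⊕ D))
  have h4 := ED.exists hM (h1.inter h2)
  unfold PDef
  convert h4 using 1
  ext v
  constructor
  · intro h
    obtain ⟨w0, hw0⟩ := I.surj (f fun b => I.pi fun d => v (b, d))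
    have h' : (f fun b => I.pi fun d => v (b, d)) = (g fun b => I.pi fun d => v (b, d)) := h
    refine ⟨w0, ⟨?_, ?_⟩⟩
    · simp [hw0]
    · simp [hw0, ← h']
  · rintro ⟨u, ⟨hu1, hu2⟩⟩
    simp at hu1 hu2
    show (f fun b => I.pi fun d => v (b, d)) = (g fun b => I.pi fun d => v (b, d))
    rw [hu1, hu2]

omit [CompatibleRing T] in
lemma PDef.forall_last (hM : DNIP Language.ring R) {α : Type} [Finite α] {n : ℕ}
    {P : (α ⊕ Fin (n + 1) → T) → Prop} (hP : I.PDef P) :
    I.PDef (fun x : α ⊕ Fin n → T => ∀ y : T, P (Sum.elim (fun a => x (Sum.inl a))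
      (Fin.snoc (α := fun _ => T) (fun i => x (Sum.inr i)) y))) := by
  have h1 := hP.preimage_comp (fun p : (α ⊕ Fin (n + 1)) × D =>
    (Sum.elim (fun a => Sum.inl (Sum.inl a, p.2))
      (fun i => Fin.lastCases (motive := fun _ => ((α ⊕ Fin n) × D) ⊕ D)
        (Sum.inr p.2) (fun j => Sum.inl (Sum.inr j, p.2)) i) p.1 :
      ((α ⊕ Fin n) × D) ⊕ D))
  have h4 := ED.forall hM h1
  unfold PDef
  convert h4 using 1
  ext v
  have key : ∀ u : D → R, (fun b : α ⊕ Fin (n + 1) => I.pi fun d =>
      (Sum.elim v u ∘ fun p : (α ⊕ Fin (n + 1)) × D =>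
        (Sum.elim (fun a => Sum.inl (Sum.inl a, p.2))
        (fun i => Fin.lastCases (motive := fun _ => ((α ⊕ Fin n) × D) ⊕ D)
        (Sum.inr p.2) (fun j => Sum.inl (Sum.inr j, p.2)) i) p.1 :
        ((α ⊕ Fin n) × D) ⊕ D)) (b, d)) =
      Sum.elim (fun a => I.pi fun d => v (Sum.inl a, d))
        (Fin.snoc (α := fun _ => T) (fun i => I.pi fun d => v (Sum.inr i, d)) (I.pi u)) := by
    intro u
    funext b
    rcases b with a | i
    · simp
    · refine Fin.lastCases ?_ (fun j => ?_) i
      · simp
      · simp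
  constructor
  · intro h u
    have h' := h (I.pi u)
    show P _
    rw [key u]
    exact h'
  · intro h y
    obtain ⟨u, rfl⟩ := I.surj y
    have h' := h u
    have h'' : P _ := h'
    rw [key u] at h''
    exact h''

lemma formula_def (hM : DNIP Language.ring R) {α : Type} [Finite α] {n : ℕ}
    (ψ : Language.ring.BoundedFormula α n) :
    I.PDef (fun x : α ⊕ Fin n → T => ψ.Realize (fun a => x (Sum.inl a))
      (fun i => x (Sum.inr i))) := by
  induction ψ with
  | falsum =>
    unfold PDef
    convert (ed_empty : ED Language.ring _) using 1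
    exact Set.eq_empty_of_forall_notMem fun v hv => hv
  | equal t₁ t₂ =>
    have h := PDef.eq I hM (I.term_def hM t₁) (I.term_def hM t₂)
    convert h using 1
    funext x
    show (t₁.realize (Sum.elim (fun a => x (Sum.inl a)) (fun i => x (Sum.inr i))) =
      t₂.realize (Sum.elim (fun a => x (Sum.inl a)) (fun i => x (Sum.inr i)))) = _
    have hx : Sum.elim (fun a => x (Sum.inl a)) (fun i => x (Sum.inr i)) = x := by
      funext b
      rcases b with b | b <;> rfl
    rw [hx]
  | rel R ts => exact (R : Empty).elim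
  | imp φ₁ φ₂ ih₁ ih₂ =>
    unfold PDef at ih₁ ih₂ ⊢
    have h := ih₁.compl.union ih₂
    convert h using 1
    ext v
    exact imp_iff_not_or
  | all φ ih =>
    exact PDef.forall_last I hM ih

end InterpED

/-- a ring interpreted in an NIP ring by externally definable relations is NIP -/
theorem nip_transferED {R T D : Type} [CommRing R] [CompatibleRing R] [CommRing T]
    [CompatibleRing T] [Finite D] (I : InterpED R T D) (hR : NIPRing R) : NIPRing T := by
  classical
  have hM := dnip_of_nip hR
  intro k m φ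
  have h1 := I.formula_def hM (α := Fin k ⊕ Fin m) (n := 0) φ
  unfold InterpED.PDef at h1
  have h2 := h1.preimage_comp (fun p : ((Fin k ⊕ Fin m) ⊕ Fin 0) × D =>
    (Sum.elim (Sum.elim (fun i => Sum.inl (i, p.2)) (fun i => Sum.inr (i, p.2)))
      (fun i => i.elim0) p.1 : (Fin k × D) ⊕ (Fin m × D)))
  obtain ⟨n, hn⟩ := ED.nip hM h2
  refine ⟨n, ?_⟩
  rintro ⟨a, b, hab⟩
  apply hn
  choose s hs using I.surj
  refine ⟨fun i p => s (a i p.1) p.2, fun J p => s (b J p.1) p.2, fun i J => ?_⟩
  rw [← hab i J]
  show BoundedFormula.Realize φ _ _ ↔ BoundedFormula.Realize φ _ _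
  have e1 : (fun c : Fin k ⊕ Fin m => I.pi fun d => (Sum.elim
      (fun p : Fin k × D => s (a i p.1) p.2) (fun p : Fin m × D => s (b J p.1) p.2) ∘
      fun p : ((Fin k ⊕ Fin m) ⊕ Fin 0) × D =>
      (Sum.elim (Sum.elim (fun i => Sum.inl (i, p.2)) (fun i => Sum.inr (i, p.2)))
      (fun i => i.elim0) p.1 : (Fin k × D) ⊕ (Fin m × D))) (Sum.inl c, d)) =
      Sum.elim (a i) (b J) := by
    funext c
    rcases c with c | c
    · simp [hs]
    · simp [hs]
  refine iff_of_eq ?_
  congr 1
  exact Subsingleton.elim _ _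

section prime

variable {R : Type} [CommRing R] [CompatibleRing R]

/-- a prime ideal is externally definable -/
theorem ED.prime (q : Ideal R) [hq : q.IsPrime] :
    ED Language.ring {x : Unit → R | x () ∈ q} := by
  have h1 : ED Language.ring {x : Unit → R | x () ∉ q} := by
    obtain ⟨𝒰, h𝒰⟩ := Ultrafilter.exists_ultrafilter_of_finite_inter_nonempty
      (Set.range fun x : {x : R // x ∉ q} => {s : Unit → R | s () ∉ q ∧ (x : R) ∣ s ()}) (by
        intro T hT
        have key : ∀ T : Finset (Set (Unit → R)), (↑T : Set (Set (Unit → R))) ⊆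
            (Set.range fun x : {x : R // x ∉ q} => {s : Unit → R | s () ∉ q ∧ (x : R) ∣ s ()}) →
            ∃ s : R, s ∉ q ∧ ∀ t : R, t ∉ q → s ∣ t →
              (fun _ => t) ∈ ⋂₀ (↑T : Set (Set (Unit → R))) := by
          classical
          intro T
          induction T using Finset.induction_on with
          | empty =>
            intro _
            exact ⟨1, hq.one_notMem, by simp⟩
          | insert a T ha ih =>
            intro hT
            rw [Finset.coe_insert, insert_subset_iff] at hT
            obtain ⟨s, hs, hst⟩ := ih hT.2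
            obtain ⟨⟨x, hx⟩, hxa⟩ := hT.1
            refine ⟨s * x, fun h => (hq.mem_or_mem h).elim hs hx, fun t ht hsxt => ?_⟩
            rw [Finset.coe_insert, sInter_insert]
            refine ⟨?_, hst t ht ((Dvd.intro _ rfl).trans hsxt)⟩
            rw [← hxa]
            exact ⟨ht, (Dvd.intro_left _ rfl).trans hsxt⟩
        obtain ⟨s, hs, hst⟩ := key T hT
        exact ⟨_, hst s hs dvd_rfl⟩)
    have hdef : (univ : Set R).Definable Language.ring
        {v : Unit ⊕ Unit → R | v (Sum.inl ()) ∣ v (Sum.inr ())} := by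
      have h2 : (univ : Set R).Definable Language.ring
          {v : (Unit ⊕ Unit) ⊕ Unit → R | v (Sum.inl (Sum.inr ())) =
            v (Sum.inl (Sum.inl ())) * v (Sum.inr ())} :=
        (defFun_proj _).ofPred_eq (defFun_mul (defFun_proj _) (defFun_proj _))
      have h3 := Definable.exists_of_finite h2
      convert h3 using 1
      ext v
      constructor
      · rintro ⟨z, hz⟩
        exact ⟨fun _ => z, hz⟩
      · rintro ⟨u, hu⟩
        exact ⟨u (), hu⟩
    refine ⟨Unit, inferInstance, _, hdef, 𝒰, fun x => ⟨fun hx => ?_, fun hx => ?_⟩⟩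
    · have h4 : {s : Unit → R | s () ∉ q ∧ x () ∣ s ()} ∈ 𝒰 := h𝒰 ⟨⟨x (), hx⟩, rfl⟩
      exact Filter.mem_of_superset h4 fun s hs => hs.2
    · have h4 : {s : Unit → R | s () ∉ q ∧ (1 : R) ∣ s ()} ∈ 𝒰 := h𝒰 ⟨⟨1, hq.one_notMem⟩, rfl⟩
      obtain ⟨s, hs1, hs2⟩ := (hx.and h4).exists
      intro hxq
      exact hs2.1 (Ideal.mem_of_dvd q hs1 hxq)
  have h2 := h1.compl
  convert h2 using 1
  ext x
  simp

/-- the membership of a definable function in a prime is externally definable -/
theorem ED.prime_fun (q : Ideal R) [hq : q.IsPrime] {γ : Type} [Finite γ] {f : (γ → R) → R}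
    (hf : (univ : Set R).DefinableFun Language.ring f) :
    ED Language.ring {v : γ → R | f v ∈ q} :=
  (ED.prime q).preimage_map (F := fun v _ => f v) fun _ => hf

lemma defFun_neg {α : Type} {f : (α → R) → R}
    (hf : (univ : Set R).DefinableFun Language.ring f) :
    (univ : Set R).DefinableFun Language.ring (fun v => - f v) := by
  have h := defFun_mul (defFun_const (α := α) (-1 : R)) hf
  simpa using h

lemma defFun_sub {α : Type} {f g : (α → R) → R}
    (hf : (univ : Set R).DefinableFun Language.ring f)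
    (hg : (univ : Set R).DefinableFun Language.ring g) :
    (univ : Set R).DefinableFun Language.ring (fun v => f v - g v) := by
  have h := defFun_add hf (defFun_neg hg)
  simpa [sub_eq_add_neg] using h

/-- **the quotient of an NIP ring by a prime ideal is NIP** -/
theorem nip_quotient (hR : NIPRing R) (q : Ideal R) [hq : q.IsPrime] [CompatibleRing (R ⧸ q)] :
    NIPRing (R ⧸ q) := by
  have hmk : ∀ a b : R, (Ideal.Quotient.mk q a = Ideal.Quotient.mk q b) ↔ a - b ∈ q :=
    fun a b => Ideal.Quotient.eq
  let I : InterpED R (R ⧸ q) Unit :=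
    { pi := fun v => Ideal.Quotient.mk q (v ())
      surj := fun z => by
        obtain ⟨a, rfl⟩ := Ideal.Quotient.mk_surjective z
        exact ⟨fun _ => a, rfl⟩
      heq := by
        have h := ED.prime_fun q (γ := Fin 2 × Unit) (f := fun v => v (0, ()) - v (1, ()))
          (defFun_sub (defFun_proj _) (defFun_proj _))
        convert h using 1
        ext v
        exact hmk _ _
      hadd := by
        have h := ED.prime_fun q (γ := Fin 3 × Unit)
          (f := fun v => (v (0, ()) + v (1, ())) - v (2, ()))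
          (defFun_sub (defFun_add (defFun_proj _) (defFun_proj _)) (defFun_proj _))
        convert h using 1
        ext v
        show Ideal.Quotient.mk q _ + Ideal.Quotient.mk q _ = Ideal.Quotient.mk q _ ↔ _
        rw [← map_add, hmk]
        rfl
      hmul := by
        have h := ED.prime_fun q (γ := Fin 3 × Unit)
          (f := fun v => (v (0, ()) * v (1, ())) - v (2, ()))
          (defFun_sub (defFun_mul (defFun_proj _) (defFun_proj _)) (defFun_proj _))
        convert h using 1
        ext v
        show Ideal.Quotient.mk q _ * Ideal.Quotient.mk q _ = Ideal.Quotient.mk q _ ↔ _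
        rw [← map_mul, hmk]
        rfl }
  exact nip_transferED I hR

end prime

end Pool.Agent.AIC
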