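import Pool.Agent.AIC.TheoremT46
import Pool.Agent.AIC.AssembleT76

/-! MP_313bb4, stage 8: Theorem T (pair form). -/

set_option autoImplicit false

namespace Pool.Agent.AIC

open Finset Polynomial IsLocalRing

theorem claimTL : ClaimTL := by
  intro L _ _ q _ n hn m₁ m₂ _ _ h12 hall hU1 hU2 _ _ hq1 hq2 ζ hζ hD
  exact patLoc_of_dense76 hD q n hn m₁ m₂ h12 hall hU1 hU2 hq1 hq2 ζ hζ

/-- **Theorem T**: if the localization of an NIP domain at the complement of `P ∪ Q` is dense in
the fraction field for the topology of a henselian normal local subring (not a field), and the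
closure has finitely many primes over `P` and over `Q`, then `P` and `Q` are comparable. -/
theorem theoremT {R K : Type} [CommRing R] [IsDomain R] [FirstOrder.Ring.CompatibleRing R]
    [Field K] [Algebra R K] [IsFractionRing R K] (hN : NIPRing R) (P Q : Ideal R)
    [hP : P.IsPrime] [hQ : Q.IsPrime]
    (hfinP : {N : Ideal (integralClosure R K) | Over P N}.Finite)
    (hfinQ : {N : Ideal (integralClosure R K) | Over Q N}.Finite)
    (hD : DenseSet (LocSet P Q K)) : P ≤ Q ∨ Q ≤ P :=
  theoremT46 claimTL hN P Q hfinP hfinQ hD

end Pool.Agent.AIC
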