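import Mathlib
import Pool.Agent.AIC.DefsF82
import Pool.Agent.AIC.HtF94
import Pool.Agent.AIC.FBPrime82
import Pool.Agent.AIC.Quot83
import Pool.Agent.AIC.TheoremTF46
import Pool.Agent.AIC.Bounded82
import Pool.Agent.AIC.Coarse38
import Pool.Agent.AIC.EndLemmas82
import Pool.Agent.AIC.Form83

/-!
# Stage 10: the induction of Theorem F

`R` is a fixed ring and `PP` a set of primes of `R`, closed under smaller primes, with the
ascending chain condition, such that all residue fields below members of `PP` are of henselian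
type. By induction on the kernel `q` of `R → T` any two primes of an NIP domain `T`, finite over
`R`, with trace in `PP`, are comparable.
-/

set_option autoImplicit false
set_option linter.style.haveILetI false

namespace Pool.Agent.AIC

open Finset Polynomial IsLocalRing FirstOrder FirstOrder.Ring

/-- comparability of the primes with trace in `PP`, for all NIP domains which are finite over `R`
with kernel `q`. -/
def SA (R : Type) [CommRing R] (PP : Set (Ideal R)) (q : Ideal R) : Prop :=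
  ∀ (T : Type) [CommRing T] [IsDomain T] [CompatibleRing T] [Algebra R T] [Module.Finite R T],
    NIPRing T → (∀ a : R, algebraMap R T a = 0 ↔ a ∈ q) →
    ∀ P Q : Ideal T, P.IsPrime → Q.IsPrime → P.comap (algebraMap R T) ∈ PP →
      Q.comap (algebraMap R T) ∈ PP → P ≤ Q ∨ Q ≤ P

section induction

variable {R : Type} [CommRing R] {PP : Set (Ideal R)}

/-- primes above a nonzero prime are comparable. -/
theorem sa_key82 (hlow : ∀ P ∈ PP, ∀ q : Ideal R, q.IsPrime → q ≤ P → q ∈ PP) {q : Ideal R}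
    (ih : ∀ q' ∈ PP, q < q' → SA R PP q') {T : Type} [CommRing T] [IsDomain T]
    [CompatibleRing T] [Algebra R T] [Module.Finite R T] (hN : NIPRing T)
    (hker : ∀ a : R, algebraMap R T a = 0 ↔ a ∈ q) (n M₁ M₂ : Ideal T) (hn : n.IsPrime)
    (h₁ : M₁.IsPrime) (h₂ : M₂.IsPrime) (hn0 : n ≠ ⊥) (hn₁ : n ≤ M₁) (hn₂ : n ≤ M₂)
    (hP₁ : M₁.comap (algebraMap R T) ∈ PP) (hP₂ : M₂.comap (algebraMap R T) ∈ PP) :
    M₁ ≤ M₂ ∨ M₂ ≤ M₁ := by
  letI : CompatibleRing (T ⧸ n) := compatibleRingOfRing _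
  have hNq := nip_quotient hN n
  have hsurj : Function.Surjective (Ideal.Quotient.mk n) := Ideal.Quotient.mk_surjective
  have hc₁ : (M₁.map (Ideal.Quotient.mk n)).comap (Ideal.Quotient.mk n) = M₁ :=
    Ideal.comap_map_mk hn₁
  have hc₂ : (M₂.map (Ideal.Quotient.mk n)).comap (Ideal.Quotient.mk n) = M₂ :=
    Ideal.comap_map_mk hn₂
  have hp₁ : (M₁.map (Ideal.Quotient.mk n)).IsPrime :=
    Ideal.map_isPrime_of_surjective hsurj (by rw [Ideal.mk_ker]; exact hn₁)
  have hp₂ : (M₂.map (Ideal.Quotient.mk n)).IsPrime :=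
    Ideal.map_isPrime_of_surjective hsurj (by rw [Ideal.mk_ker]; exact hn₂)
  have ht : ∀ J : Ideal (T ⧸ n), J.comap (algebraMap R (T ⧸ n))
      = (J.comap (Ideal.Quotient.mk n)).comap (algebraMap R T) := fun J => rfl
  have hnp : (n.comap (algebraMap R T)).IsPrime := Ideal.comap_isPrime _ n
  have hnPP : n.comap (algebraMap R T) ∈ PP := hlow _ hP₁ _ hnp (Ideal.comap_mono hn₁)
  have hlt : q < n.comap (algebraMap R T) := by
    have h3 : (⊥ : Ideal T).comap (algebraMap R T) < n.comap (algebraMap R T) :=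
      Ideal.IsIntegral.comap_lt_comap (bot_lt_iff_ne_bot.2 hn0)
    have h4 : (⊥ : Ideal T).comap (algebraMap R T) = q := by
      ext a
      rw [Ideal.mem_comap, Ideal.mem_bot, hker]
    rwa [h4] at h3
  rcases ih _ hnPP hlt (T ⧸ n) hNq (fun a => by
      rw [Ideal.mem_comap, ← Ideal.Quotient.eq_zero_iff_mem]
      rfl) (M₁.map (Ideal.Quotient.mk n)) (M₂.map (Ideal.Quotient.mk n)) hp₁ hp₂
    (by rw [ht, hc₁]; exact hP₁) (by rw [ht, hc₂]; exact hP₂) with h3 | h3
  · left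
    rw [← hc₁, ← hc₂]
    exact Ideal.comap_mono h3
  · right
    rw [← hc₁, ← hc₂]
    exact Ideal.comap_mono h3

/-- every prime with trace in `PP` is finitely branched. -/
theorem sa_fin82 (hlow : ∀ P ∈ PP, ∀ q : Ideal R, q.IsPrime → q ≤ P → q ∈ PP) {q : Ideal R}
    (ih : ∀ q' ∈ PP, q < q' → SA R PP q') {T K : Type} [CommRing T] [IsDomain T]
    [CompatibleRing T] [Algebra R T] [Module.Finite R T] [Field K] [Algebra T K]
    [IsFractionRing T K] (hN : NIPRing T)
    (hker : ∀ a : R, algebraMap R T a = 0 ↔ a ∈ q) (p : Ideal T)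
    (hpP : p.comap (algebraMap R T) ∈ PP) :
    {N : Ideal (integralClosure T K) | Over p N}.Finite := by
  refine finite_branches2 (bs_of_div (nip_div hN)) p ?_
  intro T' hfin M₁ M₂ h₁ h₂ hne ho₁ ho₂ n hn hn₁ hn₂
  by_contra hn0
  letI : CompatibleRing T' := compatibleRingOfRing _
  have hNT : NIPRing T' := nip_subalgebra T' hN
  letI algRT : Algebra R T' := ((algebraMap T T').comp (algebraMap R T)).toAlgebra
  haveI : IsScalarTower R T T' := IsScalarTower.of_algebraMap_eq fun a => rfl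
  haveI : Module.Finite R T' := Module.Finite.trans T T'
  have hinj : Function.Injective (algebraMap T T') := by
    intro x y hxy
    exact IsFractionRing.injective T K (congrArg Subtype.val hxy)
  have ht : ∀ J : Ideal T', J.comap (algebraMap R T')
      = (J.comap (algebraMap T T')).comap (algebraMap R T) := fun J => rfl
  have hc₁ := comap_eq_of_over82 p M₁ ho₁
  have hc₂ := comap_eq_of_over82 p M₂ ho₂
  rcases sa_key82 hlow ih hNT (fun a => by
      rw [← hker]
      change algebraMap T T' (algebraMap R T a) = 0 ↔ _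
      rw [map_eq_zero_iff _ hinj]) n M₁ M₂ hn h₁ h₂ hn0 hn₁ hn₂
    (by rw [ht, hc₁]; exact hpP) (by rw [ht, hc₂]; exact hpP) with h3 | h3
  · exact hne (eq_of_le_over82 p M₁ M₂ ho₁ ho₂ h3)
  · exact hne (eq_of_le_over82 p M₂ M₁ ho₂ ho₁ h3).symm

end induction

/-- the localization at the complement of `P ∪ Q` as a subring of the fraction field. -/
def locRing82 {R K : Type} [CommRing R] [Field K] [Algebra R K] (P Q : Ideal R) [hP : P.IsPrime]
    [hQ : Q.IsPrime] : Subring K where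
  carrier := LocSet P Q K
  mul_mem' := by
    rintro x y ⟨t, s, h1, h2, h3⟩ ⟨t', s', h1', h2', h3'⟩
    refine ⟨t * t', s * s', fun h => ?_, fun h => ?_, ?_⟩
    · exact (hP.mem_or_mem h).elim h1 h1'
    · exact (hQ.mem_or_mem h).elim h2 h2'
    · rw [map_mul, map_mul, ← h3, ← h3']; ring
  one_mem' := ⟨1, 1, fun h => hP.ne_top ((Ideal.eq_top_iff_one _).2 h),
    fun h => hQ.ne_top ((Ideal.eq_top_iff_one _).2 h), one_mul _⟩
  add_mem' := by
    rintro x y ⟨t, s, h1, h2, h3⟩ ⟨t', s', h1', h2', h3'⟩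
    refine ⟨t * s' + t' * s, s * s', fun h => ?_, fun h => ?_, ?_⟩
    · exact (hP.mem_or_mem h).elim h1 h1'
    · exact (hQ.mem_or_mem h).elim h2 h2'
    · rw [map_mul, map_add, map_mul, map_mul, ← h3, ← h3']; ring
  zero_mem' := ⟨0, 1, fun h => hP.ne_top ((Ideal.eq_top_iff_one _).2 h),
    fun h => hQ.ne_top ((Ideal.eq_top_iff_one _).2 h), by rw [zero_mul, map_zero]⟩
  neg_mem' := by
    rintro x ⟨t, s, h1, h2, h3⟩
    exact ⟨-t, s, h1, h2, by rw [map_neg, ← h3]; ring⟩

/-- hypothesis for the unbounded half (helper55). -/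
def UnboundedDense : Prop :=
  ∀ {R K : Type} [CommRing R] [IsDomain R] [Field K] [Algebra R K] [IsFractionRing R K]
    (P Q : Ideal R) [P.IsPrime] [Q.IsPrime] (_ : ¬ P ≤ Q) (_ : ¬ Q ≤ P)
    (O : ValuationSubring K) (_ : O ≠ ⊤) (_ : HenselianLocalRing O)
    (_ : ¬ ∃ a : K, a ≠ 0 ∧ ∀ x ∈ LocSet P Q K, a * x ∈ O), DenseSet (LocSet P Q K)

/-- **the induction**. -/
theorem sA_all82 (hunb : UnboundedDense)
    {R : Type} [CommRing R] (PP : Set (Ideal R))
    (hlow : ∀ P ∈ PP, ∀ q : Ideal R, q.IsPrime → q ≤ P → q ∈ PP)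
    (hacc : PP.WellFoundedOn (· > ·)) (hB : ∀ P ∈ PP, HBelow P) :
    ∀ q ∈ PP, SA R PP q := by
  intro q₀ hq₀
  refine hacc.induction (P := fun q => SA R PP q) hq₀ ?_
  intro q _ ih'
  have ih : ∀ q' ∈ PP, q < q' → SA R PP q' := fun q' h1 h2 => ih' q' h1 h2
  intro T _ _ _ _ _ hN hker P Q hP hQ hPP hQP
  by_contra hcon
  push Not at hcon
  obtain ⟨hPQ, hQP'⟩ := hcon
  have hP0 : P ≠ ⊥ := by
    rintro rfl
    exact hPQ bot_le
  have hBP : HBelow P := HBelow.ext94 (R := R) P (hB _ hPP)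
  obtain ⟨K₁, _, _, _, O, hO, hOh⟩ := hBP.fractionRing (K := FractionRing T) hP0
  letI algTK : Algebra T K₁ :=
    ((algebraMap (FractionRing T) K₁).comp (algebraMap T (FractionRing T))).toAlgebra
  haveI : IsScalarTower T (FractionRing T) K₁ := IsScalarTower.of_algebraMap_eq fun a => rfl
  obtain ⟨T₀, hfin₀, hfr₀⟩ := exists_order82 (R := T) (K := FractionRing T) (F := K₁)
  letI : CompatibleRing T₀ := compatibleRingOfRing _
  have hN₀ : NIPRing T₀ := nip_subalgebra_plus34 (K := FractionRing T) T₀ hN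
  have hinjTK : Function.Injective (algebraMap T K₁) :=
    (algebraMap (FractionRing T) K₁).injective.comp (IsFractionRing.injective T (FractionRing T))
  have hinj : Function.Injective (algebraMap T T₀) := by
    intro x y hxy
    exact hinjTK (congrArg Subtype.val hxy)
  letI algRT : Algebra R T₀ := ((algebraMap T T₀).comp (algebraMap R T)).toAlgebra
  haveI : IsScalarTower R T T₀ := IsScalarTower.of_algebraMap_eq fun a => rfl
  haveI : Module.Finite R T₀ := Module.Finite.trans T T₀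
  have hker₀ : ∀ a : R, algebraMap R T₀ a = 0 ↔ a ∈ q := fun a => by
    rw [← hker]
    change algebraMap T T₀ (algebraMap R T a) = 0 ↔ _
    rw [map_eq_zero_iff _ hinj]
  obtain ⟨P₀, hP₀p, hP₀⟩ := exists_prime_over (R := T) (T := T₀) hinj P
  obtain ⟨Q₀, hQ₀p, hQ₀⟩ := exists_prime_over (R := T) (T := T₀) hinj Q
  have ht : ∀ J : Ideal T₀, J.comap (algebraMap R T₀)
      = (J.comap (algebraMap T T₀)).comap (algebraMap R T) := fun J => rfl
  have hcP := comap_eq_of_over82 P P₀ hP₀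
  have hcQ := comap_eq_of_over82 Q Q₀ hQ₀
  have hPP₀ : P₀.comap (algebraMap R T₀) ∈ PP := by rw [ht, hcP]; exact hPP
  have hQP₀ : Q₀.comap (algebraMap R T₀) ∈ PP := by rw [ht, hcQ]; exact hQP
  have hPQ₀ : ¬ P₀ ≤ Q₀ := fun h => hPQ (by rw [← hcP, ← hcQ]; exact Ideal.comap_mono h)
  have hQP₀' : ¬ Q₀ ≤ P₀ := fun h => hQP' (by rw [← hcP, ← hcQ]; exact Ideal.comap_mono h)
  have hno : ∀ n : Ideal T₀, n.IsPrime → n ≤ P₀ → n ≤ Q₀ → n = ⊥ := by
    intro n hn h1 h2
    by_contra hn0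
    rcases sa_key82 hlow ih hN₀ hker₀ n P₀ Q₀ hn hP₀p hQ₀p hn0 h1 h2 hPP₀ hQP₀ with h3 | h3
    · exact hPQ₀ h3
    · exact hQP₀' h3
  have hfin : ∀ p : Ideal T₀, p.IsPrime → (p ≤ P₀ ∨ p ≤ Q₀) →
      {N : Ideal (integralClosure T₀ K₁) | Over p N}.Finite := by
    intro p hp hle
    have hpc : (p.comap (algebraMap R T₀)).IsPrime := Ideal.comap_isPrime _ p
    have hpPP : p.comap (algebraMap R T₀) ∈ PP := by
      rcases hle with h | h
      · exact hlow _ hPP₀ _ hpc (Ideal.comap_mono h)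
      · exact hlow _ hQP₀ _ hpc (Ideal.comap_mono h)
    exact sa_fin82 hlow ih hN₀ hker₀ p hpPP
  by_cases hb : ∃ a : K₁, a ≠ 0 ∧ ∀ x ∈ LocSet P₀ Q₀ K₁, a * x ∈ O
  · obtain ⟨a, ha, haL⟩ := hb
    obtain ⟨O', hO', hO'h, -, hLO⟩ := exists_coarse38 O hO hOh (locRing82 (K := K₁) P₀ Q₀) a ha haL
    refine bounded_half82 hN₀ P₀ Q₀ hPQ₀ hQP₀' hno hfin O' hO' hO'h ?_
    intro t s hsP hsQ
    refine hLO _ ⟨t, s, hsP, hsQ, ?_⟩
    have hs0 : algebraMap T₀ K₁ s ≠ 0 := by
      intro h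
      have h1 : s = 0 := IsFractionRing.injective T₀ K₁ (by rw [h, map_zero])
      rw [h1] at hsP
      exact hsP P₀.zero_mem
    exact div_mul_cancel₀ _ hs0
  · have hD := hunb P₀ Q₀ hPQ₀ hQP₀' O hO hOh hb
    rcases theoremT hN₀ P₀ Q₀ (hfin P₀ hP₀p (Or.inl le_rfl))
      (hfin Q₀ hQ₀p (Or.inr le_rfl)) hD with h3 | h3
    · exact hPQ₀ h3
    · exact hQP₀' h3

end Pool.Agent.AIC
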