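import Pool.Agent.AIC.Branch46
import Pool.Agent.AIC.HenselPlus32

/-! MP_313bb4: Theorem P for a prime with finitely many branches, no root of unity. -/

set_option autoImplicit false

namespace Pool.Agent.AIC

open Finset Polynomial IsLocalRing

/-- one of the primes 2, 3, 5 is outside both primes -/
theorem exists_q_prime {R : Type} [CommRing R] (m₁ m₂ : Ideal R) (h1 : m₁.IsPrime)
    (h2 : m₂.IsPrime) : ∃ q : ℕ, q.Prime ∧ (q : R) ∉ m₁ ∧ (q : R) ∉ m₂ := by
  have key : ∀ m : Ideal R, m.IsPrime →
      ¬ ((2 : R) ∈ m ∧ (3 : R) ∈ m) ∧ ¬ ((2 : R) ∈ m ∧ (5 : R) ∈ m) ∧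
      ¬ ((3 : R) ∈ m ∧ (5 : R) ∈ m) := by
    intro m hm
    have hne := hm.ne_top
    refine ⟨fun h => hne ?_, fun h => hne ?_, fun h => hne ?_⟩
    · rw [Ideal.eq_top_iff_one]
      have := sub_mem h.2 h.1
      norm_num at this
      exact this
    · rw [Ideal.eq_top_iff_one]
      have := sub_mem h.2 (Ideal.mul_mem_left m 2 h.1)
      norm_num at this
      exact this
    · rw [Ideal.eq_top_iff_one]
      have := sub_mem (Ideal.mul_mem_left m 2 h.1) h.2
      norm_num at this
      exact this
  have k1 := key m₁ h1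
  have k2 := key m₂ h2
  by_cases a2 : (2 : R) ∈ m₁ ∨ (2 : R) ∈ m₂
  · by_cases a3 : (3 : R) ∈ m₁ ∨ (3 : R) ∈ m₂
    · refine ⟨5, by norm_num, ?_, ?_⟩
      · intro h5
        rw [Nat.cast_ofNat] at h5
        tauto
      · intro h5
        rw [Nat.cast_ofNat] at h5
        tauto
    · push Not at a3
      exact ⟨3, by norm_num, by rw [Nat.cast_ofNat]; exact a3.1, by rw [Nat.cast_ofNat]; exact a3.2⟩
  · push Not at a2
    exact ⟨2, by norm_num, by rw [Nat.cast_ofNat]; exact a2.1, by rw [Nat.cast_ofNat]; exact a2.2⟩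

/-- uniqueness of the prime over `P` in a field extension, when `R_P` has a local closure -/
theorem unique_over_of_hens
    (hplus : ∀ (A W : Type) [CommRing A] [IsDomain A] [Field W] [IsAlgClosed W] [Algebra A W]
      [FaithfulSMul A W], HenselianLocalRing A → IsLocalRing (integralClosure A W))
    {R W : Type} [CommRing R] [IsDomain R] [Field W] [IsAlgClosed W] [Algebra R W]
    (hinjW : Function.Injective (algebraMap R W)) (P : Ideal R) [hP : P.IsPrime]
    (hH : HenselianLocalRing (Localization.AtPrime P)) :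
    ∀ N N' : Ideal (integralClosure R W), Over P N → Over P N' → N = N' := by
  haveI : FaithfulSMul R W := (faithfulSMul_iff_algebraMap_injective _ _).mpr hinjW
  obtain ⟨alg, htow, hinjA⟩ := exists_algebra_loc (T := R) (F := W) P
  haveI : FaithfulSMul (Localization.AtPrime P) W :=
    (faithfulSMul_iff_algebraMap_injective _ _).mpr hinjA
  haveI : IsDomain (Localization.AtPrime P) :=
    IsLocalization.isDomain_localization P.primeCompl_le_nonZeroDivisors
  exact unique_of_local P (Localization.AtPrime P) hinjW (hplus _ _ hH)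

/-- one step: through a finite Galois extension which contains a root of unity -/
theorem comparable_step
    (core : ∀ (T : Type) [CommRing T] [IsDomain T] [FirstOrder.Ring.CompatibleRing T],
      NIPRing T → ∀ (P Q : Ideal T) [P.IsPrime] [Q.IsPrime], Infinite (T ⧸ P) → Infinite (T ⧸ Q) →
      HenselianLocalRing (Localization.AtPrime P) →
      IsLocalRing (integralClosure (Localization.AtPrime Q) (FractionRing T)) →
      (∃ q : ℕ, q.Prime ∧ (q : T) ∉ P ∧ (q : T) ∉ Q ∧
        ∃ ζ : T, ∑ j ∈ Finset.range q, ζ ^ j = 0) → P ≤ Q ∨ Q ≤ P)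
    (hplus : ∀ (A W : Type) [CommRing A] [IsDomain A] [Field W] [IsAlgClosed W] [Algebra A W]
      [FaithfulSMul A W], HenselianLocalRing A → IsLocalRing (integralClosure A W))
    {R : Type} [CommRing R] [IsDomain R] [FirstOrder.Ring.CompatibleRing R] (hN : NIPRing R)
    (P Q : Ideal R) [hP : P.IsPrime] [hQ : Q.IsPrime] (hiP : Infinite (R ⧸ P))
    (hiQ : Infinite (R ⧸ Q)) (hH : HenselianLocalRing (Localization.AtPrime P))
    (hfin : {N : Ideal (integralClosure R (FractionRing R)) | Over Q N}.Finite)
    (q : ℕ) (hq : q.Prime) (hqP : (q : R) ∉ P) (hqQ : (q : R) ∉ Q)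
    (F : Type) [Field F] [Algebra (FractionRing R) F] [Algebra R F]
    [IsScalarTower R (FractionRing R) F] [FiniteDimensional (FractionRing R) F]
    [IsGalois (FractionRing R) F] (W : Type) [Field W] [IsAlgClosed W] [Algebra F W] [Algebra R W]
    [IsScalarTower R F W] (ζ : F) (hζi : IsIntegral R ζ) (hζs : ∑ j ∈ range q, ζ ^ j = 0) :
    P ≤ Q ∨ Q ≤ P := by
  have hinjK : Function.Injective (algebraMap R (FractionRing R)) := IsFractionRing.injective R _
  have hinjF : Function.Injective (algebraMap R F) := by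
    rw [IsScalarTower.algebraMap_eq R (FractionRing R) F]
    exact (algebraMap (FractionRing R) F).injective.comp hinjK
  have hinjW : Function.Injective (algebraMap R W) := by
    rw [IsScalarTower.algebraMap_eq R F W]
    exact (algebraMap F W).injective.comp hinjF
  have huP := unique_over_of_hens hplus (W := W) hinjW P hH
  obtain ⟨T, hTfin, hζT, P', Q', hP'p, hQ'p, hP'P, hQ'Q, hHT, hUT⟩ :=
    exists_ext_good P Q F W huP hfin ζ hζi
  letI : FirstOrder.Ring.CompatibleRing T := FirstOrder.Ring.compatibleRingOfRing T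
  have hNT : NIPRing T := nip_subalgebra_plus (K := FractionRing R) T hN
  have hinf : ∀ (I : Ideal R) (I' : Ideal T), (∀ r : R, algebraMap R T r ∈ I' ↔ r ∈ I) →
      Infinite (R ⧸ I) → Infinite (T ⧸ I') := by
    intro I I' hI hi
    have hle : I ≤ I'.comap (algebraMap R T) := fun r hr => (hI r).mpr hr
    have hinj : Function.Injective (Ideal.quotientMap I' (algebraMap R T) hle) := by
      apply Ideal.quotientMap_injective'
      intro x hx
      exact (hI x).mp hx
    exact Infinite.of_injective _ hinj
  have hres := core T hNT P' Q' (hinf P P' hP'P hiP) (hinf Q Q' hQ'Q hiQ) hHT hUT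
    ⟨q, hq, fun h => hqP ((hP'P _).mp (by rwa [map_natCast])),
      fun h => hqQ ((hQ'Q _).mp (by rwa [map_natCast])), ⟨ζ, hζT⟩, by
        apply Subtype.ext
        have h1 : ((∑ j ∈ range q, (⟨ζ, hζT⟩ : T) ^ j : T) : F) = ∑ j ∈ range q, ζ ^ j := by
          simp
        rw [h1, hζs]
        rfl⟩
  rcases hres with h | h
  · left
    intro x hx
    exact (hQ'Q x).mp (h ((hP'P x).mpr hx))
  · right
    intro x hx
    exact (hP'P x).mp (h ((hQ'Q x).mpr hx))

/-- reduction: from the comparability of primes (henselian, unibranch) in domains with enough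
roots of unity to primes with finitely many branches -/
theorem comparable_of_core
    (core : ∀ (T : Type) [CommRing T] [IsDomain T] [FirstOrder.Ring.CompatibleRing T],
      NIPRing T → ∀ (P Q : Ideal T) [P.IsPrime] [Q.IsPrime], Infinite (T ⧸ P) → Infinite (T ⧸ Q) →
      HenselianLocalRing (Localization.AtPrime P) →
      IsLocalRing (integralClosure (Localization.AtPrime Q) (FractionRing T)) →
      (∃ q : ℕ, q.Prime ∧ (q : T) ∉ P ∧ (q : T) ∉ Q ∧
        ∃ ζ : T, ∑ j ∈ Finset.range q, ζ ^ j = 0) → P ≤ Q ∨ Q ≤ P)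
    (hplus : ∀ (A W : Type) [CommRing A] [IsDomain A] [Field W] [IsAlgClosed W] [Algebra A W]
      [FaithfulSMul A W], HenselianLocalRing A → IsLocalRing (integralClosure A W))
    (R : Type) [CommRing R] [IsDomain R] [FirstOrder.Ring.CompatibleRing R] (hN : NIPRing R)
    (P Q : Ideal R) [hP : P.IsPrime] [hQ : Q.IsPrime] (hiP : Infinite (R ⧸ P))
    (hiQ : Infinite (R ⧸ Q)) (hH : HenselianLocalRing (Localization.AtPrime P))
    (hfin : {N : Ideal (integralClosure R (FractionRing R)) | Over Q N}.Finite) :
    P ≤ Q ∨ Q ≤ P := by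
  obtain ⟨q, hq, hqP, hqQ⟩ := exists_q_prime P Q hP hQ
  have hinjK : Function.Injective (algebraMap R (FractionRing R)) := IsFractionRing.injective R _
  have hqR : (q : R) ≠ 0 := fun h => hqP (h ▸ P.zero_mem)
  haveI : NeZero q := ⟨hq.ne_zero⟩
  haveI : NeZero ((q : ℕ) : FractionRing R) := ⟨fun h => hqR (hinjK (by
    rw [map_natCast, h, map_zero]))⟩
  haveI : IsGalois (FractionRing R) (CyclotomicField q (FractionRing R)) :=
    IsCyclotomicExtension.isGalois {q} (FractionRing R) (CyclotomicField q (FractionRing R))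
  haveI : FiniteDimensional (FractionRing R) (CyclotomicField q (FractionRing R)) :=
    IsCyclotomicExtension.finiteDimensional {q} (FractionRing R)
      (CyclotomicField q (FractionRing R))
  obtain ⟨ζ, hζp⟩ : ∃ ζ : CyclotomicField q (FractionRing R), IsPrimitiveRoot ζ q :=
    (CyclotomicField.isCyclotomicExtension q (FractionRing R)).exists_isPrimitiveRoot
      (Set.mem_singleton q) hq.ne_zero
  have hζs : ∑ j ∈ range q, ζ ^ j = 0 := hζp.geom_sum_eq_zero hq.one_lt
  have hζi : IsIntegral R ζ := by
    refine ⟨X ^ q - C 1, monic_X_pow_sub_C 1 hq.ne_zero, ?_⟩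
    rw [eval₂_sub, eval₂_X_pow, eval₂_C, map_one, hζp.pow_eq_one, sub_self]
  exact comparable_step core hplus hN P Q hiP hiQ hH hfin q hq hqP hqQ
    (CyclotomicField q (FractionRing R))
    (AlgebraicClosure (CyclotomicField q (FractionRing R))) ζ hζi hζs

/-- Theorem Q: in an NIP domain, a prime `P` with infinite residue field and henselian
localization is comparable with every prime `Q` with infinite residue field such that the
integral closure of `R` in its fraction field has only finitely many primes over `Q`. -/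
theorem theoremQ (R : Type) [CommRing R] [IsDomain R] [FirstOrder.Ring.CompatibleRing R]
    (hN : NIPRing R) (P Q : Ideal R) [hP : P.IsPrime] [hQ : Q.IsPrime] (hiP : Infinite (R ⧸ P))
    (hiQ : Infinite (R ⧸ Q)) (hH : HenselianLocalRing (Localization.AtPrime P))
    (hfin : {N : Ideal (integralClosure R (FractionRing R)) | Over Q N}.Finite) :
    P ≤ Q ∨ Q ≤ P :=
  comparable_of_core
    (fun T _ _ _ hT P Q _ _ h1 h2 h3 h4 h5 => theoremP T hT P Q h1 h2 h3 (Or.inl h4) h5)
    (fun A W _ _ _ _ _ _ h => closure_local_of_henselian) R hN P Q hiP hiQ hH hfin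

end Pool.Agent.AIC
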