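import Pool.Agent.AIC.Dense46
import Pool.Agent.AIC.HenselPlus32
import Pool.Agent.AIC.Star34

/-!
# Density of unbounded semilocal domains

MP_313bb4, stage 8, row T2.
-/

set_option autoImplicit false
set_option linter.unusedSectionVars false

namespace Pool.Agent.AIC

open Finset Polynomial IsLocalRing

section Valued55

variable {R K : Type} [CommRing R] [IsDomain R] [Field K] [Algebra R K] [IsFractionRing R K]

/-- a nonzero element of the Jacobson radical of a semilocal domain, not a field. -/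
theorem exists_jac55 (hR : ¬ IsField R) (hfin : {M : Ideal R | M.IsMaximal}.Finite) :
    ∃ j : R, j ≠ 0 ∧ ∀ M : Ideal R, M.IsMaximal → j ∈ M := by
  classical
  have h1 : ∀ M : Ideal R, ∃ x : R, x ≠ 0 ∧ (M.IsMaximal → x ∈ M) := by
    intro M
    by_cases hM : M.IsMaximal
    · have hM0 : M ≠ ⊥ := Ring.ne_bot_of_isMaximal_of_not_isField hM hR
      obtain ⟨x, hx, hx0⟩ := Submodule.exists_mem_ne_zero_of_ne_bot hM0
      exact ⟨x, hx0, fun _ => hx⟩
    · exact ⟨1, one_ne_zero, fun h => absurd h hM⟩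
  choose x hx0 hx using h1
  refine ⟨∏ M ∈ hfin.toFinset, x M, Finset.prod_ne_zero_iff.2 fun M _ => hx0 M, fun M hM => ?_⟩
  exact Ideal.mem_of_dvd _ (Finset.dvd_prod_of_mem x (hfin.mem_toFinset.2 hM)) (hx M hM)

/-- an element lying exactly in the maximal ideals that do not contain `y`. -/
theorem exists_flip55 (hfin : {M : Ideal R | M.IsMaximal}.Finite) (y : R) :
    ∃ e : R, ∀ M : Ideal R, M.IsMaximal → (e ∈ M ↔ y ∉ M) := by
  classical
  have : Finite {M : Ideal R | M.IsMaximal} := hfin
  obtain ⟨e, he⟩ := Ideal.exists_forall_sub_mem_ideal (R := R)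
    (I := fun M : {M : Ideal R | M.IsMaximal} => (M : Ideal R)) (fun M N hMN => by
      have hM' : (M : Ideal R).IsMaximal := M.2
      have hN' : (N : Ideal R).IsMaximal := N.2
      exact Ideal.isCoprime_of_isMaximal fun h => hMN (Subtype.ext h))
    (fun M => if y ∈ (M : Ideal R) then 1 else 0)
  refine ⟨e, fun M hM => ?_⟩
  have h1 := he ⟨M, hM⟩
  simp only at h1
  by_cases hy : y ∈ M
  · simp only [hy, if_true] at h1
    simp only [hy, not_true, iff_false]
    intro h2
    exact hM.ne_top ((Ideal.eq_top_iff_one _).2 (by simpa using Ideal.sub_mem _ h2 h1))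
  · simp only [hy, if_false, sub_zero] at h1
    simp [hy, h1]

theorem isUnit_of_forall55 {x : R} (h : ∀ M : Ideal R, M.IsMaximal → x ∉ M) : IsUnit x := by
  by_contra hn
  obtain ⟨M, hM, hx⟩ := exists_max_ideal_of_mem_nonunits (mem_nonunits_iff.2 hn)
  exact h M hM hx

/-- a semilocal domain which is not a field and unbounded for a valuation ring `O` of its
fraction field contains arbitrarily small units. -/
theorem exists_small_unit55 (hR : ¬ IsField R) (hfin : {M : Ideal R | M.IsMaximal}.Finite)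
    (O : ValuationSubring K)
    (hun : ∀ a : K, a ≠ 0 → ∃ r : R, ∀ b : O, algebraMap R K r ≠ a * (b : K))
    (δ : K) (hδ : δ ≠ 0) : ∃ w : R, IsUnit w ∧ O.valuation (algebraMap R K w) ≤ O.valuation δ := by
  have hinj : Function.Injective (algebraMap R K) := IsFractionRing.injective R K
  obtain ⟨j, hj0, hj⟩ := exists_jac55 hR hfin
  have hjK : algebraMap R K j ≠ 0 := fun h => hj0 (hinj (by rw [h, map_zero]))
  -- reduce to `v δ ≤ 1`
  wlog hδ1 : O.valuation δ ≤ 1 generalizing δ
  · obtain ⟨w, hw, hw1⟩ := this 1 one_ne_zero (by rw [map_one])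
    exact ⟨w, hw, hw1.trans (by rw [map_one]; exact (not_le.1 hδ1).le)⟩
  obtain ⟨s, hs⟩ := hun (δ⁻¹ * (algebraMap R K j)⁻¹) (mul_ne_zero (inv_ne_zero hδ) (inv_ne_zero hjK))
  have hs1 : 1 < O.valuation (δ * algebraMap R K (j * s)) := by
    by_contra hle
    rw [not_lt, O.valuation_le_one_iff] at hle
    refine hs ⟨_, hle⟩ ?_
    show _ = δ⁻¹ * (algebraMap R K j)⁻¹ * (δ * algebraMap R K (j * s))
    rw [map_mul]
    field_simp
  have hu : IsUnit (1 + j * s) := by
    apply isUnit_of_forall55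
    intro M hM h
    apply hM.ne_top
    rw [Ideal.eq_top_iff_one]
    have := Ideal.sub_mem _ h (Ideal.mul_mem_right s _ (hj M hM))
    simpa using this
  obtain ⟨w, hw⟩ := hu
  refine ⟨(w⁻¹ : Rˣ), Units.isUnit _, ?_⟩
  have h1 : algebraMap R K ((w⁻¹ : Rˣ) : R) * algebraMap R K (1 + j * s) = 1 := by
    rw [← hw, ← map_mul, Units.inv_mul, map_one]
  have h2 : O.valuation (δ * algebraMap R K (1 + j * s)) =
      O.valuation (δ * algebraMap R K (j * s)) := by
    rw [map_add, map_one, mul_add, mul_one]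
    exact Valuation.map_add_eq_of_lt_right _ (lt_of_le_of_lt hδ1 hs1)
  have h3 : O.valuation (algebraMap R K ((w⁻¹ : Rˣ) : R)) * O.valuation (δ * algebraMap R K (1 + j * s))
      = O.valuation δ := by
    rw [← map_mul]
    congr 1
    linear_combination δ * h1
  rw [← h3, h2]
  exact le_mul_of_one_le_right' hs1.le

/-- T2 (a): density for a nontrivial valuation ring of the fraction field. -/
theorem dense_of_valuation55 (hR : ¬ IsField R) (hfin : {M : Ideal R | M.IsMaximal}.Finite)
    (O : ValuationSubring K)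
    (hun : ∀ a : K, a ≠ 0 → ∃ r : R, ∀ b : O, algebraMap R K r ≠ a * (b : K))
    (x a : K) (ha : a ≠ 0) : ∃ (r : R) (b : O), x = algebraMap R K r + a * (b : K) := by
  have hinj : Function.Injective (algebraMap R K) := IsFractionRing.injective R K
  obtain ⟨x, y, hy, rfl⟩ := IsFractionRing.div_surjective (A := R) x
  have hy0 : y ≠ 0 := nonZeroDivisors.ne_zero hy
  have hyK : algebraMap R K y ≠ 0 := fun h => hy0 (hinj (by rw [h, map_zero]))
  obtain ⟨e, he⟩ := exists_flip55 hfin y
  obtain ⟨t, ht⟩ := hun 1 one_ne_zero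
  have ht1 : 1 < O.valuation (algebraMap R K t) := by
    by_contra hle
    rw [not_lt, O.valuation_le_one_iff] at hle
    exact ht ⟨_, hle⟩ (one_mul _).symm
  have ht0 : algebraMap R K t ≠ 0 := by
    intro h
    rw [h, map_zero] at ht1
    exact absurd ht1 (not_lt.2 zero_le_one)
  set v := O.valuation with hv
  set X := algebraMap R K x with hX
  set Y := algebraMap R K y with hY
  set E := algebraMap R K e with hE
  set t' := algebraMap R K t with ht'
  -- the two smallness conditions
  have hsm : ∀ z c : K, c ≠ 0 → ∃ w : R, IsUnit w ∧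
      ∀ w' : R, v (algebraMap R K w') ≤ v (algebraMap R K w) → v (algebraMap R K w' * z) ≤ v c := by
    intro z c hc
    by_cases hz : z = 0
    · exact ⟨1, isUnit_one, fun w' _ => by rw [hz, mul_zero, map_zero]; exact zero_le⟩
    · obtain ⟨w, hw, hw1⟩ := exists_small_unit55 hR hfin O hun (c / z) (div_ne_zero hc hz)
      refine ⟨w, hw, fun w' hw' => ?_⟩
      have h1 : v (algebraMap R K w') ≤ v (c / z) := hw'.trans hw1
      calc v (algebraMap R K w' * z) = v (algebraMap R K w') * v z := map_mul _ _ _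
        _ ≤ v (c / z) * v z := mul_le_mul_left h1 _
        _ = v c := by rw [← map_mul, div_mul_cancel₀ _ hz]
  obtain ⟨w1, hw1, hw1'⟩ := hsm E (Y / t') (div_ne_zero hyK ht0)
  obtain ⟨w2, hw2, hw2'⟩ := hsm (X * E) (a * (Y * Y)) (mul_ne_zero ha (mul_ne_zero hyK hyK))
  obtain ⟨w, hw, hwa, hwb⟩ : ∃ w : R, IsUnit w ∧ v (algebraMap R K w * E) ≤ v (Y / t') ∧
      v (algebraMap R K w * (X * E)) ≤ v (a * (Y * Y)) := by
    rcases le_total (v (algebraMap R K w1)) (v (algebraMap R K w2)) with h | h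
    · exact ⟨w1, hw1, hw1' w1 le_rfl, hw2' w1 h⟩
    · exact ⟨w2, hw2, hw1' w2 h, hw2' w2 le_rfl⟩
  have hlt : v (algebraMap R K w * E) < v Y := by
    refine hwa.trans_lt ?_
    rw [map_div₀, div_lt_iff₀ (zero_lt_one.trans ht1)]
    have h0 : 0 < v Y := by
      rw [zero_lt_iff]
      exact (Valuation.ne_zero_iff _).2 hyK
    calc v Y = v Y * 1 := (mul_one _).symm
      _ < v Y * v t' := mul_lt_mul_of_pos_left ht1 h0
  have hu : IsUnit (y + w * e) := by
    apply isUnit_of_forall55
    intro M hM h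
    by_cases hyM : y ∈ M
    · have h1 : w * e ∈ M := by
        have := Ideal.sub_mem _ h hyM
        simpa using this
      rcases (hM.isPrime.mem_or_mem h1) with h2 | h2
      · exact hM.ne_top (Ideal.eq_top_of_isUnit_mem _ h2 hw)
      · exact ((he M hM).1 h2) hyM
    · have h1 : e ∈ M := (he M hM).2 hyM
      apply hyM
      have := Ideal.sub_mem _ h (Ideal.mul_mem_left _ w h1)
      simpa using this
  obtain ⟨u, hu⟩ := hu
  have h1 : algebraMap R K ((u⁻¹ : Rˣ) : R) * (Y + algebraMap R K w * E) = 1 := by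
    rw [hY, hE, ← map_mul, ← map_add, ← hu, ← map_mul, Units.inv_mul, map_one]
  have hvy : v (Y + algebraMap R K w * E) = v Y := Valuation.map_add_eq_of_lt_left _ hlt
  have hy'0 : Y + algebraMap R K w * E ≠ 0 := by
    intro h
    rw [h, mul_zero] at h1
    exact zero_ne_one h1
  have h2 : X / Y - X * algebraMap R K ((u⁻¹ : Rˣ) : R) =
      algebraMap R K w * (X * E) / (Y * (Y + algebraMap R K w * E)) := by
    rw [eq_comm, div_eq_iff (mul_ne_zero hyK hy'0)]
    have h3 : X / Y * Y = X := div_mul_cancel₀ _ hyK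
    linear_combination X * Y * h1 - (Y + algebraMap R K w * E) * h3
  have h3 : v ((X / Y - X * algebraMap R K ((u⁻¹ : Rˣ) : R)) / a) ≤ 1 := by
    rw [h2, map_div₀, map_div₀, map_mul v Y, hvy, ← map_mul v Y]
    have h4 : v a ≠ 0 := (Valuation.ne_zero_iff _).2 ha
    have h5 : v (Y * Y) ≠ 0 := (Valuation.ne_zero_iff _).2 (mul_ne_zero hyK hyK)
    rw [div_le_iff₀ (zero_lt_iff.2 h4), div_le_iff₀ (zero_lt_iff.2 h5), one_mul]
    exact hwb.trans_eq (map_mul v a (Y * Y))
  rw [hv, O.valuation_le_one_iff] at h3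
  refine ⟨x * ((u⁻¹ : Rˣ) : R), ⟨_, h3⟩, ?_⟩
  show X / Y = algebraMap R K (x * ((u⁻¹ : Rˣ) : R)) +
    a * ((X / Y - X * algebraMap R K ((u⁻¹ : Rˣ) : R)) / a)
  rw [mul_div_cancel₀ _ ha, map_mul]
  ring

/-- T2 (a): density in the form of `HasDense`. -/
theorem hasDense_of_valuation55 (hR : ¬ IsField R) (hfin : {M : Ideal R | M.IsMaximal}.Finite)
    (O : ValuationSubring K) (hh : HenselianLocalRing O) (hO : O ≠ ⊤)
    (hun : ∀ a : K, a ≠ 0 → ∃ r : R, ∀ b : O, algebraMap R K r ≠ a * (b : K)) :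
    HasDense R K := by
  refine ⟨O.toSubring, hh, inferInstanceAs (IsIntegrallyClosed O),
    inferInstanceAs (IsFractionRing O K), ?_, ?_⟩
  · intro hF
    apply hO
    have hF' : IsField O := hF
    rw [eq_top_iff]
    intro z _
    rcases O.mem_or_inv_mem z with h | h
    · exact h
    · by_cases hz : z = 0
      · rw [hz]; exact O.zero_mem
      · have h0 : (⟨z⁻¹, h⟩ : O) ≠ 0 := fun h1 => inv_ne_zero hz (congrArg Subtype.val h1)
        obtain ⟨c, hc⟩ := hF'.mul_inv_cancel h0
        have hc' : z⁻¹ * (c : K) = 1 := congrArg Subtype.val hc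
        have : z = c := by
          have h2 := inv_mul_cancel₀ hz
          have h3 : z⁻¹ * z = z⁻¹ * (c : K) := by rw [h2, hc']
          exact mul_left_cancel₀ (inv_ne_zero hz) h3
        rw [this]
        exact c.2
  · intro x a ha
    obtain ⟨r, b, hb⟩ := dense_of_valuation55 hR hfin O hun x (a : K)
      (fun h => ha (Subtype.ext h))
    exact ⟨r, b, hb⟩

end Valued55

end Pool.Agent.AIC
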