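import Pool.Agent.AIC.TheoremTF46
import Pool.Agent.AIC.Density55
import Pool.Agent.AIC.Coarse38

/-! MP_313bb4, stages 8 and 9: the dichotomy dense / bounded for the localization at the
complement of the union of two incomparable primes. -/

set_option autoImplicit false

namespace Pool.Agent.AIC

open Finset Polynomial IsLocalRing

attribute [local instance] isDomain_L

/-- the localization at the complement of `P ∪ Q` is dense or bounded -/
theorem dense_or_bounded46 {R K : Type} [CommRing R] [IsDomain R] [Field K] [Algebra R K]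
    [IsFractionRing R K] (P Q : Ideal R) [hP : P.IsPrime] [hQ : Q.IsPrime] (hPQ : ¬ P ≤ Q)
    (hQP : ¬ Q ≤ P) (O : ValuationSubring K) (hO : O ≠ ⊤) (hH : HenselianLocalRing O) :
    DenseSet (LocSet P Q K) ∨ ∃ a : K, a ≠ 0 ∧ ∀ x ∈ LocSet P Q K, a * x ∈ O := by
  classical
  have hinjK : Function.Injective (algebraMap R K) := IsFractionRing.injective R K
  have hu : ∀ s : Scomp P Q, IsUnit (algebraMap R K s) := by
    intro s
    rw [isUnit_iff_ne_zero]
    intro h
    have h1 : (s : R) = 0 := hinjK (by rw [h, map_zero])
    exact s.2.1 (h1 ▸ P.zero_mem)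
  let φ : Localization (Scomp P Q) →+* K := IsLocalization.lift (M := Scomp P Q) hu
  letI alg : Algebra (Localization (Scomp P Q)) K := φ.toAlgebra
  have hφ : ∀ x : R, φ (algebraMap R (Localization (Scomp P Q)) x) = algebraMap R K x :=
    fun x => IsLocalization.lift_eq hu x
  have htow : IsScalarTower R (Localization (Scomp P Q)) K :=
    IsScalarTower.of_algebraMap_eq fun x => (hφ x).symm
  have hfr : IsFractionRing (Localization (Scomp P Q)) K :=
    IsFractionRing.isFractionRing_of_isDomain_of_isLocalization (Scomp P Q)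
      (Localization (Scomp P Q)) K
  have hm1 := max_left P Q hPQ
  have hm2 := max_right P Q hQP
  have hall : ∀ M : Ideal (Localization (Scomp P Q)), M.IsMaximal →
      M = P.map (algebraMap R (Localization (Scomp P Q))) ∨
      M = Q.map (algebraMap R (Localization (Scomp P Q))) := by
    intro M hM
    rcases le_or_le P Q M hM.ne_top with h | h
    · exact Or.inl (hM.eq_of_le hm1.ne_top h)
    · exact Or.inr (hM.eq_of_le hm2.ne_top h)
  have hfin : {M : Ideal (Localization (Scomp P Q)) | M.IsMaximal}.Finite := by
    refine Set.Finite.subset (Set.toFinite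
      ({P.map (algebraMap R (Localization (Scomp P Q))),
        Q.map (algebraMap R (Localization (Scomp P Q)))} : Set (Ideal _))) ?_
    intro M hM
    rcases hall M hM with h | h
    · exact Or.inl h
    · exact Or.inr h
  have hnf : ¬ IsField (Localization (Scomp P Q)) := by
    intro hF
    letI := hF.toField
    have h1 : P.map (algebraMap R (Localization (Scomp P Q))) = ⊥ :=
      (Ideal.eq_bot_or_top _).resolve_right hm1.ne_top
    have h2 : Q.map (algebraMap R (Localization (Scomp P Q))) = ⊥ :=
      (Ideal.eq_bot_or_top _).resolve_right hm2.ne_top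
    exact ne_left_right P Q hPQ (h1.trans h2.symm)
  -- the image of the localization is the set
  have himg : ∀ r : Localization (Scomp P Q),
      algebraMap (Localization (Scomp P Q)) K r ∈ LocSet P Q K := by
    intro r
    obtain ⟨t, s, rfl⟩ := IsLocalization.exists_mk'_eq (Scomp P Q) r
    refine ⟨t, s, s.2.1, s.2.2, ?_⟩
    have h1 := congrArg (algebraMap (Localization (Scomp P Q)) K)
      (IsLocalization.mk'_spec (Localization (Scomp P Q)) t s)
    rwa [map_mul, ← IsScalarTower.algebraMap_apply, ← IsScalarTower.algebraMap_apply] at h1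
  have himg' : ∀ x ∈ LocSet P Q K, ∃ r : Localization (Scomp P Q),
      algebraMap (Localization (Scomp P Q)) K r = x := by
    rintro x ⟨t, s, h1, h2, h3⟩
    refine ⟨IsLocalization.mk' _ t (⟨s, h1, h2⟩ : Scomp P Q), ?_⟩
    have hs : algebraMap R K s ≠ 0 := (hu ⟨s, h1, h2⟩).ne_zero
    apply mul_right_cancel₀ hs
    have h4 := congrArg (algebraMap (Localization (Scomp P Q)) K)
      (IsLocalization.mk'_spec (Localization (Scomp P Q)) t (⟨s, h1, h2⟩ : Scomp P Q))
    rw [map_mul, ← IsScalarTower.algebraMap_apply, ← IsScalarTower.algebraMap_apply] at h4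
    rw [h3, ← h4]
  by_cases hun : ∀ a : K, a ≠ 0 → ∃ r : Localization (Scomp P Q), ∀ b : O,
      algebraMap (Localization (Scomp P Q)) K r ≠ a * (b : K)
  · left
    exact (hasDense_of_valuation55 hnf hfin O hH hO hun).denseSet himg
  · right
    push Not at hun
    obtain ⟨a, ha, hb⟩ := hun
    refine ⟨a⁻¹, inv_ne_zero ha, fun x hx => ?_⟩
    obtain ⟨r, rfl⟩ := himg' x hx
    obtain ⟨b, hb'⟩ := hb r
    rw [hb', ← mul_assoc, inv_mul_cancel₀ ha, one_mul]
    exact b.2

/-- **the dichotomy**: for a nontrivial henselian valuation ring `O` of the fraction field, the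
localization at the complement of `P ∪ Q` is dense or contained in a coarsening of `O`, which is
again nontrivial and henselian. -/
theorem locSet_cases46 {R K : Type} [CommRing R] [IsDomain R] [Field K] [Algebra R K]
    [IsFractionRing R K] (P Q : Ideal R) [hP : P.IsPrime] [hQ : Q.IsPrime] (hPQ : ¬ P ≤ Q)
    (hQP : ¬ Q ≤ P) (O : ValuationSubring K) (hO : O ≠ ⊤) (hH : HenselianLocalRing O) :
    DenseSet (LocSet P Q K) ∨ ∃ O' : ValuationSubring K, O' ≠ ⊤ ∧ HenselianLocalRing O' ∧
      O ≤ O' ∧ ∀ x ∈ LocSet P Q K, x ∈ O' := by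
  rcases dense_or_bounded46 P Q hPQ hQP O hO hH with h | ⟨a, ha, hb⟩
  · exact Or.inl h
  · right
    let L : Subring K :=
      { carrier := LocSet P Q K
        one_mem' := by
          have := locSet_algebraMap (F := K) hP hQ (1 : R)
          rwa [map_one] at this
        mul_mem' := fun hx hy => locSet_mul hP hQ hx hy
        zero_mem' := by
          have := locSet_algebraMap (F := K) hP hQ (0 : R)
          rwa [map_zero] at this
        add_mem' := fun hx hy => locSet_add hP hQ hx hy
        neg_mem' := fun {x} hx => by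
          have h1 := locSet_mul hP hQ (locSet_algebraMap (F := K) hP hQ (-1 : R)) hx
          rwa [map_neg, map_one, neg_one_mul] at h1 }
    exact exists_coarse38 O hO hH L a ha hb

/-- **the unbounded half**: two incomparable finitely branched primes give a coarsening which
contains the localization. -/
theorem bounded_of_incomparable46 {R K : Type} [CommRing R] [IsDomain R]
    [FirstOrder.Ring.CompatibleRing R] [Field K] [Algebra R K] [IsFractionRing R K]
    (hN : NIPRing R) (P Q : Ideal R) [hP : P.IsPrime] [hQ : Q.IsPrime] (hPQ : ¬ P ≤ Q)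
    (hQP : ¬ Q ≤ P) (hfinP : {N : Ideal (integralClosure R K) | Over P N}.Finite)
    (hfinQ : {N : Ideal (integralClosure R K) | Over Q N}.Finite)
    (O : ValuationSubring K) (hO : O ≠ ⊤) (hH : HenselianLocalRing O) :
    ∃ O' : ValuationSubring K, O' ≠ ⊤ ∧ HenselianLocalRing O' ∧ O ≤ O' ∧
      ∀ t s : R, s ∉ P → s ∉ Q → algebraMap R K t / algebraMap R K s ∈ O' := by
  have hinjK : Function.Injective (algebraMap R K) := IsFractionRing.injective R K
  rcases locSet_cases46 P Q hPQ hQP O hO hH with h | ⟨O', h1, h2, h3, h4⟩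
  · exact absurd (theoremT hN P Q hfinP hfinQ h) (by tauto)
  · refine ⟨O', h1, h2, h3, fun t s hs1 hs2 => h4 _ ⟨t, s, hs1, hs2, ?_⟩⟩
    have hs : algebraMap R K s ≠ 0 := by
      intro h
      have h5 : s = 0 := hinjK (by rw [h, map_zero])
      exact hs1 (h5 ▸ P.zero_mem)
    exact div_mul_cancel₀ _ hs

end Pool.Agent.AIC
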