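import Pool.Agent.AIC.TheoremF82
import Pool.Agent.AIC.Unbounded46

/-! MP_313bb4, stage 10: the unbounded half in the form of `TheoremF82`. -/

set_option autoImplicit false

namespace Pool.Agent.AIC

theorem unboundedDense46 : UnboundedDense := by
  intro R K _ _ _ _ _ P Q _ _ hPQ hQP O hO hH hun
  rcases dense_or_bounded46 P Q hPQ hQP O hO hH with h | h
  · exact h
  · exact absurd h hun

end Pool.Agent.AIC
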