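import Mathlib
import Pool.Agent.AIC.Central95
import Pool.Agent.AIC.LiftQ95
import Pool.Agent.AIC.MPlus82
import Pool.Agent.AIC.TheoremQ46
import Pool.Agent.AIC.HenselPlus32
import Pool.Agent.AIC.TheoremT46
import Pool.Agent.AIC.TheoremTF46
import Pool.Agent.AIC.TheoremF82
import Pool.Agent.AIC.UnbDense46

/-!
# The step of Theorem G

`FB95 R` : only finitely many primes of the integral closure lie over any prime of `R`.
If `FB95 R` and the fraction field is of henselian type, then two incomparable primes of an NIP
finite extension contain a nonzero central prime of `R`.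
-/

set_option autoImplicit false
set_option linter.style.haveILetI false

namespace Pool.Agent.AIC

open Polynomial IsLocalRing FirstOrder FirstOrder.Ring

/-- finite branching at all primes. -/
def FB95 (R : Type) [CommRing R] [IsDomain R] : Prop :=
  ∀ P : Ideal R, P.IsPrime →
    {N : Ideal (integralClosure R (FractionRing R)) | Over P N}.Finite

/-- finite branching in finite extensions, in any fraction field. -/
theorem FB95.ext {R : Type} [CommRing R] [IsDomain R] (h : FB95 R) {T : Type} [CommRing T]
    [IsDomain T] [Algebra R T] [Module.Finite R T] (hinj : Function.Injective (algebraMap R T))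
    (F : Type) [Field F] [Algebra T F] [IsFractionRing T F] (P : Ideal T) [P.IsPrime] :
    {N : Ideal (integralClosure T F) | Over P N}.Finite := by
  obtain ⟨alg, tow, hfd⟩ := finiteDim_fraction82 hinj
  haveI : Algebra.IsIntegral R T := Algebra.IsIntegral.of_finite R T
  have h1 : {N : Ideal (integralClosure R (FractionRing T)) |
      Over (P.comap (algebraMap R T)) N}.Finite :=
    finite_over_ext82 (K := FractionRing R) _ (h _ (Ideal.comap_isPrime _ P))
  have h2 : {N : Ideal (integralClosure T (FractionRing T)) | Over P N}.Finite :=
    over_finite_tower82 (P.comap (algebraMap R T)) P (fun r => Iff.rfl) h1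
  exact over_finite_equiv (FractionRing.algEquiv T F) P h2

/-- a prime with henselian localization in a finite extension gives a central prime. -/
theorem central_of_hens95 {R T : Type} [CommRing R] [IsDomain R] [CommRing T] [IsDomain T]
    [CompatibleRing T] [Algebra R T] [Module.Finite R T]
    (hinj : Function.Injective (algebraMap R T)) (hNT : NIPRing T) (hFB : FB95 R)
    (p' : Ideal T) [hp' : p'.IsPrime] (hH : HenselianLocalRing (Localization.AtPrime p')) :
    Central95 R (p'.comap (algebraMap R T)) := by
  classical
  intro S _ _ _ _ hinjS N M hN hM hNc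
  haveI : Algebra.IsIntegral R T := Algebra.IsIntegral.of_finite R T
  haveI : Algebra.IsIntegral R S := Algebra.IsIntegral.of_finite R S
  obtain ⟨algT, towT, hfdT⟩ := finiteDim_fraction82 hinj
  obtain ⟨algS, towS, hfdS⟩ := finiteDim_fraction82 hinjS
  -- the algebraic closure
  set W := AlgebraicClosure (FractionRing T) with hW
  letI algKW : Algebra (FractionRing R) W :=
    ((algebraMap (FractionRing T) W).comp (algebraMap (FractionRing R) (FractionRing T))).toAlgebra
  have hRW : ∀ r : R, algebraMap (FractionRing R) W (algebraMap R (FractionRing R) r)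
      = algebraMap T W (algebraMap R T r) := by
    intro r
    change algebraMap (FractionRing T) W (algebraMap (FractionRing R) (FractionRing T)
      (algebraMap R (FractionRing R) r)) = _
    rw [← IsScalarTower.algebraMap_apply R (FractionRing R) (FractionRing T),
      IsScalarTower.algebraMap_apply R T (FractionRing T),
      ← IsScalarTower.algebraMap_apply T (FractionRing T) W]
  let φ₀ : FractionRing S →ₐ[FractionRing R] W := IsAlgClosed.lift
  let φ : S →+* W := φ₀.toRingHom.comp (algebraMap S (FractionRing S))
  have hφR : ∀ r : R, φ (algebraMap R S r) = algebraMap T W (algebraMap R T r) := by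
    intro r
    change φ₀ (algebraMap S (FractionRing S) (algebraMap R S r)) = _
    rw [← IsScalarTower.algebraMap_apply R S (FractionRing S),
      IsScalarTower.algebraMap_apply R (FractionRing R) (FractionRing S), φ₀.commutes, hRW]
  have hφinj : Function.Injective φ :=
    φ₀.toRingHom.injective.comp (IsFractionRing.injective S (FractionRing S))
  have hinjTW : Function.Injective (algebraMap T W) := by
    rw [IsScalarTower.algebraMap_eq T (FractionRing T) W]
    exact (algebraMap (FractionRing T) W).injective.comp (IsFractionRing.injective T _)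
  haveI : FaithfulSMul T W := (faithfulSMul_iff_algebraMap_injective _ _).mpr hinjTW
  -- the common extension
  obtain ⟨s, hs⟩ := (inferInstance : Module.Finite R S).fg_top
  have hint : ∀ x ∈ φ '' (s : Set S), IsIntegral T x := by
    rintro _ ⟨x, _, rfl⟩
    obtain ⟨f, hf, hf0⟩ := Algebra.IsIntegral.isIntegral (R := R) x
    refine ⟨f.map (algebraMap R T), hf.map _, ?_⟩
    have hcomp : (algebraMap T W).comp (algebraMap R T) = φ.comp (algebraMap R S) := by
      ext r
      exact (hφR r).symm
    rw [eval₂_map, hcomp, ← hom_eval₂]
    have h0 : eval₂ (algebraMap R S) x f = 0 := hf0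
    rw [h0, map_zero]
  set U : Subalgebra T W := Algebra.adjoin T (φ '' (s : Set S)) with hU
  haveI hUfin : Module.Finite T U := Module.Finite.iff_fg.2
    (fg_adjoin_of_finite (s.finite_toSet.image φ) hint)
  have hφU : ∀ x : S, φ x ∈ U := by
    intro x
    have hx : x ∈ Submodule.span R (s : Set S) := by rw [hs]; exact Submodule.mem_top
    induction hx using Submodule.span_induction with
    | mem t ht => exact Algebra.subset_adjoin ⟨t, ht, rfl⟩
    | zero => rw [map_zero]; exact U.zero_mem
    | add a b _ _ ha hb => rw [map_add]; exact U.add_mem ha hb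
    | smul r a _ ha =>
      rw [Algebra.smul_def, map_mul, hφR]
      exact U.mul_mem (U.algebraMap_mem _) ha
  letI : CompatibleRing U := compatibleRingOfRing _
  have hNU : NIPRing U := nip_subalgebra_plus34 (K := FractionRing T) U hNT
  have hinjTU : Function.Injective (algebraMap T U) := by
    intro x y hxy
    exact hinjTW (congrArg Subtype.val hxy)
  let ψ : S →+* U := φ.codRestrict U hφU
  have hψinj : Function.Injective ψ := by
    intro x y hxy
    exact hφinj (congrArg Subtype.val hxy)
  letI algSU : Algebra S U := ψ.toAlgebra
  letI algRU : Algebra R U := ((algebraMap T U).comp (algebraMap R T)).toAlgebra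
  haveI towRTU : IsScalarTower R T U := IsScalarTower.of_algebraMap_eq fun r => rfl
  haveI towRSU : IsScalarTower R S U := IsScalarTower.of_algebraMap_eq fun r => by
    apply Subtype.ext
    exact (hφR r).symm
  haveI : Module.Finite R U := Module.Finite.trans T U
  haveI : Module.Finite S U := Module.Finite.of_restrictScalars_finite R S U
  haveI : Algebra.IsIntegral S U := Algebra.IsIntegral.of_finite S U
  haveI : Algebra.IsIntegral T U := Algebra.IsIntegral.of_finite T U
  have hinjRU : Function.Injective (algebraMap R U) := by
    rw [IsScalarTower.algebraMap_eq R T U]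
    exact hinjTU.comp hinj
  obtain ⟨N₁, hN₁p, hN₁⟩ := exists_prime_over (R := S) (T := U) hψinj N
  obtain ⟨M₁, hM₁p, hM₁⟩ := exists_prime_over (R := S) (T := U) hψinj M
  have hN₁c := comap_eq_of_over82 _ _ hN₁
  have hM₁c := comap_eq_of_over82 _ _ hM₁
  -- the trace on `T` is `p'`
  have hRc : ∀ J : Ideal U, (J.comap (algebraMap T U)).comap (algebraMap R T)
      = (J.comap (algebraMap S U)).comap (algebraMap R S) := by
    intro J
    rw [Ideal.comap_comap, Ideal.comap_comap, ← IsScalarTower.algebraMap_eq,
      ← IsScalarTower.algebraMap_eq]
  haveI htp : (N₁.comap (algebraMap T U)).IsPrime := Ideal.comap_isPrime _ N₁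
  have htr : (N₁.comap (algebraMap T U)).comap (algebraMap R T) = p'.comap (algebraMap R T) := by
    rw [hRc, hN₁c, hNc]
  have hcomp := theoremPK46 (K := FractionRing T) hNT p' (N₁.comap (algebraMap T U)) hH
    (hFB.ext hinj (FractionRing T) (N₁.comap (algebraMap T U)))
  have heq : N₁.comap (algebraMap T U) = p' := by
    rcases hcomp with h | h
    · exact (eq_of_comap_le95 (R := R) h htr.le).symm
    · exact eq_of_comap_le95 (R := R) h htr.symm.le
  -- the localization at `N₁` is henselian
  have hu := unique_over_of_hens (fun A W _ _ _ _ _ _ h => closure_local_of_henselian)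
    (W := W) hinjTW p' hH
  have hinjUW : Function.Injective (algebraMap U W) := Subtype.val_injective
  haveI : FaithfulSMul U W := (faithfulSMul_iff_algebraMap_injective _ _).mpr hinjUW
  have hHU : HenselianLocalRing (Localization.AtPrime N₁) := by
    have hov : ∀ t : T, algebraMap T U t ∈ N₁ ↔ t ∈ p' := by
      intro t
      rw [← heq]
      exact Iff.rfl
    refine hens_of_unique82 (W := W) N₁ fun Z Z' hZ hZ' => ?_
    exact comap_injective (R := T) Z Z' (hu _ _ (over_comap p' N₁ hov Z hZ)
      (over_comap p' N₁ hov Z' hZ'))
  rcases theoremPK46 (K := FractionRing U) hNU N₁ M₁ hHU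
    (hFB.ext hinjRU (FractionRing U) M₁) with h | h
  · left
    rw [← hN₁c, ← hM₁c]
    exact Ideal.comap_mono h
  · right
    rw [← hN₁c, ← hM₁c]
    exact Ideal.comap_mono h

end Pool.Agent.AIC
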