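import Mathlib
import Pool.Agent.AIC.Interp83

/-!
# Theorem V, common definitions

`HV95`: every NIP valuation ring of rank one is henselian. `Comax95 B t w`: the conductors of `t`
and `w` in `B` are comaximal up to the divisorial closure.
-/

set_option autoImplicit false

namespace Pool.Agent.AIC

open FirstOrder FirstOrder.Ring

/-- every NIP valuation ring of rank one is henselian -/
def HV95 : Prop :=
  ∀ (V : Type) [CommRing V] [IsDomain V] [ValuationRing V] [CompatibleRing V],
    ¬ IsField V → (∀ P : Ideal V, P.IsPrime → P = ⊥ ∨ P.IsMaximal) → NIPRing V →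
    HenselianLocalRing V

/-- the conductors of `t` and `w` in the subring `B` are comaximal -/
def Comax95 {K : Type} [Field K] (B : Subring K) (t w : K) : Prop :=
  ∀ z : K, (∀ u ∈ B, u * t ∈ B → z * u ∈ B) → (∀ u ∈ B, u * w ∈ B → z * u ∈ B) → z ∈ B

end Pool.Agent.AIC
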