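import Mathlib
import Pool.Agent.AIC.Quot83

/-! MP_313bb4, stage 9: localizations of NIP domains at externally definable multiplicative sets,
in particular at the complement of a prime ideal, are NIP. -/

set_option autoImplicit false
set_option linter.unusedSectionVars false

namespace Pool.Agent.AIC

open Set FirstOrder FirstOrder.Language FirstOrder.Ring Filter

section inter

variable {L : Language} {M : Type} [L.Structure M]

theorem ED.iInter_finset {α J : Type} (s : Finset J) {X : J → Set (α → M)}
    (h : ∀ j, ED L (X j)) : ED L {v | ∀ j ∈ s, v ∈ X j} := by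
  classical
  induction s using Finset.induction_on with
  | empty =>
    convert (ED.of_definable definable_univ : ED L (Set.univ : Set (α → M))) using 1
    ext v
    simp
  | insert a s ha ih =>
    have h1 := (h a).inter ih
    convert h1 using 1
    ext v
    simp

theorem ED.all_finite {α J : Type} [Finite J] {X : J → Set (α → M)}
    (h : ∀ j, ED L (X j)) : ED L {v | ∀ j, v ∈ X j} := by
  have := Fintype.ofFinite J
  have h1 := ED.iInter_finset (Finset.univ : Finset J) h
  convert h1 using 1
  ext v
  simp

end inter

section loc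

variable {R : Type} [CommRing R] [CompatibleRing R] (S : Submonoid R)

open Classical in
/-- normalized fractions -/
noncomputable def nmz {J : Type} (v : J × Fin 2 → R) : J × Fin 2 → R :=
  fun p => if v (p.1, 1) ∈ S then v p else (if p.2 = 0 then 0 else 1)

theorem nmz_mem {J : Type} (v : J × Fin 2 → R) (j : J) : nmz S v (j, 1) ∈ S := by
  classical
  unfold nmz
  by_cases h : v (j, 1) ∈ S
  · simp only [h, if_true]
  · simp only [h, if_false]
    rw [if_neg (by decide)]
    exact S.one_mem

theorem ED.nmz (hR : NIPRing R) (hS : ED Language.ring {x : Unit → R | x () ∈ S}) {J : Type}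
    [Finite J] {E : Set (J × Fin 2 → R)} (hE : (univ : Set R).Definable Language.ring E) :
    ED Language.ring {v : J × Fin 2 → R | nmz S v ∈ E} := by
  classical
  have hM := dnip_of_nip hR
  have hSj : ∀ j : J, ED Language.ring
      {w : (J × Fin 2) ⊕ (J × Fin 2) → R | w (Sum.inl (j, 1)) ∈ S} := fun j =>
    hS.preimage_comp (fun _ => Sum.inl (j, 1))
  have hEq : ∀ (p : J × Fin 2), ED Language.ring
      {w : (J × Fin 2) ⊕ (J × Fin 2) → R | w (Sum.inr p) = w (Sum.inl p)} := fun p =>
    ED.of_definable ((defFun_proj _).ofPred_eq (defFun_proj _))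
  have hC : ∀ (p : J × Fin 2) (r : R), ED Language.ring
      {w : (J × Fin 2) ⊕ (J × Fin 2) → R | w (Sum.inr p) = r} := fun p r =>
    ED.of_definable ((defFun_proj _).ofPred_eq (defFun_const _))
  have h1 : ∀ p : J × Fin 2, ED Language.ring
      (({w : (J × Fin 2) ⊕ (J × Fin 2) → R | w (Sum.inl (p.1, 1)) ∈ S} ∩
        {w | w (Sum.inr p) = w (Sum.inl p)}) ∪
       ({w : (J × Fin 2) ⊕ (J × Fin 2) → R | w (Sum.inl (p.1, 1)) ∈ S}ᶜ ∩
        {w | w (Sum.inr p) = if p.2 = 0 then 0 else 1})) := fun p =>
    ((hSj p.1).inter (hEq p)).union ((hSj p.1).compl.inter (hC p _))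
  have h2 := ED.all_finite h1
  have h3 : ED Language.ring {w : (J × Fin 2) ⊕ (J × Fin 2) → R | w ∘ Sum.inr ∈ E} :=
    ED.of_definable (hE.preimage_comp Sum.inr)
  have h4 := ED.exists hM (h2.inter h3)
  convert h4 using 1
  ext v
  constructor
  · intro hv
    refine ⟨Pool.Agent.AIC.nmz S v, fun p => ?_, hv⟩
    by_cases h : v (p.1, 1) ∈ S
    · left
      refine ⟨h, ?_⟩
      show Pool.Agent.AIC.nmz S v p = v p
      unfold Pool.Agent.AIC.nmz
      rw [if_pos h]
    · right
      refine ⟨h, ?_⟩
      show Pool.Agent.AIC.nmz S v p = _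
      unfold Pool.Agent.AIC.nmz
      rw [if_neg h]
  · rintro ⟨u, hu1, hu2⟩
    have hu : u = Pool.Agent.AIC.nmz S v := by
      funext p
      unfold Pool.Agent.AIC.nmz
      rcases hu1 p with ⟨ha, hb⟩ | ⟨ha, hb⟩
      · have ha' : v (p.1, 1) ∈ S := ha
        have hb' : u p = v p := hb
        rw [if_pos ha', hb']
      · have ha' : v (p.1, 1) ∉ S := ha
        have hb' : u p = if p.2 = 0 then 0 else 1 := hb
        rw [if_neg ha', hb']
    have h5 : u ∈ E := hu2
    rw [hu] at h5
    exact h5

/-- **localization at an externally definable multiplicative set of nonzerodivisors** -/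
theorem nip_localization (hR : NIPRing R) (hS : ED Language.ring {x : Unit → R | x () ∈ S})
    (hS0 : S ≤ nonZeroDivisors R) (T : Type) [CommRing T] [Algebra R T] [IsLocalization S T]
    [CompatibleRing T] : NIPRing T := by
  classical
  have hinj : Function.Injective (algebraMap R T) := IsLocalization.injective T hS0
  let pi : (Fin 2 → R) → T := fun v =>
    if h : v 1 ∈ S then IsLocalization.mk' T (v 0) ⟨v 1, h⟩ else 0
  have hpi : ∀ {J : Type} (v : J × Fin 2 → R) (j : J),
      pi (fun d => v (j, d)) = IsLocalization.mk' T (nmz S v (j, 0)) ⟨nmz S v (j, 1), nmz_mem S v j⟩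
      := by
    intro J v j
    show (if h : v (j, 1) ∈ S then IsLocalization.mk' T (v (j, 0)) ⟨v (j, 1), h⟩ else 0) = _
    by_cases h : v (j, 1) ∈ S
    · rw [dif_pos h]
      have e0 : nmz S v (j, 0) = v (j, 0) := by unfold nmz; rw [if_pos h]
      have e1 : nmz S v (j, 1) = v (j, 1) := by unfold nmz; rw [if_pos h]
      congr 1
      · rw [e0]
      · exact Subtype.ext e1.symm
    · rw [dif_neg h]
      have e0 : nmz S v (j, 0) = 0 := by unfold nmz; rw [if_neg h]; simp
      rw [e0, IsLocalization.mk'_zero]
  have hmk : ∀ (a b : R) (s t : S), IsLocalization.mk' T a s = IsLocalization.mk' T b t ↔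
      a * t = b * s := by
    intro a b s t
    rw [IsLocalization.mk'_eq_iff_eq]
    constructor
    · intro h
      have := hinj h
      rw [mul_comm a, mul_comm b]
      exact this
    · intro h
      congr 1
      rw [mul_comm _ a, mul_comm _ b]
      exact h
  let I : InterpED R T (Fin 2) :=
    { pi := pi
      surj := fun z => by
        obtain ⟨a, s, rfl⟩ := IsLocalization.exists_mk'_eq S z
        refine ⟨![a, s], ?_⟩
        show (if h : (![a, (s : R)] 1) ∈ S then IsLocalization.mk' T (![a, (s : R)] 0)
          ⟨![a, (s : R)] 1, h⟩ else 0) = _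
        rw [dif_pos (show (![a, (s : R)] 1) ∈ S from s.2)]
        rfl
      heq := by
        have h := ED.nmz S hR hS (J := Fin 2) (E := {u | u (0, 0) * u (1, 1) = u (1, 0) * u (0, 1)})
          ((defFun_mul (defFun_proj _) (defFun_proj _)).ofPred_eq
            (defFun_mul (defFun_proj _) (defFun_proj _)))
        convert h using 1
        ext v
        show pi (fun d => v (0, d)) = pi (fun d => v (1, d)) ↔ _
        rw [hpi v 0, hpi v 1, hmk]
        rfl
      hadd := by
        have h := ED.nmz S hR hS (J := Fin 3) (E := {u |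
          (u (0, 0) * u (1, 1) + u (1, 0) * u (0, 1)) * u (2, 1) =
            u (2, 0) * (u (0, 1) * u (1, 1))})
          ((defFun_mul (defFun_add (defFun_mul (defFun_proj _) (defFun_proj _))
            (defFun_mul (defFun_proj _) (defFun_proj _))) (defFun_proj _)).ofPred_eq
            (defFun_mul (defFun_proj _) (defFun_mul (defFun_proj _) (defFun_proj _))))
        convert h using 1
        ext v
        show pi (fun d => v (0, d)) + pi (fun d => v (1, d)) = pi (fun d => v (2, d)) ↔ _
        rw [hpi v 0, hpi v 1, hpi v 2, ← IsLocalization.mk'_add, hmk]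
        rfl
      hmul := by
        have h := ED.nmz S hR hS (J := Fin 3) (E := {u |
          (u (0, 0) * u (1, 0)) * u (2, 1) = u (2, 0) * (u (0, 1) * u (1, 1))})
          ((defFun_mul (defFun_mul (defFun_proj _) (defFun_proj _)) (defFun_proj _)).ofPred_eq
            (defFun_mul (defFun_proj _) (defFun_mul (defFun_proj _) (defFun_proj _))))
        convert h using 1
        ext v
        show pi (fun d => v (0, d)) * pi (fun d => v (1, d)) = pi (fun d => v (2, d)) ↔ _
        rw [hpi v 0, hpi v 1, hpi v 2, ← IsLocalization.mk'_mul, hmk]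
        rfl }
  exact nip_transferED I hR

/-- **the localization of an NIP domain at a prime ideal is NIP** -/
theorem nip_atPrime [IsDomain R] (hR : NIPRing R) (P : Ideal R) [hP : P.IsPrime]
    [CompatibleRing (Localization.AtPrime P)] : NIPRing (Localization.AtPrime P) := by
  refine nip_localization P.primeCompl hR ?_ P.primeCompl_le_nonZeroDivisors _
  exact (ED.prime P).compl

/-- the localization of an NIP domain at the complement of two prime ideals is NIP -/
theorem nip_two [IsDomain R] (hR : NIPRing R) (P Q : Ideal R) [hP : P.IsPrime] [hQ : Q.IsPrime]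
    [CompatibleRing (Localization (P.primeCompl ⊓ Q.primeCompl))] :
    NIPRing (Localization (P.primeCompl ⊓ Q.primeCompl)) := by
  refine nip_localization (P.primeCompl ⊓ Q.primeCompl) hR ?_
    (inf_le_left.trans P.primeCompl_le_nonZeroDivisors) _
  exact (ED.prime P).compl.inter (ED.prime Q).compl

/-- the fraction field of an NIP domain is NIP -/
theorem nip_fractionRing [IsDomain R] (hR : NIPRing R) [CompatibleRing (FractionRing R)] :
    NIPRing (FractionRing R) := by
  refine nip_localization (nonZeroDivisors R) hR ?_ le_rfl _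
  have h := (ED.of_definable ((defFun_proj (R := R) ()).ofPred_eq (defFun_const (0 : R))) :
    ED Language.ring {x : Unit → R | x () = 0}).compl
  convert h using 1
  ext x
  simp

end loc

end Pool.Agent.AIC
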