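import Mathlib
import Pool.Agent.AIC.DefsV95
import Pool.Agent.AIC.TheoremT46
import Pool.Agent.AIC.MPlus82
import Pool.Agent.AIC.LocNip83

/-! MP_313bb4, Theorem V, row V5: no two independent valuation rings with NIP intersection if every
rank one NIP valuation ring is henselian. -/

set_option autoImplicit false
set_option linter.style.haveILetI false

namespace Pool.Agent.AIC

open FirstOrder FirstOrder.Ring

/-- elements of `V` are fractions of elements of `V ∩ V'` with a denominator which is a unit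
in `V`. -/
theorem exists_s82 {K : Type} [Field K] (V V' : ValuationSubring K) (x : K) (hx : x ∈ V) :
    ∃ s : K, V.valuation s = 1 ∧ s ∈ V' ∧ s * x ∈ V' := by
  by_cases hx' : x ∈ V'
  · exact ⟨1, map_one _, V'.one_mem, by rwa [one_mul]⟩
  have hvx : V.valuation x ≤ 1 := (V.valuation_le_one_iff x).mpr hx
  have hvx' : 1 < V'.valuation x := by
    rw [← not_le, V'.valuation_le_one_iff]
    exact hx'
  have hne' : V'.valuation x ≠ 0 := (lt_trans zero_lt_one hvx').ne'
  have h1x : V'.valuation (1 + x) = V'.valuation x := by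
    apply Valuation.map_add_eq_of_lt_right
    rwa [map_one]
  by_cases hv : V.valuation (1 + x) = 1
  · refine ⟨(1 + x)⁻¹, by rw [map_inv₀, hv, inv_one], ?_, ?_⟩
    · rw [← V'.valuation_le_one_iff, map_inv₀, h1x]
      exact inv_le_one_of_one_le₀ hvx'.le
    · rw [← V'.valuation_le_one_iff, map_mul, map_inv₀, h1x, inv_mul_cancel₀ hne']
  · have hlt : V.valuation (1 + x) < 1 := by
      refine lt_of_le_of_ne ?_ hv
      refine (V.valuation.map_add _ _).trans ?_
      rw [map_one]
      exact max_le le_rfl hvx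
    have h2 : V.valuation (1 + x * (1 + x)) = 1 := by
      have h3 : V.valuation (x * (1 + x)) < V.valuation 1 := by
        rw [map_mul, map_one]
        exact (mul_le_of_le_one_left' hvx).trans_lt hlt
      rw [Valuation.map_add_eq_of_lt_left _ h3, map_one]
    have h4 : V'.valuation (1 + x * (1 + x)) = V'.valuation x * V'.valuation x := by
      have h5 : V'.valuation (x * (1 + x)) = V'.valuation x * V'.valuation x := by
        rw [map_mul, h1x]
      rw [← h5]
      apply Valuation.map_add_eq_of_lt_right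
      rw [map_one, h5]
      exact lt_of_lt_of_le hvx' (le_mul_of_one_le_left' hvx'.le)
    refine ⟨(1 + x * (1 + x))⁻¹, by rw [map_inv₀, h2, inv_one], ?_, ?_⟩
    · rw [← V'.valuation_le_one_iff, map_inv₀, h4]
      exact inv_le_one_of_one_le₀ (one_le_mul hvx'.le hvx'.le)
    · rw [← V'.valuation_le_one_iff, map_mul, map_inv₀, h4, mul_inv, mul_assoc,
        inv_mul_cancel₀ hne', mul_one]
      exact inv_le_one_of_one_le₀ hvx'.le

/-- a criterion for localizations to be valuation rings -/
theorem valRing_of82 {L A : Type} [CommRing L] [IsDomain L] (P : Ideal L) [P.IsPrime]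
    [CommRing A] [IsDomain A] [Algebra L A] [IsLocalization.AtPrime A P]
    (h : ∀ a b : L, ∃ s, s ∉ P ∧ ∃ l, s * a = l * b ∨ s * b = l * a) : ValuationRing A := by
  have main : ∀ (a b : L) (u v : P.primeCompl) (s l : L), s ∉ P → s * a = l * b →
      ∃ z : A, IsLocalization.mk' A b v * z = IsLocalization.mk' A a u := by
    intro a b u v s l hs hab
    refine ⟨IsLocalization.mk' A (l * v) (⟨s, hs⟩ * u), ?_⟩
    rw [← IsLocalization.mk'_mul, IsLocalization.mk'_eq_iff_eq]
    congr 1
    show (u : L) * (b * (l * v)) = (v * (s * u)) * a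
    linear_combination (-(u : L) * v) * hab
  refine { cond' := fun x y => ?_ }
  obtain ⟨a, u, rfl⟩ := IsLocalization.exists_mk'_eq P.primeCompl x
  obtain ⟨b, v, rfl⟩ := IsLocalization.exists_mk'_eq P.primeCompl y
  obtain ⟨s, hs, l, hl | hl⟩ := h a b
  · obtain ⟨z, hz⟩ := main a b u v s l hs hl
    exact ⟨z, Or.inr hz⟩
  · obtain ⟨z, hz⟩ := main b a v u s l hs hl
    exact ⟨z, Or.inl hz⟩

section

variable {K : Type} [Field K] (V V' : ValuationSubring K)

/-- the center of `V` on `V ∩ V'` -/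
def center82 : Ideal (V.toSubring ⊓ V'.toSubring : Subring K) where
  carrier := {x | V.valuation (x : K) < 1}
  add_mem' := fun {x y} hx hy => by
    show V.valuation ((x : K) + (y : K)) < 1
    exact lt_of_le_of_lt (V.valuation.map_add _ _) (max_lt hx hy)
  zero_mem' := by
    show V.valuation (0 : K) < 1
    rw [map_zero]
    exact zero_lt_one
  smul_mem' := fun c x hx => by
    show V.valuation ((c : K) * (x : K)) < 1
    rw [map_mul]
    exact (mul_le_of_le_one_left' ((V.valuation_le_one_iff _).mpr c.2.1)).trans_lt hx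

theorem mem_center82 (x : (V.toSubring ⊓ V'.toSubring : Subring K)) :
    x ∈ center82 V V' ↔ V.valuation (x : K) < 1 := Iff.rfl

theorem center_prime82 : (center82 V V').IsPrime := by
  refine ⟨?_, fun {x y} hxy => ?_⟩
  · intro h
    have h1 : (1 : (V.toSubring ⊓ V'.toSubring : Subring K)) ∈ center82 V V' := by
      rw [h]
      trivial
    have h2 : V.valuation (1 : K) < 1 := h1
    rw [map_one] at h2
    exact lt_irrefl _ h2
  · have h1 : V.valuation ((x : K) * (y : K)) < 1 := hxy
    rw [map_mul] at h1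
    by_contra hc
    rw [not_or] at hc
    have hx : V.valuation (x : K) = 1 := le_antisymm ((V.valuation_le_one_iff _).mpr x.2.1)
      (not_lt.mp hc.1)
    have hy : V.valuation (y : K) = 1 := le_antisymm ((V.valuation_le_one_iff _).mpr y.2.1)
      (not_lt.mp hc.2)
    rw [hx, hy, one_mul] at h1
    exact lt_irrefl _ h1

/-- localizations of `V ∩ V'` at primes inside the center of `V` are valuation rings -/
theorem valRing_center82 (P₀ : Ideal (V.toSubring ⊓ V'.toSubring : Subring K)) [P₀.IsPrime]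
    (hle : P₀ ≤ center82 V V') : ValuationRing (Localization.AtPrime P₀) := by
  have aux : ∀ a b : (V.toSubring ⊓ V'.toSubring : Subring K), b ≠ 0 → (a : K) / (b : K) ∈ V →
      ∃ s, s ∉ P₀ ∧ ∃ l, s * a = l * b := by
    intro a b hb hab
    have hb' : (b : K) ≠ 0 := fun h => hb (Subtype.ext h)
    obtain ⟨s, hs1, hs2, hs3⟩ := exists_s82 V V' _ hab
    have hsV : s ∈ V := (V.valuation_le_one_iff s).mp hs1.le
    refine ⟨⟨s, hsV, hs2⟩, fun h => ?_, ⟨s * ((a : K) / (b : K)), V.mul_mem _ _ hsV hab, hs3⟩, ?_⟩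
    · have h1 : V.valuation s < 1 := hle h
      rw [hs1] at h1
      exact lt_irrefl _ h1
    · apply Subtype.ext
      show s * (a : K) = s * ((a : K) / (b : K)) * (b : K)
      field_simp
  refine valRing_of82 (A := Localization.AtPrime P₀) P₀ fun a b => ?_
  by_cases hb : b = 0
  · exact ⟨1, fun h => ‹P₀.IsPrime›.ne_top ((Ideal.eq_top_iff_one _).mpr h), 0,
      Or.inr (by rw [hb, mul_zero, zero_mul])⟩
  by_cases ha : a = 0
  · exact ⟨1, fun h => ‹P₀.IsPrime›.ne_top ((Ideal.eq_top_iff_one _).mpr h), 0,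
      Or.inl (by rw [ha, mul_zero, zero_mul])⟩
  rcases V.mem_or_inv_mem ((a : K) / (b : K)) with h | h
  · obtain ⟨s, hs, l, hl⟩ := aux a b hb h
    exact ⟨s, hs, l, Or.inl hl⟩
  · rw [inv_div] at h
    obtain ⟨s, hs, l, hl⟩ := aux b a ha h
    exact ⟨s, hs, l, Or.inr hl⟩

end

section main

variable {K : Type} [Field K] (V V' : ValuationSubring K)

/-- `K` is the fraction field of `V ∩ V'` -/
theorem isFractionRing82 (b : K) (hb : b ≠ 0)
    (hK : ∀ x : K, ∃ k : ℕ, b ^ k * x ∈ V ∧ b ^ k * x ∈ V') (hbV : b ∈ V) (hbV' : b ∈ V') :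
    IsFractionRing (V.toSubring ⊓ V'.toSubring : Subring K) K := by
  refine IsFractionRing.of_field _ _ fun z => ?_
  obtain ⟨k, h1, h2⟩ := hK z
  refine ⟨⟨b ^ k * z, h1, h2⟩, ⟨b ^ k, Subring.pow_mem _ hbV k, Subring.pow_mem _ hbV' k⟩, ?_⟩
  show z = b ^ k * z / b ^ k
  rw [mul_div_cancel_left₀ _ (pow_ne_zero k hb)]

/-- `V ∩ V'` is integrally closed -/
theorem isIntegrallyClosed82 [IsFractionRing (V.toSubring ⊓ V'.toSubring : Subring K) K] :
    IsIntegrallyClosed (V.toSubring ⊓ V'.toSubring : Subring K) := by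
  rw [isIntegrallyClosed_iff K]
  intro x hx
  have aux : ∀ W : ValuationSubring K, (V.toSubring ⊓ V'.toSubring : Subring K) ≤ W.toSubring →
      x ∈ W := by
    intro W hW
    obtain ⟨f, hf, hfx⟩ := hx
    have h2 : IsIntegral W x := by
      refine ⟨f.map (Subring.inclusion hW), hf.map _, ?_⟩
      rw [Polynomial.eval₂_map]
      exact hfx
    obtain ⟨y, hy⟩ := (IsIntegrallyClosed.isIntegral_iff (R := W) (K := K)).1 h2
    rw [← hy]
    exact y.2
  exact ⟨⟨x, aux V inf_le_left, aux V' inf_le_right⟩, rfl⟩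

end main

/-- **V5.** -/
theorem no_two_vals95 (hHV : HV95) {K : Type} [Field K] (V V' : ValuationSubring K)
    [CompatibleRing (V.toSubring ⊓ V'.toSubring : Subring K)]
    (hN : NIPRing (V.toSubring ⊓ V'.toSubring : Subring K)) (w₁ w₂ : K) (h1 : w₁ ∈ V)
    (h1' : w₁ ∈ V') (h2 : w₂ ∈ V) (h2' : w₂ ∈ V') (h12 : w₁ + w₂ = 1) (hw₁ : w₁⁻¹ ∉ V)
    (hw₂ : w₂⁻¹ ∉ V')
    (hK : ∀ x : K, ∃ k : ℕ, (w₁ * w₂) ^ k * x ∈ V ∧ (w₁ * w₂) ^ k * x ∈ V') : False := by
  classical
  have lt_of : ∀ (W : ValuationSubring K) (w : K), w⁻¹ ∉ W → W.valuation w < 1 := by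
    intro W w hw
    rw [← ValuationSubring.mem_nonunits_iff, ValuationSubring.mem_nonunits_iff_or]
    exact Or.inr hw
  have hv1 : V.valuation w₁ < 1 := lt_of V w₁ hw₁
  have hv2' : V'.valuation w₂ < 1 := lt_of V' w₂ hw₂
  have one_of : ∀ (W : ValuationSubring K) (a b : K), a + b = 1 → W.valuation a < 1 →
      W.valuation b = 1 := by
    intro W a b hab ha
    have hb : b = 1 + -a := by rw [← hab]; ring
    rw [hb, Valuation.map_add_eq_of_lt_left _ (by rwa [Valuation.map_neg, map_one]), map_one]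
  have hv2 : V.valuation w₂ = 1 := one_of V w₁ w₂ h12 hv1
  have hv1' : V'.valuation w₁ = 1 := one_of V' w₂ w₁ (by rw [add_comm]; exact h12) hv2'
  have hw1ne : w₁ ≠ 0 := by
    rintro rfl
    rw [map_zero] at hv1'
    exact zero_ne_one hv1'
  have hw2ne : w₂ ≠ 0 := by
    rintro rfl
    rw [map_zero] at hv2
    exact zero_ne_one hv2
  have hbne : w₁ * w₂ ≠ 0 := mul_ne_zero hw1ne hw2ne
  haveI hfr : IsFractionRing (V.toSubring ⊓ V'.toSubring : Subring K) K :=
    isFractionRing82 V V' (w₁ * w₂) hbne hK (V.mul_mem _ _ h1 h2) (V'.mul_mem _ _ h1' h2')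
  haveI hic : IsIntegrallyClosed (V.toSubring ⊓ V'.toSubring : Subring K) :=
    isIntegrallyClosed82 V V'
  -- the elements and ideals
  let L : Subring K := V.toSubring ⊓ V'.toSubring
  let u₁ : L := ⟨w₁, h1, h1'⟩
  let u₂ : L := ⟨w₂, h2, h2'⟩
  haveI hPp : (center82 V V').IsPrime := center_prime82 V V'
  have hcomm : ∀ x : L, V'.valuation (x : K) ≤ 1 := fun x => (V'.valuation_le_one_iff _).mpr x.2.2
  -- the center of `V'`
  let Q : Ideal L :=
    { carrier := {x | V'.valuation (x : K) < 1}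
      add_mem' := fun {x y} hx hy => by
        show V'.valuation ((x : K) + (y : K)) < 1
        exact lt_of_le_of_lt (V'.valuation.map_add _ _) (max_lt hx hy)
      zero_mem' := by
        show V'.valuation (0 : K) < 1
        rw [map_zero]
        exact zero_lt_one
      smul_mem' := fun c x hx => by
        show V'.valuation ((c : K) * (x : K)) < 1
        rw [map_mul]
        exact (mul_le_of_le_one_left' (hcomm c)).trans_lt hx }
  haveI hQp : Q.IsPrime := by
    refine ⟨?_, fun {x y} hxy => ?_⟩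
    · intro h
      have h1 : (1 : L) ∈ Q := by
        rw [h]
        trivial
      have h2 : V'.valuation (1 : K) < 1 := h1
      rw [map_one] at h2
      exact lt_irrefl _ h2
    · have h1 : V'.valuation ((x : K) * (y : K)) < 1 := hxy
      rw [map_mul] at h1
      by_contra hc
      rw [not_or] at hc
      have hx : V'.valuation (x : K) = 1 := le_antisymm (hcomm x) (not_lt.mp hc.1)
      have hy : V'.valuation (y : K) = 1 := le_antisymm (hcomm y) (not_lt.mp hc.2)
      rw [hx, hy, one_mul] at h1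
      exact lt_irrefl _ h1
  have hbP : u₁ * u₂ ∈ center82 V V' := by
    show V.valuation (w₁ * w₂) < 1
    rw [map_mul, hv2, mul_one]
    exact hv1
  have hbQ : u₁ * u₂ ∈ Q := by
    show V'.valuation (w₁ * w₂) < 1
    rw [map_mul, hv1', one_mul]
    exact hv2'
  obtain ⟨P₀, hP₀min, hP₀le⟩ := Ideal.exists_minimalPrimes_le (I := Ideal.span {u₁ * u₂})
    (J := center82 V V') ((Ideal.span_singleton_le_iff_mem _).mpr hbP)
  obtain ⟨Q₀, hQ₀min, hQ₀le⟩ := Ideal.exists_minimalPrimes_le (I := Ideal.span {u₁ * u₂})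
    (J := Q) ((Ideal.span_singleton_le_iff_mem _).mpr hbQ)
  haveI hP₀p : P₀.IsPrime := hP₀min.1.1
  haveI hQ₀p : Q₀.IsPrime := hQ₀min.1.1
  have hbP₀ : u₁ * u₂ ∈ P₀ := hP₀min.1.2 (Ideal.mem_span_singleton_self _)
  have hbQ₀ : u₁ * u₂ ∈ Q₀ := hQ₀min.1.2 (Ideal.mem_span_singleton_self _)
  have hu2P : u₂ ∉ P₀ := by
    intro h
    have h3 : V.valuation w₂ < 1 := hP₀le h
    rw [hv2] at h3
    exact lt_irrefl _ h3
  have hu1Q : u₁ ∉ Q₀ := by
    intro h
    have h3 : V'.valuation w₁ < 1 := hQ₀le h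
    rw [hv1'] at h3
    exact lt_irrefl _ h3
  have hu1P : u₁ ∈ P₀ := (hP₀p.mem_or_mem hbP₀).resolve_right hu2P
  have hu2Q : u₂ ∈ Q₀ := (hQ₀p.mem_or_mem hbQ₀).resolve_left hu1Q
  have hbne' : u₁ * u₂ ≠ 0 := fun h => hbne (congrArg Subtype.val h)
  -- nonzero primes contain `b`
  have hnz : ∀ q : Ideal L, q.IsPrime → q ≠ ⊥ → u₁ * u₂ ∈ q := by
    intro q hq hq0
    obtain ⟨x, hxq, hx0⟩ := Submodule.exists_mem_ne_zero_of_ne_bot hq0
    have hx0' : (x : K) ≠ 0 := fun h => hx0 (Subtype.ext h)
    obtain ⟨k, hk1, hk2⟩ := hK (x : K)⁻¹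
    have h3 : (u₁ * u₂) ^ k = (⟨(w₁ * w₂) ^ k * (x : K)⁻¹, hk1, hk2⟩ : L) * x := by
      apply Subtype.ext
      show (w₁ * w₂) ^ k = (w₁ * w₂) ^ k * (x : K)⁻¹ * (x : K)
      rw [mul_assoc, inv_mul_cancel₀ hx0', mul_one]
    apply hq.mem_of_pow_mem k
    rw [h3]
    exact q.mul_mem_left _ hxq
  -- the valuation ring
  haveI hval : ValuationRing (Localization.AtPrime P₀) := valRing_center82 V V' P₀ hP₀le
  letI : CompatibleRing (Localization.AtPrime P₀) := compatibleRingOfRing _
  have hNloc : NIPRing (Localization.AtPrime P₀) := nip_atPrime hN P₀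
  have hinj : Function.Injective (algebraMap L (Localization.AtPrime P₀)) :=
    IsLocalization.injective _ P₀.primeCompl_le_nonZeroDivisors
  have hH : HenselianLocalRing (Localization.AtPrime P₀) := by
    refine hHV _ ?_ (fun q hq => ?_) hNloc
    · intro hF
      have h3 : algebraMap L (Localization.AtPrime P₀) (u₁ * u₂) ≠ 0 := fun h =>
        hbne' (hinj (by rw [h, map_zero]))
      obtain ⟨z, hz⟩ := hF.mul_inv_cancel h3
      have h4 : IsUnit (algebraMap L (Localization.AtPrime P₀) (u₁ * u₂)) :=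
        IsUnit.of_mul_eq_one z hz
      rw [IsLocalization.AtPrime.isUnit_to_map_iff (Localization.AtPrime P₀) P₀] at h4
      exact h4 hbP₀
    · by_cases hq0 : q = ⊥
      · exact Or.inl hq0
      right
      have hqc : (q.comap (algebraMap L (Localization.AtPrime P₀))).IsPrime :=
        hq.comap _
      have hmc : (q.comap (algebraMap L (Localization.AtPrime P₀))).map
          (algebraMap L (Localization.AtPrime P₀)) = q :=
        IsLocalization.map_under P₀.primeCompl (Localization.AtPrime P₀) q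
      have hqne : q.comap (algebraMap L (Localization.AtPrime P₀)) ≠ ⊥ := by
        intro h
        apply hq0
        rw [← hmc, h, Ideal.map_bot]
      have hbq := hnz _ hqc hqne
      have hqle : q.comap (algebraMap L (Localization.AtPrime P₀)) ≤ P₀ := by
        intro x hx
        by_contra hxP
        apply hq.ne_top
        exact Ideal.eq_top_of_isUnit_mem _ hx
          (IsLocalization.map_units (Localization.AtPrime P₀) (⟨x, hxP⟩ : P₀.primeCompl))
      have hPle : P₀ ≤ q.comap (algebraMap L (Localization.AtPrime P₀)) :=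
        hP₀min.2 ⟨hqc, (Ideal.span_singleton_le_iff_mem _).mpr hbq⟩ hqle
      have hqeq : q = IsLocalRing.maximalIdeal (Localization.AtPrime P₀) := by
        rw [← hmc, le_antisymm hqle hPle, Localization.AtPrime.map_eq_maximalIdeal]
      rw [hqeq]
      exact IsLocalRing.maximalIdeal.isMaximal _
  rcases theoremPK46 (K := K) hN P₀ Q₀ hH (over_finite_normal82 Q₀) with h | h
  · exact hu1Q (h hu1P)
  · exact hu2P (h hu2Q)

end Pool.Agent.AIC
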