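import Mathlib
import Pool.Agent.AIC.CenStep95

/-!
# A henselian prime is comparable with every prime of finite height

`hens_comparable_dcc83` : in an NIP domain a prime `P` with henselian localization is comparable
with every prime `Q` such that the primes contained in `Q` satisfy the descending chain condition.
-/

set_option autoImplicit false
set_option linter.style.haveILetI false

namespace Pool.Agent.AIC

open Polynomial IsLocalRing FirstOrder FirstOrder.Ring

/-- a quotient of a henselian local ring is henselian. -/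
theorem hens_surj83 {A B : Type} [CommRing A] [CommRing B] [Nontrivial B]
    (hA : HenselianLocalRing A) (f : A →+* B) (hf : Function.Surjective f) :
    HenselianLocalRing B := by
  haveI hB : IsLocalRing B := IsLocalRing.of_surjective' f hf
  haveI hl : IsLocalHom f := IsLocalHom.of_surjective f hf
  refine { toIsLocalRing := hB, is_henselian := ?_ }
  intro g hg a₀ h₀ h₁
  obtain ⟨α₀, rfl⟩ := hf a₀
  have hlift : g ∈ lifts f := by
    rw [lifts_iff_coeff_lifts]
    intro n
    exact hf _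
  obtain ⟨G, hG, -, hGm⟩ := lifts_and_natDegree_eq_and_monic hlift hg
  subst hG
  rw [eval_map, eval₂_at_apply] at h₀
  rw [derivative_map, eval_map, eval₂_at_apply] at h₁
  have h₀' : G.eval α₀ ∈ maximalIdeal A := by
    intro hu
    exact h₀ (hu.map f)
  have h₁' : IsUnit (G.derivative.eval α₀) := isUnit_of_map_unit f _ h₁
  obtain ⟨α, hα, hαm⟩ := hA.is_henselian G hGm α₀ h₀' h₁'
  refine ⟨f α, ?_, ?_⟩
  · rw [IsRoot.def, eval_map, eval₂_at_apply, IsRoot.def.1 hα, map_zero]
  · rw [← map_sub]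
    intro hu
    exact hαm (isUnit_of_map_unit f _ hu)

/-- the localization of a quotient at a henselian prime is henselian. -/
theorem hens_quotient83 {R : Type} [CommRing R] (n : Ideal R) (P : Ideal R) [hP : P.IsPrime]
    (P' : Ideal (R ⧸ n)) [hP' : P'.IsPrime] (hc : P = P'.comap (Ideal.Quotient.mk n))
    (hH : HenselianLocalRing (Localization.AtPrime P)) :
    HenselianLocalRing (Localization.AtPrime P') :=
  hens_surj83 hH (Localization.localRingHom P P' (Ideal.Quotient.mk n) hc)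
    ((RingHom.surjectiveOnStalks_of_surjective
      Ideal.Quotient.mk_surjective).localRingHom_surjective _ _ hc)

/-- the primes contained in `Q` satisfy the descending chain condition. -/
def DCCBelow83 {R : Type} [CommRing R] (Q : Ideal R) : Prop :=
  {q : Ideal R | q.IsPrime ∧ q ≤ Q}.WellFoundedOn (· < ·)

/-- a height one prime of an NIP domain has only finitely many branches. -/
theorem finite_height_one83 {R K : Type} [CommRing R] [IsDomain R] [CompatibleRing R] [Field K]
    [Algebra R K] [IsFractionRing R K] (hN : NIPRing R) (Q : Ideal R)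
    (hmin : ∀ q : Ideal R, q.IsPrime → q ≤ Q → q ≠ ⊥ → q = Q) :
    {N : Ideal (integralClosure R K) | Over Q N}.Finite := by
  refine finite_branches2 (bs_of_div (nip_div hN)) Q ?_
  intro T hfin M₁ M₂ h₁ h₂ hne ho₁ ho₂ p hp hp₁ hp₂
  by_contra hp0
  have hpc : (p.comap (algebraMap R T)).IsPrime := Ideal.comap_isPrime _ p
  have hc₁ := comap_eq_of_over82 Q M₁ ho₁
  have hc₂ := comap_eq_of_over82 Q M₂ ho₂
  have h0 : p.comap (algebraMap R T) ≠ ⊥ := fun h => hp0 (Ideal.eq_bot_of_comap_eq_bot h)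
  have hpQ : p.comap (algebraMap R T) = Q :=
    hmin _ hpc (by rw [← hc₁]; exact Ideal.comap_mono hp₁) h0
  have e₁ : p = M₁ := eq_of_comap_le95 (R := R) hp₁ (by rw [hc₁, hpQ])
  have e₂ : p = M₂ := eq_of_comap_le95 (R := R) hp₂ (by rw [hc₂, hpQ])
  exact hne (e₁.symm.trans e₂)

/-- a maximal prime contained in two given primes. -/
theorem exists_max_common83 {R : Type} [CommRing R] (P Q : Ideal R) (n₀ : Ideal R)
    (h₀ : n₀.IsPrime) (h₀P : n₀ ≤ P) (h₀Q : n₀ ≤ Q) :
    ∃ n : Ideal R, n.IsPrime ∧ n₀ ≤ n ∧ n ≤ P ∧ n ≤ Q ∧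
      ∀ q : Ideal R, q.IsPrime → n ≤ q → q ≤ P → q ≤ Q → q = n := by
  obtain ⟨n, hn₀, hmax⟩ := zorn_le_nonempty₀
    {n : Ideal R | n.IsPrime ∧ n ≤ P ∧ n ≤ Q} (by
      intro C hC hchain y hy
      obtain ⟨hprime, -⟩ := sSup_prime95 C ⟨y, hy⟩ (fun q hq => (hC hq).1) (by
        intro a ha b hb
        exact hchain.total ha hb)
      exact ⟨sSup C, ⟨hprime, sSup_le fun q hq => (hC hq).2.1, sSup_le fun q hq => (hC hq).2.2⟩,
        fun z hz => le_sSup hz⟩) n₀ ⟨h₀, h₀P, h₀Q⟩
  refine ⟨n, hmax.prop.1, hn₀, hmax.prop.2.1, hmax.prop.2.2, fun q hq hnq hqP hqQ => ?_⟩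
  exact le_antisymm (hmax.le_of_ge ⟨hq, hqP, hqQ⟩ hnq) hnq

/-- **a henselian prime of an NIP domain is comparable with every prime `Q` such that the primes
contained in `Q` satisfy the descending chain condition** (for example: `Q` of finite height). -/
theorem hens_comparable_dcc83 {R : Type} [CommRing R] [IsDomain R] [CompatibleRing R]
    (hN : NIPRing R) (P Q : Ideal R) [hP : P.IsPrime] [hQ : Q.IsPrime]
    (hH : HenselianLocalRing (Localization.AtPrime P)) (hdcc : DCCBelow83 Q) :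
    P ≤ Q ∨ Q ≤ P := by
  by_contra hcon
  push Not at hcon
  obtain ⟨hPQ, hQP⟩ := hcon
  obtain ⟨n, hn, -, hnP, hnQ, hmax⟩ := exists_max_common83 P Q ⊥ Ideal.isPrime_bot bot_le bot_le
  have hnltQ : n < Q := lt_of_le_of_ne hnQ fun h => hQP (h ▸ hnP)
  obtain ⟨Q', hQ'⟩ := (hdcc.subset (s := {q : Ideal R | (q.IsPrime ∧ q ≤ Q) ∧ n < q})
    fun q h => h.1).exists_minimal ⟨Q, ⟨hQ, le_rfl⟩, hnltQ⟩
  have hQ'p : Q'.IsPrime := hQ'.prop.1.1
  have hQ'Q : Q' ≤ Q := hQ'.prop.1.2
  have hnQ' : n < Q' := hQ'.prop.2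
  have hQ'P : ¬ Q' ≤ P := fun h => hnQ'.ne (hmax Q' hQ'p hnQ'.le h hQ'Q).symm
  have hPQ' : ¬ P ≤ Q' := fun h => hPQ (h.trans hQ'Q)
  letI : CompatibleRing (R ⧸ n) := compatibleRingOfRing _
  have hNn : NIPRing (R ⧸ n) := nip_quotient hN n
  haveI hp₁ := map_prime95 n P hnP hP
  haveI hp₂ := map_prime95 n Q' hnQ'.le hQ'p
  have hc₁ : P = (P.map (Ideal.Quotient.mk n)).comap (Ideal.Quotient.mk n) :=
    (Ideal.comap_map_mk hnP).symm
  have hH' := hens_quotient83 n P (P.map (Ideal.Quotient.mk n)) hc₁ hH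
  have hfin : {N : Ideal (integralClosure (R ⧸ n) (FractionRing (R ⧸ n))) |
      Over (Q'.map (Ideal.Quotient.mk n)) N}.Finite := by
    refine finite_height_one83 hNn _ fun q hq hqQ hq0 => ?_
    have hqc : (q.comap (Ideal.Quotient.mk n)).IsPrime := Ideal.comap_isPrime _ q
    have hnq : n < q.comap (Ideal.Quotient.mk n) := by
      refine lt_of_le_of_ne ?_ fun h => hq0 ?_
      · intro x hx
        rw [Ideal.mem_comap, Ideal.Quotient.eq_zero_iff_mem.2 hx]
        exact q.zero_mem
      · rw [eq_bot_iff]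
        intro x hx
        obtain ⟨a, rfl⟩ := Ideal.Quotient.mk_surjective x
        rw [Ideal.mem_bot, Ideal.Quotient.eq_zero_iff_mem, h]
        exact hx
    have hle : q.comap (Ideal.Quotient.mk n) ≤ Q' := by
      have h1 := Ideal.comap_mono (f := Ideal.Quotient.mk n) hqQ
      rwa [Ideal.comap_map_mk hnQ'.le] at h1
    have heq : q.comap (Ideal.Quotient.mk n) = Q' :=
      hQ'.eq_of_le ⟨⟨hqc, hle.trans hQ'Q⟩, hnq⟩ hle
    rw [← heq, Ideal.map_comap_of_surjective _ Ideal.Quotient.mk_surjective]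
  rcases theoremPF hNn (P.map (Ideal.Quotient.mk n)) (Q'.map (Ideal.Quotient.mk n)) hH' hfin
    with h | h
  · exact hPQ' (le_of_map_le95 n P Q' hnP hnQ'.le h)
  · exact hQ'P (le_of_map_le95 n Q' P hnQ'.le hnP h)

end Pool.Agent.AIC
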