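import Mathlib
import Pool.Agent.AIC.HensComp83

/-!
# Reduction to dimension one

If in all NIP finite extension domains of `R` the primes with henselian localization are
comparable with all primes, then they are central. For an NIP domain with the descending chain
condition on primes this holds; so such a domain is a henselian local ring as soon as all
one-dimensional local domains `(R ⧸ q)_p` are henselian.
-/

set_option autoImplicit false
set_option linter.style.haveILetI false

namespace Pool.Agent.AIC

open Polynomial IsLocalRing FirstOrder FirstOrder.Ring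

/-- in all NIP finite extension domains of `R` the primes with henselian localization are
comparable with all primes. -/
def HensComp83 (R : Type) [CommRing R] : Prop :=
  ∀ (U : Type) [CommRing U] [IsDomain U] [CompatibleRing U] [Algebra R U] [Module.Finite R U],
    Function.Injective (algebraMap R U) → NIPRing U → ∀ (P Q : Ideal U) [P.IsPrime] [Q.IsPrime],
    HenselianLocalRing (Localization.AtPrime P) → P ≤ Q ∨ Q ≤ P

/-- a prime with henselian localization in a finite extension gives a central prime. -/
theorem central_of_hens_gen83 {R T : Type} [CommRing R] [IsDomain R] [CommRing T] [IsDomain T]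
    [CompatibleRing T] [Algebra R T] [Module.Finite R T]
    (hinj : Function.Injective (algebraMap R T)) (hNT : NIPRing T) (hPK : HensComp83 R)
    (p' : Ideal T) [hp' : p'.IsPrime] (hH : HenselianLocalRing (Localization.AtPrime p')) :
    Central95 R (p'.comap (algebraMap R T)) := by
  classical
  intro S _ _ _ _ hinjS N M hN hM hNc
  haveI : Algebra.IsIntegral R T := Algebra.IsIntegral.of_finite R T
  haveI : Algebra.IsIntegral R S := Algebra.IsIntegral.of_finite R S
  obtain ⟨algT, towT, hfdT⟩ := finiteDim_fraction82 hinj
  obtain ⟨algS, towS, hfdS⟩ := finiteDim_fraction82 hinjS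
  -- the algebraic closure
  set W := AlgebraicClosure (FractionRing T) with hW
  letI algKW : Algebra (FractionRing R) W :=
    ((algebraMap (FractionRing T) W).comp (algebraMap (FractionRing R) (FractionRing T))).toAlgebra
  have hRW : ∀ r : R, algebraMap (FractionRing R) W (algebraMap R (FractionRing R) r)
      = algebraMap T W (algebraMap R T r) := by
    intro r
    change algebraMap (FractionRing T) W (algebraMap (FractionRing R) (FractionRing T)
      (algebraMap R (FractionRing R) r)) = _
    rw [← IsScalarTower.algebraMap_apply R (FractionRing R) (FractionRing T),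
      IsScalarTower.algebraMap_apply R T (FractionRing T),
      ← IsScalarTower.algebraMap_apply T (FractionRing T) W]
  let φ₀ : FractionRing S →ₐ[FractionRing R] W := IsAlgClosed.lift
  let φ : S →+* W := φ₀.toRingHom.comp (algebraMap S (FractionRing S))
  have hφR : ∀ r : R, φ (algebraMap R S r) = algebraMap T W (algebraMap R T r) := by
    intro r
    change φ₀ (algebraMap S (FractionRing S) (algebraMap R S r)) = _
    rw [← IsScalarTower.algebraMap_apply R S (FractionRing S),
      IsScalarTower.algebraMap_apply R (FractionRing R) (FractionRing S), φ₀.commutes, hRW]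
  have hφinj : Function.Injective φ :=
    φ₀.toRingHom.injective.comp (IsFractionRing.injective S (FractionRing S))
  have hinjTW : Function.Injective (algebraMap T W) := by
    rw [IsScalarTower.algebraMap_eq T (FractionRing T) W]
    exact (algebraMap (FractionRing T) W).injective.comp (IsFractionRing.injective T _)
  haveI : FaithfulSMul T W := (faithfulSMul_iff_algebraMap_injective _ _).mpr hinjTW
  -- the common extension
  obtain ⟨s, hs⟩ := (inferInstance : Module.Finite R S).fg_top
  have hint : ∀ x ∈ φ '' (s : Set S), IsIntegral T x := by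
    rintro _ ⟨x, _, rfl⟩
    obtain ⟨f, hf, hf0⟩ := Algebra.IsIntegral.isIntegral (R := R) x
    refine ⟨f.map (algebraMap R T), hf.map _, ?_⟩
    have hcomp : (algebraMap T W).comp (algebraMap R T) = φ.comp (algebraMap R S) := by
      ext r
      exact (hφR r).symm
    rw [eval₂_map, hcomp, ← hom_eval₂]
    have h0 : eval₂ (algebraMap R S) x f = 0 := hf0
    rw [h0, map_zero]
  set U : Subalgebra T W := Algebra.adjoin T (φ '' (s : Set S)) with hU
  haveI hUfin : Module.Finite T U := Module.Finite.iff_fg.2
    (fg_adjoin_of_finite (s.finite_toSet.image φ) hint)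
  have hφU : ∀ x : S, φ x ∈ U := by
    intro x
    have hx : x ∈ Submodule.span R (s : Set S) := by rw [hs]; exact Submodule.mem_top
    induction hx using Submodule.span_induction with
    | mem t ht => exact Algebra.subset_adjoin ⟨t, ht, rfl⟩
    | zero => rw [map_zero]; exact U.zero_mem
    | add a b _ _ ha hb => rw [map_add]; exact U.add_mem ha hb
    | smul r a _ ha =>
      rw [Algebra.smul_def, map_mul, hφR]
      exact U.mul_mem (U.algebraMap_mem _) ha
  letI : CompatibleRing U := compatibleRingOfRing _
  have hNU : NIPRing U := nip_subalgebra_plus34 (K := FractionRing T) U hNT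
  have hinjTU : Function.Injective (algebraMap T U) := by
    intro x y hxy
    exact hinjTW (congrArg Subtype.val hxy)
  let ψ : S →+* U := φ.codRestrict U hφU
  have hψinj : Function.Injective ψ := by
    intro x y hxy
    exact hφinj (congrArg Subtype.val hxy)
  letI algSU : Algebra S U := ψ.toAlgebra
  letI algRU : Algebra R U := ((algebraMap T U).comp (algebraMap R T)).toAlgebra
  haveI towRTU : IsScalarTower R T U := IsScalarTower.of_algebraMap_eq fun r => rfl
  haveI towRSU : IsScalarTower R S U := IsScalarTower.of_algebraMap_eq fun r => by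
    apply Subtype.ext
    exact (hφR r).symm
  haveI : Module.Finite R U := Module.Finite.trans T U
  haveI : Module.Finite S U := Module.Finite.of_restrictScalars_finite R S U
  haveI : Algebra.IsIntegral S U := Algebra.IsIntegral.of_finite S U
  haveI : Algebra.IsIntegral T U := Algebra.IsIntegral.of_finite T U
  have hinjRU : Function.Injective (algebraMap R U) := by
    rw [IsScalarTower.algebraMap_eq R T U]
    exact hinjTU.comp hinj
  obtain ⟨N₁, hN₁p, hN₁⟩ := exists_prime_over (R := S) (T := U) hψinj N
  obtain ⟨M₁, hM₁p, hM₁⟩ := exists_prime_over (R := S) (T := U) hψinj M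
  have hN₁c := comap_eq_of_over82 _ _ hN₁
  have hM₁c := comap_eq_of_over82 _ _ hM₁
  -- the trace on `T` is `p'`
  have hRc : ∀ J : Ideal U, (J.comap (algebraMap T U)).comap (algebraMap R T)
      = (J.comap (algebraMap S U)).comap (algebraMap R S) := by
    intro J
    rw [Ideal.comap_comap, Ideal.comap_comap, ← IsScalarTower.algebraMap_eq,
      ← IsScalarTower.algebraMap_eq]
  haveI htp : (N₁.comap (algebraMap T U)).IsPrime := Ideal.comap_isPrime _ N₁
  have htr : (N₁.comap (algebraMap T U)).comap (algebraMap R T) = p'.comap (algebraMap R T) := by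
    rw [hRc, hN₁c, hNc]
  have hcomp := hPK T hinj hNT p' (N₁.comap (algebraMap T U)) hH
  have heq : N₁.comap (algebraMap T U) = p' := by
    rcases hcomp with h | h
    · exact (eq_of_comap_le95 (R := R) h htr.le).symm
    · exact eq_of_comap_le95 (R := R) h htr.symm.le
  -- the localization at `N₁` is henselian
  have hu := unique_over_of_hens (fun A W _ _ _ _ _ _ h => closure_local_of_henselian)
    (W := W) hinjTW p' hH
  have hinjUW : Function.Injective (algebraMap U W) := Subtype.val_injective
  haveI : FaithfulSMul U W := (faithfulSMul_iff_algebraMap_injective _ _).mpr hinjUW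
  have hHU : HenselianLocalRing (Localization.AtPrime N₁) := by
    have hov : ∀ t : T, algebraMap T U t ∈ N₁ ↔ t ∈ p' := by
      intro t
      rw [← heq]
      exact Iff.rfl
    refine hens_of_unique82 (W := W) N₁ fun Z Z' hZ hZ' => ?_
    exact comap_injective (R := T) Z Z' (hu _ _ (over_comap p' N₁ hov Z hZ)
      (over_comap p' N₁ hov Z' hZ'))
  rcases hPK U hinjRU hNU N₁ M₁ hHU with h | h
  · left
    rw [← hN₁c, ← hM₁c]
    exact Ideal.comap_mono h
  · right
    rw [← hN₁c, ← hM₁c]
    exact Ideal.comap_mono h

/-- the primes of `R` satisfy the descending chain condition. -/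
def DCC83 (R : Type) [CommRing R] : Prop := {q : Ideal R | q.IsPrime}.WellFoundedOn (· < ·)

theorem DCC83.below {R : Type} [CommRing R] (h : DCC83 R) (Q : Ideal R) : DCCBelow83 Q :=
  Set.WellFoundedOn.subset h fun _ hq => hq.1

theorem DCC83.of_integral {R T : Type} [CommRing R] [CommRing T] [Algebra R T]
    [Algebra.IsIntegral R T] (h : DCC83 R) : DCC83 T := by
  have h1 := Set.WellFoundedOn.mapsTo (fun q : Ideal T => q.comap (algebraMap R T))
    (s := {q : Ideal R | q.IsPrime}) (t := {q : Ideal T | q.IsPrime})
    (fun q hq => by
      haveI : q.IsPrime := hq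
      exact Ideal.comap_isPrime _ q) h
  refine Set.WellFoundedOn.mono' ?_ h1
  intro a ha b hb hab
  haveI : a.IsPrime := ha
  exact Ideal.IsIntegral.comap_lt_comap hab

theorem DCC83.quotient {R : Type} [CommRing R] (h : DCC83 R) (n : Ideal R) : DCC83 (R ⧸ n) := by
  have h1 := Set.WellFoundedOn.mapsTo (fun q : Ideal (R ⧸ n) => q.comap (Ideal.Quotient.mk n))
    (s := {q : Ideal R | q.IsPrime}) (t := {q : Ideal (R ⧸ n) | q.IsPrime})
    (fun q hq => by
      haveI : q.IsPrime := hq
      exact Ideal.comap_isPrime _ q) h
  refine Set.WellFoundedOn.mono' ?_ h1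
  intro a ha b hb hab
  exact comap_lt_surj82 _ Ideal.Quotient.mk_surjective hab

theorem hensComp_of_dcc83 {R : Type} [CommRing R] (h : DCC83 R) : HensComp83 R := by
  intro U _ _ _ _ _ _ hN P Q _ _ hH
  haveI : Algebra.IsIntegral R U := Algebra.IsIntegral.of_finite R U
  exact hens_comparable_dcc83 hN P Q hH ((DCC83.of_integral (T := U) h).below Q)

/-- under the descending chain condition henselian primes are central. -/
theorem central_of_hens_dcc83 {R : Type} [CommRing R] [IsDomain R] [CompatibleRing R]
    (hN : NIPRing R) (h : DCC83 R) (P : Ideal R) [hP : P.IsPrime]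
    (hH : HenselianLocalRing (Localization.AtPrime P)) : Central95 R P :=
  central_of_hens_gen83 (T := R) (fun _ _ h => h) hN (hensComp_of_dcc83 h) P hH

/-- **reduction to dimension one**: an NIP domain whose primes satisfy the descending chain
condition is a henselian local ring if for every prime `q` and every minimal nonzero prime `p` of
`R ⧸ q` the (one-dimensional) localization of `R ⧸ q` at `p` is henselian. -/
theorem dim_one83 {R : Type} [CommRing R] [IsDomain R] [CompatibleRing R] (hN : NIPRing R)
    (hdcc : DCC83 R)
    (h1 : ∀ (q : Ideal R) [q.IsPrime] (p : Ideal (R ⧸ q)) [p.IsPrime], p ≠ ⊥ →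
      (∀ r : Ideal (R ⧸ q), r.IsPrime → r ≤ p → r ≠ ⊥ → r = p) →
      HenselianLocalRing (Localization.AtPrime p)) : HenselianLocalRing R := by
  classical
  obtain ⟨hUp, hUc⟩ := central_sSup95 {q : Ideal R | q.IsPrime ∧ Central95 R q}
    ⟨⊥, Ideal.isPrime_bot, central_bot95⟩ (fun q h => h.1) (fun q h => h.2)
  obtain ⟨U, hU⟩ : ∃ U, U = sSup {q : Ideal R | q.IsPrime ∧ Central95 R q} := ⟨_, rfl⟩
  rw [← hU] at hUp hUc
  by_cases hmax : U.IsMaximal
  · have hloc : IsLocalRing R := by
      refine IsLocalRing.of_unique_max_ideal ⟨U, hmax, fun M hM => ?_⟩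
      rcases hUc.comparable hUp M hM.isPrime with h | h
      · exact (hmax.eq_of_le hM.ne_top h).symm
      · exact hM.eq_of_le hmax.ne_top h
    exact henselian_of_localization hloc U (central_henselian95 U hUc)
  · exfalso
    letI : CompatibleRing (R ⧸ U) := compatibleRingOfRing _
    have hNU : NIPRing (R ⧸ U) := nip_quotient hN U
    have hdU : DCC83 (R ⧸ U) := hdcc.quotient U
    obtain ⟨M, hM, hUM⟩ := Ideal.exists_le_maximal U hUp.ne_top
    have hM0 : M.map (Ideal.Quotient.mk U) ≠ ⊥ := by
      intro h0
      apply hmax
      have h2 : M = U := by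
        have h3 := congrArg (Ideal.comap (Ideal.Quotient.mk U)) h0
        rw [Ideal.comap_map_mk hUM] at h3
        rw [h3]
        ext x
        rw [Ideal.mem_comap, Ideal.mem_bot, Ideal.Quotient.eq_zero_iff_mem]
      rw [← h2]
      exact hM
    obtain ⟨p, hp⟩ := (Set.WellFoundedOn.subset (s := {p : Ideal (R ⧸ U) | p.IsPrime ∧ p ≠ ⊥}) hdU
      fun q h => h.1).exists_minimal ⟨_, map_prime95 U M hUM hM.isPrime, hM0⟩
    haveI hpp : p.IsPrime := hp.prop.1
    have hpH := h1 U p hp.prop.2 fun r hr hrp hr0 => hp.eq_of_le ⟨hr, hr0⟩ hrp
    have hpc : Central95 (R ⧸ U) p := central_of_hens_dcc83 hNU hdU p hpH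
    have hpcR := central_of_quotient95 U hUc p hpc
    have hle : p.comap (Ideal.Quotient.mk U) ≤ U := by
      conv_rhs => rw [hU]
      exact le_sSup ⟨Ideal.comap_isPrime _ p, hpcR⟩
    apply hp.prop.2
    rw [eq_bot_iff]
    intro x hx
    obtain ⟨a, rfl⟩ := Ideal.Quotient.mk_surjective x
    rw [Ideal.mem_bot, Ideal.Quotient.eq_zero_iff_mem]
    exact hle hx

end Pool.Agent.AIC
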