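import Mathlib
import Pool.Agent.AIC.DimOne83

/-!
# One henselian prime in every quotient is enough

`Good83 R Q` : only finitely many primes of the integral closure of `R` lie over `Q`, or the primes
contained in `Q` satisfy the descending chain condition.

`exists_hens83` : let `R` be an NIP domain all of whose primes are good. If for every nonmaximal
prime `q` with `R_q` henselian, comparable with all primes, some nonzero prime `p` of `R ⧸ q` has a
henselian localization, then `R` is a henselian local ring. The converse holds for every henselian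
local domain.

`one_max_hens83` : in particular one maximal ideal with a henselian localization is enough.
-/

set_option autoImplicit false
set_option linter.style.haveILetI false

namespace Pool.Agent.AIC

open Polynomial IsLocalRing FirstOrder FirstOrder.Ring

/-- the prime `Q` is finitely branched, or the primes contained in `Q` satisfy the descending chain
condition. -/
def Good83 (R : Type) [CommRing R] [IsDomain R] (Q : Ideal R) : Prop :=
  {N : Ideal (integralClosure R (FractionRing R)) | Over Q N}.Finite ∨ DCCBelow83 Q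

theorem DCCBelow83.of_integral {R T : Type} [CommRing R] [CommRing T] [Algebra R T]
    [Algebra.IsIntegral R T] (Q : Ideal T) (h : DCCBelow83 (Q.comap (algebraMap R T))) :
    DCCBelow83 Q := by
  have h1 := Set.WellFoundedOn.mapsTo (fun q : Ideal T => q.comap (algebraMap R T))
    (s := {q : Ideal R | q.IsPrime ∧ q ≤ Q.comap (algebraMap R T)})
    (t := {q : Ideal T | q.IsPrime ∧ q ≤ Q})
    (fun q hq => by
      haveI : q.IsPrime := hq.1
      exact ⟨Ideal.comap_isPrime _ q, Ideal.comap_mono hq.2⟩) h
  refine Set.WellFoundedOn.mono' ?_ h1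
  intro a ha b hb hab
  haveI : a.IsPrime := ha.1
  exact Ideal.IsIntegral.comap_lt_comap hab

theorem DCCBelow83.quotient {R : Type} [CommRing R] (n : Ideal R) (Q : Ideal (R ⧸ n))
    (h : DCCBelow83 (Q.comap (Ideal.Quotient.mk n))) : DCCBelow83 Q := by
  have h1 := Set.WellFoundedOn.mapsTo (fun q : Ideal (R ⧸ n) => q.comap (Ideal.Quotient.mk n))
    (s := {q : Ideal R | q.IsPrime ∧ q ≤ Q.comap (Ideal.Quotient.mk n)})
    (t := {q : Ideal (R ⧸ n) | q.IsPrime ∧ q ≤ Q})
    (fun q hq => by
      haveI : q.IsPrime := hq.1
      exact ⟨Ideal.comap_isPrime _ q, Ideal.comap_mono hq.2⟩) h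
  refine Set.WellFoundedOn.mono' ?_ h1
  intro a ha b hb hab
  exact comap_lt_surj82 _ Ideal.Quotient.mk_surjective hab

/-- goodness passes to finite extension domains. -/
theorem Good83.ext {R T : Type} [CommRing R] [IsDomain R] [CommRing T] [IsDomain T] [Algebra R T]
    [Module.Finite R T] (hinj : Function.Injective (algebraMap R T)) (Q : Ideal T) [Q.IsPrime]
    (h : Good83 R (Q.comap (algebraMap R T))) : Good83 T Q := by
  haveI : Algebra.IsIntegral R T := Algebra.IsIntegral.of_finite R T
  rcases h with h | h
  · left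
    obtain ⟨alg, tow, hfd⟩ := finiteDim_fraction82 hinj
    have h1 : {N : Ideal (integralClosure R (FractionRing T)) |
        Over (Q.comap (algebraMap R T)) N}.Finite :=
      finite_over_ext82 (K := FractionRing R) _ h
    exact over_finite_tower82 (Q.comap (algebraMap R T)) Q (fun r => Iff.rfl) h1
  · exact Or.inr (DCCBelow83.of_integral (R := R) Q h)

/-- goodness passes to the quotient by a prime with henselian localization. -/
theorem Good83.quotient {R : Type} [CommRing R] [IsDomain R] (q : Ideal R) [hq : q.IsPrime]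
    (hH : HenselianLocalRing (Localization.AtPrime q)) (Q : Ideal (R ⧸ q))
    (h : Good83 R (Q.comap (Ideal.Quotient.mk q))) : Good83 (R ⧸ q) Q := by
  rcases h with h | h
  · exact Or.inl (fb_quotient95 (K := FractionRing R) q hH Q h)
  · exact Or.inr (DCCBelow83.quotient q Q h)

/-- a henselian prime is comparable with every good prime. -/
theorem hens_comparable_good83 {R : Type} [CommRing R] [IsDomain R] [CompatibleRing R]
    (hN : NIPRing R) (P Q : Ideal R) [hP : P.IsPrime] [hQ : Q.IsPrime]
    (hH : HenselianLocalRing (Localization.AtPrime P)) (h : Good83 R Q) :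
    P ≤ Q ∨ Q ≤ P := by
  rcases h with h | h
  · exact theoremPF hN P Q hH h
  · exact hens_comparable_dcc83 hN P Q hH h

theorem hensComp_of_good83 {R : Type} [CommRing R] [IsDomain R]
    (h : ∀ Q : Ideal R, Q.IsPrime → Good83 R Q) : HensComp83 R := by
  intro U _ _ _ _ _ hinj hN P Q _ _ hH
  exact hens_comparable_good83 hN P Q hH (Good83.ext hinj Q (h _ (Ideal.comap_isPrime _ Q)))

/-- in a domain with good primes the henselian primes are central. -/
theorem central_of_hens_good83 {R : Type} [CommRing R] [IsDomain R] [CompatibleRing R]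
    (hN : NIPRing R) (h : ∀ Q : Ideal R, Q.IsPrime → Good83 R Q) (P : Ideal R) [hP : P.IsPrime]
    (hH : HenselianLocalRing (Localization.AtPrime P)) : Central95 R P :=
  central_of_hens_gen83 (T := R) (fun _ _ h => h) hN (hensComp_of_good83 h) P hH

/-- **one henselian prime in every quotient is enough.** -/
theorem exists_hens83 {R : Type} [CommRing R] [IsDomain R] [CompatibleRing R] (hN : NIPRing R)
    (hgood : ∀ Q : Ideal R, Q.IsPrime → Good83 R Q)
    (h1 : ∀ (q : Ideal R) [q.IsPrime], ¬ q.IsMaximal →
      (∀ Q : Ideal R, Q.IsPrime → q ≤ Q ∨ Q ≤ q) → HenselianLocalRing (Localization.AtPrime q) →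
      ∃ (p : Ideal (R ⧸ q)) (_ : p.IsPrime), p ≠ ⊥ ∧
        HenselianLocalRing (Localization.AtPrime p)) : HenselianLocalRing R := by
  classical
  obtain ⟨hUp, hUc⟩ := central_sSup95 {q : Ideal R | q.IsPrime ∧ Central95 R q}
    ⟨⊥, Ideal.isPrime_bot, central_bot95⟩ (fun q h => h.1) (fun q h => h.2)
  obtain ⟨U, hU⟩ : ∃ U, U = sSup {q : Ideal R | q.IsPrime ∧ Central95 R q} := ⟨_, rfl⟩
  rw [← hU] at hUp hUc
  by_cases hmax : U.IsMaximal
  · have hloc : IsLocalRing R := by
      refine IsLocalRing.of_unique_max_ideal ⟨U, hmax, fun M hM => ?_⟩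
      rcases hUc.comparable hUp M hM.isPrime with h | h
      · exact (hmax.eq_of_le hM.ne_top h).symm
      · exact hM.eq_of_le hmax.ne_top h
    exact henselian_of_localization hloc U (central_henselian95 U hUc)
  · exfalso
    letI : CompatibleRing (R ⧸ U) := compatibleRingOfRing _
    have hNU : NIPRing (R ⧸ U) := nip_quotient hN U
    have hUH := central_henselian95 U hUc
    obtain ⟨p, hpp, hp0, hpH⟩ := h1 U hmax (fun Q hQ => hUc.comparable hUp Q hQ) hUH
    have hgU : ∀ Q : Ideal (R ⧸ U), Q.IsPrime → Good83 (R ⧸ U) Q := fun Q hQ =>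
      Good83.quotient U hUH Q (hgood _ (Ideal.comap_isPrime _ Q))
    have hpc : Central95 (R ⧸ U) p := central_of_hens_good83 hNU hgU p hpH
    have hpcR := central_of_quotient95 U hUc p hpc
    have hle : p.comap (Ideal.Quotient.mk U) ≤ U := by
      conv_rhs => rw [hU]
      exact le_sSup ⟨Ideal.comap_isPrime _ p, hpcR⟩
    apply hp0
    rw [eq_bot_iff]
    intro x hx
    obtain ⟨a, rfl⟩ := Ideal.Quotient.mk_surjective x
    rw [Ideal.mem_bot, Ideal.Quotient.eq_zero_iff_mem]
    exact hle hx

/-- one maximal ideal with henselian localization is enough. -/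
theorem one_max_hens83 {R : Type} [CommRing R] [IsDomain R] [CompatibleRing R] (hN : NIPRing R)
    (hgood : ∀ Q : Ideal R, Q.IsMaximal → Good83 R Q) (M : Ideal R) [hM : M.IsMaximal]
    (hH : HenselianLocalRing (Localization.AtPrime M)) : HenselianLocalRing R := by
  refine henselian_of_localization ?_ M hH
  refine IsLocalRing.of_unique_max_ideal ⟨M, hM, fun M' hM' => ?_⟩
  haveI := hM'.isPrime
  rcases hens_comparable_good83 hN M M' hH (hgood M' hM') with h | h
  · exact (hM.eq_of_le hM'.ne_top h).symm
  · exact hM'.eq_of_le hM.ne_top h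

/-- the localization of a henselian local ring at its maximal ideal is henselian. -/
theorem hens_at_max83 {R : Type} [CommRing R] (hR : HenselianLocalRing R) :
    HenselianLocalRing (Localization.AtPrime (maximalIdeal R)) := by
  refine hens_surj83 hR (algebraMap R (Localization.AtPrime (maximalIdeal R))) ?_
  intro x
  obtain ⟨a, s, rfl⟩ := IsLocalization.exists_mk'_eq (maximalIdeal R).primeCompl x
  have hs : IsUnit (s : R) := by
    by_contra h
    exact s.2 h
  obtain ⟨t, ht⟩ := hs
  refine ⟨a * (↑t⁻¹ : R), ?_⟩
  rw [IsLocalization.eq_mk'_iff_mul_eq, ← map_mul, ← ht, mul_assoc, Units.inv_mul, mul_one]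

/-- the converse. -/
theorem exists_hens_converse83 {R : Type} [CommRing R] (hR : HenselianLocalRing R)
    (q : Ideal R) [hq : q.IsPrime] (hmax : ¬ q.IsMaximal) :
    ∃ (p : Ideal (R ⧸ q)) (_ : p.IsPrime), p ≠ ⊥ ∧
      HenselianLocalRing (Localization.AtPrime p) := by
  have hle : q ≤ maximalIdeal R := le_maximalIdeal hq.ne_top
  have hp := map_prime95 q (maximalIdeal R) hle (maximalIdeal.isMaximal R).isPrime
  have hc : (((maximalIdeal R).map (Ideal.Quotient.mk q)).comap (Ideal.Quotient.mk q))
      = maximalIdeal R := Ideal.comap_map_mk hle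
  refine ⟨(maximalIdeal R).map (Ideal.Quotient.mk q), hp, ?_,
    hens_quotient83 q (maximalIdeal R) _ hc.symm (hens_at_max83 hR)⟩
  intro h0
  apply hmax
  have h2 : maximalIdeal R = q := by
    rw [← hc, h0]
    ext x
    rw [Ideal.mem_comap, Ideal.mem_bot, Ideal.Quotient.eq_zero_iff_mem]
  rw [← h2]
  exact maximalIdeal.isMaximal R

end Pool.Agent.AIC
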