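import Mathlib
import Pool.Agent.AIC.DimOne83

/-!
# Theorem D: two forms of the reduction to dimension one
-/

set_option autoImplicit false

namespace Pool.Agent.AIC

open Polynomial IsLocalRing FirstOrder FirstOrder.Ring

/-- a minimal nonzero prime of a domain has height one. -/
theorem height_one83 {A : Type} [CommRing A] [IsDomain A] (p : Ideal A) [hp : p.IsPrime]
    (hp0 : p ≠ ⊥) (hmin : ∀ r : Ideal A, r.IsPrime → r ≤ p → r ≠ ⊥ → r = p) : p.height = 1 := by
  apply le_antisymm
  · have h1 := (Ideal.height_le_iff (p := p) (n := 1)).2 (by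
      intro q hq hlt
      have h2 : q = ⊥ := by
        by_contra hq0
        exact hlt.ne (hmin q hq hlt.le hq0)
      rw [h2, Ideal.height_bot]
      simp)
    exact h1
  · rw [Order.one_le_iff_ne_zero]
    intro h0
    exact hp0 (Ideal.height_eq_zero_iff_eq_bot.1 h0)

/-- **Theorem D**: an NIP domain with the descending chain condition on primes is a henselian
local ring if `(R ⧸ q)_p` is henselian for all primes `q` of `R` and all height one primes `p` of
`R ⧸ q`. -/
theorem theoremD_height83 {R : Type} [CommRing R] [IsDomain R] [CompatibleRing R] (hN : NIPRing R)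
    (hdcc : {P : Ideal R | P.IsPrime}.WellFoundedOn (· < ·))
    (h1 : ∀ (q : Ideal R) [q.IsPrime] (p : Ideal (R ⧸ q)) [p.IsPrime], p.height = 1 →
      HenselianLocalRing (Localization.AtPrime p)) : HenselianLocalRing R :=
  dim_one83 hN hdcc fun q _ p _ hp0 hmin => h1 q p (height_one83 p hp0 hmin)

/-- **Theorem D** for consecutive primes of `R`. -/
theorem theoremD83 {R : Type} [CommRing R] [IsDomain R] [CompatibleRing R] (hN : NIPRing R)
    (hdcc : {P : Ideal R | P.IsPrime}.WellFoundedOn (· < ·))
    (h1 : ∀ q p : Ideal R, q.IsPrime → p.IsPrime → q < p →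
      (∀ n : Ideal R, n.IsPrime → q < n → n ≤ p → n = p) →
      ∀ _ : (p.map (Ideal.Quotient.mk q)).IsPrime,
      HenselianLocalRing (Localization.AtPrime (p.map (Ideal.Quotient.mk q)))) :
    HenselianLocalRing R := by
  refine dim_one83 hN hdcc fun q hq p hp hp0 hmin => ?_
  have hqc : q ≤ p.comap (Ideal.Quotient.mk q) := by
    intro x hx
    rw [Ideal.mem_comap, Ideal.Quotient.eq_zero_iff_mem.2 hx]
    exact p.zero_mem
  have hpm : (p.comap (Ideal.Quotient.mk q)).map (Ideal.Quotient.mk q) = p :=
    Ideal.map_comap_of_surjective _ Ideal.Quotient.mk_surjective p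
  have hne : q ≠ p.comap (Ideal.Quotient.mk q) := by
    intro h
    apply hp0
    rw [← hpm, ← h, Ideal.map_quotient_self]
  have hcp : (p.comap (Ideal.Quotient.mk q)).IsPrime := Ideal.comap_isPrime _ p
  have h2 := h1 q (p.comap (Ideal.Quotient.mk q)) hq hcp (lt_of_le_of_ne hqc hne) (by
    intro n hn hqn hnp
    have hnc : (n.map (Ideal.Quotient.mk q)).comap (Ideal.Quotient.mk q) = n :=
      Ideal.comap_map_mk hqn.le
    have hnm : (n.map (Ideal.Quotient.mk q)).IsPrime := map_prime95 q n hqn.le hn
    have h3 := hmin _ hnm (by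
      have h4 := Ideal.map_mono (f := Ideal.Quotient.mk q) hnp
      rwa [hpm] at h4) (by
      intro h0
      apply hqn.ne
      rw [← hnc, h0]
      ext x
      rw [Ideal.mem_comap, Ideal.mem_bot, Ideal.Quotient.eq_zero_iff_mem])
    rw [← hnc, h3])
  have h5 : ∀ p' : Ideal (R ⧸ q), p' = p → ∀ _ : p'.IsPrime, (∀ _ : p'.IsPrime,
      HenselianLocalRing (Localization.AtPrime p')) → HenselianLocalRing (Localization.AtPrime p) := by
    rintro p' rfl h6 h7
    exact h7 h6
  exact h5 _ hpm (by rw [hpm]; exact hp) h2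

end Pool.Agent.AIC
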