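import Pool.Agent.AIC.UnbDense46
import Pool.Agent.AIC.EndF32

/-!
# MP_313bb4: Theorem F

An NIP domain with the ascending chain condition on prime ideals, whose residue fields at the
nonmaximal primes are of henselian type, is a henselian local ring.
-/

set_option autoImplicit false
set_option linter.style.haveILetI false

namespace Pool.Agent.AIC

open Polynomial IsLocalRing FirstOrder.Ring

/-- from the induction to a henselian localization. -/
theorem hens_of_SA32 {R W : Type} [CommRing R] [IsDomain R] [CompatibleRing R] [Field W]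
    [IsAlgClosed W] [Algebra R W] [Algebra (FractionRing R) W]
    [IsScalarTower R (FractionRing R) W] (hN : NIPRing R) {PP : Set (Ideal R)}
    (hS : SA R PP ⊥) (P : Ideal R) [hP : P.IsPrime] (hPP : P ∈ PP) :
    HenselianLocalRing (Localization.AtPrime P) := by
  have hinjW : Function.Injective (algebraMap R W) := by
    rw [IsScalarTower.algebraMap_eq R (FractionRing R) W]
    exact (algebraMap (FractionRing R) W).injective.comp (IsFractionRing.injective R _)
  haveI : FaithfulSMul R W := (faithfulSMul_iff_algebraMap_injective _ _).mpr hinjW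
  refine hens_of_pairs82 (W := W) P ?_
  intro T' hfin M₁ M₂ h₁ h₂ ho₁ ho₂
  letI : CompatibleRing T' := compatibleRingOfRing _
  have hNT : NIPRing T' := nip_subalgebra_plus (K := FractionRing R) T' hN
  have hinj : Function.Injective (algebraMap R T') := by
    intro x y hxy
    exact hinjW (congrArg Subtype.val hxy)
  refine hS T' hNT (fun a => ?_) M₁ M₂ h₁ h₂ ?_ ?_
  · rw [Ideal.mem_bot, map_eq_zero_iff _ hinj]
  · rw [comap_eq_of_over82 P M₁ ho₁]
    exact hPP
  · rw [comap_eq_of_over82 P M₂ ho₂]
    exact hPP

/-- **Theorem F** for a set `PP` of primes which is closed under smaller primes and has the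
ascending chain condition: if the residue fields below the members of `PP` are of henselian type,
then the members of `PP` are pairwise comparable and the localizations at them are henselian. -/
theorem theoremF_set {R : Type} [CommRing R] [IsDomain R] [CompatibleRing R] (hN : NIPRing R)
    (PP : Set (Ideal R)) (hprime : ∀ P ∈ PP, P.IsPrime)
    (hlow : ∀ P ∈ PP, ∀ q : Ideal R, q.IsPrime → q ≤ P → q ∈ PP)
    (hacc : PP.WellFoundedOn (· > ·))
    (hH : ∀ P ∈ PP, ∀ (q : Ideal R) [q.IsPrime], q < P → HType (FractionRing (R ⧸ q))) :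
    (∀ P ∈ PP, ∀ Q ∈ PP, P ≤ Q ∨ Q ≤ P) ∧
      ∀ (P : Ideal R) [P.IsPrime], P ∈ PP → HenselianLocalRing (Localization.AtPrime P) := by
  have hS : ∀ P ∈ PP, SA R PP ⊥ := fun P hP =>
    sA_all82 unboundedDense46 PP hlow hacc (fun P hP => HBelow.of_residue94 P (hH P hP)) ⊥
      (hlow P hP ⊥ Ideal.isPrime_bot bot_le)
  refine ⟨fun P hP Q hQ => ?_, fun P _ hP => ?_⟩
  · exact hS P hP R hN (fun a => by rw [Ideal.mem_bot]; rfl) P Q (hprime P hP) (hprime Q hQ) hP hQ
  · exact hens_of_SA32 (W := AlgebraicClosure (FractionRing R)) hN (hS P hP) P hP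

/-- **Theorem F**: an NIP domain with the ascending chain condition on prime ideals, whose residue
fields at nonmaximal primes are of henselian type, is a henselian local ring. -/
theorem theoremF {R : Type} [CommRing R] [IsDomain R] [CompatibleRing R] (hN : NIPRing R)
    (hacc : {P : Ideal R | P.IsPrime}.WellFoundedOn (· > ·))
    (hH : ∀ (q : Ideal R) [q.IsPrime], ¬ q.IsMaximal → HType (FractionRing (R ⧸ q))) :
    HenselianLocalRing R := by
  have h := theoremF_set hN {P : Ideal R | P.IsPrime} (fun P hP => hP)
    (fun P _ q hq _ => hq) hacc (fun P hP q hq hlt => hH q fun hmax => by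
      have hP' : P.IsPrime := hP
      exact hlt.ne (hmax.eq_of_le hP'.ne_top hlt.le))
  exact henselian_of_all32 (fun P Q hP hQ => h.1 P hP Q hQ) (fun P hP => h.2 P hP)

end Pool.Agent.AIC
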