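import Mathlib
import Pool.Agent.AIC.ExistsHens83
import Pool.Agent.AIC.TheoremD83
import Pool.Agent.AIC.TheoremF32
import Pool.Agent.AIC.DefsV95
import Pool.Agent.AIC.LocNip83

/-!
# Theorem V: from semilocal rings with two nonzero primes to all domains with the descending chain
condition
-/

set_option autoImplicit false
set_option linter.style.haveILetI false

namespace Pool.Agent.AIC

open Polynomial IsLocalRing FirstOrder FirstOrder.Ring

/-- no NIP domain has exactly two nonzero primes, both maximal. -/
def TwoPrime83 : Prop :=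
  ∀ (T : Type) [CommRing T] [IsDomain T] [CompatibleRing T], NIPRing T →
    ∀ m1 m2 : Ideal T, m1.IsMaximal → m2.IsMaximal → m1 ≠ m2 →
      (∀ p : Ideal T, p.IsPrime → p = ⊥ ∨ p = m1 ∨ p = m2) → False

/-- `p` is minimal among the nonzero primes. -/
def MinPrime83 {A : Type} [CommRing A] (p : Ideal A) : Prop :=
  ∀ r : Ideal A, r.IsPrime → r ≤ p → r = ⊥ ∨ r = p

/-- a prime of an integral extension over a minimal nonzero prime is a minimal nonzero prime. -/
theorem minPrime_over83 {A T : Type} [CommRing A] [IsDomain A] [CommRing T] [IsDomain T]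
    [Algebra A T] [Algebra.IsIntegral A T] (P : Ideal A) (hP : MinPrime83 P) (M : Ideal T)
    [M.IsPrime] (hM : ∀ a, algebraMap A T a ∈ M ↔ a ∈ P) : MinPrime83 M := by
  intro r hr hrM
  haveI := hr
  have h1 : (r.comap (algebraMap A T)).IsPrime := Ideal.comap_isPrime _ r
  have h2 : r.comap (algebraMap A T) ≤ P := by
    intro a ha
    exact (hM a).1 (hrM ha)
  rcases hP _ h1 h2 with h3 | h3
  · left
    exact Ideal.eq_bot_of_comap_eq_bot h3
  · right
    refine eq_of_le_over82 P r M (fun a => ?_) hM hrM
    rw [← h3, Ideal.mem_comap]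

/-- the primes of the localization at two minimal nonzero primes. -/
theorem primes_two83 {T : Type} [CommRing T] [IsDomain T] (P Q : Ideal T) [hP : P.IsPrime]
    [hQ : Q.IsPrime] (hPm : MinPrime83 P) (hQm : MinPrime83 Q)
    (p : Ideal (Localization (Scomp P Q))) (hp : p.IsPrime) : p = ⊥ ∨
      p = P.map (algebraMap T (Localization (Scomp P Q))) ∨
      p = Q.map (algebraMap T (Localization (Scomp P Q))) := by
  have hup : (p.under T).IsPrime := Ideal.comap_isPrime _ p
  have hmap : (p.under T).map (algebraMap T (Localization (Scomp P Q))) = p :=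
    IsLocalization.map_under (Scomp P Q) _ p
  rcases le_or_le P Q p hp.ne_top with h | h
  · have h3 : p.under T ≤ P := by
      intro x hx
      exact (mem_map_left P Q x).1 (h hx)
    rcases hPm _ hup h3 with h4 | h4
    · left
      rw [← hmap, h4, Ideal.map_bot]
    · right
      left
      rw [← hmap, h4]
  · have h3 : p.under T ≤ Q := by
      intro x hx
      exact (mem_map_right P Q x).1 (h hx)
    rcases hQm _ hup h3 with h4 | h4
    · left
      rw [← hmap, h4, Ideal.map_bot]
    · right
      right
      rw [← hmap, h4]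

/-- two incomparable minimal nonzero primes of an NIP domain: the localization at both of them
has exactly two nonzero primes. -/
theorem comparable_min83 (h2 : TwoPrime83) {T : Type} [CommRing T] [IsDomain T] [CompatibleRing T]
    (hN : NIPRing T) (P Q : Ideal T) [hP : P.IsPrime] [hQ : Q.IsPrime] (hPm : MinPrime83 P)
    (hQm : MinPrime83 Q) : P ≤ Q ∨ Q ≤ P := by
  by_contra hcon
  obtain ⟨hPQ, hQP⟩ := not_or.1 hcon
  letI : CompatibleRing (Localization (Scomp P Q)) := compatibleRingOfRing _
  haveI := isDomain_L P Q
  have hNL : NIPRing (Localization (Scomp P Q)) := nip_two hN P Q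
  exact h2 _ hNL _ _ (max_left P Q hPQ) (max_right P Q hQP) (ne_left_right P Q hPQ)
    (primes_two83 P Q hPm hQm)

/-- the localization of an NIP domain at a minimal nonzero prime is henselian. -/
theorem hens_min83 (h2 : TwoPrime83) {A : Type} [CommRing A] [IsDomain A] [CompatibleRing A]
    (hN : NIPRing A) (P : Ideal A) [hP : P.IsPrime] (hPm : MinPrime83 P) :
    HenselianLocalRing (Localization.AtPrime P) := by
  have hinjW : Function.Injective (algebraMap A (AlgebraicClosure (FractionRing A))) := by
    rw [IsScalarTower.algebraMap_eq A (FractionRing A) (AlgebraicClosure (FractionRing A))]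
    exact (algebraMap (FractionRing A) _).injective.comp (IsFractionRing.injective A _)
  haveI : FaithfulSMul A (AlgebraicClosure (FractionRing A)) :=
    (faithfulSMul_iff_algebraMap_injective _ _).mpr hinjW
  refine hens_of_pairs82 (W := AlgebraicClosure (FractionRing A)) P ?_
  intro T hTfin M₁ M₂ hM₁ hM₂ h₁ h₂
  letI : CompatibleRing T := compatibleRingOfRing _
  have hNT : NIPRing T := nip_subalgebra_plus34 (K := FractionRing A) T hN
  haveI : Algebra.IsIntegral A T := Algebra.IsIntegral.of_finite A T
  exact comparable_min83 h2 hNT M₁ M₂ (minPrime_over83 P hPm M₁ h₁) (minPrime_over83 P hPm M₂ h₂)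

/-- **row V7**: an NIP domain whose primes are good (finitely branched, or with the descending
chain condition below) and in which every nonmaximal prime that is comparable with all primes has
a cover is a henselian local ring. -/
theorem hens_of_twoPrime83 (h2 : TwoPrime83) {R : Type} [CommRing R] [IsDomain R]
    [CompatibleRing R] (hN : NIPRing R) (hgood : ∀ Q : Ideal R, Q.IsPrime → Good83 R Q)
    (hcov : ∀ q : Ideal R, q.IsPrime → ¬ q.IsMaximal →
      (∀ Q : Ideal R, Q.IsPrime → q ≤ Q ∨ Q ≤ q) →
      ∃ p : Ideal R, p.IsPrime ∧ q < p ∧ ∀ n : Ideal R, n.IsPrime → q < n → n ≤ p → n = p) :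
    HenselianLocalRing R := by
  refine exists_hens83 hN hgood ?_
  intro q hq hqm hqc _
  obtain ⟨p, hp, hqp, hmin⟩ := hcov q hq hqm hqc
  haveI := hp
  letI : CompatibleRing (R ⧸ q) := compatibleRingOfRing _
  have hNq : NIPRing (R ⧸ q) := nip_quotient hN q
  have hpm : (p.map (Ideal.Quotient.mk q)).IsPrime := map_prime95 q p hqp.le hp
  have hpc : (p.map (Ideal.Quotient.mk q)).comap (Ideal.Quotient.mk q) = p :=
    Ideal.comap_map_mk hqp.le
  refine ⟨p.map (Ideal.Quotient.mk q), hpm, ?_, ?_⟩
  · intro h0
    rw [h0] at hpc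
    apply hqp.ne
    rw [← hpc]
    ext x
    rw [Ideal.mem_comap, Ideal.mem_bot, Ideal.Quotient.eq_zero_iff_mem]
  · refine hens_min83 h2 hNq (p.map (Ideal.Quotient.mk q)) ?_
    intro r hr hrp
    have h3 : (r.comap (Ideal.Quotient.mk q)).map (Ideal.Quotient.mk q) = r :=
      Ideal.map_comap_of_surjective _ Ideal.Quotient.mk_surjective r
    have h4 : (r.comap (Ideal.Quotient.mk q)).IsPrime := Ideal.comap_isPrime _ r
    have h5 : r.comap (Ideal.Quotient.mk q) ≤ p := by
      rw [← hpc]
      exact Ideal.comap_mono hrp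
    have h6 : q ≤ r.comap (Ideal.Quotient.mk q) := by
      intro x hx
      rw [Ideal.mem_comap, Ideal.Quotient.eq_zero_iff_mem.2 hx]
      exact r.zero_mem
    rcases h6.eq_or_lt with h7 | h7
    · left
      rw [← h3, ← h7, Ideal.map_quotient_self]
    · right
      rw [← h3, hmin _ h4 h7 h5]

/-- row V7 with the descending chain condition. -/
theorem hens_dcc_of_twoPrime83 (h2 : TwoPrime83) {R : Type} [CommRing R] [IsDomain R]
    [CompatibleRing R] (hN : NIPRing R) (hdcc : {P : Ideal R | P.IsPrime}.WellFoundedOn (· < ·)) :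
    HenselianLocalRing R := by
  refine dim_one83 hN hdcc fun q hq p hp hp0 hmin => ?_
  letI : CompatibleRing (R ⧸ q) := compatibleRingOfRing _
  exact hens_min83 h2 (nip_quotient hN q) p fun r hr hrp =>
    (em (r = ⊥)).imp id fun h0 => hmin r hr hrp h0

end Pool.Agent.AIC
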