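import Mathlib
import Pool.Agent.AIC.V7_83
import Pool.Agent.AIC.M.NipFin3

/-!
# Theorem V: the local form of the reduction

If an NIP domain (in which between any two primes `q < Q` there is a prime minimal above `q`) is
not a henselian local ring, then some finite extension of one of its quotient domains has two
incomparable minimal nonzero primes.
-/

set_option autoImplicit false
set_option linter.style.haveILetI false

namespace Pool.Agent.AIC

open Polynomial IsLocalRing FirstOrder FirstOrder.Ring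

/-- between two primes `q < Q` there is a prime which is minimal above `q`. -/
def SC83 (R : Type) [CommRing R] : Prop :=
  ∀ q Q : Ideal R, q.IsPrime → Q.IsPrime → q < Q →
    ∃ p : Ideal R, p.IsPrime ∧ q < p ∧ p ≤ Q ∧
      ∀ n : Ideal R, n.IsPrime → q < n → n ≤ p → n = p

/-- any two minimal nonzero primes of a finite extension of a quotient domain are comparable. -/
def LocTwo83 (R : Type) [CommRing R] : Prop :=
  ∀ (q : Ideal R) [q.IsPrime] (T : Type) [CommRing T] [IsDomain T] [Algebra (R ⧸ q) T]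
    [Module.Finite (R ⧸ q) T] [FaithfulSMul (R ⧸ q) T] (M₁ M₂ : Ideal T), M₁.IsPrime →
    M₂.IsPrime → MinPrime83 M₁ → MinPrime83 M₂ → M₁ ≤ M₂ ∨ M₂ ≤ M₁

/-- a descending chain condition gives covers. -/
theorem sc_of_dcc83 {R : Type} [CommRing R]
    (h : {P : Ideal R | P.IsPrime}.WellFoundedOn (· < ·)) : SC83 R := by
  intro q Q hq hQ hlt
  obtain ⟨p, hp⟩ := (Set.WellFoundedOn.subset
    (s := {p : Ideal R | p.IsPrime ∧ q < p ∧ p ≤ Q}) h fun q h => h.1).exists_minimal
      ⟨Q, hQ, hlt, le_rfl⟩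
  refine ⟨p, hp.prop.1, hp.prop.2.1, hp.prop.2.2, fun n hn hqn hnp => ?_⟩
  exact hp.eq_of_le ⟨hn, hqn, hnp.trans hp.prop.2.2⟩ hnp

theorem minPrime_map83 {R : Type} [CommRing R] (q p : Ideal R) (hqp : q ≤ p)
    (hmin : ∀ n : Ideal R, n.IsPrime → q < n → n ≤ p → n = p) :
    MinPrime83 (p.map (Ideal.Quotient.mk q)) := by
  have hpc : (p.map (Ideal.Quotient.mk q)).comap (Ideal.Quotient.mk q) = p :=
    Ideal.comap_map_mk hqp
  intro r hr hrp
  have h3 : (r.comap (Ideal.Quotient.mk q)).map (Ideal.Quotient.mk q) = r :=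
    Ideal.map_comap_of_surjective _ Ideal.Quotient.mk_surjective r
  have h4 : (r.comap (Ideal.Quotient.mk q)).IsPrime := Ideal.comap_isPrime _ r
  have h5 : r.comap (Ideal.Quotient.mk q) ≤ p := by
    rw [← hpc]
    exact Ideal.comap_mono hrp
  have h6 : q ≤ r.comap (Ideal.Quotient.mk q) := by
    intro x hx
    rw [Ideal.mem_comap, Ideal.Quotient.eq_zero_iff_mem.2 hx]
    exact r.zero_mem
  rcases h6.eq_or_lt with h7 | h7
  · left
    rw [← h3, ← h7, Ideal.map_quotient_self]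
  · right
    rw [← h3, hmin _ h4 h7 h5]

/-- covers are unique. -/
theorem cover_unique83 {R : Type} [CommRing R] (h : LocTwo83 R) (q p₁ p₂ : Ideal R)
    (hq : q.IsPrime) (hp₁ : p₁.IsPrime) (hp₂ : p₂.IsPrime) (h1 : q < p₁) (h2 : q < p₂)
    (hm1 : ∀ n : Ideal R, n.IsPrime → q < n → n ≤ p₁ → n = p₁)
    (hm2 : ∀ n : Ideal R, n.IsPrime → q < n → n ≤ p₂ → n = p₂) : p₁ = p₂ := by
  have e1 : (p₁.map (Ideal.Quotient.mk q)).comap (Ideal.Quotient.mk q) = p₁ :=
    Ideal.comap_map_mk h1.le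
  have e2 : (p₂.map (Ideal.Quotient.mk q)).comap (Ideal.Quotient.mk q) = p₂ :=
    Ideal.comap_map_mk h2.le
  rcases h q (R ⧸ q) (p₁.map (Ideal.Quotient.mk q)) (p₂.map (Ideal.Quotient.mk q))
    (map_prime95 q p₁ h1.le hp₁) (map_prime95 q p₂ h2.le hp₂) (minPrime_map83 q p₁ h1.le hm1)
    (minPrime_map83 q p₂ h2.le hm2) with h3 | h3
  · have h4 : p₁ ≤ p₂ := by
      rw [← e1, ← e2]
      exact Ideal.comap_mono h3
    exact hm2 p₁ hp₁ h1 h4
  · have h4 : p₂ ≤ p₁ := by
      rw [← e1, ← e2]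
      exact Ideal.comap_mono h3
    exact (hm1 p₂ hp₂ h2 h4).symm

/-- with unique covers the descending chain condition holds. -/
theorem dcc_of_sc83 {R : Type} [CommRing R] (h : LocTwo83 R) (hsc : SC83 R) : DCC83 R := by
  unfold DCC83
  rw [Set.wellFoundedOn_iff_no_descending_seq]
  intro f hf
  have hanti : StrictAnti f := fun a b hab => f.map_rel_iff.2 hab
  have hchain : IsChain (· ≤ ·) (Set.range (f : ℕ → Ideal R)) := by
    rintro _ ⟨a, rfl⟩ _ ⟨b, rfl⟩ _
    rcases le_total a b with hab | hab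
    · exact Or.inr (hanti.antitone hab)
    · exact Or.inl (hanti.antitone hab)
  obtain ⟨q, hq⟩ : ∃ q, q = sInf (Set.range (f : ℕ → Ideal R)) := ⟨_, rfl⟩
  have hqp : q.IsPrime := by
    rw [hq]
    refine Ideal.sInf_isPrime_of_isChain ⟨f 0, 0, rfl⟩ hchain ?_
    rintro _ ⟨a, rfl⟩
    exact hf a
  have hle : ∀ n, q ≤ f n := fun n => by
    rw [hq]
    exact sInf_le ⟨n, rfl⟩
  have hlt : ∀ n, q < f n := fun n => lt_of_le_of_lt (hle (n + 1)) (hanti (Nat.lt_succ_self n))
  choose c hc using fun n => hsc q (f n) hqp (hf n) (hlt n)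
  have hcu : ∀ n, c n = c 0 := fun n =>
    cover_unique83 h q (c n) (c 0) hqp (hc n).1 (hc 0).1 (hc n).2.1 (hc 0).2.1 (hc n).2.2.2
      (hc 0).2.2.2
  have h0 : c 0 ≤ q := by
    rw [hq]
    refine le_sInf ?_
    rintro _ ⟨n, rfl⟩
    rw [← hcu n]
    exact (hc n).2.2.1
  exact (lt_of_lt_of_le (hc 0).2.1 h0).false

/-- the localization of a quotient domain at a minimal nonzero prime is henselian. -/
theorem hens_min_loc83 {R : Type} [CommRing R] (h : LocTwo83 R) (q : Ideal R) [hq : q.IsPrime]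
    (P : Ideal (R ⧸ q)) [hP : P.IsPrime] (hPm : MinPrime83 P) :
    HenselianLocalRing (Localization.AtPrime P) := by
  have hinjW : Function.Injective
      (algebraMap (R ⧸ q) (AlgebraicClosure (FractionRing (R ⧸ q)))) := by
    rw [IsScalarTower.algebraMap_eq (R ⧸ q) (FractionRing (R ⧸ q))
      (AlgebraicClosure (FractionRing (R ⧸ q)))]
    exact (algebraMap (FractionRing (R ⧸ q)) _).injective.comp (IsFractionRing.injective _ _)
  haveI : FaithfulSMul (R ⧸ q) (AlgebraicClosure (FractionRing (R ⧸ q))) :=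
    (faithfulSMul_iff_algebraMap_injective _ _).mpr hinjW
  refine hens_of_pairs82 (W := AlgebraicClosure (FractionRing (R ⧸ q))) P ?_
  intro T hTfin M₁ M₂ hM₁ hM₂ h₁ h₂
  haveI : Algebra.IsIntegral (R ⧸ q) T := Algebra.IsIntegral.of_finite _ T
  haveI : FaithfulSMul (R ⧸ q) T := by
    rw [faithfulSMul_iff_algebraMap_injective]
    intro x y hxy
    exact hinjW (congrArg Subtype.val hxy)
  exact h q T M₁ M₂ hM₁ hM₂ (minPrime_over83 P hPm M₁ h₁) (minPrime_over83 P hPm M₂ h₂)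

theorem hens_of_sc83 {R : Type} [CommRing R] [IsDomain R] [CompatibleRing R] (hN : NIPRing R)
    (hsc : SC83 R) (h : LocTwo83 R) : HenselianLocalRing R :=
  dim_one83 hN (dcc_of_sc83 h hsc) fun q _ p _ _ hmin =>
    hens_min_loc83 h q p fun r hr hrp => (em (r = ⊥)).imp id fun h0 => hmin r hr hrp h0

/-- **the local form**: a domain `T`, finite over a quotient domain `R ⧸ q`, with two incomparable
minimal nonzero primes. -/
theorem exists_pair83 {R : Type} [CommRing R] [IsDomain R] [CompatibleRing R] (hN : NIPRing R)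
    (hsc : SC83 R) (hH : ¬ HenselianLocalRing R) :
    ∃ (q : Ideal R) (_ : q.IsPrime) (T : Type) (_ : CommRing T) (_ : IsDomain T)
      (_ : Algebra (R ⧸ q) T) (_ : Module.Finite (R ⧸ q) T) (_ : FaithfulSMul (R ⧸ q) T)
      (M₁ M₂ : Ideal T) (_ : M₁.IsPrime) (_ : M₂.IsPrime),
      MinPrime83 M₁ ∧ MinPrime83 M₂ ∧ ¬ M₁ ≤ M₂ ∧ ¬ M₂ ≤ M₁ := by
  by_contra hcon
  apply hH
  refine hens_of_sc83 hN hsc ?_
  intro q hq T i1 i2 i3 i4 i5 M₁ M₂ hM₁ hM₂ h1 h2
  by_contra h3
  exact hcon ⟨q, hq, T, i1, i2, i3, i4, i5, M₁, M₂, hM₁, hM₂, h1, h2, fun h => h3 (Or.inl h),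
    fun h => h3 (Or.inr h)⟩

end Pool.Agent.AIC
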