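import Mathlib
import Pool.Agent.AIC.V5_82

/-! MP_313bb4, Theorem V / W, row V8: two rank one valuation rings with NIP intersection. -/

set_option autoImplicit false
set_option linter.style.haveILetI false

namespace Pool.Agent.AIC

open FirstOrder FirstOrder.Ring

section loc

variable {K : Type} [Field K] (L : Subring K)

/-- the localization of the subring `L` at the prime ideal `P`, inside `K` -/
def locSub82 (P : Ideal L) [hP : P.IsPrime] : Subring K where
  carrier := {x | ∃ s : L, s ∉ P ∧ (s : K) * x ∈ L}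
  mul_mem' := fun {x y} ⟨s, hs, hsx⟩ ⟨t, ht, hty⟩ => by
    refine ⟨s * t, fun h => (hP.mem_or_mem h).elim hs ht, ?_⟩
    have h1 : ((s * t : L) : K) * (x * y) = ((s : K) * x) * ((t : K) * y) := by
      rw [Subring.coe_mul]
      ring
    rw [h1]
    exact L.mul_mem hsx hty
  one_mem' := ⟨1, fun h => hP.ne_top ((Ideal.eq_top_iff_one P).mpr h), by
    rw [mul_one]
    exact (1 : L).2⟩
  add_mem' := fun {x y} ⟨s, hs, hsx⟩ ⟨t, ht, hty⟩ => by
    refine ⟨s * t, fun h => (hP.mem_or_mem h).elim hs ht, ?_⟩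
    have h1 : ((s * t : L) : K) * (x + y) = (t : K) * ((s : K) * x) + (s : K) * ((t : K) * y) := by
      rw [Subring.coe_mul]
      ring
    rw [h1]
    exact L.add_mem (L.mul_mem t.2 hsx) (L.mul_mem s.2 hty)
  zero_mem' := ⟨1, fun h => hP.ne_top ((Ideal.eq_top_iff_one P).mpr h), by
    rw [mul_zero]
    exact L.zero_mem⟩
  neg_mem' := fun {x} ⟨s, hs, hsx⟩ => ⟨s, hs, by
    rw [mul_neg]
    exact L.neg_mem hsx⟩

theorem mem_locSub82 (P : Ideal L) [P.IsPrime] (x : K) :
    x ∈ locSub82 L P ↔ ∃ s : L, s ∉ P ∧ (s : K) * x ∈ L := Iff.rfl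

theorem le_locSub82 (P : Ideal L) [hP : P.IsPrime] : L ≤ locSub82 L P := fun x hx =>
  ⟨1, fun h => hP.ne_top ((Ideal.eq_top_iff_one P).mpr h), by
    show ((1 : L) : K) * x ∈ L
    rw [Subring.coe_one, one_mul]
    exact hx⟩

/-- the inverse of an element outside `P` -/
theorem inv_mem_locSub82 (P : Ideal L) [P.IsPrime] (s : L) (hs : s ∉ P) :
    (s : K)⁻¹ ∈ locSub82 L P := by
  have hs0 : (s : K) ≠ 0 := by
    intro h
    apply hs
    have : s = 0 := Subtype.ext h
    rw [this]
    exact P.zero_mem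
  exact ⟨s, hs, by rw [mul_inv_cancel₀ hs0]; exact L.one_mem⟩

/-- the inverse of an element of `P` is not in the localization -/
theorem inv_notMem_locSub82 (P : Ideal L) [hP : P.IsPrime] (x : L) (hx : x ∈ P) (hx0 : x ≠ 0) :
    (x : K)⁻¹ ∉ locSub82 L P := by
  rintro ⟨s, hs, hsx⟩
  apply hs
  have hx0' : (x : K) ≠ 0 := fun h => hx0 (Subtype.ext h)
  have h1 : s = ⟨(s : K) * (x : K)⁻¹, hsx⟩ * x := by
    apply Subtype.ext
    show (s : K) = (s : K) * (x : K)⁻¹ * (x : K)
    rw [mul_assoc, inv_mul_cancel₀ hx0', mul_one]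
  rw [h1]
  exact P.mul_mem_left _ hx

variable (b : L) (hb : b ≠ 0) (hK : ∀ x : K, ∃ k : ℕ, (b : K) ^ k * x ∈ L)

include hb hK in
/-- the rank one valuation ring at a minimal prime over `b` -/
theorem rankOne_of_minimal82 (P : Ideal L) [hP : P.IsPrime]
    (hmin : P ∈ (Ideal.span {b}).minimalPrimes) (V : ValuationSubring K)
    (hV : V.toSubring ≤ locSub82 L P) :
    ∃ W : ValuationSubring K, W.toSubring = locSub82 L P ∧ W ≠ ⊤ ∧
      ∀ U : ValuationSubring K, W < U → U = ⊤ := by
  have hbP : b ∈ P := hmin.1.2 (Ideal.mem_span_singleton_self _)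
  have hb0 : (b : K) ≠ 0 := fun h => hb (Subtype.ext h)
  let W : ValuationSubring K := V.ofLE (locSub82 L P) hV
  have hW : W.toSubring = locSub82 L P := rfl
  have hmem : ∀ x : K, x ∈ W ↔ x ∈ locSub82 L P := fun x => Iff.rfl
  refine ⟨W, hW, ?_, ?_⟩
  · intro h
    have h1 : (b : K)⁻¹ ∈ W := by
      rw [h]
      exact ValuationSubring.mem_top _
    exact inv_notMem_locSub82 L P b hbP hb ((hmem _).mp h1)
  · intro U hWU
    obtain ⟨hle, x, hxU, hxW⟩ := SetLike.lt_iff_le_and_exists.mp hWU
    -- `b` is a unit in `U`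
    have hbU : (b : K)⁻¹ ∈ U := by
      by_contra hbU
      -- the center of `U`
      have hLU : ∀ y : L, U.valuation (y : K) ≤ 1 := fun y =>
        (U.valuation_le_one_iff _).mpr (hle ((hmem _).mpr (le_locSub82 L P y.2)))
      let q : Ideal L :=
        { carrier := {y | U.valuation (y : K) < 1}
          add_mem' := fun {y z} hy hz => by
            show U.valuation ((y : K) + (z : K)) < 1
            exact lt_of_le_of_lt (U.valuation.map_add _ _) (max_lt hy hz)
          zero_mem' := by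
            show U.valuation (0 : K) < 1
            rw [map_zero]
            exact zero_lt_one
          smul_mem' := fun c y hy => by
            show U.valuation ((c : K) * (y : K)) < 1
            rw [map_mul]
            exact (mul_le_of_le_one_left' (hLU c)).trans_lt hy }
      have hqp : q.IsPrime := by
        refine ⟨?_, fun {y z} hyz => ?_⟩
        · intro h
          have h1 : (1 : L) ∈ q := by
            rw [h]
            trivial
          have h2 : U.valuation (1 : K) < 1 := h1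
          rw [map_one] at h2
          exact lt_irrefl _ h2
        · have h1 : U.valuation ((y : K) * (z : K)) < 1 := hyz
          rw [map_mul] at h1
          by_contra hc
          rw [not_or] at hc
          have hy : U.valuation (y : K) = 1 := le_antisymm (hLU y) (not_lt.mp hc.1)
          have hz : U.valuation (z : K) = 1 := le_antisymm (hLU z) (not_lt.mp hc.2)
          rw [hy, hz, one_mul] at h1
          exact lt_irrefl _ h1
      have hbq : b ∈ q := by
        show U.valuation (b : K) < 1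
        rw [← ValuationSubring.mem_nonunits_iff, ValuationSubring.mem_nonunits_iff_or]
        exact Or.inr hbU
      have hqP : q ≤ P := by
        intro y hy
        by_contra hyP
        have h1 : (y : K)⁻¹ ∈ U := hle ((hmem _).mpr (inv_mem_locSub82 L P y hyP))
        have h2 : U.valuation (y : K) < 1 := hy
        rw [← ValuationSubring.mem_nonunits_iff, ValuationSubring.mem_nonunits_iff_or] at h2
        rcases h2 with h2 | h2
        · apply hyP
          have : y = 0 := Subtype.ext h2
          rw [this]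
          exact P.zero_mem
        · exact h2 h1
      have hPq : P ≤ q := hmin.2 ⟨hqp, (Ideal.span_singleton_le_iff_mem _).mpr hbq⟩ hqP
      -- the element `x`
      have hx0 : x ≠ 0 := by
        rintro rfl
        exact hxW W.zero_mem
      have hxi : x⁻¹ ∈ W := (W.mem_or_inv_mem x).resolve_left hxW
      obtain ⟨s, hs, hsx⟩ := (hmem _).mp hxi
      have hl : (⟨(s : K) * x⁻¹, hsx⟩ : L) ∈ P := by
        by_contra hl
        apply hxW
        have h1 := inv_mem_locSub82 L P _ hl
        have h2 : x = (s : K) * ((s : K) * x⁻¹)⁻¹ := by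
          have hs0 : (s : K) ≠ 0 := by
            intro h
            apply hs
            have : s = 0 := Subtype.ext h
            rw [this]
            exact P.zero_mem
          field_simp
        rw [h2]
        exact W.mul_mem _ _ ((hmem _).mpr (le_locSub82 L P s.2)) ((hmem _).mpr h1)
      have h1 : U.valuation ((s : K) * x⁻¹) < 1 := hPq hl
      have h2 : U.valuation (s : K) = 1 := by
        refine le_antisymm (hLU s) (not_lt.mp fun h => hs (hqP h))
      rw [map_mul, h2, one_mul, map_inv₀] at h1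
      have h3 : U.valuation x ≤ 1 := (U.valuation_le_one_iff x).mpr hxU
      have h4 : U.valuation x ≠ 0 := (Valuation.ne_zero_iff _).mpr hx0
      have h5 : (1 : U.ValueGroup) ≤ (U.valuation x)⁻¹ :=
        (one_le_inv₀ (zero_lt_iff.mpr h4)).mpr h3
      exact not_lt.mpr h5 h1
    rw [eq_top_iff]
    intro y _
    obtain ⟨k, hk⟩ := hK y
    have h1 : y = ((b : K)⁻¹) ^ k * ((b : K) ^ k * y) := by
      rw [← mul_assoc, ← mul_pow, inv_mul_cancel₀ hb0, one_pow, one_mul]
    rw [h1]
    exact U.mul_mem _ _ (pow_mem hbU k) (hle ((hmem _).mpr (le_locSub82 L P hk)))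

/-- the intersection of the localizations at two primes is NIP -/
theorem nip_locSub82 [CompatibleRing L] (hN : NIPRing L) (P Q : Ideal L) [hP : P.IsPrime]
    [hQ : Q.IsPrime] (S : Subring K) (hS : S = locSub82 L P ⊓ locSub82 L Q) [CompatibleRing S] :
    NIPRing S := by
  subst hS
  have hLS : L ≤ locSub82 L P ⊓ locSub82 L Q := le_inf (le_locSub82 L P) (le_locSub82 L Q)
  letI : Algebra L (locSub82 L P ⊓ locSub82 L Q : Subring K) :=
    (Subring.inclusion hLS).toAlgebra
  have halg : ∀ x : L, ((algebraMap L (locSub82 L P ⊓ locSub82 L Q : Subring K) x : _) : K) = x :=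
    fun x => rfl
  have hpos : ∀ s : L, s ∉ P → (s : K) ≠ 0 := by
    intro s hs h
    apply hs
    have : s = 0 := Subtype.ext h
    rw [this]
    exact P.zero_mem
  haveI : IsLocalization (P.primeCompl ⊓ Q.primeCompl)
      (locSub82 L P ⊓ locSub82 L Q : Subring K) := by
    rw [isLocalization_iff]
    refine ⟨?_, ?_, ?_⟩
    · rintro ⟨s, hs1, hs2⟩
      have h0 := hpos s hs1
      refine IsUnit.of_mul_eq_one ⟨(s : K)⁻¹, inv_mem_locSub82 L P s hs1,
        inv_mem_locSub82 L Q s hs2⟩ ?_
      apply Subtype.ext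
      show (s : K) * (s : K)⁻¹ = 1
      exact mul_inv_cancel₀ h0
    · rintro ⟨z, ⟨s, hs, hsz⟩, ⟨t, ht, htz⟩⟩
      let I : Ideal L :=
        { carrier := {u | (u : K) * z ∈ L}
          add_mem' := fun {u v} hu hv => by
            show ((u : K) + (v : K)) * z ∈ L
            rw [add_mul]
            exact L.add_mem hu hv
          zero_mem' := by
            show (0 : K) * z ∈ L
            rw [zero_mul]
            exact L.zero_mem
          smul_mem' := fun c u hu => by
            show ((c : K) * (u : K)) * z ∈ L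
            rw [mul_assoc]
            exact L.mul_mem c.2 hu }
      obtain ⟨u, huI, huP, huQ⟩ : ∃ u ∈ I, u ∉ P ∧ u ∉ Q := by
        by_contra hcon
        push Not at hcon
        have hsub : (I : Set L) ⊆ (P : Set L) ∪ (Q : Set L) := by
          intro u hu
          by_cases h : u ∈ P
          · exact Or.inl h
          · exact Or.inr (hcon u hu h)
        rcases Ideal.subset_union.mp hsub with h | h
        · exact hs (h hsz)
        · exact ht (h htz)
      refine ⟨(⟨(u : K) * z, huI⟩, ⟨u, huP, huQ⟩), ?_⟩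
      apply Subtype.ext
      show z * (u : K) = (u : K) * z
      exact mul_comm _ _
    · intro x y hxy
      refine ⟨1, ?_⟩
      have h0 : ((algebraMap L (locSub82 L P ⊓ locSub82 L Q : Subring K) x : _) : K) =
          ((algebraMap L (locSub82 L P ⊓ locSub82 L Q : Subring K) y : _) : K) :=
        congrArg Subtype.val hxy
      have h1 : x = y := Subtype.ext h0
      rw [h1]
  refine nip_localization (P.primeCompl ⊓ Q.primeCompl) hN ?_
    (inf_le_left.trans P.primeCompl_le_nonZeroDivisors) _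
  exact (ED.prime P).compl.inter (ED.prime Q).compl

end loc

/-- **V8.** -/
theorem exists_rankOne82 {K : Type} [Field K] (V V' : ValuationSubring K)
    [CompatibleRing (V.toSubring ⊓ V'.toSubring : Subring K)]
    (hN : NIPRing (V.toSubring ⊓ V'.toSubring : Subring K)) (w₁ w₂ : K) (h1 : w₁ ∈ V)
    (h1' : w₁ ∈ V') (h2 : w₂ ∈ V) (h2' : w₂ ∈ V') (h12 : w₁ + w₂ = 1) (hw₁ : w₁⁻¹ ∉ V)
    (hw₂ : w₂⁻¹ ∉ V')
    (hK : ∀ x : K, ∃ k : ℕ, (w₁ * w₂) ^ k * x ∈ V ∧ (w₁ * w₂) ^ k * x ∈ V') :
    ∃ W W' : ValuationSubring K, V ≤ W ∧ V' ≤ W' ∧ W ≠ W' ∧ W ≠ ⊤ ∧ W' ≠ ⊤ ∧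
      (∀ U : ValuationSubring K, W < U → U = ⊤) ∧ (∀ U : ValuationSubring K, W' < U → U = ⊤) ∧
      ∀ [CompatibleRing (W.toSubring ⊓ W'.toSubring : Subring K)],
        NIPRing (W.toSubring ⊓ W'.toSubring : Subring K) := by
  classical
  have lt_of : ∀ (W : ValuationSubring K) (w : K), w⁻¹ ∉ W → W.valuation w < 1 := by
    intro W w hw
    rw [← ValuationSubring.mem_nonunits_iff, ValuationSubring.mem_nonunits_iff_or]
    exact Or.inr hw
  have hv1 : V.valuation w₁ < 1 := lt_of V w₁ hw₁
  have hv2' : V'.valuation w₂ < 1 := lt_of V' w₂ hw₂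
  have one_of : ∀ (W : ValuationSubring K) (a b : K), a + b = 1 → W.valuation a < 1 →
      W.valuation b = 1 := by
    intro W a b hab ha
    have hb : b = 1 + -a := by rw [← hab]; ring
    rw [hb, Valuation.map_add_eq_of_lt_left _ (by rwa [Valuation.map_neg, map_one]), map_one]
  have hv2 : V.valuation w₂ = 1 := one_of V w₁ w₂ h12 hv1
  have hv1' : V'.valuation w₁ = 1 := one_of V' w₂ w₁ (by rw [add_comm]; exact h12) hv2'
  have hw1ne : w₁ ≠ 0 := by
    rintro rfl
    rw [map_zero] at hv1'
    exact zero_ne_one hv1'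
  have hw2ne : w₂ ≠ 0 := by
    rintro rfl
    rw [map_zero] at hv2
    exact zero_ne_one hv2
  have hbne : w₁ * w₂ ≠ 0 := mul_ne_zero hw1ne hw2ne
  let L : Subring K := V.toSubring ⊓ V'.toSubring
  let u₁ : L := ⟨w₁, h1, h1'⟩
  let u₂ : L := ⟨w₂, h2, h2'⟩
  haveI hPp : (center82 V V').IsPrime := center_prime82 V V'
  have hcomm : ∀ x : L, V'.valuation (x : K) ≤ 1 := fun x => (V'.valuation_le_one_iff _).mpr x.2.2
  let Q : Ideal L :=
    { carrier := {x | V'.valuation (x : K) < 1}
      add_mem' := fun {x y} hx hy => by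
        show V'.valuation ((x : K) + (y : K)) < 1
        exact lt_of_le_of_lt (V'.valuation.map_add _ _) (max_lt hx hy)
      zero_mem' := by
        show V'.valuation (0 : K) < 1
        rw [map_zero]
        exact zero_lt_one
      smul_mem' := fun c x hx => by
        show V'.valuation ((c : K) * (x : K)) < 1
        rw [map_mul]
        exact (mul_le_of_le_one_left' (hcomm c)).trans_lt hx }
  haveI hQp : Q.IsPrime := by
    refine ⟨?_, fun {x y} hxy => ?_⟩
    · intro h
      have h1 : (1 : L) ∈ Q := by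
        rw [h]
        trivial
      have h2 : V'.valuation (1 : K) < 1 := h1
      rw [map_one] at h2
      exact lt_irrefl _ h2
    · have h1 : V'.valuation ((x : K) * (y : K)) < 1 := hxy
      rw [map_mul] at h1
      by_contra hc
      rw [not_or] at hc
      have hx : V'.valuation (x : K) = 1 := le_antisymm (hcomm x) (not_lt.mp hc.1)
      have hy : V'.valuation (y : K) = 1 := le_antisymm (hcomm y) (not_lt.mp hc.2)
      rw [hx, hy, one_mul] at h1
      exact lt_irrefl _ h1
  have hbP : u₁ * u₂ ∈ center82 V V' := by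
    show V.valuation (w₁ * w₂) < 1
    rw [map_mul, hv2, mul_one]
    exact hv1
  have hbQ : u₁ * u₂ ∈ Q := by
    show V'.valuation (w₁ * w₂) < 1
    rw [map_mul, hv1', one_mul]
    exact hv2'
  obtain ⟨P₀, hP₀min, hP₀le⟩ := Ideal.exists_minimalPrimes_le (I := Ideal.span {u₁ * u₂})
    (J := center82 V V') ((Ideal.span_singleton_le_iff_mem _).mpr hbP)
  obtain ⟨Q₀, hQ₀min, hQ₀le⟩ := Ideal.exists_minimalPrimes_le (I := Ideal.span {u₁ * u₂})
    (J := Q) ((Ideal.span_singleton_le_iff_mem _).mpr hbQ)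
  haveI hP₀p : P₀.IsPrime := hP₀min.1.1
  haveI hQ₀p : Q₀.IsPrime := hQ₀min.1.1
  have hbQ₀ : u₁ * u₂ ∈ Q₀ := hQ₀min.1.2 (Ideal.mem_span_singleton_self _)
  have hu2P : u₂ ∉ P₀ := by
    intro h
    have h3 : V.valuation w₂ < 1 := hP₀le h
    rw [hv2] at h3
    exact lt_irrefl _ h3
  have hu1Q : u₁ ∉ Q₀ := by
    intro h
    have h3 : V'.valuation w₁ < 1 := hQ₀le h
    rw [hv1'] at h3
    exact lt_irrefl _ h3
  have hu2Q : u₂ ∈ Q₀ := (hQ₀p.mem_or_mem hbQ₀).resolve_left hu1Q
  have hbne' : u₁ * u₂ ≠ 0 := fun h => hbne (congrArg Subtype.val h)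
  have hu2ne : u₂ ≠ 0 := fun h => hw2ne (congrArg Subtype.val h)
  have hKL : ∀ x : K, ∃ k : ℕ, ((u₁ * u₂ : L) : K) ^ k * x ∈ L := by
    intro x
    obtain ⟨k, hk1, hk2⟩ := hK x
    exact ⟨k, hk1, hk2⟩
  have hVW : V.toSubring ≤ locSub82 L P₀ := by
    intro x hx
    obtain ⟨s, hs1, hs2, hs3⟩ := exists_s82 V V' x hx
    have hsV : s ∈ V := (V.valuation_le_one_iff s).mp hs1.le
    refine ⟨⟨s, hsV, hs2⟩, fun h => ?_, V.mul_mem _ _ hsV hx, hs3⟩
    have h3 : V.valuation s < 1 := hP₀le h
    rw [hs1] at h3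
    exact lt_irrefl _ h3
  have hVW' : V'.toSubring ≤ locSub82 L Q₀ := by
    intro x hx
    obtain ⟨s, hs1, hs2, hs3⟩ := exists_s82 V' V x hx
    have hsV : s ∈ V' := (V'.valuation_le_one_iff s).mp hs1.le
    refine ⟨⟨s, hs2, hsV⟩, fun h => ?_, hs3, V'.mul_mem _ _ hsV hx⟩
    have h3 : V'.valuation s < 1 := hQ₀le h
    rw [hs1] at h3
    exact lt_irrefl _ h3
  obtain ⟨W, hW, hWtop, hWr⟩ := rankOne_of_minimal82 L (u₁ * u₂) hbne' hKL P₀ hP₀min V hVW
  obtain ⟨W', hW', hWtop', hWr'⟩ := rankOne_of_minimal82 L (u₁ * u₂) hbne' hKL Q₀ hQ₀min V' hVW'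
  refine ⟨W, W', ?_, ?_, ?_, hWtop, hWtop', hWr, hWr', ?_⟩
  · intro x hx
    have h3 : x ∈ W.toSubring := by
      rw [hW]
      exact hVW hx
    exact h3
  · intro x hx
    have h3 : x ∈ W'.toSubring := by
      rw [hW']
      exact hVW' hx
    exact h3
  · intro h
    have h3 : (w₂ : K)⁻¹ ∈ W.toSubring := by
      rw [hW]
      exact inv_mem_locSub82 L P₀ u₂ hu2P
    rw [h, hW'] at h3
    exact inv_notMem_locSub82 L Q₀ u₂ hu2Q hu2ne h3
  · intro _
    exact nip_locSub82 L hN P₀ Q₀ _ (by rw [hW, hW'])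

end Pool.Agent.AIC
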