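import Mathlib
import Pool.Agent.AIC.V7b_83
import Pool.Agent.AIC.V5_82
import Pool.Agent.AIC.V8_82

/-!
# Theorem V: rank one valuation rings
-/

set_option autoImplicit false
set_option linter.style.haveILetI false

namespace Pool.Agent.AIC

open Polynomial IsLocalRing FirstOrder FirstOrder.Ring

/-- a valuation ring of rank one of the field `K`. -/
def RankOne83 {K : Type} [Field K] (V : ValuationSubring K) : Prop :=
  V ≠ ⊤ ∧ ∀ U : ValuationSubring K, V < U → U = ⊤

/-- a semilocal NIP domain with two nonzero primes has two different rank one valuation overrings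
with NIP intersection. -/
def TwoVals83 : Prop :=
  ∀ (T : Type) [CommRing T] [IsDomain T] [CompatibleRing T], NIPRing T →
    ∀ (K : Type) [Field K] [Algebra T K] [IsFractionRing T K] (m1 m2 : Ideal T), m1.IsMaximal →
      m2.IsMaximal → m1 ≠ m2 → (∀ p : Ideal T, p.IsPrime → p = ⊥ ∨ p = m1 ∨ p = m2) →
      ∃ W W' : ValuationSubring K, W ≠ W' ∧ RankOne83 W ∧ RankOne83 W' ∧
        (∀ x : T, algebraMap T K x ∈ W ∧ algebraMap T K x ∈ W') ∧
        ∀ [CompatibleRing (W.toSubring ⊓ W'.toSubring : Subring K)],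
          NIPRing (W.toSubring ⊓ W'.toSubring : Subring K)

section val

variable {K : Type} [Field K]

/-- in a rank one valuation ring every element of the field is multiplied into the ring by a
power of any nonunit. -/
theorem exists_pow_mul_mem83 (V : ValuationSubring K) (hV : ∀ U : ValuationSubring K, V < U → U = ⊤)
    (b : K) (hb : b ∈ V) (hb' : b⁻¹ ∉ V) (hb0 : b ≠ 0) (x : K) : ∃ k : ℕ, b ^ k * x ∈ V := by
  let S : Subring K :=
    { carrier := {x | ∃ k : ℕ, b ^ k * x ∈ V}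
      mul_mem' := by
        rintro x y ⟨k, hk⟩ ⟨l, hl⟩
        refine ⟨k + l, ?_⟩
        have h1 : b ^ (k + l) * (x * y) = (b ^ k * x) * (b ^ l * y) := by ring
        rw [h1]
        exact V.mul_mem _ _ hk hl
      one_mem' := ⟨0, by rw [pow_zero, one_mul]; exact V.one_mem⟩
      add_mem' := by
        rintro x y ⟨k, hk⟩ ⟨l, hl⟩
        refine ⟨k + l, ?_⟩
        have h1 : b ^ (k + l) * (x + y) = b ^ l * (b ^ k * x) + b ^ k * (b ^ l * y) := by ring
        rw [h1]
        exact V.add_mem _ _ (V.mul_mem _ _ (pow_mem hb l) hk) (V.mul_mem _ _ (pow_mem hb k) hl)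
      zero_mem' := ⟨0, by rw [mul_zero]; exact V.zero_mem⟩
      neg_mem' := by
        rintro x ⟨k, hk⟩
        refine ⟨k, ?_⟩
        rw [mul_neg]
        exact V.neg_mem _ hk }
  have hVS : V.toSubring ≤ S := fun x hx => ⟨0, by rw [pow_zero, one_mul]; exact hx⟩
  have hmem : ∀ x : K, x ∈ V.ofLE S hVS ↔ ∃ k : ℕ, b ^ k * x ∈ V := fun x => Iff.rfl
  have hbS : b⁻¹ ∈ V.ofLE S hVS := by
    rw [hmem]
    exact ⟨1, by rw [pow_one, mul_inv_cancel₀ hb0]; exact V.one_mem⟩
  have hlt : V < V.ofLE S hVS := by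
    refine lt_of_le_of_ne (fun x hx => hVS hx) ?_
    intro h
    apply hb'
    rw [h]
    exact hbS
  have htop := hV _ hlt
  rw [← hmem, htop]
  exact ValuationSubring.mem_top x

/-- two different rank one valuation rings. -/
theorem rankOne_pair83 (V W : ValuationSubring K) (hV : RankOne83 V) (hW : RankOne83 W)
    (hne : V ≠ W) :
    ∃ w₁ w₂ : K, w₁ ∈ V ∧ w₁ ∈ W ∧ w₂ ∈ V ∧ w₂ ∈ W ∧ w₁ + w₂ = 1 ∧ w₁⁻¹ ∉ V ∧ w₂⁻¹ ∉ W ∧
      ∀ x : K, ∃ k : ℕ, (w₁ * w₂) ^ k * x ∈ V ∧ (w₁ * w₂) ^ k * x ∈ W := by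
  have h1 : ¬ V ≤ W := fun h => hW.1 (hV.2 W (lt_of_le_of_ne h hne))
  have h2 : ¬ W ≤ V := fun h => hV.1 (hW.2 V (lt_of_le_of_ne h hne.symm))
  obtain ⟨x, hxV, hxW⟩ := SetLike.not_le_iff_exists.1 h1
  obtain ⟨y, hyW, hyV⟩ := SetLike.not_le_iff_exists.1 h2
  have hx0 : x ≠ 0 := fun h => hxW (h ▸ W.zero_mem)
  have hy0 : y ≠ 0 := fun h => hyV (h ▸ V.zero_mem)
  have nm : ∀ (U : ValuationSubring K) (z : K), z ∉ U ↔ 1 < U.valuation z := fun U z => by
    rw [← not_le, U.valuation_le_one_iff]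
  have vx : V.valuation x ≤ 1 := (V.valuation_le_one_iff x).2 hxV
  have wy : W.valuation y ≤ 1 := (W.valuation_le_one_iff y).2 hyW
  have wx : 1 < W.valuation x := (nm W x).1 hxW
  have vy : 1 < V.valuation y := (nm V y).1 hyV
  obtain ⟨z, hz⟩ : ∃ z, z = x / y := ⟨_, rfl⟩
  have vz : V.valuation z < 1 := by
    rw [hz, map_div₀]
    have h3 : 0 < V.valuation y := zero_lt_one.trans vy
    rw [div_lt_one₀ h3]
    exact vx.trans_lt vy
  have wz : 1 < W.valuation z := by
    rw [hz, map_div₀]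
    have h3 : 0 < W.valuation y := by
      rw [zero_lt_iff, Valuation.ne_zero_iff]
      exact hy0
    rw [one_lt_div₀ h3]
    exact wy.trans_lt wx
  have hz0 : z ≠ 0 := by
    rw [hz]
    exact div_ne_zero hx0 hy0
  have v1z : V.valuation (1 + z) = 1 := by
    rw [Valuation.map_add_eq_of_lt_left _ (by rwa [map_one]), map_one]
  have w1z : W.valuation (1 + z) = W.valuation z :=
    Valuation.map_add_eq_of_lt_right _ (by rwa [map_one])
  have h1z : 1 + z ≠ 0 := by
    intro h
    rw [h, map_zero] at v1z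
    exact zero_ne_one v1z
  have wz0 : W.valuation z ≠ 0 := (Valuation.ne_zero_iff _).2 hz0
  -- the values of `w₁` and `w₂`
  have a1 : V.valuation (z / (1 + z)) < 1 := by
    rw [map_div₀, v1z, div_one]
    exact vz
  have a2 : W.valuation (z / (1 + z)) = 1 := by
    rw [map_div₀, w1z, div_self wz0]
  have a3 : V.valuation (1 / (1 + z)) = 1 := by
    rw [map_div₀, v1z, map_one, div_one]
  have a4 : W.valuation (1 / (1 + z)) < 1 := by
    rw [map_div₀, w1z, map_one]
    rw [div_lt_one₀ (zero_lt_iff.2 wz0)]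
    exact wz
  have b1 : z / (1 + z) ≠ 0 := div_ne_zero hz0 h1z
  have b2 : 1 / (1 + z) ≠ 0 := one_div_ne_zero h1z
  have inv : ∀ (U : ValuationSubring K) (t : K), t ≠ 0 → U.valuation t < 1 → t⁻¹ ∉ U := by
    intro U t ht htl
    rw [nm, map_inv₀]
    exact (one_lt_inv₀ (zero_lt_iff.2 ((Valuation.ne_zero_iff _).2 ht))).2 htl
  have c1 : z / (1 + z) ∈ V := (V.valuation_le_one_iff _).1 a1.le
  have c2 : z / (1 + z) ∈ W := (W.valuation_le_one_iff _).1 a2.le
  have c3 : 1 / (1 + z) ∈ V := (V.valuation_le_one_iff _).1 a3.le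
  have c4 : 1 / (1 + z) ∈ W := (W.valuation_le_one_iff _).1 a4.le
  refine ⟨z / (1 + z), 1 / (1 + z), c1, c2, c3, c4, ?_, inv V _ b1 a1, inv W _ b2 a4, ?_⟩
  · rw [← add_div, add_comm z 1, div_self h1z]
  · intro t
    have bV : V.valuation (z / (1 + z) * (1 / (1 + z))) < 1 := by
      rw [map_mul, a3, mul_one]
      exact a1
    have bW : W.valuation (z / (1 + z) * (1 / (1 + z))) < 1 := by
      rw [map_mul, a2, one_mul]
      exact a4
    have hb0 := mul_ne_zero b1 b2
    have mV := (V.valuation_le_one_iff _).1 bV.le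
    have mW := (W.valuation_le_one_iff _).1 bW.le
    obtain ⟨k, hk⟩ := exists_pow_mul_mem83 V hV.2 _ mV (inv V _ hb0 bV) hb0 t
    obtain ⟨l, hl⟩ := exists_pow_mul_mem83 W hW.2 _ mW (inv W _ hb0 bW) hb0 t
    refine ⟨k + l, ?_, ?_⟩
    · rw [pow_add, mul_assoc, mul_left_comm]
      exact V.mul_mem _ _ (pow_mem mV l) hk
    · rw [pow_add, mul_assoc]
      exact W.mul_mem _ _ (pow_mem mW k) hl

end val

/-- **(a) implies (c)**: if the rank one NIP valuation rings are henselian, the intersection of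
two different rank one valuation rings of a field is not NIP. -/
theorem not_nip_inter83 (hHV : HV95) {K : Type} [Field K] (V W : ValuationSubring K)
    [CompatibleRing (V.toSubring ⊓ W.toSubring : Subring K)] (hV : RankOne83 V)
    (hW : RankOne83 W) (hne : V ≠ W) : ¬ NIPRing (V.toSubring ⊓ W.toSubring : Subring K) := by
  intro hN
  obtain ⟨w₁, w₂, h1, h2, h3, h4, h5, h6, h7, h8⟩ := rankOne_pair83 V W hV hW hne
  exact no_two_vals95 hHV V W hN w₁ w₂ h1 h2 h3 h4 h5 h6 h7 h8

/-- the local form, unconditional. -/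
theorem rankOne_local83 (h6 : TwoVals83) {R : Type} [CommRing R] [IsDomain R] [CompatibleRing R]
    (hN : NIPRing R) (hsc : SC83 R) :
    HenselianLocalRing R ∨
      ∃ (q : Ideal R) (_ : q.IsPrime) (L : Type) (_ : Field L)
        (_ : Algebra (FractionRing (R ⧸ q)) L) (_ : FiniteDimensional (FractionRing (R ⧸ q)) L)
        (V₁ V₂ : ValuationSubring L), V₁ ≠ V₂ ∧ RankOne83 V₁ ∧ RankOne83 V₂ ∧
        (∀ x : R ⧸ q,
          algebraMap (FractionRing (R ⧸ q)) L (algebraMap (R ⧸ q) (FractionRing (R ⧸ q)) x) ∈ V₁ ∧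
          algebraMap (FractionRing (R ⧸ q)) L
            (algebraMap (R ⧸ q) (FractionRing (R ⧸ q)) x) ∈ V₂) ∧
        ∀ [CompatibleRing (V₁.toSubring ⊓ V₂.toSubring : Subring L)],
          NIPRing (V₁.toSubring ⊓ V₂.toSubring : Subring L) := by
  by_cases hH : HenselianLocalRing R
  · exact Or.inl hH
  right
  obtain ⟨q, hq, T, i1, i2, i3, i4, i5, M₁, M₂, hM₁, hM₂, m1, m2, n1, n2⟩ :=
    exists_pair83 hN hsc hH
  letI : CompatibleRing (R ⧸ q) := compatibleRingOfRing _
  letI : CompatibleRing T := compatibleRingOfRing _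
  have hNT : NIPRing T := M.nip_of_finite3 (A := R ⧸ q) (nip_quotient hN q)
  letI : CompatibleRing (Localization (Scomp M₁ M₂)) := compatibleRingOfRing _
  haveI := isDomain_L M₁ M₂
  have hNL : NIPRing (Localization (Scomp M₁ M₂)) := nip_two hNT M₁ M₂
  letI : Algebra (Localization (Scomp M₁ M₂)) (FractionRing T) :=
    IsLocalization.localizationAlgebraOfSubmonoidLe _ _ (Scomp M₁ M₂) (nonZeroDivisors T)
      (Scomp_le M₁ M₂)
  haveI : IsScalarTower T (Localization (Scomp M₁ M₂)) (FractionRing T) :=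
    IsLocalization.localization_isScalarTower_of_submonoid_le _ _ (Scomp M₁ M₂)
      (nonZeroDivisors T) (Scomp_le M₁ M₂)
  haveI : IsFractionRing (Localization (Scomp M₁ M₂)) (FractionRing T) :=
    IsFractionRing.isFractionRing_of_isLocalization (Scomp M₁ M₂) _ _ (Scomp_le M₁ M₂)
  obtain ⟨alg, tow, hfd⟩ := finiteDim_fraction82 (A := R ⧸ q) (B := T)
    (FaithfulSMul.algebraMap_injective (R ⧸ q) T)
  obtain ⟨V₁, V₂, h1, h2, h3, h4, h5⟩ := h6 (Localization (Scomp M₁ M₂)) hNL (FractionRing T) _ _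
    (max_left M₁ M₂ n1) (max_right M₁ M₂ n2) (ne_left_right M₁ M₂ n1)
    (primes_two83 M₁ M₂ m1 m2)
  refine ⟨q, hq, FractionRing T, inferInstance, alg, hfd, V₁, V₂, h1, h2, h3, fun x => ?_, h5⟩
  have h7 : algebraMap (FractionRing (R ⧸ q)) (FractionRing T)
      (algebraMap (R ⧸ q) (FractionRing (R ⧸ q)) x) =
      algebraMap (Localization (Scomp M₁ M₂)) (FractionRing T)
        (algebraMap T (Localization (Scomp M₁ M₂)) (algebraMap (R ⧸ q) T x)) := by
    rw [← IsScalarTower.algebraMap_apply T (Localization (Scomp M₁ M₂)) (FractionRing T),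
      ← IsScalarTower.algebraMap_apply (R ⧸ q) (FractionRing (R ⧸ q)) (FractionRing T),
      ← IsScalarTower.algebraMap_apply (R ⧸ q) T (FractionRing T)]
  rw [h7]
  exact h4 _

end Pool.Agent.AIC
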