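import Mathlib
import Pool.Agent.AIC.LocNip83

/-! MP_313bb4, Theorem V, row V0: a subring of the fraction field of an NIP domain which is
externally definable (as a set of fractions) is NIP. -/

set_option autoImplicit false
set_option linter.unusedSectionVars false

namespace Pool.Agent.AIC

open Set FirstOrder FirstOrder.Language FirstOrder.Ring Filter

section

variable {R : Type} [CommRing R] [CompatibleRing R]

open Classical in
/-- normalized pairs -/
noncomputable def nmg82 (X : Set (Fin 2 → R)) {J : Type} (v : J × Fin 2 → R) : J × Fin 2 → R :=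
  fun p => if (fun d => v (p.1, d)) ∈ X then v p else (if p.2 = 0 then 0 else 1)

theorem ED.nmg82 (hR : NIPRing R) (X : Set (Fin 2 → R)) (hX : ED Language.ring X) {J : Type}
    [Finite J] {E : Set (J × Fin 2 → R)} (hE : (univ : Set R).Definable Language.ring E) :
    ED Language.ring {v : J × Fin 2 → R | nmg82 X v ∈ E} := by
  classical
  have hM := dnip_of_nip hR
  have hSj : ∀ j : J, ED Language.ring
      {w : (J × Fin 2) ⊕ (J × Fin 2) → R | (fun d => w (Sum.inl (j, d))) ∈ X} := fun j =>
    hX.preimage_comp (fun d => Sum.inl (j, d))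
  have hEq : ∀ (p : J × Fin 2), ED Language.ring
      {w : (J × Fin 2) ⊕ (J × Fin 2) → R | w (Sum.inr p) = w (Sum.inl p)} := fun p =>
    ED.of_definable ((defFun_proj _).ofPred_eq (defFun_proj _))
  have hC : ∀ (p : J × Fin 2) (r : R), ED Language.ring
      {w : (J × Fin 2) ⊕ (J × Fin 2) → R | w (Sum.inr p) = r} := fun p r =>
    ED.of_definable ((defFun_proj _).ofPred_eq (defFun_const _))
  have h1 : ∀ p : J × Fin 2, ED Language.ring
      (({w : (J × Fin 2) ⊕ (J × Fin 2) → R | (fun d => w (Sum.inl (p.1, d))) ∈ X} ∩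
        {w | w (Sum.inr p) = w (Sum.inl p)}) ∪
       ({w : (J × Fin 2) ⊕ (J × Fin 2) → R | (fun d => w (Sum.inl (p.1, d))) ∈ X}ᶜ ∩
        {w | w (Sum.inr p) = if p.2 = 0 then 0 else 1})) := fun p =>
    ((hSj p.1).inter (hEq p)).union ((hSj p.1).compl.inter (hC p _))
  have h2 := ED.all_finite h1
  have h3 : ED Language.ring {w : (J × Fin 2) ⊕ (J × Fin 2) → R | w ∘ Sum.inr ∈ E} :=
    ED.of_definable (hE.preimage_comp Sum.inr)
  have h4 := ED.exists hM (h2.inter h3)
  convert h4 using 1
  ext v
  constructor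
  · intro hv
    refine ⟨Pool.Agent.AIC.nmg82 X v, fun p => ?_, hv⟩
    by_cases h : (fun d => v (p.1, d)) ∈ X
    · left
      refine ⟨h, ?_⟩
      show Pool.Agent.AIC.nmg82 X v p = v p
      unfold Pool.Agent.AIC.nmg82
      rw [if_pos h]
    · right
      refine ⟨h, ?_⟩
      show Pool.Agent.AIC.nmg82 X v p = _
      unfold Pool.Agent.AIC.nmg82
      rw [if_neg h]
  · rintro ⟨u, hu1, hu2⟩
    have hu : u = Pool.Agent.AIC.nmg82 X v := by
      funext p
      unfold Pool.Agent.AIC.nmg82
      rcases hu1 p with ⟨ha, hb⟩ | ⟨ha, hb⟩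
      · have ha' : (fun d => v (p.1, d)) ∈ X := ha
        have hb' : u p = v p := hb
        rw [if_pos ha', hb']
      · have ha' : (fun d => v (p.1, d)) ∉ X := ha
        have hb' : u p = if p.2 = 0 then 0 else 1 := hb
        rw [if_neg ha', hb']
    have h5 : u ∈ E := hu2
    rw [hu] at h5
    exact h5

end

/-- **V0.** -/
theorem nip_subring95 {R K : Type} [CommRing R] [IsDomain R] [CompatibleRing R] [Field K]
    [Algebra R K] [IsFractionRing R K] (hN : NIPRing R) (S : Subring K)
    (hS : ED Language.ring {v : Fin 2 → R | v 1 ≠ 0 ∧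
      algebraMap R K (v 0) / algebraMap R K (v 1) ∈ S}) [CompatibleRing S] : NIPRing S := by
  classical
  obtain ⟨X, hXdef⟩ : ∃ X : Set (Fin 2 → R), X = {v : Fin 2 → R | v 1 ≠ 0 ∧
      algebraMap R K (v 0) / algebraMap R K (v 1) ∈ S} := ⟨_, rfl⟩
  rw [← hXdef] at hS
  have hXmem : ∀ v : Fin 2 → R, v ∈ X ↔ v 1 ≠ 0 ∧
      algebraMap R K (v 0) / algebraMap R K (v 1) ∈ S := fun v => by rw [hXdef]; rfl
  have hinj : Function.Injective (algebraMap R K) := IsFractionRing.injective R K
  have hne : ∀ r : R, r ≠ 0 → algebraMap R K r ≠ 0 := fun r hr h =>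
    hr (hinj (by rw [h, map_zero]))
  let pi : (Fin 2 → R) → S := fun v =>
    if h : v ∈ X then ⟨algebraMap R K (v 0) / algebraMap R K (v 1), ((hXmem v).mp h).2⟩ else 0
  have hpi : ∀ {J : Type} (v : J × Fin 2 → R) (j : J),
      nmg82 X v (j, 1) ≠ 0 ∧ ((pi (fun d => v (j, d)) : S) : K) =
        algebraMap R K (nmg82 X v (j, 0)) / algebraMap R K (nmg82 X v (j, 1)) := by
    intro J v j
    by_cases h : (fun d => v (j, d)) ∈ X
    · have e0 : nmg82 X v (j, 0) = v (j, 0) := by unfold nmg82; rw [if_pos h]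
      have e1 : nmg82 X v (j, 1) = v (j, 1) := by unfold nmg82; rw [if_pos h]
      refine ⟨by rw [e1]; exact ((hXmem _).mp h).1, ?_⟩
      show ((if h : (fun d => v (j, d)) ∈ X then (⟨_, ((hXmem _).mp h).2⟩ : S) else 0 : S) : K) = _
      rw [dif_pos h, e0, e1]
    · have e0 : nmg82 X v (j, 0) = 0 := by unfold nmg82; rw [if_neg h]; simp
      have e1 : nmg82 X v (j, 1) = 1 := by unfold nmg82; rw [if_neg h]; simp
      refine ⟨by rw [e1]; exact one_ne_zero, ?_⟩
      show ((if h : (fun d => v (j, d)) ∈ X then (⟨_, ((hXmem _).mp h).2⟩ : S) else 0 : S) : K) = _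
      rw [dif_neg h, e0, map_zero, zero_div]
      rfl
  let I : InterpED R S (Fin 2) :=
    { pi := pi
      surj := fun z => by
        obtain ⟨a, s, hs⟩ := IsLocalization.exists_mk'_eq (nonZeroDivisors R) (z : K)
        have hs0 : (s : R) ≠ 0 := nonZeroDivisors.ne_zero s.2
        have hz : algebraMap R K a / algebraMap R K s = z := by
          rw [← hs, IsFractionRing.mk'_eq_div]
        have hv : (![a, (s : R)] : Fin 2 → R) ∈ X := by
          rw [hXmem]
          refine ⟨hs0, ?_⟩
          show algebraMap R K a / algebraMap R K s ∈ S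
          rw [hz]
          exact z.2
        refine ⟨![a, (s : R)], ?_⟩
        show (if h : (![a, (s : R)] : Fin 2 → R) ∈ X then (⟨_, ((hXmem _).mp h).2⟩ : S) else 0) = z
        rw [dif_pos hv]
        exact Subtype.ext hz
      heq := by
        have h := ED.nmg82 hN X hS (J := Fin 2)
          (E := {u | u (0, 0) * u (1, 1) = u (1, 0) * u (0, 1)})
          ((defFun_mul (defFun_proj _) (defFun_proj _)).ofPred_eq
            (defFun_mul (defFun_proj _) (defFun_proj _)))
        convert h using 1
        ext v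
        obtain ⟨n0, p0⟩ := hpi v 0
        obtain ⟨n1, p1⟩ := hpi v 1
        show pi (fun d => v (0, d)) = pi (fun d => v (1, d)) ↔
          nmg82 X v (0, 0) * nmg82 X v (1, 1) = nmg82 X v (1, 0) * nmg82 X v (0, 1)
        rw [Subtype.ext_iff, p0, p1, div_eq_div_iff (hne _ n0) (hne _ n1), ← map_mul, ← map_mul]
        exact hinj.eq_iff
      hadd := by
        have h := ED.nmg82 hN X hS (J := Fin 3) (E := {u |
          (u (0, 0) * u (1, 1) + u (1, 0) * u (0, 1)) * u (2, 1) =
            u (2, 0) * (u (0, 1) * u (1, 1))})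
          ((defFun_mul (defFun_add (defFun_mul (defFun_proj _) (defFun_proj _))
            (defFun_mul (defFun_proj _) (defFun_proj _))) (defFun_proj _)).ofPred_eq
            (defFun_mul (defFun_proj _) (defFun_mul (defFun_proj _) (defFun_proj _))))
        convert h using 1
        ext v
        obtain ⟨n0, p0⟩ := hpi v 0
        obtain ⟨n1, p1⟩ := hpi v 1
        obtain ⟨n2, p2⟩ := hpi v 2
        show pi (fun d => v (0, d)) + pi (fun d => v (1, d)) = pi (fun d => v (2, d)) ↔
          (nmg82 X v (0, 0) * nmg82 X v (1, 1) + nmg82 X v (1, 0) * nmg82 X v (0, 1)) *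
            nmg82 X v (2, 1) = nmg82 X v (2, 0) * (nmg82 X v (0, 1) * nmg82 X v (1, 1))
        rw [Subtype.ext_iff, Subring.coe_add, p0, p1, p2,
          div_add_div _ _ (hne _ n0) (hne _ n1),
          div_eq_div_iff (mul_ne_zero (hne _ n0) (hne _ n1)) (hne _ n2), ← map_mul, ← map_mul,
          ← map_mul, ← map_add, ← map_mul, ← map_mul, hinj.eq_iff]
        constructor
        · intro h1
          linear_combination h1
        · intro h1
          linear_combination h1
      hmul := by
        have h := ED.nmg82 hN X hS (J := Fin 3) (E := {u |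
          (u (0, 0) * u (1, 0)) * u (2, 1) = u (2, 0) * (u (0, 1) * u (1, 1))})
          ((defFun_mul (defFun_mul (defFun_proj _) (defFun_proj _)) (defFun_proj _)).ofPred_eq
            (defFun_mul (defFun_proj _) (defFun_mul (defFun_proj _) (defFun_proj _))))
        convert h using 1
        ext v
        obtain ⟨n0, p0⟩ := hpi v 0
        obtain ⟨n1, p1⟩ := hpi v 1
        obtain ⟨n2, p2⟩ := hpi v 2
        show pi (fun d => v (0, d)) * pi (fun d => v (1, d)) = pi (fun d => v (2, d)) ↔
          (nmg82 X v (0, 0) * nmg82 X v (1, 0)) * nmg82 X v (2, 1) =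
            nmg82 X v (2, 0) * (nmg82 X v (0, 1) * nmg82 X v (1, 1))
        rw [Subtype.ext_iff, Subring.coe_mul, p0, p1, p2, div_mul_div_comm,
          div_eq_div_iff (mul_ne_zero (hne _ n0) (hne _ n1)) (hne _ n2), ← map_mul, ← map_mul,
          ← map_mul, ← map_mul]
        exact hinj.eq_iff }
  exact nip_transferED I hN

end Pool.Agent.AIC
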