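import Mathlib
import Pool.Agent.AIC.DefsV95
import Pool.Agent.AIC.LocNip83

/-! MP_313bb4, Theorem V, row V2: the valuation rings `{t : Comax95 B t w}` are definable in `B`. -/

set_option autoImplicit false

namespace Pool.Agent.AIC

open Set FirstOrder FirstOrder.Language FirstOrder.Ring

/-- divisibility of definable functions is definable -/
theorem def_dvd82 {B : Type} [CommRing B] [CompatibleRing B] {α : Type} [Finite α]
    {f g : (α → B) → B} (hf : (univ : Set B).DefinableFun Language.ring f)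
    (hg : (univ : Set B).DefinableFun Language.ring g) :
    (univ : Set B).Definable Language.ring {v : α → B | f v ∣ g v} := by
  have hmap : (univ : Set B).DefinableMap Language.ring
      (fun (w : α ⊕ Unit → B) (a : α) => w (Sum.inl a)) := fun a => defFun_proj _
  have hf' : (univ : Set B).DefinableFun Language.ring
      (fun w : α ⊕ Unit → B => f (fun a => w (Sum.inl a))) := DefinableFun.comp hmap hf
  have hg' : (univ : Set B).DefinableFun Language.ring
      (fun w : α ⊕ Unit → B => g (fun a => w (Sum.inl a))) := DefinableFun.comp hmap hg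
  have h1 : (univ : Set B).Definable Language.ring
      {w : α ⊕ Unit → B | g (fun a => w (Sum.inl a)) =
        f (fun a => w (Sum.inl a)) * w (Sum.inr ())} :=
    hg'.ofPred_eq (defFun_mul hf' (defFun_proj _))
  have h2 := Definable.exists_of_finite h1
  convert h2 using 1
  ext v
  constructor
  · rintro ⟨z, hz⟩
    exact ⟨fun _ => z, hz⟩
  · rintro ⟨u, hu⟩
    exact ⟨u (), hu⟩

/-- membership in `B` of fractions -/
theorem div_mem_iff82 {K : Type} [Field K] (B : Subring K) (a s : B) (hs : s ≠ 0) :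
    ((a : K) / (s : K) ∈ B) ↔ s ∣ a := by
  have hs' : (s : K) ≠ 0 := fun h => hs (Subtype.ext h)
  constructor
  · intro h
    refine ⟨⟨_, h⟩, Subtype.ext ?_⟩
    show (a : K) = s * (a / s)
    rw [mul_div_cancel₀ _ hs']
  · rintro ⟨c, rfl⟩
    rw [Subring.coe_mul, mul_div_cancel_left₀ _ hs']
    exact c.2

/-- **V2.** -/
theorem val_ed95 {K : Type} [Field K] (B : Subring K) [IsFractionRing B K] [CompatibleRing B]
    (w : K) (V : Subring K) (hV : ∀ t : K, t ∈ V ↔ Comax95 B t w) :
    (univ : Set B).Definable Language.ring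
      {v : Fin 2 → B | v 1 ≠ 0 ∧ ((v 0 : B) : K) / ((v 1 : B) : K) ∈ V} := by
  classical
  obtain ⟨a, s, hs0, hw⟩ : ∃ a s : B, s ≠ 0 ∧ (a : K) / (s : K) = w := by
    obtain ⟨a, s, hs⟩ := IsLocalization.exists_mk'_eq (nonZeroDivisors B) w
    refine ⟨a, s, nonZeroDivisors.ne_zero s.2, ?_⟩
    rw [← hs, IsFractionRing.mk'_eq_div]
    rfl
  -- the two inner conditions
  have hS1 : (univ : Set B).Definable Language.ring
      ({x : (Fin 2 ⊕ Fin 2) ⊕ Unit → B | x (Sum.inl (Sum.inl 1)) ∣
          x (Sum.inr ()) * x (Sum.inl (Sum.inl 0))}ᶜ ∪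
        {x | x (Sum.inl (Sum.inr 1)) ∣ x (Sum.inl (Sum.inr 0)) * x (Sum.inr ())}) :=
    (def_dvd82 (defFun_proj _) (defFun_mul (defFun_proj _) (defFun_proj _))).compl.union
      (def_dvd82 (defFun_proj _) (defFun_mul (defFun_proj _) (defFun_proj _)))
  have hS2 : (univ : Set B).Definable Language.ring
      ({x : (Fin 2 ⊕ Fin 2) ⊕ Unit → B | s ∣ x (Sum.inr ()) * a}ᶜ ∪
        {x | x (Sum.inl (Sum.inr 1)) ∣ x (Sum.inl (Sum.inr 0)) * x (Sum.inr ())}) :=
    (def_dvd82 (defFun_const _) (defFun_mul (defFun_proj _) (defFun_const _))).compl.union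
      (def_dvd82 (defFun_proj _) (defFun_mul (defFun_proj _) (defFun_proj _)))
  have hD1 := Definable.forall_of_finite hS1
  have hD2 := Definable.forall_of_finite hS2
  have hz : (univ : Set B).Definable Language.ring
      {x : Fin 2 ⊕ Fin 2 → B | x (Sum.inr 1) = 0} :=
    (defFun_proj _).ofPred_eq (defFun_const _)
  have hC : (univ : Set B).Definable Language.ring
      {x : Fin 2 ⊕ Fin 2 → B | x (Sum.inr 1) ∣ x (Sum.inr 0)} :=
    def_dvd82 (defFun_proj _) (defFun_proj _)
  have hS3 := (hz.union ((hD1.inter hD2).compl.union hC))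
  have hD3 := Definable.forall_of_finite hS3
  have hv : (univ : Set B).Definable Language.ring {v : Fin 2 → B | v 1 = 0} :=
    (defFun_proj _).ofPred_eq (defFun_const _)
  have hfin := hv.compl.inter hD3
  convert hfin using 1
  ext v
  -- unfold
  have key : v 1 ≠ 0 → (((v 0 : B) : K) / ((v 1 : B) : K) ∈ V ↔
      ∀ z : Fin 2 → B, z 1 = 0 ∨ (¬ ((∀ u : Unit → B, ¬ (v 1 ∣ u () * v 0) ∨ z 1 ∣ z 0 * u ()) ∧
        (∀ u : Unit → B, ¬ (s ∣ u () * a) ∨ z 1 ∣ z 0 * u ())) ∨ z 1 ∣ z 0)) := by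
    intro hv1
    rw [hV]
    have hmem : ∀ (u p q : B), q ≠ 0 → ((u : K) * ((p : K) / (q : K)) ∈ B ↔ q ∣ u * p) := by
      intro u p q hq
      rw [← mul_div_assoc, ← Subring.coe_mul]
      exact div_mem_iff82 B (u * p) q hq
    have hmem' : ∀ (u p q : B), q ≠ 0 → ((p : K) / (q : K) * (u : K) ∈ B ↔ q ∣ p * u) := by
      intro u p q hq
      rw [div_mul_eq_mul_div, ← Subring.coe_mul]
      exact div_mem_iff82 B (p * u) q hq
    constructor
    · intro h z
      by_cases hz0 : z 1 = 0
      · exact Or.inl hz0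
      right
      by_cases hc : (∀ u : Unit → B, ¬ (v 1 ∣ u () * v 0) ∨ z 1 ∣ z 0 * u ()) ∧
          (∀ u : Unit → B, ¬ (s ∣ u () * a) ∨ z 1 ∣ z 0 * u ())
      · right
        obtain ⟨h1, h2⟩ := hc
        rw [← div_mem_iff82 B _ _ hz0]
        refine h _ (fun u hu hut => ?_) (fun u hu huw => ?_)
        · rw [hmem' ⟨u, hu⟩ _ _ hz0]
          exact (h1 (fun _ => ⟨u, hu⟩)).resolve_left (not_not.mpr ((hmem ⟨u, hu⟩ _ _ hv1).mp hut))
        · rw [hmem' ⟨u, hu⟩ _ _ hz0]
          rw [← hw] at huw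
          exact (h2 (fun _ => ⟨u, hu⟩)).resolve_left (not_not.mpr ((hmem ⟨u, hu⟩ _ _ hs0).mp huw))
      · exact Or.inl hc
    · intro h z h1 h2
      obtain ⟨p, q, hq⟩ := IsLocalization.exists_mk'_eq (nonZeroDivisors B) z
      have hq0 : (q : B) ≠ 0 := nonZeroDivisors.ne_zero q.2
      have hzz : (p : K) / ((q : B) : K) = z := by
        rw [← hq, IsFractionRing.mk'_eq_div]
        rfl
      rw [← hzz, div_mem_iff82 B _ _ hq0]
      have h3 := (h ![p, (q : B)]).resolve_left hq0
      refine h3.resolve_left (not_not.mpr ⟨fun u => ?_, fun u => ?_⟩)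
      · by_cases hd : v 1 ∣ u () * v 0
        · right
          show (q : B) ∣ p * u ()
          rw [← hmem' _ _ _ hq0, hzz]
          exact h1 _ (u ()).2 ((hmem _ _ _ hv1).mpr hd)
        · exact Or.inl hd
      · by_cases hd : s ∣ u () * a
        · right
          show (q : B) ∣ p * u ()
          rw [← hmem' _ _ _ hq0, hzz]
          refine h2 _ (u ()).2 ?_
          rw [← hw]
          exact (hmem _ _ _ hs0).mpr hd
        · exact Or.inl hd
  constructor
  · rintro ⟨h1, h2⟩
    exact ⟨h1, (key h1).mp h2⟩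
  · rintro ⟨h1, h2⟩
    exact ⟨h1, (key h1).mpr h2⟩

end Pool.Agent.AIC
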