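import Mathlib
import Pool.Agent.AIC.V2_82
import Pool.Agent.AIC.Form83

/-! MP_313bb4, Theorem V, row V1b: subrings of the fraction field which are closed under the
divisorial closure of finite sets are externally definable. -/

set_option autoImplicit false

namespace Pool.Agent.AIC

open Set FirstOrder FirstOrder.Language FirstOrder.Ring

/-- Baldwin-Saxl for the groups `{u : u * x ∈ R}` -/
theorem bs82 {R K : Type} [CommRing R] [IsDomain R] [Field K] [Algebra R K] [IsFractionRing R K]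
    (n : ℕ) (hn : ¬ ∃ (u : Fin n → R) (b : Finset (Fin n) → R),
      ∀ (i : Fin n) (J : Finset (Fin n)), (u i ∣ b J ↔ i ∈ J))
    (F₀ : Finset K) : ∃ F ⊆ F₀, F.card ≤ n ∧ ∀ u : K,
      (∀ x ∈ F, u * x ∈ (algebraMap R K).range) → ∀ x ∈ F₀, u * x ∈ (algebraMap R K).range := by
  classical
  obtain ⟨F, hF, hmin⟩ := Finset.exists_min_image
    (F₀.powerset.filter fun F => ∀ u : K, (∀ x ∈ F, u * x ∈ (algebraMap R K).range) →
      ∀ x ∈ F₀, u * x ∈ (algebraMap R K).range) Finset.card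
    ⟨F₀, by rw [Finset.mem_filter]; exact ⟨Finset.mem_powerset_self _, fun u h => h⟩⟩
  rw [Finset.mem_filter, Finset.mem_powerset] at hF
  refine ⟨F, hF.1, ?_, hF.2⟩
  by_contra hcard
  rw [not_le] at hcard
  apply hn
  -- distinct elements of `F`
  let e : Fin n → K := fun i => (F.equivFin.symm (Fin.castLE hcard.le i) : K)
  have heF : ∀ i, e i ∈ F := fun i => (F.equivFin.symm (Fin.castLE hcard.le i)).2
  have heinj : Function.Injective e := by
    intro i j hij
    have h1 := F.equivFin.symm.injective (Subtype.ext hij)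
    exact Fin.castLE_injective hcard.le h1
  have h1 : ∀ i, ∃ u : K, (∀ x ∈ F.erase (e i), u * x ∈ (algebraMap R K).range) ∧
      u * e i ∉ (algebraMap R K).range := by
    intro i
    by_contra hcon
    push Not at hcon
    have h2 : F.erase (e i) ∈ F₀.powerset.filter fun F => ∀ u : K,
        (∀ x ∈ F, u * x ∈ (algebraMap R K).range) →
        ∀ x ∈ F₀, u * x ∈ (algebraMap R K).range := by
      rw [Finset.mem_filter, Finset.mem_powerset]
      refine ⟨(Finset.erase_subset _ _).trans hF.1, fun u hu => hF.2 u fun x hx => ?_⟩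
      by_cases hxe : x = e i
      · rw [hxe]
        exact hcon u hu
      · exact hu x (Finset.mem_erase.mpr ⟨hxe, hx⟩)
    have h3 := hmin _ h2
    have h4 := Finset.card_erase_lt_of_mem (heF i)
    omega
  choose u hu1 hu2 using h1
  have he0 : ∀ i, e i ≠ 0 := by
    intro i h
    apply hu2 i
    rw [h, mul_zero]
    exact Subring.zero_mem _
  obtain ⟨δ, hδ⟩ := IsLocalization.exist_integer_multiples_of_finset (nonZeroDivisors R)
    (Finset.univ.image u ∪ Finset.univ.image fun i => (e i)⁻¹)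
  have hδ0 : algebraMap R K (δ : R) ≠ 0 := by
    intro h
    exact nonZeroDivisors.ne_zero δ.2 ((IsFractionRing.injective R K) (by rw [h, map_zero]))
  have hβ : ∀ i, ∃ β : R, algebraMap R K β = algebraMap R K (δ : R) * u i := by
    intro i
    obtain ⟨β, hβ⟩ := hδ (u i) (Finset.mem_union_left _ (Finset.mem_image_of_mem _
      (Finset.mem_univ i)))
    exact ⟨β, by rw [hβ, Algebra.smul_def]⟩
  have hα : ∀ i, ∃ α : R, algebraMap R K α = algebraMap R K (δ : R) * (e i)⁻¹ := by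
    intro i
    obtain ⟨α, hα⟩ := hδ ((e i)⁻¹) (Finset.mem_union_right _
      (Finset.mem_image_of_mem (fun i => (e i)⁻¹) (Finset.mem_univ i)))
    exact ⟨α, by rw [hα, Algebra.smul_def]⟩
  choose β hβ using hβ
  choose α hα using hα
  refine ⟨α, fun J => ∑ i ∈ Jᶜ, β i, fun i J => ?_⟩
  have h2 : (α i ∣ ∑ k ∈ Jᶜ, β k) ↔ (∑ k ∈ Jᶜ, u k) * e i ∈ (algebraMap R K).range := by
    constructor
    · rintro ⟨r, hr⟩
      refine ⟨r, ?_⟩
      have h3 := congrArg (algebraMap R K) hr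
      rw [map_sum, map_mul, hα] at h3
      simp only [hβ] at h3
      rw [← Finset.mul_sum, mul_assoc] at h3
      have h4 := mul_left_cancel₀ hδ0 h3
      rw [h4, mul_comm (e i)⁻¹, mul_assoc, inv_mul_cancel₀ (he0 i), mul_one]
    · rintro ⟨r, hr⟩
      refine ⟨r, IsFractionRing.injective R K ?_⟩
      rw [map_sum, map_mul, hα]
      simp only [hβ]
      rw [← Finset.mul_sum, hr, mul_assoc]
      congr 1
      rw [mul_comm (∑ k ∈ Jᶜ, u k), ← mul_assoc, inv_mul_cancel₀ (he0 i), one_mul]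
  rw [h2]
  have h3 : ∀ k, k ≠ i → u k * e i ∈ (algebraMap R K).range := fun k hk =>
    hu1 k _ (Finset.mem_erase.mpr ⟨fun h => hk (heinj h).symm, heF i⟩)
  constructor
  · intro h
    by_contra hi
    apply hu2 i
    have hi' : i ∈ Jᶜ := Finset.mem_compl.mpr hi
    rw [Finset.sum_mul, ← Finset.add_sum_erase _ _ hi'] at h
    have h4 : ∑ k ∈ Jᶜ.erase i, u k * e i ∈ (algebraMap R K).range :=
      Subring.sum_mem _ fun k hk => h3 k (Finset.ne_of_mem_erase hk)
    have h5 := Subring.sub_mem _ h h4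
    rwa [add_sub_cancel_right] at h5
  · intro hi
    rw [Finset.sum_mul]
    refine Subring.sum_mem _ fun k hk => h3 k ?_
    rintro rfl
    exact (Finset.mem_compl.mp hk) hi

/-- **V1b.** -/
theorem ed_tclosed95 {R K : Type} [CommRing R] [IsDomain R] [CompatibleRing R] [Field K]
    [Algebra R K] [IsFractionRing R K] (hN : NIPRing R) (S : Subring K)
    (hS : ∀ F : Finset K, (∀ x ∈ F, x ∈ S) → ∀ z : K,
      (∀ u : K, (∀ x ∈ F, ∃ a : R, algebraMap R K a = u * x) → ∃ a : R,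
        algebraMap R K a = u * z) → z ∈ S) :
    ED Language.ring {v : Fin 2 → R | v 1 ≠ 0 ∧
      algebraMap R K (v 0) / algebraMap R K (v 1) ∈ S} := by
  classical
  obtain ⟨n, hn⟩ := nip_div hN
  have hinj : Function.Injective (algebraMap R K) := IsFractionRing.injective R K
  have hne : ∀ r : R, r ≠ 0 → algebraMap R K r ≠ 0 := fun r hr h =>
    hr (hinj (by rw [h, map_zero]))
  -- the element of `K` given by a pair
  obtain ⟨q, hq⟩ : ∃ q : (Fin 2 → R) → K, ∀ v, q v = algebraMap R K (v 0) / algebraMap R K (v 1) :=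
    ⟨_, fun _ => rfl⟩
  obtain ⟨D, hD⟩ : ∃ D : (Fin n × Fin 2 → R) → K → Prop, ∀ γ x, D γ x ↔ ∀ u : K,
      (∀ i, u * q (fun d => γ (i, d)) ∈ (algebraMap R K).range) →
        u * x ∈ (algebraMap R K).range := ⟨_, fun _ _ => Iff.rfl⟩
  obtain ⟨Good, hGood⟩ : ∃ Good : (Fin n × Fin 2 → R) → Prop, ∀ γ, Good γ ↔
      ∀ i, γ (i, 1) ≠ 0 ∧ q (fun d => γ (i, d)) ∈ S := ⟨_, fun _ => Iff.rfl⟩
  -- good parameters for finite sets
  have hex : ∀ F₀ : Finset K, (∀ x ∈ F₀, x ∈ S) → ∃ γ, Good γ ∧ ∀ x ∈ F₀, D γ x := by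
    intro F₀ hF₀
    obtain ⟨F, hFF, hFc, hF⟩ := bs82 (R := R) n hn F₀
    have hrep : ∀ x : K, ∃ v : Fin 2 → R, v 1 ≠ 0 ∧ q v = x := by
      intro x
      obtain ⟨a, s, hs⟩ := IsLocalization.exists_mk'_eq (nonZeroDivisors R) x
      refine ⟨![a, (s : R)], nonZeroDivisors.ne_zero s.2, ?_⟩
      rw [hq, ← hs, IsFractionRing.mk'_eq_div]
      rfl
    choose rep hrep1 hrep2 using hrep
    -- an enumeration of `F` padded by zero
    let g : Fin n → K := fun i => if h : (i : ℕ) < F.card then (F.equivFin.symm ⟨i, h⟩ : K) else 0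
    have hgS : ∀ i, g i ∈ S := by
      intro i
      by_cases h : (i : ℕ) < F.card
      · have h1 : g i = (F.equivFin.symm ⟨i, h⟩ : K) := dif_pos h
        rw [h1]
        exact hF₀ _ (hFF (F.equivFin.symm ⟨i, h⟩).2)
      · have h1 : g i = 0 := dif_neg h
        rw [h1]
        exact S.zero_mem
    have hgF : ∀ x ∈ F, ∃ i, g i = x := by
      intro x hx
      have h1 : ((F.equivFin ⟨x, hx⟩ : Fin F.card) : ℕ) < n := lt_of_lt_of_le (Fin.is_lt _) hFc
      refine ⟨⟨F.equivFin ⟨x, hx⟩, h1⟩, ?_⟩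
      have h2 : ((⟨F.equivFin ⟨x, hx⟩, h1⟩ : Fin n) : ℕ) < F.card := (F.equivFin ⟨x, hx⟩).is_lt
      have h3 : g ⟨F.equivFin ⟨x, hx⟩, h1⟩ =
          (F.equivFin.symm ⟨((⟨F.equivFin ⟨x, hx⟩, h1⟩ : Fin n) : ℕ), h2⟩ : K) := dif_pos h2
      rw [h3]
      have h4 : (⟨((⟨F.equivFin ⟨x, hx⟩, h1⟩ : Fin n) : ℕ), h2⟩ : Fin F.card) =
          F.equivFin ⟨x, hx⟩ := Fin.ext rfl
      rw [h4, Equiv.symm_apply_apply]
    refine ⟨fun p => rep (g p.1) p.2, ?_, ?_⟩
    · rw [hGood]
      intro i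
      refine ⟨hrep1 (g i), ?_⟩
      have h1 : q (fun d => rep (g i) d) = g i := hrep2 (g i)
      rw [h1]
      exact hgS i
    · intro x hx
      rw [hD]
      intro u hu
      refine hF u (fun y hy => ?_) x hx
      obtain ⟨i, hi⟩ := hgF y hy
      have h1 := hu i
      have h2 : q (fun d => rep (g i) d) = g i := hrep2 (g i)
      rw [h2, hi] at h1
      exact h1
  -- the ultrafilter
  obtain ⟨𝒰, h𝒰⟩ := Ultrafilter.exists_ultrafilter_of_finite_inter_nonempty
    (Set.range fun x : {x : K // x ∈ S} => {γ : Fin n × Fin 2 → R | Good γ ∧ D γ x}) (by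
      intro T hT
      have key : ∀ T : Finset (Set (Fin n × Fin 2 → R)), (↑T : Set (Set (Fin n × Fin 2 → R))) ⊆
          (Set.range fun x : {x : K // x ∈ S} => {γ : Fin n × Fin 2 → R | Good γ ∧ D γ x}) →
          ∃ F₀ : Finset K, (∀ x ∈ F₀, x ∈ S) ∧ ∀ γ, Good γ → (∀ x ∈ F₀, D γ x) →
            γ ∈ ⋂₀ (↑T : Set (Set (Fin n × Fin 2 → R))) := by
        intro T
        induction T using Finset.induction_on with
        | empty =>
          intro _
          exact ⟨∅, by simp, by simp⟩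
        | insert a T ha ih =>
          intro hT
          rw [Finset.coe_insert, insert_subset_iff] at hT
          obtain ⟨F₀, hF₀, hF₁⟩ := ih hT.2
          obtain ⟨⟨x, hx⟩, hxa⟩ := hT.1
          refine ⟨insert x F₀, fun y hy => ?_, fun γ hγ hγD => ?_⟩
          · rcases Finset.mem_insert.mp hy with rfl | h
            · exact hx
            · exact hF₀ y h
          · rw [Finset.coe_insert, sInter_insert]
            refine ⟨?_, hF₁ γ hγ fun y hy => hγD y (Finset.mem_insert_of_mem hy)⟩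
            rw [← hxa]
            exact ⟨hγ, hγD x (Finset.mem_insert_self _ _)⟩
      obtain ⟨F₀, hF₀, hF₁⟩ := key T hT
      obtain ⟨γ, hγ1, hγ2⟩ := hex F₀ hF₀
      exact ⟨γ, hF₁ γ hγ1 hγ2⟩)
  -- the definable relation
  have hC1 : (univ : Set R).Definable Language.ring
      {w : (Fin 2 ⊕ (Fin n × Fin 2)) ⊕ Fin 2 → R | ∀ i : Fin n,
        w (Sum.inr 1) * w (Sum.inl (Sum.inr (i, 1))) ∣
          w (Sum.inr 0) * w (Sum.inl (Sum.inr (i, 0)))} := by
    have h1 : ∀ i : Fin n, (univ : Set R).Definable Language.ring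
        {w : (Fin 2 ⊕ (Fin n × Fin 2)) ⊕ Fin 2 → R |
        w (Sum.inr 1) * w (Sum.inl (Sum.inr (i, 1))) ∣
          w (Sum.inr 0) * w (Sum.inl (Sum.inr (i, 0)))} := fun i =>
      def_dvd82 (defFun_mul (defFun_proj _) (defFun_proj _))
        (defFun_mul (defFun_proj _) (defFun_proj _))
    have h2 := definable_iInter_of_finite h1
    convert h2 using 1
    ext w
    simp
  have hC2 : (univ : Set R).Definable Language.ring
      {w : (Fin 2 ⊕ (Fin n × Fin 2)) ⊕ Fin 2 → R |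
        w (Sum.inr 1) * w (Sum.inl (Sum.inl 1)) ∣ w (Sum.inr 0) * w (Sum.inl (Sum.inl 0))} :=
    def_dvd82 (defFun_mul (defFun_proj _) (defFun_proj _))
      (defFun_mul (defFun_proj _) (defFun_proj _))
  have hC0 : (univ : Set R).Definable Language.ring
      {w : (Fin 2 ⊕ (Fin n × Fin 2)) ⊕ Fin 2 → R | w (Sum.inr 1) = 0} :=
    (defFun_proj _).ofPred_eq (defFun_const _)
  have hC3 := Definable.forall_of_finite (hC0.union (hC1.compl.union hC2))
  have hC4 : (univ : Set R).Definable Language.ring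
      {w : Fin 2 ⊕ (Fin n × Fin 2) → R | w (Sum.inl 1) = 0} :=
    (defFun_proj _).ofPred_eq (defFun_const _)
  -- translation
  have htr : ∀ (u v : Fin 2 → R), u 1 ≠ 0 → v 1 ≠ 0 →
      (q u * q v ∈ (algebraMap R K).range ↔ u 1 * v 1 ∣ u 0 * v 0) := by
    intro u v hu hv
    rw [hq, hq, div_mul_div_comm, ← map_mul, ← map_mul]
    constructor
    · rintro ⟨a, ha⟩
      rw [eq_div_iff (hne _ (mul_ne_zero hu hv)), ← map_mul] at ha
      exact ⟨a, by rw [← hinj ha, mul_comm]⟩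
    · rintro ⟨a, ha⟩
      refine ⟨a, ?_⟩
      rw [eq_div_iff (hne _ (mul_ne_zero hu hv)), ← map_mul, ha, mul_comm]
  have hΦ : ∀ (v : Fin 2 → R) (γ : Fin n × Fin 2 → R), v 1 ≠ 0 → (∀ i, γ (i, 1) ≠ 0) →
      (D γ (q v) ↔ ∀ u : Fin 2 → R, u 1 = 0 ∨ (¬ (∀ i : Fin n, u 1 * γ (i, 1) ∣ u 0 * γ (i, 0)) ∨
        u 1 * v 1 ∣ u 0 * v 0)) := by
    intro v γ hv hγ
    rw [hD]
    constructor
    · intro h u
      by_cases hu : u 1 = 0
      · exact Or.inl hu
      right
      by_cases hc : ∀ i : Fin n, u 1 * γ (i, 1) ∣ u 0 * γ (i, 0)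
      · right
        rw [← htr u v hu hv]
        exact h (q u) fun i => (htr u (fun d => γ (i, d)) hu (hγ i)).mpr (hc i)
      · exact Or.inl hc
    · intro h u hu
      obtain ⟨a, s, hs⟩ := IsLocalization.exists_mk'_eq (nonZeroDivisors R) u
      have hs0 : (s : R) ≠ 0 := nonZeroDivisors.ne_zero s.2
      have huq : q ![a, (s : R)] = u := by
        rw [hq, ← hs, IsFractionRing.mk'_eq_div]
        rfl
      rw [← huq] at hu ⊢
      have h1 := (h ![a, (s : R)]).resolve_left hs0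
      rw [htr _ v hs0 hv]
      exact h1.resolve_left (not_not.mpr fun i =>
        (htr ![a, (s : R)] (fun d => γ (i, d)) hs0 (hγ i)).mp (hu i))
  refine ⟨Fin n × Fin 2, inferInstance, _, hC4.compl.inter hC3, 𝒰, fun v => ⟨fun hv => ?_,
    fun hv => ?_⟩⟩
  · obtain ⟨hv1, hv2⟩ : v 1 ≠ 0 ∧ q v ∈ S := ⟨hv.1, by rw [hq]; exact hv.2⟩
    have h4 : {γ : Fin n × Fin 2 → R | Good γ ∧ D γ (q v)} ∈ 𝒰 := h𝒰 ⟨⟨q v, hv2⟩, rfl⟩
    refine Filter.mem_of_superset h4 fun γ hγ => ?_
    refine ⟨hv1, ?_⟩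
    exact (hΦ v γ hv1 fun i => ((hGood γ).mp hγ.1 i).1).mp hγ.2
  · have h4 : {γ : Fin n × Fin 2 → R | Good γ ∧ D γ ((⟨0, S.zero_mem⟩ : {x : K // x ∈ S}) : K)} ∈
        𝒰 := h𝒰 ⟨⟨0, S.zero_mem⟩, rfl⟩
    obtain ⟨γ, ⟨hv1, hv2⟩, hγ⟩ := (hv.and h4).exists
    have hv1' : v 1 ≠ 0 := hv1
    have h5 : D γ (q v) := (hΦ v γ hv1' fun i => ((hGood γ).mp hγ.1 i).1).mpr hv2
    refine ⟨hv1', ?_⟩
    rw [← hq]
    refine hS (Finset.univ.image fun i => q (fun d => γ (i, d))) (fun x hx => ?_) (q v)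
      fun u hu => ?_
    · obtain ⟨i, -, rfl⟩ := Finset.mem_image.mp hx
      exact ((hGood γ).mp hγ.1 i).2
    · exact (hD γ _).mp h5 u fun i => hu _ (Finset.mem_image_of_mem _ (Finset.mem_univ i))

end Pool.Agent.AIC
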