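import Mathlib
import Pool.Agent.AIC.DefsV95

/-!
# Row V3 (helper94): a valuation ring over `B`, cut out by one comaximality condition
-/

set_option autoImplicit false

namespace Pool.Agent.AIC

section V3

variable {K : Type} [Field K] (B : Subring K)

theorem comax_symm94 {s t : K} (h : Comax95 B s t) : Comax95 B t s :=
  fun z h1 h2 => h z h2 h1

theorem comax_of_mem94 {s : K} (hs : s ∈ B) (t : K) : Comax95 B s t := by
  intro z h1 _
  have := h1 1 B.one_mem (by rwa [one_mul])
  rwa [mul_one] at this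

theorem comax_mono94 {a a' b : K} (h : ∀ u ∈ B, u * a' ∈ B → u * a ∈ B) (hc : Comax95 B a' b) :
    Comax95 B a b :=
  fun z h1 h2 => hc z (fun u hu hu' => h1 u hu (h u hu hu')) h2

theorem mem_of_comax_self94 {a : K} (h : Comax95 B a a) : a ∈ B :=
  h a (fun u _ hu' => by rwa [mul_comm]) (fun u _ hu' => by rwa [mul_comm])

theorem comax_inv94 (hfrac : ∀ x : K, ∃ s ∈ B, s ≠ 0 ∧ s * x ∈ B)
    (hcic : ∀ x d : K, d ≠ 0 → (∀ m : ℕ, d * x ^ m ∈ B) → x ∈ B) {t : K} (ht : t ≠ 0) :
    Comax95 B t t⁻¹ := by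
  intro z h1 h2
  obtain ⟨s, hs, hs0, hst⟩ := hfrac t
  have key : ∀ m : ℕ, s * z ^ m ∈ B ∧ (s * z ^ m) * t ∈ B := by
    intro m
    induction m with
    | zero => simpa using ⟨hs, hst⟩
    | succ m ih =>
      obtain ⟨i1, i2⟩ := ih
      have e1 : s * z ^ (m + 1) = z * (s * z ^ m) := by ring
      have e2 : s * z ^ (m + 1) * t = z * ((s * z ^ m) * t) := by ring
      refine ⟨?_, ?_⟩
      · rw [e1]; exact h1 _ i1 i2
      · rw [e2]
        refine h2 _ i2 ?_
        rw [mul_assoc, mul_inv_cancel₀ ht, mul_one]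
        exact i1
  exact hcic z s hs0 fun m => (key m).1

theorem comax_add_mul94 {s t w : K} (hs : Comax95 B s w) (ht : Comax95 B t w) :
    Comax95 B (s + t) w ∧ Comax95 B (s * t) w := by
  constructor
  · intro z h1 h2
    refine hs z (fun u hu hus => ?_) h2
    refine ht (z * u) (fun v hv hvt => ?_) (fun v hv hvw => ?_)
    · have e : z * u * v = z * (u * v) := by ring
      rw [e]
      refine h1 _ (B.mul_mem hu hv) ?_
      have e' : u * v * (s + t) = (u * s) * v + u * (v * t) := by ring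
      rw [e']
      exact B.add_mem (B.mul_mem hus hv) (B.mul_mem hu hvt)
    · have e : z * u * v = u * (z * v) := by ring
      rw [e]
      exact B.mul_mem hu (h2 v hv hvw)
  · intro z h1 h2
    refine hs z (fun u hu hus => ?_) h2
    refine ht (z * u) (fun v hv hvt => ?_) (fun v hv hvw => ?_)
    · have e : z * u * v = z * (u * v) := by ring
      rw [e]
      refine h1 _ (B.mul_mem hu hv) ?_
      have e' : u * v * (s * t) = (u * s) * (v * t) := by ring
      rw [e']
      exact B.mul_mem hus hvt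
    · have e : z * u * v = u * (z * v) := by ring
      rw [e]
      exact B.mul_mem hu (h2 v hv hvw)

/-- the subring of all `t` comaximal with `w` -/
def comaxSub94 (w : K) : Subring K where
  carrier := {t | Comax95 B t w}
  mul_mem' := fun ha hb => (comax_add_mul94 B ha hb).2
  one_mem' := comax_of_mem94 B B.one_mem w
  add_mem' := fun ha hb => (comax_add_mul94 B ha hb).1
  zero_mem' := comax_of_mem94 B B.zero_mem w
  neg_mem' := fun {x} hx => by
    have h1 : Comax95 B (-1) w := comax_of_mem94 B (B.neg_mem B.one_mem) w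
    have h2 := (comax_add_mul94 B h1 hx).2
    have e : (-1 : K) * x = -x := by ring
    rw [e] at h2
    exact h2

theorem mem_comaxSub94 {w t : K} : t ∈ comaxSub94 B w ↔ Comax95 B t w := Iff.rfl

/-- removing the comaximal factors one by one -/
theorem remove94 {ι : Type} [DecidableEq ι] (w : ι → K) (b : K) (S : Finset ι)
    (hS : ∀ k ∈ S, Comax95 B (w k) b) :
    ∀ z : K, (∀ u ∈ B, (∀ k ∈ S, u * w k ∈ B) → z * u ∈ B) →
      (∀ u ∈ B, u * b ∈ B → z * u ∈ B) → z ∈ B := by
  induction S using Finset.induction_on with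
  | empty =>
    intro z h1 _
    have := h1 1 B.one_mem (by simp)
    rwa [mul_one] at this
  | insert k S hk ih =>
    intro z h1 h2
    refine ih (fun j hj => hS j (Finset.mem_insert_of_mem hj)) z (fun v hv hvS => ?_) h2
    refine hS k (Finset.mem_insert_self k S) (z * v) (fun u hu huk => ?_) (fun u hu hub => ?_)
    · have e : z * v * u = z * (v * u) := by ring
      rw [e]
      refine h1 _ (B.mul_mem hv hu) (fun j hj => ?_)
      rcases Finset.mem_insert.1 hj with rfl | hj
      · have e' : v * u * w j = v * (u * w j) := by ring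
        rw [e']; exact B.mul_mem hv huk
      · have e' : v * u * w j = u * (v * w j) := by ring
        rw [e']; exact B.mul_mem hu (hvS j hj)
    · have e : z * v * u = v * (z * u) := by ring
      rw [e]
      exact B.mul_mem hv (h2 u hu hub)

/-- pairwise comaximal family of elements outside `B` -/
def Fam94 (F : Finset K) : Prop :=
  (∀ a ∈ F, a ∉ B) ∧ ∀ a ∈ F, ∀ b ∈ F, a ≠ b → Comax95 B a b

theorem fam_card_lt94 (n : ℕ)
    (hBS : ∀ w : Fin n → K, ∃ i, ∀ u ∈ B, (∀ j, j ≠ i → u * w j ∈ B) → u * w i ∈ B)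
    (F : Finset K) (hF : Fam94 B F) : F.card < n := by
  classical
  by_contra hcon
  push Not at hcon
  obtain ⟨G, hGF, hGc⟩ := Finset.exists_subset_card_eq hcon
  let e : Fin n ≃ G := (Fintype.equivFinOfCardEq (by simpa using hGc)).symm
  let w : Fin n → K := fun i => (e i : K)
  obtain ⟨i, hi⟩ := hBS w
  have hwF : ∀ j, w j ∈ F := fun j => hGF (e j).2
  have hinj : ∀ j k, j ≠ k → w j ≠ w k := by
    intro j k hjk h
    exact hjk (e.injective (Subtype.ext h))
  have hmem : w i ∈ B := by
    refine remove94 B w (w i) (Finset.univ.erase i)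
      (fun k hk => hF.2 _ (hwF k) _ (hwF i) (hinj k i (Finset.ne_of_mem_erase hk))) (w i)
      (fun u hu huS => ?_) (fun u _ hu' => by rwa [mul_comm])
    rw [mul_comm]
    exact hi u hu fun j hj => huS j (Finset.mem_erase.2 ⟨hj, Finset.mem_univ j⟩)
  exact hF.1 _ (hwF i) hmem

theorem fam_insert94 (F : Finset K) (hF : Fam94 B F) (a : K) (ha : a ∉ B)
    (hc : ∀ b ∈ F, Comax95 B a b) [DecidableEq K] : Fam94 B (insert a F) ∧ a ∉ F := by
  refine ⟨⟨?_, ?_⟩, fun h => ha (mem_of_comax_self94 B (hc a h))⟩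
  · intro x hx
    rcases Finset.mem_insert.1 hx with rfl | hx
    · exact ha
    · exact hF.1 x hx
  · intro x hx y hy hxy
    rcases Finset.mem_insert.1 hx with h1 | h1 <;> rcases Finset.mem_insert.1 hy with h2 | h2
    · exact absurd (h1.trans h2.symm) hxy
    · rw [h1]; exact hc y h2
    · rw [h2]; exact comax_symm94 B (hc x h1)
    · exact hF.2 x h1 y h2 hxy

theorem exists_val95 {K : Type} [Field K] (B : Subring K) (n : ℕ)
    (hBS : ∀ w : Fin n → K, ∃ i, ∀ u ∈ B, (∀ j, j ≠ i → u * w j ∈ B) → u * w i ∈ B)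
    (hfrac : ∀ x : K, ∃ s ∈ B, s ≠ 0 ∧ s * x ∈ B)
    (hcic : ∀ x d : K, d ≠ 0 → (∀ m : ℕ, d * x ^ m ∈ B) → x ∈ B)
    (w₀ : K) (hw₀ : w₀ ∉ B) :
    ∃ (w : K) (V : ValuationSubring K), B ≤ V.toSubring ∧ w₀ ∉ V ∧ w ∉ B ∧
      ∀ t : K, t ∈ V ↔ Comax95 B t w := by
  classical
  -- a family with the largest cardinality
  have hex : ∃ k : ℕ, ∃ F : Finset K, Fam94 B F ∧ n - F.card = k :=
    ⟨_, ∅, ⟨by simp, by simp⟩, rfl⟩
  obtain ⟨F, hF, hFk⟩ := Nat.find_spec hex
  have hmax : ∀ G : Finset K, Fam94 B G → G.card ≤ F.card := by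
    intro G hG
    have h1 := Nat.find_min' hex ⟨G, hG, rfl⟩
    rw [← hFk] at h1
    have h2 := fam_card_lt94 B n hBS G hG
    have h3 := fam_card_lt94 B n hBS F hF
    omega
  -- a member not comaximal with w₀
  obtain ⟨w, hwF, hw⟩ : ∃ w ∈ F, ¬ Comax95 B w₀ w := by
    by_contra hcon
    push Not at hcon
    obtain ⟨h1, h2⟩ := fam_insert94 B F hF w₀ hw₀ hcon
    have h3 := hmax _ h1
    rw [Finset.card_insert_of_notMem h2] at h3
    omega
  have hval : ∀ t : K, t ∈ comaxSub94 B w ∨ t⁻¹ ∈ comaxSub94 B w := by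
    intro t
    by_contra hcon
    push Not at hcon
    obtain ⟨ht, ht'⟩ := hcon
    have ht0 : t ≠ 0 := by
      rintro rfl
      exact ht (comaxSub94 B w).zero_mem
    rw [mem_comaxSub94] at ht ht'
    unfold Comax95 at ht ht'
    push Not at ht ht'
    obtain ⟨z, hz1, hz2, hz⟩ := ht
    obtain ⟨z', hz1', hz2', hz'⟩ := ht'
    have hzz : Comax95 B z z' := by
      refine comax_mono94 B (a' := t) (fun u hu h => by rw [mul_comm]; exact hz1 u hu h) ?_
      refine comax_symm94 B ?_
      refine comax_mono94 B (a' := t⁻¹) (fun u hu h => by rw [mul_comm]; exact hz1' u hu h) ?_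
      exact comax_symm94 B (comax_inv94 B hfrac hcic ht0)
    have hF' : Fam94 B (F.erase w) :=
      ⟨fun a ha => hF.1 a (Finset.mem_of_mem_erase ha), fun a ha b hb hab =>
        hF.2 a (Finset.mem_of_mem_erase ha) b (Finset.mem_of_mem_erase hb) hab⟩
    have hcz : ∀ b ∈ F.erase w, Comax95 B z b := fun b hb =>
      comax_mono94 B (a' := w) (fun u hu h => by rw [mul_comm]; exact hz2 u hu h)
        (hF.2 w hwF b (Finset.mem_of_mem_erase hb) (Finset.ne_of_mem_erase hb).symm)
    have hcz' : ∀ b ∈ F.erase w, Comax95 B z' b := fun b hb =>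
      comax_mono94 B (a' := w) (fun u hu h => by rw [mul_comm]; exact hz2' u hu h)
        (hF.2 w hwF b (Finset.mem_of_mem_erase hb) (Finset.ne_of_mem_erase hb).symm)
    obtain ⟨h1, h2⟩ := fam_insert94 B _ hF' z hz hcz
    obtain ⟨h3, h4⟩ := fam_insert94 B _ h1 z' hz' (by
      intro b hb
      rcases Finset.mem_insert.1 hb with rfl | hb
      · exact comax_symm94 B hzz
      · exact hcz' b hb)
    have h5 := hmax _ h3
    rw [Finset.card_insert_of_notMem h4, Finset.card_insert_of_notMem h2,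
      Finset.card_erase_of_mem hwF] at h5
    have h6 : 0 < F.card := Finset.card_pos.2 ⟨w, hwF⟩
    omega
  refine ⟨w, ⟨comaxSub94 B w, hval⟩, ?_, ?_, hF.1 w hwF, ?_⟩
  · intro x hx
    exact comax_of_mem94 B hx w
  · exact hw
  · exact fun t => Iff.rfl

end V3

end Pool.Agent.AIC
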