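import Mathlib
import Pool.Agent.AIC.BallV95
import Pool.Agent.AIC.DefsV95
import Pool.Agent.AIC.V0_82
import Pool.Agent.AIC.V2_82
import Pool.Agent.AIC.Form83
import Pool.Agent.AIC.V1b82
import Pool.Agent.AIC.V3_94
import Pool.Agent.AIC.V8_82

/-!
# Theorem V: two valuation rings

An NIP domain with exactly two nonzero primes, both maximal, is contained in two valuation rings of
its fraction field, with NIP intersection, neither of which contains the other.
-/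

set_option autoImplicit false
set_option linter.style.haveILetI false

namespace Pool.Agent.AIC

open FirstOrder FirstOrder.Ring

/-- the fraction field is `A[1/b]` for `b` in all nonzero primes -/
theorem pow_mul_mem95 {T K : Type} [CommRing T] [IsDomain T] [Field K] [Algebra T K]
    [IsFractionRing T K] (b : T) (hb : ∀ p : Ideal T, p.IsPrime → p ≠ ⊥ → b ∈ p) (x : K) :
    ∃ k : ℕ, algebraMap T K b ^ k * x ∈ (algebraMap T K).range := by
  obtain ⟨a, s, hs, rfl⟩ := IsFractionRing.div_surjective (A := T) x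
  have hs0 : s ≠ 0 := nonZeroDivisors.ne_zero hs
  have h1 : b ∈ (Ideal.span {s}).radical := by
    rw [Ideal.radical_eq_sInf, Ideal.mem_sInf]
    rintro p ⟨hp, hpp⟩
    refine hb p hpp ?_
    rintro rfl
    exact hs0 ((Ideal.mem_bot).1 (hp (Ideal.subset_span rfl)))
  obtain ⟨k, hk⟩ := h1
  obtain ⟨c, hc⟩ := Ideal.mem_span_singleton'.1 hk
  refine ⟨k, c * a, ?_⟩
  have hsK : algebraMap T K s ≠ 0 := fun h =>
    hs0 ((IsFractionRing.injective T K) (by rw [h, map_zero]))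
  rw [map_mul, ← map_pow, ← hc, map_mul]
  field_simp

/-- in an NIP domain, Baldwin-Saxl for divisibility -/
theorem bs_nip95 {R : Type} [CommRing R] [CompatibleRing R] (hN : NIPRing R) : ∃ n, BSn n R :=
  bs_of_div (nip_div hN)

theorem two_vals_aux95 {T K : Type} [CommRing T] [IsDomain T] [CompatibleRing T] (hN : NIPRing T)
    [Field K] [Algebra T K] [IsFractionRing T K] (m1 m2 : Ideal T) (h1 : m1.IsMaximal)
    (h2 : m2.IsMaximal) (hne : m1 ≠ m2) (hall : ∀ p : Ideal T, p.IsPrime → p = ⊥ ∨ p = m1 ∨ p = m2) :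
    ∃ (V V' : ValuationSubring K) (w₁ w₂ : K),
      (∀ x : T, algebraMap T K x ∈ V ∧ algebraMap T K x ∈ V') ∧
      w₁ ∈ V ∧ w₁ ∈ V' ∧ w₂ ∈ V ∧ w₂ ∈ V' ∧ w₁ + w₂ = 1 ∧ w₁⁻¹ ∉ V ∧ w₂⁻¹ ∉ V' ∧
      (∀ x : K, ∃ k : ℕ, (w₁ * w₂) ^ k * x ∈ V ∧ (w₁ * w₂) ^ k * x ∈ V') ∧
      ∀ [CompatibleRing (V.toSubring ⊓ V'.toSubring : Subring K)],
        NIPRing (V.toSubring ⊓ V'.toSubring : Subring K) := by
  classical
  have hinj : Function.Injective (algebraMap T K) := IsFractionRing.injective T K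
  obtain ⟨a₁, ha₁, a₂, ha₂, h12⟩ : ∃ a ∈ m1, ∃ c ∈ m2, a + c = 1 :=
    Submodule.mem_sup.1 (by
      rw [h1.coprime_of_ne h2 hne]; exact Submodule.mem_top)
  have hu1 : ¬ IsUnit a₁ := fun h => h1.ne_top (Ideal.eq_top_of_isUnit_mem _ ha₁ h)
  have hu2 : ¬ IsUnit a₂ := fun h => h2.ne_top (Ideal.eq_top_of_isUnit_mem _ ha₂ h)
  have hb : ∀ p : Ideal T, p.IsPrime → p ≠ ⊥ → a₁ * a₂ ∈ p := by
    intro p hp hp0
    rcases hall p hp with h | h | h
    · exact absurd h hp0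
    · rw [h]; exact Ideal.mul_mem_right _ _ ha₁
    · rw [h]; exact Ideal.mul_mem_left _ _ ha₂
  obtain ⟨A, hA⟩ : ∃ A : Subring K, A = (algebraMap T K).range := ⟨_, rfl⟩
  obtain ⟨β, hβ⟩ : ∃ β : K, β = algebraMap T K (a₁ * a₂) := ⟨_, rfl⟩
  have hmem : ∀ x : T, algebraMap T K x ∈ A := fun x => by rw [hA]; exact ⟨x, rfl⟩
  have hβA : β ∈ A := by rw [hβ]; exact hmem _
  have hβK : ∀ x : K, ∃ k : ℕ, β ^ k * x ∈ A := by
    intro x
    rw [hβ, hA]
    exact pow_mul_mem95 _ hb x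
  obtain ⟨S, hSdef⟩ : ∃ S : Subring K, S = ball95 A β hβA hβK := ⟨_, rfl⟩
  have hAS : A ≤ S := by rw [hSdef]; exact le_ball95 hβA hβK
  have hinv : ∀ a c : T, a + c = 1 → a * c = a₁ * a₂ → ¬ IsUnit a →
      (algebraMap T K a)⁻¹ ∉ S := by
    intro a c hac hac' ha
    rw [hSdef]
    refine inv_notMem_ball95 hβA hβK _ (algebraMap T K c) (hmem a) ?_ ?_ ?_
    · rw [← map_add, hac, map_one]
    · rw [hβ, ← hac', map_mul]
    · rw [hA]
      rintro ⟨d, hd⟩
      apply ha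
      refine IsUnit.of_mul_eq_one d (hinj ?_)
      rw [map_mul, hd, map_one]
      refine mul_inv_cancel₀ fun h => ?_
      have ha0 : a = 0 := hinj (by rw [h, map_zero])
      rw [ha0] at hac'
      rw [zero_mul] at hac'
      rcases mul_eq_zero.1 hac'.symm with h3 | h3
      · rw [h3, zero_add] at h12
        exact hu2 (by rw [h12]; exact isUnit_one)
      · rw [h3, add_zero] at h12
        exact hu1 (by rw [h12]; exact isUnit_one)
  have hw1 : (algebraMap T K a₁)⁻¹ ∉ S := hinv a₁ a₂ h12 rfl hu1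
  have hw2 : (algebraMap T K a₂)⁻¹ ∉ S := hinv a₂ a₁ (by rw [add_comm]; exact h12)
    (mul_comm _ _) hu2
  have hED := ed_tclosed95 (R := T) (K := K) hN S (by
    intro F hF z hz
    rw [hSdef]
    refine ball_tclosed95 hβA hβK F (fun x hx => by rw [← hSdef]; exact hF x hx) z ?_
    intro u hu
    rw [hA]
    obtain ⟨a, ha⟩ := hz u (fun x hx => by
      have h3 := hu x hx
      rw [hA] at h3
      exact h3)
    exact ⟨a, ha⟩)
  letI cS : CompatibleRing S := compatibleRingOfRing S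
  have hNS : NIPRing S := nip_subring95 hN S hED
  obtain ⟨n, hn⟩ := bs_nip95 hNS
  have hfrac : ∀ x : K, ∃ s ∈ S, s ≠ 0 ∧ s * x ∈ S := by
    intro x
    obtain ⟨a, s, hs, rfl⟩ := IsFractionRing.div_surjective (A := T) x
    have hs0 : algebraMap T K s ≠ 0 := fun h =>
      (nonZeroDivisors.ne_zero hs) (hinj (by rw [h, map_zero]))
    refine ⟨algebraMap T K s, hAS (hmem s), hs0, ?_⟩
    rw [mul_div_cancel₀ _ hs0]
    exact hAS (hmem a)
  haveI hfrS : IsFractionRing S K := by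
    refine IsFractionRing.of_field _ _ fun x => ?_
    obtain ⟨s, hs, hs0, hsx⟩ := hfrac x
    exact ⟨⟨_, hsx⟩, ⟨s, hs⟩, by
      show x = (s * x) / s
      field_simp⟩
  have hcic : ∀ x d : K, d ≠ 0 → (∀ m : ℕ, d * x ^ m ∈ S) → x ∈ S := by
    intro x d hd h
    rw [hSdef] at h ⊢
    exact ball_cic95 hβA hβK x d hd h
  obtain ⟨v, V, hBV, hv1, -, hVd⟩ :=
    exists_val95 S n (bs_field95 S n hn hfrac) hfrac hcic _ hw1
  obtain ⟨v', V', hBV', hv2, -, hVd'⟩ :=
    exists_val95 S n (bs_field95 S n hn hfrac) hfrac hcic _ hw2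
  have hmV : ∀ x : T, algebraMap T K x ∈ V := fun x => hBV (hAS (hmem x))
  have hmV' : ∀ x : T, algebraMap T K x ∈ V' := fun x => hBV' (hAS (hmem x))
  refine ⟨V, V', algebraMap T K a₁, algebraMap T K a₂, fun x => ⟨hmV x, hmV' x⟩, hmV _, hmV' _,
    hmV _, hmV' _, ?_, hv1, hv2, ?_, ?_⟩
  · rw [← map_add, h12, map_one]
  · intro x
    obtain ⟨k, hk⟩ := hβK x
    rw [hβ, map_mul] at hk
    exact ⟨k, hBV (hAS hk), hBV' (hAS hk)⟩
  · intro cL
    refine nip_subring95 (R := S) (K := K) hNS _ ?_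
    have e1 := val_ed95 S v V.toSubring hVd
    have e2 := val_ed95 S v' V'.toSubring hVd'
    have e3 := ED.of_definable (e1.inter e2)
    convert e3 using 1
    ext u
    constructor
    · rintro ⟨h3, h4, h5⟩
      exact ⟨⟨h3, h4⟩, ⟨h3, h5⟩⟩
    · rintro ⟨⟨h3, h4⟩, ⟨_, h5⟩⟩
      exact ⟨h3, h4, h5⟩

/-- two different rank one valuation rings with NIP intersection -/
theorem two_vals95 {T K : Type} [CommRing T] [IsDomain T] [CompatibleRing T] (hN : NIPRing T)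
    [Field K] [Algebra T K] [IsFractionRing T K] (m1 m2 : Ideal T) (h1 : m1.IsMaximal)
    (h2 : m2.IsMaximal) (hne : m1 ≠ m2) (hall : ∀ p : Ideal T, p.IsPrime → p = ⊥ ∨ p = m1 ∨ p = m2) :
    ∃ W W' : ValuationSubring K, W ≠ W' ∧ W ≠ ⊤ ∧ W' ≠ ⊤ ∧
      (∀ U : ValuationSubring K, W < U → U = ⊤) ∧ (∀ U : ValuationSubring K, W' < U → U = ⊤) ∧
      (∀ x : T, algebraMap T K x ∈ W ∧ algebraMap T K x ∈ W') ∧
      ∀ [CompatibleRing (W.toSubring ⊓ W'.toSubring : Subring K)],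
        NIPRing (W.toSubring ⊓ W'.toSubring : Subring K) := by
  obtain ⟨V, V', w₁, w₂, hT, a1, a2, a3, a4, a5, a6, a7, hK, hNL⟩ :=
    two_vals_aux95 (K := K) hN m1 m2 h1 h2 hne hall
  letI cL : CompatibleRing (V.toSubring ⊓ V'.toSubring : Subring K) := compatibleRingOfRing _
  obtain ⟨W, W', hVW, hVW', b1, b2, b3, b4, b5, b6⟩ :=
    exists_rankOne82 V V' hNL w₁ w₂ a1 a2 a3 a4 a5 a6 a7 hK
  exact ⟨W, W', b1, b2, b3, b4, b5, fun x => ⟨hVW (hT x).1, hVW' (hT x).2⟩, b6⟩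

/-- the two-prime lemma: if the rank one NIP valuation rings are henselian, no NIP domain has
exactly two nonzero primes, both maximal. -/
theorem two_prime95 (hHV : HV95) {T : Type} [CommRing T] [IsDomain T] [CompatibleRing T]
    (hN : NIPRing T) (m1 m2 : Ideal T) (h1 : m1.IsMaximal) (h2 : m2.IsMaximal) (hne : m1 ≠ m2)
    (hall : ∀ p : Ideal T, p.IsPrime → p = ⊥ ∨ p = m1 ∨ p = m2) : False := by
  obtain ⟨V, V', w₁, w₂, hT, a1, a2, a3, a4, a5, a6, a7, hK, hNL⟩ :=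
    two_vals_aux95 (K := FractionRing T) hN m1 m2 h1 h2 hne hall
  letI cL : CompatibleRing (V.toSubring ⊓ V'.toSubring : Subring (FractionRing T)) :=
    compatibleRingOfRing _
  exact no_two_vals95 hHV V V' hNL w₁ w₂ a1 a2 a3 a4 a5 a6 a7 hK

end Pool.Agent.AIC
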