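import Mathlib
import Pool.Agent.AIC.TwoVals95
import Pool.Agent.AIC.RankOne83

/-!
# Completely integrally closed NIP domains

The valuation rings cut out by a comaximality condition over a completely integrally closed ring
are completely integrally closed, hence of rank one.
-/

set_option autoImplicit false
set_option linter.style.haveILetI false

namespace Pool.Agent.AIC

open FirstOrder FirstOrder.Ring

section cic

variable {K : Type} [Field K] (B : Subring K)

/-- if `u` and `u * t ^ m` are in `B` then `u * t ^ i` is in `B` for `i ≤ m`. -/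
theorem mul_pow_mem83 (hfrac : ∀ x : K, ∃ s ∈ B, s ≠ 0 ∧ s * x ∈ B)
    (hcic : ∀ x d : K, d ≠ 0 → (∀ m : ℕ, d * x ^ m ∈ B) → x ∈ B) (t u : K) (m : ℕ) (hu : u ∈ B)
    (hut : u * t ^ m ∈ B) (i : ℕ) (hi : i ≤ m) : u * t ^ i ∈ B := by
  rcases Nat.eq_zero_or_pos m with h0 | hm
  · have h1 : i = 0 := by omega
    rw [h1, pow_zero, mul_one]
    exact hu
  obtain ⟨y, hy⟩ : ∃ y, y = u * t ^ i := ⟨_, rfl⟩
  have hym : y ^ m ∈ B := by
    have h1 : y ^ m = u ^ (m - i) * (u * t ^ m) ^ i := by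
      rw [hy, mul_pow, mul_pow, ← mul_assoc, ← pow_add, Nat.sub_add_cancel hi, ← pow_mul,
        ← pow_mul, mul_comm i m]
    rw [h1]
    exact B.mul_mem (B.pow_mem hu _) (B.pow_mem hut _)
  obtain ⟨s, hs, hs0, hsy⟩ := hfrac y
  rw [← hy]
  refine hcic y (s ^ m) (pow_ne_zero _ hs0) fun k => ?_
  have h2 : s ^ m * y ^ k = (y ^ m) ^ (k / m) * (s ^ (m - k % m) * (s * y) ^ (k % m)) := by
    have h3 : k % m ≤ m := (Nat.mod_lt k hm).le
    have h4 : s ^ m = s ^ (m - k % m) * s ^ (k % m) := by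
      rw [← pow_add, Nat.sub_add_cancel h3]
    have h5 : y ^ k = (y ^ m) ^ (k / m) * y ^ (k % m) := by
      rw [← pow_mul, ← pow_add, Nat.div_add_mod]
    rw [h4, h5, mul_pow]
    ring
  rw [h2]
  exact B.mul_mem (B.pow_mem hym _) (B.mul_mem (B.pow_mem hs _) (B.pow_mem hsy _))

/-- powers of an element of the divisorial closure of `(1, t)`. -/
theorem pow_mul_mem83 (hfrac : ∀ x : K, ∃ s ∈ B, s ≠ 0 ∧ s * x ∈ B)
    (hcic : ∀ x d : K, d ≠ 0 → (∀ m : ℕ, d * x ^ m ∈ B) → x ∈ B) (t z : K)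
    (hz : ∀ u ∈ B, u * t ∈ B → z * u ∈ B) (m : ℕ) (u : K) (hu : u ∈ B) (hut : u * t ^ m ∈ B) :
    z ^ m * u ∈ B := by
  have key : ∀ j : ℕ, j ≤ m → ∀ i : ℕ, i ≤ m - j → z ^ j * (u * t ^ i) ∈ B := by
    intro j
    induction j with
    | zero =>
      intro _ i hi
      rw [pow_zero, one_mul]
      exact mul_pow_mem83 B hfrac hcic t u m hu hut i (by omega)
    | succ j ih =>
      intro hj i hi
      have h1 := ih (by omega) i (by omega)
      have h2 := ih (by omega) (i + 1) (by omega)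
      have h3 := hz _ h1 (by
        have h4 : z ^ j * (u * t ^ i) * t = z ^ j * (u * t ^ (i + 1)) := by ring
        rw [h4]
        exact h2)
      have h5 : z ^ (j + 1) * (u * t ^ i) = z * (z ^ j * (u * t ^ i)) := by ring
      rw [h5]
      exact h3
  have h := key m le_rfl 0 (by omega)
  rwa [pow_zero, mul_one] at h

theorem comax_pow83 {s w : K} (h : Comax95 B s w) (m : ℕ) : Comax95 B (s ^ m) w := by
  induction m with
  | zero =>
    rw [pow_zero]
    exact comax_of_mem94 B B.one_mem w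
  | succ m ih =>
    rw [pow_succ]
    exact (comax_add_mul94 B ih h).2

/-- the valuation ring `{t | Comax95 B t w}` over a completely integrally closed ring is
completely integrally closed. -/
theorem comax_cic83 (hfrac : ∀ x : K, ∃ s ∈ B, s ≠ 0 ∧ s * x ∈ B)
    (hcic : ∀ x d : K, d ≠ 0 → (∀ m : ℕ, d * x ^ m ∈ B) → x ∈ B) (w x d : K) (hd : d ≠ 0)
    (hdx : ∀ m : ℕ, Comax95 B (d * x ^ m) w) : Comax95 B x w := by
  obtain ⟨s, hs, hs0, hsd⟩ := hfrac d
  obtain ⟨a, ha⟩ : ∃ a, a = s * d := ⟨_, rfl⟩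
  have haB : a ∈ B := by rw [ha]; exact hsd
  have ha0 : a ≠ 0 := by rw [ha]; exact mul_ne_zero hs0 hd
  have hax : ∀ m : ℕ, Comax95 B (a * x ^ m) (w ^ m) := by
    intro m
    have h1 : Comax95 B (s * (d * x ^ m)) w := (comax_add_mul94 B (comax_of_mem94 B hs w) (hdx m)).2
    have h2 : a * x ^ m = s * (d * x ^ m) := by rw [ha]; ring
    rw [h2]
    exact comax_symm94 B (comax_pow83 B (comax_symm94 B h1) m)
  intro z h1 h2
  refine hcic z a ha0 fun m => ?_
  refine hax m (a * z ^ m) (fun u hu hux => ?_) (fun u hu huw => ?_)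
  · have h3 := pow_mul_mem83 B hfrac hcic x z h1 m (u * a) (B.mul_mem hu haB) (by
      have h4 : u * a * x ^ m = u * (a * x ^ m) := by ring
      rw [h4]
      exact hux)
    have h5 : a * z ^ m * u = z ^ m * (u * a) := by ring
    rw [h5]
    exact h3
  · have h3 := pow_mul_mem83 B hfrac hcic w z h2 m u hu huw
    have h5 : a * z ^ m * u = a * (z ^ m * u) := by ring
    rw [h5]
    exact B.mul_mem haB h3

/-- a completely integrally closed valuation ring has rank at most one. -/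
theorem rankOne_of_cic83 (V : ValuationSubring K)
    (hcic : ∀ x d : K, d ≠ 0 → (∀ m : ℕ, d * x ^ m ∈ V) → x ∈ V) (U : ValuationSubring K)
    (hVU : V < U) : U = ⊤ := by
  by_contra hU
  obtain ⟨hle, x, hxU, hxV⟩ := SetLike.lt_iff_le_and_exists.1 hVU
  obtain ⟨z, hz⟩ : ∃ z : K, z ∉ U := by
    by_contra hcon
    push Not at hcon
    exact hU (eq_top_iff.2 fun y _ => hcon y)
  have hz0 : z ≠ 0 := fun h => hz (h ▸ U.zero_mem)
  apply hxV
  refine hcic x z⁻¹ (inv_ne_zero hz0) fun m => ?_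
  by_contra hm
  have h1 : (z⁻¹ * x ^ m)⁻¹ ∈ V := (V.mem_or_inv_mem _).resolve_left hm
  have hx0 : x ≠ 0 := fun h => hxV (h ▸ V.zero_mem)
  apply hz
  have h2 : z = (z⁻¹ * x ^ m)⁻¹ * x ^ m := by
    field_simp
  rw [h2]
  exact U.mul_mem _ _ (hle h1) (pow_mem hxU m)

end cic

/-- the intersection of two valuation rings cut out over an NIP ring is NIP. -/
theorem nip_inter83 {K : Type} [Field K] (S : Subring K) [IsFractionRing S K] [CompatibleRing S]
    (hNS : NIPRing S) (v v' : K) (V V' : ValuationSubring K) (hV : ∀ t : K, t ∈ V ↔ Comax95 S t v)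
    (hV' : ∀ t : K, t ∈ V' ↔ Comax95 S t v')
    [CompatibleRing (V.toSubring ⊓ V'.toSubring : Subring K)] :
    NIPRing (V.toSubring ⊓ V'.toSubring : Subring K) := by
  refine nip_subring95 (R := S) (K := K) hNS _ ?_
  have e1 := val_ed95 S v V.toSubring hV
  have e2 := val_ed95 S v' V'.toSubring hV'
  have e3 := ED.of_definable (e1.inter e2)
  convert e3 using 1
  ext u
  constructor
  · rintro ⟨h3, h4, h5⟩
    exact ⟨⟨h3, h4⟩, ⟨h3, h5⟩⟩
  · rintro ⟨⟨h3, h4⟩, ⟨_, h5⟩⟩
    exact ⟨h3, h4, h5⟩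

/-- an NIP completely integrally closed domain is a valuation ring, or it is contained in two
different rank one valuation rings of its fraction field with NIP intersection. -/
theorem cic_dichotomy83 {R K : Type} [CommRing R] [IsDomain R] [CompatibleRing R]
    (hN : NIPRing R) [Field K] [Algebra R K] [IsFractionRing R K]
    (hcic : ∀ x d : K, d ≠ 0 → (∀ m : ℕ, d * x ^ m ∈ (algebraMap R K).range) →
      x ∈ (algebraMap R K).range) :
    (∀ x : K, x ∈ (algebraMap R K).range ∨ x⁻¹ ∈ (algebraMap R K).range) ∨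
      ∃ W W' : ValuationSubring K, W ≠ W' ∧ RankOne83 W ∧ RankOne83 W' ∧
        (∀ x : R, algebraMap R K x ∈ W ∧ algebraMap R K x ∈ W') ∧
        ∀ [CompatibleRing (W.toSubring ⊓ W'.toSubring : Subring K)],
          NIPRing (W.toSubring ⊓ W'.toSubring : Subring K) := by
  classical
  have hinj : Function.Injective (algebraMap R K) := IsFractionRing.injective R K
  obtain ⟨S, hS⟩ : ∃ S : Subring K, S = (algebraMap R K).range := ⟨_, rfl⟩
  by_cases hval : ∀ x : K, x ∈ (algebraMap R K).range ∨ x⁻¹ ∈ (algebraMap R K).range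
  · exact Or.inl hval
  right
  push Not at hval
  obtain ⟨x, hx, hx'⟩ := hval
  rw [← hS] at hx hx' hcic
  have hmem : ∀ x : R, algebraMap R K x ∈ S := fun x => by rw [hS]; exact ⟨x, rfl⟩
  have hED := ed_tclosed95 (R := R) (K := K) hN S (by
    intro F hF z hz
    obtain ⟨a, ha⟩ := hz 1 (fun x hx => by
      have h1 := hF x hx
      rw [hS] at h1
      obtain ⟨a, ha⟩ := h1
      exact ⟨a, by rw [one_mul]; exact ha⟩)
    rw [one_mul] at ha
    rw [← ha]
    exact hmem a)
  letI cS : CompatibleRing S := compatibleRingOfRing S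
  have hNS : NIPRing S := nip_subring95 hN S hED
  obtain ⟨n, hn⟩ := bs_nip95 hNS
  have hfrac : ∀ x : K, ∃ s ∈ S, s ≠ 0 ∧ s * x ∈ S := by
    intro x
    obtain ⟨a, s, hs, rfl⟩ := IsFractionRing.div_surjective (A := R) x
    have hs0 : algebraMap R K s ≠ 0 := fun h =>
      (nonZeroDivisors.ne_zero hs) (hinj (by rw [h, map_zero]))
    refine ⟨algebraMap R K s, hmem s, hs0, ?_⟩
    rw [mul_div_cancel₀ _ hs0]
    exact hmem a
  haveI hfrS : IsFractionRing S K := by
    refine IsFractionRing.of_field _ _ fun x => ?_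
    obtain ⟨s, hs, hs0, hsx⟩ := hfrac x
    exact ⟨⟨_, hsx⟩, ⟨s, hs⟩, by
      show x = (s * x) / s
      field_simp⟩
  obtain ⟨v, V, hBV, hv1, -, hVd⟩ := exists_val95 S n (bs_field95 S n hn hfrac) hfrac hcic _ hx
  obtain ⟨v', V', hBV', hv2, -, hVd'⟩ := exists_val95 S n (bs_field95 S n hn hfrac) hfrac hcic _ hx'
  have hx'V : x⁻¹ ∈ V := (V.mem_or_inv_mem x).resolve_left hv1
  refine ⟨V, V', ?_, ⟨?_, ?_⟩, ⟨?_, ?_⟩, fun y => ⟨hBV (hmem y), hBV' (hmem y)⟩, ?_⟩
  · intro h
    rw [h] at hx'V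
    exact hv2 hx'V
  · intro h
    rw [h] at hv1
    exact hv1 (ValuationSubring.mem_top _)
  · refine rankOne_of_cic83 V fun y d hd hy => ?_
    rw [hVd]
    exact comax_cic83 S hfrac hcic v y d hd fun m => (hVd _).1 (hy m)
  · intro h
    rw [h] at hv2
    exact hv2 (ValuationSubring.mem_top _)
  · refine rankOne_of_cic83 V' fun y d hd hy => ?_
    rw [hVd']
    exact comax_cic83 S hfrac hcic v' y d hd fun m => (hVd' _).1 (hy m)
  · intro cL
    exact nip_inter83 S hNS v v' V V' hVd hVd'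

/-- a completely integrally closed valuation domain has no primes besides zero and the maximal
ideal. -/
theorem primes_of_cic83 {R K : Type} [CommRing R] [IsDomain R] [Field K] [Algebra R K]
    [IsFractionRing R K]
    (hcic : ∀ x d : K, d ≠ 0 → (∀ m : ℕ, d * x ^ m ∈ (algebraMap R K).range) →
      x ∈ (algebraMap R K).range)
    (hval : ∀ x : K, x ∈ (algebraMap R K).range ∨ x⁻¹ ∈ (algebraMap R K).range) (P : Ideal R)
    (hP : P.IsPrime) : P = ⊥ ∨ P.IsMaximal := by
  by_contra hcon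
  obtain ⟨hP0, hPm⟩ := not_or.1 hcon
  have hinj : Function.Injective (algebraMap R K) := IsFractionRing.injective R K
  obtain ⟨M, hM, hPM⟩ := Ideal.exists_le_maximal P hP.ne_top
  have hne : ¬ M ≤ P := fun h => hPm (by rw [le_antisymm hPM h]; exact hM)
  obtain ⟨y, hyM, hyP⟩ := SetLike.not_le_iff_exists.1 hne
  obtain ⟨d, hdP, hd0⟩ := Submodule.exists_mem_ne_zero_of_ne_bot hP0
  have hy0 : y ≠ 0 := fun h => hyP (h ▸ P.zero_mem)
  have hyK : algebraMap R K y ≠ 0 := fun h => hy0 (hinj (by rw [h, map_zero]))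
  have hdK : algebraMap R K d ≠ 0 := fun h => hd0 (hinj (by rw [h, map_zero]))
  have h1 : (algebraMap R K y)⁻¹ ∈ (algebraMap R K).range := by
    refine hcic _ (algebraMap R K d) hdK fun m => ?_
    rcases hval (algebraMap R K d * (algebraMap R K y)⁻¹ ^ m) with h | h
    · exact h
    · exfalso
      obtain ⟨c, hc⟩ := h
      apply hyP
      have h2 : algebraMap R K (c * d) = algebraMap R K (y ^ m) := by
        rw [map_mul, hc, map_pow, mul_inv, inv_pow, inv_inv, mul_right_comm, inv_mul_cancel₀ hdK,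
          one_mul]
      have h3 : y ^ m ∈ P := by
        rw [← hinj h2]
        exact P.mul_mem_left _ hdP
      exact hP.mem_of_pow_mem m h3
  obtain ⟨c, hc⟩ := h1
  apply hM.ne_top
  refine Ideal.eq_top_of_isUnit_mem _ hyM ?_
  refine IsUnit.of_mul_eq_one c (hinj ?_)
  rw [map_mul, hc, map_one, mul_inv_cancel₀ hyK]

/-- dimension at most one gives covers. -/
theorem sc_of_dim83 {R : Type} [CommRing R]
    (h : ∀ P : Ideal R, P.IsPrime → P = ⊥ ∨ P.IsMaximal) : SC83 R := by
  intro q Q hq hQ hlt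
  have hq0 : q = ⊥ := (h q hq).resolve_right fun hm => hlt.ne (hm.eq_of_le hQ.ne_top hlt.le)
  refine ⟨Q, hQ, hlt, le_rfl, fun n hn hqn hnQ => ?_⟩
  rcases h n hn with h1 | h1
  · exfalso
    rw [h1, hq0] at hqn
    exact lt_irrefl _ hqn
  · exact h1.eq_of_le hQ.ne_top hnQ

end Pool.Agent.AIC
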