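import Mathlib
import Pool.Agent.AIC.AssembleD76
import Pool.Agent.AIC.SideUniD83
import Pool.Agent.AIC.ChoiceD94

/-! Stage 6: the patterns for two maximal ideals, without hypotheses on the residue fields. -/

set_option autoImplicit false
set_option linter.unusedSectionVars false

namespace Pool.Agent.AIC

open Finset Polynomial IsLocalRing

section ClaimD83

variable {L : Type} [CommRing L] [IsDomain L]

/-- **the patterns**: henselian localization at `m₁`, unibranch or henselian localization at `m₂`,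
no hypothesis on the residue fields. -/
theorem claimD (q : ℕ) [Fact q.Prime] (n : ℕ) (hn : 2 ≤ n)
    (m₁ m₂ : Ideal L) [h1 : m₁.IsMaximal] [h2 : m₂.IsMaximal] (h12 : m₁ ≠ m₂)
    (hall : ∀ M : Ideal L, M.IsMaximal → M = m₁ ∨ M = m₂)
    (hH : HenselianLocalRing (Localization.AtPrime m₁))
    (hor : IsLocalRing (integralClosure (Localization.AtPrime m₂) (FractionRing L)) ∨
      HenselianLocalRing (Localization.AtPrime m₂))
    (hu1 : ∃ u ∈ m₁, ∀ M : Ideal L, M.IsMaximal → u ∈ M → M = m₁)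
    (hu2 : ∃ u ∈ m₂, ∀ M : Ideal L, M.IsMaximal → u ∈ M → M = m₂)
    (hq1 : (q : L) ∉ m₁) (hq2 : (q : L) ∉ m₂) (ζ : L) (hζ : ∑ j ∈ range q, ζ ^ j = 0) :
    ∃ c : Fin n → L, (∀ i, c i ∉ m₁) ∧ (∀ i, c i ∉ m₂) ∧
      ∀ ε : Fin n → ZMod q,
      ∃ (a b : L) (s t : Fin n → L), a ∈ m₁ ∧ a ∈ m₂ ∧ b ∉ m₁ ∧ b ∉ m₂ ∧
        (∀ i, t i ∉ m₁) ∧ (∀ i, t i ∉ m₂) ∧
        (∀ i, s i ^ q * b = (a + c i ^ q * b) * t i ^ q) ∧
        (∀ i, s i - c i * t i ∈ m₁) ∧ (∀ i, s i - ζ ^ (ε i).val * c i * t i ∈ m₂) := by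
  classical
  obtain ⟨u₁, hu11, hu1M⟩ := hu1
  obtain ⟨u₂, hu22, hu2M⟩ := hu2
  have hu12 : u₁ ∉ m₂ := fun h => h12 (hu1M m₂ h2 h).symm
  have hu21 : u₂ ∉ m₁ := fun h => h12 (hu2M m₁ h1 h)
  have hu10 : u₁ ≠ 0 := fun h => hu12 (h ▸ m₂.zero_mem)
  have hu20 : u₂ ≠ 0 := fun h => hu21 (h ▸ m₁.zero_mem)
  have hw : ∀ M : Ideal L, M.IsMaximal → u₁ * u₂ ∈ M := by
    intro M hM
    rcases hall M hM with rfl | rfl
    · exact Ideal.mul_mem_right _ _ hu11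
    · exact Ideal.mul_mem_left _ _ hu22
  have hunit : ∀ x : L, x ∉ m₁ → x ∉ m₂ → IsUnit x := by
    intro x hx1 hx2
    by_contra hn
    obtain ⟨M, hM, hxM⟩ := exists_max_ideal_of_mem_nonunits hn
    rcases hall M hM with rfl | rfl
    · exact hx1 hxM
    · exact hx2 hxM
  have hqu : IsUnit (q : L) := hunit _ hq1 hq2
  obtain ⟨c, hc, -, -, hJ⟩ := choice_jetsD94 (u₁ * u₂) hw (q := q) hqu ζ hζ n hn
  have hc1 : ∀ i, c i ∉ m₁ := fun i h => h1.ne_top (Ideal.eq_top_of_isUnit_mem _ h (hc i))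
  have hc2 : ∀ i, c i ∉ m₂ := fun i h => h2.ne_top (Ideal.eq_top_of_isUnit_mem _ h (hc i))
  refine ⟨c, hc1, hc2, fun ε => ?_⟩
  obtain ⟨η₁, η₂, e, ⟨hη1, hη10, hJ1⟩, hη2, hη20, hJ2⟩ := hJ ε
  have hD1 : (u₁ * u₂) ^ e = u₁ ^ e * u₂ ^ e := mul_pow _ _ _
  have hD2 : (u₁ * u₂) ^ e = u₂ ^ e * u₁ ^ e := by rw [mul_pow, mul_comm]
  have hs1 : u₂ ^ e ∉ m₁ := fun h => hu21 (h1.isPrime.mem_of_pow_mem _ h)
  have hs2 : u₁ ^ e ∉ m₂ := fun h => hu12 (h2.isPrime.mem_of_pow_mem _ h)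
  have hcard : Fintype.card (Fin n) = n := Fintype.card_fin n
  have hpos : 0 < Fintype.card (Fin n) := by rw [hcard]; omega
  have hζ2 : ζ ∉ m₂ := zeta_not_mem (q := q) m₂ ζ hζ
  have hc2' : ∀ i, ζ ^ (ε i).val * c i ∉ m₂ := by
    intro i h
    rcases h2.isPrime.mem_or_mem h with h | h
    · exact hζ2 (h2.isPrime.mem_of_pow_mem _ h)
    · exact hc2 i h
  have hS1 : FirstSideD q m₁ ζ c ((u₁ * u₂) ^ e) :=
    firstSideD_hens m₁ hH u₁ hu11 hu10 hu1M _ _ e hD1 hs1 hq1 ζ hζ hpos c hc1 η₁ hη1 hη10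
      (by rw [hcard]; exact hJ1)
  have hS2 : SecSideD q m₂ ζ (fun i => ζ ^ (ε i).val * c i) ((u₁ * u₂) ^ e) := by
    rcases hor with hU | hH2
    · exact (secSideG_uni m₂ hU u₂ hu22 hu20 hu2M _ _ e hD2 hs2 hq2 ζ hζ hpos _ hc2' η₂ hη2 hη20
        (by rw [hcard]; exact hJ2)).toD
    · exact secSideD_hens m₂ hH2 u₂ hu22 hu20 hu2M _ _ e hD2 hs2 hq2 ζ hζ hpos _ hc2' η₂ hη2 hη20
        (by rw [hcard]; exact hJ2)
  have hN : SecNear q m₂ := by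
    rcases hor with hU | hH2
    · exact secNear_unibranch34 m₂ hU hq2 ζ hζ
    · exact secNear_hens m₂ hH2 hq2 ζ hζ
  exact assembleD m₁ m₂ h12 hH hq1 hq2 ζ hζ c hc1 hc2 ε _ hS1 hS2 hN

end ClaimD83

end Pool.Agent.AIC
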