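import Pool.Agent.AIC.Density55
import Pool.Agent.AIC.HType94

/-!
# Density in finite extensions

MP_313bb4, stage 8, row T2 (b), (c), in set form.
-/

set_option autoImplicit false
set_option linter.unusedSectionVars false

namespace Pool.Agent.AIC

open Finset Polynomial IsLocalRing

/-- T2 (b): density passes to finite extensions. -/
theorem DenseSet.ext55 {K F : Type} [Field K] [Field F] [Algebra K F] [FiniteDimensional K F]
    {S : Set K} {S' : Set F} (h : DenseSet S) {n : ℕ} (θ : Fin n → F)
    (hspan : ∀ x : F, ∃ a : Fin n → K, x = ∑ i, algebraMap K F (a i) * θ i)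
    (hS' : ∀ r : Fin n → K, (∀ i, r i ∈ S) → ∑ i, algebraMap K F (r i) * θ i ∈ S') :
    DenseSet S' := by
  obtain ⟨A, hh, hic, hfr, hA, hd⟩ := h
  have tow : IsScalarTower A K F := inferInstance
  have hinj : Function.Injective (algebraMap A F) := by
    rw [IsScalarTower.algebraMap_eq A K F]
    exact (algebraMap K F).injective.comp (IsFractionRing.injective A K)
  have hmapF : ∀ z : A, algebraMap A F z = algebraMap K F (z : K) := fun z =>
    IsScalarTower.algebraMap_apply A K F z
  have hfrac : IsFractionRing (integralClosure A F) F :=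
    integralClosure.isFractionRing_of_finite_extension (A := A) K F
  refine ⟨(integralClosure A F).toSubring, closure_henselian94 (A := A) (F := F), ?_, hfrac, ?_, ?_⟩
  · exact integralClosure.isIntegrallyClosedOfFiniteExtension (R := A) (K := K) (L := F)
  · intro hF
    apply hA
    have hF' : IsField (integralClosure A F) := hF
    exact isField_of_isIntegral_of_isField (R := A) (S := integralClosure A F)
      (fun x y hxy => hinj (congrArg Subtype.val hxy)) hF'
  · intro x a ha
    -- a nonzero multiple of `a` in `A`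
    obtain ⟨c, hc0, hc⟩ : ∃ c : A, c ≠ 0 ∧ ∃ b : integralClosure A F,
        algebraMap A F c = (a : F) * (b : F) := by
      obtain ⟨a', ha'⟩ : ∃ a' : integralClosure A F, a' = a := ⟨a, rfl⟩
      have ha'0 : a' ≠ 0 := by
        rw [ha']
        exact ha
      have halg : IsAlgebraic A a' :=
        (integralClosure.isIntegral (R := A) (A := F) a').isAlgebraic
      obtain ⟨c, hc0, b, hb⟩ := halg.exists_nonzero_dvd (mem_nonZeroDivisors_of_ne_zero ha'0)
      rw [ha'] at hb
      exact ⟨c, hc0, b, congrArg Subtype.val hb⟩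
    -- a common denominator of the `θ i`
    obtain ⟨d, hd0, hdi⟩ : ∃ d : A, d ≠ 0 ∧ ∀ i, IsIntegral A (algebraMap A F d * θ i) := by
      have h1 : ∀ i, ∃ y : A, y ≠ 0 ∧ IsIntegral A (y • θ i) := fun i =>
        ((IsFractionRing.isAlgebraic_iff A K F).2
          (Algebra.IsAlgebraic.isAlgebraic (θ i))).exists_integral_multiple
      choose y hy0 hy using h1
      refine ⟨∏ i, y i, Finset.prod_ne_zero_iff.2 fun i _ => hy0 i, fun i => ?_⟩
      rw [← Finset.mul_prod_erase univ y (mem_univ i), map_mul, mul_comm (algebraMap A F (y i)),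
        mul_assoc]
      refine IsIntegral.mul isIntegral_algebraMap ?_
      have h2 := hy i
      rwa [Algebra.smul_def] at h2
    obtain ⟨y, hy⟩ := hspan x
    have h1 : ∀ i, ∃ (r : K) (b : A), r ∈ S ∧ y i = r + ((c * d : A) : K) * (b : K) := by
      intro i
      obtain ⟨r, hr, b, hb⟩ := hd (y i) (c * d) (mul_ne_zero hc0 hd0)
      exact ⟨r, b, hr, hb⟩
    choose r b hr hb using h1
    obtain ⟨e, he⟩ := hc
    refine ⟨_, hS' r hr, e * ∑ i, (algebraMap A (integralClosure A F) (b i) *
      ⟨algebraMap A F d * θ i, hdi i⟩), ?_⟩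
    have h2 : ∀ i, algebraMap K F (y i) * θ i = algebraMap K F (r i) * θ i +
        (a : F) * ((e : F) * (algebraMap A F (b i) * (algebraMap A F d * θ i))) := by
      intro i
      have h3 : algebraMap K F (y i) = algebraMap K F (r i) +
          algebraMap A F c * algebraMap A F d * algebraMap A F (b i) := by
        rw [hb i, map_add, map_mul, ← hmapF, ← hmapF, map_mul]
      rw [h3, he]
      ring
    rw [hy]
    simp only [h2]
    rw [Finset.sum_add_distrib, ← Finset.mul_sum, ← Finset.mul_sum]
    congr 2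
    show _ = ((e * ∑ i, (algebraMap A (integralClosure A F) (b i) *
      ⟨algebraMap A F d * θ i, hdi i⟩) : integralClosure A F) : F)
    rw [MulMemClass.coe_mul, AddSubmonoidClass.coe_finsetSum]
    rfl

/-- T2 (c): approximation with congruences. -/
theorem DenseSet.affine55 {K : Type} [Field K] {S : Set K} (h : DenseSet S) (x₀ e : K)
    (he : e ≠ 0) : DenseSet ((fun r => x₀ + e * r) '' S) := by
  obtain ⟨A, hh, hic, hfr, hA, hd⟩ := h
  refine ⟨A, hh, hic, hfr, hA, fun x a ha => ?_⟩
  obtain ⟨p, q, hq, hpq⟩ := IsFractionRing.div_surjective (A := A) e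
  have hq0 : (q : K) ≠ 0 := fun h0 => nonZeroDivisors.ne_zero hq (Subtype.ext h0)
  have hpq' : e * (q : K) = (p : K) := by
    rw [← hpq]
    exact div_mul_cancel₀ _ hq0
  have haq : a * q ≠ 0 := mul_ne_zero ha (nonZeroDivisors.ne_zero hq)
  obtain ⟨r, hr, b, hb⟩ := hd ((x - x₀) / e) (a * q) haq
  refine ⟨x₀ + e * r, ⟨r, hr, rfl⟩, p * b, ?_⟩
  have h1 : (x - x₀) / e * e = x - x₀ := div_mul_cancel₀ _ he
  have h2 : ((a * q : A) : K) = (a : K) * (q : K) := rfl
  have h3 : ((p * b : A) : K) = (p : K) * (b : K) := rfl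
  rw [h2] at hb
  rw [h3, ← hpq']
  linear_combination (-1 : K) * h1 + e * hb

/-- T2 (c): approximation with congruences, `HasDense` form: a coset of a nonzero ideal is
dense. -/
theorem HasDense.coset55 {L K : Type} [CommRing L] [Field K] [Algebra L K]
    (hinj : Function.Injective (algebraMap L K)) (h : HasDense L K) (I : Ideal L) (hI : I ≠ ⊥)
    (x₀ : L) : DenseSet (algebraMap L K '' {x | x - x₀ ∈ I}) := by
  obtain ⟨e, heI, he0⟩ := Submodule.exists_mem_ne_zero_of_ne_bot hI
  have he : algebraMap L K e ≠ 0 := fun h0 => he0 (hinj (by rw [h0, map_zero]))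
  have h1 : DenseSet (Set.range (algebraMap L K)) := h.denseSet fun r => ⟨r, rfl⟩
  refine (h1.affine55 (algebraMap L K x₀) _ he).mono ?_
  rintro _ ⟨_, ⟨r, rfl⟩, rfl⟩
  refine ⟨x₀ + e * r, ?_, by simp⟩
  show x₀ + e * r - x₀ ∈ I
  rw [add_sub_cancel_left]
  exact Ideal.mul_mem_right _ _ heI

/-- T2 (a), set form: an unbounded semilocal subring with fraction field `K` is dense. -/
theorem denseSet_of_valuation55 {K : Type} [Field K] (L : Subring K) [IsFractionRing L K]
    (hL : ¬ IsField L) (hfin : {M : Ideal L | M.IsMaximal}.Finite) (O : ValuationSubring K)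
    (hh : HenselianLocalRing O) (hO : O ≠ ⊤)
    (hun : ∀ a : K, a ≠ 0 → ∃ r ∈ L, ∀ b ∈ O, r ≠ a * b) : DenseSet (L : Set K) := by
  refine (hasDense_of_valuation55 (R := L) hL hfin O hh hO fun a ha => ?_).denseSet
    fun r => r.2
  obtain ⟨r, hr, hb⟩ := hun a ha
  exact ⟨⟨r, hr⟩, fun b => hb b b.2⟩

end Pool.Agent.AIC
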