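import Mathlib
import Pool.Agent.AIC.Cic83

/-!
# Theorem V: the final form
-/

set_option autoImplicit false
set_option linter.style.haveILetI false

namespace Pool.Agent.AIC

open FirstOrder FirstOrder.Ring

/-- the two-prime lemma with two valuation rings -/
theorem twoVals83 : TwoVals83 := by
  intro T _ _ _ hN K _ _ _ m1 m2 h1 h2 hne hall
  obtain ⟨W, W', a1, a2, a3, a4, a5, a6, a7⟩ := two_vals95 (K := K) hN m1 m2 h1 h2 hne hall
  exact ⟨W, W', a1, ⟨a2, a4⟩, ⟨a3, a5⟩, a6, a7⟩

/-- complete integral closedness in any fraction field. -/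
theorem cic_of_closure83 {R : Type} [CommRing R] [IsDomain R]
    (h : completeIntegralClosure R (FractionRing R) = ⊥) (K : Type) [Field K] [Algebra R K]
    [IsFractionRing R K] (x d : K) (hd : d ≠ 0)
    (hx : ∀ m : ℕ, d * x ^ m ∈ (algebraMap R K).range) : x ∈ (algebraMap R K).range := by
  let e : K ≃ₐ[R] FractionRing R := IsLocalization.algEquiv (nonZeroDivisors R) K (FractionRing R)
  obtain ⟨a, b, hb, hab⟩ := IsFractionRing.div_surjective (A := R) d
  have hbK : algebraMap R K b ≠ 0 := by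
    intro h0
    exact nonZeroDivisors.ne_zero hb (IsFractionRing.injective R K (by rw [h0, map_zero]))
  have ha0 : a ≠ 0 := by
    intro h0
    apply hd
    rw [← hab, h0, map_zero, zero_div]
  have had : algebraMap R K a = algebraMap R K b * d := by
    rw [← hab]
    field_simp
  have h1 : e x ∈ completeIntegralClosure R (FractionRing R) := by
    refine ⟨a, mem_nonZeroDivisors_of_ne_zero ha0, fun m => ?_⟩
    obtain ⟨c, hc⟩ := hx m
    refine ⟨b * c, ?_⟩
    have h2 : algebraMap R K (b * c) = algebraMap R K a * x ^ m := by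
      rw [map_mul, hc, had]
      ring
    have h3 := congrArg e h2
    rw [e.commutes, map_mul e, e.commutes, map_pow] at h3
    rw [h3, Algebra.smul_def]
  rw [h, Algebra.mem_bot] at h1
  obtain ⟨r, hr⟩ := h1
  refine ⟨r, e.injective ?_⟩
  rw [e.commutes, hr]

theorem isFractionRing_quotBot83 {R : Type} [CommRing R] [IsDomain R]
    [hq : (⊥ : Ideal R).IsPrime] : IsFractionRing R (FractionRing (R ⧸ (⊥ : Ideal R))) := by
  have hinj : Function.Injective (algebraMap R (FractionRing (R ⧸ (⊥ : Ideal R)))) := by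
    rw [IsScalarTower.algebraMap_eq R (R ⧸ (⊥ : Ideal R)) (FractionRing (R ⧸ (⊥ : Ideal R)))]
    refine (IsFractionRing.injective (R ⧸ (⊥ : Ideal R)) _).comp ?_
    intro x y hxy
    have h1 := Ideal.Quotient.eq.1 hxy
    exact sub_eq_zero.1 ((Ideal.mem_bot).1 h1)
  haveI : FaithfulSMul R (FractionRing (R ⧸ (⊥ : Ideal R))) :=
    (faithfulSMul_iff_algebraMap_injective _ _).mpr hinj
  refine IsFractionRing.of_field _ _ fun z => ?_
  obtain ⟨x, y, hy, rfl⟩ := IsFractionRing.div_surjective (A := R ⧸ (⊥ : Ideal R)) z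
  obtain ⟨a, rfl⟩ := Ideal.Quotient.mk_surjective x
  obtain ⟨b, rfl⟩ := Ideal.Quotient.mk_surjective y
  refine ⟨a, b, ?_⟩
  rw [IsScalarTower.algebraMap_apply R (R ⧸ (⊥ : Ideal R)) (FractionRing (R ⧸ (⊥ : Ideal R))),
    IsScalarTower.algebraMap_apply R (R ⧸ (⊥ : Ideal R)) (FractionRing (R ⧸ (⊥ : Ideal R)))]
  rfl

/-- **Theorem V, local form**. -/
theorem rank_local83 {R : Type} [CommRing R] [IsDomain R] [CompatibleRing R]
    (hN : NIPRing R) (hC : completeIntegralClosure R (FractionRing R) = ⊥ ∨ SC83 R) :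
    HenselianLocalRing R ∨
      ∃ (q : Ideal R) (_ : q.IsPrime) (L : Type) (_ : Field L)
        (_ : Algebra (FractionRing (R ⧸ q)) L) (_ : FiniteDimensional (FractionRing (R ⧸ q)) L)
        (V₁ V₂ : ValuationSubring L), V₁ ≠ V₂ ∧ RankOne83 V₁ ∧ RankOne83 V₂ ∧
        (∀ x : R ⧸ q,
          algebraMap (FractionRing (R ⧸ q)) L (algebraMap (R ⧸ q) (FractionRing (R ⧸ q)) x) ∈ V₁ ∧
          algebraMap (FractionRing (R ⧸ q)) L
            (algebraMap (R ⧸ q) (FractionRing (R ⧸ q)) x) ∈ V₂) ∧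
        ∀ [CompatibleRing (V₁.toSubring ⊓ V₂.toSubring : Subring L)],
          NIPRing (V₁.toSubring ⊓ V₂.toSubring : Subring L) := by
  rcases hC with hC | hC
  · haveI hbp : (⊥ : Ideal R).IsPrime := Ideal.isPrime_bot
    haveI := isFractionRing_quotBot83 (R := R)
    have hcic := cic_of_closure83 hC (FractionRing (R ⧸ (⊥ : Ideal R)))
    rcases cic_dichotomy83 hN hcic with h1 | h1
    · exact rankOne_local83 twoVals83 hN (sc_of_dim83 (primes_of_cic83 hcic h1))
    · right
      obtain ⟨W, W', a1, a2, a3, a4, a5⟩ := h1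
      refine ⟨⊥, hbp, FractionRing (R ⧸ (⊥ : Ideal R)), inferInstance, Algebra.id _,
        inferInstance, W, W', a1, a2, a3, fun x => ?_, a5⟩
      obtain ⟨r, rfl⟩ := Ideal.Quotient.mk_surjective x
      exact a4 r
  · exact rankOne_local83 twoVals83 hN hC

end Pool.Agent.AIC
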