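import Mathlib
import Pool.Agent.AIC.FinalRank83

/-!
# Theorem V: the two valuation rings are not henselian
-/

set_option autoImplicit false
set_option linter.style.haveILetI false

namespace Pool.Agent.AIC

open FirstOrder FirstOrder.Ring

section center

variable {K : Type} [Field K] (L : Subring K) (U : ValuationSubring K) (hLU : L ≤ U.toSubring)

/-- the center of a valuation ring on a subring. -/
def center83 : Ideal L where
  carrier := {x | U.valuation (x : K) < 1}
  add_mem' := fun {x y} hx hy => by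
    show U.valuation ((x : K) + (y : K)) < 1
    exact lt_of_le_of_lt (U.valuation.map_add _ _) (max_lt hx hy)
  zero_mem' := by
    show U.valuation (0 : K) < 1
    rw [map_zero]
    exact zero_lt_one
  smul_mem' := fun c x hx => by
    show U.valuation ((c : K) * (x : K)) < 1
    rw [map_mul]
    exact (mul_le_of_le_one_left' ((U.valuation_le_one_iff _).mpr (hLU c.2))).trans_lt hx

theorem mem_center83 (x : L) : x ∈ center83 L U hLU ↔ U.valuation (x : K) < 1 := Iff.rfl

theorem center_prime83 : (center83 L U hLU).IsPrime := by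
  have hle : ∀ x : L, U.valuation (x : K) ≤ 1 := fun x => (U.valuation_le_one_iff _).mpr (hLU x.2)
  refine ⟨?_, fun {x y} hxy => ?_⟩
  · intro h
    have h1 : (1 : L) ∈ center83 L U hLU := by
      rw [h]
      trivial
    have h2 : U.valuation (1 : K) < 1 := h1
    rw [map_one] at h2
    exact lt_irrefl _ h2
  · have h1 : U.valuation ((x : K) * (y : K)) < 1 := hxy
    rw [map_mul] at h1
    by_contra hc
    rw [not_or] at hc
    have hx : U.valuation (x : K) = 1 := le_antisymm (hle x) (not_lt.mp hc.1)
    have hy : U.valuation (y : K) = 1 := le_antisymm (hle y) (not_lt.mp hc.2)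
    rw [hx, hy, one_mul] at h1
    exact lt_irrefl _ h1

/-- with enough denominators the valuation ring is the localization at its center. -/
theorem center_localization83
    (hden : ∀ x ∈ U, ∃ s ∈ L, U.valuation s = 1 ∧ s * x ∈ L) :
    ∃ _ : Algebra L U, haveI := center_prime83 L U hLU
      IsLocalization (center83 L U hLU).primeCompl U := by
  haveI hp := center_prime83 L U hLU
  letI : Algebra L U := (Subring.inclusion hLU).toAlgebra
  refine ⟨inferInstance, ?_⟩
  have hval : ∀ s : L, s ∉ center83 L U hLU → U.valuation (s : K) = 1 := by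
    intro s hs
    exact le_antisymm ((U.valuation_le_one_iff _).mpr (hLU s.2)) (not_lt.mp hs)
  rw [isLocalization_iff]
  refine ⟨?_, ?_, ?_⟩
  · rintro ⟨s, hs⟩
    have h1 := hval s hs
    have h0 : (s : K) ≠ 0 := by
      intro h0
      rw [h0, map_zero] at h1
      exact zero_ne_one h1
    have hi : (s : K)⁻¹ ∈ U := by
      rw [← U.valuation_le_one_iff, map_inv₀, h1, inv_one]
    refine IsUnit.of_mul_eq_one ⟨(s : K)⁻¹, hi⟩ ?_
    apply Subtype.ext
    show (s : K) * (s : K)⁻¹ = 1
    exact mul_inv_cancel₀ h0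
  · rintro ⟨x, hx⟩
    obtain ⟨s, hs, hs1, hsx⟩ := hden x hx
    refine ⟨(⟨s * x, hsx⟩, ⟨⟨s, hs⟩, fun h => ?_⟩), ?_⟩
    · have h2 : U.valuation s < 1 := h
      rw [hs1] at h2
      exact lt_irrefl _ h2
    · apply Subtype.ext
      show x * s = s * x
      exact mul_comm _ _
  · intro x y hxy
    refine ⟨1, ?_⟩
    have h0 : (x : K) = (y : K) := congrArg (fun z : U => (z : K)) hxy
    rw [Subtype.ext h0]

end center

/-- if the intersection `L` of two different rank one valuation rings `V`, `W` is NIP, then `V` is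
NIP and not henselian. -/
theorem side83 {K : Type} [Field K] (V W : ValuationSubring K) (hV : RankOne83 V)
    (hW : RankOne83 W) (hne : V ≠ W) (L : Subring K) (hL : L = V.toSubring ⊓ W.toSubring)
    [CompatibleRing L] (hN : NIPRing L) :
    ¬ HenselianLocalRing V ∧ ∀ [CompatibleRing V], NIPRing V := by
  obtain ⟨w₁, w₂, h1, h2, h3, h4, h5, h6, h7, h8⟩ := rankOne_pair83 V W hV hW hne
  have lt_of : ∀ (U : ValuationSubring K) (w : K), w⁻¹ ∉ U → U.valuation w < 1 := by
    intro U w hw
    rw [← ValuationSubring.mem_nonunits_iff, ValuationSubring.mem_nonunits_iff_or]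
    exact Or.inr hw
  have hv1 : V.valuation w₁ < 1 := lt_of V w₁ h6
  have hv2' : W.valuation w₂ < 1 := lt_of W w₂ h7
  have one_of : ∀ (U : ValuationSubring K) (a b : K), a + b = 1 → U.valuation a < 1 →
      U.valuation b = 1 := by
    intro U a b hab ha
    have hb : b = 1 + -a := by rw [← hab]; ring
    rw [hb, Valuation.map_add_eq_of_lt_left _ (by rwa [Valuation.map_neg, map_one]), map_one]
  have hv2 : V.valuation w₂ = 1 := one_of V w₁ w₂ h5 hv1
  have hv1' : W.valuation w₁ = 1 := one_of W w₂ w₁ (by rw [add_comm]; exact h5) hv2'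
  have hw1ne : w₁ ≠ 0 := by
    rintro rfl
    rw [map_zero] at hv1'
    exact zero_ne_one hv1'
  have hw2ne : w₂ ≠ 0 := by
    rintro rfl
    rw [map_zero] at hv2
    exact zero_ne_one hv2
  subst hL
  haveI hfr : IsFractionRing (V.toSubring ⊓ W.toSubring : Subring K) K :=
    isFractionRing82 V W (w₁ * w₂) (mul_ne_zero hw1ne hw2ne) h8 (V.mul_mem _ _ h1 h3)
      (W.mul_mem _ _ h2 h4)
  haveI hic : IsIntegrallyClosed (V.toSubring ⊓ W.toSubring : Subring K) :=
    isIntegrallyClosed82 V W
  haveI hPp := center_prime83 (V.toSubring ⊓ W.toSubring) V inf_le_left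
  haveI hQp := center_prime83 (V.toSubring ⊓ W.toSubring) W inf_le_right
  obtain ⟨algV, hloc⟩ := center_localization83 (V.toSubring ⊓ W.toSubring) V inf_le_left (by
    intro x hx
    obtain ⟨s, hs1, hs2, hs3⟩ := exists_s82 V W x hx
    have hsV : s ∈ V := (V.valuation_le_one_iff s).mp hs1.le
    exact ⟨s, ⟨hsV, hs2⟩, hs1, ⟨V.mul_mem _ _ hsV hx, hs3⟩⟩)
  refine ⟨fun hH => ?_, ?_⟩
  · have e : V ≃ₐ[(V.toSubring ⊓ W.toSubring : Subring K)] Localization.AtPrime
        (center83 (V.toSubring ⊓ W.toSubring) V inf_le_left) :=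
      IsLocalization.algEquiv (center83 (V.toSubring ⊓ W.toSubring) V inf_le_left).primeCompl _ _
    have hHL : HenselianLocalRing (Localization.AtPrime
        (center83 (V.toSubring ⊓ W.toSubring) V inf_le_left)) :=
      hens_surj83 hH (e : V →+* _) e.surjective
    rcases theoremPK46 (K := K) hN (center83 (V.toSubring ⊓ W.toSubring) V inf_le_left)
      (center83 (V.toSubring ⊓ W.toSubring) W inf_le_right) hHL (over_finite_normal82 _) with h | h
    · have h9 : (⟨w₁, h1, h2⟩ : (V.toSubring ⊓ W.toSubring : Subring K)) ∈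
          center83 (V.toSubring ⊓ W.toSubring) W inf_le_right := h (by
        rw [mem_center83]
        exact hv1)
      rw [mem_center83] at h9
      have h10 : W.valuation w₁ < 1 := h9
      rw [hv1'] at h10
      exact lt_irrefl _ h10
    · have h9 : (⟨w₂, h3, h4⟩ : (V.toSubring ⊓ W.toSubring : Subring K)) ∈
          center83 (V.toSubring ⊓ W.toSubring) V inf_le_left := h (by
        rw [mem_center83]
        exact hv2')
      rw [mem_center83] at h9
      have h10 : V.valuation w₂ < 1 := h9
      rw [hv2] at h10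
      exact lt_irrefl _ h10
  · intro cV
    refine nip_localization (center83 (V.toSubring ⊓ W.toSubring) V inf_le_left).primeCompl hN
      ?_ (Ideal.primeCompl_le_nonZeroDivisors _) V
    exact (ED.prime (center83 (V.toSubring ⊓ W.toSubring) V inf_le_left)).compl

/-- **Theorem V, strong local form**. -/
theorem rank_strong83 {R : Type} [CommRing R] [IsDomain R] [CompatibleRing R]
    (hN : NIPRing R) (hC : completeIntegralClosure R (FractionRing R) = ⊥ ∨ SC83 R) :
    HenselianLocalRing R ∨
      ∃ (q : Ideal R) (_ : q.IsPrime) (L : Type) (_ : Field L)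
        (_ : Algebra (FractionRing (R ⧸ q)) L) (_ : FiniteDimensional (FractionRing (R ⧸ q)) L)
        (V₁ V₂ : ValuationSubring L), V₁ ≠ V₂ ∧ RankOne83 V₁ ∧ RankOne83 V₂ ∧
        (∀ x : R ⧸ q,
          algebraMap (FractionRing (R ⧸ q)) L (algebraMap (R ⧸ q) (FractionRing (R ⧸ q)) x) ∈ V₁ ∧
          algebraMap (FractionRing (R ⧸ q)) L
            (algebraMap (R ⧸ q) (FractionRing (R ⧸ q)) x) ∈ V₂) ∧
        (∀ [CompatibleRing (V₁.toSubring ⊓ V₂.toSubring : Subring L)],
          NIPRing (V₁.toSubring ⊓ V₂.toSubring : Subring L)) ∧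
        (¬ HenselianLocalRing V₁ ∧ ∀ [CompatibleRing V₁], NIPRing V₁) ∧
        (¬ HenselianLocalRing V₂ ∧ ∀ [CompatibleRing V₂], NIPRing V₂) := by
  rcases rank_local83 hN hC with h | h
  · exact Or.inl h
  · right
    obtain ⟨q, hq, L, i1, i2, i3, V, W, a1, a2, a3, a4, a5⟩ := h
    letI cL : CompatibleRing (V.toSubring ⊓ W.toSubring : Subring L) := compatibleRingOfRing _
    exact ⟨q, hq, L, i1, i2, i3, V, W, a1, a2, a3, a4, a5,
      side83 V W a2 a3 a1 (V.toSubring ⊓ W.toSubring) rfl a5,
      side83 W V a3 a2 a1.symm (V.toSubring ⊓ W.toSubring) (inf_comm _ _) a5⟩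

end Pool.Agent.AIC
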