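import Mathlib
import Pool.Agent.AIC.NotHens83

/-!
# Theorem V: the finite extension in elementary terms
-/

set_option autoImplicit false
set_option linter.style.haveILetI false

namespace Pool.Agent.AIC

open FirstOrder FirstOrder.Ring

/-- a finite extension of the fraction field of `A`, with common denominators. -/
theorem finite_over83 {A L : Type} [CommRing A] [IsDomain A] [Field L] [Algebra (FractionRing A) L]
    [FiniteDimensional (FractionRing A) L] :
    ∃ (n : ℕ) (e : Fin n → L), ∀ y : L, ∃ (d : A) (c : Fin n → A),
      algebraMap (FractionRing A) L (algebraMap A (FractionRing A) d) ≠ 0 ∧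
      algebraMap (FractionRing A) L (algebraMap A (FractionRing A) d) * y =
        ∑ i, algebraMap (FractionRing A) L (algebraMap A (FractionRing A) (c i)) * e i := by
  classical
  let b := Module.finBasis (FractionRing A) L
  refine ⟨_, b, fun y => ?_⟩
  obtain ⟨⟨d, hd⟩, hd'⟩ := IsLocalization.exist_integer_multiples_of_finite
    (nonZeroDivisors A) (fun i => b.repr y i)
  choose c hc using hd'
  have hd0 : algebraMap (FractionRing A) L (algebraMap A (FractionRing A) d) ≠ 0 := by
    intro h
    have h1 : algebraMap A (FractionRing A) d = 0 :=
      (algebraMap (FractionRing A) L).injective (by rw [h, map_zero])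
    exact nonZeroDivisors.ne_zero hd (IsFractionRing.injective A (FractionRing A)
      (by rw [h1, map_zero]))
  refine ⟨d, c, hd0, ?_⟩
  conv_lhs => rw [← b.sum_repr y]
  rw [Finset.mul_sum]
  refine Finset.sum_congr rfl fun i _ => ?_
  rw [hc i, Algebra.smul_def, Algebra.smul_def, map_mul, mul_assoc]

end Pool.Agent.AIC
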