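import Mathlib
import Pool.Agent.AIC.CenStep95

/-!
# Theorem G

NIP domains with finite branching and residue fields of henselian type at the nonmaximal primes
are henselian local rings. There is no condition on the chains of primes.
-/

set_option autoImplicit false
set_option linter.style.haveILetI false

namespace Pool.Agent.AIC

open Polynomial IsLocalRing FirstOrder FirstOrder.Ring

/-- two incomparable primes of an NIP finite extension contain a nonzero central prime. -/
def Step95 (R : Type) [CommRing R] [IsDomain R] : Prop :=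
  ∀ (T : Type) [CommRing T] [IsDomain T] [CompatibleRing T] [Algebra R T] [Module.Finite R T],
    Function.Injective (algebraMap R T) → NIPRing T → ∀ P Q : Ideal T, P.IsPrime → Q.IsPrime →
    ¬ P ≤ Q → ¬ Q ≤ P → ∃ p : Ideal R, p.IsPrime ∧ p ≠ ⊥ ∧ Central95 R p ∧
      p ≤ P.comap (algebraMap R T) ∧ p ≤ Q.comap (algebraMap R T)

/-- the henselian localization at the isolated centre. -/
theorem exists_hens_center95 {R K : Type} [CommRing R] [IsDomain R] [Field K] [Algebra R K]
    [IsFractionRing R K] [CompatibleRing R] (hN : NIPRing R)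
    (O : ValuationSubring K) (hOh : HenselianLocalRing O)
    (hR : ∀ x : R, algebraMap R K x ∈ O)
    (hfin : {N : Ideal (integralClosure R K) | Over (center38 O hR) N}.Finite) :
    ∃ (T : Subalgebra R K) (_ : CompatibleRing T), Module.Finite R T ∧ NIPRing T ∧
      ∃ (p : Ideal T) (_ : p.IsPrime), HenselianLocalRing (Localization.AtPrime p) ∧
        p.comap (algebraMap R T) = center38 O hR := by
  obtain ⟨T, hTfin, -, hiso⟩ := exists_isolating_set (R := R) (F := K)
    {N : Ideal (integralClosure R K) | Over (center38 O hR) N} hfin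
    ∅ Set.finite_empty (fun x hx => absurd hx (Set.notMem_empty x))
  letI cT : CompatibleRing T := compatibleRingOfRing _
  have hNT : NIPRing T := nip_subalgebra T hN
  haveI hTint : Algebra.IsIntegral R T := inferInstance
  have hT : ∀ x : T, algebraMap T K x ∈ O := by
    intro x
    refine integral_mem82 O hR ?_
    have h1 : IsIntegral R x := Algebra.IsIntegral.isIntegral x
    exact h1.map (IsScalarTower.toAlgHom R T K)
  haveI : IsFractionRing T K := by
    haveI : FaithfulSMul T K :=
      (faithfulSMul_iff_algebraMap_injective _ _).mpr Subtype.val_injective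
    refine IsFractionRing.of_field _ _ fun z => ?_
    obtain ⟨a, b, hb, rfl⟩ := IsFractionRing.div_surjective (A := R) z
    exact ⟨algebraMap R T a, algebraMap R T b, rfl⟩
  have hp1 : ∀ r : R, algebraMap R T r ∈ center38 O hT ↔ r ∈ center38 O hR := by
    intro r
    rw [mem_center38, mem_center38]
    exact Iff.rfl
  have hu : ∀ N N' : Ideal (integralClosure T K), Over (center38 O hT) N →
      Over (center38 O hT) N' → N = N' := fun N N' h1 h2 =>
    hiso _ N N' h1 h2 (over_comap _ _ hp1 N h1) (over_comap _ _ hp1 N' h2)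
  haveI : FaithfulSMul T K :=
    (faithfulSMul_iff_algebraMap_injective _ _).mpr Subtype.val_injective
  have hH : HenselianLocalRing (Localization.AtPrime (center38 O hT)) := by
    obtain ⟨alg, htow, hinjA⟩ := exists_algebra_loc (T := T) (F := K) (center38 O hT)
    haveI : FaithfulSMul (Localization.AtPrime (center38 O hT)) K :=
      (faithfulSMul_iff_algebraMap_injective _ _).mpr hinjA
    haveI : IsDomain (Localization.AtPrime (center38 O hT)) :=
      IsLocalization.isDomain_localization (center38 O hT).primeCompl_le_nonZeroDivisors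
    exact henselian_center38 O hOh hT (Localization.AtPrime (center38 O hT)) (center38 O hT) rfl
      (local_of_unique (center38 O hT) (Localization.AtPrime (center38 O hT)) hu)
  refine ⟨T, cT, hTfin, hNT, center38 O hT, inferInstance, hH, ?_⟩
  ext r
  exact hp1 r

/-- the step for fraction fields of henselian type. -/
theorem step_hType95 {R : Type} [CommRing R] [IsDomain R] (hFB : FB95 R)
    (hH : HType (FractionRing R)) : Step95 R := by
  classical
  intro T _ _ _ _ _ hinj hNT P Q hP hQ hPQ hQP
  haveI : Algebra.IsIntegral R T := Algebra.IsIntegral.of_finite R T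
  obtain ⟨algT, towT, hfdT⟩ := finiteDim_fraction82 hinj
  obtain ⟨K₁, _, _, _, O, hO, hOh⟩ := hH.finite_ext94 (FractionRing T)
  letI algTK : Algebra T K₁ :=
    ((algebraMap (FractionRing T) K₁).comp (algebraMap T (FractionRing T))).toAlgebra
  haveI : IsScalarTower T (FractionRing T) K₁ := IsScalarTower.of_algebraMap_eq fun a => rfl
  obtain ⟨T₀, hfin₀, hfr₀⟩ := exists_order82 (R := T) (K := FractionRing T) (F := K₁)
  letI : CompatibleRing T₀ := compatibleRingOfRing _
  have hN₀ : NIPRing T₀ := nip_subalgebra_plus34 (K := FractionRing T) T₀ hNT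
  have hinjTK : Function.Injective (algebraMap T K₁) :=
    (algebraMap (FractionRing T) K₁).injective.comp (IsFractionRing.injective T (FractionRing T))
  have hinj₀ : Function.Injective (algebraMap T T₀) := by
    intro x y hxy
    exact hinjTK (congrArg Subtype.val hxy)
  letI algRT : Algebra R T₀ := ((algebraMap T T₀).comp (algebraMap R T)).toAlgebra
  haveI : IsScalarTower R T T₀ := IsScalarTower.of_algebraMap_eq fun a => rfl
  haveI : Module.Finite R T₀ := Module.Finite.trans T T₀
  have hinjR₀ : Function.Injective (algebraMap R T₀) := hinj₀.comp hinj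
  obtain ⟨P₀, hP₀p, hP₀⟩ := exists_prime_over (R := T) (T := T₀) hinj₀ P
  obtain ⟨Q₀, hQ₀p, hQ₀⟩ := exists_prime_over (R := T) (T := T₀) hinj₀ Q
  have ht : ∀ J : Ideal T₀, J.comap (algebraMap R T₀)
      = (J.comap (algebraMap T T₀)).comap (algebraMap R T) := fun J => rfl
  have hcP := comap_eq_of_over82 P P₀ hP₀
  have hcQ := comap_eq_of_over82 Q Q₀ hQ₀
  have hPQ₀ : ¬ P₀ ≤ Q₀ := fun h => hPQ (by rw [← hcP, ← hcQ]; exact Ideal.comap_mono h)
  have hQP₀ : ¬ Q₀ ≤ P₀ := fun h => hQP (by rw [← hcP, ← hcQ]; exact Ideal.comap_mono h)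
  have hfin : ∀ p : Ideal T₀, p.IsPrime →
      {N : Ideal (integralClosure T₀ K₁) | Over p N}.Finite := fun p hp =>
    hFB.ext hinjR₀ K₁ p
  by_cases hb : ∃ a : K₁, a ≠ 0 ∧ ∀ x ∈ LocSet P₀ Q₀ K₁, a * x ∈ O
  · obtain ⟨a, ha, haL⟩ := hb
    obtain ⟨O', hO', hO'h, -, hLO⟩ := exists_coarse38 O hO hOh (locRing82 (K := K₁) P₀ Q₀) a ha haL
    have h1P : (1 : T₀) ∉ P₀ := fun h => hP₀p.ne_top ((Ideal.eq_top_iff_one _).2 h)
    have h1Q : (1 : T₀) ∉ Q₀ := fun h => hQ₀p.ne_top ((Ideal.eq_top_iff_one _).2 h)
    have hR : ∀ x : T₀, algebraMap T₀ K₁ x ∈ O' := fun x =>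
      hLO _ ⟨x, 1, h1P, h1Q, by rw [map_one, mul_one]⟩
    have hle : center38 O' hR ≤ P₀ ∨ center38 O' hR ≤ Q₀ := by
      refine center_le_or38 O' hR P₀ Q₀ fun x hxP hxQ => ?_
      have hx0 : algebraMap T₀ K₁ x ≠ 0 := by
        intro h
        have h1 : x = 0 := IsFractionRing.injective T₀ K₁ (by rw [h, map_zero])
        rw [h1] at hxP
        exact hxP P₀.zero_mem
      refine hLO _ ⟨1, x, hxP, hxQ, ?_⟩
      rw [map_one, inv_mul_cancel₀ hx0]
    obtain ⟨T₁, _, hfin₁, hN₁, p₁, hp₁p, hp₁h, hp₁c⟩ :=
      exists_hens_center95 hN₀ O' hO'h hR (hfin _ inferInstance)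
    letI algR₁ : Algebra R T₁ := ((algebraMap T₀ T₁).comp (algebraMap R T₀)).toAlgebra
    haveI : IsScalarTower R T₀ T₁ := IsScalarTower.of_algebraMap_eq fun a => rfl
    haveI : Module.Finite R T₁ := Module.Finite.trans T₀ T₁
    have hinj₁ : Function.Injective (algebraMap R T₁) := by
      intro x y hxy
      apply hinjR₀
      apply IsFractionRing.injective T₀ K₁
      have h1 : algebraMap T₀ T₁ (algebraMap R T₀ x) = algebraMap T₀ T₁ (algebraMap R T₀ y) := hxy
      exact congrArg (fun t : T₁ => (t : K₁)) h1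
    have hcen := central_of_hens95 hinj₁ hN₁ hFB p₁ hp₁h
    have hpc : p₁.comap (algebraMap R T₁) = (center38 O' hR).comap (algebraMap R T₀) := by
      rw [← hp₁c]
      rfl
    rw [hpc] at hcen
    -- the centre lies in both primes
    have hboth : center38 O' hR ≤ P₀ ∧ center38 O' hR ≤ Q₀ := by
      rcases hle with h | h
      · refine ⟨h, ?_⟩
        rcases hcen T₀ hinjR₀ (center38 O' hR) Q₀ inferInstance hQ₀p rfl with h1 | h1
        · exact h1
        · exact absurd (h1.trans h) hQP₀
      · refine ⟨?_, h⟩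
        rcases hcen T₀ hinjR₀ (center38 O' hR) P₀ inferInstance hP₀p rfl with h1 | h1
        · exact h1
        · exact absurd (h1.trans h) hPQ₀
    haveI : Algebra.IsIntegral R T₀ := Algebra.IsIntegral.of_finite R T₀
    refine ⟨(center38 O' hR).comap (algebraMap R T₀), Ideal.comap_isPrime _ _, ?_, hcen, ?_, ?_⟩
    · intro h0
      have h1 := Ideal.IsIntegral.comap_lt_comap (R := R)
        (bot_lt_iff_ne_bot.2 (center_ne_bot38 O' hO' hR))
      rw [h0] at h1
      exact not_lt_bot h1
    · rw [← hcP, ← ht]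
      exact Ideal.comap_mono hboth.1
    · rw [← hcQ, ← ht]
      exact Ideal.comap_mono hboth.2
  · exfalso
    have hD := unboundedDense46 P₀ Q₀ hPQ₀ hQP₀ O hO hOh hb
    rcases theoremT hN₀ P₀ Q₀ (hfin P₀ hP₀p) (hfin Q₀ hQ₀p) hD with h3 | h3
    · exact hPQ₀ h3
    · exact hQP₀ h3

/-- finite branching passes to the quotient by a central prime. -/
theorem FB95.quotient {R : Type} [CommRing R] [IsDomain R] (h : FB95 R) (q : Ideal R)
    [q.IsPrime] (hq : Central95 R q) : FB95 (R ⧸ q) := by
  intro P' hP'
  exact fb_quotient95 (K := FractionRing R) q (central_henselian95 q hq) P'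
    (h _ (Ideal.comap_isPrime _ P'))

/-- **the induction of Theorem G**: comparability in all NIP finite extensions. -/
theorem comparable_G95 {R : Type} [CommRing R] [IsDomain R] (hFB : FB95 R)
    (hstep : ∀ (q : Ideal R) [q.IsPrime], ¬ q.IsMaximal → Central95 R q → FB95 (R ⧸ q) →
      Step95 (R ⧸ q))
    (T : Type) [CommRing T] [IsDomain T] [CompatibleRing T] [Algebra R T] [Module.Finite R T]
    (hinj : Function.Injective (algebraMap R T)) (hNT : NIPRing T) (P Q : Ideal T)
    (hP : P.IsPrime) (hQ : Q.IsPrime) : P ≤ Q ∨ Q ≤ P := by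
  classical
  by_contra hcon
  push Not at hcon
  obtain ⟨hPQ, hQP⟩ := hcon
  haveI : Algebra.IsIntegral R T := Algebra.IsIntegral.of_finite R T
  set C : Set (Ideal R) := {q | q.IsPrime ∧ Central95 R q ∧ q ≤ P.comap (algebraMap R T) ∧
    q ≤ Q.comap (algebraMap R T)} with hC
  have hCne : C.Nonempty := ⟨⊥, Ideal.isPrime_bot, central_bot95, bot_le, bot_le⟩
  obtain ⟨hqp, hqc⟩ := central_sSup95 C hCne (fun q h => h.1) (fun q h => h.2.1)
  set q := sSup C with hq
  have hqP : q ≤ P.comap (algebraMap R T) := sSup_le fun q' h => h.2.2.1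
  have hqQ : q ≤ Q.comap (algebraMap R T) := sSup_le fun q' h => h.2.2.2
  -- the prime over `q`
  obtain ⟨N, hNp, hN⟩ := exists_prime_over (R := R) (T := T) hinj q
  have hNc := comap_eq_of_over82 _ _ hN
  have hNP : N ≤ P := by
    rcases hqc T hinj N P hNp hP hNc with h1 | h1
    · exact h1
    · exact (eq_of_comap_le95 (R := R) h1 (by rw [hNc]; exact hqP)).symm.le
  have hNQ : N ≤ Q := by
    rcases hqc T hinj N Q hNp hQ hNc with h1 | h1
    · exact h1
    · exact (eq_of_comap_le95 (R := R) h1 (by rw [hNc]; exact hqQ)).symm.le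
  have hqm : ¬ q.IsMaximal := by
    intro hmax
    have h1 : q = P.comap (algebraMap R T) :=
      hmax.eq_of_le (Ideal.comap_isPrime (algebraMap R T) P).ne_top hqP
    rcases hqc T hinj P Q hP hQ h1.symm with h | h
    · exact hPQ h
    · exact hQP h
  letI := Ideal.Quotient.algebraQuotientOfLEComap hNc.symm.le
  haveI := finite_quotient95 q N hNc.symm.le
  letI : CompatibleRing (T ⧸ N) := compatibleRingOfRing _
  have hNN : NIPRing (T ⧸ N) := nip_quotient hNT N
  obtain ⟨p, hpp, hp0, hpc, hpP, hpQ⟩ := hstep q hqm hqc (hFB.quotient q hqc) (T ⧸ N)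
    (injective_quotient95 q N hNc) hNN (P.map (Ideal.Quotient.mk N)) (Q.map (Ideal.Quotient.mk N))
    (map_prime95 N P hNP hP) (map_prime95 N Q hNQ hQ)
    (fun h => hPQ (le_of_map_le95 N P Q hNP hNQ h))
    (fun h => hQP (le_of_map_le95 N Q P hNQ hNP h))
  have hcc : ∀ J : Ideal T, N ≤ J →
      ((J.map (Ideal.Quotient.mk N)).comap (algebraMap (R ⧸ q) (T ⧸ N))).comap
        (Ideal.Quotient.mk q) = J.comap (algebraMap R T) := by
    intro J hNJ
    have hc : (J.map (Ideal.Quotient.mk N)).comap (Ideal.Quotient.mk N) = J :=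
      Ideal.comap_map_mk hNJ
    conv_rhs => rw [← hc]
    ext a
    rfl
  have hmem : p.comap (Ideal.Quotient.mk q) ∈ C := by
    refine ⟨Ideal.comap_isPrime _ p, central_of_quotient95 q hqc p hpc, ?_, ?_⟩
    · rw [← hcc P hNP]
      exact Ideal.comap_mono hpP
    · rw [← hcc Q hNQ]
      exact Ideal.comap_mono hpQ
  have hle : p.comap (Ideal.Quotient.mk q) ≤ q := le_sSup hmem
  apply hp0
  rw [eq_bot_iff]
  intro x hx
  obtain ⟨a, rfl⟩ := Ideal.Quotient.mk_surjective x
  rw [Ideal.mem_bot, Ideal.Quotient.eq_zero_iff_mem]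
  exact hle hx

/-- the end of Theorem G. -/
theorem henselian_G95 {R : Type} [CommRing R] [IsDomain R] [CompatibleRing R] (hN : NIPRing R)
    (hcomp : ∀ (T : Type) [CommRing T] [IsDomain T] [CompatibleRing T] [Algebra R T]
      [Module.Finite R T], Function.Injective (algebraMap R T) → NIPRing T → ∀ P Q : Ideal T,
      P.IsPrime → Q.IsPrime → P ≤ Q ∨ Q ≤ P) : HenselianLocalRing R := by
  refine henselian_of_all32 (fun P Q hP hQ => hcomp R (fun _ _ h => h) hN P Q hP hQ) ?_
  intro P hP
  have hinjW : Function.Injective (algebraMap R (AlgebraicClosure (FractionRing R))) := by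
    rw [IsScalarTower.algebraMap_eq R (FractionRing R) (AlgebraicClosure (FractionRing R))]
    exact (algebraMap (FractionRing R) _).injective.comp (IsFractionRing.injective R _)
  haveI : FaithfulSMul R (AlgebraicClosure (FractionRing R)) :=
    (faithfulSMul_iff_algebraMap_injective _ _).mpr hinjW
  refine hens_of_pairs82 (W := AlgebraicClosure (FractionRing R)) P ?_
  intro T' hfin M₁ M₂ h₁ h₂ ho₁ ho₂
  letI : CompatibleRing T' := compatibleRingOfRing _
  have hNT : NIPRing T' := nip_subalgebra_plus34 (K := FractionRing R) T' hN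
  have hinj : Function.Injective (algebraMap R T') := by
    intro x y hxy
    exact hinjW (congrArg Subtype.val hxy)
  exact hcomp T' hinj hNT M₁ M₂ h₁ h₂

/-- **Theorem G**: an NIP domain, such that only finitely many primes of the integral closure lie
over any prime and the residue fields at nonmaximal primes are of henselian type, is a henselian
local ring. -/
theorem theoremG95 {R : Type} [CommRing R] [IsDomain R] [CompatibleRing R] (hN : NIPRing R)
    (hFB : FB95 R)
    (hH : ∀ (q : Ideal R) [q.IsPrime], ¬ q.IsMaximal → HType (FractionRing (R ⧸ q))) :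
    HenselianLocalRing R :=
  henselian_G95 hN (comparable_G95 hFB fun q _ hq _ hF => step_hType95 hF (hH q hq))

/-- **Theorem G** for integrally closed domains of arbitrary Krull dimension. -/
theorem theoremG_normal95 {R : Type} [CommRing R] [IsDomain R] [CompatibleRing R]
    [IsIntegrallyClosed R] (hN : NIPRing R)
    (hH : ∀ (q : Ideal R) [q.IsPrime], ¬ q.IsMaximal → HType (FractionRing (R ⧸ q))) :
    HenselianLocalRing R :=
  theoremG95 hN (fun P _ => over_finite_normal82 P) hH

end Pool.Agent.AIC
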