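import Mathlib
import Pool.Agent.AIC.TheoremG95
import Pool.Agent.AIC.HtF94

/-!
# Theorem FG

An NIP domain with residue fields of henselian type at the nonmaximal primes, which is not a
henselian local ring, has an infinite strictly ascending chain of primes `q i` starting with `0`
such that all `R ⧸ q i` are infinitely branched.
-/

set_option autoImplicit false
set_option linter.style.haveILetI false

namespace Pool.Agent.AIC

open Polynomial IsLocalRing FirstOrder FirstOrder.Ring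

/-- the set of all primes. -/
def AllP95 (R : Type) [CommRing R] : Set (Ideal R) := {P | P.IsPrime}

theorem allP_low95 {R : Type} [CommRing R] :
    ∀ P ∈ AllP95 R, ∀ q : Ideal R, q.IsPrime → q ≤ P → q ∈ AllP95 R := fun _ _ _ hq _ => hq

/-- if all larger primes are good, the quotient is finitely branched. -/
theorem fb_of_above95 {R : Type} [CommRing R] [CompatibleRing R] (hN : NIPRing R)
    (q : Ideal R) [q.IsPrime]
    (ih : ∀ q' ∈ AllP95 R, q < q' → SA R (AllP95 R) q') : FB95 (R ⧸ q) := by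
  intro P hP
  letI : CompatibleRing (R ⧸ q) := compatibleRingOfRing _
  have hNq : NIPRing (R ⧸ q) := nip_quotient hN q
  exact sa_fin82 (K := FractionRing (R ⧸ q)) allP_low95 ih hNq
    (fun a => Ideal.Quotient.eq_zero_iff_mem) P (Ideal.comap_isPrime _ P)

/-- the residue fields of a quotient, for a property of fields which is invariant under
isomorphisms in the form of `hType_iff_gen94`. -/
theorem genField_quotient95 {R : Type} [CommRing R] (q : Ideal R) (q' : Ideal (R ⧸ q))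
    [q'.IsPrime] :
    GenField ((algebraMap ((R ⧸ q) ⧸ q') (FractionRing ((R ⧸ q) ⧸ q'))).comp
      ((Ideal.Quotient.mk q').comp (Ideal.Quotient.mk q))) ∧
    RingHom.ker ((algebraMap ((R ⧸ q) ⧸ q') (FractionRing ((R ⧸ q) ⧸ q'))).comp
      ((Ideal.Quotient.mk q').comp (Ideal.Quotient.mk q))) = q'.comap (Ideal.Quotient.mk q) := by
  refine ⟨fun x => ?_, ?_⟩
  · obtain ⟨a, b, hb, rfl⟩ := IsFractionRing.div_surjective (A := (R ⧸ q) ⧸ q') x
    obtain ⟨a, rfl⟩ := Ideal.Quotient.mk_surjective a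
    obtain ⟨a, rfl⟩ := Ideal.Quotient.mk_surjective a
    obtain ⟨b, rfl⟩ := Ideal.Quotient.mk_surjective b
    obtain ⟨b, rfl⟩ := Ideal.Quotient.mk_surjective b
    have hb0 : algebraMap ((R ⧸ q) ⧸ q') (FractionRing ((R ⧸ q) ⧸ q'))
        (Ideal.Quotient.mk q' (Ideal.Quotient.mk q b)) ≠ 0 := by
      rw [Ne, map_eq_zero_iff _ (IsFractionRing.injective _ _)]
      exact nonZeroDivisors.ne_zero hb
    exact ⟨a, b, hb0, div_mul_cancel₀ _ hb0⟩
  · ext a
    rw [RingHom.mem_ker, RingHom.comp_apply, map_eq_zero_iff _ (IsFractionRing.injective _ _),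
      RingHom.comp_apply, Ideal.Quotient.eq_zero_iff_mem, Ideal.mem_comap]

theorem isMaximal_of_comap95 {R : Type} [CommRing R] (q : Ideal R) (q' : Ideal (R ⧸ q))
    (h : (q'.comap (Ideal.Quotient.mk q)).IsMaximal) : q'.IsMaximal := by
  refine ⟨⟨fun htop => h.ne_top (by rw [htop]; rfl), fun J hJ => ?_⟩⟩
  by_contra hne
  have h1 : q'.comap (Ideal.Quotient.mk q) < J.comap (Ideal.Quotient.mk q) :=
    comap_lt_surj82 _ Ideal.Quotient.mk_surjective hJ
  have h2 : J.comap (Ideal.Quotient.mk q) ≠ ⊤ := fun h3 => hne (by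
    rw [Ideal.comap_eq_top_iff] at h3
    exact h3)
  exact h1.ne (h.eq_of_le h2 h1.le)

/-- good quotients: from Theorem G for `R ⧸ q`. -/
theorem sa_of_fb95 {R : Type} [CommRing R] (q : Ideal R) [q.IsPrime] (hFB : FB95 (R ⧸ q))
    (hstep : ∀ (q' : Ideal (R ⧸ q)) [q'.IsPrime], ¬ (q'.comap (Ideal.Quotient.mk q)).IsMaximal →
      FB95 ((R ⧸ q) ⧸ q') → Step95 ((R ⧸ q) ⧸ q')) : SA R (AllP95 R) q := by
  intro T _ _ _ _ _ hN hker P Q hP hQ _ _
  letI alg : Algebra (R ⧸ q) T := (Ideal.Quotient.lift q (algebraMap R T) fun a ha =>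
    (hker a).2 ha).toAlgebra
  haveI : IsScalarTower R (R ⧸ q) T := IsScalarTower.of_algebraMap_eq fun a => rfl
  haveI : Module.Finite (R ⧸ q) T := Module.Finite.of_restrictScalars_finite R (R ⧸ q) T
  have hinj : Function.Injective (algebraMap (R ⧸ q) T) := by
    rw [injective_iff_map_eq_zero]
    intro x hx
    obtain ⟨a, rfl⟩ := Ideal.Quotient.mk_surjective x
    exact Ideal.Quotient.eq_zero_iff_mem.2 ((hker a).1 hx)
  exact comparable_G95 hFB (fun q' _ hq' _ hF => hstep q' (fun h =>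
    hq' (isMaximal_of_comap95 q q' h)) hF) T hinj hN P Q hP hQ

/-- **the chain**: abstract form. -/
theorem exists_chain95 {R : Type} [CommRing R] [IsDomain R] [CompatibleRing R] (hN : NIPRing R)
    (hstep : ∀ (q : Ideal R) [q.IsPrime] (q' : Ideal (R ⧸ q)) [q'.IsPrime],
      ¬ (q'.comap (Ideal.Quotient.mk q)).IsMaximal → FB95 ((R ⧸ q) ⧸ q') →
      Step95 ((R ⧸ q) ⧸ q'))
    (hbad : ¬ SA R (AllP95 R) ⊥) :
    ∃ q : ℕ → Ideal R, q 0 = ⊥ ∧ (∀ i, q i < q (i + 1)) ∧
      ∀ i, ∃ _ : (q i).IsPrime, ¬ FB95 (R ⧸ q i) := by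
  classical
  have hnext : ∀ q : {q : Ideal R // q.IsPrime ∧ ¬ SA R (AllP95 R) q},
      ∃ q' : {q : Ideal R // q.IsPrime ∧ ¬ SA R (AllP95 R) q}, q.1 < q'.1 := by
    rintro ⟨q, hq, hq'⟩
    by_contra hcon
    push Not at hcon
    haveI := hq
    refine hq' (sa_of_fb95 q (fb_of_above95 hN q fun q' h1 h2 => ?_) (hstep q))
    by_contra h3
    exact hcon ⟨q', h1, h3⟩ h2
  choose next hn using hnext
  let f : ℕ → {q : Ideal R // q.IsPrime ∧ ¬ SA R (AllP95 R) q} := fun n =>
    Nat.rec ⟨⊥, Ideal.isPrime_bot, hbad⟩ (fun _ q => next q) n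
  have hbq : ∀ (q : Ideal R) [q.IsPrime], ¬ SA R (AllP95 R) q → ¬ FB95 (R ⧸ q) :=
    fun q _ hq' hFB => hq' (sa_of_fb95 q hFB (hstep q))
  have hbf : ∀ q : {q : Ideal R // q.IsPrime ∧ ¬ SA R (AllP95 R) q},
      ∃ _ : (q.1).IsPrime, ¬ FB95 (R ⧸ q.1) := fun q =>
    ⟨q.2.1, @hbq q.1 q.2.1 q.2.2⟩
  exact ⟨fun n => (f n).1, rfl, fun i => hn (f i), fun i => hbf (f i)⟩

/-- the step for residue fields of henselian type. -/
theorem step_residue95 {R : Type} [CommRing R]
    (hH : ∀ (q : Ideal R) [q.IsPrime], ¬ q.IsMaximal → HType (FractionRing (R ⧸ q)))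
    (q : Ideal R) [q.IsPrime] (q' : Ideal (R ⧸ q)) [q'.IsPrime]
    (hq : ¬ (q'.comap (Ideal.Quotient.mk q)).IsMaximal) (hF : FB95 ((R ⧸ q) ⧸ q')) :
    Step95 ((R ⧸ q) ⧸ q') := by
  refine step_hType95 hF ?_
  haveI : (q'.comap (Ideal.Quotient.mk q)).IsPrime := Ideal.comap_isPrime _ q'
  obtain ⟨h1, h2⟩ := genField_quotient95 q q'
  exact (hType_iff_gen94 _ h1 (q'.comap (Ideal.Quotient.mk q)) h2).2 (hH _ hq)

/-- **Theorem FG**: if there is no infinite strictly ascending chain of primes, starting with `0`,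
all of whose quotients are infinitely branched, and the residue fields at the nonmaximal primes
are of henselian type, then any two primes are comparable, all localizations at primes are
henselian, and `R` is a henselian local ring. -/
theorem theoremFG95 {R : Type} [CommRing R] [IsDomain R] [CompatibleRing R] (hN : NIPRing R)
    (hH : ∀ (q : Ideal R) [q.IsPrime], ¬ q.IsMaximal → HType (FractionRing (R ⧸ q)))
    (hno : ¬ ∃ q : ℕ → Ideal R, q 0 = ⊥ ∧ (∀ i, q i < q (i + 1)) ∧
      ∀ i, ∃ _ : (q i).IsPrime, ¬ FB95 (R ⧸ q i)) :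
    HenselianLocalRing R := by
  have hS : SA R (AllP95 R) ⊥ := by
    by_contra hbad
    exact hno (exists_chain95 hN (fun q _ q' _ hq hF => step_residue95 hH q q' hq hF) hbad)
  refine henselian_G95 hN fun T _ _ _ _ _ hinj hNT P Q hP hQ => ?_
  exact hS T hNT (fun a => by rw [Ideal.mem_bot, map_eq_zero_iff _ hinj]) P Q hP hQ
    (Ideal.comap_isPrime _ P) (Ideal.comap_isPrime _ Q)

end Pool.Agent.AIC
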