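import Mathlib
import Pool.Agent.AIC.TheoremF82
import Pool.Agent.AIC.UnbDense46
import Pool.Agent.AIC.DefsQ82
import Pool.Agent.AIC.EndF32

/-!
# Stage 11: the induction for residue fields of henselian type or of power type

`QType k` : see DefsQ82. (Power type `PType` implies it, `PType.qType82`.)
The only hypothesis is the pair form `PairQb b` of Theorem M.
-/

set_option autoImplicit false
set_option linter.style.haveILetI false

namespace Pool.Agent.AIC

open Finset Polynomial IsLocalRing FirstOrder FirstOrder.Ring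

open scoped TensorProduct

/-- henselian type, or power type when the proposition `X` holds. -/
def MType (X : Prop) (k : Type) [Field k] : Prop := HType k ∨ (QType k ∧ X)

theorem MType.ext82 {X : Prop} {k : Type} [Field k] (h : MType X k) (k' : Type) [Field k']
    [Algebra k k'] [FiniteDimensional k k'] : MType X k' :=
  h.imp (fun h => h.finite_ext94 k') (fun h => ⟨h.1.ext82 k', h.2⟩)

theorem MType.of_ringEquiv82 {X : Prop} {k k' : Type} [Field k] [Field k'] (e : k ≃+* k')
    (h : MType X k) : MType X k' := by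
  letI alg : Algebra k k' := e.toRingHom.toAlgebra
  haveI : FiniteDimensional k k' := by
    refine Module.Finite.of_surjective (LinearMap.toSpanSingleton k k' 1) fun y => ⟨e.symm y, ?_⟩
    rw [LinearMap.toSpanSingleton_apply, Algebra.smul_def, mul_one]
    exact e.apply_symm_apply y
  exact h.ext82 k'

/-- all residue fields of primes strictly below `P` are of henselian type, or of power type and
then the residue ring at `P` is infinite (void when `b` holds). -/
def MBelow {R : Type} [CommRing R] (b : Prop) (P : Ideal R) : Prop :=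
  ∀ (k : Type) [Field k] (f : R →+* k), GenField f → RingHom.ker f < P →
    MType (b ∨ Infinite (R ⧸ P)) k

theorem HBelow.mBelow {R : Type} [CommRing R] {b : Prop} {P : Ideal R} (h : HBelow P) :
    MBelow b P :=
  fun k _ f hf hlt => Or.inl (h k f hf hlt)

/-- the condition goes up in finite extensions. -/
theorem MBelow.ext82 {R T : Type} [CommRing R] [CommRing T] [Algebra R T] [Module.Finite R T]
    {b : Prop} (P' : Ideal T) [P'.IsPrime] (h : MBelow b (P'.comap (algebraMap R T))) :
    MBelow b P' := by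
  classical
  intro k _ f hf hlt
  haveI hkp : (RingHom.ker f).IsPrime := RingHom.ker_isPrime f
  haveI : Algebra.IsIntegral R T := Algebra.IsIntegral.of_finite R T
  have hlt' := Ideal.IsIntegral.comap_lt_comap (R := R) hlt
  -- the subfield generated by the image of `R`
  set g : R →+* k := f.comp (algebraMap R T) with hg
  let k₀ : Subfield k := Subfield.closure (Set.range g)
  have hgk : ∀ a : R, g a ∈ k₀ := fun a => Subfield.subset_closure ⟨a, rfl⟩
  let g₀ : R →+* k₀ := g.codRestrict k₀ hgk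
  have hg₀ : ∀ a, ((g₀ a : k₀) : k) = g a := fun a => rfl
  have hker : RingHom.ker g₀ = (RingHom.ker f).comap (algebraMap R T) := by
    ext a
    rw [RingHom.mem_ker, Ideal.mem_comap, RingHom.mem_ker, ← Subtype.coe_inj, hg₀]
    rfl
  have hgen : GenField g₀ := by
    intro x
    obtain ⟨y, hy, z, hz, hyz⟩ := Subfield.mem_closure_iff.1 x.2
    have hrange : ∀ w ∈ Subring.closure (Set.range g), ∃ a, g a = w := by
      intro w hw
      have h1 : Subring.closure (Set.range g) ≤ g.range := by
        rw [Subring.closure_le]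
        rintro _ ⟨a, rfl⟩
        exact ⟨a, rfl⟩
      exact h1 hw
    obtain ⟨a, ha⟩ := hrange y hy
    obtain ⟨b, hb⟩ := hrange z hz
    by_cases hz0 : z = 0
    · refine ⟨0, 1, ?_, ?_⟩
      · rw [map_one]; exact one_ne_zero
      · apply Subtype.ext
        rw [map_one, mul_one, map_zero]
        rw [hz0, div_zero] at hyz
        exact hyz.symm
    · refine ⟨a, b, ?_, ?_⟩
      · intro h0
        apply hz0
        rw [← hb, ← hg₀, h0]
        rfl
      · apply Subtype.ext
        change (x : k) * g b = g a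
        rw [← hyz, ha, hb, div_mul_cancel₀ _ hz0]
  have hM₀ : MType (b ∨ Infinite (R ⧸ P'.comap (algebraMap R T))) k₀ :=
    h k₀ g₀ hgen (by rw [hker]; exact hlt')
  -- `k` is finite over `k₀`
  obtain ⟨s, hs⟩ := (inferInstance : Module.Finite R T).fg_top
  have hint : ∀ t : T, IsIntegral k₀ (f t) := by
    intro t
    obtain ⟨p, hp, hp0⟩ := Algebra.IsIntegral.isIntegral (R := R) t
    refine ⟨p.map g₀, hp.map _, ?_⟩
    rw [eval₂_map]
    have h1 := congrArg f hp0
    rw [map_zero, hom_eval₂] at h1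
    exact h1
  let S : Set k := f '' (s : Set T)
  haveI hSfin : Finite S := (s.finite_toSet.image f).to_subtype
  haveI hfd : FiniteDimensional k₀ (IntermediateField.adjoin k₀ S) :=
    IntermediateField.finiteDimensional_adjoin fun x hx => by
      obtain ⟨t, _, rfl⟩ := hx
      exact hint t
  have htop : IntermediateField.adjoin k₀ S = ⊤ := by
    rw [eq_top_iff]
    intro x _
    have hT : ∀ t : T, f t ∈ IntermediateField.adjoin k₀ S := by
      intro t
      have ht : t ∈ Submodule.span R (s : Set T) := by rw [hs]; exact Submodule.mem_top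
      induction ht using Submodule.span_induction with
      | mem t ht => exact IntermediateField.subset_adjoin _ _ ⟨t, ht, rfl⟩
      | zero => rw [map_zero]; exact zero_mem _
      | add a b _ _ ha hb => rw [map_add]; exact add_mem ha hb
      | smul r a _ ha =>
        rw [Algebra.smul_def, map_mul]
        refine mul_mem ?_ ha
        exact IntermediateField.algebraMap_mem (IntermediateField.adjoin k₀ S) (g₀ r)
    obtain ⟨a, b, hb, hx⟩ := hf x
    have h1 : x = f a / f b := by rw [eq_div_iff hb, hx]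
    rw [h1]
    exact div_mem (hT a) (hT b)
  haveI : FiniteDimensional k₀ k := by
    rw [htop] at hfd
    exact Module.Finite.equiv (IntermediateField.topEquiv (F := k₀) (E := k)).toLinearEquiv
  refine (hM₀.ext82 k).imp id fun h1 => ⟨h1.1, h1.2.imp id fun h2 => ?_⟩
  haveI := h2
  exact Infinite.of_injective _ (Ideal.algebraMap_quotient_injective (R := R) (I := P'))

theorem MBelow.fractionRing {R K : Type} [CommRing R] [IsDomain R] [Field K] [Algebra R K]
    [IsFractionRing R K] {b : Prop} {P : Ideal R} (hP : MBelow b P) (hP0 : P ≠ ⊥) :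
    MType (b ∨ Infinite (R ⧸ P)) K := by
  refine hP K (algebraMap R K) (fun x => ?_) ?_
  · obtain ⟨a, b, hb, rfl⟩ := IsFractionRing.div_surjective (A := R) x
    have hb0 : algebraMap R K b ≠ 0 := by
      intro h
      have h1 : b = 0 := IsFractionRing.injective R K (by rw [h, map_zero])
      exact nonZeroDivisors.ne_zero hb h1
    exact ⟨a, b, hb0, div_mul_cancel₀ _ hb0⟩
  · rw [(RingHom.injective_iff_ker_eq_bot _).1 (IsFractionRing.injective R K)]
    exact bot_lt_iff_ne_bot.2 hP0

/-- the henselian case of the induction step. -/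
theorem sa_hType82 {R : Type} [CommRing R] {PP : Set (Ideal R)}
    (hlow : ∀ P ∈ PP, ∀ q : Ideal R, q.IsPrime → q ≤ P → q ∈ PP) {q : Ideal R}
    (ih : ∀ q' ∈ PP, q < q' → SA R PP q') {T : Type} [CommRing T] [IsDomain T]
    [CompatibleRing T] [Algebra R T] [Module.Finite R T] (hN : NIPRing T)
    (hker : ∀ a : R, algebraMap R T a = 0 ↔ a ∈ q) (hH : HType (FractionRing T))
    (P Q : Ideal T) [hP : P.IsPrime] [hQ : Q.IsPrime] (hPP : P.comap (algebraMap R T) ∈ PP)
    (hQP : Q.comap (algebraMap R T) ∈ PP) : P ≤ Q ∨ Q ≤ P := by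
  by_contra hcon
  push Not at hcon
  obtain ⟨hPQ, hQP'⟩ := hcon
  obtain ⟨K₁, _, _, _, O, hO, hOh⟩ := hH
  letI algTK : Algebra T K₁ :=
    ((algebraMap (FractionRing T) K₁).comp (algebraMap T (FractionRing T))).toAlgebra
  haveI : IsScalarTower T (FractionRing T) K₁ := IsScalarTower.of_algebraMap_eq fun a => rfl
  obtain ⟨T₀, hfin₀, hfr₀⟩ := exists_order82 (R := T) (K := FractionRing T) (F := K₁)
  letI : CompatibleRing T₀ := compatibleRingOfRing _
  have hN₀ : NIPRing T₀ := nip_subalgebra_plus34 (K := FractionRing T) T₀ hN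
  have hinjTK : Function.Injective (algebraMap T K₁) :=
    (algebraMap (FractionRing T) K₁).injective.comp (IsFractionRing.injective T (FractionRing T))
  have hinj : Function.Injective (algebraMap T T₀) := by
    intro x y hxy
    exact hinjTK (congrArg Subtype.val hxy)
  letI algRT : Algebra R T₀ := ((algebraMap T T₀).comp (algebraMap R T)).toAlgebra
  haveI : IsScalarTower R T T₀ := IsScalarTower.of_algebraMap_eq fun a => rfl
  haveI : Module.Finite R T₀ := Module.Finite.trans T T₀
  have hker₀ : ∀ a : R, algebraMap R T₀ a = 0 ↔ a ∈ q := fun a => by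
    rw [← hker]
    change algebraMap T T₀ (algebraMap R T a) = 0 ↔ _
    rw [map_eq_zero_iff _ hinj]
  obtain ⟨P₀, hP₀p, hP₀⟩ := exists_prime_over (R := T) (T := T₀) hinj P
  obtain ⟨Q₀, hQ₀p, hQ₀⟩ := exists_prime_over (R := T) (T := T₀) hinj Q
  have ht : ∀ J : Ideal T₀, J.comap (algebraMap R T₀)
      = (J.comap (algebraMap T T₀)).comap (algebraMap R T) := fun J => rfl
  have hcP := comap_eq_of_over82 P P₀ hP₀
  have hcQ := comap_eq_of_over82 Q Q₀ hQ₀
  have hPP₀ : P₀.comap (algebraMap R T₀) ∈ PP := by rw [ht, hcP]; exact hPP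
  have hQP₀ : Q₀.comap (algebraMap R T₀) ∈ PP := by rw [ht, hcQ]; exact hQP
  have hPQ₀ : ¬ P₀ ≤ Q₀ := fun h => hPQ (by rw [← hcP, ← hcQ]; exact Ideal.comap_mono h)
  have hQP₀' : ¬ Q₀ ≤ P₀ := fun h => hQP' (by rw [← hcP, ← hcQ]; exact Ideal.comap_mono h)
  have hno : ∀ n : Ideal T₀, n.IsPrime → n ≤ P₀ → n ≤ Q₀ → n = ⊥ := by
    intro n hn h1 h2
    by_contra hn0
    rcases sa_key82 hlow ih hN₀ hker₀ n P₀ Q₀ hn hP₀p hQ₀p hn0 h1 h2 hPP₀ hQP₀ with h3 | h3
    · exact hPQ₀ h3
    · exact hQP₀' h3
  have hfin : ∀ p : Ideal T₀, p.IsPrime → (p ≤ P₀ ∨ p ≤ Q₀) →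
      {N : Ideal (integralClosure T₀ K₁) | Over p N}.Finite := by
    intro p hp hle
    have hpc : (p.comap (algebraMap R T₀)).IsPrime := Ideal.comap_isPrime _ p
    have hpPP : p.comap (algebraMap R T₀) ∈ PP := by
      rcases hle with h | h
      · exact hlow _ hPP₀ _ hpc (Ideal.comap_mono h)
      · exact hlow _ hQP₀ _ hpc (Ideal.comap_mono h)
    exact sa_fin82 hlow ih hN₀ hker₀ p hpPP
  by_cases hb : ∃ a : K₁, a ≠ 0 ∧ ∀ x ∈ LocSet P₀ Q₀ K₁, a * x ∈ O
  · obtain ⟨a, ha, haL⟩ := hb
    obtain ⟨O', hO', hO'h, -, hLO⟩ := exists_coarse38 O hO hOh (locRing82 (K := K₁) P₀ Q₀) a ha haL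
    refine bounded_half82 hN₀ P₀ Q₀ hPQ₀ hQP₀' hno hfin O' hO' hO'h ?_
    intro t s hsP hsQ
    refine hLO _ ⟨t, s, hsP, hsQ, ?_⟩
    have hs0 : algebraMap T₀ K₁ s ≠ 0 := by
      intro h
      have h1 : s = 0 := IsFractionRing.injective T₀ K₁ (by rw [h, map_zero])
      rw [h1] at hsP
      exact hsP P₀.zero_mem
    exact div_mul_cancel₀ _ hs0
  · have hD := unboundedDense46 P₀ Q₀ hPQ₀ hQP₀' O hO hOh hb
    rcases theoremT hN₀ P₀ Q₀ (hfin P₀ hP₀p (Or.inl le_rfl))
      (hfin Q₀ hQ₀p (Or.inr le_rfl)) hD with h3 | h3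
    · exact hPQ₀ h3
    · exact hQP₀' h3

/-- **the induction**, henselian type or power type. -/
theorem sA_mix82 {b : Prop} (hM : PairQb b) {R : Type} [CommRing R] (PP : Set (Ideal R))
    (hlow : ∀ P ∈ PP, ∀ q : Ideal R, q.IsPrime → q ≤ P → q ∈ PP)
    (hacc : PP.WellFoundedOn (· > ·)) (hB : ∀ P ∈ PP, MBelow b P) :
    ∀ q ∈ PP, SA R PP q := by
  intro q₀ hq₀
  refine hacc.induction (P := fun q => SA R PP q) hq₀ ?_
  intro q _ ih'
  have ih : ∀ q' ∈ PP, q < q' → SA R PP q' := fun q' h1 h2 => ih' q' h1 h2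
  intro T _ _ _ _ _ hN hker P Q hP hQ hPP hQP
  by_cases hP0 : P = ⊥
  · left
    rw [hP0]
    exact bot_le
  by_cases hQ0 : Q = ⊥
  · right
    rw [hQ0]
    exact bot_le
  have hBP : MBelow b P := MBelow.ext82 (R := R) P (hB _ hPP)
  have hBQ : MBelow b Q := MBelow.ext82 (R := R) Q (hB _ hQP)
  rcases hBP.fractionRing (K := FractionRing T) hP0 with hH | ⟨hPT, hiP⟩
  · exact sa_hType82 hlow ih hN hker hH P Q hPP hQP
  · rcases hBQ.fractionRing (K := FractionRing T) hQ0 with hH | ⟨-, hiQ⟩
    · exact sa_hType82 hlow ih hN hker hH P Q hPP hQP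
    · exact hM (K := FractionRing T) hN hPT P Q hiP hiQ
        (sa_fin82 hlow ih hN hker P hPP) (sa_fin82 hlow ih hN hker Q hQP)

/-- the local form: comparability and henselian localizations. -/
theorem fm_local82 {b : Prop} (hM : PairQb b) {R : Type} [CommRing R] [IsDomain R] [CompatibleRing R]
    (hN : NIPRing R) (PP : Set (Ideal R))
    (hlow : ∀ P ∈ PP, ∀ q : Ideal R, q.IsPrime → q ≤ P → q ∈ PP)
    (hacc : PP.WellFoundedOn (· > ·)) (hB : ∀ P ∈ PP, MBelow b P) :
    (∀ P ∈ PP, ∀ Q ∈ PP, P.IsPrime → Q.IsPrime → P ≤ Q ∨ Q ≤ P) ∧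
      ∀ P ∈ PP, ∀ [P.IsPrime], HenselianLocalRing (Localization.AtPrime P) := by
  have hS := sA_mix82 hM PP hlow hacc hB
  constructor
  · intro P hP Q hQ hPp hQp
    have hbot : (⊥ : Ideal R) ∈ PP := hlow P hP ⊥ Ideal.isPrime_bot bot_le
    refine hS ⊥ hbot R hN (fun a => ?_) P Q hPp hQp ?_ ?_
    · rw [Ideal.mem_bot]
      exact Iff.rfl
    · exact hP
    · exact hQ
  · intro P hP hPp
    have hbot : (⊥ : Ideal R) ∈ PP := hlow P hP ⊥ Ideal.isPrime_bot bot_le
    have hinjW : Function.Injective (algebraMap R (AlgebraicClosure (FractionRing R))) := by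
      rw [IsScalarTower.algebraMap_eq R (FractionRing R) (AlgebraicClosure (FractionRing R))]
      exact (algebraMap (FractionRing R) _).injective.comp (IsFractionRing.injective R _)
    haveI : FaithfulSMul R (AlgebraicClosure (FractionRing R)) :=
      (faithfulSMul_iff_algebraMap_injective _ _).mpr hinjW
    refine hens_of_pairs82 (W := AlgebraicClosure (FractionRing R)) P ?_
    intro T hTfin M₁ M₂ hM₁ hM₂ h₁ h₂
    letI : CompatibleRing T := compatibleRingOfRing _
    have hNT : NIPRing T := nip_subalgebra_plus34 (K := FractionRing R) T hN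
    have hinj : Function.Injective (algebraMap R T) := by
      intro x y hxy
      exact hinjW (congrArg Subtype.val hxy)
    refine hS ⊥ hbot T hNT (fun a => ?_) M₁ M₂ hM₁ hM₂ ?_ ?_
    · rw [Ideal.mem_bot, map_eq_zero_iff _ hinj]
    · rw [comap_eq_of_over82 P M₁ h₁]
      exact hP
    · rw [comap_eq_of_over82 P M₂ h₂]
      exact hP

/-- the condition at a prime in terms of fraction fields of quotients. -/
theorem MBelow.of_residue82 {R : Type} [CommRing R] {b : Prop} (P : Ideal R)
    (h : ∀ (q : Ideal R) [q.IsPrime], q < P →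
      HType (FractionRing (R ⧸ q)) ∨ (QType (FractionRing (R ⧸ q)) ∧ (b ∨ Infinite (R ⧸ P)))) :
    MBelow b P := by
  intro k _ f hf hlt
  haveI hkp : (RingHom.ker f).IsPrime := RingHom.ker_isPrime f
  have hle : ∀ a ∈ RingHom.ker f, f a = 0 := fun a ha => ha
  let g : R ⧸ RingHom.ker f →+* k := Ideal.Quotient.lift (RingHom.ker f) f hle
  have hg : ∀ a : R, g (Ideal.Quotient.mk (RingHom.ker f) a) = f a :=
    fun a => Ideal.Quotient.lift_mk _ _ _
  have hinj : Function.Injective g := by
    rw [injective_iff_map_eq_zero]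
    intro x hx
    obtain ⟨a, rfl⟩ := Ideal.Quotient.mk_surjective x
    rw [hg] at hx
    exact Ideal.Quotient.eq_zero_iff_mem.2 hx
  letI alg : Algebra (R ⧸ RingHom.ker f) k := g.toAlgebra
  haveI : FaithfulSMul (R ⧸ RingHom.ker f) k := by
    rw [faithfulSMul_iff_algebraMap_injective]
    exact hinj
  haveI : IsFractionRing (R ⧸ RingHom.ker f) k := by
    refine IsFractionRing.of_field _ _ fun z => ?_
    obtain ⟨a, b, hb, hab⟩ := hf z
    refine ⟨Ideal.Quotient.mk _ a, Ideal.Quotient.mk _ b, ?_⟩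
    change z = g (Ideal.Quotient.mk _ a) / g (Ideal.Quotient.mk _ b)
    rw [hg, hg, eq_div_iff hb, hab]
  let e : FractionRing (R ⧸ RingHom.ker f) ≃ₐ[R ⧸ RingHom.ker f] k :=
    FractionRing.algEquiv (R ⧸ RingHom.ker f) k
  have h1 : MType (b ∨ Infinite (R ⧸ P)) (FractionRing (R ⧸ RingHom.ker f)) := h _ hlt
  exact h1.of_ringEquiv82 e.toRingEquiv

/-- **Theorem F + M, global form**: ascending chain condition on primes. -/
theorem fm_global82 {b : Prop} (hM : PairQb b) {R : Type} [CommRing R] [IsDomain R] [CompatibleRing R]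
    (hN : NIPRing R) (hacc : {P : Ideal R | P.IsPrime}.WellFoundedOn (· > ·))
    (hres : ∀ (q : Ideal R) [q.IsPrime], ¬ q.IsMaximal →
      HType (FractionRing (R ⧸ q)) ∨ (QType (FractionRing (R ⧸ q)) ∧
        (b ∨ ∀ m : Ideal R, m.IsMaximal → q ≤ m → Infinite (R ⧸ m)))) :
    HenselianLocalRing R := by
  have hB : ∀ P ∈ {P : Ideal R | P.IsPrime}, MBelow b P := by
    intro P hP
    have hPp : P.IsPrime := hP
    refine MBelow.of_residue82 P ?_
    intro q hq hlt
    have hqm : ¬ q.IsMaximal := fun h => hlt.ne (h.eq_of_le hPp.ne_top hlt.le)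
    rcases hres q hqm with h | ⟨h, hi⟩
    · exact Or.inl h
    · refine Or.inr ⟨h, hi.imp id fun hi => ?_⟩
      by_cases hPm : P.IsMaximal
      · exact hi P hPm hlt.le
      · by_contra hfin
        rw [not_infinite_iff_finite] at hfin
        apply hPm
        have hd : IsDomain (R ⧸ P) := inferInstance
        exact Ideal.Quotient.maximal_of_isField P (Finite.isField_of_domain (R ⧸ P))
  obtain ⟨hcomp, hh⟩ := fm_local82 hM hN {P : Ideal R | P.IsPrime}
    (fun P _ q hq _ => hq) hacc hB
  exact henselian_of_all32 (fun P Q hP hQ => hcomp P hP Q hQ hP hQ)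
    (fun P hP => hh P hP)

/-- **Theorem F, the induction without hypotheses**. -/
theorem sA_hens82 {R : Type} [CommRing R] (PP : Set (Ideal R))
    (hlow : ∀ P ∈ PP, ∀ q : Ideal R, q.IsPrime → q ≤ P → q ∈ PP)
    (hacc : PP.WellFoundedOn (· > ·)) (hB : ∀ P ∈ PP, HBelow P) :
    ∀ q ∈ PP, SA R PP q := sA_all82 unboundedDense46 PP hlow hacc hB

end Pool.Agent.AIC
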