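import Mathlib
import Pool.Agent.AIC.TheoremFG95
import Pool.Agent.AIC.TheoremG82

/-!
# Theorem FGM

The chain theorem for residue fields of henselian type or of power type. The only hypothesis is the
pair form `PairQb b` of Theorem M.
-/

set_option autoImplicit false
set_option linter.style.haveILetI false

namespace Pool.Agent.AIC

open Polynomial IsLocalRing FirstOrder FirstOrder.Ring

theorem ringEquiv_gen95 {R k : Type} [CommRing R] [Field k] (f : R →+* k) (hf : GenField f)
    (q : Ideal R) [q.IsPrime] (hq : RingHom.ker f = q) :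
    Nonempty (FractionRing (R ⧸ q) ≃+* k) := by
  have hle : ∀ a ∈ q, f a = 0 := fun a ha => by
    rw [← RingHom.mem_ker, hq]
    exact ha
  let g : R ⧸ q →+* k := Ideal.Quotient.lift q f hle
  have hg : ∀ a : R, g (Ideal.Quotient.mk q a) = f a := fun a => Ideal.Quotient.lift_mk _ _ _
  have hinj : Function.Injective g := by
    rw [injective_iff_map_eq_zero]
    intro x hx
    obtain ⟨a, rfl⟩ := Ideal.Quotient.mk_surjective x
    rw [hg, ← RingHom.mem_ker, hq] at hx
    exact Ideal.Quotient.eq_zero_iff_mem.2 hx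
  letI alg : Algebra (R ⧸ q) k := g.toAlgebra
  haveI : FaithfulSMul (R ⧸ q) k := by
    rw [faithfulSMul_iff_algebraMap_injective]
    exact hinj
  haveI : IsFractionRing (R ⧸ q) k := by
    refine IsFractionRing.of_field _ _ fun z => ?_
    obtain ⟨a, b, hb, hab⟩ := hf z
    refine ⟨Ideal.Quotient.mk q a, Ideal.Quotient.mk q b, ?_⟩
    change z = g (Ideal.Quotient.mk q a) / g (Ideal.Quotient.mk q b)
    rw [hg, hg, eq_div_iff hb, hab]
  exact ⟨(FractionRing.algEquiv (R ⧸ q) k).toRingEquiv⟩

/-- quotients by primes of an integral extension are infinite. -/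
theorem infinite_quotient95 {R T : Type} [CommRing R] [CommRing T] [Algebra R T]
    (h : ∀ m : Ideal R, m.IsMaximal → Infinite (R ⧸ m)) (P : Ideal T) (hP : P.IsPrime) :
    Infinite (T ⧸ P) := by
  have hne : P.comap (algebraMap R T) ≠ ⊤ := (Ideal.comap_isPrime (algebraMap R T) P).ne_top
  obtain ⟨m, hm, hle⟩ := Ideal.exists_le_maximal _ hne
  haveI := h m hm
  haveI : Infinite (R ⧸ P.comap (algebraMap R T)) :=
    Infinite.of_surjective (Ideal.Quotient.factor hle) (Ideal.Quotient.factor_surjective hle)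
  exact Infinite.of_injective _ (Ideal.algebraMap_quotient_injective (R := R) (I := P))

/-- the step for fraction fields of power type. -/
theorem step_qType95 {b : Prop} (hM : PairQb b) {R : Type} [CommRing R] [IsDomain R]
    (hFB : FB95 R) (hQ : QType (FractionRing R))
    (hres : b ∨ ∀ m : Ideal R, m.IsMaximal → Infinite (R ⧸ m)) : Step95 R := by
  intro T _ _ _ _ _ hinj hNT P Q hP hQ' hPQ hQP
  exfalso
  obtain ⟨algT, towT, hfdT⟩ := finiteDim_fraction82 hinj
  have hi : ∀ J : Ideal T, J.IsPrime → b ∨ Infinite (T ⧸ J) := fun J hJ =>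
    hres.imp id fun h => infinite_quotient95 h J hJ
  rcases hM (K := FractionRing T) hNT (hQ.ext82 (FractionRing T)) P Q (hi P hP) (hi Q hQ')
    (hFB.ext hinj (FractionRing T) P) (hFB.ext hinj (FractionRing T) Q) with h | h
  · exact hPQ h
  · exact hQP h

/-- the step for residue fields of henselian type or of power type. -/
theorem step_mixed95 {b : Prop} (hM : PairQb b) {R : Type} [CommRing R]
    (hH : ∀ (q : Ideal R) [q.IsPrime], ¬ q.IsMaximal →
      HType (FractionRing (R ⧸ q)) ∨ (QType (FractionRing (R ⧸ q)) ∧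
        (b ∨ ∀ m : Ideal R, m.IsMaximal → q ≤ m → Infinite (R ⧸ m))))
    (q : Ideal R) [q.IsPrime] (q' : Ideal (R ⧸ q)) [q'.IsPrime]
    (hq : ¬ (q'.comap (Ideal.Quotient.mk q)).IsMaximal) (hF : FB95 ((R ⧸ q) ⧸ q')) :
    Step95 ((R ⧸ q) ⧸ q') := by
  haveI : (q'.comap (Ideal.Quotient.mk q)).IsPrime := Ideal.comap_isPrime _ q'
  obtain ⟨h1, h2⟩ := genField_quotient95 q q'
  obtain ⟨e⟩ := ringEquiv_gen95 _ h1 (q'.comap (Ideal.Quotient.mk q)) h2
  have h3 := MType.of_ringEquiv82 e (hH _ hq)
  rcases h3 with h4 | ⟨h4, h5⟩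
  · exact step_hType95 hF h4
  · refine step_qType95 hM hF h4 (h5.imp id fun h m hm => ?_)
    let f : R →+* (R ⧸ q) ⧸ q' := (Ideal.Quotient.mk q').comp (Ideal.Quotient.mk q)
    have hf : Function.Surjective f :=
      Ideal.Quotient.mk_surjective.comp Ideal.Quotient.mk_surjective
    have hmm : (m.comap f).IsMaximal := Ideal.comap_isMaximal_of_surjective f hf
    have hle : q'.comap (Ideal.Quotient.mk q) ≤ m.comap f := by
      intro a ha
      rw [Ideal.mem_comap] at ha ⊢
      have h6 : f a = 0 := Ideal.Quotient.eq_zero_iff_mem.2 ha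
      rw [h6]
      exact m.zero_mem
    haveI := h _ hmm hle
    exact Infinite.of_injective (Ideal.quotientMap m f le_rfl) (Ideal.quotientMap_injective)

/-- **Theorem FGM**: residue fields at the nonmaximal primes of henselian type or of power type. -/
theorem theoremFGM95 {b : Prop} (hM : PairQb b) {R : Type} [CommRing R] [IsDomain R]
    [CompatibleRing R] (hN : NIPRing R)
    (hH : ∀ (q : Ideal R) [q.IsPrime], ¬ q.IsMaximal →
      HType (FractionRing (R ⧸ q)) ∨ (QType (FractionRing (R ⧸ q)) ∧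
        (b ∨ ∀ m : Ideal R, m.IsMaximal → q ≤ m → Infinite (R ⧸ m))))
    (hno : ¬ ∃ q : ℕ → Ideal R, q 0 = ⊥ ∧ (∀ i, q i < q (i + 1)) ∧
      ∀ i, ∃ _ : (q i).IsPrime, ¬ FB95 (R ⧸ q i)) :
    HenselianLocalRing R := by
  have hS : SA R (AllP95 R) ⊥ := by
    by_contra hbad
    exact hno (exists_chain95 hN (fun q _ q' _ hq hF => step_mixed95 hM hH q q' hq hF) hbad)
  refine henselian_G95 hN fun T _ _ _ _ _ hinj hNT P Q hP hQ => ?_
  exact hS T hNT (fun a => by rw [Ideal.mem_bot, map_eq_zero_iff _ hinj]) P Q hP hQ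
    (Ideal.comap_isPrime _ P) (Ideal.comap_isPrime _ Q)

end Pool.Agent.AIC
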