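import Mathlib
import Pool.Agent.AIC.TheoremFGM95

/-!
# The chain form, spelled out

The statement of Theorem FGM without our definitions: `HType`, `QType` and finite branching are
written out.
-/

set_option autoImplicit false
set_option linter.style.haveILetI false

namespace Pool.Agent.AIC

open Polynomial IsLocalRing FirstOrder FirstOrder.Ring

/-- not finitely branched, spelled out. -/
theorem not_fb_iff95 {D : Type} [CommRing D] [IsDomain D] :
    ¬ FB95 D ↔ ∃ P : Ideal D, P.IsPrime ∧
      {N : Ideal (integralClosure D (FractionRing D)) | N.IsPrime ∧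
        N.comap (algebraMap D (integralClosure D (FractionRing D))) = P}.Infinite := by
  have hset : ∀ P : Ideal D, {N : Ideal (integralClosure D (FractionRing D)) | N.IsPrime ∧
        N.comap (algebraMap D (integralClosure D (FractionRing D))) = P}
      = {N : Ideal (integralClosure D (FractionRing D)) | Over P N} := by
    intro P
    ext N
    constructor
    · rintro ⟨h1, h2⟩
      exact ⟨h1, fun t => by rw [← Ideal.mem_comap, h2]⟩
    · rintro ⟨h1, h2⟩
      refine ⟨h1, ?_⟩
      ext t
      rw [Ideal.mem_comap]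
      exact h2 t
  unfold FB95
  push Not
  constructor
  · rintro ⟨P, hP, h⟩
    exact ⟨P, hP, by rw [hset]; exact h⟩
  · rintro ⟨P, hP, h⟩
    exact ⟨P, hP, by rw [hset] at h; exact h⟩

/-- the chain form with the chain condition spelled out. -/
theorem chain_final95 {b : Prop} (hM : PairQb b) {R : Type} [CommRing R] [IsDomain R]
    [CompatibleRing R] (hN : NIPRing R)
    (hH : ∀ (q : Ideal R) [q.IsPrime], ¬ q.IsMaximal →
      HType (FractionRing (R ⧸ q)) ∨ (QType (FractionRing (R ⧸ q)) ∧
        (b ∨ ∀ m : Ideal R, m.IsMaximal → q ≤ m → Infinite (R ⧸ m))))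
    (hno : ¬ ∃ p : ℕ → Ideal R, p 0 = ⊥ ∧ StrictMono p ∧ ∀ n, ∃ _ : (p n).IsPrime,
      ∃ P : Ideal (R ⧸ p n), P.IsPrime ∧
        {N : Ideal (integralClosure (R ⧸ p n) (FractionRing (R ⧸ p n))) | N.IsPrime ∧
          N.comap (algebraMap (R ⧸ p n) (integralClosure (R ⧸ p n) (FractionRing (R ⧸ p n))))
            = P}.Infinite) :
    HenselianLocalRing R := by
  refine theoremFGM95 hM hN hH ?_
  rintro ⟨q, h0, h1, h2⟩
  refine hno ⟨q, h0, strictMono_nat_of_lt_succ h1, fun n => ?_⟩
  obtain ⟨hp, hb⟩ := h2 n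
  exact ⟨hp, not_fb_iff95.1 hb⟩

end Pool.Agent.AIC
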