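import Pool.Agent.AIC.Form83

/-! MP_313bb4, stage 3, piece S2: the ring-language formula for fractions. -/

set_option autoImplicit false

namespace Pool.Agent.AIC

open FirstOrder FirstOrder.Language FirstOrder.Ring

/-- the variables: parameters `c, e₁, e₂` and `a, b`, bound variables `s, t, r, z` -/
abbrev W4 : Type := (Fin 3 ⊕ Fin 2) ⊕ Fin 4

/-- `(1 + r * (e * t)) * z = 1`, bound variables `s, t, r, z` -/
noncomputable def jacT (e : Fin 3) : Language.ring.BoundedFormula (Fin 3 ⊕ Fin 2) 4 :=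
  ((1 + (Term.var (Sum.inr 2) : Language.ring.Term W4) *
    (Term.var (Sum.inl (Sum.inl e)) * Term.var (Sum.inr 1))) *
    Term.var (Sum.inr 3)).bdEqual 1

/-- `(1 + r * (e * (s - c * t))) * z = 1`, bound variables `s, t, r, z` -/
noncomputable def jacS (e : Fin 3) : Language.ring.BoundedFormula (Fin 3 ⊕ Fin 2) 4 :=
  ((1 + (Term.var (Sum.inr 2) : Language.ring.Term W4) *
    (Term.var (Sum.inl (Sum.inl e)) *
      (Term.var (Sum.inr 0) +
        -(Term.var (Sum.inl (Sum.inl 0)) * Term.var (Sum.inr 1))))) *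
    Term.var (Sum.inr 3)).bdEqual 1

/-- the equation `s ^ q * b = (a + c ^ q * b) * t ^ q` -/
noncomputable def eqF (q : ℕ) : Language.ring.BoundedFormula (Fin 3 ⊕ Fin 2) 2 :=
  (tpow (Term.var (Sum.inr 0) : Language.ring.Term ((Fin 3 ⊕ Fin 2) ⊕ Fin 2)) q *
      Term.var (Sum.inl (Sum.inr 1))).bdEqual
    ((Term.var (Sum.inl (Sum.inr 0)) +
        tpow (Term.var (Sum.inl (Sum.inl 0))) q * Term.var (Sum.inl (Sum.inr 1))) *
      tpow (Term.var (Sum.inr 1)) q)

/-- the main formula -/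
noncomputable def fracF (q : ℕ) : Language.ring.Formula (Fin 3 ⊕ Fin 2) :=
  BoundedFormula.ex (BoundedFormula.ex
    (((BoundedFormula.all (BoundedFormula.ex (jacT 1))).not ⊓
        (BoundedFormula.all (BoundedFormula.ex (jacT 2))).not) ⊓
      (eqF q ⊓
        ((BoundedFormula.all (BoundedFormula.ex (jacS 1))) ⊓
          (BoundedFormula.all (BoundedFormula.ex (jacS 2)))))))

theorem realize_jacT {R : Type} [CommRing R] [CompatibleRing R] (a : Fin 3 → R) (b : Fin 2 → R)
    (e : Fin 3) (s t : R) (xs : Fin 0 → R) :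
    (BoundedFormula.all (BoundedFormula.ex (jacT e))).Realize (Sum.elim a b)
      (Fin.snoc (α := fun _ => R) (Fin.snoc (α := fun _ => R) xs s) t) ↔ Jm (a e * t) := by
  rw [BoundedFormula.realize_all]
  unfold Jm
  refine forall_congr' fun r => ?_
  rw [BoundedFormula.realize_ex]
  refine exists_congr fun z => ?_
  unfold jacT
  rw [BoundedFormula.realize_bdEqual]
  simp [Fin.snoc]

theorem realize_jacS {R : Type} [CommRing R] [CompatibleRing R] (a : Fin 3 → R) (b : Fin 2 → R)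
    (e : Fin 3) (s t : R) (xs : Fin 0 → R) :
    (BoundedFormula.all (BoundedFormula.ex (jacS e))).Realize (Sum.elim a b)
      (Fin.snoc (α := fun _ => R) (Fin.snoc (α := fun _ => R) xs s) t) ↔
        Jm (a e * (s - a 0 * t)) := by
  rw [BoundedFormula.realize_all]
  unfold Jm
  refine forall_congr' fun r => ?_
  rw [BoundedFormula.realize_ex]
  refine exists_congr fun z => ?_
  unfold jacS
  rw [BoundedFormula.realize_bdEqual]
  simp [Fin.snoc, sub_eq_add_neg]

theorem realize_eqF {R : Type} [CommRing R] [CompatibleRing R] (q : ℕ) (a : Fin 3 → R)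
    (b : Fin 2 → R) (s t : R) (xs : Fin 0 → R) :
    (eqF q).Realize (Sum.elim a b)
      (Fin.snoc (α := fun _ => R) (Fin.snoc (α := fun _ => R) xs s) t) ↔
        s ^ q * b 1 = (b 0 + a 0 ^ q * b 1) * t ^ q := by
  unfold eqF
  rw [BoundedFormula.realize_bdEqual]
  simp [realize_tpow, Fin.snoc]

theorem realize_fracF {R : Type} [CommRing R] [CompatibleRing R] (q : ℕ) (a : Fin 3 → R)
    (b : Fin 2 → R) :
    (fracF q).Realize (Sum.elim a b) ↔
      ∃ s t : R, ¬ Jm (a 1 * t) ∧ ¬ Jm (a 2 * t) ∧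
        s ^ q * b 1 = (b 0 + a 0 ^ q * b 1) * t ^ q ∧
        Jm (a 1 * (s - a 0 * t)) ∧ Jm (a 2 * (s - a 0 * t)) := by
  unfold fracF Formula.Realize
  rw [BoundedFormula.realize_ex]
  refine exists_congr fun s => ?_
  rw [BoundedFormula.realize_ex]
  refine exists_congr fun t => ?_
  rw [BoundedFormula.realize_inf, BoundedFormula.realize_inf, BoundedFormula.realize_inf,
    BoundedFormula.realize_inf, BoundedFormula.realize_not, BoundedFormula.realize_not,
    realize_jacT, realize_jacT, realize_jacS, realize_jacS, realize_eqF]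
  exact and_assoc

/-- The NIP side of stage 3. -/
theorem nip_frac {R : Type} [CommRing R] [CompatibleRing R]
    (h : ∀ (k m : ℕ) (φ : FirstOrder.Language.ring.Formula (Fin k ⊕ Fin m)),
      ∃ n : ℕ, ¬ ∃ (a : Fin n → Fin k → R) (b : Finset (Fin n) → Fin m → R),
        ∀ (i : Fin n) (J : Finset (Fin n)), (φ.Realize (Sum.elim (a i) (b J)) ↔ i ∈ J))
    (q : ℕ) :
    ∃ n : ℕ, ¬ ∃ (c : Fin n → R) (e₁ e₂ : R) (a b : Finset (Fin n) → R),
      ∀ (i : Fin n) (J : Finset (Fin n)),
        ((∃ s t : R, ¬ Jm (e₁ * t) ∧ ¬ Jm (e₂ * t) ∧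
          s ^ q * b J = (a J + c i ^ q * b J) * t ^ q ∧
          Jm (e₁ * (s - c i * t)) ∧ Jm (e₂ * (s - c i * t))) ↔ i ∈ J) := by
  obtain ⟨n, hn⟩ := h 3 2 (fracF q)
  refine ⟨n, ?_⟩
  rintro ⟨c, e₁, e₂, a, b, hx⟩
  apply hn
  refine ⟨fun i => ![c i, e₁, e₂], fun J => ![a J, b J], fun i J => ?_⟩
  rw [realize_fracF]
  simpa using hx i J

end Pool.Agent.AIC
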