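import Mathlib
import Pool.Agent.AIC.Hensel76

set_option autoImplicit false

namespace Pool.Agent.AIC

open Finset Polynomial IsLocalRing

/-- `k` distinct roots in a henselian local domain, with a leading coefficient `D₀` and points
`b j * u` that need not be distinct modulo the maximal ideal. -/
theorem henselian_roots_D {S : Type*} [CommRing S] [IsDomain S] [HenselianLocalRing S]
    (t D₀ Δ u : S) (ht : t ∈ maximalIdeal S) (hu : u = D₀ * Δ * t) (hu0 : u ≠ 0) (k : ℕ)
    (b : Fin k → S) (hb : Function.Injective b)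
    (hΔ : ∀ j, (∏ l ∈ univ.erase j, (b j - b l)) ∣ Δ) (Φ H E : S[X])
    (h : Φ = (∏ j, (X - C (b j * u))) * H + C (u ^ (k + 3)) * E)
    (hH0 : H.eval 0 = D₀) :
    ∃ r : Fin k → S, Function.Injective r ∧ (∀ j, r j ∈ maximalIdeal S) ∧
      ∀ j, Φ.IsRoot (r j) := by
  classical
  have hum : u ∈ maximalIdeal S := by
    rw [hu]
    exact Ideal.mul_mem_left _ _ ht
  -- division of `H`
  obtain ⟨H₁, hH₁⟩ : ∃ H₁ : S[X], H = C D₀ + X * H₁ := by
    refine ⟨H.divX, ?_⟩
    have h1 := H.divX_mul_X_add
    rw [coeff_zero_eq_eval_zero, hH0] at h1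
    calc H = H.divX * X + C D₀ := h1.symm
      _ = C D₀ + X * H.divX := by ring
  have key : ∀ j : Fin k, ∃ T ∈ maximalIdeal S, Φ.eval (b j * u + u ^ 2 * T) = 0 := by
    intro j
    obtain ⟨Δ', hΔ'⟩ := hΔ j
    -- the quotients `u / (b j - b l)`
    have hμ : ∀ l, ∃ μ ∈ maximalIdeal S, l ≠ j → u = (b j - b l) * μ := by
      intro l
      by_cases hl : l = j
      · exact ⟨0, (maximalIdeal S).zero_mem, fun h => absurd hl h⟩
      · have h1 : (b j - b l) ∣ ∏ l ∈ univ.erase j, (b j - b l) :=
          Finset.dvd_prod_of_mem _ (mem_erase.mpr ⟨hl, mem_univ l⟩)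
        obtain ⟨c, hc⟩ := h1.trans ⟨Δ', hΔ'⟩
        refine ⟨D₀ * c * t, Ideal.mul_mem_left _ _ ht, fun _ => ?_⟩
        rw [hu, hc]; ring
    choose μ hμm hμe using hμ
    set x : S[X] := C (b j * u) + C (u ^ 2) * X with hx
    set G : S[X] := X * (∏ l ∈ univ.erase j, (1 + C (μ l) * X)) *
        (1 + C (Δ * t) * (C (b j) + C u * X) * H₁.comp x)
      + C (Δ' * t * u) * E.comp x with hG
    have hG0 : G.eval 0 ∈ maximalIdeal S := by
      have h1 : G.eval 0 = Δ' * t * u * (E.comp x).eval 0 := by simp [hG]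
      rw [h1]
      exact Ideal.mul_mem_right _ _ (Ideal.mul_mem_left _ _ hum)
    have hG1 : IsUnit (G.derivative.eval 0) := by
      have h1 : G.derivative.eval 0 = 1 + Δ * t * b j * (H₁.comp x).eval 0
          + Δ' * t * u * ((E.comp x).derivative.eval 0) := by
        simp only [hG, derivative_add, derivative_mul, derivative_X, eval_add, eval_mul, eval_X,
          eval_one, eval_C, derivative_C, eval_prod]
        simp
      rw [h1, ← residue_ne_zero_iff_isUnit, map_add, map_add, map_mul, map_mul, map_mul, map_mul,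
        map_mul, map_mul, (residue_eq_zero_iff t).2 ht]
      simp
    obtain ⟨T, hT, hGT⟩ := hensel_zero G hG0 hG1
    refine ⟨T, hT, ?_⟩
    have hxT : x.eval T = b j * u + u ^ 2 * T := by simp [hx]
    set P := ∏ l ∈ univ.erase j, (b j - b l) with hP
    have hprod : ∏ l, (b j * u + u ^ 2 * T - b l * u) =
        u ^ (k + 1) * P * (T * ∏ l ∈ univ.erase j, (1 + μ l * T)) := by
      rw [← mul_prod_erase univ _ (mem_univ j)]
      have h1 : ∀ l ∈ univ.erase j, (b j * u + u ^ 2 * T - b l * u) =
          u * (b j - b l) * (1 + μ l * T) := by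
        intro l hl
        have h2 := hμe l (ne_of_mem_erase hl)
        have h3 : u ^ 2 * T = u * ((b j - b l) * μ l) * T := by rw [← h2]; ring
        rw [h3]; ring
      have hkpos : 0 < k := Fin.pos j
      rw [prod_congr rfl h1, prod_mul_distrib, prod_mul_distrib, prod_const,
        card_erase_of_mem (mem_univ j), card_univ, Fintype.card_fin]
      have h2 : b j * u + u ^ 2 * T - b j * u = u ^ 2 * T := by ring
      rw [h2]
      have h3 : k + 1 = 2 + (k - 1) := by omega
      rw [h3, pow_add]; ring
    have hval : Φ.eval (b j * u + u ^ 2 * T) = u ^ (k + 1) * P * D₀ * G.eval T := by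
      rw [h]
      simp only [eval_add, eval_mul, eval_prod, eval_sub, eval_X, eval_C]
      rw [hprod]
      have hHe : H.eval (b j * u + u ^ 2 * T)
          = D₀ * (1 + Δ * t * (b j + u * T) * H₁.eval (b j * u + u ^ 2 * T)) := by
        rw [hH₁]
        simp only [eval_add, eval_mul, eval_X, eval_C]
        have h4 : b j * u + u ^ 2 * T = D₀ * Δ * t * (b j + u * T) := by
          rw [← hu]; ring
        generalize H₁.eval (b j * u + u ^ 2 * T) = w
        rw [h4]; ring
      have hGe : G.eval T = T * (∏ l ∈ univ.erase j, (1 + μ l * T)) *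
          (1 + Δ * t * (b j + u * T) * H₁.eval (b j * u + u ^ 2 * T))
          + Δ' * t * u * E.eval (b j * u + u ^ 2 * T) := by
        rw [hG]
        simp only [eval_add, eval_mul, eval_X, eval_C, eval_comp, hxT, eval_prod, eval_one]
      rw [hHe, hGe]
      have h5 : u ^ (k + 3) = u ^ (k + 1) * u * (D₀ * (P * Δ') * t) := by
        rw [← hΔ', ← hu]; ring
      rw [h5]; ring
    rw [hval, hGT, mul_zero]
  choose T hT hTr using key
  refine ⟨fun j => b j * u + u ^ 2 * T j, ?_, ?_, hTr⟩
  · intro i j hij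
    by_contra hne
    have e : b i * u + u ^ 2 * T i = b j * u + u ^ 2 * T j := hij
    have e1 : b i - b j = u * (T j - T i) := by
      apply mul_left_cancel₀ hu0
      linear_combination e
    obtain ⟨c, hc⟩ : (b i - b j) ∣ Δ :=
      (Finset.dvd_prod_of_mem (fun l => b i - b l)
        (mem_erase.mpr ⟨Ne.symm hne, mem_univ j⟩)).trans (hΔ i)
    have e2 : (b i - b j) * (1 - D₀ * c * t * (T j - T i)) = 0 := by
      have e3 : u = (b i - b j) * (D₀ * c * t) := by rw [hu, hc]; ring
      have e4 : b i - b j = (b i - b j) * (D₀ * c * t) * (T j - T i) := by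
        rw [← e3]; exact e1
      linear_combination e4
    have hunit : IsUnit (1 - D₀ * c * t * (T j - T i)) := by
      rw [← residue_ne_zero_iff_isUnit, map_sub, map_mul, map_mul, (residue_eq_zero_iff t).2 ht]
      simp
    have e5 : b i - b j = 0 := by
      rcases mul_eq_zero.mp e2 with h1 | h1
      · exact h1
      · exact absurd h1 hunit.ne_zero
    exact hne (hb (sub_eq_zero.mp e5))
  · intro j
    exact Ideal.add_mem _ (Ideal.mul_mem_left _ _ hum)
      (Ideal.mul_mem_right _ _ (Ideal.pow_mem_of_mem _ hum _ two_pos))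

/-- the version over `R` with the roots in the localization. -/
theorem henselian_roots_D_loc {R : Type*} [CommRing R] [IsDomain R] (m : Ideal R)
    [m.IsMaximal] (hH : HenselianLocalRing (Localization.AtPrime m))
    (t D₀ Δ u : R) (ht : t ∈ m) (hu : u = D₀ * Δ * t) (hu0 : u ≠ 0) (k : ℕ)
    (b : Fin k → R) (hb : Function.Injective b)
    (hΔ : ∀ j, (∏ l ∈ univ.erase j, (b j - b l)) ∣ Δ) (Φ H E : R[X])
    (h : Φ = (∏ j, (X - C (b j * u))) * H + C (u ^ (k + 3)) * E)
    (hH0 : H.eval 0 = D₀) :
    ∃ r : Fin k → Localization.AtPrime m, Function.Injective r ∧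
      (∀ j, r j ∈ maximalIdeal (Localization.AtPrime m)) ∧
      ∀ j, (Φ.map (algebraMap R (Localization.AtPrime m))).IsRoot (r j) := by
  classical
  set α : R →+* Localization.AtPrime m := algebraMap R (Localization.AtPrime m) with hα
  have hmem : ∀ x : R, α x ∈ maximalIdeal (Localization.AtPrime m) ↔ x ∈ m := fun x =>
    IsLocalization.AtPrime.to_map_mem_maximal_iff (Localization.AtPrime m) m x
  have hinj : Function.Injective α := IsLocalization.injective _ m.primeCompl_le_nonZeroDivisors
  have hdom : IsDomain (Localization.AtPrime m) :=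
    IsLocalization.isDomain_localization m.primeCompl_le_nonZeroDivisors
  refine henselian_roots_D (α t) (α D₀) (α Δ) (α u) ((hmem t).2 ht)
    (by rw [hu, map_mul, map_mul]) (fun h0 => hu0 (hinj (by rw [h0, map_zero]))) k
    (fun j => α (b j)) (hinj.comp hb) (fun j => ?_) (Φ.map α) (H.map α) (E.map α) ?_ ?_
  · have h1 := map_dvd α (hΔ j)
    rw [map_prod] at h1
    simp only [map_sub] at h1
    exact h1
  · rw [h]
    simp only [Polynomial.map_add, Polynomial.map_mul, Polynomial.map_prod, Polynomial.map_sub,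
      Polynomial.map_X, Polynomial.map_C, map_mul, map_pow, Polynomial.map_pow]
  · rw [← hH0, ← map_zero α, eval_map, eval₂_at_apply]

end Pool.Agent.AIC
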