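import Pool.Agent.AIC.HType94

/-! MP_313bb4, stage 9: heights and residue fields in finite extensions and quotients. -/

set_option autoImplicit false
set_option linter.style.haveILetI false

namespace Pool.Agent.AIC

open Polynomial IsLocalRing

open scoped TensorProduct

/-- the height of a prime over `P` in an integral extension is at most the height of `P`. -/
theorem height_le_of_comap94 {R T : Type*} [CommRing R] [CommRing T] [Algebra R T]
    [Algebra.IsIntegral R T] (n : ℕ) :
    ∀ (P' : Ideal T) [P'.IsPrime], (P'.comap (algebraMap R T)).height ≤ n → P'.height ≤ n := by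
  induction n with
  | zero =>
    intro P' hP' h
    rw [Ideal.height_le_iff]
    intro q hq hlt
    haveI := hq
    exfalso
    have h1 : q.comap (algebraMap R T) < P'.comap (algebraMap R T) :=
      Ideal.IsIntegral.comap_lt_comap (R := R) hlt
    have h2 := (Ideal.height_le_iff (n := 0)).1 h _ (Ideal.comap_isPrime (algebraMap R T) q) h1
    exact absurd h2 (by simp)
  | succ n ih =>
    intro P' hP' h
    rw [Ideal.height_le_iff]
    intro q hq hlt
    haveI := hq
    have h1 : q.comap (algebraMap R T) < P'.comap (algebraMap R T) :=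
      Ideal.IsIntegral.comap_lt_comap (R := R) hlt
    have h2 := (Ideal.height_le_iff (n := n + 1)).1 h _ (Ideal.comap_isPrime (algebraMap R T) q) h1
    have h3 : (q.comap (algebraMap R T)).height ≤ n := by
      rw [← ENat.lt_add_one_iff (ENat.natCast_ne_top n)]
      exact_mod_cast h2
    have h4 := ih q h3
    calc q.height ≤ (n : ℕ∞) := h4
      _ < ((n + 1 : ℕ) : ℕ∞) := by exact_mod_cast Nat.lt_succ_self n

/-- the height drops in a quotient by a nonzero prime. -/
theorem height_quotient94 {R : Type*} [CommRing R] [IsDomain R] (q : Ideal R) [q.IsPrime]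
    (hq0 : q ≠ ⊥) (n : ℕ) :
    ∀ (P' : Ideal (R ⧸ q)) [P'.IsPrime], (P'.comap (Ideal.Quotient.mk q)).height ≤ (n + 1 : ℕ) →
      P'.height ≤ n := by
  have hlt' : ∀ (Q' P' : Ideal (R ⧸ q)), Q' < P' →
      Q'.comap (Ideal.Quotient.mk q) < P'.comap (Ideal.Quotient.mk q) := by
    intro Q' P' h
    refine lt_of_le_of_ne (Ideal.comap_mono h.le) fun he => ?_
    exact h.ne (Ideal.comap_injective_of_surjective _ Ideal.Quotient.mk_surjective he)
  have hle : ∀ Q' : Ideal (R ⧸ q), q ≤ Q'.comap (Ideal.Quotient.mk q) := by
    intro Q' x hx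
    rw [Ideal.mem_comap, Ideal.Quotient.eq_zero_iff_mem.2 hx]
    exact Q'.zero_mem
  induction n with
  | zero =>
    intro P' hP' h
    rw [Ideal.height_le_iff]
    intro Q hQ hlt
    haveI := hQ
    exfalso
    have h2 := (Ideal.height_le_iff (n := 0 + 1)).1 h _
      (Ideal.comap_isPrime (Ideal.Quotient.mk q) Q) (hlt' Q P' hlt)
    have h3 : (Q.comap (Ideal.Quotient.mk q)).height = 0 := by
      have h4 : (Q.comap (Ideal.Quotient.mk q)).height < 1 := by exact_mod_cast h2
      exact Order.lt_one_iff.1 h4
    have h5 := Ideal.height_eq_zero_iff_eq_bot.1 h3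
    exact hq0 (le_bot_iff.1 (h5 ▸ hle Q))
  | succ n ih =>
    intro P' hP' h
    rw [Ideal.height_le_iff]
    intro Q hQ hlt
    haveI := hQ
    have h2 := (Ideal.height_le_iff (n := n + 1 + 1)).1 h _
      (Ideal.comap_isPrime (Ideal.Quotient.mk q) Q) (hlt' Q P' hlt)
    have h3 : (Q.comap (Ideal.Quotient.mk q)).height ≤ (n + 1 : ℕ) := by
      rw [← ENat.lt_add_one_iff (ENat.natCast_ne_top (n + 1))]
      exact_mod_cast h2
    have h4 := ih Q h3
    calc Q.height ≤ (n : ℕ∞) := h4
      _ < ((n + 1 : ℕ) : ℕ∞) := by exact_mod_cast Nat.lt_succ_self n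

/-- H-type is invariant under isomorphism. -/
theorem HType.of_ringEquiv94 {k k' : Type} [Field k] [Field k'] (e : k ≃+* k') (h : HType k) :
    HType k' := by
  letI alg : Algebra k k' := e.toRingHom.toAlgebra
  haveI : FiniteDimensional k k' := by
    refine Module.Finite.of_surjective (LinearMap.toSpanSingleton k k' 1) fun y => ⟨e.symm y, ?_⟩
    rw [LinearMap.toSpanSingleton_apply, Algebra.smul_def, mul_one]
    exact e.apply_symm_apply y
  exact h.finite_ext94 k'

/-- H-type passes from `Frac A` to `Frac B` for `B` finite over `A`. -/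
theorem HType.of_finite94 {A B : Type} [CommRing A] [IsDomain A] [CommRing B] [IsDomain B]
    [Algebra A B] [Module.Finite A B] [FaithfulSMul A B] (h : HType (FractionRing A)) :
    HType (FractionRing B) := by
  have hinj : Function.Injective (algebraMap A (FractionRing B)) := by
    rw [IsScalarTower.algebraMap_eq A B (FractionRing B)]
    exact (IsFractionRing.injective B (FractionRing B)).comp
      (FaithfulSMul.algebraMap_injective A B)
  let g : FractionRing A →+* FractionRing B := IsFractionRing.lift hinj
  letI ag : Algebra (FractionRing A) (FractionRing B) := g.toAlgebra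
  haveI : IsScalarTower A (FractionRing A) (FractionRing B) :=
    IsScalarTower.of_algebraMap_eq fun x => (IsFractionRing.lift_algebraMap hinj x).symm
  haveI : FiniteDimensional (FractionRing A) (FractionRing B) := by
    let φ : TensorProduct A (FractionRing A) B →ₐ[FractionRing A] FractionRing B :=
      Algebra.TensorProduct.lift (Algebra.ofId (FractionRing A) (FractionRing B))
        (IsScalarTower.toAlgHom A B (FractionRing B)) (fun _ _ => Commute.all _ _)
    refine Module.Finite.of_surjective φ.toLinearMap fun x => ?_
    obtain ⟨b, b', hb', hx⟩ := IsFractionRing.div_surjective (A := B) x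
    obtain ⟨a, ha, c, hc⟩ := (Algebra.IsIntegral.isIntegral (R := A) b').isAlgebraic.exists_nonzero_dvd
      hb'
    refine ⟨(algebraMap A (FractionRing A) a)⁻¹ ⊗ₜ[A] (b * c), ?_⟩
    have h1 : φ ((algebraMap A (FractionRing A) a)⁻¹ ⊗ₜ[A] (b * c)) =
        (algebraMap A (FractionRing B) a)⁻¹ * algebraMap B (FractionRing B) (b * c) := by
      rw [Algebra.TensorProduct.lift_tmul, IsScalarTower.coe_toAlgHom', Algebra.ofId_apply,
        map_inv₀, ← IsScalarTower.algebraMap_apply]
    have h2 : algebraMap A (FractionRing B) a =
        algebraMap B (FractionRing B) b' * algebraMap B (FractionRing B) c := by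
      rw [IsScalarTower.algebraMap_apply A B (FractionRing B), hc, map_mul]
    have h3 : algebraMap A (FractionRing B) a ≠ 0 := by
      intro h0
      exact ha (hinj (h0.trans (map_zero _).symm))
    have h4 : algebraMap B (FractionRing B) b' ≠ 0 := by
      intro h0
      apply h3
      rw [h2, h0, zero_mul]
    have h5 : algebraMap B (FractionRing B) c ≠ 0 := by
      intro h0
      apply h3
      rw [h2, h0, mul_zero]
    rw [AlgHom.toLinearMap_apply, h1, h2, ← hx, map_mul]
    field_simp
  exact h.finite_ext94 (FractionRing B)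

/-- H-type of the fraction field is invariant under isomorphism of domains. -/
theorem HType.of_equiv94 {A B : Type} [CommRing A] [IsDomain A] [CommRing B] [IsDomain B]
    (e : A ≃+* B) (h : HType (FractionRing A)) : HType (FractionRing B) := by
  letI alg : Algebra A B := e.toRingHom.toAlgebra
  haveI : Module.Finite A B := by
    refine Module.Finite.of_surjective (LinearMap.toSpanSingleton A B 1) fun y => ⟨e.symm y, ?_⟩
    rw [LinearMap.toSpanSingleton_apply, Algebra.smul_def, mul_one]
    exact e.apply_symm_apply y
  haveI : FaithfulSMul A B := by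
    rw [faithfulSMul_iff_algebraMap_injective]
    exact e.injective
  exact h.of_finite94

/-- residue fields in a finite extension: H-type goes up. -/
theorem HType.residue94 {R T : Type} [CommRing R] [CommRing T] [Algebra R T] [Module.Finite R T]
    (q' : Ideal T) [q'.IsPrime]
    (h : HType (FractionRing (R ⧸ q'.comap (algebraMap R T)))) :
    HType (FractionRing (T ⧸ q')) := by
  haveI : Module.Finite R (T ⧸ q') := inferInstance
  haveI : IsScalarTower R (R ⧸ q'.comap (algebraMap R T)) (T ⧸ q') :=
    IsScalarTower.of_algebraMap_eq fun x => rfl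
  haveI : Module.Finite (R ⧸ q'.comap (algebraMap R T)) (T ⧸ q') :=
    Module.Finite.of_restrictScalars_finite R _ _
  haveI : FaithfulSMul (R ⧸ q'.comap (algebraMap R T)) (T ⧸ q') := by
    rw [faithfulSMul_iff_algebraMap_injective]
    exact Ideal.algebraMap_quotient_injective
  exact h.of_finite94

/-- residue fields in a quotient. -/
theorem HType.residue_quotient94 {R : Type} [CommRing R] (q : Ideal R) (r : Ideal (R ⧸ q))
    [r.IsPrime] (h : HType (FractionRing (R ⧸ r.comap (Ideal.Quotient.mk q)))) :
    HType (FractionRing ((R ⧸ q) ⧸ r)) := by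
  let f : R →+* (R ⧸ q) ⧸ r := (Ideal.Quotient.mk r).comp (Ideal.Quotient.mk q)
  have hf : Function.Surjective f :=
    Ideal.Quotient.mk_surjective.comp Ideal.Quotient.mk_surjective
  have hk : r.comap (Ideal.Quotient.mk q) = RingHom.ker f := by
    ext x
    rw [Ideal.mem_comap, RingHom.mem_ker, RingHom.comp_apply, Ideal.Quotient.eq_zero_iff_mem]
  exact h.of_equiv94 ((Ideal.quotEquivOfEq hk).trans (RingHom.quotientKerEquivOfSurjective hf))

/-- **the package for finite extensions**: if all residue fields at the primes strictly below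
`P` are of H-type, so are those at the primes strictly below a prime `P'` over `P`. -/
theorem HType.below94 {R T : Type} [CommRing R] [CommRing T] [Algebra R T] [Module.Finite R T]
    (P' : Ideal T) [P'.IsPrime]
    (h : ∀ (q : Ideal R) [q.IsPrime], q < P'.comap (algebraMap R T) → HType (FractionRing (R ⧸ q))) :
    ∀ (q' : Ideal T) [q'.IsPrime], q' < P' → HType (FractionRing (T ⧸ q')) := by
  intro q' hq' hlt
  haveI : Algebra.IsIntegral R T := Algebra.IsIntegral.of_finite R T
  exact HType.residue94 q' (h _ (Ideal.IsIntegral.comap_lt_comap (R := R) hlt))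

/-- **the package for quotients**. -/
theorem HType.below_quotient94 {R : Type} [CommRing R] (q : Ideal R)
    (P' : Ideal (R ⧸ q)) [P'.IsPrime]
    (h : ∀ (r : Ideal R) [r.IsPrime], r < P'.comap (Ideal.Quotient.mk q) →
      HType (FractionRing (R ⧸ r))) :
    ∀ (r' : Ideal (R ⧸ q)) [r'.IsPrime], r' < P' → HType (FractionRing ((R ⧸ q) ⧸ r')) := by
  intro r' hr' hlt
  refine HType.residue_quotient94 q r' (h _ ?_)
  refine lt_of_le_of_ne (Ideal.comap_mono hlt.le) fun he => ?_
  exact hlt.ne (Ideal.comap_injective_of_surjective _ Ideal.Quotient.mk_surjective he)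

end Pool.Agent.AIC
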