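import Pool.Agent.AIC.Exist

/-! jets_surj, det_ne_zero_field and exists_F are in Exist.lean. -/
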