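import Pool.Agent.AIC.TheoremHstar83
import Pool.Agent.AIC.InterpLin83
import Pool.Agent.AIC.K3h94
import Pool.Agent.AIC.Star34

/-! MP_313bb4, stage 4: Theorem K. NIP domains with algebraically closed fraction field and
semilocal integral closure are Henselian local rings. -/

set_option autoImplicit false

namespace Pool.Agent.AIC

open Finset Polynomial IsLocalRing

/-- one of the primes 2, 3, 5 is outside both maximal ideals -/
theorem exists_q34 {R : Type} [CommRing R] (m₁ m₂ : Ideal R) (h1 : m₁.IsMaximal)
    (h2 : m₂.IsMaximal) :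
    ∃ q : ℕ, (q = 2 ∨ q = 3 ∨ q = 5) ∧ (q : R) ∉ m₁ ∧ (q : R) ∉ m₂ := by
  have key : ∀ m : Ideal R, m.IsMaximal →
      ¬ ((2 : R) ∈ m ∧ (3 : R) ∈ m) ∧ ¬ ((2 : R) ∈ m ∧ (5 : R) ∈ m) ∧
      ¬ ((3 : R) ∈ m ∧ (5 : R) ∈ m) := by
    intro m hm
    have hne := hm.ne_top
    refine ⟨fun h => hne ?_, fun h => hne ?_, fun h => hne ?_⟩
    · rw [Ideal.eq_top_iff_one]
      have := sub_mem h.2 h.1
      norm_num at this
      exact this
    · rw [Ideal.eq_top_iff_one]
      have := sub_mem h.2 (Ideal.mul_mem_left m 2 h.1)
      norm_num at this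
      exact this
    · rw [Ideal.eq_top_iff_one]
      have := sub_mem (Ideal.mul_mem_left m 2 h.1) h.2
      norm_num at this
      exact this
  have k1 := key m₁ h1
  have k2 := key m₂ h2
  by_cases a2 : (2 : R) ∈ m₁ ∨ (2 : R) ∈ m₂
  · by_cases a3 : (3 : R) ∈ m₁ ∨ (3 : R) ∈ m₂
    · refine ⟨5, by norm_num, ?_, ?_⟩
      · intro h5
        rw [Nat.cast_ofNat] at h5
        tauto
      · intro h5
        rw [Nat.cast_ofNat] at h5
        tauto
    · push Not at a3
      exact ⟨3, by norm_num, by rw [Nat.cast_ofNat]; exact a3.1, by rw [Nat.cast_ofNat]; exact a3.2⟩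
  · push Not at a2
    exact ⟨2, by norm_num, by rw [Nat.cast_ofNat]; exact a2.1, by rw [Nat.cast_ofNat]; exact a2.2⟩

/-- integral roots of unity of prime order in an algebraically closed field -/
theorem exists_zeta34 {R K : Type} [CommRing R] [Field K] [Algebra R K] [IsAlgClosed K] (q : ℕ)
    (hq : q.Prime) : ∃ z : K, IsIntegral R z ∧ ∑ j ∈ range q, z ^ j = 0 := by
  have : Fact q.Prime := ⟨hq⟩
  obtain ⟨z, hz⟩ := IsAlgClosed.exists_root (cyclotomic q K) (by
    rw [degree_cyclotomic, Nat.totient_prime hq]
    have := hq.two_le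
    intro h
    have h2 : q - 1 = 0 := by exact_mod_cast h
    omega)
  refine ⟨z, ⟨cyclotomic q R, cyclotomic.monic q R, ?_⟩, ?_⟩
  · rw [← eval_map, map_cyclotomic]
    exact hz
  · rw [IsRoot.def, cyclotomic_prime, eval_geom_sum] at hz
    exact hz

theorem theoremK {R K : Type} [CommRing R] [IsDomain R] [FirstOrder.Ring.CompatibleRing R]
    [Field K] [Algebra R K] [IsFractionRing R K] [IsAlgClosed K]
    (hN : NIPRing R)
    (hfin : {n : Ideal (integralClosure R K) | n.IsMaximal}.Finite)
    (hinf : ∀ M : Ideal R, M.IsMaximal → Infinite (R ⧸ M)) : HenselianLocalRing R := by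
  classical
  obtain ⟨z2, hz2i, hz2⟩ := exists_zeta34 (R := R) (K := K) 2 (by norm_num)
  obtain ⟨z3, hz3i, hz3⟩ := exists_zeta34 (R := R) (K := K) 3 (by norm_num)
  obtain ⟨z5, hz5i, hz5⟩ := exists_zeta34 (R := R) (K := K) 5 (by norm_num)
  obtain ⟨T, hTfin, hTF, hTle, hTloc⟩ := exists_unibranch hfin ({z2, z3, z5} : Finset K) (by
    intro x hx
    simp only [Finset.mem_insert, Finset.mem_singleton] at hx
    rcases hx with rfl | rfl | rfl
    · exact hz2i
    · exact hz3i
    · exact hz5i)
  have hTK : IsFractionRing T K := isFractionRing_subalgebra T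
  let _ : FirstOrder.Ring.CompatibleRing T := FirstOrder.Ring.compatibleRingOfRing T
  have hNT : NIPRing T := nip_subalgebra T hN
  have hTint : Algebra.IsIntegral R T := Algebra.IsIntegral.of_finite R T
  have hζ : ∀ q : ℕ, (q = 2 ∨ q = 3 ∨ q = 5) → ∃ ζ : T, ∑ j ∈ range q, ζ ^ j = 0 := by
    have aux : ∀ (q : ℕ) (z : K) (hz : z ∈ T), ∑ j ∈ range q, z ^ j = 0 →
        ∃ ζ : T, ∑ j ∈ range q, ζ ^ j = 0 := by
      intro q z hz h
      refine ⟨⟨z, hz⟩, ?_⟩
      apply Subtype.val_injective
      rw [AddSubmonoidClass.coe_finsetSum]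
      exact h
    rintro q (rfl | rfl | rfl)
    · exact aux 2 z2 (hTF z2 (by simp)) hz2
    · exact aux 3 z3 (hTF z3 (by simp)) hz3
    · exact aux 5 z5 (hTF z5 (by simp)) hz5
  have hhens : ∀ (M : Ideal T) [M.IsMaximal], HenselianLocalRing (Localization.AtPrime M) := by
    intro M hM
    have key : ∀ (A : Type) [CommRing A] [IsDomain A] [Algebra T A] [IsLocalization.AtPrime A M],
        HenselianLocalRing A := by
      intro A _ _ _ _
      have h1 : IsLocalRing A := IsLocalization.AtPrime.isLocalRing A M
      have h2 : IsAlgClosed (FractionRing A) := isAlgClosed_loc T M A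
      exact henselian_of_unibranch34 (K := FractionRing A) (hTloc M A)
    exact key _
  have hTinf : ∀ N : Ideal T, N.IsMaximal → Infinite (T ⧸ N) := by
    intro N hNmax
    have h1 : (N.comap (algebraMap R T)).IsMaximal :=
      Ideal.isMaximal_comap_of_isIntegral_of_isMaximal N
    have h2 := hinf _ h1
    exact Infinite.of_injective (Ideal.quotientMap N (algebraMap R T) le_rfl)
      Ideal.quotientMap_injective
  obtain ⟨M₀, hM₀⟩ := Ideal.exists_maximal T
  have hTh : HenselianLocalRing T := by
    refine theoremHstar T hNT M₀ (hhens M₀) ?_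
    intro N hNmax _
    obtain ⟨q, hq, hq1, hq2⟩ := exists_q34 M₀ N hM₀ hNmax
    refine ⟨Or.inr (hhens N), hTinf _ hM₀, hTinf _ hNmax, q, ?_, hq1, hq2, hζ q hq⟩
    rcases hq with rfl | rfl | rfl <;> norm_num
  -- the integral closure is local
  have hTl : IsLocalRing T := inferInstance
  have hAt : IsLocalization.AtPrime T (maximalIdeal T) := by
    refine IsLocalization.self ?_
    intro x hx
    by_contra hn
    exact hx hn
  have hU1 : IsLocalRing (integralClosure T (FractionRing T)) := hTloc (maximalIdeal T) T
  have hU2 : IsLocalRing (integralClosure T K) := closure_local34 hU1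
  have hU3 : IsLocalRing (integralClosure R K) := by
    let j : integralClosure R K →+* integralClosure T K :=
      { toFun := fun s => ⟨(s : K), by
          have h0 : IsIntegral R (s : K) := s.2
          exact h0.tower_top⟩
        map_one' := rfl
        map_mul' := fun _ _ => rfl
        map_zero' := rfl
        map_add' := fun _ _ => rfl }
    have hj : Function.Bijective j := by
      constructor
      · intro x y hxy
        exact Subtype.ext (congrArg (fun z : integralClosure T K => (z : K)) hxy)
      · intro y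
        have h0 : IsIntegral T (y : K) := y.2
        exact ⟨⟨(y : K), isIntegral_trans (R := R) (A := T) _ h0⟩, Subtype.ext rfl⟩
    exact (RingEquiv.ofBijective j hj).symm.isLocalRing
  have hRl : IsLocalRing R := by
    have hinj : Function.Injective (algebraMap R (integralClosure R K)) := by
      intro x y hxy
      apply IsFractionRing.injective R K
      exact congrArg (fun z : integralClosure R K => (z : K)) hxy
    have h1 : IsLocalHom (algebraMap R (integralClosure R K)) :=
      RingHom.IsIntegral.isLocalHom (algebraMap_isIntegral_iff.mpr inferInstance) hinj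
    exact RingHom.domain_isLocalRing (algebraMap R (integralClosure R K))
  exact henselian_of_unibranch34 (K := K) hU3

end Pool.Agent.AIC
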