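import Pool.Agent.AIC.PairM46
import Pool.Agent.AIC.DefsQ82
import Pool.Agent.AIC.FinExt82

/-!
# Theorem M: the pair form for the general class of fields, from the local form
-/

set_option autoImplicit false
set_option linter.style.haveILetI false

namespace Pool.Agent.AIC

open Finset Polynomial IsLocalRing

section core

attribute [local instance] isDomain_L

variable {T F : Type} [CommRing T] [IsDomain T] [Field F] [Algebra T F]

/-- the core of the pair form -/
theorem pairQ_core82 {b : Prop} (hM : LocMb b) [IsFractionRing T F] [FirstOrder.Ring.CompatibleRing T]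
    (hN : NIPRing T) (P Q : Ideal T) [hP : P.IsPrime] [hQ : Q.IsPrime]
    (hiP : b ∨ Infinite (T ⧸ P)) (hiQ : b ∨ Infinite (T ⧸ Q))
    (hfinP : {N : Ideal (integralClosure T F) | Over P N}.Finite)
    (hfinQ : {N : Ideal (integralClosure T F) | Over Q N}.Finite)
    (q : ℕ) (hq : q.Prime) (hqP : (q : T) ∉ P) (hqQ : (q : T) ∉ Q)
    (ζ : T) (hζ : ∑ j ∈ range q, ζ ^ j = 0)
    (hS : ∃ S : Set F, S.Finite ∧ ∀ x : F, ∃ s ∈ S, ∃ y : F, x = s * y ^ q) :
    P ≤ Q ∨ Q ≤ P := by
  classical
  by_contra hcon
  rw [not_or] at hcon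
  obtain ⟨hPQ, hQP⟩ := hcon
  have hinjF : Function.Injective (algebraMap T F) := IsFractionRing.injective T F
  have hu : ∀ s : Scomp P Q, IsUnit (algebraMap T F s) := by
    intro s
    rw [isUnit_iff_ne_zero]
    intro h
    have h1 : (s : T) = 0 := hinjF (by rw [h, map_zero])
    exact s.2.1 (h1 ▸ P.zero_mem)
  let φ : Localization (Scomp P Q) →+* F := IsLocalization.lift (M := Scomp P Q) hu
  letI alg : Algebra (Localization (Scomp P Q)) F := φ.toAlgebra
  have hφ : ∀ x : T, φ (algebraMap T (Localization (Scomp P Q)) x) = algebraMap T F x :=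
    fun x => IsLocalization.lift_eq hu x
  haveI htow : IsScalarTower T (Localization (Scomp P Q)) F :=
    IsScalarTower.of_algebraMap_eq fun x => (hφ x).symm
  haveI hfr : IsFractionRing (Localization (Scomp P Q)) F :=
    IsFractionRing.isFractionRing_of_isDomain_of_isLocalization (Scomp P Q)
      (Localization (Scomp P Q)) F
  have hm1 := max_left P Q hPQ
  have hm2 := max_right P Q hQP
  have hall : ∀ M : Ideal (Localization (Scomp P Q)), M.IsMaximal →
      M = P.map (algebraMap T (Localization (Scomp P Q))) ∨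
      M = Q.map (algebraMap T (Localization (Scomp P Q))) := by
    intro M hM
    rcases le_or_le P Q M hM.ne_top with h | h
    · exact Or.inl (hM.eq_of_le hm1.ne_top h)
    · exact Or.inr (hM.eq_of_le hm2.ne_top h)
  letI : FirstOrder.Ring.CompatibleRing (Localization (Scomp P Q)) :=
    FirstOrder.Ring.compatibleRingOfRing _
  have hNL : NIPRing (Localization (Scomp P Q)) := nip_two hN P Q
  have hqu : IsUnit ((q : ℕ) : Localization (Scomp P Q)) := by
    by_contra hn
    obtain ⟨M, hM, hqM⟩ := exists_max_ideal_of_mem_nonunits hn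
    rcases hall M hM with rfl | rfl
    · exact hqP ((mem_map_left P Q _).mp (by rwa [map_natCast]))
    · exact hqQ ((mem_map_right P Q _).mp (by rwa [map_natCast]))
  obtain ⟨S, hSf, hS⟩ := hS
  have hloc : IsLocalRing (Localization (Scomp P Q)) := by
    refine hM (K := F) hNL q hq hqu (algebraMap T _ ζ) (by
      have := congrArg (algebraMap T (Localization (Scomp P Q))) hζ
      simpa [map_sum, map_pow] using this) ?_
      (finite_max_closure_loc46 P Q hPQ hQP hfinP hfinQ) ?_
    · refine ⟨hSf.toFinset, fun u _ => ?_⟩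
      obtain ⟨s, hs, y, hy⟩ := hS (algebraMap _ F u)
      exact ⟨s, hSf.mem_toFinset.mpr hs, y, hy⟩
    · rcases hiP with hb | hiP
      · exact Or.inl hb
      rcases hiQ with hb | hiQ
      · exact Or.inl hb
      right
      intro m hm
      rcases hall m hm with rfl | rfl
      · exact inf_left P Q hiP
      · exact inf_right P Q hiQ
  have h1 := IsLocalRing.eq_maximalIdeal hm1
  have h2 := IsLocalRing.eq_maximalIdeal hm2
  exact ne_left_right P Q hPQ (h1.trans h2.symm)

end core

/-- one step, through a finite extension with a root of unity -/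
theorem pairQ_step82 {b : Prop} (hM : LocMb b)
    {R K F : Type} [CommRing R] [IsDomain R] [FirstOrder.Ring.CompatibleRing R]
    [Field K] [Algebra R K] [IsFractionRing R K] (hN : NIPRing R) (P Q : Ideal R)
    [hP : P.IsPrime] [hQ : Q.IsPrime] [Field F] [Algebra K F] [Algebra R F]
    [IsScalarTower R K F] [FiniteDimensional K F]
    (hiP : b ∨ Infinite (R ⧸ P)) (hiQ : b ∨ Infinite (R ⧸ Q))
    (q : ℕ) (hq : q.Prime) (hqP : (q : R) ∉ P) (hqQ : (q : R) ∉ Q)
    (ζ : F) (hζi : IsIntegral R ζ) (hζs : ∑ j ∈ range q, ζ ^ j = 0)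
    (hfinP : {N : Ideal (integralClosure R K) | Over P N}.Finite)
    (hfinQ : {N : Ideal (integralClosure R K) | Over Q N}.Finite)
    (hS : ∃ S : Set F, S.Finite ∧ ∀ x : F, ∃ s ∈ S, ∃ y : F, x = s * y ^ q) :
    P ≤ Q ∨ Q ≤ P := by
  classical
  have hinjK : Function.Injective (algebraMap R K) := IsFractionRing.injective R _
  have hinjF : Function.Injective (algebraMap R F) := by
    rw [IsScalarTower.algebraMap_eq R K F]
    exact (algebraMap K F).injective.comp hinjK
  haveI : FaithfulSMul R F := (faithfulSMul_iff_algebraMap_injective R F).mpr hinjF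
  obtain ⟨s, θ, hθi, hθs⟩ := exists_integral_span R K F
  obtain ⟨T, hTfin, hE, hiso⟩ := exists_isolating_set (R := R) (F := F)
    ({N | Over P N} ∪ {N | Over Q N})
    ((finite_over_ext82 (K := K) P hfinP).union (finite_over_ext82 (K := K) Q hfinQ))
    (insert ζ (Set.range θ)) ((Set.finite_range θ).insert ζ) (by
      intro x hx
      rcases hx with hx | ⟨i, hi⟩
      · rw [hx]; exact hζi
      · rw [← hi]; exact hθi i)
  have hζT : ζ ∈ T := hE (Set.mem_insert ζ _)
  have hθT : ∀ i, ∃ t : T, algebraMap T F t = θ i := fun i =>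
    ⟨⟨θ i, hE (Set.mem_insert_of_mem _ ⟨i, rfl⟩)⟩, rfl⟩
  haveI hTint : Algebra.IsIntegral R T := inferInstance
  have hinjRT : Function.Injective (algebraMap R T) := by
    intro x y hxy
    exact hinjF (congrArg Subtype.val hxy)
  have hinjTF : Function.Injective (algebraMap T F) := Subtype.val_injective
  obtain ⟨P', hP'p, hP'P⟩ := exists_prime_over hinjRT P
  obtain ⟨Q', hQ'p, hQ'Q⟩ := exists_prime_over hinjRT Q
  haveI := hP'p
  haveI := hQ'p
  letI : FirstOrder.Ring.CompatibleRing T := FirstOrder.Ring.compatibleRingOfRing T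
  have hNT : NIPRing T := nip_subalgebra_plus (K := K) T hN
  haveI hfrac : IsFractionRing T F := isFractionRing_of_basis R hinjTF θ hθT hθs
  have hfP' : {N : Ideal (integralClosure T F) | Over P' N}.Finite := by
    refine Set.Subsingleton.finite fun N hN N' hN' => hiso P' N N' hN hN'
      (Or.inl (over_comap P P' hP'P N hN)) (Or.inl (over_comap P P' hP'P N' hN'))
  have hfQ' : {N : Ideal (integralClosure T F) | Over Q' N}.Finite := by
    refine Set.Subsingleton.finite fun N hN N' hN' => hiso Q' N N' hN hN'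
      (Or.inr (over_comap Q Q' hQ'Q N hN)) (Or.inr (over_comap Q Q' hQ'Q N' hN'))
  have hinf : ∀ (I : Ideal R) (I' : Ideal T), (∀ r : R, algebraMap R T r ∈ I' ↔ r ∈ I) →
      Infinite (R ⧸ I) → Infinite (T ⧸ I') := by
    intro I I' hI hi
    have hle : I ≤ I'.comap (algebraMap R T) := fun r hr => (hI r).mpr hr
    have hinj : Function.Injective (Ideal.quotientMap I' (algebraMap R T) hle) := by
      apply Ideal.quotientMap_injective'
      intro x hx
      exact (hI x).mp hx
    exact Infinite.of_injective _ hinj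
  have hres := pairQ_core82 (T := T) (F := F) hM hNT P' Q' (hiP.imp id (hinf P P' hP'P))
    (hiQ.imp id (hinf Q Q' hQ'Q)) hfP' hfQ' q hq (fun h => hqP ((hP'P _).mp (by rwa [map_natCast])))
    (fun h => hqQ ((hQ'Q _).mp (by rwa [map_natCast]))) ⟨ζ, hζT⟩ (by
        apply Subtype.ext
        have h1 : ((∑ j ∈ range q, (⟨ζ, hζT⟩ : T) ^ j : T) : F) = ∑ j ∈ range q, ζ ^ j := by
          simp
        rw [h1, hζs]
        rfl) hS
  rcases hres with h | h
  · left
    intro x hx
    exact (hQ'Q x).mp (h ((hP'P x).mpr hx))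
  · right
    intro x hx
    exact (hP'P x).mp (h ((hQ'Q x).mpr hx))

/-- **the pair form of Theorem M** from the local form -/
theorem pairQ82 {b : Prop} (hM : LocMb b) : PairQb b := by
  intro R K _ _ _ _ _ _ hN hT P Q hP hQ hiP hiQ hfinP hfinQ
  obtain ⟨q, hqinj, hqg⟩ := hT K
  obtain ⟨i, hqP, hqQ⟩ := exists_good_prime82 P Q hP hQ q hqinj fun i => (hqg i).1
  obtain ⟨hq, F, _, _, _, ⟨ζ, hζs⟩, hS⟩ := hqg i
  letI : Algebra R F := ((algebraMap K F).comp (algebraMap R K)).toAlgebra
  haveI : IsScalarTower R K F := IsScalarTower.of_algebraMap_eq fun x => rfl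
  have hζi : IsIntegral R ζ := by
    refine ⟨∑ j ∈ range (q i), X ^ j, ?_, ?_⟩
    · exact monic_geom_sum_X hq.ne_zero
    · rw [eval₂_finsetSum]
      simpa using hζs
  exact pairQ_step82 hM (F := F) hN P Q hiP hiQ (q i) hq hqP hqQ ζ hζi hζs hfinP hfinQ hS

end Pool.Agent.AIC
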