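import Pool.Agent.AIC.GalFin46

/-! MP_313bb4, stage 8: finitely many maximal ideals of the integral closure in a finite Galois
extension of the fraction field. -/

set_option autoImplicit false

namespace Pool.Agent.AIC

/-- if `integralClosure R K` has finitely many maximal ideals, so has `integralClosure R F`. -/
theorem finite_maximal_galois94 (R K F : Type) [CommRing R] [IsDomain R] [Field K] [Algebra R K]
    [IsFractionRing R K] [Field F] [Algebra K F] [Algebra R F] [IsScalarTower R K F]
    [FiniteDimensional K F] [IsGalois K F]
    (hfin : {N : Ideal (integralClosure R K) | N.IsMaximal}.Finite) :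
    {N : Ideal (integralClosure R F) | N.IsMaximal}.Finite := by
  haveI : IsFractionRing (integralClosure R K) K := isFractionRing_subalgebra (integralClosure R K)
  haveI : IsIntegrallyClosed (integralClosure R K) :=
    integralClosure.isIntegrallyClosedOfFiniteExtension K
  haveI : IsScalarTower R (integralClosure R K) F := by
    refine IsScalarTower.of_algebraMap_eq fun x => ?_
    change algebraMap R F x = algebraMap K F (algebraMap R K x)
    exact IsScalarTower.algebraMap_apply R K F x
  haveI : Algebra.IsIntegral R (integralClosure R K) := inferInstance
  have hbij := closureMap_bijective (R := R) (T := integralClosure R K) (F := F)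
  have hU : (⋃ q ∈ {N : Ideal (integralClosure R K) | N.IsMaximal},
      {N : Ideal (integralClosure (integralClosure R K) F) | Over q N}).Finite :=
    hfin.biUnion fun q _ => finite_over_normal (integralClosure R K) K F q
  refine (hU.image (fun N => N.comap (closureMap R (integralClosure R K) F))).subset ?_
  intro N hN
  let e := RingEquiv.ofBijective (closureMap R (integralClosure R K) F) hbij
  have he : ∀ x, e x = closureMap R (integralClosure R K) F x := fun x => rfl
  refine ⟨N.comap (e.symm : integralClosure (integralClosure R K) F →+* integralClosure R F),
    ?_, ?_⟩
  · rw [Set.mem_iUnion₂]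
    haveI : N.IsMaximal := hN
    set N' := N.comap (e.symm : integralClosure (integralClosure R K) F →+* integralClosure R F)
      with hN'
    haveI hm : N'.IsMaximal := Ideal.comap_isMaximal_of_surjective
      (e.symm : integralClosure (integralClosure R K) F →+* integralClosure R F)
      e.symm.surjective
    haveI hp : N'.IsPrime := hm.isPrime
    refine ⟨N'.comap (algebraMap (integralClosure R K)
      (integralClosure (integralClosure R K) F)), ?_, ?_⟩
    · exact Ideal.isMaximal_comap_of_isIntegral_of_isMaximal N'
    · exact ⟨hp, fun t => Iff.rfl⟩
  · ext x
    change e.symm (closureMap R (integralClosure R K) F x) ∈ N ↔ x ∈ N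
    rw [← he, RingEquiv.symm_apply_apply]

end Pool.Agent.AIC
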