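import Pool.Agent.AIC.TheoremG82
import Pool.Agent.AIC.LocNip83

/-! MP_313bb4, Theorem M: the pair form from the local form. -/

set_option autoImplicit false

namespace Pool.Agent.AIC

open Finset Polynomial IsLocalRing

/-- the local form of Theorem M -/
def LocM : Prop :=
  ∀ {R K : Type} [CommRing R] [IsDomain R] [Field K] [Algebra R K] [IsFractionRing R K]
    [FirstOrder.Ring.CompatibleRing R] (_ : NIPRing R)
    (q : ℕ) (_ : q.Prime) (_ : IsUnit (q : R)) (ζ : R) (_ : ∑ j ∈ range q, ζ ^ j = 0)
    (_ : ∃ T : Finset K, ∀ u : R, (∀ m : Ideal R, m.IsMaximal → u - 1 ∈ m) →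
      ∃ g ∈ T, ∃ y : K, algebraMap R K u = g * y ^ q)
    (_ : Finite (MaximalSpectrum (integralClosure R K)))
    (_ : ∀ m : Ideal R, m.IsMaximal → Infinite (R ⧸ m)), IsLocalRing R

/-- one of the primes 2, 3, 5 is outside both primes -/
theorem exists_q_prime235 {R : Type} [CommRing R] (m₁ m₂ : Ideal R) (h1 : m₁.IsPrime)
    (h2 : m₂.IsPrime) : ∃ q : ℕ, (q = 2 ∨ q = 3 ∨ q = 5) ∧ q.Prime ∧ (q : R) ∉ m₁ ∧
      (q : R) ∉ m₂ := by
  have key : ∀ m : Ideal R, m.IsPrime →
      ¬ ((2 : R) ∈ m ∧ (3 : R) ∈ m) ∧ ¬ ((2 : R) ∈ m ∧ (5 : R) ∈ m) ∧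
      ¬ ((3 : R) ∈ m ∧ (5 : R) ∈ m) := by
    intro m hm
    have hne := hm.ne_top
    refine ⟨fun h => hne ?_, fun h => hne ?_, fun h => hne ?_⟩
    · rw [Ideal.eq_top_iff_one]
      have := sub_mem h.2 h.1
      norm_num at this
      exact this
    · rw [Ideal.eq_top_iff_one]
      have := sub_mem h.2 (Ideal.mul_mem_left m 2 h.1)
      norm_num at this
      exact this
    · rw [Ideal.eq_top_iff_one]
      have := sub_mem (Ideal.mul_mem_left m 2 h.1) h.2
      norm_num at this
      exact this
  have k1 := key m₁ h1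
  have k2 := key m₂ h2
  by_cases a2 : (2 : R) ∈ m₁ ∨ (2 : R) ∈ m₂
  · by_cases a3 : (3 : R) ∈ m₁ ∨ (3 : R) ∈ m₂
    · refine ⟨5, by norm_num, by norm_num, ?_, ?_⟩
      · intro h5
        rw [Nat.cast_ofNat] at h5
        tauto
      · intro h5
        rw [Nat.cast_ofNat] at h5
        tauto
    · push Not at a3
      exact ⟨3, by norm_num, by norm_num, by rw [Nat.cast_ofNat]; exact a3.1,
        by rw [Nat.cast_ofNat]; exact a3.2⟩
  · push Not at a2
    exact ⟨2, by norm_num, by norm_num, by rw [Nat.cast_ofNat]; exact a2.1,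
      by rw [Nat.cast_ofNat]; exact a2.2⟩

section core

attribute [local instance] isDomain_L

variable {T F : Type} [CommRing T] [IsDomain T] [Field F] [Algebra T F]

/-- the closure of the localization at two primes is semilocal -/
theorem finite_max_closure_loc46 (P Q : Ideal T) [hP : P.IsPrime] [hQ : Q.IsPrime]
    (hPQ : ¬ P ≤ Q) (hQP : ¬ Q ≤ P) [Algebra (Localization (Scomp P Q)) F]
    [IsScalarTower T (Localization (Scomp P Q)) F]
    (hfinP : {N : Ideal (integralClosure T F) | Over P N}.Finite)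
    (hfinQ : {N : Ideal (integralClosure T F) | Over Q N}.Finite) :
    Finite (MaximalSpectrum (integralClosure (Localization (Scomp P Q)) F)) := by
  have hm1 := max_left P Q hPQ
  have hm2 := max_right P Q hQP
  have hall : ∀ M : Ideal (Localization (Scomp P Q)), M.IsMaximal →
      M = P.map (algebraMap T (Localization (Scomp P Q))) ∨
      M = Q.map (algebraMap T (Localization (Scomp P Q))) := by
    intro M hM
    rcases le_or_le P Q M hM.ne_top with h | h
    · exact Or.inl (hM.eq_of_le hm1.ne_top h)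
    · exact Or.inr (hM.eq_of_le hm2.ne_top h)
  have hover : ∀ n : MaximalSpectrum (integralClosure (Localization (Scomp P Q)) F),
      n.asIdeal.comap (closureMap T (Localization (Scomp P Q)) F) ∈
        ({N : Ideal (integralClosure T F) | Over P N} ∪ {N | Over Q N}) := by
    intro n
    haveI := n.isMaximal
    haveI hp : n.asIdeal.IsPrime := n.isMaximal.isPrime
    have h1 : (n.asIdeal.comap (algebraMap (Localization (Scomp P Q))
        (integralClosure (Localization (Scomp P Q)) F))).IsMaximal :=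
      Ideal.isMaximal_comap_of_isIntegral_of_isMaximal n.asIdeal
    rcases hall _ h1 with h | h
    · left
      refine ⟨Ideal.comap_isPrime _ _, fun t => ?_⟩
      rw [Ideal.mem_comap, closureMap_algebraMap, ← Ideal.mem_comap, h]
      exact mem_map_left P Q t
    · right
      refine ⟨Ideal.comap_isPrime _ _, fun t => ?_⟩
      rw [Ideal.mem_comap, closureMap_algebraMap, ← Ideal.mem_comap, h]
      exact mem_map_right P Q t
  haveI : Finite ↥({N : Ideal (integralClosure T F) | Over P N} ∪ {N | Over Q N}) :=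
    (hfinP.union hfinQ).to_subtype
  refine Finite.of_injective (fun n : MaximalSpectrum (integralClosure _ F) =>
    (⟨_, hover n⟩ : ↥({N : Ideal (integralClosure T F) | Over P N} ∪ {N | Over Q N}))) ?_
  intro n n' hnn
  have h2 : n.asIdeal.comap (closureMap T (Localization (Scomp P Q)) F) =
      n'.asIdeal.comap (closureMap T (Localization (Scomp P Q)) F) := congrArg Subtype.val hnn
  apply MaximalSpectrum.ext
  refine n.isMaximal.eq_of_le n'.isMaximal.ne_top fun b hb => ?_
  obtain ⟨s, hs⟩ := IsIntegral.exists_multiple_integral_of_isLocalization (Scomp P Q)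
    (Rₘ := Localization (Scomp P Q)) (b : F) b.2
  have hx : closureMap T (Localization (Scomp P Q)) F ⟨s • (b : F), hs⟩ =
      algebraMap (Localization (Scomp P Q)) (integralClosure (Localization (Scomp P Q)) F)
        (algebraMap T (Localization (Scomp P Q)) s) * b := by
    apply Subtype.ext
    change (s • (b : F)) = algebraMap (Localization (Scomp P Q)) F
      (algebraMap T (Localization (Scomp P Q)) s) * (b : F)
    rw [← IsScalarTower.algebraMap_apply T (Localization (Scomp P Q)) F]
    exact Algebra.smul_def (R := T) (s : T) (b : F)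
  have h3 : (⟨s • (b : F), hs⟩ : integralClosure T F) ∈
      n.asIdeal.comap (closureMap T (Localization (Scomp P Q)) F) := by
    rw [Ideal.mem_comap, hx]
    exact n.asIdeal.mul_mem_left _ hb
  rw [h2, Ideal.mem_comap, hx] at h3
  rcases n'.isMaximal.isPrime.mem_or_mem h3 with h4 | h4
  · exfalso
    apply n'.isMaximal.ne_top
    refine Ideal.eq_top_of_isUnit_mem _ h4 ?_
    exact (IsLocalization.map_units (Localization (Scomp P Q)) s).map _
  · exact h4

/-- the core of the pair form -/
theorem pairM_core46 (hM : LocM) [IsFractionRing T F] [FirstOrder.Ring.CompatibleRing T]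
    (hN : NIPRing T) (P Q : Ideal T) [hP : P.IsPrime] [hQ : Q.IsPrime]
    (hiP : Infinite (T ⧸ P)) (hiQ : Infinite (T ⧸ Q))
    (hfinP : {N : Ideal (integralClosure T F) | Over P N}.Finite)
    (hfinQ : {N : Ideal (integralClosure T F) | Over Q N}.Finite)
    (q : ℕ) (hq : q.Prime) (hqP : (q : T) ∉ P) (hqQ : (q : T) ∉ Q)
    (ζ : T) (hζ : ∑ j ∈ range q, ζ ^ j = 0)
    (hS : ∃ S : Set F, S.Finite ∧ ∀ x : F, ∃ s ∈ S, ∃ y : F, x = s * y ^ q) :
    P ≤ Q ∨ Q ≤ P := by
  classical
  by_contra hcon
  rw [not_or] at hcon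
  obtain ⟨hPQ, hQP⟩ := hcon
  have hinjF : Function.Injective (algebraMap T F) := IsFractionRing.injective T F
  have hu : ∀ s : Scomp P Q, IsUnit (algebraMap T F s) := by
    intro s
    rw [isUnit_iff_ne_zero]
    intro h
    have h1 : (s : T) = 0 := hinjF (by rw [h, map_zero])
    exact s.2.1 (h1 ▸ P.zero_mem)
  let φ : Localization (Scomp P Q) →+* F := IsLocalization.lift (M := Scomp P Q) hu
  letI alg : Algebra (Localization (Scomp P Q)) F := φ.toAlgebra
  have hφ : ∀ x : T, φ (algebraMap T (Localization (Scomp P Q)) x) = algebraMap T F x :=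
    fun x => IsLocalization.lift_eq hu x
  haveI htow : IsScalarTower T (Localization (Scomp P Q)) F :=
    IsScalarTower.of_algebraMap_eq fun x => (hφ x).symm
  haveI hfr : IsFractionRing (Localization (Scomp P Q)) F :=
    IsFractionRing.isFractionRing_of_isDomain_of_isLocalization (Scomp P Q)
      (Localization (Scomp P Q)) F
  have hm1 := max_left P Q hPQ
  have hm2 := max_right P Q hQP
  have hall : ∀ M : Ideal (Localization (Scomp P Q)), M.IsMaximal →
      M = P.map (algebraMap T (Localization (Scomp P Q))) ∨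
      M = Q.map (algebraMap T (Localization (Scomp P Q))) := by
    intro M hM
    rcases le_or_le P Q M hM.ne_top with h | h
    · exact Or.inl (hM.eq_of_le hm1.ne_top h)
    · exact Or.inr (hM.eq_of_le hm2.ne_top h)
  letI : FirstOrder.Ring.CompatibleRing (Localization (Scomp P Q)) :=
    FirstOrder.Ring.compatibleRingOfRing _
  have hNL : NIPRing (Localization (Scomp P Q)) := nip_two hN P Q
  have hqu : IsUnit ((q : ℕ) : Localization (Scomp P Q)) := by
    by_contra hn
    obtain ⟨M, hM, hqM⟩ := exists_max_ideal_of_mem_nonunits hn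
    rcases hall M hM with rfl | rfl
    · exact hqP ((mem_map_left P Q _).mp (by rwa [map_natCast]))
    · exact hqQ ((mem_map_right P Q _).mp (by rwa [map_natCast]))
  obtain ⟨S, hSf, hS⟩ := hS
  have hloc : IsLocalRing (Localization (Scomp P Q)) := by
    refine hM (K := F) hNL q hq hqu (algebraMap T _ ζ) (by
      have := congrArg (algebraMap T (Localization (Scomp P Q))) hζ
      simpa [map_sum, map_pow] using this) ?_
      (finite_max_closure_loc46 P Q hPQ hQP hfinP hfinQ) ?_
    · refine ⟨hSf.toFinset, fun u _ => ?_⟩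
      obtain ⟨s, hs, y, hy⟩ := hS (algebraMap _ F u)
      exact ⟨s, hSf.mem_toFinset.mpr hs, y, hy⟩
    · intro m hm
      rcases hall m hm with rfl | rfl
      · exact inf_left P Q hiP
      · exact inf_right P Q hiQ
  have h1 := IsLocalRing.eq_maximalIdeal hm1
  have h2 := IsLocalRing.eq_maximalIdeal hm2
  exact ne_left_right P Q hPQ (h1.trans h2.symm)

end core

/-- one step, through a finite Galois extension with a root of unity -/
theorem pairM_step46 (hM : LocM)
    {R K F : Type} [CommRing R] [IsDomain R] [FirstOrder.Ring.CompatibleRing R]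
    [Field K] [Algebra R K] [IsFractionRing R K] (hN : NIPRing R) (P Q : Ideal R)
    [hP : P.IsPrime] [hQ : Q.IsPrime] [Field F] [Algebra K F] [Algebra R F]
    [IsScalarTower R K F] [FiniteDimensional K F] [IsGalois K F]
    (hiP : Infinite (R ⧸ P)) (hiQ : Infinite (R ⧸ Q))
    (q : ℕ) (hq : q.Prime) (hqP : (q : R) ∉ P) (hqQ : (q : R) ∉ Q)
    (ζ : F) (hζi : IsIntegral R ζ) (hζs : ∑ j ∈ range q, ζ ^ j = 0)
    (hfinP : {N : Ideal (integralClosure R K) | Over P N}.Finite)
    (hfinQ : {N : Ideal (integralClosure R K) | Over Q N}.Finite)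
    (hS : ∃ S : Set F, S.Finite ∧ ∀ x : F, ∃ s ∈ S, ∃ y : F, x = s * y ^ q) :
    P ≤ Q ∨ Q ≤ P := by
  classical
  have hinjK : Function.Injective (algebraMap R K) := IsFractionRing.injective R _
  have hinjF : Function.Injective (algebraMap R F) := by
    rw [IsScalarTower.algebraMap_eq R K F]
    exact (algebraMap K F).injective.comp hinjK
  haveI : FaithfulSMul R F := (faithfulSMul_iff_algebraMap_injective R F).mpr hinjF
  obtain ⟨s, θ, hθi, hθs⟩ := exists_integral_span R K F
  obtain ⟨T, hTfin, hE, hiso⟩ := exists_isolating_set (R := R) (F := F)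
    ({N | Over P N} ∪ {N | Over Q N})
    ((finite_over_galois R K F P hfinP).union (finite_over_galois R K F Q hfinQ))
    (insert ζ (Set.range θ)) ((Set.finite_range θ).insert ζ) (by
      intro x hx
      rcases hx with hx | ⟨i, hi⟩
      · rw [hx]; exact hζi
      · rw [← hi]; exact hθi i)
  have hζT : ζ ∈ T := hE (Set.mem_insert ζ _)
  have hθT : ∀ i, ∃ t : T, algebraMap T F t = θ i := fun i =>
    ⟨⟨θ i, hE (Set.mem_insert_of_mem _ ⟨i, rfl⟩)⟩, rfl⟩
  haveI hTint : Algebra.IsIntegral R T := inferInstance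
  have hinjRT : Function.Injective (algebraMap R T) := by
    intro x y hxy
    exact hinjF (congrArg Subtype.val hxy)
  have hinjTF : Function.Injective (algebraMap T F) := Subtype.val_injective
  obtain ⟨P', hP'p, hP'P⟩ := exists_prime_over hinjRT P
  obtain ⟨Q', hQ'p, hQ'Q⟩ := exists_prime_over hinjRT Q
  haveI := hP'p
  haveI := hQ'p
  letI : FirstOrder.Ring.CompatibleRing T := FirstOrder.Ring.compatibleRingOfRing T
  have hNT : NIPRing T := nip_subalgebra_plus (K := K) T hN
  haveI hfrac : IsFractionRing T F := isFractionRing_of_basis R hinjTF θ hθT hθs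
  have hfP' : {N : Ideal (integralClosure T F) | Over P' N}.Finite := by
    refine Set.Subsingleton.finite fun N hN N' hN' => hiso P' N N' hN hN'
      (Or.inl (over_comap P P' hP'P N hN)) (Or.inl (over_comap P P' hP'P N' hN'))
  have hfQ' : {N : Ideal (integralClosure T F) | Over Q' N}.Finite := by
    refine Set.Subsingleton.finite fun N hN N' hN' => hiso Q' N N' hN hN'
      (Or.inr (over_comap Q Q' hQ'Q N hN)) (Or.inr (over_comap Q Q' hQ'Q N' hN'))
  have hinf : ∀ (I : Ideal R) (I' : Ideal T), (∀ r : R, algebraMap R T r ∈ I' ↔ r ∈ I) →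
      Infinite (R ⧸ I) → Infinite (T ⧸ I') := by
    intro I I' hI hi
    have hle : I ≤ I'.comap (algebraMap R T) := fun r hr => (hI r).mpr hr
    have hinj : Function.Injective (Ideal.quotientMap I' (algebraMap R T) hle) := by
      apply Ideal.quotientMap_injective'
      intro x hx
      exact (hI x).mp hx
    exact Infinite.of_injective _ hinj
  have hres := pairM_core46 (T := T) (F := F) hM hNT P' Q' (hinf P P' hP'P hiP)
    (hinf Q Q' hQ'Q hiQ) hfP' hfQ' q hq (fun h => hqP ((hP'P _).mp (by rwa [map_natCast])))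
    (fun h => hqQ ((hQ'Q _).mp (by rwa [map_natCast]))) ⟨ζ, hζT⟩ (by
        apply Subtype.ext
        have h1 : ((∑ j ∈ range q, (⟨ζ, hζT⟩ : T) ^ j : T) : F) = ∑ j ∈ range q, ζ ^ j := by
          simp
        rw [h1, hζs]
        rfl) hS
  rcases hres with h | h
  · left
    intro x hx
    exact (hQ'Q x).mp (h ((hP'P x).mpr hx))
  · right
    intro x hx
    exact (hP'P x).mp (h ((hQ'Q x).mpr hx))

/-- **the pair form of Theorem M** from the local form -/
theorem pairM46 (hM : LocM) : PairM := by
  intro R K _ _ _ _ _ _ hN hT P Q hP hQ hiP hiQ hfinP hfinQ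
  obtain ⟨q, hq235, hq, hqP, hqQ⟩ := exists_q_prime235 P Q hP hQ
  have hinjK : Function.Injective (algebraMap R K) := IsFractionRing.injective R _
  have hqR : (q : R) ≠ 0 := fun h => hqP (h ▸ P.zero_mem)
  haveI : NeZero q := ⟨hq.ne_zero⟩
  haveI : NeZero ((q : ℕ) : K) := ⟨fun h => hqR (hinjK (by rw [map_natCast, h, map_zero]))⟩
  haveI : IsGalois K (CyclotomicField q K) :=
    IsCyclotomicExtension.isGalois {q} K (CyclotomicField q K)
  haveI : FiniteDimensional K (CyclotomicField q K) :=
    IsCyclotomicExtension.finiteDimensional {q} K (CyclotomicField q K)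
  obtain ⟨ζ, hζp⟩ : ∃ ζ : CyclotomicField q K, IsPrimitiveRoot ζ q :=
    (CyclotomicField.isCyclotomicExtension q K).exists_isPrimitiveRoot
      (Set.mem_singleton q) hq.ne_zero
  have hζs : ∑ j ∈ range q, ζ ^ j = 0 := hζp.geom_sum_eq_zero hq.one_lt
  have hζi : IsIntegral R ζ := by
    refine ⟨X ^ q - C 1, monic_X_pow_sub_C 1 hq.ne_zero, ?_⟩
    rw [eval₂_sub, eval₂_X_pow, eval₂_C, map_one, hζp.pow_eq_one, sub_self]
  exact pairM_step46 hM (F := CyclotomicField q K) hN P Q hiP hiQ q hq hqP hqQ ζ hζi hζs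
    hfinP hfinQ (hT (CyclotomicField q K) q hq235)

end Pool.Agent.AIC
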