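import Pool.Agent.AIC.TheoremQ46

/-! MP_313bb4: from patterns over the localization at two incomparable primes to the
comparability of the two primes; passage to finite extensions without residue hypotheses. -/

set_option autoImplicit false

namespace Pool.Agent.AIC

open Finset Polynomial IsLocalRing

/-- the patterns over a ring with two maximal ideals -/
def PatLoc {L : Type} [CommRing L] (m₁ m₂ : Ideal L) (q : ℕ) (ζ : L) (n : ℕ) : Prop :=
  ∃ c : Fin n → L, (∀ i, c i ∉ m₁) ∧ (∀ i, c i ∉ m₂) ∧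
    ∀ ε : Fin n → ZMod q, ∃ (a b : L) (s t : Fin n → L), b ∉ m₁ ∧
      (∀ i, t i ∉ m₁) ∧ (∀ i, t i ∉ m₂) ∧
      (∀ i, s i ^ q * b = (a + c i ^ q * b) * t i ^ q) ∧
      (∀ i, s i - c i * t i ∈ m₁) ∧ (∀ i, s i - ζ ^ (ε i).val * c i * t i ∈ m₂)

section pipeline

variable {R : Type} [CommRing R] [IsDomain R]

/-- from the patterns over the localization to the patterns over the ring -/
theorem patterns_of_patLoc (P Q : Ideal R) [hP : P.IsPrime] [hQ : Q.IsPrime]
    (hPQ : ¬ P ≤ Q) (hQP : ¬ Q ≤ P) (q : ℕ) (ζ : R) (n : ℕ)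
    (h : PatLoc (P.map (algebraMap R (Localization (Scomp P Q))))
      (Q.map (algebraMap R (Localization (Scomp P Q)))) q
      (algebraMap R (Localization (Scomp P Q)) ζ) n) :
    ∃ c : Fin n → R, (∀ i, c i ∉ P) ∧ (∀ i, c i ∉ Q) ∧
      ∀ ε : Fin n → ZMod q, ∃ (a b t : R) (s : Fin n → R), b ∉ P ∧ t ∉ P ∧ t ∉ Q ∧
      (∀ i, s i ^ q * b = (a + c i ^ q * b) * t ^ q) ∧
      (∀ i, s i - c i * t ∈ P) ∧ (∀ i, s i - ζ ^ (ε i).val * c i * t ∈ Q) := by
  classical
  have hL := isDomain_L P Q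
  have hm1 := max_left P Q hPQ
  have hm2 := max_right P Q hQP
  set L := Localization (Scomp P Q) with hLdef
  set φ : R →+* L := algebraMap R L with hφ
  set m₁ : Ideal L := P.map φ with hm₁
  set m₂ : Ideal L := Q.map φ with hm₂
  have hmem1 : ∀ x : R, φ x ∈ m₁ ↔ x ∈ P := mem_map_left P Q
  have hmem2 : ∀ x : R, φ x ∈ m₂ ↔ x ∈ Q := mem_map_right P Q
  have hinj : Function.Injective φ := IsLocalization.injective L (Scomp_le P Q)
  obtain ⟨c', hc1, hc2, hpat⟩ := h
  obtain ⟨d, hd⟩ := IsLocalization.exist_integer_multiples_of_finite (Scomp P Q) c'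
  have hd' : ∀ i, ∃ x : R, φ x = φ (d : R) * c' i := by
    intro i
    obtain ⟨x, hx⟩ := hd i
    exact ⟨x, by rw [← Algebra.smul_def]; exact hx⟩
  choose c hc using hd'
  have hdP : φ (d : R) ∉ m₁ := fun h => d.2.1 ((hmem1 _).mp h)
  have hdQ : φ (d : R) ∉ m₂ := fun h => d.2.2 ((hmem2 _).mp h)
  have hcP : ∀ i, c i ∉ P := by
    intro i h
    rw [← hmem1, hc] at h
    rcases hm1.isPrime.mem_or_mem h with h | h
    · exact hdP h
    · exact hc1 i h
  have hcQ : ∀ i, c i ∉ Q := by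
    intro i h
    rw [← hmem2, hc] at h
    rcases hm2.isPrime.mem_or_mem h with h | h
    · exact hdQ h
    · exact hc2 i h
  refine ⟨c, hcP, hcQ, fun ε => ?_⟩
  obtain ⟨a₀, b', s₀, t', hb1, ht1, ht2, hst₀, hs1₀, hs2₀⟩ := hpat ε
  -- rescale the pattern by `d`
  obtain ⟨a', s', hst, hs1, hs2⟩ : ∃ (a' : L) (s' : Fin n → L),
      (∀ i, s' i ^ q * b' = (a' + φ (c i) ^ q * b') * t' i ^ q) ∧
      (∀ i, s' i - φ (c i) * t' i ∈ m₁) ∧
      (∀ i, s' i - φ ζ ^ (ε i).val * φ (c i) * t' i ∈ m₂) := by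
    refine ⟨φ (d : R) ^ q * a₀, fun i => φ (d : R) * s₀ i, fun i => ?_, fun i => ?_, fun i => ?_⟩
    · rw [hc]
      calc (φ (d : R) * s₀ i) ^ q * b' = φ (d : R) ^ q * (s₀ i ^ q * b') := by ring
        _ = φ (d : R) ^ q * ((a₀ + c' i ^ q * b') * t' i ^ q) := by rw [hst₀ i]
        _ = _ := by ring
    · rw [hc]
      have h2 : φ (d : R) * s₀ i - φ (d : R) * c' i * t' i
          = φ (d : R) * (s₀ i - c' i * t' i) := by ring
      rw [h2]
      exact Ideal.mul_mem_left _ _ (hs1₀ i)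
    · rw [hc]
      have h2 : φ (d : R) * s₀ i - φ ζ ^ (ε i).val * (φ (d : R) * c' i) * t' i
          = φ (d : R) * (s₀ i - φ ζ ^ (ε i).val * c' i * t' i) := by ring
      rw [h2]
      exact Ideal.mul_mem_left _ _ (hs2₀ i)
  -- clear denominators
  obtain ⟨d₁, hd₁⟩ := IsLocalization.exist_integer_multiples_of_finite (Scomp P Q) ![a', b']
  obtain ⟨d₂, hd₂⟩ := IsLocalization.exist_integer_multiples_of_finite (Scomp P Q)
    (Sum.elim s' t')
  obtain ⟨a, ha⟩ : ∃ x : R, φ x = φ (d₁ : R) * a' := by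
    obtain ⟨x, hx⟩ := hd₁ 0
    exact ⟨x, by rw [← Algebra.smul_def]; exact hx⟩
  obtain ⟨b, hb⟩ : ∃ x : R, φ x = φ (d₁ : R) * b' := by
    obtain ⟨x, hx⟩ := hd₁ 1
    exact ⟨x, by rw [← Algebra.smul_def]; exact hx⟩
  have hs'' : ∀ i, ∃ x : R, φ x = φ (d₂ : R) * s' i := by
    intro i
    obtain ⟨x, hx⟩ := hd₂ (Sum.inl i)
    exact ⟨x, by rw [← Algebra.smul_def]; exact hx⟩
  have ht'' : ∀ i, ∃ x : R, φ x = φ (d₂ : R) * t' i := by
    intro i
    obtain ⟨x, hx⟩ := hd₂ (Sum.inr i)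
    exact ⟨x, by rw [← Algebra.smul_def]; exact hx⟩
  choose s hs using hs''
  choose t ht using ht''
  have hd₁P : φ (d₁ : R) ∉ m₁ := fun h => d₁.2.1 ((hmem1 _).mp h)
  have hd₂P : φ (d₂ : R) ∉ m₁ := fun h => d₂.2.1 ((hmem1 _).mp h)
  have hd₂Q : φ (d₂ : R) ∉ m₂ := fun h => d₂.2.2 ((hmem2 _).mp h)
  have hbP : b ∉ P := by
    intro h
    rw [← hmem1, hb] at h
    rcases hm1.isPrime.mem_or_mem h with h | h
    · exact hd₁P h
    · exact hb1 h
  have htP : ∀ i, t i ∉ P := by
    intro i h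
    rw [← hmem1, ht] at h
    rcases hm1.isPrime.mem_or_mem h with h | h
    · exact hd₂P h
    · exact ht1 i h
  have htQ : ∀ i, t i ∉ Q := by
    intro i h
    rw [← hmem2, ht] at h
    rcases hm2.isPrime.mem_or_mem h with h | h
    · exact hd₂Q h
    · exact ht2 i h
  have heq : ∀ i, s i ^ q * b = (a + c i ^ q * b) * t i ^ q := by
    intro i
    apply hinj
    have h1 := hst i
    simp only [map_mul, map_add, map_pow]
    rw [hs, hb, ha, ht]
    calc (φ ↑d₂ * s' i) ^ q * (φ ↑d₁ * b') = φ ↑d₂ ^ q * φ ↑d₁ * (s' i ^ q * b') := by ring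
      _ = φ ↑d₂ ^ q * φ ↑d₁ * ((a' + φ (c i) ^ q * b') * t' i ^ q) := by rw [h1]
      _ = (φ ↑d₁ * a' + φ (c i) ^ q * (φ ↑d₁ * b')) * (φ ↑d₂ * t' i) ^ q := by ring
  have hsP : ∀ i, s i - c i * t i ∈ P := by
    intro i
    rw [← hmem1, map_sub, map_mul, hs, ht]
    have h2 : φ (d₂ : R) * s' i - φ (c i) * (φ (d₂ : R) * t' i)
        = φ (d₂ : R) * (s' i - φ (c i) * t' i) := by ring
    rw [h2]
    exact Ideal.mul_mem_left _ _ (hs1 i)
  have hsQ : ∀ i, s i - ζ ^ (ε i).val * c i * t i ∈ Q := by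
    intro i
    rw [← hmem2, map_sub, map_mul, map_mul, map_pow, hs, ht]
    have h2 : φ (d₂ : R) * s' i - φ ζ ^ (ε i).val * φ (c i) * (φ (d₂ : R) * t' i)
        = φ (d₂ : R) * (s' i - φ ζ ^ (ε i).val * φ (c i) * t' i) := by ring
    rw [h2]
    exact Ideal.mul_mem_left _ _ (hs2 i)
  -- one common denominator
  have hprodi : ∀ i, ∏ j, t j = t i * ∏ j ∈ univ.erase i, t j := fun i =>
    (mul_prod_erase univ t (mem_univ i)).symm
  refine ⟨a, b, ∏ j, t j, fun i => s i * ∏ j ∈ univ.erase i, t j, hbP, ?_, ?_, ?_, ?_, ?_⟩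
  · rw [Ideal.IsPrime.prod_mem_iff]
    rintro ⟨j, -, hj⟩
    exact htP j hj
  · rw [Ideal.IsPrime.prod_mem_iff]
    rintro ⟨j, -, hj⟩
    exact htQ j hj
  · intro i
    rw [hprodi i, mul_pow, mul_pow]
    calc s i ^ q * (∏ j ∈ univ.erase i, t j) ^ q * b
        = (s i ^ q * b) * (∏ j ∈ univ.erase i, t j) ^ q := by ring
      _ = (a + c i ^ q * b) * (t i ^ q * (∏ j ∈ univ.erase i, t j) ^ q) := by rw [heq]; ring
  · intro i
    have h2 : s i * ∏ j ∈ univ.erase i, t j - c i * ∏ j, t j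
        = (∏ j ∈ univ.erase i, t j) * (s i - c i * t i) := by
      rw [hprodi i]; ring
    rw [h2]
    exact Ideal.mul_mem_left _ _ (hsP i)
  · intro i
    have h2 : s i * ∏ j ∈ univ.erase i, t j - ζ ^ (ε i).val * c i * ∏ j, t j
        = (∏ j ∈ univ.erase i, t j) * (s i - ζ ^ (ε i).val * c i * t i) := by
      rw [hprodi i]; ring
    rw [h2]
    exact Ideal.mul_mem_left _ _ (hsQ i)

/-- **the pipeline**: in an NIP domain two primes are comparable if the localization at the
complement of their union has the patterns. -/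
theorem comparable_of_patLoc [FirstOrder.Ring.CompatibleRing R] (hN : NIPRing R)
    (P Q : Ideal R) [hP : P.IsPrime] [hQ : Q.IsPrime]
    (q : ℕ) (hq : q.Prime) (hqP : (q : R) ∉ P) (hqQ : (q : R) ∉ Q)
    (ζ : R) (hζ : ∑ j ∈ range q, ζ ^ j = 0)
    (h : ¬ P ≤ Q → ¬ Q ≤ P → ∀ n : ℕ, 2 ≤ n →
      PatLoc (P.map (algebraMap R (Localization (Scomp P Q))))
      (Q.map (algebraMap R (Localization (Scomp P Q)))) q
      (algebraMap R (Localization (Scomp P Q)) ζ) n) :
    P ≤ Q ∨ Q ≤ P := by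
  by_contra hcon
  rw [not_or] at hcon
  exact false_of_patterns_prime P Q q hq hqP hqQ ζ hζ
    (fun n hn => patterns_of_patLoc P Q hcon.1 hcon.2 q ζ n (h hcon.1 hcon.2 n hn))
    (nip_prime hN q)

end pipeline

section ext

/-- one step: through a finite Galois extension which contains a root of unity -/
theorem comparable_stepD
    (core : ∀ (T : Type) [CommRing T] [IsDomain T] [FirstOrder.Ring.CompatibleRing T],
      NIPRing T → ∀ (P Q : Ideal T) [P.IsPrime] [Q.IsPrime],
      HenselianLocalRing (Localization.AtPrime P) →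
      IsLocalRing (integralClosure (Localization.AtPrime Q) (FractionRing T)) →
      ∀ (q : ℕ), q.Prime → (q : T) ∉ P → (q : T) ∉ Q →
      ∀ ζ : T, ∑ j ∈ Finset.range q, ζ ^ j = 0 → P ≤ Q ∨ Q ≤ P)
    {R : Type} [CommRing R] [IsDomain R] [FirstOrder.Ring.CompatibleRing R] (hN : NIPRing R)
    (P Q : Ideal R) [hP : P.IsPrime] [hQ : Q.IsPrime]
    (hH : HenselianLocalRing (Localization.AtPrime P))
    (hfin : {N : Ideal (integralClosure R (FractionRing R)) | Over Q N}.Finite)
    (q : ℕ) (hq : q.Prime) (hqP : (q : R) ∉ P) (hqQ : (q : R) ∉ Q)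
    (F : Type) [Field F] [Algebra (FractionRing R) F] [Algebra R F]
    [IsScalarTower R (FractionRing R) F] [FiniteDimensional (FractionRing R) F]
    [IsGalois (FractionRing R) F] (W : Type) [Field W] [IsAlgClosed W] [Algebra F W] [Algebra R W]
    [IsScalarTower R F W] (ζ : F) (hζi : IsIntegral R ζ) (hζs : ∑ j ∈ range q, ζ ^ j = 0) :
    P ≤ Q ∨ Q ≤ P := by
  have hinjK : Function.Injective (algebraMap R (FractionRing R)) := IsFractionRing.injective R _
  have hinjF : Function.Injective (algebraMap R F) := by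
    rw [IsScalarTower.algebraMap_eq R (FractionRing R) F]
    exact (algebraMap (FractionRing R) F).injective.comp hinjK
  have hinjW : Function.Injective (algebraMap R W) := by
    rw [IsScalarTower.algebraMap_eq R F W]
    exact (algebraMap F W).injective.comp hinjF
  have huP := unique_over_of_hens (fun A W _ _ _ _ _ _ h => closure_local_of_henselian)
    (W := W) hinjW P hH
  obtain ⟨T, hTfin, hζT, P', Q', hP'p, hQ'p, hP'P, hQ'Q, hHT, hUT⟩ :=
    exists_ext_good P Q F W huP hfin ζ hζi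
  letI : FirstOrder.Ring.CompatibleRing T := FirstOrder.Ring.compatibleRingOfRing T
  have hNT : NIPRing T := nip_subalgebra_plus (K := FractionRing R) T hN
  have hres := core T hNT P' Q' hHT hUT q hq (fun h => hqP ((hP'P _).mp (by rwa [map_natCast])))
      (fun h => hqQ ((hQ'Q _).mp (by rwa [map_natCast]))) ⟨ζ, hζT⟩ (by
        apply Subtype.ext
        have h1 : ((∑ j ∈ range q, (⟨ζ, hζT⟩ : T) ^ j : T) : F) = ∑ j ∈ range q, ζ ^ j := by
          simp
        rw [h1, hζs]
        rfl)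
  rcases hres with h | h
  · left
    intro x hx
    exact (hQ'Q x).mp (h ((hP'P x).mpr hx))
  · right
    intro x hx
    exact (hP'P x).mp (h ((hQ'Q x).mpr hx))

/-- reduction: from the comparability of primes (henselian, unibranch) in domains with enough
roots of unity to primes with finitely many branches; no residue hypothesis -/
theorem comparable_of_coreD
    (core : ∀ (T : Type) [CommRing T] [IsDomain T] [FirstOrder.Ring.CompatibleRing T],
      NIPRing T → ∀ (P Q : Ideal T) [P.IsPrime] [Q.IsPrime],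
      HenselianLocalRing (Localization.AtPrime P) →
      IsLocalRing (integralClosure (Localization.AtPrime Q) (FractionRing T)) →
      ∀ (q : ℕ), q.Prime → (q : T) ∉ P → (q : T) ∉ Q →
      ∀ ζ : T, ∑ j ∈ Finset.range q, ζ ^ j = 0 → P ≤ Q ∨ Q ≤ P)
    (R : Type) [CommRing R] [IsDomain R] [FirstOrder.Ring.CompatibleRing R] (hN : NIPRing R)
    (P Q : Ideal R) [hP : P.IsPrime] [hQ : Q.IsPrime]
    (hH : HenselianLocalRing (Localization.AtPrime P))
    (hfin : {N : Ideal (integralClosure R (FractionRing R)) | Over Q N}.Finite) :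
    P ≤ Q ∨ Q ≤ P := by
  obtain ⟨q, hq, hqP, hqQ⟩ := exists_q_prime P Q hP hQ
  have hinjK : Function.Injective (algebraMap R (FractionRing R)) := IsFractionRing.injective R _
  have hqR : (q : R) ≠ 0 := fun h => hqP (h ▸ P.zero_mem)
  haveI : NeZero q := ⟨hq.ne_zero⟩
  haveI : NeZero ((q : ℕ) : FractionRing R) := ⟨fun h => hqR (hinjK (by
    rw [map_natCast, h, map_zero]))⟩
  haveI : IsGalois (FractionRing R) (CyclotomicField q (FractionRing R)) :=
    IsCyclotomicExtension.isGalois {q} (FractionRing R) (CyclotomicField q (FractionRing R))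
  haveI : FiniteDimensional (FractionRing R) (CyclotomicField q (FractionRing R)) :=
    IsCyclotomicExtension.finiteDimensional {q} (FractionRing R)
      (CyclotomicField q (FractionRing R))
  obtain ⟨ζ, hζp⟩ : ∃ ζ : CyclotomicField q (FractionRing R), IsPrimitiveRoot ζ q :=
    (CyclotomicField.isCyclotomicExtension q (FractionRing R)).exists_isPrimitiveRoot
      (Set.mem_singleton q) hq.ne_zero
  have hζs : ∑ j ∈ range q, ζ ^ j = 0 := hζp.geom_sum_eq_zero hq.one_lt
  have hζi : IsIntegral R ζ := by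
    refine ⟨X ^ q - C 1, monic_X_pow_sub_C 1 hq.ne_zero, ?_⟩
    rw [eval₂_sub, eval₂_X_pow, eval₂_C, map_one, hζp.pow_eq_one, sub_self]
  exact comparable_stepD core hN P Q hH hfin q hq hqP hqQ
    (CyclotomicField q (FractionRing R))
    (AlgebraicClosure (CyclotomicField q (FractionRing R))) ζ hζi hζs

end ext

end Pool.Agent.AIC
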