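import Mathlib
import Pool.Agent.AIC.Place95
import Pool.Agent.AIC.Side76
import Pool.Agent.AIC.Sec82
import Pool.Agent.AIC.CommonDen82

/-!
# The claim with an outer place

`place_assembly95`: the two sides need only many roots near zero, because all the roots are in the
fraction field by the outer place.
-/

set_option autoImplicit false
set_option linter.unusedSectionVars false

namespace Pool.Agent.AIC

open Finset Polynomial IsLocalRing

variable {ι : Type} [Fintype ι] [DecidableEq ι] {q : ℕ} [Fact q.Prime]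

/-- Interface of a side: local data, and many roots near `0` when all roots are rational. -/
def CountSide {R : Type} [CommRing R] [IsDomain R] (q : ℕ) [Fact q.Prime]
    (m : Ideal R) [m.IsMaximal] (ζ : R) (c : ι → R) : Prop :=
  ∃ (I : Ideal R) (p : (ι → ZMod q) → (R ⧸ I)[X]), I ≤ m ∧
    (∀ M : Ideal R, M.IsMaximal → I ≤ M → M = m) ∧
    (∀ s, p s ≠ 0 → q * (p s).natDegree + wt s < q * (2 * Fintype.card ι)) ∧
    ∀ P : (ι → ZMod q) → R[X], (∀ s, (P s).map (Ideal.Quotient.mk I) = p s) →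
      (∀ δ : ι → ZMod q, δ ≠ 0 →
        ev (tw ζ δ c) (fun s => (fam (2 * Fintype.card ι) P s).eval 0) ∉ m) ∧
      ∀ Φ : R[X], Φ = (nmat (fun i => X + C (c i ^ q)) (fam (2 * Fintype.card ι) P)).det →
        Φ.Monic →
        ∀ φ : Localization.AtPrime m →+* FractionRing R,
        (∀ a : R, φ (algebraMap R _ a) = algebraMap R (FractionRing R) a) →
        ∀ (J : Type) [Fintype J] [DecidableEq J] (r : J → FractionRing R),
        Function.Injective r → Φ.map (algebraMap R (FractionRing R)) = ∏ j, (X - C (r j)) →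
        ∃ S : Finset J, Fintype.card ι * q ^ Fintype.card ι + 1 ≤ S.card ∧
          ∀ j ∈ S, ∃ x ∈ maximalIdeal (Localization.AtPrime m), φ x = r j

/-- `X ^ k` divides a product of linear factors: at least `k` of the points are zero. -/
theorem count_zero95 {κ : Type} [Field κ] {J : Type} [Fintype J] [DecidableEq J] (a : J → κ)
    (k : ℕ) (h : (X : κ[X]) ^ k ∣ ∏ j, (X - C (a j))) :
    ∃ S : Finset J, k ≤ S.card ∧ ∀ j ∈ S, a j = 0 := by
  classical
  refine ⟨univ.filter fun j => a j = 0, ?_, fun j hj => (mem_filter.1 hj).2⟩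
  have h1 : (∏ j, (X - C (a j)) : κ[X]) = (∏ j ∈ univ.filter (fun j => a j = 0), (X - C (a j))) *
      ∏ j ∈ univ.filter (fun j => ¬ a j = 0), (X - C (a j)) :=
    (prod_filter_mul_prod_filter_not univ _ _).symm
  have h2 : (∏ j ∈ univ.filter (fun j => a j = 0), (X - C (a j)) : κ[X])
      = X ^ (univ.filter fun j => a j = 0).card := by
    rw [← prod_const]
    refine prod_congr rfl fun j hj => ?_
    rw [(mem_filter.1 hj).2, C_0, sub_zero]
  have h3 : IsCoprime (X ^ k : κ[X]) (∏ j ∈ univ.filter (fun j => ¬ a j = 0), (X - C (a j))) := by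
    apply IsCoprime.pow_left
    apply IsCoprime.prod_right
    intro j hj
    have h := isCoprime_X_sub_C_of_isUnit_sub (a := (0 : κ)) (b := a j) (by
      rw [zero_sub]
      exact (IsUnit.mk0 _ (mem_filter.1 hj).2).neg)
    rw [C_0, sub_zero] at h
    exact h
  rw [h1, h2] at h
  have h4 := h3.dvd_of_dvd_mul_right h
  have h5 := natDegree_le_of_dvd h4 (pow_ne_zero _ X_ne_zero)
  rwa [natDegree_X_pow, natDegree_X_pow] at h5

/-- integrally closed localizations. -/
theorem countSide_norm95 {R : Type} [CommRing R] [IsDomain R] (m : Ideal R) [hm : m.IsMaximal]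
    (hn : IsIntegrallyClosed (Localization.AtPrime m))
    (hq2 : (q : R) ∉ m) (ζ : R) (hζ : ∑ j ∈ range q, ζ ^ j = 0)
    (hι : 2 ≤ Fintype.card ι)
    (c : ι → R) (hc2 : ∀ i, c i ∉ m) (hd2 : ∀ i j, i ≠ j → c i ^ q - c j ^ q ∉ m) :
    CountSide q m ζ c := by
  classical
  obtain ⟨I, p, hI, hIM, hw, hP⟩ := side_norm m hq2 ζ hζ hι c hc2 hd2
  refine ⟨I, p, hI, hIM, hw, fun P hPp => ⟨(hP P hPp).1, ?_⟩⟩
  intro Φ hΦ hΦm φ hφ J _ _ r hr hprod
  have hX := (hP P hPp).2
  rw [← hΦ] at hX
  have hinj := phi_injective m φ hφ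
  have hdom : IsDomain (Localization.AtPrime m) :=
    IsLocalization.isDomain_localization m.primeCompl_le_nonZeroDivisors
  set α : R →+* Localization.AtPrime m := algebraMap R (Localization.AtPrime m) with hα
  have hcomp : φ.comp α = algebraMap R (FractionRing R) := RingHom.ext hφ
  have hroot : ∀ j, (Φ.map (algebraMap R (FractionRing R))).IsRoot (r j) := by
    intro j
    rw [hprod, IsRoot.def, eval_prod]
    exact prod_eq_zero (mem_univ j) (by simp)
  have hev : ∀ z : FractionRing R, (Φ.map α).eval₂ φ z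
      = (Φ.map (algebraMap R (FractionRing R))).eval z := by
    intro z
    rw [eval₂_map, hcomp, eval_map]
  choose s hs using fun j => exists_of_root_norm m hn φ hφ (Φ.map α) (hΦm.map α) (r j)
    (by rw [hev]; exact hroot j)
  have hprod' : Φ.map α = ∏ j, (X - C (s j)) := by
    apply Polynomial.map_injective φ hinj
    rw [Polynomial.map_map, hcomp, hprod, Polynomial.map_prod]
    refine prod_congr rfl fun j _ => ?_
    rw [Polynomial.map_sub, map_X, map_C, hs]
  have hmem : ∀ x : R, α x ∈ maximalIdeal (Localization.AtPrime m) ↔ x ∈ m := fun x =>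
    IsLocalization.AtPrime.to_map_mem_maximal_iff (Localization.AtPrime m) m x
  set g := residue (Localization.AtPrime m) with hg
  have hker : ∀ a ∈ m, (g.comp α) a = 0 := fun a ha => (residue_eq_zero_iff _).2 ((hmem a).2 ha)
  have hX' : X ^ (Fintype.card ι * q ^ Fintype.card ι + 1) ∣ (Φ.map α).map g := by
    have h1 : (Φ.map α).map g = (Φ.map (Ideal.Quotient.mk m)).map
        (Ideal.Quotient.lift m (g.comp α) hker) := by
      rw [Polynomial.map_map, Polynomial.map_map]
      rfl
    rw [h1]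
    have h2 := (Polynomial.map_dvd (Ideal.Quotient.lift m (g.comp α) hker) hX)
    rwa [Polynomial.map_pow, Polynomial.map_X] at h2
  rw [hprod', Polynomial.map_prod] at hX'
  simp only [Polynomial.map_sub, map_X, map_C] at hX'
  obtain ⟨S, hS, hS0⟩ := count_zero95 (fun j => g (s j)) _ hX'
  exact ⟨S, hS, fun j hj => ⟨s j, (residue_eq_zero_iff _).1 (hS0 j hj), hs j⟩⟩

/-- henselian localizations. -/
theorem countSide_hens95 {R : Type} [CommRing R] [IsDomain R] (m : Ideal R) [hm : m.IsMaximal]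
    (hH : HenselianLocalRing (Localization.AtPrime m))
    (hu : ∃ u ∈ m, ∀ M : Ideal R, M.IsMaximal → u ∈ M → M = m)
    (hm0 : ∃ M : Ideal R, M.IsMaximal ∧ M ≠ m)
    (hinf : Infinite (R ⧸ m))
    (hq1 : (q : R) ∉ m) (ζ : R) (hζ : ∑ j ∈ range q, ζ ^ j = 0)
    (hι : 2 ≤ Fintype.card ι)
    (c : ι → R) (hc1 : ∀ i, c i ∉ m) (hd1 : ∀ i j, i ≠ j → c i ^ q - c j ^ q ∉ m) :
    CountSide q m ζ c := by
  classical
  obtain ⟨I, p, hI, hIM, hw, hP⟩ := side_hens m hH hu hm0 hinf hq1 ζ hζ hι c hc1 hd1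
  refine ⟨I, p, hI, hIM, hw, fun P hPp => ⟨(hP P hPp).1, ?_⟩⟩
  intro Φ hΦ hΦm φ hφ J _ _ r hr hprod
  obtain ⟨s, hsinj, hsm, hsroot⟩ := (hP P hPp).2
  rw [← hΦ] at hsroot
  have hinj := phi_injective m φ hφ
  set α : R →+* Localization.AtPrime m := algebraMap R (Localization.AtPrime m) with hα
  have hcomp : φ.comp α = algebraMap R (FractionRing R) := RingHom.ext hφ
  have h1 : ∀ i, ∃ j, r j = φ (s i) := by
    intro i
    have h2 : (Φ.map (algebraMap R (FractionRing R))).eval (φ (s i)) = 0 := by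
      have h3 : (Φ.map α).eval (s i) = 0 := hsroot i
      have h4 := congrArg φ h3
      rw [map_zero, ← eval₂_at_apply, eval₂_map, hcomp] at h4
      rw [eval_map]; exact h4
    rw [hprod, eval_prod] at h2
    obtain ⟨j, _, hj⟩ := prod_eq_zero_iff.1 h2
    refine ⟨j, ?_⟩
    rw [eval_sub, eval_X, eval_C] at hj
    exact (sub_eq_zero.1 hj).symm
  choose f hf using h1
  have hfinj : Function.Injective f := by
    intro a b hab
    apply hsinj
    apply hinj
    rw [← hf, ← hf, hab]
  refine ⟨univ.image f, ?_, fun j hj => ?_⟩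
  · rw [card_image_of_injective _ hfinj, card_univ, Fintype.card_fin]
  · obtain ⟨i, _, rfl⟩ := mem_image.1 hj
    exact ⟨s i, hsm i, (hf i).symm⟩

/-- lifting a polynomial from two quotients, close to a given polynomial at the outer place. -/
theorem lift3_95 {R K O : Type} [CommRing R] [Field K] [Algebra R K] [CommRing O] (ψ : O →+* K)
    (I₁ I₂ : Ideal R) (h : IsCoprime I₁ I₂) (e : O)
    (hdense : ∀ z : K, ∃ i ∈ I₁ ⊓ I₂, ∃ y : O, algebraMap R K i = z + ψ (e * y))
    (N : ℕ) (f₁ : (R ⧸ I₁)[X]) (f₂ : (R ⧸ I₂)[X]) (f₀ : O[X])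
    (h₁ : f₁.degree < N) (h₂ : f₂.degree < N) (h₀ : f₀.degree < N) :
    ∃ (P : R[X]) (E : O[X]), P.degree < N ∧ P.map (Ideal.Quotient.mk I₁) = f₁ ∧
      P.map (Ideal.Quotient.mk I₂) = f₂ ∧ P.map (algebraMap R K) = (f₀ + C e * E).map ψ := by
  classical
  have key : ∀ j, ∃ (r : R) (y : O), Ideal.Quotient.mk I₁ r = f₁.coeff j ∧
      Ideal.Quotient.mk I₂ r = f₂.coeff j ∧ algebraMap R K r = ψ (f₀.coeff j + e * y) := by
    intro j
    obtain ⟨r0, hr1, hr2⟩ := crt I₁ I₂ h (f₁.coeff j) (f₂.coeff j)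
    obtain ⟨i, hi, y, hy⟩ := hdense (ψ (f₀.coeff j) - algebraMap R K r0)
    refine ⟨r0 + i, y, ?_, ?_, ?_⟩
    · rw [map_add, hr1, Ideal.Quotient.eq_zero_iff_mem.2 hi.1, add_zero]
    · rw [map_add, hr2, Ideal.Quotient.eq_zero_iff_mem.2 hi.2, add_zero]
    · rw [map_add, hy, map_add]; ring
  choose r y hr1 hr2 hr0 using key
  have hcoef : ∀ {B : Type} [CommRing B] (f : B[X]), f.degree < N →
      f = ∑ j ∈ range N, C (f.coeff j) * X ^ j := by
    intro B _ f hf
    ext i
    rw [finset_sum_coeff]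
    simp only [coeff_C_mul_X_pow]
    rw [Finset.sum_ite_eq]
    split_ifs with hi
    · rfl
    · exact coeff_eq_zero_of_degree_lt (hf.trans_le (by
        rw [mem_range, not_lt] at hi
        exact_mod_cast hi))
  refine ⟨∑ j ∈ range N, C (r j) * X ^ j, ∑ j ∈ range N, C (y j) * X ^ j, ?_, ?_, ?_, ?_⟩
  · exact (degree_sum_fin_lt (fun j : Fin N => r j)).trans_eq' (by
      rw [Finset.sum_range])
  · rw [Polynomial.map_sum]
    simp only [Polynomial.map_mul, map_C, Polynomial.map_pow, map_X, hr1]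
    exact (hcoef f₁ h₁).symm
  · rw [Polynomial.map_sum]
    simp only [Polynomial.map_mul, map_C, Polynomial.map_pow, map_X, hr2]
    exact (hcoef f₂ h₂).symm
  · conv_rhs => rw [hcoef f₀ h₀]
    rw [Polynomial.map_sum, Polynomial.map_add, Polynomial.map_mul, Polynomial.map_sum,
      Polynomial.map_sum, Finset.mul_sum, ← Finset.sum_add_distrib]
    refine Finset.sum_congr rfl fun j _ => ?_
    simp only [Polynomial.map_mul, map_C, Polynomial.map_pow, map_X, hr0]
    rw [map_add, map_mul, C_add, C_mul]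
    ring

end Pool.Agent.AIC
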