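import Mathlib
import Pool.Agent.AIC.ClaimD83
import Pool.Agent.AIC.Pipeline46

/-! Theorem P, final form: no hypothesis on residue fields, no root of unity. -/

set_option autoImplicit false
set_option linter.unusedSectionVars false

namespace Pool.Agent.AIC

open Finset Polynomial IsLocalRing

section core

variable {R : Type} [CommRing R] [IsDomain R]

theorem patLoc_of_hens (P Q : Ideal R) [hP : P.IsPrime] [hQ : Q.IsPrime]
    (hPQ : ¬ P ≤ Q) (hQP : ¬ Q ≤ P)
    (hH : HenselianLocalRing (Localization.AtPrime P))
    (hS : IsLocalRing (integralClosure (Localization.AtPrime Q) (FractionRing R)) ∨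
      HenselianLocalRing (Localization.AtPrime Q))
    (q : ℕ) (hq : q.Prime) (hqP : (q : R) ∉ P) (hqQ : (q : R) ∉ Q)
    (ζ : R) (hζ : ∑ j ∈ range q, ζ ^ j = 0) (n : ℕ) (hn : 2 ≤ n) :
    PatLoc (P.map (algebraMap R (Localization (Scomp P Q))))
      (Q.map (algebraMap R (Localization (Scomp P Q)))) q
      (algebraMap R (Localization (Scomp P Q)) ζ) n := by
  have hL := isDomain_L P Q
  have hm1 := max_left P Q hPQ
  have hm2 := max_right P Q hQP
  have hfact : Fact q.Prime := ⟨hq⟩
  have hall : ∀ M : Ideal (Localization (Scomp P Q)), M.IsMaximal →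
      M = P.map (algebraMap R (Localization (Scomp P Q))) ∨
      M = Q.map (algebraMap R (Localization (Scomp P Q))) := by
    intro M hM
    rcases le_or_le P Q M hM.ne_top with h | h
    · exact Or.inl (hM.eq_of_le hm1.ne_top h)
    · exact Or.inr (hM.eq_of_le hm2.ne_top h)
  have hside : IsLocalRing (integralClosure
      (Localization.AtPrime (Q.map (algebraMap R (Localization (Scomp P Q)))))
      (FractionRing (Localization (Scomp P Q)))) ∨
      HenselianLocalRing
        (Localization.AtPrime (Q.map (algebraMap R (Localization (Scomp P Q))))) := by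
    rcases hS with h | h
    · exact Or.inl (unibranch_at P Q _ Q (under_right P Q) h)
    · exact Or.inr (hens_at P Q _ Q (under_right P Q) h)
  obtain ⟨c, hc1, hc2, hc⟩ := claimD (L := Localization (Scomp P Q)) q n hn
    (P.map (algebraMap R (Localization (Scomp P Q))))
    (Q.map (algebraMap R (Localization (Scomp P Q)))) (ne_left_right P Q hPQ) hall
    (hens_at P Q _ P (under_left P Q) hH) hside (u_left P Q hPQ) (u_right P Q hQP)
    (fun h => hqP ((mem_map_left P Q _).mp (by rwa [map_natCast])))
    (fun h => hqQ ((mem_map_right P Q _).mp (by rwa [map_natCast])))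
    (algebraMap R (Localization (Scomp P Q)) ζ) (by
      have := congrArg (algebraMap R (Localization (Scomp P Q))) hζ
      simpa [map_sum, map_pow] using this)
  refine ⟨c, hc1, hc2, fun ε => ?_⟩
  obtain ⟨a, b, s, t, -, -, hb1, -, ht1, ht2, hst, hs1, hs2⟩ := hc ε
  exact ⟨a, b, s, t, hb1, ht1, ht2, hst, hs1, hs2⟩

/-- Theorem P with a root of unity, without a hypothesis on the residue fields. -/
theorem theoremPD [FirstOrder.Ring.CompatibleRing R] (hN : NIPRing R)
    (P Q : Ideal R) [hP : P.IsPrime] [hQ : Q.IsPrime]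
    (hH : HenselianLocalRing (Localization.AtPrime P))
    (hS : IsLocalRing (integralClosure (Localization.AtPrime Q) (FractionRing R)) ∨
      HenselianLocalRing (Localization.AtPrime Q))
    (q : ℕ) (hq : q.Prime) (hqP : (q : R) ∉ P) (hqQ : (q : R) ∉ Q)
    (ζ : R) (hζ : ∑ j ∈ range q, ζ ^ j = 0) : P ≤ Q ∨ Q ≤ P :=
  comparable_of_patLoc hN P Q q hq hqP hqQ ζ hζ fun hPQ hQP n hn =>
    patLoc_of_hens P Q hPQ hQP hH hS q hq hqP hqQ ζ hζ n hn

/-- **Theorem P**: in an NIP domain a prime with henselian localization is comparable with every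
prime over which the integral closure (in the fraction field) has finitely many primes. -/
theorem theoremPF [FirstOrder.Ring.CompatibleRing R] (hN : NIPRing R)
    (P Q : Ideal R) [hP : P.IsPrime] [hQ : Q.IsPrime]
    (hH : HenselianLocalRing (Localization.AtPrime P))
    (hfin : {N : Ideal (integralClosure R (FractionRing R)) | Over Q N}.Finite) :
    P ≤ Q ∨ Q ≤ P :=
  comparable_of_coreD
    (fun _ _ _ _ hNT P Q _ _ hH hU q hq hqP hqQ ζ hζ =>
      theoremPD hNT P Q hH (Or.inl hU) q hq hqP hqQ ζ hζ)
    R hN P Q hH hfin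

end core

end Pool.Agent.AIC
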