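import Pool.Agent.AIC.TheoremPlus34
import Pool.Agent.AIC.TheoremPF83

/-!
# MP_313bb4: Theorem R+ without a hypothesis on the residue fields

(The proof is that of `TheoremPlus34`, with Theorem P in place of Theorem H*.)
-/

set_option autoImplicit false
set_option linter.style.haveILetI false

namespace Pool.Agent.AIC

open Finset Polynomial IsLocalRing FirstOrder FirstOrder.Ring

/-- **Theorem R+**: an NIP domain whose integral closure in an algebraically closed extension `W`
of its fraction field is semilocal is a Henselian local ring. -/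
theorem theoremPlusF {R K W : Type} [CommRing R] [IsDomain R] [FirstOrder.Ring.CompatibleRing R]
    [Field K] [Algebra R K] [IsFractionRing R K] [Field W] [Algebra R W] [Algebra K W]
    [IsScalarTower R K W] [IsAlgClosed W]
    (hN : NIPRing R)
    (hfin : {n : Ideal (integralClosure R W) | n.IsMaximal}.Finite) : HenselianLocalRing R := by
  classical
  have hRW : Function.Injective (algebraMap R W) := by
    rw [IsScalarTower.algebraMap_eq R K W]
    exact (algebraMap K W).injective.comp (IsFractionRing.injective R K)
  have hfs : FaithfulSMul R W := (faithfulSMul_iff_algebraMap_injective R W).2 hRW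
  obtain ⟨z2, hz2i, hz2⟩ := exists_zeta34 (R := R) (K := W) 2 (by norm_num)
  obtain ⟨z3, hz3i, hz3⟩ := exists_zeta34 (R := R) (K := W) 3 (by norm_num)
  obtain ⟨z5, hz5i, hz5⟩ := exists_zeta34 (R := R) (K := W) 5 (by norm_num)
  -- separating elements
  have hsep : ∀ q : {n : Ideal (integralClosure R W) // n.IsMaximal} ×
      {n : Ideal (integralClosure R W) // n.IsMaximal},
      ∃ e : integralClosure R W, q.1 ≠ q.2 → e ∈ q.1.1 ∧ e ∉ q.2.1 := by
    rintro ⟨⟨n, hn⟩, ⟨n', hn'⟩⟩
    by_cases h : n = n'
    · exact ⟨0, fun h' => absurd (Subtype.ext h) h'⟩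
    · have hle : ¬ n ≤ n' := fun hle => h (hn.eq_of_le hn'.ne_top hle)
      obtain ⟨e, he, he'⟩ := SetLike.not_le_iff_exists.1 hle
      exact ⟨e, fun _ => ⟨he, he'⟩⟩
  choose e he using hsep
  have hfin' : Finite {n : Ideal (integralClosure R W) // n.IsMaximal} := hfin.to_subtype
  obtain ⟨G, hGdef⟩ : ∃ G : Set W, G = ({z2, z3, z5} : Set W) ∪ Set.range fun q => (e q : W) :=
    ⟨_, rfl⟩
  have hG : G.Finite := by
    rw [hGdef]
    exact (Set.toFinite _).union (Set.finite_range _)
  have hGi : ∀ x ∈ G, IsIntegral R x := by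
    intro x hx
    rw [hGdef] at hx
    rcases hx with hx | ⟨q, rfl⟩
    · rcases hx with rfl | rfl | rfl
      · exact hz2i
      · exact hz3i
      · exact hz5i
    · exact (e q).2
  have hTle : Algebra.adjoin R G ≤ integralClosure R W := Algebra.adjoin_le hGi
  have hTfin : Module.Finite R (Algebra.adjoin R G) :=
    ⟨(Submodule.fg_top _).2 (fg_adjoin_of_finite hG hGi)⟩
  have hz2G : z2 ∈ Algebra.adjoin R G := Algebra.subset_adjoin (by rw [hGdef]; simp)
  have hz3G : z3 ∈ Algebra.adjoin R G := Algebra.subset_adjoin (by rw [hGdef]; simp)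
  have hz5G : z5 ∈ Algebra.adjoin R G := Algebra.subset_adjoin (by rw [hGdef]; simp)
  have heG : ∀ q, (e q : W) ∈ Algebra.adjoin R G := fun q =>
    Algebra.subset_adjoin (by rw [hGdef]; exact Or.inr ⟨q, rfl⟩)
  obtain ⟨T, hTdef⟩ : ∃ T : Subalgebra R W, T = Algebra.adjoin R G := ⟨_, rfl⟩
  rw [← hTdef] at hTle hTfin hz2G hz3G hz5G heG
  have hTsep : ∀ n n' : Ideal (integralClosure R W), n.IsMaximal → n'.IsMaximal → n ≠ n' →
      ∃ e : T, Subalgebra.inclusion hTle e ∈ n ∧ Subalgebra.inclusion hTle e ∉ n' := by
    intro n n' hn hn' hne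
    have h := he (⟨n, hn⟩, ⟨n', hn'⟩) (fun h => hne (congrArg Subtype.val h))
    exact ⟨⟨(e (⟨n, hn⟩, ⟨n', hn'⟩) : W), heG _⟩, h.1, h.2⟩
  let _ : FirstOrder.Ring.CompatibleRing T := FirstOrder.Ring.compatibleRingOfRing T
  have hNT : NIPRing T := nip_subalgebra_plus34 (K := K) T hN
  have hTint : Algebra.IsIntegral R T := Algebra.IsIntegral.of_finite R T
  have hζ : ∀ q : ℕ, (q = 2 ∨ q = 3 ∨ q = 5) → ∃ ζ : T, ∑ j ∈ range q, ζ ^ j = 0 := by
    have aux : ∀ (q : ℕ) (z : W) (hz : z ∈ T), ∑ j ∈ range q, z ^ j = 0 →
        ∃ ζ : T, ∑ j ∈ range q, ζ ^ j = 0 := by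
      intro q z hz h
      refine ⟨⟨z, hz⟩, ?_⟩
      apply Subtype.val_injective
      rw [AddSubmonoidClass.coe_finsetSum]
      exact h
    rintro q (rfl | rfl | rfl)
    · exact aux 2 z2 hz2G hz2
    · exact aux 3 z3 hz3G hz3
    · exact aux 5 z5 hz5G hz5
  have hhens : ∀ (M : Ideal T) [M.IsMaximal], HenselianLocalRing (Localization.AtPrime M) := by
    intro M hM
    have key : ∀ (A : Type) [CommRing A] [IsDomain A] [Algebra T A] [IsLocalization.AtPrime A M],
        HenselianLocalRing A := by
      intro A _ _ _ _
      have h1 : IsLocalRing A := IsLocalization.AtPrime.isLocalRing A M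
      have hu : ∀ s : M.primeCompl, IsUnit (algebraMap T W s) := by
        intro s
        rw [isUnit_iff_ne_zero]
        intro h0
        have h2 : (s : T) = 0 := FaithfulSMul.algebraMap_injective T W (by rw [h0, map_zero])
        exact s.2 (by rw [h2]; exact M.zero_mem)
      let φ : A →+* W := IsLocalization.lift (M := M.primeCompl) hu
      have hφ : ∀ t : T, φ (algebraMap T A t) = algebraMap T W t := fun t =>
        IsLocalization.lift_eq hu t
      let _ : Algebra A W := φ.toAlgebra
      have hst : IsScalarTower T A W := IsScalarTower.of_algebraMap_eq fun t => (hφ t).symm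
      have hinjA : Function.Injective (algebraMap A W) := by
        rw [injective_iff_map_eq_zero]
        intro x hx
        obtain ⟨a, s, rfl⟩ := IsLocalization.exists_mk'_eq M.primeCompl x
        have h3 : IsLocalization.mk' A a s * algebraMap T A s = algebraMap T A a :=
          IsLocalization.mk'_spec A a s
        have h4 : algebraMap T W a = 0 := by
          rw [← hφ, ← h3, map_mul]
          have h5 : φ (IsLocalization.mk' A a s) = 0 := hx
          rw [h5, zero_mul]
        have h6 : a = 0 := FaithfulSMul.algebraMap_injective T W (by rw [h4, map_zero])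
        rw [h6, IsLocalization.mk'_zero]
      have hfA : FaithfulSMul A W := (faithfulSMul_iff_algebraMap_injective A W).2 hinjA
      exact henselian_of_unibranch34 (K := W) (isLocalRing_of_sep_plus34 T hTle hTsep M A)
    exact key _
  obtain ⟨M₀, hM₀⟩ := Ideal.exists_maximal T
  have hTl' : IsLocalRing T := by
    refine IsLocalRing.of_unique_max_ideal ⟨M₀, hM₀, fun N hNmax => ?_⟩
    haveI := hM₀.isPrime
    haveI := hNmax.isPrime
    obtain ⟨q, hq, hq1, hq2⟩ := exists_q34 M₀ N hM₀ hNmax
    have hqp : q.Prime := by rcases hq with rfl | rfl | rfl <;> norm_num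
    obtain ⟨ζ, hζ'⟩ := hζ q hq
    rcases theoremPD hNT M₀ N (hhens M₀) (Or.inr (hhens N)) q hqp hq1 hq2 ζ hζ' with h | h
    · exact (hM₀.eq_of_le hNmax.ne_top h).symm
    · exact hNmax.eq_of_le hM₀.ne_top h
  have hTh : HenselianLocalRing T := henselian_of_localization hTl' M₀ (hhens M₀)
  -- the integral closure is local
  have hTl : IsLocalRing T := hTl'
  have hAt : IsLocalization.AtPrime T (maximalIdeal T) := by
    refine IsLocalization.self ?_
    intro x hx
    by_contra hn
    exact hx hn
  have hU2 : IsLocalRing (integralClosure T W) :=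
    isLocalRing_of_sep_plus34 T hTle hTsep (maximalIdeal T) T
  have hU3 : IsLocalRing (integralClosure R W) := by
    let j : integralClosure R W →+* integralClosure T W :=
      { toFun := fun s => ⟨(s : W), by
          have h0 : IsIntegral R (s : W) := s.2
          exact h0.tower_top⟩
        map_one' := rfl
        map_mul' := fun _ _ => rfl
        map_zero' := rfl
        map_add' := fun _ _ => rfl }
    have hj : Function.Bijective j := by
      constructor
      · intro x y hxy
        exact Subtype.ext (congrArg (fun z : integralClosure T W => (z : W)) hxy)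
      · intro y
        have h0 : IsIntegral T (y : W) := y.2
        exact ⟨⟨(y : W), isIntegral_trans (R := R) (A := T) _ h0⟩, Subtype.ext rfl⟩
    exact (RingEquiv.ofBijective j hj).symm.isLocalRing
  have hRl : IsLocalRing R := by
    have hinj : Function.Injective (algebraMap R (integralClosure R W)) := by
      intro x y hxy
      apply hRW
      exact congrArg (fun z : integralClosure R W => (z : W)) hxy
    have h1 : IsLocalHom (algebraMap R (integralClosure R W)) :=
      RingHom.IsIntegral.isLocalHom (algebraMap_isIntegral_iff.mpr inferInstance) hinj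
    exact RingHom.domain_isLocalRing (algebraMap R (integralClosure R W))
  exact henselian_of_unibranch34 (K := W) hU3

end Pool.Agent.AIC
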