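import Pool.Agent.AIC.EndF32
import Pool.Agent.AIC.EndLemmas82
import Pool.Agent.AIC.HType94
import Pool.Agent.AIC.NipPlus83
import Pool.Agent.AIC.TheoremPF83

/-!
# MP_313bb4: Theorem R+, local form

If only finitely many primes of the absolute integral closure of the NIP domain `R` lie over the
prime `P`, then the localization at `P` is henselian. If this holds for all maximal ideals, then
`R` is a henselian local ring.
-/

set_option autoImplicit false
set_option linter.style.haveILetI false

namespace Pool.Agent.AIC

open Polynomial IsLocalRing FirstOrder.Ring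

/-- at a henselian prime the closure in a field has finitely many (in fact one) primes. -/
theorem finite_over_of_hens32 {R K : Type} [CommRing R] [IsDomain R] [Field K] [Algebra R K]
    [FaithfulSMul R K] (Q : Ideal R) [Q.IsPrime]
    (hH : HenselianLocalRing (Localization.AtPrime Q)) :
    {N : Ideal (integralClosure R K) | Over Q N}.Finite := by
  obtain ⟨alg, htow, hinjA⟩ := exists_algebra_loc (T := R) (F := K) Q
  have hloc : IsLocalRing (integralClosure (Localization.AtPrime Q) K) := closure_local94
  refine Set.Subsingleton.finite fun N hN N' hN' => ?_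
  exact unique_of_local Q (Localization.AtPrime Q) (FaithfulSMul.algebraMap_injective R K) hloc
    N N' hN hN'

/-- finitely many primes of the absolute integral closure over `P`: henselian at `P`. -/
theorem hens_of_finite_over32 {R W : Type} [CommRing R] [IsDomain R] [CompatibleRing R]
    [Field W] [IsAlgClosed W] [Algebra R W] [Algebra (FractionRing R) W]
    [IsScalarTower R (FractionRing R) W] (hN : NIPRing R) (P : Ideal R) [hP : P.IsPrime]
    (hfin : {N : Ideal (integralClosure R W) | Over P N}.Finite) :
    HenselianLocalRing (Localization.AtPrime P) := by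
  have hinjW : Function.Injective (algebraMap R W) := by
    rw [IsScalarTower.algebraMap_eq R (FractionRing R) W]
    exact (algebraMap (FractionRing R) W).injective.comp (IsFractionRing.injective R _)
  haveI : FaithfulSMul R W := (faithfulSMul_iff_algebraMap_injective _ _).mpr hinjW
  obtain ⟨T, hTfin, -, hT⟩ := exists_isolating_set {N : Ideal (integralClosure R W) | Over P N}
    hfin ∅ Set.finite_empty (fun x hx => absurd hx (Set.notMem_empty x))
  haveI : Algebra.IsIntegral R T := Algebra.IsIntegral.of_finite R T
  letI : CompatibleRing T := compatibleRingOfRing _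
  have hNT : NIPRing T := nip_subalgebra_plus (K := FractionRing R) T hN
  haveI : FaithfulSMul T W := by
    rw [faithfulSMul_iff_algebraMap_injective]
    exact Subtype.val_injective
  have hb := closureMap_bijective (R := R) (T := T) (F := W)
  -- every prime of the closure of `R` over `P` comes from a prime of the closure of `T`
  have hlift : ∀ N : Ideal (integralClosure R W), Over P N →
      ∃ (N₁ : Ideal (integralClosure T W)) (P₁ : Ideal T), P₁.IsPrime ∧ Over P₁ N₁ ∧
        N₁.comap (closureMap R T W) = N ∧ (∀ r : R, algebraMap R T r ∈ P₁ ↔ r ∈ P) := by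
    intro N hN
    let e : integralClosure R W ≃+* integralClosure T W := RingEquiv.ofBijective _ hb
    have hNp : N.IsPrime := hN.1
    have hcomp : (N.comap (e.symm : integralClosure T W →+* integralClosure R W)).comap
        (closureMap R T W) = N := by
      ext x
      rw [Ideal.mem_comap, Ideal.mem_comap]
      have hx : (e.symm : integralClosure T W →+* integralClosure R W) (closureMap R T W x) = x :=
        e.symm_apply_apply x
      rw [hx]
    haveI h1 : (N.comap (e.symm : integralClosure T W →+* integralClosure R W)).IsPrime :=
      Ideal.comap_isPrime _ N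
    refine ⟨N.comap (e.symm : integralClosure T W →+* integralClosure R W),
      (N.comap (e.symm : integralClosure T W →+* integralClosure R W)).comap
        (algebraMap T (integralClosure T W)), Ideal.comap_isPrime _ _, ⟨h1, fun t => Iff.rfl⟩,
      hcomp, fun r => ?_⟩
    rw [Ideal.mem_comap, ← closureMap_algebraMap, ← Ideal.mem_comap, hcomp]
    exact hN.2 r
  have hhens : ∀ (P₁ : Ideal T) [P₁.IsPrime], (∀ r : R, algebraMap R T r ∈ P₁ ↔ r ∈ P) →
      HenselianLocalRing (Localization.AtPrime P₁) := by
    intro P₁ _ h1
    refine hens_of_unique82 (W := W) P₁ fun M M' hM hM' => ?_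
    exact hT P₁ M M' hM hM' (over_comap P P₁ h1 M hM) (over_comap P P₁ h1 M' hM')
  refine hens_of_unique82 (W := W) P fun N N' hN hN' => ?_
  obtain ⟨N₁, P₁, hp₁, ho₁, hc₁, ht₁⟩ := hlift N hN
  obtain ⟨N₂, P₂, hp₂, ho₂, hc₂, ht₂⟩ := hlift N' hN'
  have hPP : P₁ = P₂ := by
    rcases theoremPF hNT P₁ P₂ (hhens P₁ ht₁) (finite_over_of_hens32 P₂ (hhens P₂ ht₂)) with h | h
    · exact eq_of_le_over82 P P₁ P₂ ht₁ ht₂ h
    · exact (eq_of_le_over82 P P₂ P₁ ht₂ ht₁ h).symm
  subst hPP
  have h3 : N₁ = N₂ := hT P₁ N₁ N₂ ho₁ ho₂ (by rw [hc₁]; exact hN) (by rw [hc₂]; exact hN')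
  rw [← hc₁, ← hc₂, h3]

/-- **Theorem R+**: an NIP domain whose maximal ideals are finitely branched (in the closure in
the fraction field), one of them even in the absolute integral closure (for example because the
localization at it is henselian), is a henselian local ring. -/
theorem theoremPlusP {R W : Type} [CommRing R] [IsDomain R] [CompatibleRing R]
    [Field W] [IsAlgClosed W] [Algebra R W] [Algebra (FractionRing R) W]
    [IsScalarTower R (FractionRing R) W] (hN : NIPRing R)
    (hfin : ∀ M : Ideal R, M.IsMaximal →
      {N : Ideal (integralClosure R (FractionRing R)) | Over M N}.Finite)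
    (M : Ideal R) [hM : M.IsMaximal]
    (hfinM : {N : Ideal (integralClosure R W) | Over M N}.Finite) :
    HenselianLocalRing R := by
  have hh : HenselianLocalRing (Localization.AtPrime M) :=
    hens_of_finite_over32 (W := W) hN M hfinM
  refine henselian_of_localization ?_ M hh
  refine IsLocalRing.of_unique_max_ideal ⟨M, hM, fun M' hM' => ?_⟩
  haveI := hM'.isPrime
  rcases theoremPF hN M M' hh (hfin M' hM') with h | h
  · exact (hM.eq_of_le hM'.ne_top h).symm
  · exact hM'.eq_of_le hM.ne_top h

end Pool.Agent.AIC
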