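import Mathlib
import Pool.Agent.AIC.PointsAux
import Pool.Agent.AIC.Exist

set_option autoImplicit false
set_option linter.unusedSectionVars false

namespace Pool.Agent.AIC

open Finset Polynomial

variable {ι : Type} [Fintype ι] [DecidableEq ι] {q : ℕ} [Fact q.Prime]

theorem claimP {R : Type} [CommRing R] [IsDomain R]
    (hR : ∀ f : R[X], f.Monic → 0 < f.natDegree → ∃ r, f.IsRoot r)
    (m₁ m₂ : Ideal R) [m₁.IsMaximal] [m₂.IsMaximal] (h12 : m₁ ≠ m₂)
    (hq1 : (q : R) ∉ m₁) (hq2 : (q : R) ∉ m₂) (ζ : R) (hζ : ∑ j ∈ range q, ζ ^ j = 0)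
    (hι : 0 < Fintype.card ι)
    (c : ι → R) (hc1 : ∀ i, c i ∉ m₁) (hc2 : ∀ i, c i ∉ m₂)
    (hd1 : ∀ i j, i ≠ j → c i ^ q - c j ^ q ∉ m₁) (hd2 : ∀ i j, i ≠ j → c i ^ q - c j ^ q ∉ m₂)
    (ε : ι → ZMod q) :
    ∃ (x : R) (y : ι → R), x ∈ m₁ ∧ x ∈ m₂ ∧ (∀ i, y i ^ q = x + c i ^ q) ∧
      (∀ i, y i - c i ∈ m₁) ∧ (∀ i, y i - ζ ^ (ε i).val * c i ∈ m₂) := by
  classical
  have hqpos : 0 < q := (Fact.out : q.Prime).pos
  let _ := Ideal.Quotient.field m₁
  let _ := Ideal.Quotient.field m₂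
  have _ := isAlgClosed_quotient hR m₁
  have _ := isAlgClosed_quotient hR m₂
  set g₁ : R →+* R ⧸ m₁ := Ideal.Quotient.mk m₁ with hg₁
  set g₂ : R →+* R ⧸ m₂ := Ideal.Quotient.mk m₂ with hg₂
  have hz1 : ∀ x, g₁ x = 0 ↔ x ∈ m₁ := fun x => Ideal.Quotient.eq_zero_iff_mem
  have hz2 : ∀ x, g₂ x = 0 ↔ x ∈ m₂ := fun x => Ideal.Quotient.eq_zero_iff_mem
  have hζ1 : ∑ j ∈ range q, (g₁ ζ) ^ j = 0 := by
    have := congrArg g₁ hζ
    simpa [map_sum, map_pow] using this
  have hζ2 : ∑ j ∈ range q, (g₂ ζ) ^ j = 0 := by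
    have := congrArg g₂ hζ
    simpa [map_sum, map_pow] using this
  have hq1' : ((q : ℕ) : R ⧸ m₁) ≠ 0 := by
    intro h
    exact hq1 ((hz1 _).mp (by rw [map_natCast]; exact h))
  have hq2' : ((q : ℕ) : R ⧸ m₂) ≠ 0 := by
    intro h
    exact hq2 ((hz2 _).mp (by rw [map_natCast]; exact h))
  -- the two points
  set c₁ : ι → R ⧸ m₁ := fun i => g₁ (c i) with hc₁
  set c₂ : ι → R ⧸ m₂ := fun i => g₂ (ζ ^ (ε i).val * c i) with hc₂
  have hc₁0 : ∀ i, c₁ i ≠ 0 := fun i h => hc1 i ((hz1 _).mp h)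
  have hζ20 : g₂ ζ ≠ 0 := by
    intro h
    have := zeta_pow (g₂ ζ) hζ2
    rw [h, zero_pow hqpos.ne'] at this
    exact zero_ne_one this
  have hc₂0 : ∀ i, c₂ i ≠ 0 := by
    intro i h
    simp only [hc₂, map_mul, map_pow] at h
    rcases mul_eq_zero.mp h with h | h
    · exact hζ20 (eq_zero_of_pow_eq_zero h)
    · exact hc2 i ((hz2 _).mp h)
  have hc₂q : ∀ i, c₂ i ^ q = g₂ (c i) ^ q := by
    intro i
    simp only [hc₂, map_mul, map_pow]
    rw [mul_pow, ← pow_mul, mul_comm _ q, pow_mul, zeta_pow _ hζ2, one_pow, one_mul]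
  have hinj1 : Function.Injective (fun i => c₁ i ^ q) := by
    intro i j h
    by_contra hne
    apply hd1 i j hne
    rw [← hz1, map_sub, map_pow, map_pow]
    exact sub_eq_zero.mpr h
  have hinj2 : Function.Injective (fun i => c₂ i ^ q) := by
    intro i j h
    by_contra hne
    apply hd2 i j hne
    rw [← hz2, map_sub, map_pow, map_pow]
    simp only [hc₂q] at h
    exact sub_eq_zero.mpr h
  choose η₁ hη₁ hη₁0 using fun i => exists_root q hqpos hq1' (c₁ i) (hc₁0 i)
  choose η₂ hη₂ hη₂0 using fun i => exists_root q hqpos hq2' (c₂ i) (hc₂0 i)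
  obtain ⟨p₁, hp₁w, hp₁d, hp₁n⟩ :=
    exists_F hι (g₁ ζ) hζ1 hq1' c₁ hc₁0 hinj1 η₁ hη₁ hη₁0
  obtain ⟨p₂, hp₂w, hp₂d, hp₂n⟩ :=
    exists_F hι (g₂ ζ) hζ2 hq2' c₂ hc₂0 hinj2 η₂ hη₂ hη₂0
  set n := Fintype.card ι with hn
  set d := 2 * n with hd
  -- lift
  have hcop : IsCoprime m₁ m₂ := by
    rw [Ideal.isCoprime_iff_sup_eq]
    exact Ideal.IsMaximal.coprime_of_ne inferInstance inferInstance h12
  have hlift : ∀ s : ι → ZMod q, ∃ P : R[X], (P ≠ 0 → q * P.natDegree + wt s < q * d) ∧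
      P.map g₁ = p₁ s ∧ P.map g₂ = p₂ s := by
    intro s
    by_cases h0 : p₁ s = 0 ∧ p₂ s = 0
    · refine ⟨0, fun h => absurd rfl h, ?_, ?_⟩
      · rw [h0.1, Polynomial.map_zero]
      · rw [h0.2, Polynomial.map_zero]
    · obtain ⟨P, hP1, hP2, hP3⟩ := lift2 m₁ m₂ hcop (p₁ s) (p₂ s)
        (max (p₁ s).natDegree (p₂ s).natDegree) (le_max_left _ _) (le_max_right _ _)
      refine ⟨P, fun _ => ?_, hP2, hP3⟩
      have hb : q * max (p₁ s).natDegree (p₂ s).natDegree + wt s < q * d := by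
        rcases le_total (p₁ s).natDegree (p₂ s).natDegree with hle | hle
        · rw [max_eq_right hle]
          by_cases h2 : p₂ s = 0
          · have h1 : p₁ s ≠ 0 := fun h => h0 ⟨h, h2⟩
            have := hp₁w s h1
            rw [h2, natDegree_zero] at hle ⊢
            have h3 : (p₁ s).natDegree = 0 := by omega
            rw [h3] at this
            exact this
          · exact hp₂w s h2
        · rw [max_eq_left hle]
          by_cases h1 : p₁ s = 0
          · have h2 : p₂ s ≠ 0 := fun h => h0 ⟨h1, h⟩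
            have := hp₂w s h2
            rw [h1, natDegree_zero] at hle ⊢
            have h3 : (p₂ s).natDegree = 0 := by omega
            rw [h3] at this
            exact this
          · exact hp₁w s h1
      have : q * P.natDegree ≤ q * max (p₁ s).natDegree (p₂ s).natDegree :=
        Nat.mul_le_mul_left _ hP1
      omega
  choose P hPw hP1 hP2 using hlift
  have hu1 : ∀ s, (fam d P s).map g₁ = fam d p₁ s := by
    intro s
    rw [fam_map]
    simp only [fam, hP1]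
  have hu2 : ∀ s, (fam d P s).map g₂ = fam d p₂ s := by
    intro s
    rw [fam_map]
    simp only [fam, hP2]
  obtain ⟨hΦm, hΦn⟩ := monic_det (fun i => c i ^ q) d (by omega) P hPw
  obtain ⟨rs, hrs, hcard⟩ := splits_of_root hR _ _ hΦm hΦn
  have hmap1 : (nmat (fun i => X + C (c₁ i ^ q)) (fam d p₁)).det
      = ((rs.map g₁).map (fun r => X - C r)).prod := by
    have h1 := det_nmat_map (Polynomial.mapRingHom g₁) (fun i => X + C (c i ^ q)) (fam d P)
    have h2 := congrArg (Polynomial.mapRingHom g₁) hrs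
    rw [map_multiset_prod, Multiset.map_map] at h2
    rw [Multiset.map_map]
    have h3 : (fun s => (Polynomial.mapRingHom g₁) (fam d P s)) = fam d p₁ := by
      ext1 s
      exact hu1 s
    have h4 : (fun i => (Polynomial.mapRingHom g₁) (X + C (c i ^ q)))
        = fun i => X + C (c₁ i ^ q) := by
      ext1 i
      simp [hc₁]
    rw [h3, h4] at h1
    rw [← h1]
    refine h2.trans ?_
    congr 1
    refine Multiset.map_congr rfl fun r _ => ?_
    simp
  have hmap2 : (nmat (fun i => X + C (c₂ i ^ q)) (fam d p₂)).det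
      = ((rs.map g₂).map (fun r => X - C r)).prod := by
    have h1 := det_nmat_map (Polynomial.mapRingHom g₂) (fun i => X + C (c i ^ q)) (fam d P)
    have h2 := congrArg (Polynomial.mapRingHom g₂) hrs
    rw [map_multiset_prod, Multiset.map_map] at h2
    rw [Multiset.map_map]
    have h3 : (fun s => (Polynomial.mapRingHom g₂) (fam d P s)) = fam d p₂ := by
      ext1 s
      exact hu2 s
    have h4 : (fun i => (Polynomial.mapRingHom g₂) (X + C (c i ^ q)))
        = fun i => X + C (c₂ i ^ q) := by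
      ext1 i
      rw [hc₂q i]
      simp
    rw [h3, h4] at h1
    rw [← h1]
    refine h2.trans ?_
    congr 1
    refine Multiset.map_congr rfl fun r _ => ?_
    simp
  have hk1 := count_zero_ge (g₁ ζ) hζ1 hq1' c₁ hc₁0 η₁ hη₁ hη₁0 _ (fam d p₁) hp₁d _ hmap1
  have hk2 := count_zero_ge (g₂ ζ) hζ2 hq2' c₂ hc₂0 η₂ hη₂ hη₂0 _ (fam d p₂) hp₂d _ hmap2
  -- common root
  have hcommon : ∃ r ∈ rs, g₁ r = 0 ∧ g₂ r = 0 := by
    by_contra hno
    push Not at hno
    rw [Multiset.count_map] at hk1 hk2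
    have h1 := congrArg Multiset.card
      (Multiset.filter_add_filter (fun a => (0 : R ⧸ m₁) = g₁ a) (fun a => (0 : R ⧸ m₂) = g₂ a) rs)
    have h2 : Multiset.filter (fun a => (0 : R ⧸ m₁) = g₁ a ∧ (0 : R ⧸ m₂) = g₂ a) rs = 0 := by
      rw [Multiset.filter_eq_nil]
      intro a ha h
      exact hno a ha h.1.symm h.2.symm
    rw [h2, Multiset.card_add, add_zero] at h1
    have h3 := Multiset.card_le_card
      (Multiset.filter_le (fun a => (0 : R ⧸ m₁) = g₁ a ∨ (0 : R ⧸ m₂) = g₂ a) rs)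
    rw [← h1, hcard] at h3
    have h4 : n * q ^ n + 1 + (n * q ^ n + 1) ≤ d * q ^ n := le_trans (by gcongr) h3
    have h5 : d * q ^ n = n * q ^ n + n * q ^ n := by rw [hd]; ring
    omega
  obtain ⟨r, hr, hr1, hr2⟩ := hcommon
  -- choose y
  have hy : ∀ i, ∃ y : R, y ^ q = r + c i ^ q := by
    intro i
    obtain ⟨y, hy⟩ := hR (X ^ q - C (r + c i ^ q)) (monic_X_pow_sub_C _ hqpos.ne') (by
      rw [natDegree_X_pow_sub_C]; exact hqpos)
    refine ⟨y, ?_⟩
    have := hy.eq_zero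
    simp only [eval_sub, eval_pow, eval_X, eval_C] at this
    exact sub_eq_zero.mp this
  choose y hy using hy
  have hy0 : ∀ i, y i ≠ 0 := by
    intro i h
    have h1 := hy i
    rw [h, zero_pow hqpos.ne'] at h1
    have h2 := congrArg g₁ h1
    rw [map_zero, map_add, hr1, zero_add, map_pow] at h2
    exact hc₁0 i (eq_zero_of_pow_eq_zero h2.symm)
  have hroot : (nmat (fun i => X + C (c i ^ q)) (fam d P)).det.eval r = 0 := by
    have : (nmat (fun i => X + C (c i ^ q)) (fam d P)).det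
        = (rs.map (fun r => X - C r)).prod := hrs
    rw [this]
    obtain ⟨t, ht⟩ := Multiset.exists_cons_of_mem hr
    rw [ht]
    simp
  have hqR : ((q : ℕ) : R) ≠ 0 := by
    intro h; exact hq1 (by rw [h]; exact m₁.zero_mem)
  have hprod : ∏ δ : ι → ZMod q, ev (tw ζ δ y) (fun s => (fam d P s).eval r) = 0 := by
    rw [← det_nmat ζ hζ hqR y hy0, ← hroot]
    have h1 := det_nmat_map (Polynomial.evalRingHom r) (fun i => X + C (c i ^ q)) (fam d P)
    simp only [Polynomial.coe_evalRingHom] at h1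
    rw [h1]
    congr 2
    ext i
    rw [hy i]
    simp
  obtain ⟨δ, _, hδ⟩ := Finset.prod_eq_zero_iff.mp hprod
  have htw : ∀ i, tw ζ δ y i ^ q = r + c i ^ q := by
    intro i
    rw [tw_pow ζ hζ, hy i]
  refine ⟨r, tw ζ δ y, (hz1 _).mp hr1, (hz2 _).mp hr2, htw, ?_, ?_⟩
  · have h := reduce_zero g₁ ζ hζ1 hq1' c₁ hc₁0 r hr1 (tw ζ δ y) (fun i => by
      rw [pow_map_root g₁ _ _ q (htw i), map_add, hr1, zero_add, map_pow]) (fam d P) hδ
      (fun δ' hδ' => by
        have := hp₁n δ' hδ'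
        simp only [hu1]
        exact this)
    intro i
    rw [← hz1, map_sub, h i]
    simp [hc₁]
  · have h := reduce_zero g₂ ζ hζ2 hq2' c₂ hc₂0 r hr2 (tw ζ δ y) (fun i => by
      rw [pow_map_root g₂ _ _ q (htw i), map_add, hr2, zero_add, map_pow, hc₂q i]) (fam d P) hδ
      (fun δ' hδ' => by
        have := hp₂n δ' hδ'
        simp only [hu2]
        exact this)
    intro i
    rw [← hz2, map_sub, h i]
    simp [hc₂]

end Pool.Agent.AIC
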