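import Pool.Agent.AIC.Star83

/-! MP_313bb4, fourth stage (Theorem P): prime ideals of an NIP domain. Membership of finitely many
elements in a prime ideal is expressed by divisibility, so that no Jacobson radical is needed. -/

set_option autoImplicit false

namespace Pool.Agent.AIC

open Finset Polynomial

section formula

open FirstOrder FirstOrder.Language FirstOrder.Ring

/-- variables: `c, s₁, s₂ ; a, b, t` and the bound variables `s, z` -/
abbrev V6 (n : ℕ) : Type := (Fin 3 ⊕ Fin 3) ⊕ Fin n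

/-- `(s - c * t) * z = s_e` -/
noncomputable def divD (e : Fin 3) : Language.ring.BoundedFormula (Fin 3 ⊕ Fin 3) 2 :=
  (((Term.var (Sum.inr 0) : Language.ring.Term (V6 2)) +
      -(Term.var (Sum.inl (Sum.inl 0)) * Term.var (Sum.inl (Sum.inr 2)))) *
    Term.var (Sum.inr 1)).bdEqual (Term.var (Sum.inl (Sum.inl e)))

/-- the equation `s ^ q * b = (a + c ^ q * b) * t ^ q` -/
noncomputable def eqP (q : ℕ) : Language.ring.BoundedFormula (Fin 3 ⊕ Fin 3) 1 :=
  ((tpow (Term.var (Sum.inr 0)) q * Term.var (Sum.inl (Sum.inr 1)) :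
      Language.ring.Term (V6 1)).bdEqual
    ((Term.var (Sum.inl (Sum.inr 0)) +
      tpow (Term.var (Sum.inl (Sum.inl 0))) q * Term.var (Sum.inl (Sum.inr 1))) *
      tpow (Term.var (Sum.inl (Sum.inr 2))) q))

/-- the formula -/
noncomputable def primeF (q : ℕ) : Language.ring.Formula (Fin 3 ⊕ Fin 3) :=
  BoundedFormula.ex (eqP q ⊓ ((BoundedFormula.ex (divD 1)).not ⊓ (BoundedFormula.ex (divD 2)).not))

variable {R : Type} [CommRing R] [CompatibleRing R]

theorem realize_divD (a : Fin 3 → R) (b : Fin 3 → R)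
    (e : Fin 3) (s : R) (xs : Fin 0 → R) :
    (BoundedFormula.ex (divD e)).Realize (Sum.elim a b)
      (Fin.snoc (α := fun _ => R) xs s) ↔ (s - a 0 * b 2) ∣ a e := by
  rw [BoundedFormula.realize_ex]
  constructor
  · rintro ⟨z, hz⟩
    unfold divD at hz
    rw [BoundedFormula.realize_bdEqual] at hz
    simp [Fin.snoc] at hz
    exact ⟨z, by rw [← hz]; ring⟩
  · rintro ⟨z, hz⟩
    refine ⟨z, ?_⟩
    unfold divD
    rw [BoundedFormula.realize_bdEqual]
    simp [Fin.snoc]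
    rw [hz]
    ring

theorem realize_eqP (q : ℕ) (a : Fin 3 → R) (b : Fin 3 → R) (s : R) (xs : Fin 0 → R) :
    (eqP q).Realize (Sum.elim a b)
      (Fin.snoc (α := fun _ => R) xs s) ↔
      s ^ q * b 1 = (b 0 + a 0 ^ q * b 1) * b 2 ^ q := by
  unfold eqP
  rw [BoundedFormula.realize_bdEqual]
  simp [realize_tpow, Fin.snoc]

theorem realize_primeF (q : ℕ) (a : Fin 3 → R) (b : Fin 3 → R) :
    (primeF q).Realize (Sum.elim a b) ↔
      ∃ s : R, s ^ q * b 1 = (b 0 + a 0 ^ q * b 1) * b 2 ^ q ∧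
        ¬ ((s - a 0 * b 2) ∣ a 1) ∧ ¬ ((s - a 0 * b 2) ∣ a 2) := by
  unfold primeF Formula.Realize
  rw [BoundedFormula.realize_ex]
  refine exists_congr fun s => ?_
  rw [BoundedFormula.realize_inf, BoundedFormula.realize_inf,
    BoundedFormula.realize_not, BoundedFormula.realize_not, realize_eqP,
    realize_divD, realize_divD]

theorem nip_prime
    (h : ∀ (k m : ℕ) (φ : FirstOrder.Language.ring.Formula (Fin k ⊕ Fin m)),
      ∃ n : ℕ, ¬ ∃ (a : Fin n → Fin k → R) (b : Finset (Fin n) → Fin m → R),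
        ∀ (i : Fin n) (J : Finset (Fin n)), (φ.Realize (Sum.elim (a i) (b J)) ↔ i ∈ J))
    (q : ℕ) :
    ∃ n : ℕ, ¬ ∃ (c : Fin n → R) (σ₁ σ₂ : R) (a b t : Finset (Fin n) → R),
      ∀ (i : Fin n) (J : Finset (Fin n)),
        ((∃ s : R, s ^ q * b J = (a J + c i ^ q * b J) * t J ^ q ∧
          ¬ ((s - c i * t J) ∣ σ₁) ∧ ¬ ((s - c i * t J) ∣ σ₂)) ↔ i ∈ J) := by
  obtain ⟨n, hn⟩ := h 3 3 (primeF q)
  refine ⟨n, ?_⟩
  rintro ⟨c, σ₁, σ₂, a, b, t, hx⟩
  apply hn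
  refine ⟨fun i => ![c i, σ₁, σ₂], fun J => ![a J, b J, t J], fun i J => ?_⟩
  rw [realize_primeF]
  simpa using hx i J

end formula

section sigma

variable {R : Type} [CommRing R]

/-- finitely many elements: membership in a prime ideal is non-divisibility of one element -/
theorem exists_sigma (P : Ideal R) [hP : P.IsPrime] {α : Type} (A : Finset α) (z : α → R) :
    ∃ σ : R, ∀ x ∈ A, (¬ (z x ∣ σ) ↔ z x ∈ P) := by
  classical
  refine ⟨∏ x ∈ A.filter (fun x => z x ∉ P), z x, fun x hx => ⟨fun h => ?_, fun h h2 => ?_⟩⟩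
  · by_contra hcon
    exact h (Finset.dvd_prod_of_mem z (Finset.mem_filter.mpr ⟨hx, hcon⟩))
  · have h3 : ∏ x ∈ A.filter (fun x => z x ∉ P), z x ∈ P := Ideal.mem_of_dvd P h2 h
    rw [Ideal.IsPrime.prod_mem_iff] at h3
    obtain ⟨y, hy, hyP⟩ := h3
    exact (Finset.mem_filter.mp hy).2 hyP

end sigma

section patterns

variable {R : Type} [CommRing R] [IsDomain R]

theorem pow_eq_zeta (q : ℕ) (hq : q.Prime) (P : Ideal R) [hP : P.IsPrime] (hqP : (q : R) ∉ P)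
    (ζ : R) (hζ : ∑ j ∈ range q, ζ ^ j = 0) (x y : R) (h : x ^ q = y ^ q) :
    ∃ j < q, x = ζ ^ j * y := by
  have hq0 : (q : R) ∉ (⊥ : Ideal R) := fun h => hqP ((bot_le : (⊥ : Ideal R) ≤ P) h)
  have hprim : IsPrimitiveRoot ζ q := by
    rw [IsPrimitiveRoot.iff hq.pos]
    constructor
    · have := mul_geom_sum ζ q
      rw [hζ, mul_zero] at this
      exact (sub_eq_zero.mp this.symm)
    · intro l hl0 hlq hl
      apply zeta_pow_sub_one_notMem q hq ζ hζ ⊥ hq0 l hl0 hlq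
      rw [hl, sub_self]
      exact zero_mem _
  have hprod : ∏ μ ∈ nthRootsFinset q (1 : R), (x - μ * y) = 0 := by
    rw [← hprim.pow_sub_pow_eq_prod_sub_mul x y hq.pos, h, sub_self]
  obtain ⟨μ, hμ, hμ2⟩ := Finset.prod_eq_zero_iff.mp hprod
  have hμq : μ ^ q = 1 := by
    rwa [mem_nthRootsFinset hq.pos] at hμ
  have : NeZero q := ⟨hq.ne_zero⟩
  obtain ⟨j, hj, rfl⟩ := hprim.eq_pow_of_pow_eq_one hμq
  exact ⟨j, hj, sub_eq_zero.mp hμ2⟩

/-- the end of the proof: patterns at two prime ideals contradict NIP -/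
theorem false_of_patterns_prime
    (P Q : Ideal R) [hP : P.IsPrime] [hQ : Q.IsPrime]
    (q : ℕ) (hq : q.Prime) (hqP : (q : R) ∉ P) (hqQ : (q : R) ∉ Q)
    (ζ : R) (hζ : ∑ j ∈ range q, ζ ^ j = 0)
    (hpat : ∀ n : ℕ, 2 ≤ n → ∃ c : Fin n → R, (∀ i, c i ∉ P) ∧ (∀ i, c i ∉ Q) ∧
      ∀ ε : Fin n → ZMod q, ∃ (a b t : R) (s : Fin n → R), b ∉ P ∧ t ∉ P ∧ t ∉ Q ∧
      (∀ i, s i ^ q * b = (a + c i ^ q * b) * t ^ q) ∧
      (∀ i, s i - c i * t ∈ P) ∧ (∀ i, s i - ζ ^ (ε i).val * c i * t ∈ Q))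
    (hpow : ∃ n : ℕ, ¬ ∃ (c : Fin n → R) (σ₁ σ₂ : R) (a b t : Finset (Fin n) → R),
      ∀ (i : Fin n) (J : Finset (Fin n)),
        ((∃ s : R, s ^ q * b J = (a J + c i ^ q * b J) * t J ^ q ∧
          ¬ ((s - c i * t J) ∣ σ₁) ∧ ¬ ((s - c i * t J) ∣ σ₂)) ↔ i ∈ J)) :
    False := by
  classical
  obtain ⟨n, hn⟩ := hpow
  apply hn
  obtain ⟨c, hc1, hc2, hall⟩ := hpat (n + 2) (by omega)
  have hall' : ∀ J : Finset (Fin n), ∃ (a b t : R) (s : Fin (n + 2) → R), b ∉ P ∧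
      t ∉ P ∧ t ∉ Q ∧
      (∀ i, s i ^ q * b = (a + c i ^ q * b) * t ^ q) ∧
      (∀ i, s i - c i * t ∈ P) ∧
      (∀ i : Fin (n + 2), s i - ζ ^ (if ∃ j ∈ J, Fin.castAdd 2 j = i then
        (0 : ZMod q) else 1).val * c i * t ∈ Q) := fun J =>
    hall (fun i => if ∃ j ∈ J, Fin.castAdd 2 j = i then (0 : ZMod q) else 1)
  choose a b t s hb ht1 ht2 hst hs1 hs2 using hall'
  have hmem : ∀ (i : Fin n) (J : Finset (Fin n)),
      (∃ j ∈ J, Fin.castAdd 2 j = Fin.castAdd 2 i) ↔ i ∈ J := by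
    intro i J
    constructor
    · rintro ⟨j, hj, hji⟩
      rw [Fin.castAdd_inj] at hji
      exact hji ▸ hj
    · intro hi
      exact ⟨i, hi, rfl⟩
  -- the finite list of elements
  obtain ⟨σ₁, hσ₁⟩ := exists_sigma P (Finset.univ : Finset (Fin n × Finset (Fin n) × Fin q))
    (fun x => ζ ^ (x.2.2 : ℕ) * s x.2.1 (Fin.castAdd 2 x.1) - c (Fin.castAdd 2 x.1) * t x.2.1)
  obtain ⟨σ₂, hσ₂⟩ := exists_sigma Q (Finset.univ : Finset (Fin n × Finset (Fin n) × Fin q))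
    (fun x => ζ ^ (x.2.2 : ℕ) * s x.2.1 (Fin.castAdd 2 x.1) - c (Fin.castAdd 2 x.1) * t x.2.1)
  refine ⟨fun i => c (Fin.castAdd 2 i), σ₁, σ₂, a, b, t, fun i J => ⟨?_, ?_⟩⟩
  · rintro ⟨v, hvw, hv1, hv2⟩
    have hST := hst J (Fin.castAdd 2 i)
    have hb0 : b J ≠ 0 := fun h => hb J (h ▸ zero_mem _)
    have hpw : v ^ q = (s J (Fin.castAdd 2 i)) ^ q := by
      apply mul_right_cancel₀ hb0
      rw [hvw, hST]
    obtain ⟨j, hj, hvj⟩ := pow_eq_zeta q hq P hqP ζ hζ _ _ hpw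
    have hvP := (hσ₁ (i, J, ⟨j, hj⟩) (Finset.mem_univ _)).mp (by simpa [← hvj] using hv1)
    have hvQ := (hσ₂ (i, J, ⟨j, hj⟩) (Finset.mem_univ _)).mp (by simpa [← hvj] using hv2)
    simp only at hvP hvQ
    by_contra hi
    have h3 := hs2 J (Fin.castAdd 2 i)
    rw [if_neg (fun h => hi ((hmem i J).mp h))] at h3
    have hone : (1 : ZMod q).val = 1 := by
      have : Fact (1 < q) := ⟨hq.one_lt⟩
      exact ZMod.val_one q
    rw [hone, pow_one] at h3
    have h4 := hs1 J (Fin.castAdd 2 i)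
    have hT1 := ht1 J
    have hT2 := ht2 J
    have hC1 := hc1 (Fin.castAdd 2 i)
    have hC2 := hc2 (Fin.castAdd 2 i)
    set C := c (Fin.castAdd 2 i) with hC
    set S := s J (Fin.castAdd 2 i) with hS
    set T := t J with hT
    rcases Nat.eq_zero_or_pos j with rfl | hj0
    · rw [pow_zero, one_mul] at hvQ
      have h5 : (ζ ^ 1 - 1) * C * T ∈ Q := by
        have h6 : (ζ ^ 1 - 1) * C * T = (S - C * T) - (S - ζ * C * T) := by ring
        rw [h6]
        exact sub_mem hvQ h3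
      rcases hQ.mem_or_mem h5 with h6 | h6
      · rcases hQ.mem_or_mem h6 with h7 | h7
        · exact zeta_pow_sub_one_notMem q hq ζ hζ Q hqQ 1 one_pos hq.one_lt h7
        · exact hC2 h7
      · exact hT2 h6
    · have h5 : (ζ ^ j - 1) * C * T ∈ P := by
        have h6 : (ζ ^ j - 1) * C * T = (ζ ^ j * S - C * T) - ζ ^ j * (S - C * T) := by ring
        rw [h6]
        exact sub_mem hvP (Ideal.mul_mem_left _ _ h4)
      rcases hP.mem_or_mem h5 with h6 | h6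
      · rcases hP.mem_or_mem h6 with h7 | h7
        · exact zeta_pow_sub_one_notMem q hq ζ hζ P hqP j hj0 hj h7
        · exact hC1 h7
      · exact hT1 h6
  · intro hi
    have h3 := hs2 J (Fin.castAdd 2 i)
    rw [if_pos ((hmem i J).mpr hi), ZMod.val_zero, pow_zero, one_mul] at h3
    have h4 := hs1 J (Fin.castAdd 2 i)
    refine ⟨s J (Fin.castAdd 2 i), hst J _, ?_, ?_⟩
    · have h5 := hσ₁ (i, J, ⟨0, hq.pos⟩) (Finset.mem_univ _)
      simp only [pow_zero, one_mul] at h5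
      exact h5.mpr h4
    · have h5 := hσ₂ (i, J, ⟨0, hq.pos⟩) (Finset.mem_univ _)
      simp only [pow_zero, one_mul] at h5
      exact h5.mpr h3

end patterns

end Pool.Agent.AIC
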