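import Mathlib

/-! MP_313bb4, stage 5: unibranch localizations inside a field. -/

set_option autoImplicit false

namespace Pool.Agent.AIC

open nonZeroDivisors

/-- If the elements of `T` separate the maximal ideals of the integral closure of `R` in the
field `W`, then the localizations of `T` at maximal ideals have local integral closure in `W`. -/
theorem isLocalRing_of_sep_plus {R W : Type} [CommRing R] [IsDomain R] [Field W] [Algebra R W]
    [FaithfulSMul R W] (T : Subalgebra R W) (hT : T ≤ integralClosure R W)
    (hsep : ∀ n n' : Ideal (integralClosure R W), n.IsMaximal → n'.IsMaximal → n ≠ n' →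
      ∃ e : T, Subalgebra.inclusion hT e ∈ n ∧ Subalgebra.inclusion hT e ∉ n')
    (M : Ideal T) [hM : M.IsMaximal]
    (A : Type) [CommRing A] [IsDomain A] [Algebra T A] [IsLocalization.AtPrime A M]
    [Algebra A W] [IsScalarTower T A W] :
    IsLocalRing (integralClosure A W) := by
  haveI : IsLocalRing A := IsLocalization.AtPrime.isLocalRing A M
  have hint : ∀ s : integralClosure R W, IsIntegral A (s : W) := by
    intro s
    have h0 : IsIntegral R (s : W) := s.2
    have h1 : IsIntegral T (s : W) := h0.tower_top
    exact h1.tower_top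
  let ι : integralClosure R W →+* integralClosure A W :=
    { toFun := fun s => ⟨(s : W), hint s⟩
      map_one' := by ext; simp
      map_mul' := fun a b => by ext; simp
      map_zero' := by ext; simp
      map_add' := fun a b => by ext; simp }
  have hιt : ∀ t : T, ι (Subalgebra.inclusion hT t) =
      algebraMap A (integralClosure A W) (algebraMap T A t) := by
    intro t
    apply Subtype.ext
    change algebraMap T W t = algebraMap A W (algebraMap T A t)
    rw [IsScalarTower.algebraMap_apply T A W]
  have hcM : ∀ P : Ideal (integralClosure A W), P.IsMaximal → ∀ t : T,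
      (Subalgebra.inclusion hT t ∈ P.comap ι ↔ t ∈ M) := by
    intro P hP t
    haveI := hP
    haveI : (P.comap (algebraMap A (integralClosure A W))).IsMaximal :=
      Ideal.isMaximal_comap_of_isIntegral_of_isMaximal P
    have hP' := IsLocalRing.eq_maximalIdeal this
    rw [Ideal.mem_comap, hιt, ← Ideal.mem_comap, hP']
    exact IsLocalization.AtPrime.to_map_mem_maximal_iff A M t
  have hmax : ∀ P : Ideal (integralClosure A W), P.IsMaximal → (P.comap ι).IsMaximal := by
    intro P hP
    haveI := hP
    haveI : (P.comap ι).IsPrime := Ideal.comap_isPrime ι P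
    refine Ideal.isMaximal_of_isIntegral_of_isMaximal_comap'
      (Subalgebra.inclusion hT).toRingHom ?_ (P.comap ι) ?_
    · have h1 : (algebraMap R (integralClosure R W)).IsIntegral := fun s =>
        integralClosure.isIntegral s
      exact RingHom.IsIntegral.tower_top (algebraMap R T) (Subalgebra.inclusion hT).toRingHom h1
    · have : (P.comap ι).comap (Subalgebra.inclusion hT).toRingHom = M := by
        ext t
        exact hcM P hP t
      rw [this]
      exact hM
  have huniq : ∀ P Q : Ideal (integralClosure A W), P.IsMaximal → Q.IsMaximal → P = Q := by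
    intro P Q hP hQ
    have hPQ : P.comap ι = Q.comap ι := by
      by_contra hne
      obtain ⟨e, he1, he2⟩ := hsep _ _ (hmax P hP) (hmax Q hQ) hne
      exact he2 ((hcM Q hQ e).2 ((hcM P hP e).1 he1))
    refine hP.eq_of_le hQ.ne_top fun b hb => ?_
    obtain ⟨s, hs⟩ := IsIntegral.exists_multiple_integral_of_isLocalization M.primeCompl
      (Rₘ := A) (b : W) b.2
    have hk' : IsIntegral R (s • (b : W)) := by
      haveI : Algebra.IsIntegral R T := ⟨fun t => by
        have h0 : IsIntegral R (algebraMap T W t) := hT t.2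
        rwa [isIntegral_algebraMap_iff (FaithfulSMul.algebraMap_injective T W)] at h0⟩
      exact isIntegral_trans (R := R) (A := T) _ hs
    have hι : ι ⟨s • (b : W), hk'⟩ = ι (Subalgebra.inclusion hT s) * b := by
      rw [hιt]
      apply Subtype.ext
      change s • (b : W) = algebraMap A W (algebraMap T A s) * (b : W)
      rw [← IsScalarTower.algebraMap_apply T A W]
      exact Algebra.smul_def (R := T) (s : T) (b : W)
    have h1 : (⟨s • (b : W), hk'⟩ : integralClosure R W) ∈ P.comap ι := by
      rw [Ideal.mem_comap, hι]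
      exact P.mul_mem_left _ hb
    rw [hPQ, Ideal.mem_comap, hι] at h1
    rcases hQ.isPrime.mem_or_mem h1 with h2 | h2
    · exact absurd ((hcM Q hQ s).1 h2) s.2
    · exact h2
  obtain ⟨P, hP⟩ := Ideal.exists_maximal (integralClosure A W)
  exact IsLocalRing.of_unique_max_ideal ⟨P, hP, fun Q hQ => huniq Q P hQ hP⟩

/-- Stage 5, the analogue of piece K3 inside a field `W`. -/
theorem exists_unibranch_plus {R W : Type} [CommRing R] [IsDomain R] [Field W] [Algebra R W]
    [FaithfulSMul R W] (hfin : {n : Ideal (integralClosure R W) | n.IsMaximal}.Finite)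
    (F : Finset W) (hF : ∀ x ∈ F, IsIntegral R x) :
    ∃ T : Subalgebra R W, Module.Finite R T ∧ (∀ x ∈ F, x ∈ T) ∧ T ≤ integralClosure R W ∧
      ∀ (M : Ideal T) [M.IsMaximal] (A : Type) [CommRing A] [IsDomain A] [Algebra T A]
        [IsLocalization.AtPrime A M] [Algebra A W] [IsScalarTower T A W],
        IsLocalRing (integralClosure A W) := by
  classical
  have hsep : ∀ q : {n : Ideal (integralClosure R W) // n.IsMaximal} ×
      {n : Ideal (integralClosure R W) // n.IsMaximal},
      ∃ e : integralClosure R W, q.1 ≠ q.2 → e ∈ q.1.1 ∧ e ∉ q.2.1 := by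
    rintro ⟨⟨n, hn⟩, ⟨n', hn'⟩⟩
    by_cases h : n = n'
    · exact ⟨0, fun h' => absurd (Subtype.ext h) h'⟩
    · have hle : ¬ n ≤ n' := fun hle => h (hn.eq_of_le hn'.ne_top hle)
      obtain ⟨e, he, he'⟩ := SetLike.not_le_iff_exists.1 hle
      exact ⟨e, fun _ => ⟨he, he'⟩⟩
  choose e he using hsep
  haveI : Finite {n : Ideal (integralClosure R W) // n.IsMaximal} := hfin.to_subtype
  let G : Set W := (F : Set W) ∪ Set.range fun q => (e q : W)
  have hG : G.Finite := F.finite_toSet.union (Set.finite_range _)
  have hGi : ∀ x ∈ G, IsIntegral R x := by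
    rintro x (hx | ⟨q, rfl⟩)
    · exact hF x hx
    · exact (e q).2
  have hT : Algebra.adjoin R G ≤ integralClosure R W := Algebra.adjoin_le hGi
  refine ⟨Algebra.adjoin R G, ?_, fun x hx => Algebra.subset_adjoin (Or.inl hx), hT, ?_⟩
  · exact ⟨(Submodule.fg_top _).2 (fg_adjoin_of_finite hG hGi)⟩
  · intro M hM A _ _ _ _ _ _
    refine isLocalRing_of_sep_plus (Algebra.adjoin R G) hT ?_ M A
    intro n n' hn hn' hne
    have h := he (⟨n, hn⟩, ⟨n', hn'⟩) (fun h => hne (congrArg Subtype.val h))
    refine ⟨⟨(e (⟨n, hn⟩, ⟨n', hn'⟩) : W), Algebra.subset_adjoin (Or.inr ⟨_, rfl⟩)⟩, ?_, ?_⟩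
    · exact h.1
    · exact h.2

end Pool.Agent.AIC
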