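import Mathlib
import Pool.Agent.AIC.Side76
import Pool.Agent.AIC.CommonDen82

/-!
# Assembly of the claim of theorem H*
-/

set_option autoImplicit false
set_option linter.unusedSectionVars false

namespace Pool.Agent.AIC

open Finset Polynomial IsLocalRing

variable {ι : Type} [Fintype ι] [DecidableEq ι] {q : ℕ} [Fact q.Prime]

/-- the pattern at `m₁` (henselian localization) and `m₂` (any side with the interface). -/
theorem star_assembly {R : Type} [CommRing R] [IsDomain R]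
    (m₁ m₂ : Ideal R) [hm1 : m₁.IsMaximal] [hm2 : m₂.IsMaximal] (h12 : m₁ ≠ m₂)
    (hH : HenselianLocalRing (Localization.AtPrime m₁))
    (hu1 : ∃ u ∈ m₁, ∀ M : Ideal R, M.IsMaximal → u ∈ M → M = m₁)
    (hinf1 : Infinite (R ⧸ m₁))
    (hq1 : (q : R) ∉ m₁) (hq2 : (q : R) ∉ m₂) (ζ : R) (hζ : ∑ j ∈ range q, ζ ^ j = 0)
    (hι : 2 ≤ Fintype.card ι)
    (c : ι → R) (hc1 : ∀ i, c i ∉ m₁) (hc2 : ∀ i, c i ∉ m₂)
    (hd1 : ∀ i j, i ≠ j → c i ^ q - c j ^ q ∉ m₁)
    (ε : ι → ZMod q)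
    (hS : SecSide q m₂ ζ (fun i => ζ ^ (ε i).val * c i)) (hN : SecNear q m₂) :
    ∃ (a b : R) (s t : ι → R), a ∈ m₁ ∧ a ∈ m₂ ∧ b ∉ m₁ ∧ b ∉ m₂ ∧
      (∀ i, t i ∉ m₁) ∧ (∀ i, t i ∉ m₂) ∧
      (∀ i, s i ^ q * b = (a + c i ^ q * b) * t i ^ q) ∧
      (∀ i, s i - c i * t i ∈ m₁) ∧ (∀ i, s i - ζ ^ (ε i).val * c i * t i ∈ m₂) := by
  classical
  have hqpos : 0 < q := (Fact.out : q.Prime).pos
  obtain ⟨I₁, p₁, hI1m, hI1M, hp1w, H1⟩ :=
    side_hens m₁ hH hu1 ⟨m₂, hm2, h12.symm⟩ hinf1 hq1 ζ hζ hι c hc1 hd1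
  obtain ⟨I₂, p₂, hI2m, hI2M, hp2w, H2⟩ := hS
  set n := Fintype.card ι with hn
  set d := 2 * n with hd
  have hcop : IsCoprime I₁ I₂ := by
    rw [Ideal.isCoprime_iff_sup_eq]
    by_contra hne
    obtain ⟨M, hM, hle⟩ := Ideal.exists_le_maximal _ hne
    exact h12 ((hI1M M hM (le_sup_left.trans hle)).symm.trans (hI2M M hM (le_sup_right.trans hle)))
  have hlift : ∀ s : ι → ZMod q, ∃ P : R[X], (P ≠ 0 → q * P.natDegree + wt s < q * d) ∧
      P.map (Ideal.Quotient.mk I₁) = p₁ s ∧ P.map (Ideal.Quotient.mk I₂) = p₂ s := by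
    intro s
    by_cases h0 : p₁ s = 0 ∧ p₂ s = 0
    · refine ⟨0, fun h => absurd rfl h, ?_, ?_⟩
      · rw [h0.1, Polynomial.map_zero]
      · rw [h0.2, Polynomial.map_zero]
    · obtain ⟨P, hP1, hP2, hP3⟩ := lift2 I₁ I₂ hcop (p₁ s) (p₂ s)
        (max (p₁ s).natDegree (p₂ s).natDegree) (le_max_left _ _) (le_max_right _ _)
      refine ⟨P, fun _ => ?_, hP2, hP3⟩
      have hb : q * max (p₁ s).natDegree (p₂ s).natDegree + wt s < q * d := by
        rcases le_total (p₁ s).natDegree (p₂ s).natDegree with hle | hle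
        · rw [max_eq_right hle]
          by_cases h2 : p₂ s = 0
          · have h1 : p₁ s ≠ 0 := fun h => h0 ⟨h, h2⟩
            have := hp1w s h1
            rw [h2, natDegree_zero] at hle ⊢
            have h3 : (p₁ s).natDegree = 0 := by omega
            rw [h3] at this
            exact this
          · exact hp2w s h2
        · rw [max_eq_left hle]
          by_cases h1 : p₁ s = 0
          · have h2 : p₂ s ≠ 0 := fun h => h0 ⟨h1, h⟩
            have := hp2w s h2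
            rw [h1, natDegree_zero] at hle ⊢
            have h3 : (p₂ s).natDegree = 0 := by omega
            rw [h3] at this
            exact this
          · exact hp1w s h1
      have : q * P.natDegree ≤ q * max (p₁ s).natDegree (p₂ s).natDegree :=
        Nat.mul_le_mul_left _ hP1
      omega
  choose P hPw hP1 hP2 using hlift
  obtain ⟨hNV1, r, hrinj, hrm, hrroot⟩ := H1 P hP1
  obtain ⟨hNV2, H2'⟩ := H2 P hP2
  obtain ⟨hΦm, hΦn⟩ := monic_det (fun i => c i ^ q) d (by omega) P hPw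
  set Φ : R[X] := (nmat (fun i => X + C (c i ^ q)) (fam d P)).det with hΦ
  have hΦm' : Φ.Monic := hΦm
  have hΦn' : Φ.natDegree < 2 * (n * q ^ n + 1) := by
    have h1 : Φ.natDegree = d * q ^ Fintype.card ι := hΦn
    rw [h1, ← hn, hd]
    have : 2 * n * q ^ n = 2 * (n * q ^ n) := by ring
    rw [this]
    omega
  have hcq : ∀ i, (ζ ^ (ε i).val * c i) ^ q = c i ^ q := fun i => tw_pow ζ hζ ε c i
  obtain ⟨φ₁, hφ₁, hφ₁inj⟩ := loc_to_frac m₁
  obtain ⟨φ₂, hφ₂, hφ₂inj⟩ := loc_to_frac m₂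
  have hφ₁c : φ₁.comp (algebraMap R (Localization.AtPrime m₁)) = algebraMap R (FractionRing R) :=
    RingHom.ext hφ₁
  have hφ₂c : φ₂.comp (algebraMap R (Localization.AtPrime m₂)) = algebraMap R (FractionRing R) :=
    RingHom.ext hφ₂
  obtain ⟨j, x₂, hx₂, hjx⟩ := H2' Φ (by
      rw [hΦ]
      congr 2
      ext1 i
      rw [hcq i]) hΦm' hΦn' φ₂ hφ₂ (fun j => φ₁ (r j)) (hφ₁inj.comp hrinj) (fun j => by
      have h1 : eval₂ (algebraMap R (Localization.AtPrime m₁)) (r j) Φ = 0 := by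
        have := hrroot j
        rwa [IsRoot.def, eval_map] at this
      have h2 := congrArg φ₁ h1
      rw [hom_eval₂, hφ₁c, map_zero] at h2
      rw [IsRoot.def, eval_map]
      exact h2)
  set x₁ := r j with hx₁def
  have hx₁ : x₁ ∈ maximalIdeal (Localization.AtPrime m₁) := hrm j
  set α₁ : R →+* Localization.AtPrime m₁ := algebraMap R (Localization.AtPrime m₁) with hα₁
  set α₂ : R →+* Localization.AtPrime m₂ := algebraMap R (Localization.AtPrime m₂) with hα₂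
  set ρ₁ := residue (Localization.AtPrime m₁) with hρ₁
  set ρ₂ := residue (Localization.AtPrime m₂) with hρ₂
  have hmem₁ : ∀ x : R, α₁ x ∈ maximalIdeal (Localization.AtPrime m₁) ↔ x ∈ m₁ := fun x =>
    IsLocalization.AtPrime.to_map_mem_maximal_iff (Localization.AtPrime m₁) m₁ x
  have hmem₂ : ∀ x : R, α₂ x ∈ maximalIdeal (Localization.AtPrime m₂) ↔ x ∈ m₂ := fun x =>
    IsLocalization.AtPrime.to_map_mem_maximal_iff (Localization.AtPrime m₂) m₂ x
  have hα₁inj : Function.Injective α₁ :=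
    IsLocalization.injective _ m₁.primeCompl_le_nonZeroDivisors
  have hα₂inj : Function.Injective α₂ :=
    IsLocalization.injective _ m₂.primeCompl_le_nonZeroDivisors
  have hdom₁ : IsDomain (Localization.AtPrime m₁) := hφ₁inj.isDomain φ₁
  -- the coordinates at `m₁`
  choose y₁ hy₁ hy₁c using fun i => henselian_near_loc m₁ hH q hqpos hq1 (c i) (hc1 i) x₁ hx₁
  have hρy₁ : ∀ i, ρ₁ (y₁ i) = ρ₁ (α₁ (c i)) := fun i => by
    rw [← sub_eq_zero, ← map_sub]
    exact (residue_eq_zero_iff _).2 (hy₁c i)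
  have hρx₁ : ρ₁ x₁ = 0 := (residue_eq_zero_iff _).2 hx₁
  have hρx₂ : ρ₂ x₂ = 0 := (residue_eq_zero_iff _).2 hx₂
  have hy₁0 : ∀ i, y₁ i ≠ 0 := by
    intro i h
    have h1 := hρy₁ i
    rw [h, map_zero] at h1
    exact hc1 i ((hmem₁ _).1 ((residue_eq_zero_iff _).1 h1.symm))
  have hqS : ((q : ℕ) : Localization.AtPrime m₁) ≠ 0 := by
    intro h
    apply hq1
    have : α₁ (q : R) = α₁ 0 := by rw [map_natCast, h, map_zero]
    rw [hα₁inj this]
    exact m₁.zero_mem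
  have hζS : ∑ j ∈ range q, (α₁ ζ) ^ j = 0 := by
    have := congrArg α₁ hζ
    simpa [map_sum, map_pow] using this
  have hprod : ∏ δ : ι → ZMod q, ev (tw (α₁ ζ) δ y₁) (fun s => eval₂ α₁ x₁ (fam d P s)) = 0 := by
    rw [← det_nmat (α₁ ζ) hζS hqS y₁ hy₁0]
    have h1 := det_nmat_map (Polynomial.eval₂RingHom α₁ x₁) (fun i => X + C (c i ^ q)) (fam d P)
    simp only [Polynomial.coe_eval₂RingHom] at h1
    have h2 : eval₂ α₁ x₁ (nmat (fun i => X + C (c i ^ q)) (fam d P)).det = 0 := by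
      have := hrroot j
      rwa [IsRoot.def, eval_map] at this
    rw [← h2, h1]
    congr 2
    ext i
    rw [hy₁ i, eval₂_add, eval₂_X, eval₂_C, map_pow]
  obtain ⟨δ, _, hδ⟩ := Finset.prod_eq_zero_iff.mp hprod
  have hred : ∀ f : R[X], ρ₁ (eval₂ α₁ x₁ f) = ρ₁ (α₁ (f.eval 0)) := by
    intro f
    rw [hom_eval₂, hρx₁]
    have h1 : (ρ₁.comp α₁) (f.eval 0) = eval₂ (ρ₁.comp α₁) ((ρ₁.comp α₁) 0) f :=
      (eval₂_at_apply (ρ₁.comp α₁) 0).symm
    rw [map_zero] at h1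
    exact h1.symm
  have hδ0 : δ = 0 := by
    by_contra hne
    apply hNV1 δ hne
    rw [← hmem₁, ← residue_eq_zero_iff]
    have h2 := congrArg ρ₁ hδ
    rw [ev_map, map_zero] at h2
    refine Eq.trans ?_ h2
    rw [ev_map, ev_map]
    have e1 : (fun i => residue (Localization.AtPrime m₁) (α₁ (tw ζ δ c i)))
        = (fun i => ρ₁ (tw (α₁ ζ) δ y₁ i)) := by
      ext i
      simp only [tw, map_mul, map_pow, hρy₁]
      rfl
    have e2 : (fun s => residue (Localization.AtPrime m₁) (α₁ (eval 0 (fam d P s))))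
        = (fun s => ρ₁ (eval₂ α₁ x₁ (fam d P s))) := by
      ext s
      rw [hred]
    rw [e1, e2]
  subst hδ0
  have htw0 : tw (α₁ ζ) (0 : ι → ZMod q) y₁ = y₁ := by
    ext i; simp [tw]
  rw [htw0] at hδ
  -- the coordinates at `m₂`
  have hyK : ∀ i, (φ₁ (y₁ i)) ^ q = φ₂ x₂ + algebraMap R (FractionRing R) (c i) ^ q := by
    intro i
    rw [← map_pow, hy₁ i, map_add, map_pow, hφ₁, hjx]
  choose y₂ hy₂ using fun i => hN φ₂ hφ₂ (c i) (hc2 i) x₂ hx₂ (φ₁ (y₁ i)) (hyK i)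
  have hy₂q : ∀ i, y₂ i ^ q = x₂ + α₂ (c i) ^ q := by
    intro i
    apply hφ₂inj
    rw [map_pow, hy₂ i, hyK i, map_add, map_pow, hφ₂]
  have hδ2 : ev y₂ (fun s => ((fam d P s).map α₂).eval x₂) = 0 := by
    apply hφ₂inj
    rw [ev_map, map_zero]
    have h1 := congrArg φ₁ hδ
    rw [ev_map, map_zero] at h1
    refine Eq.trans ?_ h1
    have e1 : (fun i => φ₂ (y₂ i)) = (fun i => φ₁ (y₁ i)) := funext hy₂
    have e2 : (fun s => φ₂ (((fam d P s).map α₂).eval x₂))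
        = (fun s => φ₁ (eval₂ α₁ x₁ (fam d P s))) := by
      ext s
      rw [eval_map, hom_eval₂, hom_eval₂, hφ₁c, hφ₂c, hjx]
    rw [e1, e2]
  have hζ2 : ∑ j ∈ range q, (ρ₂ (α₂ ζ)) ^ j = 0 := by
    have := congrArg (fun z => ρ₂ (α₂ z)) hζ
    simpa [map_sum, map_pow] using this
  have hnz : ∀ x : R, x ∉ m₂ → ρ₂ (α₂ x) ≠ 0 := fun x hx h =>
    hx ((hmem₂ _).1 ((residue_eq_zero_iff _).1 h))
  have hζm : ζ ∉ m₂ := by
    intro h
    have h1 : ζ ^ q = 1 := zeta_pow ζ hζ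
    have h2 : ζ ^ q ∈ m₂ := Ideal.pow_mem_of_mem _ h _ hqpos
    rw [h1] at h2
    exact hm2.ne_top ((Ideal.eq_top_iff_one _).2 h2)
  have hc2' : ∀ i, ζ ^ (ε i).val * c i ∉ m₂ := by
    intro i h
    rcases hm2.isPrime.mem_or_mem h with h | h
    · exact hζm (hm2.isPrime.mem_of_pow_mem _ h)
    · exact hc2 i h
  have hfin := reduce_zero ρ₂ (α₂ ζ) hζ2 (by
      have := hnz _ hq2
      rwa [map_natCast, map_natCast] at this)
    (fun i => ρ₂ (α₂ (ζ ^ (ε i).val * c i))) (fun i => hnz _ (hc2' i)) x₂ hρx₂ y₂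
    (fun i => by
      rw [← map_pow, hy₂q i, map_add, hρx₂, zero_add, map_pow, ← map_pow, ← map_pow, ← map_pow,
        ← map_pow, hcq i])
    (fun s => (fam d P s).map α₂) hδ2 (fun δ hδne => by
      intro h
      apply hNV2 δ hδne
      rw [← hmem₂, ← residue_eq_zero_iff]
      refine Eq.trans ?_ h
      rw [ev_map, ev_map]
      congr 1
      · ext i
        simp only [tw, map_mul, map_pow]
        rfl
      · ext s
        rw [Polynomial.map_map, eval_map]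
        have h1 : (ρ₂.comp α₂) ((fam d P s).eval 0)
            = eval₂ (ρ₂.comp α₂) ((ρ₂.comp α₂) 0) (fam d P s) :=
          (eval₂_at_apply (ρ₂.comp α₂) 0).symm
        rw [map_zero] at h1
        exact h1)
  -- denominators
  obtain ⟨a, b, hb1, hb2, hab1, hab2⟩ := common_denom m₁ m₂ φ₁ φ₂ hφ₁ hφ₂ x₁ x₂ hjx.symm
  choose s t ht1 ht2 hst1 hst2 using fun i =>
    common_denom m₁ m₂ φ₁ φ₂ hφ₁ hφ₂ (y₁ i) (y₂ i) (hy₂ i).symm
  refine ⟨a, b, s, t, ?_, ?_, hb1, hb2, ht1, ht2, ?_, ?_, ?_⟩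
  · rw [← hmem₁]
    change algebraMap R (Localization.AtPrime m₁) a ∈ _
    rw [← hab1]
    exact Ideal.mul_mem_left _ _ hx₁
  · rw [← hmem₂]
    change algebraMap R (Localization.AtPrime m₂) a ∈ _
    rw [← hab2]
    exact Ideal.mul_mem_left _ _ hx₂
  · intro i
    apply hα₁inj
    have h1 : α₁ (s i) = α₁ (t i) * y₁ i := (hst1 i).symm
    have h2 : α₁ a = α₁ b * x₁ := hab1.symm
    rw [map_mul, map_mul, map_add, map_mul, map_pow, map_pow, map_pow, h1, h2, mul_pow, hy₁ i]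
    ring
  · intro i
    rw [← hmem₁]
    have h1 : α₁ (s i) = α₁ (t i) * y₁ i := (hst1 i).symm
    have h2 : α₁ (s i - c i * t i) = α₁ (t i) * (y₁ i - α₁ (c i)) := by
      rw [map_sub, map_mul, h1]; ring
    rw [h2]
    exact Ideal.mul_mem_left _ _ (hy₁c i)
  · intro i
    rw [← hmem₂]
    have h1 : α₂ (s i) = α₂ (t i) * y₂ i := (hst2 i).symm
    have h2 : α₂ (s i - ζ ^ (ε i).val * c i * t i)
        = α₂ (t i) * (y₂ i - α₂ (ζ ^ (ε i).val * c i)) := by
      rw [map_sub, map_mul, h1]; ring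
    rw [h2]
    refine Ideal.mul_mem_left _ _ ?_
    rw [← residue_eq_zero_iff, map_sub, sub_eq_zero]
    exact hfin i

end Pool.Agent.AIC
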