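import Pool.Agent.AIC.Points2
import Pool.Agent.AIC.AlgH83
import Pool.Agent.AIC.Form83

/-! MP_313bb4, second stage: Theorem H. -/

set_option autoImplicit false

namespace Pool.Agent.AIC

open Finset Polynomial

/-- Theorem H: an integrally closed NIP domain with one henselian localization is a henselian
local ring (under conditions on the residue fields, void if the ring is local). -/
theorem theoremH :
    ∀ (R : Type) [CommRing R] [IsDomain R] [FirstOrder.Ring.CompatibleRing R],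
      (∀ (k m : ℕ) (φ : FirstOrder.Language.ring.Formula (Fin k ⊕ Fin m)),
        ∃ n : ℕ, ¬ ∃ (a : Fin n → Fin k → R) (b : Finset (Fin n) → Fin m → R),
          ∀ (i : Fin n) (J : Finset (Fin n)),
            (φ.Realize (Sum.elim (a i) (b J)) ↔ i ∈ J)) →
      IsIntegrallyClosed R →
      ∀ (M : Ideal R) [M.IsMaximal], HenselianLocalRing (Localization.AtPrime M) →
      (∀ (N : Ideal R) [N.IsMaximal], N ≠ M → Infinite (R ⧸ M) ∧ Infinite (R ⧸ N) ∧
        ∃ q : ℕ, q.Prime ∧ (q : R) ∉ M ∧ (q : R) ∉ N ∧ ∃ ζ : R, ∑ j ∈ Finset.range q, ζ ^ j = 0) →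
      HenselianLocalRing R := by
  intro R _ _ _ hN hR M hM hh hcond
  refine henselian_of_localization ?_ M hh
  refine local_of_claimH ?_ (nip_div hN) (nip_pow hN) M hh hcond
  intro q _ n hn m₁ m₂ h1 h2 h12 hH hu hinf hq1 hq2 ζ hζ c hc1 hc2 hd1 hd2 ε
  obtain ⟨x, y, -, -, h3, h4, h5⟩ := claimH (ι := Fin n) m₁ m₂ h12 hH hu hinf hq1 hq2 ζ hζ
    (by simpa using hn) c hc1 hc2 hd1 hd2 ε
  exact ⟨x, y, h3, h4, h5⟩

end Pool.Agent.AIC
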