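import Pool.Agent.AIC.Star76
import Pool.Agent.AIC.Sec82
import Pool.Agent.AIC.Star34
import Pool.Agent.AIC.Star83

/-! MP_313bb4, third stage with a unibranch second side: Theorem U. -/

set_option autoImplicit false

namespace Pool.Agent.AIC

open Finset Polynomial

/-- an integrally closed local domain is unibranch -/
theorem unibranch_of_isIntegrallyClosed {A K : Type} [CommRing A] [IsLocalRing A] [Field K]
    [Algebra A K] [IsFractionRing A K] [IsIntegrallyClosed A] :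
    IsLocalRing (integralClosure A K) := by
  have hb : integralClosure A K = ⊥ := IsIntegrallyClosed.integralClosure_eq_bot A K
  rw [hb]
  have e : (⊥ : Subalgebra A K) ≃ₐ[A] A :=
    Algebra.botEquivOfInjective (IsFractionRing.injective A K)
  exact e.symm.toRingEquiv.isLocalRing

/-- Claim U: the patterns exist if the localization at the first maximal ideal is henselian
and the localization at the second one is unibranch or henselian -/
def ClaimU (R : Type) [CommRing R] [IsDomain R] : Prop :=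
  ∀ (q : ℕ) [Fact q.Prime] (n : ℕ), 2 ≤ n →
    ∀ (m₁ m₂ : Ideal R) [m₁.IsMaximal] [m₂.IsMaximal], m₁ ≠ m₂ →
    HenselianLocalRing (Localization.AtPrime m₁) →
    (IsLocalRing (integralClosure (Localization.AtPrime m₂) (FractionRing R)) ∨
      HenselianLocalRing (Localization.AtPrime m₂)) →
    (∃ u ∈ m₁, ∀ M : Ideal R, M.IsMaximal → u ∈ M → M = m₁) →
    (∃ u ∈ m₂, ∀ M : Ideal R, M.IsMaximal → u ∈ M → M = m₂) →
    Infinite (R ⧸ m₁) → Infinite (R ⧸ m₂) →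
    (q : R) ∉ m₁ → (q : R) ∉ m₂ → ∀ ζ : R, ∑ j ∈ range q, ζ ^ j = 0 →
    ∀ c : Fin n → R, (∀ i, c i ∉ m₁) → (∀ i, c i ∉ m₂) →
    (∀ i j, i ≠ j → c i ^ q - c j ^ q ∉ m₁) → (∀ i j, i ≠ j → c i ^ q - c j ^ q ∉ m₂) →
    ∀ ε : Fin n → ZMod q,
    ∃ (a b : R) (s t : Fin n → R), a ∈ m₁ ∧ a ∈ m₂ ∧ b ∉ m₁ ∧ b ∉ m₂ ∧
      (∀ i, t i ∉ m₁) ∧ (∀ i, t i ∉ m₂) ∧
      (∀ i, s i ^ q * b = (a + c i ^ q * b) * t i ^ q) ∧
      (∀ i, s i - c i * t i ∈ m₁) ∧ (∀ i, s i - ζ ^ (ε i).val * c i * t i ∈ m₂)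

theorem claimU (R : Type) [CommRing R] [IsDomain R] : ClaimU R := by
  intro q _ n hn m₁ m₂ h1 h2 h12 hH hor hu1 hu2 hi1 hi2 hq1 hq2 ζ hζ c hc1 hc2 hd1 hd2 ε
  have hζq : ∀ k : ℕ, (ζ ^ k) ^ q = 1 := fun k => by
    rw [← pow_mul, mul_comm, pow_mul, zeta_pow ζ hζ, one_pow]
  have hc2' : ∀ i, ζ ^ (ε i).val * c i ∉ m₂ := by
    intro i h
    rcases h2.isPrime.mem_or_mem h with h3 | h3
    · apply h2.ne_top
      rw [Ideal.eq_top_iff_one, ← hζq (ε i).val]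
      exact Ideal.pow_mem_of_mem _ h3 q (Fact.out : q.Prime).pos
    · exact hc2 i h3
  have hd2' : ∀ i j, i ≠ j → (ζ ^ (ε i).val * c i) ^ q - (ζ ^ (ε j).val * c j) ^ q ∉ m₂ := by
    intro i j hij
    rw [mul_pow, mul_pow, hζq, hζq, one_mul, one_mul]
    exact hd2 i j hij
  have hcard : 2 ≤ Fintype.card (Fin n) := by simpa using hn
  have hS : SecSide q m₂ ζ (fun i => ζ ^ (ε i).val * c i) := by
    rcases hor with hor | hor
    · exact secSide_unibranch34 m₂ hor hu2 ⟨m₁, h1, h12⟩ hi2 hq2 ζ hζ hcard _ hc2' hd2'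
    · exact secSide_hens m₂ hor hu2 ⟨m₁, h1, h12⟩ hi2 hq2 ζ hζ hcard _ hc2' hd2'
  have hN : SecNear q m₂ := by
    rcases hor with hor | hor
    · exact secNear_unibranch34 m₂ hor hq2 ζ hζ
    · exact secNear_hens m₂ hor hq2 ζ hζ
  exact star_assembly m₁ m₂ h12 hH hu1 hi1 hq1 hq2 ζ hζ hcard c hc1 hc2 hd1 ε hS hN

theorem local_of_claimU {R : Type} [CommRing R] [IsDomain R] (hC : ClaimU R)
    (hdiv : ∃ n : ℕ, ¬ ∃ (u : Fin n → R) (b : Finset (Fin n) → R),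
      ∀ (i : Fin n) (J : Finset (Fin n)), (u i ∣ b J ↔ i ∈ J))
    (hpow : ∀ q : ℕ, ∃ n : ℕ, ¬ ∃ (c : Fin n → R) (e₁ e₂ : R) (a b : Finset (Fin n) → R),
      ∀ (i : Fin n) (J : Finset (Fin n)),
        ((∃ s t : R, ¬ Jm (e₁ * t) ∧ ¬ Jm (e₂ * t) ∧
          s ^ q * b J = (a J + c i ^ q * b J) * t ^ q ∧
          Jm (e₁ * (s - c i * t)) ∧ Jm (e₂ * (s - c i * t))) ↔ i ∈ J))
    (m₁ : Ideal R) [h1 : m₁.IsMaximal] (hm₁ : HenselianLocalRing (Localization.AtPrime m₁))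
    (hN : ∀ (N : Ideal R) [N.IsMaximal], N ≠ m₁ →
      (IsLocalRing (integralClosure (Localization.AtPrime N) (FractionRing R)) ∨
        HenselianLocalRing (Localization.AtPrime N)) ∧
      Infinite (R ⧸ m₁) ∧ Infinite (R ⧸ N) ∧
      ∃ q : ℕ, q.Prime ∧ (q : R) ∉ m₁ ∧ (q : R) ∉ N ∧ ∃ ζ : R, ∑ j ∈ range q, ζ ^ j = 0) :
    IsLocalRing R := by
  have hfin := finite_maximal hdiv
  by_contra hloc
  have hex : ∃ m₂ : Ideal R, m₂.IsMaximal ∧ m₂ ≠ m₁ := by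
    by_contra hcon
    push Not at hcon
    exact hloc (IsLocalRing.of_unique_max_ideal ⟨m₁, h1, fun m' hm' => hcon m' hm'⟩)
  obtain ⟨m₂, h2, h21⟩ := hex
  have h12 : m₁ ≠ m₂ := fun h => h21 h.symm
  obtain ⟨hall, hi1, hi2, q, hq, hq1, hq2, ζ, hζ⟩ := hN m₂ h21
  obtain ⟨e₁, he₁⟩ := exists_e m₁ h1
  obtain ⟨e₂, he₂⟩ := exists_e m₂ h2
  have : Fact q.Prime := ⟨hq⟩
  refine false_of_patterns_star m₁ m₂ h1 h2 e₁ e₂ he₁ he₂ q hq hq1 hq2 ζ hζ ?_ (hpow q)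
  intro n hn
  obtain ⟨c, hc1, hc2, hc3, hc4⟩ := exists_c_inf m₁ m₂ h12 hi1 hi2 q hq.pos n
  refine ⟨c, hc1, hc2, fun ε => ?_⟩
  obtain ⟨a, b, s, t, -, -, hb, -, ht1, ht2, hst, hs1, hs2⟩ := hC q n hn m₁ m₂ h12 hm₁
    hall (exists_u m₁ h1) (exists_u m₂ h2) hi1 hi2 hq1 hq2 ζ hζ c hc1 hc2 hc3 hc4 ε
  exact ⟨a, b, s, t, hb, ht1, ht2, hst, hs1, hs2⟩

/-- Theorem U: an NIP domain with a maximal ideal `M` such that `R_M` is henselian and all other
localizations at maximal ideals are unibranch or henselian is a henselian local ring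
(under conditions on the residue fields, void if the ring is local). -/
theorem theoremU :
    ∀ (R : Type) [CommRing R] [IsDomain R] [FirstOrder.Ring.CompatibleRing R],
      (∀ (k m : ℕ) (φ : FirstOrder.Language.ring.Formula (Fin k ⊕ Fin m)),
        ∃ n : ℕ, ¬ ∃ (a : Fin n → Fin k → R) (b : Finset (Fin n) → Fin m → R),
          ∀ (i : Fin n) (J : Finset (Fin n)),
            (φ.Realize (Sum.elim (a i) (b J)) ↔ i ∈ J)) →
      ∀ (M : Ideal R) [M.IsMaximal], HenselianLocalRing (Localization.AtPrime M) →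
      (∀ (N : Ideal R) [N.IsMaximal], N ≠ M →
        (IsLocalRing (integralClosure (Localization.AtPrime N) (FractionRing R)) ∨
          HenselianLocalRing (Localization.AtPrime N)) ∧
        Infinite (R ⧸ M) ∧ Infinite (R ⧸ N) ∧
        ∃ q : ℕ, q.Prime ∧ (q : R) ∉ M ∧ (q : R) ∉ N ∧
          ∃ ζ : R, ∑ j ∈ Finset.range q, ζ ^ j = 0) →
      HenselianLocalRing R := by
  intro R _ _ _ hN M hM hh hcond
  refine henselian_of_localization ?_ M hh
  exact local_of_claimU (claimU R) (nip_div hN) (nip_star hN) M hh hcond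

end Pool.Agent.AIC
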