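import Pool.Agent.AIC.PrimesLoc46
import Pool.Agent.AIC.TheoremU83

/-! MP_313bb4, fourth stage: Theorem P. -/

set_option autoImplicit false

namespace Pool.Agent.AIC

open Finset Polynomial IsLocalRing

section transport

variable {R : Type} [CommRing R] [IsDomain R]
variable (P Q : Ideal R) [hP : P.IsPrime] [hQ : Q.IsPrime]

attribute [local instance] isDomain_L

/-- the localizations at a prime of `R` and at the corresponding prime of the localization -/
theorem equiv_at (I : Ideal (Localization (Scomp P Q))) [hI : I.IsPrime] (J : Ideal R)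
    [hJ : J.IsPrime] (h : I.under R = J) :
    Nonempty (Localization.AtPrime J ≃+* Localization.AtPrime I) := by
  subst h
  exact ⟨(IsLocalization.localizationLocalizationAtPrimeIsoLocalization
    (Scomp P Q) I).toRingEquiv⟩

theorem hens_at (I : Ideal (Localization (Scomp P Q))) [hI : I.IsPrime] (J : Ideal R)
    [hJ : J.IsPrime] (h : I.under R = J) (hH : HenselianLocalRing (Localization.AtPrime J)) :
    HenselianLocalRing (Localization.AtPrime I) := by
  obtain ⟨e⟩ := equiv_at P Q I J h
  exact henselian_of_ringEquiv e hH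

theorem unibranch_at (I : Ideal (Localization (Scomp P Q))) [hI : I.IsPrime] (J : Ideal R)
    [hJ : J.IsPrime] (h : I.under R = J)
    (hU : IsLocalRing (integralClosure (Localization.AtPrime J) (FractionRing R))) :
    IsLocalRing (integralClosure (Localization.AtPrime I)
      (FractionRing (Localization (Scomp P Q)))) := by
  obtain ⟨e⟩ := equiv_at P Q I J h
  have hdA : IsDomain (Localization.AtPrime J) :=
    IsLocalization.isDomain_localization J.primeCompl_le_nonZeroDivisors
  have hdB : IsDomain (Localization.AtPrime I) :=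
    IsLocalization.isDomain_localization I.primeCompl_le_nonZeroDivisors
  have hfrB : IsFractionRing (Localization.AtPrime I) (FractionRing (Localization (Scomp P Q))) :=
    IsFractionRing.isFractionRing_of_isDomain_of_isLocalization I.primeCompl
      (Localization.AtPrime I) (FractionRing (Localization (Scomp P Q)))
  let alg : Algebra (Localization.AtPrime J) (FractionRing (Localization (Scomp P Q))) :=
    ((algebraMap (Localization.AtPrime I) (FractionRing (Localization (Scomp P Q)))).comp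
      (e : Localization.AtPrime J →+* Localization.AtPrime I)).toAlgebra
  have he : ∀ a, algebraMap (Localization.AtPrime J) (FractionRing (Localization (Scomp P Q))) a =
      algebraMap (Localization.AtPrime I) (FractionRing (Localization (Scomp P Q))) (e a) :=
    fun a => rfl
  have hfrA : IsFractionRing (Localization.AtPrime J)
      (FractionRing (Localization (Scomp P Q))) := by
    have hinj : Function.Injective
        (algebraMap (Localization.AtPrime J) (FractionRing (Localization (Scomp P Q)))) := by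
      intro x y hxy
      rw [he, he] at hxy
      exact e.injective (IsFractionRing.injective (Localization.AtPrime I) _ hxy)
    have : FaithfulSMul (Localization.AtPrime J) (FractionRing (Localization (Scomp P Q))) :=
      (faithfulSMul_iff_algebraMap_injective _ _).mpr hinj
    refine IsFractionRing.of_field _ _ fun z => ?_
    obtain ⟨x, y, hy, rfl⟩ := IsFractionRing.div_surjective (A := Localization.AtPrime I) z
    refine ⟨e.symm x, e.symm y, ?_⟩
    rw [he, he, RingEquiv.apply_symm_apply, RingEquiv.apply_symm_apply]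
  have h1 : IsLocalRing (integralClosure (Localization.AtPrime J)
      (FractionRing (Localization (Scomp P Q)))) :=
    closure_local34 (A := Localization.AtPrime J) (L := FractionRing R) hU
  exact closure_local_comp e he h1

end transport

section final

variable {R : Type} [CommRing R] [IsDomain R]

theorem under_left (P Q : Ideal R) [hP : P.IsPrime] [hQ : Q.IsPrime] :
    (P.map (algebraMap R (Localization (Scomp P Q)))).under R = P :=
  IsLocalization.under_map_of_isPrime_disjoint (Scomp P Q) _ hP (Scomp_disj_left P Q)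

theorem under_right (P Q : Ideal R) [hP : P.IsPrime] [hQ : Q.IsPrime] :
    (Q.map (algebraMap R (Localization (Scomp P Q)))).under R = Q :=
  IsLocalization.under_map_of_isPrime_disjoint (Scomp P Q) _ hQ (Scomp_disj_right P Q)

/-- the patterns at two incomparable prime ideals -/
theorem patterns_prime (P Q : Ideal R) [hP : P.IsPrime] [hQ : Q.IsPrime]
    (hPQ : ¬ P ≤ Q) (hQP : ¬ Q ≤ P) (hiP : Infinite (R ⧸ P)) (hiQ : Infinite (R ⧸ Q))
    (hH : HenselianLocalRing (Localization.AtPrime P))
    (hS : IsLocalRing (integralClosure (Localization.AtPrime Q) (FractionRing R)) ∨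
      HenselianLocalRing (Localization.AtPrime Q))
    (q : ℕ) (hq : q.Prime) (hqP : (q : R) ∉ P) (hqQ : (q : R) ∉ Q)
    (ζ : R) (hζ : ∑ j ∈ range q, ζ ^ j = 0) (n : ℕ) (hn : 2 ≤ n) :
    ∃ c : Fin n → R, (∀ i, c i ∉ P) ∧ (∀ i, c i ∉ Q) ∧
      ∀ ε : Fin n → ZMod q, ∃ (a b t : R) (s : Fin n → R), b ∉ P ∧ t ∉ P ∧ t ∉ Q ∧
      (∀ i, s i ^ q * b = (a + c i ^ q * b) * t ^ q) ∧
      (∀ i, s i - c i * t ∈ P) ∧ (∀ i, s i - ζ ^ (ε i).val * c i * t ∈ Q) := by
  classical
  have hL := isDomain_L P Q
  have hm1 := max_left P Q hPQ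
  have hm2 := max_right P Q hQP
  have hfact : Fact q.Prime := ⟨hq⟩
  set L := Localization (Scomp P Q) with hLdef
  set φ : R →+* L := algebraMap R L with hφ
  set m₁ : Ideal L := P.map φ with hm₁
  set m₂ : Ideal L := Q.map φ with hm₂
  have hmem1 : ∀ x : R, φ x ∈ m₁ ↔ x ∈ P := mem_map_left P Q
  have hmem2 : ∀ x : R, φ x ∈ m₂ ↔ x ∈ Q := mem_map_right P Q
  have hinj : Function.Injective φ := IsLocalization.injective L (Scomp_le P Q)
  have hne : m₁ ≠ m₂ := ne_left_right P Q hPQ
  have hi1 : Infinite (L ⧸ m₁) := inf_left P Q hiP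
  have hi2 : Infinite (L ⧸ m₂) := inf_right P Q hiQ
  obtain ⟨c', hc1, hc2, hd1, hd2⟩ := exists_c_inf m₁ m₂ hne hi1 hi2 q hq.pos n
  obtain ⟨d, hd⟩ := IsLocalization.exist_integer_multiples_of_finite (Scomp P Q) c'
  have hd' : ∀ i, ∃ x : R, φ x = φ (d : R) * c' i := by
    intro i
    obtain ⟨x, hx⟩ := hd i
    exact ⟨x, by rw [← Algebra.smul_def]; exact hx⟩
  choose c hc using hd'
  have hdP : φ (d : R) ∉ m₁ := fun h => d.2.1 ((hmem1 _).mp h)
  have hdQ : φ (d : R) ∉ m₂ := fun h => d.2.2 ((hmem2 _).mp h)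
  have hcP : ∀ i, c i ∉ P := by
    intro i h
    rw [← hmem1, hc] at h
    rcases hm1.isPrime.mem_or_mem h with h | h
    · exact hdP h
    · exact hc1 i h
  have hcQ : ∀ i, c i ∉ Q := by
    intro i h
    rw [← hmem2, hc] at h
    rcases hm2.isPrime.mem_or_mem h with h | h
    · exact hdQ h
    · exact hc2 i h
  refine ⟨c, hcP, hcQ, fun ε => ?_⟩
  have hU : ClaimU L := claimU L
  have hside : IsLocalRing (integralClosure (Localization.AtPrime m₂) (FractionRing L)) ∨
      HenselianLocalRing (Localization.AtPrime m₂) := by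
    rcases hS with h | h
    · exact Or.inl (unibranch_at P Q m₂ Q (under_right P Q) h)
    · exact Or.inr (hens_at P Q m₂ Q (under_right P Q) h)
  obtain ⟨a', b', s', t', -, -, hb1, -, ht1, ht2, hst, hs1, hs2⟩ := hU q n hn m₁ m₂ hne
    (hens_at P Q m₁ P (under_left P Q) hH) hside (u_left P Q hPQ) (u_right P Q hQP) hi1 hi2
    (fun h => hqP ((hmem1 _).mp (by rwa [map_natCast])))
    (fun h => hqQ ((hmem2 _).mp (by rwa [map_natCast])))
    (φ ζ) (by
      have := congrArg φ hζ
      simpa [map_sum, map_pow] using this)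
    (fun i => φ (c i)) (fun i h => hcP i ((hmem1 _).mp h)) (fun i h => hcQ i ((hmem2 _).mp h))
    (fun i j hij h => by
      have h2 : φ (c i) ^ q - φ (c j) ^ q = φ (d : R) ^ q * (c' i ^ q - c' j ^ q) := by
        rw [hc, hc]; ring
      rw [h2] at h
      rcases hm1.isPrime.mem_or_mem h with h | h
      · exact hdP (hm1.isPrime.mem_of_pow_mem _ h)
      · exact hd1 i j hij h)
    (fun i j hij h => by
      have h2 : φ (c i) ^ q - φ (c j) ^ q = φ (d : R) ^ q * (c' i ^ q - c' j ^ q) := by
        rw [hc, hc]; ring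
      rw [h2] at h
      rcases hm2.isPrime.mem_or_mem h with h | h
      · exact hdQ (hm2.isPrime.mem_of_pow_mem _ h)
      · exact hd2 i j hij h) ε
  -- clear denominators
  obtain ⟨d₁, hd₁⟩ := IsLocalization.exist_integer_multiples_of_finite (Scomp P Q) ![a', b']
  obtain ⟨d₂, hd₂⟩ := IsLocalization.exist_integer_multiples_of_finite (Scomp P Q)
    (Sum.elim s' t')
  obtain ⟨a, ha⟩ : ∃ x : R, φ x = φ (d₁ : R) * a' := by
    obtain ⟨x, hx⟩ := hd₁ 0
    exact ⟨x, by rw [← Algebra.smul_def]; exact hx⟩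
  obtain ⟨b, hb⟩ : ∃ x : R, φ x = φ (d₁ : R) * b' := by
    obtain ⟨x, hx⟩ := hd₁ 1
    exact ⟨x, by rw [← Algebra.smul_def]; exact hx⟩
  have hs'' : ∀ i, ∃ x : R, φ x = φ (d₂ : R) * s' i := by
    intro i
    obtain ⟨x, hx⟩ := hd₂ (Sum.inl i)
    exact ⟨x, by rw [← Algebra.smul_def]; exact hx⟩
  have ht'' : ∀ i, ∃ x : R, φ x = φ (d₂ : R) * t' i := by
    intro i
    obtain ⟨x, hx⟩ := hd₂ (Sum.inr i)
    exact ⟨x, by rw [← Algebra.smul_def]; exact hx⟩
  choose s hs using hs''
  choose t ht using ht''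
  have hd₁P : φ (d₁ : R) ∉ m₁ := fun h => d₁.2.1 ((hmem1 _).mp h)
  have hd₂P : φ (d₂ : R) ∉ m₁ := fun h => d₂.2.1 ((hmem1 _).mp h)
  have hd₂Q : φ (d₂ : R) ∉ m₂ := fun h => d₂.2.2 ((hmem2 _).mp h)
  have hbP : b ∉ P := by
    intro h
    rw [← hmem1, hb] at h
    rcases hm1.isPrime.mem_or_mem h with h | h
    · exact hd₁P h
    · exact hb1 h
  have htP : ∀ i, t i ∉ P := by
    intro i h
    rw [← hmem1, ht] at h
    rcases hm1.isPrime.mem_or_mem h with h | h
    · exact hd₂P h
    · exact ht1 i h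
  have htQ : ∀ i, t i ∉ Q := by
    intro i h
    rw [← hmem2, ht] at h
    rcases hm2.isPrime.mem_or_mem h with h | h
    · exact hd₂Q h
    · exact ht2 i h
  have heq : ∀ i, s i ^ q * b = (a + c i ^ q * b) * t i ^ q := by
    intro i
    apply hinj
    have h1 := hst i
    simp only [map_mul, map_add, map_pow]
    rw [hs, hb, ha, ht]
    calc (φ ↑d₂ * s' i) ^ q * (φ ↑d₁ * b') = φ ↑d₂ ^ q * φ ↑d₁ * (s' i ^ q * b') := by ring
      _ = φ ↑d₂ ^ q * φ ↑d₁ * ((a' + φ (c i) ^ q * b') * t' i ^ q) := by rw [h1]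
      _ = (φ ↑d₁ * a' + φ (c i) ^ q * (φ ↑d₁ * b')) * (φ ↑d₂ * t' i) ^ q := by ring
  have hsP : ∀ i, s i - c i * t i ∈ P := by
    intro i
    rw [← hmem1, map_sub, map_mul, hs, ht]
    have h2 : φ (d₂ : R) * s' i - φ (c i) * (φ (d₂ : R) * t' i)
        = φ (d₂ : R) * (s' i - φ (c i) * t' i) := by ring
    rw [h2]
    exact Ideal.mul_mem_left _ _ (hs1 i)
  have hsQ : ∀ i, s i - ζ ^ (ε i).val * c i * t i ∈ Q := by
    intro i
    rw [← hmem2, map_sub, map_mul, map_mul, map_pow, hs, ht]
    have h2 : φ (d₂ : R) * s' i - φ ζ ^ (ε i).val * φ (c i) * (φ (d₂ : R) * t' i)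
        = φ (d₂ : R) * (s' i - φ ζ ^ (ε i).val * φ (c i) * t' i) := by ring
    rw [h2]
    exact Ideal.mul_mem_left _ _ (hs2 i)
  -- one common denominator
  have hprodi : ∀ i, ∏ j, t j = t i * ∏ j ∈ univ.erase i, t j := fun i =>
    (mul_prod_erase univ t (mem_univ i)).symm
  refine ⟨a, b, ∏ j, t j, fun i => s i * ∏ j ∈ univ.erase i, t j, hbP, ?_, ?_, ?_, ?_, ?_⟩
  · rw [Ideal.IsPrime.prod_mem_iff]
    rintro ⟨j, -, hj⟩
    exact htP j hj
  · rw [Ideal.IsPrime.prod_mem_iff]
    rintro ⟨j, -, hj⟩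
    exact htQ j hj
  · intro i
    rw [hprodi i, mul_pow, mul_pow]
    calc s i ^ q * (∏ j ∈ univ.erase i, t j) ^ q * b
        = (s i ^ q * b) * (∏ j ∈ univ.erase i, t j) ^ q := by ring
      _ = (a + c i ^ q * b) * (t i ^ q * (∏ j ∈ univ.erase i, t j) ^ q) := by rw [heq]; ring
  · intro i
    have h2 : s i * ∏ j ∈ univ.erase i, t j - c i * ∏ j, t j
        = (∏ j ∈ univ.erase i, t j) * (s i - c i * t i) := by
      rw [hprodi i]; ring
    rw [h2]
    exact Ideal.mul_mem_left _ _ (hsP i)
  · intro i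
    have h2 : s i * ∏ j ∈ univ.erase i, t j - ζ ^ (ε i).val * c i * ∏ j, t j
        = (∏ j ∈ univ.erase i, t j) * (s i - ζ ^ (ε i).val * c i * t i) := by
      rw [hprodi i]; ring
    rw [h2]
    exact Ideal.mul_mem_left _ _ (hsQ i)

/-- Theorem P: in an NIP domain, a prime at which the localization is henselian is comparable
with every prime at which the localization is unibranch or henselian (infinite residue fields,
and a root of unity of prime order outside the two residue characteristics). -/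
theorem theoremP :
    ∀ (R : Type) [CommRing R] [IsDomain R] [FirstOrder.Ring.CompatibleRing R],
      (∀ (k m : ℕ) (φ : FirstOrder.Language.ring.Formula (Fin k ⊕ Fin m)),
        ∃ n : ℕ, ¬ ∃ (a : Fin n → Fin k → R) (b : Finset (Fin n) → Fin m → R),
          ∀ (i : Fin n) (J : Finset (Fin n)),
            (φ.Realize (Sum.elim (a i) (b J)) ↔ i ∈ J)) →
      ∀ (P Q : Ideal R) [P.IsPrime] [Q.IsPrime], Infinite (R ⧸ P) → Infinite (R ⧸ Q) →
      HenselianLocalRing (Localization.AtPrime P) →
      (IsLocalRing (integralClosure (Localization.AtPrime Q) (FractionRing R)) ∨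
        HenselianLocalRing (Localization.AtPrime Q)) →
      (∃ q : ℕ, q.Prime ∧ (q : R) ∉ P ∧ (q : R) ∉ Q ∧ ∃ ζ : R, ∑ j ∈ Finset.range q, ζ ^ j = 0) →
      P ≤ Q ∨ Q ≤ P := by
  intro R _ _ _ hN P Q hP hQ hiP hiQ hH hS hq
  obtain ⟨q, hq, hqP, hqQ, ζ, hζ⟩ := hq
  by_contra hcon
  rw [not_or] at hcon
  exact false_of_patterns_prime P Q q hq hqP hqQ ζ hζ
    (fun n hn => patterns_prime P Q hcon.1 hcon.2 hiP hiQ hH hS q hq hqP hqQ ζ hζ n hn)
    (nip_prime hN q)

end final

end Pool.Agent.AIC
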