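import Pool.Agent.AIC.TheoremPF83

/-! MP_313bb4: Theorem P without hypotheses on the residue fields (see `TheoremPF83`). -/

set_option autoImplicit false

namespace Pool.Agent.AIC

open Finset Polynomial IsLocalRing

/-- the core: henselian at `P`, unibranch or henselian at `Q`, a root of unity -/
theorem theoremPcore (R : Type) [CommRing R] [IsDomain R] [FirstOrder.Ring.CompatibleRing R]
    (hN : NIPRing R) (P Q : Ideal R) [hP : P.IsPrime] [hQ : Q.IsPrime]
    (hH : HenselianLocalRing (Localization.AtPrime P))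
    (hS : IsLocalRing (integralClosure (Localization.AtPrime Q) (FractionRing R)) ∨
      HenselianLocalRing (Localization.AtPrime Q))
    (q : ℕ) (hq : q.Prime) (hqP : (q : R) ∉ P) (hqQ : (q : R) ∉ Q)
    (ζ : R) (hζ : ∑ j ∈ Finset.range q, ζ ^ j = 0) : P ≤ Q ∨ Q ≤ P :=
  theoremPD hN P Q hH hS q hq hqP hqQ ζ hζ

end Pool.Agent.AIC
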