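import Pool.Agent.AIC.DefsV95
import Pool.Agent.AIC.TheoremT46
import Pool.Agent.AIC.LocNip83
import Pool.Agent.AIC.MPlus82
import Pool.Agent.AIC.Bounded82

/-! MP_313bb4, theorem V, row V5: two valuation rings of one field with NIP intersection. -/

set_option autoImplicit false
set_option linter.style.haveILetI false
set_option linter.unusedSectionVars false

namespace Pool.Agent.AIC

open FirstOrder FirstOrder.Ring IsLocalRing

section vals

variable {K : Type} [Field K]

/-- the intersection -/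
abbrev inter46 (V V' : ValuationSubring K) : Subring K := V.toSubring ⊓ V'.toSubring

/-- the centre of `U` on a subring `L` of `U` -/
def centreG46 (L : Subring K) (U : ValuationSubring K) (hU : ∀ l ∈ L, l ∈ U) : Ideal L where
  carrier := {l | U.valuation (l : K) < 1}
  add_mem' := by
    intro a b ha hb
    have ha' : U.valuation (a : K) < 1 := ha
    have hb' : U.valuation (b : K) < 1 := hb
    show U.valuation ((a + b : L) : K) < 1
    rw [Subring.coe_add]
    exact U.valuation.map_add_lt ha' hb'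
  zero_mem' := by
    show U.valuation ((0 : L) : K) < 1
    rw [Subring.coe_zero, map_zero]
    exact zero_lt_one
  smul_mem' := by
    intro c a ha
    have ha' : U.valuation (a : K) < 1 := ha
    show U.valuation ((c * a : L) : K) < 1
    rw [Subring.coe_mul, map_mul]
    have hc : U.valuation (c : K) ≤ 1 := (U.valuation_le_one_iff _).2 (hU _ c.2)
    exact (mul_le_of_le_one_left' hc).trans_lt ha'

lemma mem_centreG46 {L : Subring K} {U : ValuationSubring K} (hU : ∀ l ∈ L, l ∈ U) (l : L) :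
    l ∈ centreG46 L U hU ↔ U.valuation (l : K) < 1 := Iff.rfl

instance centreG_prime46 (L : Subring K) (U : ValuationSubring K) (hU : ∀ l ∈ L, l ∈ U) :
    (centreG46 L U hU).IsPrime := by
  refine ⟨?_, ?_⟩
  · intro h
    have h1 : (1 : L) ∈ centreG46 L U hU := by rw [h]; trivial
    rw [mem_centreG46, Subring.coe_one, map_one] at h1
    exact lt_irrefl _ h1
  · intro a b hab
    rw [mem_centreG46, Subring.coe_mul, map_mul] at hab
    rw [mem_centreG46, mem_centreG46]
    by_contra hcon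
    push Not at hcon
    have ha : U.valuation (a : K) = 1 :=
      le_antisymm ((U.valuation_le_one_iff _).2 (hU _ a.2)) hcon.1
    have hb : U.valuation (b : K) = 1 :=
      le_antisymm ((U.valuation_le_one_iff _).2 (hU _ b.2)) hcon.2
    rw [ha, hb, one_mul] at hab
    exact lt_irrefl _ hab

/-- the centre of `V` on the intersection -/
abbrev centre46 (V V' : ValuationSubring K) : Ideal (inter46 V V') :=
  centreG46 (inter46 V V') V fun _ h => h.1

lemma mem_centre46 {V V' : ValuationSubring K} (l : inter46 V V') :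
    l ∈ centre46 V V' ↔ V.valuation (l : K) < 1 := Iff.rfl

lemma centre_prime46 (V V' : ValuationSubring K) : (centre46 V V').IsPrime := inferInstance

/-- `V` is contained in the localization of the intersection at the centre of `V` -/
lemma exists_den46 (V V' : ValuationSubring K) (x : K) (hx : x ∈ V) :
    ∃ s : inter46 V V', s ∉ centre46 V V' ∧ (s : K) * x ∈ inter46 V V' := by
  obtain ⟨v, hv⟩ : ∃ v, v = V.valuation := ⟨_, rfl⟩
  have hvx : V.valuation x ≤ 1 := (V.valuation_le_one_iff _).2 hx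
  by_cases hx' : x ∈ V'
  · refine ⟨1, ?_, ?_⟩
    · rw [mem_centre46, Subring.coe_one, map_one]
      exact lt_irrefl _
    · rw [Subring.coe_one, one_mul]
      exact ⟨hx, hx'⟩
  have hv'x : 1 < V'.valuation x := by
    rw [← not_le, V'.valuation_le_one_iff]
    exact hx'
  have hpos : (0 : V'.ValueGroup) < V'.valuation x := zero_lt_one.trans hv'x
  -- the general step
  have key : ∀ d : K, V.valuation d = 1 → V'.valuation x ≤ V'.valuation d →
      ∃ s : inter46 V V', s ∉ centre46 V V' ∧ (s : K) * x ∈ inter46 V V' := by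
    intro d hd hd'
    have hd1 : 1 < V'.valuation d := hv'x.trans_le hd'
    have hd0 : d ≠ 0 := by
      rintro rfl
      rw [map_zero] at hd
      exact zero_ne_one hd
    have hs : V.valuation d⁻¹ = 1 := by rw [map_inv₀, hd, inv_one]
    have hs' : V'.valuation d⁻¹ ≤ 1 := by
      rw [map_inv₀]
      exact inv_le_one_of_one_le₀ hd1.le
    refine ⟨⟨d⁻¹, (V.valuation_le_one_iff _).1 hs.le, (V'.valuation_le_one_iff _).1 hs'⟩, ?_,
      ?_, ?_⟩
    · rw [mem_centre46]
      show ¬ V.valuation d⁻¹ < 1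
      rw [hs]
      exact lt_irrefl _
    · refine (V.valuation_le_one_iff _).1 ?_
      rw [map_mul, hs, one_mul]
      exact hvx
    · refine (V'.valuation_le_one_iff _).1 ?_
      rw [map_mul, map_inv₀, inv_mul_le_iff₀ (zero_lt_one.trans hd1), mul_one]
      exact hd'
  have h1x : V'.valuation (1 + x) = V'.valuation x := by
    have : V'.valuation (1 : K) < V'.valuation x := by rwa [map_one]
    rw [add_comm]
    exact V'.valuation.map_add_eq_of_lt_left this
  have hle : V.valuation (1 + x) ≤ 1 :=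
    (V.valuation_le_one_iff _).2 (V.add_mem _ _ V.one_mem hx)
  rcases hle.eq_or_lt with h | h
  · exact key (1 + x) h h1x.ge
  · refine key (1 + x * (1 + x)) ?_ ?_
    · have h2 : V.valuation (x * (1 + x)) < V.valuation (1 : K) := by
        rw [map_mul, map_one]
        exact (mul_le_of_le_one_left' hvx).trans_lt h
      have := V.valuation.map_add_eq_of_lt_right h2
      rwa [map_one, add_comm] at this
    · have h2 : V'.valuation x ≤ V'.valuation (x * (1 + x)) := by
        rw [map_mul, h1x]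
        exact le_mul_of_one_le_left' hv'x.le
      have h3 : V'.valuation (1 : K) < V'.valuation (x * (1 + x)) := by
        rw [map_one]
        exact hv'x.trans_le h2
      rw [add_comm, V'.valuation.map_add_eq_of_lt_left h3]
      exact h2

/-- the data of two valuation rings of `K` such that `K` is the intersection with `1 / b`
inverted, `b = w₁ w₂` -/
structure Pair46 (V V' : ValuationSubring K) (w₁ w₂ : K) : Prop where
  h1 : w₁ ∈ inter46 V V'
  h2 : w₂ ∈ inter46 V V'
  h12 : w₁ + w₂ = 1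
  hw₁ : V.valuation w₁ < 1
  hw₂ : V'.valuation w₂ < 1
  h0₁ : w₁ ≠ 0
  h0₂ : w₂ ≠ 0
  hK : ∀ x : K, ∃ k : ℕ, (w₁ * w₂) ^ k * x ∈ inter46 V V'

variable {V V' : ValuationSubring K} {w₁ w₂ : K}

lemma Pair46.frac (h : Pair46 V V' w₁ w₂) : IsFractionRing (inter46 V V') K := by
  haveI : FaithfulSMul (inter46 V V') K :=
    (faithfulSMul_iff_algebraMap_injective _ _).mpr Subtype.val_injective
  refine IsFractionRing.of_field _ _ fun z => ?_
  obtain ⟨k, hk⟩ := h.hK z
  have hb : w₁ * w₂ ∈ inter46 V V' := (inter46 V V').mul_mem h.h1 h.h2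
  refine ⟨⟨_, hk⟩, ⟨(w₁ * w₂) ^ k, (inter46 V V').pow_mem hb k⟩, ?_⟩
  show z = (w₁ * w₂) ^ k * z / (w₁ * w₂) ^ k
  have h1 := h.h0₁
  have h2 := h.h0₂
  field_simp

/-- divisibility up to denominators -/
lemma dvd_or46 (V V' : ValuationSubring K) (P₀ : Ideal (inter46 V V'))
    (hle : P₀ ≤ centre46 V V') (l l' : inter46 V V') :
    (∃ r s : inter46 V V', s ∉ P₀ ∧ s * l' = r * l) ∨
      ∃ r s : inter46 V V', s ∉ P₀ ∧ s * l = r * l' := by
  have key : ∀ l l' : inter46 V V', (l : K) ≠ 0 → (l' : K) / l ∈ V →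
      ∃ r s : inter46 V V', s ∉ P₀ ∧ s * l' = r * l := by
    intro l l' hl hV
    obtain ⟨s, hs, hsx⟩ := exists_den46 V V' _ hV
    refine ⟨⟨_, hsx⟩, s, fun h => hs (hle h), ?_⟩
    apply Subtype.ext
    show (s : K) * (l' : K) = (s : K) * ((l' : K) / l) * l
    field_simp
  by_cases hl : (l : K) = 0
  · right
    refine ⟨0, 1, fun h => ?_, ?_⟩
    · exact (centre_prime46 V V').ne_top ((Ideal.eq_top_iff_one _).2 (hle h))
    · apply Subtype.ext
      show (1 : K) * (l : K) = 0 * (l' : K)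
      rw [hl, mul_zero, zero_mul]
  · rcases V.mem_or_inv_mem ((l' : K) / l) with h | h
    · exact Or.inl (key l l' hl h)
    · by_cases hl' : (l' : K) = 0
      · left
        refine ⟨0, 1, fun h => ?_, ?_⟩
        · exact (centre_prime46 V V').ne_top ((Ideal.eq_top_iff_one _).2 (hle h))
        · apply Subtype.ext
          show (1 : K) * (l' : K) = 0 * (l : K)
          rw [hl', mul_zero, zero_mul]
      · right
        rw [inv_div] at h
        exact key l' l hl' h

/-- the localization of the intersection at a prime below the centre of `V` is a valuation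
ring -/
lemma valring46 (V V' : ValuationSubring K) (P₀ : Ideal (inter46 V V')) [hP : P₀.IsPrime]
    (hle : P₀ ≤ centre46 V V') [IsDomain (Localization.AtPrime P₀)] :
    ValuationRing (Localization.AtPrime P₀) := by
  have step : ∀ (l l' : inter46 V V') (s s' : P₀.primeCompl),
      (∃ r s : inter46 V V', s ∉ P₀ ∧ s * l' = r * l) →
      ∃ c, IsLocalization.mk' (Localization.AtPrime P₀) l s * c =
        IsLocalization.mk' (Localization.AtPrime P₀) l' s' := by
    rintro l l' s s' ⟨r, s₁, hs₁, he⟩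
    refine ⟨IsLocalization.mk' (Localization.AtPrime P₀) (r * s) (⟨s₁, hs₁⟩ * s'), ?_⟩
    rw [← IsLocalization.mk'_mul, IsLocalization.mk'_eq_iff_eq]
    congr 1
    show ((s' : inter46 V V')) * (l * (r * s)) = (s : inter46 V V') * (s₁ * s') * l'
    calc ((s' : inter46 V V')) * (l * (r * s)) = (r * l) * (s' * s) := by ring
      _ = (s₁ * l') * (s' * s) := by rw [he]
      _ = _ := by ring
  refine { cond' := fun a b => ?_ }
  obtain ⟨l, s, rfl⟩ := IsLocalization.exists_mk'_eq P₀.primeCompl a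
  obtain ⟨l', s', rfl⟩ := IsLocalization.exists_mk'_eq P₀.primeCompl b
  rcases dvd_or46 V V' P₀ hle l l' with h | h
  · obtain ⟨c, hc⟩ := step l l' s s' h
    exact ⟨c, Or.inl hc⟩
  · obtain ⟨c, hc⟩ := step l' l s' s h
    exact ⟨c, Or.inr hc⟩

/-- all nonzero primes of the intersection contain `b` -/
lemma Pair46.mem_prime (h : Pair46 V V' w₁ w₂) (p : Ideal (inter46 V V')) [hp : p.IsPrime]
    (h0 : p ≠ ⊥) (b : inter46 V V') (hb : (b : K) = w₁ * w₂) : b ∈ p := by
  obtain ⟨x, hx, hx0⟩ := Submodule.exists_mem_ne_zero_of_ne_bot h0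
  obtain ⟨k, hk⟩ := h.hK (x : K)⁻¹
  have hx0' : (x : K) ≠ 0 := fun h => hx0 (Subtype.ext h)
  have h1 : b ^ k = ⟨_, hk⟩ * x := by
    apply Subtype.ext
    show (b : K) ^ k = (w₁ * w₂) ^ k * (x : K)⁻¹ * (x : K)
    rw [hb]
    field_simp
  have h2 : b ^ k ∈ p := by
    rw [h1]
    exact p.mul_mem_left _ hx
  exact hp.mem_of_pow_mem k h2

lemma rank_one46 (h : Pair46 V V' w₁ w₂) (b : inter46 V V') (hb : (b : K) = w₁ * w₂)
    (P₀ : Ideal (inter46 V V')) [hP : P₀.IsPrime]
    (hmin : P₀ ∈ (Ideal.span {b}).minimalPrimes) (𝔭 : Ideal (Localization.AtPrime P₀))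
    (h𝔭 : 𝔭.IsPrime) : 𝔭 = ⊥ ∨ 𝔭.IsMaximal := by
  obtain ⟨p, hpdef⟩ : ∃ p, p = 𝔭.comap (algebraMap (inter46 V V') (Localization.AtPrime P₀)) :=
    ⟨_, rfl⟩
  have hp : p.IsPrime := by
    rw [hpdef]
    exact Ideal.comap_isPrime _ _
  have hmap : p.map (algebraMap (inter46 V V') (Localization.AtPrime P₀)) = 𝔭 := by
    rw [hpdef]
    exact IsLocalization.map_comap P₀.primeCompl _ 𝔭
  have hle : p ≤ P₀ := by
    intro x hx
    by_contra hxP
    have h1 : IsUnit (algebraMap (inter46 V V') (Localization.AtPrime P₀) x) :=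
      IsLocalization.map_units _ (⟨x, hxP⟩ : P₀.primeCompl)
    rw [hpdef] at hx
    exact h𝔭.ne_top (𝔭.eq_top_of_isUnit_mem hx h1)
  by_cases h0 : p = ⊥
  · left
    rw [← hmap, h0, Ideal.map_bot]
  · right
    have h1 : b ∈ p := h.mem_prime p h0 b hb
    have h2 : P₀ ≤ p := hmin.2 ⟨hp, by rwa [Ideal.span_singleton_le_iff_mem]⟩ hle
    have h3 : p = P₀ := le_antisymm hle h2
    rw [← hmap, h3, Localization.AtPrime.map_eq_maximalIdeal]
    exact maximalIdeal.isMaximal _

/-- the localization at a minimal prime of `b` below the centre is henselian -/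
lemma hens46 (hHV : HV95) (h : Pair46 V V' w₁ w₂) [CompatibleRing (inter46 V V')]
    (hN : NIPRing (inter46 V V')) (b : inter46 V V') (hb : (b : K) = w₁ * w₂)
    (P₀ : Ideal (inter46 V V')) [hP : P₀.IsPrime]
    (hmin : P₀ ∈ (Ideal.span {b}).minimalPrimes) (hle : P₀ ≤ centre46 V V') :
    HenselianLocalRing (Localization.AtPrime P₀) := by
  haveI : IsDomain (Localization.AtPrime P₀) :=
    IsLocalization.isDomain_localization P₀.primeCompl_le_nonZeroDivisors
  haveI := valring46 V V' P₀ hle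
  letI : CompatibleRing (Localization.AtPrime P₀) := compatibleRingOfRing _
  refine hHV _ ?_ (fun 𝔭 h𝔭 => rank_one46 h b hb P₀ hmin 𝔭 h𝔭) (nip_atPrime hN P₀)
  intro hf
  have hbP : b ∈ P₀ := (Ideal.span_singleton_le_iff_mem _).1 hmin.1.2
  have h1 : algebraMap (inter46 V V') (Localization.AtPrime P₀) b ∈
      maximalIdeal (Localization.AtPrime P₀) := by
    rwa [IsLocalization.AtPrime.to_map_mem_maximal_iff _ P₀]
  rw [isField_iff_maximalIdeal_eq.1 hf, Ideal.mem_bot] at h1
  have h2 : b = 0 := by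
    have hinj := IsLocalization.injective (Localization.AtPrime P₀)
      P₀.primeCompl_le_nonZeroDivisors
    exact hinj (by rw [h1, map_zero])
  rw [h2] at hb
  exact mul_ne_zero h.h0₁ h.h0₂ hb.symm

end vals

/-- **row V5**: two valuation rings of one field with NIP intersection, if NIP valuation rings of
rank one are henselian -/
theorem no_two_vals95 (hHV : HV95) {K : Type} [Field K] (V V' : ValuationSubring K)
    [CompatibleRing (V.toSubring ⊓ V'.toSubring : Subring K)]
    (hN : NIPRing (V.toSubring ⊓ V'.toSubring : Subring K)) (w₁ w₂ : K) (h1 : w₁ ∈ V)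
    (h1' : w₁ ∈ V') (h2 : w₂ ∈ V) (h2' : w₂ ∈ V') (h12 : w₁ + w₂ = 1) (hw₁ : w₁⁻¹ ∉ V)
    (hw₂ : w₂⁻¹ ∉ V')
    (hK : ∀ x : K, ∃ k : ℕ, (w₁ * w₂) ^ k * x ∈ V ∧ (w₁ * w₂) ^ k * x ∈ V') : False := by
  have hval : ∀ (U : ValuationSubring K) (w : K), w⁻¹ ∉ U → U.valuation w < 1 := by
    intro U w hw
    by_contra hcon
    push Not at hcon
    apply hw
    rw [← U.valuation_le_one_iff, map_inv₀]
    exact inv_le_one_of_one_le₀ hcon
  have h0₁ : w₁ ≠ 0 := by
    rintro rfl
    rw [inv_zero] at hw₁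
    exact hw₁ V.zero_mem
  have h0₂ : w₂ ≠ 0 := by
    rintro rfl
    rw [inv_zero] at hw₂
    exact hw₂ V'.zero_mem
  have h : Pair46 V V' w₁ w₂ := ⟨⟨h1, h1'⟩, ⟨h2, h2'⟩, h12, hval V w₁ hw₁, hval V' w₂ hw₂, h0₁,
    h0₂, hK⟩
  haveI := h.frac
  haveI : IsIntegrallyClosed (inter46 V V') := by
    rw [isIntegrallyClosed_iff K]
    intro x hx
    exact ⟨⟨x, integral_mem82 V (fun y => y.2.1) hx, integral_mem82 V' (fun y => y.2.2) hx⟩, rfl⟩
  obtain ⟨b, hb⟩ : ∃ b : inter46 V V', (b : K) = w₁ * w₂ :=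
    ⟨⟨_, (inter46 V V').mul_mem h.h1 h.h2⟩, rfl⟩
  have hmul : b = ⟨w₁, h.h1⟩ * ⟨w₂, h.h2⟩ := Subtype.ext hb
  have hbP : Ideal.span {b} ≤ centre46 V V' := by
    rw [Ideal.span_singleton_le_iff_mem, hmul]
    exact Ideal.mul_mem_right _ _ h.hw₁
  obtain ⟨P₀, hmin, hle⟩ := Ideal.exists_minimalPrimes_le hbP
  haveI hP₀ : P₀.IsPrime := hmin.1.1
  have hH := hens46 hHV h hN b hb P₀ hmin hle
  obtain ⟨Q, hQdef⟩ : ∃ Q : Ideal (inter46 V V'),
      Q = centreG46 (inter46 V V') V' (fun _ h => h.2) := ⟨_, rfl⟩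
  haveI hQ : Q.IsPrime := by
    rw [hQdef]
    infer_instance
  have hw2P : (⟨w₂, h.h2⟩ : inter46 V V') ∉ centre46 V V' := by
    intro h3
    have h4 : (1 : inter46 V V') ∈ centre46 V V' := by
      have h5 : (1 : inter46 V V') = ⟨w₁, h.h1⟩ + ⟨w₂, h.h2⟩ := Subtype.ext h12.symm
      rw [h5]
      exact Ideal.add_mem _ h.hw₁ h3
    exact (centre_prime46 V V').ne_top ((Ideal.eq_top_iff_one _).2 h4)
  have hw1Q : (⟨w₁, h.h1⟩ : inter46 V V') ∉ Q := by
    intro h3
    have h4 : (1 : inter46 V V') ∈ Q := by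
      have h5 : (1 : inter46 V V') = ⟨w₁, h.h1⟩ + ⟨w₂, h.h2⟩ := Subtype.ext h12.symm
      rw [h5]
      refine Ideal.add_mem _ h3 ?_
      rw [hQdef]
      exact h.hw₂
    exact hQ.ne_top ((Ideal.eq_top_iff_one _).2 h4)
  have hw1P₀ : (⟨w₁, h.h1⟩ : inter46 V V') ∈ P₀ := by
    have h3 : b ∈ P₀ := (Ideal.span_singleton_le_iff_mem _).1 hmin.1.2
    rw [hmul] at h3
    rcases hP₀.mem_or_mem h3 with h4 | h4
    · exact h4
    · exact absurd (hle h4) hw2P
  rcases theoremPK46 (K := K) hN P₀ Q hH (over_finite_normal82 Q) with h3 | h3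
  · exact hw1Q (h3 hw1P₀)
  · refine hw2P (hle (h3 ?_))
    rw [hQdef]
    exact h.hw₂

end Pool.Agent.AIC
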